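import Mathlib

set_option autoImplicit false
open Filter Topology InnerProductSpace Laplacian

namespace Pool.Agent.H96.Harm

theorem second_line {E : Type*} [NormedAddCommGroup E] [NormedSpace ℝ E] (f : E → ℝ) (x v : E)
    (hf : ContDiffAt ℝ 2 f x) :
    iteratedFDeriv ℝ 2 f x ![v, v] = deriv (deriv fun t : ℝ => f (x + t • v)) 0 := by
  have hl : ∀ t : ℝ, HasDerivAt (fun t : ℝ => x + t • v) v t := fun t => by
    simpa using ((hasDerivAt_id t).smul_const v).const_add x
  have ht : Tendsto (fun t : ℝ => x + t • v) (𝓝 0) (𝓝 x) := by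
    simpa using (hl 0).continuousAt.tendsto
  have h1 : (deriv fun t : ℝ => f (x + t • v)) =ᶠ[𝓝 0] fun t => fderiv ℝ f (x + t • v) v := by
    filter_upwards [ht.eventually (hf.eventually (by simp))] with t h
    exact ((h.differentiableAt (by simp)).hasFDerivAt.comp_hasDerivAt t (hl t)).deriv
  have h2 : DifferentiableAt ℝ (fderiv ℝ f) (x + (0 : ℝ) • v) := by
    simpa using (hf.fderiv_right (m := 1) (by norm_num)).differentiableAt (by simp)
  have h3 := (h2.hasFDerivAt.comp_hasDerivAt (0 : ℝ) (hl 0)).clm_apply (hasDerivAt_const (0 : ℝ) v)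
  rw [h1.deriv_eq, iteratedFDeriv_two_apply]
  have h4 := h3.deriv
  simp only [Function.comp_def, zero_smul, add_zero, map_zero] at h4
  simp [h4]

theorem second_nonneg {E : Type*} [NormedAddCommGroup E] [InnerProductSpace ℝ E]
    [FiniteDimensional ℝ E] (f : E → ℝ) (x : E) (hf : ContDiffAt ℝ 2 f x) (hm : IsLocalMin f x) :
    0 ≤ Δ f x := by
  rw [laplacian_eq_iteratedFDeriv_stdOrthonormalBasis]
  refine Finset.sum_nonneg fun i _ => ?_
  rw [second_line f x _ hf]
  set v := stdOrthonormalBasis ℝ E i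
  have hc : ContinuousAt (fun t : ℝ => x + t • v) 0 := by fun_prop
  have h0 : x + (0 : ℝ) • v = x := by simp
  have h1 : IsLocalMin (fun t : ℝ => f (x + t • v)) 0 :=
    IsLocalMin.comp_continuous (f := f) (g := fun t : ℝ => x + t • v) (by rw [h0]; exact hm) hc
  by_contra h2
  have h3 : ContinuousAt (fun t : ℝ => f (x + t • v)) 0 :=
    ContinuousAt.comp (g := f) (f := fun t : ℝ => x + t • v) (by rw [h0]; exact hf.continuousAt) hc
  have h4 := isLocalMax_of_deriv_deriv_neg (not_le.mp h2) h1.deriv_eq_zero h3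
  have h5 : (fun t : ℝ => f (x + t • v)) =ᶠ[𝓝 0] fun _ => f (x + (0 : ℝ) • v) := by
    filter_upwards [h1, h4] with t a b using le_antisymm b a
  rw [h5.deriv.deriv_eq] at h2
  simp at h2

/-- a coordinate plane read as the complex plane -/
noncomputable def pl {n : ℕ} (i j : Fin n) : EuclideanSpace ℝ (Fin n) →L[ℝ] ℂ :=
  Complex.ofRealCLM.comp (EuclideanSpace.proj i) +
    Complex.I • Complex.ofRealCLM.comp (EuclideanSpace.proj j)

theorem pl_re {n : ℕ} (i j : Fin n) (x : EuclideanSpace ℝ (Fin n)) : (pl i j x).re = x i := by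
  simp [pl]

theorem pl_im {n : ℕ} (i j : Fin n) (x : EuclideanSpace ℝ (Fin n)) : (pl i j x).im = x j := by
  simp [pl]

theorem lap_comp {n : ℕ} (i j : Fin n) (hij : i ≠ j) (u : ℂ → ℝ) (x : EuclideanSpace ℝ (Fin n))
    (hu : ContDiffAt ℝ 2 u (pl i j x)) : Δ (u ∘ pl i j) x = Δ u (pl i j x) := by
  have hc : ContDiffAt ℝ 2 (u ∘ pl i j) x := hu.comp x (pl i j).contDiff.contDiffAt
  rw [laplacian_eq_iteratedFDeriv_orthonormalBasis _ (EuclideanSpace.basisFun (Fin n) ℝ),
    laplacian_eq_iteratedFDeriv_complexPlane]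
  simp only [second_line _ _ _ hc, second_line _ _ _ hu]
  simp only [Function.comp_def, map_add, map_smul]
  rw [Fintype.sum_eq_add i j hij]
  · have h1 : pl i j (EuclideanSpace.basisFun (Fin n) ℝ i) = 1 := by
      apply Complex.ext <;> simp [pl_re, pl_im, hij.symm]
    have h2 : pl i j (EuclideanSpace.basisFun (Fin n) ℝ j) = Complex.I := by
      apply Complex.ext <;> simp [pl_re, pl_im, hij]
    rw [h1, h2]
  · intro k hk
    have h1 : pl i j (EuclideanSpace.basisFun (Fin n) ℝ k) = 0 := by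
      apply Complex.ext <;> simp [pl_re, pl_im, hk.1.symm, hk.2.symm]
    rw [h1]
    simp

theorem harm_comp {n : ℕ} (i j : Fin n) (hij : i ≠ j) (f : ℂ → ℂ) (x : EuclideanSpace ℝ (Fin n))
    (hf : AnalyticAt ℂ f (pl i j x)) : HarmonicAt (fun y => (f (pl i j y)).re) x := by
  have h := hf.harmonicAt_re
  refine ⟨h.1.comp x (pl i j).contDiff.contDiffAt, ?_⟩
  filter_upwards [(pl i j).continuous.continuousAt.tendsto.eventually h.eventually] with y hy
  exact (lap_comp i j hij _ y hy.1).trans hy.2.eq_of_nhds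

theorem harm_sum {E ι : Type*} [NormedAddCommGroup E] [InnerProductSpace ℝ E] [FiniteDimensional ℝ E]
    (s : Finset ι) (f : ι → E → ℝ) (x : E) (h : ∀ i ∈ s, HarmonicAt (f i) x) :
    HarmonicAt (fun y => ∑ i ∈ s, f i y) x := by
  classical
  induction s using Finset.induction_on with
  | empty => simp
  | insert a s ha ih =>
    simp only [Finset.sum_insert ha]
    exact (h a (Finset.mem_insert_self _ _)).add (ih fun i hi => h i (Finset.mem_insert_of_mem hi))

theorem quad_smooth {n : ℕ} (i : Fin n) (c : ℝ) :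
    ContDiff ℝ 2 fun y : EuclideanSpace ℝ (Fin n) => ‖y‖ ^ 2 - c * y i ^ 2 :=
  (contDiff_norm_sq ℝ).sub (contDiff_const.mul ((EuclideanSpace.proj (𝕜 := ℝ) i).contDiff.pow 2))

theorem lap_quad {n : ℕ} (i : Fin n) (c : ℝ) (x : EuclideanSpace ℝ (Fin n)) :
    Δ (fun y : EuclideanSpace ℝ (Fin n) => ‖y‖ ^ 2 - c * y i ^ 2) x = 2 * n - 2 * c := by
  rw [laplacian_eq_iteratedFDeriv_orthonormalBasis _ (EuclideanSpace.basisFun (Fin n) ℝ)]
  simp only [second_line _ _ _ (quad_smooth i c).contDiffAt]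
  have key : ∀ a b d : ℝ, deriv (deriv fun t : ℝ => a + b * t + d * t ^ 2) 0 = 2 * d := by
    intro a b d
    have h1 : (deriv fun t : ℝ => a + b * t + d * t ^ 2) = fun t => b + d * (2 * t) := by
      funext t
      have := (((hasDerivAt_id t).const_mul b).const_add a).fun_add ((hasDerivAt_pow 2 t).const_mul d)
      simpa using this.deriv
    rw [h1]
    simp [mul_comm]
  have h2 : ∀ k, deriv (deriv fun t : ℝ => ‖x + t • EuclideanSpace.basisFun (Fin n) ℝ k‖ ^ 2 -
      c * (x + t • EuclideanSpace.basisFun (Fin n) ℝ k) i ^ 2) 0 =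
      2 * (1 - c * if i = k then 1 else 0) := by
    intro k
    rw [← key (‖x‖ ^ 2 - c * x i ^ 2) (2 * x k - 2 * c * x i * if i = k then 1 else 0)]
    congr 2
    funext t
    rw [norm_add_sq_real, norm_smul, inner_smul_right, (EuclideanSpace.basisFun (Fin n) ℝ).norm_eq_one]
    simp only [EuclideanSpace.basisFun_apply, EuclideanSpace.inner_single_right, PiLp.add_apply,
      PiLp.smul_apply, smul_eq_mul, mul_one, Real.norm_eq_abs, sq_abs, PiLp.single_apply, conj_trivial]
    split_ifs <;> ring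
  simp only [h2, mul_sub, Finset.sum_sub_distrib, ← Finset.mul_sum]
  simp

end Pool.Agent.H96.Harm
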