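import Mathlib

set_option autoImplicit false
open Filter Topology

namespace Pool.Agent.H96.Achv

/-- achievement set -/
def Ach (x : ℕ → ℝ) : Set ℝ := {s : ℝ | ∃ A : Set ℕ, s = ∑' n, A.indicator x n}

theorem summ {x : ℕ → ℝ} (hs : Summable x) (A : Set ℕ) : Summable (A.indicator x) := hs.indicator A

theorem zero_mem (x : ℕ → ℝ) : (0 : ℝ) ∈ Ach x := ⟨∅, by simp⟩

theorem top_mem (x : ℕ → ℝ) : (∑' n, x n) ∈ Ach x := ⟨Set.univ, by simp⟩

theorem bounds {x : ℕ → ℝ} (hx : ∀ n, 0 ≤ x n) (hs : Summable x) {s : ℝ} (h : s ∈ Ach x) :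
    0 ≤ s ∧ s ≤ ∑' n, x n := by
  obtain ⟨A, rfl⟩ := h
  exact ⟨tsum_nonneg fun n => Set.indicator_nonneg (fun i _ => hx i) n,
    (summ hs A).tsum_le_tsum (fun n => Set.indicator_le_self' (fun i _ => hx i) n) hs⟩

theorem symm_mem {x : ℕ → ℝ} (hs : Summable x) {s : ℝ} (h : s ∈ Ach x) :
    (∑' n, x n) - s ∈ Ach x := by
  obtain ⟨A, rfl⟩ := h
  refine ⟨Aᶜ, ?_⟩
  rw [← hs.tsum_sub (summ hs A)]
  congr 1
  funext n
  by_cases h : n ∈ A <;> simp [h]

theorem mem_succ {x : ℕ → ℝ} (hs : Summable x) (s : ℝ) :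
    s ∈ Ach x ↔ s ∈ Ach (fun n => x (n + 1)) ∨ s - x 0 ∈ Ach (fun n => x (n + 1)) := by
  constructor
  · rintro ⟨A, rfl⟩
    rw [(summ hs A).tsum_eq_zero_add]
    have : (∑' n, A.indicator x (n + 1)) ∈ Ach (fun n => x (n + 1)) := ⟨{n | n + 1 ∈ A}, rfl⟩
    by_cases h : 0 ∈ A
    · right; simpa [h] using this
    · left; simpa [h] using this
  · rintro (⟨A, rfl⟩ | ⟨A, h⟩)
    · refine ⟨{n | n ≠ 0 ∧ n - 1 ∈ A}, ?_⟩
      rw [(summ hs _).tsum_eq_zero_add, Set.indicator_of_notMem (by simp), zero_add]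
      congr 1
      funext n
      by_cases h : n ∈ A <;> simp [h]
    · refine ⟨{n | n = 0 ∨ n - 1 ∈ A}, ?_⟩
      rw [(summ hs _).tsum_eq_zero_add, sub_eq_iff_eq_add'.mp h, Set.indicator_of_mem (by simp)]
      congr 2
      funext n
      by_cases h : n ∈ A <;> simp [h]

theorem mem_mul (x : ℕ → ℝ) (q s : ℝ) :
    s ∈ Ach (fun n => q * x n) ↔ ∃ t ∈ Ach x, s = q * t := by
  have h : ∀ A : Set ℕ, ∑' n, A.indicator (fun n => q * x n) n = q * ∑' n, A.indicator x n := by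
    intro A
    rw [← tsum_mul_left]
    congr 1
    funext n
    by_cases h : n ∈ A <;> simp [h]
  constructor
  · rintro ⟨A, rfl⟩
    exact ⟨_, ⟨A, rfl⟩, h A⟩
  · rintro ⟨_, ⟨A, rfl⟩, rfl⟩
    exact ⟨A, (h A).symm⟩

theorem isCompact {x : ℕ → ℝ} (hs : Summable x) : IsCompact (Ach x) := by
  classical
  have hc : Continuous (fun ε : ℕ → Bool => ∑' n, if ε n then x n else 0) := by
    refine continuous_tsum (fun n => ?_) hs.norm (fun n ε => ?_)
    · exact (continuous_of_discreteTopology (f := fun c : Bool => if c then x n else 0)).comp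
        (continuous_apply n)
    · split_ifs <;> simp
  have : Ach x = Set.range (fun ε : ℕ → Bool => ∑' n, if ε n then x n else 0) := by
    ext s
    constructor
    · rintro ⟨A, rfl⟩
      exact ⟨fun n => decide (n ∈ A), by simp [Set.indicator]⟩
    · rintro ⟨ε, rfl⟩
      refine ⟨{n | ε n = true}, ?_⟩
      simp only
      congr 1
      funext n
      by_cases h : ε n = true <;> simp [h]
  rw [this]
  exact isCompact_range hc

/-- coinduction for contractions -/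
theorem coind (S T : Set ℝ) (q a b : ℝ) (hq0 : 0 ≤ q) (hq1 : q < 1) (hT : IsClosed T)
    (hne : T.Nonempty) (hb : ∀ s ∈ S, a ≤ s ∧ s ≤ b)
    (hS : ∀ s ∈ S, ∃ s' ∈ S, ∃ f, s = f + q * s' ∧ ∀ t ∈ T, f + q * t ∈ T) : S ⊆ T := by
  obtain ⟨t0, ht0⟩ := hne
  have key : ∀ n : ℕ, ∀ s ∈ S, ∃ t ∈ T, |s - t| ≤ q ^ n * (|a - t0| + |b - t0|) := by
    intro n
    induction n with
    | zero =>
      intro s hs
      refine ⟨t0, ht0, ?_⟩
      have := hb s hs
      rw [pow_zero, one_mul, abs_le]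
      constructor <;> linarith [neg_abs_le (a - t0), le_abs_self (b - t0), abs_nonneg (a - t0),
        abs_nonneg (b - t0)]
    | succ n ih =>
      intro s hs
      obtain ⟨s', hs', f, rfl, hf⟩ := hS s hs
      obtain ⟨t, ht, h⟩ := ih s' hs'
      refine ⟨_, hf t ht, ?_⟩
      rw [add_sub_add_left_eq_sub, ← mul_sub, abs_mul, abs_of_nonneg hq0, pow_succ', mul_assoc]
      exact mul_le_mul_of_nonneg_left h hq0
  intro s hs
  rw [← hT.closure_eq, Metric.mem_closure_iff]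
  intro ε hε
  have h1 := (tendsto_pow_atTop_nhds_zero_of_lt_one hq0 hq1).mul_const (|a - t0| + |b - t0|)
  rw [zero_mul] at h1
  obtain ⟨n, hn⟩ := (h1.eventually (gt_mem_nhds hε)).exists
  obtain ⟨t, ht, h⟩ := key n s hs
  exact ⟨t, ht, lt_of_le_of_lt h hn⟩

/-- multigeometric sequences -/
noncomputable def mg (m : ℕ) (k : ℕ → ℝ) (q : ℝ) (n : ℕ) : ℝ := k (n % m) * q ^ (n / m)

theorem mg_shift (m : ℕ) (hm : 0 < m) (k : ℕ → ℝ) (q : ℝ) (n : ℕ) :
    mg m k q (n + m) = q * mg m k q n := by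
  simp only [mg, Nat.add_mod_right, Nat.add_div_right n hm, pow_succ]
  ring

theorem mg_hasSum (m : ℕ) (hm : 0 < m) (k : ℕ → ℝ) (q : ℝ) (hq0 : 0 ≤ q) (hq1 : q < 1) :
    HasSum (mg m k q) ((∑ i ∈ Finset.range m, k i) * (1 - q)⁻¹) := by
  have : NeZero m := ⟨hm.ne'⟩
  rw [← (Nat.divModEquiv m).symm.hasSum_iff]
  have h1 := hasSum_geometric_of_lt_one hq0 hq1
  have h2 : HasSum (fun i : Fin m => k i) (∑ i ∈ Finset.range m, k i) := by
    rw [Finset.sum_range]; exact hasSum_fintype _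
  have h3 := h1.mul h2 (summable_mul_of_summable_norm h1.summable.norm h2.summable.norm)
  rw [mul_comm]
  refine h3.congr_fun fun p => ?_
  have e1 : (p.1 * m + p.2) % m = p.2 := by
    rw [Nat.mul_add_mod_self_right, Nat.mod_eq_of_lt p.2.2]
  have e2 : (p.1 * m + p.2) / m = p.1 := by
    rw [mul_comm, Nat.mul_add_div hm, Nat.div_eq_of_lt p.2.2, add_zero]
  show k ((p.1 * m + p.2) % m) * q ^ ((p.1 * m + p.2) / m) = _
  rw [e1, e2, mul_comm]

end Pool.Agent.H96.Achv
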