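import Pool.Agent.H96.Ach

set_option autoImplicit false
open Filter Topology

namespace Pool.Agent.H96.Adj
open Pool.Agent.H96.Achv

/-- the fast convergent sequence -/
noncomputable def xs : ℕ → ℝ := mg 2 (fun i => if i = 0 then 100 else 13) (1 / 10)

/-- the sequence achieving the adjoint Cantorval -/
noncomputable def ys : ℕ → ℝ :=
  mg 4 (fun i => if i = 0 then 47 else if i = 1 then 30 else if i = 2 then 23 else 13) (1 / 10)

theorem xs_pos (n : ℕ) : 0 < xs n := by
  simp only [xs, mg]; split_ifs <;> positivity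

theorem ys_pos (n : ℕ) : 0 < ys n := by
  simp only [ys, mg]; split_ifs <;> positivity

theorem xs_sum : HasSum xs (1130 / 9) := by
  have := mg_hasSum 2 two_pos (fun i => if i = 0 then 100 else 13) (1 / 10) (by norm_num) (by norm_num)
  norm_num [Finset.sum_range_succ] at this
  simpa [xs] using this

theorem ys_sum : HasSum ys (1130 / 9) := by
  have := mg_hasSum 4 (by norm_num)
    (fun i => if i = 0 then 47 else if i = 1 then 30 else if i = 2 then 23 else 13) (1 / 10)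
    (by norm_num) (by norm_num)
  norm_num [Finset.sum_range_succ] at this
  simpa [ys] using this

theorem xs_shift (n : ℕ) : xs (n + 2) = 1 / 10 * xs n := mg_shift 2 two_pos _ _ n
theorem ys_shift (n : ℕ) : ys (n + 4) = 1 / 10 * ys n := mg_shift 4 (by norm_num) _ _ n
theorem xs0 : xs 0 = 100 := by simp [xs, mg]
theorem xs1 : xs 1 = 13 := by simp [xs, mg]

theorem mem_xs (s : ℝ) : s ∈ Ach xs ↔ ∃ t ∈ Ach xs,
    s = 0 + 1 / 10 * t ∨ s = 13 + 1 / 10 * t ∨ s = 100 + 1 / 10 * t ∨ s = 113 + 1 / 10 * t := by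
  have h1 := (summable_nat_add_iff 1).mpr xs_sum.summable
  conv_lhs => rw [mem_succ xs_sum.summable, mem_succ h1, mem_succ h1]
  simp only [add_assoc, Nat.reduceAdd, xs_shift, mem_mul, zero_add, xs0, xs1]
  constructor
  · rintro ((⟨t, ht, h⟩ | ⟨t, ht, h⟩) | (⟨t, ht, h⟩ | ⟨t, ht, h⟩))
    · exact ⟨t, ht, Or.inl h⟩
    · exact ⟨t, ht, Or.inr (Or.inl (by linarith))⟩
    · exact ⟨t, ht, Or.inr (Or.inr (Or.inl (by linarith)))⟩
    · exact ⟨t, ht, Or.inr (Or.inr (Or.inr (by linarith)))⟩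
  · rintro ⟨t, ht, h | h | h | h⟩
    · exact Or.inl (Or.inl ⟨t, ht, h⟩)
    · exact Or.inl (Or.inr ⟨t, ht, by linarith⟩)
    · exact Or.inr (Or.inl ⟨t, ht, by linarith⟩)
    · exact Or.inr (Or.inr ⟨t, ht, by linarith⟩)

/-- subsums of the first block -/
def FF (f : ℝ) : Prop := ∃ a b c d : ℝ, (a = 0 ∨ a = 47) ∧ (b = 0 ∨ b = 30) ∧ (c = 0 ∨ c = 23) ∧
  (d = 0 ∨ d = 13) ∧ f = a + b + c + d

theorem mem_succ' {x : ℕ → ℝ} (hs : Summable x) (s : ℝ) :
    s ∈ Ach x ↔ ∃ a, (a = 0 ∨ a = x 0) ∧ s - a ∈ Ach (fun n => x (n + 1)) := by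
  rw [mem_succ hs]; simp

theorem mem_ys (s : ℝ) : s ∈ Ach ys ↔ ∃ t ∈ Ach ys, ∃ f, FF f ∧ s = f + 1 / 10 * t := by
  have h1 := (summable_nat_add_iff 1).mpr ys_sum.summable
  have h2 := (summable_nat_add_iff 1).mpr h1
  have h3 := (summable_nat_add_iff 1).mpr h2
  have y0 : ys 0 = 47 := by simp [ys, mg]
  have y1 : ys 1 = 30 := by simp [ys, mg]
  have y2 : ys 2 = 23 := by simp [ys, mg]
  have y3 : ys 3 = 13 := by simp [ys, mg]
  conv_lhs => simp only [mem_succ' ys_sum.summable, mem_succ' h1, mem_succ' h2, mem_succ' h3]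
  simp only [add_assoc, Nat.reduceAdd, ys_shift, mem_mul, zero_add, y0, y1, y2, y3]
  constructor
  · rintro ⟨a, ha, b, hb, c, hc, d, hd, t, ht, h⟩
    exact ⟨t, ht, _, ⟨a, b, c, d, ha, hb, hc, hd, rfl⟩, by linarith⟩
  · rintro ⟨t, ht, _, ⟨a, b, c, d, ha, hb, hc, hd, rfl⟩, h⟩
    exact ⟨a, ha, b, hb, c, hc, d, hd, t, ht, by linarith⟩

/-- tails -/
noncomputable def rr (n : ℕ) : ℝ := ∑' k, xs (n + 1 + k)

theorem rr_shift (n : ℕ) : rr (n + 2) = 1 / 10 * rr n := by
  unfold rr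
  rw [← tsum_mul_left]
  congr 1
  funext k
  rw [← xs_shift]; congr 1; ring

theorem rr0 : rr 0 = 230 / 9 := by
  have := xs_sum.summable.tsum_eq_zero_add
  rw [xs_sum.tsum_eq, xs0] at this
  unfold rr
  simp only [zero_add, add_comm 1]
  linarith

theorem rr1 : rr 1 = 113 / 9 := by
  have := xs_sum.summable.sum_add_tsum_nat_add 2
  rw [xs_sum.tsum_eq, Finset.sum_range_succ, Finset.sum_range_one, xs0, xs1] at this
  unfold rr
  simp only [Nat.reduceAdd, add_comm 2]
  linarith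

theorem rr_lt (n : ℕ) : rr n < xs n := by
  induction n using Nat.twoStepInduction with
  | zero => rw [rr0, xs0]; norm_num
  | one => rw [rr1, xs1]; norm_num
  | more n h _ => rw [rr_shift, xs_shift]; linarith

/-- the filled gaps -/
def GG : Set ℝ := {t : ℝ | ∃ n : ℕ, Even n ∧ ∃ F : Finset ℕ, F ⊆ Finset.range n ∧
  (∑ i ∈ F, xs i) + rr n < t ∧ t < (∑ i ∈ F, xs i) + xs n}

theorem sum_ite (F : Finset ℕ) (n : ℕ) (hF : F ⊆ Finset.range n) :
    ∑ i ∈ F, xs i = ∑ i ∈ Finset.range n, if i ∈ F then xs i else 0 := by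
  rw [Finset.sum_ite_mem, Finset.inter_eq_right.mpr hF]

theorem sum_split (F F' : Finset ℕ) (n : ℕ) (hF : F ⊆ Finset.range (n + 2))
    (hF' : F' ⊆ Finset.range n) (h : ∀ i < n, i + 2 ∈ F ↔ i ∈ F') :
    ∑ i ∈ F, xs i = (if 0 ∈ F then 100 else 0) + (if 1 ∈ F then 13 else 0) +
      1 / 10 * ∑ i ∈ F', xs i := by
  rw [sum_ite F _ hF, sum_ite F' _ hF', Finset.sum_range_succ', Finset.sum_range_succ',
    Finset.mul_sum, zero_add, xs0, xs1]
  have : ∑ k ∈ Finset.range n, (if k + 1 + 1 ∈ F then xs (k + 1 + 1) else 0) =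
      ∑ i ∈ Finset.range n, 1 / 10 * (if i ∈ F' then xs i else 0) := by
    apply Finset.sum_congr rfl
    intro i hi
    simp only [add_assoc, Nat.reduceAdd, xs_shift, h i (Finset.mem_range.mp hi)]
    split_ifs <;> simp
  rw [this]; ring

theorem mem_GG (s : ℝ) : s ∈ GG ↔ (230 / 9 < s ∧ s < 100) ∨ ∃ t ∈ GG,
    s = 0 + 1 / 10 * t ∨ s = 13 + 1 / 10 * t ∨ s = 100 + 1 / 10 * t ∨ s = 113 + 1 / 10 * t := by
  classical
  constructor
  · rintro ⟨n, hn, F, hF, h1, h2⟩
    rcases n with _ | _ | n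
    · left
      have : F = ∅ := by simpa using hF
      subst this
      simpa [rr0, xs0] using And.intro h1 h2
    · simp at hn
    · right
      have hs := sum_split F ((Finset.range n).filter (fun i => i + 2 ∈ F)) n hF
        (Finset.filter_subset _ _) (fun i hi => by simp [hi])
      rw [show n + 1 + 1 = n + 2 from rfl, rr_shift, hs] at h1
      rw [show n + 1 + 1 = n + 2 from rfl, xs_shift, hs] at h2
      refine ⟨10 * (s - ((if 0 ∈ F then 100 else 0) + (if 1 ∈ F then 13 else 0))),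
        ⟨n, by simpa [Nat.even_add] using hn, _, Finset.filter_subset (fun i => i + 2 ∈ F) _,
          by linarith, by linarith⟩, ?_⟩
      split_ifs
      · right; right; right; ring
      · right; right; left; ring
      · right; left; ring
      · left; ring
  · have key : ∀ (F0 : Finset ℕ), F0 ⊆ Finset.range 2 → ∀ t ∈ GG,
        (if 0 ∈ F0 then 100 else 0) + (if 1 ∈ F0 then 13 else 0) + 1 / 10 * t ∈ GG := by
      rintro F0 hF0 t ⟨n, hn, F, hF, h1, h2⟩
      have hsub : F0 ∪ F.image (· + 2) ⊆ Finset.range (n + 2) := by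
        intro i hi
        rcases Finset.mem_union.mp hi with h | h
        · have := Finset.mem_range.mp (hF0 h)
          exact Finset.mem_range.mpr (by omega)
        · obtain ⟨j, hj, rfl⟩ := Finset.mem_image.mp h
          have := Finset.mem_range.mp (hF hj)
          exact Finset.mem_range.mpr (by omega)
      have hs := sum_split (F0 ∪ F.image (· + 2)) F n hsub hF (fun i _ => by
        have : i + 2 ∉ F0 := fun h => by have := Finset.mem_range.mp (hF0 h); omega
        simp [this])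
      have e0 : (0 ∈ F0 ∪ F.image (· + 2)) ↔ 0 ∈ F0 := by simp
      have e1 : (1 ∈ F0 ∪ F.image (· + 2)) ↔ 1 ∈ F0 := by simp
      simp only [e0, e1] at hs
      refine ⟨n + 2, by simpa [Nat.even_add] using hn, _, hsub, ?_, ?_⟩
      · rw [hs, rr_shift]; linarith
      · rw [hs, xs_shift]; linarith
    rintro (h | ⟨t, ht, rfl | rfl | rfl | rfl⟩)
    · exact ⟨0, by simp, ∅, by simp, by simpa [rr0] using h.1, by simpa [xs0] using h.2⟩
    · simpa using key ∅ (by simp) t ht
    · simpa using key {1} (by decide) t ht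
    · simpa using key {0} (by decide) t ht
    · have := key {0, 1} (by decide) t ht
      norm_num at this ⊢
      exact this

/-- the adjoint Cantorval -/
def AA : Set ℝ := Ach xs ∪ GG

theorem mem_AA (s : ℝ) : s ∈ AA ↔ (230 / 9 ≤ s ∧ s ≤ 100) ∨ ∃ t ∈ AA,
    s = 0 + 1 / 10 * t ∨ s = 13 + 1 / 10 * t ∨ s = 100 + 1 / 10 * t ∨ s = 113 + 1 / 10 * t := by
  constructor
  · rintro (h | h)
    · obtain ⟨t, ht, h⟩ := (mem_xs s).mp h
      exact Or.inr ⟨t, Or.inl ht, h⟩
    · rcases (mem_GG s).mp h with h | ⟨t, ht, h⟩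
      · exact Or.inl ⟨h.1.le, h.2.le⟩
      · exact Or.inr ⟨t, Or.inr ht, h⟩
  · rintro (⟨h1, h2⟩ | ⟨t, ht | ht, h⟩)
    · rcases h1.eq_or_lt with h1 | h1
      · left
        refine (mem_xs s).mpr ⟨_, top_mem xs, Or.inr (Or.inl ?_)⟩
        rw [xs_sum.tsum_eq]; linarith
      rcases h2.eq_or_lt with h2 | h2
      · left
        exact (mem_xs s).mpr ⟨0, zero_mem xs, Or.inr (Or.inr (Or.inl (by linarith)))⟩
      · exact Or.inr ((mem_GG s).mpr (Or.inl ⟨h1, h2⟩))
    · exact Or.inl ((mem_xs s).mpr ⟨t, ht, h⟩)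
    · exact Or.inr ((mem_GG s).mpr (Or.inr ⟨t, ht, h⟩))

theorem AA_bd (s : ℝ) (h : s ∈ AA) : 0 ≤ s ∧ s ≤ 1130 / 9 := by
  rcases h with h | ⟨n, _, F, hF, h1, h2⟩
  · simpa [xs_sum.tsum_eq] using bounds (fun n => (xs_pos n).le) xs_sum.summable h
  · have h3 : 0 ≤ rr n := tsum_nonneg fun k => (xs_pos _).le
    have h4 : 0 ≤ ∑ i ∈ F, xs i := Finset.sum_nonneg fun i _ => (xs_pos i).le
    have h5 : ∑ i ∈ F, xs i ≤ ∑ i ∈ Finset.range n, xs i :=
      Finset.sum_le_sum_of_subset_of_nonneg hF fun i _ _ => (xs_pos i).le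
    have h6 := sum_le_hasSum (Finset.range (n + 1)) (fun i _ => (xs_pos i).le) xs_sum
    rw [Finset.sum_range_succ] at h6
    constructor <;> linarith

theorem AA_step (d t : ℝ) (ht : t ∈ AA) (hd : d = 0 ∨ d = 13 ∨ d = 100 ∨ d = 113) :
    d + 1 / 10 * t ∈ AA := by
  refine (mem_AA _).mpr (Or.inr ⟨t, ht, ?_⟩)
  rcases hd with rfl | rfl | rfl | rfl <;> simp

theorem AA_F (f t : ℝ) (hf : FF f) (ht : t ∈ AA) : f + 1 / 10 * t ∈ AA := by
  have hb := AA_bd t ht
  have h23 : 23 + 1 / 10 * t ∈ AA := by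
    by_cases h : 230 / 9 ≤ t
    · exact (mem_AA _).mpr (Or.inl ⟨by linarith, by linarith⟩)
    · rcases (mem_AA t).mp ht with h1 | ⟨u, hu, h1⟩
      · exact absurd h1.1 h
      · have hub := AA_bd u hu
        rcases h1 with h1 | h1 | h1 | h1
        · convert AA_step 13 _ (AA_step 100 u hu (by simp)) (by simp) using 1; linarith
        · convert AA_step 13 _ (AA_step 113 u hu (by simp)) (by simp) using 1; linarith
        · exfalso; linarith
        · exfalso; linarith
  have h90 : 90 + 1 / 10 * t ∈ AA := by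
    by_cases h : t ≤ 100
    · exact (mem_AA _).mpr (Or.inl ⟨by linarith, by linarith⟩)
    · rcases (mem_AA t).mp ht with h1 | ⟨u, hu, h1⟩
      · exact absurd h1.2 h
      · have hub := AA_bd u hu
        rcases h1 with h1 | h1 | h1 | h1
        · exfalso; linarith
        · exfalso; linarith
        · convert AA_step 100 _ (AA_step 0 u hu (by simp)) (by simp) using 1; linarith
        · convert AA_step 100 _ (AA_step 13 u hu (by simp)) (by simp) using 1; linarith
  obtain ⟨a, b, c, d, rfl | rfl, rfl | rfl, rfl | rfl, rfl | rfl, rfl⟩ := hf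
  all_goals first
    | (refine AA_step _ t ht ?_; norm_num; done)
    | (convert h23 using 1; norm_num; done)
    | (convert h90 using 1; norm_num; done)
    | (refine (mem_AA _).mpr (Or.inl ⟨?_, ?_⟩) <;> linarith)

theorem AA_sub : AA ⊆ Ach ys := by
  refine coind _ _ (1 / 10) 0 (1130 / 9) (by norm_num) (by norm_num)
    (isCompact ys_sum.summable).isClosed ⟨0, zero_mem _⟩ AA_bd fun s hs => ?_
  have key : ∀ f t, FF f → t ∈ AA → s = f + 1 / 10 * t →
      ∃ s' ∈ AA, ∃ f, s = f + 1 / 10 * s' ∧ ∀ t ∈ Ach ys, f + 1 / 10 * t ∈ Ach ys :=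
    fun f t hf ht h => ⟨t, ht, f, h, fun u hu => (mem_ys _).mpr ⟨u, hu, f, hf, rfl⟩⟩
  have key2 : ∀ f, FF f → f + 23 / 9 ≤ s → s ≤ f + 10 →
      ∃ s' ∈ AA, ∃ f, s = f + 1 / 10 * s' ∧ ∀ t ∈ Ach ys, f + 1 / 10 * t ∈ Ach ys :=
    fun f hf h1 h2 => key f (10 * (s - f)) hf
      ((mem_AA _).mpr (Or.inl ⟨by linarith, by linarith⟩)) (by ring)
  rcases (mem_AA s).mp hs with ⟨h1, h2⟩ | ⟨t, ht, h | h | h | h⟩
  · by_cases c1 : s ≤ 33
    · exact key2 _ ⟨0, 0, 23, 0, by simp, by simp, by simp, by simp, rfl⟩ (by linarith) (by linarith)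
    by_cases c2 : s ≤ 40
    · exact key2 _ ⟨0, 30, 0, 0, by simp, by simp, by simp, by simp, rfl⟩ (by linarith) (by linarith)
    by_cases c3 : s ≤ 46
    · exact key2 _ ⟨0, 0, 23, 13, by simp, by simp, by simp, by simp, rfl⟩ (by linarith) (by linarith)
    by_cases c4 : s ≤ 53
    · exact key2 _ ⟨0, 30, 0, 13, by simp, by simp, by simp, by simp, rfl⟩ (by linarith) (by linarith)
    by_cases c5 : s ≤ 57
    · exact key2 _ ⟨47, 0, 0, 0, by simp, by simp, by simp, by simp, rfl⟩ (by linarith) (by linarith)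
    by_cases c6 : s ≤ 63
    · exact key2 _ ⟨0, 30, 23, 0, by simp, by simp, by simp, by simp, rfl⟩ (by linarith) (by linarith)
    by_cases c7 : s ≤ 70
    · exact key2 _ ⟨47, 0, 0, 13, by simp, by simp, by simp, by simp, rfl⟩ (by linarith) (by linarith)
    by_cases c8 : s ≤ 76
    · exact key2 _ ⟨0, 30, 23, 13, by simp, by simp, by simp, by simp, rfl⟩ (by linarith) (by linarith)
    by_cases c9 : s ≤ 80
    · exact key2 _ ⟨47, 0, 23, 0, by simp, by simp, by simp, by simp, rfl⟩ (by linarith) (by linarith)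
    by_cases c10 : s ≤ 87
    · exact key2 _ ⟨47, 30, 0, 0, by simp, by simp, by simp, by simp, rfl⟩ (by linarith) (by linarith)
    by_cases c11 : s ≤ 93
    · exact key2 _ ⟨47, 0, 23, 13, by simp, by simp, by simp, by simp, rfl⟩ (by linarith) (by linarith)
    · exact key2 _ ⟨47, 30, 0, 13, by simp, by simp, by simp, by simp, rfl⟩ (by linarith) (by linarith)
  · exact key _ t ⟨0, 0, 0, 0, by simp⟩ ht h
  · exact key _ t ⟨0, 0, 0, 13, by simp⟩ ht h
  · exact key _ t ⟨47, 30, 23, 0, by simp, by simp, by simp, by simp, by norm_num⟩ ht h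
  · exact key _ t ⟨47, 30, 23, 13, by simp, by simp, by simp, by simp, by norm_num⟩ ht h

theorem AA_closed : IsClosed AA := by
  have hcl : ∀ s ∈ closure AA, (230 / 9 ≤ s ∧ s ≤ 100) ∨ ∃ t ∈ closure AA,
      s = 0 + 1 / 10 * t ∨ s = 13 + 1 / 10 * t ∨ s = 100 + 1 / 10 * t ∨ s = 113 + 1 / 10 * t := by
    have h1 : ∀ d : ℝ, IsClosed {s : ℝ | 10 * (s - d) ∈ closure AA} := fun d =>
      isClosed_closure.preimage (by fun_prop)
    have h2 : closure AA ⊆ Set.Icc (230 / 9) 100 ∪ ({s : ℝ | 10 * (s - 0) ∈ closure AA} ∪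
        ({s : ℝ | 10 * (s - 13) ∈ closure AA} ∪ ({s : ℝ | 10 * (s - 100) ∈ closure AA} ∪
        {s : ℝ | 10 * (s - 113) ∈ closure AA}))) := by
      apply closure_minimal _ (isClosed_Icc.union ((h1 _).union ((h1 _).union ((h1 _).union (h1 _)))))
      intro s hs
      have h3 : ∀ d t, t ∈ AA → s = d + 1 / 10 * t → 10 * (s - d) ∈ closure AA := by
        intro d t ht h
        rw [show 10 * (s - d) = t by linarith]
        exact subset_closure ht
      rcases (mem_AA s).mp hs with h | ⟨t, ht, h | h | h | h⟩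
      · exact Or.inl h
      · exact Or.inr (Or.inl (h3 _ t ht h))
      · exact Or.inr (Or.inr (Or.inl (h3 _ t ht h)))
      · exact Or.inr (Or.inr (Or.inr (Or.inl (h3 _ t ht h))))
      · exact Or.inr (Or.inr (Or.inr (Or.inr (h3 _ t ht h))))
    intro s hs
    rcases h2 hs with h | h | h | h | h
    · exact Or.inl h
    · exact Or.inr ⟨_, h, Or.inl (by ring)⟩
    · exact Or.inr ⟨_, h, Or.inr (Or.inl (by ring))⟩
    · exact Or.inr ⟨_, h, Or.inr (Or.inr (Or.inl (by ring)))⟩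
    · exact Or.inr ⟨_, h, Or.inr (Or.inr (Or.inr (by ring)))⟩
  have hsub : closure AA \ AA ⊆ Ach xs := by
    refine coind _ _ (1 / 10) 0 (1130 / 9) (by norm_num) (by norm_num)
      (isCompact xs_sum.summable).isClosed ⟨0, zero_mem _⟩ (fun s hs => ?_) fun s hs => ?_
    · exact closure_minimal (t := Set.Icc 0 (1130 / 9)) AA_bd isClosed_Icc hs.1
    · rcases hcl s hs.1 with h | ⟨t, ht, h⟩
      · exact absurd ((mem_AA s).mpr (Or.inl h)) hs.2
      · refine ⟨t, ⟨ht, fun h1 => hs.2 ((mem_AA s).mpr (Or.inr ⟨t, h1, h⟩))⟩, s - 1 / 10 * t,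
          by ring, fun u hu => (mem_xs _).mpr ⟨u, hu, ?_⟩⟩
        rcases h with h | h | h | h
        · left; linarith
        · right; left; linarith
        · right; right; left; linarith
        · right; right; right; linarith
  rw [← closure_subset_iff_isClosed]
  intro s hs
  by_contra h
  exact h (Or.inl (hsub ⟨hs, h⟩))

theorem ys_eq : Ach ys = AA := by
  refine Set.Subset.antisymm ?_ AA_sub
  refine coind _ _ (1 / 10) 0 (∑' n, ys n) (by norm_num) (by norm_num) AA_closed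
    ⟨0, Or.inl (zero_mem _)⟩ (fun s hs => bounds (fun n => (ys_pos n).le) ys_sum.summable hs)
    fun s hs => ?_
  obtain ⟨t, ht, f, hf, h⟩ := (mem_ys s).mp hs
  exact ⟨t, ht, f, h, fun u hu => AA_F f u hf hu⟩

end Pool.Agent.H96.Adj
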