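import Pool.Agent.H96.MR2

set_option autoImplicit false
open scoped Classical
open Set Filter Topology

namespace Pool.Agent.H96.BF

variable {X : Type} [TopologicalSpace X]

/-- back and forth on clopen pairs -/
theorem back_forth [CompactSpace X] [T2Space X] [TotallyDisconnectedSpace X]
    [SecondCountableTopology X] (OK : Set X → Set X → Prop)
    (h0 : OK univ univ) (hne : ∀ U V, OK U V → (U.Nonempty ↔ V.Nonempty))
    (forth : ∀ U V C, OK U V → IsClopen C → ∃ W, IsClopen W ∧ OK (U ∩ C) (V ∩ W) ∧ OK (U ∩ Cᶜ) (V ∩ Wᶜ))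
    (back : ∀ U V C, OK U V → IsClopen C → ∃ W, IsClopen W ∧ OK (U ∩ W) (V ∩ C) ∧ OK (U ∩ Wᶜ) (V ∩ Cᶜ)) :
    ∃ Γ : Set (X × X), IsClosed Γ ∧ Function.Bijective (fun p : Γ => p.1.1) ∧
      Function.Bijective (fun p : Γ => p.1.2) ∧
      ∀ p ∈ Γ, ∀ C, IsClopen C → ∃ U V, OK U V ∧ p.1 ∈ U ∧ p.2 ∈ V ∧ (U ⊆ C ∨ U ⊆ Cᶜ) := by
  have hc : Countable (TopologicalSpace.Clopens X) :=
    TopologicalSpace.Clopens.countable_iff_secondCountable.2 inferInstance
  obtain ⟨c, hcs⟩ := exists_surjective_nat (Bool × TopologicalSpace.Clopens X)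
  have st : ∀ (k : ℕ) (D : Set X × Set X), ∃ E : Set X × Set X, IsClopen E.1 ∧ IsClopen E.2 ∧
      (OK D.1 D.2 → OK (D.1 ∩ E.1) (D.2 ∩ E.2) ∧ OK (D.1 ∩ E.1ᶜ) (D.2 ∩ E.2ᶜ)) ∧
      (OK D.1 D.2 → (if (c k).1 then E.1 else E.2) = (c k).2) := by
    intro k D
    by_cases h : OK D.1 D.2
    · cases hb : (c k).1
      · obtain ⟨W, h1, h2⟩ := back _ _ _ h (c k).2.isClopen
        exact ⟨(W, (c k).2), h1, (c k).2.isClopen, fun _ => h2, fun _ => by simp⟩
      · obtain ⟨W, h1, h2⟩ := forth _ _ _ h (c k).2.isClopen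
        exact ⟨((c k).2, W), (c k).2.isClopen, h1, fun _ => h2, fun _ => by simp⟩
    · exact ⟨(univ, univ), isClopen_univ, isClopen_univ, fun h' => absurd h' h, fun h' => absurd h' h⟩
  choose E hE1 hE2 hE3 hE4 using st
  let nx : ℕ → Bool → Set X × Set X → Set X × Set X := fun k b D =>
    if b then (D.1 ∩ (E k D).1, D.2 ∩ (E k D).2) else (D.1 ∩ (E k D).1ᶜ, D.2 ∩ (E k D).2ᶜ)
  let D : List Bool → Set X × Set X := fun l =>
    List.rec (univ, univ) (fun b l' d => nx l'.length b d) l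
  have hD : ∀ b l, D (b :: l) = nx l.length b (D l) := fun _ _ => rfl
  have hOK : ∀ l, OK (D l).1 (D l).2 := by
    intro l
    induction l with
    | nil => exact h0
    | cons b l ih => rw [hD]; cases b <;> simp [nx, hE3 _ _ ih]
  let a : ℕ → X → List Bool := fun k =>
    Nat.rec (fun _ => []) (fun k f x => decide (x ∈ (E k (D (f x))).1) :: f x) k
  let b : ℕ → X → List Bool := fun k =>
    Nat.rec (fun _ => []) (fun k f x => decide (x ∈ (E k (D (f x))).2) :: f x) k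
  have ha : ∀ k x, a (k + 1) x = decide (x ∈ (E k (D (a k x))).1) :: a k x := fun _ _ => rfl
  have hb : ∀ k x, b (k + 1) x = decide (x ∈ (E k (D (b k x))).2) :: b k x := fun _ _ => rfl
  have la : ∀ k x, (a k x).length = k := fun k x => by
    induction k with
    | zero => rfl
    | succ k ih => rw [ha, List.length_cons, ih]
  have lb : ∀ k x, (b k x).length = k := fun k x => by
    induction k with
    | zero => rfl
    | succ k ih => rw [hb, List.length_cons, ih]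
  have ia : ∀ l x, x ∈ (D l).1 ↔ a l.length x = l := fun l x => by
    induction l with
    | nil => exact ⟨fun _ => rfl, fun _ => trivial⟩
    | cons t l ih =>
      rw [hD, List.length_cons, ha, List.cons.injEq]
      constructor
      · intro h
        have h1 : x ∈ (D l).1 := by cases t <;> exact h.1
        rw [ih.1 h1]
        cases t
        · exact ⟨decide_eq_false h.2, rfl⟩
        · exact ⟨decide_eq_true h.2, rfl⟩
      · rintro ⟨h1, h2⟩
        rw [h2] at h1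
        cases t
        · exact ⟨ih.2 h2, of_decide_eq_false h1⟩
        · exact ⟨ih.2 h2, of_decide_eq_true h1⟩
  have ib : ∀ l x, x ∈ (D l).2 ↔ b l.length x = l := fun l x => by
    induction l with
    | nil => exact ⟨fun _ => rfl, fun _ => trivial⟩
    | cons t l ih =>
      rw [hD, List.length_cons, hb, List.cons.injEq]
      constructor
      · intro h
        have h1 : x ∈ (D l).2 := by cases t <;> exact h.1
        rw [ih.1 h1]
        cases t
        · exact ⟨decide_eq_false h.2, rfl⟩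
        · exact ⟨decide_eq_true h.2, rfl⟩
      · rintro ⟨h1, h2⟩
        rw [h2] at h1
        cases t
        · exact ⟨ih.2 h2, of_decide_eq_false h1⟩
        · exact ⟨ih.2 h2, of_decide_eq_true h1⟩
  have ma : ∀ k x, x ∈ (D (a k x)).1 := fun k x => (ia _ _).2 (by rw [la])
  have mb : ∀ k x, x ∈ (D (b k x)).2 := fun k x => (ib _ _).2 (by rw [lb])
  let _ : TopologicalSpace (List Bool) := ⊥
  have : DiscreteTopology (List Bool) := ⟨rfl⟩
  have cd : ∀ S : Set X, IsClopen S → ∀ l : List Bool, Continuous fun x => decide (x ∈ S) :: l :=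
    fun S hS l => (continuous_of_discreteTopology (f := fun t : Bool => t :: l)).comp
      ((continuous_boolIndicator_iff_isClopen S).2 hS |>.congr fun x => by
        by_cases hx : x ∈ S <;> simp [boolIndicator, hx])
  have ca : ∀ k, Continuous (a k) := by
    intro k
    induction k with
    | zero => exact continuous_const
    | succ k ih =>
      exact MR.cont_dep ih (f := fun l x => decide (x ∈ (E k (D l)).1) :: l)
        (fun l => cd _ (hE1 _ _) l)
  have cb : ∀ k, Continuous (b k) := by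
    intro k
    induction k with
    | zero => exact continuous_const
    | succ k ih =>
      exact MR.cont_dep ih (f := fun l x => decide (x ∈ (E k (D l)).2) :: l)
        (fun l => cd _ (hE2 _ _) l)
  have sep : ∀ x x' : X, x ≠ x' → ∃ C, IsClopen C ∧ x ∈ C ∧ x' ∉ C := fun x x' h => by
    obtain ⟨C, h1, h2, h3⟩ := compact_exists_isClopen_in_isOpen (isOpen_compl_singleton (x := x')) h
    exact ⟨C, h1, h2, fun h => h3 h rfl⟩
  have da : ∀ C, IsClopen C → ∃ k, ∀ x, (D (a (k + 1) x)).1 ⊆ C ∨ (D (a (k + 1) x)).1 ⊆ Cᶜ := by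
    intro C hC
    obtain ⟨k, hk⟩ := hcs (true, ⟨C, hC⟩)
    refine ⟨k, fun x => ?_⟩
    have := hE4 k _ (hOK (a k x))
    simp only [hk, if_true] at this
    rw [ha, hD, la]
    cases decide (x ∈ (E k (D (a k x))).1)
    · exact Or.inr fun y hy => by have := this ▸ hy.2; exact this
    · exact Or.inl fun y hy => by have := this ▸ hy.2; exact this
  have db : ∀ C, IsClopen C → ∃ k, ∀ x, (D (b (k + 1) x)).2 ⊆ C ∨ (D (b (k + 1) x)).2 ⊆ Cᶜ := by
    intro C hC
    obtain ⟨k, hk⟩ := hcs (false, ⟨C, hC⟩)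
    refine ⟨k, fun x => ?_⟩
    have := hE4 k _ (hOK (b k x))
    simp only [hk, Bool.false_eq_true, if_false] at this
    rw [hb, hD, lb]
    cases decide (x ∈ (E k (D (b k x))).2)
    · exact Or.inr fun y hy => by have := this ▸ hy.2; exact this
    · exact Or.inl fun y hy => by have := this ▸ hy.2; exact this
  refine ⟨{p | ∀ k, a k p.1 = b k p.2}, ?_, ⟨?_, fun x => ?_⟩, ⟨?_, fun y => ?_⟩, fun p hp C hC => ?_⟩
  · rw [ofPred_forall]
    exact isClosed_iInter fun k => isClosed_eq ((ca k).comp continuous_fst) ((cb k).comp continuous_snd)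
  · rintro ⟨⟨x, y⟩, h⟩ ⟨⟨x', y'⟩, h'⟩ hx
    obtain rfl : x = x' := hx
    obtain rfl : y = y' := by
      by_contra hy
      obtain ⟨C, h1, h2, h3⟩ := sep _ _ hy
      obtain ⟨k, hk⟩ := db C h1
      have e : b (k + 1) y' = b (k + 1) y := (h' (k + 1)).symm.trans (h (k + 1))
      rcases hk y with h4 | h4
      · exact h3 (h4 (e ▸ mb (k + 1) y'))
      · exact h4 (mb (k + 1) y) h2
    rfl
  · obtain ⟨y, hy⟩ := IsCompact.nonempty_iInter_of_sequence_nonempty_isCompact_isClosed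
      (fun k => {y | a k x = b k y}) (fun k y hy => (List.cons.inj hy).2)
      (fun k => by
        obtain ⟨y, hy⟩ := (hne _ _ (hOK (a k x))).1 ⟨x, ma k x⟩
        rw [ib, la] at hy
        exact ⟨y, hy.symm⟩)
      (isClosed_eq continuous_const (cb 0)).isCompact fun k => isClosed_eq continuous_const (cb k)
    exact ⟨⟨(x, y), mem_iInter.1 hy⟩, rfl⟩
  · rintro ⟨⟨x, y⟩, h⟩ ⟨⟨x', y'⟩, h'⟩ hy
    obtain rfl : y = y' := hy
    obtain rfl : x = x' := by
      by_contra hx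
      obtain ⟨C, h1, h2, h3⟩ := sep _ _ hx
      obtain ⟨k, hk⟩ := da C h1
      have e : a (k + 1) x' = a (k + 1) x := (h' (k + 1)).trans (h (k + 1)).symm
      rcases hk x with h4 | h4
      · exact h3 (h4 (e ▸ ma (k + 1) x'))
      · exact h4 (ma (k + 1) x) h2
    rfl
  · obtain ⟨x, hx⟩ := IsCompact.nonempty_iInter_of_sequence_nonempty_isCompact_isClosed
      (fun k => {x | a k x = b k y}) (fun k y hy => (List.cons.inj hy).2)
      (fun k => by
        obtain ⟨x, hx⟩ := (hne _ _ (hOK (b k y))).2 ⟨y, mb k y⟩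
        rw [ia, lb] at hx
        exact ⟨x, hx⟩)
      (isClosed_eq (ca 0) continuous_const).isCompact fun k => isClosed_eq (ca k) continuous_const
    exact ⟨⟨(x, y), mem_iInter.1 hx⟩, rfl⟩
  · obtain ⟨k, hk⟩ := da C hC
    exact ⟨_, _, hOK (a (k + 1) p.1), ma (k + 1) _, hp (k + 1) ▸ mb (k + 1) p.2, hk _⟩

/-- points that avoid the sets A j for j > N -/
def Sp (A : ℕ → Set X) (N : ℕ) : Set X := {x | ∀ j, N < j → x ∉ A j}

/-- richness of a sequence of clopen sets -/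
def Rich (A : ℕ → Set X) : Prop := (∀ j, IsClopen (A j)) ∧
  (∀ U, IsOpen U → U.Nonempty → ∃ N, (U ∩ Sp A N).Nonempty) ∧
  ∀ N U, IsOpen U → ∀ x ∈ U ∩ Sp A N, ∃ x' ∈ U ∩ Sp A N, x' ≠ x

/-- admissible pairs -/
def Adm (A B : ℕ → Set X) (t0 : ℕ) (U V : Set X) : Prop := IsClopen U ∧ IsClopen V ∧
  ((U = ∅ ∧ V = ∅) ∨ ∃ t, (U ∩ Sp A t).Nonempty ∧ (V ∩ Sp B t).Nonempty ∧
    ∀ j, t0 < j → j ≤ t → ∀ x ∈ U, ∀ y ∈ V, ¬ (x ∈ A j ∧ y ∈ B j))

lemma Adm.symm {A B : ℕ → Set X} {t0 : ℕ} {U V : Set X} (h : Adm A B t0 U V) : Adm B A t0 V U :=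
  ⟨h.2.1, h.1, h.2.2.imp (fun h => h.symm) fun ⟨t, h1, h2, h3⟩ =>
    ⟨t, h2, h1, fun j a b y hy x hx h => h3 j a b x hx y hy h.symm⟩⟩

lemma Sp_mono (A : ℕ → Set X) {N N' : ℕ} (h : N ≤ N') : Sp A N ⊆ Sp A N' :=
  fun _ hx j hj => hx j (h.trans_lt hj)

lemma forth1 [CompactSpace X] [T2Space X] [TotallyDisconnectedSpace X] {A B : ℕ → Set X}
    (hA : Rich A) (hB : Rich B) {t0 t : ℕ} {U V C : Set X} (hU : IsClopen U) (hV : IsClopen V)
    (hC : IsClopen C) (h1 : (U ∩ Cᶜ ∩ Sp A t).Nonempty) (h2 : (V ∩ Sp B t).Nonempty)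
    (h3 : ∀ j, t0 < j → j ≤ t → ∀ x ∈ U, ∀ y ∈ V, ¬ (x ∈ A j ∧ y ∈ B j)) :
    ∃ W, IsClopen W ∧ Adm A B t0 (U ∩ C) (V ∩ W) ∧ Adm A B t0 (U ∩ Cᶜ) (V ∩ Wᶜ) := by
  rcases eq_empty_or_nonempty (U ∩ C) with he | hne
  · exact ⟨∅, isClopen_empty, ⟨hU.inter hC, hV.inter isClopen_empty, Or.inl ⟨he, inter_empty _⟩⟩,
      hU.inter hC.compl, hV.inter isClopen_empty.compl, Or.inr ⟨t, h1, by simpa using h2,
        fun j a b x hx y hy => h3 j a b x hx.1 y hy.1⟩⟩
  obtain ⟨N, hN⟩ := hA.2.1 _ (hU.inter hC).isOpen hne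
  obtain ⟨y, hy⟩ := h2
  obtain ⟨y', hy', hne⟩ := hB.2.2 t V hV.isOpen y hy
  have ho : IsOpen ({y}ᶜ ∩ ⋂ j ∈ Finset.Ioc t N, (B j)ᶜ) :=
    isOpen_compl_singleton.inter (isOpen_biInter_finset fun j _ => (hB.1 j).compl.isOpen)
  obtain ⟨W, hW, hyW, hWs⟩ := compact_exists_isClopen_in_isOpen ho (x := y')
    ⟨hne, mem_iInter₂.2 fun j hj => hy'.2 j (Finset.mem_Ioc.1 hj).1⟩
  refine ⟨W, hW, ⟨hU.inter hC, hV.inter hW, Or.inr ⟨max t N,
    hN.mono (inter_subset_inter_right _ (Sp_mono A (le_max_right _ _))),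
    ⟨y', ⟨hy'.1, hyW⟩, Sp_mono B (le_max_left _ _) hy'.2⟩, fun j a b x hx z hz h => ?_⟩⟩,
    hU.inter hC.compl, hV.inter hW.compl, Or.inr ⟨t, h1, ⟨y, ⟨hy.1, fun h => (hWs h).1 rfl⟩, hy.2⟩,
      fun j a b x hx y hy => h3 j a b x hx.1 y hy.1⟩⟩
  rcases le_or_gt j t with hj | hj
  · exact h3 j a hj x hx.1 z hz.1 h
  · exact mem_iInter₂.1 (hWs hz.2).2 j (Finset.mem_Ioc.2 ⟨hj, by omega⟩) h.2

lemma forth2 [CompactSpace X] [T2Space X] [TotallyDisconnectedSpace X] {A B : ℕ → Set X}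
    (hA : Rich A) (hB : Rich B) (t0 : ℕ) (U V C : Set X) (h : Adm A B t0 U V) (hC : IsClopen C) :
    ∃ W, IsClopen W ∧ Adm A B t0 (U ∩ C) (V ∩ W) ∧ Adm A B t0 (U ∩ Cᶜ) (V ∩ Wᶜ) := by
  obtain ⟨hU, hV, ⟨rfl, rfl⟩ | ⟨t, ⟨x, hx⟩, h2, h3⟩⟩ := h
  · exact ⟨∅, isClopen_empty, by simp [Adm, isClopen_empty], by simp [Adm, isClopen_empty]⟩
  by_cases hxC : x ∈ C
  · obtain ⟨W, h4, h5, h6⟩ := forth1 hA hB hU hV hC.compl ⟨x, ⟨hx.1, by simpa using hxC⟩, hx.2⟩ h2 h3
    rw [compl_compl] at h6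
    exact ⟨Wᶜ, h4.compl, h6, by rwa [compl_compl]⟩
  · exact forth1 hA hB hU hV hC ⟨x, ⟨hx.1, hxC⟩, hx.2⟩ h2 h3

theorem graph [CompactSpace X] [T2Space X] [TotallyDisconnectedSpace X] [Nonempty X]
    [SecondCountableTopology X] {A B : ℕ → Set X} (hA : Rich A) (hB : Rich B) :
    ∃ φ : X ≃ₜ X, ∃ t0, ∀ x j, t0 < j → ¬ (x ∈ A j ∧ φ x ∈ B j) := by
  obtain ⟨N, hN⟩ := hA.2.1 _ isOpen_univ univ_nonempty
  obtain ⟨N', hN'⟩ := hB.2.1 _ isOpen_univ univ_nonempty
  obtain ⟨Γ, h1, h2, h3, h4⟩ := back_forth (Adm A B (max N N'))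
    ⟨isClopen_univ, isClopen_univ, Or.inr ⟨max N N',
      hN.mono (inter_subset_inter_right _ (Sp_mono A (le_max_left _ _))),
      hN'.mono (inter_subset_inter_right _ (Sp_mono B (le_max_right _ _))),
      fun j a b => absurd b (not_le.2 a)⟩⟩
    (fun U V h => by
      rcases h.2.2 with ⟨rfl, rfl⟩ | ⟨t, a, b, -⟩
      · rfl
      · exact ⟨fun _ => b.left, fun _ => a.left⟩)
    (forth2 hA hB _) (fun U V C h hC => by
      obtain ⟨W, a, b, c⟩ := forth2 hB hA _ V U C h.symm hC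
      exact ⟨W, a, b.symm, c.symm⟩)
  have : CompactSpace Γ := isCompact_iff_compactSpace.1 h1.isCompact
  let e1 : Γ ≃ₜ X := Continuous.homeoOfEquivCompactToT2 (f := Equiv.ofBijective _ h2)
    (continuous_fst.comp continuous_subtype_val)
  let e2 : Γ ≃ₜ X := Continuous.homeoOfEquivCompactToT2 (f := Equiv.ofBijective _ h3)
    (continuous_snd.comp continuous_subtype_val)
  refine ⟨e1.symm.trans e2, max N N', fun x j hj h => ?_⟩
  obtain ⟨p, rfl⟩ := e1.surjective x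
  rw [Homeomorph.trans_apply, Homeomorph.symm_apply_apply] at h
  obtain ⟨U, V, ⟨-, -, h5⟩, hU, hV, h6⟩ := h4 p.1 p.2 _ (hA.1 j)
  rcases h5 with ⟨rfl, -⟩ | ⟨t, ⟨x, hx⟩, -, h5⟩
  · exact hU
  rcases le_or_gt j t with ht | ht
  · exact h5 j hj ht _ hU _ hV h
  · rcases h6 with h6 | h6
    · exact hx.2 j ht (h6 hx.1)
    · exact h6 hU h.1

end Pool.Agent.H96.BF
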