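import Mathlib

set_option autoImplicit false
open scoped Classical
open Set

namespace Pool.Agent.H96.BS

def aP : Equiv.Perm ℚ := Equiv.addRight 1
def tP : Equiv.Perm ℚ := Equiv.mulLeft₀ 2 two_ne_zero

/-- the affine group generated by s + 1 and 2 s -/
abbrev G : Type := Subgroup.closure ({aP, tP} : Set (Equiv.Perm ℚ))

def a : G := ⟨aP, Subgroup.subset_closure (by simp)⟩
def t : G := ⟨tP, Subgroup.subset_closure (by simp)⟩

lemma a_smul (s : ℚ) : a • s = s + 1 := rfl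
lemma t_smul (s : ℚ) : t • s = 2 * s := rfl

lemma ext_G {g g' : G} (h : ∀ s : ℚ, g • s = g' • s) : g = g' :=
  Subtype.ext (Equiv.ext h)

lemma ai_smul (s : ℚ) : a⁻¹ • s = s - 1 := by
  rw [inv_smul_eq_iff, a_smul]; ring

lemma ti_smul (s : ℚ) : t⁻¹ • s = s / 2 := by
  rw [inv_smul_eq_iff, t_smul]; ring

lemma apow_smul (n : ℕ) (s : ℚ) : a ^ n • s = s + n := by
  induction n with
  | zero => simp
  | succ n ih => rw [pow_succ', mul_smul, ih, a_smul]; push_cast; ring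

lemma azpow_smul (n : ℤ) (s : ℚ) : a ^ n • s = s + n := by
  obtain ⟨m, rfl | rfl⟩ := n.eq_nat_or_neg
  · rw [zpow_natCast, apow_smul]; simp
  · rw [zpow_neg, zpow_natCast, inv_smul_eq_iff, apow_smul]; simp

lemma G_ind {p : G → Prop} (h1 : p 1) (ha : p a) (ha' : p a⁻¹) (ht : p t) (ht' : p t⁻¹)
    (hm : ∀ x y, p x → p y → p (x * y)) (g : G) : p g := by
  obtain ⟨g, hg⟩ := g
  induction hg using Subgroup.closure_induction'' with
  | one => exact h1
  | mem x hx => rcases hx with rfl | rfl; exacts [ha, ht]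
  | inv_mem x hx => rcases hx with rfl | rfl; exacts [ha', ht']
  | mul x y hx hy h h' => exact hm _ _ h h'

lemma affine (g : G) : ∃ c β : ℚ, ∀ s : ℚ, g • s = c * s + β := by
  induction g using G_ind with
  | h1 => exact ⟨1, 0, by simp⟩
  | ha => exact ⟨1, 1, by simp [a_smul]⟩
  | ha' => exact ⟨1, -1, fun s => by rw [ai_smul]; ring⟩
  | ht => exact ⟨2, 0, by simp [t_smul]⟩
  | ht' => exact ⟨1 / 2, 0, fun s => by rw [ti_smul]; ring⟩
  | hm x y hx hy =>
    obtain ⟨c, β, h⟩ := hx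
    obtain ⟨c', β', h'⟩ := hy
    exact ⟨c * c', c * β' + β, fun s => by rw [mul_smul, h', h]; ring⟩

lemma apow_inj {n m : ℕ} (h : a ^ n = a ^ m) : n = m := by
  have := congrArg (fun g : G => g • (0 : ℚ)) h
  simpa [apow_smul] using this

/-- images of windows are covered by boundedly many windows -/
def Tame (f : G) (K : ℕ) : Prop := ∀ h : ℕ, ∃ T : Finset G, T.card ≤ K ∧
  ∀ n < h, ∃ g ∈ T, ∃ n' < h, f * a ^ n = a ^ n' * g

lemma tame (f : G) : ∃ K, Tame f K := by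
  induction f using G_ind with
  | h1 => exact ⟨1, fun h => ⟨{1}, by simp, fun n hn => ⟨1, by simp, n, hn, by simp⟩⟩⟩
  | ha => exact ⟨1, fun h => ⟨{a}, by simp, fun n hn => ⟨a, by simp, n, hn, by group⟩⟩⟩
  | ha' => exact ⟨1, fun h => ⟨{a⁻¹}, by simp, fun n hn => ⟨a⁻¹, by simp, n, hn, by group⟩⟩⟩
  | ht =>
    refine ⟨2, fun h => ⟨{t, a ^ h * t}, Finset.card_le_two, fun n hn => ?_⟩⟩
    rcases lt_or_ge (2 * n) h with h1 | h1
    · refine ⟨t, by simp, 2 * n, h1, ext_G fun s => ?_⟩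
      simp only [mul_smul, apow_smul, t_smul]; push_cast; ring
    · obtain ⟨m, hm⟩ := Nat.exists_eq_add_of_le h1
      refine ⟨a ^ h * t, by simp, m, by omega, ext_G fun s => ?_⟩
      have : (2 * n : ℚ) = h + m := by exact_mod_cast hm
      simp only [mul_smul, apow_smul, t_smul]; linarith
  | ht' =>
    refine ⟨2, fun h => ⟨{t⁻¹, t⁻¹ * a}, Finset.card_le_two, fun n hn => ?_⟩⟩
    obtain ⟨m, rfl | rfl⟩ := n.even_or_odd'
    · refine ⟨t⁻¹, by simp, m, by omega, ext_G fun s => ?_⟩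
      simp only [mul_smul, apow_smul, ti_smul]; push_cast; ring
    · refine ⟨t⁻¹ * a, by simp, m, by omega, ext_G fun s => ?_⟩
      simp only [mul_smul, apow_smul, ti_smul, a_smul]; push_cast; ring
  | hm x y hx hy =>
    obtain ⟨K, h1⟩ := hx
    obtain ⟨K', h2⟩ := hy
    refine ⟨K * K', fun h => ?_⟩
    obtain ⟨T, a1, a2⟩ := h1 h
    obtain ⟨T', b1, b2⟩ := h2 h
    refine ⟨Finset.image₂ (· * ·) T T', (Finset.card_image₂_le _ _ _).trans (Nat.mul_le_mul a1 b1),
      fun n hn => ?_⟩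
    obtain ⟨g', c1, n', c2, c3⟩ := b2 n hn
    obtain ⟨g, d1, n'', d2, d3⟩ := a2 n' c2
    exact ⟨g * g', Finset.mem_image₂_of_mem d1 c1, n'', d2, by
      rw [mul_assoc, c3, ← mul_assoc, d3, mul_assoc]⟩

/-- at most D points of O in a window of length h -/
def Sparse {V : Type} [MulAction G V] (O : Set V) (h D : ℕ) : Prop :=
  ∀ v : V, ((Finset.range h).filter fun n => a ^ n • v ∈ O).card ≤ D

def Cnt (F : Set G) (C : ℕ) : Prop := ∀ (V : Type) [MulAction G V] (O : Set V) (h D : ℕ),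
  Sparse O h D → ∀ v : V, ((Finset.range h).filter fun n => ∃ f ∈ F, f • a ^ n • v ∈ O).card ≤ C * D

lemma cnt_one (f : G) : ∃ C, Cnt {f} C := by
  obtain ⟨K, hK⟩ := tame f
  refine ⟨K, fun V _ O h D hO v => ?_⟩
  obtain ⟨T, h1, h2⟩ := hK h
  choose! g hg n' hn he using h2
  refine le_trans (Finset.card_le_card_of_injOn (t := T.biUnion fun g' =>
    (((Finset.range h).filter fun n => a ^ n • g' • v ∈ O).image fun n => (g', n)))
    (fun n => (g n, n' n)) (fun n hn' => ?_) (fun n h3 m h4 e => ?_)) ?_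
  · simp only [Finset.coe_filter, Finset.mem_range, mem_singleton_iff, exists_eq_left,
      mem_ofPred_eq] at hn'
    simp only [Finset.coe_biUnion, Finset.mem_coe, Finset.coe_image, Finset.coe_filter,
      Finset.mem_range, mem_iUnion, mem_image, mem_ofPred_eq]
    refine ⟨g n, hg n hn'.1, n' n, ⟨hn n hn'.1, ?_⟩, rfl⟩
    rw [← mul_smul, ← he n hn'.1, mul_smul]; exact hn'.2
  · simp only [Finset.coe_filter, Finset.mem_range, mem_ofPred_eq] at h3 h4
    simp only [Prod.mk.injEq] at e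
    have := he n h3.1
    rw [e.1, e.2, ← he m h4.1] at this
    exact apow_inj (mul_left_cancel this)
  · refine (Finset.card_biUnion_le_card_mul _ _ D fun g' _ =>
      Finset.card_image_le.trans (hO _)).trans (Nat.mul_le_mul_right _ h1)

lemma cnt (F : Set G) (hF : F.Finite) : ∃ C, Cnt F C := by
  induction F, hF using Set.Finite.induction_on with
  | empty => exact ⟨0, fun V _ O h D _ v => by simp⟩
  | @insert f F _ _ ih =>
    obtain ⟨C, hC⟩ := ih
    obtain ⟨C', hC'⟩ := cnt_one f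
    refine ⟨C' + C, fun V _ O h D hO v => ?_⟩
    rw [add_mul]
    refine le_trans (Finset.card_le_card ?_) ((Finset.card_union_le _ _).trans
      (add_le_add (hC' V O h D hO v) (hC V O h D hO v)))
    intro n hn
    simp only [Finset.mem_filter, Finset.mem_union, mem_insert_iff, mem_singleton_iff] at hn ⊢
    obtain ⟨h1, f', rfl | h2, h3⟩ := hn
    · exact Or.inl ⟨h1, _, rfl, h3⟩
    · exact Or.inr ⟨h1, _, h2, h3⟩

abbrev A : Type := ZMod 3 × ZMod 3

structure Lev where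
  F : Set G
  p : G → A
  S : Set G
  h : ℕ
  b : ℕ
  n : ℕ

section
variable {V V' : Type} [MulAction G V] [MulAction G V']

def Occ (l : Lev) (Bad P : Set V) (π : V → A) (w : V) : Prop :=
  ∀ f ∈ l.F, f • w ∈ P ∧ f • w ∉ Bad ∧ π (f • w) = l.p f

def Q (l : Lev) (Bad P : Set V) (π : V → A) (v : V) : Prop :=
  (∃ n < 3 * l.h, Occ l Bad P π (a ^ n • v)) ∨
    ((Finset.range l.h).filter fun n => ∃ s ∈ l.S, s • a ^ n • a ^ l.h • v ∈ P ∪ Bad).card ≤ l.b

def Pr (P : Set V) (π : V → A) (v : V) : Prop :=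
  v ∈ P → t • v ∈ P → t • v ≠ v → (π (t • v)).1 ≠ (π v).1

def QQ (L : List Lev) (Bad : Lev → Set V) (P : Set V) (π : V → A) (v : V) : Prop :=
  Pr P π v ∧ ∀ l ∈ L, Q l (Bad l) P π v

def Dm (l : Lev) (Bad : Set V) (ξ : V → A) (v : V) : Prop :=
  ∃ n < 3 * l.h, Occ l Bad univ ξ (a ^ n • v)

def Dep (L : List Lev) : Set G :=
  {1, t} ∪ {d | ∃ l ∈ L, ∃ n < 3 * l.h, ∃ f ∈ l.F ∪ l.S, d = f * a ^ n}

lemma QQ.transfer {L : List Lev} {Bad : Lev → Set V} {P : Set V} {π : V → A} {v : V}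
    {Bad' : Lev → Set V'} {P' : Set V'} {π' : V' → A} {v' : V'} (h : QQ L Bad P π v)
    (h1 : ∀ d ∈ Dep L, (d • v ∈ P ↔ d • v' ∈ P') ∧ (d • v ∈ P → π' (d • v') = π (d • v)) ∧
      ∀ l ∈ L, d • v' ∈ Bad' l → d • v ∈ Bad l) (h2 : t • v = v → t • v' = v') :
    QQ L Bad' P' π' v' := by
  refine ⟨fun b1 b2 b3 => ?_, fun l hl => ?_⟩
  · have c1 := h1 1 (Or.inl (by simp))
    have c2 := h1 t (Or.inl (by simp))
    simp only [one_smul] at c1
    rw [c1.2.1 (c1.1.2 b1), c2.2.1 (c2.1.2 b2)]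
    exact h.1 (c1.1.2 b1) (c2.1.2 b2) (fun e => b3 (h2 e))
  · rcases h.2 l hl with ⟨n, hn, ho⟩ | hc
    · refine Or.inl ⟨n, hn, fun f hf => ?_⟩
      have c := h1 _ (Or.inr ⟨l, hl, n, hn, f, Or.inl hf, rfl⟩)
      simp only [mul_smul] at c
      obtain ⟨e1, e2, e3⟩ := ho f hf
      exact ⟨c.1.1 e1, fun e => e2 (c.2.2 l hl e), (c.2.1 e1).trans e3⟩
    · refine Or.inr (le_trans (Finset.card_le_card fun n hn => ?_) hc)
      simp only [Finset.mem_filter, Finset.mem_range] at hn ⊢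
      obtain ⟨e1, s, hs, e2⟩ := hn
      have c := h1 _ (Or.inr ⟨l, hl, n + l.h, by omega, s, Or.inr hs, rfl⟩)
      simp only [mul_smul, pow_add] at c
      exact ⟨e1, s, hs, e2.imp c.1.2 (c.2.2 l hl)⟩

end

/-- compatibility of a new level with the lower ones -/
structure Step (l : Lev) (L : List Lev) : Prop where
  fF : l.F.Finite
  fS : l.S.Finite
  q : ∀ g : G, QQ L (fun _ => (∅ : Set G)) l.F l.p g
  dep : ∀ d ∈ Dep L, ∀ d' ∈ Dep L, ∀ f ∈ l.F, d' * d⁻¹ * f ∈ l.S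
  one : 1 ∈ l.S
  cnt : ∃ C, Cnt (image2 (fun s s' => s⁻¹ * s') l.S l.S) C ∧ l.b + C < l.h

def Good : List Lev → Prop
  | [] => True
  | l :: L => Step l L ∧ Good L

lemma pick : ∀ x y : ZMod 3, ∃ z, z ≠ x ∧ z ≠ y := by decide

lemma fill0 {V : Type} [MulAction G V] (par : V → Prop)
    (hpar : ∀ v, t • v ≠ v → (par (t • v) ↔ ¬ par v)) (P : Set V) (π : V → A) (h : ∀ v, Pr P π v) :
    ∃ ξ : V → A, (∀ v ∈ P, ξ v = π v) ∧ ∀ v, Pr univ ξ v := by
  choose c h1 h2 using pick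
  let π1 : V → A := fun v => if v ∈ P then π v else (c (π (t • v)).1 (π (t⁻¹ • v)).1, 0)
  refine ⟨fun v => if v ∈ P ∨ par v then π1 v else (c (π1 (t • v)).1 (π1 (t⁻¹ • v)).1, 0),
    fun v hv => by simp [hv, π1], fun v _ _ hv => ?_⟩
  have hp := hpar v hv
  by_cases e1 : v ∈ P ∨ par v <;> by_cases e2 : t • v ∈ P ∨ par (t • v)
  · simp only [e1, e2, if_true, π1]
    by_cases b1 : v ∈ P <;> by_cases b2 : t • v ∈ P
    · simpa [b1, b2] using h v b1 b2 hv
    · simpa [b1, b2] using h2 _ _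
    · simpa [b1, b2] using (h1 _ _).symm
    · tauto
  · simp only [e1, e2, if_true, if_false, inv_smul_smul]
    exact h2 _ _
  · simp only [e1, e2, if_true, if_false]
    exact (h1 _ _).symm
  · tauto

theorem fill {V : Type} [MulAction G V] (par : V → Prop)
    (hpar : ∀ v, t • v ≠ v → (par (t • v) ↔ ¬ par v)) (hfree : ∀ (v : V) (n : ℕ), 0 < n → a ^ n • v ≠ v)
    (Bad : Lev → Set V) : ∀ L : List Lev, Good L → L.Pairwise (fun l l' => Bad l' ⊆ Bad l) →
      (∀ l ∈ L, ∀ w ∉ Bad l, InjOn (fun f : G => f • w) l.S) →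
      ∀ (P : Set V) (π : V → A), (∀ v, QQ L Bad P π v) →
        ∃ ξ : V → A, (∀ v ∈ P, ξ v = π v) ∧ (∀ v, Pr univ ξ v) ∧ ∀ l ∈ L, ∀ v, Dm l (Bad l) ξ v
  | [], _, _, _, P, π, h => by
    obtain ⟨ξ, h1, h2⟩ := fill0 par hpar P π fun v => (h v).1
    exact ⟨ξ, h1, h2, by simp⟩
  | l :: L, hG, hB, hI, P, π, h => by
    obtain ⟨hS, hG⟩ := hG
    rw [List.pairwise_cons] at hB
    have FS : ∀ f ∈ l.F, f ∈ l.S := fun f hf => by
      simpa using hS.dep 1 (Or.inl (by simp)) 1 (Or.inl (by simp)) f hf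
    let R : V → V → Prop := fun o o' => (∀ s ∈ l.S, s • o ∉ P ∪ Bad l) ∧
      (∀ n < l.h, 0 < n → a ^ n • o ≠ o') ∧ ∀ s ∈ l.S, ∀ s' ∈ l.S, s • o = s' • o' → o = o'
    obtain ⟨O, hO⟩ := zorn_subset {O : Set V | ∀ o ∈ O, ∀ o' ∈ O, R o o'} (fun c hc hch =>
      ⟨⋃₀ c, by
        rintro o ⟨s, hs, ho⟩ o' ⟨s', hs', ho'⟩
        rcases hch.total hs hs' with e | e
        · exact hc hs' o (e ho) o' ho'
        · exact hc hs o ho o' (e ho'), fun s hs => subset_sUnion_of_mem hs⟩)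
    have hR := hO.prop
    have inj : ∀ o ∈ O, InjOn (fun f : G => f • o) l.S := fun o ho =>
      hI l (by simp) o fun e => (hR o ho o ho).1 1 hS.one (Or.inr (by simpa using e))
    let P' : Set V := P ∪ {v | ∃ f ∈ l.F, ∃ o ∈ O, f • o = v}
    have ex : ∃ π' : V → A, (∀ v ∈ P, π' v = π v) ∧ ∀ f ∈ l.F, ∀ o ∈ O, π' (f • o) = l.p f := by
      refine ⟨fun v => if e : ∃ f ∈ l.F, ∃ o ∈ O, f • o = v then l.p e.choose else π v,
        fun v hv => dif_neg ?_, fun f hf o ho => ?_⟩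
      · rintro ⟨f, hf, o, ho, rfl⟩
        exact (hR o ho o ho).1 f (FS f hf) (Or.inl hv)
      · have e : ∃ f' ∈ l.F, ∃ o' ∈ O, f' • o' = f • o := ⟨f, hf, o, ho, rfl⟩
        refine (dif_pos e).trans ?_
        obtain ⟨e1, o', e2, e3⟩ := e.choose_spec
        obtain rfl := (hR o' e2 o ho).2.2 _ (FS _ e1) _ (FS _ hf) e3
        rw [inj _ ho (FS _ e1) (FS _ hf) e3]
    obtain ⟨π', p1, p2⟩ := ex
    obtain ⟨ξ, x1, x2, x3⟩ := fill par hpar hfree Bad L hG hB.2
      (fun l' hl' => hI l' (List.mem_cons_of_mem _ hl')) P' π' (fun v => by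
        by_cases e : ∃ d ∈ Dep L, ∃ f ∈ l.F, ∃ o ∈ O, f • o = d • v
        · obtain ⟨d, hd, f, hf, o, ho, e⟩ := e
          obtain rfl : v = (d⁻¹ * f) • o := by rw [mul_smul, e, inv_smul_smul]
          refine (hS.q (d⁻¹ * f)).transfer (fun d' hd' => ?_) (fun e' => ?_)
          · have m := hS.dep d hd d' hd' f hf
            have e1 : d' • (d⁻¹ * f) • o = (d' * d⁻¹ * f) • o := by rw [← mul_smul, mul_assoc]
            rw [e1, smul_eq_mul, ← mul_assoc]
            refine ⟨⟨fun b => Or.inr ⟨_, b, o, ho, rfl⟩, ?_⟩, fun b => p2 _ b o ho, fun l' hl' b =>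
              (hR o ho o ho).1 _ m (Or.inr (hB.1 l' hl' b))⟩
            rintro (b | ⟨f', hf', o', ho', b⟩)
            · exact absurd (Or.inl b) ((hR o ho o ho).1 _ m)
            · obtain rfl := (hR o' ho' o ho).2.2 _ (FS _ hf') _ m b
              rw [← inj _ ho (FS _ hf') m b]; exact hf'
          · rw [← mul_smul, ← smul_eq_mul, e']
        · refine QQ.transfer (L := L) ⟨(h v).1, fun l' hl' => (h v).2 l' (List.mem_cons_of_mem _ hl')⟩
            (fun d hd => ⟨⟨Or.inl, ?_⟩, p1 _, fun _ _ => id⟩) id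
          rintro (b | b)
          · exact b
          · exact absurd ⟨d, hd, b⟩ e)
    refine ⟨ξ, fun v hv => (x1 v (Or.inl hv)).trans (p1 v hv), x2, fun l' hl' v => ?_⟩
    rcases List.mem_cons.1 hl' with rfl | hl'
    swap
    · exact x3 l' hl' v
    rcases (h v).2 l' (by simp) with ⟨n, hn, ho⟩ | hc
    · exact ⟨n, hn, fun f hf => ⟨trivial, (ho f hf).2.1, by
        rw [x1 _ (Or.inl (ho f hf).1), p1 _ (ho f hf).1, (ho f hf).2.2]⟩⟩
    by_contra hno
    have hno' : ∀ m < 3 * l'.h, a ^ m • v ∉ O := fun m hm ho => hno ⟨m, hm, fun f hf =>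
      ⟨trivial, fun b => (hR _ ho _ ho).1 f (FS f hf) (Or.inr b), by
        rw [x1 _ (Or.inr ⟨f, hf, _, ho, rfl⟩), p2 f hf _ ho]⟩⟩
    obtain ⟨C, hC, hb⟩ := hS.cnt
    have sp : Sparse O l'.h 1 := fun w => Finset.card_le_one.2 fun n hn m hm => by
      simp only [Finset.mem_filter, Finset.mem_range] at hn hm
      by_contra hne
      rcases lt_or_gt_of_ne hne with b | b
      · obtain ⟨j, rfl⟩ := Nat.exists_eq_add_of_lt b
        exact (hR _ hn.2 _ hm.2).2.1 (j + 1) (by omega) (by omega)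
          (by rw [← mul_smul, ← pow_add]; congr 2; ring)
      · obtain ⟨j, rfl⟩ := Nat.exists_eq_add_of_lt b
        exact (hR _ hm.2 _ hn.2).2.1 (j + 1) (by omega) (by omega)
          (by rw [← mul_smul, ← pow_add]; congr 2; ring)
    have := hC V O l'.h 1 sp (a ^ l'.h • v)
    have key := Finset.card_le_card (s := Finset.range l'.h) (t := ((Finset.range l'.h).filter
        fun n => ∃ s ∈ l'.S, s • a ^ n • a ^ l'.h • v ∈ P ∪ Bad l') ∪ ((Finset.range l'.h).filter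
        fun n => ∃ f ∈ image2 (fun s s' => s⁻¹ * s') l'.S l'.S, f • a ^ n • a ^ l'.h • v ∈ O))
      (fun n hn => by
      rw [Finset.mem_union, Finset.mem_filter, Finset.mem_filter, ← and_or_left]
      refine ⟨hn, ?_⟩
      rw [Finset.mem_range] at hn
      by_contra hh
      push Not at hh
      set w := a ^ n • a ^ l'.h • v with hw
      have hw' : w = a ^ (n + l'.h) • v := by rw [pow_add, mul_smul]
      have hin : insert w O ∈ {O : Set V | ∀ o ∈ O, ∀ o' ∈ O, R o o'} := by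
        rintro o (rfl | ho) o' (rfl | ho')
        · exact ⟨hh.1, fun j _ hj => hfree _ j hj, fun _ _ _ _ _ => rfl⟩
        · refine ⟨hh.1, fun j hj _ e => hno' (j + (n + l'.h)) (by omega) ?_, fun s hs s' hs' e =>
            absurd ?_ (hh.2 _ (mem_image2_of_mem hs' hs))⟩
          · rwa [pow_add, mul_smul, ← hw', e]
          · rwa [mul_smul, e, inv_smul_smul]
        · refine ⟨(hR o ho o ho).1, fun j hj _ e => hno' (n + l'.h - j) (by omega) ?_,
            fun s hs s' hs' e => absurd ?_ (hh.2 _ (mem_image2_of_mem hs hs'))⟩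
          · have : a ^ j • o = a ^ j • a ^ (n + l'.h - j) • v := by
              rw [e, hw', ← mul_smul, ← pow_add]; congr 2; omega
            rwa [← smul_left_cancel _ this]
          · rwa [mul_smul, ← e, inv_smul_smul]
        · exact hR o ho o' ho'
      exact hno' (n + l'.h) (by omega) (hw' ▸ hO.le_of_ge hin (subset_insert _ _) (mem_insert _ _)))
    have := key.trans (Finset.card_union_le _ _)
    rw [Finset.card_range] at this
    omega

end Pool.Agent.H96.BS
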