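import Pool.Agent.H96.BS1

set_option autoImplicit false
open scoped Classical
open Set

namespace Pool.Agent.H96.BS

lemma card_le_of_close (s : Finset ℕ) (φ : ℕ → ℤ) (D : ℕ) (h1 : InjOn φ s)
    (h2 : ∀ x ∈ s, ∀ y ∈ s, φ x < φ y + D) : s.card ≤ D := by
  rcases s.eq_empty_or_nonempty with rfl | hne
  · simp
  obtain ⟨y, hy, hm⟩ := s.exists_min_image φ hne
  have := Finset.card_le_card_of_injOn (t := Finset.Ico (φ y) (φ y + D)) φ
    (fun x hx => by simpa using ⟨hm x hx, h2 x hx y hy⟩) h1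
  simpa using this

def blk (H : ℕ) (g : G) : ℤ := ⌊g • (0 : ℚ)⌋ / H

lemma blk_pow (H n : ℕ) (g : G) : blk H (a ^ n • g) = (⌊g • (0 : ℚ)⌋ + n) / H := by
  rw [blk, smul_eq_mul, mul_smul, apow_smul, Int.floor_add_natCast]

def Sel (Oc : G → Prop) (H : ℕ) : Set G := {o | Oc o ∧
  ((∀ n : ℕ, 0 < n → Oc (a ^ n • o) → blk H (a ^ n • o) ≠ blk H o) ∨
    ∀ n : ℕ, 0 < n → ∀ o', a ^ n • o' = o → Oc o' → blk H o' ≠ blk H o)}

lemma div_close {i x : ℤ} {H : ℕ} (hH : 0 < H) (h : (i + x) / H = i / H) : x < H := by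
  have h0 : (0 : ℤ) < H := by exact_mod_cast hH
  have a1 := Int.mul_ediv_add_emod (i + x) H
  have a2 := Int.mul_ediv_add_emod i H
  have a3 := Int.emod_lt_of_pos (i + x) h0
  have a4 := Int.emod_nonneg i h0.ne'
  rw [h] at a1
  linarith

lemma sel1 (Oc : G → Prop) {H : ℕ} {v : G} (h : ∃ n < H, Oc (a ^ n • v)) :
    ∃ n < H, a ^ n • v ∈ Sel Oc H := by
  have hH : 0 < H := by obtain ⟨n, hn, -⟩ := h; omega
  have h0 : (0 : ℤ) < H := by exact_mod_cast hH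
  by_cases e : ∃ n < H, Oc (a ^ n • v) ∧ blk H (a ^ n • v) = blk H v
  · obtain ⟨n, hn, hm⟩ := ((Finset.range H).filter fun n =>
      Oc (a ^ n • v) ∧ blk H (a ^ n • v) = blk H v).exists_max_image id (by
        obtain ⟨n, hn, h⟩ := e
        exact ⟨n, by simpa using ⟨hn, h⟩⟩)
    simp only [Finset.mem_filter, Finset.mem_range, id] at hn hm
    refine ⟨n, hn.1, hn.2.1, Or.inl fun m h1 h2 h3 => ?_⟩
    rw [← mul_smul, ← pow_add] at h2 h3
    rw [hn.2.2] at h3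
    have h4 := h3
    rw [blk_pow] at h4
    have := div_close hH h4
    have := hm (m + n) ⟨by exact_mod_cast this, h2, h3⟩
    omega
  · push Not at e
    refine ⟨Nat.find h, (Nat.find_spec h).1, (Nat.find_spec h).2, Or.inr fun m h1 o' h2 h3 h4 => ?_⟩
    have hs := Nat.find_spec h
    rcases le_or_gt m (Nat.find h) with b | b
    · refine Nat.find_min h (m := Nat.find h - m) (by omega) ⟨by omega, ?_⟩
      have : a ^ m • o' = a ^ m • a ^ (Nat.find h - m) • v := by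
        rw [h2, ← mul_smul, ← pow_add]; congr 2; omega
      rwa [← smul_left_cancel _ this]
    · apply e _ hs.1 hs.2
      have c1 : ⌊o' • (0 : ℚ)⌋ + m = ⌊v • (0 : ℚ)⌋ + Nat.find h := by
        have := congrArg (fun g : G => ⌊g • (0 : ℚ)⌋) h2
        simpa only [smul_eq_mul, mul_smul, apow_smul, Int.floor_add_natCast] using this
      refine le_antisymm ?_ ?_
      · rw [← h4]; exact Int.ediv_le_ediv h0 (by omega)
      · rw [blk_pow]; exact Int.ediv_le_ediv h0 (by omega)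

lemma sel2 (Oc : G → Prop) {H h : ℕ} (hh : h ≤ H) : Sparse (Sel Oc H) h 4 := by
  intro v
  have cl : ∀ x < h, ∀ y < h, blk H (a ^ x • v) < blk H (a ^ y • v) + (2 : ℕ) := fun x hx y hy => by
    have h0 : (0 : ℤ) < H := by omega
    rw [blk_pow, blk_pow]
    have := Int.ediv_le_ediv h0 (a := ⌊v • (0 : ℚ)⌋ + x) (b := ⌊v • (0 : ℚ)⌋ + y + 1 * H) (by omega)
    rw [Int.add_mul_ediv_right _ _ h0.ne'] at this
    omega
  let s1 := (Finset.range h).filter fun x => Oc (a ^ x • v) ∧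
    ∀ n : ℕ, 0 < n → Oc (a ^ n • a ^ x • v) → blk H (a ^ n • a ^ x • v) ≠ blk H (a ^ x • v)
  let s2 := (Finset.range h).filter fun x => Oc (a ^ x • v) ∧
    ∀ n : ℕ, 0 < n → ∀ o', a ^ n • o' = a ^ x • v → Oc o' → blk H o' ≠ blk H (a ^ x • v)
  have pw : ∀ x j : ℕ, a ^ (j + 1) • a ^ x • v = a ^ (x + j + 1) • v := fun x j => by
    rw [← mul_smul, ← pow_add]; congr 2; ring
  have c1 : s1.card ≤ 2 := card_le_of_close s1 (fun x => blk H (a ^ x • v)) 2 (fun x hx y hy e => by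
      simp only [s1, Finset.coe_filter, mem_ofPred_eq] at hx hy
      by_contra hne
      rcases lt_or_gt_of_ne hne with b | b <;> obtain ⟨j, rfl⟩ := Nat.exists_eq_add_of_lt b
      · exact hx.2.2 (j + 1) (by omega) (pw _ _ ▸ hy.2.1) (pw _ _ ▸ e.symm)
      · exact hy.2.2 (j + 1) (by omega) (pw _ _ ▸ hx.2.1) (pw _ _ ▸ e))
    fun x hx y hy => cl x (Finset.mem_range.1 (Finset.mem_filter.1 hx).1) y
      (Finset.mem_range.1 (Finset.mem_filter.1 hy).1)
  have c2 : s2.card ≤ 2 := card_le_of_close s2 (fun x => blk H (a ^ x • v)) 2 (fun x hx y hy e => by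
      simp only [s2, Finset.coe_filter, mem_ofPred_eq] at hx hy
      by_contra hne
      rcases lt_or_gt_of_ne hne with b | b <;> obtain ⟨j, rfl⟩ := Nat.exists_eq_add_of_lt b
      · exact hy.2.2 (j + 1) (by omega) _ (pw _ _) hx.2.1 e
      · exact hx.2.2 (j + 1) (by omega) _ (pw _ _) hy.2.1 e.symm)
    fun x hx y hy => cl x (Finset.mem_range.1 (Finset.mem_filter.1 hx).1) y
      (Finset.mem_range.1 (Finset.mem_filter.1 hy).1)
  refine le_trans (Finset.card_le_card (t := s1 ∪ s2) fun x hx => ?_)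
    ((Finset.card_union_le _ _).trans (by omega))
  simp only [s1, s2, Finset.mem_union, Finset.mem_filter] at hx ⊢
  exact hx.2.2.imp (fun b => ⟨hx.1, hx.2.1, b⟩) fun b => ⟨hx.1, hx.2.1, b⟩

def ExtP (L : List Lev) (U : Set G) : Prop := ∀ (E Bad : Set G) (ω : G → A), Bad ⊆ E →
  (∀ u ∈ U, ∀ e ∈ E, Pr univ ω (u • e) ∧ ∀ l ∈ L, Dm l Bad ω (u • e)) →
  ∃ E', E ⊆ E' ∧ (∀ v ∈ E', ∃ u ∈ U, ∃ e ∈ E, v = u • e) ∧ ∀ v, QQ L (fun _ => Bad) E' ω v

lemma ext_nil : ExtP [] {1} := fun E _ ω _ h =>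
  ⟨E, Subset.rfl, fun v hv => ⟨1, rfl, v, hv, by simp⟩, fun v =>
    ⟨fun h1 _ h3 => by simpa using (h 1 rfl v h1).1 trivial trivial (by simpa using h3), by simp⟩⟩

lemma ext_step {L : List Lev} {U : Set G} (hE : ExtP L U) (hU : U.Finite) {l : Lev}
    (hF : l.F.Finite) (hS : l.S.Finite) {C : ℕ}
    (hC : Cnt (image2 (fun f x => f⁻¹ * x) l.F (image2 (fun u s => u⁻¹ * s) U l.S)) C)
    (hb : C * 4 ≤ l.b) : ∃ U', U'.Finite ∧ ExtP (l :: L) U' := by
  let W1 : Set G := image2 (fun n x => (a ^ n * a ^ l.h)⁻¹ * x) (Iio l.h)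
    (image2 (fun s u => s⁻¹ * u) l.S U)
  let W2 : Set G := insert 1 (image2 (· * ·) l.F (image2 (fun m w => a ^ m * w) (Iio (3 * l.h)) W1))
  have f1 : W1.Finite := (finite_Iio _).image2 _ (hS.image2 _ hU)
  have f2 : W2.Finite := (hF.image2 _ ((finite_Iio _).image2 _ f1)).insert _
  refine ⟨W1 ∪ image2 (· * ·) U W2, f1.union (hU.image2 _ f2), fun E Bad ω hB h => ?_⟩
  let O := Sel (Occ l Bad univ ω) (3 * l.h)
  let E1 : Set G := E ∪ {v | ∃ f ∈ l.F, ∃ m < 3 * l.h, ∃ w ∈ W1, ∃ e ∈ E,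
    a ^ m • w • e ∈ O ∧ v = f • a ^ m • w • e}
  have hE1 : ∀ e1 ∈ E1, ∃ w ∈ W2, ∃ e ∈ E, e1 = w • e := by
    rintro e1 (h1 | ⟨f, hf, m, hm, w, hw, e, he, -, rfl⟩)
    · exact ⟨1, Or.inl rfl, e1, h1, by simp⟩
    · exact ⟨_, Or.inr (mem_image2_of_mem hf (mem_image2_of_mem hm hw)), e, he, by
        simp only [mul_smul]⟩
  obtain ⟨E', b1, b2, b3⟩ := hE E1 Bad ω (hB.trans subset_union_left) fun u hu e1 he1 => by
    obtain ⟨w, hw, e, he, rfl⟩ := hE1 e1 he1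
    have := h _ (Or.inr (mem_image2_of_mem hu hw)) e he
    rw [mul_smul] at this
    exact ⟨this.1, fun l' hl' => this.2 l' (List.mem_cons_of_mem _ hl')⟩
  refine ⟨E', subset_union_left.trans b1, fun v hv => ?_, fun v => ⟨(b3 v).1, fun l' hl' => ?_⟩⟩
  · obtain ⟨u, hu, e1, he1, rfl⟩ := b2 v hv
    obtain ⟨w, hw, e, he, rfl⟩ := hE1 e1 he1
    exact ⟨_, Or.inr (mem_image2_of_mem hu hw), e, he, by rw [mul_smul]⟩
  rcases List.mem_cons.1 hl' with rfl | hl'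
  swap
  · exact (b3 v).2 l' hl'
  by_cases hn : ∃ w ∈ W1, ∃ e ∈ E, v = w • e
  · obtain ⟨w, hw, e, he, rfl⟩ := hn
    obtain ⟨m, hm, ho⟩ := sel1 _ ((h w (Or.inl hw) e he).2 l' (by simp))
    exact Or.inl ⟨m, hm, fun f hf => ⟨b1 (Or.inr ⟨f, hf, m, hm, w, hw, e, he, ho, rfl⟩),
      (ho.1 f hf).2⟩⟩
  · refine Or.inr (le_trans (Finset.card_le_card fun n hn' => ?_)
      ((hC G O l'.h 4 (sel2 _ (by omega)) (a ^ l'.h • v)).trans hb))
    simp only [Finset.mem_filter, Finset.mem_range] at hn' ⊢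
    obtain ⟨c1, s, hs, c2⟩ := hn'
    obtain ⟨u, hu, e1, he1, c3⟩ := b2 _ (c2.elim id fun b => b1 (Or.inl (hB b)))
    rcases he1 with he1 | ⟨f, hf, m, hm, w, hw, e, he, ho, rfl⟩
    · refine absurd ⟨_, mem_image2_of_mem c1 (mem_image2_of_mem hs hu), e1, he1, ?_⟩ hn
      rw [mul_smul, mul_smul, ← c3, inv_smul_smul, ← mul_smul (a ^ n), inv_smul_smul]
    · refine ⟨c1, _, mem_image2_of_mem hf (mem_image2_of_mem hu hs), ?_⟩
      rwa [mul_smul, mul_smul, c3, inv_smul_smul, inv_smul_smul]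

lemma dep_fin : ∀ L : List Lev, Good L → (Dep L).Finite
  | [], _ => by simp [Dep]
  | l :: L, h => by
    refine ((dep_fin L h.2).union ((h.1.fF.union h.1.fS).image2 (fun f n => f * a ^ n)
      (finite_Iio (3 * l.h)))).subset ?_
    rintro d (hd | ⟨l', hl', n, hn, f, hf, rfl⟩)
    · exact Or.inl (Or.inl hd)
    rcases List.mem_cons.1 hl' with rfl | hl'
    · exact Or.inr (mem_image2_of_mem hf hn)
    · exact Or.inl (Or.inr ⟨l', hl', n, hn, f, hf, rfl⟩)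

lemma bdd (D : Set G) (hD : D.Finite) (M : ℕ) :
    ∃ M' : ℕ, M ≤ M' ∧ ∀ d ∈ D, ∀ s : ℚ, |s| ≤ M → |d • s| ≤ M' := by
  choose c β h using affine
  obtain ⟨B, hB⟩ := (hD.image fun d => |c d| * M + |β d|).bddAbove
  refine ⟨max M ⌈B⌉₊, le_max_left _ _, fun d hd s hs => ?_⟩
  have h1 : |c d| * M + |β d| ≤ B := hB ⟨d, hd, rfl⟩
  have h2 : B ≤ ((max M ⌈B⌉₊ : ℕ) : ℚ) := (Nat.le_ceil B).trans (by exact_mod_cast le_max_right _ _)
  rw [h]
  refine (abs_add_le _ _).trans ?_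
  rw [abs_mul]
  nlinarith [abs_nonneg (c d)]

lemma Dm.transfer {V V' : Type} [MulAction G V] [MulAction G V'] {L : List Lev} {l : Lev} (hl : l ∈ L)
    {Bad : Set V} {ξ : V → A} {v : V} {Bad' : Set V'} {ξ' : V' → A} {v' : V'} (h : Dm l Bad ξ v)
    (h1 : ∀ d ∈ Dep L, d • v ∉ Bad → ξ' (d • v') = ξ (d • v) ∧ d • v' ∉ Bad') : Dm l Bad' ξ' v' := by
  obtain ⟨n, hn, ho⟩ := h
  refine ⟨n, hn, fun f hf => ?_⟩
  have c := h1 _ (Or.inr ⟨l, hl, n, hn, f, Or.inl hf, rfl⟩)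
  simp only [mul_smul] at c
  exact ⟨trivial, (c (ho f hf).2.1).2, (c (ho f hf).2.1).1.trans (ho f hf).2.2⟩

lemma par_aux {s : ℚ} (hs : s ≠ 0) : Even (padicValRat 2 (2 * s)) ↔ ¬ Even (padicValRat 2 s) := by
  rw [padicValRat.mul two_ne_zero hs, show padicValRat 2 2 = 1 from padicValRat.self (by norm_num),
    add_comm, Int.even_add_one]

theorem fillG (L : List Lev) (hL : Good L) (Bad P : Set G) (π : G → A)
    (h : ∀ v, QQ L (fun _ => Bad) P π v) :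
    ∃ ξ : G → A, (∀ v ∈ P, ξ v = π v) ∧ (∀ v, Pr univ ξ v) ∧ ∀ l ∈ L, ∀ v, Dm l Bad ξ v := by
  refine fill (fun g : G => Even (padicValRat 2 (g • (1 : ℚ) - g • (0 : ℚ)))) (fun g _ => ?_)
    (fun g n hn e => ?_) (fun _ => Bad) L hL (List.pairwise_of_forall fun _ _ => Subset.rfl)
    (fun l _ w _ f _ f' _ e => mul_right_cancel e) P π h
  · simp only [smul_eq_mul, mul_smul, t_smul, ← mul_sub]
    exact par_aux (sub_ne_zero.2 fun e => one_ne_zero (smul_left_cancel g e))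
  · have := apow_inj (m := 0) (by simpa using e)
    omega

def GlueP (L : List Lev) (r N : ℕ) : Prop := ∀ (ω η : G → A) (Bad : Set G),
  (∀ g ∈ Bad, (N : ℚ) < |g • (0 : ℚ)|) → (∀ v, Pr univ ω v ∧ ∀ l ∈ L, Dm l ∅ ω v) →
  (∀ v : G, v • (0 : ℚ) ≠ 0 → Pr univ η v) → (∀ v, ∀ l ∈ L, Dm l Bad η v) →
  ∃ ξ : G → A, (∀ i : ℤ, |i| ≤ r → ξ (a ^ i) = ω (a ^ i)) ∧
    (∀ g : G, (N : ℚ) < |g • (0 : ℚ)| → ξ g = η g) ∧ (∀ v, Pr univ ξ v) ∧ ∀ l ∈ L, ∀ v, Dm l Bad ξ v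

lemma glue {L : List Lev} (hL : Good L) {U : Set G} (hU : U.Finite) (hE : ExtP L U) (r : ℕ) :
    ∃ N, GlueP L r N := by
  have hD := (dep_fin L hL).image2 (· * ·) hU
  obtain ⟨M, m1, m2⟩ := bdd _ hD r
  obtain ⟨N, n1, n2⟩ := bdd _ (hD.image fun d => d⁻¹) M
  have n1' : (M : ℚ) ≤ N := by exact_mod_cast n1
  refine ⟨N, fun ω η Bad hB hω h1 h2 => ?_⟩
  let ω' : G → A := fun g => if |g • (0 : ℚ)| ≤ M then ω g else η g
  have ai : ∀ i : ℤ, |i| ≤ r → |a ^ i • (0 : ℚ)| ≤ r := fun i hi => by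
    rw [azpow_smul, zero_add]; exact_mod_cast hi
  obtain ⟨E', b1, -, b3⟩ := hE ({g | ∃ i : ℤ, |i| ≤ r ∧ g = a ^ i} ∪ {g | (N : ℚ) < |g • (0 : ℚ)|})
    Bad ω' (fun g hg => Or.inr (hB g hg)) (by
      rintro u hu e (⟨i, hi, rfl⟩ | he)
      · have k : ∀ d ∈ Dep L, |(d • u • a ^ i) • (0 : ℚ)| ≤ M := fun d hd => by
          simpa only [smul_eq_mul, mul_smul] using m2 _ (mem_image2_of_mem hd hu) _ (ai i hi)
        refine ⟨fun _ _ c => ?_, fun l hl => ((hω _).2 l hl).transfer hl fun d hd _ =>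
          ⟨if_pos (k d hd), fun c => ?_⟩⟩
        · have k1 := k 1 (Or.inl (by simp))
          rw [one_smul] at k1
          simp only [ω', if_pos k1, if_pos (k t (Or.inl (by simp)))]
          exact (hω _).1 trivial trivial c
        · linarith [hB _ c, k d hd]
      · have k : ∀ d ∈ Dep L, ¬ |(d • u • e) • (0 : ℚ)| ≤ M := fun d hd c => by
          have := n2 _ ⟨_, mem_image2_of_mem hd hu, rfl⟩ _ c
          simp only [smul_eq_mul, ← mul_assoc] at this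
          rw [mul_smul (d * u), inv_smul_smul] at this
          exact absurd he (not_lt.2 this)
        refine ⟨fun _ _ c => ?_, fun l hl => (h2 _ l hl).transfer hl fun d hd c =>
          ⟨if_neg (k d hd), c⟩⟩
        have k1 := k 1 (Or.inl (by simp))
        rw [one_smul] at k1
        simp only [ω', if_neg k1, if_neg (k t (Or.inl (by simp)))]
        exact h1 _ (fun c => k1 (by rw [c]; simp)) trivial trivial c)
  obtain ⟨ξ, x1, x2, x3⟩ := fillG L hL Bad E' ω' b3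
  refine ⟨ξ, fun i hi => (x1 _ (b1 (Or.inl ⟨i, hi, rfl⟩))).trans (if_pos ?_),
    fun g hg => (x1 _ (b1 (Or.inr hg))).trans (if_neg ?_), x2, x3⟩
  · exact (ai i hi).trans (by exact_mod_cast m1)
  · linarith

def BadQ (n : ℕ) : Set ℚ := {s | |s| ≤ n} ∪ {s | ∃ j : ℕ, s = (j : ℚ) ^ 2}

lemma sparse_bad (n q : ℕ) : Sparse (BadQ n) (q ^ 2) (2 * n + 1 + q) := by
  intro v
  let s1 := (Finset.range (q ^ 2)).filter fun x : ℕ => |v + x| ≤ n
  let s2 := (Finset.range (q ^ 2)).filter fun x : ℕ => ∃ j : ℕ, v + x = (j : ℚ) ^ 2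
  have c1 : s1.card ≤ 2 * n + 1 := card_le_of_close s1 (fun x => x) _
    (fun x _ y _ e => Nat.cast_injective (R := ℤ) e) fun x hx y hy => by
      have a1 := abs_le.1 (Finset.mem_filter.1 hx).2
      have a2 := abs_le.1 (Finset.mem_filter.1 hy).2
      have : (x : ℚ) < y + (2 * n + 1) := by linarith
      exact_mod_cast this
  have : ∀ x ∈ s2, ∃ j : ℕ, v + x = (j : ℚ) ^ 2 := fun x hx => (Finset.mem_filter.1 hx).2
  choose! j hj using this
  have c2 : s2.card ≤ q := card_le_of_close s2 (fun x => j x) _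
    (fun x hx y hy e => by
      have e : j x = j y := Nat.cast_injective (R := ℤ) e
      have := hj x hx
      rw [e, ← hj y hy] at this
      exact_mod_cast add_left_cancel this) fun x hx y hy => by
      have a1 := hj x hx
      have a2 := hj y hy
      have a3 : (x : ℚ) < q ^ 2 := by exact_mod_cast Finset.mem_range.1 (Finset.mem_filter.1 hx).1
      have : (j x : ℚ) < j y + q := by
        by_contra c
        push Not at c
        have := pow_le_pow_left₀ (by positivity) c 2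
        nlinarith [(Nat.cast_nonneg y : (0 : ℚ) ≤ y), (by positivity : (0 : ℚ) ≤ j y * q)]
      exact_mod_cast this
  refine le_trans (Finset.card_le_card (t := s1 ∪ s2) fun x hx => ?_)
    ((Finset.card_union_le _ _).trans (by omega))
  simp only [s1, s2, Finset.mem_union, Finset.mem_filter, apow_smul] at hx ⊢
  exact hx.2.imp (fun b => ⟨hx.1, b⟩) fun b => ⟨hx.1, b⟩

lemma inj_off (S : Set G) (hS : S.Finite) :
    ∃ n : ℕ, ∀ w : ℚ, (n : ℚ) < |w| → InjOn (fun f : G => f • w) S := by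
  choose c β h using affine
  obtain ⟨B, hB⟩ := (hS.image2 (fun f f' => |(β f' - β f) / (c f - c f')|) hS).bddAbove
  refine ⟨⌈B⌉₊, fun w hw f hf f' hf' e => ?_⟩
  have e : c f * w + β f = c f' * w + β f' := by rw [← h, ← h]; exact e
  by_cases hc : c f = c f'
  · refine ext_G fun s => ?_
    rw [h, h, hc]; rw [hc] at e; linarith
  · have : w = (β f' - β f) / (c f - c f') := by
      rw [eq_div_iff (sub_ne_zero.2 hc)]; linarith
    have h1 := hB (mem_image2_of_mem hf hf')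
    simp only [← this] at h1
    linarith [Nat.le_ceil B]

structure Inv (L : List Lev) : Prop where
  good : Good L
  ext : ∃ U, U.Finite ∧ ExtP L U
  mono : L.Pairwise fun l l' => l'.n ≤ l.n
  inj : ∀ l ∈ L, ∀ w : ℚ, (l.n : ℚ) < |w| → InjOn (fun f : G => f • w) l.S
  blk : ∀ l ∈ L, ∀ v : ℚ,
    ((Finset.range l.h).filter fun n => ∃ s ∈ l.S, s • a ^ n • v ∈ BadQ l.n).card ≤ l.b

lemma inv_nil : Inv [] := ⟨trivial, ⟨_, finite_singleton _, ext_nil⟩, by simp, by simp, by simp⟩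

def Om (L : List Lev) (ω : G → A) : Prop := ∀ v, Pr univ ω v ∧ ∀ l ∈ L, Dm l ∅ ω v

lemma om_ne {L : List Lev} (hL : Good L) : ∃ ω, Om L ω := by
  obtain ⟨ξ, -, h1, h2⟩ := fillG L hL ∅ ∅ 0 fun v => ⟨fun h => h.elim, fun l _ => Or.inr (by simp)⟩
  exact ⟨ξ, fun v => ⟨h1 v, fun l hl => h2 l hl v⟩⟩

lemma next {L : List Lev} (hL : Inv L) (w : List A) (r : ℕ) : ∃ l, Inv (l :: L) ∧
    (∃ N ≤ l.n, GlueP L r N) ∧ ((∃ ω, Om L ω ∧ ∀ i < w.length, ω (a ^ i) = w.getD i 0) →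
      ∀ i < w.length, a ^ i ∈ l.F ∧ l.p (a ^ i) = w.getD i 0) := by
  obtain ⟨ω, o1, o2⟩ : ∃ ω, Om L ω ∧ ((∃ ω, Om L ω ∧ ∀ i < w.length, ω (a ^ i) = w.getD i 0) →
      ∀ i < w.length, ω (a ^ i) = w.getD i 0) := by
    by_cases e : ∃ ω, Om L ω ∧ ∀ i < w.length, ω (a ^ i) = w.getD i 0
    · obtain ⟨ω, h1, h2⟩ := e
      exact ⟨ω, h1, fun _ => h2⟩
    · obtain ⟨ω, h⟩ := om_ne hL.good
      exact ⟨ω, h, fun h => absurd h e⟩
  obtain ⟨U, hU, hE⟩ := hL.ext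
  obtain ⟨F, f1, f2, f3⟩ := hE ((fun i => a ^ i) '' Iio w.length) ∅ ω (empty_subset _)
    fun u _ e _ => o1 _
  have hF : F.Finite := (hU.image2 (· • ·) ((finite_Iio w.length).image fun i => a ^ i)).subset
    fun v hv => by
      obtain ⟨u, hu, e, he, rfl⟩ := f2 v hv
      exact mem_image2_of_mem hu he
  have hD := dep_fin L hL.good
  let S : Set G := insert 1 (image2 (· * ·) (image2 (fun d d' => d' * d⁻¹) (Dep L) (Dep L)) F)
  have hS : S.Finite := ((hD.image2 _ hD).image2 _ hF).insert _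
  obtain ⟨N, hN⟩ := glue hL.good hU hE r
  obtain ⟨n0, hn0⟩ := inj_off S hS
  obtain ⟨n1, hn1⟩ := ((List.finite_toSet L).image Lev.n).bddAbove
  obtain ⟨C1, c1⟩ := cnt _ (hS.image2 (fun s s' => s⁻¹ * s') hS)
  obtain ⟨C2, c2⟩ := cnt _ (hF.image2 (fun f x => f⁻¹ * x) (hU.image2 (fun u s => u⁻¹ * s) hS))
  obtain ⟨C3, c3⟩ := cnt _ hS
  let n := N + n0 + n1
  let q := C2 * 4 + C3 * (2 * n + 1) + C1 + C3 + 1
  let l : Lev := ⟨F, ω, S, q ^ 2, C2 * 4 + C3 * (2 * n + 1 + q), n⟩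
  refine ⟨l, ⟨⟨⟨hF, hS, f3, fun d hd d' hd' f hf =>
    Or.inr (mem_image2_of_mem (mem_image2_of_mem hd hd') hf), Or.inl rfl, C1, c1, ?_⟩, hL.good⟩,
    ext_step hE hU (l := l) hF hS c2 (Nat.le_add_right _ _),
    List.pairwise_cons.2 ⟨fun l' hl' => (hn1 ⟨l', hl', rfl⟩).trans (Nat.le_add_left _ _), hL.mono⟩,
    fun l' hl' => ?_, fun l' hl' => ?_⟩, ⟨N, by show N ≤ N + n0 + n1; omega, hN⟩,
    fun h i hi => ⟨f1 ⟨i, hi, rfl⟩, o2 h i hi⟩⟩
  · show C2 * 4 + C3 * (2 * n + 1 + q) + C1 < q ^ 2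
    have : q = C2 * 4 + C3 * (2 * n + 1) + C1 + C3 + 1 := rfl
    rw [mul_add C3 _ q]
    generalize C3 * (2 * n + 1) = X at *
    clear_value q
    subst this
    nlinarith [Nat.zero_le (C2 * 4 + X + C1), Nat.zero_le C3]
  · rcases List.mem_cons.1 hl' with rfl | hl'
    · refine fun w hw => hn0 w (lt_of_le_of_lt ?_ hw)
      exact_mod_cast (by show n0 ≤ N + n0 + n1; omega)
    · exact hL.inj l' hl'
  · rcases List.mem_cons.1 hl' with rfl | hl'
    · exact fun v => (c3 ℚ _ _ _ (sparse_bad n q) v).trans (Nat.le_add_left _ _)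
    · exact hL.blk l' hl'

lemma etaL {L : List Lev} (hL : Inv L) :
    ∃ η : ℚ → A, (∀ v, Pr univ η v) ∧ ∀ l ∈ L, ∀ v, Dm l (BadQ l.n) η v := by
  obtain ⟨η, -, h⟩ := fill (fun s : ℚ => Even (padicValRat 2 s))
    (fun s hs => par_aux fun e => hs (by rw [e, t_smul, mul_zero]))
    (fun s n hn e => by
      rw [apow_smul] at e
      have : (n : ℚ) = 0 := by linarith
      exact hn.ne' (by exact_mod_cast this))
    (fun l => BadQ l.n) L hL.good (hL.mono.imp fun {l l'} h s hs => hs.imp_left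
      fun hs : |s| ≤ (l'.n : ℚ) => show |s| ≤ (l.n : ℚ) from le_trans hs (by exact_mod_cast h))
    (fun l hl w hw => hL.inj l hl w (not_le.1 fun e => hw (Or.inl e))) ∅ 0
    fun v => ⟨fun h => h.elim, fun l hl => Or.inr (by simpa using hL.blk l hl _)⟩
  exact ⟨η, h⟩

end Pool.Agent.H96.BS
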