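import Pool.Agent.H96.BS2
import Pool.Agent.H96.BF

set_option autoImplicit false
open scoped Classical
open Set Filter Topology

namespace Pool.Agent.H96.BS

section
variable {X : Type} [TopologicalSpace X]

def Adm (A B W : ℕ → Set X) (t0 : ℕ) (U V : Set X) : Prop := IsClopen U ∧ IsClopen V ∧
  ((U = ∅ ∧ V = ∅) ∨ ∃ t, (U ∩ W t).Nonempty ∧ (V ∩ W t).Nonempty ∧
    ∀ j, t0 < j → j ≤ t → ∀ x ∈ U, ∀ y ∈ V, ¬ (x ∈ A j ∧ y ∈ B j))

lemma Adm.symm {A B W : ℕ → Set X} {t0 : ℕ} {U V : Set X} (h : Adm A B W t0 U V) :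
    Adm B A W t0 V U :=
  ⟨h.2.1, h.1, h.2.2.imp (fun h => h.symm) fun ⟨t, h1, h2, h3⟩ =>
    ⟨t, h2, h1, fun j a b y hy x hx h => h3 j a b x hx y hy h.symm⟩⟩

structure Wit (W : ℕ → Set X) : Prop where
  mono : Monotone W
  dense : ∀ U, IsOpen U → U.Nonempty → ∃ N, (U ∩ W N).Nonempty
  perf : ∀ N U, IsOpen U → ∀ x ∈ U ∩ W N, ∃ x' ∈ U ∩ W N, x' ≠ x

variable [CompactSpace X] [T2Space X] [TotallyDisconnectedSpace X] {A B W : ℕ → Set X}

lemma forth1 (hW : Wit W) (hB : ∀ j, IsClopen (B j)) (hB' : ∀ N, ∀ x ∈ W N, ∀ j, N < j → x ∉ B j)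
    {t0 t : ℕ} {U V C : Set X} (hU : IsClopen U) (hV : IsClopen V)
    (hC : IsClopen C) (h1 : (U ∩ Cᶜ ∩ W t).Nonempty) (h2 : (V ∩ W t).Nonempty)
    (h3 : ∀ j, t0 < j → j ≤ t → ∀ x ∈ U, ∀ y ∈ V, ¬ (x ∈ A j ∧ y ∈ B j)) :
    ∃ Z, IsClopen Z ∧ Adm A B W t0 (U ∩ C) (V ∩ Z) ∧ Adm A B W t0 (U ∩ Cᶜ) (V ∩ Zᶜ) := by
  rcases eq_empty_or_nonempty (U ∩ C) with he | hne
  · exact ⟨∅, isClopen_empty, ⟨hU.inter hC, hV.inter isClopen_empty, Or.inl ⟨he, inter_empty _⟩⟩,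
      hU.inter hC.compl, hV.inter isClopen_empty.compl, Or.inr ⟨t, h1, by simpa using h2,
        fun j a b x hx y hy => h3 j a b x hx.1 y hy.1⟩⟩
  obtain ⟨N, hN⟩ := hW.dense _ (hU.inter hC).isOpen hne
  obtain ⟨y, hy⟩ := h2
  obtain ⟨y', hy', hne⟩ := hW.perf t V hV.isOpen y hy
  have ho : IsOpen ({y}ᶜ ∩ ⋂ j ∈ Finset.Ioc t N, (B j)ᶜ) :=
    isOpen_compl_singleton.inter (isOpen_biInter_finset fun j _ => (hB j).compl.isOpen)
  obtain ⟨Z, hZ, hyW, hWs⟩ := compact_exists_isClopen_in_isOpen ho (x := y')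
    ⟨hne, mem_iInter₂.2 fun j hj => hB' t y' hy'.2 j (Finset.mem_Ioc.1 hj).1⟩
  refine ⟨Z, hZ, ⟨hU.inter hC, hV.inter hZ, Or.inr ⟨max t N,
    hN.mono (inter_subset_inter_right _ (hW.mono (le_max_right _ _))),
    ⟨y', ⟨hy'.1, hyW⟩, hW.mono (le_max_left _ _) hy'.2⟩, fun j a b x hx z hz h => ?_⟩⟩,
    hU.inter hC.compl, hV.inter hZ.compl, Or.inr ⟨t, h1, ⟨y, ⟨hy.1, fun h => (hWs h).1 rfl⟩, hy.2⟩,
      fun j a b x hx y hy => h3 j a b x hx.1 y hy.1⟩⟩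
  rcases le_or_gt j t with hj | hj
  · exact h3 j a hj x hx.1 z hz.1 h
  · exact mem_iInter₂.1 (hWs hz.2).2 j (Finset.mem_Ioc.2 ⟨hj, by omega⟩) h.2

lemma forth2 (hW : Wit W) (hB : ∀ j, IsClopen (B j)) (hB' : ∀ N, ∀ x ∈ W N, ∀ j, N < j → x ∉ B j)
    (t0 : ℕ) (U V C : Set X) (h : Adm A B W t0 U V) (hC : IsClopen C) :
    ∃ Z, IsClopen Z ∧ Adm A B W t0 (U ∩ C) (V ∩ Z) ∧ Adm A B W t0 (U ∩ Cᶜ) (V ∩ Zᶜ) := by
  obtain ⟨hU, hV, ⟨rfl, rfl⟩ | ⟨t, ⟨x, hx⟩, h2, h3⟩⟩ := h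
  · exact ⟨∅, isClopen_empty, by simp [Adm, isClopen_empty], by simp [Adm, isClopen_empty]⟩
  by_cases hxC : x ∈ C
  · obtain ⟨Z, h4, h5, h6⟩ := forth1 hW hB hB' hU hV hC.compl
      ⟨x, ⟨hx.1, by simpa using hxC⟩, hx.2⟩ h2 h3
    rw [compl_compl] at h6
    exact ⟨Zᶜ, h4.compl, h6, by rwa [compl_compl]⟩
  · exact forth1 hW hB hB' hU hV hC ⟨x, ⟨hx.1, hxC⟩, hx.2⟩ h2 h3

theorem graph [Nonempty X] [SecondCountableTopology X] (hW : Wit W)
    (hA : ∀ j, IsClopen (A j)) (hA' : ∀ N, ∀ x ∈ W N, ∀ j, N < j → x ∉ A j)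
    (hB : ∀ j, IsClopen (B j)) (hB' : ∀ N, ∀ x ∈ W N, ∀ j, N < j → x ∉ B j) :
    ∃ φ : X ≃ₜ X, ∃ t0, ∀ x j, t0 < j → ¬ (x ∈ A j ∧ φ x ∈ B j) := by
  obtain ⟨N, hN⟩ := hW.dense _ isOpen_univ univ_nonempty
  obtain ⟨Γ, h1, h2, h3, h4⟩ := BF.back_forth (Adm A B W N)
    ⟨isClopen_univ, isClopen_univ, Or.inr ⟨N, hN, hN, fun j a b => absurd b (not_le.2 a)⟩⟩
    (fun U V h => by
      rcases h.2.2 with ⟨rfl, rfl⟩ | ⟨t, a, b, -⟩
      · rfl
      · exact ⟨fun _ => b.left, fun _ => a.left⟩)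
    (forth2 hW hB hB' _) (fun U V C h hC => by
      obtain ⟨W, a, b, c⟩ := forth2 hW hA hA' _ V U C h.symm hC
      exact ⟨W, a, b.symm, c.symm⟩)
  have : CompactSpace Γ := isCompact_iff_compactSpace.1 h1.isCompact
  let e1 : Γ ≃ₜ X := Continuous.homeoOfEquivCompactToT2 (f := Equiv.ofBijective _ h2)
    (continuous_fst.comp continuous_subtype_val)
  let e2 : Γ ≃ₜ X := Continuous.homeoOfEquivCompactToT2 (f := Equiv.ofBijective _ h3)
    (continuous_snd.comp continuous_subtype_val)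
  refine ⟨e1.symm.trans e2, N, fun x j hj h => ?_⟩
  obtain ⟨p, rfl⟩ := e1.surjective x
  rw [Homeomorph.trans_apply, Homeomorph.symm_apply_apply] at h
  obtain ⟨U, V, ⟨-, -, h5⟩, hU, hV, h6⟩ := h4 p.1 p.2 _ (hA j)
  rcases h5 with ⟨rfl, -⟩ | ⟨t, ⟨x, hx⟩, -, h5⟩
  · exact hU
  rcases le_or_gt j t with ht | ht
  · exact h5 j hj ht _ hU _ hV h
  · rcases h6 with h6 | h6
    · exact hA' t x hx.2 j ht (h6 hx.1)
    · exact h6 hU h.1

end

noncomputable def en : ℕ → List A := (exists_surjective_nat (List A)).choose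

lemma en_surj : Function.Surjective en := (exists_surjective_nat (List A)).choose_spec

noncomputable def Ls : ℕ → {L : List Lev // Inv L}
  | 0 => ⟨[], inv_nil⟩
  | k + 1 => ⟨(next (Ls k).2 (en k) k).choose :: (Ls k).1, (next (Ls k).2 (en k) k).choose_spec.1⟩

noncomputable def lev (k : ℕ) : Lev := (next (Ls k).2 (en k) k).choose

lemma Ls_succ (k : ℕ) : (Ls (k + 1)).1 = lev k :: (Ls k).1 := rfl

lemma mem_Ls {l : Lev} : ∀ {k : ℕ}, l ∈ (Ls k).1 ↔ ∃ j < k, lev j = l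
  | 0 => by simp [Ls]
  | k + 1 => by
    rw [Ls_succ, List.mem_cons, mem_Ls (k := k), Nat.exists_lt_succ_right, or_comm, eq_comm]

lemma n_mono {j k : ℕ} (h : j ≤ k) : (lev j).n ≤ (lev k).n := by
  rcases h.eq_or_lt with rfl | h
  · rfl
  · exact (List.pairwise_cons.1 (Ls (k + 1)).2.mono).1 _ (mem_Ls.2 ⟨j, h, rfl⟩)

lemma closed_Pr {V : Type} [MulAction G V] (v : V) : IsClosed {ξ : V → A | Pr univ ξ v} := by
  by_cases h : t • v = v
  · simp [Pr, h]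
  · have := (isClosed_discrete {d : A × A | d.1.1 ≠ d.2.1}).preimage
      (f := fun ξ : V → A => (ξ (t • v), ξ v)) (by fun_prop)
    simpa [Pr, h] using this

lemma closed_Dm {V : Type} [MulAction G V] (l : Lev) (Bad : Set V) (v : V) :
    IsClosed {ξ : V → A | Dm l Bad ξ v} := by
  have : {ξ : V → A | Dm l Bad ξ v} = ⋃ n ∈ Iio (3 * l.h), ⋂ f ∈ l.F,
      {_ξ | f • a ^ n • v ∉ Bad} ∩ {ξ | ξ (f • a ^ n • v) = l.p f} := by
    ext ξ; simp [Dm, Occ]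
  rw [this]
  exact (finite_Iio _).isClosed_biUnion fun n _ => isClosed_biInter fun f _ =>
    isClosed_const.inter (isClosed_eq (continuous_apply _) continuous_const)

lemma eta : ∃ η : ℚ → A, (∀ v, Pr univ η v) ∧ ∀ k v, Dm (lev k) (BadQ (lev k).n) η v := by
  let C : ℕ → Set (ℚ → A) := fun k => (⋂ v, {η | Pr univ η v}) ∩
    ⋂ l ∈ (Ls k).1, ⋂ v, {η | Dm l (BadQ l.n) η v}
  have hc : ∀ k, IsClosed (C k) := fun k => (isClosed_iInter closed_Pr).inter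
    (isClosed_biInter fun l _ => isClosed_iInter (closed_Dm l _))
  obtain ⟨η, h⟩ := IsCompact.nonempty_iInter_of_sequence_nonempty_isCompact_isClosed C
    (fun k η h => ⟨h.1, mem_iInter₂.2 fun l hl => mem_iInter₂.1 h.2 l (List.mem_cons_of_mem _ hl)⟩)
    (fun k => by
      obtain ⟨η, h1, h2⟩ := etaL (Ls k).2
      exact ⟨η, mem_iInter.2 h1, mem_iInter₂.2 fun l hl => mem_iInter.2 (h2 l hl)⟩)
    (hc 0).isCompact hc
  rw [mem_iInter] at h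
  exact ⟨η, mem_iInter.1 (h 0).1, fun k =>
    mem_iInter.1 (mem_iInter₂.1 (h (k + 1)).2 _ (List.mem_cons_self))⟩

/-- configurations whose demands are met away from Bad -/
def OO (Bad : Set G) : Set (G → A) := {ξ | ∀ v, Pr univ ξ v ∧ ∀ k, Dm (lev k) Bad ξ v}

lemma OO.change {Bad Bad' : Set G} {ξ ξ' : G → A} (h : ξ ∈ OO Bad) (h0 : Bad' ⊆ Bad)
    (h1 : ∀ g, (ξ' g).1 = (ξ g).1) (h2 : ∀ g ∉ Bad, ξ' g = ξ g) : ξ' ∈ OO Bad' := fun v =>
  ⟨fun _ _ c => by rw [h1, h1]; exact (h v).1 trivial trivial c, fun k =>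
    ((h v).2 k).transfer (L := [lev k]) (by simp) fun d _ c => ⟨h2 _ c, fun e => c (h0 e)⟩⟩

lemma OO.right {ξ : G → A} (h : ξ ∈ OO ∅) (c : G) : (fun g => ξ (g * c)) ∈ OO ∅ := fun v =>
  ⟨fun _ _ e => by
    have := (h (v * c)).1 trivial trivial (by simpa using e)
    simpa [mul_assoc] using this, fun k =>
    ((h (v * c)).2 k).transfer (L := [lev k]) (by simp) fun d _ _ => ⟨by simp [mul_assoc], id⟩⟩

def BadG (N : ℕ) : Set G := {g | ∃ j : ℕ, N < j ∧ g = a ^ ((j : ℤ) ^ 2)}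

lemma main_glue (r : ℕ) (ω : G → A) (hω : Om (Ls r).1 ω) : ∃ N : ℕ, ∃ ξ ∈ OO (BadG N),
    (∀ i : ℤ, |i| ≤ r → ξ (a ^ i) = ω (a ^ i)) ∧
      ∀ j : ℕ, N < j → (ξ (a ^ (2 * j : ℤ))).1 ≠ (ξ (a ^ (j : ℤ))).1 := by
  obtain ⟨η, e1, e2⟩ := eta
  obtain ⟨N, hN, hG⟩ := (next (Ls r).2 (en r) r).choose_spec.2.1
  have sq : ∀ g ∈ BadG N, ∃ j : ℕ, N < j ∧ g • (0 : ℚ) = (j : ℚ) ^ 2 := by
    rintro g ⟨j, hj, rfl⟩
    exact ⟨j, hj, by simp [azpow_smul]⟩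
  have lift : ∀ k (v : G) (ξ : G → A), (∀ g : G, ((lev k).n : ℚ) < |g • (0 : ℚ)| → ξ g = η (g • 0)) →
      Dm (lev k) (BadG N) ξ v := fun k v ξ h =>
    (e2 k (v • 0)).transfer (L := [lev k]) (by simp) fun d _ c => by
      rw [← mul_smul] at c ⊢
      refine ⟨h _ (not_le.1 fun e => c (Or.inl e)), fun e => ?_⟩
      obtain ⟨j, -, hj⟩ := sq _ e
      exact c (Or.inr ⟨j, hj⟩)
  obtain ⟨ξ, x1, x2, x3, x4⟩ := hG ω (fun g => η (g • 0)) (BadG N) (fun g hg => by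
      obtain ⟨j, h1, h2⟩ := sq g hg
      have : (N : ℚ) + 1 ≤ j := by exact_mod_cast h1
      rw [h2, abs_of_nonneg (by positivity)]
      nlinarith [(Nat.cast_nonneg N : (0 : ℚ) ≤ N)]) hω
    (fun v hv _ _ _ => by
      simpa [mul_smul] using e1 (v • 0) trivial trivial (by
        rw [t_smul]; intro e; exact hv (by linarith)))
    (fun v l hl => by
      obtain ⟨j, -, rfl⟩ := mem_Ls.1 hl
      exact lift j v _ fun _ _ => rfl)
  refine ⟨N, ξ, fun v => ⟨x3 v, fun k => ?_⟩, x1, fun j hj => ?_⟩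
  · rcases lt_or_ge k r with h | h
    · exact x4 _ (mem_Ls.2 ⟨k, h, rfl⟩) v
    · exact lift k v ξ fun g hg => x2 g (lt_of_le_of_lt (by exact_mod_cast hN.trans (n_mono h)) hg)
  · have c : (N : ℚ) < j := by exact_mod_cast hj
    have c0 : (0 : ℚ) ≤ N := Nat.cast_nonneg N
    rw [x2 _ (by rw [azpow_smul]; push_cast; rw [abs_of_nonneg] <;> linarith),
      x2 _ (by rw [azpow_smul]; push_cast; rw [abs_of_nonneg] <;> linarith)]
    have := e1 (j : ℚ) trivial trivial (by rw [t_smul]; intro e; linarith)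
    simpa [azpow_smul, apow_smul, t_smul] using this

/-- the phase space -/
abbrev XX : Type := {x : ℤ → A // ∃ ξ ∈ OO ∅, ∀ i, x i = ξ (a ^ i)}

instance : CompactSpace XX := by
  have h : IsClosed (OO ∅) := by
    have : OO ∅ = ⋂ v, {ξ | Pr univ ξ v} ∩ ⋂ k, {ξ | Dm (lev k) ∅ ξ v} := by ext; simp [OO]
    rw [this]
    exact isClosed_iInter fun v => (closed_Pr v).inter (isClosed_iInter fun k => closed_Dm _ _ v)
  refine isCompact_iff_compactSpace.1 ?_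
  convert h.isCompact.image (f := fun ξ (i : ℤ) => ξ (a ^ i)) (by fun_prop) using 1
  ext x
  exact ⟨fun ⟨ξ, h1, h2⟩ => ⟨ξ, h1, (funext h2).symm⟩, fun ⟨ξ, h1, h2⟩ => ⟨ξ, h1, fun i => h2 ▸ rfl⟩⟩

instance : Nonempty XX := by
  obtain ⟨ω, h⟩ := om_ne (Ls 0).2.good
  obtain ⟨N, ξ, h, -⟩ := main_glue 0 ω h
  exact ⟨⟨_, ξ, OO.change h (empty_subset _) (fun _ => rfl) fun _ _ => rfl, fun _ => rfl⟩⟩

def sh (m : ℤ) (x : XX) : XX := ⟨fun i => x.1 (i + m), by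
  obtain ⟨ξ, h1, h2⟩ := x.2
  exact ⟨_, OO.right h1 (a ^ m), fun i => (h2 _).trans (by rw [zpow_add])⟩⟩

lemma cont_letter (i : ℤ) : Continuous fun x : XX => x.1 i :=
  (continuous_apply i).comp continuous_subtype_val

def TT (m : ℤ) : XX ≃ₜ XX where
  toFun := sh m
  invFun := sh (-m)
  left_inv x := Subtype.ext (funext fun i => by simp [sh])
  right_inv x := Subtype.ext (funext fun i => by simp [sh])
  continuous_toFun := (continuous_pi fun _ => cont_letter _).subtype_mk _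
  continuous_invFun := (continuous_pi fun _ => cont_letter _).subtype_mk _

lemma TT_zpow (n : ℤ) : (TT 1) ^ n = TT n := by
  have h : ∀ m m', TT m * TT m' = TT (m + m') := fun m m' => Homeomorph.ext fun x =>
    Subtype.ext (funext fun i => congrArg x.1 (add_assoc _ _ _))
  have h0 : TT 0 = 1 := Homeomorph.ext fun x => Subtype.ext (funext fun i => congrArg x.1 (add_zero _))
  induction n using Int.induction_on with
  | zero => rw [zpow_zero, h0]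
  | succ n ih => rw [zpow_add_one, ih, h]
  | pred n ih => rw [zpow_sub_one, ih, mul_inv_eq_iff_eq_mul, h, sub_add_cancel]

lemma conv {y : XX} {f : ℕ → XX} (h : ∀ r : ℕ, ∀ i : ℤ, |i| ≤ r → (f r).1 i = y.1 i) :
    Tendsto f atTop (𝓝 y) := by
  rw [tendsto_subtype_rng, tendsto_pi_nhds]
  refine fun i => tendsto_const_nhds.congr' ((eventually_ge_atTop i.natAbs).mono fun r hr => ?_)
  exact (h r i (abs_le.2 ⟨by omega, by omega⟩)).symm

lemma om_of {ξ : G → A} (h : ξ ∈ OO ∅) (k : ℕ) : Om (Ls k).1 ξ := fun v => ⟨(h v).1, fun l hl => by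
  obtain ⟨j, -, rfl⟩ := mem_Ls.1 hl
  exact (h v).2 j⟩

theorem TT_min (x : XX) : Dense (range fun n : ℤ => ((TT 1) ^ n) x) := by
  intro y
  have : ∀ r : ℕ, ∃ m : ℤ, ∀ i : ℤ, |i| ≤ r → (sh m x).1 i = y.1 i := fun r => by
    obtain ⟨ξ, h1, h2⟩ := x.2
    obtain ⟨ω, o1, o2⟩ := (sh (-r) y).2
    obtain ⟨k, hk⟩ := en_surj ((List.range (2 * r + 1)).map fun i : ℕ => ω (a ^ i))
    have hw : ∀ i < (en k).length, ω (a ^ i) = (en k).getD i 0 := fun i hi => by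
      rw [hk] at hi ⊢
      simp only [List.length_map, List.length_range] at hi
      simp [List.getD, hi]
    have := (next (Ls k).2 (en k) k).choose_spec.2.2 ⟨ω, om_of o1 k, hw⟩
    obtain ⟨n, -, hn⟩ := (h1 1).2 k
    refine ⟨r + n, fun i hi => ?_⟩
    rw [abs_le] at hi
    obtain ⟨j, hj⟩ := Int.eq_ofNat_of_zero_le (a := i + r) (by omega)
    have hl : j < (en k).length := by
      rw [hk, List.length_map, List.length_range]; omega
    have c := (hn _ (this j hl).1).2.2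
    have c2 := o2 j
    rw [show (lev k).p (a ^ j) = _ from (this j hl).2, ← hw j hl] at c
    show x.1 (i + (r + n)) = _
    rw [h2, ← add_assoc, hj, zpow_add, zpow_natCast, zpow_natCast]
    rw [zpow_natCast, ← c] at c2
    rw [show i = j + -(r : ℤ) by omega]
    exact Eq.trans (by simp) c2.symm
  choose m hm using this
  exact mem_closure_of_tendsto (conv hm)
    (Eventually.of_forall fun r => ⟨m r, by simp only [TT_zpow]; rfl⟩)

def WW (N : ℕ) : Set XX := {x | (∃ ξ ∈ OO (BadG N), ∀ i, x.1 i = ξ (a ^ i)) ∧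
  ∀ j : ℕ, N < j → (x.1 (2 * j)).1 ≠ (x.1 j).1 ∧ (x.1 (j ^ 2)).2 ≠ (x.1 0).2}

lemma azpow_inj {i j : ℤ} (h : a ^ i = a ^ j) : i = j := by
  have := congrArg (fun g : G => g • (0 : ℚ)) h
  simpa [azpow_smul] using this

lemma modify {N : ℕ} {ξ : G → A} (h : ξ ∈ OO (BadG N))
    (h1 : ∀ j : ℕ, N < j → (ξ (a ^ (2 * j : ℤ))).1 ≠ (ξ (a ^ (j : ℤ))).1) (c : G → ZMod 3)
    (hc : ∀ g ∈ BadG N, c g ≠ (ξ 1).2) (hc' : ∀ g ∉ BadG N, c g = (ξ g).2) :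
    ∃ x ∈ WW N, ∀ i, x.1 i = ((ξ (a ^ i)).1, c (a ^ i)) := by
  have k : ∀ g ∉ BadG N, ((ξ g).1, c g) = ξ g := fun g hg => by rw [hc' g hg]
  refine ⟨⟨_, _, OO.change (ξ' := fun g => ((ξ g).1, c g)) h (empty_subset _) (fun _ => rfl) k,
    fun _ => rfl⟩, ⟨⟨_, OO.change (ξ' := fun g => ((ξ g).1, c g)) h Subset.rfl (fun _ => rfl) k,
      fun _ => rfl⟩, fun j hj => ⟨h1 j hj, ?_⟩⟩, fun _ => rfl⟩
  show c _ ≠ c (a ^ (0 : ℤ))
  rw [zpow_zero, hc' 1]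
  · exact hc _ ⟨j, hj, rfl⟩
  · rintro ⟨i, hi, e⟩
    have := azpow_inj ((zpow_zero a).trans e)
    have : (i : ℤ) = 0 := by simpa using this.symm
    omega

theorem wit : Wit WW := by
  refine ⟨fun N N' h x hx => ?_, ?_, ?_⟩
  · obtain ⟨⟨ξ, h1, h2⟩, h3⟩ := hx
    exact ⟨⟨ξ, OO.change h1 (fun g ⟨j, hj, e⟩ => ⟨j, h.trans_lt hj, e⟩) (fun _ => rfl) fun _ _ => rfl,
      h2⟩, fun j hj => h3 j (h.trans_lt hj)⟩
  · rintro U hU ⟨y, hy⟩
    have : ∀ r : ℕ, ∃ x : XX, (∃ N, x ∈ WW N) ∧ ∀ i : ℤ, |i| ≤ r → x.1 i = y.1 i := fun r => by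
      obtain ⟨ω, o1, o2⟩ := y.2
      obtain ⟨N, ξ, x1, x2, x3⟩ := main_glue r ω (om_of o1 r)
      obtain ⟨x, b1, b2⟩ := modify (N := N + r) (OO.change x1
        (fun g ⟨j, hj, e⟩ => ⟨j, by omega, e⟩) (fun _ => rfl) fun _ _ => rfl)
        (fun j hj => x3 j (by omega)) (fun g => if g ∈ BadG (N + r) then (ξ 1).2 - 1 else (ξ g).2)
        (fun g hg => by rw [if_pos hg]; exact (MR.ne_sub _).symm) fun g hg => if_neg hg
      refine ⟨x, ⟨_, b1⟩, fun i hi => ?_⟩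
      rw [b2, o2, ← x2 i hi, if_neg]
      rintro ⟨j, hj, e⟩
      have := azpow_inj e
      have h2 : (j : ℤ) ≤ j ^ 2 := Int.le_self_sq _
      rw [abs_le] at hi
      omega
    choose x h1 h2 using this
    obtain ⟨r, hr⟩ := ((conv h2).eventually (hU.mem_nhds hy)).exists
    obtain ⟨N, hN⟩ := h1 r
    exact ⟨N, _, hr, hN⟩
  · rintro N U hU y ⟨hy, ⟨ξ, x1, x2⟩, x3⟩
    have : ∀ r : ℕ, ∃ x : XX, (x ∈ WW N ∧ x ≠ y) ∧ ∀ i : ℤ, |i| ≤ r → x.1 i = y.1 i := fun r => by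
      obtain ⟨z, z1, z2⟩ := pick (ξ 1).2 (ξ (a ^ (((N + r + 1 : ℕ) : ℤ) ^ 2))).2
      obtain ⟨x, b1, b2⟩ := modify x1 (fun j hj => by simpa only [x2] using (x3 j hj).1)
        (fun g => if g = a ^ (((N + r + 1 : ℕ) : ℤ) ^ 2) then z else (ξ g).2)
        (by
          rintro g ⟨j, hj, rfl⟩
          split_ifs
          · exact z1
          · simpa only [x2, zpow_zero] using (x3 j hj).2)
        fun g hg => if_neg fun e => hg ⟨_, by omega, e⟩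
      refine ⟨x, ⟨b1, fun e => z2 ?_⟩, fun i hi => ?_⟩
      · have := b2 (((N + r + 1 : ℕ) : ℤ) ^ 2)
        rw [e, x2, if_pos rfl] at this
        exact (congrArg Prod.snd this).symm
      · rw [b2, x2, if_neg]
        intro e
        have := azpow_inj e
        have h2 : ((N + r + 1 : ℕ) : ℤ) ≤ ((N + r + 1 : ℕ) : ℤ) ^ 2 := Int.le_self_sq _
        rw [abs_le] at hi
        omega
    choose x h1 h2 using this
    obtain ⟨r, hr⟩ := ((conv h2).eventually (hU.mem_nhds hy)).exists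
    exact ⟨_, ⟨hr, (h1 r).1⟩, (h1 r).2⟩

end Pool.Agent.H96.BS
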