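import Mathlib

set_option autoImplicit false
open Filter Topology

namespace Pool.Agent.H96.BorelIndep

/-- cells of mesh 1/N -/
noncomputable def cell (N : ℕ) (g : ℝ) : ℤ := ⌊(N : ℝ) * g⌋

theorem cell_meas (N : ℕ) : Measurable (cell N) := by
  unfold cell; fun_prop

theorem exists_cell_inj (S : Finset ℝ) : ∃ N : ℕ, Set.InjOn (cell N) S := by
  have h : ∀ a ∈ S, ∀ b ∈ S, ∀ᶠ N : ℕ in atTop, cell N a = cell N b → a = b := by
    intro a _ b _
    by_cases hab : a = b
    · exact Eventually.of_forall fun _ _ => hab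
    · have hpos : 0 < |a - b| := abs_pos.mpr (sub_ne_zero.mpr hab)
      filter_upwards [eventually_ge_atTop ⌈1 / |a - b|⌉₊] with N hN hc
      exfalso
      have h1 : |(N : ℝ) * a - N * b| < 1 := Int.abs_sub_lt_one_of_floor_eq_floor hc
      have h2 : 1 / |a - b| ≤ N := le_trans (Nat.le_ceil _) (by exact_mod_cast hN)
      rw [← mul_sub, abs_mul, Nat.abs_cast] at h1
      rw [div_le_iff₀ hpos] at h2
      linarith
  have h2 : ∀ᶠ N : ℕ in atTop, ∀ a ∈ S, ∀ b ∈ S, cell N a = cell N b → a = b := by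
    rw [Filter.eventually_all_finset]
    intro a ha
    rw [Filter.eventually_all_finset]
    intro b hb
    exact h a ha b hb
  obtain ⟨N, hN⟩ := h2.exists
  exact ⟨N, fun a ha b hb hc => hN a ha b hb hc⟩

/-- patterns -/
abbrev Pat : Type := ℕ × ℕ × (ℤ →₀ ℚ) × (ℤ →₀ ℚ) × ℤ

/-- one correction step -/
noncomputable def step (p : Pat) (e g s : ℝ) : ℝ :=
  if |((p.2.2.1 (cell p.1 g) : ℚ) : ℝ)|⁻¹ ≤ (p.2.1 : ℝ) + 1 then
    (e / ((p.2.1 : ℝ) + 1)) / ((p.2.2.1 (cell p.1 g) : ℚ) : ℝ) *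
      Int.fract ((if cell p.1 g = p.2.2.2.2 then 1 / 2 else 0) -
        (((p.2.2.1 (cell p.1 g) : ℚ) : ℝ) * s + ((p.2.2.2.1 (cell p.1 g) : ℚ) : ℝ) * g) /
          (e / ((p.2.1 : ℝ) + 1)))
  else 0

theorem step_le (p : Pat) (e g s : ℝ) (he : 0 < e) : |step p e g s| ≤ e := by
  unfold step
  split_ifs with h h'
  all_goals first
    | (simp only [abs_zero]; exact he.le)
    | (have hK : (0 : ℝ) < (p.2.1 : ℝ) + 1 := by positivity
       rw [abs_mul, abs_div, abs_of_pos (div_pos he hK), Int.abs_fract,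
         div_eq_mul_inv]
       calc _ ≤ (e / ((p.2.1 : ℝ) + 1) * ((p.2.1 : ℝ) + 1)) * 1 := by
             apply mul_le_mul _ (Int.fract_lt_one _).le (Int.fract_nonneg _) (by positivity)
             exact mul_le_mul_of_nonneg_left h (by positivity)
         _ = e := by field_simp)

theorem step_spec (p : Pat) (e g s : ℝ) (he : 0 < e) (h0 : p.2.2.1 (cell p.1 g) ≠ 0)
    (h1 : |((p.2.2.1 (cell p.1 g) : ℚ) : ℝ)|⁻¹ ≤ (p.2.1 : ℝ) + 1) :
    ∃ k : ℤ, ((p.2.2.1 (cell p.1 g) : ℚ) : ℝ) * (s + step p e g s) +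
      ((p.2.2.2.1 (cell p.1 g) : ℚ) : ℝ) * g =
        e / ((p.2.1 : ℝ) + 1) * ((if cell p.1 g = p.2.2.2.2 then 1 / 2 else 0) - k) := by
  unfold step
  rw [if_pos h1]
  have ha : ((p.2.2.1 (cell p.1 g) : ℚ) : ℝ) ≠ 0 := by exact_mod_cast h0
  have hd : e / ((p.2.1 : ℝ) + 1) ≠ 0 := by positivity
  generalize ((p.2.2.1 (cell p.1 g) : ℚ) : ℝ) = a at *
  generalize ((p.2.2.2.1 (cell p.1 g) : ℚ) : ℝ) = b at *
  generalize e / ((p.2.1 : ℝ) + 1) = d at *
  generalize (if cell p.1 g = p.2.2.2.2 then (1 / 2 : ℝ) else 0) = t at *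
  refine ⟨⌊t - (a * s + b * g) / d⌋, ?_⟩
  rw [Int.fract]
  field_simp
  ring

theorem step_meas (p : Pat) (e : ℝ) (s : ℝ → ℝ) (hs : Measurable s) :
    Measurable (fun g => step p e g (s g)) := by
  have ha : Measurable (fun g => ((p.2.2.1 (cell p.1 g) : ℚ) : ℝ)) :=
    (measurable_of_countable (fun z : ℤ => ((p.2.2.1 z : ℚ) : ℝ))).comp (cell_meas _)
  have hb : Measurable (fun g => ((p.2.2.2.1 (cell p.1 g) : ℚ) : ℝ)) :=
    (measurable_of_countable (fun z : ℤ => ((p.2.2.2.1 z : ℚ) : ℝ))).comp (cell_meas _)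
  have ht : Measurable (fun g => (if cell p.1 g = p.2.2.2.2 then (1 / 2 : ℝ) else 0)) :=
    (measurable_of_countable (fun z : ℤ => (if z = p.2.2.2.2 then (1 / 2 : ℝ) else 0))).comp
      (cell_meas _)
  unfold step
  refine Measurable.ite (measurableSet_le (by fun_prop) measurable_const) ?_ measurable_const
  refine Measurable.mul (by fun_prop) (measurable_fract.comp ?_)
  fun_prop

/-- the tolerances -/
noncomputable def eps (q : ℕ → Pat) : ℕ → ℝ
  | 0 => 1
  | j + 1 => eps q j / (4 * (((q j).2.1 : ℝ) + 1) ^ 2)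

theorem eps_pos (q : ℕ → Pat) (j : ℕ) : 0 < eps q j := by
  induction j with
  | zero => simp [eps]
  | succ j ih => rw [eps]; positivity

theorem eps_half (q : ℕ → Pat) (j : ℕ) : eps q (j + 1) ≤ eps q j / 2 := by
  rw [eps]
  have h := eps_pos q j
  apply div_le_div_of_nonneg_left h.le (by norm_num)
  have : (0 : ℝ) ≤ ((q j).2.1 : ℝ) := by positivity
  nlinarith

theorem eps_tendsto (q : ℕ → Pat) : Tendsto (eps q) atTop (𝓝 0) := by
  have h : ∀ j, eps q j ≤ (1 / 2 : ℝ) ^ j := by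
    intro j
    induction j with
    | zero => simp [eps]
    | succ j ih => rw [pow_succ]; linarith [eps_half q j]
  exact squeeze_zero (fun j => (eps_pos q j).le) h
    (tendsto_pow_atTop_nhds_zero_of_lt_one (by norm_num) (by norm_num))

/-- the approximations -/
noncomputable def appr (q : ℕ → Pat) : ℕ → ℝ → ℝ
  | 0 => fun _ => 0
  | j + 1 => fun g => appr q j g + step (q j) (eps q j) g (appr q j g)

theorem appr_meas (q : ℕ → Pat) (j : ℕ) : Measurable (appr q j) := by
  induction j with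
  | zero => exact measurable_const
  | succ j ih => exact ih.add (step_meas _ _ _ ih)

theorem appr_dist (q : ℕ → Pat) (g : ℝ) (j k : ℕ) (h : j ≤ k) :
    dist (appr q j g) (appr q k g) ≤ 2 * eps q j - 2 * eps q k := by
  induction k, h using Nat.le_induction with
  | base => simp
  | succ k hk ih =>
    have h1 : dist (appr q k g) (appr q (k + 1) g) ≤ eps q k := by
      rw [dist_comm, Real.dist_eq, appr]
      simpa using step_le (q k) (eps q k) g (appr q k g) (eps_pos q k)
    linarith [dist_triangle (appr q j g) (appr q k g) (appr q (k + 1) g), eps_half q k]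

theorem exists_lim (q : ℕ → Pat) : ∃ x : ℝ → ℝ, Measurable x ∧
    ∀ g j, |x g - appr q j g| ≤ 2 * eps q j := by
  have hc : ∀ g, ∃ l, Tendsto (fun j => appr q j g) atTop (𝓝 l) := by
    intro g
    apply cauchySeq_tendsto_of_complete
    apply cauchySeq_of_le_tendsto_0' (fun j => 2 * eps q j)
    · intro n m hnm
      linarith [appr_dist q g n m hnm, eps_pos q m]
    · simpa using (eps_tendsto q).const_mul 2
  choose x hx using hc
  refine ⟨x, measurable_of_tendsto_metrizable (appr_meas q) (tendsto_pi_nhds.mpr hx), ?_⟩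
  intro g j
  rw [← Real.dist_eq, dist_comm]
  apply le_of_tendsto (tendsto_const_nhds.dist (hx g))
  filter_upwards [eventually_ge_atTop j] with k hk
  linarith [appr_dist q g j k hk, eps_pos q k]

/-- evaluation of a formal combination -/
noncomputable def ev (x : ℝ → ℝ) (m n : ℝ →₀ ℚ) : ℝ :=
  Finsupp.linearCombination ℚ x m + Finsupp.linearCombination ℚ id n

/-- A Borel function whose values are independent over the rationals, even modulo rational
multiples of the arguments used. -/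
theorem exists_indep : ∃ x : ℝ → ℝ, Measurable x ∧
    ∀ m n : ℝ →₀ ℚ, (∀ g, m g = 0 → n g = 0) → ev x m n = 0 → m = 0 := by
  classical
  obtain ⟨q, hq⟩ := exists_surjective_nat Pat
  obtain ⟨x, hxm, hx⟩ := exists_lim q
  refine ⟨x, hxm, fun m n hmn hev => ?_⟩
  by_contra hm
  obtain ⟨g0, hg0⟩ := Finsupp.support_nonempty_iff.mpr hm
  obtain ⟨N, hN⟩ := exists_cell_inj m.support
  obtain ⟨K, hK⟩ := exists_nat_gt (∑ g ∈ m.support, (|(m g : ℝ)| + |(m g : ℝ)|⁻¹))
  obtain ⟨j, hj⟩ := hq (N, K, Finsupp.mapDomain (cell N) m, Finsupp.mapDomain (cell N) n, cell N g0)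
  have hsub : n.support ⊆ m.support := by
    intro g hg
    rw [Finsupp.mem_support_iff] at hg ⊢
    exact fun h => hg (hmn g h)
  have hm' : ∀ g ∈ m.support, Finsupp.mapDomain (cell N) m (cell N g) = m g := fun g hg =>
    Finsupp.mapDomain_apply' m.support m le_rfl hN hg
  have hn' : ∀ g ∈ m.support, Finsupp.mapDomain (cell N) n (cell N g) = n g := fun g hg =>
    Finsupp.mapDomain_apply' m.support n (by exact_mod_cast hsub) hN hg
  have hspec : ∀ g ∈ m.support, ∃ k : ℤ, (m g : ℝ) * appr q (j + 1) g + (n g : ℝ) * g =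
      eps q j / ((K : ℝ) + 1) * ((if g = g0 then 1 / 2 else 0) - k) := by
    intro g hg
    have h1 := step_spec (q j) (eps q j) g (appr q j g) (eps_pos q j)
    rw [hj] at h1
    simp only [hm' g hg, hn' g hg] at h1
    have h2 : |(m g : ℝ)|⁻¹ ≤ (K : ℝ) + 1 := by
      have := Finset.single_le_sum (f := fun g => (|(m g : ℝ)| + |(m g : ℝ)|⁻¹))
        (fun i _ => by positivity) hg
      have h3 := abs_nonneg (m g : ℝ)
      linarith
    obtain ⟨k, hk⟩ := h1 (Finsupp.mem_support_iff.mp hg) h2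
    refine ⟨k, ?_⟩
    have h4 : (cell N g = cell N g0) ↔ g = g0 := ⟨fun h => hN hg hg0 h, fun h => by rw [h]⟩
    simp only [h4] at hk
    rw [appr, hj]
    exact hk
  choose! k hk using hspec
  have hev2 : ∑ g ∈ m.support, ((m g : ℝ) * x g + (n g : ℝ) * g) = 0 := by
    rw [← hev, ev, Finsupp.linearCombination_apply, Finsupp.linearCombination_apply,
      Finsupp.sum_of_support_subset n hsub _ (by simp), Finsupp.sum, Finset.sum_add_distrib]
    simp [Rat.smul_def]
  set d := eps q j / ((K : ℝ) + 1) with hd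
  have hK1 : (0 : ℝ) < (K : ℝ) + 1 := by positivity
  have hd0 : 0 < d := div_pos (eps_pos q j) hK1
  have hsum : ∑ g ∈ m.support, ((m g : ℝ) * appr q (j + 1) g + (n g : ℝ) * g) =
      d * (1 / 2 - ((∑ g ∈ m.support, k g : ℤ) : ℝ)) := by
    rw [Finset.sum_congr rfl hk, ← Finset.mul_sum, Finset.sum_sub_distrib]
    simp [hg0]
  have herr : |∑ g ∈ m.support, (m g : ℝ) * (x g - appr q (j + 1) g)| ≤ K * (2 * eps q (j + 1)) := by
    calc _ ≤ ∑ g ∈ m.support, |(m g : ℝ) * (x g - appr q (j + 1) g)| := Finset.abs_sum_le_sum_abs _ _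
      _ ≤ ∑ g ∈ m.support, (|(m g : ℝ)| + |(m g : ℝ)|⁻¹) * (2 * eps q (j + 1)) := by
        apply Finset.sum_le_sum
        intro g _
        rw [abs_mul]
        apply mul_le_mul _ (hx g (j + 1)) (abs_nonneg _) (by positivity)
        have : 0 ≤ |(m g : ℝ)|⁻¹ := by positivity
        linarith
      _ ≤ _ := by
        rw [← Finset.sum_mul]
        exact mul_le_mul_of_nonneg_right hK.le (by linarith [eps_pos q (j + 1)])
  have he : eps q (j + 1) = d / (4 * ((K : ℝ) + 1)) := by
    rw [eps, hj, hd]; field_simp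
  have hlt : K * (2 * eps q (j + 1)) < d / 2 := by
    rw [he]
    have : (K : ℝ) * (2 * (d / (4 * ((K : ℝ) + 1)))) = d / 2 * (K / (K + 1)) := by field_simp; ring
    rw [this]
    have h2 : (K : ℝ) / (K + 1) < 1 := by rw [div_lt_one hK1]; linarith
    nlinarith
  have hid : ∑ g ∈ m.support, (m g : ℝ) * (x g - appr q (j + 1) g) =
      - (d * (1 / 2 - ((∑ g ∈ m.support, k g : ℤ) : ℝ))) := by
    rw [← hsum, eq_neg_iff_add_eq_zero, ← Finset.sum_add_distrib, ← hev2]
    apply Finset.sum_congr rfl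
    intro g _
    ring
  rw [hid, abs_neg, abs_mul, abs_of_pos hd0] at herr
  have hge : 1 / 2 ≤ |(1 / 2 : ℝ) - ((∑ g ∈ m.support, k g : ℤ) : ℝ)| := by
    generalize (∑ g ∈ m.support, k g : ℤ) = z
    rcases le_or_gt z 0 with h | h
    · have : (z : ℝ) ≤ 0 := by exact_mod_cast h
      rw [abs_of_pos (by linarith)]; linarith
    · have : (1 : ℝ) ≤ z := by exact_mod_cast h
      rw [abs_of_neg (by linarith)]; linarith
  nlinarith

end Pool.Agent.H96.BorelIndep
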