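import Mathlib

open Polynomial Finset

namespace Pool.Agent.H96.CZ

lemma card_le_of_inter (A B : Multiset ℝ) (h1 : ∀ x ∈ A, A.count x - 1 ≤ B.count x)
    (h2 : ∀ x ∈ A, ∀ y ∈ A, x < y → ∃ z ∈ B, x < z ∧ z < y) : A.card ≤ B.card + 1 := by
  have h3 : A.toFinset.card ≤ (B.toFinset \ A.toFinset).card + 1 :=
    Finset.card_le_sdiff_of_interleaved fun x hx y hy hxy _ => by
      simpa using h2 x (by simpa using hx) y (by simpa using hy) hxy
  calc
    A.card = ∑ x ∈ A.toFinset, A.count x := (Multiset.toFinset_sum_count_eq _).symm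
    _ = ∑ x ∈ A.toFinset, (A.count x - 1 + 1) :=
      (Eq.symm <| Finset.sum_congr rfl fun _ hx => tsub_add_cancel_of_le <|
        Nat.succ_le_iff.2 <| Multiset.count_pos.2 <| Multiset.mem_toFinset.1 hx)
    _ = (∑ x ∈ A.toFinset, (A.count x - 1)) + A.toFinset.card := by
      simp only [Finset.sum_add_distrib, Finset.card_eq_sum_ones]
    _ ≤ (∑ x ∈ A.toFinset, B.count x) + ((B.toFinset \ A.toFinset).card + 1) :=
      add_le_add (Finset.sum_le_sum fun x hx => h1 x (by simpa using hx)) h3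
    _ ≤ (∑ x ∈ A.toFinset, B.count x) + ((∑ x ∈ B.toFinset \ A.toFinset, B.count x) + 1) := by
      simp only [Finset.card_eq_sum_ones]
      gcongr with x hx
      rw [Nat.succ_le_iff, Multiset.count_pos, ← Multiset.mem_toFinset]
      exact (Finset.mem_sdiff.1 hx).1
    _ = B.card + 1 := by
      rw [← add_assoc, ← Finset.sum_union Finset.disjoint_sdiff, Finset.union_sdiff_self_eq_union, ←
        Multiset.toFinset_sum_count_eq, ← Finset.sum_subset Finset.subset_union_right]
      intro x _ hx₂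
      simpa only [Multiset.mem_toFinset, Multiset.count_eq_zero] using hx₂

noncomputable def pr (f : ℝ[X]) : Multiset ℝ := f.roots.filter (0 < ·)

noncomputable def th (s : ℝ) (f : ℝ[X]) : ℝ[X] := X * derivative f - C s * f

lemma th_coeff (s : ℝ) (f : ℝ[X]) (k : ℕ) : (th s f).coeff k = (k - s) * f.coeff k := by
  unfold th
  rw [coeff_sub, coeff_C_mul]
  cases k with
  | zero => simp
  | succ k => rw [coeff_X_mul, coeff_derivative]; push_cast; ring

lemma pr_th (s : ℝ) {f : ℝ[X]} (hf : f ≠ 0) (h : th s f ≠ 0) :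
    (pr f).card ≤ (pr (th s f)).card + 1 := by
  refine card_le_of_inter _ _ (fun x hx => ?_) fun x hx y hy hxy => ?_
  · have hx0 : 0 < x := (Multiset.mem_filter.1 hx).2
    unfold pr
    rw [Multiset.count_filter_of_pos hx0, Multiset.count_filter_of_pos hx0, count_roots,
      count_roots, le_rootMultiplicity_iff h]
    unfold th
    refine dvd_sub (Dvd.dvd.mul_left ?_ _) (Dvd.dvd.mul_left ?_ _)
    · exact (pow_dvd_pow _ (rootMultiplicity_sub_one_le_derivative_rootMultiplicity f x)).trans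
        (pow_rootMultiplicity_dvd _ _)
    · exact (pow_dvd_pow _ (Nat.sub_le _ _)).trans (pow_rootMultiplicity_dvd _ _)
  · obtain ⟨hx1, hx0⟩ := Multiset.mem_filter.1 hx
    obtain ⟨hy1, hy0⟩ := Multiset.mem_filter.1 hy
    rw [mem_roots hf, IsRoot] at hx1 hy1
    have hd : ∀ z, 0 < z → HasDerivAt (fun z : ℝ => z ^ (-s) * f.eval z)
        (z ^ (-s - 1) * (th s f).eval z) z := fun z hz => by
      refine ((Real.hasDerivAt_rpow_const (p := -s) (Or.inl hz.ne')).mul
        (f.hasDerivAt z)).congr_deriv ?_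
      have : z ^ (-s) = z ^ (-s - 1) * z := by
        rw [← Real.rpow_add_one hz.ne']; congr 1; ring
      rw [this]
      simp [th]; ring
    obtain ⟨z, hz, hz'⟩ := exists_hasDerivAt_eq_zero (f := fun z : ℝ => z ^ (-s) * f.eval z) hxy
      (fun z hz => (hd z (hx0.trans_le hz.1)).continuousAt.continuousWithinAt)
      (by simp [hx1, hy1]) (fun z hz => hd z (hx0.trans hz.1))
    have hz0 := hx0.trans hz.1
    refine ⟨z, Multiset.mem_filter.2 ⟨(mem_roots h).2 ?_, hz0⟩, hz⟩
    exact (mul_eq_zero.1 hz').resolve_left (Real.rpow_pos_of_pos hz0 _).ne'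

noncomputable def pp (S : Finset ℕ) (k : ℕ) : ℝ := ∏ j ∈ S, ((k : ℝ) - (j + 1 / 2))

lemma fac_ne (k j : ℕ) : (k : ℝ) - (j + 1 / 2) ≠ 0 := by
  intro h
  have : (2 * k : ℝ) = 2 * j + 1 := by linarith
  have : 2 * k = 2 * j + 1 := by exact_mod_cast this
  omega

lemma pp_ne (S : Finset ℕ) (k : ℕ) : pp S k ≠ 0 := prod_ne_zero_iff.2 fun j _ => fac_ne k j

lemma exists_th (S : Finset ℕ) {f : ℝ[X]} (hf : f ≠ 0) : ∃ g : ℝ[X], g ≠ 0 ∧
    (∀ k, g.coeff k = pp S k * f.coeff k) ∧ (pr f).card ≤ (pr g).card + S.card := by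
  induction S using Finset.induction_on with
  | empty => exact ⟨f, hf, by simp [pp], by simp⟩
  | insert j S hj ih =>
    obtain ⟨g, hg, h1, h2⟩ := ih
    have h3 : th (j + 1 / 2) g ≠ 0 := fun h0 => hg (by
      ext k
      have := th_coeff (j + 1 / 2) g k
      rw [h0, coeff_zero] at this
      simpa using (mul_eq_zero.1 this.symm).resolve_left (fac_ne k j))
    refine ⟨_, h3, fun k => ?_, ?_⟩
    · rw [th_coeff, h1, pp, pp, prod_insert hj]; ring
    · have := pr_th _ hg h3
      rw [card_insert_of_notMem hj]; omega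

noncomputable def vv (i : ℕ) : ℝ := 1 - 1 / ((i : ℝ) + 3 / 2) ^ 2

lemma vv_pos (i : ℕ) : 0 ≤ vv i := by
  unfold vv
  have : (0 : ℝ) ≤ i := Nat.cast_nonneg i
  rw [sub_nonneg, div_le_one (by positivity)]; nlinarith

lemma vv_le (i : ℕ) : vv i ≤ 1 := by
  unfold vv
  have : (0 : ℝ) ≤ 1 / ((i : ℝ) + 3 / 2) ^ 2 := by positivity
  linarith

lemma vv_range (n : ℕ) : ∏ i ∈ range n, vv i = ((n : ℝ) + 3 / 2) / (3 * (n + 1 / 2)) := by
  induction n with
  | zero => norm_num
  | succ n ih =>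
    rw [prod_range_succ, ih, vv]
    push_cast
    field_simp
    ring

lemma vv_prod (T : Finset ℕ) (e : ℕ → ℕ) (he : Set.InjOn e T) : 1 / 3 ≤ ∏ j ∈ T, vv (e j) := by
  rw [← prod_image (s := T) (g := e) (f := vv) he]
  obtain ⟨n, hn⟩ := exists_nat_subset_range (T.image e)
  refine le_trans ?_ (prod_le_prod_of_subset_of_le_one hn (fun i _ => vv_pos i)
    fun i _ _ => vv_le i)
  rw [vv_range, le_div_iff₀ (by positivity)]
  linarith

lemma pp_conc (S : Finset ℕ) (k : ℕ) : pp S (k + 1) ^ 2 ≤ 9 * (|pp S k| * |pp S (k + 2)|) := by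
  set c : ℕ → ℝ := fun j => |(k : ℝ) - (j + 1 / 2)| * |((k + 2 : ℕ) : ℝ) - (j + 1 / 2)| /
    (((k + 1 : ℕ) : ℝ) - (j + 1 / 2)) ^ 2 with hc
  have h1 : |pp S k| * |pp S (k + 2)| = (∏ j ∈ S, c j) * pp S (k + 1) ^ 2 := by
    unfold pp
    rw [abs_prod, abs_prod, ← prod_mul_distrib, ← prod_pow, ← prod_mul_distrib]
    refine prod_congr rfl fun j _ => ?_
    simp only [hc]
    rw [div_mul_cancel₀ _ (pow_ne_zero _ (fac_ne _ _))]
  have h2 : 1 / 9 ≤ ∏ j ∈ S, c j := by
    rw [← prod_filter_mul_prod_filter_not S (fun j => k + 2 ≤ j),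
      ← prod_filter_mul_prod_filter_not (S.filter (fun j => ¬ k + 2 ≤ j)) (fun j => j + 1 ≤ k)]
    have ha : 1 / 3 ≤ ∏ j ∈ S.filter (fun j => k + 2 ≤ j), c j := by
      refine (vv_prod (S.filter (fun j => k + 2 ≤ j)) (fun j => j - (k + 2)) fun a ha b hb h => by
        simp only [coe_filter, Set.mem_ofPred_eq] at ha hb h; omega).trans_eq
        (prod_congr rfl fun j hj => ?_)
      obtain ⟨i, rfl⟩ := Nat.exists_eq_add_of_le (mem_filter.1 hj).2
      have hi : (0 : ℝ) ≤ i := Nat.cast_nonneg i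
      simp only [hc, vv, Nat.add_sub_cancel_left]
      push_cast
      rw [abs_of_neg (by linarith), abs_of_neg (by linarith),
        show ((k : ℝ) + 1 - (k + 2 + i + 1 / 2)) ^ 2 = (i + 3 / 2) ^ 2 by ring]
      field_simp
      ring
    have hb : 1 / 3 ≤ ∏ j ∈ (S.filter (fun j => ¬ k + 2 ≤ j)).filter (fun j => j + 1 ≤ k), c j := by
      refine (vv_prod _ (fun j => k - (j + 1)) fun a ha b hb h => by
        simp only [coe_filter, Set.mem_ofPred_eq] at ha hb h; omega).trans_eq
        (prod_congr rfl fun j hj => ?_)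
      obtain ⟨i, rfl⟩ := Nat.exists_eq_add_of_le (mem_filter.1 hj).2
      have hi : (0 : ℝ) ≤ i := Nat.cast_nonneg i
      simp only [hc, vv, Nat.add_sub_cancel_left]
      push_cast
      rw [abs_of_pos (by linarith), abs_of_pos (by linarith),
        show ((j : ℝ) + 1 + i + 1 - (j + 1 / 2)) ^ 2 = (i + 3 / 2) ^ 2 by ring]
      field_simp
      ring
    have hd : 1 ≤ ∏ j ∈ (S.filter (fun j => ¬ k + 2 ≤ j)).filter (fun j => ¬ j + 1 ≤ k), c j := by
      refine Finset.prod_induction _ (fun x : ℝ => 1 ≤ x) (fun a b ha hb => by nlinarith) le_rfl ?_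
      intro j hj
      simp only [mem_filter] at hj
      have : j = k ∨ j = k + 1 := by omega
      rcases this with rfl | rfl
      · simp only [hc]; push_cast
        rw [abs_of_neg (by linarith), abs_of_pos (by linarith), le_div_iff₀ (by nlinarith)]
        nlinarith
      · simp only [hc]; push_cast
        rw [abs_of_neg (by linarith), abs_of_pos (by linarith), le_div_iff₀ (by nlinarith)]
        nlinarith
    calc (1 / 9 : ℝ) = 1 / 3 * (1 / 3 * 1) := by norm_num
      _ ≤ _ := by gcongr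
  rw [h1]
  nlinarith [sq_nonneg (pp S (k + 1))]

lemma pp_sign (S : Finset ℕ) (k : ℕ) :
    (k ∈ S → pp S k * pp S (k + 1) < 0) ∧ (k ∉ S → 0 < pp S k * pp S (k + 1)) := by
  have h1 : ∀ T : Finset ℕ, k ∉ T → 0 < pp T k * pp T (k + 1) := fun T hT => by
    unfold pp
    rw [← prod_mul_distrib]
    refine prod_pos fun j hj => ?_
    have hjk : j ≠ k := fun h => hT (h ▸ hj)
    push_cast
    rcases lt_or_gt_of_ne hjk with h | h
    · have : (j : ℝ) + 1 ≤ k := by exact_mod_cast h
      nlinarith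
    · have : (k : ℝ) + 1 ≤ j := by exact_mod_cast h
      nlinarith
  refine ⟨fun hk => ?_, h1 S⟩
  have h2 := h1 (S.erase k) (notMem_erase _ _)
  unfold pp at h2 ⊢
  rw [← mul_prod_erase S _ hk, ← mul_prod_erase S _ hk]
  push_cast at h2 ⊢
  nlinarith

lemma geo_sum (n l : ℕ) : ∑ k ∈ (range n).erase l, (1 / 6 : ℝ) ^ (Nat.dist k l) ≤ 2 / 5 := by
  have h1 : ∀ (T : Finset ℕ) (e : ℕ → ℕ), Set.InjOn e T →
      ∑ k ∈ T, (1 / 6 : ℝ) ^ (e k + 1) ≤ 1 / 5 := by
    intro T e he
    rw [← sum_image (s := T) (g := e) (f := fun i => (1 / 6 : ℝ) ^ (i + 1)) he]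
    have h2 : HasSum (fun i : ℕ => (1 / 6 : ℝ) ^ (i + 1)) (1 / 5) := by
      have := (hasSum_geometric_of_lt_one (r := 1 / 6) (by norm_num) (by norm_num)).mul_right (1 / 6)
      simp only [← pow_succ] at this
      rwa [show ((1 - 1 / 6)⁻¹ * (1 / 6) : ℝ) = 1 / 5 by norm_num] at this
    exact sum_le_hasSum _ (fun _ _ => by positivity) h2
  rw [← sum_filter_add_sum_filter_not _ (fun k => k < l)]
  have ha := h1 (((range n).erase l).filter (fun k => k < l)) (fun k => l - k - 1)
    fun a ha b hb h => by simp only [coe_filter, Set.mem_ofPred_eq] at ha hb h; omega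
  have hb := h1 (((range n).erase l).filter (fun k => ¬ k < l)) (fun k => k - l - 1)
    fun a ha b hb h => by simp only [coe_filter, mem_erase, Set.mem_ofPred_eq] at ha hb h; omega
  rw [sum_congr rfl (g := fun k => (1 / 6 : ℝ) ^ (l - k - 1 + 1)) fun k hk => by
      simp only [mem_filter] at hk; congr 1; unfold Nat.dist; omega,
    sum_congr (s₁ := ((range n).erase l).filter (fun k => ¬ k < l)) rfl
      (g := fun k => (1 / 6 : ℝ) ^ (k - l - 1 + 1)) fun k hk => by
      simp only [mem_filter, mem_erase] at hk; congr 1; unfold Nat.dist; omega]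
  linarith

lemma convex_bound {β : ℕ → ℝ} (hβ : ∀ k, 0 < β k)
    (h : ∀ k, 36 * β (k + 1) ^ 2 ≤ β k * β (k + 2)) (k : ℕ) :
    ∃ y : ℝ, 0 < y ∧ ∀ l, β k * y ^ l ≤ β l * y ^ k * (1 / 6) ^ (Nat.dist k l) := by
  set ρ : ℕ → ℝ := fun m => β (m + 1) / β m with hρ
  have hρ0 : ∀ m, 0 < ρ m := fun m => div_pos (hβ _) (hβ _)
  have h1 : ∀ m, 36 * ρ m ≤ ρ (m + 1) := fun m => by
    simp only [hρ]
    rw [← mul_div_assoc, div_le_div_iff₀ (hβ _) (hβ _)]
    nlinarith [h m]
  have hmono : Monotone ρ := monotone_nat_of_le_succ fun m => by nlinarith [h1 m, hρ0 m]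
  have hstep : ∀ m, β (m + 1) = ρ m * β m := fun m => by
    simp only [hρ]; rw [div_mul_cancel₀ _ (hβ m).ne']
  refine ⟨ρ k / 6, by have := hρ0 k; positivity, fun l => ?_⟩
  set y := ρ k / 6 with hy
  have hy0 : 0 < y := by have := hρ0 k; positivity
  rcases le_total k l with hkl | hkl
  · obtain ⟨d, rfl⟩ := Nat.exists_eq_add_of_le hkl
    have : Nat.dist k (k + d) = d := by unfold Nat.dist; omega
    rw [this]
    clear this hkl
    induction d with
    | zero => simp
    | succ d ih =>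
      have h2 : ρ k ≤ ρ (k + d) := hmono (by omega)
      rw [← add_assoc, hstep, pow_succ, pow_succ]
      have h3 := hβ (k + d)
      calc β k * (y ^ (k + d) * y) = β k * y ^ (k + d) * y := by ring
        _ ≤ β (k + d) * y ^ k * (1 / 6) ^ d * (ρ (k + d) / 6) := by gcongr; linarith
        _ = _ := by ring
  · obtain ⟨d, rfl⟩ := Nat.exists_eq_add_of_le hkl
    have : Nat.dist (l + d) l = d := by unfold Nat.dist; omega
    rw [this]
    have key : ∀ e, e ≤ d → β (l + e) ≤ β l * y ^ e * (1 / 6) ^ e := by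
      intro e
      induction e with
      | zero => simp
      | succ e ih =>
        intro he
        have h2 : ρ (l + e + 1) ≤ ρ (l + d) := hmono (by omega)
        have h3 : ρ (l + e) ≤ y * (1 / 6) := by rw [hy]; linarith [h1 (l + e)]
        have h4 := hβ (l + e)
        have h5 := hβ l
        rw [← add_assoc, hstep, pow_succ, pow_succ]
        calc ρ (l + e) * β (l + e) ≤ y * (1 / 6) * (β l * y ^ e * (1 / 6) ^ e) := by
              gcongr; exact ih (by omega)
          _ = _ := by ring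
    calc β (l + d) * y ^ l ≤ β l * y ^ d * (1 / 6) ^ d * y ^ l := by gcongr; exact key d le_rfl
      _ = _ := by rw [pow_add]; ring

end Pool.Agent.H96.CZ
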