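import Pool.Agent.H96.CZ1

open Polynomial Finset

namespace Pool.Agent.H96.CZ

def Dom (g : ℝ[X]) (n k : ℕ) (y : ℝ) : Prop :=
  0 < y ∧ ∑ l ∈ (range n).erase k, |g.coeff l| * y ^ l < |g.coeff k| * y ^ k

lemma Dom.ne {g : ℝ[X]} {n k : ℕ} {y : ℝ} (h : Dom g n k y) : g.coeff k ≠ 0 := by
  intro h0
  have h1 := h.1
  have h2 := h.2
  rw [h0, abs_zero, zero_mul] at h2
  exact absurd h2 (not_lt.2 (sum_nonneg fun _ _ => by positivity))

lemma Dom.lt {g : ℝ[X]} {n k : ℕ} {y : ℝ} (h : Dom g n k y) (hn : g.natDegree < n) : k < n :=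
  (le_natDegree_of_ne_zero h.ne).trans_lt hn

lemma Dom.sign {g : ℝ[X]} {n k : ℕ} {y : ℝ} (h : Dom g n k y) (hn : g.natDegree < n) :
    0 < g.eval y * g.coeff k := by
  rw [eval_eq_sum_range' hn, ← add_sum_erase _ _ (mem_range.2 (h.lt hn))]
  have h1 : |∑ l ∈ (range n).erase k, g.coeff l * y ^ l| < |g.coeff k| * y ^ k :=
    lt_of_le_of_lt ((abs_sum_le_sum_abs _ _).trans_eq (sum_congr rfl fun l _ => by
      rw [abs_mul, abs_of_pos (pow_pos h.1 l)])) h.2
  have h2 := pow_pos h.1 k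
  obtain ⟨h3, h4⟩ := abs_lt.1 h1
  rcases lt_or_gt_of_ne h.ne with h5 | h5
  · rw [abs_of_neg h5] at h3 h4; nlinarith
  · rw [abs_of_pos h5] at h3 h4; nlinarith

lemma Dom.mono {g : ℝ[X]} {n i j : ℕ} {y z : ℝ} (hi : Dom g n i y) (hj : Dom g n j z)
    (hn : g.natDegree < n) (hij : i < j) : y < z := by
  have h1 : |g.coeff j| * y ^ j < |g.coeff i| * y ^ i := by
    have := hi.1
    refine lt_of_le_of_lt (single_le_sum (f := fun l => |g.coeff l| * y ^ l)
      (fun _ _ => by positivity) ?_) hi.2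
    exact mem_erase.2 ⟨hij.ne', mem_range.2 (hj.lt hn)⟩
  have h2 : |g.coeff i| * z ^ i < |g.coeff j| * z ^ j := by
    have := hj.1
    refine lt_of_le_of_lt (single_le_sum (f := fun l => |g.coeff l| * z ^ l)
      (fun _ _ => by positivity) ?_) hj.2
    exact mem_erase.2 ⟨hij.ne, mem_range.2 (hi.lt hn)⟩
  obtain ⟨d, rfl⟩ := Nat.exists_eq_add_of_lt hij
  rw [add_assoc, pow_add, ← mul_assoc, mul_right_comm] at h1 h2
  have h3 := lt_of_mul_lt_mul_right h1 (pow_pos hi.1 i).le
  have h4 := lt_of_mul_lt_mul_right h2 (pow_pos hj.1 i).le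
  have h5 := lt_of_mul_lt_mul_left (h3.trans h4) (abs_nonneg _)
  exact lt_of_pow_lt_pow_left₀ _ hj.1.le h5

lemma exists_S (g : ℝ[X]) (hg : g ≠ 0) {n : ℕ} (hn : g.natDegree < n) :
    ∃ (S : Finset ℕ) (c : ℝ), S.card ≤ (pr g).card ∧
      ∀ k, (∃ y, Dom g n k y) → 0 < c * (pp S k * g.coeff k) := by
  classical
  by_cases hG : ∃ k, ∃ y, Dom g n k y
  swap
  · exact ⟨∅, 1, by simp, fun k hk => absurd ⟨k, hk⟩ hG⟩
  have hch : ∀ k, ∃ y, (∃ y, Dom g n k y) → Dom g n k y := fun k => by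
    by_cases h : ∃ y, Dom g n k y
    · exact ⟨h.choose, fun _ => h.choose_spec⟩
    · exact ⟨0, fun h' => absurd h' h⟩
  choose y hy using hch
  let J : ℕ → ℕ := fun k => Nat.rec (Nat.find hG)
    (fun k j => if ∃ y, Dom g n (k + 1) y then k + 1 else j) k
  have hJs : ∀ k, J (k + 1) = if ∃ y, Dom g n (k + 1) y then k + 1 else J k := fun _ => rfl
  have hJ1 : ∀ k, (∃ y, Dom g n (J k) y) ∧ (J k ≤ k ∨ J k = Nat.find hG) := by
    intro k
    induction k with
    | zero => exact ⟨Nat.find_spec hG, Or.inr rfl⟩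
    | succ k ih =>
      rw [hJs]
      split_ifs with h
      · exact ⟨h, Or.inl le_rfl⟩
      · exact ⟨ih.1, ih.2.imp_left fun h => by omega⟩
  have hJ2 : ∀ k, (∃ y, Dom g n k y) → J k = k := by
    intro k hk
    cases k with
    | zero => exact (Nat.find_eq_zero hG).2 hk
    | succ k => rw [hJs, if_pos hk]
  have hJm : ∀ k, J k ≤ J (k + 1) := by
    intro k
    rw [hJs]
    split_ifs with h
    · rcases (hJ1 k).2 with h1 | h1
      · omega
      · rw [h1]; exact Nat.find_min' hG h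
    · exact le_rfl
  set Y : ℕ → ℝ := fun k => y (J k) with hY
  have hYd : ∀ k, Dom g n (J k) (Y k) := fun k => hy _ (hJ1 k).1
  have hYm : Monotone Y := monotone_nat_of_le_succ fun k => by
    rcases (hJm k).eq_or_lt with h | h
    · simp only [hY, h]; exact le_rfl
    · exact ((hYd k).mono (hYd (k + 1)) hn h).le
  have hY0 : ∀ k, g.eval (Y k) ≠ 0 := fun k => left_ne_zero_of_mul ((hYd k).sign hn).ne'
  set S := (range n).filter (fun j => g.eval (Y j) * g.eval (Y (j + 1)) < 0) with hS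
  have hroot : ∀ j ∈ S, ∃ r, Y j < r ∧ r < Y (j + 1) ∧ g.eval r = 0 := by
    intro j hj
    have h1 := (mem_filter.1 hj).2
    have h2 : Y j ≤ Y (j + 1) := hYm (Nat.le_succ j)
    rcases lt_or_gt_of_ne (hY0 j) with h3 | h3
    · obtain ⟨r, hr, hr'⟩ := intermediate_value_Ioo h2 g.continuousOn
        (show (0 : ℝ) ∈ Set.Ioo _ _ from ⟨h3, by nlinarith⟩)
      exact ⟨r, hr.1, hr.2, hr'⟩
    · obtain ⟨r, hr, hr'⟩ := intermediate_value_Ioo' h2 g.continuousOn
        (show (0 : ℝ) ∈ Set.Ioo _ _ from ⟨by nlinarith, h3⟩)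
      exact ⟨r, hr.1, hr.2, hr'⟩
  choose! r hr using hroot
  refine ⟨S, g.eval (Y 0) * pp S 0, ?_, fun k hk => ?_⟩
  · refine le_trans (card_le_card_of_injOn r (t := (pr g).toFinset) (fun j hj => ?_) ?_)
      (Multiset.toFinset_card_le _)
    · simp only [mem_coe, Multiset.mem_toFinset, pr, Multiset.mem_filter, mem_roots hg]
      exact ⟨(hr j hj).2.2, (hYd j).1.trans (hr j hj).1⟩
    · have : ∀ a ∈ S, ∀ b ∈ S, a < b → r a < r b := fun a ha b hb hab =>
        ((hr a ha).2.1.trans_le (hYm hab)).trans (hr b hb).1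
      intro a ha b hb hab
      rcases lt_trichotomy a b with h | h | h
      · exact absurd hab (this a ha b hb h).ne
      · exact h
      · exact absurd hab (this b hb a ha h).ne'
  · have key : ∀ k, k ≤ n → 0 < g.eval (Y 0) * pp S 0 * (g.eval (Y k) * pp S k) := by
      intro k
      induction k with
      | zero => exact fun _ => mul_self_pos.2 (mul_ne_zero (hY0 0) (pp_ne S 0))
      | succ k ih =>
        intro hk
        have h1 := ih (by omega)
        have h2 : 0 < (g.eval (Y k) * g.eval (Y (k + 1))) * (pp S k * pp S (k + 1)) := by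
          by_cases h3 : k ∈ S
          · exact mul_pos_of_neg_of_neg (mem_filter.1 h3).2 ((pp_sign S k).1 h3)
          · refine mul_pos (lt_of_le_of_ne (not_lt.1 fun h4 => h3 ?_)
              (mul_ne_zero (hY0 k) (hY0 (k + 1))).symm) ((pp_sign S k).2 h3)
            exact mem_filter.2 ⟨mem_range.2 (by omega), h4⟩
        have h4 := mul_pos h1 h2
        have h5 : 0 < (g.eval (Y k) * pp S k) ^ 2 := sq_pos_of_ne_zero (mul_ne_zero (hY0 k) (pp_ne S k))
        by_contra h6
        nlinarith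
    have h1 := key k ((hy k hk).lt hn).le
    have h2 := (hYd k).sign hn
    rw [hJ2 k hk] at h2
    have h4 := mul_pos h1 h2
    have h5 : 0 < g.eval (Y k) ^ 2 := sq_pos_of_ne_zero (hY0 k)
    by_contra h6
    nlinarith

theorem pr_le {γ : ℕ → ℝ} (hγ : ∀ k, 0 < γ k) (hc : ∀ k, 324 * (γ k * γ (k + 2)) ≤ γ (k + 1) ^ 2)
    {f g : ℝ[X]} (hfg : ∀ k, g.coeff k = γ k * f.coeff k) : (pr f).card ≤ (pr g).card := by
  classical
  rcases eq_or_ne f 0 with rfl | hf
  · simp [pr]
  have hg : g ≠ 0 := fun h0 => hf (by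
    ext k
    have := hfg k
    rw [h0, coeff_zero] at this
    simpa using (mul_eq_zero.1 this.symm).resolve_left (hγ k).ne')
  set n := f.natDegree + 1 with hn
  have hdeg : ∀ q : ℝ[X], (∀ k, f.coeff k = 0 → q.coeff k = 0) → q.natDegree < n := fun q hq =>
    Nat.lt_succ_of_le (natDegree_le_iff_coeff_eq_zero.2 fun k hk =>
      hq k (coeff_eq_zero_of_natDegree_lt hk))
  have hgn := hdeg g fun k hk => by rw [hfg, hk, mul_zero]
  obtain ⟨S, c, hS, hc'⟩ := exists_S g hg hgn
  obtain ⟨q, hq, hq1, hq2⟩ := exists_th S hf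
  by_contra hlt
  obtain ⟨x, hx⟩ := Multiset.card_pos_iff_exists_mem.1 (show 0 < (pr q).card by omega)
  obtain ⟨hx1, hx0⟩ := Multiset.mem_filter.1 hx
  rw [mem_roots hq, IsRoot, eval_eq_sum_range' (hdeg q fun k hk => by rw [hq1, hk, mul_zero])]
    at hx1
  set β : ℕ → ℝ := fun k => |pp S k| * x ^ k / γ k with hβ
  have hβ0 : ∀ k, 0 < β k := fun k => div_pos (mul_pos (abs_pos.2 (pp_ne S k)) (pow_pos hx0 k)) (hγ k)
  have hβc : ∀ k, 36 * β (k + 1) ^ 2 ≤ β k * β (k + 2) := by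
    intro k
    have h1 := pp_conc S k
    have h2 := hc k
    have h3 := hγ k
    have h4 := hγ (k + 1)
    have h5 := hγ (k + 2)
    simp only [hβ]
    rw [div_pow, div_mul_div_comm, ← mul_div_assoc, div_le_div_iff₀ (by positivity) (by positivity),
      mul_pow, sq_abs]
    calc 36 * (pp S (k + 1) ^ 2 * (x ^ (k + 1)) ^ 2) * (γ k * γ (k + 2))
        ≤ 36 * (9 * (|pp S k| * |pp S (k + 2)|) * (x ^ (k + 1)) ^ 2) * (γ k * γ (k + 2)) := by
          gcongr
      _ = |pp S k| * x ^ k * (|pp S (k + 2)| * x ^ (k + 2)) * (324 * (γ k * γ (k + 2))) := by ring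
      _ ≤ _ := by gcongr
  set T : ℕ → ℝ := fun k => |g.coeff k| * β k with hT
  have hT0 : ∀ k, 0 ≤ T k := fun k => mul_nonneg (abs_nonneg _) (hβ0 k).le
  have hTq : ∀ k, T k = |q.coeff k * x ^ k| := fun k => by
    simp only [hT, hβ]
    rw [hq1, hfg, abs_mul, abs_mul, abs_mul, abs_of_pos (hγ k), abs_of_pos (pow_pos hx0 k)]
    have := (hγ k).ne'
    field_simp
  have hbad : ∀ k, ¬ (∃ y, Dom g n k y) →
      T k ≤ ∑ l ∈ (range n).erase k, T l * (1 / 6) ^ (Nat.dist k l) := by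
    intro k hk
    obtain ⟨y, hy, h⟩ := convex_bound hβ0 hβc k
    have h1 : |g.coeff k| * y ^ k ≤ ∑ l ∈ (range n).erase k, |g.coeff l| * y ^ l :=
      not_lt.1 fun h2 => hk ⟨y, hy, h2⟩
    refine le_of_mul_le_mul_right ?_ (pow_pos hy k)
    calc T k * y ^ k = |g.coeff k| * y ^ k * β k := by simp only [hT]; ring
      _ ≤ (∑ l ∈ (range n).erase k, |g.coeff l| * y ^ l) * β k :=
          mul_le_mul_of_nonneg_right h1 (hβ0 k).le
      _ ≤ _ := by
          rw [sum_mul, sum_mul]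
          refine sum_le_sum fun l _ => ?_
          have := mul_le_mul_of_nonneg_left (h l) (abs_nonneg (g.coeff l))
          simp only [hT]
          linarith
  set B := (range n).filter (fun k => ¬ ∃ y, Dom g n k y) with hB
  set A := (range n).filter (fun k => ∃ y, Dom g n k y) with hA
  have h1 : ∑ k ∈ B, T k ≤ 2 / 5 * ∑ l ∈ range n, T l := by
    calc ∑ k ∈ B, T k ≤ ∑ k ∈ B, ∑ l ∈ (range n).erase k, T l * (1 / 6) ^ (Nat.dist k l) :=
          sum_le_sum fun k hk => hbad k (mem_filter.1 hk).2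
      _ ≤ ∑ k ∈ range n, ∑ l ∈ (range n).erase k, T l * (1 / 6) ^ (Nat.dist k l) :=
          sum_le_sum_of_subset_of_nonneg (filter_subset _ _) fun k _ _ =>
            sum_nonneg fun l _ => mul_nonneg (hT0 l) (by positivity)
      _ = ∑ l ∈ range n, ∑ k ∈ (range n).erase l, T l * (1 / 6) ^ (Nat.dist k l) := by
          refine sum_comm' fun k l => ?_
          simp only [mem_erase]; tauto
      _ ≤ _ := by
          rw [mul_sum]
          refine sum_le_sum fun l _ => ?_
          rw [← mul_sum, mul_comm]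
          exact mul_le_mul_of_nonneg_right (geo_sum n l) (hT0 l)
  have h2 : ∑ k ∈ A, T k + ∑ k ∈ B, T k = ∑ l ∈ range n, T l :=
    sum_filter_add_sum_filter_not _ _ _
  have h3 : ∑ k ∈ A, T k ≤ ∑ k ∈ B, T k := by
    rcases A.eq_empty_or_nonempty with h | ⟨k0, hk0⟩
    · rw [h, sum_empty]; exact sum_nonneg fun k _ => hT0 k
    have hc0 : c ≠ 0 := left_ne_zero_of_mul (hc' k0 (mem_filter.1 hk0).2).ne'
    have h4 : ∑ k ∈ A, q.coeff k * x ^ k + ∑ k ∈ B, q.coeff k * x ^ k = 0 := by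
      rw [← hx1]; exact sum_filter_add_sum_filter_not _ _ _
    refine le_of_mul_le_mul_left ?_ (abs_pos.2 hc0)
    calc |c| * ∑ k ∈ A, T k = c * ∑ k ∈ A, q.coeff k * x ^ k := by
          rw [mul_sum, mul_sum]
          refine sum_congr rfl fun k hk => ?_
          have h5 := hc' k (mem_filter.1 hk).2
          rw [hTq, ← abs_mul]
          apply abs_of_pos
          rw [hfg] at h5
          rw [hq1]
          have h6 := mul_pos h5 (pow_pos hx0 k)
          have h7 := hγ k
          by_contra h8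
          nlinarith
      _ = -(c * ∑ k ∈ B, q.coeff k * x ^ k) := by linear_combination c * h4
      _ ≤ |c * ∑ k ∈ B, q.coeff k * x ^ k| := neg_le_abs _
      _ ≤ _ := by
          rw [abs_mul]
          exact mul_le_mul_of_nonneg_left ((abs_sum_le_sum_abs _ _).trans_eq
            (sum_congr rfl fun k _ => (hTq k).symm)) (abs_nonneg _)
  have h5 : 0 < ∑ l ∈ range n, T l := by
    refine sum_pos' (fun k _ => hT0 k) ⟨f.natDegree, mem_range.2 (by omega), ?_⟩
    refine mul_pos (abs_pos.2 ?_) (hβ0 _)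
    rw [hfg]
    exact mul_ne_zero (hγ _).ne' (leadingCoeff_ne_zero.2 hf)
  linarith

lemma card_split (f : ℝ[X]) : f.roots.card =
    (pr f).card + (pr (f.comp (-X))).card + f.natTrailingDegree := by
  classical
  rw [← rootMultiplicity_eq_natTrailingDegree', ← count_roots, pr, pr, roots_comp_neg_X,
    Multiset.filter_map, Multiset.card_map, Multiset.count_eq_card_filter_eq]
  induction f.roots using Multiset.induction_on with
  | empty => simp
  | cons a s ih =>
    simp only [Multiset.filter_cons, Multiset.card_cons, Multiset.card_add, ih, Function.comp]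
    rcases lt_trichotomy a 0 with h | h | h
    · simp [h, h.not_gt, h.ne']; omega
    · simp [h]; omega
    · simp [h, h.not_gt, h.ne]; omega

theorem roots_le {γ : ℕ → ℝ} (hγ : ∀ k, 0 < γ k)
    (hc : ∀ k, 324 * (γ k * γ (k + 2)) ≤ γ (k + 1) ^ 2)
    {f g : ℝ[X]} (hfg : ∀ k, g.coeff k = γ k * f.coeff k) : f.roots.card ≤ g.roots.card := by
  have hs : g.support = f.support := by
    ext k; simp [hfg, (hγ k).ne']
  have h1 : g.natTrailingDegree = f.natTrailingDegree := by
    unfold natTrailingDegree trailingDegree; rw [hs]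
  have h2 := pr_le hγ hc hfg
  have h3 := pr_le hγ hc (f := f.comp (-X)) (g := g.comp (-X)) fun k => by
    rw [show (-X : ℝ[X]) = C (-1) * X by simp, comp_C_mul_X_coeff, comp_C_mul_X_coeff, hfg]; ring
  rw [card_split f, card_split g]
  omega

lemma nonreal_card (f : ℝ[X]) :
    ((f.map (algebraMap ℝ ℂ)).roots.filter (fun z : ℂ => z.im ≠ 0)).card + f.roots.card
      = f.natDegree := by
  classical
  have h1 := filter_roots_map_range_eq_map_roots (f := algebraMap ℝ ℂ) (algebraMap ℝ ℂ).injective f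
  have h2 : (f.map (algebraMap ℝ ℂ)).roots.filter (fun z : ℂ => ¬ z.im ≠ 0)
      = f.roots.map (algebraMap ℝ ℂ) := by
    rw [← h1]
    refine Multiset.filter_congr fun z _ => ?_
    simp only [ne_eq, not_not, RingHom.mem_range]
    exact ⟨fun h => ⟨z.re, Complex.ext (by simp) (by simp [h])⟩, fun ⟨r, hr⟩ => by simp [← hr]⟩
  rw [← Multiset.card_map (algebraMap ℝ ℂ) f.roots, ← h2, ← Multiset.card_add,
    Multiset.filter_add_not, IsAlgClosed.card_roots_eq_natDegree, natDegree_map]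

theorem czds {γ : ℕ → ℝ} (hγ : ∀ k, 0 < γ k)
    (hc : ∀ k, 324 * (γ k * γ (k + 2)) ≤ γ (k + 1) ^ 2)
    {f g : ℝ[X]} (hfg : ∀ k, g.coeff k = γ k * f.coeff k) :
    ((g.map (algebraMap ℝ ℂ)).roots.filter (fun z : ℂ => z.im ≠ 0)).card
      ≤ ((f.map (algebraMap ℝ ℂ)).roots.filter (fun z : ℂ => z.im ≠ 0)).card := by
  have hs : g.support = f.support := by
    ext k; simp [hfg, (hγ k).ne']
  have h1 : g.natDegree = f.natDegree := by
    unfold natDegree degree; rw [hs]
  have := roots_le hγ hc hfg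
  have := nonreal_card f
  have := nonreal_card g
  omega

lemma exp_conc {p : ℕ} (hp : 3 ≤ p) (k : ℕ) :
    324 * (Real.exp (-((k : ℝ) ^ p)) * Real.exp (-(((k + 2 : ℕ) : ℝ) ^ p)))
      ≤ Real.exp (-(((k + 1 : ℕ) : ℝ) ^ p)) ^ 2 := by
  have hk : (0 : ℝ) ≤ k := Nat.cast_nonneg k
  have h1 : 2 * ((k : ℝ) + 1) ^ p + 6 ≤ (k : ℝ) ^ p + ((k : ℝ) + 2) ^ p := by
    induction p, hp using Nat.le_induction with
    | base => nlinarith
    | succ p hp ih =>
      have h2 : (k : ℝ) ^ p ≤ ((k : ℝ) + 2) ^ p := by gcongr; linarith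
      rw [pow_succ, pow_succ, pow_succ]
      nlinarith
  have h2 : (324 : ℝ) ≤ Real.exp 6 := by
    have h3 : Real.exp 6 = Real.exp 1 ^ 6 := by rw [← Real.exp_nat_mul]; norm_num
    have h4 := Real.exp_one_gt_d9
    rw [h3]
    calc (324 : ℝ) ≤ 2.7 ^ 6 := by norm_num
      _ ≤ _ := by gcongr; linarith
  calc _ ≤ Real.exp 6 * (Real.exp (-((k : ℝ) ^ p)) * Real.exp (-(((k + 2 : ℕ) : ℝ) ^ p))) := by
        gcongr
    _ ≤ _ := by
        rw [← Real.exp_add, ← Real.exp_add, ← Real.exp_nat_mul, Real.exp_le_exp]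
        push_cast; linarith

end Pool.Agent.H96.CZ
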