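import Pool.Agent.H96.Ach

set_option autoImplicit false
open Filter Topology

namespace Pool.Agent.H96.Cval
open Pool.Agent.H96.Achv

theorem split {x : ℕ → ℝ} (hx : ∀ n, 0 ≤ x n) (hs : Summable x) (k : ℕ) {s : ℝ} (h : s ∈ Ach x) :
    ∃ F ⊆ Finset.range k, (∑ i ∈ F, x i) ∈ Ach x ∧ s - ∑ i ∈ F, x i ∈ Ach x ∧
      s - ∑ i ∈ F, x i ≤ ∑' n, x n - ∑ i ∈ Finset.range k, x i := by
  classical
  have key : ∀ A : Set ℕ, ∑' n, A.indicator x n - ∑ i ∈ (Finset.range k).filter (· ∈ A), x i =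
      ∑' n, (A ∩ Set.Ici k).indicator x n := by
    intro A
    rw [sum_eq_tsum_indicator, ← (summ hs _).tsum_sub (summ hs _)]
    congr 1
    funext n
    by_cases h1 : n ∈ A <;> by_cases h2 : n < k <;> simp [h1, h2, Set.indicator] <;> omega
  obtain ⟨A, rfl⟩ := h
  refine ⟨(Finset.range k).filter (· ∈ A), Finset.filter_subset _ _,
    ⟨_, sum_eq_tsum_indicator _ _⟩, ⟨_, key A⟩, ?_⟩
  have h2 := key Set.univ
  simp only [Set.indicator_univ, Set.mem_univ, Finset.filter_true, Set.univ_inter] at h2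
  rw [key A, h2]
  exact (summ hs _).tsum_le_tsum (fun n => Set.indicator_le_indicator_of_subset
    Set.inter_subset_right hx n) (summ hs _)

theorem gap_right {x : ℕ → ℝ} (hx : ∀ n, 0 ≤ x n) (hs : Summable x)
    (hg : ∀ ε > 0, ∃ y, 0 < y ∧ y < ε ∧ y ∉ Ach x) (a δ : ℝ) (hδ : 0 < δ)
    (ha : ∀ z, a - δ < z → z < a → z ∉ Ach x) (ε : ℝ) (hε : 0 < ε) :
    ∃ y, a < y ∧ y < a + ε ∧ y ∉ Ach x := by
  classical
  have h1 : Tendsto (fun k => ∑' n, x n - ∑ i ∈ Finset.range k, x i) atTop (𝓝 0) := by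
    have := hs.hasSum.tendsto_sum_nat.const_sub (∑' n, x n)
    simpa using this
  obtain ⟨k, hk⟩ := (h1.eventually (gt_mem_nhds hδ)).exists
  have h2 : ∀ᶠ η in 𝓝[>] (0 : ℝ), ∀ F ∈ (Finset.range k).powerset,
      a < ∑ i ∈ F, x i → a + η ≤ ∑ i ∈ F, x i := by
    rw [Filter.eventually_all_finset]
    intro F _
    by_cases h : a < ∑ i ∈ F, x i
    · filter_upwards [Ioo_mem_nhdsGT (sub_pos.mpr h)] with η hη _
      linarith [hη.2]
    · exact Eventually.of_forall fun _ h' => absurd h' h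
  obtain ⟨η, hη1, hη2⟩ := (h2.and (Ioo_mem_nhdsGT hε)).exists
  obtain ⟨y, hy0, hy1, hy2⟩ := hg η hη2.1
  refine ⟨a + y, by linarith, by linarith [hη2.2], fun h => ?_⟩
  obtain ⟨F, hF, h3, h4, h5⟩ := split hx hs k h
  have h6 := (bounds hx hs h4).1
  rcases lt_trichotomy (∑ i ∈ F, x i) a with h7 | h7 | h7
  · exact ha _ (by linarith) h7 h3
  · rw [h7, add_sub_cancel_left] at h4
    exact hy2 h4
  · have := hη1 F (Finset.mem_powerset.mpr hF) h7
    linarith

theorem gap_left {x : ℕ → ℝ} (hx : ∀ n, 0 ≤ x n) (hs : Summable x)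
    (hg : ∀ ε > 0, ∃ y, 0 < y ∧ y < ε ∧ y ∉ Ach x) (a δ : ℝ) (hδ : 0 < δ)
    (ha : ∀ z, a < z → z < a + δ → z ∉ Ach x) (ε : ℝ) (hε : 0 < ε) :
    ∃ y, a - ε < y ∧ y < a ∧ y ∉ Ach x := by
  obtain ⟨y, h1, h2, h3⟩ := gap_right hx hs hg (∑' n, x n - a) δ hδ (fun z h1 h2 h3 =>
    ha _ (by linarith) (by linarith) (symm_mem hs h3)) ε hε
  exact ⟨∑' n, x n - y, by linarith, by linarith, fun h => h3 (by simpa using symm_mem hs h)⟩

theorem single_comp (E : Set ℝ) (g : ℝ) (hg : g ∈ E) (h1 : ∀ ε > 0, ∃ y, g - ε < y ∧ y < g ∧ y ∉ E)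
    (h2 : ∀ ε > 0, ∃ y, g < y ∧ y < g + ε ∧ y ∉ E) : connectedComponentIn E g = {g} := by
  have hoc := (isPreconnected_connectedComponentIn (x := g) (F := E)).ordConnected
  have hm := mem_connectedComponentIn hg
  refine Set.Subset.antisymm (fun z hz => ?_) (by simpa using hm)
  rcases lt_trichotomy z g with h | h | h
  · obtain ⟨y, h3, h4, h5⟩ := h1 (g - z) (by linarith)
    exact absurd (connectedComponentIn_subset E g (hoc.out hz hm ⟨by linarith, h4.le⟩)) h5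
  · exact h
  · obtain ⟨y, h3, h4, h5⟩ := h2 (z - g) (by linarith)
    exact absurd (connectedComponentIn_subset E g (hoc.out hm hz ⟨h3.le, by linarith⟩)) h5

theorem left_end {x : ℕ → ℝ} (hx : ∀ n, 0 ≤ x n) (hs : Summable x)
    (hg : ∀ ε > 0, ∃ y, 0 < y ∧ y < ε ∧ y ∉ Ach x) (a v : ℝ) (hav : a < v)
    (h1 : Set.Icc a v ⊆ Ach x) (h2 : ∀ e < a, ¬ Set.Icc e a ⊆ Ach x) :
    a ∈ closure {y ∈ Ach x | connectedComponentIn (Ach x) y = {y}} := by
  rw [Metric.mem_closure_iff]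
  intro ε hε
  obtain ⟨y, hy, hyE⟩ := Set.not_subset.mp (h2 (a - ε / 2) (by linarith))
  have haE : a ∈ Ach x := h1 ⟨le_rfl, hav.le⟩
  have hcl : IsClosed (Ach x ∩ Set.Ici y) := (isCompact hs).isClosed.inter isClosed_Ici
  have hbd : BddBelow (Ach x ∩ Set.Ici y) := ⟨y, fun z hz => hz.2⟩
  have hm := hcl.csInf_mem ⟨a, haE, hy.2⟩ hbd
  have hle : sInf (Ach x ∩ Set.Ici y) ≤ a := csInf_le hbd ⟨haE, hy.2⟩
  set g := sInf (Ach x ∩ Set.Ici y)
  have hyg : y < g := lt_of_le_of_ne hm.2 (fun h => hyE (h ▸ hm.1))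
  have hgap : ∀ z, y < z → z < g → z ∉ Ach x := fun z h3 h4 h5 =>
    absurd (csInf_le hbd ⟨h5, h3.le⟩) (not_le.mpr h4)
  refine ⟨g, ⟨hm.1, single_comp _ g hm.1 (fun η hη => ?_)
    (gap_right hx hs hg g (g - y) (by linarith) (fun z h3 h4 => hgap z (by linarith) h4))⟩, ?_⟩
  · refine ⟨(max y (g - η) + g) / 2, ?_, ?_, hgap _ ?_ ?_⟩ <;>
      linarith [le_max_left y (g - η), le_max_right y (g - η),
        max_lt hyg (show g - η < g by linarith)]
  · rw [Real.dist_eq, abs_lt]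
    constructor <;> linarith [hy.1]

theorem right_end {x : ℕ → ℝ} (hx : ∀ n, 0 ≤ x n) (hs : Summable x)
    (hg : ∀ ε > 0, ∃ y, 0 < y ∧ y < ε ∧ y ∉ Ach x) (a v : ℝ) (hav : v < a)
    (h1 : Set.Icc v a ⊆ Ach x) (h2 : ∀ e, a < e → ¬ Set.Icc a e ⊆ Ach x) :
    a ∈ closure {y ∈ Ach x | connectedComponentIn (Ach x) y = {y}} := by
  rw [Metric.mem_closure_iff]
  intro ε hε
  obtain ⟨y, hy, hyE⟩ := Set.not_subset.mp (h2 (a + ε / 2) (by linarith))
  have haE : a ∈ Ach x := h1 ⟨hav.le, le_rfl⟩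
  have hcl : IsClosed (Ach x ∩ Set.Iic y) := (isCompact hs).isClosed.inter isClosed_Iic
  have hbd : BddAbove (Ach x ∩ Set.Iic y) := ⟨y, fun z hz => hz.2⟩
  have hm := hcl.csSup_mem ⟨a, haE, hy.1⟩ hbd
  have hle : a ≤ sSup (Ach x ∩ Set.Iic y) := le_csSup hbd ⟨haE, hy.1⟩
  set g := sSup (Ach x ∩ Set.Iic y)
  have hyg : g < y := lt_of_le_of_ne hm.2 (fun h => hyE (h ▸ hm.1))
  have hgap : ∀ z, g < z → z < y → z ∉ Ach x := fun z h3 h4 h5 =>
    absurd (le_csSup hbd ⟨h5, h4.le⟩) (not_le.mpr h3)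
  refine ⟨g, ⟨hm.1, single_comp _ g hm.1
    (gap_left hx hs hg g (y - g) (by linarith) (fun z h3 h4 => hgap z h3 (by linarith)))
    (fun η hη => ?_)⟩, ?_⟩
  · refine ⟨(min y (g + η) + g) / 2, ?_, ?_, hgap _ ?_ ?_⟩ <;>
      linarith [min_le_left y (g + η), min_le_right y (g + η),
        lt_min hyg (show g < g + η by linarith)]
  · rw [Real.dist_eq, abs_lt]
    constructor <;> linarith [hy.2]

/-- endpoints of nondegenerate components are limits of one-point components -/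
theorem ends {x : ℕ → ℝ} (hx : ∀ n, 0 ≤ x n) (hs : Summable x)
    (hg : ∀ ε > 0, ∃ y, 0 < y ∧ y < ε ∧ y ∉ Ach x) (p : ℝ)
    (hnt : (connectedComponentIn (Ach x) p).Nontrivial) :
    sInf (connectedComponentIn (Ach x) p) ∈
        closure {y ∈ Ach x | connectedComponentIn (Ach x) y = {y}} ∧
      sSup (connectedComponentIn (Ach x) p) ∈
        closure {y ∈ Ach x | connectedComponentIn (Ach x) y = {y}} := by
  set C := connectedComponentIn (Ach x) p with hC
  have hoc : C.OrdConnected := (isPreconnected_connectedComponentIn (x := p) (F := Ach x)).ordConnected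
  have hsub : C ⊆ Ach x := connectedComponentIn_subset _ _
  have hcl := (isCompact hs).isClosed
  have hb1 : BddBelow C := (isCompact hs).bddBelow.mono hsub
  have hb2 : BddAbove C := (isCompact hs).bddAbove.mono hsub
  obtain ⟨u, hu, v, hv, huv⟩ := hnt.exists_lt
  have hmax : ∀ e f w, w ∈ C → w ∈ Set.Icc e f → Set.Icc e f ⊆ Ach x → Set.Icc e f ⊆ C := by
    intro e f w hw hw2 h
    rw [hC, connectedComponentIn_eq hw]
    exact isPreconnected_Icc.subset_connectedComponentIn hw2 h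
  constructor
  · have ha : sInf C ≤ u := csInf_le hb1 hu
    have hI : Set.Icc (sInf C) v ⊆ Ach x := by
      intro z hz
      rcases hz.1.eq_or_lt with h | h
      · rw [← h]
        exact closure_minimal hsub hcl (csInf_mem_closure ⟨u, hu⟩ hb1)
      · obtain ⟨c, hc, hcz⟩ := exists_lt_of_csInf_lt ⟨u, hu⟩ h
        exact hsub (hoc.out hc hv ⟨hcz.le, hz.2⟩)
    refine left_end hx hs hg _ v (by linarith) hI fun e he h => ?_
    have h3 : Set.Icc e v ⊆ Ach x := by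
      intro z hz
      rcases le_total z (sInf C) with h4 | h4
      · exact h ⟨hz.1, h4⟩
      · exact hI ⟨h4, hz.2⟩
    have := csInf_le hb1 (hmax e v v hv ⟨by linarith, le_rfl⟩ h3 ⟨le_rfl, by linarith⟩)
    linarith
  · have ha : v ≤ sSup C := le_csSup hb2 hv
    have hI : Set.Icc u (sSup C) ⊆ Ach x := by
      intro z hz
      rcases hz.2.eq_or_lt with h | h
      · rw [h]
        exact closure_minimal hsub hcl (csSup_mem_closure ⟨u, hu⟩ hb2)
      · obtain ⟨c, hc, hcz⟩ := exists_lt_of_lt_csSup ⟨u, hu⟩ h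
        exact hsub (hoc.out hu hc ⟨hz.1, hcz.le⟩)
    refine right_end hx hs hg _ u (by linarith) hI fun e he h => ?_
    have h3 : Set.Icc u e ⊆ Ach x := by
      intro z hz
      rcases le_total z (sSup C) with h4 | h4
      · exact hI ⟨hz.1, h4⟩
      · exact h ⟨h4, hz.2⟩
    have := le_csSup hb2 (hmax u e u hu ⟨le_rfl, by linarith⟩ h3 ⟨by linarith, le_rfl⟩)
    linarith

theorem aff_closure_interior (A B : Set ℝ) (f q : ℝ) (hq : q ≠ 0) (h : ∀ t ∈ A, f + q * t ∈ B)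
    (t : ℝ) (ht : t ∈ closure (interior A)) : f + q * t ∈ closure (interior B) := by
  have hop : IsOpenMap (fun t : ℝ => f + q * t) :=
    (isOpenMap_add_left f).comp (Homeomorph.mulLeft₀ q hq).isOpenMap
  have h1 : (fun t : ℝ => f + q * t) '' interior A ⊆ interior B :=
    (hop.image_interior_subset A).trans (interior_mono (by rintro _ ⟨t, ht, rfl⟩; exact h t ht))
  exact closure_mono h1 (image_closure_subset_closure_image (by fun_prop) ⟨t, ht, rfl⟩)

end Pool.Agent.H96.Cval
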