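import Mathlib

set_option autoImplicit false
set_option linter.unusedSectionVars false
set_option maxHeartbeats 400000

namespace Pool.Agent.H96.DS

/-- fourth moment smoothness -/
def PP (E : Type) [NormedAddCommGroup E] : Prop :=
  ∀ x y : E, ‖x + y‖ ^ 4 + ‖x - y‖ ^ 4 ≤ 2 * (‖x‖ ^ 2 + 3 * ‖y‖ ^ 2) ^ 2

lemma PP_real : PP ℝ := by
  intro x y
  have h4 : ∀ t : ℝ, ‖t‖ ^ 4 = t ^ 4 := fun t => by
    rw [Real.norm_eq_abs]; exact (by decide : Even 4).pow_abs t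
  have h2 : ∀ t : ℝ, ‖t‖ ^ 2 = t ^ 2 := fun t => by rw [Real.norm_eq_abs, sq_abs]
  rw [h4, h4, h2, h2]
  nlinarith [sq_nonneg (y ^ 2)]

lemma cs2 {a b c d s t : ℝ} (hs : 0 ≤ s) (ht : 0 ≤ t) (h1 : a ^ 2 + b ^ 2 ≤ s ^ 2)
    (h2 : c ^ 2 + d ^ 2 ≤ t ^ 2) : a * c + b * d ≤ s * t := by
  have h3 : (a * c + b * d) ^ 2 ≤ (s * t) ^ 2 := by
    have : (a * c + b * d) ^ 2 ≤ (a ^ 2 + b ^ 2) * (c ^ 2 + d ^ 2) := by
      nlinarith [sq_nonneg (a * d - b * c)]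
    refine this.trans ?_
    rw [mul_pow]
    exact mul_le_mul h1 h2 (by positivity) (by positivity)
  exact (abs_le_of_sq_le_sq' h3 (by positivity)).2

lemma cs2' {a b c d s t : ℝ} (hs : 0 ≤ s) (ht : 0 ≤ t) (h1 : a ^ 2 + b ^ 2 ≤ 2 * s ^ 2)
    (h2 : c ^ 2 + d ^ 2 ≤ 2 * t ^ 2) : a * c + b * d ≤ 2 * (s * t) := by
  have h3 : (a * c + b * d) ^ 2 ≤ (2 * (s * t)) ^ 2 := by
    have : (a * c + b * d) ^ 2 ≤ (a ^ 2 + b ^ 2) * (c ^ 2 + d ^ 2) := by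
      nlinarith [sq_nonneg (a * d - b * c)]
    refine this.trans ?_
    have := mul_le_mul h1 h2 (by positivity) (by positivity)
    nlinarith
  exact (abs_le_of_sq_le_sq' h3 (by positivity)).2

instance factFour : Fact ((1 : ENNReal) ≤ 4) := ⟨by norm_num⟩

section
variable {E : Type} [NormedAddCommGroup E]

lemma norm4 (z : WithLp 4 (E × E)) : ‖z‖ ^ 4 = ‖z.fst‖ ^ 4 + ‖z.snd‖ ^ 4 := by
  rw [WithLp.prod_norm_eq_of_nat 4 (by norm_num) z, one_div]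
  exact Real.rpow_inv_natCast_pow (by positivity) (by norm_num)

lemma PP_two (h : PP E) : PP (WithLp 2 (E × E)) := by
  intro x y
  have e4 : ∀ z : WithLp 2 (E × E), ‖z‖ ^ 4 = (‖z.fst‖ ^ 2 + ‖z.snd‖ ^ 2) ^ 2 := fun z => by
    rw [← WithLp.prod_norm_sq_eq_of_L2]; ring
  rw [e4, e4, WithLp.prod_norm_sq_eq_of_L2, WithLp.prod_norm_sq_eq_of_L2]
  have h1 := h x.fst y.fst
  have h2 := h x.snd y.snd
  simp only [WithLp.add_fst, WithLp.add_snd, WithLp.sub_fst, WithLp.sub_snd]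
  have h3 := cs2' (a := ‖x.fst + y.fst‖ ^ 2) (b := ‖x.fst - y.fst‖ ^ 2) (c := ‖x.snd + y.snd‖ ^ 2)
    (d := ‖x.snd - y.snd‖ ^ 2) (s := ‖x.fst‖ ^ 2 + 3 * ‖y.fst‖ ^ 2)
    (t := ‖x.snd‖ ^ 2 + 3 * ‖y.snd‖ ^ 2) (by positivity) (by positivity) (by nlinarith)
    (by nlinarith)
  nlinarith

lemma PP_four (h : PP E) : PP (WithLp 4 (E × E)) := by
  intro x y
  rw [norm4, norm4]
  have h1 := h x.fst y.fst
  have h2 := h x.snd y.snd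
  have hx := norm4 x
  have hy := norm4 y
  simp only [WithLp.add_fst, WithLp.add_snd, WithLp.sub_fst, WithLp.sub_snd]
  have h3 := cs2 (a := ‖x.fst‖ ^ 2) (b := ‖x.snd‖ ^ 2) (c := ‖y.fst‖ ^ 2)
    (d := ‖y.snd‖ ^ 2) (s := ‖x‖ ^ 2) (t := ‖y‖ ^ 2) (by positivity) (by positivity)
    (by nlinarith) (by nlinarith)
  nlinarith

lemma PP.smooth (h : PP E) (x y : E) :
    ‖x + y‖ ^ 2 + ‖x - y‖ ^ 2 ≤ 2 * ‖x‖ ^ 2 + 2 * 3 * ‖y‖ ^ 2 := by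
  have h1 := h x y
  have h3 := cs2' (a := ‖x + y‖ ^ 2) (b := ‖x - y‖ ^ 2) (c := 1) (d := 1)
    (s := ‖x‖ ^ 2 + 3 * ‖y‖ ^ 2) (t := 1) (by positivity) (by positivity) (by nlinarith)
    (by norm_num)
  nlinarith

end

/-- one step of the space construction -/
abbrev SS (E : Type) : Type := WithLp 4 (WithLp 2 (E × E) × WithLp 2 (E × E))

lemma space_step (E : Type) [NormedAddCommGroup E] [NormedSpace ℝ E] :
    ∃ i1 i2 i3 i4 : E →ₗ[ℝ] SS E, ∀ a b c d : E,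
      ‖i1 a + i2 b + i3 c + i4 d‖ ^ 4 = (‖a‖ ^ 2 + ‖b‖ ^ 2) ^ 2 + (‖c‖ ^ 2 + ‖d‖ ^ 2) ^ 2 := by
  let o := (WithLp.linearEquiv 4 ℝ (WithLp 2 (E × E) × WithLp 2 (E × E))).symm.toLinearMap
  let n := (WithLp.linearEquiv 2 ℝ (E × E)).symm.toLinearMap
  refine ⟨o ∘ₗ LinearMap.inl ℝ _ _ ∘ₗ n ∘ₗ LinearMap.inl ℝ _ _,
    o ∘ₗ LinearMap.inl ℝ _ _ ∘ₗ n ∘ₗ LinearMap.inr ℝ _ _,
    o ∘ₗ LinearMap.inr ℝ _ _ ∘ₗ n ∘ₗ LinearMap.inl ℝ _ _,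
    o ∘ₗ LinearMap.inr ℝ _ _ ∘ₗ n ∘ₗ LinearMap.inr ℝ _ _, fun a b c d => ?_⟩
  have e4 : ∀ z : WithLp 2 (E × E), ‖z‖ ^ 4 = (‖z.fst‖ ^ 2 + ‖z.snd‖ ^ 2) ^ 2 := fun z => by
    rw [← WithLp.prod_norm_sq_eq_of_L2]; ring
  rw [norm4, e4, e4]
  simp [o, n]

lemma lp_smooth (E : ℕ → Type) [∀ n, NormedAddCommGroup (E n)] (h : ∀ n, PP (E n))
    (x y : lp E 2) : ‖x + y‖ ^ 2 + ‖x - y‖ ^ 2 ≤ 2 * ‖x‖ ^ 2 + 2 * 3 * ‖y‖ ^ 2 := by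
  have hs : ∀ z : lp E 2, HasSum (fun i => ‖z i‖ ^ 2) (‖z‖ ^ 2) := fun z => by
    have := lp.hasSum_norm (p := 2) (by norm_num) z
    simpa using this
  refine hasSum_le (fun i => ?_) ((hs (x + y)).add (hs (x - y)))
    (((hs x).mul_left 2).add ((hs y).mul_left (2 * 3)))
  simpa using (h i).smooth (x i) (y i)

end Pool.Agent.H96.DS
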