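import Mathlib
import Pool.Agent.H96.DS1

set_option autoImplicit false
set_option linter.unusedSectionVars false
set_option maxHeartbeats 800000

namespace Pool.Agent.H96.DS

open Finset

/-- sign of a coin -/
def sg (b : Bool) : ℝ := if b then 1 else -1

lemma cs_card {Ω : Type} [Fintype Ω] (P : Ω → ℝ) {p : ℝ} (hp : 0 ≤ p)
    (hP : ∑ w, P w ^ 2 ≤ (Fintype.card Ω : ℝ) * p ^ 2) : ∑ w, P w ≤ (Fintype.card Ω : ℝ) * p := by
  have h1 := sq_sum_le_card_mul_sum_sq (s := (univ : Finset Ω)) (f := P)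
  rw [Finset.card_univ] at h1
  have hK : (0 : ℝ) ≤ Fintype.card Ω := Nat.cast_nonneg _
  have h2 : (∑ w, P w) ^ 2 ≤ ((Fintype.card Ω : ℝ) * p) ^ 2 := by
    refine h1.trans ?_
    have := mul_le_mul_of_nonneg_left hP hK
    nlinarith
  exact (abs_le_of_sq_le_sq' h2 (by positivity)).2

lemma mix {Ω : Type} [Fintype Ω] (P Q L : Ω → ℝ) {p q l : ℝ} (hp : 0 ≤ p) (hl : 0 ≤ l)
    (hP0 : ∀ w, 0 ≤ P w) (hL0 : ∀ w, 0 ≤ L w)
    (hP : ∑ w, P w ^ 2 ≤ (Fintype.card Ω : ℝ) * p ^ 2)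
    (hQ : ∑ w, Q w ^ 2 ≤ (Fintype.card Ω : ℝ) * q ^ 2)
    (hL : ∑ w, L w ^ 2 ≤ (Fintype.card Ω : ℝ) * l ^ 2) :
    ∑ u, ∑ v, ((P u + L v) ^ 2 + Q u ^ 2) ≤ (Fintype.card Ω : ℝ) ^ 2 * ((p + l) ^ 2 + q ^ 2) := by
  have h1 := cs_card P hp hP
  have h2 := cs_card L hl hL
  have hK : (0 : ℝ) ≤ Fintype.card Ω := Nat.cast_nonneg _
  have e : ∑ u, ∑ v, ((P u + L v) ^ 2 + Q u ^ 2) = (Fintype.card Ω : ℝ) * ∑ w, P w ^ 2
      + 2 * ((∑ w, P w) * ∑ w, L w) + (Fintype.card Ω : ℝ) * ∑ w, L w ^ 2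
      + (Fintype.card Ω : ℝ) * ∑ w, Q w ^ 2 := by
    have : ∀ u, ∑ v, ((P u + L v) ^ 2 + Q u ^ 2) = (Fintype.card Ω : ℝ) * P u ^ 2
        + 2 * (P u * ∑ w, L w) + ∑ w, L w ^ 2 + (Fintype.card Ω : ℝ) * Q u ^ 2 := by
      intro u
      have : ∀ v, (P u + L v) ^ 2 + Q u ^ 2 = P u ^ 2 + 2 * (P u * L v) + L v ^ 2 + Q u ^ 2 :=
        fun v => by ring
      simp only [this, Finset.sum_add_distrib, Finset.sum_const, Finset.card_univ, nsmul_eq_mul,
        ← Finset.mul_sum]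
    simp only [this, Finset.sum_add_distrib, Finset.sum_const, Finset.card_univ, nsmul_eq_mul,
      ← Finset.mul_sum, ← Finset.sum_mul]
  rw [e]
  have h3 : (∑ w, P w) * ∑ w, L w ≤ ((Fintype.card Ω : ℝ) * p) * ((Fintype.card Ω : ℝ) * l) :=
    mul_le_mul h1 h2 (Finset.sum_nonneg fun w _ => hL0 w) (by positivity)
  have h4 := mul_le_mul_of_nonneg_left hP hK
  have h5 := mul_le_mul_of_nonneg_left hQ hK
  have h6 := mul_le_mul_of_nonneg_left hL hK
  nlinarith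

/-- splitting of the coins -/
def eq3 (I : Type) : (I ⊕ Option I → Bool) ≃ (I → Bool) × Bool × (I → Bool) where
  toFun ε := (fun i => ε (Sum.inl i), ε (Sum.inr none), fun i => ε (Sum.inr (some i)))
  invFun p := Sum.elim p.1 (fun o => o.elim p.2.1 p.2.2)
  left_inv ε := by
    funext i
    rcases i with i | _ | i <;> rfl
  right_inv p := rfl

lemma sum3 {I : Type} [Fintype I] [DecidableEq I] (φ : (I → Bool) → Bool → (I → Bool) → ℝ) :
    ∑ ε : I ⊕ Option I → Bool,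
      φ (fun i => ε (Sum.inl i)) (ε (Sum.inr none)) (fun i => ε (Sum.inr (some i)))
      = ∑ u, ∑ v, φ u true v + ∑ u, ∑ v, φ u false v := by
  refine (Fintype.sum_equiv (eq3 I) _ (fun p => φ p.1 p.2.1 p.2.2) (fun _ => rfl)).trans ?_
  rw [Fintype.sum_prod_type, ← Finset.sum_add_distrib]
  refine Finset.sum_congr rfl fun u _ => ?_
  rw [Fintype.sum_prod_type, Fintype.sum_bool]

lemma card3 (I : Type) [Fintype I] [DecidableEq I] :
    (Fintype.card (I ⊕ Option I → Bool) : ℝ) = 2 * (Fintype.card (I → Bool) : ℝ) ^ 2 := by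
  rw [Fintype.card_congr (eq3 I)]
  simp only [Fintype.card_prod, Fintype.card_bool]
  push_cast
  ring

section
variable {E : Type} [NormedAddCommGroup E] [NormedSpace ℝ E] {I : Type} [Fintype I] [DecidableEq I]

/-- the signed sum -/
def DD (f : I → (I → Bool) → E) (δ ε : I → Bool) : E := ∑ j, sg (δ j) • f j ε

/-- upper estimate for the decoupled sums -/
def Up (f : I → (I → Bool) → E) (A : (I → Bool) → E) (c a : ℝ) : Prop :=
  ∀ (ε : I → Bool) (x : ℝ), ∑ δ, (‖DD f δ ε + x • A ε‖ ^ 2) ^ 2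
    ≤ (Fintype.card (I → Bool) : ℝ) * ((x ^ 2 + c) * a) ^ 2

/-- lower estimate for the martingale -/
def Lo (f : I → (I → Bool) → E) (A : (I → Bool) → E) (m a : ℝ) : Prop :=
  ∀ x : ℝ, (Fintype.card (I → Bool) : ℝ) * (a * (x + m) ^ 2) ≤ ∑ ε, ‖DD f ε ε + x • A ε‖ ^ 2

/-- predictability with respect to a rank -/
def Pred (r : I → ℕ) (f : I → (I → Bool) → E) : Prop :=
  ∀ j ε ε', (∀ i, r i < r j → ε i = ε' i) → f j ε = f j ε'

variable {E' : Type} [NormedAddCommGroup E'] [NormedSpace ℝ E']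

/-- the next process -/
def nf (i1 i2 i3 i4 : E →ₗ[ℝ] E') (f : I → (I → Bool) → E) (A : (I → Bool) → E) :
    I ⊕ Option I → (I ⊕ Option I → Bool) → E'
  | Sum.inl j, ε => i1 (f j fun i => ε (Sum.inl i)) + i3 (f j fun i => ε (Sum.inl i))
  | Sum.inr none, ε => i1 (A fun i => ε (Sum.inl i)) - i3 (A fun i => ε (Sum.inl i))
  | Sum.inr (some j), ε =>
      (if ε (Sum.inr none) then i2 else i4) (f j fun i => ε (Sum.inr (some i)))

/-- the next direction -/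
def nA (i1 i2 i3 i4 : E →ₗ[ℝ] E') (A : (I → Bool) → E) (ε : I ⊕ Option I → Bool) : E' :=
  i1 (A fun i => ε (Sum.inl i)) + i3 (A fun i => ε (Sum.inl i))
    + (if ε (Sum.inr none) then i2 else i4) (A fun i => ε (Sum.inr (some i)))

lemma nD (i1 i2 i3 i4 : E →ₗ[ℝ] E') (f : I → (I → Bool) → E) (A : (I → Bool) → E)
    (δ ε : I ⊕ Option I → Bool) (x : ℝ) :
    DD (nf i1 i2 i3 i4 f A) δ ε + x • nA i1 i2 i3 i4 A ε
      = i1 (DD f (fun i => δ (Sum.inl i)) (fun i => ε (Sum.inl i))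
          + (x + sg (δ (Sum.inr none))) • A fun i => ε (Sum.inl i))
        + i3 (DD f (fun i => δ (Sum.inl i)) (fun i => ε (Sum.inl i))
          + (x - sg (δ (Sum.inr none))) • A fun i => ε (Sum.inl i))
        + (if ε (Sum.inr none) then i2 else i4)
          (DD f (fun i => δ (Sum.inr (some i))) (fun i => ε (Sum.inr (some i)))
            + x • A fun i => ε (Sum.inr (some i))) := by
  simp only [DD, nA, Fintype.sum_sum_type, Fintype.sum_option, nf, map_add, map_smul, map_sum,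
    smul_add, Finset.sum_add_distrib, add_smul, sub_smul, smul_sub, map_sub]
  abel

lemma nrm (i1 i2 i3 i4 : E →ₗ[ℝ] E')
    (h : ∀ a b c d : E,
      ‖i1 a + i2 b + i3 c + i4 d‖ ^ 4 = (‖a‖ ^ 2 + ‖b‖ ^ 2) ^ 2 + (‖c‖ ^ 2 + ‖d‖ ^ 2) ^ 2)
    (b : Bool) (u v w : E) :
    (‖i1 u + i3 v + (if b then i2 else i4) w‖ ^ 2) ^ 2
      = if b then (‖u‖ ^ 2 + ‖w‖ ^ 2) ^ 2 + (‖v‖ ^ 2) ^ 2
        else (‖v‖ ^ 2 + ‖w‖ ^ 2) ^ 2 + (‖u‖ ^ 2) ^ 2 := by
  cases b
  · have := h u 0 v w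
    simp only [map_zero, add_zero, norm_zero] at this
    simp only [Bool.false_eq_true, if_false]
    rw [← pow_mul, this]; ring
  · have := h u w v 0
    simp only [map_zero, add_zero, norm_zero] at this
    simp only [if_true]
    rw [← pow_mul, add_right_comm, this]; ring

lemma up_step (i1 i2 i3 i4 : E →ₗ[ℝ] E')
    (h : ∀ a b c d : E,
      ‖i1 a + i2 b + i3 c + i4 d‖ ^ 4 = (‖a‖ ^ 2 + ‖b‖ ^ 2) ^ 2 + (‖c‖ ^ 2 + ‖d‖ ^ 2) ^ 2)
    (f : I → (I → Bool) → E) (A : (I → Bool) → E) {c a s : ℝ} (hc : 0 ≤ c) (ha : 0 ≤ a)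
    (hs : s ^ 2 = 5) (hU : Up f A c a) :
    Up (nf i1 i2 i3 i4 f A) (nA i1 i2 i3 i4 A) (c + 3) (s * a) := by
  intro ε x
  simp only [nD, nrm i1 i2 i3 i4 h]
  set e1 : I → Bool := fun i => ε (Sum.inl i)
  set e2 : I → Bool := fun i => ε (Sum.inr (some i))
  have key : ∀ y z : ℝ, ∑ u, ∑ v, ((‖DD f u e1 + y • A e1‖ ^ 2 + ‖DD f v e2 + x • A e2‖ ^ 2) ^ 2
      + (‖DD f u e1 + z • A e1‖ ^ 2) ^ 2) ≤ (Fintype.card (I → Bool) : ℝ) ^ 2 *
        (((y ^ 2 + c) * a + (x ^ 2 + c) * a) ^ 2 + ((z ^ 2 + c) * a) ^ 2) := fun y z =>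
    mix (fun u => ‖DD f u e1 + y • A e1‖ ^ 2) (fun u => ‖DD f u e1 + z • A e1‖ ^ 2)
      (fun v => ‖DD f v e2 + x • A e2‖ ^ 2) (by positivity) (by positivity)
      (fun _ => by positivity) (fun _ => by positivity) (hU e1 y) (hU e1 z) (hU e2 x)
  have k1 := key (x + 1) (x - 1)
  have k2 := key (x - 1) (x + 1)
  have fin : (((x + 1) ^ 2 + c) * a + (x ^ 2 + c) * a) ^ 2 + (((x - 1) ^ 2 + c) * a) ^ 2
      + ((((x - 1) ^ 2 + c) * a + (x ^ 2 + c) * a) ^ 2 + (((x + 1) ^ 2 + c) * a) ^ 2)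
      ≤ 2 * ((x ^ 2 + (c + 3)) * (s * a)) ^ 2 := by
    have e : 2 * ((x ^ 2 + (c + 3)) * (s * a)) ^ 2 = 10 * (x ^ 2 + c + 3) ^ 2 * a ^ 2 := by
      rw [mul_pow, mul_pow, hs]; ring
    rw [e]
    have : 0 ≤ a ^ 2 * (32 * x ^ 2 + 48 * c + 86) := by positivity
    nlinarith
  have hK : (0 : ℝ) ≤ (Fintype.card (I → Bool) : ℝ) ^ 2 := by positivity
  have fin2 := mul_le_mul_of_nonneg_left fin hK
  rw [sum3 (fun u b v => if ε (Sum.inr none) then
      (‖DD f u e1 + (x + sg b) • A e1‖ ^ 2 + ‖DD f v e2 + x • A e2‖ ^ 2) ^ 2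
        + (‖DD f u e1 + (x - sg b) • A e1‖ ^ 2) ^ 2
      else (‖DD f u e1 + (x - sg b) • A e1‖ ^ 2 + ‖DD f v e2 + x • A e2‖ ^ 2) ^ 2
        + (‖DD f u e1 + (x + sg b) • A e1‖ ^ 2) ^ 2), card3]
  have s1 : sg true = 1 := rfl
  have s2 : sg false = -1 := rfl
  cases ε (Sum.inr none)
  · simp only [Bool.false_eq_true, if_false, s1, s2, sub_neg_eq_add, ← sub_eq_add_neg]
    nlinarith
  · simp only [if_true, s1, s2, sub_neg_eq_add, ← sub_eq_add_neg]
    nlinarith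

lemma lo_step (i1 i2 i3 i4 : E →ₗ[ℝ] E')
    (h : ∀ a b c d : E,
      ‖i1 a + i2 b + i3 c + i4 d‖ ^ 4 = (‖a‖ ^ 2 + ‖b‖ ^ 2) ^ 2 + (‖c‖ ^ 2 + ‖d‖ ^ 2) ^ 2)
    (f : I → (I → Bool) → E) (A : (I → Bool) → E) {m a s : ℝ} (ha : 0 ≤ a)
    (hs0 : 0 < s) (hs : s ^ 2 = 5) (hL : Lo f A m a) :
    Lo (nf i1 i2 i3 i4 f A) (nA i1 i2 i3 i4 A) (m + 1 / 5) (s * a) := by
  intro x
  have pt : ∀ ε : I ⊕ Option I → Bool,
      2 * (‖DD f (fun i => ε (Sum.inl i)) (fun i => ε (Sum.inl i))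
          + (x + 1) • A fun i => ε (Sum.inl i)‖ ^ 2
        + ‖DD f (fun i => ε (Sum.inr (some i))) (fun i => ε (Sum.inr (some i)))
          + x • A fun i => ε (Sum.inr (some i))‖ ^ 2)
        + ‖DD f (fun i => ε (Sum.inl i)) (fun i => ε (Sum.inl i))
          + (x - 1) • A fun i => ε (Sum.inl i)‖ ^ 2
      ≤ s * ‖DD (nf i1 i2 i3 i4 f A) ε ε + x • nA i1 i2 i3 i4 A ε‖ ^ 2 := by
    intro ε
    have gen : ∀ α β N : ℝ, 0 ≤ N → N ^ 2 = α ^ 2 + β ^ 2 → 2 * α + β ≤ s * N := by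
      intro α β N hN hh
      have : (2 * α + β) ^ 2 ≤ (s * N) ^ 2 := by
        rw [mul_pow s, hs, hh]; nlinarith [sq_nonneg (α - 2 * β)]
      exact (abs_le_of_sq_le_sq' this (by positivity)).2
    refine gen _ _ _ (by positivity) ?_
    rw [nD, nrm i1 i2 i3 i4 h]
    have s1 : sg true = 1 := rfl
    have s2 : sg false = -1 := rfl
    cases ε (Sum.inr none)
    · simp only [Bool.false_eq_true, if_false, s2, sub_neg_eq_add, ← sub_eq_add_neg]
    · simp only [if_true, s1]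
  have sm := Finset.sum_le_sum (s := univ) fun ε _ => pt ε
  rw [← Finset.mul_sum, sum3 (fun u _ v => 2 * (‖DD f u u + (x + 1) • A u‖ ^ 2
    + ‖DD f v v + x • A v‖ ^ 2) + ‖DD f u u + (x - 1) • A u‖ ^ 2)] at sm
  simp only [Finset.sum_add_distrib, Finset.sum_const, Finset.card_univ, nsmul_eq_mul,
      ← Finset.mul_sum, mul_add] at sm
  have hK : (0 : ℝ) ≤ Fintype.card (I → Bool) := Nat.cast_nonneg _
  have l1 := mul_le_mul_of_nonneg_left (hL (x + 1)) hK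
  have l2 := mul_le_mul_of_nonneg_left (hL x) hK
  have l3 := mul_le_mul_of_nonneg_left (hL (x - 1)) hK
  rw [card3]
  refine le_of_mul_le_mul_left ?_ hs0
  refine le_trans ?_ sm
  have e : s * (2 * (Fintype.card (I → Bool) : ℝ) ^ 2 * (s * a * (x + (m + 1 / 5)) ^ 2))
      = 10 * (Fintype.card (I → Bool) : ℝ) ^ 2 * (a * (x + (m + 1 / 5)) ^ 2) := by
    have : s * (2 * (Fintype.card (I → Bool) : ℝ) ^ 2 * (s * a * (x + (m + 1 / 5)) ^ 2))
      = 2 * s ^ 2 * (Fintype.card (I → Bool) : ℝ) ^ 2 * (a * (x + (m + 1 / 5)) ^ 2) := by ring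
    rw [this, hs]; ring
  rw [e]
  have : 0 ≤ (Fintype.card (I → Bool) : ℝ) ^ 2 * a := by positivity
  nlinarith

/-- the next rank -/
def nr (r : I → ℕ) (M : ℕ) : I ⊕ Option I → ℕ
  | Sum.inl i => r i
  | Sum.inr none => M
  | Sum.inr (some i) => M + 1 + r i

lemma nr_lt (r : I → ℕ) (M : ℕ) (hM : ∀ i, r i < M) (i : I ⊕ Option I) :
    nr r M i < 2 * M + 1 := by
  rcases i with i | _ | i
  · have := hM i; simp only [nr]; omega
  · simp only [nr]; omega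
  · have := hM i; simp only [nr]; omega

lemma nr_inj (r : I → ℕ) (M : ℕ) (hM : ∀ i, r i < M) (hr : Function.Injective r) :
    Function.Injective (nr r M) := by
  rintro (i | _ | i) (j | _ | j) hij <;> simp only [nr] at hij
  · rw [hr hij]
  · have := hM i; omega
  · have := hM i; omega
  · have := hM j; omega
  · rfl
  · omega
  · have := hM j; omega
  · omega
  · rw [hr (by omega : r i = r j)]

lemma pred_step (i1 i2 i3 i4 : E →ₗ[ℝ] E') (f : I → (I → Bool) → E) (A : (I → Bool) → E)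
    (r : I → ℕ) (M : ℕ) (hM : ∀ i, r i < M) (hP : Pred r f) :
    Pred (nr r M) (nf i1 i2 i3 i4 f A) := by
  rintro (j | _ | j) ε ε' hh
  · simp only [nf]
    rw [hP j (fun i => ε (Sum.inl i)) (fun i => ε' (Sum.inl i)) (fun i hi => hh _ hi)]
  · simp only [nf]
    have : (fun i => ε (Sum.inl i)) = fun i => ε' (Sum.inl i) := funext fun i => hh _ (hM i)
    rw [this]
  · simp only [nf]
    rw [hh (Sum.inr none) (by simp only [nr]; omega),
      hP j (fun i => ε (Sum.inr (some i))) (fun i => ε' (Sum.inr (some i)))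
        (fun i hi => hh _ (by simp only [nr]; omega))]

end

theorem ex (n : ℕ) : ∃ (E : Type) (_ : NormedAddCommGroup E) (_ : NormedSpace ℝ E)
    (_ : CompleteSpace E), PP E ∧ ∃ (I : Type) (_ : Fintype I) (_ : DecidableEq I)
      (r : I → ℕ) (M : ℕ) (f : I → (I → Bool) → E) (A : (I → Bool) → E) (a : ℝ),
      0 < a ∧ (∀ i, r i < M) ∧ Function.Injective r ∧ Pred r f ∧ Up f A (3 * n) a
        ∧ Lo f A (n / 5) a := by
  induction n with
  | zero =>
    refine ⟨ℝ, inferInstance, inferInstance, inferInstance, PP_real, Empty, inferInstance,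
      inferInstance, fun _ => 0, 0, fun _ _ => 0, fun _ => 1, 1, one_pos, fun i => i.elim,
      fun i => i.elim, fun i => i.elim, ?_, ?_⟩
    · intro ε x
      simp [DD]
    · intro x
      simp [DD]
  | succ n ih =>
    obtain ⟨E, _, _, _, hP, I, _, _, r, M, f, A, a, ha, hM, hr, hp, hU, hL⟩ := ih
    obtain ⟨i1, i2, i3, i4, h⟩ := space_step E
    have hs0 : 0 < Real.sqrt 5 := Real.sqrt_pos.2 (by norm_num)
    have hs : Real.sqrt 5 ^ 2 = 5 := Real.sq_sqrt (by norm_num)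
    refine ⟨SS E, inferInstance, inferInstance, inferInstance, PP_four (PP_two hP),
      I ⊕ Option I, inferInstance, inferInstance, nr r M, 2 * M + 1, nf i1 i2 i3 i4 f A,
      nA i1 i2 i3 i4 A, Real.sqrt 5 * a, by positivity, nr_lt r M hM, nr_inj r M hM hr,
      pred_step i1 i2 i3 i4 f A r M hM hp, ?_, ?_⟩
    · have := up_step i1 i2 i3 i4 h f A (by positivity) ha.le hs hU
      convert this using 1
      push_cast; ring
    · have := lo_step i1 i2 i3 i4 h f A ha.le hs0 hs hL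
      convert this using 1
      push_cast; ring

end Pool.Agent.H96.DS
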