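import Mathlib
import Pool.Agent.H96.DS2

set_option autoImplicit false
set_option linter.unusedSectionVars false
set_option maxHeartbeats 800000

namespace Pool.Agent.H96.DS

open Finset

lemma conv {X : Type} [NormedAddCommGroup X] [NormedSpace ℝ X] {C : ℝ}
    (H : ∀ (n : ℕ) (f : (j : Fin n) → (Fin (j : ℕ) → Bool) → X),
          (1 / 2 ^ n : ℝ) * ∑ ε : Fin n → Bool,
              ‖∑ j : Fin n, (if ε j then (1 : ℝ) else -1) •
                  f j (fun i => ε (Fin.castLE j.isLt.le i))‖ ^ 2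
            ≤ C ^ 2 * ((1 / 4 ^ n : ℝ) * ∑ ε : Fin n → Bool, ∑ δ : Fin n → Bool,
              ‖∑ j : Fin n, (if δ j then (1 : ℝ) else -1) •
                  f j (fun i => ε (Fin.castLE j.isLt.le i))‖ ^ 2))
    {I : Type} [Fintype I] [DecidableEq I] (r : I → ℕ) (hr : Function.Injective r)
    (f : I → (I → Bool) → X) (hp : Pred r f) :
    (Fintype.card (I → Bool) : ℝ) * ∑ ε, ‖DD f ε ε‖ ^ 2
      ≤ C ^ 2 * ∑ ε, ∑ δ, ‖DD f δ ε‖ ^ 2 := by
  let lo : LinearOrder I := LinearOrder.lift' r hr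
  let e0 := @monoEquivOfFin I _ lo (Fintype.card I) rfl
  let e : Fin (Fintype.card I) ≃ I := e0.toEquiv
  have he : ∀ a b : Fin (Fintype.card I), r (e a) < r (e b) ↔ a < b := fun a b =>
    @OrderIso.lt_iff_lt _ _ _ lo.toPartialOrder.toPreorder e0 a b
  let g : (j : Fin (Fintype.card I)) → (Fin (j : ℕ) → Bool) → X := fun j η =>
    f (e j) fun i => if h : ((e.symm i : Fin _) : ℕ) < j then η ⟨e.symm i, h⟩ else false
  have hg : ∀ (ε : Fin (Fintype.card I) → Bool) (j : Fin (Fintype.card I)),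
      g j (fun i => ε (Fin.castLE j.isLt.le i)) = f (e j) fun i => ε (e.symm i) := by
    intro ε j
    refine hp _ _ _ fun i hi => ?_
    have : e.symm i < j := (he _ _).1 (by simpa using hi)
    rw [dif_pos (show ((e.symm i : Fin _) : ℕ) < j from this)]
    rfl
  have hD : ∀ δ ε : Fin (Fintype.card I) → Bool,
      ∑ j, (if δ j then (1 : ℝ) else -1) • g j (fun i => ε (Fin.castLE j.isLt.le i))
        = DD f (fun i => δ (e.symm i)) (fun i => ε (e.symm i)) := by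
    intro δ ε
    simp only [hg, DD]
    refine Fintype.sum_equiv e _ _ fun j => ?_
    simp [sg]
  have H1 := H _ g
  simp only [hD] at H1
  let q : (Fin (Fintype.card I) → Bool) ≃ (I → Bool) := e.arrowCongr (Equiv.refl Bool)
  have a1 : ∑ ε : Fin (Fintype.card I) → Bool,
      ‖DD f (fun i => ε (e.symm i)) (fun i => ε (e.symm i))‖ ^ 2 = ∑ ε, ‖DD f ε ε‖ ^ 2 :=
    Fintype.sum_equiv q _ _ fun _ => rfl
  have a2 : ∑ ε : Fin (Fintype.card I) → Bool, ∑ δ : Fin (Fintype.card I) → Bool,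
      ‖DD f (fun i => δ (e.symm i)) (fun i => ε (e.symm i))‖ ^ 2
      = ∑ ε, ∑ δ, ‖DD f δ ε‖ ^ 2 :=
    Fintype.sum_equiv q _ _ fun _ => Fintype.sum_equiv q _ _ fun _ => rfl
  rw [a1, a2] at H1
  have hc : (Fintype.card (I → Bool) : ℝ) = 2 ^ Fintype.card I := by simp
  rw [hc]
  have h4 : (4 : ℝ) ^ Fintype.card I = 2 ^ Fintype.card I * 2 ^ Fintype.card I := by
    rw [← mul_pow]; norm_num
  rw [h4] at H1
  have hK : (0 : ℝ) < 2 ^ Fintype.card I := by positivity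
  have := mul_le_mul_of_nonneg_left H1 (mul_pos hK hK).le
  calc _ = 2 ^ Fintype.card I * 2 ^ Fintype.card I *
        ((1 / 2 ^ Fintype.card I : ℝ) * ∑ ε, ‖DD f ε ε‖ ^ 2) := by field_simp
    _ ≤ _ := this
    _ = _ := by field_simp

theorem main :
    ¬ (∀ (X : Type) [NormedAddCommGroup X] [NormedSpace ℝ X] [CompleteSpace X],
      (∃ D : ℝ, ∀ x y : X, ‖x + y‖ ^ 2 + ‖x - y‖ ^ 2 ≤ 2 * ‖x‖ ^ 2 + 2 * D ^ 2 * ‖y‖ ^ 2) →
      ∃ C : ℝ, 0 ≤ C ∧
        ∀ (n : ℕ) (f : (j : Fin n) → (Fin (j : ℕ) → Bool) → X),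
          (1 / 2 ^ n : ℝ) * ∑ ε : Fin n → Bool,
              ‖∑ j : Fin n, (if ε j then (1 : ℝ) else -1) •
                  f j (fun i => ε (Fin.castLE j.isLt.le i))‖ ^ 2
            ≤ C ^ 2 * ((1 / 4 ^ n : ℝ) * ∑ ε : Fin n → Bool, ∑ δ : Fin n → Bool,
              ‖∑ j : Fin n, (if δ j then (1 : ℝ) else -1) •
                  f j (fun i => ε (Fin.castLE j.isLt.le i))‖ ^ 2)) := by
  intro H
  choose E g s c hP hE using ex
  obtain ⟨C, -, hC⟩ := H (lp E 2) ⟨Real.sqrt 3, fun x y => by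
    rw [Real.sq_sqrt (by norm_num)]; exact lp_smooth E hP x y⟩
  obtain ⟨n, hn⟩ := exists_nat_gt (75 * C ^ 2)
  obtain ⟨I, _, _, r, M, f, A, a, ha, -, hr, hp, hU, hL⟩ := hE n
  let J : E n →ₗ[ℝ] lp E 2 := lp.lsingle 2 n
  have hJ : ∀ v, ‖J v‖ = ‖v‖ := fun v => lp.norm_single (by norm_num) n v
  have hD : ∀ δ ε, ‖DD (fun j ε => J (f j ε)) δ ε‖ = ‖DD f δ ε‖ := by
    intro δ ε
    rw [← hJ]
    simp only [DD, map_sum, map_smul]
  have h1 := conv hC r hr (fun j ε => J (f j ε)) (fun j ε ε' h => congrArg J (hp j ε ε' h))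
  simp only [hD] at h1
  have h2 := hL 0
  simp only [zero_smul, add_zero, zero_add] at h2
  have h3 : ∀ ε, ∑ δ, ‖DD f δ ε‖ ^ 2 ≤ (Fintype.card (I → Bool) : ℝ) * (3 * n * a) := by
    intro ε
    have := hU ε 0
    simp only [zero_smul, add_zero, ne_eq, OfNat.ofNat_ne_zero, not_false_eq_true, zero_pow,
      zero_add] at this
    exact cs_card (fun δ => ‖DD f δ ε‖ ^ 2) (by positivity) this
  have h4 := Finset.sum_le_sum (s := univ) fun ε _ => h3 ε
  rw [Finset.sum_const, Finset.card_univ, nsmul_eq_mul] at h4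
  have hK : (0 : ℝ) < Fintype.card (I → Bool) := Nat.cast_pos.2 Fintype.card_pos
  have h5 := mul_le_mul_of_nonneg_left h4 (sq_nonneg C)
  have h6 := mul_le_mul_of_nonneg_left h2 hK.le
  have hn0 : (0 : ℝ) < n := lt_of_le_of_lt (by positivity) hn
  have h7 : 0 < (Fintype.card (I → Bool) : ℝ) ^ 2 * a * n * (n - 75 * C ^ 2) := by
    have : 0 < (n : ℝ) - 75 * C ^ 2 := by linarith
    positivity
  nlinarith

end Pool.Agent.H96.DS
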