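import Mathlib

open PowerSeries

namespace Pool.Agent.H96.FA

/-- algebraic over `Z[x]` (equivalently over `Q(x)`) -/
def Alg (U : ℤ⟦X⟧) : Prop := IsAlgebraic (Polynomial ℤ) U

/-- expansion of a rational function -/
def IsRatl (R : ℤ⟦X⟧) : Prop := ∃ p q : Polynomial ℤ, q ≠ 0 ∧ (q : ℤ⟦X⟧) * R = p

noncomputable def sec {A : Type*} [CommRing A] (m : ℕ) (R : A⟦X⟧) : A⟦X⟧ :=
  mk fun n => if m ∣ n then coeff n R else 0

abbrev K := AlgebraicClosure ℚ

theorem sum_rescale (m : ℕ) {z : K} (hz : IsPrimitiveRoot z m) (F : K⟦X⟧) :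
    ∑ i ∈ Finset.range m, rescale (z ^ i) F = C (m : K) * sec m F := by
  ext n
  simp only [map_sum, coeff_rescale, coeff_C_mul, sec, coeff_mk]
  rw [← Finset.sum_mul]
  have e : ∀ i, (z ^ i) ^ n = (z ^ n) ^ i := fun i => by rw [← pow_mul, ← pow_mul, mul_comm]
  simp only [e]
  split_ifs with h
  · rw [(hz.pow_eq_one_iff_dvd n).2 h]; simp
  · have h1 : z ^ n - 1 ≠ 0 := sub_ne_zero.2 fun h' => h ((hz.pow_eq_one_iff_dvd n).1 h')
    have h2 := geom_sum_mul (z ^ n) m
    rw [← e, hz.pow_eq_one, one_pow, sub_self] at h2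
    rw [(mul_eq_zero.1 h2).resolve_right h1]; simp

theorem resc_comm (a : K) :
    RingHom.comp (algebraMap (Polynomial K) K⟦X⟧) (Polynomial.compRingHom (Polynomial.C a * Polynomial.X))
      = RingHom.comp (rescale a) (algebraMap (Polynomial K) K⟦X⟧) := by
  apply Polynomial.ringHom_ext
  · intro c
    ext n
    simp [algebraMap_apply', coeff_rescale, coeff_C]
    split_ifs with h <;> simp [h]
  · simp [algebraMap_apply', rescale_X]

theorem am_eq {A : Type*} [CommRing A] (p : Polynomial A) :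
    algebraMap (Polynomial A) A⟦X⟧ p = (p : A⟦X⟧) := by
  simp [algebraMap_apply']

theorem comp_inj {a : K} (ha : a ≠ 0) :
    Function.Injective (Polynomial.compRingHom (Polynomial.C a * Polynomial.X)) := by
  intro p q h
  have h1 := congrArg (fun f => f p) (resc_comm a)
  have h2 := congrArg (fun f => f q) (resc_comm a)
  simp only [RingHom.comp_apply] at h1 h2
  rw [h, h2] at h1
  have := rescale_injective ha h1
  rw [am_eq, am_eq] at this
  exact (Polynomial.coe_injective K this).symm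

noncomputable abbrev f : ℤ⟦X⟧ →+* K⟦X⟧ := PowerSeries.map (Int.castRingHom K)

theorem f_inj : Function.Injective f := map_injective _ Int.cast_injective

theorem f_sec (m : ℕ) (R : ℤ⟦X⟧) : f (sec m R) = sec m (f R) := by
  ext n; simp only [sec, coeff_map, coeff_mk]; split_ifs <;> simp

theorem f_coe (p : Polynomial ℤ) : f (p : ℤ⟦X⟧) = ((p.map (Int.castRingHom K) : Polynomial K) : K⟦X⟧) := by
  ext n; simp

theorem algZK : Algebra.IsAlgebraic ℤ K := by
  have : Algebra.IsAlgebraic ℤ ℚ := IsLocalization.isAlgebraic ℚ (nonZeroDivisors ℤ)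
  have : Algebra.IsAlgebraic ℚ K := AlgebraicClosure.isAlgebraic ℚ
  exact Algebra.IsAlgebraic.trans ℤ ℚ K

theorem alg_up {U : ℤ⟦X⟧} (h : Alg U) : IsAlgebraic (Polynomial K) (f U) := by
  refine IsAlgebraic.ringHom_of_comp_eq (Polynomial.mapRingHom (Int.castRingHom K)) f h
    (Polynomial.map_injective _ Int.cast_injective) ?_
  refine RingHom.ext fun p => ?_
  simp only [RingHom.comp_apply, am_eq, RingHom.coe_coe, f_coe, Polynomial.coe_mapRingHom]

theorem alg_down {U : ℤ⟦X⟧} (h : IsAlgebraic (Polynomial K) (f U)) : Alg U := by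
  let : Algebra (Polynomial ℤ) (Polynomial K) := Polynomial.algebra ℤ K
  have := algZK
  have : IsScalarTower (Polynomial ℤ) (Polynomial K) K⟦X⟧ := IsScalarTower.of_algebraMap_eq fun p => by
    rw [am_eq, algebraMap_apply']
    exact f_coe p
  have h2 : IsAlgebraic (Polynomial ℤ) (f U) := h.restrictScalars _
  refine IsAlgebraic.of_ringHom_of_comp_eq (RingHom.id _) f h2 Function.surjective_id f_inj ?_
  refine RingHom.ext fun p => ?_
  simp only [RingHom.comp_apply, am_eq, RingHom.coe_coe, RingHom.id_apply]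
  rfl

theorem exists_root (m : ℕ) (hm : m ≠ 0) : ∃ z : K, IsPrimitiveRoot z m := by
  have : NeZero (m : K) := ⟨by exact_mod_cast hm⟩
  exact HasEnoughRootsOfUnity.exists_primitiveRoot K m

theorem alg_sec {U : ℤ⟦X⟧} (m : ℕ) (hm : m ≠ 0) (h : Alg U) : Alg (sec m U) := by
  obtain ⟨z, hz⟩ := exists_root m hm
  apply alg_down
  rw [f_sec]
  have h1 : IsAlgebraic (Polynomial K) (∑ i ∈ Finset.range m, rescale (z ^ i) (f U)) := by
    refine Finset.sum_induction _ _ (fun a b => IsAlgebraic.add) isAlgebraic_zero fun i _ => ?_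
    exact IsAlgebraic.ringHom_of_comp_eq _ (rescale (z ^ i)) (alg_up h)
      (comp_inj (pow_ne_zero _ (hz.ne_zero hm))) (resc_comm _)
  rw [sum_rescale m hz] at h1
  refine IsAlgebraic.of_mul (y := C (m : K)) (mem_nonZeroDivisors_of_ne_zero ?_) ?_ h1
  · intro h0
    have := congrArg (coeff 0) h0
    simp [hm] at this
  · have := isAlgebraic_algebraMap (R := Polynomial K) (A := K⟦X⟧) (Polynomial.C (m : K))
    rwa [am_eq, Polynomial.coe_C] at this

def RatK (F : K⟦X⟧) : Prop := ∃ p q : Polynomial K, q ≠ 0 ∧ (q : K⟦X⟧) * F = p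

theorem rat_down {R : ℤ⟦X⟧} (h : RatK (f R)) : IsRatl R := by
  obtain ⟨p, q, hq, e⟩ := h
  have := algZK
  obtain ⟨g, hg, c, hc⟩ := Polynomial.exists_dvd_map_of_isAlgebraic (R := ℤ) hq
  have e2 : f ((g : ℤ⟦X⟧) * R) = ((c * p : Polynomial K) : K⟦X⟧) := by
    rw [map_mul, f_coe]
    have : g.map (Int.castRingHom K) = q * c := hc
    rw [this, Polynomial.coe_mul, Polynomial.coe_mul, ← e]; ring
  refine ⟨trunc ((c * p).natDegree + 1) ((g : ℤ⟦X⟧) * R), g, hg, ?_⟩
  ext n
  rw [Polynomial.coeff_coe, coeff_trunc]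
  split_ifs with hn
  · rfl
  · have := congrArg (coeff n) e2
    rw [coeff_map, Polynomial.coeff_coe, Polynomial.coeff_eq_zero_of_natDegree_lt (by omega)] at this
    simpa using this

theorem rat_sec {R : ℤ⟦X⟧} (m : ℕ) (hm : m ≠ 0) (h : IsRatl R) : IsRatl (sec m R) := by
  obtain ⟨z, hz⟩ := exists_root m hm
  apply rat_down
  rw [f_sec]
  obtain ⟨p, q, hq, e⟩ := h
  have h1 : RatK (∑ i ∈ Finset.range m, rescale (z ^ i) (f R)) := by
    refine Finset.sum_induction _ _ ?_ ⟨0, 1, one_ne_zero, by simp⟩ fun i _ => ?_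
    · rintro a b ⟨p1, q1, h1, e1⟩ ⟨p2, q2, h2, e2⟩
      refine ⟨q2 * p1 + q1 * p2, q1 * q2, mul_ne_zero h1 h2, ?_⟩
      push_cast
      rw [← e1, ← e2]; ring
    · have hc := fun p => congrArg (fun g => g p) (resc_comm (z ^ i))
      simp only [RingHom.comp_apply, am_eq] at hc
      refine ⟨Polynomial.compRingHom (Polynomial.C (z ^ i) * Polynomial.X) (p.map (Int.castRingHom K)),
        Polynomial.compRingHom (Polynomial.C (z ^ i) * Polynomial.X) (q.map (Int.castRingHom K)), ?_, ?_⟩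
      · rw [map_ne_zero_iff _ (comp_inj (pow_ne_zero _ (hz.ne_zero hm)))]
        exact (Polynomial.map_ne_zero_iff Int.cast_injective).2 hq
      · rw [hc, hc, ← map_mul, ← f_coe, ← f_coe, ← map_mul, e]
  rw [sum_rescale m hz] at h1
  obtain ⟨p1, q1, h1, e1⟩ := h1
  refine ⟨p1, q1 * Polynomial.C (m : K), mul_ne_zero h1 (by simp [hm]), ?_⟩
  rw [← e1, Polynomial.coe_mul, Polynomial.coe_C, mul_assoc]

theorem expand_inj (m : ℕ) (hm : m ≠ 0) : Function.Injective (PowerSeries.expand (R := ℤ) m hm) := by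
  intro a b h
  ext n
  have := congrArg (coeff (m * n)) h
  rwa [coeff_expand_mul, coeff_expand_mul] at this

theorem alg_contract {V : ℤ⟦X⟧} (m : ℕ) (hm : m ≠ 0) (h : Alg (PowerSeries.expand m hm V)) : Alg V := by
  set S := (Polynomial.expand ℤ m).range with hS
  have hX : IsIntegral S (Polynomial.X : Polynomial ℤ) := by
    refine IsIntegral.of_pow (Nat.pos_of_ne_zero hm) ?_
    exact isIntegral_algebraMap (R := S) (x := ⟨Polynomial.X ^ m, ⟨Polynomial.X, by simp⟩⟩)
  have : Algebra.IsIntegral S (Polynomial ℤ) := ⟨fun p => by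
    induction p using Polynomial.induction_on' with
    | add p q hp hq => exact hp.add hq
    | monomial n a =>
      rw [← Polynomial.C_mul_X_pow_eq_monomial]
      exact (isIntegral_algebraMap (R := S) (x := ⟨Polynomial.C a, S.algebraMap_mem a⟩)).mul (hX.pow n)⟩
  have h2 : IsAlgebraic S (PowerSeries.expand m hm V) :=
    IsAlgebraic.restrictScalars_of_isIntegral S h
  refine IsAlgebraic.of_ringHom_of_comp_eq (Polynomial.expand ℤ m).rangeRestrict
    (PowerSeries.expand m hm) h2 (AlgHom.rangeRestrict_surjective _) (expand_inj m hm) ?_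
  apply Polynomial.ringHom_ext
  · intro c
    change algebraMap (Polynomial ℤ) ℤ⟦X⟧ (Polynomial.expand ℤ m (Polynomial.C c))
      = PowerSeries.expand m hm (algebraMap (Polynomial ℤ) ℤ⟦X⟧ (Polynomial.C c))
    rw [am_eq, am_eq, Polynomial.expand_C, Polynomial.coe_C, PowerSeries.expand_C]
  · change algebraMap (Polynomial ℤ) ℤ⟦X⟧ (Polynomial.expand ℤ m Polynomial.X)
      = PowerSeries.expand m hm (algebraMap (Polynomial ℤ) ℤ⟦X⟧ Polynomial.X)
    rw [am_eq, am_eq, Polynomial.expand_X, Polynomial.coe_pow, Polynomial.coe_X, PowerSeries.expand_X]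

theorem alg_coe (p : Polynomial ℤ) : Alg (p : ℤ⟦X⟧) := by
  have := isAlgebraic_algebraMap (R := Polynomial ℤ) (A := ℤ⟦X⟧) p
  rwa [am_eq] at this

theorem rat_alg {R : ℤ⟦X⟧} (h : IsRatl R) : Alg R := by
  obtain ⟨p, q, hq, e⟩ := h
  refine IsAlgebraic.of_mul (y := (q : ℤ⟦X⟧)) (mem_nonZeroDivisors_of_ne_zero ?_) (alg_coe q) ?_
  · rwa [Ne, Polynomial.coe_eq_zero_iff]
  · rw [e]; exact alg_coe p

theorem deriv_aeval (U : ℤ⟦X⟧) (P : Polynomial (Polynomial ℤ)) :
    ∃ Q : Polynomial (Polynomial ℤ), d⁄dX ℤ (Polynomial.aeval U P)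
      = Polynomial.aeval U Q + Polynomial.aeval U (Polynomial.derivative P) * d⁄dX ℤ U := by
  induction P using Polynomial.induction_on' with
  | add p q hp hq =>
    obtain ⟨a, ha⟩ := hp
    obtain ⟨b, hb⟩ := hq
    refine ⟨a + b, ?_⟩
    simp only [map_add, ha, hb]; ring
  | monomial n a =>
    refine ⟨Polynomial.monomial n (Polynomial.derivative a), ?_⟩
    rw [Polynomial.derivative_monomial, Polynomial.aeval_monomial, Polynomial.aeval_monomial,
      Polynomial.aeval_monomial, Derivation.leibniz, derivative_pow, map_mul, map_natCast,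
      am_eq, am_eq, derivative_coe]
    simp only [smul_eq_mul]; ring

theorem alg_aeval {U : ℤ⟦X⟧} (h : Alg U) (P : Polynomial (Polynomial ℤ)) :
    Alg (Polynomial.aeval U P) :=
  Algebra.isAlgebraic_adjoin_singleton_iff.mpr h _ (Polynomial.aeval_mem_adjoin_singleton _ _)

theorem alg_deriv {U : ℤ⟦X⟧} (h : Alg U) : Alg (d⁄dX ℤ U) := by
  classical
  have hex : ∃ n, ∃ P : Polynomial (Polynomial ℤ), P ≠ 0 ∧ Polynomial.aeval U P = 0 ∧ P.natDegree = n := by
    obtain ⟨P, h1, h2⟩ := h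
    exact ⟨_, P, h1, h2, rfl⟩
  obtain ⟨P, h1, h2, h3⟩ := Nat.find_spec hex
  have hpos : P.natDegree ≠ 0 := by
    intro h0
    rw [Polynomial.eq_C_of_natDegree_eq_zero h0, Polynomial.aeval_C, am_eq,
      Polynomial.coe_eq_zero_iff] at h2
    rw [Polynomial.eq_C_of_natDegree_eq_zero h0, h2] at h1
    simp at h1
  have hd : Polynomial.aeval U (Polynomial.derivative P) ≠ 0 := by
    intro h0
    have hlt := Polynomial.natDegree_derivative_lt hpos
    refine Nat.find_min hex (h3 ▸ hlt) ⟨_, ?_, h0, rfl⟩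
    intro h4
    exact hpos (Polynomial.derivative_eq_zero.1 h4)
  obtain ⟨Q, hQ⟩ := deriv_aeval U P
  rw [h2, map_zero] at hQ
  refine IsAlgebraic.of_mul (mem_nonZeroDivisors_of_ne_zero hd) (alg_aeval h _) ?_
  have : Polynomial.aeval U (Polynomial.derivative P) * d⁄dX ℤ U = - Polynomial.aeval U Q := by
    linear_combination -hQ
  rw [this]
  exact IsAlgebraic.neg (alg_aeval h Q)

theorem rat_deriv {R : ℤ⟦X⟧} (h : IsRatl R) : IsRatl (d⁄dX ℤ R) := by
  obtain ⟨p, q, hq, e⟩ := h
  refine ⟨q * Polynomial.derivative p - Polynomial.derivative q * p, q * q, mul_ne_zero hq hq, ?_⟩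
  have := congrArg (d⁄dX ℤ) e
  rw [Derivation.leibniz, derivative_coe, derivative_coe] at this
  simp only [smul_eq_mul] at this
  push_cast
  rw [← this, ← e]; ring

end Pool.Agent.H96.FA
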