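import Pool.Agent.H96.FA1

open PowerSeries

namespace Pool.Agent.H96.FA

/-- algebraic integer power series -/
def algG : AddSubgroup ℤ⟦X⟧ where
  carrier := {R | Alg R}
  add_mem' := fun ha hb => IsAlgebraic.add ha hb
  zero_mem' := isAlgebraic_zero
  neg_mem' := fun ha => IsAlgebraic.neg ha

/-- integer power series lying in `Q(x)` -/
def ratG : AddSubgroup ℤ⟦X⟧ where
  carrier := {R | IsRatl R}
  add_mem' := by
    rintro a b ⟨p1, q1, h1, e1⟩ ⟨p2, q2, h2, e2⟩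
    refine ⟨q2 * p1 + q1 * p2, q1 * q2, mul_ne_zero h1 h2, ?_⟩
    push_cast
    rw [← e1, ← e2]; ring
  zero_mem' := ⟨0, 1, one_ne_zero, by simp⟩
  neg_mem' := by
    rintro a ⟨p1, q1, h1, e1⟩
    refine ⟨-p1, q1, h1, ?_⟩
    push_cast
    rw [← e1]; ring

/-- the group of algebraic integer series with the Fermat property -/
def Fer : AddSubgroup ℤ⟦X⟧ where
  carrier := {R | Alg R ∧ ∃ N : ℕ, ∀ p : ℕ, p.Prime → N ≤ p → (p : ℤ) ∣ coeff p R}
  add_mem' := by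
    rintro a b ⟨ha, N1, h1⟩ ⟨hb, N2, h2⟩
    refine ⟨IsAlgebraic.add ha hb, N1 + N2, fun p hp h => ?_⟩
    rw [map_add]
    exact dvd_add (h1 p hp (by omega)) (h2 p hp (by omega))
  zero_mem' := ⟨isAlgebraic_zero, 0, fun p _ _ => by simp⟩
  neg_mem' := by
    rintro a ⟨ha, N1, h1⟩
    refine ⟨IsAlgebraic.neg ha, N1, fun p hp h => ?_⟩
    rw [map_neg]
    exact (dvd_neg).2 (h1 p hp h)

/-- all `x U'(x)` with `U` algebraic -/
def DD : AddSubgroup ℤ⟦X⟧ where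
  carrier := {R | ∃ U, Alg U ∧ R = X * d⁄dX ℤ U}
  add_mem' := by
    rintro a b ⟨U, hU, rfl⟩ ⟨V, hV, rfl⟩
    exact ⟨U + V, IsAlgebraic.add hU hV, by rw [map_add, mul_add]⟩
  zero_mem' := ⟨0, isAlgebraic_zero, by simp⟩
  neg_mem' := by
    rintro a ⟨U, hU, rfl⟩
    exact ⟨-U, IsAlgebraic.neg hU, by rw [map_neg, mul_neg]⟩

/-- integer polynomials -/
def Pol : AddSubgroup ℤ⟦X⟧ where
  carrier := {R | ∃ q : Polynomial ℤ, R = q}
  add_mem' := by
    rintro a b ⟨p, rfl⟩ ⟨q, rfl⟩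
    exact ⟨p + q, by simp⟩
  zero_mem' := ⟨0, by simp⟩
  neg_mem' := by
    rintro a ⟨p, rfl⟩
    exact ⟨-p, by simp⟩

/-- finite sums of series `U(x^M)`, `M ≥ 2`, `U` algebraic -/
def PP : AddSubgroup ℤ⟦X⟧ :=
  AddSubgroup.closure {R | ∃ M : ℕ, 2 ≤ M ∧ ∃ U, Alg U ∧ R = PowerSeries.subst (X ^ M : ℤ⟦X⟧) U}

noncomputable def th (U : ℤ⟦X⟧) : ℤ⟦X⟧ := X * d⁄dX ℤ U

theorem coeff_th (U : ℤ⟦X⟧) (n : ℕ) : coeff n (th U) = n * coeff n U := by
  cases n with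
  | zero => simp [th]
  | succ n => rw [th, coeff_succ_X_mul, coeff_derivative]; push_cast; ring

structure Good (C : AddSubgroup ℤ⟦X⟧) : Prop where
  alg : ∀ R ∈ C, Alg R
  rat : ∀ R, IsRatl R → R ∈ C
  th : ∀ R ∈ C, th R ∈ C
  sec : ∀ m, m ≠ 0 → ∀ R ∈ C, sec m R ∈ C
  div : ∀ k : ℤ, k ≠ 0 → ∀ V, k • V ∈ C → V ∈ C

theorem smul_eq (k : ℤ) (V : ℤ⟦X⟧) : k • V = ((Polynomial.C k : Polynomial ℤ) : ℤ⟦X⟧) * V := by
  ext n; rw [Polynomial.coe_C, coeff_C_mul, map_zsmul, smul_eq_mul]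

theorem rat_coe (p : Polynomial ℤ) : IsRatl (p : ℤ⟦X⟧) := ⟨p, 1, one_ne_zero, by simp⟩

theorem alg_th {U : ℤ⟦X⟧} (h : Alg U) : Alg (th U) := by
  have := alg_coe Polynomial.X
  rw [Polynomial.coe_X] at this
  exact IsAlgebraic.mul this (alg_deriv h)

theorem good_alg : Good algG where
  alg := fun _ h => h
  rat := fun _ h => rat_alg h
  th := fun _ h => alg_th h
  sec := fun m hm _ h => alg_sec m hm h
  div := fun k hk V h => by
    rw [smul_eq] at h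
    refine IsAlgebraic.of_mul (mem_nonZeroDivisors_of_ne_zero ?_) (alg_coe _) h
    rw [Ne, Polynomial.coe_eq_zero_iff]; simpa using hk

theorem good_rat : Good ratG where
  alg := fun _ h => rat_alg h
  rat := fun _ h => h
  th := fun R h => by
    obtain ⟨p, q, hq, e⟩ := rat_deriv h
    refine ⟨Polynomial.X * p, q, hq, ?_⟩
    push_cast
    rw [← e, th]; ring
  sec := fun m hm _ h => rat_sec m hm h
  div := fun k hk V h => by
    obtain ⟨p, q, hq, e⟩ := h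
    refine ⟨p, q * Polynomial.C k, mul_ne_zero hq (by simpa using hk), ?_⟩
    rw [← e, smul_eq, Polynomial.coe_mul, mul_assoc]

noncomputable def rho (T : Finset ℕ) (R : ℤ⟦X⟧) : ℤ⟦X⟧ :=
  mk fun n => if ∀ m ∈ T, ¬ m ∣ n then coeff n R else 0

theorem sec_mem_PP {W : ℤ⟦X⟧} {m : ℕ} (hm : 2 ≤ m) (h : Alg (sec m W)) : sec m W ∈ PP := by
  have hm0 : m ≠ 0 := by omega
  have e : sec m W = PowerSeries.expand m hm0 (mk fun n => coeff (m * n) W) := by
    ext n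
    rw [coeff_expand, sec, coeff_mk]
    split_ifs with h1
    · rw [coeff_mk, Nat.mul_div_cancel' h1]
    · rfl
  refine AddSubgroup.subset_closure ⟨m, hm, _, alg_contract m hm0 (e ▸ h), ?_⟩
  rw [e, expand_apply]

theorem rho_mem {C : AddSubgroup ℤ⟦X⟧} (hC : Good C) (T : Finset ℕ) (hT : ∀ m ∈ T, 2 ≤ m)
    {R : ℤ⟦X⟧} (hR : R ∈ C) : rho T R ∈ C ∧ R - rho T R ∈ PP := by
  induction T using Finset.induction_on with
  | empty =>
    have : rho ∅ R = R := by ext n; simp [rho]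
    rw [this, sub_self]; exact ⟨hR, zero_mem _⟩
  | insert m T _ ih =>
    obtain ⟨h1, h2⟩ := ih fun x hx => hT x (Finset.mem_insert_of_mem hx)
    have hm := hT m (Finset.mem_insert_self _ _)
    have e : rho (insert m T) R = rho T R - sec m (rho T R) := by
      ext n
      simp only [rho, sec, map_sub, coeff_mk, Finset.forall_mem_insert]
      by_cases a : m ∣ n <;> by_cases b : (∀ m ∈ T, ¬ m ∣ n) <;> simp [a, b]
    have h3 := hC.sec m (by omega) _ h1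
    refine ⟨e ▸ sub_mem h1 h3, ?_⟩
    have : R - rho (insert m T) R = (R - rho T R) + sec m (rho T R) := by rw [e]; ring
    rw [this]
    exact add_mem h2 (sec_mem_PP hm (hC.alg _ h3))

noncomputable def cut (T : Finset ℕ) (N : ℕ) (R : ℤ⟦X⟧) : ℤ⟦X⟧ := rho T R - (trunc N (rho T R) : Polynomial ℤ)

theorem coeff_cut (T : Finset ℕ) (N : ℕ) (R : ℤ⟦X⟧) (n : ℕ) :
    coeff n (cut T N R) = if N ≤ n ∧ ∀ m ∈ T, ¬ m ∣ n then coeff n R else 0 := by
  simp only [cut, map_sub, Polynomial.coeff_coe, coeff_trunc, rho, coeff_mk]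
  by_cases a : n < N
  · have : ¬ N ≤ n := by omega
    simp [a, this]
  · have : N ≤ n := by omega
    simp [a, this]

theorem cut_mem {C : AddSubgroup ℤ⟦X⟧} (hC : Good C) (T : Finset ℕ) (hT : ∀ m ∈ T, 2 ≤ m) (N : ℕ)
    {R : ℤ⟦X⟧} (hR : R ∈ C) : cut T N R ∈ C :=
  sub_mem (rho_mem hC T hT hR).1 (hC.rat _ (rat_coe _))

def nearG : AddSubgroup ℤ⟦X⟧ where
  carrier := {R | ∃ U, Alg U ∧ ∃ T : Finset ℕ, (∀ m ∈ T, 2 ≤ m) ∧ ∃ N : ℕ, ∀ n, N ≤ n →
    (∀ m ∈ T, ¬ m ∣ n) → coeff n R = n * coeff n U}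
  add_mem' := by
    rintro a b ⟨U, hU, T, hT, N, h⟩ ⟨U', hU', T', hT', N', h'⟩
    refine ⟨U + U', IsAlgebraic.add hU hU', T ∪ T', fun m hm => ?_, N + N', fun n hn hd => ?_⟩
    · rcases Finset.mem_union.1 hm with h1 | h1
      exacts [hT m h1, hT' m h1]
    · rw [map_add, map_add, h n (by omega) fun m hm => hd m (Finset.mem_union_left _ hm),
        h' n (by omega) fun m hm => hd m (Finset.mem_union_right _ hm)]
      ring
  zero_mem' := ⟨0, isAlgebraic_zero, ∅, by simp, 0, by simp⟩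
  neg_mem' := by
    rintro a ⟨U, hU, T, hT, N, h⟩
    refine ⟨-U, IsAlgebraic.neg hU, T, hT, N, fun n hn hd => ?_⟩
    rw [map_neg, map_neg, h n hn hd]; ring

theorem le_near : DD ⊔ Pol ⊔ PP ≤ nearG := by
  refine sup_le (sup_le ?_ ?_) ((AddSubgroup.closure_le _).2 ?_)
  · rintro _ ⟨U, hU, rfl⟩
    exact ⟨U, hU, ∅, by simp, 0, fun n _ _ => coeff_th U n⟩
  · rintro _ ⟨q, rfl⟩
    refine ⟨0, isAlgebraic_zero, ∅, by simp, q.natDegree + 1, fun n hn _ => ?_⟩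
    rw [Polynomial.coeff_coe, Polynomial.coeff_eq_zero_of_natDegree_lt (by omega)]; simp
  · rintro _ ⟨M, hM, U, -, rfl⟩
    refine ⟨0, isAlgebraic_zero, {M}, by simpa using hM, 0, fun n _ hd => ?_⟩
    rw [← expand_apply M (by omega), coeff_expand_of_not_dvd _ _ _ (hd M (by simp))]; simp

theorem mem_of_near {C : AddSubgroup ℤ⟦X⟧} (hC : Good C) {R : ℤ⟦X⟧} (hR : R ∈ C) (h : R ∈ nearG) :
    R ∈ (DD ⊓ C) ⊔ Pol ⊔ (PP ⊓ C) := by
  obtain ⟨U, hU, T, hT, N, h⟩ := h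
  have e : cut T N R = th (cut T N U) := by
    ext n
    rw [coeff_th, coeff_cut, coeff_cut]
    split_ifs with a
    · exact h n a.1 a.2
    · simp
  have e2 : R = cut T N R + (trunc N (rho T R) : Polynomial ℤ) + (R - rho T R) := by
    rw [cut]; ring
  rw [e2]
  refine AddSubgroup.add_mem_sup (AddSubgroup.add_mem_sup ⟨?_, cut_mem hC T hT N hR⟩ ⟨_, rfl⟩)
    ⟨(rho_mem hC T hT hR).2, C.sub_mem hR (rho_mem hC T hT hR).1⟩
  exact ⟨cut T N U, cut_mem good_alg T hT N hU, e⟩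

theorem near_fer {R : ℤ⟦X⟧} (hR : Alg R) (h : R ∈ nearG) : R ∈ Fer := by
  obtain ⟨U, hU, T, hT, N, h⟩ := h
  refine ⟨hR, N + T.sup id + 1, fun p hp hN => ?_⟩
  rw [h p (by omega) fun m hm hd => ?_]
  · exact dvd_mul_right _ _
  · have h1 : m ≤ T.sup id := Finset.le_sup (f := id) hm
    have h2 := hT m hm
    rcases (Nat.dvd_prime hp).1 hd with h3 | h3 <;> omega

end Pool.Agent.H96.FA
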