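import Pool.Agent.H96.FA2

open PowerSeries

namespace Pool.Agent.H96.FA

/-- a countable torsion-free divisible group with an infinite independent family -/
theorem iso_of {G : Type} [AddCommGroup G] [Countable G]
    (htf : ∀ k : ℕ, k ≠ 0 → ∀ x : G, (k : ℤ) • x = 0 → x = 0)
    (hdv : ∀ k : ℕ, k ≠ 0 → ∀ x : G, ∃ y, (k : ℤ) • y = x)
    (v : ℕ → G) (hv : LinearIndependent ℤ v) : Nonempty (G ≃+ (ℕ →₀ ℚ)) := by
  have hb : ∀ s : nonZeroDivisors ℤ, IsUnit (algebraMap ℤ (Module.End ℤ G) s) := by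
    intro s
    have hs : (s : ℤ).natAbs ≠ 0 := Int.natAbs_ne_zero.2 (nonZeroDivisors.coe_ne_zero s)
    rw [Module.End.isUnit_iff]
    constructor
    · rw [injective_iff_map_eq_zero]
      intro x hx
      rw [Module.algebraMap_end_apply] at hx
      apply htf _ hs
      rcases Int.natAbs_eq (s : ℤ) with h | h
      · rwa [← h]
      · have : (((s : ℤ).natAbs : ℕ) : ℤ) = - (s : ℤ) := by omega
        rw [this, neg_smul, hx, neg_zero]
    · intro x
      obtain ⟨y, hy⟩ := hdv _ hs x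
      rcases Int.natAbs_eq (s : ℤ) with h | h
      · exact ⟨y, by rw [Module.algebraMap_end_apply, h, hy]⟩
      · exact ⟨-y, by rw [Module.algebraMap_end_apply, h, neg_smul, smul_neg, neg_neg, hy]⟩
  have : IsLocalizedModule (nonZeroDivisors ℤ) (LinearMap.id : G →ₗ[ℤ] G) :=
    { map_units := hb
      surj := fun y => ⟨(y, 1), by simp⟩
      exists_of_eq := fun h => ⟨1, by simpa using h⟩ }
  let _ : Module ℚ G := IsLocalizedModule.module (nonZeroDivisors ℤ) (LinearMap.id : G →ₗ[ℤ] G)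
  have hv' : LinearIndependent ℚ v := (LinearIndependent.iff_fractionRing ℤ ℚ).1 hv
  have h1 : Module.rank ℚ G = Module.rank ℚ (ℕ →₀ ℚ) := by
    rw [rank_finsupp_self']
    apply le_antisymm
    · exact (rank_le_card ℚ G).trans (by simp)
    · simpa using hv'.cardinal_le_rank
  obtain ⟨e⟩ := nonempty_linearEquiv_of_rank_eq h1
  exact ⟨e.toAddEquiv⟩

theorem coprime_of {k n : ℕ} (hk : k ≠ 0) (h : ∀ m ∈ k.primeFactors, ¬ m ∣ n) : Nat.Coprime n k := by
  refine Nat.coprime_of_dvd fun p hp h1 h2 => h p ?_ h1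
  exact Nat.mem_primeFactors.2 ⟨hp, h2, hk⟩

theorem pf_two {k : ℕ} : ∀ m ∈ k.primeFactors, 2 ≤ m := fun _ hm =>
  (Nat.prime_of_mem_primeFactors hm).two_le

theorem exists_div {k : ℤ} {W : ℤ⟦X⟧} (h : ∀ n, k ∣ coeff n W) : ∃ V, k • V = W := by
  choose c hc using h
  exact ⟨mk c, by ext n; rw [map_zsmul, coeff_mk, hc n, smul_eq_mul]⟩

theorem near_tf {k : ℕ} (hk : k ≠ 0) {R : ℤ⟦X⟧} (h : (k : ℤ) • R ∈ nearG) : R ∈ nearG := by
  obtain ⟨U, hU, T, hT, N, h⟩ := h
  have hT' : ∀ m ∈ T ∪ k.primeFactors, 2 ≤ m := fun m hm => by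
    rcases Finset.mem_union.1 hm with h1 | h1
    exacts [hT m h1, pf_two m h1]
  have hk' : (k : ℤ) ≠ 0 := by exact_mod_cast hk
  obtain ⟨V, hV⟩ : ∃ V, (k : ℤ) • V = cut (T ∪ k.primeFactors) N U := exists_div fun n => by
    rw [coeff_cut]
    split_ifs with a
    · have h1 := h n a.1 fun m hm => a.2 m (Finset.mem_union_left _ hm)
      have h2 := coprime_of hk fun m hm => a.2 m (Finset.mem_union_right _ hm)
      rw [map_zsmul, smul_eq_mul] at h1
      exact (Nat.isCoprime_iff_coprime.2 h2).symm.dvd_of_dvd_mul_left ⟨_, h1.symm⟩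
    · exact dvd_zero _
  refine ⟨V, good_alg.div _ hk' V (hV ▸ cut_mem good_alg _ hT' N hU), _, hT', N, fun n hn hd => ?_⟩
  have h1 := h n hn fun m hm => hd m (Finset.mem_union_left _ hm)
  have h2 := congrArg (coeff n) hV
  rw [coeff_cut, if_pos ⟨hn, hd⟩, map_zsmul, smul_eq_mul] at h2
  rw [map_zsmul, smul_eq_mul, ← h2] at h1
  apply mul_left_cancel₀ hk'
  rw [h1]; ring

theorem coeff_iter (R : ℤ⟦X⟧) (e n : ℕ) : coeff n (th^[e] R) = (n : ℤ) ^ e * coeff n R := by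
  induction e with
  | zero => simp
  | succ e ih => rw [Function.iterate_succ_apply', coeff_th, ih]; ring

theorem iter_mem {C : AddSubgroup ℤ⟦X⟧} (hC : Good C) {R : ℤ⟦X⟧} (hR : R ∈ C) (e : ℕ) :
    th^[e] R ∈ C := by
  induction e with
  | zero => exact hR
  | succ e ih => rw [Function.iterate_succ_apply']; exact hC.th _ ih

theorem near_div {C : AddSubgroup ℤ⟦X⟧} (hC : Good C) {k : ℕ} (hk : k ≠ 0) {R : ℤ⟦X⟧}
    (hR : R ∈ Fer ⊓ C) : ∃ W ∈ Fer ⊓ C, (k : ℤ) • W - R ∈ nearG := by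
  obtain ⟨⟨hA, N, hN⟩, hR⟩ := hR
  obtain ⟨e, he⟩ : ∃ e, k.totient = e + 1 :=
    ⟨k.totient - 1, by have := Nat.totient_pos.2 (Nat.pos_of_ne_zero hk); omega⟩
  have hk' : (k : ℤ) ≠ 0 := by exact_mod_cast hk
  obtain ⟨W, hW⟩ : ∃ W, (k : ℤ) • W = cut k.primeFactors 0 (R - th^[e + 1] R) := exists_div fun n => by
    rw [coeff_cut]
    split_ifs with a
    · have h2 := Nat.ModEq.pow_totient (coprime_of hk a.2)
      rw [he] at h2
      have h3 := h2.dvd
      push_cast at h3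
      rw [map_sub, coeff_iter, ← one_sub_mul]
      exact h3.mul_right _
    · exact dvd_zero _
  have hWC : W ∈ C :=
    hC.div _ hk' W (hW ▸ cut_mem hC _ pf_two 0 (C.sub_mem hR (iter_mem hC hR _)))
  refine ⟨W, ⟨⟨hC.alg _ hWC, N + k + 1, fun p hp h => ?_⟩, hWC⟩, ?_⟩
  · have h2 := congrArg (coeff p) hW
    rw [map_zsmul, smul_eq_mul, coeff_cut] at h2
    have h3 : (p : ℤ) ∣ k * coeff p W := by
      rw [h2]
      split_ifs
      · rw [map_sub, coeff_iter, ← one_sub_mul]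
        exact (hN p hp (by omega)).mul_left _
      · exact dvd_zero _
    have h4 : Nat.Coprime p k := (Nat.Prime.coprime_iff_not_dvd hp).2 fun hd => by
      have := Nat.le_of_dvd (Nat.pos_of_ne_zero hk) hd; omega
    exact (Nat.isCoprime_iff_coprime.2 h4).dvd_of_dvd_mul_left h3
  · refine ⟨-(th^[e] R), IsAlgebraic.neg (hC.alg _ (iter_mem hC hR e)), _, pf_two (k := k), 0,
      fun n hn hd => ?_⟩
    rw [map_sub, hW, coeff_cut, if_pos ⟨hn, hd⟩, map_sub, map_neg, coeff_iter, coeff_iter]; ring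

noncomputable def geo (a : ℤ) : ℤ⟦X⟧ := mk fun n => a ^ n

theorem rat_geo (a : ℤ) : IsRatl (geo a) := by
  refine ⟨1, 1 - Polynomial.C a * Polynomial.X, ?_, ?_⟩
  · intro h
    have := congrArg (Polynomial.coeff · 0) h
    simp at this
  · rw [Polynomial.coe_sub, Polynomial.coe_mul, Polynomial.coe_C, Polynomial.coe_X, Polynomial.coe_one,
      sub_mul, one_mul, mul_assoc]
    ext n
    cases n with
    | zero => simp [geo]
    | succ n => rw [map_sub, coeff_C_mul, coeff_succ_X_mul]; simp [geo, coeff_one, pow_succ, mul_comm]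

noncomputable def ss (j : ℕ) : ℤ⟦X⟧ := geo (2 ^ (j + 1)) - (2 ^ (j + 1) : ℤ) • geo 1

theorem coeff_ss (j n : ℕ) : coeff n (ss j) = (2 ^ (j + 1)) ^ n - 2 ^ (j + 1) := by
  rw [ss, map_sub, map_zsmul]; simp [geo]

theorem fermat (a : ℤ) {p : ℕ} (hp : p.Prime) : (p : ℤ) ∣ a ^ p - a := by
  have := Fact.mk hp
  rw [← ZMod.intCast_zmod_eq_zero_iff_dvd]
  push_cast
  rw [ZMod.pow_card, sub_self]

theorem ss_mem {C : AddSubgroup ℤ⟦X⟧} (hC : Good C) (j : ℕ) : ss j ∈ Fer ⊓ C := by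
  have h : ss j ∈ C := C.sub_mem (hC.rat _ (rat_geo _)) (C.zsmul_mem (hC.rat _ (rat_geo _)) _)
  exact ⟨⟨hC.alg _ h, 0, fun p hp _ => by rw [coeff_ss]; exact fermat _ hp⟩, h⟩

theorem ss_indep (s : Finset ℕ) (g : ℕ → ℤ) (h : ∑ j ∈ s, g j • ss j ∈ nearG) : ∀ j ∈ s, g j = 0 := by
  obtain ⟨U, -, T, hT, N, h⟩ := h
  set F : Polynomial ℤ := ∑ j ∈ s, Polynomial.C (g j) * (Polynomial.X ^ (j + 1) - Polynomial.C (2 ^ (j + 1)))
    with hF
  have hroot : ∀ q : ℕ, q.Prime → T.sup id < q → F.eval (2 ^ q) = 0 := by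
    intro q hq hqT
    obtain ⟨p, hp1, hp⟩ := Nat.exists_infinite_primes (N + T.sup id + (F.eval (2 ^ q)).natAbs + 1)
    refine Int.eq_zero_of_dvd_of_natAbs_lt_natAbs (show (p : ℤ) ∣ _ from ?_)
      (by simp only [Int.natAbs_natCast]; omega)
    have h1 := h (q * p) (le_trans (by omega) (Nat.le_mul_of_pos_left p hq.pos)) fun m hm hd => by
      have h1 : m ≤ T.sup id := Finset.le_sup (f := id) hm
      have h2 := hT m hm
      have h3 := Nat.minFac_prime (show m ≠ 1 by omega)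
      have h4 := Nat.minFac_le (show 0 < m by omega)
      rcases (Nat.Prime.dvd_mul h3).1 ((Nat.minFac_dvd m).trans hd) with h5 | h5
      · have := (Nat.prime_dvd_prime_iff_eq h3 hq).1 h5; omega
      · have := (Nat.prime_dvd_prime_iff_eq h3 hp).1 h5; omega
    have h2 : (p : ℤ) ∣ coeff (q * p) (∑ j ∈ s, g j • ss j) - F.eval (2 ^ q) := by
      rw [map_sum, hF, Polynomial.eval_finsetSum, ← Finset.sum_sub_distrib]
      refine Finset.dvd_sum fun j _ => ?_
      rw [map_zsmul, smul_eq_mul, coeff_ss]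
      simp only [Polynomial.eval_mul, Polynomial.eval_C, Polynomial.eval_sub, Polynomial.eval_pow,
        Polynomial.eval_X]
      have := (fermat (((2 : ℤ) ^ q) ^ (j + 1)) hp).mul_left (g j)
      convert this using 1
      ring
    have h3 : (p : ℤ) ∣ coeff (q * p) (∑ j ∈ s, g j • ss j) := by
      rw [h1]; push_cast; exact ((dvd_mul_left _ _).mul_right _)
    simpa using dvd_sub h3 h2
  have hF0 : F = 0 := by
    apply Polynomial.eq_zero_of_infinite_isRoot
    have hinf : {q : ℕ | q.Prime ∧ T.sup id < q}.Infinite := by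
      refine Set.infinite_of_not_bddAbove ?_
      rintro ⟨b, hb⟩
      obtain ⟨p, hp1, hp⟩ := Nat.exists_infinite_primes (b + T.sup id + 1)
      have := hb (show p ∈ {q : ℕ | q.Prime ∧ T.sup id < q} from ⟨hp, by omega⟩)
      omega
    refine (hinf.image (f := fun q => (2 : ℤ) ^ q) ?_).mono ?_
    · exact (pow_right_injective₀ (by norm_num) (by norm_num)).injOn
    · rintro _ ⟨q, ⟨h1, h2⟩, rfl⟩
      exact hroot q h1 h2
  intro j hj
  have := congrArg (Polynomial.coeff · (j + 1)) hF0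
  simp only [hF, Polynomial.finsetSum_coeff, Polynomial.coeff_C_mul, Polynomial.coeff_sub,
    Polynomial.coeff_X_pow, Polynomial.coeff_C_succ, sub_zero, Polynomial.coeff_zero] at this
  rw [Finset.sum_eq_single j (fun b _ hb => by simp [Ne.symm hb]) (fun h => absurd hj h)] at this
  simpa using this

theorem fer_countable : (Fer : Set ℤ⟦X⟧).Countable := by
  have : FaithfulSMul (Polynomial ℤ) ℤ⟦X⟧ := (faithfulSMul_iff_algebraMap_injective _ _).2 fun a b h => by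
    rw [am_eq, am_eq] at h
    exact Polynomial.coe_injective ℤ h
  have : Countable (Polynomial ℤ) := by
    rw [← Cardinal.mk_le_aleph0_iff]
    exact Polynomial.cardinalMk_le_max.trans (by simp)
  exact (Algebraic.countable (Polynomial ℤ) ℤ⟦X⟧).mono fun R h => h.1

theorem main {C : AddSubgroup ℤ⟦X⟧} (hC : Good C) (F N : AddSubgroup ℤ⟦X⟧) (hF : F = Fer ⊓ C)
    (hN : N = (DD ⊓ C) ⊔ Pol ⊔ (PP ⊓ C)) :
    N ≤ F ∧ Nonempty ((F ⧸ N.addSubgroupOf F) ≃+ (ℕ →₀ ℚ)) := by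
  have hNn : N ≤ nearG := hN ▸ le_trans (sup_le_sup (sup_le_sup inf_le_left le_rfl) inf_le_left) le_near
  have hNC : N ≤ C := hN ▸ sup_le (sup_le inf_le_right (by rintro _ ⟨q, rfl⟩; exact hC.rat _ (rat_coe q)))
    inf_le_right
  have key : ∀ x : F, (QuotientAddGroup.mk x : F ⧸ N.addSubgroupOf F) = 0 ↔ (x : ℤ⟦X⟧) ∈ nearG := by
    intro x
    rw [QuotientAddGroup.eq_zero_iff, AddSubgroup.mem_addSubgroupOf]
    exact ⟨fun h => hNn h, fun h => hN ▸ mem_of_near hC (hF ▸ x.2 : (x : ℤ⟦X⟧) ∈ Fer ⊓ C).2 h⟩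
  refine ⟨fun R hR => hF ▸ ⟨near_fer (hC.alg _ (hNC hR)) (hNn hR), hNC hR⟩, ?_⟩
  have : Countable F := (fer_countable.mono (show (F : Set ℤ⟦X⟧) ⊆ Fer from fun x hx =>
    (hF ▸ hx : x ∈ Fer ⊓ C).1)).to_subtype
  have : Countable (F ⧸ N.addSubgroupOf F) := QuotientAddGroup.mk_surjective.countable
  refine iso_of ?_ ?_ (fun j => QuotientAddGroup.mk ⟨ss j, hF ▸ ss_mem hC j⟩) ?_
  · intro k hk x hx
    obtain ⟨x, rfl⟩ := QuotientAddGroup.mk_surjective x
    rw [← QuotientAddGroup.mk_zsmul, key] at hx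
    exact (key x).2 (near_tf hk hx)
  · intro k hk x
    obtain ⟨x, rfl⟩ := QuotientAddGroup.mk_surjective x
    obtain ⟨W, hW, h⟩ := near_div hC hk (hF ▸ x.2 : (x : ℤ⟦X⟧) ∈ Fer ⊓ C)
    refine ⟨QuotientAddGroup.mk ⟨W, hF ▸ hW⟩, ?_⟩
    rw [← sub_eq_zero, ← QuotientAddGroup.mk_zsmul, ← QuotientAddGroup.mk_sub, key]
    exact h
  · rw [linearIndependent_iff']
    intro s g h
    apply ss_indep s g
    simp only [← QuotientAddGroup.mk_zsmul] at h
    rw [← QuotientAddGroup.mk_sum, key] at h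
    simpa using h

end Pool.Agent.H96.FA
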