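import Mathlib

set_option autoImplicit false
open MeasureTheory Filter Topology

namespace H96.FD

abbrev T : Type := ℕ → ZMod 2

noncomputable def nu : Measure T := Measure.addHaarMeasure ⊤

instance : IsProbabilityMeasure nu := ⟨by
  unfold nu
  simpa using (Measure.addHaarMeasure_self (K₀ := (⊤ : TopologicalSpace.PositiveCompacts T)))⟩

instance : nu.IsAddHaarMeasure := by unfold nu; infer_instance

instance : NullSingletonClass nu := by
  refine ⟨fun x => ?_⟩
  by_contra h
  have hc : ∀ y : T, nu {y} = nu {x} := by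
    intro y
    rw [← measure_preimage_add nu (y - x) {y}]
    congr 1
    ext z
    simp only [Set.mem_preimage, Set.mem_singleton_iff]
    constructor
    · intro hz
      linear_combination hz
    · intro hz; rw [hz]; simp
  have hinf : Set.Infinite (Set.univ : Set T) := Set.infinite_univ
  have h1 : nu Set.univ = ⊤ := by
    apply le_antisymm le_top
    have h2 : ∀ n : ℕ, (n : ENNReal) * nu {x} ≤ nu Set.univ := by
      intro n
      obtain ⟨s, -, hs⟩ := hinf.exists_subset_card_eq n
      have : nu (s : Set T) = n * nu {x} := by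
        rw [← sum_measure_singleton]
        rw [Finset.sum_congr rfl fun y _ => hc y, Finset.sum_const, hs, nsmul_eq_mul]
      rw [← this]
      exact measure_mono (Set.subset_univ _)
    have h3 := iSup_le h2
    rwa [← ENNReal.iSup_mul, ENNReal.iSup_natCast, ENNReal.top_mul h] at h3
  simp at h1

/-- digits with a leading zero -/
def dg (u : T) : ℕ → ZMod 2
  | 0 => 0
  | i + 1 => u i

def f (k s x y : ZMod 2) : ℤ := if y = k * x + s then (if x = 0 then 1 else -1) else 0

def ka (l : Fin 8) : ZMod 2 := ((l.val / 2 : ℕ) : ZMod 2)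
def si (l : Fin 8) : ZMod 2 := ((l.val / 4 : ℕ) : ZMod 2)

open Classical in
noncomputable def B (l : Fin 8) (m : ℕ) (u v : T) : ℤ :=
  if m % 2 = l.val % 2 ∧ (∀ i < m, dg u i = dg v i) then
    f (ka l) (si l) (dg u m) (dg u (m + 1)) * f (ka l) (si l + 1) (dg v m) (dg v (m + 1)) else 0

noncomputable def L (u v : T) : ℕ := sInf {i | dg u i ≠ dg v i}

noncomputable def M (l : Fin 8) (u v : T) : ℤ := B l (L u v - 1) u v + B l (L u v) u v

lemma f_abs (k s x y : ZMod 2) : |f k s x y| ≤ 1 := by
  revert k s x y; decide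

lemma f_zero (k s x y : ZMod 2) : f k s x y * f k (s + 1) x y = 0 := by
  revert k s x y; decide

lemma f_flip (k s x y : ZMod 2) : f k s (x + 1) (y + k) = - f k s x y := by
  revert k s x y; decide

lemma B_abs (l : Fin 8) (m : ℕ) (u v : T) : |B l m u v| ≤ 1 := by
  unfold B
  split_ifs
  · rw [abs_mul]
    exact mul_le_one₀ (f_abs _ _ _ _) (abs_nonneg _) (f_abs _ _ _ _)
  · simp

lemma L_spec {u v : T} (h : u ≠ v) :
    dg u (L u v) ≠ dg v (L u v) ∧ (∀ i < L u v, dg u i = dg v i) ∧ 1 ≤ L u v := by
  have hne : {i | dg u i ≠ dg v i}.Nonempty := by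
    obtain ⟨i, hi⟩ := Function.ne_iff.1 h
    exact ⟨i + 1, hi⟩
  have h1 : dg u (L u v) ≠ dg v (L u v) := Nat.sInf_mem hne
  refine ⟨h1, fun i hi => ?_, ?_⟩
  · by_contra hc
    exact absurd (Nat.sInf_le (s := {i | dg u i ≠ dg v i}) hc) (not_le.2 hi)
  · by_contra hc
    have : L u v = 0 := by omega
    rw [this] at h1
    exact h1 rfl

lemma B_self (l : Fin 8) (m : ℕ) (u : T) : B l m u u = 0 := by
  unfold B
  split_ifs
  · exact f_zero _ _ _ _
  · rfl

lemma B_zero (l : Fin 8) (m : ℕ) (u v : T) (h1 : m ≠ L u v - 1) (h2 : m ≠ L u v) :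
    B l m u v = 0 := by
  by_cases h : u = v
  · rw [h]; exact B_self _ _ _
  obtain ⟨a, b, c⟩ := L_spec h
  unfold B
  split_ifs with hc
  · rcases lt_or_gt_of_ne h2 with h3 | h3
    · rw [b m h3, b (m + 1) (by omega)]
      exact f_zero _ _ _ _
    · exact absurd (hc.2 _ h3) a
  · rfl

lemma M_abs (l : Fin 8) (u v : T) : |M l u v| ≤ 1 := by
  by_cases h : u = v
  · simp [M, h, B_self]
  obtain ⟨a, b, c⟩ := L_spec h
  unfold M
  by_cases hp : L u v % 2 = l.val % 2
  · have : B l (L u v - 1) u v = 0 := by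
      unfold B
      rw [if_neg]
      intro hh
      omega
    rw [this, zero_add]; exact B_abs _ _ _ _
  · have : B l (L u v) u v = 0 := by
      unfold B
      rw [if_neg]
      intro hh
      exact hp hh.1
    rw [this, add_zero]; exact B_abs _ _ _ _

lemma sum_a (e : Fin 2) (x y y' : ZMod 2) (h : y ≠ y') :
    ∑ l : Fin 8, (if e.val = l.val % 2 then f (ka l) (si l) x y * f (ka l) (si l + 1) x y' else 0)
      = 2 := by
  revert e x y y'; decide

lemma sum_b (e : Fin 2) (x x' y y' : ZMod 2) (h : x ≠ x') :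
    ∑ l : Fin 8, (if e.val = l.val % 2 then f (ka l) (si l) x y * f (ka l) (si l + 1) x' y' else 0)
      = -1 := by
  revert e x x' y y'; decide

lemma M_sum {u v : T} (h : u ≠ v) : ∑ l : Fin 8, M l u v = 1 := by
  obtain ⟨a, b, c⟩ := L_spec h
  unfold M
  rw [Finset.sum_add_distrib]
  have h1 : ∑ l : Fin 8, B l (L u v - 1) u v = 2 := by
    have e1 : L u v - 1 + 1 = L u v := by omega
    rw [← sum_a ⟨(L u v - 1) % 2, Nat.mod_lt _ (by norm_num)⟩ (dg u (L u v - 1)) _ _ a]
    refine Finset.sum_congr rfl fun l _ => ?_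
    unfold B
    have : ∀ i < L u v - 1, dg u i = dg v i := fun i hi => b i (by omega)
    rw [e1, ← b (L u v - 1) (by omega)]
    exact if_congr (by simp only [and_iff_left_iff_imp]; exact fun _ => this) rfl rfl
  have h2 : ∑ l : Fin 8, B l (L u v) u v = -1 := by
    rw [← sum_b ⟨(L u v) % 2, Nat.mod_lt _ (by norm_num)⟩ _ _ (dg u (L u v + 1))
      (dg v (L u v + 1)) a]
    refine Finset.sum_congr rfl fun l _ => ?_
    unfold B
    exact if_congr (by simp only [and_iff_left_iff_imp]; exact fun _ => b) rfl rfl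
  rw [h1, h2]; norm_num

noncomputable def Mn (l : Fin 8) (n : ℕ) (u v : T) : ℤ := ∑ m ∈ Finset.range n, B l m u v

lemma Mn_abs (l : Fin 8) (n : ℕ) (u v : T) : |Mn l n u v| ≤ 2 := by
  unfold Mn
  have : ∑ m ∈ Finset.range n, B l m u v
      = ∑ m ∈ Finset.range n ∩ {L u v - 1, L u v}, B l m u v := by
    symm
    apply Finset.sum_subset Finset.inter_subset_left
    intro m h1 h2
    simp only [Finset.mem_inter, h1, true_and, Finset.mem_insert, Finset.mem_singleton,
      not_or] at h2
    exact B_zero _ _ _ _ h2.1 h2.2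
  rw [this]
  refine (Finset.abs_sum_le_sum_abs _ _).trans ?_
  refine (Finset.sum_le_card_nsmul _ _ 1 fun m _ => B_abs _ _ _ _).trans ?_
  have h1 := Finset.card_le_card (Finset.inter_subset_right
    (s₁ := Finset.range n) (s₂ := {L u v - 1, L u v}))
  have h2 : ({L u v - 1, L u v} : Finset ℕ).card ≤ 2 := Finset.card_le_two
  simp only [nsmul_eq_mul, mul_one]
  exact_mod_cast h1.trans h2

lemma Mn_ev (l : Fin 8) (u v : T) : ∀ᶠ n in atTop, Mn l n u v = M l u v := by
  by_cases h : u = v
  · exact Eventually.of_forall fun n => by simp [Mn, M, h, B_self]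
  obtain ⟨a, b, c⟩ := L_spec h
  filter_upwards [eventually_gt_atTop (L u v)] with n hn
  unfold Mn M
  rw [← Finset.sum_pair (f := fun m => B l m u v) (by omega : L u v - 1 ≠ L u v)]
  symm
  apply Finset.sum_subset
  · intro m hm
    simp only [Finset.mem_insert, Finset.mem_singleton] at hm
    simp only [Finset.mem_range]; omega
  · intro m _ h2
    simp only [Finset.mem_insert, Finset.mem_singleton, not_or] at h2
    exact B_zero _ _ _ _ h2.1 h2.2

lemma dg_meas (i : ℕ) : Measurable fun u : T => dg u i := by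
  cases i with
  | zero => exact measurable_const
  | succ i => exact measurable_pi_apply i

lemma B_meas (l : Fin 8) (m : ℕ) : Measurable fun p : T × T => B l m p.1 p.2 := by
  unfold B
  refine Measurable.ite ?_ ?_ measurable_const
  · refine (MeasurableSet.const _).inter ?_
    have : {p : T × T | ∀ i < m, dg p.1 i = dg p.2 i}
        = ⋂ i, ⋂ (_ : i < m), {p : T × T | dg p.1 i = dg p.2 i} := by ext; simp
    change MeasurableSet {p : T × T | ∀ i < m, dg p.1 i = dg p.2 i}
    rw [this]
    refine MeasurableSet.iInter fun i => MeasurableSet.iInter fun _ => ?_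
    exact measurableSet_eq_fun ((dg_meas i).comp measurable_fst) ((dg_meas i).comp measurable_snd)
  · have h : ∀ k s : ZMod 2, Measurable fun q : ZMod 2 × ZMod 2 => f k s q.1 q.2 :=
      fun k s => measurable_of_countable _
    exact ((h _ _).comp (((dg_meas m).prodMk (dg_meas (m + 1))).comp measurable_fst)).mul
      ((h _ _).comp (((dg_meas m).prodMk (dg_meas (m + 1))).comp measurable_snd))

lemma Mn_meas (l : Fin 8) (n : ℕ) : Measurable fun p : T × T => Mn l n p.1 p.2 :=
  Finset.measurable_sum _ fun m _ => B_meas l m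

lemma M_meas (l : Fin 8) : Measurable fun p : T × T => M l p.1 p.2 := by
  refine measurable_of_tendsto_metrizable (fun n => Mn_meas l n) ?_
  rw [tendsto_pi_nhds]
  intro p
  exact tendsto_const_nhds.congr' ((Mn_ev l p.1 p.2).mono fun n hn => hn.symm)

lemma ex_flip (m : ℕ) (hm : 1 ≤ m) (k : ZMod 2) : ∃ δ : T, ∀ v : T,
    (∀ i < m, dg (δ + v) i = dg v i) ∧ dg (δ + v) m = dg v m + 1 ∧
      dg (δ + v) (m + 1) = dg v (m + 1) + k := by
  obtain ⟨j, rfl⟩ : ∃ j, m = j + 1 := ⟨m - 1, by omega⟩
  refine ⟨fun i => if i = j then 1 else if i = j + 1 then k else 0, fun v => ⟨?_, ?_, ?_⟩⟩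
  · intro i hi
    cases i with
    | zero => rfl
    | succ i =>
      have h1 : i ≠ j := by omega
      have h2 : i ≠ j + 1 := by omega
      simp [dg, h1, h2]
  · simp [dg, add_comm]
  · simp [dg, add_comm]

lemma BB (l : Fin 8) (m m' : ℕ) (u w : T) :
    ∫ v, ((B l m u v * B l m' v w : ℤ) : ℝ) ∂nu = 0 := by
  have key : ∀ δ : T, (∀ v, B l m u (δ + v) * B l m' (δ + v) w = - (B l m u v * B l m' v w)) →
      ∫ v, ((B l m u v * B l m' v w : ℤ) : ℝ) ∂nu = 0 := by
    intro δ hδ
    have h1 := integral_add_left_eq_self (μ := nu)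
      (fun v => ((B l m u v * B l m' v w : ℤ) : ℝ)) δ
    simp only [hδ, Int.cast_neg, integral_neg] at h1
    linarith
  by_cases hp : m % 2 = l.val % 2 ∧ m' % 2 = l.val % 2
  swap
  · have : ∀ v, B l m u v * B l m' v w = 0 := by
      intro v
      unfold B
      split_ifs with h1 h2
      · exact absurd ⟨h1.1, h2.1⟩ hp
      all_goals simp
    simp [this]
  rcases lt_trichotomy m m' with h | h | h
  · obtain ⟨δ, hδ⟩ := ex_flip m' (by omega) (ka l)
    refine key δ fun v => ?_
    obtain ⟨a, b, c⟩ := hδ v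
    have e1 : B l m u (δ + v) = B l m u v := by
      unfold B
      rw [a m h, a (m + 1) (by omega)]
      refine if_congr (and_congr_right fun _ => forall₂_congr fun i hi => ?_) rfl rfl
      rw [a i (by omega)]
    have e2 : B l m' (δ + v) w = - B l m' v w := by
      unfold B
      rw [b, c, f_flip]
      have : (∀ i < m', dg (δ + v) i = dg w i) ↔ (∀ i < m', dg v i = dg w i) :=
        forall₂_congr fun i hi => by rw [a i hi]
      simp only [this]
      split_ifs <;> simp
    rw [e1, e2]; ring
  · subst h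
    have : ∀ v, B l m u v * B l m v w = 0 := by
      intro v
      unfold B
      split_ifs
      · have := f_zero (ka l) (si l) (dg v m) (dg v (m + 1))
        linear_combination (f (ka l) (si l) (dg u m) (dg u (m + 1)) *
          f (ka l) (si l + 1) (dg w m) (dg w (m + 1))) * this
      all_goals simp
    simp [this]
  · obtain ⟨δ, hδ⟩ := ex_flip m (by omega) (ka l)
    refine key δ fun v => ?_
    obtain ⟨a, b, c⟩ := hδ v
    have e1 : B l m' (δ + v) w = B l m' v w := by
      unfold B
      rw [a m' h, a (m' + 1) (by omega)]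
      refine if_congr (and_congr_right fun _ => forall₂_congr fun i hi => ?_) rfl rfl
      rw [a i (by omega)]
    have e2 : B l m u (δ + v) = - B l m u v := by
      unfold B
      rw [b, c, f_flip]
      have : (∀ i < m, dg u i = dg (δ + v) i) ↔ (∀ i < m, dg u i = dg v i) :=
        forall₂_congr fun i hi => by rw [a i hi]
      simp only [this]
      split_ifs <;> simp
    rw [e1, e2]; ring

lemma intg {α : Type*} [MeasurableSpace α] {μ : Measure α} [IsFiniteMeasure μ] {g : α → ℝ}
    (hg : Measurable g) (K : ℝ) (hK : ∀ x, |g x| ≤ K) : Integrable g μ :=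
  Integrable.of_bound hg.aestronglyMeasurable K (Eventually.of_forall hK)

lemma cast_meas : Measurable fun z : ℤ => (z : ℝ) := measurable_of_countable _

lemma MM (l : Fin 8) (u w : T) : ∫ v, ((M l u v * M l v w : ℤ) : ℝ) ∂nu = 0 := by
  have m1 : ∀ {g : T × T → ℤ}, Measurable g → Measurable fun v => g (u, v) :=
    fun hg => hg.comp (measurable_const.prodMk measurable_id)
  have m2 : ∀ {g : T × T → ℤ}, Measurable g → Measurable fun v => g (v, w) :=
    fun hg => hg.comp (measurable_id.prodMk measurable_const)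
  have h0 : ∀ n, ∫ v, ((Mn l n u v * Mn l n v w : ℤ) : ℝ) ∂nu = 0 := by
    intro n
    have hi : ∀ m m', Integrable (fun v => ((B l m u v * B l m' v w : ℤ) : ℝ)) nu := by
      intro m m'
      refine intg (cast_meas.comp ((m1 (B_meas l m)).mul (m2 (B_meas l m')))) 1 fun v => ?_
      have : |B l m u v * B l m' v w| ≤ 1 := by
        rw [abs_mul]
        exact mul_le_one₀ (B_abs _ _ _ _) (abs_nonneg _) (B_abs _ _ _ _)
      exact_mod_cast this
    simp only [Mn, Finset.sum_mul_sum, Int.cast_sum]
    rw [integral_finsetSum _ fun m _ => integrable_finsetSum _ fun m' _ => hi m m']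
    refine Finset.sum_eq_zero fun m _ => ?_
    rw [integral_finsetSum _ fun m' _ => hi m m']
    exact Finset.sum_eq_zero fun m' _ => BB l m m' u w
  have h1 := tendsto_integral_of_dominated_convergence (μ := nu)
    (F := fun n v => ((Mn l n u v * Mn l n v w : ℤ) : ℝ))
    (f := fun v => ((M l u v * M l v w : ℤ) : ℝ)) (fun _ => 4)
    (fun n => (cast_meas.comp ((m1 (Mn_meas l n)).mul (m2 (Mn_meas l n)))).aestronglyMeasurable)
    (integrable_const _)
    (fun n => Eventually.of_forall fun v => by
      have : |Mn l n u v * Mn l n v w| ≤ 2 * 2 := by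
        rw [abs_mul]
        exact mul_le_mul (Mn_abs _ _ _ _) (Mn_abs _ _ _ _) (abs_nonneg _) (by norm_num)
      rw [Real.norm_eq_abs]
      exact_mod_cast this)
    (Eventually.of_forall fun v => by
      refine tendsto_const_nhds.congr' ?_
      filter_upwards [Mn_ev l u v, Mn_ev l v w] with n a b
      rw [a, b])
  simp only [h0] at h1
  exact (tendsto_nhds_unique tendsto_const_nhds h1).symm

attribute [irreducible] M

end H96.FD
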