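import Pool.Agent.H96.FD1

set_option autoImplicit false
open MeasureTheory Filter Topology

namespace H96.FD

abbrev G : Type := ZMod 7 × ZMod 7
abbrev W : Type := ZMod 42

def lam (l : Fin 8) (d : G) : ℤ :=
  if (if l.val = 7 then d.2 else d.1 + (l.val : ZMod 7) * d.2) = 0 then 1 else 0

lemma lam_zero (l : Fin 8) : lam l 0 = 1 := by revert l; decide

lemma lam_one (d : G) (hd : d ≠ 0) : ∃ l0 : Fin 8, ∀ l, lam l d = if l = l0 then 1 else 0 := by
  revert d; decide +kernel

lemma lam_sum (l : Fin 8) : ∑ d : G, lam l d = 7 := by revert l; decide +kernel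

lemma lam_conv (l l' : Fin 8) (x : G) :
    ∑ d : G, lam l d * lam l' (x - d) = if l = l' then 7 * lam l x else 1 := by
  revert l l' x; decide +kernel

end H96.FD
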