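import Pool.Agent.H96.FD2

set_option autoImplicit false
open MeasureTheory Filter Topology

namespace H96.FD

def cf (a : Fin 8 → ℤ) (d : G) : ℤ := 1 - ∑ l, a l * lam l d

lemma card_G : Fintype.card G = 49 := by simp [G]

lemma cf_sum (a : Fin 8 → ℤ) (ha : ∑ l, a l = 1) : ∑ d, cf a d = 42 := by
  unfold cf
  rw [Finset.sum_sub_distrib, Finset.sum_comm]
  simp only [← Finset.mul_sum, lam_sum, ← Finset.sum_mul, ha]
  simp [card_G]

lemma cf_conv (a b : Fin 8 → ℤ) (ha : ∑ l, a l = 1) (hb : ∑ l, b l = 1) (x : G) :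
    ∑ d, cf a d * cf b (x - d) = 36 + ∑ l, a l * b l * (7 * lam l x - 1) := by
  have h1 : ∑ d, cf b (x - d) = 42 := by
    rw [← cf_sum b hb]
    exact Fintype.sum_equiv (Equiv.subLeft x) _ _ fun d => rfl
  have h2 : ∀ l, ∑ d, lam l d * cf b (x - d) = 6 - b l * (7 * lam l x - 1) := by
    intro l
    unfold cf
    simp only [mul_sub, mul_one, Finset.sum_sub_distrib, lam_sum, Finset.mul_sum]
    rw [Finset.sum_comm]
    have : ∀ l', ∑ d, lam l d * (b l' * lam l' (x - d))
        = b l' + (if l = l' then b l' * (7 * lam l x - 1) else 0) := by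
      intro l'
      have : ∑ d, lam l d * (b l' * lam l' (x - d)) = b l' * ∑ d, lam l d * lam l' (x - d) := by
        rw [Finset.mul_sum]
        exact Finset.sum_congr rfl fun d _ => by ring
      rw [this, lam_conv]
      split_ifs <;> ring
    simp only [this, Finset.sum_add_distrib, hb, Finset.sum_ite_eq, Finset.mem_univ, if_true]
    ring
  have h3 : ∀ d, cf a d * cf b (x - d)
      = cf b (x - d) - ∑ l, a l * (lam l d * cf b (x - d)) := by
    intro d
    conv_lhs => rw [cf, sub_mul, one_mul, Finset.sum_mul]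
    congr 1
    exact Finset.sum_congr rfl fun l _ => by ring
  simp only [h3, Finset.sum_sub_distrib, h1]
  rw [Finset.sum_comm]
  simp only [← Finset.mul_sum, h2, mul_sub, Finset.sum_sub_distrib, ← Finset.sum_mul, ha]
  have : ∑ l, a l * (b l * (7 * lam l x)) = ∑ l, a l * b l * (7 * lam l x) :=
    Finset.sum_congr rfl fun l _ => by ring
  rw [this]
  simp only [mul_one]
  ring

def Good (a : Fin 8 → ℤ) (s : W → G) : Prop :=
  (∀ w, s w ≠ 0) ∧ ∀ φ : G → ℝ, ∑ w, φ (s w) = ∑ d, (cf a d : ℝ) * φ d

lemma ex_good (a : Fin 8 → ℤ) (ha : ∑ l, a l = 1) (h1 : ∀ l, a l ≤ 1) : ∃ s, Good a s := by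
  have h0 : cf a 0 = 0 := by simp [cf, lam_zero, ha]
  have hn : ∀ d, 0 ≤ cf a d := by
    intro d
    by_cases hd : d = 0
    · rw [hd, h0]
    obtain ⟨l0, hl⟩ := lam_one d hd
    simp [cf, hl, h1]
  have hc : Fintype.card W = Fintype.card (Σ d : G, Fin (cf a d).toNat) := by
    rw [Fintype.card_sigma]
    simp only [Fintype.card_fin]
    have : ((∑ d, (cf a d).toNat : ℕ) : ℤ) = 42 := by
      rw [← cf_sum a ha, Nat.cast_sum]
      exact Finset.sum_congr rfl fun d _ => Int.toNat_of_nonneg (hn d)
    have h2 : ∑ d, (cf a d).toNat = 42 := by exact_mod_cast this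
    rw [h2]; simp [W]
  let e := Fintype.equivOfCardEq hc
  refine ⟨fun w => (e w).1, fun w hw => ?_, fun φ => ?_⟩
  · have := (e w).2.2
    simp only [hw, h0] at this
    simp at this
  · rw [Fintype.sum_equiv e (fun w => φ (e w).1) (fun p => φ p.1) fun _ => rfl,
      Fintype.sum_sigma]
    refine Finset.sum_congr rfl fun d _ => ?_
    simp only [Finset.sum_const, Finset.card_univ, Fintype.card_fin, nsmul_eq_mul]
    congr 1
    exact_mod_cast congrArg (fun z : ℤ => (z : ℝ)) (Int.toNat_of_nonneg (hn d))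

open Classical in
noncomputable def sel (a : Fin 8 → ℤ) : W → G :=
  if h : ∃ s, Good a s then h.choose else fun _ => (1, 0)

lemma sel_ne (a : Fin 8 → ℤ) (w : W) : sel a w ≠ 0 := by
  unfold sel
  split_ifs with h
  · exact h.choose_spec.1 w
  · show ((1, 0) : G) ≠ 0
    decide

lemma sel_sum {u v : T} (h : u ≠ v) (φ : G → ℝ) :
    ∑ w, φ (sel (fun l => M l u v) w) = ∑ d, (cf (fun l => M l u v) d : ℝ) * φ d := by
  have hg := ex_good (fun l => M l u v) (M_sum h) fun l => (abs_le.1 (M_abs l u v)).2
  unfold sel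
  rw [dif_pos hg]
  exact hg.choose_spec.2 φ

attribute [irreducible] sel cf

abbrev E : Type := T × W
abbrev S : Type := T × G

noncomputable def D (u : T) (e : E) : G := sel (fun l => M l u e.1) e.2

lemma D_meas : Measurable fun p : T × E => D p.1 p.2 := by
  have h1 : Measurable fun q : (Fin 8 → ℤ) × W => sel q.1 q.2 := measurable_of_countable _
  have h2 : Measurable fun p : T × E => fun l => M l p.1 p.2.1 :=
    measurable_pi_lambda _ fun l => (M_meas l).comp (measurable_fst.prodMk measurable_snd.fst)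
  have h3 : Measurable fun p : T × E => ((fun l => M l p.1 p.2.1, p.2.2) : (Fin 8 → ℤ) × W) :=
    h2.prodMk measurable_snd.snd
  exact h1.comp h3

lemma D_ne (u : T) (e : E) : D u e ≠ 0 := sel_ne _ _

lemma D_def (u v : T) (w : W) : D u (v, w) = sel (fun l => M l u v) w := rfl

attribute [irreducible] D

noncomputable def F (x : S) (e : E) : S := (e.1, x.2 + D x.1 e)

lemma F_meas : Measurable fun p : S × E => F p.1 p.2 := by
  have h0 : Measurable fun p : S × E => ((p.1.1, p.2) : T × E) :=
    measurable_fst.fst.prodMk measurable_snd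
  have h1 : Measurable fun p : S × E => D p.1.1 p.2 := D_meas.comp h0
  have h2 : Measurable fun p : S × E => p.1.2 + D p.1.1 p.2 := measurable_fst.snd.add h1
  exact measurable_snd.fst.prodMk h2

noncomputable def ups : Measure W := Measure.addHaarMeasure ⊤

instance : IsProbabilityMeasure ups := ⟨by
  unfold ups
  simpa using (Measure.addHaarMeasure_self (K₀ := (⊤ : TopologicalSpace.PositiveCompacts W)))⟩

instance : ups.IsAddHaarMeasure := by unfold ups; infer_instance

lemma ups_int (φ : W → ℝ) : ∫ w, φ w ∂ups = (∑ w, φ w) / 42 := by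
  have h1 : ∀ a, ∫ w, φ (a + w) ∂ups = ∫ w, φ w ∂ups := fun a => integral_add_left_eq_self φ a
  have h2 : ∑ a, ∫ w, φ (a + w) ∂ups = ∫ w, ∑ a, φ (a + w) ∂ups :=
    (integral_finsetSum _ fun a _ => Integrable.of_finite).symm
  have h3 : ∀ w, ∑ a, φ (a + w) = ∑ a, φ a := fun w =>
    Fintype.sum_equiv (Equiv.addRight w) _ _ fun _ => rfl
  simp only [h1, h3, Finset.sum_const, Finset.card_univ, integral_const, probReal_univ,
    smul_eq_mul, one_mul, nsmul_eq_mul] at h2
  have : (Fintype.card W : ℝ) = 42 := by simp [W]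
  rw [this] at h2
  rw [← h2]; ring

noncomputable def rho : Measure E := nu.prod ups

instance : IsProbabilityMeasure rho := by unfold rho; infer_instance
instance : rho.IsAddLeftInvariant := by unfold rho; infer_instance

noncomputable def Pop (h : S → ℝ) (x : S) : ℝ := ∫ e, h (F x e) ∂rho

lemma Pop_meas {h : S → ℝ} (hm : Measurable h) : Measurable (Pop h) :=
  ((hm.comp F_meas).stronglyMeasurable.integral_prod_right' (ν := rho)).measurable

lemma Pop_abs {h : S → ℝ} (hb : ∀ x, |h x| ≤ 1) (x : S) : |Pop h x| ≤ 1 := by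
  have := norm_integral_le_of_norm_le_const (μ := rho) (f := fun e => h (F x e)) (C := 1)
    (Eventually.of_forall fun e => hb _)
  simpa [Pop] using this

lemma ae_ne (u : T) : ∀ᵐ v ∂nu, u ≠ v := by
  rw [ae_iff]
  simp

lemma Pop_eq {h : S → ℝ} (hm : Measurable h) (hb : ∀ x, |h x| ≤ 1) (u : T) (g : G) :
    Pop h (u, g) = ∫ v, (∑ d, (cf (fun l => M l u v) d : ℝ) * h (v, g + d)) / 42 ∂nu := by
  unfold Pop rho
  have h0 : Measurable fun e : E => (((u, g), e) : S × E) := measurable_const.prodMk measurable_id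
  have h1 : Measurable fun e : E => h (F (u, g) e) := hm.comp (F_meas.comp h0)
  rw [integral_prod _ (intg h1 1 fun e => hb _)]
  refine integral_congr_ae ?_
  filter_upwards [ae_ne u] with v hv
  rw [ups_int, ← sel_sum hv fun d => h (v, g + d)]
  simp only [F, D_def]

lemma cf_abs (a : Fin 8 → ℤ) (ha : ∀ l, |a l| ≤ 1) (d : G) : |(cf a d : ℝ)| ≤ 9 := by
  have : |cf a d| ≤ 9 := by
    unfold cf
    refine (abs_sub _ _).trans ?_
    have h1 : |∑ l, a l * lam l d| ≤ 8 := by
      refine (Finset.abs_sum_le_sum_abs _ _).trans ?_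
      refine (Finset.sum_le_card_nsmul _ _ 1 fun l _ => ?_).trans (by simp)
      rw [abs_mul]
      refine mul_le_one₀ (ha l) (abs_nonneg _) ?_
      unfold lam
      split_ifs <;> simp
    simp only [abs_one]
    linarith
  exact_mod_cast this

lemma cf_meas (d : G) : Measurable fun p : T × T => (cf (fun l => M l p.1 p.2) d : ℝ) := by
  have h1 : Measurable fun a : Fin 8 → ℤ => (cf a d : ℝ) := measurable_of_countable _
  exact h1.comp (measurable_pi_lambda _ fun l => M_meas l)

lemma conv_int (u w : T) (x : G) :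
    ∫ v, ∑ d, (cf (fun l => M l u v) d : ℝ) * cf (fun l => M l v w) (x - d) ∂nu = 36 := by
  have hi : ∀ l, Integrable (fun v => ((M l u v * M l v w : ℤ) : ℝ)) nu := by
    intro l
    refine intg (cast_meas.comp (((M_meas l).comp (measurable_const.prodMk measurable_id)).mul
      ((M_meas l).comp (measurable_id.prodMk measurable_const)))) 1 fun v => ?_
    have : |M l u v * M l v w| ≤ 1 := by
      rw [abs_mul]
      exact mul_le_one₀ (M_abs _ _ _) (abs_nonneg _) (M_abs _ _ _)
    exact_mod_cast this
  have h1 : ∀ᵐ v ∂nu, ∑ d, (cf (fun l => M l u v) d : ℝ) * cf (fun l => M l v w) (x - d)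
      = 36 + ∑ l, ((M l u v * M l v w : ℤ) : ℝ) * ((7 * lam l x - 1 : ℤ) : ℝ) := by
    filter_upwards [ae_ne u, ae_ne w] with v h1 h2
    exact_mod_cast cf_conv _ _ (M_sum h1) (M_sum h2.symm) x
  rw [integral_congr_ae h1, integral_add (integrable_const _)
    (integrable_finsetSum _ fun l _ => (hi l).mul_const _),
    integral_finsetSum _ fun l _ => (hi l).mul_const _]
  simp only [integral_mul_const, MM]
  simp

lemma PP {h : S → ℝ} (hm : Measurable h) (hb : ∀ x, |h x| ≤ 1) (x : S) :
    Pop (Pop h) x = ∫ w, (∑ y, h (w, y)) / 49 ∂nu := by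
  obtain ⟨u, g⟩ := x
  rw [Pop_eq (Pop_meas hm) (Pop_abs hb)]
  simp only [Pop_eq hm hb]
  have hh : ∀ y : G, Measurable fun w : T => h (w, y) :=
    fun y => hm.comp (measurable_id.prodMk measurable_const)
  let Q : G → G → T → T → ℝ := fun y d v w =>
    (cf (fun l => M l u v) d : ℝ) * cf (fun l => M l v w) (y - d) * h (w, g + y)
  have Qm : ∀ y d, Measurable fun p : T × T => Q y d p.1 p.2 := fun y d =>
    (((cf_meas d).comp (measurable_const.prodMk measurable_fst)).mul (cf_meas _)).mul
      ((hh _).comp measurable_snd)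
  have Qb : ∀ y d v w, |Q y d v w| ≤ 9 * 9 * 1 := by
    intro y d v w
    simp only [Q, abs_mul]
    exact mul_le_mul (mul_le_mul (cf_abs _ (fun l => M_abs l _ _) _)
      (cf_abs _ (fun l => M_abs l _ _) _) (abs_nonneg _) (by norm_num)) (hb _) (abs_nonneg _)
      (by norm_num)
  have Qi : Integrable (fun p : T × T => (∑ y, ∑ d, Q y d p.1 p.2) / (42 * 42)) (nu.prod nu) :=
    (integrable_finsetSum _ fun y _ => integrable_finsetSum _ fun d _ =>
      intg (Qm y d) _ fun p => Qb y d p.1 p.2).div_const _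
  have h1 : ∀ v, (∑ d, (cf (fun l => M l u v) d : ℝ) *
      ∫ w, (∑ d', (cf (fun l => M l v w) d' : ℝ) * h (w, g + d + d')) / 42 ∂nu) / 42
      = ∫ w, (∑ y, ∑ d, Q y d v w) / (42 * 42) ∂nu := by
    intro v
    simp only [← integral_const_mul]
    rw [← integral_finsetSum, ← integral_div]
    · refine integral_congr_ae (Eventually.of_forall fun w => ?_)
      beta_reduce
      rw [Finset.sum_comm (f := fun y d => Q y d v w), ← div_div]
      congr 1
      rw [Finset.sum_div]
      refine Finset.sum_congr rfl fun d _ => ?_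
      rw [← mul_div_assoc, Finset.mul_sum]
      congr 1
      refine Fintype.sum_equiv (Equiv.addLeft d) _ _ fun d' => ?_
      simp only [Q, Equiv.coe_addLeft, add_sub_cancel_left, add_assoc]
      ring
    · intro d _
      refine Integrable.const_mul (Integrable.div_const (integrable_finsetSum _ fun d' _ => ?_) _) _
      refine intg (((cf_meas d').comp (measurable_const.prodMk measurable_id)).mul (hh _)) (9 * 1)
        fun w => ?_
      rw [abs_mul]
      exact mul_le_mul (cf_abs _ (fun l => M_abs l _ _) _) (hb _) (abs_nonneg _) (by norm_num)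
  simp only [h1]
  rw [integral_integral_swap Qi]
  refine integral_congr_ae (Eventually.of_forall fun w => ?_)
  simp only
  rw [integral_div, integral_finsetSum]
  · have : ∀ y, ∫ v, ∑ d, Q y d v w ∂nu = 36 * h (w, g + y) := by
      intro y
      simp only [Q, ← Finset.sum_mul]
      rw [integral_mul_const, conv_int]
    simp only [this, ← Finset.mul_sum]
    rw [Fintype.sum_equiv (Equiv.addLeft g) (fun y => h (w, g + y)) (fun y => h (w, y))
      fun _ => rfl]
    ring
  · intro y _
    exact integrable_finsetSum _ fun d _ =>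
      intg ((Qm y d).comp (measurable_id.prodMk measurable_const)) _ fun v => Qb y d v w

end H96.FD
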