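import Pool.Agent.H96.FD3

set_option autoImplicit false
open MeasureTheory Filter Topology ProbabilityTheory

namespace H96.FD

abbrev Xi : Type := ℤ → E
abbrev Om : Type := Xi × G

noncomputable def eta : Measure Xi := Measure.addHaarMeasure ⊤
noncomputable def gam : Measure G := Measure.addHaarMeasure ⊤

instance : IsProbabilityMeasure eta := ⟨by
  unfold eta
  simpa using (Measure.addHaarMeasure_self (K₀ := (⊤ : TopologicalSpace.PositiveCompacts Xi)))⟩

instance : eta.IsAddHaarMeasure := by unfold eta; infer_instance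

instance : IsProbabilityMeasure gam := ⟨by
  unfold gam
  simpa using (Measure.addHaarMeasure_self (K₀ := (⊤ : TopologicalSpace.PositiveCompacts G)))⟩

instance : gam.IsAddHaarMeasure := by unfold gam; infer_instance

noncomputable def mu : Measure Om := eta.prod gam

instance : IsProbabilityMeasure mu := by unfold mu; infer_instance

lemma skew {φ : Xi → Xi} (hφ : MeasurePreserving φ eta eta) {c : Xi → G} (hc : Measurable c) :
    MeasurePreserving (fun ω : Om => ((φ ω.1, ω.2 + c ω.1) : Om)) mu mu := by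
  refine hφ.skew_product (g := fun ξ g => g + c ξ) ?_ (Eventually.of_forall fun ξ => ?_)
  · exact measurable_snd.add (hc.comp measurable_fst)
  · exact map_add_right_eq_self gam (c ξ)

noncomputable def incr (ξ : Xi) (j : ℤ) : G := D (ξ j).1 (ξ (j + 1))

noncomputable def C (n : ℤ) (ξ : Xi) : G :=
  ∑ j ∈ Finset.Ico 0 n, incr ξ j - ∑ j ∈ Finset.Ico n 0, incr ξ j

lemma C_zero (ξ : Xi) : C 0 ξ = 0 := by simp [C]

lemma C_succ (n : ℤ) (ξ : Xi) : C (n + 1) ξ = C n ξ + incr ξ n := by
  unfold C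
  by_cases h : 0 ≤ n
  · have h1 : Finset.Ico 0 (n + 1) = insert n (Finset.Ico 0 n) := by
      ext j; simp only [Finset.mem_Ico, Finset.mem_insert]; omega
    rw [h1, Finset.sum_insert (by simp), Finset.Ico_eq_empty (by omega : ¬ n + 1 < 0),
      Finset.Ico_eq_empty (by omega : ¬ n < 0)]
    abel
  · have h1 : Finset.Ico n 0 = insert n (Finset.Ico (n + 1) 0) := by
      ext j; simp only [Finset.mem_Ico, Finset.mem_insert]; omega
    rw [h1, Finset.sum_insert (by simp), Finset.Ico_eq_empty (by omega : ¬ 0 < n + 1),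
      Finset.Ico_eq_empty (by omega : ¬ 0 < n)]
    abel

lemma incr_meas (j : ℤ) : Measurable fun ξ => incr ξ j := by
  have h0 : Measurable fun ξ : Xi => (((ξ j).1, ξ (j + 1)) : T × E) :=
    (measurable_pi_apply j).fst.prodMk (measurable_pi_apply (j + 1))
  exact D_meas.comp h0

lemma C_meas (n : ℤ) : Measurable (C n) :=
  (Finset.measurable_sum _ fun j _ => incr_meas j).sub
    (Finset.measurable_sum _ fun j _ => incr_meas j)

attribute [irreducible] C

noncomputable def X (i : ℤ) (ω : Om) : S := ((ω.1 i).1, ω.2 + C i ω.1)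

lemma X_meas (i : ℤ) : Measurable (X i) :=
  ((measurable_pi_apply i).comp measurable_fst).fst.prodMk
    (measurable_snd.add ((C_meas i).comp measurable_fst))

lemma X_succ (n : ℤ) (ω : Om) : X (n + 1) ω = F (X n ω) (ω.1 (n + 1)) := by
  simp only [X, F, C_succ, incr, add_assoc]

def shift (n : ℤ) : Xi →+ Xi where
  toFun ξ := fun j => ξ (j + n)
  map_zero' := rfl
  map_add' _ _ := rfl

lemma shift_mp (n : ℤ) : MeasurePreserving (shift n) eta eta := by
  refine AddMonoidHom.measurePreserving (continuous_pi fun j => continuous_apply (j + n)) ?_ rfl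
  intro ξ
  exact ⟨fun j => ξ (j - n), by ext1 j; simp [shift]⟩

lemma C_add (i n : ℤ) (ξ : Xi) : C (i + n) ξ = C n ξ + C i (shift n ξ) := by
  have hi : ∀ j, incr (shift n ξ) j = incr ξ (j + n) := by
    intro j
    simp only [incr, shift, AddMonoidHom.coe_mk, ZeroHom.coe_mk]
    rw [add_right_comm]
  induction i using Int.induction_on with
  | zero => simp [C_zero]
  | succ k ih => rw [add_right_comm, C_succ, C_succ, ih, hi, add_assoc]
  | pred k ih =>
    have h1 := C_succ (-(k : ℤ) - 1 + n) ξ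
    have h2 := C_succ (-(k : ℤ) - 1) (shift n ξ)
    rw [show -(k : ℤ) - 1 + n + 1 = -k + n by ring, ih] at h1
    rw [show -(k : ℤ) - 1 + 1 = -k by ring, hi] at h2
    rw [h2, ← add_assoc] at h1
    exact (add_right_cancel h1).symm

lemma stat (n : ℤ) :
    mu.map (fun ω (i : ℤ) => X (i + n) ω) = mu.map (fun ω (i : ℤ) => X i ω) := by
  have h := skew (shift_mp n) (C_meas n)
  have hm : Measurable fun ω (i : ℤ) => X i ω := measurable_pi_lambda _ fun i => X_meas i
  conv_rhs => rw [← h.map_eq, Measure.map_map hm h.measurable]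
  congr 1
  ext1 ω
  ext1 i
  simp only [Function.comp, X, C_add, add_assoc]
  rfl

noncomputable def tau (n : ℤ) (e : E) (ω : Om) : Om :=
  (Pi.single (n + 1) e + ω.1, ω.2 + (C n ω.1 - C n (Pi.single (n + 1) e + ω.1)))

lemma tau_mp (n : ℤ) (e : E) : MeasurePreserving (tau n e) mu mu :=
  skew (measurePreserving_add_left eta (Pi.single (n + 1) e))
    ((C_meas n).sub ((C_meas n).comp (measurable_const_add _)))

lemma C_diff (n : ℤ) (ξ ξ' : Xi) (h : ∀ j ≤ n, ξ' j = ξ j) (m : ℤ) (hm : m ≤ n) :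
    C n ξ - C n ξ' + C m ξ' = C m ξ := by
  induction m, hm using Int.leInductionDown with
  | base => abel
  | pred k hk ih =>
    have h1 := C_succ (k - 1) ξ
    have h2 := C_succ (k - 1) ξ'
    have h3 : incr ξ' (k - 1) = incr ξ (k - 1) := by
      simp only [incr, h (k - 1) (by omega), h (k - 1 + 1) (by omega)]
    rw [sub_add_cancel] at h1 h2
    rw [h1, h2, h3, ← add_assoc] at ih
    exact add_right_cancel ih

lemma X_tau (n : ℤ) (e : E) (m : ℤ) (hm : m ≤ n) (ω : Om) : X m (tau n e ω) = X m ω := by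
  have h : ∀ j ≤ n, (Pi.single (n + 1) e + ω.1 : Xi) j = ω.1 j := by
    intro j hj
    simp [Pi.single_eq_of_ne (show j ≠ n + 1 by omega)]
  simp only [X, tau, add_assoc, C_diff n _ _ h m hm, h m hm]

lemma key (n : ℤ) {H : Om → ℝ} (Hm : Measurable H) (Hb : ∀ ω, |H ω| ≤ 1)
    (Hi : ∀ e ω, H (tau n e ω) = H ω) {h : S → ℝ} (hm : Measurable h) (hb : ∀ x, |h x| ≤ 1) :
    ∫ ω, H ω * h (X (n + 1) ω) ∂mu = ∫ ω, H ω * Pop h (X n ω) ∂mu := by
  have h1 : ∀ e, ∫ ω, H ω * h (X (n + 1) ω) ∂mu
      = ∫ ω, H ω * h (F (X n ω) (ω.1 (n + 1) + e)) ∂mu := by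
    intro e
    have hf : Measurable fun ω => H ω * h (X (n + 1) ω) := Hm.mul (hm.comp (X_meas _))
    have h2 := integral_map (μ := mu) (tau_mp n e).measurable.aemeasurable
      hf.aestronglyMeasurable
    rw [(tau_mp n e).map_eq] at h2
    rw [h2]
    refine integral_congr_ae (Eventually.of_forall fun ω => ?_)
    simp only [Hi, X_succ, X_tau n e n le_rfl]
    simp [tau, add_comm]
  have h0 : Measurable fun p : E × Om => ((X n p.2, p.2.1 (n + 1) + p.1) : S × E) :=
    ((X_meas n).comp measurable_snd).prodMk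
      (((measurable_pi_apply (n + 1)).comp measurable_snd.fst).add measurable_fst)
  have h3 : Measurable fun p : E × Om => H p.2 * h (F (X n p.2) (p.2.1 (n + 1) + p.1)) :=
    (Hm.comp measurable_snd).mul (hm.comp (F_meas.comp h0))
  have h4 : Integrable (fun p : E × Om => H p.2 * h (F (X n p.2) (p.2.1 (n + 1) + p.1)))
      (rho.prod mu) := intg h3 1 fun p => by
    rw [abs_mul]
    exact mul_le_one₀ (Hb _) (abs_nonneg _) (hb _)
  have h5 : ∫ ω, H ω * h (X (n + 1) ω) ∂mu
      = ∫ e, ∫ ω, H ω * h (F (X n ω) (ω.1 (n + 1) + e)) ∂mu ∂rho := by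
    simp only [← h1]
    simp
  rw [h5, integral_integral_swap h4]
  refine integral_congr_ae (Eventually.of_forall fun ω => ?_)
  beta_reduce
  rw [integral_const_mul, integral_add_left_eq_self (fun e => h (F (X n ω) e))]
  rfl

lemma ind_meas {α : Type*} [MeasurableSpace α] {A : Set α} (hA : MeasurableSet A) :
    Measurable (A.indicator fun _ => (1 : ℝ)) := measurable_const.indicator hA

lemma ind_abs {α : Type*} (A : Set α) (x : α) : |A.indicator (fun _ => (1 : ℝ)) x| ≤ 1 := by
  by_cases h : x ∈ A <;> simp [h]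

lemma markov (n : ℤ) (A : Set S) (hA : MeasurableSet A) (m' : MeasurableSpace Om)
    (h1 : MeasurableSpace.comap (X n) inferInstance ≤ m')
    (h2 : ∀ e, m' ≤ @MeasurableSpace.invariants Om Prod.instMeasurableSpace (tau n e)) :
    (fun ω => Pop (A.indicator fun _ => (1 : ℝ)) (X n ω)) =ᵐ[mu]
      condExp m' mu (Set.indicator (X (n + 1) ⁻¹' A) (fun _ => (1 : ℝ))) := by
  have hle : m' ≤ Prod.instMeasurableSpace :=
    (h2 0).trans (@MeasurableSpace.invariants_le Om Prod.instMeasurableSpace _)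
  have gi : Integrable (fun ω => Pop (A.indicator fun _ => (1 : ℝ)) (X n ω)) mu :=
    @intg Om Prod.instMeasurableSpace _ _ _ ((Pop_meas (ind_meas hA)).comp (X_meas n)) 1
      fun ω => Pop_abs (ind_abs A) _
  refine ae_eq_condExp_of_forall_setIntegral_eq hle ?_ (fun s _ _ => gi.integrableOn) ?_ ?_
  · exact @intg Om Prod.instMeasurableSpace _ _ _
      (@ind_meas Om Prod.instMeasurableSpace _ (X_meas (n + 1) hA)) 1 (ind_abs _)
  · intro s hs _
    have hs0 := hle s hs
    have := key n (@ind_meas Om Prod.instMeasurableSpace _ hs0) (ind_abs s) (fun e ω => by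
      have h3 : tau n e ⁻¹' s = s := (h2 e s hs).2
      have h4 : tau n e ω ∈ s ↔ ω ∈ s := by rw [← Set.mem_preimage, h3]
      by_cases h5 : ω ∈ s <;> simp [h4, h5]) (ind_meas hA) (ind_abs A)
    rw [← integral_indicator hs0, ← integral_indicator hs0]
    convert this.symm using 2 <;> ext ω <;> by_cases h5 : ω ∈ s <;> simp [h5]
    rfl
  · refine (Measurable.stronglyMeasurable ?_).aestronglyMeasurable
    exact (Pop_meas (ind_meas hA)).comp (Measurable.of_comap_le h1)

lemma inv_le (n : ℤ) (e : E) (m : ℤ) (hm : m ≤ n) :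
    MeasurableSpace.comap (X m) inferInstance ≤ MeasurableSpace.invariants (tau n e) := by
  rintro s ⟨t, ht, rfl⟩
  refine ⟨X_meas m ht, ?_⟩
  ext ω
  simp [X_tau n e m hm]

lemma indep : IndepFun (X 0) (X 2) mu := by
  have h1 : ∀ s t : Set S, MeasurableSet s → MeasurableSet t →
      mu.real (X 0 ⁻¹' s ∩ X 2 ⁻¹' t) = mu.real (X 0 ⁻¹' s) *
        ∫ w, (∑ y, t.indicator (fun _ => (1 : ℝ)) (w, y)) / 49 ∂nu := by
    intro s t hs ht
    have a1 := key 1 (ind_meas (X_meas 0 hs)) (ind_abs _) (fun e ω => by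
      change s.indicator (fun _ => (1 : ℝ)) (X 0 _) = s.indicator (fun _ => (1 : ℝ)) (X 0 _)
      rw [X_tau 1 e 0 (by norm_num)])
      (ind_meas ht) (ind_abs t)
    have a0 := key 0 (ind_meas (X_meas 0 hs)) (ind_abs _) (fun e ω => by
      change s.indicator (fun _ => (1 : ℝ)) (X 0 _) = s.indicator (fun _ => (1 : ℝ)) (X 0 _)
      rw [X_tau 0 e 0 le_rfl])
      (Pop_meas (ind_meas ht)) (Pop_abs (ind_abs t))
    simp only [PP (ind_meas ht) (ind_abs t), zero_add] at a0
    rw [a0, integral_mul_const] at a1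
    rw [← integral_indicator_one ((X_meas 0 hs).inter (X_meas 2 ht)),
      ← integral_indicator_one (X_meas 0 hs)]
    refine Eq.trans (integral_congr_ae (Eventually.of_forall fun ω => ?_)) a1
    by_cases b1 : X 0 ω ∈ s <;> by_cases b2 : X 2 ω ∈ t <;> simp [b1, b2]
  rw [indepFun_iff_measure_inter_preimage_eq_mul]
  intro s t hs ht
  have h2 := h1 Set.univ t MeasurableSet.univ ht
  simp only [Set.preimage_univ, Set.univ_inter, probReal_univ, one_mul] at h2
  have h3 := h1 s t hs ht
  rw [← h2] at h3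
  simp only [Measure.real, ← ENNReal.toReal_mul] at h3
  exact (ENNReal.toReal_eq_toReal_iff' (measure_ne_top _ _)
    (ENNReal.mul_ne_top (measure_ne_top _ _) (measure_ne_top _ _))).1 h3

lemma col_ne (ω : Om) : (X 0 ω).2 ≠ (X 1 ω).2 := by
  have := X_succ 0 ω
  rw [zero_add] at this
  rw [this]
  simp only [F]
  intro h
  exact D_ne _ _ (left_eq_add.1 h)

end H96.FD
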