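import Pool.Agent.H96.FD4

set_option autoImplicit false
open MeasureTheory Filter Topology ProbabilityTheory

namespace H96.FD

lemma gam_int (φ : G → ℝ) : ∫ w, φ w ∂gam = (∑ w, φ w) / 49 := by
  have h1 : ∀ a, ∫ w, φ (a + w) ∂gam = ∫ w, φ w ∂gam := fun a => integral_add_left_eq_self φ a
  have h2 : ∑ a, ∫ w, φ (a + w) ∂gam = ∫ w, ∑ a, φ (a + w) ∂gam :=
    (integral_finsetSum _ fun a _ => Integrable.of_finite).symm
  have h3 : ∀ w, ∑ a, φ (a + w) = ∑ a, φ a := fun w =>
    Fintype.sum_equiv (Equiv.addRight w) _ _ fun _ => rfl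
  simp only [h1, h3, Finset.sum_const, Finset.card_univ, integral_const, probReal_univ,
    smul_eq_mul, one_mul, nsmul_eq_mul] at h2
  have : (Fintype.card G : ℝ) = 49 := by simp [G]
  rw [this] at h2
  rw [← h2]; ring

noncomputable def piS : Measure S := nu.prod gam

instance : IsProbabilityMeasure piS := by unfold piS; infer_instance

noncomputable def pd (x y : S) : ℝ := 49 / 42 * (cf (fun l => M l x.1 y.1) (y.2 - x.2) : ℝ)

lemma pd_meas : Measurable fun q : S × S => pd q.1 q.2 := by
  have h1 : Measurable fun a : (Fin 8 → ℤ) × G => (cf a.1 a.2 : ℝ) := measurable_of_countable _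
  have h2 : Measurable fun q : S × S => fun l => M l q.1.1 q.2.1 :=
    measurable_pi_lambda _ fun l =>
      (M_meas l).comp (measurable_fst.fst.prodMk measurable_snd.fst)
  have h3 : Measurable fun q : S × S =>
      ((fun l => M l q.1.1 q.2.1, q.2.2 - q.1.2) : (Fin 8 → ℤ) × G) :=
    h2.prodMk (measurable_snd.snd.sub measurable_fst.snd)
  exact (h1.comp h3).const_mul _

lemma pd_abs (x y : S) : |pd x y| ≤ 11 := by
  unfold pd
  rw [abs_mul]
  have := cf_abs (fun l => M l x.1 y.1) (fun l => M_abs l _ _) (y.2 - x.2)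
  have h2 : |(49 / 42 : ℝ)| = 49 / 42 := abs_of_pos (by norm_num)
  rw [h2]; linarith

lemma cf_zero {u v : T} (h : u ≠ v) : cf (fun l => M l u v) 0 = 0 := by
  unfold cf
  simp [lam_zero, M_sum h]

lemma pd_nonneg (x y : S) : 0 ≤ pd x y := by
  unfold pd
  refine mul_nonneg (by norm_num) ?_
  have : 0 ≤ cf (fun l => M l x.1 y.1) (y.2 - x.2) := by
    by_cases h : x.1 = y.1
    · have : ∀ l, M l y.1 y.1 = 0 := fun l => by
        unfold M
        simp [B_self]
      unfold cf
      simp [h, this]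
    by_cases hd : y.2 - x.2 = 0
    · rw [hd, cf_zero h]
    obtain ⟨l0, hl⟩ := lam_one _ hd
    unfold cf
    simp [hl, (abs_le.1 (M_abs l0 x.1 y.1)).2]
  exact_mod_cast this

lemma pd_meas1 (x : S) : Measurable fun y => pd x y :=
  pd_meas.comp (measurable_const.prodMk measurable_id)

lemma pd_meas2 (z : S) : Measurable fun y => pd y z :=
  pd_meas.comp (measurable_id.prodMk measurable_const)

lemma pd_int (x : S) : ∫ y, pd x y ∂piS = 1 := by
  unfold piS
  rw [integral_prod _ (intg (pd_meas1 x) 11 (pd_abs x))]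
  have : ∀ᵐ v ∂nu, ∫ g, pd x (v, g) ∂gam = 1 := by
    filter_upwards [ae_ne x.1] with v hv
    rw [gam_int]
    simp only [pd, ← Finset.mul_sum]
    rw [Fintype.sum_equiv (Equiv.subRight x.2) (fun g => (cf (fun l => M l x.1 v) (g - x.2) : ℝ))
      (fun d => (cf (fun l => M l x.1 v) d : ℝ)) fun _ => rfl]
    have h := cf_sum _ (M_sum hv)
    have h2 : ∑ d, (cf (fun l => M l x.1 v) d : ℝ) = 42 := by exact_mod_cast h
    rw [h2]; norm_num
  rw [integral_congr_ae this]; simp

lemma pp_abs (x y z : S) : |pd x y * pd y z| ≤ 11 * 11 := by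
  rw [abs_mul]
  exact mul_le_mul (pd_abs _ _) (pd_abs _ _) (abs_nonneg _) (by norm_num)

lemma pd_conv (x z : S) : ∫ y, pd x y * pd y z ∂piS = 1 := by
  unfold piS
  have h0 : Measurable fun y => pd x y * pd y z := (pd_meas1 x).mul (pd_meas2 z)
  rw [integral_prod _ (intg h0 _ fun y => pp_abs x y z)]
  have : ∀ v, ∫ g, pd x (v, g) * pd (v, g) z ∂gam = (∑ d, (cf (fun l => M l x.1 v) d : ℝ) *
      cf (fun l => M l v z.1) (z.2 - x.2 - d)) / 36 := by
    intro v
    rw [gam_int]
    rw [← Fintype.sum_equiv (Equiv.subRight x.2) (fun g => (cf (fun l => M l x.1 v) (g - x.2) : ℝ) *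
      cf (fun l => M l v z.1) (z.2 - g)) (fun d => (cf (fun l => M l x.1 v) d : ℝ) *
      cf (fun l => M l v z.1) (z.2 - x.2 - d)) fun g => by simp]
    rw [Finset.sum_div, Finset.sum_div]
    refine Finset.sum_congr rfl fun g _ => ?_
    simp only [pd]
    ring
  simp only [this]
  rw [integral_div, conv_int]; norm_num

attribute [irreducible] pd

noncomputable def Pq (h : S → ℝ) (x : S) : ℝ := ∫ y, pd x y * h y ∂piS

lemma Pq_meas {h : S → ℝ} (hm : Measurable h) : Measurable (Pq h) :=
  ((pd_meas.mul (hm.comp measurable_snd)).stronglyMeasurable.integral_prod_right'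
    (ν := piS)).measurable

lemma abs_mul_le {a b A B : ℝ} (h1 : |a| ≤ A) (h2 : |b| ≤ B) : |a * b| ≤ A * B := by
  rw [abs_mul]
  exact mul_le_mul h1 h2 (abs_nonneg _) ((abs_nonneg _).trans h1)

lemma Pq_abs {h : S → ℝ} (hb : ∀ x, |h x| ≤ 1) (x : S) : |Pq h x| ≤ 1 := by
  rw [← pd_int x, ← Real.norm_eq_abs]
  refine norm_integral_le_of_norm_le (intg (pd_meas1 x) 11 (pd_abs x))
    (Eventually.of_forall fun y => ?_)
  rw [Real.norm_eq_abs, abs_mul, abs_of_nonneg (pd_nonneg _ _)]
  exact mul_le_of_le_one_right (pd_nonneg _ _) (hb y)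

lemma PqPq {h : S → ℝ} (hm : Measurable h) (hb : ∀ x, |h x| ≤ 1) (x : S) :
    Pq (Pq h) x = ∫ z, h z ∂piS := by
  unfold Pq
  simp only [← integral_const_mul]
  have h0 : Measurable fun q : S × S => pd x q.1 * (pd q.1 q.2 * h q.2) :=
    ((pd_meas1 x).comp measurable_fst).mul (pd_meas.mul (hm.comp measurable_snd))
  have h1 : Integrable (fun q : S × S => pd x q.1 * (pd q.1 q.2 * h q.2)) (piS.prod piS) :=
    intg h0 _ fun q => abs_mul_le (pd_abs _ _) (abs_mul_le (pd_abs _ _) (hb _))
  rw [integral_integral_swap (f := fun y z => pd x y * (pd y z * h z)) h1]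
  refine integral_congr_ae (Eventually.of_forall fun z => ?_)
  simp only [← mul_assoc]
  rw [integral_mul_const, pd_conv, one_mul]

lemma Pq_col (x : S) : Pq ({y : S | y.2 = x.2}.indicator fun _ => (1 : ℝ)) x = 0 := by
  unfold Pq
  refine integral_eq_zero_of_ae ?_
  have h1 : ∀ᵐ y ∂piS, x.1 ≠ y.1 :=
    (measurePreserving_fst (μ := nu) (ν := gam)).quasiMeasurePreserving.ae (ae_ne x.1)
  filter_upwards [h1] with y hy
  by_cases h : y.2 = x.2
  · unfold pd
    simp [h, cf_zero hy]
  · simp [h]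

abbrev Ξ : Type := S × unitInterval

noncomputable def rx : Measure Ξ := piS.prod volume

instance : IsProbabilityMeasure rx := by unfold rx; infer_instance

lemma ex_bridge : ∃ Br : S → Ξ → S, Measurable (fun q : S × Ξ => Br q.1 q.2) ∧
    ∀ (x : S) (φ : S × S → ℝ), Measurable φ → (∀ q, |φ q| ≤ 1) →
      ∫ e, φ (Br x e, e.1) ∂rx = ∫ y, pd x y * ∫ z, pd y z * φ (y, z) ∂piS ∂piS := by
  let f : S × S → S → NNReal := fun q y => (pd q.1 y * pd y q.2).toNNReal
  have hf : Measurable (Function.uncurry f) :=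
    ((pd_meas.comp (measurable_fst.fst.prodMk measurable_snd)).mul
      (pd_meas.comp (measurable_snd.prodMk measurable_fst.snd))).real_toNNReal
  have hf' : Measurable (Function.uncurry fun q y => (f q y : ENNReal)) :=
    measurable_coe_nnreal_ennreal.comp hf
  let κ : Kernel (S × S) S := (Kernel.const (S × S) piS).withDensity fun q y => (f q y : ENNReal)
  have hκ : IsMarkovKernel κ := ⟨fun q => ⟨by
    rw [Kernel.withDensity_apply' _ hf', Measure.restrict_univ, Kernel.const_apply]
    have := ofReal_integral_eq_lintegral_ofReal (μ := piS) (f := fun y => pd q.1 y * pd y q.2)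
      (intg ((pd_meas1 _).mul (pd_meas2 _)) _ fun y => pp_abs _ y _)
      (Eventually.of_forall fun y => mul_nonneg (pd_nonneg _ _) (pd_nonneg _ _))
    rw [pd_conv, ENNReal.ofReal_one] at this
    exact this.symm⟩⟩
  obtain ⟨g, hg, hgκ⟩ := κ.exists_measurable_map_eq_unitInterval
  refine ⟨fun x e => g (x, e.1) e.2, hg.comp
    ((measurable_fst.prodMk measurable_snd.fst).prodMk measurable_snd.snd), ?_⟩
  intro x φ hφ hb
  unfold rx
  have h0 : Measurable fun e : Ξ => g (x, e.1) e.2 :=
    hg.comp ((measurable_const.prodMk measurable_fst).prodMk measurable_snd)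
  have h1 : Measurable fun e : Ξ => φ (g (x, e.1) e.2, e.1) := hφ.comp (h0.prodMk measurable_fst)
  rw [integral_prod _ (intg h1 1 fun _ => hb _)]
  have h2 : ∀ z, ∫ t, φ (g (x, z) t, z) = ∫ y, pd x y * (pd y z * φ (y, z)) ∂piS := by
    intro z
    have h3 : Measurable (g (x, z)) := hg.comp (measurable_const.prodMk measurable_id)
    have h4 : Measurable fun y => φ (y, z) := hφ.comp (measurable_id.prodMk measurable_const)
    rw [← integral_map (f := fun y => φ (y, z)) h3.aemeasurable h4.aestronglyMeasurable, hgκ,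
      Kernel.integral_withDensity hf, Kernel.const_apply]
    refine integral_congr_ae (Eventually.of_forall fun y => ?_)
    simp only [f, NNReal.smul_def, smul_eq_mul,
      Real.coe_toNNReal _ (mul_nonneg (pd_nonneg _ _) (pd_nonneg _ _)), mul_assoc]
  simp only [h2, ← integral_const_mul]
  have h5 : Measurable fun q : S × S => pd x q.1 * (pd q.1 q.2 * φ (q.1, q.2)) :=
    ((pd_meas1 x).comp measurable_fst).mul (pd_meas.mul hφ)
  have h6 : Integrable (fun q : S × S => pd x q.1 * (pd q.1 q.2 * φ (q.1, q.2))) (piS.prod piS) :=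
    intg h5 _ fun q => abs_mul_le (pd_abs _ _) (abs_mul_le (pd_abs _ _) (hb _))
  exact (integral_integral_swap (f := fun y z => pd x y * (pd y z * φ (y, z))) h6).symm

noncomputable def Br : S → Ξ → S := ex_bridge.choose

lemma Br_meas : Measurable (fun q : S × Ξ => Br q.1 q.2) := ex_bridge.choose_spec.1

lemma Br_one {h : S → ℝ} (hm : Measurable h) (hb : ∀ x, |h x| ≤ 1) (x : S) :
    ∫ e, h (Br x e) ∂rx = Pq h x := by
  have := ex_bridge.choose_spec.2 x (fun q => h q.1) (hm.comp measurable_fst) fun _ => hb _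
  simp only [integral_mul_const, pd_int, one_mul] at this
  exact this

lemma Br_two {H h : S → ℝ} (Hm : Measurable H) (Hb : ∀ x, |H x| ≤ 1)
    (hm : Measurable h) (hb : ∀ x, |h x| ≤ 1) (x : S) :
    ∫ e, H (Br x e) * h e.1 ∂rx = ∫ e, H (Br x e) * Pq h (Br x e) ∂rx := by
  have h1 := ex_bridge.choose_spec.2 x (fun q => H q.1 * h q.2)
    ((Hm.comp measurable_fst).mul (hm.comp measurable_snd)) fun _ => by
      simpa using abs_mul_le (Hb _) (hb _)
  have h2 := Br_one (h := fun y => H y * Pq h y) (Hm.mul (Pq_meas hm)) (fun _ => by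
      simpa using abs_mul_le (Hb _) (Pq_abs hb _)) x
  rw [h2]
  refine h1.trans (integral_congr_ae (Eventually.of_forall fun y => ?_))
  simp only [Pq, ← integral_const_mul]
  refine integral_congr_ae (Eventually.of_forall fun z => ?_)
  ring

attribute [irreducible] Br Pq

end H96.FD
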