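import Pool.Agent.H96.FD5

set_option autoImplicit false
open MeasureTheory Filter Topology ProbabilityTheory

namespace H96.FD

abbrev Y : Type := unitInterval × Ξ

noncomputable def ry : Measure Y := Measure.prod volume rx

instance : IsProbabilityMeasure ry := by unfold ry; infer_instance

variable {Λ : Type} [DecidableEq Λ]

noncomputable def muL (Λ : Type) : Measure (Λ → Y) := Measure.infinitePi fun _ => ry

instance : IsProbabilityMeasure (muL Λ) := by unfold muL; infer_instance

def rs (i : Λ) (y : Λ → Y) (e : Ξ) : Λ → Y := Function.update y i ((y i).1, e)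

lemma rs_meas (i : Λ) : Measurable fun q : (Λ → Y) × Ξ => rs i q.1 q.2 := by
  refine measurable_pi_lambda _ fun j => ?_
  by_cases h : j = i
  · subst h
    simp only [rs, Function.update_self]
    exact ((measurable_pi_apply j).comp measurable_fst).fst.prodMk measurable_snd
  · simp only [rs, Function.update_of_ne h]
    exact (measurable_pi_apply j).comp measurable_fst

lemma rs_mp (i : Λ) :
    MeasurePreserving (fun q : (Λ → Y) × Ξ => rs i q.1 q.2) ((muL Λ).prod rx) (muL Λ) := by
  refine ⟨rs_meas i, Measure.eq_infinitePi _ fun s t ht => ?_⟩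
  have hs : MeasurableSet ((s : Set Λ).pi t) := .pi s.countable_toSet fun _ _ => ht _
  rw [Measure.map_apply (rs_meas i) hs, Measure.prod_apply_symm (rs_meas i hs)]
  have hm : ∀ e : Ξ, MeasurableSet {a : Y | (a.1, e) ∈ t i} := fun e =>
    (measurable_fst.prodMk measurable_const) (ht i)
  have h1 : ∀ e : Ξ, (fun y : Λ → Y => (y, e)) ⁻¹' ((fun q : (Λ → Y) × Ξ => rs i q.1 q.2) ⁻¹'
      (s : Set Λ).pi t) = (s : Set Λ).pi (Function.update t i {a : Y | (a.1, e) ∈ t i}) := by
    intro e
    ext y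
    simp only [Set.mem_preimage, Set.mem_pi]
    refine forall₂_congr fun j _ => ?_
    by_cases h : j = i
    · subst h; simp [rs]
    · simp [rs, Function.update_of_ne h]
  have h2 : ∀ e : Ξ, muL Λ ((s : Set Λ).pi (Function.update t i {a : Y | (a.1, e) ∈ t i}))
      = ∏ j ∈ s, ry (Function.update t i {a : Y | (a.1, e) ∈ t i} j) := by
    intro e
    refine Measure.infinitePi_pi _ fun j _ => ?_
    by_cases h : j = i
    · subst h; simpa using hm e
    · simpa [Function.update_of_ne h] using ht j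
  simp only [h1, h2]
  by_cases hi : i ∈ s
  · simp only [← Finset.mul_prod_erase s _ hi, Function.update_self]
    have h3 : ∀ e : Ξ, ∏ j ∈ s.erase i, ry (Function.update t i {a : Y | (a.1, e) ∈ t i} j)
        = ∏ j ∈ s.erase i, ry (t j) := fun e =>
      Finset.prod_congr rfl fun j hj => by rw [Function.update_of_ne (Finset.ne_of_mem_erase hj)]
    have h4 : ∀ e : Ξ, ry {a : Y | (a.1, e) ∈ t i} = volume ((fun l => (l, e)) ⁻¹' t i) := by
      intro e
      have : {a : Y | (a.1, e) ∈ t i} = ((fun l => (l, e)) ⁻¹' t i) ×ˢ Set.univ := by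
        ext; simp
      rw [this, ry, Measure.prod_prod, measure_univ, mul_one]
    simp only [h3, h4]
    rw [lintegral_mul_const _ (measurable_measure_prodMk_right (ht i)), ry,
      Measure.prod_apply_symm (ht i)]
  · have h3 : ∀ e : Ξ, ∏ j ∈ s, ry (Function.update t i {a : Y | (a.1, e) ∈ t i} j)
        = ∏ j ∈ s, ry (t j) := fun e =>
      Finset.prod_congr rfl fun j hj => by
        rw [Function.update_of_ne (fun h => hi (by rw [← h]; exact hj))]
    simp [h3]

lemma rs_int (i : Λ) {Φ : (Λ → Y) → ℝ} (hm : Measurable Φ) (hb : ∀ y, |Φ y| ≤ 1) :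
    ∫ y, Φ y ∂muL Λ = ∫ y, ∫ e, Φ (rs i y e) ∂rx ∂muL Λ := by
  have h2 := integral_map (μ := (muL Λ).prod rx) (rs_meas i).aemeasurable hm.aestronglyMeasurable
  rw [(rs_mp i).map_eq] at h2
  have h3 : Measurable fun q : (Λ → Y) × Ξ => Φ (rs i q.1 q.2) := hm.comp (rs_meas i)
  rw [h2, integral_prod _ (intg h3 1 fun _ => hb _)]

variable (p : Λ ≃ Λ)

def Mk (y : Λ → Y) (i : Λ) : Prop := (y (p i)).1 < (y i).1 ∧ (y (p.symm i)).1 < (y i).1

noncomputable def Z (y : Λ → Y) : ℕ → Λ → S
  | 0, i => (y (p i)).2.1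
  | n + 1, i => Br (Z y n (p i)) (y i).2

noncomputable def dep (y : Λ → Y) (i : Λ) : ℕ := sInf {n | Mk p y (p^[n + 1] i)}

noncomputable def XX (y : Λ → Y) (i : Λ) : S := Z p y (dep p y i) i

omit [DecidableEq Λ] in
lemma XX_mk {y : Λ → Y} {i : Λ} (h : Mk p y (p i)) : XX p y i = (y (p i)).2.1 := by
  have : dep p y i = 0 := Nat.sInf_eq_zero.2 (Or.inl h)
  rw [XX, this]; rfl

omit [DecidableEq Λ] in
lemma XX_not {y : Λ → Y} {i : Λ} (h : ¬ Mk p y (p i)) (h2 : ∃ n, Mk p y (p^[n + 1] (p i))) :
    XX p y i = Br (XX p y (p i)) (y i).2 := by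
  have h3 : dep p y i = dep p y (p i) + 1 := by
    have h4 : Mk p y (p^[dep p y (p i) + 1] (p i)) := Nat.sInf_mem h2
    apply le_antisymm
    · exact Nat.sInf_le (s := {n | Mk p y (p^[n + 1] i)}) h4
    · have h5 : Mk p y (p^[dep p y i + 1] i) :=
        Nat.sInf_mem (s := {n | Mk p y (p^[n + 1] i)}) ⟨dep p y (p i) + 1, h4⟩
      rcases hd : dep p y i with _ | k
      · rw [hd] at h5; exact absurd h5 h
      · rw [hd] at h5
        exact Nat.succ_le_succ (Nat.sInf_le (s := {n | Mk p y (p^[n + 1] (p i))}) h5)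
  rw [XX, h3]; rfl

omit [DecidableEq Λ] in
lemma Z_congr {y y' : Λ → Y} (n : ℕ) : ∀ i, (∀ t ≤ n + 1, (y' (p^[t] i)).2 = (y (p^[t] i)).2) →
    Z p y' n i = Z p y n i := by
  induction n with
  | zero => intro i h; exact congrArg Prod.fst (h 1 le_rfl)
  | succ n ih =>
    intro i h
    have h0 : (y' i).2 = (y i).2 := h 0 (by omega)
    simp only [Z, h0]
    rw [ih (p i) fun t ht => h (t + 1) (by omega)]

lemma rs_fst (i : Λ) (y : Λ → Y) (e : Ξ) (j : Λ) : (rs i y e j).1 = (y j).1 := by
  by_cases h : j = i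
  · subst h; simp [rs]
  · simp [rs, Function.update_of_ne h]

lemma Mk_rs (i : Λ) (y : Λ → Y) (e : Ξ) (j : Λ) : Mk p (rs i y e) j ↔ Mk p y j := by
  simp only [Mk, rs_fst]

lemma XX_rs (i : Λ) (y : Λ → Y) (e : Ξ) {j : Λ} (h : ∀ t, p^[t] j ≠ i) :
    XX p (rs i y e) j = XX p y j := by
  have : dep p (rs i y e) j = dep p y j := by simp only [dep, Mk_rs]
  rw [XX, XX, this]
  exact Z_congr p _ _ fun t _ => by simp [rs, Function.update_of_ne (h t)]

omit [DecidableEq Λ] in
lemma Mk_meas (i : Λ) : MeasurableSet {y | Mk p y i} := by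
  have h : ∀ j, Measurable fun y : Λ → Y => (y j).1 := fun j => (measurable_pi_apply j).fst
  have h1 := measurableSet_lt (h (p i)) (h i)
  have h2 := measurableSet_lt (h (p.symm i)) (h i)
  exact h1.inter h2

omit [DecidableEq Λ] in
lemma Z_meas (n : ℕ) : ∀ i, Measurable fun y => Z p y n i := by
  induction n with
  | zero => intro i; exact (measurable_pi_apply (p i)).snd.fst
  | succ n ih =>
    intro i
    have h0 : Measurable fun y : Λ → Y => ((Z p y n (p i), (y i).2) : S × Ξ) :=
      (ih (p i)).prodMk (measurable_pi_apply i).snd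
    exact Br_meas.comp h0

omit [DecidableEq Λ] in
lemma XX_meas (i : Λ) : Measurable fun y => XX p y i := by
  have h2 : Measurable fun y => dep p y i := by
    refine measurable_to_countable' fun k => ?_
    have : (fun y => dep p y i) ⁻¹' {k} = ({y | Mk p y (p^[k + 1] i)} ∩
        ⋂ m, ⋂ (_ : m < k), {y | Mk p y (p^[m + 1] i)}ᶜ) ∪
        ({_y | k = 0} ∩ ⋂ m, {y | Mk p y (p^[m + 1] i)}ᶜ) := by
      ext y
      simp only [Set.mem_preimage, Set.mem_singleton_iff, Set.mem_union, Set.mem_inter_iff,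
        Set.mem_ofPred_eq, Set.mem_iInter, Set.mem_compl_iff]
      by_cases hne : {n | Mk p y (p^[n + 1] i)}.Nonempty
      · have h4 : Mk p y (p^[dep p y i + 1] i) := Nat.sInf_mem hne
        constructor
        · rintro rfl
          exact Or.inl ⟨h4, fun m hm hc =>
            absurd (Nat.sInf_le (s := {n | Mk p y (p^[n + 1] i)}) hc) (not_le.2 hm)⟩
        · rintro (⟨a, b⟩ | ⟨-, b⟩)
          · apply le_antisymm (Nat.sInf_le (s := {n | Mk p y (p^[n + 1] i)}) a)
            by_contra hc
            exact b _ (not_le.1 hc) h4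
          · exact absurd h4 (b _)
      · have h4 : dep p y i = 0 := Nat.sInf_eq_zero.2 (Or.inr (Set.not_nonempty_iff_eq_empty.1 hne))
        rw [h4]
        constructor
        · rintro rfl
          exact Or.inr ⟨rfl, fun m hm => hne ⟨m, hm⟩⟩
        · rintro (⟨a, -⟩ | ⟨a, -⟩)
          · exact absurd ⟨k, a⟩ hne
          · exact a.symm
    rw [this]
    exact ((Mk_meas p _).inter (.iInter fun m => .iInter fun _ => (Mk_meas p _).compl)).union
      ((MeasurableSet.const _).inter (.iInter fun m => (Mk_meas p _).compl))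
  have h3 : Measurable fun q : (Λ → Y) × ℕ => Z p q.1 q.2 i :=
    measurable_from_prod_countable_left fun n => Z_meas p n i
  exact h3.comp (measurable_id.prodMk h2)

end H96.FD
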