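import Pool.Agent.H96.FD6

set_option autoImplicit false
open MeasureTheory Filter Topology ProbabilityTheory

namespace H96.FD

variable {Λ : Type}

lemma reidx {α : Type} {q : α → Λ} (hq : Function.Injective q) :
    MeasurePreserving (fun (y : Λ → Y) i => y (q i)) (muL Λ) (muL α) :=
  ⟨measurable_pi_lambda _ fun _ => measurable_pi_apply _,
    Measure.map_infinitePi_infinitePi_of_inj (P := fun _ => ry) hq⟩

lemma mono_bound {n : ℕ} {q : Fin n → Λ} (hq : Function.Injective q) :
    muL Λ {y | StrictMono fun k => (y (q k)).1} ≤ (n.factorial : ENNReal)⁻¹ := by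
  let E : Set (Fin n → Y) := {z | StrictMono fun k => (z k).1}
  have h : ∀ j, Measurable fun y : Fin n → Y => (y j).1 := fun j => (measurable_pi_apply j).fst
  have hE : MeasurableSet E := by
    have : E = ⋂ a, ⋂ b, ⋂ (_ : a < b), {z : Fin n → Y | (z a).1 < (z b).1} := by
      ext z; simp [E, StrictMono]
    rw [this]
    exact .iInter fun a => .iInter fun b => .iInter fun _ => measurableSet_lt (h a) (h b)
  have h1 : muL Λ {y | StrictMono fun k => (y (q k)).1} = muL (Fin n) E :=
    (reidx hq).measure_preimage hE.nullMeasurableSet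
  rw [h1]
  have h2 : ∀ σ : Equiv.Perm (Fin n),
      muL (Fin n) ((fun (y : Fin n → Y) i => y (σ i)) ⁻¹' E) = muL (Fin n) E := fun σ =>
    (reidx σ.injective).measure_preimage hE.nullMeasurableSet
  have h3 : Pairwise (Function.onFun Disjoint
      fun σ : Equiv.Perm (Fin n) => (fun (y : Fin n → Y) i => y (σ i)) ⁻¹' E) := by
    intro σ τ hne
    refine Set.disjoint_left.2 fun z a b => hne ?_
    have a' : StrictMono ((fun k => (z k).1) ∘ σ) := a
    have b' : StrictMono ((fun k => (z k).1) ∘ τ) := b
    have c : (fun k => (z k).1) ∘ σ = (fun k => (z k).1) ∘ τ := by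
      rw [← a'.range_inj b', σ.surjective.range_comp, τ.surjective.range_comp]
    have d : Function.Injective fun k => (z k).1 :=
      Function.Injective.of_comp_right a'.injective σ.surjective
    ext k
    exact congrArg _ (d (congrFun c k))
  have h4 := measure_iUnion (μ := muL (Fin n)) h3
    fun σ => (reidx σ.injective).measurable hE
  simp only [h2, tsum_fintype, Finset.sum_const, Finset.card_univ, Fintype.card_perm,
    Fintype.card_fin, nsmul_eq_mul] at h4
  rw [ENNReal.le_inv_iff_mul_le, mul_comm, ← h4]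
  exact prob_le_one

lemma no_tie {i j : Λ} (h : i ≠ j) : ∀ᵐ y ∂muL Λ, (y i).1 ≠ (y j).1 := by
  have h1 : MeasurePreserving (fun y : Λ → Y => (y i, y j)) (muL Λ) (ry.prod ry) :=
    ⟨(measurable_pi_apply i).prodMk (measurable_pi_apply j),
      Measure.infinitePi_map_eval_prod (P := fun _ => ry) h⟩
  refine h1.quasiMeasurePreserving.ae (p := fun q : Y × Y => q.1.1 ≠ q.2.1) ?_
  have h2 : MeasurableSet {q : Y × Y | q.1.1 ≠ q.2.1} :=
    (measurableSet_eq_fun measurable_fst.fst measurable_snd.fst).compl
  rw [Measure.ae_prod_iff_ae_ae h2]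
  refine Eventually.of_forall fun a => ?_
  refine (measurePreserving_fst (μ := volume) (ν := rx)).quasiMeasurePreserving.ae
    (p := fun l : unitInterval => a.1 ≠ l) ?_
  rw [ae_iff]
  simp

variable (p : Λ ≃ Λ) (φ : Λ → ℤ) (hφ : ∀ i, φ (p i) = φ i - 1)
include hφ

lemma phi_it (t : ℕ) (i : Λ) : φ (p^[t] i) = φ i - t := by
  induction t with
  | zero => simp
  | succ t ih => rw [Function.iterate_succ_apply', hφ, ih]; push_cast; ring

lemma it_inj (i : Λ) : Function.Injective fun t : ℕ => p^[t] i := by
  intro a b h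
  have := congrArg φ h
  simp only [phi_it p φ hφ] at this
  omega

lemma tail (i : Λ) (m : ℕ) :
    muL Λ {y | ∀ n, n + 1 < 2 * m → ¬ Mk p y (p^[n + 1] i)}
      ≤ 2 * ((m + 1).factorial : ENNReal)⁻¹ := by
  have h1 : Function.Injective fun k : Fin (m + 1) => p^[m + k] i := by
    intro a b h
    have := it_inj p φ hφ i h
    ext; omega
  have h2 : Function.Injective fun k : Fin (m + 1) => p^[m - k] i := by
    intro a b h
    have := it_inj p φ hφ i h
    ext; omega
  have h3 : ∀ᵐ y ∂muL Λ, ∀ t : ℕ, (y (p^[t] i)).1 ≠ (y (p^[t + 1] i)).1 :=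
    ae_all_iff.2 fun t => no_tie fun h => by
      have := it_inj p φ hφ i h
      omega
  refine (measure_mono_ae (t := {y | StrictMono fun k : Fin (m + 1) => (y (p^[m + k] i)).1} ∪
    {y | StrictMono fun k : Fin (m + 1) => (y (p^[m - k] i)).1}) ?_).trans ?_
  · filter_upwards [h3] with y hy hn
    by_cases hc : ∃ t, m ≤ t ∧ t < 2 * m ∧ (y (p^[t + 1] i)).1 < (y (p^[t] i)).1
    · right
      obtain ⟨t, t1, t2, t3⟩ := hc
      have h4 : ∀ s ≤ t, (y (p^[s + 1] i)).1 < (y (p^[s] i)).1 := by
        intro s hs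
        induction hs using Nat.decreasingInduction with
        | self => exact t3
        | of_succ k hk ih =>
          have h5 := hn k (by omega)
          simp only [Mk, not_and, not_lt] at h5
          rw [← Function.iterate_succ_apply' p (k + 1)] at h5
          have h6 := h5 ih
          rw [Function.iterate_succ_apply' p k, Equiv.symm_apply_apply,
            ← Function.iterate_succ_apply' p k] at h6
          exact lt_of_le_of_ne h6 (hy k).symm
      refine Fin.strictMono_iff_lt_succ.2 fun k => ?_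
      have := h4 (m - (k + 1)) (by omega)
      rw [show m - (k + 1) + 1 = m - k by omega] at this
      simpa using this
    · left
      push Not at hc
      refine Fin.strictMono_iff_lt_succ.2 fun k => ?_
      have := lt_of_le_of_ne (hc (m + k) (by omega) (by omega)) (hy _)
      simpa [add_assoc] using this
  · refine (measure_union_le _ _).trans ?_
    rw [two_mul]
    exact add_le_add (mono_bound h1) (mono_bound h2)

lemma ae_mk (i : Λ) : ∀ᵐ y ∂muL Λ, ∃ n, Mk p y (p^[n + 1] i) := by
  rw [ae_iff]
  have h1 : Tendsto (fun m : ℕ => 2 * ((m + 1).factorial : ENNReal)⁻¹) atTop (𝓝 (2 * 0)) := by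
    refine ENNReal.Tendsto.const_mul ?_ (Or.inr (by simp))
    exact ENNReal.tendsto_inv_nat_nhds_zero.comp
      (tendsto_atTop_mono (fun m => (Nat.le_succ m).trans (Nat.self_le_factorial _)) tendsto_id)
  rw [mul_zero] at h1
  refine le_antisymm (ge_of_tendsto' h1 fun m => le_trans (measure_mono ?_) (tail p φ hφ i m))
    zero_le
  intro y hy n _ hn
  exact hy ⟨n, hn⟩

variable [DecidableEq Λ]

lemma keyL (i : Λ) {H : (Λ → S) → ℝ} (Hm : Measurable H) (Hb : ∀ x, |H x| ≤ 1)
    (Hd : ∀ x x' : Λ → S, (∀ j, (∀ t, p^[t] j ≠ i) → x j = x' j) → H x = H x')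
    {h : S → ℝ} (hm : Measurable h) (hb : ∀ x, |h x| ≤ 1) :
    ∫ y, H (XX p y) * h (XX p y i) ∂muL Λ = ∫ y, H (XX p y) * Pq h (XX p y (p i)) ∂muL Λ := by
  have Xm : Measurable (XX p : (Λ → Y) → Λ → S) := measurable_pi_lambda _ fun j => XX_meas p j
  have free : ∀ j t, p^[t] (p j) ≠ j := by
    intro j t hc
    have := congrArg φ hc
    rw [phi_it p φ hφ, hφ] at this
    omega
  let A : Set (Λ → Y) := {y | Mk p y (p i)}
  have hA : MeasurableSet A := Mk_meas p _
  have sp : ∀ Φ : (Λ → Y) → ℝ, Measurable Φ → (∀ y, |Φ y| ≤ 1) → ∫ y, Φ y ∂muL Λ =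
      ∫ y, ∫ e, A.indicator Φ (rs (p i) y e) ∂rx ∂muL Λ +
        ∫ y, ∫ e, Aᶜ.indicator Φ (rs i y e) ∂rx ∂muL Λ := by
    intro Φ hΦ hΦb
    have hi : ∀ B : Set (Λ → Y), ∀ y, |B.indicator Φ y| ≤ 1 := by
      intro B y
      by_cases hy : y ∈ B
      · simpa [hy] using hΦb y
      · simp [hy]
    rw [← rs_int _ (hΦ.indicator hA) (hi _), ← rs_int _ (hΦ.indicator hA.compl) (hi _),
      integral_indicator hA, integral_indicator hA.compl,
      integral_add_compl hA (intg hΦ 1 hΦb)]
  have m1 : Measurable fun y => H (XX p y) * h (XX p y i) :=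
    (Hm.comp Xm).mul (hm.comp (XX_meas p i))
  have m2 : Measurable fun y => H (XX p y) * Pq h (XX p y (p i)) :=
    (Hm.comp Xm).mul ((Pq_meas hm).comp (XX_meas p _))
  rw [sp _ m1 fun y => by simpa using abs_mul_le (Hb _) (hb _),
    sp _ m2 fun y => by simpa using abs_mul_le (Hb _) (Pq_abs hb _)]
  congr 1
  · refine integral_congr_ae ?_
    filter_upwards [ae_mk p φ hφ (p (p i))] with y hy
    by_cases hA' : Mk p y (p i)
    swap
    · have : ∀ e, rs (p i) y e ∉ A := fun e => by simpa only [A, Set.mem_ofPred_eq, Mk_rs] using hA'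
      simp [this]
    have hin : ∀ e, rs (p i) y e ∈ A := fun e => by
      simpa only [A, Set.mem_ofPred_eq, Mk_rs] using hA'
    have hn : ¬ Mk p y (p (p i)) := fun hc => by
      have := hc.2
      rw [Equiv.symm_apply_apply] at this
      exact lt_asymm this hA'.1
    have e1 : ∀ e, XX p (rs (p i) y e) i = e.1 := fun e => by
      rw [XX_mk p (hin e)]; simp [rs]
    have e2 : ∀ e, XX p (rs (p i) y e) (p i) = Br (XX p y (p (p i))) e := fun e => by
      rw [XX_not p (by rwa [Mk_rs]) (by simpa only [Mk_rs] using hy), XX_rs p _ _ _ (free _)]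
      simp [rs]
    have e3 : ∀ e, H (XX p (rs (p i) y e))
        = H (Function.update (XX p y) (p i) (Br (XX p y (p (p i))) e)) := fun e => by
      refine Hd _ _ fun j hj => ?_
      by_cases hji : j = p i
      · rw [hji, e2, Function.update_self]
      · rw [Function.update_of_ne hji]
        refine XX_rs p _ _ _ fun t ht => ?_
        cases t with
        | zero => exact hji ht
        | succ t =>
          rw [Function.iterate_succ_apply'] at ht
          exact hj t (p.injective ht)
    simp only [Set.indicator_of_mem (hin _), e1, e2, e3]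
    exact Br_two (H := fun b => H (Function.update (XX p y) (p i) b))
      (Hm.comp (measurable_update _)) (fun _ => Hb _) hm hb _
  · refine integral_congr_ae ?_
    filter_upwards [ae_mk p φ hφ (p i)] with y hy
    by_cases hA' : Mk p y (p i)
    · have : ∀ e, rs i y e ∉ Aᶜ := fun e => by
        simpa only [A, Set.mem_compl_iff, not_not, Set.mem_ofPred_eq, Mk_rs] using hA'
      simp [this]
    have hin : ∀ e, rs i y e ∈ Aᶜ := fun e => by
      simpa only [A, Set.mem_compl_iff, Set.mem_ofPred_eq, Mk_rs] using hA'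
    have e1 : ∀ e, XX p (rs i y e) (p i) = XX p y (p i) := fun e => XX_rs p _ _ _ (free _)
    have e2 : ∀ e, XX p (rs i y e) i = Br (XX p y (p i)) e := fun e => by
      rw [XX_not p (by rwa [Mk_rs]) (by simpa only [Mk_rs] using hy), e1]
      simp [rs]
    have e3 : ∀ e, H (XX p (rs i y e)) = H (XX p y) := fun e =>
      Hd _ _ fun j hj => XX_rs p _ _ _ hj
    simp only [Set.indicator_of_mem (hin _), e1, e2, e3]
    rw [integral_const_mul, Br_one hm hb]
    simp

end H96.FD
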