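import Pool.Agent.H96.FD7

set_option autoImplicit false
open MeasureTheory Filter Topology ProbabilityTheory

namespace H96.FD

variable {Λ : Type} (p : Λ ≃ Λ)

lemma prod_abs (A : Finset Λ) {f : Λ → S → ℝ} (fb : ∀ j x, |f j x| ≤ 1) (x : Λ → S) :
    |∏ j ∈ A, f j (x j)| ≤ 1 := by
  rw [Finset.abs_prod]
  exact Finset.prod_le_one (fun _ _ => abs_nonneg _) fun _ _ => fb _ _

lemma XX_equiv (τ : Λ → Λ) (hτ : ∀ i, τ (p i) = p (τ i)) (y : Λ → Y) (i : Λ) :
    XX p (fun j => y (τ j)) i = XX p y (τ i) := by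
  have h1 : ∀ i, τ (p.symm i) = p.symm (τ i) := fun i => by
    rw [Equiv.eq_symm_apply, ← hτ, Equiv.apply_symm_apply]
  have h2 : ∀ (t : ℕ) i, τ (p^[t] i) = p^[t] (τ i) := by
    intro t
    induction t with
    | zero => intro i; rfl
    | succ t ih => intro i; rw [Function.iterate_succ_apply, ih, hτ]; rfl
  have h3 : dep p (fun j => y (τ j)) i = dep p y (τ i) := by
    simp only [dep, Mk, hτ, h1, h2]
  have h4 : ∀ n i, Z p (fun j => y (τ j)) n i = Z p y n (τ i) := by
    intro n
    induction n with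
    | zero => intro i; simp only [Z, hτ]
    | succ n ih => intro i; simp only [Z, ih, hτ]
  rw [XX, XX, h3, h4]

lemma XX_local {y y' : Λ → Y} {i : Λ} {n r : ℕ} (hn : n + 2 ≤ r) (h : Mk p y (p^[n + 1] i))
    (hy : ∀ t ≤ r, y' (p^[t] i) = y (p^[t] i)) : XX p y' i = XX p y i := by
  have h1 : ∀ k ≤ n, Mk p y' (p^[k + 1] i) ↔ Mk p y (p^[k + 1] i) := by
    intro k hk
    have a1 : p (p^[k + 1] i) = p^[k + 2] i := (Function.iterate_succ_apply' p (k + 1) i).symm
    have a2 : p.symm (p^[k + 1] i) = p^[k] i := by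
      rw [Function.iterate_succ_apply', Equiv.symm_apply_apply]
    simp only [Mk, a1, a2, hy (k + 2) (by omega), hy (k + 1) (by omega), hy k (by omega)]
  have a1 : dep p y i ≤ n := Nat.sInf_le (s := {n | Mk p y (p^[n + 1] i)}) h
  have a2 : dep p y' i ≤ n := Nat.sInf_le (s := {n | Mk p y' (p^[n + 1] i)}) ((h1 n le_rfl).2 h)
  have a3 : Mk p y (p^[dep p y i + 1] i) := Nat.sInf_mem (s := {n | Mk p y (p^[n + 1] i)}) ⟨n, h⟩
  have a4 : Mk p y' (p^[dep p y' i + 1] i) :=
    Nat.sInf_mem (s := {n | Mk p y' (p^[n + 1] i)}) ⟨n, (h1 n le_rfl).2 h⟩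
  have h2 : dep p y' i = dep p y i :=
    le_antisymm (Nat.sInf_le (s := {n | Mk p y' (p^[n + 1] i)}) ((h1 _ a1).2 a3))
      (Nat.sInf_le (s := {n | Mk p y (p^[n + 1] i)}) ((h1 _ a2).1 a4))
  rw [XX, XX, h2]
  exact Z_congr p _ _ fun t ht => by rw [hy t (by omega)]

variable [DecidableEq Λ] (φ : Λ → ℤ) (hφ : ∀ i, φ (p i) = φ i - 1)
include hφ

lemma proper (i : Λ) : ∀ᵐ y ∂muL Λ, (XX p y i).2 ≠ (XX p y (p i)).2 := by
  have h0 : ∀ g : G, ∀ᵐ y ∂muL Λ, ¬ ((XX p y (p i)).2 = g ∧ (XX p y i).2 = g) := by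
    intro g
    have hs : MeasurableSet {x : S | x.2 = g} := measurable_snd (measurableSet_singleton g)
    have h1 := keyL p φ hφ i (H := fun x => {x : S | x.2 = g}.indicator (fun _ => (1 : ℝ)) (x (p i)))
      ((ind_meas hs).comp (measurable_pi_apply _)) (fun _ => ind_abs _ _)
      (fun x x' hx => by
        rw [hx (p i) fun t hc => by
          have := congrArg φ hc
          rw [phi_it p φ hφ, hφ] at this
          omega]) (ind_meas hs) (ind_abs _)
    have h2 : ∀ x : S, {x : S | x.2 = g}.indicator (fun _ => (1 : ℝ)) x *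
        Pq ({x : S | x.2 = g}.indicator fun _ => (1 : ℝ)) x = 0 := by
      intro x
      by_cases hx : x.2 = g
      · rw [← hx, Pq_col, mul_zero]
      · simp [hx]
    simp only [h2, integral_zero] at h1
    have hE : MeasurableSet {y | (XX p y (p i)).2 = g ∧ (XX p y i).2 = g} :=
      (XX_meas p (p i) hs).inter (XX_meas p i hs)
    have h3 : (muL Λ).real {y | (XX p y (p i)).2 = g ∧ (XX p y i).2 = g} = 0 := by
      rw [← integral_indicator_one hE, ← h1]
      refine integral_congr_ae (Eventually.of_forall fun y => ?_)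
      by_cases b1 : (XX p y (p i)).2 = g <;> by_cases b2 : (XX p y i).2 = g <;> simp [b1, b2]
    rw [ae_iff]
    simpa [measureReal_eq_zero_iff] using h3
  filter_upwards [ae_all_iff.2 h0] with y hy h
  exact hy _ ⟨rfl, h⟩

lemma red (A : Finset Λ) (a : Λ) (ha : a ∈ A) (hmax : ∀ j ∈ A, φ j ≤ φ a) (f : Λ → S → ℝ)
    (fm : ∀ j, Measurable (f j)) (fb : ∀ j x, |f j x| ≤ 1) :
    ∃ (c : ℝ) (f' : Λ → S → ℝ), (∀ j, Measurable (f' j)) ∧ (∀ j x, |f' j x| ≤ 1) ∧
      (∀ j ∉ A, f' j = f j) ∧ ∀ B : Finset Λ, (∀ b ∈ B, a ≠ b ∧ p a ≠ b ∧ φ b ≤ φ a) →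
      ∫ y, (∏ j ∈ A, f j (XX p y j)) * ∏ j ∈ B, f j (XX p y j) ∂muL Λ =
        c * ∫ y, (∏ j ∈ A.erase a, f' j (XX p y j)) * ∏ j ∈ B, f j (XX p y j) ∂muL Λ := by
  have Hm : ∀ B : Finset Λ, Measurable fun x : Λ → S =>
      (∏ j ∈ A.erase a, f j (x j)) * ∏ j ∈ B, f j (x j) := fun B =>
    (Finset.measurable_prod _ fun j _ => (fm j).comp (measurable_pi_apply j)).mul
      (Finset.measurable_prod _ fun j _ => (fm j).comp (measurable_pi_apply j))
  have Hb : ∀ (B : Finset Λ) (x : Λ → S),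
      |(∏ j ∈ A.erase a, f j (x j)) * ∏ j ∈ B, f j (x j)| ≤ 1 := fun B x => by
    simpa only [one_mul] using abs_mul_le (prod_abs _ fb x) (prod_abs _ fb x)
  have k1 : ∀ B : Finset Λ, (∀ b ∈ B, a ≠ b ∧ p a ≠ b ∧ φ b ≤ φ a) →
      ∫ y, (∏ j ∈ A, f j (XX p y j)) * ∏ j ∈ B, f j (XX p y j) ∂muL Λ =
      ∫ y, ((∏ j ∈ A.erase a, f j (XX p y j)) * ∏ j ∈ B, f j (XX p y j)) *
        Pq (f a) (XX p y (p a)) ∂muL Λ := by
    intro B hB
    have hj : ∀ j, j ≠ a → φ j ≤ φ a → ∀ t, p^[t] j ≠ a := by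
      intro j h1 h2 t hc
      have := congrArg φ hc
      rw [phi_it p φ hφ] at this
      have ht : t = 0 := by omega
      subst ht
      exact h1 hc
    rw [← keyL p φ hφ a (Hm B) (Hb B) (fun x x' hx => by
      rw [Finset.prod_congr rfl fun j h => congrArg (f j)
        (hx j (hj j (Finset.ne_of_mem_erase h) (hmax j (Finset.mem_of_mem_erase h)))),
        Finset.prod_congr (s₁ := B) rfl fun j h => congrArg (f j)
        (hx j (hj j (hB j h).1.symm (hB j h).2.2))]) (fm a) (fb a)]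
    refine integral_congr_ae (Eventually.of_forall fun y => ?_)
    beta_reduce
    rw [← Finset.mul_prod_erase A _ ha]; ring
  have hpa : p a ≠ a := fun h => by
    have := hφ a
    rw [h] at this
    omega
  by_cases hp : p a ∈ A
  · refine ⟨1, Function.update f (p a) fun x => f (p a) x * Pq (f a) x, fun j => ?_, fun j x => ?_,
      fun j hj => Function.update_of_ne (fun h => hj (by rw [h]; exact hp)) _ _, fun B hB => ?_⟩
    · by_cases h : j = p a
      · rw [h, Function.update_self]; exact (fm _).mul (Pq_meas (fm a))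
      · rw [Function.update_of_ne h]; exact fm j
    · by_cases h : j = p a
      · rw [h, Function.update_self]
        simpa only [one_mul] using abs_mul_le (fb _ x) (Pq_abs (fb a) x)
      · rw [Function.update_of_ne h]; exact fb j x
    · rw [k1 B hB, one_mul]
      refine integral_congr_ae (Eventually.of_forall fun y => ?_)
      beta_reduce
      have hm : p a ∈ A.erase a := Finset.mem_erase.2 ⟨hpa, hp⟩
      rw [← Finset.mul_prod_erase _ _ hm, ← Finset.mul_prod_erase _ _ hm, Function.update_self,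
        Finset.prod_congr (s₁ := (A.erase a).erase (p a)) (f := fun j =>
          Function.update f (p a) (fun x => f (p a) x * Pq (f a) x) j (XX p y j))
          (g := fun j => f j (XX p y j)) rfl fun j h => by
            rw [Function.update_of_ne (Finset.ne_of_mem_erase h)]]
      ring
  · refine ⟨∫ z, f a z ∂piS, f, fm, fb, fun _ _ => rfl, fun B hB => ?_⟩
    have hj : ∀ j, j ≠ a → j ≠ p a → φ j ≤ φ a → ∀ t, p^[t] j ≠ p a := by
      intro j h1 h3 h2 t hc
      have := congrArg φ hc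
      rw [phi_it p φ hφ, hφ] at this
      have ht : t = 0 ∨ t = 1 := by omega
      rcases ht with rfl | rfl
      · exact h3 hc
      · exact h1 (p.injective hc)
    rw [k1 B hB, keyL p φ hφ (p a) (Hm B) (Hb B) (fun x x' hx => by
      rw [Finset.prod_congr rfl fun j h => congrArg (f j)
        (hx j (hj j (Finset.ne_of_mem_erase h)
          (fun hc => hp (by rw [← hc]; exact Finset.mem_of_mem_erase h))
          (hmax j (Finset.mem_of_mem_erase h)))),
        Finset.prod_congr (s₁ := B) rfl fun j h => congrArg (f j)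
        (hx j (hj j (hB j h).1.symm (hB j h).2.1.symm (hB j h).2.2))])
      (Pq_meas (fm a)) (Pq_abs (fb a))]
    simp only [PqPq (fm a) (fb a)]
    rw [integral_mul_const, mul_comm]

lemma prodf (n : ℕ) : ∀ (A B : Finset Λ) (f : Λ → S → ℝ), A.card + B.card = n →
    (∀ j, Measurable (f j)) → (∀ j x, |f j x| ≤ 1) →
    (∀ a ∈ A, ∀ b ∈ B, a ≠ b ∧ p a ≠ b ∧ p b ≠ a) →
    ∫ y, (∏ j ∈ A, f j (XX p y j)) * ∏ j ∈ B, f j (XX p y j) ∂muL Λ =
      (∫ y, ∏ j ∈ A, f j (XX p y j) ∂muL Λ) * ∫ y, ∏ j ∈ B, f j (XX p y j) ∂muL Λ := by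
  induction n with
  | zero =>
    intro A B f h _ _ _
    have hA : A = ∅ := Finset.card_eq_zero.1 (by omega)
    simp [hA]
  | succ n ih =>
    have main : ∀ (A B : Finset Λ) (f : Λ → S → ℝ), A.card + B.card = n + 1 →
        (∀ j, Measurable (f j)) → (∀ j x, |f j x| ≤ 1) →
        (∀ a ∈ A, ∀ b ∈ B, a ≠ b ∧ p a ≠ b ∧ p b ≠ a) → ∀ a ∈ A, (∀ j ∈ A ∪ B, φ j ≤ φ a) →
        ∫ y, (∏ j ∈ A, f j (XX p y j)) * ∏ j ∈ B, f j (XX p y j) ∂muL Λ =
        (∫ y, ∏ j ∈ A, f j (XX p y j) ∂muL Λ) * ∫ y, ∏ j ∈ B, f j (XX p y j) ∂muL Λ := by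
      intro A B f h fm fb hs a ha hmax
      obtain ⟨c, f', m', b', e', hr⟩ := red p φ hφ A a ha
        (fun j hj => hmax j (Finset.mem_union_left _ hj)) f fm fb
      have h1 := hr B fun b hb => ⟨(hs a ha b hb).1, (hs a ha b hb).2.1,
        hmax b (Finset.mem_union_right _ hb)⟩
      have h2 := hr ∅ (by simp)
      simp only [Finset.prod_empty, mul_one] at h2
      have h3 : ∀ y, ∏ j ∈ B, f j (XX p y j) = ∏ j ∈ B, f' j (XX p y j) := fun y =>
        Finset.prod_congr rfl fun j hj => by rw [e' j fun hc => (hs j hc j hj).1 rfl]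
      have h4 := ih (A.erase a) B f' (by
        rw [Finset.card_erase_of_mem ha]
        have := Finset.card_pos.2 ⟨a, ha⟩
        omega) m' b' fun a' ha' => hs a' (Finset.mem_of_mem_erase ha')
      rw [h1, h2]
      simp only [h3]
      rw [h4, mul_assoc]
    intro A B f h fm fb hs
    have hne : (A ∪ B).Nonempty := by
      rw [Finset.nonempty_iff_ne_empty, Ne, Finset.union_eq_empty]
      rintro ⟨rfl, rfl⟩
      simp at h
    obtain ⟨a, ha, hmax⟩ := Finset.exists_max_image _ φ hne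
    rcases Finset.mem_union.1 ha with h1 | h1
    · exact main A B f h fm fb hs a h1 hmax
    · have := main B A f (by omega) fm fb
        (fun b hb a ha => ⟨(hs a ha b hb).1.symm, (hs a ha b hb).2.2, (hs a ha b hb).2.1⟩) a h1
        (by rwa [Finset.union_comm])
      rw [mul_comm, ← this]
      simp only [mul_comm]

lemma indepL (A B : Set Λ) (hs : ∀ a ∈ A, ∀ b ∈ B, a ≠ b ∧ p a ≠ b ∧ p b ≠ a) :
    IndepFun (fun y (a : A) => XX p y a) (fun y (b : B) => XX p y b) (muL Λ) := by
  classical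
  have pm : ∀ C : Set Λ, Measurable fun y (a : C) => XX p y a := fun C =>
    measurable_pi_lambda _ fun a => XX_meas p _
  rw [IndepFun_iff_Indep]
  refine IndepSets.indep (pm A).comap_le (pm B).comap_le
    ((isPiSystem_squareCylinders (fun _ => MeasurableSpace.isPiSystem_measurableSet) (by simp)).comap _)
    ((isPiSystem_squareCylinders (fun _ => MeasurableSpace.isPiSystem_measurableSet) (by simp)).comap _)
    (by rw [← generateFrom_squareCylinders, MeasurableSpace.comap_generateFrom]; rfl)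
    (by rw [← generateFrom_squareCylinders, MeasurableSpace.comap_generateFrom]; rfl) ?_
  rw [IndepSets_iff]
  rintro _ _ ⟨_, ⟨I, s, hs', rfl⟩, rfl⟩ ⟨_, ⟨J, t, ht', rfl⟩, rfl⟩
  simp only [Set.mem_pi, Set.mem_univ, Set.mem_ofPred_eq, forall_const] at hs' ht'
  let u : Λ → Set S := fun j => if h : j ∈ A then s ⟨j, h⟩ else if h : j ∈ B then t ⟨j, h⟩ else ∅
  have um : ∀ j, MeasurableSet (u j) := fun j => by
    simp only [u]
    split_ifs
    · exact hs' _
    · exact ht' _
    · exact .empty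
  have ua : ∀ a : A, u a = s a := fun a => dif_pos a.2
  have ub : ∀ b : B, u b = t b := fun b => by
    simp only [u]
    rw [dif_neg fun hc => (hs b hc b b.2).1 rfl, dif_pos b.2]
  have h := prodf p φ hφ _ (I.map (Function.Embedding.subtype _))
    (J.map (Function.Embedding.subtype _)) (fun j => (u j).indicator fun _ => (1 : ℝ)) rfl
    (fun j => ind_meas (um j)) (fun j => ind_abs _) (by
      intro a ha b hb
      obtain ⟨a, -, rfl⟩ := Finset.mem_map.1 ha
      obtain ⟨b, -, rfl⟩ := Finset.mem_map.1 hb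
      exact hs a a.2 b b.2)
  simp only [Finset.prod_map, Function.Embedding.coe_subtype, ua, ub] at h
  have pi1 : ∀ (C : Set Λ) (K : Finset C) (v : C → Set S) (y : Λ → Y),
      ∏ j ∈ K, (v j).indicator (fun _ => (1 : ℝ)) (XX p y j) =
      ((fun y (a : C) => XX p y a) ⁻¹' (K : Set C).pi v).indicator 1 y := by
    intro C K v y
    by_cases hy : ∀ j ∈ K, XX p y j ∈ v j
    · rw [Set.indicator_of_mem (by simpa using hy)]
      exact Finset.prod_eq_one fun j hj => by simp [hy j hj]
    · rw [Set.indicator_of_notMem (by simpa using hy)]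
      push Not at hy
      obtain ⟨j, hj, h2⟩ := hy
      exact Finset.prod_eq_zero hj (by simp [h2])
  have e1 := pm A (MeasurableSet.pi I.countable_toSet fun j _ => hs' j)
  have e2 := pm B (MeasurableSet.pi J.countable_toSet fun j _ => ht' j)
  simp only [pi1] at h
  rw [integral_indicator_one e1, integral_indicator_one e2] at h
  simp only [← Set.inter_indicator_mul] at h
  have h5 := integral_indicator_one (μ := muL Λ) (e1.inter e2)
  have h3 := h5.symm.trans ((integral_congr_ae (Eventually.of_forall fun y => by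
    simp [Set.indicator])).trans h)
  simp only [Measure.real, ← ENNReal.toReal_mul] at h3
  exact (ENNReal.toReal_eq_toReal_iff' (measure_ne_top _ _)
    (ENNReal.mul_ne_top (measure_ne_top _ _) (measure_ne_top _ _))).1 h3

end H96.FD
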