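import Mathlib

set_option autoImplicit false
open Filter Topology Asymptotics

namespace Pool.Agent.H96.Flat

/-- vanishing to infinite order -/
def IsFlat (h : ℝ → ℝ) (x0 : ℝ) : Prop := ∀ n : ℕ, h =o[𝓝 x0] fun x => (x - x0) ^ n

theorem taylor_local (h : ℝ → ℝ) (x0 : ℝ) (n : ℕ) (hh : ContDiffAt ℝ n h x0) :
    (fun x => h x - ∑ k ∈ Finset.range (n + 1),
      ((k.factorial : ℝ)⁻¹ * (x - x0) ^ k) * iteratedDeriv k h x0) =o[𝓝 x0] fun x => (x - x0) ^ n := by
  obtain ⟨u, hu, hc⟩ := hh.contDiffOn le_rfl (by simp)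
  obtain ⟨r, hr, hb⟩ := Metric.mem_nhds_iff.mp hu
  have h1 := taylor_isLittleO (convex_ball x0 r) (Metric.mem_ball_self hr) (hc.mono hb)
  rw [nhdsWithin_eq_nhds.mpr (Metric.ball_mem_nhds x0 hr)] at h1
  refine h1.congr_left fun x => ?_
  congr 1
  rw [taylor_within_apply]
  apply Finset.sum_congr rfl
  intro k _
  rw [iteratedDerivWithin_of_isOpen Metric.isOpen_ball (Metric.mem_ball_self hr), smul_eq_mul]

theorem flat_of_deriv (h : ℝ → ℝ) (x0 : ℝ) (hh : ∀ n : ℕ, ContDiffAt ℝ n h x0)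
    (h0 : ∀ n, iteratedDeriv n h x0 = 0) : IsFlat h x0 := by
  intro n
  simpa [h0] using taylor_local h x0 n (hh n)

theorem deriv_of_flat (h : ℝ → ℝ) (x0 : ℝ) (hh : ∀ n : ℕ, ContDiffAt ℝ n h x0)
    (h0 : IsFlat h x0) (n : ℕ) : iteratedDeriv n h x0 = 0 := by
  induction n using Nat.strong_induction_on with
  | _ n ih =>
    have h1 := (h0 n).sub (taylor_local h x0 n (hh n))
    rw [Finset.sum_eq_zero (s := Finset.range n) (f := fun _ => (0 : ℝ)) (fun _ _ => rfl) |>.symm]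
    have h2 : (fun x => (iteratedDeriv n h x0 * (n.factorial : ℝ)⁻¹) * (x - x0) ^ n) =o[𝓝 x0]
        fun x => (x - x0) ^ n := by
      refine h1.congr_left fun x => ?_
      rw [Finset.sum_range_succ, Finset.sum_eq_zero]
      · ring
      · intro k hk
        rw [ih k (Finset.mem_range.mp hk), mul_zero]
    by_contra hne
    have hc : iteratedDeriv n h x0 * (n.factorial : ℝ)⁻¹ ≠ 0 := by
      simp only [Finset.sum_const_zero] at hne
      exact mul_ne_zero hne (by positivity)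
    have h3 := (isLittleO_const_mul_left_iff hc).mp h2
    have h4 : ∃ᶠ x in 𝓝 x0, (x - x0) ^ n ≠ 0 := by
      have : ∀ᶠ x in 𝓝[≠] x0, (x - x0) ^ n ≠ 0 := by
        filter_upwards [self_mem_nhdsWithin] with x hx
        exact pow_ne_zero _ (sub_ne_zero.mpr hx)
      exact this.frequently.filter_mono nhdsWithin_le_nhds
    exact isLittleO_irrefl h4 h3

theorem IsFlat.of_isBigO {h g : ℝ → ℝ} {x0 : ℝ} (hg : IsFlat g x0) (hh : h =O[𝓝 x0] g) :
    IsFlat h x0 := fun n => hh.trans_isLittleO (hg n)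

theorem IsFlat.tendsto {h : ℝ → ℝ} {x0 : ℝ} (hh : IsFlat h x0) : Tendsto h (𝓝 x0) (𝓝 0) := by
  simpa using hh 0

/-- composing with an analytic function keeps flat differences flat -/
theorem IsFlat.comp {a b φ : ℝ → ℝ} {x0 y0 : ℝ} (hab : IsFlat (fun x => a x - b x) x0)
    (ha : Tendsto a (𝓝 x0) (𝓝 y0)) (hb : Tendsto b (𝓝 x0) (𝓝 y0)) (hφ : AnalyticAt ℝ φ y0) :
    IsFlat (fun x => φ (a x) - φ (b x)) x0 := by
  apply hab.of_isBigO
  have h1 := hφ.hasStrictFDerivAt.isBigO_sub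
  exact h1.comp_tendsto (ha.prodMk_nhds hb)

theorem analytic_div (H : ℝ → ℝ) (x0 : ℝ) (m : ℕ) (hH : AnalyticAt ℝ H x0)
    (hO : H =O[𝓝 x0] fun x => (x - x0) ^ m) :
    ∃ w : ℝ → ℝ, AnalyticAt ℝ w x0 ∧ ∀ᶠ x in 𝓝 x0, H x = (x - x0) ^ m * w x := by
  by_cases h0 : ∀ᶠ x in 𝓝 x0, H x = 0
  · exact ⟨fun _ => 0, analyticAt_const, by simpa using h0⟩
  obtain ⟨n, g, hg, hg0, hgH⟩ := hH.exists_eventuallyEq_pow_smul_nonzero_iff.mpr h0
  by_cases hmn : m ≤ n
  · refine ⟨fun x => (x - x0) ^ (n - m) * g x, by fun_prop, ?_⟩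
    filter_upwards [hgH] with x hx
    rw [hx, smul_eq_mul, ← mul_assoc, ← pow_add, Nat.add_sub_cancel' hmn]
  · exfalso
    push Not at hmn
    obtain ⟨C, hC⟩ := hO.bound
    have h1 : ∀ᶠ x in 𝓝[≠] x0, ‖g x‖ ≤ C * ‖(x - x0) ^ (m - n)‖ := by
      filter_upwards [self_mem_nhdsWithin, nhdsWithin_le_nhds hC, nhdsWithin_le_nhds hgH]
        with x hx h1 h2
      have hp : 0 < ‖(x - x0) ^ n‖ := norm_pos_iff.mpr (pow_ne_zero _ (sub_ne_zero.mpr hx))
      rw [h2, smul_eq_mul, norm_mul, show m = n + (m - n) by omega, pow_add, norm_mul] at h1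
      by_contra hc
      push Not at hc
      nlinarith
    have h2 : Tendsto (fun x => ‖g x‖) (𝓝[≠] x0) (𝓝 ‖g x0‖) :=
      (hg.continuousAt.norm.tendsto).mono_left nhdsWithin_le_nhds
    have h3 : Tendsto (fun x => C * ‖(x - x0) ^ (m - n)‖) (𝓝[≠] x0) (𝓝 0) := by
      have : ContinuousAt (fun x => C * ‖(x - x0) ^ (m - n)‖) x0 := by fun_prop
      have h4 := this.tendsto.mono_left (nhdsWithin_le_nhds (s := {x0}ᶜ))
      simpa [show m - n ≠ 0 by omega] using h4
    have := le_of_tendsto_of_tendsto h2 h3 h1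
    exact hg0 (norm_le_zero_iff.mp this)

/-- extraction of roots -/
theorem root_flat (f H : ℝ → ℝ) (x0 κ : ℝ) (m : ℕ) (hm : m ≠ 0) (hf0 : f x0 = 0)
    (hf : HasDerivAt f κ x0) (hκ : κ ≠ 0) (hH : AnalyticAt ℝ H x0)
    (hfl : IsFlat (fun x => f x ^ m - H x) x0) :
    ∃ R : ℝ → ℝ, AnalyticAt ℝ R x0 ∧ IsFlat (fun x => f x - R x) x0 := by
  set q := dslope f x0 with hq
  have hqc : ContinuousAt q x0 := continuousAt_dslope_same.mpr hf.differentiableAt
  have hq0 : q x0 = κ := by rw [hq, dslope_same, hf.deriv]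
  have hfq : ∀ x, f x = (x - x0) * q x := by
    intro x
    have := sub_smul_dslope f x0 x
    rw [hf0, sub_zero, smul_eq_mul] at this
    exact this.symm
  have hO : H =O[𝓝 x0] fun x => (x - x0) ^ m := by
    have h1 : (fun x => f x ^ m) =O[𝓝 x0] fun x => (x - x0) ^ m := by
      have h2 : (fun x => q x ^ m) =O[𝓝 x0] fun _ => (1 : ℝ) := (hqc.pow m).tendsto.isBigO_one ℝ
      have h3 := (isBigO_refl (fun x => (x - x0) ^ m) (𝓝 x0)).mul h2
      simpa [hfq, mul_pow] using h3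
    simpa using h1.sub (hfl m).isBigO
  obtain ⟨w, hw, hwH⟩ := analytic_div H x0 m hH hO
  have hfl2 : ∀ n : ℕ, (fun x => q x ^ m - w x) =o[𝓝[≠] x0] fun x => (x - x0) ^ n := by
    intro n
    have h1 := ((hfl (m + n)).mono (nhdsWithin_le_nhds (s := {x0}ᶜ))).mul_isBigO
      (isBigO_refl (fun x => ((x - x0) ^ m)⁻¹) (𝓝[≠] x0))
    refine h1.congr' ?_ ?_
    · filter_upwards [self_mem_nhdsWithin, nhdsWithin_le_nhds hwH] with x hx h2
      have : (x - x0) ^ m ≠ 0 := pow_ne_zero _ (sub_ne_zero.mpr hx)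
      rw [h2, hfq, mul_pow]; field_simp
    · filter_upwards [self_mem_nhdsWithin] with x hx
      have : (x - x0) ^ m ≠ 0 := pow_ne_zero _ (sub_ne_zero.mpr hx)
      rw [pow_add]; field_simp
  have hw0 : w x0 = κ ^ m := by
    have h1 : Tendsto (fun x => q x ^ m - w x) (𝓝[≠] x0) (𝓝 0) := by simpa using hfl2 0
    have h2 : Tendsto (fun x => q x ^ m - w x) (𝓝[≠] x0) (𝓝 (q x0 ^ m - w x0)) :=
      ((hqc.pow m).sub hw.continuousAt).tendsto.mono_left nhdsWithin_le_nhds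
    have := tendsto_nhds_unique h1 h2
    rw [hq0] at this
    linarith
  have hfl3 : IsFlat (fun x => q x ^ m - w x) x0 := by
    intro n
    rw [← nhdsNE_sup_pure, isLittleO_sup]
    refine ⟨hfl2 n, ?_⟩
    simp [hq0, hw0]
  have hκm : κ ^ m ≠ 0 := pow_ne_zero _ hκ
  let φ : ℝ → ℝ := fun t => κ * Real.exp (Real.log (t / κ ^ m) / m)
  have hφ : AnalyticAt ℝ φ (κ ^ m) := by
    have h1 : AnalyticAt ℝ (fun t : ℝ => Real.log (t / κ ^ m)) (κ ^ m) := by
      apply AnalyticAt.log (by fun_prop)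
      rw [div_self hκm]; norm_num
    simp only [φ]
    fun_prop
  have hfl4 := hfl3.comp (y0 := κ ^ m) (hq0 ▸ (hqc.tendsto.pow m))
    (by simpa [hw0] using hw.continuousAt.tendsto) hφ
  refine ⟨fun x => (x - x0) * φ (w x), ?_, ?_⟩
  · exact (by fun_prop : AnalyticAt ℝ (fun x => x - x0) x0).mul (AnalyticAt.comp (g := φ) (f := w) (hw0 ▸ hφ) hw)
  · apply hfl4.of_isBigO
    have hpos : ∀ᶠ x in 𝓝 x0, 0 < q x / κ := by
      apply (hqc.div_const κ).eventually (lt_mem_nhds _)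
      simp [hq0, hκ]
    have h1 : (fun x => x - x0) =O[𝓝 x0] fun _ => (1 : ℝ) :=
      (by fun_prop : ContinuousAt (fun x => x - x0) x0).tendsto.isBigO_one ℝ
    have h2 := h1.mul (isBigO_refl (fun x => φ (q x ^ m) - φ (w x)) (𝓝 x0))
    refine h2.congr' ?_ (by simp)
    filter_upwards [hpos] with x hx
    have : φ (q x ^ m) = q x := by
      simp only [φ]
      rw [← div_pow, Real.log_pow, mul_div_cancel_left₀ _ (by exact_mod_cast hm), Real.exp_log hx]
      field_simp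
    rw [this, hfq x]; ring

/-- If a nonconstant analytic function of f agrees to infinite order with an analytic function,
then so does f, provided f has nonzero derivative. -/
theorem comp_flat (f G φ : ℝ → ℝ) (x0 κ : ℝ) (hf : HasDerivAt f κ x0) (hκ : κ ≠ 0)
    (hφ : AnalyticAt ℝ φ (f x0)) (hnc : ¬ ∀ᶠ y in 𝓝 (f x0), φ y - φ (f x0) = 0)
    (hG : AnalyticAt ℝ G x0) (hfl : IsFlat (fun x => φ (f x) - G x) x0) :
    ∃ F : ℝ → ℝ, AnalyticAt ℝ F x0 ∧ IsFlat (fun x => f x - F x) x0 := by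
  set y0 := f x0 with hy0
  have hφ2 : AnalyticAt ℝ (fun y => φ y - φ y0) y0 := by fun_prop
  obtain ⟨m, u, hu, hu0, hφu⟩ := hφ2.exists_eventuallyEq_pow_smul_nonzero_iff.mpr hnc
  have hm : m ≠ 0 := by
    rintro rfl
    have := hφu.self_of_nhds
    simp at this
    exact hu0 this.symm
  let v : ℝ → ℝ := fun y => Real.exp (Real.log (u y / u y0) / m)
  have hv : AnalyticAt ℝ v y0 := by
    have h1 : AnalyticAt ℝ (fun y : ℝ => Real.log (u y / u y0)) y0 := by
      apply AnalyticAt.log (by fun_prop)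
      rw [div_self hu0]; norm_num
    simp only [v]
    fun_prop
  have hv0 : v y0 = 1 := by simp [v, div_self hu0]
  let r : ℝ → ℝ := fun y => (y - y0) * v y
  have hr : AnalyticAt ℝ r y0 := by simp only [r]; fun_prop
  have hr' : HasDerivAt r 1 y0 := by
    have := ((hasDerivAt_id y0).sub_const y0).fun_mul hv.differentiableAt.hasDerivAt
    simp only [id, hv0, sub_self, zero_mul, add_zero, mul_one] at this
    exact this
  have hrm : ∀ᶠ y in 𝓝 y0, φ y - φ y0 = u y0 * r y ^ m := by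
    have hpos : ∀ᶠ y in 𝓝 y0, 0 < u y / u y0 := by
      apply (hu.continuousAt.div_const _).eventually (lt_mem_nhds _)
      simp [hu0]
    filter_upwards [hφu, hpos] with y h1 h2
    have : v y ^ m = u y / u y0 := by
      simp only [v]
      rw [← Real.exp_nat_mul, mul_div_cancel₀ _ (by exact_mod_cast hm), Real.exp_log h2]
    rw [h1, smul_eq_mul]
    simp only [r, mul_pow, this]
    field_simp
  have hft : Tendsto f (𝓝 x0) (𝓝 y0) := hf.continuousAt.tendsto
  have hfl1 : IsFlat (fun x => r (f x) ^ m - (G x - φ y0) / u y0) x0 := by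
    apply hfl.of_isBigO
    refine ((isBigO_refl (fun x => φ (f x) - G x) (𝓝 x0)).const_mul_left (u y0)⁻¹).congr' ?_ (by simp)
    filter_upwards [hft.eventually hrm] with x hx
    field_simp
    linarith
  obtain ⟨R, hR, hRf⟩ := root_flat (fun x => r (f x)) (fun x => (G x - φ y0) / u y0) x0 (1 * κ) m hm
    (by simp [r, hy0]) (HasDerivAt.comp x0 hr' hf) (by simpa using hκ) (by fun_prop) hfl1
  have hd : deriv r y0 ≠ 0 := by rw [hr'.deriv]; norm_num
  let s := hr.hasStrictDerivAt.localInverse _ _ _ hd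
  have hs : AnalyticAt ℝ s (r y0) := hr.analyticAt_localInverse hd
  have hsr : ∀ᶠ y in 𝓝 y0, s (r y) = y := HasStrictDerivAt.eventually_left_inverse ..
  have hrt : Tendsto (fun x => r (f x)) (𝓝 x0) (𝓝 (r y0)) := hr.continuousAt.tendsto.comp hft
  have hRt : Tendsto R (𝓝 x0) (𝓝 (r y0)) := by
    simpa using hrt.sub hRf.tendsto
  have hR0 : R x0 = r y0 := tendsto_nhds_unique hR.continuousAt.tendsto hRt
  refine ⟨fun x => s (R x), AnalyticAt.comp (hR0 ▸ hs) hR, ?_⟩
  apply (hRf.comp hrt hRt hs).of_isBigO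
  apply EventuallyEq.isBigO
  filter_upwards [hft.eventually hsr] with x hx
  rw [hx]

/-- radius of convergence of the Taylor series of a real function -/
noncomputable def rad (g : ℝ → ℝ) (x : ℝ) : ENNReal :=
  (FormalMultilinearSeries.ofScalars ℝ (fun n => iteratedDeriv n g x / n.factorial)).radius

theorem exists_analytic_of_rad (g : ℝ → ℝ) (x0 : ℝ) (hg : ∀ n : ℕ, ContDiffAt ℝ n g x0)
    (h : rad g x0 ≠ 0) : ∃ G : ℝ → ℝ, AnalyticAt ℝ G x0 ∧ IsFlat (fun x => g x - G x) x0 := by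
  set p := FormalMultilinearSeries.ofScalars ℝ (fun n => iteratedDeriv n g x0 / n.factorial) with hp
  have h1 := (p.hasFPowerSeriesOnBall (pos_iff_ne_zero.mpr h)).comp_sub x0
  rw [zero_add] at h1
  have h2 := h1.hasFPowerSeriesAt
  have h3 := h2.eq_formalMultilinearSeries h2.analyticAt.hasFPowerSeriesAt
  refine ⟨_, h2.analyticAt, ?_⟩
  apply flat_of_deriv _ _ (fun n => (hg n).sub h2.analyticAt.contDiffAt)
  intro n
  rw [iteratedDeriv_fun_sub (hg n) h2.analyticAt.contDiffAt]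
  have h4 := congrFun (FormalMultilinearSeries.ofScalars_series_injective (𝕜 := ℝ) ℝ h3) n
  have h5 : (n.factorial : ℝ) ≠ 0 := by positivity
  field_simp at h4
  rw [h4, sub_self]

theorem rad_of_analytic (g G : ℝ → ℝ) (x0 : ℝ) (hg : ∀ n : ℕ, ContDiffAt ℝ n g x0)
    (hG : AnalyticAt ℝ G x0) (h : IsFlat (fun x => g x - G x) x0) : rad g x0 ≠ 0 := by
  have h1 : ∀ n, iteratedDeriv n g x0 = iteratedDeriv n G x0 := by
    intro n
    have := deriv_of_flat _ x0 (fun n => (hg n).sub hG.contDiffAt) h n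
    rwa [iteratedDeriv_fun_sub (hg n) hG.contDiffAt, sub_eq_zero] at this
  unfold rad
  simp only [h1]
  exact hG.hasFPowerSeriesAt.radius_pos.ne'

/-- Pringsheim singularities survive composition with a nonconstant analytic function. -/
theorem rad_comp (f φ : ℝ → ℝ) (x0 : ℝ) (hf : ∀ n : ℕ, ContDiffAt ℝ n f x0) (hd : deriv f x0 ≠ 0)
    (hφ : AnalyticAt ℝ φ (f x0)) (hnc : ¬ ∀ᶠ y in 𝓝 (f x0), φ y - φ (f x0) = 0)
    (h0 : rad f x0 = 0) : rad (fun x => φ (f x)) x0 = 0 := by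
  by_contra h
  obtain ⟨G, hG, hfl⟩ := exists_analytic_of_rad _ x0 (fun n => hφ.contDiffAt.comp x0 (hf n)) h
  obtain ⟨F, hF, hfF⟩ := comp_flat f G φ x0 _
    ((hf 1).differentiableAt (by simp)).hasDerivAt hd hφ hnc hG hfl
  exact rad_of_analytic f F x0 hf hF hfF h0

end Pool.Agent.H96.Flat
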