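import Mathlib

set_option autoImplicit false
open Filter Topology MeasureTheory

namespace Pool.Agent.H96.Haar

/-- dyadic digit block -/
noncomputable def D (l : ℕ) (x : ℝ) : ℕ := ⌊(2 : ℝ) ^ l * x⌋₊

theorem D_meas (l : ℕ) : Measurable (D l) := by unfold D; fun_prop

theorem D_div (l j : ℕ) (x : ℝ) : D l x = D (l + j) x / 2 ^ j := by
  unfold D
  rw [← Nat.floor_div_natCast]
  congr 1
  push_cast
  rw [pow_add]; field_simp

/-- sign pattern -/
def H (q p : ℕ) : ℝ := if q = 2 * p + 1 then 1 else if q = 2 * p then -1 else 0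

/-- Haar functions with sup norm one -/
noncomputable def h (l p : ℕ) (x : ℝ) : ℝ := H (D (l + 1) x) p

theorem h_meas (l p : ℕ) : Measurable (h l p) :=
  (measurable_of_countable (fun q => H q p)).comp (D_meas _)

theorem h_abs (l p : ℕ) (x : ℝ) : |h l p x| = if D l x = p then 1 else 0 := by
  rw [D_div l 1, h, H]
  split_ifs <;> first | omega | simp

theorem h_ne (l p : ℕ) (x : ℝ) (hx : h l p x ≠ 0) : D l x = p := by
  have := h_abs l p x
  split_ifs at this with h1
  · exact h1
  · exact absurd (abs_eq_zero.mp this) hx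

theorem h_le (l p : ℕ) (x : ℝ) : |h l p x| ≤ 1 := by
  rw [h_abs]; split_ifs <;> norm_num

/-- Lebesgue measure on the unit interval -/
noncomputable def nu : Measure ℝ := volume.restrict (Set.Icc 0 1)

instance : IsProbabilityMeasure nu := ⟨by simp [nu]⟩

theorem int_chi (l q : ℕ) (hq : q < 2 ^ l) :
    ∫ x, (if D l x = q then (1 : ℝ) else 0) ∂nu = (2 ^ l)⁻¹ := by
  have hp : (0 : ℝ) < 2 ^ l := by positivity
  have h1 : ∫ x, (if D l x = q then (1 : ℝ) else 0) ∂nu =
      ∫ x, (Set.Ico ((q : ℝ) / 2 ^ l) ((q + 1) / 2 ^ l)).indicator (1 : ℝ → ℝ) x ∂nu := by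
    unfold nu
    apply setIntegral_congr_fun measurableSet_Icc
    intro x hx
    have : D l x = q ↔ x ∈ Set.Ico ((q : ℝ) / 2 ^ l) ((q + 1) / 2 ^ l) := by
      rw [D, Nat.floor_eq_iff (mul_nonneg hp.le hx.1), Set.mem_Ico, div_le_iff₀' hp, lt_div_iff₀' hp]
    simp only [this, Set.indicator, Pi.one_apply]
  have h2 : Set.Ico ((q : ℝ) / 2 ^ l) ((q + 1) / 2 ^ l) ⊆ Set.Icc 0 1 := by
    intro x hx
    have h3 : ((q : ℝ) + 1) / 2 ^ l ≤ 1 := by
      rw [div_le_one hp]; exact_mod_cast hq
    exact ⟨le_trans (by positivity) hx.1, le_trans hx.2.le h3⟩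
  rw [h1, integral_indicator_one measurableSet_Ico, nu, measureReal_restrict_apply measurableSet_Ico,
    Set.inter_eq_left.mpr h2, Real.volume_real_Ico_of_le (by gcongr; linarith)]
  field_simp; ring

theorem chi_int (l q : ℕ) : Integrable (fun x => if D l x = q then (1 : ℝ) else 0) nu := by
  refine Integrable.of_bound (C := 1) ((measurable_of_countable (fun r => if r = q then (1 : ℝ) else 0)).comp
    (D_meas l)).aestronglyMeasurable (Eventually.of_forall fun x => ?_)
  split_ifs <;> simp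

theorem int_h (l p : ℕ) (hp : p < 2 ^ l) : ∫ x, h l p x ∂nu = 0 := by
  have : h l p = fun x => (if D (l + 1) x = 2 * p + 1 then (1 : ℝ) else 0) -
      (if D (l + 1) x = 2 * p then (1 : ℝ) else 0) := by
    funext x
    simp only [h, H]
    split_ifs <;> first | omega | simp
  rw [this, integral_sub (chi_int _ _) (chi_int _ _), int_chi _ _ (by rw [pow_succ]; omega),
    int_chi _ _ (by rw [pow_succ]; omega), sub_self]

theorem int_hh_lt (l p l' p' : ℕ) (hl : l < l') (hp : p' < 2 ^ l') :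
    ∫ x, h l p x * h l' p' x ∂nu = 0 := by
  have : ∀ x, h l p x * h l' p' x = H (p' / 2 ^ (l' - (l + 1))) p * h l' p' x := by
    intro x
    by_cases h0 : h l' p' x = 0
    · simp [h0]
    · rw [← h_ne l' p' x h0, h, D_div (l + 1) (l' - (l + 1)), show l + 1 + (l' - (l + 1)) = l' by omega]
  simp only [this]
  rw [integral_const_mul, int_h l' p' hp, mul_zero]

theorem int_hh (l p l' p' : ℕ) (hp : p < 2 ^ l) (hp' : p' < 2 ^ l') :
    ∫ x, h l p x * h l' p' x ∂nu = if (l, p) = (l', p') then (2 ^ l)⁻¹ else 0 := by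
  rcases lt_trichotomy l l' with hl | rfl | hl
  · rw [int_hh_lt l p l' p' hl hp', if_neg (by simp; omega)]
  · by_cases hpp : p = p'
    · subst hpp
      rw [if_pos rfl, ← int_chi l p hp]
      congr 1
      funext x
      rw [← h_abs, ← sq, ← sq_abs, h_abs]
      split_ifs <;> simp
    · rw [if_neg (by simpa using hpp)]
      have : ∀ x, h l p x * h l p' x = 0 := by
        intro x
        by_contra h0
        exact hpp ((h_ne l p x (left_ne_zero_of_mul h0)).symm.trans
          (h_ne l p' x (right_ne_zero_of_mul h0)))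
      simp [this]
  · simp only [mul_comm (h l p _)]
    rw [int_hh_lt l' p' l p hl hp, if_neg (by simp; omega)]

/-- normalised Haar functions -/
noncomputable def hn (b : ℕ × ℕ) (x : ℝ) : ℝ := Real.sqrt (2 ^ b.1) * h b.1 b.2 x

theorem hn_meas (b : ℕ × ℕ) : Measurable (hn b) := (h_meas _ _).const_mul _

theorem hn_le (b : ℕ × ℕ) (x : ℝ) : ‖hn b x‖ ≤ Real.sqrt (2 ^ b.1) := by
  rw [hn, norm_mul, Real.norm_of_nonneg (Real.sqrt_nonneg _)]
  exact mul_le_of_le_one_right (Real.sqrt_nonneg _) (h_le _ _ _)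

theorem int_hn (b c : ℕ × ℕ) (hb : b.2 < 2 ^ b.1) (hc : c.2 < 2 ^ c.1) :
    ∫ x, hn b x * hn c x ∂nu = if b = c then 1 else 0 := by
  have : ∀ x, hn b x * hn c x = (Real.sqrt (2 ^ b.1) * Real.sqrt (2 ^ c.1)) *
      (h b.1 b.2 x * h c.1 c.2 x) := fun x => by simp only [hn]; ring
  simp only [this]
  rw [integral_const_mul, int_hh _ _ _ _ hb hc]
  split_ifs with h1
  · have h2 : b = c := h1
    subst h2
    rw [Real.mul_self_sqrt (by positivity)]
    simp
  · simp

theorem ae_summable {ι : Type*} [Countable ι] (ix : ι → ℕ × ℕ) (hix : ∀ i, (ix i).2 < 2 ^ (ix i).1)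
    (b : ι → ℝ) (hb : Summable fun i => b i ^ 2) :
    ∀ᵐ x ∂nu, Summable fun i => (b i * hn (ix i) x) ^ 2 := by
  have hm : ∀ i, Measurable fun x => ENNReal.ofReal ((b i * hn (ix i) x) ^ 2) := fun i =>
    (((hn_meas _).const_mul _).pow_const 2).ennreal_ofReal
  have h1 : ∀ i, ∫⁻ x, ENNReal.ofReal ((b i * hn (ix i) x) ^ 2) ∂nu = ENNReal.ofReal (b i ^ 2) := by
    intro i
    rw [← ofReal_integral_eq_lintegral_ofReal _ (Eventually.of_forall fun x => sq_nonneg _)]
    · congr 1
      have : ∀ x, (b i * hn (ix i) x) ^ 2 = b i ^ 2 * (hn (ix i) x * hn (ix i) x) := fun x => by ring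
      simp only [this]
      rw [integral_const_mul, int_hn _ _ (hix i) (hix i)]
      simp
    · refine Integrable.of_bound (C := (|b i| * Real.sqrt (2 ^ (ix i).1)) ^ 2)
        (((hn_meas _).const_mul _).pow_const 2).aestronglyMeasurable (Eventually.of_forall fun x => ?_)
      rw [norm_pow, norm_mul]
      gcongr
      · exact le_rfl
      · exact hn_le _ _
  have h2 : ∫⁻ x, ∑' i, ENNReal.ofReal ((b i * hn (ix i) x) ^ 2) ∂nu ≠ ⊤ := by
    rw [lintegral_tsum fun i => (hm i).aemeasurable]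
    simp only [h1]
    rw [← ENNReal.ofReal_tsum_of_nonneg (fun i => sq_nonneg _) hb]
    exact ENNReal.ofReal_ne_top
  filter_upwards [ae_lt_top (Measurable.ennreal_tsum hm) h2] with x hx
  have := ENNReal.summable_toReal hx.ne
  simpa [ENNReal.toReal_ofReal (sq_nonneg _)] using this

end Pool.Agent.H96.Haar
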