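import Mathlib
import Pool.Agent.H96.Haar

set_option autoImplicit false
open Filter Topology MeasureTheory

namespace Pool.Agent.H96.Haar

/-- block lengths given the block start -/
def len (j m : ℕ) : ℕ := 2 ^ (j + 2) * (2 + m * 2 ^ m)

/-- block starts -/
def M : ℕ → ℕ
  | 0 => 0
  | j + 1 => M j + len j (M j)

theorem len_pos (j m : ℕ) : 0 < len j m := by unfold len; positivity

theorem M_mono : StrictMono M := strictMono_nat_of_lt_succ fun j => by
  have := len_pos j (M j); rw [M]; omega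

theorem ex_blk (l : ℕ) : ∃ j, l < M (j + 1) := ⟨l, lt_of_lt_of_le (Nat.lt_succ_self l) (M_mono.id_le _)⟩

/-- block of a level -/
def blk (l : ℕ) : ℕ := Nat.find (ex_blk l)

theorem lt_blk (l : ℕ) : l < M (blk l + 1) := Nat.find_spec (ex_blk l)

theorem blk_le (l : ℕ) : M (blk l) ≤ l := by
  rcases h : blk l with _ | j
  · simp [M]
  · have := Nat.find_min (ex_blk l) (m := j) (by change j < blk l; omega)
    omega

theorem blk_eq (l j : ℕ) (h1 : M j ≤ l) (h2 : l < M (j + 1)) : blk l = j := by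
  have h3 : blk l < j + 1 := M_mono.lt_iff_lt.mp (lt_of_le_of_lt (blk_le l) h2)
  have h4 : j < blk l + 1 := M_mono.lt_iff_lt.mp (lt_of_le_of_lt h1 (lt_blk l))
  omega

/-- last level of the block -/
def N (l : ℕ) : ℕ := M (blk l + 1) - 1

theorem le_N (l : ℕ) : l ≤ N l := by have := lt_blk l; unfold N; omega

/-- Haar indices supported in the right half -/
def B (b : ℕ × ℕ) : Prop := 2 ^ b.1 ≤ 2 * b.2 ∧ b.2 < 2 ^ b.1

/-- first coordinate of the placement -/
def tt (b : ℕ × ℕ) : ℕ := (2 * b.2 + 1) * 2 ^ (N b.1 - b.1)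

/-- placement on anti-diagonals -/
def io (b : ℕ × ℕ) : ℕ × ℕ := (tt b, 3 * 2 ^ N b.1 - tt b)

theorem tt_bd (b : ℕ × ℕ) (hb : B b) : 2 ^ N b.1 < tt b ∧ tt b < 2 ^ (N b.1 + 1) := by
  obtain ⟨h1, h2⟩ := hb
  have h3 : 2 ^ N b.1 = 2 ^ b.1 * 2 ^ (N b.1 - b.1) := by
    rw [← pow_add]; congr 1; have := le_N b.1; omega
  have h4 : 0 < 2 ^ (N b.1 - b.1) := by positivity
  rw [pow_succ, h3, tt]
  constructor <;> nlinarith

theorem pow_sandwich (a c t : ℕ) (h1 : 2 ^ a < t) (h2 : t ≤ 2 ^ (a + 1)) (h3 : 2 ^ c < t)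
    (h4 : t ≤ 2 ^ (c + 1)) : a = c := by
  have h5 : a < c + 1 := (Nat.pow_lt_pow_iff_right (by norm_num : 1 < 2)).mp (lt_of_lt_of_le h1 h4)
  have h6 : c < a + 1 := (Nat.pow_lt_pow_iff_right (by norm_num : 1 < 2)).mp (lt_of_lt_of_le h3 h2)
  omega

theorem odd_pow_inj (p q e f : ℕ) (h : (2 * p + 1) * 2 ^ e = (2 * q + 1) * 2 ^ f) : e = f ∧ p = q := by
  induction e generalizing f with
  | zero =>
    rcases f with _ | f
    · simp at h; omega
    · rw [pow_succ, ← mul_assoc] at h; omega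
  | succ e ih =>
    rcases f with _ | f
    · rw [pow_succ, ← mul_assoc] at h; omega
    · rw [pow_succ, pow_succ, ← mul_assoc, ← mul_assoc] at h
      have := ih f (by omega)
      omega

theorem tt_inj (b c : ℕ × ℕ) (hb : B b) (hc : B c) (h : tt b = tt c) : b = c := by
  have h1 := tt_bd b hb
  have h2 := tt_bd c hc
  have h3 : N b.1 = N c.1 := pow_sandwich _ _ (tt b) h1.1 h1.2.le (h ▸ h2.1) (h ▸ h2.2.le)
  have h4 := odd_pow_inj _ _ _ _ h
  have h5 := le_N b.1
  have h6 := le_N c.1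
  ext <;> omega

/-- occupied places -/
def bad (q : ℕ × ℕ) : Prop := ∃ b, B b ∧ io b = q

open Classical in
/-- the Haar index put at a place -/
noncomputable def ix (q : ℕ × ℕ) : ℕ × ℕ :=
  if h : bad q then h.choose else (Nat.pair q.1 q.2 + 2, 1)

theorem ix_bad (q : ℕ × ℕ) (h : bad q) : B (ix q) ∧ io (ix q) = q := by
  rw [ix, dif_pos h]; exact h.choose_spec

theorem ix_good (q : ℕ × ℕ) (h : ¬ bad q) : ix q = (Nat.pair q.1 q.2 + 2, 1) := by
  rw [ix, dif_neg h]

theorem ix_io (b : ℕ × ℕ) (hb : B b) : ix (io b) = b := by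
  have := ix_bad (io b) ⟨b, hb, rfl⟩
  exact tt_inj _ _ this.1 hb (congrArg Prod.fst this.2)

theorem ix_valid (q : ℕ × ℕ) : (ix q).2 < 2 ^ (ix q).1 := by
  by_cases h : bad q
  · exact (ix_bad q h).1.2
  · rw [ix_good q h]; exact Nat.one_lt_two_pow (by simp)

theorem not_B (l : ℕ) : ¬ B (l + 2, 1) := by
  intro h
  have h1 := h.1
  have : 0 < 2 ^ l := by positivity
  simp only [pow_add] at h1
  omega

theorem ix_inj : Function.Injective ix := by
  intro q r h
  by_cases hq : bad q <;> by_cases hr : bad r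
  · rw [← (ix_bad q hq).2, h, (ix_bad r hr).2]
  · have := (ix_bad q hq).1
    rw [h, ix_good r hr] at this
    exact absurd this (not_B _)
  · have := (ix_bad r hr).1
    rw [← h, ix_good q hq] at this
    exact absurd this (not_B _)
  · rw [ix_good q hq, ix_good r hr] at h
    have h1 : Nat.pair q.1 q.2 = Nat.pair r.1 r.2 := by simpa using h
    have := Nat.pair_eq_pair.mp h1
    ext <;> tauto

open Classical in
/-- the weight -/
noncomputable def lam (m n : ℕ) : ℝ :=
  1 + ∑ i ∈ Finset.range (m + 1), ∑ k ∈ Finset.range (n + 1), if bad (i, k) then (1 : ℝ) else 0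

open Classical in
theorem lam_eq (m n : ℕ) : lam m n =
    1 + (((Finset.range (m + 1) ×ˢ Finset.range (n + 1)).filter bad).card : ℝ) := by
  rw [lam, ← Finset.sum_product' (f := fun i k => if bad (i, k) then (1 : ℝ) else 0)]
  simp

theorem lam_pos (m n : ℕ) : 0 < lam m n := by rw [lam_eq]; positivity

theorem lam_mono (p q : ℕ × ℕ) (h : p ≤ q) : lam p.1 p.2 ≤ lam q.1 q.2 := by
  classical
  rw [lam_eq, lam_eq]
  gcongr
  · exact h.1
  · exact h.2

theorem lam_delta (i k : ℕ) : 0 ≤ lam (i + 1) (k + 1) - lam (i + 1) k - lam i (k + 1) + lam i k := by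
  simp only [lam, Finset.sum_range_succ _ (i + 1), Finset.sum_range_succ _ (k + 1),
    Finset.sum_add_distrib]
  split_ifs <;> linarith

theorem lam_top : Tendsto (fun p : ℕ × ℕ => lam p.1 p.2) atTop atTop := by
  classical
  refine tendsto_atTop_atTop_of_monotone (fun p q h => lam_mono p q h) fun r => ?_
  have hB : ∀ l, B (l + 1, 2 ^ l) := fun l => by
    have : 0 < 2 ^ l := by positivity
    constructor <;> simp only [pow_succ] <;> omega
  have hinf : Set.Infinite {q | bad q} :=
    Set.infinite_of_injective_forall_mem (f := fun l => io (l + 1, 2 ^ l))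
      (fun l m h => by simpa using congrArg Prod.fst (tt_inj _ _ (hB l) (hB m) (congrArg Prod.fst h)))
      (fun l => ⟨_, hB l, rfl⟩)
  obtain ⟨s, hs, hc⟩ := hinf.exists_subset_card_eq ⌈r⌉₊
  obtain ⟨p, hp⟩ := s.bddAbove
  refine ⟨p, ?_⟩
  rw [lam_eq]
  have h1 : s.card ≤ ((Finset.range (p.1 + 1) ×ˢ Finset.range (p.2 + 1)).filter bad).card := by
    apply Finset.card_le_card
    intro q hq
    have h2 := hp hq
    simp only [Finset.mem_filter, Finset.mem_product, Finset.mem_range]
    exact ⟨⟨Nat.lt_succ_of_le h2.1, Nat.lt_succ_of_le h2.2⟩, hs hq⟩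
  have h2 := Nat.le_ceil r
  have h3 : (s.card : ℝ) ≤ _ := Nat.cast_le.mpr h1
  rw [hc] at h3
  linarith

theorem N_mono (l m : ℕ) (h : N l < N m ∨ blk l < blk m) : l < M (blk m) := by
  have h1 : blk l < blk m := by
    rcases h with h | h
    · by_contra h2
      have := M_mono.monotone (show blk m + 1 ≤ blk l + 1 by omega)
      unfold N at h; omega
    · exact h
  exact lt_of_lt_of_le (lt_blk l) (M_mono.monotone h1)

theorem lam_io (b : ℕ × ℕ) (hb : B b) :
    lam (io b).1 (io b).2 ≤ ((2 + M (blk b.1) * 2 ^ M (blk b.1) : ℕ) : ℝ) := by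
  classical
  rw [lam_eq]
  have h1 : (Finset.range ((io b).1 + 1) ×ˢ Finset.range ((io b).2 + 1)).filter bad ⊆
      insert (io b) ((Finset.range (M (blk b.1)) ×ˢ Finset.range (2 ^ M (blk b.1))).image io) := by
    intro q hq
    simp only [Finset.mem_filter, Finset.mem_product, Finset.mem_range] at hq
    obtain ⟨⟨h1, h2⟩, c, hc, rfl⟩ := hq
    have h3 := tt_bd b hb
    have h4 := tt_bd c hc
    simp only [io, pow_succ] at h1 h2 h3 h4
    rcases lt_trichotomy (N c.1) (N b.1) with h5 | h5 | h5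
    · have h6 := N_mono _ _ (Or.inl h5)
      refine Finset.mem_insert_of_mem (Finset.mem_image_of_mem _ ?_)
      simp only [Finset.mem_product, Finset.mem_range]
      exact ⟨h6, lt_trans hc.2 (Nat.pow_lt_pow_right (by norm_num) h6)⟩
    · rw [h5] at h2 h4
      rw [tt_inj c b hc hb (by omega)]
      exact Finset.mem_insert_self _ _
    · have : 2 ^ (N b.1 + 1) ≤ 2 ^ N c.1 := Nat.pow_le_pow_right (by norm_num) h5
      rw [pow_succ] at this
      omega
  have h2 := (Finset.card_le_card h1).trans (Finset.card_insert_le _ _)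
  have h3 := Finset.card_image_le (s := Finset.range (M (blk b.1)) ×ˢ Finset.range (2 ^ M (blk b.1)))
    (f := io)
  rw [Finset.card_product, Finset.card_range, Finset.card_range] at h3
  have h4 : 1 + ((Finset.range ((io b).1 + 1) ×ˢ Finset.range ((io b).2 + 1)).filter bad).card ≤
    2 + M (blk b.1) * 2 ^ M (blk b.1) := by omega
  exact_mod_cast h4

end Pool.Agent.H96.Haar
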