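import Mathlib

set_option autoImplicit false
open Complex

namespace Pool.Agent.H96.HarmIneq

/-- comparison function of growth r (log r)^(3/2) -/
noncomputable def V (z : ℂ) : ℂ := exp (log z + (3 / 2 : ℝ) * log (log z))

/-- modulus factor -/
noncomputable def F (z : ℂ) : ℝ := Real.exp (3 / 2 * Real.log ‖log z‖)

theorem F_pos (z : ℂ) : 0 < F z := Real.exp_pos _

theorem V_re (z : ℂ) (hz : z ≠ 0) :
    (V z).re = ‖z‖ * F z * Real.cos (|arg z| + 3 / 2 * |arg (log z)|) := by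
  rw [V, exp_re, add_re, add_im, re_ofReal_mul, im_ofReal_mul, log_re, log_re, log_im, log_im,
    Real.exp_add, Real.exp_log (norm_pos_iff.mpr hz), F]
  congr 1
  rcases le_or_gt 0 (arg z) with h | h
  · have : 0 ≤ arg (log z) := arg_nonneg_iff.mpr (by rwa [log_im])
    rw [abs_of_nonneg h, abs_of_nonneg this]
  · have : arg (log z) < 0 := arg_neg_iff.mpr (by rwa [log_im])
    rw [abs_of_neg h, abs_of_neg this, ← Real.cos_neg]
    congr 1; ring

theorem re_eq (z : ℂ) : z.re = ‖z‖ * Real.cos |arg z| := by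
  rw [Real.cos_abs, norm_mul_cos_arg]

theorem im_eq (z : ℂ) : |z.im| = ‖z‖ * Real.sin |arg z| := by
  rw [← norm_mul_sin_arg, abs_mul, abs_norm]
  congr 1
  rcases le_or_gt 0 (arg z) with h | h
  · rw [abs_of_nonneg h, abs_of_nonneg (Real.sin_nonneg_of_nonneg_of_le_pi h (arg_le_pi z))]
  · rw [abs_of_neg h, Real.sin_neg, abs_of_nonpos
      (Real.sin_nonpos_of_nonpos_of_neg_pi_le h.le (neg_pi_lt_arg z).le)]

theorem im_arg (z : ℂ) : z.im * arg z = |z.im| * |arg z| := by
  rw [← abs_mul, abs_of_nonneg]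
  rcases le_or_gt 0 (arg z) with h | h
  · exact mul_nonneg (arg_nonneg_iff.mp h) h
  · exact mul_nonneg_of_nonpos_of_nonpos (arg_neg_iff.mp h).le h.le

theorem V_le (z : ℂ) (hz : z ≠ 0) (h0 : 0 ≤ z.re) (h1 : 0 ≤ Real.log ‖z‖) : (V z).re ≤ z.re * F z := by
  have h2 := abs_arg_le_pi_div_two_iff.mpr h0
  have h3 : |arg (log z)| ≤ Real.pi / 2 := abs_arg_le_pi_div_two_iff.mpr (by rwa [log_re])
  have h4 := abs_nonneg (arg z)
  have h5 := abs_nonneg (arg (log z))
  have h6 := Real.pi_pos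
  rw [V_re z hz, re_eq z, mul_right_comm ‖z‖ (Real.cos _)]
  refine mul_le_mul_of_nonneg_left ?_ (mul_nonneg (norm_nonneg _) (F_pos z).le)
  rcases le_total (|arg z| + 3 / 2 * |arg (log z)|) Real.pi with h | h
  · exact Real.cos_le_cos_of_nonneg_of_le_pi h4 h (by linarith)
  · exact (Real.cos_nonpos_of_pi_div_two_le_of_le (by linarith) (by linarith)).trans
      (Real.cos_nonneg_of_neg_pi_div_two_le_of_le (by linarith) h2)

theorem norm_log_le (z : ℂ) (h0 : 0 ≤ z.re) (h1 : 0 ≤ Real.log ‖z‖) :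
    Real.log ‖z‖ ≤ ‖log z‖ ∧ ‖log z‖ ≤ Real.log ‖z‖ + 2 := by
  have h2 := abs_arg_le_pi_div_two_iff.mpr h0
  have h3 := norm_le_abs_re_add_abs_im (log z)
  have h4 := re_le_norm (log z)
  rw [log_re] at h3 h4
  rw [log_im, abs_of_nonneg h1] at h3
  exact ⟨h4, by linarith [Real.pi_le_four]⟩

theorem F_le (z : ℂ) (h0 : 0 ≤ z.re) (h1 : 50 ≤ Real.log ‖z‖) (s : ℝ) (hs : 0 < s)
    (h2 : Real.log ‖z‖ ≤ s ^ 2) : F z ≤ 8 * s ^ 3 := by
  obtain ⟨h3, h4⟩ := norm_log_le z h0 (by linarith)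
  have h5 : Real.log ‖log z‖ ≤ Real.log ((2 * s) ^ 2) :=
    Real.log_le_log (by linarith) (by nlinarith)
  rw [Real.log_pow] at h5
  calc F z ≤ Real.exp (3 * Real.log (2 * s)) := Real.exp_le_exp.mpr (by push_cast at h5; linarith)
    _ = 8 * s ^ 3 := by
      rw [show (3 : ℝ) = (3 : ℕ) by norm_num, Real.exp_nat_mul, Real.exp_log (by positivity)]; ring

theorem mul_log_re (z : ℂ) : (z * log z).re = z.re * Real.log ‖z‖ - |z.im| * |arg z| := by
  rw [mul_re, log_re, log_im, im_arg]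

theorem maj_lower (z : ℂ) (h0 : 0 ≤ z.re) (h1 : 50 ≤ Real.log ‖z‖) (h2 : 0 < (V z).re) :
    ‖z‖ ≤ 2 * (z * log z).re := by
  have hz : z ≠ 0 := by rintro rfl; norm_num at h1
  obtain ⟨h3, h4⟩ := norm_log_le z h0 (by linarith)
  have h5 := abs_arg_le_pi_div_two_iff.mpr h0
  have h6 : |arg (log z)| ≤ Real.pi / 2 := abs_arg_le_pi_div_two_iff.mpr (by rw [log_re]; linarith)
  have h7 := im_eq (log z)
  rw [log_im] at h7
  rw [V_re z hz] at h2
  rw [mul_log_re, re_eq z, im_eq z]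
  set p := |arg z| with hp
  set q := |arg (log z)| with hq
  set l := Real.log ‖z‖
  set N := ‖log z‖
  have hp0 : 0 ≤ p := abs_nonneg _
  have hq0 : 0 ≤ q := abs_nonneg _
  have hpi := Real.pi_gt_three
  have hpi2 := Real.pi_lt_d2
  have h8 : p + 3 / 2 * q < Real.pi / 2 := by
    by_contra h
    have := Real.cos_nonpos_of_pi_div_two_le_of_le (not_lt.mp h) (by linarith)
    have := mul_nonpos_of_nonneg_of_nonpos (mul_nonneg (norm_nonneg z) (F_pos z).le) this
    linarith
  have h9 : p ≤ N * q := h7 ▸ mul_le_mul_of_nonneg_left (Real.sin_le hq0) (by linarith)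
  have h10 : Real.cos p = Real.sin (Real.pi / 2 - p) := (Real.sin_pi_div_two_sub p).symm
  have h11 : Real.sin p * p ≤ p := mul_le_of_le_one_left hp0 (Real.sin_le_one p)
  have h12 : 1 ≤ 2 * (Real.cos p * l - Real.sin p * p) := by
    set d := Real.pi / 2 - p with hd
    rcases le_total d (1 / 10) with h | h
    · have h13 := Real.sin_gt_sub_cube (show 0 < d by linarith)
      have h14 : d ^ 3 ≤ d / 100 := by nlinarith [show 0 < d by linarith, show d ^ 2 ≤ 1 / 100 by nlinarith]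
      have h15 : 399 / 400 * d ≤ Real.cos p := by rw [h10]; linarith
      have h16 : p ≤ (l + 2) * q := h9.trans (mul_le_mul_of_nonneg_right h4 hq0)
      have h17 : p ≤ 26 / 25 * (l * q) := by nlinarith
      have h18 : 399 / 400 * (3 / 2 * q) * l ≤ Real.cos p * l :=
        mul_le_mul_of_nonneg_right (by linarith) (by linarith)
      nlinarith
    · have h13 := Real.mul_le_sin (x := d) (by linarith) (by linarith)
      have h14 : 1 / 2 ≤ 2 / Real.pi := by rw [le_div_iff₀ (by linarith)]; linarith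
      have h15 : 1 / 20 ≤ Real.cos p := by rw [h10]; nlinarith
      nlinarith
  nlinarith [norm_nonneg z]

theorem bar_upper (z : ℂ) (h0 : 0 ≤ z.re) (h1 : 50 ≤ Real.log ‖z‖) :
    z.re * Real.log ‖z‖ ^ 2 / 2 - (z * log z ^ 2).re ≤ 8 * (|z.im| * Real.posLog |z.im|) := by
  have hz : z ≠ 0 := by rintro rfl; norm_num at h1
  have h5 := abs_arg_le_pi_div_two_iff.mpr h0
  have h2 : (z * log z ^ 2).re = z.re * (Real.log ‖z‖ ^ 2 - |arg z| ^ 2) -
      2 * (|z.im| * |arg z|) * Real.log ‖z‖ := by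
    rw [← im_arg, sq_abs, sq (log z), mul_re, mul_re, mul_im, log_re, log_im]; ring
  rw [h2]
  set p := |arg z| with hp
  set l := Real.log ‖z‖ with hl
  set y := |z.im| with hy
  have hp0 : 0 ≤ p := abs_nonneg _
  have hy0 : 0 ≤ y := abs_nonneg _
  have hp2 : p ≤ 2 := by linarith [Real.pi_le_four]
  have h3 : 2 * (y * p) * l ≤ 4 * (y * l) := by nlinarith [mul_nonneg hy0 (show 0 ≤ l by linarith)]
  have h4 : z.re * p ^ 2 ≤ z.re * 4 := mul_le_mul_of_nonneg_left (by nlinarith) h0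
  have h6 : 0 ≤ y * Real.posLog y := mul_nonneg hy0 Real.posLog_nonneg
  rcases le_total y z.re with h | h
  · have h7 : y * l ≤ z.re * l := mul_le_mul_of_nonneg_right h (by linarith)
    have h8 : z.re * (4 * l + 4) ≤ z.re * (l ^ 2 / 2) := mul_le_mul_of_nonneg_left (by nlinarith) h0
    nlinarith
  · have h7 : ‖z‖ ≤ 2 * y := by
      have := norm_le_abs_re_add_abs_im z
      rw [abs_of_nonneg h0] at this
      linarith
    have h8 : 0 < y := by linarith [norm_pos_iff.mpr hz]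
    have h9 : l ≤ Real.log (2 * y) := Real.log_le_log (norm_pos_iff.mpr hz) h7
    rw [Real.log_mul two_ne_zero h8.ne'] at h9
    have h10 : Real.log y ≤ Real.posLog y := le_max_right _ _
    have h11 : l ≤ 2 * Real.posLog y := by linarith [Real.log_two_lt_d9]
    have h12 : y * l ≤ y * (2 * Real.posLog y) := mul_le_mul_of_nonneg_left h11 hy0
    have h8 : z.re * 4 ≤ z.re * (l ^ 2 / 2) := mul_le_mul_of_nonneg_left (by nlinarith) h0
    nlinarith

theorem side_bound (z w : ℂ) (h0 : 0 < z.re) (h1 : 50 ≤ Real.log ‖z‖) (h2 : 0 < (V z).re)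
    (hw : w.re = z.re) : |w.im| ≤ 12 * (z * log z).re - 4 / 3 * (w * log w).re := by
  have h3 := maj_lower z h0.le h1 h2
  have h5 := abs_arg_le_pi_div_two_iff.mpr h0.le
  have h4 : |z.im| * |arg z| ≤ ‖z‖ * 2 :=
    mul_le_mul (abs_im_le_norm z) (by linarith [Real.pi_le_four]) (abs_nonneg _) (norm_nonneg _)
  have h6 := mul_log_re z
  have h7 : z.re * Real.log z.re ≤ z.re * Real.log ‖z‖ :=
    mul_le_mul_of_nonneg_left (Real.log_le_log h0 (re_le_norm z)) h0.le
  have h8 := re_le_norm z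
  rw [mul_log_re w, hw]
  set x := z.re
  set t := |w.im| with ht
  have ht0 : 0 ≤ t := abs_nonneg _
  have h9 : ‖w‖ ≤ x + t := by
    have := norm_le_abs_re_add_abs_im w
    rwa [hw, abs_of_pos h0] at this
  have h10 : 0 < ‖w‖ := lt_of_lt_of_le h0 (hw ▸ re_le_norm w)
  have h11 : t ≤ (x + t) * |arg w| := by
    rw [ht, im_eq w]
    exact mul_le_mul (by rwa [← im_eq w]) (Real.sin_le (abs_nonneg _))
      (Real.sin_nonneg_of_nonneg_of_le_pi (abs_nonneg _) (abs_arg_le_pi w)) (by rw [← im_eq w]; linarith)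
  have h12 : t - x ≤ t * |arg w| := by
    by_contra h
    have h13 := mul_le_mul_of_nonneg_left h11 ht0
    nlinarith [mul_lt_mul_of_pos_left (not_le.mp h) (show 0 < x + t by linarith)]
  have h13 : Real.log ‖w‖ ≤ Real.log x + 2 * Real.log 2 + ((x + t) / (4 * x) - 1) := by
    have h14 := Real.log_le_sub_one_of_pos (show 0 < (x + t) / (4 * x) by positivity)
    rw [Real.log_div (by linarith) (by positivity), Real.log_mul (by norm_num) h0.ne',
      show (4 : ℝ) = 2 ^ 2 by norm_num, Real.log_pow] at h14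
    have h15 := Real.log_le_log h10 h9
    push_cast at h14
    norm_num at h14 ⊢
    linarith
  have h14 : x * Real.log ‖w‖ ≤ x * Real.log x + x + t / 4 := by
    have h15 := mul_le_mul_of_nonneg_left h13 h0.le
    have h16 : x * ((x + t) / (4 * x)) = (x + t) / 4 := by field_simp
    have h17 : x * Real.log 2 ≤ x * (7 / 10) :=
      mul_le_mul_of_nonneg_left (by linarith [Real.log_two_lt_d9]) h0.le
    nlinarith
  linarith

theorem V_analytic (z : ℂ) (h0 : 0 ≤ z.re) (h1 : 0 < Real.log ‖z‖) :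
    AnalyticAt ℂ log z ∧ AnalyticAt ℂ V z := by
  have hz : z ≠ 0 := by rintro rfl; norm_num at h1
  have h2 : z ∈ slitPlane := by
    rcases h0.lt_or_eq with h | h
    · exact Or.inl h
    · exact Or.inr fun h3 => hz (Complex.ext h.symm h3)
  have h3 := analyticAt_clog h2
  exact ⟨h3, (h3.add (analyticAt_const.mul (h3.clog (Or.inl (by rwa [log_re]))))).cexp⟩

end Pool.Agent.H96.HarmIneq
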