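import Mathlib

/-! Cube combinatorics: variance bound, Hamming balls. -/

namespace Pool.Agent.H96.LV

open Finset

/-- Hamming weight. -/
def wt {ι : Type} [Fintype ι] (x : ι → ZMod 2) : ℕ := (univ.filter (fun i => x i ≠ 0)).card

theorem two_z {ι : Type} (x : ι → ZMod 2) : x + x = 0 := by
  funext i
  have : ∀ a : ZMod 2, a + a = 0 := by decide
  exact this _

theorem wt_add {ι : Type} [Fintype ι] (x y : ι → ZMod 2) : wt (x + y) ≤ wt x + wt y := by
  classical
  unfold wt
  refine le_trans (card_le_card ?_) (card_union_le _ _)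
  intro i hi
  simp only [mem_filter, mem_univ, true_and, mem_union, Pi.add_apply] at hi ⊢
  by_contra h
  push Not at h
  exact hi (by rw [h.1, h.2, add_zero])

theorem wt_zero {ι : Type} [Fintype ι] : wt (0 : ι → ZMod 2) = 0 := by simp [wt]

theorem wt_eq_zero {ι : Type} [Fintype ι] {x : ι → ZMod 2} (h : wt x = 0) : x = 0 := by
  unfold wt at h
  rw [card_eq_zero, filter_eq_empty_iff] at h
  funext i
  simpa using h (mem_univ i)

theorem wt_single {ι : Type} [Fintype ι] [DecidableEq ι] (i : ι) :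
    wt (Pi.single i 1 : ι → ZMod 2) ≤ 1 := by
  unfold wt
  refine le_trans (card_le_card (t := {i}) ?_) (by simp)
  intro j hj
  simp only [mem_filter, mem_univ, true_and] at hj
  by_contra h
  exact hj (Pi.single_eq_of_ne (by simpa using h) _)

theorem wt_one_add {ι : Type} [Fintype ι] (x : ι → ZMod 2) :
    wt (x + 1) + wt x = Fintype.card ι := by
  unfold wt
  have : ∀ a : ZMod 2, a + 1 ≠ 0 ↔ ¬ (a ≠ 0) := by decide
  simp only [Pi.add_apply, Pi.one_apply, this]
  rw [add_comm, card_filter_add_card_filter_not, card_univ]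

theorem wt_real {ι : Type} [Fintype ι] (x : ι → ZMod 2) :
    (wt x : ℝ) = ∑ i, if x i ≠ 0 then (1:ℝ) else 0 := by
  unfold wt
  rw [card_filter]
  push_cast
  rfl

theorem const_of_inv {ι : Type} [Fintype ι] [DecidableEq ι] (f : (ι → ZMod 2) → ℝ)
    (h : ∀ i x, f (x + Pi.single i 1) = f x) (x : ι → ZMod 2) : f x = f 0 := by
  have key : ∀ s : Finset ι, f (∑ i ∈ s, Pi.single i (x i)) = f 0 := by
    intro s
    induction s using Finset.induction_on with
    | empty => simp
    | insert a s ha ih =>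
      rw [sum_insert ha, add_comm]
      have : ∀ a : ZMod 2, a = 0 ∨ a = 1 := by decide
      rcases this (x a) with h0 | h1
      · rw [h0]; simpa using ih
      · rw [h1, h, ih]
  have := key univ
  rwa [univ_sum_single] at this

theorem sum_shift {ι : Type} [Fintype ι] [DecidableEq ι] (f : (ι → ZMod 2) → ℝ)
    (v : ι → ZMod 2) : ∑ x, f (x + v) = ∑ x, f x :=
  Fintype.sum_equiv (Equiv.addRight v) _ _ (fun _ => rfl)

theorem es_aux {ι : Type} [Fintype ι] [DecidableEq ι] (c : ι → ℝ) (s : Finset ι) :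
    ∀ f : (ι → ZMod 2) → ℝ, (∀ i, i ∉ s → ∀ x, f (x + Pi.single i 1) = f x) →
      (∀ i x, |f (x + Pi.single i 1) - f x| ≤ c i) → ∑ x, f x = 0 →
      ∑ x, f x ^ 2 ≤ (Fintype.card (ι → ZMod 2) : ℝ) * ∑ i ∈ s, c i ^ 2 / 4 := by
  induction s using Finset.induction_on with
  | empty =>
    intro f h1 _ h3
    have hc : ∀ x, f x = f 0 := const_of_inv f (fun i x => h1 i (by simp) x)
    have h0 : f 0 = 0 := by
      rw [sum_congr rfl (fun x _ => hc x), sum_const, card_univ, nsmul_eq_mul] at h3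
      have : (0:ℝ) < Fintype.card (ι → ZMod 2) := by exact_mod_cast Fintype.card_pos
      rcases mul_eq_zero.1 h3 with h | h
      · linarith
      · exact h
    rw [sum_congr rfl (fun x _ => by rw [hc x, h0])]
    simp
  | insert a s ha ih =>
    intro f h1 h2 h3
    set e : ι → ZMod 2 := Pi.single a 1 with he
    set g : (ι → ZMod 2) → ℝ := fun x => (f x + f (x + e)) / 2 with hg
    have hg1 : ∀ i, i ∉ s → ∀ x, g (x + Pi.single i 1) = g x := by
      intro i hi x
      by_cases hia : i = a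
      · subst hia
        simp only [hg]
        rw [← he, add_assoc, two_z, add_zero, add_comm]
      · have hi' : i ∉ insert a s := by simp [hia, hi]
        simp only [hg]
        rw [h1 i hi', add_right_comm, h1 i hi']
    have hg2 : ∀ i x, |g (x + Pi.single i 1) - g x| ≤ c i := by
      intro i x
      simp only [hg]
      have a1 := h2 i x
      have a2 := h2 i (x + e)
      rw [add_right_comm x (Pi.single i 1) e]
      rw [abs_le] at a1 a2 ⊢
      constructor <;> linarith [a1.1, a1.2, a2.1, a2.2]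
    have hg3 : ∑ x, g x = 0 := by
      simp only [hg]
      rw [← sum_div, sum_add_distrib, sum_shift f e, h3]
      simp
    have IH := ih g hg1 hg2 hg3
    have hsplit : ∑ x, f x ^ 2 = ∑ x, g x ^ 2 + ∑ x, (f (x + e) - f x) ^ 2 / 4 := by
      have := sum_shift (fun x => f x ^ 2) e
      have h5 : ∑ x, (g x ^ 2 + (f (x + e) - f x) ^ 2 / 4) =
          ∑ x, (f x ^ 2 / 2 + f (x + e) ^ 2 / 2) := by
        refine sum_congr rfl fun x _ => ?_
        simp only [hg]
        ring
      rw [← sum_add_distrib, h5, sum_add_distrib, ← sum_div, ← sum_div, this]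
      ring
    have hb : ∑ x, (f (x + e) - f x) ^ 2 / 4 ≤
        (Fintype.card (ι → ZMod 2) : ℝ) * (c a ^ 2 / 4) := by
      have : ∀ x ∈ (univ : Finset (ι → ZMod 2)), (f (x + e) - f x) ^ 2 / 4 ≤ c a ^ 2 / 4 := by
        intro x _
        have a1 := h2 a x
        rw [← he] at a1
        have := sq_le_sq' (by rw [abs_le] at a1; exact a1.1) (by rw [abs_le] at a1; exact a1.2)
        linarith
      refine le_trans (sum_le_sum this) ?_
      rw [sum_const, card_univ, nsmul_eq_mul]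
    rw [sum_insert ha, mul_add, hsplit]
    linarith

theorem es {ι : Type} [Fintype ι] [DecidableEq ι] (c : ι → ℝ) (f : (ι → ZMod 2) → ℝ)
    (h2 : ∀ i x, |f (x + Pi.single i 1) - f x| ≤ c i) (h3 : ∑ x, f x = 0) :
    ∑ x, f x ^ 2 ≤ (Fintype.card (ι → ZMod 2) : ℝ) * ∑ i, c i ^ 2 / 4 :=
  es_aux c univ f (fun i hi => absurd (mem_univ i) hi) h2 h3

theorem cheb {α : Type} [Fintype α] (f : α → ℝ) (S : Finset α) (m : ℝ) (hm : 0 ≤ m)
    (h : ∀ x ∈ S, m ≤ |f x|) : (S.card : ℝ) * m ^ 2 ≤ ∑ x, f x ^ 2 := by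
  calc (S.card : ℝ) * m ^ 2 = ∑ _x ∈ S, m ^ 2 := by rw [sum_const, nsmul_eq_mul]
    _ ≤ ∑ x ∈ S, f x ^ 2 := by
      refine sum_le_sum fun x hx => ?_
      rw [← sq_abs (f x)]
      exact pow_le_pow_left₀ hm (h x hx) 2
    _ ≤ ∑ x, f x ^ 2 := sum_le_sum_of_subset_of_nonneg (subset_univ _) (fun _ _ _ => sq_nonneg _)

/-- concentration on the cube -/
theorem cube_conc {ι : Type} [Fintype ι] [DecidableEq ι] (t w : ℝ) (ht : 0 < t) (hw : 0 < w)
    (hd : (Fintype.card ι : ℝ) * t ≤ w ^ 2) (S : Finset (ι → ZMod 2))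
    (hS : (Fintype.card (ι → ZMod 2) : ℝ) ≤ t * S.card) :
    t * ((univ.filter (fun x : ι → ZMod 2 => ∀ s ∈ S, w ≤ (wt (x + s) : ℝ))).card : ℝ) ≤
      (Fintype.card (ι → ZMod 2) : ℝ) := by
  set N : ℝ := (Fintype.card (ι → ZMod 2) : ℝ) with hN
  have hN0 : 0 < N := by rw [hN]; exact_mod_cast Fintype.card_pos
  have hne : S.Nonempty := by
    rw [← card_pos]
    by_contra h
    have : S.card = 0 := by omega
    rw [this] at hS
    simp at hS
    linarith
  set f : (ι → ZMod 2) → ℝ := fun x => S.inf' hne (fun s => (wt (x + s) : ℝ)) with hf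
  have hlip : ∀ i x, f (x + Pi.single i 1) ≤ f x + 1 := by
    intro i x
    obtain ⟨s, hs, hs'⟩ := exists_mem_eq_inf' hne (fun s => (wt (x + s) : ℝ))
    have h1 : f (x + Pi.single i 1) ≤ (wt (x + Pi.single i 1 + s) : ℝ) :=
      inf'_le (fun s => (wt (x + Pi.single i 1 + s) : ℝ)) hs
    have h2 : wt (x + Pi.single i 1 + s) ≤ wt (x + s) + 1 := by
      rw [add_right_comm]
      exact le_trans (wt_add _ _) (Nat.add_le_add_left (wt_single i) _)
    have h3 : f x = (wt (x + s) : ℝ) := hs'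
    have h4 : (wt (x + Pi.single i 1 + s) : ℝ) ≤ wt (x + s) + 1 := by exact_mod_cast h2
    linarith
  set a : ℝ := (∑ x, f x) / N with ha
  have hvar := es (fun _ => (1:ℝ)) (fun x => f x - a) (by
    intro i x
    have h1 := hlip i x
    have h2 := hlip i (x + Pi.single i 1)
    rw [add_assoc, two_z, add_zero] at h2
    rw [abs_le]
    constructor <;> linarith) (by
    rw [sum_sub_distrib, sum_const, card_univ, nsmul_eq_mul, ← hN, ha]
    field_simp
    ring)
  rw [sum_const, card_univ, nsmul_eq_mul, ← hN] at hvar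
  have hf0 : ∀ x, 0 ≤ f x := fun x => le_inf' hne _ (fun s _ => Nat.cast_nonneg _)
  have ha0 : 0 ≤ a := div_nonneg (sum_nonneg fun x _ => hf0 x) hN0.le
  have h1 := cheb (fun x => f x - a) S a ha0 (by
    intro x hx
    have : f x ≤ 0 := by
      have h1 : f x ≤ (wt (x + x) : ℝ) := inf'_le (fun s => (wt (x + s) : ℝ)) hx
      rw [two_z, wt_zero] at h1
      simpa using h1
    have h0 : f x = 0 := le_antisymm this (hf0 x)
    simp only [h0, zero_sub, abs_neg]
    exact le_abs_self a)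
  have haw : a ≤ w / 2 := by
    by_contra hcon
    push Not at hcon
    have h5 : (w / 2) ^ 2 < a ^ 2 := by nlinarith
    have hSpos : (0:ℝ) < S.card := by exact_mod_cast hne.card_pos
    have h6 : (S.card : ℝ) * a ^ 2 ≤ N * (Fintype.card ι * (1 ^ 2 / 4)) := le_trans h1 hvar
    have h7 : N * (Fintype.card ι * (1 ^ 2 / 4)) ≤ t * S.card * (Fintype.card ι * (1 ^ 2 / 4)) :=
      mul_le_mul_of_nonneg_right hS (by positivity)
    have h8 : (S.card : ℝ) * (w / 2) ^ 2 < S.card * a ^ 2 := mul_lt_mul_of_pos_left h5 hSpos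
    have h9 : (S.card : ℝ) * (Fintype.card ι * t) ≤ S.card * w ^ 2 :=
      mul_le_mul_of_nonneg_left hd hSpos.le
    nlinarith
  have h2 := cheb (fun x => f x - a)
    (univ.filter (fun x : ι → ZMod 2 => ∀ s ∈ S, w ≤ (wt (x + s) : ℝ))) (w / 2) (by positivity) (by
    intro x hx
    simp only [mem_filter, mem_univ, true_and] at hx
    have : w ≤ f x := le_inf' hne _ hx
    exact le_trans (by linarith) (le_abs_self _))
  set F : ℝ := ((univ.filter (fun x : ι → ZMod 2 => ∀ s ∈ S, w ≤ (wt (x + s) : ℝ))).card : ℝ)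
  have h6 : F * (w / 2) ^ 2 ≤ N * (Fintype.card ι * (1 ^ 2 / 4)) := le_trans h2 hvar
  have h7 : t * F * w ^ 2 ≤ N * w ^ 2 := by
    have : N * (Fintype.card ι * t) ≤ N * w ^ 2 := mul_le_mul_of_nonneg_left hd hN0.le
    nlinarith
  exact le_of_mul_le_mul_right h7 (by positivity)

theorem layer_le {s : ℕ} (k : ℕ) :
    (univ.filter (fun x : Fin s → ZMod 2 => wt x = k)).card ≤ s.choose k := by
  have : s.choose k = (powersetCard k (univ : Finset (Fin s))).card := by
    rw [card_powersetCard, card_univ, Fintype.card_fin]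
  rw [this]
  refine card_le_card_of_injOn (fun x => univ.filter (fun i => x i ≠ 0)) ?_ ?_
  · intro x hx
    simp only [coe_filter, mem_univ, true_and, Set.mem_ofPred_eq] at hx
    simp only [mem_coe, mem_powersetCard, subset_univ, true_and]
    exact hx
  · intro x _ y _ hxy
    funext i
    have h1 : ∀ a b : ZMod 2, (a ≠ 0 ↔ b ≠ 0) → a = b := by decide
    apply h1
    have := congrArg (fun S : Finset (Fin s) => i ∈ S) hxy
    simpa using this

theorem cb_sq (n : ℕ) : n.centralBinom ^ 2 * (2 * n + 1) ≤ 16 ^ n := by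
  induction n with
  | zero => simp
  | succ n ih =>
    have h := Nat.succ_mul_centralBinom_succ n
    have h2 : (n + 1) ^ 2 * ((n + 1).centralBinom ^ 2 * (2 * (n + 1) + 1)) ≤
        (n + 1) ^ 2 * 16 ^ (n + 1) := by
      calc (n + 1) ^ 2 * ((n + 1).centralBinom ^ 2 * (2 * (n + 1) + 1))
          = ((n + 1) * (n + 1).centralBinom) ^ 2 * (2 * n + 3) := by ring
        _ = (n.centralBinom ^ 2 * (2 * n + 1)) * (4 * ((2 * n + 1) * (2 * n + 3))) := by
          rw [h]; ring
        _ ≤ 16 ^ n * (16 * (n + 1) ^ 2) := Nat.mul_le_mul ih (by nlinarith)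
        _ = (n + 1) ^ 2 * 16 ^ (n + 1) := by ring
    exact Nat.le_of_mul_le_mul_left h2 (by positivity)

theorem card_cube (s : ℕ) : Fintype.card (Fin s → ZMod 2) = 2 ^ s := by
  simp [ZMod.card]

theorem atom_le (a k : ℕ) :
    4 * a * (univ.filter (fun x : Fin (16 * a ^ 2) → ZMod 2 => wt x = k)).card ≤
      2 ^ (16 * a ^ 2) := by
  have h1 := layer_le (s := 16 * a ^ 2) k
  have h2 : (16 * a ^ 2).choose k ≤ (8 * a ^ 2).centralBinom := by
    have := Nat.choose_le_centralBinom k (8 * a ^ 2)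
    rwa [show 2 * (8 * a ^ 2) = 16 * a ^ 2 by ring] at this
  have h3 := cb_sq (8 * a ^ 2)
  have h4 : (4 * a * (8 * a ^ 2).centralBinom) ^ 2 ≤ (2 ^ (16 * a ^ 2)) ^ 2 := by
    calc (4 * a * (8 * a ^ 2).centralBinom) ^ 2
        = (8 * a ^ 2).centralBinom ^ 2 * (2 * (8 * a ^ 2)) := by ring
      _ ≤ (8 * a ^ 2).centralBinom ^ 2 * (2 * (8 * a ^ 2) + 1) :=
        Nat.mul_le_mul_left _ (Nat.le_succ _)
      _ ≤ 16 ^ (8 * a ^ 2) := h3
      _ = (2 ^ (16 * a ^ 2)) ^ 2 := by
        rw [← pow_mul, show (16:ℕ) = 2 ^ 4 by norm_num, ← pow_mul]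
        congr 1
        ring
  have h5 := (Nat.pow_le_pow_iff_left (by norm_num : (2:ℕ) ≠ 0)).1 h4
  exact le_trans (Nat.mul_le_mul_left _ (le_trans h1 h2)) h5

theorem layers_le (a lo m : ℕ) :
    4 * a * (univ.filter (fun x : Fin (16 * a ^ 2) → ZMod 2 => lo ≤ wt x ∧ wt x < lo + m)).card ≤
      m * 2 ^ (16 * a ^ 2) := by
  induction m with
  | zero =>
    have : (univ.filter (fun x : Fin (16 * a ^ 2) → ZMod 2 => lo ≤ wt x ∧ wt x < lo + 0)) = ∅ := by
      rw [filter_eq_empty_iff]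
      intro x _ h
      omega
    rw [this]
    simp
  | succ m ih =>
    have h1 := atom_le a (lo + m)
    have h2 : (univ.filter (fun x : Fin (16 * a ^ 2) → ZMod 2 =>
        lo ≤ wt x ∧ wt x < lo + (m + 1))).card ≤
        (univ.filter (fun x : Fin (16 * a ^ 2) → ZMod 2 => lo ≤ wt x ∧ wt x < lo + m)).card +
        (univ.filter (fun x : Fin (16 * a ^ 2) → ZMod 2 => wt x = lo + m)).card := by
      refine le_trans (card_le_card ?_) (card_union_le _ _)
      intro x hx
      simp only [mem_filter, mem_univ, true_and, mem_union] at hx ⊢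
      omega
    have := Nat.mul_le_mul_left (4 * a) h2
    rw [mul_add] at this
    rw [add_mul]
    omega

/-- the Hamming ball of radius `8 a^2 - a` in dimension `16 a^2`. -/
def ball (a : ℕ) : Finset (Fin (16 * a ^ 2) → ZMod 2) :=
  univ.filter (fun x => wt x + a ≤ 8 * a ^ 2)

theorem ball_big (a : ℕ) (ha : 1 ≤ a) : 2 ^ (16 * a ^ 2) ≤ 4 * (ball a).card := by
  have h1 := layers_le a (8 * a ^ 2 - a) (2 * a)
  have haa : a ≤ 8 * a ^ 2 := by nlinarith
  have h2 : (univ.filter (fun x : Fin (16 * a ^ 2) → ZMod 2 => 8 * a ^ 2 + a ≤ wt x)).card ≤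
      (ball a).card := by
    refine card_le_card_of_injOn (fun x => x + 1) ?_ (fun x _ y _ h => add_right_cancel h)
    intro x hx
    simp only [coe_filter, mem_univ, true_and, Set.mem_ofPred_eq] at hx
    simp only [ball, coe_filter, mem_univ, true_and, Set.mem_ofPred_eq]
    have := wt_one_add x
    rw [Fintype.card_fin] at this
    omega
  have h3 : 2 ^ (16 * a ^ 2) ≤ (ball a).card +
      (univ.filter (fun x : Fin (16 * a ^ 2) → ZMod 2 => 8 * a ^ 2 + a ≤ wt x)).card +
      (univ.filter (fun x : Fin (16 * a ^ 2) → ZMod 2 =>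
        8 * a ^ 2 - a ≤ wt x ∧ wt x < 8 * a ^ 2 - a + 2 * a)).card := by
    rw [← card_cube, ← card_univ]
    refine le_trans (card_le_card ?_)
      (le_trans (card_union_le _ _) (Nat.add_le_add_right (card_union_le _ _) _))
    intro x _
    simp only [ball, mem_filter, mem_univ, true_and, mem_union]
    omega
  set P := 2 ^ (16 * a ^ 2)
  set C := (univ.filter (fun x : Fin (16 * a ^ 2) → ZMod 2 =>
        8 * a ^ 2 - a ≤ wt x ∧ wt x < 8 * a ^ 2 - a + 2 * a)).card
  have h4 : 2 * C ≤ P := by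
    have : (2 * a) * (2 * C) ≤ (2 * a) * P := by
      calc (2 * a) * (2 * C) = 4 * a * C := by ring
        _ ≤ _ := h1
    exact Nat.le_of_mul_le_mul_left this (by omega)
  omega

theorem dev_le {s : ℕ} (h : Fin s → ZMod 2) (m : ℝ) (hm : 0 ≤ m) :
    ((univ.filter (fun x : Fin s → ZMod 2 => m ≤ (wt (x + h) : ℝ) - wt x)).card : ℝ) * m ^ 2 ≤
      2 ^ s * wt h := by
  have hvar := es (fun i => if h i ≠ 0 then (2:ℝ) else 0) (fun x => (wt (x + h) : ℝ) - wt x) (by
    intro i x
    rw [wt_real, wt_real, wt_real, wt_real, ← sum_sub_distrib, ← sum_sub_distrib,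
      ← sum_sub_distrib, sum_eq_single i]
    · simp only [Pi.add_apply, Pi.single_eq_same]
      have : ∀ a : ZMod 2, a = 0 ∨ a = 1 := by decide
      have e1 : (1 + 1 : ZMod 2) = 0 := by decide
      rcases this (x i) with h0 | h0 <;> rcases this (h i) with h1 | h1 <;>
        simp [h0, h1, e1] <;> norm_num
    · intro j _ hj
      simp [Pi.single_eq_of_ne hj]
    · simp) (by
    rw [sum_sub_distrib, sum_shift (fun x => (wt x : ℝ)) h, sub_self])
  have h2 : ∑ i, (if h i ≠ 0 then (2:ℝ) else 0) ^ 2 / 4 = (wt h : ℝ) := by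
    rw [wt_real]
    refine sum_congr rfl fun i _ => ?_
    split_ifs <;> norm_num
  rw [h2, card_cube] at hvar
  push_cast at hvar
  refine le_trans (cheb (fun x => (wt (x + h) : ℝ) - wt x) _ m hm ?_) hvar
  intro x hx
  simp only [mem_filter, mem_univ, true_and] at hx
  exact le_trans hx (le_abs_self _)

theorem ball_bad (a b L : ℕ) (hb : 1 ≤ b) (ha : a = b ^ 3) (h : Fin (16 * a ^ 2) → ZMod 2)
    (hh : wt h ≤ L * a) :
    (b : ℝ) * ((ball a).filter (fun x => x + h ∉ ball a)).card ≤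
      (4 * L + 1) * (ball a).card := by
  have ha1 : 1 ≤ a := ha ▸ Nat.one_le_pow _ _ hb
  have har : (a : ℝ) = (b : ℝ) ^ 3 := by rw [ha]; push_cast; rfl
  have h1 := layers_le a (8 * a ^ 2 - a + 1 - b ^ 2) (b ^ 2)
  have h2 := dev_le h ((b ^ 2 : ℕ) : ℝ) (Nat.cast_nonneg _)
  have h3 := ball_big a ha1
  have h4 : ((ball a).filter (fun x => x + h ∉ ball a)).card ≤
      (univ.filter (fun x : Fin (16 * a ^ 2) → ZMod 2 => 8 * a ^ 2 - a + 1 - b ^ 2 ≤ wt x ∧
        wt x < 8 * a ^ 2 - a + 1 - b ^ 2 + b ^ 2)).card +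
      (univ.filter (fun x : Fin (16 * a ^ 2) → ZMod 2 =>
        ((b ^ 2 : ℕ) : ℝ) ≤ (wt (x + h) : ℝ) - wt x)).card := by
    refine le_trans (card_le_card ?_) (card_union_le _ _)
    intro x hx
    simp only [ball, mem_filter, mem_univ, true_and, mem_union] at hx ⊢
    by_cases hc : 8 * a ^ 2 - a + 1 - b ^ 2 ≤ wt x
    · left
      refine ⟨hc, ?_⟩
      omega
    · right
      have : b ^ 2 + wt x ≤ wt (x + h) := by omega
      have h' : ((b ^ 2 + wt x : ℕ) : ℝ) ≤ wt (x + h) := by exact_mod_cast this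
      push_cast at h' ⊢
      linarith
  set C1 := (univ.filter (fun x : Fin (16 * a ^ 2) → ZMod 2 => 8 * a ^ 2 - a + 1 - b ^ 2 ≤ wt x ∧
        wt x < 8 * a ^ 2 - a + 1 - b ^ 2 + b ^ 2)).card
  set C2 := (univ.filter (fun x : Fin (16 * a ^ 2) → ZMod 2 =>
        ((b ^ 2 : ℕ) : ℝ) ≤ (wt (x + h) : ℝ) - wt x)).card
  set C0 := ((ball a).filter (fun x => x + h ∉ ball a)).card
  set Bc := (ball a).card
  have hb0 : (0:ℝ) < b := by exact_mod_cast hb
  have r1 : 4 * (b:ℝ) ^ 3 * C1 ≤ (b:ℝ) ^ 2 * 2 ^ (16 * a ^ 2) := by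
    rw [← har]
    exact_mod_cast h1
  have r3 : (2:ℝ) ^ (16 * a ^ 2) ≤ 4 * Bc := by exact_mod_cast h3
  have r4 : (C0:ℝ) ≤ C1 + C2 := by exact_mod_cast h4
  have r5 : (wt h : ℝ) ≤ L * (b:ℝ) ^ 3 := by
    rw [← har]
    exact_mod_cast hh
  push_cast at h2
  set P : ℝ := 2 ^ (16 * a ^ 2)
  have hP : 0 ≤ P := by positivity
  have s1 : (b:ℝ) * C1 ≤ Bc := by
    have : (b:ℝ) ^ 2 * (4 * (b * C1)) ≤ (b:ℝ) ^ 2 * (4 * Bc) := by
      have := mul_le_mul_of_nonneg_left r3 (sq_nonneg (b:ℝ))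
      nlinarith
    have := le_of_mul_le_mul_left this (by positivity)
    linarith
  have s2 : (b:ℝ) * C2 ≤ 4 * L * Bc := by
    have e1 : P * wt h ≤ (4 * Bc) * (L * (b:ℝ) ^ 3) :=
      mul_le_mul r3 r5 (Nat.cast_nonneg _) (by positivity)
    have : (b:ℝ) ^ 3 * (b * C2) ≤ (b:ℝ) ^ 3 * (4 * L * Bc) := by nlinarith
    exact le_of_mul_le_mul_left this (by positivity)
  have := mul_le_mul_of_nonneg_left r4 hb0.le
  nlinarith

end Pool.Agent.H96.LV
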