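import Pool.Agent.H96.LV1

/-! One stage of the tower. -/

namespace Pool.Agent.H96.LV

open Finset

/-- data of one stage -/
structure Stage (A A' : Type) [AddCommGroup A] [AddCommGroup A'] (t : ℝ) where
  ι : A →+ A'
  D : A' → A
  N : AddGroupNorm A'
  B : Set A'
  e : A'
  D_add : ∀ u x, D (ι u + x) = u + D x
  zero_mem : 0 ∈ B
  nontriv : ∃ x ∈ B, x ≠ 0
  robB : ∀ x ∈ B, ∀ h, N h < 1 → D (x + h) = 0
  robE : ∀ x ∈ B, ∀ h, N h < 1 → D (x + e + h) = 0
  disj : ∀ x ∈ B, x + e ∉ B
  tv : ∀ h, (({x | x ∈ B ∧ x + h ∉ B}).ncard : ℝ) ≤ N h * B.ncard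
  levy : ∀ S : Set A', (Nat.card A' : ℝ) ≤ t * S.ncard →
    t * ({x | ∀ s ∈ S, 2 / t < N (x - s)}).ncard ≤ Nat.card A'

theorem exists_D {A A' : Type} [AddCommGroup A] [AddCommGroup A'] (ι : A →+ A') (U : Set A')
    (h0 : (0 : A') ∈ U) (hU : ∀ u x, x ∈ U → ι u + x ∈ U → u = 0) :
    ∃ D : A' → A, (∀ u x, D (ι u + x) = u + D x) ∧ ∀ x ∈ U, D x = 0 := by
  have hι : Function.Injective ι := by
    rw [injective_iff_map_eq_zero]
    intro u hu
    exact hU u 0 h0 (by rw [hu, add_zero]; exact h0)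
  have h1 : ∀ c : A' ⧸ ι.range, ∃ r : A', (r : A' ⧸ ι.range) = c ∧
      ((∃ y ∈ U, (y : A' ⧸ ι.range) = c) → r ∈ U) := by
    intro c
    by_cases h : ∃ y ∈ U, (y : A' ⧸ ι.range) = c
    · obtain ⟨y, hy, hy'⟩ := h
      exact ⟨y, hy', fun _ => hy⟩
    · obtain ⟨r, rfl⟩ := QuotientAddGroup.mk_surjective c
      exact ⟨r, rfl, fun h' => absurd h' h⟩
  choose rep hrep hrepU using h1
  have h2 : ∀ x : A', ∃ u : A, ι u = -rep (x : A' ⧸ ι.range) + x := by
    intro x
    exact QuotientAddGroup.eq.1 (hrep (x : A' ⧸ ι.range))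
  choose D hD using h2
  refine ⟨D, fun u x => hι ?_, fun x hx => ?_⟩
  · have : ((ι u + x : A') : A' ⧸ ι.range) = x := by
      rw [QuotientAddGroup.eq]
      exact ⟨-u, by rw [map_neg]; abel⟩
    rw [hD, this, map_add, hD]
    abel
  · refine hU (D x) (rep (x : A' ⧸ ι.range)) (hrepU _ ⟨x, hx, rfl⟩) ?_
    rw [hD]
    simpa using hx

theorem card_box {P : Type} [Fintype P] [DecidableEq P] {s : ℕ}
    (T : P → Finset (Fin s → ZMod 2)) :
    (univ.filter (fun x : P × Fin s → ZMod 2 => ∀ p, (fun l => x (p, l)) ∈ T p)).card =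
      ∏ p, (T p).card := by
  rw [← Fintype.card_piFinset]
  refine card_equiv (Equiv.curry _ _ _) ?_
  intro x
  simp only [mem_filter, mem_univ, true_and, Fintype.mem_piFinset]
  rfl

theorem wt_block_le {P Q : Type} [Fintype P] [Fintype Q] (f : Q → P) (hf : Function.Injective f)
    (h : P → ZMod 2) : wt (fun q => h (f q)) ≤ wt h := by
  unfold wt
  refine card_le_card_of_injOn f ?_ (fun x _ y _ hxy => hf hxy)
  intro q hq
  simpa using hq

theorem wt_prod {P Q : Type} [Fintype P] [Fintype Q] (x : P × Q → ZMod 2) :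
    wt x = ∑ p, wt (fun q => x (p, q)) := by
  unfold wt
  simp only [card_filter]
  rw [Fintype.sum_prod_type]

/-- product of balls -/
def box (P : Type) [Fintype P] [DecidableEq P] (a : ℕ) : Finset (P × Fin (16 * a ^ 2) → ZMod 2) :=
  univ.filter (fun x => ∀ p, (fun l => x (p, l)) ∈ ball a)

theorem box_bad (P : Type) [Fintype P] [DecidableEq P] (a b L : ℕ) (hb : 1 ≤ b) (ha : a = b ^ 3)
    (h : P × Fin (16 * a ^ 2) → ZMod 2) (hh : wt h ≤ L * a) :
    (b : ℝ) * ((box P a).filter (fun x => x + h ∉ box P a)).card ≤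
      Fintype.card P * ((4 * L + 1) * (box P a).card) := by
  set bad : P → Finset (Fin (16 * a ^ 2) → ZMod 2) := fun p =>
    (ball a).filter (fun x => x + (fun l => h (p, l)) ∉ ball a) with hbad
  set bx : P → Finset (P × Fin (16 * a ^ 2) → ZMod 2) := fun p =>
    univ.filter (fun x => ∀ p', (fun l => x (p', l)) ∈
      Function.update (fun _ => ball a) p (bad p) p') with hbx
  have h1 : (box P a).filter (fun x => x + h ∉ box P a) ⊆ univ.biUnion bx := by
    intro x hx
    simp only [box, mem_filter, mem_univ, true_and, not_forall] at hx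
    obtain ⟨hx1, p, hp⟩ := hx
    simp only [mem_biUnion, mem_univ, true_and, hbx, mem_filter]
    refine ⟨p, fun p' => ?_⟩
    by_cases hpp : p' = p
    · subst hpp
      rw [Function.update_self]
      simp only [hbad, mem_filter]
      exact ⟨hx1 _, hp⟩
    · rw [Function.update_of_ne hpp]
      exact hx1 _
  have h2 : ∀ p, (b : ℝ) * (bx p).card ≤ (4 * L + 1) * (box P a).card := by
    intro p
    have e1 : (bx p).card = (bad p).card * ∏ _p' ∈ univ.erase p, (ball a).card := by
      simp only [hbx]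
      rw [card_box, ← mul_prod_erase univ _ (mem_univ p), Function.update_self]
      congr 1
      refine prod_congr rfl fun p' hp' => ?_
      rw [Function.update_of_ne (ne_of_mem_erase hp')]
    have e2 : (box P a).card = (ball a).card * ∏ _p' ∈ univ.erase p, (ball a).card := by
      unfold box
      rw [card_box (fun _ => ball a), ← mul_prod_erase univ _ (mem_univ p)]
    have e3 := ball_bad a b L hb ha (fun l => h (p, l))
      (le_trans (wt_block_le (fun l => (p, l)) (fun _ _ h => (Prod.ext_iff.1 h).2) h) hh)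
    rw [e1, e2]
    push_cast
    rw [← mul_assoc, ← mul_assoc]
    exact mul_le_mul_of_nonneg_right e3 (by positivity)
  have h3 : (((box P a).filter (fun x => x + h ∉ box P a)).card : ℝ) ≤ ∑ p, ((bx p).card : ℝ) := by
    exact_mod_cast le_trans (card_le_card h1) card_biUnion_le
  calc (b : ℝ) * ((box P a).filter (fun x => x + h ∉ box P a)).card
      ≤ b * ∑ p, ((bx p).card : ℝ) := mul_le_mul_of_nonneg_left h3 (Nat.cast_nonneg _)
    _ = ∑ p, (b : ℝ) * (bx p).card := by rw [mul_sum]
    _ ≤ ∑ _p : P, (4 * L + 1 : ℝ) * (box P a).card := sum_le_sum fun p _ => h2 p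
    _ = _ := by rw [sum_const, card_univ, nsmul_eq_mul]

theorem neg_z {ι : Type} (x : ι → ZMod 2) : -x = x := by
  rw [neg_eq_iff_add_eq_zero, two_z]

/-- the norm attached to a finite set and a scale -/
noncomputable def nrm {ι : Type} [Fintype ι] [DecidableEq ι] (B : Finset (ι → ZMod 2)) (ρ : ℝ)
    (hρ : 0 < ρ) : AddGroupNorm (ι → ZMod 2) where
  toFun h := ((B.filter (fun x => x + h ∉ B)).card : ℝ) / B.card + wt h / ρ
  map_zero' := by
    have : B.filter (fun x => x + 0 ∉ B) = ∅ := by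
      rw [filter_eq_empty_iff]
      intro x hx
      simpa using hx
    rw [this, wt_zero]
    simp
  add_le' h k := by
    have h1 : (wt (h + k) : ℝ) ≤ wt h + wt k := by exact_mod_cast wt_add h k
    have h2 : (B.filter (fun x => x + (h + k) ∉ B)).card ≤
        (B.filter (fun x => x + h ∉ B)).card + (B.filter (fun x => x + k ∉ B)).card := by
      have h3 : (B.filter (fun x => x + h ∈ B ∧ x + h + k ∉ B)).card ≤
          (B.filter (fun x => x + k ∉ B)).card := by
        refine card_le_card_of_injOn (fun x => x + h) ?_ (fun x _ y _ hxy => add_right_cancel hxy)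
        intro x hx
        simp only [coe_filter, Set.mem_ofPred_eq] at hx ⊢
        exact hx.2
      refine le_trans (card_le_card ?_)
        (le_trans (card_union_le _ _) (Nat.add_le_add_left h3 _))
      intro x hx
      simp only [mem_filter, mem_union] at hx ⊢
      by_cases hc : x + h ∈ B
      · right
        exact ⟨hx.1, hc, by rw [add_assoc]; exact hx.2⟩
      · left
        exact ⟨hx.1, hc⟩
    have h4 : ((B.filter (fun x => x + (h + k) ∉ B)).card : ℝ) ≤
        (B.filter (fun x => x + h ∉ B)).card + (B.filter (fun x => x + k ∉ B)).card := by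
      exact_mod_cast h2
    have h5 := div_le_div_of_nonneg_right h4 (Nat.cast_nonneg (α := ℝ) B.card)
    have h6 := div_le_div_of_nonneg_right h1 hρ.le
    rw [add_div] at h5 h6
    linarith
  neg' h := by rw [neg_z]
  eq_zero_of_map_eq_zero' h hh := by
    have h1 : (0:ℝ) ≤ ((B.filter (fun x => x + h ∉ B)).card : ℝ) / B.card := by positivity
    have h2 : (0:ℝ) ≤ wt h / ρ := by positivity
    have h3 : (wt h : ℝ) / ρ = 0 := by linarith
    rw [div_eq_zero_iff] at h3
    rcases h3 with h3 | h3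
    · exact wt_eq_zero (by exact_mod_cast h3)
    · linarith

theorem nrm_apply {ι : Type} [Fintype ι] [DecidableEq ι] (B : Finset (ι → ZMod 2)) (ρ : ℝ)
    (hρ : 0 < ρ) (h : ι → ZMod 2) :
    nrm B ρ hρ h = ((B.filter (fun x => x + h ∉ B)).card : ℝ) / B.card + wt h / ρ := rfl

/-- repetition code -/
def rep (I : Type) (M s : ℕ) : (I → ZMod 2) →+ ((Option I × Fin M) × Fin s → ZMod 2) where
  toFun u q := q.1.1.elim 0 u
  map_zero' := by
    funext q
    rcases q with ⟨⟨_ | j, _⟩, _⟩ <;> rfl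
  map_add' u v := by
    funext q
    rcases q with ⟨⟨_ | j, _⟩, _⟩
    · simp
    · rfl

theorem exists_stage (I : Type) [Finite I] (t : ℕ) (ht : 1 ≤ t) :
    ∃ (I' : Type) (_ : Finite I'), Nonempty (Stage (I → ZMod 2) (I' → ZMod 2) t) := by
  classical
  let _ := Fintype.ofFinite I
  obtain ⟨c, hc⟩ : ∃ c, c = Fintype.card (Option I) := ⟨_, rfl⟩
  have hc1 : 1 ≤ c := by rw [hc]; exact Fintype.card_pos
  obtain ⟨L, hL⟩ : ∃ L, L = 16 * c * t ^ 2 := ⟨_, rfl⟩
  obtain ⟨M, hM⟩ : ∃ M, M = L * t := ⟨_, rfl⟩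
  obtain ⟨b, hb⟩ : ∃ b, b = c * M * (4 * L + 1) * t := ⟨_, rfl⟩
  obtain ⟨a, ha⟩ : ∃ a, a = b ^ 3 := ⟨_, rfl⟩
  have hL1 : 0 < L := by rw [hL]; positivity
  have hM1 : 0 < M := by rw [hM]; positivity
  have hb1 : 0 < b := by rw [hb]; positivity
  have ha1 : 0 < a := by rw [ha]; positivity
  have hρ : (0:ℝ) < (M * a : ℕ) := by exact_mod_cast Nat.mul_pos hM1 ha1
  set P := Option I × Fin M
  set B := box P a with hB
  set U : Set (P × Fin (16 * a ^ 2) → ZMod 2) :=
    {x | ∀ j : I, wt (fun q : Fin M × Fin (16 * a ^ 2) => x ((some j, q.1), q.2)) <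
      M * (8 * a ^ 2)} with hU
  have hBU : ∀ x ∈ B, ∀ j : Option I,
      wt (fun q : Fin M × Fin (16 * a ^ 2) => x ((j, q.1), q.2)) + M * a ≤
      M * (8 * a ^ 2) := by
    intro x hx j
    simp only [hB, box, ball, mem_filter, mem_univ, true_and] at hx
    rw [wt_prod]
    have : ∑ m : Fin M, (wt (fun l => x ((j, m), l)) + a) ≤ ∑ _m : Fin M, 8 * a ^ 2 :=
      sum_le_sum fun m _ => hx (j, m)
    rw [sum_add_distrib, sum_const, sum_const, card_univ, Fintype.card_fin, smul_eq_mul,
      smul_eq_mul] at this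
    exact this
  have hB0 : (0 : P × Fin (16 * a ^ 2) → ZMod 2) ∈ B := by
    simp only [hB, box, ball, mem_filter, mem_univ, true_and]
    intro p
    have : wt (fun l => (0 : P × Fin (16 * a ^ 2) → ZMod 2) (p, l)) = 0 := wt_zero
    rw [this]
    nlinarith
  have hN : ∀ h, nrm B _ hρ h < 1 → wt h < M * a := by
    intro h hh
    rw [nrm_apply] at hh
    have h1 : (0:ℝ) ≤ ((B.filter (fun x => x + h ∉ B)).card : ℝ) / B.card := by positivity
    have h2 : (wt h : ℝ) / (M * a : ℕ) < 1 := by linarith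
    rw [div_lt_one hρ] at h2
    exact_mod_cast h2
  have hrob : ∀ x ∈ B, ∀ h, nrm B _ hρ h < 1 → x + h ∈ U := by
    intro x hx h hh j
    have h1 := hBU x hx (some j)
    have h2 := hN h hh
    have h3 := wt_block_le (fun q : Fin M × Fin (16 * a ^ 2) => (((some j, q.1), q.2) : P × _))
      (fun q q' hq => by
        simp only [P, Prod.mk.injEq, true_and] at hq
        exact Prod.ext hq.1 hq.2) h
    have h4 := wt_add (fun q : Fin M × Fin (16 * a ^ 2) => x ((some j, q.1), q.2))
      (fun q : Fin M × Fin (16 * a ^ 2) => h ((some j, q.1), q.2))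
    have h5 : (fun q : Fin M × Fin (16 * a ^ 2) => (x + h) ((some j, q.1), q.2)) =
      (fun q : Fin M × Fin (16 * a ^ 2) => x ((some j, q.1), q.2)) +
      (fun q : Fin M × Fin (16 * a ^ 2) => h ((some j, q.1), q.2)) := rfl
    rw [h5]
    omega
  have hU0 : (0 : P × Fin (16 * a ^ 2) → ZMod 2) ∈ U := by
    have := hrob 0 hB0 0 (by rw [map_zero]; norm_num)
    rwa [add_zero] at this
  obtain ⟨D, hD1, hD2⟩ := exists_D (rep I M (16 * a ^ 2)) U hU0 (by
    intro u x hx hux
    funext j
    by_contra hj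
    have h01 : ∀ z : ZMod 2, z ≠ 0 → z = 1 := by decide
    have hj1 : u j = 1 := h01 _ hj
    have h1 := hx j
    have h2 := hux j
    have h3 : (fun q : Fin M × Fin (16 * a ^ 2) =>
        (rep I M (16 * a ^ 2) u + x : P × Fin (16 * a ^ 2) → ZMod 2) ((some j, q.1), q.2)) =
        (fun q : Fin M × Fin (16 * a ^ 2) => x ((some j, q.1), q.2)) + 1 := by
      funext q
      change u j + x _ = x _ + 1
      rw [hj1, add_comm]
    rw [h3] at h2
    have h4 := wt_one_add (fun q : Fin M × Fin (16 * a ^ 2) => x ((some j, q.1), q.2))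
    rw [Fintype.card_prod, Fintype.card_fin, Fintype.card_fin] at h4
    have : M * (16 * a ^ 2) = M * (8 * a ^ 2) + M * (8 * a ^ 2) := by ring
    omega)
  set e : P × Fin (16 * a ^ 2) → ZMod 2 := fun q => q.1.1.elim 1 (fun _ => 0) with he
  have hBc : (0:ℝ) < B.card := by exact_mod_cast card_pos.2 ⟨0, hB0⟩
  refine ⟨P × Fin (16 * a ^ 2), inferInstance, ⟨⟨rep I M (16 * a ^ 2), D, nrm B _ hρ, B, e, hD1,
    hB0, ?_, fun x hx h hh => hD2 _ (hrob x hx h hh), fun x hx h hh => hD2 _ ?_, ?_, ?_, ?_⟩⟩⟩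
  · have hs : 0 < 16 * a ^ 2 := by positivity
    refine ⟨Pi.single ((none, ⟨0, hM1⟩), ⟨0, hs⟩) 1, ?_, ?_⟩
    · simp only [hB, box, ball, mem_coe, mem_filter, mem_univ, true_and]
      intro p
      have h1 := wt_block_le (fun l : Fin (16 * a ^ 2) => (p, l))
        (fun _ _ h => (Prod.ext_iff.1 h).2)
        (Pi.single (((none, ⟨0, hM1⟩), ⟨0, hs⟩) : P × Fin (16 * a ^ 2)) (1 : ZMod 2))
      have h2 := wt_single (((none, ⟨0, hM1⟩), ⟨0, hs⟩) : P × Fin (16 * a ^ 2))
      nlinarith
    · intro h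
      have := congrFun h ((none, ⟨0, hM1⟩), ⟨0, hs⟩)
      simp at this
  · intro j
    have h1 := hrob x hx h hh j
    have h2 : (fun q : Fin M × Fin (16 * a ^ 2) => (x + e + h) ((some j, q.1), q.2)) =
        (fun q : Fin M × Fin (16 * a ^ 2) => (x + h) ((some j, q.1), q.2)) := by
      funext q
      change x _ + 0 + h _ = x _ + h _
      rw [add_zero]
    rw [h2]
    exact h1
  · intro x hx hxe
    have h1 := hBU x hx none
    have h2 := hBU _ hxe none
    have h3 : (fun q : Fin M × Fin (16 * a ^ 2) => (x + e) ((none, q.1), q.2)) =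
        (fun q : Fin M × Fin (16 * a ^ 2) => x ((none, q.1), q.2)) + 1 := rfl
    rw [h3] at h2
    have h4 := wt_one_add (fun q : Fin M × Fin (16 * a ^ 2) => x ((none, q.1), q.2))
    rw [Fintype.card_prod, Fintype.card_fin, Fintype.card_fin] at h4
    have : M * (16 * a ^ 2) = M * (8 * a ^ 2) + M * (8 * a ^ 2) := by ring
    have := Nat.mul_pos hM1 ha1
    omega
  · intro h
    have : {x | x ∈ (B : Set (P × Fin (16 * a ^ 2) → ZMod 2)) ∧ x + h ∉ (B : Set _)} =
        ↑(B.filter (fun x => x + h ∉ B)) := by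
      ext x
      simp
    rw [this, Set.ncard_coe_finset, Set.ncard_coe_finset, nrm_apply, add_mul,
      div_mul_cancel₀ _ hBc.ne']
    have : (0:ℝ) ≤ wt h / (M * a : ℕ) * B.card := by positivity
    linarith
  · intro S hS
    have ht0 : (0:ℝ) < t := by exact_mod_cast ht
    have hw : (0:ℝ) < (L * a : ℕ) := by exact_mod_cast Nat.mul_pos hL1 ha1
    rw [Nat.card_eq_fintype_card] at hS ⊢
    have h1 := cube_conc (ι := P × Fin (16 * a ^ 2)) t (L * a : ℕ) ht0 hw (by
      rw [Fintype.card_prod, Fintype.card_prod, Fintype.card_fin, Fintype.card_fin, ← hc]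
      have : c * M * (16 * a ^ 2) * t = (L * a) ^ 2 := by
        rw [hM, mul_pow, sq L]
        nth_rewrite 3 [hL]
        ring
      exact_mod_cast this.le) S.toFinset (by rwa [← Set.ncard_eq_toFinset_card'])
    refine le_trans (mul_le_mul_of_nonneg_left ?_ ht0.le) h1
    rw [← Set.ncard_coe_finset]
    refine Nat.cast_le.2 (Set.ncard_le_ncard ?_ (Set.toFinite _))
    intro x hx
    simp only [coe_filter, mem_univ, true_and, Set.mem_ofPred_eq, Set.mem_toFinset] at hx ⊢
    intro s hs
    have h2 := hx s hs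
    by_contra hcon
    push Not at hcon
    have h3 : wt (x + s) ≤ L * a := by
      have : wt (x + s) < L * a := by exact_mod_cast hcon
      omega
    rw [sub_eq_add_neg, neg_z, nrm_apply] at h2
    have h4 := box_bad P a b L hb1 ha (x + s) h3
    rw [← hB, Fintype.card_prod, Fintype.card_fin, ← hc] at h4
    have h5 : ((B.filter (fun y => y + (x + s) ∉ B)).card : ℝ) / B.card ≤ 1 / t := by
      rw [div_le_div_iff₀ hBc ht0]
      have hb' : (b : ℝ) = (c * M * (4 * L + 1)) * t := by rw [hb]; push_cast; ring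
      have hpos : (0:ℝ) < c * M * (4 * L + 1) := by positivity
      rw [hb'] at h4
      push_cast at h4
      refine le_of_mul_le_mul_left ?_ hpos
      nlinarith
    have h6 : (wt (x + s) : ℝ) / (M * a : ℕ) ≤ 1 / t := by
      rw [div_le_div_iff₀ hρ ht0]
      have : wt (x + s) * t ≤ 1 * (M * a) := by
        calc wt (x + s) * t ≤ L * a * t := Nat.mul_le_mul_right _ h3
          _ = 1 * (L * t * a) := by ring
          _ = _ := by rw [← hM]
      exact_mod_cast this
    have : (2:ℝ) / t = 1 / t + 1 / t := by ring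
    linarith

end Pool.Agent.H96.LV
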