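import Mathlib

/-! Levy groups. -/

namespace Pool.Agent.H96.LV

open MeasureTheory Filter Topology

/-- An abelian group with a translation invariant metric is a Levy group: it has an increasing
sequence of compact subgroups `K n` with dense union whose normalised Haar measures `m n`
(probability measures on `G` carried by `K n` and invariant under `K n`) form a Levy family. -/
def IsLevy (G : Type) [NormedAddCommGroup G] [MeasurableSpace G] : Prop :=
  ∃ (K : ℕ → AddSubgroup G) (m : ℕ → Measure G), Monotone K ∧
    (∀ n, IsCompact (K n : Set G)) ∧ Dense (⋃ n, (K n : Set G)) ∧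
    (∀ n, IsProbabilityMeasure (m n) ∧ m n (K n : Set G)ᶜ = 0 ∧
      ∀ k ∈ K n, (m n).map (fun g => k + g) = m n) ∧
    ∀ A : ℕ → Set G, (∀ n, MeasurableSet (A n) ∧ A n ⊆ K n) →
      0 < liminf (fun n => m n (A n)) atTop →
      ∀ ε : ℝ, 0 < ε → Tendsto (fun n => m n (Metric.thickening ε (A n))) atTop (𝓝 1)

/-- Every invariant measurable set is null or conull. -/
def IsErg (G X : Type) [AddGroup G] [AddAction G X] [MeasurableSpace X] (μ : Measure X) : Prop :=
  ∀ A : Set X, MeasurableSet A → (∀ (g : G) (x : X), g +ᵥ x ∈ A ↔ x ∈ A) → μ A = 0 ∨ μ Aᶜ = 0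

end Pool.Agent.H96.LV
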