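import Pool.Agent.H96.LV2
import Pool.Agent.H96.LVDefs

/-! The tower, the group and its action. -/

namespace Pool.Agent.H96.LV

open Filter Topology

/-- the tower -/
structure Data (K : ℕ → Type) [∀ n, NormedAddCommGroup (K n)] where
  ι : ∀ n, K n →+ K (n + 1)
  D : ∀ n, K (n + 1) → K n
  B : ∀ n, Set (K (n + 1))
  e : ∀ n, K (n + 1)
  sub0 : ∀ u : K 0, u = 0
  two : ∀ n (h : K n), h + h = 0
  D_add : ∀ n u x, D n (ι n u + x) = u + D n x
  zero_mem : ∀ n, 0 ∈ B n
  nontriv : ∀ n, ∃ x ∈ B n, x ≠ 0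
  robB : ∀ n, ∀ x ∈ B n, ∀ h, ‖h‖ < 1 → D n (x + h) = 0
  robE : ∀ n, ∀ x ∈ B n, ∀ h, ‖h‖ < 1 → D n (x + e n + h) = 0
  disj : ∀ n, ∀ x ∈ B n, x + e n ∉ B n
  tv : ∀ n h, (({x | x ∈ B n ∧ x + h ∉ B n}).ncard : ℝ) ≤ ‖h‖ * (B n).ncard
  levy : ∀ (n : ℕ) (S : Set (K (n + 1))), (Nat.card (K (n + 1)) : ℝ) ≤ ((n + 1 : ℕ) : ℝ) * S.ncard →
    ((n + 1 : ℕ) : ℝ) * ({x | ∀ s ∈ S, 2 / ((n + 1 : ℕ) : ℝ) < ‖x - s‖}).ncard ≤
      Nat.card (K (n + 1))

theorem exists_data : ∃ (K : ℕ → Type) (_ : ∀ n, NormedAddCommGroup (K n))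
    (_ : ∀ n, Finite (K n)), Nonempty (Data K) := by
  choose F hF hS using exists_stage
  let seq : ℕ → {I : Type // Finite I} := fun n =>
    Nat.rec ⟨Empty, inferInstance⟩
      (fun n p => ⟨@F p.1 p.2 (n + 1) (Nat.le_add_left 1 n), @hF p.1 p.2 _ _⟩) n
  let St : ∀ n, Stage ((seq n).1 → ZMod 2) ((seq (n + 1)).1 → ZMod 2) ((n + 1 : ℕ) : ℝ) :=
    fun n => (@hS (seq n).1 (seq n).2 (n + 1) (Nat.le_add_left 1 n)).some
  have h0 : ∀ u : (seq 0).1 → ZMod 2, u = 0 := fun u => funext fun i => Empty.elim i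
  let nr : ∀ n, AddGroupNorm ((seq n).1 → ZMod 2) := fun n =>
    Nat.casesOn n
      { toFun := fun _ => 0
        map_zero' := rfl
        add_le' := fun _ _ => by norm_num
        neg' := fun _ => rfl
        eq_zero_of_map_eq_zero' := fun u _ => h0 u }
      (fun n => (St n).N)
  refine ⟨fun n => (seq n).1 → ZMod 2, fun n => (nr n).toNormedAddCommGroup, fun n => ?_,
    ⟨@Data.mk (fun n => (seq n).1 → ZMod 2) (fun n => (nr n).toNormedAddCommGroup)
      (fun n => (St n).ι) (fun n => (St n).D) (fun n => (St n).B) (fun n => (St n).e) h0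
      (fun n h => two_z h) (fun n => (St n).D_add) (fun n => (St n).zero_mem)
      (fun n => (St n).nontriv) (fun n => (St n).robB) (fun n => (St n).robE)
      (fun n => (St n).disj) (fun n => (St n).tv) (fun n => (St n).levy)⟩⟩
  have := (seq n).2
  infer_instance

theorem countable_ev {A : ℕ → Type} [∀ n, Countable (A n)] (c : ∀ n, A n) :
    {f : ∀ n, A n | ∀ᶠ n in atTop, f n = c n}.Countable := by
  have : {f : ∀ n, A n | ∀ᶠ n in atTop, f n = c n} =
      ⋃ N : ℕ, {f : ∀ n, A n | ∀ n ≥ N, f n = c n} := by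
    ext f
    simp [eventually_atTop]
  rw [this]
  refine Set.countable_iUnion fun N => ?_
  refine Set.MapsTo.countable_of_injOn (f := fun f (i : Fin N) => f i) (t := Set.univ)
    (Set.mapsTo_univ _ _) ?_ Set.countable_univ
  intro f hf g hg hfg
  funext n
  by_cases hn : n < N
  · exact congrFun hfg ⟨n, hn⟩
  · rw [hf n (by omega), hg n (by omega)]

/-- the ambient space -/
abbrev Om (K : ℕ → Type) : Type := ∀ n, K (n + 1)

/-- the covering group -/
abbrev HH (K : ℕ → Type) [∀ n, NormedAddCommGroup (K n)] : Type := lp (fun n => K (n + 1)) 1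

variable {K : ℕ → Type} [∀ n, NormedAddCommGroup (K n)]

/-- sequences tending to zero -/
def Small (h : Om K) : Prop := Tendsto (fun n => ‖h n‖) atTop (𝓝 0)

theorem summable_lp (h : HH K) : Summable (fun n => ‖h n‖) := by
  have := (lp.memℓp h).summable (by norm_num)
  simpa using this

theorem small_lp (h : HH K) : Small (h : Om K) := (summable_lp h).tendsto_atTop_zero

/-- a finitely supported sequence as an element of the covering group -/
def ofFin (h : Om K) (hh : ∀ᶠ n in atTop, h n = 0) : HH K :=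
  ⟨h, by
    obtain ⟨N, hN⟩ := eventually_atTop.1 hh
    refine (memℓp_zero ?_).of_exponent_ge (by norm_num)
    refine (Set.finite_lt_nat N).subset fun n hn => ?_
    by_contra hc
    exact hn (hN n (by simpa using hc))⟩

theorem tendsto_trunc (h : HH K) :
    Tendsto (fun N => ∑ i ∈ Finset.range (N + 1), lp.single 1 i (h i)) atTop (𝓝 h) :=
  ((lp.hasSum_single (by norm_num) h).tendsto_sum_nat).comp (tendsto_add_atTop_nat 1)

theorem trunc_apply (h : HH K) (N n : ℕ) (hn : N + 1 ≤ n) :
    (∑ i ∈ Finset.range (N + 1), lp.single 1 i (h i) : HH K) n = 0 := by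
  rw [lp.coeFn_sum, Finset.sum_apply]
  refine Finset.sum_eq_zero fun i hi => ?_
  rw [Finset.mem_range] at hi
  exact lp.single_apply_ne (E := fun n => K (n + 1)) 1 i _ (by omega)

instance [∀ n, Finite (K n)] : TopologicalSpace.SeparableSpace (HH K) := by
  refine ⟨⟨{h : HH K | ∀ᶠ n in atTop, h n = 0}, ?_, fun h => ?_⟩⟩
  · exact (countable_ev (A := fun n => K (n + 1)) 0).preimage_of_injOn
      (f := fun h : HH K => (h : Om K)) (fun _ _ _ _ h => lp.ext h)
  · refine mem_closure_of_tendsto (tendsto_trunc h) (Eventually.of_forall fun N => ?_)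
    exact eventually_atTop.2 ⟨N + 1, fun n hn => trunc_apply h N n hn⟩

namespace Data

variable (T : Data K)

/-- running sums -/
def S : ∀ n, Om K →+ K n
  | 0 => 0
  | n + 1 => (T.ι n).comp (S n) + Pi.evalAddMonoidHom (fun n => K (n + 1)) n

theorem S_succ (n : ℕ) (x : Om K) : T.S (n + 1) x = T.ι n (T.S n x) + x n := rfl

/-- same germ of running sums -/
def Rel (x y : Om K) : Prop := ∀ᶠ n in atTop, T.S n x = T.S n y

/-- eventually robust -/
def Good (x : Om K) : Prop :=
  ∃ k : ℕ, ∀ᶠ n in atTop, ∀ h, ‖h‖ < 1 / ((k : ℝ) + 1) → T.D n (x n + h) = 0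

/-- the invariant set -/
def X : Set (Om K) := {x | (∀ n, T.D n (x n) = 0) ∧ T.Good x}

variable {T}

theorem Rel.refl (x : Om K) : T.Rel x x := Eventually.of_forall fun _ => rfl

theorem Rel.symm {x y : Om K} (h : T.Rel x y) : T.Rel y x := h.mono fun _ h => h.symm

theorem Rel.trans {x y z : Om K} (h : T.Rel x y) (h' : T.Rel y z) : T.Rel x z :=
  (h.and h').mono fun _ h => h.1.trans h.2

theorem Rel.add {x y : Om K} (h : T.Rel x y) (z : Om K) : T.Rel (x + z) (y + z) :=
  h.mono fun _ h => by rw [map_add, map_add, h]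

theorem Rel.ev {x y : Om K} (h : T.Rel x y) : ∀ᶠ n in atTop, x n = y n := by
  have h2 := (tendsto_add_atTop_nat 1).eventually h
  filter_upwards [h, h2] with n h1 h2
  rw [S_succ, S_succ, h1] at h2
  exact add_left_cancel h2

theorem rel_of {x y : Om K} (N : ℕ) (h : T.S N x = T.S N y) (h' : ∀ n ≥ N, x n = y n) :
    T.Rel x y := by
  refine eventually_atTop.2 ⟨N, fun n hn => ?_⟩
  induction n, hn using Nat.le_induction with
  | base => exact h
  | succ n hn ih => rw [S_succ, S_succ, ih, h' n hn]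

theorem S_zero_of (x : Om K) (n : ℕ) (h : ∀ j < n, x j = 0) : T.S n x = 0 := by
  induction n with
  | zero => rfl
  | succ n ih => rw [S_succ, ih fun j hj => h j (by omega), h n (by omega), map_zero, add_zero]

theorem uniq {x y : Om K} (hx : ∀ n, T.D n (x n) = 0) (hy : ∀ n, T.D n (y n) = 0)
    (h : T.Rel x y) : x = y := by
  obtain ⟨N, hN⟩ := eventually_atTop.1 h
  have key : ∀ k n, N ≤ n + k → T.S n x = T.S n y := by
    intro k
    induction k with
    | zero => exact fun n hn => hN n hn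
    | succ k ih =>
      intro n hn
      have h1 := congrArg (T.D n) (ih (n + 1) (by omega))
      rwa [S_succ, S_succ, T.D_add, T.D_add, hx, hy, add_zero, add_zero] at h1
  funext n
  have h1 := key N (n + 1) (by omega)
  rw [S_succ, S_succ, key N n (by omega)] at h1
  exact add_left_cancel h1

theorem exists_canon_aux (N : ℕ) : ∀ t : ∀ n, K n, (∀ n ≥ N, T.D n (t (n + 1)) = t n) →
    ∃ t' : ∀ n, K n, (∀ n, T.D n (t' (n + 1)) = t' n) ∧ ∀ᶠ n in atTop, t' n = t n := by
  induction N with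
  | zero => exact fun t ht => ⟨t, fun n => ht n (Nat.zero_le _), Eventually.of_forall fun _ => rfl⟩
  | succ N ih =>
    intro t ht
    obtain ⟨t', h1, h2⟩ := ih (Function.update t N (T.D N (t (N + 1)))) (by
      intro n hn
      rw [Function.update_of_ne (by omega)]
      by_cases h : n = N
      · subst h
        rw [Function.update_self]
      · rw [Function.update_of_ne h]
        exact ht n (by omega))
    refine ⟨t', h1, ?_⟩
    filter_upwards [h2, eventually_gt_atTop N] with n h3 h4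
    rw [h3, Function.update_of_ne (by omega)]

theorem exists_canon {y : Om K} (hy : ∀ᶠ n in atTop, T.D n (y n) = 0) :
    ∃ x : Om K, (∀ n, T.D n (x n) = 0) ∧ T.Rel x y := by
  obtain ⟨N, hN⟩ := eventually_atTop.1 hy
  obtain ⟨t, h1, h2⟩ := exists_canon_aux (T := T) N (fun n => T.S n y) (by
    intro n hn
    rw [S_succ, T.D_add, hN n hn, add_zero])
  have h3 : ∀ n, T.S n (fun n => t (n + 1) - T.ι n (t n)) = t n := by
    intro n
    induction n with
    | zero => rw [T.sub0 (t 0)]; rfl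
    | succ n ih => rw [S_succ, ih]; abel
  refine ⟨fun n => t (n + 1) - T.ι n (t n), fun n => ?_, h2.mono fun n hn => by rw [h3, hn]⟩
  have h4 := T.D_add n (t n) (t (n + 1) - T.ι n (t n))
  rw [add_sub_cancel, h1] at h4
  simpa using h4.symm

theorem Good.add {x h : Om K} (hx : T.Good x) (hh : Small h) : T.Good (x + h) := by
  obtain ⟨k, hk⟩ := hx
  refine ⟨2 * k + 1, ?_⟩
  have hp : (0:ℝ) < 1 / (((2 * k + 1 : ℕ) : ℝ) + 1) := by positivity
  filter_upwards [hk, hh.eventually (gt_mem_nhds hp)] with n h1 h2 h' h3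
  rw [Pi.add_apply, add_assoc]
  refine h1 _ (lt_of_le_of_lt (norm_add_le _ _) ?_)
  have : 1 / ((k : ℝ) + 1) = 1 / (((2 * k + 1 : ℕ) : ℝ) + 1) + 1 / (((2 * k + 1 : ℕ) : ℝ) + 1) := by
    push_cast
    field_simp
    ring
  rw [this]
  exact add_lt_add h2 h3

theorem Good.congr {x y : Om K} (hy : T.Good y) (h : ∀ᶠ n in atTop, x n = y n) : T.Good x := by
  obtain ⟨k, hk⟩ := hy
  refine ⟨k, ?_⟩
  filter_upwards [hk, h] with n h1 h2
  rwa [h2]

theorem Good.ev {x : Om K} (hx : T.Good x) : ∀ᶠ n in atTop, T.D n (x n) = 0 := by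
  obtain ⟨k, hk⟩ := hx
  filter_upwards [hk] with n h1
  have := h1 0 (by rw [norm_zero]; positivity)
  rwa [add_zero] at this

theorem mem_X_of {x : Om K} (hx : ∀ n h, ‖h‖ < 1 → T.D n (x n + h) = 0) : x ∈ T.X := by
  refine ⟨fun n => ?_, 0, Eventually.of_forall fun n h hh => hx n h (by simpa using hh)⟩
  have := hx n 0 (by simp)
  rwa [add_zero] at this

variable (T)

open Classical in
/-- translate and renormalise -/
noncomputable def act (h x : Om K) : Om K :=
  if hy : x ∈ T.X ∧ ∃ y ∈ T.X, T.Rel y (x + h) then hy.2.choose else x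

variable {T}

theorem act_not {h x : Om K} (hx : x ∉ T.X) : T.act h x = x := by
  unfold act
  rw [dif_neg fun h => hx h.1]

theorem act_spec {h x : Om K} (hx : x ∈ T.X) (hh : Small h) :
    T.act h x ∈ T.X ∧ T.Rel (T.act h x) (x + h) := by
  have h1 := hx.2.add hh
  obtain ⟨y, h2, h3⟩ := exists_canon h1.ev
  have hy : x ∈ T.X ∧ ∃ y ∈ T.X, T.Rel y (x + h) := ⟨hx, y, ⟨h2, h1.congr h3.ev⟩, h3⟩
  unfold act
  rw [dif_pos hy]
  exact hy.2.choose_spec

theorem act_eq {h x y : Om K} (hx : x ∈ T.X) (hh : Small h) (hy : y ∈ T.X)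
    (hr : T.Rel y (x + h)) : T.act h x = y :=
  uniq (act_spec hx hh).1.1 hy.1 ((act_spec hx hh).2.trans hr.symm)

variable (T)

/-- the discrete subgroup -/
def Γ : AddSubgroup (HH K) where
  carrier := {h | ∀ᶠ n in atTop, T.S n (h : Om K) = 0}
  zero_mem' := Eventually.of_forall fun n => map_zero _
  add_mem' {a b} ha hb := by
    filter_upwards [ha, hb] with n h1 h2
    rw [lp.coeFn_add, map_add, h1, h2, add_zero]
  neg_mem' {a} ha := by
    filter_upwards [ha] with n h1
    rw [lp.coeFn_neg, map_neg, h1, neg_zero]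

theorem D_small (n : ℕ) (h : K (n + 1)) (hh : ‖h‖ < 1) : T.D n h = 0 := by
  have := T.robB n 0 (T.zero_mem n) h hh
  rwa [zero_add] at this

instance : IsClosed (T.Γ : Set (HH K)) := by
  refine Metric.isClosed_of_pairwise_le_dist one_pos fun a ha b hb hab => ?_
  by_contra hc
  push Not at hc
  rw [dist_eq_norm] at hc
  apply hab
  rw [← sub_eq_zero]
  refine lp.ext (uniq (T := T) (fun n => T.D_small n _ ?_) (fun n => T.D_small n _ ?_) ?_)
  · exact lt_of_le_of_lt (lp.norm_apply_le_norm one_ne_zero _ n) hc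
  · simp
  · filter_upwards [T.Γ.sub_mem ha hb] with n hn
    rw [hn]
    exact (map_zero _).symm

/-- the group -/
def G : Type := HH K ⧸ T.Γ

noncomputable instance : NormedAddCommGroup T.G :=
  inferInstanceAs (NormedAddCommGroup (HH K ⧸ T.Γ))

instance [∀ n, Finite (K n)] : CompleteSpace T.G :=
  inferInstanceAs (CompleteSpace (HH K ⧸ T.Γ))

noncomputable instance : MeasurableSpace T.G := borel _

instance : BorelSpace T.G := ⟨rfl⟩

/-- quotient map -/
noncomputable def q : HH K →+ T.G := QuotientAddGroup.mk' T.Γ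

theorem mk_surj : Function.Surjective T.q := QuotientAddGroup.mk'_surjective _

theorem mk_cont : Continuous T.q := QuotientAddGroup.continuous_mk

theorem norm_mk (h : HH K) : ‖T.q h‖ ≤ ‖h‖ := QuotientAddGroup.norm_mk_le_norm

theorem mk_eq {a b : HH K} : T.q a = T.q b ↔ T.Rel a b := by
  have : T.q a = T.q b ↔ -a + b ∈ T.Γ := QuotientAddGroup.eq
  rw [this]
  refine eventually_congr (Eventually.of_forall fun n => ?_)
  rw [lp.coeFn_add, lp.coeFn_neg, map_add, map_neg, neg_add_eq_zero]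

instance [∀ n, Finite (K n)] : TopologicalSpace.SeparableSpace T.G :=
  T.mk_surj.denseRange.separableSpace T.mk_cont

theorem act_congr {a b : HH K} (h : T.q a = T.q b) (x : Om K) : T.act a x = T.act b x := by
  by_cases hx : x ∈ T.X
  · refine act_eq hx (small_lp a) (act_spec hx (small_lp b)).1
      ((act_spec hx (small_lp b)).2.trans ?_)
    rw [add_comm, add_comm x]
    exact (T.mk_eq.1 h).symm.add x
  · rw [act_not hx, act_not hx]

noncomputable instance : VAdd T.G (Om K) :=
  ⟨fun g x => T.act ((T.mk_surj g).choose : HH K) x⟩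

theorem vadd_mk (h : HH K) (x : Om K) : T.q h +ᵥ x = T.act h x :=
  T.act_congr (T.mk_surj (T.q h)).choose_spec x

noncomputable instance : AddAction T.G (Om K) where
  zero_vadd x := by
    rw [← map_zero T.q, vadd_mk]
    by_cases hx : x ∈ T.X
    · exact act_eq hx (small_lp 0) hx (by rw [lp.coeFn_zero, add_zero]; exact Rel.refl x)
    · exact act_not hx
  add_vadd g g' x := by
    obtain ⟨a, rfl⟩ := T.mk_surj g
    obtain ⟨b, rfl⟩ := T.mk_surj g'
    rw [← map_add, vadd_mk, vadd_mk, vadd_mk]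
    by_cases hx : x ∈ T.X
    · have h1 := act_spec hx (small_lp b)
      have h2 := act_spec h1.1 (small_lp a)
      refine act_eq hx (small_lp _) h2.1 (h2.2.trans ?_)
      rw [lp.coeFn_add, add_comm (a : Om K), ← add_assoc]
      exact h1.2.add _
    · rw [act_not hx, act_not hx, act_not hx]

end Data

end Pool.Agent.H96.LV
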