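import Pool.Agent.H96.LV3

/-! Measurability of the action and the Levy property. -/

namespace Pool.Agent.H96.LV

open Filter Topology MeasureTheory ProbabilityTheory
open scoped ENNReal

theorem unif_apply {α : Type} [Finite α] [MeasurableSpace α] [DiscreteMeasurableSpace α]
    (s t : Set α) : uniformOn s t = ((s ∩ t).ncard : ℝ≥0∞) / (s.ncard : ℝ≥0∞) := by
  have h : ∀ u : Set α, Measure.count u = (u.ncard : ℝ≥0∞) := by
    intro u
    rw [Measure.count_apply MeasurableSet.of_discrete, ← (Set.toFinite u).cast_ncard_eq]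
    rfl
  unfold uniformOn
  rw [cond_apply MeasurableSet.of_discrete, h, h, ENNReal.div_eq_inv_mul]

theorem unif_real {α : Type} [Finite α] [MeasurableSpace α] [DiscreteMeasurableSpace α]
    (s t : Set α) (hs : s.Nonempty) :
    uniformOn s t = ENNReal.ofReal (((s ∩ t).ncard : ℝ) / (s.ncard : ℝ)) := by
  have : (0:ℝ) < s.ncard := by exact_mod_cast (Set.ncard_pos (Set.toFinite s)).2 hs
  rw [unif_apply, ENNReal.ofReal_div_of_pos this, ENNReal.ofReal_natCast, ENNReal.ofReal_natCast]

theorem mp_invol {α : Type} [Finite α] [MeasurableSpace α] [DiscreteMeasurableSpace α]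
    (P : Measure α) (f : α → α) (hf : Function.Involutive f) (h : ∀ v, P {f v} = P {v}) :
    MeasurePreserving f P P := by
  refine ⟨Measurable.of_discrete, Measure.ext_of_singleton fun v => ?_⟩
  rw [Measure.map_apply Measurable.of_discrete MeasurableSet.of_discrete, ← h v]
  congr 1
  ext w
  simp only [Set.mem_preimage, Set.mem_singleton_iff]
  constructor
  · rintro rfl
    exact (hf w).symm
  · rintro rfl
    exact hf v

variable {K : ℕ → Type} [∀ n, NormedAddCommGroup (K n)] [∀ n, Finite (K n)]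
  [∀ n, MeasurableSpace (K n)] [∀ n, DiscreteMeasurableSpace (K n)]

omit [∀ n, NormedAddCommGroup (K n)] [∀ n, Finite (K n)] in
theorem meas_coord (n : ℕ) (p : K (n + 1) → Prop) : MeasurableSet {x : Om K | p (x n)} :=
  measurable_pi_apply n (MeasurableSet.of_discrete (s := {v | p v}))

omit [∀ n, Finite (K n)] in
theorem meas_addc (γ : Om K) : Measurable (fun x : Om K => x + γ) :=
  measurable_pi_lambda _ fun n =>
    (Measurable.of_discrete (f := fun v : K (n + 1) => v + γ n)).comp (measurable_pi_apply n)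

namespace Data

variable (T : Data K)

omit [∀ n, Finite (K n)] in
theorem meas_X : MeasurableSet T.X := by
  have : T.X = (⋂ n, {x : Om K | T.D n (x n) = 0}) ∩ ⋃ k : ℕ, ⋃ N : ℕ, ⋂ n, ⋂ _ : N ≤ n,
      {x : Om K | ∀ h, ‖h‖ < 1 / ((k : ℝ) + 1) → T.D n (x n + h) = 0} := by
    ext x
    simp [X, Good, eventually_atTop]
  rw [this]
  refine (MeasurableSet.iInter fun n => meas_coord n (fun v => T.D n v = 0)).inter
    (MeasurableSet.iUnion fun k => MeasurableSet.iUnion fun N => MeasurableSet.iInter fun n =>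
      MeasurableSet.iInter fun _ =>
        meas_coord n (fun v => ∀ h, ‖h‖ < 1 / ((k : ℝ) + 1) → T.D n (v + h) = 0))

theorem meas_vadd : Measurable (fun p : T.G × Om K => p.1 +ᵥ p.2) := by
  borelize (HH K)
  have hq : Measurable (Prod.map T.q (id : Om K → Om K)) := T.mk_cont.measurable.prodMap measurable_id
  rw [← hq.measurable_comp_iff_of_surjective (T.mk_surj.prodMap Function.surjective_id)]
  intro A hA
  have hZ : {γ : Om K | T.Rel γ 0}.Countable :=
    (countable_ev (A := fun n => K (n + 1)) 0).mono fun γ hγ => Rel.ev hγ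
  have hm : ∀ γ : Om K, Measurable (fun p : HH K × Om K => p.2 + (p.1 : Om K) + γ) := by
    intro γ
    refine (meas_addc γ).comp (measurable_pi_lambda _ fun n => ?_)
    have h1 : Measurable (fun h : HH K => h n) := fun s _ =>
      ((lp.lipschitzWith_one_eval (E := fun n => K (n + 1)) 1 n).continuous.isOpen_preimage s
        (isOpen_discrete s)).measurableSet
    have h2 : Measurable (fun p : HH K × Om K => (p.2 n, (p.1 : Om K) n)) :=
      ((measurable_pi_apply n).comp measurable_snd).prodMk (h1.comp measurable_fst)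
    have h3 : Measurable (fun v : K (n + 1) × K (n + 1) => v.1 + v.2) := Measurable.of_discrete
    exact h3.comp h2
  have : ((fun p : T.G × Om K => p.1 +ᵥ p.2) ∘ Prod.map T.q id) ⁻¹' A =
      Prod.snd ⁻¹' (T.Xᶜ ∩ A) ∪ ⋃ γ ∈ {γ : Om K | T.Rel γ 0},
        (Prod.snd ⁻¹' T.X ∩ (fun p : HH K × Om K => p.2 + (p.1 : Om K) + γ) ⁻¹' (T.X ∩ A)) := by
    ext ⟨h, x⟩
    simp only [Set.mem_preimage, Function.comp, Prod.map, id, vadd_mk, Set.mem_union,
      Set.mem_inter_iff, Set.mem_compl_iff, Set.mem_iUnion, Set.mem_ofPred_eq, exists_prop]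
    constructor
    · intro hA'
      by_cases hx : x ∈ T.X
      · right
        have h1 := act_spec hx (small_lp h)
        refine ⟨T.act h x - (x + h), ?_, hx, ?_⟩
        · have := h1.2.add (-(x + h))
          rwa [add_neg_cancel, ← sub_eq_add_neg] at this
        · rw [add_sub_cancel]
          exact ⟨h1.1, hA'⟩
      · left
        rw [act_not hx] at hA'
        exact ⟨hx, hA'⟩
    · rintro (⟨hx, hA'⟩ | ⟨γ, h1, hx, h2, h3⟩)
      · rwa [act_not hx]
      · have := h1.add (x + h)
        rw [zero_add, add_comm] at this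
        rwa [act_eq hx (small_lp h) h2 this]
  rw [this]
  exact (measurable_snd (T.meas_X.compl.inter hA)).union
    (MeasurableSet.biUnion hZ fun γ _ =>
      (measurable_snd T.meas_X).inter (hm γ (T.meas_X.inter hA)))

theorem meas_vadd_const (g : T.G) : Measurable (fun x : Om K => g +ᵥ x) :=
  T.meas_vadd.comp measurable_prodMk_left

/-- the finite subgroups -/
noncomputable def κ (n : ℕ) : K (n + 1) →+ T.G :=
  T.q.comp (lp.singleAddMonoidHom (E := fun n => K (n + 1)) 1 n)

omit [∀ n, Finite (K n)] [∀ n, MeasurableSpace (K n)] [∀ n, DiscreteMeasurableSpace (K n)] in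
theorem κ_apply (n : ℕ) (v : K (n + 1)) :
    T.κ n v = T.q (lp.single (E := fun n => K (n + 1)) 1 n v) := rfl

omit [∀ n, Finite (K n)] [∀ n, MeasurableSpace (K n)] [∀ n, DiscreteMeasurableSpace (K n)] in
theorem fin_mem (h : HH K) (N : ℕ) (hh : ∀ n, N + 1 ≤ n → h n = 0) : T.q h ∈ (T.κ N).range := by
  refine ⟨T.S (N + 1) h, ?_⟩
  rw [κ_apply, mk_eq]
  refine rel_of (N + 1) ?_ fun n hn => ?_
  · rw [T.S_succ N (lp.single (E := fun n => K (n + 1)) 1 N (T.S (N + 1) h)), S_zero_of, map_zero,
      zero_add, lp.single_apply_self]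
    intro j hj
    exact lp.single_apply_ne (E := fun n => K (n + 1)) 1 N _ (by omega)
  · rw [hh n hn]
    exact lp.single_apply_ne (E := fun n => K (n + 1)) 1 N _ (by omega)

theorem isLevy : IsLevy T.G := by
  have hκ : ∀ n, Measurable (T.κ n) := fun n => Measurable.of_discrete
  have hfin : ∀ n, ((T.κ n).range : Set T.G).Finite := fun n => Set.finite_range _
  refine ⟨fun n => (T.κ n).range, fun n => (uniformOn Set.univ).map (T.κ n),
    monotone_nat_of_le_succ fun n => ?_, fun n => (hfin n).isCompact, fun g => ?_,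
    fun n => ⟨Measure.isProbabilityMeasure_map (hκ n).aemeasurable, ?_, ?_⟩, ?_⟩
  · rintro _ ⟨v, rfl⟩
    exact T.fin_mem _ (n + 1) fun j hj =>
      lp.single_apply_ne (E := fun n => K (n + 1)) 1 n _ (by omega)
  · obtain ⟨h, rfl⟩ := T.mk_surj g
    refine mem_closure_of_tendsto ((T.mk_cont.tendsto h).comp (tendsto_trunc h))
      (Eventually.of_forall fun N => Set.mem_iUnion.2 ⟨N, ?_⟩)
    exact T.fin_mem _ N fun n hn => trunc_apply h N n hn
  · rw [Measure.map_apply (hκ n) (hfin n).measurableSet.compl]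
    have : T.κ n ⁻¹' ((T.κ n).range : Set T.G)ᶜ = ∅ := by
      ext v
      simp
    rw [this, measure_empty]
  · rintro _ ⟨v, rfl⟩
    have h1 : MeasurePreserving (fun w => v + w) (uniformOn (Set.univ : Set (K (n + 1))))
        (uniformOn Set.univ) := by
      refine mp_invol _ _ (fun w => by rw [← add_assoc, T.two, zero_add]) fun w => ?_
      rw [unif_apply, unif_apply]
      simp
    rw [Measure.map_map (measurable_const_add _) (hκ n)]
    have : (fun g => T.κ n v + g) ∘ T.κ n = T.κ n ∘ (fun w => v + w) := by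
      funext w
      simp
    rw [this, ← Measure.map_map (hκ n) h1.measurable, h1.map_eq]
  · intro A hA hl ε hε
    obtain ⟨δ, hδ0, hδ⟩ := ENNReal.lt_iff_exists_real_btwn.1 hl
    have hδp : 0 < δ := by simpa using hδ.1
    have e1 := eventually_lt_of_lt_liminf hδ.2
    have t1 : Tendsto (fun n : ℕ => 1 / ((n + 1 : ℕ) : ℝ)) atTop (𝓝 0) := by
      simpa using tendsto_one_div_add_atTop_nhds_zero_nat (𝕜 := ℝ)
    have e2 := t1.eventually (gt_mem_nhds hδp)
    have e3 := t1.eventually (gt_mem_nhds (half_pos hε))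
    have t2 : Tendsto (fun n : ℕ => 1 - ENNReal.ofReal (1 / ((n + 1 : ℕ) : ℝ))) atTop (𝓝 1) := by
      have := ENNReal.Tendsto.sub (tendsto_const_nhds (x := (1:ℝ≥0∞))) (ENNReal.tendsto_ofReal t1)
        (Or.inl ENNReal.one_ne_top)
      simpa using this
    refine tendsto_of_tendsto_of_tendsto_of_le_of_le' t2 tendsto_const_nhds ?_
      (Eventually.of_forall fun n => ?_)
    swap
    · have := Measure.isProbabilityMeasure_map (μ := uniformOn (Set.univ : Set (K (n + 1))))
        (hκ n).aemeasurable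
      exact prob_le_one
    filter_upwards [e1, e2, e3] with n h1 h2 h3
    have hN : (0:ℝ) < (Set.univ : Set (K (n + 1))).ncard := by
      exact_mod_cast (Set.ncard_pos (Set.toFinite _)).2 Set.univ_nonempty
    have hn : (0:ℝ) < ((n + 1 : ℕ) : ℝ) := by positivity
    rw [Measure.map_apply (hκ n) (hA n).1, unif_real _ _ Set.univ_nonempty, Set.univ_inter,
      ENNReal.ofReal_lt_ofReal_iff_of_nonneg hδ0, lt_div_iff₀ hN] at h1
    have h4 := T.levy n (T.κ n ⁻¹' A n) (by
      rw [← Set.ncard_univ]
      rw [div_lt_iff₀ hn] at h2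
      nlinarith)
    rw [← Set.ncard_univ] at h4
    rw [Measure.map_apply (hκ n) Metric.isOpen_thickening.measurableSet,
      ← compl_compl (T.κ n ⁻¹' Metric.thickening ε (A n)),
      prob_compl_eq_one_sub MeasurableSet.of_discrete]
    refine tsub_le_tsub_left ?_ _
    rw [unif_real _ _ Set.univ_nonempty, Set.univ_inter]
    refine ENNReal.ofReal_le_ofReal ?_
    rw [div_le_div_iff₀ hN hn, one_mul, mul_comm]
    refine le_trans (mul_le_mul_of_nonneg_left ?_ hn.le) h4
    refine Nat.cast_le.2 (Set.ncard_le_ncard ?_ (Set.toFinite _))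
    intro x hx s hs
    by_contra hc
    push Not at hc
    refine hx (Metric.mem_thickening_iff.2 ⟨T.κ n s, hs, ?_⟩)
    rw [dist_eq_norm, ← map_sub, κ_apply]
    refine lt_of_le_of_lt (T.norm_mk _) ?_
    rw [lp.norm_single one_pos]
    have : 2 / ((n + 1 : ℕ) : ℝ) = 2 * (1 / ((n + 1 : ℕ) : ℝ)) := by ring
    linarith

end Data

end Pool.Agent.H96.LV
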