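import Pool.Agent.H96.LV4

/-! Product measures on the ambient space. -/

namespace Pool.Agent.H96.LV

open Filter Topology MeasureTheory ProbabilityTheory
open scoped ENNReal

theorem iSup_le_on {α ι : Type} [MeasurableSpace α] (m : ι → Measure α) (lam : Measure α)
    (S : Set α) (hS : MeasurableSet S)
    (h : ∀ i A, MeasurableSet A → A ⊆ S → m i A ≤ lam A) : (⨆ i, m i) S ≤ lam S := by
  have : (⨆ i, m i) ≤ lam + (⊤ : Measure α).restrict Sᶜ := by
    refine iSup_le fun i => Measure.le_iff.2 fun A hA => ?_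
    rw [← measure_inter_add_sdiff A hS, Measure.add_apply, Measure.restrict_apply hA]
    refine add_le_add ((h i _ (hA.inter hS) Set.inter_subset_right).trans
      (measure_mono Set.inter_subset_left)) ?_
    rcases (A \ S).eq_empty_or_nonempty with h0 | h0
    · rw [h0, measure_empty]
      exact zero_le
    · have : (⊤ : Measure α) (A ∩ Sᶜ) = ⊤ := OuterMeasure.top_apply h0
      rw [this]
      exact le_top
  have h2 := Measure.le_iff'.1 this S
  rwa [Measure.add_apply, Measure.restrict_apply hS, Set.inter_compl_self, measure_empty,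
    add_zero] at h2

theorem piecewise_le {α : Type} [MeasurableSpace α] [MeasurableEq α] (μ : Measure α)
    (φ ψ : α → α) (hφ : Measurable φ) (hψ : Measurable ψ) (h1 : ∀ x, ψ (φ x) = x)
    (F : Set (α → α)) (hF : F.Countable) (hF' : ∀ σ ∈ F, MeasurePreserving σ μ μ)
    (A : Set α) (hA : MeasurableSet A) (h : ∀ᵐ x ∂μ, φ x ∈ A → ∃ σ ∈ F, φ x = σ x) :
    μ (φ ⁻¹' A) ≤ μ A := by
  rcases F.eq_empty_or_nonempty with h0 | h0
  · have : μ (φ ⁻¹' A) = 0 := by
      rw [measure_eq_zero_iff_ae_notMem]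
      filter_upwards [h] with x hx hx'
      obtain ⟨σ, hσ, _⟩ := hx hx'
      simp [h0] at hσ
    rw [this]
    exact zero_le
  obtain ⟨σ, hσ⟩ := hF.exists_eq_range h0
  have hσ' : ∀ i, MeasurePreserving (σ i) μ μ := fun i => hF' _ (hσ ▸ Set.mem_range_self i)
  set E : ℕ → Set α := fun i => {x | φ x = σ i x} with hE
  have hEm : ∀ i, MeasurableSet (E i) := fun i => measurableSet_eq_fun hφ (hσ' i).measurable
  have hD : ∀ i, MeasurableSet (disjointed E i) := MeasurableSet.disjointed hEm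
  calc μ (φ ⁻¹' A) ≤ μ (⋃ i, disjointed E i ∩ φ ⁻¹' A) := by
        refine measure_mono_ae ?_
        filter_upwards [h] with x hx hx'
        obtain ⟨s, hs, hs'⟩ := hx hx'
        rw [hσ] at hs
        obtain ⟨i, rfl⟩ := hs
        have : x ∈ ⋃ i, disjointed E i := by
          rw [iUnion_disjointed]
          exact Set.mem_iUnion.2 ⟨i, hs'⟩
        obtain ⟨j, hj⟩ := Set.mem_iUnion.1 this
        exact Set.mem_iUnion.2 ⟨j, hj, hx'⟩
    _ ≤ ∑' i, μ (disjointed E i ∩ φ ⁻¹' A) := measure_iUnion_le _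
    _ ≤ ∑' i, μ (ψ ⁻¹' disjointed E i ∩ A) := by
        refine ENNReal.tsum_le_tsum fun i => ?_
        rw [← (hσ' i).measure_preimage ((hψ (hD i)).inter hA).nullMeasurableSet]
        refine measure_mono fun x hx => ?_
        have h2 : φ x = σ i x := disjointed_subset E i hx.1
        simp only [Set.mem_preimage, Set.mem_inter_iff]
        rw [← h2, h1]
        exact hx
    _ = μ (⋃ i, ψ ⁻¹' disjointed E i ∩ A) := by
        refine (measure_iUnion ?_ fun i => (hψ (hD i)).inter hA).symm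
        intro i j hij
        exact ((disjoint_disjointed E hij).preimage ψ).mono Set.inter_subset_left
          Set.inter_subset_left
    _ ≤ μ A := measure_mono (Set.iUnion_subset fun i => Set.inter_subset_right)

variable {K : ℕ → Type} [∀ n, NormedAddCommGroup (K n)] [∀ n, Finite (K n)]
  [∀ n, MeasurableSpace (K n)] [∀ n, DiscreteMeasurableSpace (K n)]
  (P : ∀ n, Measure (K (n + 1))) [∀ n, IsProbabilityMeasure (P n)]

omit [∀ n, NormedAddCommGroup (K n)] [∀ n, Finite (K n)] [∀ n, DiscreteMeasurableSpace (K n)] in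
theorem ae_coord (s : ∀ n, Set (K (n + 1))) (h : ∀ n, P n (s n)ᶜ = 0) :
    ∀ᵐ x ∂(Measure.infinitePi P), ∀ n, x n ∈ s n := by
  rw [ae_all_iff]
  intro n
  exact (measurePreserving_eval_infinitePi P n).quasiMeasurePreserving.ae (h n)

omit [∀ n, NormedAddCommGroup (K n)] [∀ n, Finite (K n)] [∀ n, DiscreteMeasurableSpace (K n)] in
theorem mp_pi (f : ∀ n, K (n + 1) → K (n + 1)) (h : ∀ n, MeasurePreserving (f n) (P n) (P n)) :
    MeasurePreserving (fun (x : Om K) n => f n (x n)) (Measure.infinitePi P)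
      (Measure.infinitePi P) := by
  refine ⟨measurable_pi_lambda _ fun n => (h n).measurable.comp (measurable_pi_apply n), ?_⟩
  rw [Measure.infinitePi_map_pi P fun n => (h n).measurable]
  congr 1
  funext n
  exact (h n).map_eq

omit [∀ n, NormedAddCommGroup (K n)] [∀ n, Finite (K n)] in
theorem no_atoms (h : ∀ n v, P n {v} ≤ ENNReal.ofReal (2 / 3)) (x : Om K) :
    Measure.infinitePi P {x} = 0 := by
  have h1 : ∀ N, Measure.infinitePi P {x} ≤ ENNReal.ofReal (2 / 3) ^ N := by
    intro N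
    calc Measure.infinitePi P {x}
        ≤ Measure.infinitePi P (Set.pi (Finset.range N) fun n => {x n}) :=
          measure_mono (by
            rintro _ rfl
            intro n _
            rfl)
      _ = ∏ n ∈ Finset.range N, P n {x n} :=
          Measure.infinitePi_pi P fun n _ => MeasurableSet.of_discrete
      _ ≤ ENNReal.ofReal (2 / 3) ^ N := by
          have := Finset.prod_le_pow_card (Finset.range N) (fun n => P n {x n}) _
            fun n _ => h n (x n)
          rwa [Finset.card_range] at this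
  have h2 : Tendsto (fun N : ℕ => ENNReal.ofReal (2 / 3) ^ N) atTop (𝓝 0) :=
    ENNReal.tendsto_pow_atTop_nhds_zero_of_lt_one (by
      rw [ENNReal.ofReal_lt_one]; norm_num)
  exact le_antisymm (ge_of_tendsto' h2 h1) zero_le

omit [∀ n, Finite (K n)] [∀ n, DiscreteMeasurableSpace (K n)] in
theorem tail_zero_one (A : Set (Om K)) (hA : MeasurableSet A)
    (h : ∀ x y : Om K, (∀ᶠ n in atTop, x n = y n) → x ∈ A → y ∈ A) :
    Measure.infinitePi P A = 0 ∨ Measure.infinitePi P A = 1 := by
  have hind := iIndepFun_infinitePi (P := P) (X := fun n (v : K (n + 1)) => v)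
    (fun n => measurable_id)
  rw [iIndepFun_iff_iIndep] at hind
  refine measure_zero_or_one_of_measurableSet_limsup_atTop
    (fun n => (measurable_pi_apply n).comap_le) hind ?_
  rw [limsup_eq_iInf_iSup_of_nat, MeasurableSpace.measurableSet_iInf]
  intro N
  have h1 : A = (fun (y : Om K) n => if n < N then 0 else y n) ⁻¹' A := by
    have h2 : ∀ y : Om K, ∀ᶠ n in atTop, y n = (fun n => if n < N then 0 else y n) n := by
      intro y
      filter_upwards [eventually_ge_atTop N] with n hn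
      rw [if_neg (by omega)]
    ext y
    exact ⟨h _ _ (h2 y), h _ _ ((h2 y).mono fun _ h => h.symm)⟩
  rw [h1]
  refine (@measurable_pi_lambda _ _ _ (_) _ _ fun n => ?_) hA
  by_cases hn : n < N
  · simp only [if_pos hn]
    exact @measurable_const _ _ _ (_) _
  · simp only [if_neg hn]
    exact Measurable.of_comap_le (le_iSup₂_of_le n (by omega) le_rfl)

open Classical in
/-- measure preserving approximation of a translation -/
noncomputable def tau (n : ℕ) (h v : K (n + 1)) : K (n + 1) :=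
  if P n {v + h} = P n {v} then v + h else v

namespace Data

variable (T : Data K)

include T in
omit [∀ n, IsProbabilityMeasure (P n)] in
theorem mp_tau (n : ℕ) (h : K (n + 1)) : MeasurePreserving (tau P n h) (P n) (P n) := by
  refine mp_invol _ _ (fun v => ?_) fun v => ?_
  · unfold tau
    by_cases hv : P n {v + h} = P n {v}
    · rw [if_pos hv, add_assoc, T.two, add_zero, if_pos hv.symm]
    · rw [if_neg hv, if_neg hv]
  · unfold tau
    by_cases hv : P n {v + h} = P n {v}
    · rw [if_pos hv, hv]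
    · rw [if_neg hv]

/-- robust points -/
def W (n : ℕ) : Set (K (n + 1)) := {v | ∀ h, ‖h‖ < 1 → T.D n (v + h) = 0}

/-- the countable dense subgroup -/
def C : Set T.G := {g | ∃ h : HH K, (∀ᶠ n in atTop, h n = 0) ∧ T.q h = g}

omit [∀ n, MeasurableSpace (K n)] [∀ n, DiscreteMeasurableSpace (K n)] in
theorem C_countable : T.C.Countable := by
  have : {h : HH K | ∀ᶠ n in atTop, h n = 0}.Countable :=
    (countable_ev (A := fun n => K (n + 1)) 0).preimage_of_injOn
      (f := fun h : HH K => (h : Om K)) (fun _ _ _ _ h => lp.ext h)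
  exact this.image T.q

omit [∀ n, Finite (K n)] [∀ n, MeasurableSpace (K n)] [∀ n, DiscreteMeasurableSpace (K n)] in
theorem C_zero : 0 ∈ T.C := ⟨0, Eventually.of_forall fun _ => rfl, map_zero _⟩

omit [∀ n, Finite (K n)] [∀ n, MeasurableSpace (K n)] [∀ n, DiscreteMeasurableSpace (K n)] in
theorem C_add {a b : T.G} (ha : a ∈ T.C) (hb : b ∈ T.C) : a + b ∈ T.C := by
  obtain ⟨a, ha, rfl⟩ := ha
  obtain ⟨b, hb, rfl⟩ := hb
  refine ⟨a + b, ?_, map_add _ _ _⟩
  filter_upwards [ha, hb] with n h1 h2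
  rw [lp.coeFn_add, Pi.add_apply, h1, h2, add_zero]

omit [∀ n, Finite (K n)] [∀ n, MeasurableSpace (K n)] [∀ n, DiscreteMeasurableSpace (K n)] in
theorem ev_orbit {x y : Om K} (hx : x ∈ T.X) (hy : y ∈ T.X) (h : ∀ᶠ n in atTop, x n = y n) :
    ∃ k ∈ T.C, k +ᵥ x = y := by
  have h1 : ∀ᶠ n in atTop, (y - x) n = 0 := h.mono fun n hn => by
    rw [Pi.sub_apply, hn, sub_self]
  refine ⟨T.q (ofFin _ h1), ⟨_, h1, rfl⟩, ?_⟩
  rw [vadd_mk]
  refine act_eq hx (small_lp _) hy ?_
  change T.Rel y (x + (y - x))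
  rw [add_sub_cancel]
  exact Rel.refl y

omit [∀ n, Finite (K n)] [∀ n, DiscreteMeasurableSpace (K n)] in
theorem ae_X (hW : ∀ n, P n (T.W n)ᶜ = 0) : ∀ᵐ x ∂(Measure.infinitePi P), x ∈ T.X :=
  (ae_coord P T.W hW).mono fun _ hx => mem_X_of hx

omit [∀ n, Finite (K n)] in
theorem ae_tau (hT : ∀ n h, P n {v | P n {v + h} ≠ P n {v}} ≤ ENNReal.ofReal ‖h‖) (h : HH K) :
    ∀ᵐ x ∂(Measure.infinitePi P), ∀ᶠ n in atTop, tau P n (h n) (x n) = x n + h n := by
  have h1 : ∑' n, Measure.infinitePi P {x : Om K | P n {x n + h n} ≠ P n {x n}} ≠ ∞ := by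
    refine ne_top_of_le_ne_top ?_ (ENNReal.tsum_le_tsum (g := fun n => ENNReal.ofReal ‖h n‖)
      fun n => ?_)
    · rw [← ENNReal.ofReal_tsum_of_nonneg (fun _ => norm_nonneg _) (summable_lp h)]
      exact ENNReal.ofReal_ne_top
    · refine le_trans (le_of_eq ?_) (hT n (h n))
      exact (measurePreserving_eval_infinitePi P n).measure_preimage
        (MeasurableSet.of_discrete (s := {v | P n {v + h n} ≠ P n {v}})).nullMeasurableSet
  filter_upwards [ae_eventually_notMem h1] with x hx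
  filter_upwards [hx] with n hn
  unfold tau
  rw [if_pos (by simpa using hn)]

theorem key (hW : ∀ n, P n (T.W n)ᶜ = 0)
    (hT : ∀ n h, P n {v | P n {v + h} ≠ P n {v}} ≤ ENNReal.ofReal ‖h‖) (g : T.G) :
    ∃ τ : ∀ n, K (n + 1) → K (n + 1), (∀ n, MeasurePreserving (τ n) (P n) (P n)) ∧
      ∀ᵐ x ∂(Measure.infinitePi P), (∀ᶠ n in atTop, τ n (x n) = (g +ᵥ x) n) ∧
        ∃ k ∈ T.C, k +ᵥ (fun n => τ n (x n)) = g +ᵥ x := by
  obtain ⟨h, rfl⟩ := T.mk_surj g
  refine ⟨fun n => tau P n (h n), fun n => T.mp_tau P n _, ?_⟩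
  filter_upwards [T.ae_X P hW, ae_tau P hT h,
    (mp_pi P _ fun n => T.mp_tau P n (h n)).quasiMeasurePreserving.ae (T.ae_X P hW)]
    with x h1 h2 h3
  have h4 := act_spec h1 (small_lp h)
  have h5 : ∀ᶠ n in atTop, tau P n (h n) (x n) = (T.q h +ᵥ x) n := by
    filter_upwards [h2, h4.2.ev] with n h6 h7
    rw [vadd_mk, h6, h7, Pi.add_apply]
  refine ⟨h5, T.ev_orbit h3 ?_ h5⟩
  rw [vadd_mk]
  exact h4.1

theorem zero_one (hW : ∀ n, P n (T.W n)ᶜ = 0) : IsErg T.G (Om K) (Measure.infinitePi P) := by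
  intro A hA hinv
  set A' : Set (Om K) := ⋃ γ ∈ {γ : Om K | ∀ᶠ n in atTop, γ n = (0 : Om K) n},
    (fun x => x + γ) ⁻¹' (A ∩ T.X) with hA'
  have hm : MeasurableSet A' := MeasurableSet.biUnion (countable_ev (A := fun n => K (n + 1)) 0)
    fun γ _ => meas_addc γ (hA.inter T.meas_X)
  have h1 := tail_zero_one P A' hm (by
    intro x y hxy hx
    simp only [hA', Set.mem_iUnion, Set.mem_ofPred_eq, Set.mem_preimage, exists_prop] at hx ⊢
    obtain ⟨γ, h1, h2⟩ := hx
    refine ⟨x + γ - y, ?_, by rwa [add_sub_cancel]⟩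
    filter_upwards [hxy, h1] with n h3 h4
    simp [h3, h4])
  have h2 : A' =ᵐ[Measure.infinitePi P] A := by
    filter_upwards [T.ae_X P hW] with x hx
    refine propext ⟨fun h => ?_, fun h => ?_⟩
    · change x ∈ A' at h
      simp only [hA', Set.mem_iUnion, Set.mem_ofPred_eq, Set.mem_preimage, exists_prop] at h
      obtain ⟨γ, h1, h2⟩ := h
      obtain ⟨k, _, hk⟩ := T.ev_orbit hx h2.2 (h1.mono fun n hn => by simp [hn])
      exact (hinv k x).1 (hk ▸ h2.1)
    · change x ∈ A'
      simp only [hA', Set.mem_iUnion, Set.mem_ofPred_eq, Set.mem_preimage, exists_prop]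
      exact ⟨0, Eventually.of_forall fun _ => rfl, by rw [add_zero]; exact ⟨h, hx⟩⟩
  rw [measure_congr h2] at h1
  rcases h1 with h1 | h1
  · exact Or.inl h1
  · exact Or.inr ((prob_compl_eq_zero_iff hA).2 h1)

end Data

end Pool.Agent.H96.LV
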