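import Pool.Agent.H96.LV5

/-! The infinite invariant measure. -/

namespace Pool.Agent.H96.LV

open Filter Topology MeasureTheory ProbabilityTheory
open scoped ENNReal

variable {K : ℕ → Type} [∀ n, NormedAddCommGroup (K n)] [∀ n, Finite (K n)]
  [∀ n, MeasurableSpace (K n)] [∀ n, DiscreteMeasurableSpace (K n)]

namespace Data

variable (T : Data K)

omit [∀ n, Finite (K n)] [∀ n, MeasurableSpace (K n)] [∀ n, DiscreteMeasurableSpace (K n)] in
theorem vadd_single (x : Om K) (n : ℕ) (v : K (n + 1)) (hx : ∀ j, x j ∈ T.W j)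
    (hv : x n + v ∈ T.W n) : T.κ n v +ᵥ x = Function.update x n (x n + v) := by
  rw [κ_apply, vadd_mk]
  have h1 : Function.update x n (x n + v) =
      x + (lp.single (E := fun n => K (n + 1)) 1 n v : Om K) := by
    funext j
    by_cases hj : j = n
    · subst hj
      rw [Function.update_self, Pi.add_apply, lp.single_apply_self]
    · rw [Function.update_of_ne hj, Pi.add_apply,
        lp.single_apply_ne (E := fun n => K (n + 1)) 1 n _ hj, add_zero]
  refine act_eq (mem_X_of hx) (small_lp _) (mem_X_of fun j => ?_) (h1 ▸ Rel.refl _)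
  by_cases hj : j = n
  · subst hj
    rw [Function.update_self]
    exact hv
  · rw [Function.update_of_ne hj]
    exact hx j

/-- uniform measure on `B n` -/
noncomputable def PB (n : ℕ) : Measure (K (n + 1)) := uniformOn (T.B n)

instance (n : ℕ) : IsProbabilityMeasure (T.PB n) :=
  isProbabilityMeasure_uniformOn (Set.toFinite _) ⟨0, T.zero_mem n⟩

theorem PB_compl (n : ℕ) : T.PB n (T.B n)ᶜ = 0 := by
  unfold PB
  rw [unif_apply]
  simp

theorem PB_W (n : ℕ) : T.PB n (T.W n)ᶜ = 0 :=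
  measure_mono_null (Set.compl_subset_compl.2 fun x hx => T.robB n x hx) (T.PB_compl n)

theorem PB_eq (n : ℕ) {v w : K (n + 1)} (hv : v ∈ T.B n) (hw : w ∈ T.B n) :
    T.PB n {v} = T.PB n {w} := by
  unfold PB
  rw [unif_apply, unif_apply, Set.inter_singleton_of_mem hv, Set.inter_singleton_of_mem hw]
  simp

theorem PB_tv (n : ℕ) (h : K (n + 1)) :
    T.PB n {v | v ∈ T.B n → v + h ∉ T.B n} ≤ ENNReal.ofReal ‖h‖ := by
  have hp : (0:ℝ) < (T.B n).ncard := by
    exact_mod_cast (Set.ncard_pos (Set.toFinite _)).2 ⟨0, T.zero_mem n⟩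
  unfold PB
  rw [unif_real _ _ ⟨0, T.zero_mem n⟩]
  refine ENNReal.ofReal_le_ofReal ?_
  rw [div_le_iff₀ hp]
  refine le_trans (Nat.cast_le.2 (Set.ncard_le_ncard ?_ (Set.toFinite _))) (T.tv n h)
  exact fun x hx => ⟨hx.1, hx.2 hx.1⟩

theorem PB_T (n : ℕ) (h : K (n + 1)) :
    T.PB n {v | T.PB n {v + h} ≠ T.PB n {v}} ≤ ENNReal.ofReal ‖h‖ :=
  le_trans (measure_mono fun _ hv h1 h2 => hv (T.PB_eq n h2 h1)) (T.PB_tv n h)

theorem PB_atom (n : ℕ) (v : K (n + 1)) : T.PB n {v} ≤ ENNReal.ofReal (2 / 3) := by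
  obtain ⟨w, hw, hw0⟩ := T.nontriv n
  have h2 : 1 < (T.B n).ncard :=
    (Set.one_lt_ncard (Set.toFinite _)).2 ⟨w, hw, 0, T.zero_mem n, hw0⟩
  have h3 : (2:ℝ) ≤ (T.B n).ncard := by exact_mod_cast h2
  have h4 : (T.B n ∩ {v}).ncard ≤ 1 :=
    (Set.ncard_le_ncard Set.inter_subset_right (Set.toFinite _)).trans
      (Set.ncard_singleton v).le
  have h5 : ((T.B n ∩ {v}).ncard : ℝ) ≤ 1 := by exact_mod_cast h4
  unfold PB
  rw [unif_real _ _ ⟨0, T.zero_mem n⟩]
  refine ENNReal.ofReal_le_ofReal ?_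
  rw [div_le_iff₀ (by linarith)]
  linarith

/-- the base set -/
def X0 : Set (Om K) := {x | ∀ n, x n ∈ T.B n}

omit [∀ n, Finite (K n)] in
theorem meas_X0 : MeasurableSet T.X0 := by
  have : T.X0 = ⋂ n, {x : Om K | x n ∈ T.B n} := by
    ext x
    simp [X0]
  rw [this]
  exact MeasurableSet.iInter fun n => meas_coord n (fun v => v ∈ T.B n)

theorem star (g : T.G) (A : Set (Om K)) (hA : MeasurableSet A) (hA0 : A ⊆ T.X0) :
    Measure.infinitePi T.PB ((fun x => g +ᵥ x) ⁻¹' A) ≤ Measure.infinitePi T.PB A := by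
  classical
  obtain ⟨τ, h1, h2⟩ := T.key T.PB T.PB_W T.PB_T g
  refine piecewise_le _ _ (fun x => (-g) +ᵥ x) (T.meas_vadd_const g) (T.meas_vadd_const (-g))
    (fun x => neg_vadd_vadd g x)
    ((fun (σ : ∀ n, K (n + 1) → K (n + 1)) (x : Om K) n => σ n (x n)) ''
      ({σ | ∀ᶠ n in atTop, σ n = τ n} ∩ {σ | ∀ n, MeasurePreserving (σ n) (T.PB n) (T.PB n)}))
    (((countable_ev (A := fun n => K (n + 1) → K (n + 1)) τ).mono Set.inter_subset_left).image _)
    ?_ A hA ?_
  · rintro _ ⟨σ, hσ, rfl⟩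
    exact mp_pi _ _ hσ.2
  · filter_upwards [h2, ae_coord T.PB T.B T.PB_compl] with x h3 h4 h5
    obtain ⟨N, hN⟩ := eventually_atTop.1 h3.1
    refine ⟨_, ⟨fun n => if n < N then Equiv.swap (x n) ((g +ᵥ x) n) else τ n, ⟨?_, fun n => ?_⟩,
      rfl⟩, ?_⟩
    · filter_upwards [eventually_ge_atTop N] with n hn
      rw [if_neg (by omega)]
    · by_cases hn : n < N
      · simp only [if_pos hn]
        refine mp_invol _ _ (Equiv.swap_apply_self _ _) fun v => ?_
        rw [Equiv.swap_apply_def]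
        split_ifs with a1 a2
        · rw [a1]
          exact T.PB_eq n (hA0 h5 n) (h4 n)
        · rw [a2]
          exact T.PB_eq n (h4 n) (hA0 h5 n)
        · rfl
      · simp only [if_neg hn]
        exact h1 n
    · funext n
      by_cases hn : n < N
      · simp only [if_pos hn, Equiv.swap_apply_left]
      · simp only [if_neg hn]
        exact (hN n (by omega)).symm

/-- the invariant measure -/
noncomputable def nu : Measure (Om K) :=
  ⨆ g : T.G, (Measure.infinitePi T.PB).map (fun x => g +ᵥ x)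

omit [∀ n, Finite (K n)] [∀ n, DiscreteMeasurableSpace (K n)] in
theorem le_nu (g : T.G) : (Measure.infinitePi T.PB).map (fun x => g +ᵥ x) ≤ T.nu :=
  le_iSup (fun g : T.G => (Measure.infinitePi T.PB).map (fun x => g +ᵥ x)) g

theorem nu_inv (g : T.G) : T.nu.map (fun x => g +ᵥ x) = T.nu := by
  have h1 : ∀ g : T.G, T.nu ≤ T.nu.map (fun x => g +ᵥ x) := by
    intro g
    refine iSup_le fun g' => ?_
    have : (fun x : Om K => g' +ᵥ x) = (fun x => g +ᵥ x) ∘ (fun x => (-g + g') +ᵥ x) := by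
      funext x
      simp only [Function.comp]
      rw [← add_vadd, add_neg_cancel_left]
    rw [this, ← Measure.map_map (T.meas_vadd_const _) (T.meas_vadd_const _)]
    exact Measure.map_mono (T.le_nu _) (T.meas_vadd_const _)
  refine le_antisymm ?_ (h1 g)
  refine le_trans (Measure.map_mono (h1 (-g)) (T.meas_vadd_const _)) (le_of_eq ?_)
  rw [Measure.map_map (T.meas_vadd_const _) (T.meas_vadd_const _)]
  have : (fun x : Om K => g +ᵥ x) ∘ (fun x => (-g) +ᵥ x) = id := by
    funext x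
    exact vadd_neg_vadd g x
  rw [this, Measure.map_id]

theorem nu_null (S : Set (Om K)) (hS : MeasurableSet S)
    (h : ∀ g : T.G, Measure.infinitePi T.PB ((fun x => g +ᵥ x) ⁻¹' S) = 0) : T.nu S = 0 := by
  refine le_antisymm (iSup_le_on _ 0 S hS fun g A hA hAS => ?_) zero_le
  rw [Measure.map_apply (T.meas_vadd_const g) hA]
  exact le_of_eq (measure_mono_null (Set.preimage_mono hAS) (h g))

theorem nu_X0 : T.nu T.X0 ≤ 1 := by
  refine le_trans (iSup_le_on _ (Measure.infinitePi T.PB) _ T.meas_X0 fun g A hA hAS => ?_)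
    prob_le_one
  rw [Measure.map_apply (T.meas_vadd_const g) hA]
  exact T.star g A hA hAS

theorem nu_sigma : SigmaFinite T.nu := by
  set Y : Set (Om K) := ⋃ k ∈ T.C, (fun x => (-k) +ᵥ x) ⁻¹' T.X0 with hY
  have hYm : MeasurableSet Y :=
    MeasurableSet.biUnion T.C_countable fun k _ => T.meas_vadd_const _ T.meas_X0
  refine Measure.sigmaFinite_of_countable
    (S := insert Yᶜ ((fun k : T.G => (fun x : Om K => (-k) +ᵥ x) ⁻¹' T.X0) '' T.C))
    ((T.C_countable.image _).insert _) ?_ ?_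
  · rintro s (rfl | ⟨k, _, rfl⟩)
    · rw [T.nu_null _ hYm.compl]
      · exact ENNReal.zero_lt_top
      intro g
      obtain ⟨τ, h1, h2⟩ := T.key T.PB T.PB_W T.PB_T g
      rw [measure_eq_zero_iff_ae_notMem]
      filter_upwards [h2, (mp_pi _ _ h1).quasiMeasurePreserving.ae
        (ae_coord T.PB T.B T.PB_compl)] with x h3 h4 h5
      obtain ⟨k, hk, hk'⟩ := h3.2
      refine h5 (Set.mem_biUnion hk ?_)
      change -k +ᵥ (g +ᵥ x) ∈ T.X0
      rw [← hk', neg_vadd_vadd]
      exact h4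
    · dsimp only
      rw [← Measure.map_apply (T.meas_vadd_const _) T.meas_X0, nu_inv]
      exact lt_of_le_of_lt T.nu_X0 ENNReal.one_lt_top
  · rw [Set.sUnion_insert, Set.sUnion_image]
    exact Set.compl_union_self Y

theorem nu_atom (x : Om K) : T.nu {x} = 0 := by
  refine T.nu_null _ (measurableSet_singleton x) fun g => ?_
  refine measure_mono_null (t := {(-g) +ᵥ x}) ?_ (no_atoms _ T.PB_atom _)
  rintro y (rfl : g +ᵥ y = x)
  exact (neg_vadd_vadd g y).symm

theorem nu_erg : IsErg T.G (Om K) T.nu := by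
  intro A hA hinv
  rcases T.zero_one T.PB T.PB_W A hA hinv with h | h
  · refine Or.inl (T.nu_null _ hA fun g => ?_)
    rwa [show (fun x => g +ᵥ x) ⁻¹' A = A from Set.ext fun x => hinv g x]
  · refine Or.inr (T.nu_null _ hA.compl fun g => ?_)
    rwa [show (fun x => g +ᵥ x) ⁻¹' Aᶜ = Aᶜ from Set.ext fun x => not_congr (hinv g x)]

theorem nu_inf : T.nu Set.univ = ∞ := by
  set Y : ℕ → Set (Om K) := fun n =>
    {y | y n + T.e n ∈ T.B n} ∩ ⋂ j, ⋂ _ : j ≠ n, {y | y j ∈ T.B j} with hY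
  have hYm : ∀ n, MeasurableSet (Y n) := fun n =>
    (meas_coord n (fun v => v + T.e n ∈ T.B n)).inter (MeasurableSet.iInter fun j =>
      MeasurableSet.iInter fun _ => meas_coord j (fun v => v ∈ T.B j))
  have hd : Pairwise (Function.onFun Disjoint Y) := by
    intro n m hnm
    rw [Function.onFun, Set.disjoint_left]
    intro y h1 h2
    simp only [hY, Set.mem_inter_iff, Set.mem_iInter, Set.mem_ofPred_eq] at h1 h2
    exact T.disj n _ (h2.2 n hnm) h1.1
  have h1 : ∀ n, 1 ≤ T.nu (Y n) := by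
    intro n
    refine le_trans ?_ (Measure.le_iff'.1 (T.le_nu (T.κ n (T.e n))) _)
    rw [Measure.map_apply (T.meas_vadd_const _) (hYm n),
      ← measure_univ (μ := Measure.infinitePi T.PB)]
    refine measure_mono_ae ?_
    filter_upwards [ae_coord T.PB T.B T.PB_compl] with x hx _
    change T.κ n (T.e n) +ᵥ x ∈ Y n
    rw [T.vadd_single x n _ (fun j => T.robB j _ (hx j)) (T.robE n _ (hx n))]
    simp only [hY, Set.mem_inter_iff, Set.mem_iInter, Set.mem_ofPred_eq]
    refine ⟨?_, fun j hj => ?_⟩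
    · rw [Function.update_self, add_assoc, T.two, add_zero]
      exact hx n
    · rw [Function.update_of_ne hj]
      exact hx j
  refine top_unique (le_trans ?_ (measure_mono (Set.subset_univ (⋃ n, Y n))))
  rw [measure_iUnion hd hYm]
  refine le_trans ?_ (ENNReal.tsum_le_tsum h1)
  simp

end Data

end Pool.Agent.H96.LV
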