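import Pool.Agent.H96.LV6

/-! The type III measure. -/

namespace Pool.Agent.H96.LV

open Filter Topology MeasureTheory ProbabilityTheory
open scoped ENNReal symmDiff

variable {K : ℕ → Type} [∀ n, NormedAddCommGroup (K n)] [∀ n, Finite (K n)]
  [∀ n, MeasurableSpace (K n)] [∀ n, DiscreteMeasurableSpace (K n)]

omit [∀ n, NormedAddCommGroup (K n)] [∀ n, Finite (K n)] [∀ n, DiscreteMeasurableSpace (K n)] in
theorem upd_apply (P : ∀ n, Measure (K (n + 1))) [∀ n, IsProbabilityMeasure (P n)] (n : ℕ)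
    (F : Set (Om K)) (hF : MeasurableSet F) :
    Measure.infinitePi P F = ∫⁻ x, P n {v | Function.update x n v ∈ F} ∂(Measure.infinitePi P) := by
  have hm : Measurable (fun p : Om K × K (n + 1) => Function.update p.1 n p.2) :=
    measurable_update'
  have h1 : ((Measure.infinitePi P).prod (P n)).map
      (fun p : Om K × K (n + 1) => Function.update p.1 n p.2) = Measure.infinitePi P := by
    refine Measure.eq_infinitePi P fun s t ht => ?_
    rw [Measure.map_apply hm (MeasurableSet.pi s.countable_toSet fun i _ => ht i)]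
    have h2 : (fun p : Om K × K (n + 1) => Function.update p.1 n p.2) ⁻¹' (Set.pi s t) =
        (Set.pi (s.erase n) t) ×ˢ (if n ∈ s then t n else Set.univ) := by
      ext ⟨x, v⟩
      simp only [Set.mem_preimage, Set.mem_pi, Finset.mem_coe, Set.mem_prod, Finset.mem_erase]
      constructor
      · intro h
        refine ⟨fun i hi => ?_, ?_⟩
        · have := h i hi.2
          rwa [Function.update_of_ne hi.1] at this
        · split_ifs with hn
          · have := h n hn
            rwa [Function.update_self] at this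
          · trivial
      · rintro ⟨h3, h4⟩ i hi
        by_cases hin : i = n
        · subst hin
          rw [if_pos hi] at h4
          rwa [Function.update_self]
        · rw [Function.update_of_ne hin]
          exact h3 i ⟨hin, hi⟩
    rw [h2, Measure.prod_prod, Measure.infinitePi_pi P fun i _ => ht i]
    split_ifs with hn
    · exact Finset.prod_erase_mul s (fun i => P i (t i)) hn
    · rw [Finset.erase_eq_of_notMem hn, measure_univ, mul_one]
  conv_lhs => rw [← h1]
  rw [Measure.map_apply hm hF, Measure.prod_apply (hm hF)]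
  rfl

namespace Data

variable (T : Data K)

/-- biased measure -/
noncomputable def PE (n : ℕ) : Measure (K (n + 1)) :=
  (2 * 3⁻¹ : ℝ≥0∞) • T.PB n + (3⁻¹ : ℝ≥0∞) • (T.PB n).map (fun v => v + T.e n)

omit [∀ n, Finite (K n)] in
theorem PE_apply (n : ℕ) (s : Set (K (n + 1))) :
    T.PE n s = 2 * 3⁻¹ * T.PB n s + 3⁻¹ * T.PB n {v | v + T.e n ∈ s} := by
  unfold PE
  rw [Measure.add_apply, Measure.smul_apply, Measure.smul_apply,
    Measure.map_apply Measurable.of_discrete MeasurableSet.of_discrete]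
  rfl

theorem thirds : (2 * 3⁻¹ + 3⁻¹ : ℝ≥0∞) = 1 := by
  rw [← add_one_mul, show (2 + 1 : ℝ≥0∞) = 3 by norm_num]
  exact ENNReal.mul_inv_cancel (by norm_num) (by norm_num)

instance (n : ℕ) : IsProbabilityMeasure (T.PE n) := ⟨by
  rw [PE_apply]
  simp only [Set.mem_univ, Set.ofPred_true, measure_univ, mul_one]
  exact thirds⟩

theorem PB_zero (n : ℕ) {s : Set (K (n + 1))} (h : ∀ v ∈ s, v ∉ T.B n) : T.PB n s = 0 :=
  measure_mono_null h (T.PB_compl n)

omit [∀ n, Finite (K n)] in
theorem PE_le (n : ℕ) (s : Set (K (n + 1))) (c : ℝ≥0∞) (h1 : T.PB n s ≤ c)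
    (h2 : T.PB n {v | v + T.e n ∈ s} ≤ c) : T.PE n s ≤ c := by
  rw [PE_apply]
  calc _ ≤ 2 * 3⁻¹ * c + 3⁻¹ * c := by gcongr
    _ = c := by rw [← add_mul, thirds, one_mul]

/-- support of the biased measure -/
def Z (n : ℕ) : Set (K (n + 1)) := {v | v ∈ T.B n ∨ v + T.e n ∈ T.B n}

omit [∀ n, Finite (K n)] [∀ n, MeasurableSpace (K n)] [∀ n, DiscreteMeasurableSpace (K n)] in
theorem ee (n : ℕ) (v : K (n + 1)) : v + T.e n + T.e n = v := by
  rw [add_assoc, T.two, add_zero]

omit [∀ n, Finite (K n)] [∀ n, MeasurableSpace (K n)] [∀ n, DiscreteMeasurableSpace (K n)] in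
theorem Z_e {n : ℕ} {v : K (n + 1)} (h : v ∈ T.Z n) : v + T.e n ∈ T.Z n := by
  rcases h with h | h
  · right
    rwa [ee]
  · exact Or.inl h

omit [∀ n, Finite (K n)] [∀ n, MeasurableSpace (K n)] [∀ n, DiscreteMeasurableSpace (K n)] in
theorem Z_W {n : ℕ} {v : K (n + 1)} (h : v ∈ T.Z n) : v ∈ T.W n := by
  rcases h with h | h
  · exact T.robB n v h
  · have := T.robE n _ h
    rwa [ee] at this

theorem PE_Z (n : ℕ) : T.PE n (T.Z n)ᶜ = 0 := by
  refine le_antisymm (T.PE_le n _ 0 (T.PB_zero n ?_).le (T.PB_zero n ?_).le) zero_le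
  · exact fun v hv h => hv (Or.inl h)
  · exact fun v hv h => hv (T.Z_e (Or.inl h))

theorem PE_W (n : ℕ) : T.PE n (T.W n)ᶜ = 0 :=
  measure_mono_null (Set.compl_subset_compl.2 fun _ hx => T.Z_W hx) (T.PE_Z n)

omit [∀ n, Finite (K n)] in
theorem PE_single (n : ℕ) (v : K (n + 1)) :
    T.PE n {v} = 2 * 3⁻¹ * T.PB n {v} + 3⁻¹ * T.PB n {v + T.e n} := by
  rw [PE_apply]
  congr 3
  ext w
  simp only [Set.mem_singleton_iff, Set.mem_ofPred_eq]
  constructor
  · rintro rfl
    rw [ee]
  · rintro rfl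
    rw [ee]

theorem PE_T (n : ℕ) (h : K (n + 1)) :
    T.PE n {v | T.PE n {v + h} ≠ T.PE n {v}} ≤ ENNReal.ofReal ‖h‖ := by
  have z : ∀ v ∈ T.B n, T.PB n {v + T.e n} = 0 := fun v hv =>
    T.PB_zero n (by rintro _ rfl; exact T.disj n v hv)
  refine T.PE_le n _ _ (le_trans (measure_mono ?_) (T.PB_tv n h))
    (le_trans (measure_mono ?_) (T.PB_tv n h))
  · refine fun v hv h1 h2 => hv ?_
    rw [PE_single, PE_single, z _ h1, z _ h2, T.PB_eq n h2 h1]
  · refine fun v hv h1 h2 => hv ?_
    rw [PE_single, PE_single, add_right_comm v (T.e n) h, ee, ee, z _ h1, z _ h2,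
      T.PB_eq n h2 h1]

theorem PE_atom (n : ℕ) (v : K (n + 1)) : T.PE n {v} ≤ ENNReal.ofReal (2 / 3) := by
  rw [PE_single]
  calc _ ≤ 2 * 3⁻¹ * ENNReal.ofReal (2 / 3) + 3⁻¹ * ENNReal.ofReal (2 / 3) := by
        gcongr <;> exact T.PB_atom n _
    _ = _ := by rw [← add_mul, thirds, one_mul]

omit [∀ n, Finite (K n)] in
theorem PE_flip (n : ℕ) (s : Set (K (n + 1))) :
    T.PE n {v | v + T.e n ∈ s} = 2 * 3⁻¹ * T.PB n {v | v + T.e n ∈ s} + 3⁻¹ * T.PB n s := by
  rw [PE_apply]
  simp only [Set.mem_ofPred_eq, ee, Set.ofPred_mem_eq]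

/-- flip of one coordinate -/
def flip (n : ℕ) (x : Om K) : Om K := Function.update x n (x n + T.e n)

omit [∀ n, Finite (K n)] in
theorem meas_flip (n : ℕ) : Measurable (T.flip n) := by
  have hm : Measurable (fun p : Om K × K (n + 1) => Function.update p.1 n p.2) :=
    measurable_update'
  have h1 : Measurable (fun x : Om K => x n + T.e n) :=
    (Measurable.of_discrete (f := fun v : K (n + 1) => v + T.e n)).comp (measurable_pi_apply n)
  exact hm.comp (measurable_id.prodMk h1)

omit [∀ n, Finite (K n)] [∀ n, MeasurableSpace (K n)] [∀ n, DiscreteMeasurableSpace (K n)] in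
theorem flip_upd (n : ℕ) (x : Om K) (v : K (n + 1)) :
    T.flip n (Function.update x n v) = Function.update x n (v + T.e n) := by
  unfold flip
  rw [Function.update_self, Function.update_idem]

omit [∀ n, Finite (K n)] [∀ n, MeasurableSpace (K n)] [∀ n, DiscreteMeasurableSpace (K n)] in
theorem flip_flip (n : ℕ) (x : Om K) : T.flip n (T.flip n x) = x := by
  change T.flip n (Function.update x n _) = x
  rw [flip_upd, ee, Function.update_eq_self]

theorem flip1 (n : ℕ) (F : Set (Om K)) (hF : MeasurableSet F) :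
    Measure.infinitePi T.PE (T.flip n ⁻¹' F) ≤ 2 * Measure.infinitePi T.PE F := by
  rw [upd_apply T.PE n F hF, upd_apply T.PE n _ (T.meas_flip n hF),
    ← lintegral_const_mul' _ _ (by norm_num)]
  refine lintegral_mono fun x => ?_
  simp only [Set.mem_preimage, flip_upd]
  have h1 := T.PE_flip n {v | Function.update x n v ∈ F}
  simp only [Set.mem_ofPred_eq] at h1
  rw [h1, PE_apply]
  simp only [Set.mem_ofPred_eq]
  rw [mul_add, add_comm, ← mul_assoc, ← mul_assoc, ← mul_assoc]
  gcongr
  calc (3⁻¹ : ℝ≥0∞) = 1 * 3⁻¹ := (one_mul _).symm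
    _ ≤ 2 * 2 * 3⁻¹ := by gcongr; norm_num

theorem flip2 (n : ℕ) (F : Set (Om K)) (hF : MeasurableSet F) (hB : ∀ x ∈ F, x n ∈ T.B n) :
    2 * Measure.infinitePi T.PE (T.flip n ⁻¹' F) ≤ Measure.infinitePi T.PE F := by
  rw [upd_apply T.PE n F hF, upd_apply T.PE n _ (T.meas_flip n hF),
    ← lintegral_const_mul' _ _ (by norm_num)]
  refine lintegral_mono fun x => ?_
  simp only [Set.mem_preimage, flip_upd]
  have h1 := T.PE_flip n {v | Function.update x n v ∈ F}
  simp only [Set.mem_ofPred_eq] at h1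
  have h2 : T.PB n {v | Function.update x n (v + T.e n) ∈ F} = 0 := by
    refine T.PB_zero n fun v hv h3 => T.disj n v h3 ?_
    have := hB _ hv
    rwa [Function.update_self] at this
  rw [h1, PE_apply, h2, mul_zero, zero_add, ← mul_assoc]
  exact le_self_add

theorem no_inv (lam : Measure (Om K)) [SigmaFinite lam]
    (hinv : ∀ g : T.G, lam.map (fun x => g +ᵥ x) = lam)
    (hac : Measure.infinitePi T.PE ≪ lam) : False := by
  set μ : Measure (Om K) := Measure.infinitePi T.PE with hμ
  have hprob : IsProbabilityMeasure μ := by rw [hμ]; infer_instance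
  have hdec : μ.HaveLebesgueDecomposition lam := inferInstance
  set p := μ.rnDeriv lam with hp
  have hpm : Measurable p := Measure.measurable_rnDeriv _ _
  set Zs : Set (Om K) := ⋂ j, {x | x j ∈ T.Z j} with hZ
  have hZm : MeasurableSet Zs := MeasurableSet.iInter fun j => meas_coord j (fun v => v ∈ T.Z j)
  set E : ℚ → Set (Om K) := fun r =>
    {x | 0 < r ∧ ENNReal.ofReal r ≤ p x ∧ p x ≤ ENNReal.ofReal (3 / 2 * r)} ∩ Zs with hE
  have hEm : ∀ r, MeasurableSet (E r) := fun r =>
    ((MeasurableSet.const _).inter ((measurableSet_le measurable_const hpm).inter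
      (measurableSet_le hpm measurable_const))).inter hZm
  obtain ⟨r, hr⟩ : ∃ r, μ (E r) ≠ 0 := by
    by_contra hc
    push Not at hc
    have h1 : ∀ᵐ x ∂μ, ∀ r, x ∉ E r :=
      ae_all_iff.2 fun r => measure_eq_zero_iff_ae_notMem.1 (hc r)
    have h2 : ∀ᵐ x ∂μ, False := by
      filter_upwards [h1, Measure.rnDeriv_pos hac, hac.ae_le (Measure.rnDeriv_lt_top μ lam),
        ae_coord T.PE T.Z T.PE_Z] with x h1 h2 h3 h4
      have h5 : 0 < (p x).toReal := ENNReal.toReal_pos h2.ne' h3.ne
      obtain ⟨r, h6, h7⟩ := exists_rat_btwn (show 2 / 3 * (p x).toReal < (p x).toReal by linarith)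
      refine h1 r ⟨⟨?_, ?_, ?_⟩, Set.mem_iInter.2 h4⟩
      · have : (0:ℝ) < r := by linarith
        exact_mod_cast this
      · exact ENNReal.ofReal_le_of_le_toReal h7.le
      · rw [← ENNReal.ofReal_toReal (show p x ≠ ⊤ from h3.ne)]
        exact ENNReal.ofReal_le_ofReal (by linarith)
    simp at h2
    exact IsProbabilityMeasure.ne_zero μ h2
  obtain ⟨x0, hx0⟩ := nonempty_of_measure_ne_zero hr
  have hr0 : (0:ℝ) < r := by exact_mod_cast hx0.1.1
  have hlo : ∀ F, MeasurableSet F → F ⊆ E r → ENNReal.ofReal r * lam F ≤ μ F := by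
    intro F hF hFE
    rw [← Measure.setLIntegral_rnDeriv' hac hF, ← setLIntegral_const]
    exact setLIntegral_mono' hF fun x hx => (hFE hx).1.2.1
  have hhi : ∀ F, MeasurableSet F → F ⊆ E r → μ F ≤ ENNReal.ofReal (3 / 2 * r) * lam F := by
    intro F hF hFE
    rw [← Measure.setLIntegral_rnDeriv' hac hF, ← setLIntegral_const]
    exact setLIntegral_mono' hF fun x hx => (hFE hx).1.2.2
  have hG : ∀ n, μ (E r ∩ T.flip n ⁻¹' E r) = 0 := by
    intro n
    set F := (E r ∩ T.flip n ⁻¹' E r) ∩ {x | x n ∈ T.B n} with hF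
    have hFm : MeasurableSet F :=
      ((hEm r).inter (T.meas_flip n (hEm r))).inter (meas_coord n (fun v => v ∈ T.B n))
    have h1 : lam F ≤ lam (T.flip n ⁻¹' F) := by
      conv_lhs => rw [← hinv (T.κ n (T.e n))]
      rw [Measure.map_apply (T.meas_vadd_const _) hFm]
      refine measure_mono fun x hx => ?_
      have h2 : ∀ j, (T.κ n (T.e n) +ᵥ x) j ∈ T.Z j := Set.mem_iInter.1 hx.1.1.2
      have h3 := T.vadd_single _ n (T.e n) (fun j => T.Z_W (h2 j)) (T.Z_W (T.Z_e (h2 n)))
      rw [← add_vadd, ← map_add, T.two, map_zero, zero_vadd] at h3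
      change x = T.flip n _ at h3
      rw [Set.mem_preimage, h3, flip_flip]
      exact hx
    have h2 := hlo (T.flip n ⁻¹' F) (T.meas_flip n hFm) (fun x hx => by
      have := hx.1.2
      rwa [Set.mem_preimage, flip_flip] at this)
    have h3 := T.flip2 n F hFm fun x hx => hx.2
    have h4 := hhi F hFm fun x hx => hx.1.1
    have h5 := hlo F hFm fun x hx => hx.1.1
    have h6 : lam F ≠ ⊤ := by
      intro h
      rw [h, ENNReal.mul_top (by simpa using hr0)] at h5
      exact measure_ne_top μ F (top_unique h5)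
    have h7 : lam F = 0 := by
      by_contra h
      have h8 : ENNReal.ofReal (2 * r) * lam F ≤ ENNReal.ofReal (3 / 2 * r) * lam F := by
        calc ENNReal.ofReal (2 * r) * lam F = 2 * (ENNReal.ofReal r * lam F) := by
              rw [ENNReal.ofReal_mul (by norm_num), ENNReal.ofReal_ofNat, mul_assoc]
          _ ≤ 2 * (ENNReal.ofReal r * lam (T.flip n ⁻¹' F)) := by gcongr
          _ ≤ 2 * μ (T.flip n ⁻¹' F) := by gcongr
          _ ≤ _ := h3.trans h4
      rw [ENNReal.mul_le_mul_iff_left h h6, ENNReal.ofReal_le_ofReal_iff (by positivity)] at h8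
      linarith
    have h8 : μ F = 0 := hac h7
    have h9 : μ (T.flip n ⁻¹' F) = 0 := by
      have := T.flip1 n F hFm
      rw [← hμ, h8, mul_zero] at this
      exact le_antisymm this zero_le
    refine measure_mono_null (fun x hx => ?_) (measure_union_null h8 h9)
    rcases Set.mem_iInter.1 hx.1.2 n with h | h
    · exact Or.inl ⟨hx, h⟩
    · refine Or.inr ⟨⟨hx.2, ?_⟩, ?_⟩
      · rw [Set.mem_preimage, flip_flip]
        exact hx.1
      · change Function.update x n _ n ∈ T.B n
        rwa [Function.update_self]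
  obtain ⟨t, ht, hd⟩ := exists_measure_symmDiff_lt_of_generateFrom_isSetRing (μ := μ)
    isSetRing_measurableCylinders
    ⟨{Set.univ}, Set.countable_singleton _, by
      rintro _ rfl
      exact univ_mem_measurableCylinders _, by simp⟩
    generateFrom_measurableCylinders.symm (hEm r)
    (ENNReal.div_pos hr (show (3:ℝ≥0∞) ≠ ⊤ by norm_num))
  have htm : MeasurableSet t := MeasurableSet.of_mem_measurableCylinders ht
  obtain ⟨s, S, _, rfl⟩ := (mem_measurableCylinders t).1 ht
  obtain ⟨n, hn⟩ := Infinite.exists_notMem_finset s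
  have hfl : ∀ x, x ∈ cylinder s S → T.flip n x ∈ cylinder s S := by
    intro x hx
    rw [mem_cylinder] at hx ⊢
    have : s.restrict (T.flip n x) = s.restrict x := by
      funext i
      exact Function.update_of_ne (fun h : (i : ℕ) = n => hn (h ▸ i.2)) _ _
    rwa [this]
  have h1 : μ (E r) ≤ 3 * μ (cylinder s S ∆ E r) := by
    calc μ (E r) ≤ μ (((E r ∩ T.flip n ⁻¹' E r) ∪ (cylinder s S ∆ E r)) ∪
          T.flip n ⁻¹' (cylinder s S ∆ E r)) := by
          refine measure_mono fun x hx => ?_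
          by_cases h1 : x ∈ cylinder s S
          · by_cases h2 : T.flip n x ∈ E r
            · exact Or.inl (Or.inl ⟨hx, h2⟩)
            · exact Or.inr (Or.inl ⟨hfl x h1, h2⟩)
          · exact Or.inl (Or.inr (Or.inr ⟨hx, h1⟩))
      _ ≤ (μ (E r ∩ T.flip n ⁻¹' E r) + μ (cylinder s S ∆ E r)) +
          2 * μ (cylinder s S ∆ E r) :=
          (measure_union_le _ _).trans (add_le_add (measure_union_le _ _)
            (T.flip1 n _ (htm.symmDiff (hEm r))))
      _ = _ := by
          rw [hG, zero_add, show (3:ℝ≥0∞) = 1 + 2 by norm_num, add_mul, one_mul]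
  exact absurd (ENNReal.mul_lt_of_lt_div' hd) (not_lt.2 h1)

theorem exists_quasi : ∃ m : Measure (Om K), IsFiniteMeasure m ∧ ∀ S, MeasurableSet S →
    (m S = 0 ↔ ∀ g : T.G, Measure.infinitePi T.PE ((fun x => g +ᵥ x) ⁻¹' S) = 0) := by
  have := T.C_countable.to_subtype
  refine ⟨(Measure.sum fun k : T.C =>
    (Measure.infinitePi T.PE).map (fun x => (k : T.G) +ᵥ x)).toFinite, inferInstance,
    fun S hS => ⟨fun h g => ?_, fun h => toFinite_absolutelyContinuous _ ?_⟩⟩
  · have h1 := absolutelyContinuous_toFinite _ h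
    rw [Measure.sum_apply _ hS, ENNReal.tsum_eq_zero] at h1
    obtain ⟨τ, h2, h3⟩ := T.key T.PE T.PE_W T.PE_T g
    have h4 : ∀ᵐ x ∂(Measure.infinitePi T.PE), ∀ k : T.C, (k : T.G) +ᵥ x ∉ S := by
      refine ae_all_iff.2 fun k => ?_
      have := h1 k
      rw [Measure.map_apply (T.meas_vadd_const _) hS] at this
      exact measure_eq_zero_iff_ae_notMem.1 this
    rw [measure_eq_zero_iff_ae_notMem]
    filter_upwards [h3, (mp_pi _ _ h2).quasiMeasurePreserving.ae h4] with x h5 h6 h7
    obtain ⟨k, hk, hk'⟩ := h5.2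
    exact h6 ⟨k, hk⟩ (hk' ▸ h7)
  · rw [Measure.sum_apply _ hS, ENNReal.tsum_eq_zero]
    intro k
    rw [Measure.map_apply (T.meas_vadd_const _) hS]
    exact h k

end Data

end Pool.Agent.H96.LV
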