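import Mathlib

set_option autoImplicit false
open Filter Topology

namespace Pool.Agent.H96.Lacunary

/-- frequencies -/
noncomputable def lam (M : ℕ → ℝ) : ℕ → ℝ
  | 0 => 2 * (|M 0| + 1)
  | k + 1 => 2 * (k + 2) * ((k + 1) * lam M k ^ (3 * k + 8) + 1 + |M (k + 1)|)

theorem lam_ge_two (M : ℕ → ℝ) (k : ℕ) : 2 ≤ lam M k := by
  induction k with
  | zero => rw [lam]; linarith [abs_nonneg (M 0)]
  | succ k ih =>
    rw [lam]
    have h1 : (0 : ℝ) ≤ (k + 1) * lam M k ^ (3 * k + 8) := by positivity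
    have h2 : (0 : ℝ) ≤ k := by positivity
    nlinarith [abs_nonneg (M (k + 1))]

theorem lam_double (M : ℕ → ℝ) (k : ℕ) : 2 * lam M k ≤ lam M (k + 1) := by
  rw [lam]
  have h0 := lam_ge_two M k
  have h1 : lam M k ≤ lam M k ^ (3 * k + 8) := le_self_pow₀ (by linarith) (by omega)
  have h2 : (0 : ℝ) ≤ k := by positivity
  have h3 : lam M k ≤ (k + 1) * lam M k ^ (3 * k + 8) + 1 + |M (k + 1)| := by
    nlinarith [abs_nonneg (M (k + 1))]
  nlinarith

theorem lam_ge (M : ℕ → ℝ) (k : ℕ) : 2 ^ (k + 1) ≤ lam M k := by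
  induction k with
  | zero => simpa using lam_ge_two M 0
  | succ k ih => rw [pow_succ]; linarith [lam_double M k]

theorem lam_mono (M : ℕ → ℝ) : Monotone (lam M) :=
  monotone_nat_of_le_succ fun k => by linarith [lam_double M k, lam_ge_two M k]

theorem lam_pos (M : ℕ → ℝ) (k : ℕ) : 0 < lam M k := by linarith [lam_ge_two M k]

/-- building blocks -/
noncomputable def blk (M : ℕ → ℝ) (k : ℕ) (x : ℝ) : ℝ :=
  (lam M k ^ (3 * k + 3))⁻¹ * Real.cos (lam M k * x)

theorem blk_smooth (M : ℕ → ℝ) (k : ℕ) (n : WithTop ℕ∞) : ContDiff ℝ n (blk M k) := by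
  unfold blk; fun_prop

theorem blk_deriv (M : ℕ → ℝ) (k n : ℕ) (x : ℝ) : iteratedDeriv n (blk M k) x =
    (lam M k ^ (3 * k + 3))⁻¹ * (lam M k ^ n * iteratedDeriv n Real.cos (lam M k * x)) := by
  unfold blk
  rw [iteratedDeriv_const_mul_field, iteratedDeriv_comp_const_mul Real.contDiff_cos]

/-- bound for the derivatives of the blocks -/
noncomputable def bd (M : ℕ → ℝ) (n k : ℕ) : ℝ := (lam M k ^ (3 * k + 3))⁻¹ * lam M k ^ n

theorem bd_nonneg (M : ℕ → ℝ) (n k : ℕ) : 0 ≤ bd M n k := by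
  have := lam_pos M k
  unfold bd; positivity

theorem blk_deriv_le (M : ℕ → ℝ) (k n : ℕ) (x : ℝ) : |iteratedDeriv n (blk M k) x| ≤ bd M n k := by
  have := lam_pos M k
  rw [blk_deriv, bd, abs_mul, abs_mul, abs_of_pos (by positivity), abs_of_pos (by positivity)]
  gcongr
  exact mul_le_of_le_one_right (by positivity) (Real.abs_iteratedDeriv_cos_le_one _ _)

theorem bd_le (M : ℕ → ℝ) (n k : ℕ) (h : n ≤ 3 * k + 2) : bd M n k ≤ (1 / 2) ^ (k + 1) := by
  have h0 := lam_pos M k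
  have h2 := lam_ge_two M k
  have h1 : lam M k ^ n ≤ lam M k ^ (3 * k + 2) := pow_le_pow_right₀ (by linarith) h
  calc bd M n k ≤ (lam M k ^ (3 * k + 3))⁻¹ * lam M k ^ (3 * k + 2) := by unfold bd; gcongr
    _ = (lam M k)⁻¹ := by field_simp; ring
    _ ≤ (2 ^ (k + 1))⁻¹ := inv_anti₀ (by positivity) (lam_ge M k)
    _ = _ := by simp

theorem bd_le' (M : ℕ → ℝ) (n k : ℕ) (h : n ≤ 1) : bd M n k ≤ (1 / 2) ^ (k + 1) / 2 := by
  have h0 := lam_pos M k
  have h2 := lam_ge_two M k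
  have h1 : lam M k ^ n ≤ lam M k ^ (3 * k + 1) := pow_le_pow_right₀ (by linarith) (by omega)
  calc bd M n k ≤ (lam M k ^ (3 * k + 3))⁻¹ * lam M k ^ (3 * k + 1) := by unfold bd; gcongr
    _ = (lam M k)⁻¹ * (lam M k)⁻¹ := by field_simp; ring
    _ ≤ (2 ^ (k + 1))⁻¹ * 2⁻¹ :=
      mul_le_mul (inv_anti₀ (by positivity) (lam_ge M k)) (inv_anti₀ (by positivity) h2)
        (by positivity) (by positivity)
    _ = _ := by simp [div_eq_mul_inv]

theorem geo_hasSum : HasSum (fun k : ℕ => (1 / 2 : ℝ) ^ (k + 1)) 1 := by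
  have := hasSum_geometric_two.mul_left (1 / 2 : ℝ)
  simp only [← pow_succ'] at this
  norm_num at this ⊢
  exact this

theorem bd_summable (M : ℕ → ℝ) (n : ℕ) : Summable (bd M n) := by
  apply Summable.of_norm_bounded_eventually geo_hasSum.summable
  rw [Nat.cofinite_eq_atTop]
  filter_upwards [eventually_ge_atTop n] with k hk
  rw [Real.norm_of_nonneg (bd_nonneg M n k)]
  exact bd_le M n k (by omega)

variable {K : Type*} [RCLike K]

/-- the lacunary series with coefficients a -/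
noncomputable def lac (M : ℕ → ℝ) (a : ℕ → K) (x : ℝ) : K := ∑' k, blk M k x • a k

theorem term_smooth (M : ℕ → ℝ) (a : ℕ → K) (k : ℕ) (n : WithTop ℕ∞) :
    ContDiff ℝ n (fun x => blk M k x • a k) := (blk_smooth M k n).smul contDiff_const

theorem term_deriv (M : ℕ → ℝ) (a : ℕ → K) (k n : ℕ) (x : ℝ) :
    iteratedDeriv n (fun x => blk M k x • a k) x = iteratedDeriv n (blk M k) x • a k :=
  iteratedDeriv_smul_const (blk_smooth M k n).contDiffAt _

theorem term_le (M : ℕ → ℝ) (a : ℕ → K) (A : ℝ) (hA : ∀ k, ‖a k‖ ≤ A) (k n : ℕ) (x : ℝ) :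
    ‖iteratedDeriv n (blk M k) x • a k‖ ≤ bd M n k * A := by
  rw [norm_smul]
  exact mul_le_mul (blk_deriv_le M k n x) (hA k) (norm_nonneg _) (bd_nonneg M n k)

theorem term_summable (M : ℕ → ℝ) (a : ℕ → K) (A : ℝ) (hA : ∀ k, ‖a k‖ ≤ A) (n : ℕ) (x : ℝ) :
    Summable (fun k => iteratedDeriv n (blk M k) x • a k) :=
  Summable.of_norm_bounded ((bd_summable M n).mul_right A) (fun k => term_le M a A hA k n x)

theorem lac_smooth (M : ℕ → ℝ) (a : ℕ → K) (A : ℝ) (hA : ∀ k, ‖a k‖ ≤ A) :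
    ContDiff ℝ (⊤ : ℕ∞) (lac M a) := by
  apply contDiff_tsum (v := fun n k => bd M n k * A) (fun k => term_smooth M a k _)
    (fun n _ => (bd_summable M n).mul_right A)
  intro n k x _
  rw [norm_iteratedFDeriv_eq_norm_iteratedDeriv, term_deriv]
  exact term_le M a A hA k n x

theorem lac_deriv (M : ℕ → ℝ) (a : ℕ → K) (A : ℝ) (hA : ∀ k, ‖a k‖ ≤ A) (n : ℕ) (x : ℝ) :
    iteratedDeriv n (lac M a) x = ∑' k, iteratedDeriv n (blk M k) x • a k := by
  have hb : ∀ (n k : ℕ) (x : ℝ), ‖iteratedFDeriv ℝ n (fun x => blk M k x • a k) x‖ ≤ bd M n k * A := by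
    intro n k x
    rw [norm_iteratedFDeriv_eq_norm_iteratedDeriv, term_deriv]
    exact term_le M a A hA k n x
  have h := iteratedFDeriv_tsum_apply (N := (⊤ : ℕ∞)) (v := fun n k => bd M n k * A)
    (fun k => term_smooth M a k _) (fun n _ => (bd_summable M n).mul_right A)
    (fun n k x _ => hb n k x) (k := n) le_top x
  have hs : Summable (fun k => iteratedFDeriv ℝ n (fun x => blk M k x • a k) x) :=
    Summable.of_norm_bounded ((bd_summable M n).mul_right A) (fun k => hb n k x)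
  rw [iteratedDeriv_eq_iteratedFDeriv]
  unfold lac
  rw [h, ContinuousMultilinearMap.tsum_eval hs]
  congr 1
  funext k
  rw [← iteratedDeriv_eq_iteratedFDeriv, term_deriv]

theorem lac_small (M : ℕ → ℝ) (a : ℕ → K) (A : ℝ) (hA : ∀ k, ‖a k‖ ≤ A) (n : ℕ) (hn : n ≤ 1)
    (x : ℝ) : ‖iteratedDeriv n (lac M a) x‖ ≤ A / 2 := by
  have hA0 : 0 ≤ A := le_trans (norm_nonneg _) (hA 0)
  rw [lac_deriv M a A hA]
  have h := (geo_hasSum.div_const 2).mul_right A
  refine le_trans (tsum_of_norm_bounded h fun k => ?_) (by linarith)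
  exact le_trans (term_le M a A hA k n x) (mul_le_mul_of_nonneg_right (bd_le' M n k hn) hA0)

theorem cos_big (m : ℕ) (y : ℝ) : 1 / 2 ≤ |iteratedDeriv m Real.cos y| ∨
    1 / 2 ≤ |iteratedDeriv (m + 1) Real.cos y| := by
  have h : ∀ m : ℕ, (iteratedDeriv m Real.cos y) ^ 2 + (iteratedDeriv (m + 1) Real.cos y) ^ 2 = 1 := by
    intro m
    have hq : ∀ j : ℕ, ((-1 : ℝ) ^ j) ^ 2 = 1 := by
      intro j; rw [← pow_mul, mul_comm, pow_mul]; simp
    rcases Nat.even_or_odd' m with ⟨j, rfl | rfl⟩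
    · rw [Real.iteratedDeriv_even_cos, Real.iteratedDeriv_odd_cos]
      simp [mul_pow, hq]
    · rw [show 2 * j + 1 + 1 = 2 * (j + 1) by ring, Real.iteratedDeriv_even_cos,
        Real.iteratedDeriv_odd_cos]
      simp [mul_pow, hq]
  by_contra hc
  push Not at hc
  have h1 := h m
  rw [← sq_abs, ← sq_abs (iteratedDeriv (m + 1) Real.cos y)] at h1
  nlinarith [abs_nonneg (iteratedDeriv m Real.cos y), abs_nonneg (iteratedDeriv (m + 1) Real.cos y)]

/-- the basic lower bound -/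
theorem lac_big (M : ℕ → ℝ) (a : ℕ → K) (A : ℝ) (hA : ∀ k, ‖a k‖ ≤ A) (k : ℕ) (x : ℝ) :
    ∃ n : ℕ, k ≤ n ∧ n ≤ 3 * k + 8 ∧ ∃ S : ℝ, |M (k + 1)| ≤ S ∧
      (‖a (k + 1)‖ * (k + 2) - A) * S ≤ ‖iteratedDeriv n (lac M a) x‖ := by
  have hA0 : 0 ≤ A := le_trans (norm_nonneg _) (hA 0)
  obtain ⟨n, hn1, hn2, hn3⟩ : ∃ n, 3 * k + 7 ≤ n ∧ n ≤ 3 * k + 8 ∧
      1 / 2 ≤ |iteratedDeriv n Real.cos (lam M (k + 1) * x)| := by
    rcases cos_big (3 * k + 7) (lam M (k + 1) * x) with h | h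
    · exact ⟨_, le_rfl, by omega, h⟩
    · exact ⟨_, by omega, le_rfl, h⟩
  set S := (k + 1) * lam M k ^ (3 * k + 8) + 1 + |M (k + 1)| with hS
  have hl := lam_pos M k
  have hl1 := lam_ge_two M (k + 1)
  have hS1 : (0 : ℝ) ≤ (k + 1) * lam M k ^ (3 * k + 8) := by positivity
  refine ⟨n, by omega, hn2, S, by linarith, ?_⟩
  have hsum := term_summable M a A hA n x
  rw [lac_deriv M a A hA, ← hsum.sum_add_tsum_nat_add (k + 2), Finset.sum_range_succ]
  have hmain : ‖a (k + 1)‖ * (k + 2) * S ≤ ‖iteratedDeriv n (blk M (k + 1)) x • a (k + 1)‖ := by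
    rw [norm_smul, Real.norm_eq_abs, blk_deriv, abs_mul, abs_mul, abs_of_pos (by positivity),
      abs_of_pos (by positivity), mul_assoc, mul_comm]
    apply mul_le_mul_of_nonneg_right _ (norm_nonneg _)
    have h1 : lam M (k + 1) ^ (3 * k + 7) ≤ lam M (k + 1) ^ n := pow_le_pow_right₀ (by linarith) hn1
    calc ((k : ℝ) + 2) * S = (lam M (k + 1) ^ (3 * (k + 1) + 3))⁻¹ *
          (lam M (k + 1) ^ (3 * k + 7) * (1 / 2)) := by
          have : lam M (k + 1) = 2 * (k + 2) * S := by rw [lam]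
          field_simp
          rw [show 3 * k + 7 = 3 * (k + 1 + 1) + 1 by ring, pow_succ _ (3 * (k + 1 + 1)), this]
          ring
      _ ≤ _ := by gcongr
  have hlow : ‖∑ j ∈ Finset.range (k + 1), iteratedDeriv n (blk M j) x • a j‖ ≤
      (k + 1) * lam M k ^ (3 * k + 8) * A := by
    refine le_trans (norm_sum_le _ _) ?_
    have : ∀ j ∈ Finset.range (k + 1), ‖iteratedDeriv n (blk M j) x • a j‖ ≤ lam M k ^ (3 * k + 8) * A := by
      intro j hj
      refine le_trans (term_le M a A hA j n x) (mul_le_mul_of_nonneg_right ?_ hA0)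
      have hj2 := lam_ge_two M j
      have hjk : lam M j ≤ lam M k := lam_mono M (by simpa [Nat.lt_succ_iff] using hj)
      calc bd M n j ≤ 1 * lam M j ^ n := by
            unfold bd
            gcongr
            exact inv_le_one_of_one_le₀ (one_le_pow₀ (by linarith))
        _ ≤ lam M k ^ n := by rw [one_mul]; gcongr
        _ ≤ _ := pow_le_pow_right₀ (by linarith) hn2
    refine le_trans (Finset.sum_le_sum this) ?_
    simp [mul_assoc]
  have hhigh : ‖∑' j, iteratedDeriv n (blk M (j + (k + 2))) x • a (j + (k + 2))‖ ≤ 1 * A := by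
    refine tsum_of_norm_bounded (geo_hasSum.mul_right A) fun j => ?_
    refine le_trans (term_le M a A hA _ n x) (mul_le_mul_of_nonneg_right ?_ hA0)
    refine le_trans (bd_le M n _ (by omega)) ?_
    exact pow_le_pow_of_le_one (by norm_num) (by norm_num) (by omega)
  have h1 := norm_sub_le_of_le (le_refl ‖∑ j ∈ Finset.range (k + 1), iteratedDeriv n (blk M j) x • a j +
      iteratedDeriv n (blk M (k + 1)) x • a (k + 1) +
      ∑' j, iteratedDeriv n (blk M (j + (k + 2))) x • a (j + (k + 2))‖)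
      (norm_add_le_of_le hlow hhigh)
  have h2 : ∑ j ∈ Finset.range (k + 1), iteratedDeriv n (blk M j) x • a j +
      iteratedDeriv n (blk M (k + 1)) x • a (k + 1) +
      ∑' j, iteratedDeriv n (blk M (j + (k + 2))) x • a (j + (k + 2)) -
      (∑ j ∈ Finset.range (k + 1), iteratedDeriv n (blk M j) x • a j +
        ∑' j, iteratedDeriv n (blk M (j + (k + 2))) x • a (j + (k + 2))) =
      iteratedDeriv n (blk M (k + 1)) x • a (k + 1) := by abel
  rw [h2] at h1
  have h3 : 0 ≤ |M (k + 1)| * A := by positivity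
  nlinarith

theorem lac_add (M : ℕ → ℝ) (a b : ℕ → K) (A B : ℝ) (hA : ∀ k, ‖a k‖ ≤ A) (hB : ∀ k, ‖b k‖ ≤ B)
    (x : ℝ) : lac M (a + b) x = lac M a x + lac M b x := by
  have h1 := term_summable M a A hA 0 x
  have h2 := term_summable M b B hB 0 x
  simp only [iteratedDeriv_zero] at h1 h2
  unfold lac
  rw [← h1.tsum_add h2]
  simp [smul_add]

theorem lac_smul (M : ℕ → ℝ) (a : ℕ → K) (c : K) (x : ℝ) : lac M (c • a) x = c * lac M a x := by
  unfold lac
  rw [← tsum_mul_left]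
  simp

/-- a power series whose coefficients are frequently at least n to the n has radius zero -/
theorem rad_zero (a : ℕ → K) (h : ∀ k : ℕ, ∃ n : ℕ, k ≤ n ∧ (n : ℝ) ^ n ≤ ‖a n‖) :
    (FormalMultilinearSeries.ofScalars K a).radius = 0 := by
  by_contra h0
  obtain ⟨C, r, hC, hr, hb⟩ :=
    (FormalMultilinearSeries.ofScalars K a).le_mul_pow_of_radius_pos (pos_iff_ne_zero.mpr h0)
  obtain ⟨k, hk⟩ := exists_nat_gt (max (2 * r) C)
  obtain ⟨n, hn, hn2⟩ := h k
  have h1 := hb n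
  rw [FormalMultilinearSeries.ofScalars_norm] at h1
  have hkn : (k : ℝ) ≤ n := by exact_mod_cast hn
  have h2 : (2 * r) ^ n ≤ (n : ℝ) ^ n :=
    pow_le_pow_left₀ (by positivity) (by linarith [le_max_left (2 * r) C]) n
  have h3 : (n : ℝ) < 2 ^ n := by exact_mod_cast Nat.lt_two_pow_self
  have h4 : C < 2 ^ n := by linarith [le_max_right (2 * r) C]
  rw [mul_pow] at h2
  have h5 : 0 < r ^ n := by positivity
  nlinarith

end Pool.Agent.H96.Lacunary
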