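import Mathlib

set_option autoImplicit false
open Filter Topology

namespace Pool.Agent.H96.Lib

theorem causal_fix (T : C(ℝ, ℝ) → C(ℝ, ℝ))
    (h0 : ∀ g1 g2 : C(ℝ, ℝ), Set.EqOn (T g1) (T g2) (Set.Iic 0))
    (h : ∀ (a : ℝ) (g1 g2 : C(ℝ, ℝ)), Set.EqOn g1 g2 (Set.Iic a) →
      Set.EqOn (T g1) (T g2) (Set.Iic (a + 1))) : ∃ g, T g = g := by
  have key : ∀ (n : ℕ) (g1 g2 : C(ℝ, ℝ)), Set.EqOn (T^[n + 1] g1) (T^[n + 1] g2) (Set.Iic n) := by
    intro n
    induction n with
    | zero => intro g1 g2; simpa using h0 g1 g2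
    | succ n ih =>
      intro g1 g2
      rw [Function.iterate_succ_apply' T (n + 1), Function.iterate_succ_apply' T (n + 1)]
      push_cast
      exact h _ _ _ (ih g1 g2)
  have key2 : ∀ (n : ℕ) (x : ℝ), x ≤ n → T^[⌈x⌉₊ + 1] 0 x = T^[n + 1] 0 x := by
    intro n x hx
    obtain ⟨d, rfl⟩ := Nat.exists_eq_add_of_le (Nat.ceil_le.mpr hx)
    rw [show ⌈x⌉₊ + d + 1 = ⌈x⌉₊ + 1 + d by ring, Function.iterate_add_apply T (⌈x⌉₊ + 1) d]
    exact key _ _ _ (Nat.le_ceil x)
  have hc : Continuous fun x : ℝ => T^[⌈x⌉₊ + 1] 0 x := by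
    rw [continuous_iff_continuousAt]
    intro x
    refine (T^[⌈x + 1⌉₊ + 1] 0).continuous.continuousAt.congr ?_
    filter_upwards [gt_mem_nhds (lt_add_one x)] with y hy
    exact (key2 _ y (hy.le.trans (Nat.le_ceil _))).symm
  refine ⟨⟨_, hc⟩, ContinuousMap.ext fun x => ?_⟩
  have h1 := h ⌈x⌉₊ ⟨_, hc⟩ (T^[⌈x⌉₊ + 1] 0) (fun y hy => key2 _ y hy)
    (show x ≤ ⌈x⌉₊ + 1 by linarith [Nat.le_ceil x])
  rw [h1, ← Function.iterate_succ_apply' T]
  exact (key2 (⌈x⌉₊ + 1) x (by push_cast; linarith [Nat.le_ceil x])).symm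

theorem round_of_lt (y : ℝ) (N : ℤ) (h : |y - N| < 1 / 2) : round y = N := by
  rw [abs_lt] at h
  rw [round_eq_iff]
  constructor <;> linarith [h.1, h.2]

theorem glue (A : ℤ → ℝ → ℝ) (hA : ∀ N, Continuous (A N)) (h0 : ∀ N t, 7 / 16 ≤ |t| → A N t = 0) :
    Continuous fun y : ℝ => A (round y) (y - round y) := by
  rw [continuous_iff_continuousAt]
  intro x
  rcases (abs_sub_round x).lt_or_eq with h | h
  · have h1 : ContinuousAt (fun y : ℝ => |y - round x|) x := by fun_prop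
    refine (((hA (round x)).comp (continuous_sub_right (round x : ℝ))).continuousAt).congr ?_
    filter_upwards [h1.eventually (gt_mem_nhds h)] with y hy
    simp only [Function.comp, round_of_lt y _ hy]
  · refine (continuousAt_const (y := (0 : ℝ))).congr ?_
    filter_upwards [Metric.ball_mem_nhds x (show (0 : ℝ) < 1 / 16 by norm_num)] with y hy
    refine (h0 _ _ ?_).symm
    have h1 := round_le x (round y)
    have h2 := abs_sub_le x y (round y)
    rw [Metric.mem_ball, dist_comm, Real.dist_eq] at hy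
    linarith

/-- plateau -/
noncomputable def be (t : ℝ) : ℝ := max 0 (min 1 (7 - 16 * |t|))

theorem be_cont : Continuous be := by unfold be; fun_prop

theorem be_zero (t : ℝ) (h : 7 / 16 ≤ |t|) : be t = 0 :=
  max_eq_left ((min_le_right _ _).trans (by linarith))

theorem be_one (t : ℝ) (h : |t| ≤ 3 / 8) : be t = 1 := by
  rw [be, min_eq_left (by linarith), max_eq_right zero_le_one]

/-- continuous rounding -/
noncomputable def rd (y : ℝ) : ℝ := y - be (y - round y) * (y - round y)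

theorem rd_cont : Continuous rd :=
  continuous_id.sub (glue (fun _ t => be t * t) (fun _ => be_cont.mul continuous_id)
    fun _ t h => by rw [be_zero t h, zero_mul])

theorem rd_eq (y : ℝ) (N : ℤ) (h : |y - N| ≤ 3 / 8) : rd y = N := by
  rw [rd, round_of_lt y N (by linarith), be_one _ h]; ring

/-- cut-off -/
noncomputable def ch (p y : ℝ) : ℝ := max 0 (3 / 8 - |(y - p) / 2 - round ((y - p) / 2)|)

theorem ch_cont (p : ℝ) : Continuous (ch p) :=
  (glue (fun _ t => max 0 (3 / 8 - |t|)) (fun _ => by fun_prop)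
    fun _ t h => max_eq_left (by linarith)).comp (show Continuous fun y : ℝ => (y - p) / 2 by fun_prop)

theorem ch_pos (y : ℝ) : 0 < ch 0 y + ch 1 y := by
  have h1 := abs_sub_round y
  have h2 : ∀ p, 0 ≤ ch p y := fun p => le_max_left _ _
  have h3 : ∀ (p : ℝ) (j : ℤ), (round y : ℝ) = 2 * j + p → 0 < ch p y := by
    intro p j hj
    have h4 := round_le ((y - p) / 2) j
    rw [show (y - p) / 2 - j = (y - round y) / 2 by rw [hj]; ring, abs_div, abs_two] at h4
    exact lt_max_of_lt_right (by linarith)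
  rcases Int.even_or_odd' (round y) with ⟨j, hj | hj⟩
  · linarith [h3 0 j (by rw [hj]; push_cast; ring), h2 1]
  · linarith [h3 1 j (by rw [hj]; push_cast; ring), h2 0]

/-- doubling of slots -/
noncomputable def db (y : ℝ) : ℝ := y + rd y

/-- chart maps -/
noncomputable def hp (p y : ℝ) : ℝ :=
  (4 * (2 * rd ((y - p) / 2) + p) ^ 2 + 2 * (2 * rd ((y - p) / 2) + p) + 7) +
    (y - (2 * rd ((y - p) / 2) + p)) / 2

theorem hp_cont (p : ℝ) : Continuous (hp p) := by
  have := rd_cont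
  unfold hp; fun_prop

/-- slot numbers -/
def slot (c : ℕ × ℤ) : ℤ := 2 ^ c.1 * (4 * c.2 ^ 2 + 2 * c.2 + 7)

theorem slot_inj : Function.Injective slot := by
  have key : ∀ (e f : ℕ) (p q : ℤ), 2 ^ e * (2 * p + 1) = 2 ^ f * (2 * q + 1) → e = f ∧ p = q := by
    intro e
    induction e with
    | zero =>
      rintro (_ | f) p q h
      · simp at h; omega
      · rw [pow_succ', mul_assoc] at h; omega
    | succ e ih =>
      rintro (_ | f) p q h
      · rw [pow_succ', mul_assoc] at h; omega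
      · rw [pow_succ', pow_succ', mul_assoc, mul_assoc] at h
        have := ih f p q (by omega)
        omega
  rintro ⟨k, i⟩ ⟨l, j⟩ h
  obtain ⟨h1, h2⟩ := key k l (2 * i ^ 2 + i + 3) (2 * j ^ 2 + j + 3) (by
    simp only [slot] at h; linear_combination h)
  have h3 : (i - j) * (2 * (i + j) + 1) = 0 := by linear_combination h2
  rcases mul_eq_zero.mp h3 with h4 | h4
  · ext <;> simp only <;> omega
  · omega

theorem slot_ge (c : ℕ × ℤ) : c.2 + 3 ≤ slot c ∧ (c.1 : ℤ) + 1 ≤ slot c := by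
  have h1 : (c.1 : ℤ) + 1 ≤ 2 ^ c.1 := by exact_mod_cast Nat.lt_two_pow_self
  have h2 : c.2 + 3 ≤ 4 * c.2 ^ 2 + 2 * c.2 + 7 := by nlinarith
  have h3 : 1 ≤ 4 * c.2 ^ 2 + 2 * c.2 + 7 := by nlinarith
  unfold slot
  constructor <;> nlinarith

theorem db_iter (k : ℕ) (N : ℤ) (t : ℝ) (h : |t| ≤ 3 / 8) : db^[k] (N + t) = (2 ^ k * N : ℤ) + t := by
  induction k with
  | zero => simp
  | succ k ih =>
    rw [Function.iterate_succ_apply', ih, db, rd_eq _ (2 ^ k * N) (by simpa using h)]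
    push_cast; ring

theorem library (W : C(ℝ, ℝ) → ℕ → C(ℝ, ℝ))
    (hW : ∀ (a : ℝ) (g1 g2 : C(ℝ, ℝ)) (k : ℕ), Set.EqOn g1 g2 (Set.Iic a) → (k : ℝ) - 2 ≤ a →
      Set.EqOn (W g1 k) (W g2 k) (Set.Iic a)) :
    ∃ g : C(ℝ, ℝ), ∀ (k : ℕ) (p : ℤ) (x : ℝ), ch p x * g (db^[k] (hp p x)) = ch p x * W g k x := by
  classical
  set A : C(ℝ, ℝ) → ℤ → ℝ → ℝ := fun g N t =>
    if h : ∃ c, slot c = N then be t * W g h.choose.1 (h.choose.2 + 2 * t) else 0 with hA
  have hA0 : ∀ g N t, 7 / 16 ≤ |t| → A g N t = 0 := by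
    intro g N t h
    simp only [hA, be_zero t h, zero_mul, dite_eq_ite, ite_self]
  have hc : ∀ g, Continuous fun y : ℝ => A g (round y) (y - round y) := fun g =>
    glue (A g) (fun N => by
      have := be_cont
      simp only [hA]
      split_ifs <;> fun_prop) (hA0 g)
  have hcaus : ∀ (a : ℝ) (g1 g2 : C(ℝ, ℝ)) (y : ℝ), y ≤ a + 1 → (a ≤ -1 ∨ Set.EqOn g1 g2 (Set.Iic a)) →
      A g1 (round y) (y - round y) = A g2 (round y) (y - round y) := by
    intro a g1 g2 y hy hg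
    simp only [hA]
    split_ifs with h
    · have h1 := slot_ge h.choose
      rw [h.choose_spec] at h1
      have h2 := round_le_add_half y
      have h3 := abs_le.mp (abs_sub_round y)
      have h4 : (h.choose.2 : ℝ) + 3 ≤ round y := by exact_mod_cast h1.1
      have h5 : (h.choose.1 : ℝ) + 1 ≤ round y := by exact_mod_cast h1.2
      rcases hg with hg | hg
      · exfalso
        linarith [Nat.cast_nonneg (α := ℝ) h.choose.1]
      · rw [hW a g1 g2 _ hg (by linarith) (show _ ≤ a by linarith [h3.1, h3.2])]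
    · rfl
  obtain ⟨g, hg⟩ := causal_fix (fun g => ⟨_, hc g⟩)
    (fun g1 g2 y hy => hcaus (-1) g1 g2 y (by simpa using hy) (Or.inl (by norm_num)))
    (fun a g1 g2 h y hy => hcaus a g1 g2 y hy (Or.inr h))
  refine ⟨g, fun k p x => ?_⟩
  by_cases h0 : ch p x = 0
  · simp [h0]
  congr 1
  set j := round ((x - p) / 2) with hj
  have h1 : |(x - p) / 2 - j| ≤ 3 / 8 := by
    by_contra h
    exact h0 (max_eq_left (by linarith))
  have h2 : hp p x = (4 * (2 * j + p) ^ 2 + 2 * (2 * j + p) + 7 : ℤ) + ((x - p) / 2 - j) := by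
    rw [hp, rd_eq _ j h1]; push_cast; ring
  rw [h2, db_iter _ _ _ h1]
  have h3 := congrArg (fun f : C(ℝ, ℝ) => f ((slot (k, 2 * j + p) : ℤ) + ((x - p) / 2 - j))) hg
  refine h3.symm.trans ?_
  have h4 : ∃ c, slot c = slot (k, 2 * j + p) := ⟨_, rfl⟩
  simp only [ContinuousMap.coe_mk]
  rw [round_of_lt _ (slot (k, 2 * j + p)) (by rw [add_sub_cancel_left]; linarith), add_sub_cancel_left]
  simp only [hA]
  rw [dif_pos h4, slot_inj h4.choose_spec, be_one _ h1, one_mul]
  congr 1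
  push_cast; ring

/-- damped reciprocal -/
noncomputable def ps (a b : ℝ) : ℝ := a ^ 2 * b / max (a ^ 2) (b ^ 2)

theorem ps_cont : Continuous fun z : ℝ × ℝ => ps z.1 z.2 := by
  rw [continuous_iff_continuousAt]
  intro z
  by_cases h : max (z.1 ^ 2) (z.2 ^ 2) = 0
  · have h1 : z.2 = 0 := by
      have := le_max_right (z.1 ^ 2) (z.2 ^ 2)
      rw [h] at this
      exact pow_eq_zero_iff two_ne_zero |>.mp (le_antisymm this (sq_nonneg _))
    have h2 : ps z.1 z.2 = 0 := by simp [ps, h1]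
    rw [ContinuousAt, h2]
    refine squeeze_zero_norm (a := fun w : ℝ × ℝ => |w.2|) (fun w => ?_) ?_
    · rw [ps, norm_div, norm_mul, Real.norm_of_nonneg (sq_nonneg _),
        Real.norm_of_nonneg (le_max_of_le_left (sq_nonneg _))]
      refine div_le_of_le_mul₀ (le_max_of_le_left (sq_nonneg _)) (abs_nonneg _) ?_
      rw [mul_comm]
      exact mul_le_mul_of_nonneg_left (le_max_left _ _) (abs_nonneg _)
    · have : Continuous fun w : ℝ × ℝ => |w.2| := by fun_prop
      simpa [h1] using this.tendsto z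
  · exact ContinuousAt.div (by fun_prop) (by fun_prop) h

/-- least modulus on the segment -/
noncomputable def mn (Q : ℝ → ℝ) (q x : ℝ) : ℝ := sInf ((fun s => |Q (q + s * (x - q))|) '' Set.Icc 0 1)

theorem mn_cont (Q : ℝ → ℝ) (hQ : Continuous Q) (q : ℝ) : Continuous (mn Q q) :=
  isCompact_Icc.continuous_sInf (f := fun x s => |Q (q + s * (x - q))|) (by fun_prop)

theorem seg_mem (q x s : ℝ) (hs : s ∈ Set.Icc (0 : ℝ) 1) : q + s * (x - q) ∈ Set.uIcc q x := by
  rw [← segment_eq_uIcc, segment_eq_image']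
  exact ⟨s, hs, rfl⟩

theorem mn_congr (Q1 Q2 : ℝ → ℝ) (q x : ℝ) (h : Set.EqOn Q1 Q2 (Set.uIcc q x)) :
    mn Q1 q x = mn Q2 q x := by
  unfold mn
  congr 1
  exact Set.image_congr fun s hs => by rw [h (seg_mem q x s hs)]

theorem mn_pos (Q : ℝ → ℝ) (hQ : Continuous Q) (q x : ℝ) (h : ∀ t ∈ Set.uIcc q x, Q t ≠ 0) :
    0 < mn Q q x :=
  (isCompact_Icc.lt_sInf_iff_of_continuous ⟨0, by simp⟩ (by fun_prop) 0).mpr
    fun s hs => abs_pos.mpr (h _ (seg_mem q x s hs))

theorem mn_le (Q : ℝ → ℝ) (q x t : ℝ) (h : t ∈ Set.uIcc q x) : mn Q q x ≤ |Q t| := by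
  rw [← segment_eq_uIcc, segment_eq_image'] at h
  obtain ⟨s, hs, rfl⟩ := h
  exact csInf_le ⟨0, by rintro _ ⟨r, -, rfl⟩; exact abs_nonneg _⟩ ⟨s, hs, rfl⟩

/-- damped primitive -/
noncomputable def pr (P Q : ℝ → ℝ) (q x : ℝ) : ℝ := ∫ t in q..x, P t * ps (mn Q q x) (Q t)

theorem pr_cont (P Q : ℝ → ℝ) (hP : Continuous P) (hQ : Continuous Q) (q : ℝ) :
    Continuous (pr P Q q) :=
  intervalIntegral.continuous_parametric_intervalIntegral_of_continuous
    (f := fun x t => P t * ps (mn Q q x) (Q t))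
    ((hP.comp continuous_snd).mul (ps_cont.comp (((mn_cont Q hQ q).comp continuous_fst).prodMk
      (hQ.comp continuous_snd)))) continuous_id

theorem pr_congr (P1 P2 Q1 Q2 : ℝ → ℝ) (q x : ℝ) (h1 : Set.EqOn P1 P2 (Set.uIcc q x))
    (h : Set.EqOn Q1 Q2 (Set.uIcc q x)) : pr P1 Q1 q x = pr P2 Q2 q x := by
  unfold pr
  rw [mn_congr Q1 Q2 q x h]
  exact intervalIntegral.integral_congr fun t ht => by simp only [h1 ht, h ht]

theorem pr_eq (P Q : ℝ → ℝ) (hQ : Continuous Q) (q x : ℝ) (h : ∀ t ∈ Set.uIcc q x, Q t ≠ 0) :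
    pr P Q q x = mn Q q x ^ 2 * ∫ t in q..x, P t / Q t := by
  rw [pr, ← intervalIntegral.integral_const_mul]
  refine intervalIntegral.integral_congr fun t ht => ?_
  have h1 : mn Q q x ^ 2 ≤ Q t ^ 2 := by
    rw [← sq_abs (Q t)]
    exact pow_le_pow_left₀ (mn_pos Q hQ q x h).le (mn_le Q q x t ht) 2
  have h2 := h t ht
  simp only [ps, max_eq_right h1]
  field_simp

end Pool.Agent.H96.Lib
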