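import Mathlib

set_option autoImplicit false
open scoped Classical
open Relation

namespace Pool.Agent.H96.MR

lemma exists_perm {α : Type} (R : α → α → Prop) (hr : ∀ c, R c c) (hs : ∀ c d, R c d → R d c)
    {e b : α} (h : ReflTransGen R e b) : ∃ ρ : Equiv.Perm α, ρ b = e ∧ ∀ c, c ≠ b → R c (ρ c) := by
  let G : SimpleGraph α := SimpleGraph.fromRel R
  have h1 : G.Reachable e b := by
    induction h with
    | refl => rfl
    | @tail c d _ hcd ih =>
      by_cases hh : c = d
      · exact hh ▸ ih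
      · exact ih.trans (SimpleGraph.Adj.reachable ((SimpleGraph.fromRel_adj _ _ _).2 ⟨hh, Or.inl hcd⟩))
  have key : ∀ {e b : α} (p : G.Walk e b), p.IsPath → ∃ ρ : Equiv.Perm α, ρ b = e ∧
      (∀ c, c ∉ p.support → ρ c = c) ∧ ∀ c, c ≠ b → R c (ρ c) := by
    intro e b p
    induction p with
    | nil => exact fun _ => ⟨1, rfl, fun _ _ => rfl, fun c _ => hr c⟩
    | @cons e e' b hadj p ih =>
      intro hp
      rw [SimpleGraph.Walk.cons_isPath_iff] at hp
      obtain ⟨ρ, h1, h2, h3⟩ := ih hp.1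
      have he : ρ e = e := h2 e hp.2
      refine ⟨Equiv.swap e e' * ρ, by simp [h1], fun c hc => ?_, fun c hc => ?_⟩
      · simp only [SimpleGraph.Walk.support_cons, List.mem_cons, not_or] at hc
        rw [Equiv.Perm.mul_apply, h2 c hc.2, Equiv.swap_apply_of_ne_of_ne hc.1]
        rintro rfl
        exact hc.2 p.start_mem_support
      · by_cases hce : c = e
        · subst hce
          rw [Equiv.Perm.mul_apply, he, Equiv.swap_apply_left]
          rcases ((SimpleGraph.fromRel_adj _ _ _).1 hadj).2 with h | h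
          · exact h
          · exact hs _ _ h
        · rw [Equiv.Perm.mul_apply, Equiv.swap_apply_of_ne_of_ne]
          · exact h3 c hc
          · exact fun h => hce (ρ.injective (h.trans he.symm))
          · exact fun h => hc (ρ.injective (h.trans h1.symm))
  obtain ⟨p, hp⟩ := h1.exists_isPath
  obtain ⟨ρ, a1, -, a3⟩ := key p hp
  exact ⟨ρ, a1, a3⟩

lemma rmono {α : Type} {R S : α → α → Prop} {a b : α} (h : ReflTransGen R a b)
    (hh : ∀ c d, R c d → S c d) : ReflTransGen S a b := by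
  induction h with
  | refl => exact ReflTransGen.refl
  | tail _ h ih => exact ih.tail (hh _ _ h)

/-- blocks of level k -/
def W : ℕ → Type
  | 0 => ZMod 3
  | k + 1 => W k × (Fin (Nat.card (W k)) ≃ W k)

instance finW : ∀ k, Finite (W k)
  | 0 => inferInstanceAs (Finite (ZMod 3))
  | k + 1 => by
    have := finW k
    exact inferInstanceAs (Finite (W k × (Fin (Nat.card (W k)) ≃ W k)))

instance neW : ∀ k, Nonempty (W k)
  | 0 => inferInstanceAs (Nonempty (ZMod 3))
  | k + 1 => ⟨(Classical.choice (neW k), (Finite.equivFin (W k)).symm)⟩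

/-- number of blocks -/
noncomputable def N (k : ℕ) : ℕ := Nat.card (W k)

lemma N_pos (k : ℕ) : 0 < N k := Nat.card_pos

/-- length of blocks -/
noncomputable def L : ℕ → ℕ
  | 0 => 1
  | k + 1 => (N k + 1) * L k

lemma L_pos : ∀ k, 0 < L k
  | 0 => one_pos
  | k + 1 => Nat.mul_pos (Nat.succ_pos _) (L_pos k)

instance (k : ℕ) : NeZero (L k) := ⟨(L_pos k).ne'⟩

lemma two_L (k : ℕ) : 2 * L k ≤ L (k + 1) := Nat.mul_le_mul_right _ (Nat.succ_le_succ (N_pos k))

lemma lt_L : ∀ k, k < L k
  | 0 => one_pos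
  | k + 1 => by have := lt_L k; have := two_L k; omega

lemma div_le {k p : ℕ} (hp : p < L (k + 1)) : p / L k ≤ N k :=
  Nat.lt_succ_iff.1 ((Nat.div_lt_iff_lt_mul (L_pos k)).2 hp)

/-- the i-th sub-block -/
noncomputable def slot {k : ℕ} (w : W (k + 1)) (i : ℕ) : W k :=
  if h : 0 < i ∧ i - 1 < N k then w.2 ⟨i - 1, h.2⟩ else w.1

lemma slot_zero {k : ℕ} (w : W (k + 1)) : slot w 0 = w.1 := by simp [slot]

lemma slot_succ {k : ℕ} (w : W (k + 1)) (i : Fin (Nat.card (W k))) : slot w (i + 1) = w.2 i := by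
  unfold slot
  rw [dif_pos ⟨Nat.succ_pos _, i.2⟩]
  rfl

lemma slot_cases {k i : ℕ} (hi : i ≤ N k) : i = 0 ∨ ∃ j : Fin (Nat.card (W k)), i = j + 1 := by
  rcases Nat.eq_zero_or_pos i with h | h
  · exact Or.inl h
  · exact Or.inr ⟨⟨i - 1, by unfold N at hi; omega⟩, by simp; omega⟩

/-- letters of a block -/
noncomputable def letter : ∀ k, W k → ℕ → ZMod 3
  | 0, w, _ => w
  | k + 1, w, p => letter k (slot w (p / L k)) (p % L k)

lemma letter_slot {k : ℕ} (w : W (k + 1)) (i : ℕ) {q : ℕ} (hq : q < L k) :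
    letter (k + 1) w (i * L k + q) = letter k (slot w i) q := by
  have h1 : (i * L k + q) / L k = i := by
    rw [add_comm, Nat.add_mul_div_right _ _ (L_pos k), Nat.div_eq_of_lt hq, zero_add]
  have h2 : (i * L k + q) % L k = q := by
    rw [add_comm, Nat.add_mul_mod_self_right, Nat.mod_eq_of_lt hq]
  simp only [letter, h1, h2]

lemma slot_lt {k i q : ℕ} (hi : i ≤ N k) (hq : q < L k) : i * L k + q < L (k + 1) := by
  have : i * L k ≤ N k * L k := Nat.mul_le_mul_right _ hi
  simp only [L]; nlinarith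

lemma ext_slot {k : ℕ} {w w' : W (k + 1)} (h : ∀ i, i ≤ N k → slot w i = slot w' i) : w = w' := by
  refine Prod.ext ?_ (Equiv.ext fun i => ?_)
  · simpa [slot_zero] using h 0 (Nat.zero_le _)
  · have := h (i + 1) i.2
    rwa [slot_succ, slot_succ] at this

lemma letter_inj : ∀ k (w w' : W k), (∀ p < L k, letter k w p = letter k w' p) → w = w'
  | 0, _, _, h => h 0 one_pos
  | k + 1, w, w', h => ext_slot fun i hi => letter_inj k _ _ fun q hq => by
      rw [← letter_slot w i hq, ← letter_slot w' i hq]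
      exact h _ (slot_lt hi hq)

/-- compatibility -/
def arrow (a : ZMod 3) (k : ℕ) (c d : W k) : Prop :=
  ∀ p < L k, ¬ (letter k c p = a ∧ letter k d p = a - 1)

lemma ne_sub (a : ZMod 3) : a ≠ a - 1 := by revert a; decide

lemma arrow_refl (a : ZMod 3) (k : ℕ) (c : W k) : arrow a k c c :=
  fun _ _ h => ne_sub a (h.1.symm.trans h.2)

lemma arrow_succ {a : ZMod 3} {k : ℕ} {c d : W (k + 1)}
    (h : ∀ i, i ≤ N k → arrow a k (slot c i) (slot d i)) : arrow a (k + 1) c d :=
  fun _ hp => h _ (div_le hp) _ (Nat.mod_lt _ (L_pos k))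

/-- symmetric compatibility -/
def Ed (a : ZMod 3) (k : ℕ) (c d : W k) : Prop := arrow a k c d ∧ arrow a k d c

lemma Ed_refl (a : ZMod 3) (k : ℕ) (c : W k) : Ed a k c c := ⟨arrow_refl a k c, arrow_refl a k c⟩

lemma Ed_succ {a : ZMod 3} {k : ℕ} {c d : W (k + 1)} (h1 : Ed a k c.1 d.1)
    (h2 : ∀ i, Ed a k (c.2 i) (d.2 i)) : Ed a (k + 1) c d := by
  constructor <;> refine arrow_succ fun i hi => ?_ <;> rcases slot_cases hi with rfl | ⟨j, rfl⟩
  · simpa [slot_zero] using h1.1
  · simpa [slot_succ] using (h2 j).1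
  · simpa [slot_zero] using h1.2
  · simpa [slot_succ] using (h2 j).2

lemma path1 {a : ZMod 3} {k : ℕ} (hk : ∀ c d : W k, ReflTransGen (Ed a k) c d) (u : W k)
    (π π' : Fin (Nat.card (W k)) ≃ W k) :
    ReflTransGen (fun c d : W (k + 1) => Ed a (k + 1) c d ∧ c.1 = d.1) (u, π) (u, π') := by
  let H : Submonoid (Equiv.Perm (W k)) :=
    { carrier := {g | ∀ π : Fin (Nat.card (W k)) ≃ W k, ReflTransGen
        (fun c d : W (k + 1) => Ed a (k + 1) c d ∧ c.1 = d.1) (u, π) (u, π.trans g)}
      mul_mem' := fun {g h} hg hh π => (hh π).trans (hg (π.trans h))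
      one_mem' := fun π => ReflTransGen.refl }
  have h1 : ∀ c d, Ed a k c d → Equiv.swap c d ∈ H := fun c d h π => by
    refine ReflTransGen.single ⟨Ed_succ (Ed_refl _ _ _) fun i => ?_, rfl⟩
    change Ed a k (π i) (Equiv.swap c d (π i))
    rw [Equiv.swap_apply_def]
    split_ifs with h1 h2
    · rw [h1]; exact h
    · rw [h2]; exact h.symm
    · exact Ed_refl _ _ _
  have h2 : ∀ c d, Equiv.swap c d ∈ H := fun c d => by
    induction hk c d with
    | refl => rw [Equiv.swap_self]; exact H.one_mem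
    | tail _ h ih => exact SubmonoidClass.swap_mem_trans H ih (h1 _ _ h)
  have h3 : ∀ g, g ∈ H := fun g => by
    induction g using Equiv.Perm.swap_induction_on with
    | one => exact H.one_mem
    | swap_mul f x y _ ih => exact H.mul_mem (h2 x y) ih
  have := h3 (π.symm.trans π') π
  rwa [show π.trans (π.symm.trans π') = π' from Equiv.ext fun i => by simp] at this

lemma path2 {a : ZMod 3} {k : ℕ} (hk : ∀ c d : W k, ReflTransGen (Ed a k) c d) (u u' : W k)
    (π : Fin (Nat.card (W k)) ≃ W k) :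
    ReflTransGen (fun c d : W (k + 1) => Ed a (k + 1) c d ∧ c.2 = d.2) (u, π) (u', π) := by
  induction hk u u' with
  | refl => exact ReflTransGen.refl
  | tail _ h ih => exact ih.tail ⟨Ed_succ h fun i => Ed_refl _ _ _, rfl⟩

lemma conn (a : ZMod 3) : ∀ k, ∀ c d : W k, ReflTransGen (Ed a k) c d
  | 0, c, d => by
    have h : ∀ c : ZMod 3, Ed a 0 c (a + 1 : ZMod 3) := fun c => by
      constructor <;> intro p _ <;> simp only [letter] <;> revert a c <;> decide
    exact (ReflTransGen.single (h c)).tail (h d).symm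
  | k + 1, c, d =>
    (rmono (path1 (conn a k) c.1 c.2 d.2) fun _ _ h => h.1).trans
      (rmono (path2 (conn a k) c.1 d.1 d.2) fun _ _ h => h.1)

/-- the part that is kept fixed -/
def extra : ∀ k, W k → W k → W k → W k → Prop
  | 0, _, _, _, _ => True
  | _ + 1, b, e, c, d => (b.1 = e.1 → c.1 = d.1) ∧ (b.2 = e.2 → c.2 = d.2)

lemma extra_refl : ∀ k (b e c : W k), extra k b e c c
  | 0, _, _, _ => trivial
  | _ + 1, _, _, _ => ⟨fun _ => rfl, fun _ => rfl⟩

lemma exists_rho (a : ZMod 3) : ∀ k (b e : W k), ∃ ρ : Equiv.Perm (W k), ρ b = e ∧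
    ∀ c, c ≠ b → arrow a k c (ρ c) ∧ extra k b e c (ρ c)
  | 0, b, e => by
    obtain ⟨ρ, h1, h2⟩ := exists_perm _ (Ed_refl a 0) (fun _ _ h => h.symm) (conn a 0 e b)
    exact ⟨ρ, h1, fun c hc => ⟨(h2 c hc).1, trivial⟩⟩
  | k + 1, b, e => by
    have h : ReflTransGen (fun c d => Ed a (k + 1) c d ∧ extra (k + 1) b e c d) e b := by
      refine ReflTransGen.trans (b := (e.1, b.2)) ?_ ?_
      · by_cases h : b.2 = e.2
        · rw [h]; exact ReflTransGen.refl
        · exact rmono (path1 (conn a k) e.1 e.2 b.2) fun _ _ h' =>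
            ⟨h'.1, fun _ => h'.2, fun h0 => absurd h0 h⟩
      · by_cases h : b.1 = e.1
        · rw [← h]; exact ReflTransGen.refl
        · exact rmono (path2 (conn a k) e.1 b.1 b.2) fun _ _ h' =>
            ⟨h'.1, fun h0 => absurd h0 h, fun _ => h'.2⟩
    obtain ⟨ρ, h1, h2⟩ := exists_perm _ (fun c => ⟨Ed_refl a _ c, extra_refl _ _ _ _⟩)
      (fun _ _ h => ⟨h.1.symm, fun h0 => (h.2.1 h0).symm, fun h0 => (h.2.2 h0).symm⟩) h
    exact ⟨ρ, h1, fun c hc => ⟨(h2 c hc).1.1, (h2 c hc).2⟩⟩

/-- the chosen permutation -/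
noncomputable def rho (a : ZMod 3) (k : ℕ) (b e : W k) : Equiv.Perm (W k) :=
  (exists_rho a k b e).choose

lemma rho_b (a : ZMod 3) (k : ℕ) (b e : W k) : rho a k b e b = e :=
  (exists_rho a k b e).choose_spec.1

lemma rho_c (a : ZMod 3) (k : ℕ) (b e : W k) {c : W k} (h : c ≠ b) :
    arrow a k c (rho a k b e c) ∧ extra k b e c (rho a k b e c) :=
  (exists_rho a k b e).choose_spec.2 c h

/-- the block map with origin p -/
noncomputable def G : ∀ k, ℕ → W k → W k
  | 0, _, b => (show ZMod 3 from b) - 1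
  | k + 1, p, b =>
    if p / L k = 0 then (G k (p % L k) b.1, b.2)
    else (b.1, b.2.trans (rho (letter (k + 1) b p) k (slot b (p / L k))
      (G k (p % L k) (slot b (p / L k)))))

lemma G_slot {k p : ℕ} (hp : p < L (k + 1)) (b : W (k + 1)) :
    slot (G (k + 1) p b) (p / L k) = G k (p % L k) (slot b (p / L k)) := by
  rcases slot_cases (div_le hp) with h | ⟨j, h⟩
  · simp only [G, h, if_true, slot_zero]
  · simp only [G, h, slot_succ]
    rw [if_neg (Nat.succ_ne_zero _)]
    exact rho_b _ _ _ _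

lemma G_other {k p i : ℕ} (hp : p < L (k + 1)) (hi : i ≤ N k) (hne : i ≠ p / L k) (b : W (k + 1)) :
    arrow (letter (k + 1) b p) k (slot b i) (slot (G (k + 1) p b) i) ∧
    extra k (slot b (p / L k)) (G k (p % L k) (slot b (p / L k))) (slot b i)
      (slot (G (k + 1) p b) i) := by
  by_cases h : p / L k = 0
  · rcases slot_cases hi with rfl | ⟨j, rfl⟩
    · exact absurd h.symm hne
    · simp only [G, h, if_true, slot_succ]
      exact ⟨arrow_refl _ _ _, extra_refl _ _ _ _⟩
  · rcases slot_cases hi with rfl | ⟨j, rfl⟩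
    · simp only [G, h, if_false, slot_zero]
      exact ⟨arrow_refl _ _ _, extra_refl _ _ _ _⟩
    · simp only [G, h, if_false, slot_succ]
      apply rho_c
      rcases slot_cases (div_le hp) with h' | ⟨j', h'⟩
      · exact absurd h' h
      · rw [h', slot_succ]
        intro h0
        exact hne (by rw [h', b.2.injective h0])

lemma G_origin : ∀ k p, p < L k → ∀ b : W k, letter k (G k p b) p = letter k b p - 1
  | 0, _, _, _ => rfl
  | k + 1, p, hp, b => by
    simp only [letter, G_slot hp]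
    exact G_origin k _ (Nat.mod_lt _ (L_pos k)) _

lemma G_compat : ∀ k p, p < L k → ∀ b : W k, ∀ q, q < L k → q ≠ p →
    ¬ (letter k b q = letter k b p ∧ letter k (G k p b) q = letter k b p - 1)
  | 0, p, hp, _, q, hq, h => by simp only [L] at hp hq; omega
  | k + 1, p, hp, b, q, hq, h => by
    by_cases hd : q / L k = p / L k
    · simp only [letter, hd, G_slot hp]
      refine G_compat k _ (Nat.mod_lt _ (L_pos k)) _ _ (Nat.mod_lt _ (L_pos k)) fun h0 => h ?_
      rw [← Nat.div_add_mod q (L k), ← Nat.div_add_mod p (L k), hd, h0]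
    · exact (G_other hp (div_le hq) hd b).1 _ (Nat.mod_lt _ (L_pos k))

lemma G_inj : ∀ k p, p < L k → Function.Injective (G k p)
  | 0, _, _ => fun _ _ h => sub_left_injective (G := ZMod 3) h
  | k + 1, p, hp => fun b b' h => by
    have h1 : slot b (p / L k) = slot b' (p / L k) := by
      apply G_inj k _ (Nat.mod_lt p (L_pos k))
      rw [← G_slot hp, ← G_slot hp, h]
    have h2 : letter (k + 1) b p = letter (k + 1) b' p := by simp only [letter, h1]
    by_cases h0 : p / L k = 0
    · simp only [G, h0, if_true] at h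
      rw [h0, slot_zero, slot_zero] at h1
      exact Prod.ext h1 (Prod.mk.inj h).2
    · simp only [G, h0, if_false, h1, h2] at h
      refine Prod.ext (Prod.mk.inj h).1 (Equiv.ext fun i => ?_)
      have := congrArg (fun w : W (k + 1) => w.2 i) h
      simpa using this

lemma letter_first {k : ℕ} {c d : W (k + 1)} (h : c.1 = d.1) {q : ℕ} (hq : q < L k) :
    letter (k + 1) c q = letter (k + 1) d q := by
  simp only [letter, Nat.div_eq_of_lt hq, slot_zero, h]

lemma letter_rest {k : ℕ} {c d : W (k + 1)} (h : c.2 = d.2) {q : ℕ} (hq : L k ≤ q)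
    (hq' : q < L (k + 1)) : letter (k + 1) c q = letter (k + 1) d q := by
  rcases slot_cases (div_le hq') with h0 | ⟨j, h0⟩
  · exact absurd h0 (Nat.div_pos hq (L_pos k)).ne'
  · simp only [letter, h0, slot_succ, h]

lemma G_near {k p q : ℕ} (hp : p < L (k + 2)) (hq : q < L (k + 2))
    (hne : q / L (k + 1) ≠ p / L (k + 1)) (h1 : q < p + L k) (h2 : p < q + L k) (b : W (k + 2)) :
    letter (k + 2) (G (k + 2) p b) q = letter (k + 2) b q := by
  have hx := (G_other hp (div_le hq) hne b).2
  have e1 := Nat.div_add_mod p (L (k + 1))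
  have e2 := Nat.div_add_mod q (L (k + 1))
  have m1 := Nat.mod_lt p (L_pos (k + 1))
  have m2 := Nat.mod_lt q (L_pos (k + 1))
  have t := two_L k
  change letter (k + 1) _ _ = letter (k + 1) _ _
  rcases lt_or_gt_of_ne hne with h | h
  · have h3 : L (k + 1) * (q / L (k + 1) + 1) ≤ L (k + 1) * (p / L (k + 1)) :=
      Nat.mul_le_mul_left _ h
    rw [mul_add, mul_one] at h3
    have h4 : p % L (k + 1) / L k = 0 := Nat.div_eq_of_lt (by omega)
    refine (letter_rest (hx.2 ?_) (by omega) m2).symm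
    simp only [G, h4, if_true]
  · have h3 : L (k + 1) * (p / L (k + 1) + 1) ≤ L (k + 1) * (q / L (k + 1)) :=
      Nat.mul_le_mul_left _ h
    rw [mul_add, mul_one] at h3
    have h4 : p % L (k + 1) / L k ≠ 0 := (Nat.div_pos (by omega) (L_pos k)).ne'
    refine (letter_first (hx.1 ?_) (by omega)).symm
    simp only [G, h4, if_false]

end Pool.Agent.H96.MR
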