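import Pool.Agent.H96.MR1

set_option autoImplicit false
open scoped Classical
open Set Filter Topology

namespace Pool.Agent.H96.MR

/-- ambient space -/
abbrev Amb : Type := (ℤ → ZMod 3) × (∀ k, ZMod (L k))

/-- position of the origin in its k-block -/
noncomputable def pos (x : Amb) (k : ℕ) : ℕ := (x.2 k).val

lemma pos_lt (x : Amb) (k : ℕ) : pos x k < L k := ZMod.val_lt _

lemma L_dvd (k : ℕ) : L k ∣ L (k + 1) := Dvd.intro_left _ rfl

/-- consistency of the positions -/
def Cons (z : ∀ k, ZMod (L k)) : Prop :=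
  ∀ k, ZMod.castHom (L_dvd k) (ZMod (L k)) (z (k + 1)) = z k

/-- all k-blocks are admissible -/
def Val (k : ℕ) (x : Amb) : Prop :=
  ∀ s : ℤ, (s : ZMod (L k)) + x.2 k = 0 → ∃ w : W k, ∀ q < L k, x.1 (s + q) = letter k w q

lemma start_iff (x : Amb) (k : ℕ) (s : ℤ) :
    (s : ZMod (L k)) + x.2 k = 0 ↔ (L k : ℤ) ∣ s + pos x k := by
  rw [← ZMod.intCast_zmod_eq_zero_iff_dvd]
  simp [pos]

lemma pos_mod {x : Amb} (h : Cons x.2) (k : ℕ) : pos x (k + 1) % L k = pos x k := by
  unfold pos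
  rw [← h k, ZMod.castHom_apply, ZMod.cast_eq_val, ZMod.val_natCast]

lemma start_down {x : Amb} (h : Cons x.2) {k : ℕ} {s : ℤ}
    (hs : (s : ZMod (L (k + 1))) + x.2 (k + 1) = 0) : (s : ZMod (L k)) + x.2 k = 0 := by
  have := congrArg (ZMod.castHom (L_dvd k) (ZMod (L k))) hs
  rwa [map_add, map_intCast, h k, map_zero] at this

/-- the start of the block containing n -/
lemma exists_start (x : Amb) (k : ℕ) (n : ℤ) :
    ∃ r : ℕ, r < L k ∧ ((n - r : ℤ) : ZMod (L k)) + x.2 k = 0 :=
  ⟨((n : ZMod (L k)) + x.2 k).val, ZMod.val_lt _, by push_cast; simp⟩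

lemma val_down {x : Amb} (h : Cons x.2) {k : ℕ} (hv : Val (k + 1) x) : Val k x := by
  intro s hs
  obtain ⟨r, hr, h1⟩ := exists_start x (k + 1) s
  obtain ⟨w, hw⟩ := hv _ h1
  have h2 := start_down h h1
  have h3 : ((r : ℤ) : ZMod (L k)) = 0 := by
    have : ((r : ℤ) : ZMod (L k)) = ((s : ZMod (L k)) + x.2 k) - (((s - r : ℤ) : ZMod (L k)) + x.2 k) := by
      push_cast; ring
    rw [this, hs, h2, sub_zero]
  rw [ZMod.intCast_zmod_eq_zero_iff_dvd, Int.natCast_dvd_natCast] at h3
  obtain ⟨i, rfl⟩ := h3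
  have hi : i ≤ N k := by
    have := div_le hr
    rwa [Nat.mul_div_cancel_left _ (L_pos k)] at this
  refine ⟨slot w i, fun q hq => ?_⟩
  rw [← letter_slot w i hq, ← hw _ (slot_lt hi hq)]
  congr 1; push_cast; ring

lemma val_le {x : Amb} (h : Cons x.2) {k K : ℕ} (hk : k ≤ K) (hv : Val K x) : Val k x := by
  induction hk with
  | refl => exact hv
  | step _ ih => exact ih (val_down h hv)

/-- central block -/
noncomputable def cb (K : ℕ) (x : Amb) : W K :=
  Function.invFun (fun (w : W K) (q : Fin (L K)) => letter K w q) fun q => x.1 (q - pos x K)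

lemma cb_eq {K : ℕ} {x : Amb} {w : W K} (h : ∀ q < L K, x.1 (q - pos x K) = letter K w q) :
    cb K x = w := by
  have hi : Function.Injective fun (w : W K) (q : Fin (L K)) => letter K w q :=
    fun w w' h => letter_inj K _ _ fun p hp => congrFun h ⟨p, hp⟩
  unfold cb
  rw [show (fun q : Fin (L K) => x.1 (q - pos x K)) = fun q : Fin (L K) => letter K w q from
    funext fun q => h q q.2]
  exact Function.leftInverse_invFun hi w

lemma cb_spec {K : ℕ} {x : Amb} (hv : Val K x) {q : ℕ} (hq : q < L K) :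
    x.1 (q - pos x K) = letter K (cb K x) q := by
  obtain ⟨w, hw⟩ := hv (-(pos x K : ℤ)) ((start_iff _ _ _).2 (by simp))
  have : ∀ q < L K, x.1 (q - pos x K) = letter K w q := fun q hq => by
    rw [← hw q hq]; congr 1; ring
  rw [cb_eq this]; exact this q hq

lemma cb_slot {K : ℕ} {x : Amb} (h : Cons x.2) (hv : Val (K + 1) x) :
    cb K x = slot (cb (K + 1) x) (pos x (K + 1) / L K) := by
  refine cb_eq fun q hq => ?_
  rw [← letter_slot _ _ hq, ← cb_spec hv (slot_lt (div_le (pos_lt x _)) hq)]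
  have := Nat.div_add_mod (pos x (K + 1)) (L K)
  rw [pos_mod h, mul_comm] at this
  exact congrArg x.1 (by omega)

/-- n lies in the central block -/
def cen (K : ℕ) (x : Amb) (n : ℤ) : Prop := 0 ≤ n + pos x K ∧ n + pos x K < L K

/-- replacing the central block -/
noncomputable def rep (K : ℕ) (g : ℕ → W K → W K) (x : Amb) : Amb :=
  (fun n => if cen K x n then letter K (g (pos x K) (cb K x)) (n + pos x K).toNat else x.1 n, x.2)

lemma rep_cen {K : ℕ} (g : ℕ → W K → W K) (x : Amb) {q : ℕ} (hq : q < L K) :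
    (rep K g x).1 (q - pos x K) = letter K (g (pos x K) (cb K x)) q := by
  have : cen K x (q - pos x K) := ⟨by simp, by simpa using hq⟩
  simp only [rep, this, if_true, sub_add_cancel, Int.toNat_natCast]

lemma cen_ex {K : ℕ} {x : Amb} {n : ℤ} (h : cen K x n) : ∃ q : ℕ, q < L K ∧ n = q - pos x K :=
  ⟨(n + pos x K).toNat, by have := h.1; have := h.2; omega, by have := h.1; omega⟩

lemma rep_not {K : ℕ} (g : ℕ → W K → W K) {x : Amb} {n : ℤ} (h : ¬ cen K x n) :
    (rep K g x).1 n = x.1 n := by simp only [rep, h, if_false]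

lemma cb_rep {K : ℕ} (g : ℕ → W K → W K) (x : Amb) : cb K (rep K g x) = g (pos x K) (cb K x) :=
  cb_eq fun _ hq => rep_cen g x hq

lemma val_rep {K : ℕ} (g : ℕ → W K → W K) {x : Amb} (hv : Val K x) : Val K (rep K g x) := by
  intro s hs
  by_cases h : s = -(pos x K : ℤ)
  · refine ⟨g (pos x K) (cb K x), fun q hq => ?_⟩
    rw [← rep_cen g x hq, h]; exact congrArg _ (by ring)
  · obtain ⟨w, hw⟩ := hv s hs
    refine ⟨w, fun q hq => ?_⟩
    rw [rep_not g, hw q hq]
    rintro ⟨h1, h2⟩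
    obtain ⟨m, hm⟩ := (start_iff x K s).1 hs
    have hL : (0 : ℤ) < L K := by exact_mod_cast L_pos K
    have hq' : (q : ℤ) < L K := by exact_mod_cast hq
    have a1 : -1 < m := by nlinarith
    have a2 : m < 1 := by nlinarith [Int.natCast_nonneg q]
    have : m = 0 := by omega
    apply h
    rw [this] at hm; linarith

lemma rep_rep {K : ℕ} {g g' : ℕ → W K → W K} (h : ∀ p, p < L K → ∀ b, g p (g' p b) = b) {x : Amb}
    (hv : Val K x) : rep K g (rep K g' x) = x := by
  refine Prod.ext (funext fun n => ?_) rfl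
  by_cases hc : cen K x n
  · obtain ⟨q, hq, rfl⟩ := cen_ex hc
    refine (rep_cen g (rep K g' x) hq).trans ?_
    rw [cb_rep]
    change letter K (g (pos x K) _) q = _
    rw [h _ (pos_lt x K), cb_spec hv hq]
  · rw [rep_not g (x := rep K g' x) hc, rep_not g' hc]

lemma cen_up {K : ℕ} {x : Amb} (h : Cons x.2) {n : ℤ} (hc : cen K x n) : cen (K + 1) x n := by
  obtain ⟨q, hq, rfl⟩ := cen_ex hc
  have h1 := slot_lt (div_le (pos_lt x (K + 1))) hq
  have h2 := Nat.div_add_mod (pos x (K + 1)) (L K)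
  rw [pos_mod h, mul_comm] at h2
  constructor <;> omega

lemma stab_cen {K : ℕ} {x : Amb} (h : Cons x.2) (hv : Val (K + 1) x) {n : ℤ} (hc : cen K x n) :
    (rep (K + 1) (G (K + 1)) x).1 n = (rep K (G K) x).1 n := by
  obtain ⟨q, hq, rfl⟩ := cen_ex hc
  have h1 := slot_lt (div_le (pos_lt x (K + 1))) hq
  have h2 := Nat.div_add_mod (pos x (K + 1)) (L K)
  rw [pos_mod h, mul_comm] at h2
  rw [rep_cen _ _ hq, show (q : ℤ) - pos x K =
    ((pos x (K + 1) / L K * L K + q : ℕ) : ℤ) - pos x (K + 1) by omega, rep_cen _ _ h1,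
    letter_slot _ _ hq, G_slot (pos_lt x _), pos_mod h, cb_slot h hv]

lemma stab_near {K : ℕ} {x : Amb} (h : Cons x.2) (hv : Val (K + 2) x) {n : ℤ} (hn : |n| < L K) :
    (rep (K + 2) (G (K + 2)) x).1 n = (rep (K + 1) (G (K + 1)) x).1 n := by
  by_cases hc : cen (K + 1) x n
  · exact stab_cen h hv hc
  rw [rep_not _ hc]
  by_cases hc' : cen (K + 2) x n
  · obtain ⟨q, hq, rfl⟩ := cen_ex hc'
    rw [abs_lt] at hn
    rw [rep_cen _ _ hq, cb_spec hv hq]
    refine G_near (pos_lt x _) hq (fun h0 => hc ?_) (by omega) (by omega) _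
    have h2 := Nat.div_add_mod (pos x (K + 2)) (L (K + 1))
    have h3 := Nat.div_add_mod q (L (K + 1))
    have h4 := Nat.mod_lt q (L_pos (K + 1))
    rw [pos_mod h] at h2
    rw [h0] at h3
    constructor <;> omega
  · exact rep_not _ hc'

/-- the limit map -/
noncomputable def psi (x : Amb) : Amb :=
  (fun n => (rep (n.natAbs + 1) (G (n.natAbs + 1)) x).1 n, x.2)

lemma psi_eq {x : Amb} (h : Cons x.2) {n : ℤ} {K : ℕ} (hK : n.natAbs + 1 ≤ K) (hv : Val K x) :
    (psi x).1 n = (rep K (G K) x).1 n := by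
  induction hK with
  | refl => rfl
  | @step m hm ih =>
    obtain ⟨j, rfl⟩ : ∃ j, m = j + 1 := ⟨m - 1, by have : n.natAbs + 1 ≤ m := hm; omega⟩
    rw [ih (val_down h hv), stab_near h hv]
    have := lt_L j
    have : n.natAbs + 1 ≤ j + 1 := hm
    rw [Int.abs_eq_natAbs]; omega

lemma psi_cen {x : Amb} (h : Cons x.2) (hv : ∀ k, Val k x) {n : ℤ} {K : ℕ} (hc : cen K x n) :
    (psi x).1 n = (rep K (G K) x).1 n := by
  have key : ∀ K', K ≤ K' → cen K' x n ∧ (rep K' (G K') x).1 n = (rep K (G K) x).1 n := by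
    intro K' hK
    induction hK with
    | refl => exact ⟨hc, rfl⟩
    | step _ ih => exact ⟨cen_up h ih.1, (stab_cen h (hv _) ih.1).trans ih.2⟩
  rw [psi_eq h (le_max_left _ K) (hv _), (key _ (le_max_right _ _)).2]

lemma val_psi {x : Amb} (h : Cons x.2) (hv : ∀ k, Val k x) (k : ℕ) : Val k (psi x) := by
  intro s hs
  let K := k + s.natAbs + L k + 1
  obtain ⟨w, hw⟩ := val_le (x := rep K (G K) x) h (show k ≤ K by omega) (val_rep _ (hv K)) s hs
  exact ⟨w, fun q hq => by rw [psi_eq h (show _ ≤ K by omega) (hv K), hw q hq]⟩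

lemma psi_inj {x x' : Amb} (h : Cons x.2) (hv : ∀ k, Val k x) (hv' : ∀ k, Val k x')
    (he : psi x = psi x') : x = x' := by
  have hz : x.2 = x'.2 := (Prod.mk.inj he).2
  have h' : Cons x'.2 := hz ▸ h
  have hp : ∀ K, pos x K = pos x' K := fun K => by unfold pos; rw [hz]
  have hb : ∀ K, cb K x = cb K x' := fun K => by
    apply G_inj K _ (pos_lt x K)
    refine letter_inj K _ _ fun q hq => ?_
    have c1 : cen K x (q - pos x K) := ⟨by simp, by simpa using hq⟩
    have c2 : cen K x' (q - pos x' K) := ⟨by simp, by simpa using hq⟩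
    rw [← rep_cen _ x hq, ← psi_cen h hv c1, he, hp, psi_cen h' hv' c2, rep_cen _ x' hq]
  refine Prod.ext (funext fun n => ?_) hz
  by_cases hc : cen (n.natAbs + 1) x n
  · generalize n.natAbs + 1 = K at hc
    obtain ⟨q, hq, rfl⟩ := cen_ex hc
    rw [cb_spec (hv K) hq, hp, cb_spec (hv' K) hq, hb]
  · have hc' : ¬ cen (n.natAbs + 1) x' n := by unfold cen at hc ⊢; rwa [← hp]
    rw [← rep_not (G _) hc, ← rep_not (G _) hc']
    exact congrFun (congrArg Prod.fst he) n

lemma psi_zero {x : Amb} (hv : ∀ k, Val k x) : (psi x).1 0 = x.1 0 - 1 := by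
  have h1 := rep_cen (G 1) x (pos_lt x 1)
  have h2 := cb_spec (hv 1) (pos_lt x 1)
  rw [sub_self] at h1 h2
  rw [h2, ← G_origin 1 _ (pos_lt x 1), ← h1]
  rfl

lemma psi_compat {x : Amb} (hv : ∀ k, Val k x) {n : ℤ} (hn : n ≠ 0) :
    ¬ (x.1 n = x.1 0 ∧ (psi x).1 n = x.1 0 - 1) := by
  change ¬ (_ ∧ (rep (n.natAbs + 1) (G (n.natAbs + 1)) x).1 n = _)
  generalize n.natAbs + 1 = K
  by_cases hc : cen K x n
  · obtain ⟨q, hq, rfl⟩ := cen_ex hc
    have h2 := cb_spec (hv K) (pos_lt x K)
    rw [sub_self] at h2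
    rw [rep_cen _ _ hq, cb_spec (hv K) hq, h2]
    exact G_compat K _ (pos_lt x K) _ _ hq fun h => hn (by rw [h, sub_self])
  · rw [rep_not _ hc]
    exact fun h => ne_sub _ (h.1.symm.trans h.2)

lemma cont_dep {A D E : Type} [TopologicalSpace A] [TopologicalSpace D] [DiscreteTopology D]
    [TopologicalSpace E] {t : A → D} (ht : Continuous t) {f : D → A → E}
    (hf : ∀ d, Continuous (f d)) : Continuous fun a => f (t a) a :=
  (continuous_prod_of_discrete_left (f := fun p : D × A => f p.1 p.2)).2 hf |>.comp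
    (ht.prodMk continuous_id)

lemma cont_rep (K : ℕ) (g : ℕ → W K → W K) (n : ℤ) : Continuous fun x => (rep K g x).1 n := by
  have h1 : Continuous fun x : Amb => (x.2 K, fun q : Fin (L K) => x.1 (q - pos x K)) := by
    refine (by fun_prop : Continuous fun x : Amb => x.2 K).prodMk (continuous_pi fun q => ?_)
    exact cont_dep (t := fun x : Amb => x.2 K) (by fun_prop)
      (f := fun d (x : Amb) => x.1 (q - (d.val : ℕ))) fun d => by fun_prop
  have := cont_dep h1 (f := fun d (x : Amb) =>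
    if 0 ≤ n + (d.1.val : ℕ) ∧ n + (d.1.val : ℕ) < L K then
      letter K (g d.1.val (Function.invFun (fun (w : W K) (q : Fin (L K)) => letter K w q) d.2))
        (n + (d.1.val : ℕ)).toNat else x.1 n) fun d => by
    split_ifs
    · exact continuous_const
    · fun_prop
  refine this.congr fun x => ?_
  simp only [rep]
  by_cases hc : cen K x n
  · rw [if_pos hc]; exact if_pos hc
  · rw [if_neg hc]; exact if_neg hc

lemma cont_psi : Continuous psi :=
  (continuous_pi fun n => cont_rep _ _ n).prodMk continuous_snd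

lemma closed_val (k : ℕ) : IsClosed {x : Amb | Val k x} := by
  simp only [Val, ofPred_forall]
  refine isClosed_iInter fun s => ?_
  have h1 : Continuous fun x : Amb => (x.2 k, fun q : Fin (L k) => x.1 (s + q)) := by fun_prop
  have := (isClosed_discrete {d : ZMod (L k) × (Fin (L k) → ZMod 3) |
    (s : ZMod (L k)) + d.1 = 0 → ∃ w : W k, ∀ q : Fin (L k), d.2 q = letter k w q}).preimage h1
  convert this using 1
  ext x
  simp [Fin.forall_iff]

lemma closed_cons : IsClosed {x : Amb | Cons x.2} := by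
  simp only [Cons, ofPred_forall]
  exact isClosed_iInter fun k => isClosed_eq
    (continuous_of_discreteTopology.comp (by fun_prop : Continuous fun x : Amb => x.2 (k + 1)))
    (by fun_prop)

lemma psi_surj {y : Amb} (h : Cons y.2) (hv : ∀ k, Val k y) :
    ∃ x : Amb, x.2 = y.2 ∧ (∀ k, Val k x) ∧ psi x = y := by
  let C : ℕ → Set Amb := fun K =>
    {x | x.2 = y.2} ∩ ({x | Val K x} ∩ ⋂ n : ℤ, {x | n.natAbs + 1 ≤ K → (psi x).1 n = y.1 n})
  have hcl : ∀ K, IsClosed (C K) := fun K => by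
    refine (isClosed_eq continuous_snd continuous_const).inter ((closed_val K).inter
      (isClosed_iInter fun n => ?_))
    by_cases hn : n.natAbs + 1 ≤ K
    · simp only [hn, true_implies]
      exact isClosed_eq (cont_rep _ _ n) continuous_const
    · simp [hn]
  obtain ⟨x, hx⟩ := IsCompact.nonempty_iInter_of_sequence_nonempty_isCompact_isClosed C
    (fun K x hx => ⟨hx.1, val_down (hx.1 ▸ h) hx.2.1, mem_iInter.2 fun n hn =>
      mem_iInter.1 hx.2.2 n (by omega)⟩)
    (fun K => by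
      have hs : ∀ p, p < L K → Function.Surjective (G K p) := fun p hp =>
        Finite.injective_iff_surjective.1 (G_inj K p hp)
      let g' : ℕ → W K → W K := fun p => Function.invFun (G K p)
      have hv' := val_rep g' (hv K)
      refine ⟨rep K g' y, rfl, hv', mem_iInter.2 fun n hn => ?_⟩
      rw [psi_eq (x := rep K g' y) h hn hv',
        rep_rep (fun p hp b => Function.rightInverse_invFun (hs p hp) b) (hv K)])
    (hcl 0).isCompact hcl
  rw [mem_iInter] at hx
  exact ⟨x, (hx 0).1, fun k => (hx k).2.1,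
    Prod.ext (funext fun n => mem_iInter.1 (hx _).2.2 n le_rfl) (hx 0).1⟩

lemma exists_pt : ∃ x : Amb, Cons x.2 ∧ ∀ k, Val k x := by
  let C : ℕ → Set Amb := fun K => {x | x.2 = 0} ∩ {x | Val K x}
  have h0 : Cons 0 := fun k => map_zero _
  have hcl : ∀ K, IsClosed (C K) := fun K =>
    (isClosed_eq continuous_snd continuous_const).inter (closed_val K)
  obtain ⟨x, hx⟩ := IsCompact.nonempty_iInter_of_sequence_nonempty_isCompact_isClosed C
    (fun K x hx => ⟨hx.1, val_down (hx.1 ▸ h0) hx.2⟩)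
    (fun K => by
      obtain ⟨w⟩ := neW K
      refine ⟨(fun n => letter K w (n : ZMod (L K)).val, 0), rfl, fun s hs => ⟨w, fun q hq => ?_⟩⟩
      simp only [Pi.zero_apply, add_zero] at hs
      simp only [Int.cast_add, hs, zero_add, Int.cast_natCast, ZMod.val_natCast,
        Nat.mod_eq_of_lt hq])
    (hcl 0).isCompact hcl
  rw [mem_iInter] at hx
  exact ⟨x, (hx 0).1 ▸ h0, fun k => (hx k).2⟩

end Pool.Agent.H96.MR
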