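import Pool.Agent.H96.MR2

set_option autoImplicit false
open scoped Classical
open Set Filter Topology

namespace Pool.Agent.H96.MR

/-- the phase space -/
abbrev XX : Type := {x : Amb // Cons x.2 ∧ ∀ k, Val k x}


instance : TopologicalSpace.MetrizableSpace XX := by
  have : ∀ k, TopologicalSpace.MetrizableSpace (ZMod (L k)) := fun k =>
    inferInstance
  have : TopologicalSpace.MetrizableSpace (ZMod 3) := inferInstance
  have : TopologicalSpace.MetrizableSpace Amb := inferInstance
  exact TopologicalSpace.MetrizableSpace.subtype (X := Amb) {x : Amb | Cons x.2 ∧ ∀ k, Val k x}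

instance : CompactSpace XX := by
  refine isCompact_iff_compactSpace.1 (IsClosed.isCompact (s := {x : Amb | Cons x.2 ∧ ∀ k, Val k x}) ?_)
  rw [ofPred_and, ofPred_forall]
  exact closed_cons.inter (isClosed_iInter closed_val)

instance : Nonempty XX := let ⟨x, hx⟩ := exists_pt; ⟨⟨x, hx⟩⟩

/-- shift by m -/
noncomputable def sh (m : ℤ) (x : XX) : XX :=
  ⟨(fun n => x.1.1 (n + m), fun k => x.1.2 k + m), fun k => by
    simp only [map_add, map_intCast, x.2.1 k], fun k s hs => by
    obtain ⟨w, hw⟩ := x.2.2 k (s + m) (by rw [← hs]; push_cast; ring)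
    exact ⟨w, fun q hq => by rw [← hw q hq]; exact congrArg x.1.1 (by ring)⟩⟩

lemma sh_add (m m' : ℤ) (x : XX) : sh m (sh m' x) = sh (m + m') x :=
  Subtype.ext (Prod.ext (funext fun n => congrArg x.1.1 (add_assoc _ _ _))
    (funext fun k => by simp only [sh]; push_cast; ring))

lemma sh_zero (x : XX) : sh 0 x = x :=
  Subtype.ext (Prod.ext (funext fun n => congrArg x.1.1 (add_zero _))
    (funext fun k => by simp [sh]))

lemma cont_sh (m : ℤ) : Continuous (sh m) := by
  refine Continuous.subtype_mk ?_ _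
  have : Continuous fun x : XX => x.1 := continuous_subtype_val
  fun_prop

/-- the shift -/
noncomputable def TT : XX ≃ₜ XX where
  toFun := sh 1
  invFun := sh (-1)
  left_inv x := by rw [sh_add]; exact sh_zero x
  right_inv x := by rw [sh_add]; exact sh_zero x
  continuous_toFun := cont_sh 1
  continuous_invFun := cont_sh (-1)

lemma TT_iter (n : ℕ) (x : XX) : TT^[n] x = sh n x := by
  induction n with
  | zero => exact (sh_zero x).symm
  | succ n ih =>
    rw [Function.iterate_succ_apply', ih]
    change sh 1 _ = _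
    rw [sh_add]; push_cast; rw [add_comm]

lemma z_down {z z' : ∀ k, ZMod (L k)} (h : Cons z) (h' : Cons z') {k K : ℕ} (hk : k ≤ K)
    (he : z K = z' K) : z k = z' k := by
  induction hk with
  | refl => exact he
  | step _ ih => exact ih (by rw [← h, ← h', he])

lemma approx (x x' : XX) (M : ℕ) : ∃ m : ℕ, (∀ i : ℤ, i.natAbs ≤ M → (sh m x).1.1 i = x'.1.1 i) ∧
    ∀ k ≤ M, (sh m x).1.2 k = x'.1.2 k := by
  let k := 2 * M
  have hk := lt_L k
  obtain ⟨r, hr, hs⟩ := exists_start x'.1 k (-M)
  obtain ⟨C, hC⟩ := x'.2.2 k _ hs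
  obtain ⟨C', hC'⟩ := x'.2.2 k (-M - r + L k) (by rw [← hs]; push_cast; simp)
  let e := (Finite.equivFin (W k)).symm
  let i0 : Fin (Nat.card (W k)) := ⟨0, N_pos k⟩
  let D : W (k + 1) := (C, e.trans (Equiv.swap (e i0) C'))
  have hD1 : slot D 1 = C' := by
    have := slot_succ D i0
    simp only [i0, zero_add] at this
    rw [this]
    exact Equiv.swap_apply_left _ _
  have hD : ∀ q < 2 * L k, x'.1.1 (-M - r + q) = letter (k + 1) D q := fun q hq => by
    rcases lt_or_ge q (L k) with h | h
    · have := letter_slot D 0 h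
      rw [zero_mul, zero_add, slot_zero] at this
      rw [this, hC q h]
    · have := letter_slot D 1 (q := q - L k) (by omega)
      rw [one_mul, Nat.add_sub_cancel' h, hD1] at this
      rw [this, ← hC' _ (by omega)]
      exact congrArg _ (by omega)
  obtain ⟨r', hr', ht⟩ := exists_start x.1 (k + 2) (L (k + 2))
  obtain ⟨E, hE⟩ := x.2.2 _ _ ht
  let j := E.2.symm D
  have hj : slot E (j + 1) = D := by rw [slot_succ]; simp [j]
  have hjN : (j : ℕ) + 1 ≤ N (k + 1) := j.2
  refine ⟨L (k + 2) - r' + (j + 1) * L (k + 1) + M + r, fun i hi => ?_, fun k' hk' => ?_⟩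
  · have t2 := two_L k
    have hq : (i + M + r).toNat < 2 * L k := by omega
    have h1 := hD _ hq
    rw [← hj, ← letter_slot _ _ (by omega), ← hE _ (slot_lt hjN (by omega))] at h1
    rw [show i = -M - r + ((i + M + r).toNat : ℕ) by omega, h1]
    refine congrArg x.1.1 ?_
    generalize (j + 1) * L (k + 1) = A
    omega
  · refine z_down (sh _ x).2.1 x'.2.1 (hk'.trans (show M ≤ k by omega)) ?_
    have h1 := start_down x.2.1 (start_down x.2.1 ht)
    have h2 : ((L (k + 1) : ℕ) : ZMod (L k)) = 0 := (ZMod.natCast_eq_zero_iff _ _).2 (L_dvd k)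
    change x.1.2 k + _ = _
    rw [Nat.cast_add, Nat.cast_add, Nat.cast_add, Nat.cast_sub hr'.le]
    push_cast at h1 hs ⊢
    rw [h2]
    linear_combination h1 - hs

theorem TT_min (x : XX) : Dense (range fun n : ℕ => TT^[n] x) := by
  intro x'
  choose m hm using approx x x'
  refine mem_closure_of_tendsto (b := atTop) (f := fun M => sh (m M) x) ?_
    (Eventually.of_forall fun M => ⟨m M, TT_iter _ _⟩)
  refine tendsto_subtype_rng.2 (Prod.tendsto_iff _ _ |>.2 ⟨tendsto_pi_nhds.2 fun i => ?_,
    tendsto_pi_nhds.2 fun k => ?_⟩)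
  · exact tendsto_const_nhds.congr' ((eventually_ge_atTop i.natAbs).mono fun M h =>
      ((hm M).1 i h).symm)
  · exact tendsto_const_nhds.congr' ((eventually_ge_atTop k).mono fun M h =>
      ((hm M).2 k h).symm)

/-- the conjugating map -/
noncomputable def psiX (x : XX) : XX := ⟨psi x.1, x.2.1, val_psi x.2.1 x.2.2⟩

lemma psiX_bij : Function.Bijective psiX :=
  ⟨fun x x' h => Subtype.ext (psi_inj x.2.1 x.2.2 x'.2.2 (congrArg Subtype.val h)), fun y => by
    obtain ⟨x, h1, h2, h3⟩ := psi_surj y.2.1 y.2.2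
    exact ⟨⟨x, h1 ▸ y.2.1, h2⟩, Subtype.ext h3⟩⟩

/-- the conjugating homeomorphism -/
noncomputable def PP : XX ≃ₜ XX :=
  Continuous.homeoOfEquivCompactToT2 (f := Equiv.ofBijective psiX psiX_bij)
    ((cont_psi.comp continuous_subtype_val).subtype_mk _)

lemma PP_apply (x : XX) : PP x = psiX x := rfl

/-- the second homeomorphism -/
noncomputable def SS : XX ≃ₜ XX := PP.trans (TT.trans PP.symm)

lemma SS_iter (n : ℕ) (x : XX) : SS^[n] x = PP.symm (TT^[n] (PP x)) := by
  induction n with
  | zero => simp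
  | succ n ih => rw [Function.iterate_succ_apply', Function.iterate_succ_apply', ih]; simp [SS]

theorem SS_min (x : XX) : Dense (range fun n : ℕ => SS^[n] x) := by
  have := PP.symm.surjective.denseRange.dense_image PP.symm.continuous (TT_min (PP x))
  rw [← range_comp] at this
  simp only [SS_iter]; exact this

theorem non_rec (x : XX) : ∃ U ∈ 𝓝 x, ∀ n : ℕ, 0 < n → ¬ (TT^[n] x ∈ U ∧ SS^[n] x ∈ U) := by
  have c1 : Continuous fun y : XX => (y.1.1 0, (PP y).1.1 0) := by
    have h1 : Continuous fun x : XX => x.1 := continuous_subtype_val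
    have h2 : Continuous fun x : XX => (PP x).1 := h1.comp PP.continuous
    exact ((continuous_apply 0).comp h1.fst).prodMk ((continuous_apply 0).comp h2.fst)
  refine ⟨_, c1.continuousAt.preimage_mem_nhds ((isOpen_discrete {_}).mem_nhds rfl),
    fun n hn h => psi_compat x.2.2 (n := n) (by omega) ⟨?_, ?_⟩⟩
  · have := (Prod.mk.inj h.1).1
    rw [TT_iter] at this
    simpa [sh] using this
  · have := (Prod.mk.inj h.2).2
    rw [SS_iter, Homeomorph.apply_symm_apply, TT_iter] at this
    rw [← psi_zero x.2.2]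
    simp only [sh, zero_add] at this
    exact this

end Pool.Agent.H96.MR
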