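import Mathlib

set_option autoImplicit false
open scoped ZeroAtInfty ENNReal Classical
open Filter Topology Set

namespace Pool.Agent.H96.MS

/-- clamp of v to the interval of centre c and radius r -/
noncomputable def cl (c r v : ℝ) : ℝ := max (c - r) (min v (c + r))

lemma cl_eq {c r v : ℝ} (h : |v - c| ≤ r) : cl c r v = v := by
  have := abs_le.1 h
  unfold cl
  rw [min_eq_left (by linarith), max_eq_right (by linarith)]

lemma cl_zero (c v : ℝ) : cl c 0 v = c := by
  unfold cl
  rcases le_total v c with h | h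
  · rw [min_eq_left (by linarith), max_eq_left (by linarith)]; ring
  · rw [min_eq_right (by linarith), max_eq_left (by linarith)]; ring

lemma cl_abs {c r v : ℝ} (hr : 0 ≤ r) : |cl c r v| ≤ max |c| |v| := by
  unfold cl
  have h1 := le_abs_self c
  have h2 := neg_abs_le c
  have h3 := le_abs_self v
  have h4 := neg_abs_le v
  have h5 := le_max_left |c| |v|
  have h6 := le_max_right |c| |v|
  rw [abs_le]
  constructor
  · apply le_max_of_le_right
    apply le_min <;> linarith
  · apply max_le
    · linarith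
    · apply min_le_of_left_le; linarith

lemma cl_abs0 {r v : ℝ} (hr : 0 ≤ r) : |cl 0 r v| ≤ r := by
  unfold cl
  rw [abs_le]
  constructor
  · apply le_max_of_le_left; linarith
  · apply max_le
    · linarith
    · apply min_le_of_right_le; linarith

lemma cl_lip {c r v r' v' d : ℝ} (h1 : |r - r'| ≤ d) (h2 : |v - v'| ≤ d) :
    |cl c r v - cl c r' v'| ≤ d := by
  unfold cl
  refine (abs_max_sub_max_le_max _ _ _ _).trans (max_le ?_ ?_)
  · rw [show c - r - (c - r') = -(r - r') by ring, abs_neg]; exact h1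
  · refine (abs_min_sub_min_le_max _ _ _ _).trans (max_le h2 ?_)
    rw [show c + r - (c + r') = r - r' by ring]; exact h1

lemma cl_pos {r v : ℝ} (hr : 0 < r) (hv : 0 < v) : 0 < cl 0 r v := by
  unfold cl
  apply lt_max_of_lt_right
  apply lt_min hv; linarith

lemma cl_neg {r v : ℝ} (hr : 0 < r) (hv : v < 0) : cl 0 r v < 0 := by
  unfold cl
  apply max_lt
  · linarith
  · exact min_lt_of_left_lt hv

lemma cl_nonneg {r v : ℝ} (hr : 0 ≤ r) (hv : 0 ≤ v) : 0 ≤ cl 0 r v := by
  unfold cl
  apply le_max_of_le_right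
  apply le_min hv; linarith

lemma cl_nonpos {r v : ℝ} (hr : 0 ≤ r) (hv : v ≤ 0) : cl 0 r v ≤ 0 := by
  unfold cl
  apply max_le
  · linarith
  · exact min_le_of_left_le hv

lemma cl00 {r : ℝ} (hr : 0 ≤ r) : cl 0 r 0 = 0 := cl_eq (by simpa using hr)

lemma isup_le_add {J : Type} [Nonempty J] {f g : J → ℝ} {d : ℝ} (hg : BddAbove (range g))
    (h : ∀ j, f j ≤ g j + d) : (⨆ j, f j) ≤ (⨆ j, g j) + d :=
  ciSup_le fun j => (h j).trans (by linarith [le_ciSup hg j])

variable {I : Type} [LinearOrder I] [TopologicalSpace I] [DiscreteTopology I]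

lemma fin_big (x : C₀(I, ℝ)) {ε : ℝ} (hε : 0 < ε) : {i | ε < |x i|}.Finite := by
  have h := zero_at_infty x
  rw [Filter.cocompact_eq_cofinite] at h
  have h2 := (Metric.tendsto_nhds.1 h) ε hε
  rw [Filter.eventually_cofinite] at h2
  refine h2.subset fun i hi => ?_
  simp only [mem_setOf_eq, Real.dist_eq, sub_zero, not_lt] at hi ⊢
  exact hi.le

lemma abs_le_dist (x x' : C₀(I, ℝ)) (i : I) : |x i - x' i| ≤ dist x x' := by
  rw [← ZeroAtInftyContinuousMap.dist_toBCF_eq_dist, ← Real.dist_eq]
  exact BoundedContinuousFunction.dist_coe_le_dist (f := x.toBCF) (g := x'.toBCF) i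

lemma dist_le' (x x' : C₀(I, ℝ)) {d : ℝ} (hd : 0 ≤ d) (h : ∀ i, |x i - x' i| ≤ d) :
    dist x x' ≤ d := by
  rw [← ZeroAtInftyContinuousMap.dist_toBCF_eq_dist]
  exact (BoundedContinuousFunction.dist_le hd).2 fun i => by rw [Real.dist_eq]; exact h i

lemma abs_le_norm' (x : C₀(I, ℝ)) (i : I) : |x i| ≤ dist x 0 := by
  simpa using abs_le_dist x 0 i

lemma supp_count (x : C₀(I, ℝ)) : {i | x i ≠ 0}.Countable := by
  have : {i | x i ≠ 0} ⊆ ⋃ n : ℕ, {i | 1 / ((n : ℝ) + 1) < |x i|} := by
    intro i hi
    obtain ⟨n, hn⟩ := exists_nat_one_div_lt (abs_pos.2 hi)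
    exact mem_iUnion.2 ⟨n, hn⟩
  exact (countable_iUnion fun n => (fin_big x (by positivity)).countable).mono this

/-- a multiple of a unit vector -/
noncomputable def sing (k : I) (t : ℝ) : C₀(I, ℝ) where
  toFun j := if j = k then t else 0
  continuous_toFun := continuous_of_discreteTopology
  zero_at_infty' := by
    rw [Filter.cocompact_eq_cofinite]
    refine tendsto_const_nhds.congr' ?_
    refine Filter.eventually_cofinite.2 ((finite_singleton k).subset fun j hj => ?_)
    by_contra h
    simp only [mem_singleton_iff] at h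
    simp [h] at hj

lemma sing_apply (k : I) (t : ℝ) (j : I) : sing k t j = if j = k then t else 0 := rfl

/-- truncation below k -/
noncomputable def trunc (k : I) (x : C₀(I, ℝ)) : C₀(I, ℝ) where
  toFun j := if j < k then x j else 0
  continuous_toFun := continuous_of_discreteTopology
  zero_at_infty' := by
    refine squeeze_zero_norm (a := fun j => ‖x j‖) (fun j => ?_) ?_
    · split_ifs <;> simp
    · simpa using (zero_at_infty x).norm

lemma trunc_apply (k : I) (x : C₀(I, ℝ)) (j : I) : trunc k x j = if j < k then x j else 0 := rfl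

/-- countably supported bounded functions -/
def Ysub (G : Type) : Submodule ℝ (lp (fun _ : G => ℝ) ∞) where
  carrier := {f | {g | f g ≠ 0}.Countable}
  add_mem' := by
    intro a b ha hb
    refine (ha.union hb).mono fun g hg => ?_
    by_contra h
    simp only [mem_union, mem_setOf_eq, not_or, not_not] at h
    apply hg
    simp [h.1, h.2]
  zero_mem' := by simp
  smul_mem' := by
    intro c a ha
    refine ha.mono fun g hg => ?_
    intro h
    apply hg
    simp [h]

lemma lp_abs_le {G : Type} (a b : lp (fun _ : G => ℝ) ∞) (g : G) : |a g - b g| ≤ dist a b := by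
  rw [dist_eq_norm]
  have := lp.norm_apply_le_norm ENNReal.top_ne_zero (a - b) g
  simpa using this

lemma lp_dist_le {G : Type} (a b : lp (fun _ : G => ℝ) ∞) {d : ℝ} (hd : 0 ≤ d)
    (h : ∀ g, |a g - b g| ≤ d) : dist a b ≤ d := by
  rw [dist_eq_norm]
  exact lp.norm_le_of_forall_le hd fun g => by simpa using h g

lemma Ysub_closed (G : Type) : IsClosed (Ysub G : Set (lp (fun _ : G => ℝ) ∞)) := by
  refine IsSeqClosed.isClosed fun u a hu ha => ?_
  have : {g | a g ≠ 0} ⊆ ⋃ n, {g | u n g ≠ 0} := by
    intro g hg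
    by_contra h
    simp only [mem_iUnion, mem_setOf_eq, not_exists, not_not] at h
    have h1 := (Metric.tendsto_nhds.1 ha) _ (abs_pos.2 hg)
    obtain ⟨n, hn⟩ := h1.exists
    have := lp_abs_le (u n) a g
    rw [h n, zero_sub, abs_neg] at this
    linarith
  exact (countable_iUnion fun n => hu n).mono this

instance (G : Type) : CompleteSpace (Ysub G) := (Ysub_closed G).completeSpace_coe

end Pool.Agent.H96.MS
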