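import Pool.Agent.H96.MS1

set_option autoImplicit false
set_option linter.unusedSectionVars false
open scoped ZeroAtInfty ENNReal Classical
open Filter Topology Set

namespace Pool.Agent.H96.MS

variable {I : Type} [LinearOrder I] [TopologicalSpace I] [DiscreteTopology I]
variable (y : I → Ysub (I × I × ℚ)) (A : I → Prop)

/-- value of the target -/
def yv (k : I) (g : I × I × ℚ) : ℝ := ((y k : lp (fun _ : I × I × ℚ => ℝ) ∞)) g

/-- radius -/
noncomputable def rr (k : I) : ℝ := ((⌈‖y k‖⌉₊ + 2 : ℕ) : ℝ)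

lemma two_le_rr (k : I) : 2 ≤ rr y k := by
  unfold rr; push_cast; linarith [Nat.cast_nonneg (α := ℝ) ⌈‖y k‖⌉₊]

lemma yv_le (k : I) (g : I × I × ℚ) : |yv y k g| + 2 ≤ rr y k := by
  have h1 : |yv y k g| ≤ ‖y k‖ := by
    have := lp.norm_apply_le_norm ENNReal.top_ne_zero (y k : lp (fun _ : I × I × ℚ => ℝ) ∞) g
    simpa [yv] using this
  have h2 := Nat.le_ceil ‖y k‖
  unfold rr; push_cast; linarith

/-- special point -/
noncomputable def pp (k : I) : C₀(I, ℝ) := sing k (10 * rr y k)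

/-- distance of the truncation to the special point -/
noncomputable def DD (k : I) (x : C₀(I, ℝ)) : ℝ := ⨆ j, if j ≤ k then |x j - pp y k j| else 0

/-- clamp radius -/
noncomputable def rho (k : I) (x : C₀(I, ℝ)) : ℝ := ⨆ j, max (|x j - pp y k j| - 1 / 4) 0

lemma bddD (k : I) (x : C₀(I, ℝ)) :
    BddAbove (range fun j => if j ≤ k then |x j - pp y k j| else 0) := by
  refine ⟨dist x (pp y k), ?_⟩
  rintro _ ⟨j, rfl⟩
  dsimp only
  split_ifs
  · exact abs_le_dist _ _ _
  · exact dist_nonneg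

lemma bddR (k : I) (x : C₀(I, ℝ)) :
    BddAbove (range fun j => max (|x j - pp y k j| - 1 / 4) 0) := by
  refine ⟨dist x (pp y k), ?_⟩
  rintro _ ⟨j, rfl⟩
  exact max_le (by linarith [abs_le_dist x (pp y k) j]) dist_nonneg

lemma le_DD {k j : I} (x : C₀(I, ℝ)) (h : j ≤ k) : |x j - pp y k j| ≤ DD y k x := by
  have := le_ciSup (bddD y k x) j
  rw [if_pos h] at this
  exact this

lemma DD_nonneg (k : I) (x : C₀(I, ℝ)) : 0 ≤ DD y k x := (abs_nonneg _).trans (le_DD y x le_rfl)

lemma le_rho (k j : I) (x : C₀(I, ℝ)) : |x j - pp y k j| - 1 / 4 ≤ rho y k x :=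
  (le_max_left _ _).trans (le_ciSup (bddR y k x) j)

lemma rho_nonneg (k : I) (x : C₀(I, ℝ)) : 0 ≤ rho y k x :=
  (le_max_right _ _).trans (le_ciSup (bddR y k x) k)

lemma DD_lip (k : I) (x x' : C₀(I, ℝ)) : |DD y k x - DD y k x'| ≤ dist x x' := by
  have : Nonempty I := ⟨k⟩
  have key : ∀ x x' : C₀(I, ℝ), DD y k x ≤ DD y k x' + dist x x' := fun x x' =>
    isup_le_add (bddD y k x') fun j => by
      split_ifs
      · have := abs_sub_le (x j) (x' j) (pp y k j)
        linarith [abs_le_dist x x' j]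
      · simp
  have h1 := key x x'
  have h2 := key x' x
  rw [dist_comm] at h2
  rw [abs_le]; constructor <;> linarith

lemma rho_lip (k : I) (x x' : C₀(I, ℝ)) : |rho y k x - rho y k x'| ≤ dist x x' := by
  have : Nonempty I := ⟨k⟩
  have key : ∀ x x' : C₀(I, ℝ), rho y k x ≤ rho y k x' + dist x x' := fun x x' =>
    isup_le_add (bddR y k x') fun j => by
      have := abs_sub_le (x j) (x' j) (pp y k j)
      have h2 := abs_le_dist x x' j
      have h3 := le_max_left (|x' j - pp y k j| - 1 / 4) 0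
      have h4 := le_max_right (|x' j - pp y k j| - 1 / 4) 0
      have h5 : 0 ≤ dist x x' := dist_nonneg
      apply max_le <;> linarith
  have h1 := key x x'
  have h2 := key x' x
  rw [dist_comm] at h2
  rw [abs_le]; constructor <;> linarith

/-- cut-off -/
noncomputable def eta (k : I) (x : C₀(I, ℝ)) : ℝ :=
  min (min 1 |x k|) (if A k then DD y k x else 1)

lemma eta_nonneg (k : I) (x : C₀(I, ℝ)) : 0 ≤ eta y A k x := by
  unfold eta
  refine le_min (le_min zero_le_one (abs_nonneg _)) ?_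
  split_ifs
  · exact DD_nonneg y k x
  · exact zero_le_one

lemma eta_le_one (k : I) (x : C₀(I, ℝ)) : eta y A k x ≤ 1 :=
  (min_le_left _ _).trans (min_le_left _ _)

lemma eta_zero {k : I} {x : C₀(I, ℝ)} (h : x k = 0) : eta y A k x = 0 := by
  refine le_antisymm ((min_le_left _ _).trans ((min_le_right _ _).trans ?_)) (eta_nonneg y A k x)
  simp [h]

lemma eta_lip (k : I) (x x' : C₀(I, ℝ)) : |eta y A k x - eta y A k x'| ≤ dist x x' := by
  unfold eta
  refine (abs_min_sub_min_le_max _ _ _ _).trans (max_le ?_ ?_)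
  · refine (abs_min_sub_min_le_max _ _ _ _).trans (max_le (by simp) ?_)
    exact (abs_abs_sub_abs_le _ _).trans (abs_le_dist _ _ _)
  · split_ifs
    · exact DD_lip y k x x'
    · simp

/-- base map -/
noncomputable def BB (x : C₀(I, ℝ)) (g : I × I × ℚ) : ℝ :=
  if g.2.1 ≤ g.1 then cl 0 (eta y A g.1 x) (cl 0 |x g.2.1| (x g.2.1 - g.2.2)) else 0

lemma BB_abs (x : C₀(I, ℝ)) (g : I × I × ℚ) : |BB y A x g| ≤ 1 := by
  unfold BB
  split_ifs
  · exact (cl_abs0 (eta_nonneg y A _ x)).trans (eta_le_one y A _ x)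
  · simp

lemma BB_lip (x x' : C₀(I, ℝ)) (g : I × I × ℚ) : |BB y A x g - BB y A x' g| ≤ dist x x' := by
  unfold BB
  split_ifs
  · refine cl_lip (eta_lip y A _ x x') (cl_lip ?_ ?_)
    · exact (abs_abs_sub_abs_le _ _).trans (abs_le_dist _ _ _)
    · rw [sub_sub_sub_cancel_right]; exact abs_le_dist _ _ _
  · simp

lemma BB_zero {x : C₀(I, ℝ)} {g : I × I × ℚ} (h : eta y A g.1 x = 0) : BB y A x g = 0 := by
  unfold BB
  split_ifs
  · rw [h, cl_zero]
  · rfl

lemma BB_zero' {x : C₀(I, ℝ)} {g : I × I × ℚ} (h : x g.2.1 = 0) : BB y A x g = 0 := by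
  unfold BB
  split_ifs
  · rw [h, abs_zero, cl_zero, cl00 (eta_nonneg y A _ x)]
  · rfl

/-- the region where the k-th clamp acts -/
def inB (x : C₀(I, ℝ)) (k : I) : Prop := A k ∧ rho y k x < rr y k

lemma inB_big {x : C₀(I, ℝ)} {k : I} (h : rho y k x < rr y k) : 9 * rr y k - 1 / 4 < x k := by
  have := le_rho y k k x
  simp only [pp, sing_apply, if_true] at this
  have h2 := neg_abs_le (x k - 10 * rr y k)
  linarith

lemma inB_small {x : C₀(I, ℝ)} {k j : I} (h : rho y k x < rr y k) (hj : j ≠ k) :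
    |x j| < rr y k + 1 / 4 := by
  have := le_rho y k j x
  simp only [pp, sing_apply, if_neg hj, sub_zero] at this
  linarith

lemma inB_uniq {x : C₀(I, ℝ)} {k k' : I} (h : rho y k x < rr y k) (h' : rho y k' x < rr y k') :
    k = k' := by
  by_contra hne
  have h1 := inB_big y h
  have h2 := inB_big y h'
  have h3 := inB_small y h (Ne.symm hne)
  have h4 := inB_small y h' hne
  have := le_abs_self (x k)
  have := le_abs_self (x k')
  have := two_le_rr y k
  have := two_le_rr y k'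
  linarith

/-- coordinates of the map -/
noncomputable def Uf (x : C₀(I, ℝ)) (g : I × I × ℚ) : ℝ :=
  if h : ∃ k, inB y A x k ∧ g.1 < k then cl (yv y h.choose g) (rho y h.choose x) (BB y A x g)
  else BB y A x g

lemma Uf_of {x : C₀(I, ℝ)} {g : I × I × ℚ} {k : I} (h : inB y A x k) (hg : g.1 < k) :
    Uf y A x g = cl (yv y k g) (rho y k x) (BB y A x g) := by
  have hex : ∃ k, inB y A x k ∧ g.1 < k := ⟨k, h, hg⟩
  unfold Uf
  rw [dif_pos hex, inB_uniq y hex.choose_spec.1.2 h.2]

lemma Uf_not {x : C₀(I, ℝ)} {g : I × I × ℚ} (h : ∀ k, inB y A x k → k ≤ g.1) :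
    Uf y A x g = BB y A x g := by
  unfold Uf
  rw [dif_neg]
  rintro ⟨k, hk, hg⟩
  exact absurd (h k hk) (not_le.2 hg)

lemma cl_out {x : C₀(I, ℝ)} {k : I} (g : I × I × ℚ) (h : ¬ rho y k x < rr y k) :
    cl (yv y k g) (rho y k x) (BB y A x g) = BB y A x g := by
  apply cl_eq
  have := abs_sub (BB y A x g) (yv y k g)
  linarith [BB_abs y A x g, yv_le y k g, not_lt.1 h]

lemma Uf_lip (x x' : C₀(I, ℝ)) (g : I × I × ℚ) : |Uf y A x g - Uf y A x' g| ≤ dist x x' := by
  have hn : ∀ x : C₀(I, ℝ), (¬ ∃ k, inB y A x k ∧ g.1 < k) → Uf y A x g = BB y A x g :=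
    fun x h => Uf_not y A fun k hk => not_lt.1 fun hg => h ⟨k, hk, hg⟩
  have key : ∀ x x' : C₀(I, ℝ), (∃ k, inB y A x k ∧ g.1 < k) →
      (¬ ∃ k, inB y A x' k ∧ g.1 < k) → |Uf y A x g - Uf y A x' g| ≤ dist x x' := by
    rintro x x' ⟨k, hk, hg⟩ h'
    rw [Uf_of y A hk hg, hn x' h', ← cl_out y A (x := x') (k := k) g fun h => h' ⟨k, ⟨hk.1, h⟩, hg⟩]
    exact cl_lip (rho_lip y k x x') (BB_lip y A x x' g)
  by_cases h : ∃ k, inB y A x k ∧ g.1 < k <;> by_cases h' : ∃ k, inB y A x' k ∧ g.1 < k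
  · obtain ⟨k, hk, hg⟩ := h
    obtain ⟨k', hk', hg'⟩ := h'
    rw [Uf_of y A hk hg, Uf_of y A hk' hg']
    by_cases hkk : k = k'
    · subst hkk
      exact cl_lip (rho_lip y k x x') (BB_lip y A x x' g)
    · have e1 : cl (yv y k' g) (rho y k' x) (BB y A x g) = BB y A x g :=
        cl_out y A g fun h => hkk (inB_uniq y hk.2 h)
      have e2 : cl (yv y k g) (rho y k x') (cl (yv y k' g) (rho y k' x') (BB y A x' g)) =
          cl (yv y k' g) (rho y k' x') (BB y A x' g) := by
        apply cl_eq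
        have a1 := cl_abs (c := yv y k' g) (v := BB y A x' g) (rho_nonneg y k' x')
        have a2 : max |yv y k' g| |BB y A x' g| ≤ rr y k' :=
          max_le (by linarith [yv_le y k' g]) (by linarith [BB_abs y A x' g, two_le_rr y k'])
        have a3 := abs_sub (cl (yv y k' g) (rho y k' x') (BB y A x' g)) (yv y k g)
        have a4 := yv_le y k g
        have b1 := le_rho y k k' x'
        have b2 := le_rho y k k x'
        simp only [pp, sing_apply, if_true, if_neg (Ne.symm hkk), sub_zero] at b1 b2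
        have c1 := inB_big y hk'.2
        have c2 := inB_small y hk'.2 hkk
        have := le_abs_self (x' k')
        have := neg_abs_le (x' k - 10 * rr y k)
        have := le_abs_self (x' k)
        have := two_le_rr y k
        have := two_le_rr y k'
        rcases le_total (rr y k) (rr y k') with h | h <;> linarith
      rw [← e2]
      conv_lhs => rw [← e1]
      exact cl_lip (rho_lip y k x x') (cl_lip (rho_lip y k' x x') (BB_lip y A x x' g))
  · exact key x x' h h'
  · rw [abs_sub_comm, dist_comm]; exact key x' x h' h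
  · rw [hn x h, hn x' h']; exact BB_lip y A x x' g

lemma Uf_zero (g : I × I × ℚ) : Uf y A 0 g = 0 := by
  rw [Uf_not y A, BB_zero' y A rfl]
  intro k hk
  have := inB_big y hk.2
  have := two_le_rr y k
  simp only [ZeroAtInftyContinuousMap.zero_apply] at *
  linarith

lemma Uf_supp (x : C₀(I, ℝ)) : {g | Uf y A x g ≠ 0}.Countable := by
  have h1 : {g | BB y A x g ≠ 0}.Countable := by
    refine ((supp_count x).prod ((supp_count x).prod (countable_univ (α := ℚ)))).mono ?_
    intro g hg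
    exact ⟨fun h => hg (BB_zero y A (eta_zero y A h)), fun h => hg (BB_zero' y A h), trivial⟩
  by_cases h : ∃ k, inB y A x k
  · obtain ⟨k, hk⟩ := h
    refine (h1.union (y k).2).mono fun g hg => ?_
    by_contra hc
    simp only [mem_union, mem_ofPred_eq, not_or, not_not] at hc
    apply hg
    by_cases hl : g.1 < k
    · rw [Uf_of y A hk hl, hc.1, show yv y k g = 0 from hc.2, cl00 (rho_nonneg y k x)]
    · rw [Uf_not y A, hc.1]
      intro k' hk'
      rw [inB_uniq y hk'.2 hk.2]; exact not_lt.1 hl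
  · refine h1.mono fun g hg => ?_
    rwa [mem_ofPred_eq, Uf_not y A fun k hk => absurd ⟨k, hk⟩ h] at hg

/-- the map -/
noncomputable def UU (x : C₀(I, ℝ)) : Ysub (I × I × ℚ) :=
  ⟨⟨Uf y A x, memℓp_infty ⟨dist x 0, by
    rintro _ ⟨g, rfl⟩
    have := Uf_lip y A x 0 g
    rw [Uf_zero, sub_zero] at this
    exact this⟩⟩, Uf_supp y A x⟩

lemma UU_lip (x x' : C₀(I, ℝ)) : dist (UU y A x) (UU y A x') ≤ dist x x' :=
  lp_dist_le _ _ dist_nonneg fun g => Uf_lip y A x x' g

lemma le_UU (x x' : C₀(I, ℝ)) (g : I × I × ℚ) :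
    |Uf y A x g - Uf y A x' g| ≤ dist (UU y A x) (UU y A x') :=
  lp_abs_le (UU y A x).1 (UU y A x').1 g

lemma UU_eq {x : C₀(I, ℝ)} {k : I} (h : ∀ g, Uf y A x g = yv y k g) : UU y A x = y k :=
  Subtype.ext (lp.ext (funext h))

lemma UU_eq' {x : C₀(I, ℝ)} {k : I} (h : UU y A x = y k) (g : I × I × ℚ) :
    Uf y A x g = yv y k g := by
  unfold yv; rw [← h]; rfl

end Pool.Agent.H96.MS
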