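import Pool.Agent.H96.MS2

set_option autoImplicit false
set_option linter.unusedSectionVars false
open scoped ZeroAtInfty ENNReal Classical
open Filter Topology Set

namespace Pool.Agent.H96.MS

variable {I : Type} [LinearOrder I] [TopologicalSpace I] [DiscreteTopology I]
variable (y : I → Ysub (I × I × ℚ)) (A : I → Prop)

lemma inB_one {x : C₀(I, ℝ)} {k : I} (h : inB y A x k) : 1 < x k := by
  have := inB_big y h.2
  have := two_le_rr y k
  linarith

/-- above the last large coordinate the map is the base map -/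
lemma Uf_high {x : C₀(I, ℝ)} {g : I × I × ℚ} (h : ∀ j, g.1 < j → |x j| ≤ 1) :
    Uf y A x g = BB y A x g :=
  Uf_not y A fun k hk => not_lt.1 fun hl => by
    have := h k hl
    have := inB_one y A hk
    have := le_abs_self (x k)
    linarith

lemma BB_diag {x : C₀(I, ℝ)} {j : I} (h : |x j| ≤ 1) : BB y A x (j, j, 0) = x j := by
  unfold BB
  simp only [le_refl, if_true, Rat.cast_zero, sub_zero]
  rw [cl_eq (c := 0) (r := |x j|) (by simp), cl_eq]
  rw [sub_zero]
  unfold eta
  refine le_min (le_min h le_rfl) ?_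
  split_ifs
  · have := le_DD y (k := j) (j := j) x le_rfl
    simp only [pp, sing_apply, if_true] at this
    have h2 := neg_abs_le (x j - 10 * rr y j)
    have := two_le_rr y j
    have := le_abs_self (x j)
    linarith
  · exact h

lemma eta_cases {k : I} {x : C₀(I, ℝ)} (hk : x k ≠ 0) :
    0 < eta y A k x ∨ (A k ∧ ∀ j, j ≤ k → x j = pp y k j) := by
  by_cases h : A k ∧ ∀ j, j ≤ k → x j = pp y k j
  · exact Or.inr h
  · left
    unfold eta
    refine lt_min (lt_min one_pos (abs_pos.2 hk)) ?_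
    split_ifs with hA
    · simp only [hA, true_and, not_forall] at h
      obtain ⟨j, hj, hne⟩ := h
      exact (abs_pos.2 (sub_ne_zero.2 hne)).trans_le (le_DD y x hj)
    · exact one_pos

lemma eta_pp {k : I} {x : C₀(I, ℝ)} (hA : A k) (h : ∀ j, j ≤ k → x j = pp y k j) :
    eta y A k x = 0 := by
  have : Nonempty I := ⟨k⟩
  refine le_antisymm ((min_le_right _ _).trans ?_) (eta_nonneg y A k x)
  rw [if_pos hA]
  refine ciSup_le fun j => ?_
  split_ifs with hj
  · simp [h j hj]
  · rfl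

theorem local_iso (x0 : C₀(I, ℝ)) : ∃ r : ℝ, 0 < r ∧ ∀ x ∈ Metric.ball x0 r,
    ∀ x' ∈ Metric.ball x0 r, dist (UU y A x) (UU y A x') = dist x x' := by
  suffices h : ∃ r : ℝ, 0 < r ∧ ∀ j, ∃ g : I × I × ℚ, ∃ c : ℝ, ∀ x ∈ Metric.ball x0 r,
      Uf y A x g = x j - c by
    obtain ⟨r, hr, h⟩ := h
    refine ⟨r, hr, fun x hx x' hx' => le_antisymm (UU_lip y A x x') (dist_le' _ _ dist_nonneg fun j => ?_)⟩
    obtain ⟨g, c, hg⟩ := h j
    have := le_UU y A x x' g
    rwa [hg x hx, hg x' hx', sub_sub_sub_cancel_right] at this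
  have near : ∀ r : ℝ, ∀ x ∈ Metric.ball x0 r, ∀ j, |x j - x0 j| < r := fun r x hx j =>
    (abs_le_dist x x0 j).trans_lt hx
  have near' : ∀ r : ℝ, ∀ x ∈ Metric.ball x0 r, ∀ j, |x j| < |x0 j| + r := fun r x hx j => by
    have := near r x hx j
    have := abs_sub_abs_le_abs_sub (x j) (x0 j)
    linarith
  have near'' : ∀ r : ℝ, ∀ x ∈ Metric.ball x0 r, ∀ j, |x0 j| < |x j| + r := fun r x hx j => by
    have := near r x hx j
    have := abs_sub_abs_le_abs_sub (x0 j) (x j)
    rw [abs_sub_comm] at this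
    linarith
  have high : ∀ r : ℝ, r ≤ 1 / 4 → ∀ j, (∀ i, j ≤ i → |x0 i| ≤ 1 / 2) → ∀ x ∈ Metric.ball x0 r,
      Uf y A x (j, j, 0) = x j - 0 := by
    intro r hr j hj x hx
    rw [Uf_high y A, BB_diag y A, sub_zero]
    · linarith [near' r x hx j, hj j le_rfl]
    · intro i hi
      linarith [near' r x hx i, hj i hi.le]
  have hF := fin_big x0 (ε := 1 / 2) (by norm_num)
  rcases eq_empty_or_nonempty {i | 1 / 2 < |x0 i|} with he | hne
  · refine ⟨1 / 4, by norm_num, fun j => ⟨(j, j, 0), 0, high _ le_rfl j fun i _ => ?_⟩⟩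
    by_contra h
    have : i ∈ {i | 1 / 2 < |x0 i|} := not_le.1 h
    rw [he] at this; exact this
  obtain ⟨k, hk, hmax⟩ := hF.exists_maximal hne
  have hk : 1 / 2 < |x0 k| := hk
  have hsm : ∀ i, k < i → |x0 i| ≤ 1 / 2 := fun i hi => not_lt.1 fun h => by
    have := hmax h hi.le
    exact absurd hi (not_lt.2 this)
  have lev : ∀ r : ℝ, r ≤ 1 / 4 → ∀ x ∈ Metric.ball x0 r, ∀ (j : I) (c : ℚ),
      Uf y A x (k, j, c) = BB y A x (k, j, c) := fun r hr x hx j c =>
    Uf_high y A fun i hi => by linarith [near' r x hx i, hsm i hi]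
  rcases eta_cases y A (k := k) (x := x0) (abs_pos.1 (by linarith)) with hpos | ⟨hA, hp⟩
  · set e := eta y A k x0 with he
    have he1 : e ≤ 1 := eta_le_one y A k x0
    refine ⟨e / 8, by positivity, fun j => ?_⟩
    rcases lt_or_ge k j with hj | hj
    · exact ⟨(j, j, 0), 0, high _ (by linarith) j fun i hi => hsm i (hj.trans_le hi)⟩
    have heta : ∀ x ∈ Metric.ball x0 (e / 8), 7 * e / 8 ≤ eta y A k x := fun x hx => by
      have := eta_lip y A k x x0
      have h2 : dist x x0 < e / 8 := hx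
      have := neg_abs_le (eta y A k x - eta y A k x0)
      linarith
    rcases le_or_gt |x0 j| (e / 2) with h | h
    · refine ⟨(k, j, 0), 0, fun x hx => ?_⟩
      rw [lev _ (by linarith) x hx]
      unfold BB
      simp only [hj, if_true, Rat.cast_zero, sub_zero]
      rw [cl_eq (c := 0) (r := |x j|) (by simp), cl_eq]
      rw [sub_zero]
      linarith [near' _ x hx j, heta x hx]
    · obtain ⟨c, hc1, hc2⟩ := exists_rat_btwn (show x0 j < x0 j + e / 8 by linarith)
      refine ⟨(k, j, c), c, fun x hx => ?_⟩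
      rw [lev _ (by linarith) x hx]
      unfold BB
      simp only [hj, if_true]
      have h1 := abs_lt.1 (near _ x hx j)
      have h2 : |x j - c| ≤ e / 4 := by rw [abs_le]; constructor <;> linarith
      rw [cl_eq (c := 0) (r := |x j|), cl_eq]
      · rw [sub_zero]; linarith [heta x hx]
      · rw [sub_zero]; linarith [near'' _ x hx j]
  · refine ⟨1 / 4, by norm_num, fun j => ?_⟩
    rcases lt_or_ge k j with hj | hj
    · exact ⟨(j, j, 0), 0, high _ le_rfl j fun i hi => hsm i (hj.trans_le hi)⟩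
    have hc : ∃ c : ℚ, (c : ℝ) = pp y k j ∧ ∀ x ∈ Metric.ball x0 (1 / 4), |x j - c| ≤ |x j| := by
      by_cases hjk : j = k
      · subst hjk
        refine ⟨(10 * (⌈‖y j‖⌉₊ + 2 : ℕ) : ℕ), ?_, fun x hx => ?_⟩
        · simp [pp, sing_apply, rr]
        · have h0 : (((10 * (⌈‖y j‖⌉₊ + 2 : ℕ) : ℕ) : ℚ) : ℝ) = x0 j := by
            rw [hp j le_rfl]; simp [pp, sing_apply, rr]
          rw [h0]
          linarith [near _ x hx j, near'' _ x hx j]
      · exact ⟨0, by simp [pp, sing_apply, hjk], fun x hx => by simp⟩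
    obtain ⟨c, hc, hc'⟩ := hc
    refine ⟨(k, j, c), c, fun x hx => ?_⟩
    rw [lev _ le_rfl x hx]
    unfold BB
    simp only [hj, if_true]
    rw [cl_eq (c := 0) (r := |x j|) (by rw [sub_zero]; exact hc' x hx), cl_eq]
    rw [sub_zero]
    have h1 : |x j - c| < 1 / 4 := by rw [hc, ← hp j hj]; exact near _ x hx j
    unfold eta
    refine le_min (le_min (by linarith) (by linarith [near'' _ x hx k])) ?_
    rw [if_pos hA, hc]
    exact le_DD y x hj

lemma Uf_low {x : C₀(I, ℝ)} {k : I} (hx : ∀ j, k ≤ j → x j = 0) {g : I × I × ℚ} (hg : k ≤ g.1) :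
    Uf y A x g = 0 := by
  rw [Uf_high y A fun j hj => by simp [hx j (hg.trans hj.le)]]
  exact BB_zero y A (eta_zero y A (hx _ hg))

lemma Uf_congr {A A' : I → Prop} {x x' : C₀(I, ℝ)} {k : I} (hA : ∀ j, j < k → (A j ↔ A' j))
    (hxx : ∀ j, j < k → x j = x' j) (hx : ∀ j, k ≤ j → |x j| ≤ 1 / 4)
    (hx' : ∀ j, k ≤ j → |x' j| ≤ 1 / 4) {g : I × I × ℚ} (hg : g.1 < k) :
    Uf y A x g = Uf y A' x' g := by
  have hB : BB y A x g = BB y A' x' g := by
    unfold BB
    split_ifs with h
    · have h1 : DD y g.1 x = DD y g.1 x' := by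
        unfold DD
        congr 1; funext j
        split_ifs with hj
        · rw [hxx j (hj.trans_lt hg)]
        · rfl
      unfold eta
      rw [h1, hxx _ hg, hxx _ (h.trans_lt hg), hA _ hg]
    · rfl
  have hr : ∀ k', k' < k → rho y k' x = rho y k' x' := by
    intro k' hk'
    unfold rho
    congr 1; funext j
    rcases lt_or_ge j k with hj | hj
    · rw [hxx j hj]
    · have : j ≠ k' := (hk'.trans_le hj).ne'
      simp only [pp, sing_apply, if_neg this, sub_zero]
      rw [max_eq_right (by linarith [hx j hj]), max_eq_right (by linarith [hx' j hj])]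
  have l1 : ∀ k', inB y A x k' → k' < k := fun k' h => not_le.1 fun hl => by
    linarith [hx k' hl, inB_one y A h, le_abs_self (x k')]
  have l2 : ∀ k', inB y A' x' k' → k' < k := fun k' h => not_le.1 fun hl => by
    linarith [hx' k' hl, inB_one y A' h, le_abs_self (x' k')]
  by_cases h : ∃ k', inB y A x k' ∧ g.1 < k'
  · obtain ⟨k', h1, h2⟩ := h
    have h3 : inB y A' x' k' := ⟨(hA _ (l1 _ h1)).1 h1.1, hr _ (l1 _ h1) ▸ h1.2⟩
    rw [Uf_of y A h1 h2, Uf_of y A' h3 h2, hB, hr _ (l1 _ h1)]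
  · rw [Uf_not y A fun k' hk' => not_lt.1 fun hl => h ⟨k', hk', hl⟩, Uf_not y A', hB]
    intro k' hk'
    refine not_lt.1 fun hl => h ⟨k', ⟨(hA _ (l2 _ hk')).2 hk'.1, ?_⟩, hl⟩
    rw [hr _ (l2 _ hk')]; exact hk'.2

/-- the defining property of the set of active indices -/
def Good : Prop := ∀ k, A k ↔ (∀ g : I × I × ℚ, k ≤ g.1 → yv y k g = 0) ∧
  ¬ ∃ x : C₀(I, ℝ), (∀ j, k ≤ j → x j = 0) ∧ UU y A x = y k

theorem exists_good [WellFoundedLT I] : ∃ A, Good y A := by
  let F : ∀ k : I, (∀ j, j < k → Prop) → Prop := fun k r =>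
    (∀ g : I × I × ℚ, k ≤ g.1 → yv y k g = 0) ∧
      ¬ ∃ x : C₀(I, ℝ), (∀ j, k ≤ j → x j = 0) ∧ UU y (fun j => ∃ h : j < k, r j h) x = y k
  let A : I → Prop := (wellFounded_lt (α := I)).fix F
  refine ⟨A, fun k => ?_⟩
  have h1 : A k = F k fun j _ => A j := WellFounded.fix_eq _ F k
  rw [h1]
  refine and_congr_right fun _ => not_congr (exists_congr fun x => and_congr_right fun hx => ?_)
  have : UU y (fun j => ∃ _ : j < k, A j) x = UU y A x := by
    refine Subtype.ext (lp.ext (funext fun g => ?_))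
    change Uf y _ x g = Uf y A x g
    rcases lt_or_ge g.1 k with hg | hg
    · exact Uf_congr y (k := k) (fun j hj => by simp [hj]) (fun _ _ => rfl)
        (fun j hj => by simp [hx j hj]) (fun j hj => by simp [hx j hj]) hg
    · rw [Uf_low y _ hx hg, Uf_low y _ hx hg]
  rw [this]

lemma Uf_pp {x : C₀(I, ℝ)} {k : I} (hA : A k) (h : ∀ j, j ≤ k → x j = pp y k j)
    (h' : ∀ j, k < j → |x j| ≤ 1 / 4) {g : I × I × ℚ} (hg : g.1 < k) : Uf y A x g = yv y k g := by
  have : Nonempty I := ⟨k⟩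
  have h0 : rho y k x = 0 := by
    refine le_antisymm (ciSup_le fun j => max_le ?_ le_rfl) (rho_nonneg y k x)
    rcases lt_or_ge k j with hj | hj
    · simp only [pp, sing_apply, if_neg hj.ne', sub_zero]
      linarith [h' j hj]
    · simp [h j hj]
  rw [Uf_of y A ⟨hA, by rw [h0]; linarith [two_le_rr y k]⟩ hg, h0, cl_zero]

theorem surj (hA : Good y A) (hy : ∀ v : Ysub (I × I × ℚ), ∃ k, y k = v ∧
    ∀ g : I × I × ℚ, k ≤ g.1 → yv y k g = 0) : Function.Surjective (UU y A) := by
  intro v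
  obtain ⟨k, rfl, hk⟩ := hy v
  by_cases h : A k
  · refine ⟨pp y k, UU_eq y A fun g => ?_⟩
    have hs : ∀ j, k < j → pp y k j = 0 := fun j hj => by simp [pp, sing_apply, hj.ne']
    rcases lt_trichotomy g.1 k with hg | hg | hg
    · exact Uf_pp y A h (fun _ _ => rfl) (fun j hj => by simp [hs j hj]) hg
    · rw [hk g hg.ge, Uf_high y A fun j hj => by simp [hs j (hg ▸ hj)]]
      exact BB_zero y A (by rw [hg]; exact eta_pp y A h fun _ _ => rfl)
    · rw [hk g hg.le, Uf_high y A fun j hj => by simp [hs j (hg.trans hj)]]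
      exact BB_zero y A (eta_zero y A (hs _ hg))
  · rw [hA k] at h
    simp only [not_and, not_not] at h
    obtain ⟨x, -, hx⟩ := h hk
    exact ⟨x, hx⟩

lemma BB_kk {x : C₀(I, ℝ)} {k : I} (h : 0 < eta y A k x) : BB y A x (k, k, 0) ≠ 0 := by
  have hk : x k ≠ 0 := fun h0 => by rw [eta_zero y A h0] at h; exact lt_irrefl _ h
  unfold BB
  simp only [le_refl, if_true, Rat.cast_zero, sub_zero]
  rw [cl_eq (c := 0) (r := |x k|) (by simp)]
  rcases lt_or_gt_of_ne hk with h1 | h1
  · exact (cl_neg h h1).ne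
  · exact (cl_pos h h1).ne'

lemma BB_sep {x x' : C₀(I, ℝ)} {k j : I} (h : 0 < eta y A k x) (h' : 0 < eta y A k x')
    (hj : j ≤ k) (hlt : x j < x' j) : ∃ c : ℚ, BB y A x (k, j, c) ≠ BB y A x' (k, j, c) := by
  obtain ⟨c, hc1, hc2⟩ := exists_rat_btwn hlt
  refine ⟨c, ?_⟩
  unfold BB
  simp only [hj, if_true]
  by_cases h0 : x j = 0
  · have h1 : 0 < |x' j| := abs_pos.2 (by linarith)
    exact ((cl_nonpos h.le (cl_nonpos (abs_nonneg _) (by linarith))).trans_lt
      (cl_pos h' (cl_pos h1 (by linarith)))).ne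
  · exact ((cl_neg h (cl_neg (abs_pos.2 h0) (by linarith))).trans_le
      (cl_nonneg h'.le (cl_nonneg (abs_nonneg _) (by linarith)))).ne

theorem inj (hA : Good y A) : Function.Injective (UU y A) := by
  intro x x' hU
  have hU : ∀ g, Uf y A x g = Uf y A x' g := fun g =>
    congrArg (fun v : Ysub (I × I × ℚ) => (v : lp (fun _ : I × I × ℚ => ℝ) ∞) g) hU
  have high : ∀ j, (∀ i, j ≤ i → |x i| ≤ 1 / 4 ∧ |x' i| ≤ 1 / 4) → x j = x' j := by
    intro j hj
    have := hU (j, j, 0)
    rwa [Uf_high y A fun i hi => by linarith [(hj i hi.le).1],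
      Uf_high y A fun i hi => by linarith [(hj i hi.le).2],
      BB_diag y A (by linarith [(hj j le_rfl).1]),
      BB_diag y A (by linarith [(hj j le_rfl).2])] at this
  have key : ∀ x x' : C₀(I, ℝ), (∀ g, Uf y A x g = Uf y A x' g) → ∀ k, 1 / 4 < |x k| →
      (∀ i, k < i → |x i| ≤ 1 / 4 ∧ |x' i| ≤ 1 / 4) → ∀ j, j ≤ k → x j = x' j := by
    intro x x' hU k hk hs j hj
    have hB : ∀ (j : I) (c : ℚ), BB y A x (k, j, c) = BB y A x' (k, j, c) := fun j c => by
      have := hU (k, j, c)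
      rwa [Uf_high y A fun i hi => by linarith [(hs i hi).1],
        Uf_high y A fun i hi => by linarith [(hs i hi).2]] at this
    rcases eta_cases y A (k := k) (x := x) (abs_pos.1 (by linarith)) with hpos | ⟨hAk, hp⟩
    · have hpos' : 0 < eta y A k x' := by
        refine (eta_nonneg y A k x').lt_of_ne' fun h0 => BB_kk y A hpos ?_
        rw [hB]; exact BB_zero y A h0
      rcases lt_trichotomy (x j) (x' j) with h | h | h
      · obtain ⟨c, hc⟩ := BB_sep y A hpos hpos' hj h
        exact absurd (hB j c) hc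
      · exact h
      · obtain ⟨c, hc⟩ := BB_sep y A hpos' hpos hj h
        exact absurd (hB j c).symm hc
    · have h0 : ¬ 0 < eta y A k x' := fun h => BB_kk y A h (by
        rw [← hB]; exact BB_zero y A (eta_pp y A hAk hp))
      by_cases hk' : x' k = 0
      · exfalso
        obtain ⟨h1, h2⟩ := (hA k).1 hAk
        have ht : ∀ j, k ≤ j → trunc k x' j = 0 := fun j hj => by simp [trunc_apply, not_lt.2 hj]
        refine h2 ⟨trunc k x', ht, UU_eq y A fun g => ?_⟩
        rcases lt_or_ge g.1 k with hg | hg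
        · rw [← Uf_pp y A hAk hp (fun i hi => (hs i hi).1) hg, hU]
          refine Uf_congr y (k := k) (fun _ _ => Iff.rfl) (fun i hi => by simp [trunc_apply, hi])
            (fun i hi => by simp [ht i hi]) (fun i hi => ?_) hg
          rcases hi.eq_or_lt with h | h
          · simp [← h, hk']
          · exact (hs i h).2
        · rw [Uf_low y A ht hg, h1 g hg]
      · rcases eta_cases y A (k := k) (x := x') hk' with h | ⟨-, hp'⟩
        · exact absurd h h0
        · rw [hp j hj, hp' j hj]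
  have hF := (fin_big x (ε := 1 / 4) (by norm_num)).union (fin_big x' (ε := 1 / 4) (by norm_num))
  ext j
  rcases eq_empty_or_nonempty ({i | 1 / 4 < |x i|} ∪ {i | 1 / 4 < |x' i|}) with he | hne
  · refine high j fun i _ => ?_
    have : i ∉ ({i | 1 / 4 < |x i|} ∪ {i | 1 / 4 < |x' i|}) := by rw [he]; exact notMem_empty _
    simpa using this
  obtain ⟨k, hk, hmax⟩ := hF.exists_maximal hne
  have hs : ∀ i, k < i → |x i| ≤ 1 / 4 ∧ |x' i| ≤ 1 / 4 := fun i hi => by
    have : i ∉ ({i | 1 / 4 < |x i|} ∪ {i | 1 / 4 < |x' i|}) := fun h =>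
      absurd hi (not_lt.2 (hmax h hi.le))
    simpa using this
  rcases lt_or_ge k j with hj | hj
  · exact high j fun i hi => hs i (hj.trans_le hi)
  rcases hk with hk | hk
  · exact key x x' hU k hk hs j hj
  · exact (key x' x (fun g => (hU g).symm) k hk (fun i hi => (hs i hi).symm) j hj).symm

theorem not_iso (j : I) : ¬ Isometry (UU y A) := by
  intro h
  have h1 := h.dist_eq (sing j (-5)) 0
  have h2 := abs_le_dist (sing j (-5)) 0 j
  have h3 : dist (UU y A (sing j (-5))) (UU y A 0) ≤ 1 := by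
    refine lp_dist_le _ _ zero_le_one fun g => ?_
    change |Uf y A _ g - Uf y A 0 g| ≤ 1
    rw [Uf_zero, sub_zero, Uf_not y A]
    · exact BB_abs y A _ g
    · intro k hk
      have := inB_one y A hk
      rw [sing_apply] at this
      split_ifs at this <;> linarith
  simp only [sing_apply, if_true, ZeroAtInftyContinuousMap.zero_apply] at h2
  rw [h1] at h3
  norm_num at h2 h3
  linarith

end Pool.Agent.H96.MS
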