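import Mathlib
import Pool.Agent.H71.Dual

/-! Characters on nilpotent groups: rigidity along cocompact subgroups. -/

namespace Pool.Agent.H96.NS

open Filter Topology Set
open scoped commutatorElement

set_option linter.unusedSectionVars false

lemma circ_one (z : Circle) (h : ∀ n : ℕ, 1 / 2 < ((z ^ n : Circle) : ℂ).re) : z = 1 := by
  by_contra hz
  have hz' : (z : ℂ) ≠ 1 := fun e => hz (Circle.ext (by simpa using e))
  have hpos : 0 < ‖(z : ℂ) - 1‖ := norm_pos_iff.2 (sub_ne_zero.2 hz')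
  obtain ⟨n, hn⟩ := exists_nat_gt (4 / ‖(z : ℂ) - 1‖)
  have h1 : (n : ℝ) / 2 ≤ (∑ i ∈ Finset.range n, (z : ℂ) ^ i).re := by
    rw [Complex.re_sum]
    have : (n : ℝ) / 2 = ∑ i ∈ Finset.range n, (1 / 2 : ℝ) := by simp; ring
    rw [this]
    exact Finset.sum_le_sum fun i _ => by simpa using (h i).le
  have h2 : ‖∑ i ∈ Finset.range n, (z : ℂ) ^ i‖ ≤ 2 / ‖(z : ℂ) - 1‖ := by
    rw [geom_sum_eq hz', norm_div]
    gcongr
    calc ‖(z : ℂ) ^ n - 1‖ ≤ ‖(z : ℂ) ^ n‖ + ‖(1 : ℂ)‖ := norm_sub_le _ _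
      _ = 2 := by simp; norm_num
  have h3 := (Complex.re_le_norm _).trans h2
  have h4 : 4 / ‖(z : ℂ) - 1‖ = 2 * (2 / ‖(z : ℂ) - 1‖) := by ring
  linarith

lemma circ_pow (z : Circle) (n : ℕ) (hn : 1 ≤ n) (h : (z : ℂ).re = Real.cos (Real.pi / n)) :
    ((z ^ n : Circle) : ℂ).re = -1 := by
  have hz : (z : ℂ) = Complex.exp (Complex.arg z * Complex.I) := by
    have := Complex.norm_mul_exp_arg_mul_I (z : ℂ)
    rw [Circle.norm_coe] at this
    simpa using this.symm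
  set φ := Complex.arg (z : ℂ) with hφ
  have hc : Real.cos |φ| = Real.cos (Real.pi / n) := by
    rw [Real.cos_abs, ← h, hz, Complex.exp_ofReal_mul_I_re]
  have hn' : (1 : ℝ) ≤ n := by exact_mod_cast hn
  have e : |φ| = Real.pi / n := by
    refine Real.injOn_cos ⟨abs_nonneg _, Complex.abs_arg_le_pi _⟩ ⟨by positivity, ?_⟩ hc
    exact div_le_self Real.pi_pos.le hn'
  have : ((z ^ n : Circle) : ℂ) = Complex.exp (((n * φ : ℝ) : ℂ) * Complex.I) := by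
    rw [Circle.coe_pow, hz, ← Complex.exp_nat_mul]; congr 1; push_cast; ring
  rw [this, Complex.exp_ofReal_mul_I_re, ← Real.cos_abs, abs_mul, Nat.abs_cast, e,
    mul_div_cancel₀ _ (by positivity), Real.cos_pi]

lemma circ_path (f : ℝ → Circle) (hf : Continuous f) (h0 : f 0 = 1) (h1 : f 1 ≠ 1) :
    ∃ t0, f t0 = 1 ∧ ∀ W ∈ 𝓝 t0, ∀ᶠ n : ℕ in atTop, ∃ t ∈ W, ((f t ^ n : Circle) : ℂ).re ≤ 1 / 2 := by
  have hcl : IsCompact (Icc (0 : ℝ) 1 ∩ f ⁻¹' {1}) :=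
    isCompact_Icc.inter_right (isClosed_singleton.preimage hf)
  obtain ⟨t0, ht0, hmax⟩ := hcl.exists_isGreatest ⟨0, by simp [h0]⟩
  have ht1 : t0 < 1 := lt_of_le_of_ne ht0.1.2 (fun e => h1 (e ▸ ht0.2))
  refine ⟨t0, ht0.2, fun W hW => ?_⟩
  obtain ⟨ε, hε, hb⟩ := Metric.mem_nhds_iff.1 hW
  set s := min 1 (t0 + ε / 2) with hs
  have hts : t0 < s := lt_min ht1 (by linarith)
  have hfs : f s ≠ 1 := fun e =>
    absurd (hmax ⟨⟨ht0.1.1.trans hts.le, min_le_left _ _⟩, e⟩) (not_le.2 hts)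
  have hre : ((f s : Circle) : ℂ).re < 1 := by
    have h1 : ((f s : Circle) : ℂ).re ≤ 1 := (Complex.re_le_norm _).trans (by simp)
    refine lt_of_le_of_ne h1 fun e => hfs ?_
    have h2 := Complex.normSq_apply ((f s : Circle) : ℂ)
    rw [Circle.normSq_coe, e] at h2
    have h3 : ((f s : Circle) : ℂ).im = 0 := by nlinarith
    exact Circle.ext (Complex.ext (by simpa using e) (by simpa using h3))
  have hlim : Tendsto (fun n : ℕ => Real.cos (Real.pi / n)) atTop (𝓝 1) := by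
    have := (Real.continuous_cos.tendsto 0).comp (tendsto_const_div_atTop_nhds_zero_nat Real.pi)
    rw [Real.cos_zero] at this
    exact this
  filter_upwards [hlim.eventually (lt_mem_nhds hre), eventually_ge_atTop 1] with n hn hn1
  have hc : ContinuousOn (fun t => ((f t : Circle) : ℂ).re) (Icc t0 s) := by fun_prop
  have hm : Real.cos (Real.pi / n) ∈ Icc (((f s : Circle) : ℂ).re) (((f t0 : Circle) : ℂ).re) := by
    refine ⟨hn.le, ?_⟩
    have : f t0 = 1 := ht0.2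
    rw [this]; simpa using Real.cos_le_one _
  obtain ⟨t, ht, hte⟩ := intermediate_value_Icc' hts.le hc hm
  refine ⟨t, hb ?_, ?_⟩
  · rw [Metric.mem_ball, Real.dist_eq, abs_lt]
    have := ht.2.trans (min_le_right _ _)
    constructor <;> linarith [ht.1]
  · rw [circ_pow _ n hn1 hte]; norm_num

variable {G : Type} [Group G]

/-- multiplicative on a subgroup -/
def Mu (S : Subgroup G) (θ : G → Circle) : Prop := ∀ x ∈ S, ∀ y ∈ S, θ (x * y) = θ x * θ y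

/-- invariant under conjugation on a subgroup -/
def Cj (S : Subgroup G) (θ : G → Circle) : Prop := ∀ g, ∀ x ∈ S, θ (g * x * g⁻¹) = θ x

lemma Mu.one {S : Subgroup G} {θ : G → Circle} (h : Mu S θ) : θ 1 = 1 := by
  have := h 1 S.one_mem 1 S.one_mem
  rw [one_mul] at this
  exact (mul_eq_left.1 this.symm)

lemma Mu.inv {S : Subgroup G} {θ : G → Circle} (h : Mu S θ) {x : G} (hx : x ∈ S) :
    θ x⁻¹ = (θ x)⁻¹ := by
  have := h x hx x⁻¹ (S.inv_mem hx)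
  rw [mul_inv_cancel, h.one] at this
  exact (eq_inv_of_mul_eq_one_right this.symm)

lemma Mu.pow {S : Subgroup G} {θ : G → Circle} (h : Mu S θ) {x : G} (hx : x ∈ S) (n : ℕ) :
    θ (x ^ n) = θ x ^ n := by
  induction n with
  | zero => simpa using h.one
  | succ n ih => rw [pow_succ, h _ (S.pow_mem hx n) _ hx, ih, pow_succ]

lemma Mu.mono {S S' : Subgroup G} {θ : G → Circle} (h : Mu S θ) (hS : S' ≤ S) : Mu S' θ :=
  fun x hx y hy => h x (hS hx) y (hS hy)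

lemma cm_mem {B : Subgroup G} {b : G} (hb : b ∈ B) (g : G) : ⁅b, g⁆ ∈ ⁅B, (⊤ : Subgroup G)⁆ :=
  Subgroup.commutator_mem_commutator hb (Subgroup.mem_top g)

lemma cm_le (B : Subgroup G) [B.Normal] : ⁅B, (⊤ : Subgroup G)⁆ ≤ B :=
  Subgroup.commutator_le_left B ⊤

lemma D_left {B : Subgroup G} [B.Normal] {θ : G → Circle} (hm : Mu ⁅B, ⊤⁆ θ) (hc : Cj ⁅B, ⊤⁆ θ)
    (g : G) : Mu B fun b => θ ⁅b, g⁆ := by
  intro x hx y hy
  have e : ⁅x * y, g⁆ = (x * ⁅y, g⁆ * x⁻¹) * ⁅x, g⁆ := by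
    simp only [commutatorElement_def]; group
  have hN : (⁅B, (⊤ : Subgroup G)⁆).Normal := inferInstance
  show θ _ = θ _ * θ _
  rw [e, hm _ (hN.conj_mem _ (cm_mem hy g) x) _ (cm_mem hx g), hc _ _ (cm_mem hy g), mul_comm]

lemma D_right {B : Subgroup G} [B.Normal] {θ : G → Circle} (hm : Mu ⁅B, ⊤⁆ θ) (hc : Cj ⁅B, ⊤⁆ θ)
    {b : G} (hb : b ∈ B) : Mu ⊤ fun g => θ ⁅b, g⁆ := by
  intro x _ y _
  have e : ⁅b, x * y⁆ = ⁅b, x⁆ * (x * ⁅b, y⁆ * x⁻¹) := by
    simp only [commutatorElement_def]; group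
  have hN : (⁅B, (⊤ : Subgroup G)⁆).Normal := inferInstance
  show θ _ = θ _ * θ _
  rw [e, hm _ (cm_mem hb x) _ (hN.conj_mem _ (cm_mem hb y) x), hc _ _ (cm_mem hb y)]

lemma D_cj {B : Subgroup G} [B.Normal] {θ : G → Circle} (hm : Mu ⁅B, ⊤⁆ θ) (hc : Cj ⁅B, ⊤⁆ θ)
    (g : G) : Cj B fun b => θ ⁅b, g⁆ := by
  intro u b hb
  have hN : (⁅B, (⊤ : Subgroup G)⁆).Normal := inferInstance
  have e : u * b * u⁻¹ = ⁅b, u⁆⁻¹ * b := by simp only [commutatorElement_def]; group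
  have hx : ⁅b, u⁆⁻¹ ∈ ⁅B, (⊤ : Subgroup G)⁆ := Subgroup.inv_mem _ (cm_mem hb u)
  have h1 := D_left hm hc g _ (cm_le B hx) b hb
  have h2 : θ ⁅⁅b, u⁆⁻¹, g⁆ = 1 := by
    have e2 : ⁅⁅b, u⁆⁻¹, g⁆ = ⁅b, u⁆⁻¹ * (g * ⁅b, u⁆ * g⁻¹) := by
      simp only [commutatorElement_def]; group
    rw [e2, hm _ hx _ (hN.conj_mem _ (cm_mem hb u) g), hc _ _ (cm_mem hb u),
      hm.inv (cm_mem hb u), inv_mul_cancel]
  show θ _ = θ _
  simp only at h1
  rw [e, h1, h2, one_mul]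

lemma triv_cm {B : Subgroup G} {θ : G → Circle} (hm : Mu ⁅B, ⊤⁆ θ)
    (h : ∀ b ∈ B, ∀ g, θ ⁅b, g⁆ = 1) : ∀ x ∈ ⁅B, (⊤ : Subgroup G)⁆, θ x = 1 := by
  intro x hx
  rw [Subgroup.commutator_def] at hx
  induction hx using Subgroup.closure_induction with
  | mem x hx => obtain ⟨b, hb, g, -, rfl⟩ := hx; exact h b hb g
  | one => exact hm.one
  | mul x y hx hy ihx ihy => rw [hm x hx y hy, ihx, ihy, one_mul]
  | inv x hx ih => rw [hm.inv hx, ih, inv_one]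

/-- the series N, [N,G], [[N,G],G], ... -/
def Hs (N : Subgroup G) : ℕ → Subgroup G
  | 0 => N
  | i + 1 => ⁅Hs N i, ⊤⁆

instance Hs_normal (N : Subgroup G) [N.Normal] (i : ℕ) : (Hs N i).Normal := by
  induction i with
  | zero => assumption
  | succ i ih => exact Subgroup.commutator_normal _ _

lemma Hs_bot [Group.IsNilpotent G] (N : Subgroup G) : ∃ s, Hs N s = ⊥ := by
  obtain ⟨s, hs⟩ := Subgroup.nilpotent_iff_lowerCentralSeries.1 (inferInstance : Group.IsNilpotent G)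
  have : ∀ i, Hs N i ≤ Subgroup.lowerCentralSeries (⊤ : Subgroup G) i := by
    intro i
    induction i with
    | zero => exact le_top
    | succ i ih => exact Subgroup.commutator_mono ih le_rfl
  exact ⟨s, le_bot_iff.1 (hs ▸ this s)⟩

variable [TopologicalSpace G] [IsTopologicalGroup G]

/-- every element is joined to 1 by a path inside the subgroup -/
def PC (S : Subgroup G) : Prop :=
  ∀ x ∈ S, ∃ γ : ℝ → G, Continuous γ ∧ γ 0 = 1 ∧ γ 1 = x ∧ ∀ t, γ t ∈ S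

lemma PC_Hs {N : Subgroup G} (h : PC N) (i : ℕ) : PC (Hs N i) := by
  induction i with
  | zero => exact h
  | succ i ih =>
    intro x hx
    change x ∈ ⁅Hs N i, (⊤ : Subgroup G)⁆ at hx
    change ∃ γ : ℝ → G, Continuous γ ∧ γ 0 = 1 ∧ γ 1 = x ∧ ∀ t, γ t ∈ ⁅Hs N i, (⊤ : Subgroup G)⁆
    have hx' := hx
    rw [Subgroup.commutator_def] at hx'
    clear hx
    induction hx' using Subgroup.closure_induction with
    | mem x hx =>
      obtain ⟨b, hb, g, -, rfl⟩ := hx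
      obtain ⟨γ, hγ, h0, h1, ht⟩ := ih b hb
      refine ⟨fun t => ⁅γ t, g⁆, ?_, by simp [h0], by simp [h1], fun t => cm_mem (ht t) g⟩
      simp only [commutatorElement_def]; fun_prop
    | one => exact ⟨fun _ => 1, continuous_const, rfl, rfl, fun _ => Subgroup.one_mem _⟩
    | mul x y _ _ ihx ihy =>
      obtain ⟨γ, hγ, h0, h1, ht⟩ := ihx
      obtain ⟨γ', hγ', h0', h1', ht'⟩ := ihy
      exact ⟨fun t => γ t * γ' t, by fun_prop, by simp [h0, h0'], by simp [h1, h1'],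
        fun t => Subgroup.mul_mem _ (ht t) (ht' t)⟩
    | inv x _ ih =>
      obtain ⟨γ, hγ, h0, h1, ht⟩ := ih
      exact ⟨fun t => (γ t)⁻¹, by fun_prop, by simp [h0], by simp [h1],
        fun t => Subgroup.inv_mem _ (ht t)⟩

lemma small_big {B : Subgroup G} (hB : PC B) {ψ : G → Circle} (hc : ContinuousOn ψ B)
    (hm : Mu B ψ) {b : G} (hb : b ∈ B) (h1 : ψ b ≠ 1) (W : Set G) (hW : W ∈ 𝓝 (1 : G)) :
    ∀ᶠ n : ℕ in atTop, ∃ g ∈ W, g ∈ B ∧ ((ψ g ^ n : Circle) : ℂ).re ≤ 1 / 2 := by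
  obtain ⟨γ, hγ, h0, hγ1, ht⟩ := hB b hb
  obtain ⟨t0, ht0, H⟩ := circ_path (fun t => ψ (γ t)) (hc.comp_continuous hγ ht)
    (by simp only [h0]; exact hm.one) (by simpa only [hγ1] using h1)
  have hcont : Continuous fun t => γ t * (γ t0)⁻¹ := by fun_prop
  have hW' : (fun t => γ t * (γ t0)⁻¹) ⁻¹' W ∈ 𝓝 t0 :=
    hcont.continuousAt.preimage_mem_nhds (by simpa using hW)
  filter_upwards [H _ hW'] with n ⟨t, ht1, ht2⟩
  refine ⟨_, ht1, B.mul_mem (ht t) (B.inv_mem (ht t0)), ?_⟩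
  rwa [hm _ (ht t) _ (B.inv_mem (ht t0)), hm.inv (ht t0), ht0, inv_one, mul_one]

/-- cocompactness of `Δ` inside `S` -/
def Cc (S Δ : Subgroup G) : Prop :=
  ∃ K : Set G, IsCompact K ∧ K ⊆ S ∧ ∀ s ∈ S, ∃ κ ∈ K, κ⁻¹ * s ∈ Δ

lemma Cc.mono {S Δ Δ' : Subgroup G} (h : Cc S Δ) (hd : Δ ≤ Δ') : Cc S Δ' := by
  obtain ⟨K, h1, h2, h3⟩ := h
  exact ⟨K, h1, h2, fun s hs => (h3 s hs).imp fun κ hκ => ⟨hκ.1, hd hκ.2⟩⟩

lemma Cc.op {Δ : Subgroup G} (h : Cc ⊤ Δ) (S : Subgroup G) (hS : IsOpen (S : Set G)) : Cc S Δ := by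
  obtain ⟨K, hK, -, h3⟩ := h
  let O : Δ → Set G := fun δ => {x | x * (δ : G)⁻¹ ∈ S}
  have hO : ∀ δ, IsOpen (O δ) := fun δ => hS.preimage (continuous_mul_const _)
  have hcl : IsClosed (⋃ δ, O δ) := by
    rw [← isOpen_compl_iff, isOpen_iff_forall_mem_open]
    intro x hx
    refine ⟨{y | y * x⁻¹ ∈ S}, fun y hy hy' => hx ?_, hS.preimage (continuous_mul_const _), by simp⟩
    obtain ⟨δ, hδ⟩ := mem_iUnion.1 hy'
    refine mem_iUnion.2 ⟨δ, ?_⟩
    have := S.mul_mem (S.inv_mem hy) hδ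
    simpa [O, mul_assoc] using this
  obtain ⟨t, ht⟩ := (hK.inter_right hcl).elim_finite_subcover O hO inter_subset_right
  refine ⟨⋃ δ ∈ t, ((fun x => x * (δ : G)⁻¹) '' K ∩ S), ?_, ?_, ?_⟩
  · exact t.isCompact_biUnion fun δ _ =>
      (hK.image (continuous_mul_const _)).inter_right (S.isClosed_of_isOpen hS)
  · exact iUnion₂_subset fun δ _ => inter_subset_right
  · intro s hs
    obtain ⟨κ, hκ, hκs⟩ := h3 s trivial
    have : κ ∈ K ∩ ⋃ δ, O δ := ⟨hκ, mem_iUnion.2 ⟨⟨(κ⁻¹ * s)⁻¹, Δ.inv_mem hκs⟩, by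
      simpa [O] using hs⟩⟩
    obtain ⟨δ, hδ, hκδ⟩ := mem_iUnion₂.1 (ht this)
    refine ⟨κ * (δ : G)⁻¹, mem_iUnion₂.2 ⟨δ, hδ, ⟨κ, hκ, rfl⟩, hκδ⟩, ?_⟩
    have := Δ.mul_mem δ.2 hκs
    simpa [mul_assoc] using this

lemma rigid {T : Type} [TopologicalSpace T] [PreconnectedSpace T] {S Δ : Subgroup G} (hK : Cc S Δ)
    (θ : T → G → Circle) (hc : ContinuousOn (fun p : T × G => θ p.1 p.2) (univ ×ˢ (S : Set G)))
    (hm : ∀ t, Mu S (θ t)) (hΔ : ∀ t, ∀ x ∈ S, x ∈ Δ → θ t x = 1) (t0 : T)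
    (h0 : ∀ x ∈ S, θ t0 x = 1) : ∀ t, ∀ x ∈ S, θ t x = 1 := by
  obtain ⟨K, hK, hKS, h3⟩ := hK
  have hcl : IsClopen {t | ∀ x ∈ S, θ t x = 1} := by
    constructor
    · have : {t | ∀ x ∈ S, θ t x = 1} = ⋂ x ∈ S, (fun t => θ t x) ⁻¹' {1} := by ext; simp
      rw [this]
      refine isClosed_biInter fun x hx => isClosed_singleton.preimage ?_
      exact hc.comp_continuous (f := fun t : T => (t, x)) (by fun_prop) fun t => ⟨trivial, hx⟩
    · rw [isOpen_iff_mem_nhds]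
      intro t1 ht1
      have : CompactSpace K := isCompact_iff_compactSpace.1 hK
      have hc' : Continuous fun p : T × K => ((θ p.1 p.2 : Circle) : ℂ).re := by
        have : Continuous fun p : T × K => θ p.1 p.2 :=
          hc.comp_continuous (f := fun p : T × K => (p.1, (p.2 : G))) (by fun_prop)
            fun p => ⟨trivial, hKS p.2.2⟩
        exact Complex.continuous_re.comp (continuous_subtype_val.comp this)
      have hev : ∀ᶠ t in 𝓝 t1, ∀ κ ∈ (univ : Set K), 1 / 2 < ((θ t κ : Circle) : ℂ).re := by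
        refine isCompact_univ.eventually_forall_of_forall_eventually fun κ _ => ?_
        refine hc'.continuousAt.eventually (lt_mem_nhds ?_)
        have := ht1 κ (hKS κ.2)
        simp only [this]; norm_num
      filter_upwards [hev] with t ht x hx
      refine circ_one _ fun n => ?_
      rw [← (hm t).pow hx]
      obtain ⟨κ, hκ, hκs⟩ := h3 _ (S.pow_mem hx n)
      have hs : κ⁻¹ * x ^ n ∈ S := S.mul_mem (S.inv_mem (hKS hκ)) (S.pow_mem hx n)
      have : θ t (x ^ n) = θ t κ := by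
        have := hm t κ (hKS hκ) _ hs
        rwa [mul_inv_cancel_left, hΔ t _ hs hκs, mul_one] at this
      rw [this]
      exact ht ⟨κ, hκ⟩ trivial
  have := hcl.eq_univ ⟨t0, h0⟩
  intro t
  exact (this ▸ mem_univ t : t ∈ {t | ∀ x ∈ S, θ t x = 1})

lemma rigid_Hs {T : Type} [TopologicalSpace T] [PreconnectedSpace T] {N Δ : Subgroup G} [N.Normal]
    (hK : Cc ⊤ Δ) (hN : Cc N Δ) (t0 : T) (i : ℕ) : ∀ (θ : T → G → Circle),
    ContinuousOn (fun p : T × G => θ p.1 p.2) (univ ×ˢ (Hs N i : Set G)) →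
    (∀ t, Mu (Hs N i) (θ t)) → (∀ t, Cj (Hs N i) (θ t)) →
    (∀ t, ∀ x ∈ Hs N i, x ∈ Δ → θ t x = 1) → (∀ x ∈ Hs N i, θ t0 x = 1) →
    ∀ t, ∀ x ∈ Hs N i, θ t x = 1 := by
  induction i with
  | zero => intro θ hc hm _ hΔ h0; exact rigid hN θ hc hm hΔ t0 h0
  | succ i ih =>
    intro θ hc hm hj hΔ h0 t
    have h1 : ∀ δ ∈ Δ, ∀ t, ∀ b ∈ Hs N i, θ t ⁅b, δ⁆ = 1 := by
      intro δ hδ
      refine ih (fun t b => θ t ⁅b, δ⁆) ?_ (fun t => D_left (hm t) (hj t) δ)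
        (fun t => D_cj (hm t) (hj t) δ) (fun t x hx hxd => hΔ t _ (cm_mem hx δ) ?_)
        (fun x hx => h0 _ (cm_mem hx δ))
      · refine hc.comp (f := fun p : T × G => (p.1, ⁅p.2, δ⁆)) ?_ fun p hp => ⟨trivial, cm_mem hp.2 δ⟩
        simp only [commutatorElement_def]; fun_prop
      · rw [commutatorElement_def]
        exact Δ.mul_mem (Δ.mul_mem (Δ.mul_mem hxd hδ) (Δ.inv_mem hxd)) (Δ.inv_mem hδ)
    refine triv_cm (hm t) fun b hb g => ?_
    refine rigid hK (fun t g => θ t ⁅b, g⁆) ?_ (fun t => D_right (hm t) (hj t) hb)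
      (fun t x _ hx => h1 x hx t b hb) t0 (fun x _ => h0 _ (cm_mem hb x)) t g trivial
    refine hc.comp (f := fun p : T × G => (p.1, ⁅b, p.2⁆)) ?_ fun p _ => ⟨trivial, cm_mem hb _⟩
    simp only [commutatorElement_def]; fun_prop

lemma exchar {Δ H : Subgroup G} (hΔ : IsClosed (Δ : Set G)) (hK : Cc ⊤ Δ)
    (hc : ∀ h ∈ H, ∀ g, ⁅h, g⁆ ∈ Δ) {h : G} (hh : h ∈ H) (hn : h ∉ Δ) :
    ∃ P : Subgroup G, IsClosed (P : Set G) ∧ H ≤ P ∧ Δ ≤ P ∧ ∃ χ : G → Circle,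
      ContinuousOn χ P ∧ Mu P χ ∧ (∀ x ∈ Δ, χ x = 1) ∧ χ h ≠ 1 := by
  classical
  let Nn : Set G := {x | ∀ δ ∈ Δ, x * δ * x⁻¹ ∈ Δ ∧ x⁻¹ * δ * x ∈ Δ}
  let P : Subgroup G :=
    { carrier := {x | x ∈ Nn ∧ ∀ y ∈ Nn, ⁅x, y⁆ ∈ Δ}
      one_mem' := ⟨fun δ hδ => by simpa using hδ, fun y _ => by simp⟩
      mul_mem' := by
        rintro x y ⟨hx, hx'⟩ ⟨hy, hy'⟩
        refine ⟨fun δ hδ => ⟨?_, ?_⟩, fun z hz => ?_⟩
        · have := (hx _ (hy δ hδ).1).1; simpa [mul_assoc] using this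
        · have := (hy _ (hx δ hδ).2).2; simpa [mul_assoc] using this
        · have e : ⁅x * y, z⁆ = (x * ⁅y, z⁆ * x⁻¹) * ⁅x, z⁆ := by
            simp only [commutatorElement_def]; group
          rw [e]; exact Δ.mul_mem (hx _ (hy' z hz)).1 (hx' z hz)
      inv_mem' := by
        rintro x ⟨hx, hx'⟩
        refine ⟨fun δ hδ => ⟨by simpa using (hx δ hδ).2, by simpa using (hx δ hδ).1⟩, fun z hz => ?_⟩
        have e : ⁅x⁻¹, z⁆ = x⁻¹ * ⁅x, z⁆⁻¹ * x := by simp only [commutatorElement_def]; group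
        rw [e]; exact (hx _ (Δ.inv_mem (hx' z hz))).2 }
  have hPc : IsClosed (P : Set G) := by
    have : (P : Set G) = (⋂ δ ∈ Δ, ((fun x => x * δ * x⁻¹) ⁻¹' Δ ∩ (fun x => x⁻¹ * δ * x) ⁻¹' Δ)) ∩
        ⋂ y ∈ Nn, (fun x => x * y * x⁻¹ * y⁻¹) ⁻¹' Δ := by
      ext x; simp [P, Nn, commutatorElement_def]
    rw [this]
    refine (isClosed_biInter fun δ _ => (hΔ.preimage (by fun_prop)).inter
      (hΔ.preimage (by fun_prop))).inter (isClosed_biInter fun y _ => hΔ.preimage (by fun_prop))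
  have hHP : H ≤ P := by
    intro x hx
    refine ⟨fun δ hδ => ⟨?_, ?_⟩, fun y _ => hc x hx y⟩
    · have := Δ.mul_mem (hc x hx δ) hδ
      simpa [commutatorElement_def, mul_assoc] using this
    · have := Δ.mul_mem (hc _ (H.inv_mem hx) δ) hδ
      simpa [commutatorElement_def, mul_assoc] using this
  have hΔP : Δ ≤ P := by
    intro x hx
    refine ⟨fun δ hδ => ⟨Δ.mul_mem (Δ.mul_mem hx hδ) (Δ.inv_mem hx),
      Δ.mul_mem (Δ.mul_mem (Δ.inv_mem hx) hδ) hx⟩, fun y hy => ?_⟩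
    have := Δ.mul_mem hx (hy _ (Δ.inv_mem hx)).1
    simpa [commutatorElement_def, mul_assoc] using this
  let D : Subgroup P := Δ.subgroupOf P
  have hD : D.Normal := ⟨fun n hn g => by
    have := (g.2.1 _ (Subgroup.mem_subgroupOf.1 hn)).1
    exact Subgroup.mem_subgroupOf.2 (by simpa using this)⟩
  have : IsClosed (D : Set P) := hΔ.preimage continuous_subtype_val
  let : CommGroup (P ⧸ D) :=
    { (inferInstance : Group (P ⧸ D)) with
      mul_comm := by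
        intro a b
        obtain ⟨x, rfl⟩ := QuotientGroup.mk_surjective a
        obtain ⟨y, rfl⟩ := QuotientGroup.mk_surjective b
        rw [← QuotientGroup.mk_mul, ← QuotientGroup.mk_mul, QuotientGroup.eq]
        have := (y⁻¹).2.2 _ (x⁻¹).2.1
        exact Subgroup.mem_subgroupOf.2 (by simpa [commutatorElement_def, mul_assoc] using this) }
  have : CompactSpace (P ⧸ D) := by
    obtain ⟨K, hK, -, h3⟩ := hK
    have h1 : IsCompact ((↑) ⁻¹' K : Set P) := hPc.isClosedEmbedding_subtypeVal.isCompact_preimage hK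
    refine ⟨?_⟩
    have h2 := h1.image (QuotientGroup.continuous_mk (N := D))
    convert h2 using 1
    symm
    rw [eq_univ_iff_forall]
    intro a
    obtain ⟨x, rfl⟩ := QuotientGroup.mk_surjective a
    obtain ⟨κ, hκ, hκx⟩ := h3 x trivial
    have hκP : κ ∈ P := by
      have := P.mul_mem x.2 (P.inv_mem (hΔP hκx))
      simpa using this
    exact ⟨⟨κ, hκP⟩, hκ, QuotientGroup.eq.2 (Subgroup.mem_subgroupOf.2 hκx)⟩
  have hx : ((⟨h, hHP hh⟩ : P) : P ⧸ D) ≠ 1 := fun e =>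
    hn (Subgroup.mem_subgroupOf.1 ((QuotientGroup.eq_one_iff _).1 e))
  obtain ⟨χ, hχ⟩ := Pool.Agent.H71.Dual.sepChar hx
  refine ⟨P, hPc, hHP, hΔP, fun x => if hx : x ∈ P then χ ((⟨x, hx⟩ : P) : P ⧸ D) else 1, ?_, ?_,
    ?_, ?_⟩
  · rw [continuousOn_iff_continuous_domRestrict]
    have : Continuous fun x : P => χ (x : P ⧸ D) := χ.continuous.comp QuotientGroup.continuous_mk
    refine this.congr fun x => ?_
    have hx : (x : G) ∈ P := x.2
    simp [Set.domRestrict, hx]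
  · intro x hx y hy
    simp only [hx, hy, P.mul_mem hx hy, dif_pos]
    rw [← map_mul, ← QuotientGroup.mk_mul]; rfl
  · intro x hx
    simp only [hΔP hx, dif_pos]
    rw [(QuotientGroup.eq_one_iff _).2 (Subgroup.mem_subgroupOf.2 hx), map_one]
  · simpa only [hHP hh, dif_pos] using hχ

end Pool.Agent.H96.NS
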