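import Mathlib
import Pool.Agent.H96.NS1

/-! Rationality of the closed lower central series along a cocompact subgroup. -/

namespace Pool.Agent.H96.NI

open Filter Topology Set Pool.Agent.H96.NS
open scoped commutatorElement Pointwise

set_option linter.unusedSectionVars false

section alg
variable {G : Type} [Group G] {B : Type} [CommGroup B]

/-- multiplicative on a subgroup -/
def Mu (S : Subgroup G) (θ : G → B) : Prop := ∀ x ∈ S, ∀ y ∈ S, θ (x * y) = θ x * θ y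

/-- invariant under conjugation on a subgroup -/
def Cj (S : Subgroup G) (θ : G → B) : Prop := ∀ g, ∀ x ∈ S, θ (g * x * g⁻¹) = θ x

lemma Mu.one {S : Subgroup G} {θ : G → B} (h : Mu S θ) : θ 1 = 1 := by
  have := h 1 S.one_mem 1 S.one_mem
  rw [one_mul] at this
  exact (mul_eq_left.1 this.symm)

lemma Mu.inv {S : Subgroup G} {θ : G → B} (h : Mu S θ) {x : G} (hx : x ∈ S) :
    θ x⁻¹ = (θ x)⁻¹ := by
  have := h x hx x⁻¹ (S.inv_mem hx)
  rw [mul_inv_cancel, h.one] at this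
  exact (eq_inv_of_mul_eq_one_right this.symm)

lemma Mu.pow {S : Subgroup G} {θ : G → B} (h : Mu S θ) {x : G} (hx : x ∈ S) (n : ℕ) :
    θ (x ^ n) = θ x ^ n := by
  induction n with
  | zero => simpa using h.one
  | succ n ih => rw [pow_succ, h _ (S.pow_mem hx n) _ hx, ih, pow_succ]

lemma Mu.mono {S S' : Subgroup G} {θ : G → B} (h : Mu S θ) (hS : S' ≤ S) : Mu S' θ :=
  fun x hx y hy => h x (hS hx) y (hS hy)

lemma D_left {A : Subgroup G} [A.Normal] {θ : G → B} (hm : Mu ⁅A, ⊤⁆ θ) (hc : Cj ⁅A, ⊤⁆ θ)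
    (g : G) : Mu A fun b => θ ⁅b, g⁆ := by
  intro x hx y hy
  have e : ⁅x * y, g⁆ = (x * ⁅y, g⁆ * x⁻¹) * ⁅x, g⁆ := by
    simp only [commutatorElement_def]; group
  have hN : (⁅A, (⊤ : Subgroup G)⁆).Normal := inferInstance
  show θ _ = θ _ * θ _
  rw [e, hm _ (hN.conj_mem _ (cm_mem hy g) x) _ (cm_mem hx g), hc _ _ (cm_mem hy g), mul_comm]

lemma D_right {A : Subgroup G} [A.Normal] {θ : G → B} (hm : Mu ⁅A, ⊤⁆ θ) (hc : Cj ⁅A, ⊤⁆ θ)
    {b : G} (hb : b ∈ A) : Mu ⊤ fun g => θ ⁅b, g⁆ := by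
  intro x _ y _
  have e : ⁅b, x * y⁆ = ⁅b, x⁆ * (x * ⁅b, y⁆ * x⁻¹) := by
    simp only [commutatorElement_def]; group
  have hN : (⁅A, (⊤ : Subgroup G)⁆).Normal := inferInstance
  show θ _ = θ _ * θ _
  rw [e, hm _ (cm_mem hb x) _ (hN.conj_mem _ (cm_mem hb y) x), hc _ _ (cm_mem hb y)]

lemma D_cj {A : Subgroup G} [A.Normal] {θ : G → B} (hm : Mu ⁅A, ⊤⁆ θ) (hc : Cj ⁅A, ⊤⁆ θ)
    (g : G) : Cj A fun b => θ ⁅b, g⁆ := by
  intro u b hb
  have hN : (⁅A, (⊤ : Subgroup G)⁆).Normal := inferInstance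
  have e : u * b * u⁻¹ = ⁅b, u⁆⁻¹ * b := by simp only [commutatorElement_def]; group
  have hx : ⁅b, u⁆⁻¹ ∈ ⁅A, (⊤ : Subgroup G)⁆ := Subgroup.inv_mem _ (cm_mem hb u)
  have h1 := D_left hm hc g _ (cm_le A hx) b hb
  have h2 : θ ⁅⁅b, u⁆⁻¹, g⁆ = 1 := by
    have e2 : ⁅⁅b, u⁆⁻¹, g⁆ = ⁅b, u⁆⁻¹ * (g * ⁅b, u⁆ * g⁻¹) := by
      simp only [commutatorElement_def]; group
    rw [e2, hm _ hx _ (hN.conj_mem _ (cm_mem hb u) g), hc _ _ (cm_mem hb u),
      hm.inv (cm_mem hb u), inv_mul_cancel]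
  show θ _ = θ _
  simp only at h1
  rw [e, h1, h2, one_mul]

lemma Mu.gen {C : Set G} {θ : G → B} (hm : Mu (Subgroup.closure C) θ) (H : Subgroup B)
    (h : ∀ c ∈ C, θ c ∈ H) : ∀ x ∈ Subgroup.closure C, θ x ∈ H := by
  intro x hx
  induction hx using Subgroup.closure_induction with
  | mem x hx => exact h x hx
  | one => rw [hm.one]; exact H.one_mem
  | mul x y hx hy ihx ihy => rw [hm x hx y hy]; exact H.mul_mem ihx ihy
  | inv x hx ih => rw [hm.inv hx]; exact H.inv_mem ih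

lemma in_cm {A : Subgroup G} {θ : G → B} (hm : Mu ⁅A, ⊤⁆ θ) (H : Subgroup B)
    (h : ∀ b ∈ A, ∀ g, θ ⁅b, g⁆ ∈ H) : ∀ x ∈ ⁅A, (⊤ : Subgroup G)⁆, θ x ∈ H := by
  rw [Subgroup.commutator_def] at hm ⊢
  refine hm.gen H ?_
  rintro _ ⟨b, hb, g, -, rfl⟩
  exact h b hb g

lemma exQ (S Δ : Subgroup G) (h : ∀ x ∈ S, ∀ y ∈ S, ⁅x, y⁆ ∈ Δ) :
    ∃ (B : Type) (_ : CommGroup B) (θ : G → B), Mu S θ ∧ (∀ x ∈ S, (θ x = 1 ↔ x ∈ Δ)) ∧
      ∀ b, ∃ x ∈ S, θ x = b := by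
  classical
  let D : Subgroup S := Δ.subgroupOf S
  have hD : D.Normal := ⟨fun n hn g => by
    have := Δ.mul_mem (h g g.2 n n.2) (Subgroup.mem_subgroupOf.1 hn)
    exact Subgroup.mem_subgroupOf.2 (by simpa [commutatorElement_def, mul_assoc] using this)⟩
  let i : CommGroup (S ⧸ D) :=
    { (inferInstance : Group (S ⧸ D)) with
      mul_comm := by
        intro a b
        obtain ⟨x, rfl⟩ := QuotientGroup.mk_surjective a
        obtain ⟨y, rfl⟩ := QuotientGroup.mk_surjective b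
        rw [← QuotientGroup.mk_mul, ← QuotientGroup.mk_mul, QuotientGroup.eq]
        have := h _ (y⁻¹).2 _ (x⁻¹).2
        exact Subgroup.mem_subgroupOf.2 (by simpa [commutatorElement_def, mul_assoc] using this) }
  refine ⟨S ⧸ D, i, fun x => if hx : x ∈ S then ((⟨x, hx⟩ : S) : S ⧸ D) else 1, ?_, ?_, ?_⟩
  · intro x hx y hy
    simp only [hx, hy, S.mul_mem hx hy, dif_pos]
    rfl
  · intro x hx
    simp only [hx, dif_pos]
    exact (QuotientGroup.eq_one_iff _).trans Subgroup.mem_subgroupOf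
  · intro b
    obtain ⟨x, rfl⟩ := QuotientGroup.mk_surjective b
    exact ⟨x, x.2, by simp only [x.2, dif_pos]⟩

lemma three {H₁ H₂ H₃ N : Subgroup G} [N.Normal] (h1 : ⁅⁅H₂, H₃⁆, H₁⁆ ≤ N)
    (h2 : ⁅⁅H₃, H₁⁆, H₂⁆ ≤ N) : ⁅⁅H₁, H₂⁆, H₃⁆ ≤ N := by
  rw [← QuotientGroup.ker_mk' N, ← Subgroup.map_eq_bot_iff, Subgroup.map_commutator,
    Subgroup.map_commutator] at h1 h2 ⊢
  exact Subgroup.commutator_commutator_eq_bot_of_rotate h1 h2

lemma Hs_cm (j : ℕ) : ∀ i, ⁅Hs (⊤ : Subgroup G) i, Hs (⊤ : Subgroup G) j⁆ ≤ Hs ⊤ (i + j + 1) := by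
  induction j with
  | zero => intro i; exact le_rfl
  | succ j ih =>
    intro i
    rw [Subgroup.commutator_comm]
    refine three (H₁ := Hs ⊤ j) (H₂ := ⊤) ?_ ?_
    · rw [Subgroup.commutator_comm ⊤]
      have := ih (i + 1)
      rwa [show i + 1 + j + 1 = i + (j + 1) + 1 by ring] at this
    · exact Subgroup.commutator_mono (ih i) le_rfl

/-- elements of sublinear growth for a length function -/
def Nsub (l : B → ℕ) (h1 : ∀ x y, l (x * y) ≤ l x + l y) (h2 : ∀ x, l x⁻¹ = l x) (h0 : l 1 = 0) :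
    Subgroup B where
  carrier := {b | ∀ q : ℕ, ∃ n, 1 ≤ n ∧ q * l (b ^ n) ≤ n}
  one_mem' := fun q => ⟨1, le_rfl, by simp [h0]⟩
  inv_mem' := fun {x} hx q => by
    obtain ⟨n, hn, h⟩ := hx q
    exact ⟨n, hn, by rwa [inv_pow, h2]⟩
  mul_mem' := fun {x y} hx hy q => by
    have hp : ∀ z m, l (z ^ m) ≤ m * l z := by
      intro z m
      induction m with
      | zero => simp [h0]
      | succ m ih => rw [pow_succ]; have := h1 (z ^ m) z; nlinarith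
    obtain ⟨n, hn, h⟩ := hx (2 * q)
    obtain ⟨m, hm, h'⟩ := hy (2 * q)
    refine ⟨n * m, Nat.mul_pos hn hm, ?_⟩
    have e : (x * y) ^ (n * m) = (x ^ n) ^ m * (y ^ m) ^ n := by
      rw [mul_pow, ← pow_mul, ← pow_mul, mul_comm m n]
    have a1 := h1 ((x ^ n) ^ m) ((y ^ m) ^ n)
    have a2 := hp (x ^ n) m
    have a3 := hp (y ^ m) n
    rw [e]
    have a4 : q * l ((x ^ n) ^ m * (y ^ m) ^ n) ≤ q * (m * l (x ^ n) + n * l (y ^ m)) :=
      Nat.mul_le_mul_left _ (by omega)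
    have a5 := Nat.mul_le_mul_left m h
    have a6 := Nat.mul_le_mul_left n h'
    nlinarith

variable {l : B → ℕ} {h1 : ∀ x y, l (x * y) ≤ l x + l y} {h2 : ∀ x, l x⁻¹ = l x} {h0 : l 1 = 0}

lemma Nsub_lin {b : B} (hb : b ∈ Nsub l h1 h2 h0) : ∃ c, ∀ m, 2 * l (b ^ m) ≤ m + c := by
  have hp : ∀ z m, l (z ^ m) ≤ m * l z := by
    intro z m
    induction m with
    | zero => simp [h0]
    | succ m ih => rw [pow_succ]; have := h1 (z ^ m) z; nlinarith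
  obtain ⟨n, hn, h⟩ := hb 2
  refine ⟨2 * (n * l b), fun m => ?_⟩
  have e : b ^ m = (b ^ n) ^ (m / n) * b ^ (m % n) := by
    rw [← pow_mul, ← pow_add, Nat.div_add_mod]
  have a1 := h1 ((b ^ n) ^ (m / n)) (b ^ (m % n))
  have a2 := hp (b ^ n) (m / n)
  have a3 := hp b (m % n)
  have a4 : m % n * l b ≤ n * l b := Nat.mul_le_mul_right _ (Nat.mod_lt _ hn).le
  have a5 := Nat.mul_le_mul_left (m / n) h
  have a6 := Nat.div_mul_le_self m n
  rw [e]
  nlinarith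

lemma Nsub_of {M : ℕ} {b : B} (h : ∀ n, ∃ u v, l u ≤ M ∧ v ∈ Nsub l h1 h2 h0 ∧ b ^ n = u * v) :
    b ∈ Nsub l h1 h2 h0 := by
  have hp : ∀ z m, l (z ^ m) ≤ m * l z := by
    intro z m
    induction m with
    | zero => simp [h0]
    | succ m ih => rw [pow_succ]; have := h1 (z ^ m) z; nlinarith
  intro q
  obtain ⟨u, v, hu, hv, e⟩ := h (q * (M + 1) + 1)
  obtain ⟨m, hm, h'⟩ := hv 1
  refine ⟨(q * (M + 1) + 1) * m, Nat.mul_pos (by omega) hm, ?_⟩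
  rw [pow_mul, e, mul_pow]
  have a1 := h1 (u ^ m) (v ^ m)
  have a2 := hp u m
  have a3 : m * l u ≤ m * M := Nat.mul_le_mul_left _ hu
  have a4 : q * l (u ^ m * v ^ m) ≤ q * (m * M + m) := Nat.mul_le_mul_left _ (by omega)
  nlinarith

/-- if two steps can be traded for one step and a sublinear element from a finite set, the
length is bounded -/
lemma bdd_len {O : Set B} (F : Finset B) (hF : ∀ f ∈ F, f ∈ Nsub l h1 h2 h0)
    (hO : ∀ o ∈ O, l o ≤ 1) (hOO : ∀ o ∈ O, ∀ o' ∈ O, ∃ f ∈ F, ∃ o'' ∈ O, o * o' = f * o'')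
    (hl : ∀ x, x ∈ O ^ l x) : ∃ M, ∀ x, l x ≤ M := by
  classical
  choose! c hc using fun f hf => Nsub_lin (hF f hf)
  have key : ∀ n, ∀ x ∈ O ^ (n + 1), ∃ m : B → ℕ, ∑ f ∈ F, m f = n ∧
      ∃ o ∈ O, x = (∏ f ∈ F, f ^ m f) * o := by
    intro n
    induction n with
    | zero => intro x hx; exact ⟨0, by simp, x, by simpa using hx, by simp⟩
    | succ n ih =>
      intro x hx
      rw [pow_succ] at hx
      obtain ⟨y, hy, o', ho', rfl⟩ := hx
      obtain ⟨m, hm, o, ho, rfl⟩ := ih y hy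
      obtain ⟨f, hf, o'', ho'', e⟩ := hOO o ho o' ho'
      refine ⟨m + Pi.single f 1, ?_, o'', ho'', ?_⟩
      · simp [Finset.sum_add_distrib, hm, Finset.sum_pi_single', hf]
      · have : ∏ g ∈ F, g ^ (Pi.single f 1 : B → ℕ) g = f := by
          rw [Finset.prod_eq_single f (fun g _ hg => by simp [hg]) (fun h => absurd hf h)]; simp
        simp only [Pi.add_apply, pow_add, Finset.prod_mul_distrib, this, mul_assoc, e]
  refine ⟨∑ f ∈ F, c f + 1, fun x => ?_⟩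
  rcases hx : l x with _ | n
  · omega
  obtain ⟨m, hm, o, ho, e⟩ := key n x (hx ▸ hl x)
  have a1 : 2 * l (∏ f ∈ F, f ^ m f) ≤ ∑ f ∈ F, (m f + c f) := by
    have : ∀ T : Finset B, T ⊆ F → 2 * l (∏ f ∈ T, f ^ m f) ≤ ∑ f ∈ T, (m f + c f) := by
      intro T
      induction T using Finset.induction_on with
      | empty => simp [h0]
      | insert a T ha ih =>
        intro hT
        rw [Finset.prod_insert ha, Finset.sum_insert ha]
        have := ih ((Finset.subset_insert _ _).trans hT)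
        have := hc a (hT (Finset.mem_insert_self _ _)) (m a)
        have := h1 (a ^ m a) (∏ f ∈ T, f ^ m f)
        omega
    exact this F subset_rfl
  rw [Finset.sum_add_distrib, hm] at a1
  have a2 := h1 (∏ f ∈ F, f ^ m f) o
  have a3 := hO o ho
  rw [← e, hx] at a2
  omega

end alg

section top
variable {G : Type} [Group G] [TopologicalSpace G] [IsTopologicalGroup G] {B : Type} [CommGroup B]

lemma gen_Hs {C : Set G} (hC : IsCompact C) (hg : Subgroup.closure C = ⊤) (j : ℕ) :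
    ∃ D : Set G, IsCompact D ∧ D ⊆ Hs (⊤ : Subgroup G) j ∧ ∀ (θ : G → B) (H : Subgroup B),
      Mu (Hs ⊤ j) θ → Cj (Hs ⊤ j) θ → (∀ c ∈ D, θ c ∈ H) → ∀ x ∈ Hs (⊤ : Subgroup G) j, θ x ∈ H := by
  have base : ∀ (θ : G → B) (H : Subgroup B), Mu ⊤ θ → (∀ c ∈ C, θ c ∈ H) → ∀ x, θ x ∈ H := by
    intro θ H hm h x
    rw [← hg] at hm
    exact hm.gen H h x (hg ▸ Subgroup.mem_top x)
  induction j with
  | zero => exact ⟨C, hC, fun _ _ => trivial, fun θ H hm _ h x _ => base θ H hm h x⟩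
  | succ j ih =>
    obtain ⟨D, hD, hDS, h⟩ := ih
    refine ⟨(fun p : G × G => ⁅p.1, p.2⁆) '' D ×ˢ C, (hD.prod hC).image ?_, ?_, ?_⟩
    · simp only [commutatorElement_def]; fun_prop
    · rintro _ ⟨p, hp, rfl⟩; exact cm_mem (hDS hp.1) _
    · intro θ H hm hj hH
      refine in_cm hm H fun b hb => base _ H (D_right hm hj hb) fun c hc => ?_
      exact h _ H (D_left hm hj c) (D_cj hm hj c) (fun d hd => hH _ ⟨(d, c), ⟨hd, hc⟩, rfl⟩) b hb

variable {l : B → ℕ} {h1 : ∀ x y, l (x * y) ≤ l x + l y} {h2 : ∀ x, l x⁻¹ = l x} {h0 : l 1 = 0}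

lemma sub_Hs {Γ : Subgroup G} (hK : Cc ⊤ Γ) (j : ℕ) : ∀ θ : G → B, Mu (Hs ⊤ j) θ →
    Cj (Hs ⊤ j) θ → (∀ K, IsCompact K → ∃ M, ∀ x ∈ K, x ∈ Hs (⊤ : Subgroup G) j → l (θ x) ≤ M) →
    (∀ x ∈ Hs (⊤ : Subgroup G) j, x ∈ Γ → θ x ∈ Nsub l h1 h2 h0) →
    ∀ x ∈ Hs (⊤ : Subgroup G) j, θ x ∈ Nsub l h1 h2 h0 := by
  have base : ∀ θ : G → B, Mu ⊤ θ → (∀ K, IsCompact K → ∃ M, ∀ x ∈ K, l (θ x) ≤ M) →
      (∀ x ∈ Γ, θ x ∈ Nsub l h1 h2 h0) → ∀ x, θ x ∈ Nsub l h1 h2 h0 := by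
    intro θ hm hb hΓ x
    obtain ⟨K, hKc, -, h3⟩ := hK
    obtain ⟨M, hM⟩ := hb K hKc
    refine Nsub_of (M := M) fun n => ?_
    obtain ⟨κ, hκ, hκs⟩ := h3 (x ^ n) trivial
    refine ⟨θ κ, _, hM κ hκ, hΓ _ hκs, ?_⟩
    rw [← hm _ trivial _ trivial, mul_inv_cancel_left, hm.pow trivial]
  induction j with
  | zero =>
    intro θ hm _ hb hΓ x _
    exact base θ hm (fun K hK => (hb K hK).imp fun M h x hx => h x hx trivial)
      (fun x hx => hΓ x trivial hx) x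
  | succ j ih =>
    intro θ hm hj hb hΓ
    refine in_cm hm _ fun b hb' => base _ (D_right hm hj hb') (fun K hK => ?_) fun δ hδ => ?_
    · obtain ⟨M, hM⟩ := hb _ (hK.image (f := fun g => ⁅b, g⁆)
        (by simp only [commutatorElement_def]; fun_prop))
      exact ⟨M, fun x hx => hM _ ⟨x, hx, rfl⟩ (cm_mem hb' x)⟩
    · refine ih _ (D_left hm hj δ) (D_cj hm hj δ) (fun K hK => ?_)
        (fun x hx hxd => hΓ _ (cm_mem hx δ) ?_) b hb'
      · obtain ⟨M, hM⟩ := hb _ (hK.image (f := fun g => ⁅g, δ⁆)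
          (by simp only [commutatorElement_def]; fun_prop))
        exact ⟨M, fun x hx hx' => hM _ ⟨x, hx, rfl⟩ (cm_mem hx' δ)⟩
      · rw [commutatorElement_def]
        exact Γ.mul_mem (Γ.mul_mem (Γ.mul_mem hxd hδ) (Γ.inv_mem hxd)) (Γ.inv_mem hδ)

lemma cl_cm {A A' A'' : Subgroup G} (h : ⁅A, A'⁆ ≤ A'') {x y : G} (hx : x ∈ A.topologicalClosure)
    (hy : y ∈ A'.topologicalClosure) : ⁅x, y⁆ ∈ A''.topologicalClosure :=
  map_mem_closure₂ (f := fun x y : G => ⁅x, y⁆)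
    (by simp only [commutatorElement_def, Function.uncurry_def]; fun_prop) hx hy
    fun a ha b hb => h (Subgroup.commutator_mem_commutator ha hb)

lemma step [LocallyCompactSpace G] {C : Set G} (hC : IsCompact C) (hg : Subgroup.closure C = ⊤)
    {Γ : Subgroup G} (hK : Cc ⊤ Γ) (i : ℕ) (h : Cc (Hs ⊤ (i + 1)).topologicalClosure Γ) :
    Cc (Hs ⊤ i).topologicalClosure Γ := by
  classical
  set S := (Hs (⊤ : Subgroup G) i).topologicalClosure with hS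
  set S' := (Hs (⊤ : Subgroup G) (i + 1)).topologicalClosure with hS'
  have hSc : IsClosed (S : Set G) := Subgroup.isClosed_topologicalClosure _
  have hLS : Hs ⊤ i ≤ S := Subgroup.le_topologicalClosure _
  have hcm : ∀ x ∈ S, ∀ g, ⁅x, g⁆ ∈ S' := fun x hx g =>
    cl_cm (A' := ⊤) le_rfl hx (Subgroup.le_topologicalClosure _ trivial)
  have hS'S : S' ≤ S := Subgroup.topologicalClosure_mono (cm_le _)
  have hSn : S.Normal := Subgroup.is_normal_topologicalClosure _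
  have hSn' : S'.Normal := Subgroup.is_normal_topologicalClosure _
  obtain ⟨B, _, θ, hm, hker, hsur⟩ := exQ S (S' ⊔ Γ) fun x hx y _ =>
    (le_sup_left : S' ≤ S' ⊔ Γ) (hcm x hx y)
  have hj : Cj (Hs ⊤ i) θ := by
    intro g x hx
    have e : g * x * g⁻¹ = ⁅x, g⁆⁻¹ * x := by simp only [commutatorElement_def]; group
    have h1 := S'.inv_mem (hcm x (hLS hx) g)
    rw [e, hm _ (hS'S h1) _ (hLS hx), (hker _ (hS'S h1)).2 ((le_sup_left : S' ≤ S' ⊔ Γ) h1), one_mul]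
  obtain ⟨D, hD, hDS, hgen⟩ := gen_Hs (B := B) hC hg i
  obtain ⟨V, hV, hV1⟩ := exists_compact_mem_nhds (1 : G)
  let O0 : Set G := V ∩ S ∪ D
  have hO0 : IsCompact O0 := (hV.inter_right hSc).union hD
  have hO0S : O0 ⊆ S := union_subset inter_subset_right fun x hx => hLS (hDS hx)
  let O : Set G := O0 ∪ O0⁻¹
  have hO : IsCompact O := hO0.union hO0.inv
  have hOS : ∀ x ∈ O, x ∈ S := by
    rintro x (hx | hx)
    · exact hO0S hx
    · exact S.inv_mem_iff.1 (hO0S hx)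
  have hOi : ∀ x ∈ O, x⁻¹ ∈ O := by
    rintro x (hx | hx)
    · exact Or.inr (by simpa using hx)
    · exact Or.inl hx
  have hden : ∀ x ∈ S, ∃ f ∈ Hs (⊤ : Subgroup G) i, f⁻¹ * x ∈ interior V := by
    intro x hx
    obtain ⟨f, hf1, hf2⟩ := mem_closure_iff.1 hx {f | f⁻¹ * x ∈ interior V}
      (isOpen_interior.preimage (by fun_prop)) (by simpa using mem_interior_iff_mem_nhds.2 hV1)
    exact ⟨f, hf2, hf1⟩
  have hcov : ∀ K, IsCompact K → ∃ F : Finset G, (∀ f ∈ F, f ∈ Hs (⊤ : Subgroup G) i) ∧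
      ∀ x ∈ K, x ∈ S → ∃ f ∈ F, f⁻¹ * x ∈ O := by
    intro K hK
    obtain ⟨t, ht⟩ := (hK.inter_right hSc).elim_finite_subcover
      (fun f : Hs (⊤ : Subgroup G) i => {x | (f : G)⁻¹ * x ∈ interior V})
      (fun f => isOpen_interior.preimage (by fun_prop)) (fun x hx => by
        obtain ⟨f, hf, h⟩ := hden x hx.2
        exact mem_iUnion.2 ⟨⟨f, hf⟩, h⟩)
    refine ⟨t.image Subtype.val, ?_, fun x hx hxS => ?_⟩
    · intro f hf
      obtain ⟨g, -, rfl⟩ := Finset.mem_image.1 hf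
      exact g.2
    · obtain ⟨f, hf, h⟩ := mem_iUnion₂.1 (ht ⟨hx, hxS⟩)
      exact ⟨f, Finset.mem_image_of_mem _ hf,
        Or.inl (Or.inl ⟨interior_subset h, S.mul_mem (S.inv_mem (hLS f.2)) hxS⟩)⟩
  let P : Set B := θ '' O
  have hPi : P⁻¹ = P := by
    ext b
    constructor
    · rintro ⟨x, hx, e⟩
      exact ⟨x⁻¹, hOi x hx, by rw [hm.inv (hOS x hx), e, inv_inv]⟩
    · rintro ⟨x, hx, rfl⟩
      exact ⟨x⁻¹, hOi x hx, hm.inv (hOS x hx)⟩
  have hPn : ∀ n b, b ∈ P ^ n → b⁻¹ ∈ P ^ n := fun n b hb => by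
    rw [← hPi, inv_pow]; simpa using hb
  let H : Subgroup B :=
    { carrier := {b | ∃ n, b ∈ P ^ n}
      one_mem' := ⟨0, by simp⟩
      mul_mem' := by
        rintro x y ⟨n, hn⟩ ⟨m, hm⟩
        exact ⟨n + m, by rw [pow_add]; exact mul_mem_mul hn hm⟩
      inv_mem' := by
        rintro x ⟨n, hn⟩
        exact ⟨n, hPn n x hn⟩ }
  have hsp : ∀ f ∈ Hs (⊤ : Subgroup G) i, ∀ x ∈ S, θ x = θ f * θ (f⁻¹ * x) := fun f hf x hx => by
    rw [← hm _ (hLS hf) _ (S.mul_mem (S.inv_mem (hLS hf)) hx), mul_inv_cancel_left]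
  have hH : ∀ b, ∃ n, b ∈ P ^ n := by
    intro b
    obtain ⟨x, hx, rfl⟩ := hsur b
    obtain ⟨f, hf, h⟩ := hden x hx
    rw [hsp f hf x hx]
    refine H.mul_mem (hgen θ H (hm.mono hLS) hj (fun c hc => ⟨1, ?_⟩) f hf) ⟨1, ?_⟩
    · rw [pow_one]; exact ⟨c, Or.inl (Or.inr hc), rfl⟩
    · rw [pow_one]
      exact ⟨_, Or.inl (Or.inl ⟨interior_subset h, S.mul_mem (S.inv_mem (hLS hf)) hx⟩), rfl⟩
  let l : B → ℕ := fun b => Nat.find (hH b)
  have hl : ∀ b, b ∈ P ^ l b := fun b => Nat.find_spec (hH b)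
  have hle : ∀ b n, b ∈ P ^ n → l b ≤ n := fun b n h => Nat.find_min' (hH b) h
  have h1 : ∀ x y, l (x * y) ≤ l x + l y := fun x y =>
    hle _ _ (by rw [pow_add]; exact mul_mem_mul (hl x) (hl y))
  have h2 : ∀ x, l x⁻¹ = l x := fun x =>
    le_antisymm (hle _ _ (hPn _ _ (hl x))) (hle _ _ (by simpa using hPn _ _ (hl x⁻¹)))
  have h0 : l 1 = 0 := Nat.le_zero.1 (hle _ _ (by simp))
  have hP1 : ∀ o ∈ P, l o ≤ 1 := fun o ho => hle _ _ (by simpa using ho)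
  have hN := sub_Hs (h1 := h1) (h2 := h2) (h0 := h0) hK i θ (hm.mono hLS) hj (fun K hK => by
      obtain ⟨F, hF, h⟩ := hcov K hK
      refine ⟨F.sup (fun f => l (θ f)) + 1, fun x hx hxL => ?_⟩
      obtain ⟨f, hf, ho⟩ := h x hx (hLS hxL)
      rw [hsp f (hF f hf) x (hLS hxL)]
      exact (h1 _ _).trans (add_le_add (Finset.le_sup (f := fun f => l (θ f)) hf)
        (hP1 _ ⟨_, ho, rfl⟩)))
    (fun x hx hxΓ => by
      rw [(hker x (hLS hx)).2 ((le_sup_right : Γ ≤ S' ⊔ Γ) hxΓ)]; exact Subgroup.one_mem _)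
  obtain ⟨F, hF, hFO⟩ := hcov _ (hO.mul hO)
  obtain ⟨M, hM⟩ := bdd_len (h1 := h1) (h2 := h2) (h0 := h0) (O := P) (F.image θ)
    (fun f hf => by
      obtain ⟨g, hg, rfl⟩ := Finset.mem_image.1 hf
      exact hN g (hF g hg)) hP1 (by
      rintro _ ⟨x, hx, rfl⟩ _ ⟨y, hy, rfl⟩
      have hxy := S.mul_mem (hOS x hx) (hOS y hy)
      obtain ⟨f, hf, ho⟩ := hFO _ (mul_mem_mul hx hy) hxy
      exact ⟨θ f, Finset.mem_image_of_mem _ hf, _, ⟨_, ho, rfl⟩, by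
        rw [← hm _ (hOS x hx) _ (hOS y hy), hsp f (hF f hf) _ hxy]⟩) hl
  have hpow : ∀ n, ∃ K : Set G, IsCompact K ∧ K ⊆ S ∧ ∀ b ∈ P ^ n, ∃ κ ∈ K, θ κ = b := by
    intro n
    induction n with
    | zero => exact ⟨{1}, isCompact_singleton, by simp, fun b hb => ⟨1, rfl, by
        rw [hm.one]; simpa [eq_comm] using hb⟩⟩
    | succ n ih =>
      obtain ⟨K, hK, hKS, h⟩ := ih
      refine ⟨K * O, hK.mul hO, ?_, fun b hb => ?_⟩
      · rintro _ ⟨x, hx, y, hy, rfl⟩; exact S.mul_mem (hKS hx) (hOS y hy)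
      · rw [pow_succ] at hb
        obtain ⟨b, hb, _, ⟨y, hy, rfl⟩, rfl⟩ := hb
        obtain ⟨κ, hκ, rfl⟩ := h b hb
        exact ⟨κ * y, mul_mem_mul hκ hy, hm _ (hKS hκ) _ (hOS y hy)⟩
  choose Kn hKn hKS hKP using hpow
  obtain ⟨K', hK', hK'S, h3⟩ := h
  refine ⟨(⋃ n ∈ Finset.range (M + 1), Kn n) * K',
    ((Finset.range (M + 1)).isCompact_biUnion fun n _ => hKn n).mul hK', ?_, fun s hs => ?_⟩
  · rintro _ ⟨x, hx, y, hy, rfl⟩
    obtain ⟨n, -, hx⟩ := mem_iUnion₂.1 hx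
    exact S.mul_mem (hKS n hx) (hS'S (hK'S hy))
  · obtain ⟨κ, hκ, e⟩ := hKP _ _ (hl (θ s))
    have hκS := hKS _ hκ
    have : κ⁻¹ * s ∈ S' ⊔ Γ := by
      refine (hker _ (S.mul_mem (S.inv_mem hκS) hs)).1 ?_
      rw [hm _ (S.inv_mem hκS) _ hs, hm.inv hκS, e, inv_mul_cancel]
    obtain ⟨y, hy, γ, hγ, e'⟩ := Subgroup.mem_sup_of_normal_left.1 this
    obtain ⟨κ', hκ', h4⟩ := h3 y hy
    refine ⟨κ * κ', mul_mem_mul (mem_iUnion₂.2 ⟨_, Finset.mem_range.2 (Nat.lt_succ_of_le (hM _)),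
      hκ⟩) hκ', ?_⟩
    have := Γ.mul_mem h4 hγ
    rwa [mul_assoc, e', ← mul_assoc, ← mul_inv_rev] at this

theorem rat [LocallyCompactSpace G] [T2Space G] {C : Set G} (hC : IsCompact C)
    (hg : Subgroup.closure C = ⊤) {Γ : Subgroup G} (hK : Cc ⊤ Γ) {k : ℕ}
    (hk : Hs (⊤ : Subgroup G) k = ⊥) (i : ℕ) : Cc (Hs ⊤ i).topologicalClosure Γ := by
  have hb : ∀ i, k ≤ i → Hs (⊤ : Subgroup G) i = ⊥ := by
    intro i hi
    induction i, hi using Nat.le_induction with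
    | base => exact hk
    | succ i _ ih => simp [Hs, ih]
  have hb' : ∀ i, k ≤ i → Cc (Hs ⊤ i).topologicalClosure Γ := by
    intro i hi
    refine ⟨{1}, isCompact_singleton, singleton_subset_iff.2 (Subgroup.one_mem _),
      fun s hs => ⟨1, rfl, ?_⟩⟩
    rw [hb i hi] at hs
    have : s ∈ closure ({1} : Set G) := hs
    rw [closure_singleton] at this
    rw [this]; simp
  rcases le_total k i with h | h
  · exact hb' i h
  · induction h using Nat.decreasingInduction with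
    | self => exact hb' k le_rfl
    | of_succ j _ ih => exact step hC hg hK j ih

end top

end Pool.Agent.H96.NI
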