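import Mathlib
import Pool.Agent.H96.NI1

/-! Cube groups of a filtered group, corner uniqueness, and a counting obstruction. -/

namespace Pool.Agent.H96.NI

open Filter Topology Set Pool.Agent.H96.NS
open scoped commutatorElement Pointwise

set_option linter.unusedSectionVars false

variable {G : Type} [Group G] [TopologicalSpace G] [IsTopologicalGroup G]

/-- a filtration whose terms are cocompact with respect to `Γ` -/
structure Filt (A : ℕ → Subgroup G) (Γ : Subgroup G) : Prop where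
  anti : ∀ i, A (i + 1) ≤ A i
  comm : ∀ i j, ∀ x ∈ A i, ∀ y ∈ A j, ⁅x, y⁆ ∈ A (i + j)
  cc : ∀ i, Cc (A i) Γ

variable {A : ℕ → Subgroup G} {Γ : Subgroup G}

lemma Filt.mono (h : Filt A Γ) : Antitone A := antitone_nat_of_succ_le h.anti

lemma Filt.conj (h : Filt A Γ) {i j : ℕ} {x y : G} (hx : x ∈ A i) (hy : y ∈ A j) :
    x * y * x⁻¹ ∈ A j := by
  have := (A j).mul_mem (h.mono (Nat.le_add_left j i) (h.comm i j x hx y hy)) hy
  simpa [commutatorElement_def, mul_assoc] using this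

/-- the doubled filtration -/
def dbl (h : Filt A Γ) (i : ℕ) : Subgroup (G × G) where
  carrier := {p | p.1 ∈ A i ∧ p.1⁻¹ * p.2 ∈ A (i + 1)}
  one_mem' := ⟨by simp, by simp⟩
  mul_mem' := by
    rintro p q ⟨hp, hp'⟩ ⟨hq, hq'⟩
    refine ⟨(A i).mul_mem hp hq, ?_⟩
    have := (A (i + 1)).mul_mem (h.conj ((A i).inv_mem hq) hp') hq'
    simpa [mul_assoc] using this
  inv_mem' := by
    rintro p ⟨hp, hp'⟩
    refine ⟨(A i).inv_mem hp, ?_⟩
    have := h.conj hp ((A (i + 1)).inv_mem hp')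
    simpa [mul_assoc] using this

lemma dbl_filt (h : Filt A Γ) : Filt (dbl h) (Γ.prod Γ) where
  anti := fun i p hp => ⟨h.anti i hp.1, h.anti _ hp.2⟩
  comm := by
    rintro i j ⟨x, x'⟩ ⟨hx, hd⟩ ⟨y, y'⟩ ⟨hy, he⟩
    simp only at hx hd hy he
    refine ⟨h.comm i j x hx y hy, ?_⟩
    have hy' : y' ∈ A j := by simpa using (A j).mul_mem hy (h.anti j he)
    have a1 := h.comm _ _ _ hd _ hy'
    rw [show i + 1 + j = i + j + 1 by ring] at a1
    have a2 : ⁅x, y⁻¹ * y'⁆ ∈ A (i + j + 1) := h.comm _ _ _ hx _ he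
    have a3 := (A (i + j + 1)).mul_mem (h.conj ((A _).inv_mem (h.comm i j x hx y hy)) (h.conj hx a1))
      (h.conj hy a2)
    show ⁅x, y⁆⁻¹ * ⁅x', y'⁆ ∈ A (i + j + 1)
    convert a3 using 1
    simp only [commutatorElement_def]; group
  cc := by
    intro i
    obtain ⟨K, hK, hKS, h3⟩ := h.cc i
    obtain ⟨K', hK', hKS', h3'⟩ := h.cc (i + 1)
    refine ⟨(fun p : G × G => (p.1, p.1 * p.2)) '' K ×ˢ K', (hK.prod hK').image (by fun_prop),
      ?_, ?_⟩
    · rintro _ ⟨p, hp, rfl⟩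
      exact ⟨hKS hp.1, by simpa using hKS' hp.2⟩
    · rintro ⟨x, y⟩ ⟨hx, hd⟩
      obtain ⟨κ, hκ, hγ⟩ := h3 x hx
      have hγA : κ⁻¹ * x ∈ A i := (A i).mul_mem ((A i).inv_mem (hKS hκ)) hx
      obtain ⟨κ', hκ', hγ'⟩ := h3' _ (h.conj hγA hd)
      refine ⟨(κ, κ * κ'), ⟨(κ, κ'), ⟨hκ, hκ'⟩, rfl⟩, hγ, ?_⟩
      have := Γ.mul_mem hγ' hγ
      simpa [mul_assoc] using this

lemma Filt.comap {H : Type} [Group H] [TopologicalSpace H] [IsTopologicalGroup H] (h : Filt A Γ)
    (e : H ≃* G) (he : Continuous e.symm) (Γ' : Subgroup H) (hΓ : ∀ x, e x ∈ Γ → x ∈ Γ') :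
    Filt (fun i => (A i).comap e.toMonoidHom) Γ' where
  anti := fun i => Subgroup.comap_mono (h.anti i)
  comm := fun i j x hx y hy => by
    have := h.comm i j _ hx _ hy
    rw [← map_commutatorElement] at this
    exact this
  cc := fun i => by
    obtain ⟨K, hK, hKS, h3⟩ := h.cc i
    refine ⟨e.symm '' K, hK.image he, ?_, fun s hs => ?_⟩
    · rintro _ ⟨x, hx, rfl⟩
      simpa using hKS hx
    · obtain ⟨κ, hκ, hγ⟩ := h3 _ hs
      exact ⟨e.symm κ, ⟨κ, hκ, rfl⟩, hΓ _ (by simpa using hγ)⟩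

/-- splitting a cube into two faces -/
def split (G : Type) [Group G] (n : ℕ) :
    ((Fin (n + 1) → Bool) → G) ≃* ((Fin n → Bool) → G) × ((Fin n → Bool) → G) where
  toFun c := (fun v => c (Fin.cons false v), fun v => c (Fin.cons true v))
  invFun p v := if v 0 then p.2 (Fin.tail v) else p.1 (Fin.tail v)
  left_inv c := by
    funext v
    have := Fin.cons_self_tail v
    cases h : v 0 <;> simp only [h] at this ⊢ <;> simp [this]
  right_inv p := by ext v <;> simp
  map_mul' _ _ := rfl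

theorem cubes (hA : Filt A Γ) {k : ℕ} (hk : A (k + 1) ≤ Γ) (n : ℕ) :
    ∃ C : ℕ → Subgroup ((Fin n → Bool) → G), Filt C (Subgroup.pi univ fun _ => Γ) ∧
      (∀ i, ∀ c ∈ C i, k + 1 ≤ n + i → (∀ v, v ≠ (fun _ => true) → c v ∈ Γ) →
        c (fun _ => true) ∈ Γ) ∧ (∀ i, ∀ d ∈ A i, (fun _ => d) ∈ C i) ∧
      ∀ a ∈ A 1, ∀ m : Fin n → ℕ, (fun v => a ^ (∑ s, if v s then m s else 0)) ∈ C 0 := by
  induction n with
  | zero =>
    refine ⟨_, hA.comap (MulEquiv.funUnique (Fin 0 → Bool) G) (continuous_pi fun _ => continuous_id)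
      _ (fun x hx v _ => ?_), fun i c hc hi _ => ?_, fun i d hd => hd, fun a _ m => ?_⟩
    · rw [Subsingleton.elim v _]; exact hx
    · rw [Subsingleton.elim (fun _ => true : Fin 0 → Bool) _]
      exact hk (hA.mono (show k + 1 ≤ i by omega) hc)
    · simp
  | succ n ih =>
    obtain ⟨C, hC, hu, hc, hl⟩ := ih
    refine ⟨_, (dbl_filt hC).comap (split G n) (continuous_pi fun v => ?_) _ (fun x hx v _ => ?_),
      fun i c hc hi hv => ?_, fun i d hd => ⟨hc i d hd, ?_⟩, fun a ha m => ⟨?_, ?_⟩⟩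
    · change Continuous fun p : ((Fin n → Bool) → G) × ((Fin n → Bool) → G) =>
        if v 0 then p.2 (Fin.tail v) else p.1 (Fin.tail v)
      split_ifs <;> fun_prop
    · rw [← Fin.cons_self_tail v]
      cases v 0
      · exact hx.1 _ trivial
      · exact hx.2 _ trivial
    · have h0 : ∀ v : Fin n → Bool, c (Fin.cons false v) ∈ Γ := fun v => hv _ fun e => by
        simpa using congrFun e 0
      have e1 : (Fin.cons true (fun _ => true) : Fin (n + 1) → Bool) = fun _ => true := by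
        funext s; cases s using Fin.cases <;> simp
      have := hu (i + 1) _ hc.2 (by omega) fun v hv' => Γ.mul_mem (Γ.inv_mem (h0 v))
        (hv (Fin.cons true v) fun e => hv' (funext fun s => by simpa using congrFun e s.succ))
      have := Γ.mul_mem (h0 fun _ => true) this
      rw [← e1]
      simpa [split] using this
    · convert (C (i + 1)).one_mem using 1
      funext v; simp [split]
    · convert hl a ha (Fin.tail m) using 1
      funext v; simp [split, Fin.sum_univ_succ, Fin.tail]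
    · convert hc 1 _ ((A 1).pow_mem ha (m 0)) using 1
      funext v
      simp only [split, Fin.sum_univ_succ, MulEquiv.toMonoidHom_eq_coe, MonoidHom.coe_coe,
        MulEquiv.coe_mk, Equiv.coe_fn_mk, Pi.mul_apply, Pi.inv_apply, Fin.cons_zero, Fin.cons_succ,
        Bool.false_eq_true, if_false, if_true, zero_add]
      rw [add_comm, pow_add, inv_mul_cancel_left]

theorem unif {X : Type} [MetricSpace X] (hA : Filt A Γ) (h1 : ∀ g, g ∈ A 1) {k : ℕ}
    (hk : A (k + 1) ≤ Γ) {π : G → X} (hπ : Continuous π)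
    (hπΓ : ∀ g g', π g = π g' ↔ g⁻¹ * g' ∈ Γ) {F : X → ℂ} (hF : Continuous F) {ε : ℝ}
    (hε : 0 < ε) : ∃ η > 0, ∀ (a h h' : G) (m : Fin k → ℕ),
      (∀ v : Fin k → Bool, v ≠ (fun _ => true) →
        dist (π (a ^ (∑ s, if v s then m s else 0) * h))
          (π (a ^ (∑ s, if v s then m s else 0) * h')) < η) →
      ‖F (π (a ^ (∑ s, m s) * h)) - F (π (a ^ (∑ s, m s) * h'))‖ < ε := by
  obtain ⟨C, hC, hu, hc, hl⟩ := cubes hA hk k
  obtain ⟨K, hK, hKS, h3⟩ := hC.cc 0
  obtain ⟨K', hK', hKS', h3'⟩ := hC.cc 1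
  let P : Set (((Fin k → Bool) → G) × ((Fin k → Bool) → G)) := K ×ˢ K' ∩
    {p | ε ≤ ‖F (π (p.1 fun _ => true)) - F (π ((p.1 * p.2) fun _ => true))‖}
  have hP : IsCompact P := (hK.prod hK').inter_right (isClosed_le continuous_const (by fun_prop))
  let Φ : (((Fin k → Bool) → G) × ((Fin k → Bool) → G)) → ℝ := fun p =>
    dist (fun v : {v : Fin k → Bool // v ≠ fun _ => true} => π (p.1 v)) (fun v => π ((p.1 * p.2) v))
  obtain ⟨η, hη, hΦ⟩ := hP.exists_forall_le' (f := Φ) (Continuous.continuousOn (by fun_prop))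
    (a := 0) (by
      rintro p ⟨hp, hp'⟩
      refine dist_pos.2 fun e => ?_
      have := hu 1 _ (hKS' hp.2) le_rfl fun v hv => by
        simpa using (hπΓ _ _).1 (congrFun e ⟨v, hv⟩)
      have e2 : π (p.1 fun _ => true) = π ((p.1 * p.2) fun _ => true) :=
        (hπΓ _ _).2 (by simpa using this)
      simp only [mem_ofPred_eq, e2, sub_self, norm_zero] at hp'
      linarith)
  refine ⟨η, hη, fun a h h' m hv => ?_⟩
  have hc0 := (C 0).mul_mem (hl a (h1 a) m) (hc 0 h (hA.anti 0 (h1 h)))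
  obtain ⟨κ, hκ, hγ⟩ := h3 _ hc0
  obtain ⟨κ', hκ', hγ'⟩ := h3' _ (hC.conj ((C 0).mul_mem ((C 0).inv_mem (hKS hκ)) hc0)
    (hc 1 _ (h1 (h⁻¹ * h'))))
  have e1 : ∀ v, π (κ v) = π (a ^ (∑ s, if v s then m s else 0) * h) := fun v =>
    (hπΓ _ _).2 (hγ v trivial)
  have e2 : ∀ v, π ((κ * κ') v) = π (a ^ (∑ s, if v s then m s else 0) * h') := fun v =>
    (hπΓ _ _).2 (by simpa [mul_assoc] using Γ.mul_mem (hγ' v trivial) (hγ v trivial))
  by_contra hn
  have hp : (κ, κ') ∈ P := ⟨⟨hκ, hκ'⟩, by simpa only [mem_ofPred_eq, e1, e2, if_true, not_lt] using hn⟩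
  refine absurd (hΦ _ hp) (not_le.2 ((dist_pi_lt_iff hη).2 fun v => ?_))
  simp only [e1, e2]
  exact hv v v.2

theorem count {X : Type} [MetricSpace X] [CompactSpace X] (hA : Filt A Γ) (h1 : ∀ g, g ∈ A 1)
    {k : ℕ} (hk : A (k + 1 + 1) ≤ Γ) {π : G → X} (hπ : Continuous π)
    (hπΓ : ∀ g g', π g = π g' ↔ g⁻¹ * g' ∈ Γ) {F : X → ℂ} (hF : Continuous F) (a : G)
    (x : Fin (k + 1) → ℕ → ℕ) (R : Finset (Fin (k + 1) → ℕ) → ℕ)
    (H : ∀ σ w, ‖F (π (a ^ (R σ + ∑ s, x s (w s)))) - (if w ∈ σ then 1 else 0)‖ ≤ 1 / 4) :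
    False := by
  classical
  obtain ⟨η, hη, hU⟩ := unif hA h1 hk hπ hπΓ hF (ε := 1 / 2) (by norm_num)
  obtain ⟨t, -, ht, hcov⟩ := finite_cover_balls_of_compact (isCompact_univ (X := X))
    (half_pos hη)
  have : Fintype t := ht.fintype
  have hcol : ∀ y : X, ∃ c : t, dist y c < η / 2 := fun y => by
    obtain ⟨c, hc, h⟩ := mem_iUnion₂.1 (hcov (mem_univ y))
    exact ⟨⟨c, hc⟩, h⟩
  choose col hcol using hcol
  set M := Fintype.card t
  set r := M * (k + 1) * 2 ^ k + 1 with hr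
  let up : (Fin (k + 1) → Fin r) ↪ (Fin (k + 1) → ℕ) :=
    ⟨fun w s => w s, fun w w' e => funext fun s => Fin.ext (congrFun e s)⟩
  let ty : Finset (Fin (k + 1) → Fin r) → Fin (k + 1) × (Fin k → Option (Fin r)) → t :=
    fun σ j => col (π (a ^ (∑ s, (j.2 s).elim 0 fun u => x (j.1.succAbove s) u) * a ^ R (σ.map up)))
  have hinj : Function.Injective ty := by
    intro σ σ' e
    ext w
    have := hU a (a ^ R (σ.map up)) (a ^ R (σ'.map up)) (fun s => x s (w s)) fun v hv => by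
      obtain ⟨s0, hs0⟩ := Function.ne_iff.1 hv
      have e' := congrFun e (s0, fun s => if v (s0.succAbove s) then some (w (s0.succAbove s))
        else none)
      have es : (∑ s, if v s then x s (w s) else 0) = ∑ s : Fin k, (if v (s0.succAbove s) then
          some (w (s0.succAbove s)) else none).elim 0 fun u => x (s0.succAbove s) u := by
        rw [Fin.sum_univ_succAbove _ s0, if_neg hs0, zero_add]
        refine Finset.sum_congr rfl fun s _ => ?_
        split_ifs <;> rfl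
      simp only [ty, ← es] at e'
      have a1 := hcol (π (a ^ (∑ s, if v s then x s (w s) else 0) * a ^ R (σ.map up)))
      have a2 := hcol (π (a ^ (∑ s, if v s then x s (w s) else 0) * a ^ R (σ'.map up)))
      rw [e'] at a1
      linarith [dist_triangle_right _ _ _ |>.trans_lt (add_lt_add a1 a2)]
    have b1 := H (σ.map up) (up w)
    have b2 := H (σ'.map up) (up w)
    simp only [Finset.mem_map', add_comm (R _), pow_add] at b1 b2
    have b3 : ‖(if w ∈ σ then 1 else 0 : ℂ) - (if w ∈ σ' then 1 else 0)‖ < 1 := by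
      have := norm_sub_le_norm_sub_add_norm_sub (if w ∈ σ then 1 else 0 : ℂ)
        (F (π (a ^ (∑ s, x s (w s)) * a ^ R (σ'.map up)))) (if w ∈ σ' then 1 else 0)
      have := norm_sub_le_norm_sub_add_norm_sub (if w ∈ σ then 1 else 0 : ℂ)
        (F (π (a ^ (∑ s, x s (w s)) * a ^ R (σ.map up))))
        (F (π (a ^ (∑ s, x s (w s)) * a ^ R (σ'.map up))))
      rw [norm_sub_rev] at b1
      change ‖_ - F (π (a ^ (∑ s, x s (w s)) * _))‖ ≤ _ at b1
      change ‖F (π (a ^ (∑ s, x s (w s)) * _)) - _‖ ≤ _ at b2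
      linarith
    by_cases c1 : w ∈ σ <;> by_cases c2 : w ∈ σ' <;> simp_all
  have hc := Fintype.card_le_of_injective _ hinj
  simp only [Fintype.card_finset, Fintype.card_fun, Fintype.card_fin, Fintype.card_prod,
    Fintype.card_option] at hc
  have c1 : M ^ ((k + 1) * (r + 1) ^ k) ≤ 2 ^ (M * ((k + 1) * (r + 1) ^ k)) := by
    rw [pow_mul 2]; exact Nat.pow_le_pow_left Nat.lt_two_pow_self.le _
  have c2 := (Nat.pow_le_pow_iff_right (by norm_num)).1 (hc.trans c1)
  have c3 : (r + 1) ^ k ≤ 2 ^ k * r ^ k := by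
    rw [← mul_pow]; exact Nat.pow_le_pow_left (by omega) _
  have c4 : 0 < r ^ k := pow_pos (by omega) _
  have c5 : M * ((k + 1) * (r + 1) ^ k) ≤ M * ((k + 1) * (2 ^ k * r ^ k)) := by gcongr
  have c6 : r ^ (k + 1) = M * ((k + 1) * (2 ^ k * r ^ k)) + r ^ k := by
    rw [pow_succ]; nth_rewrite 2 [hr]; ring
  omega

end Pool.Agent.H96.NI
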