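import Mathlib
import Pool.Agent.H96.NI2

/-! The counting obstruction for nilsystems. -/

namespace Pool.Agent.H96.NI

open Filter Topology Set Pool.Agent.H96.NS
open scoped commutatorElement Pointwise

set_option linter.unusedSectionVars false

variable {G : Type} [Group G] [TopologicalSpace G] [IsTopologicalGroup G]

lemma Hs_eq (i : ℕ) : Hs (⊤ : Subgroup G) i = Subgroup.lowerCentralSeries ⊤ i := by
  induction i with
  | zero => rfl
  | succ i ih => rw [Hs, ih]; rfl

lemma exFilt [LocallyCompactSpace G] [T2Space G] {C : Set G} (hC : IsCompact C)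
    (hg : Subgroup.closure C = ⊤) {Γ : Subgroup G} (hK : Cc ⊤ Γ) {k : ℕ}
    (hk : Hs (⊤ : Subgroup G) k = ⊥) :
    ∃ A : ℕ → Subgroup G, Filt A Γ ∧ (∀ g, g ∈ A 1) ∧ A (k + 1) ≤ Γ := by
  let A : ℕ → Subgroup G := fun i => (Hs ⊤ (i - 1)).topologicalClosure
  have hn : ∀ i, (A i).Normal := fun i => Subgroup.is_normal_topologicalClosure _
  refine ⟨A, ⟨fun i => ?_, fun i j x hx y hy => ?_, fun i => rat hC hg hK hk _⟩,
    fun g => Subgroup.le_topologicalClosure _ trivial, fun s hs => ?_⟩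
  · cases i with
    | zero => exact le_rfl
    | succ i => exact Subgroup.topologicalClosure_mono (cm_le _)
  · rcases i with _ | i
    · rw [zero_add, commutatorElement_def]
      exact (A j).mul_mem ((hn j).conj_mem _ hy x) ((A j).inv_mem hy)
    rcases j with _ | j
    · rw [add_zero, commutatorElement_def, mul_assoc, mul_assoc, ← mul_assoc y]
      exact (A _).mul_mem hx ((hn _).conj_mem _ ((A _).inv_mem hx) y)
    have := cl_cm (Hs_cm j i) hx hy
    simp only [A]
    rwa [show i + 1 + (j + 1) - 1 = i + j + 1 by omega]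
  · simp only [A, Nat.add_sub_cancel, hk] at hs
    have : s ∈ closure ({1} : Set G) := hs
    rw [closure_singleton] at this
    rw [this]; exact Γ.one_mem

theorem neg [LocallyCompactSpace G] [T2Space G] [SecondCountableTopology G] {k : ℕ}
    (hk : Subgroup.lowerCentralSeries (⊤ : Subgroup G) (k + 1) = ⊥) (Γ : Subgroup G)
    [DiscreteTopology Γ] [CompactSpace (G ⧸ Γ)] (a : G) (y : G ⧸ Γ) (F : C(G ⧸ Γ, ℂ))
    (x : Fin (k + 1) → ℕ → ℕ) (R : Finset (Fin (k + 1) → ℕ) → ℕ)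
    (H : ∀ σ w, ‖F (a ^ (R σ + ∑ s, x s (w s)) • y) - (if w ∈ σ then 1 else 0)‖ ≤ 1 / 4) :
    False := by
  have hsm : ∀ g h : G, g • (h : G ⧸ Γ) = ((g * h : G) : G ⧸ Γ) := fun _ _ => rfl
  have : IsClosed (Γ : Set G) := Subgroup.isClosed_of_discrete
  let : MetricSpace (G ⧸ Γ) := TopologicalSpace.metrizableSpaceMetric _
  obtain ⟨u, rfl⟩ := QuotientGroup.mk_surjective y
  let Γ' : Subgroup G := Γ.comap (MulAut.conj u⁻¹).toMonoidHom
  have hΓ' : ∀ g, g ∈ Γ' ↔ u⁻¹ * g * u ∈ Γ := fun g => by simp [Γ']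
  have hK : Cc ⊤ Γ' := by
    choose Kx hKx hKn using fun x : G => exists_compact_mem_nhds x
    obtain ⟨t, ht⟩ := (isCompact_univ (X := G ⧸ Γ)).elim_finite_subcover
      (fun x : G => (QuotientGroup.mk : G → G ⧸ Γ) '' interior (Kx x))
      (fun x => QuotientGroup.isOpenMap_coe _ isOpen_interior) (fun z _ => by
        obtain ⟨x, rfl⟩ := QuotientGroup.mk_surjective z
        exact mem_iUnion.2 ⟨x, x, mem_interior_iff_mem_nhds.2 (hKn x), rfl⟩)
    refine ⟨(fun z => z * u⁻¹) '' ⋃ x ∈ t, Kx x, (t.isCompact_biUnion fun x _ => hKx x).image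
      (by fun_prop), fun _ _ => trivial, fun s _ => ?_⟩
    obtain ⟨x, hx, y, hy, e⟩ := mem_iUnion₂.1 (ht (mem_univ ((s * u : G) : G ⧸ Γ)))
    refine ⟨_, ⟨y, mem_iUnion₂.2 ⟨x, hx, interior_subset hy⟩, rfl⟩, (hΓ' _).2 ?_⟩
    simpa [mul_assoc] using QuotientGroup.eq.1 e
  obtain ⟨V, hV, hV1⟩ := exists_compact_mem_nhds (1 : G)
  let G' : Subgroup G := Subgroup.closure (insert a V)
  have ha : a ∈ G' := Subgroup.subset_closure (mem_insert _ _)
  have hGo : IsOpen (G' : Set G) := G'.isOpen_of_mem_nhds (mem_of_superset hV1 fun z hz =>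
    Subgroup.subset_closure (mem_insert_of_mem _ hz))
  have hGc := (G'.isClosed_of_isOpen hGo).isClosedEmbedding_subtypeVal
  have : LocallyCompactSpace G' := hGo.locallyCompactSpace
  have hK' : Cc (⊤ : Subgroup G') (Γ'.subgroupOf G') := by
    obtain ⟨K, hKc, hKS, h3⟩ := hK.op G' hGo
    refine ⟨(↑) ⁻¹' K, hGc.isCompact_preimage hKc, fun _ _ => trivial, fun s _ => ?_⟩
    obtain ⟨κ, hκ, hκs⟩ := h3 s s.2
    exact ⟨⟨κ, hKS hκ⟩, hκ, Subgroup.mem_subgroupOf.2 hκs⟩
  have hnil : Hs (⊤ : Subgroup G') (k + 1) = ⊥ := by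
    rw [Hs_eq, ← Subgroup.map_subtype_inj, Subgroup.map_bot,
      Subgroup.top_subtype_lowerCentralSeries, eq_bot_iff, ← hk]
    exact Subgroup.lowerCentralSeries_mono _ le_top
  have hcg : Subgroup.closure ((↑) ⁻¹' (insert a V) : Set G') = ⊤ :=
    Subgroup.closure_preimage_eq_top (insert a V)
  have hcp : IsCompact ((↑) ⁻¹' (insert a V) : Set G') := hGc.isCompact_preimage (hV.insert a)
  obtain ⟨A, hA, h1, hAk⟩ := exFilt hcp hcg hK' hnil
  refine count (X := G ⧸ Γ) hA h1 hAk (π := fun g : G' => (((g : G) * u : G) : G ⧸ Γ))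
    (QuotientGroup.continuous_mk.comp (by fun_prop)) (fun g g' => ?_) F.continuous ⟨a, ha⟩ x R
    fun σ w => ?_
  · rw [QuotientGroup.eq, Subgroup.mem_subgroupOf, hΓ']
    simp [mul_assoc]
  · have := H σ w
    rw [hsm] at this
    simpa only [SubmonoidClass.mk_pow] using this

end Pool.Agent.H96.NI
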