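import Mathlib

/-! A nilpotent Lie group realising polynomial phases as nilsequences. -/

namespace Pool.Agent.H96.NI

open Filter Topology Set
open scoped commutatorElement Manifold ContDiff

set_option linter.unusedSectionVars false

variable {m : ℕ}

/-- translation acting on coefficient vectors -/
def tr (s : ℝ) (p : Fin m → ℝ) : Fin m → ℝ :=
  fun i => ∑ j : Fin m, ((j : ℕ).choose i : ℝ) * s ^ ((j : ℕ) - i) * p j

/-- evaluation of a coefficient vector -/
def ev (p : Fin m → ℝ) (x : ℝ) : ℝ := ∑ i, p i * x ^ (i : ℕ)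

lemma ev_tr (s : ℝ) (p : Fin m → ℝ) (x : ℝ) : ev (tr s p) x = ev p (x + s) := by
  simp only [ev, tr, Finset.sum_mul]
  rw [Finset.sum_comm]
  refine Finset.sum_congr rfl fun j _ => ?_
  rw [add_pow, Finset.mul_sum,
    Fin.sum_univ_eq_sum_range (fun i => ((j : ℕ).choose i : ℝ) * s ^ ((j : ℕ) - i) * p j * x ^ i) m]
  symm
  refine Finset.sum_subset_zero_on_sdiff (Finset.range_subset_range.2 j.2) (fun i hi => ?_)
    fun i _ => by ring
  simp only [Finset.mem_sdiff, Finset.mem_range, not_lt] at hi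
  simp [Nat.choose_eq_zero_of_lt hi.2]

lemma ev_add (p q : Fin m → ℝ) (x : ℝ) : ev (p + q) x = ev p x + ev q x := by
  simp [ev, add_mul, Finset.sum_add_distrib]

lemma ev_neg (p : Fin m → ℝ) (x : ℝ) : ev (-p) x = -ev p x := by
  simp [ev]

lemma ev_zero (x : ℝ) : ev (0 : Fin m → ℝ) x = 0 := by simp [ev]

lemma ev_inj {p q : Fin m → ℝ} (h : ∀ x, ev p x = ev q x) : p = q := by
  have : ∑ i : Fin m, Polynomial.monomial (i : ℕ) (p i) =
      ∑ i : Fin m, Polynomial.monomial (i : ℕ) (q i) := by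
    refine Polynomial.funext fun x => ?_
    simpa [ev, Polynomial.eval_finsetSum] using h x
  funext i
  have := congrArg (fun P => Polynomial.coeff P i) this
  simpa [Polynomial.coeff_monomial, Fin.val_inj] using this

lemma tr_top (s : ℝ) {p : Fin m → ℝ} {j : Fin m} (h : ∀ i, j < i → p i = 0) : tr s p j = p j := by
  rw [tr, Finset.sum_eq_single j (fun i _ hi => ?_) (by simp)]
  · simp
  · rcases lt_or_gt_of_ne hi with h' | h'
    · simp [Nat.choose_eq_zero_of_lt h']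
    · simp [h i h']

lemma tr_zero (p : Fin m → ℝ) : tr 0 p = p := ev_inj fun x => by simp [ev_tr]

/-- the group of pairs (polynomials, translation) -/
def GG (ι : Type) (m : ℕ) : Type := (ι → Fin m → ℝ) × ℝ

variable {ι : Type} [Fintype ι]

instance : TopologicalSpace (GG ι m) := inferInstanceAs (TopologicalSpace ((ι → Fin m → ℝ) × ℝ))

instance : T2Space (GG ι m) := inferInstanceAs (T2Space ((ι → Fin m → ℝ) × ℝ))

instance : SecondCountableTopology (GG ι m) :=
  inferInstanceAs (SecondCountableTopology ((ι → Fin m → ℝ) × ℝ))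

instance : ChartedSpace ((ι → Fin m → ℝ) × ℝ) (GG ι m) := chartedSpaceSelf _

noncomputable instance : Group (GG ι m) where
  mul g h := (fun t => g.1 t + tr g.2 (h.1 t), g.2 + h.2)
  one := (0, 0)
  inv g := (fun t => -tr (-g.2) (g.1 t), -g.2)
  mul_assoc a b c := Prod.ext (funext fun t => ev_inj fun x => by
    change ev (a.1 t + tr a.2 (b.1 t) + tr (a.2 + b.2) (c.1 t)) x =
      ev (a.1 t + tr a.2 (b.1 t + tr b.2 (c.1 t))) x
    simp [ev_add, ev_tr, add_assoc]) (add_assoc _ _ _)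
  one_mul a := Prod.ext (funext fun t => by
    change 0 + tr 0 (a.1 t) = _
    simp [tr_zero]) (zero_add _)
  mul_one a := Prod.ext (funext fun t => ev_inj fun x => by
    change ev (a.1 t + tr a.2 0) x = _
    simp [ev_add, ev_tr, ev_zero]) (add_zero _)
  inv_mul_cancel a := Prod.ext (funext fun t => by
    change -tr (-a.2) (a.1 t) + tr (-a.2) (a.1 t) = 0
    simp) (neg_add_cancel _)

lemma mul_1 (g h : GG ι m) (t : ι) : (g * h).1 t = g.1 t + tr g.2 (h.1 t) := rfl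
lemma mul_2 (g h : GG ι m) : (g * h).2 = g.2 + h.2 := rfl
lemma inv_1 (g : GG ι m) (t : ι) : g⁻¹.1 t = -tr (-g.2) (g.1 t) := rfl
lemma inv_2 (g : GG ι m) : g⁻¹.2 = -g.2 := rfl

instance : LieGroup 𝓘(ℝ, (ι → Fin m → ℝ) × ℝ) ∞ (GG ι m) where
  toIsManifold := inferInstanceAs
    (IsManifold 𝓘(ℝ, (ι → Fin m → ℝ) × ℝ) ∞ ((ι → Fin m → ℝ) × ℝ))
  contMDiff_mul := by
    change ContMDiff (𝓘(ℝ, (ι → Fin m → ℝ) × ℝ).prod 𝓘(ℝ, (ι → Fin m → ℝ) × ℝ))
      𝓘(ℝ, (ι → Fin m → ℝ) × ℝ) ∞ fun p : ((ι → Fin m → ℝ) × ℝ) × ((ι → Fin m → ℝ) × ℝ) =>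
        ((fun t => p.1.1 t + tr p.1.2 (p.2.1 t), p.1.2 + p.2.2) : (ι → Fin m → ℝ) × ℝ)
    rw [← modelWithCornersSelf_prod, chartedSpaceSelf_prod]
    refine ContDiff.contMDiff ?_
    unfold tr
    fun_prop
  contMDiff_inv := by
    change ContMDiff 𝓘(ℝ, (ι → Fin m → ℝ) × ℝ) 𝓘(ℝ, (ι → Fin m → ℝ) × ℝ) ∞
      fun p : (ι → Fin m → ℝ) × ℝ => ((fun t => -tr (-p.2) (p.1 t), -p.2) : (ι → Fin m → ℝ) × ℝ)
    refine ContDiff.contMDiff ?_
    unfold tr
    fun_prop

lemma cm_1 (g h : GG ι m) (t : ι) :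
    ⁅g, h⁆.1 t = g.1 t - tr h.2 (g.1 t) + (tr g.2 (h.1 t) - h.1 t) := ev_inj fun x => by
  simp only [commutatorElement_def, mul_1, mul_2, inv_1, inv_2, sub_eq_add_neg, ev_add, ev_tr,
    ev_neg]
  ring_nf

lemma cm_2 (g h : GG ι m) : ⁅g, h⁆.2 = 0 := by
  simp only [commutatorElement_def, mul_2, inv_2]; ring

lemma nil (hm : 1 ≤ m) : Subgroup.lowerCentralSeries (⊤ : Subgroup (GG ι m)) m = ⊥ := by
  let W : ℕ → Subgroup (GG ι m) := fun i =>
    { carrier := {g | g.2 = 0 ∧ ∀ t (j : Fin m), m ≤ j + i → g.1 t j = 0}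
      one_mem' := ⟨rfl, fun _ _ _ => rfl⟩
      mul_mem' := by
        rintro g h ⟨a1, a2⟩ ⟨b1, b2⟩
        exact ⟨by rw [mul_2, a1, b1, add_zero], fun t j hj => by
          rw [mul_1, a1, tr_zero, Pi.add_apply, a2 t j hj, b2 t j hj, add_zero]⟩
      inv_mem' := by
        rintro g ⟨a1, a2⟩
        exact ⟨by rw [inv_2, a1, neg_zero], fun t j hj => by
          rw [inv_1, a1, neg_zero, tr_zero, Pi.neg_apply, a2 t j hj, neg_zero]⟩ }
  have key : ∀ i, Subgroup.lowerCentralSeries (⊤ : Subgroup (GG ι m)) (i + 1) ≤ W (i + 1) := by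
    intro i
    induction i with
    | zero =>
      refine Subgroup.commutator_le.2 fun g _ h _ => ⟨cm_2 g h, fun t j hj => ?_⟩
      have : ∀ p : Fin m → ℝ, ∀ i, j < i → p i = 0 := fun p i hi => by
        have := i.2; have : (j : ℕ) < i := hi; omega
      simp [cm_1, tr_top _ (this _)]
    | succ i ih =>
      refine Subgroup.commutator_le.2 fun g hg h _ => ⟨cm_2 g h, fun t j hj => ?_⟩
      obtain ⟨a1, a2⟩ := ih hg
      have : ∀ i, j < i → g.1 t i = 0 := fun i' hi => a2 t i' (by have : (j : ℕ) < i' := hi; omega)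
      simp [cm_1, tr_top _ this, a1, tr_zero]
  obtain ⟨n, rfl⟩ : ∃ n, m = n + 1 := ⟨m - 1, by omega⟩
  refine le_bot_iff.1 fun g hg => ?_
  obtain ⟨a1, a2⟩ := key n hg
  exact Prod.ext (funext fun t => funext fun j => a2 t j (by omega)) a1

lemma tr_int (z : ℤ) {p : Fin m → ℝ} (h : ∀ j, ∃ w : ℤ, p j = w) (j : Fin m) :
    ∃ w : ℤ, tr z p j = w := by
  choose w hw using h
  exact ⟨∑ i : Fin m, ((i : ℕ).choose j : ℤ) * z ^ ((i : ℕ) - j) * w i, by simp [tr, hw]⟩

/-- the integer points -/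
def Lat (ι : Type) [Fintype ι] (m : ℕ) : Subgroup (GG ι m) where
  carrier := {g | (∀ t j, ∃ z : ℤ, g.1 t j = z) ∧ ∃ z : ℤ, g.2 = z}
  one_mem' := ⟨fun _ _ => ⟨0, by simp; rfl⟩, 0, by simp; rfl⟩
  mul_mem' := by
    rintro g h ⟨a1, z, a2⟩ ⟨b1, w, b2⟩
    refine ⟨fun t j => ?_, z + w, by rw [mul_2, a2, b2, Int.cast_add]⟩
    obtain ⟨u, hu⟩ := a1 t j
    obtain ⟨v, hv⟩ := tr_int z (b1 t) j
    exact ⟨u + v, by rw [mul_1, a2, Pi.add_apply, hu, hv, Int.cast_add]⟩
  inv_mem' := by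
    rintro g ⟨a1, z, a2⟩
    refine ⟨fun t j => ?_, -z, by rw [inv_2, a2, Int.cast_neg]⟩
    obtain ⟨v, hv⟩ := tr_int (-z) (a1 t) j
    exact ⟨-v, by rw [inv_1, a2, ← Int.cast_neg, Pi.neg_apply, hv, Int.cast_neg]⟩

instance : DiscreteTopology (Lat ι m) := by
  refine discreteTopology_iff_isOpen_singleton.2 fun x => ?_
  have h0 : ∀ a b : ℝ, (∃ z : ℤ, a = z) → (∃ z : ℤ, b = z) → dist a b < 1 → a = b := by
    rintro _ _ ⟨z, rfl⟩ ⟨w, rfl⟩ h
    rw [Real.dist_eq, ← Int.cast_sub, ← Int.cast_abs, ← Int.cast_one, Int.cast_lt,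
      Int.abs_lt_one_iff, sub_eq_zero] at h
    rw [h]
  let c : Lat ι m → (ι → Fin m → ℝ) × ℝ := fun y => y.1
  have hc : Continuous c := continuous_subtype_val
  convert (Metric.isOpen_ball (x := c x) (ε := 1)).preimage hc using 1
  ext y
  simp only [mem_singleton_iff, mem_preimage, Metric.mem_ball]
  refine ⟨fun e => by simp [e], fun h => Subtype.ext (Prod.ext (funext fun t => funext fun j => ?_) ?_)⟩
  · rw [Prod.dist_eq, max_lt_iff] at h
    exact h0 _ _ (y.2.1 t j) (x.2.1 t j)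
      (((dist_le_pi_dist _ _ j).trans (dist_le_pi_dist _ _ t)).trans_lt h.1)
  · rw [Prod.dist_eq, max_lt_iff] at h
    exact h0 _ _ y.2.2 x.2.2 h.2

instance : CompactSpace (GG ι m ⧸ Lat ι m) := by
  let φ : (ι → Fin m → ℝ) × ℝ → GG ι m := fun p => (fun t => tr p.2 (p.1 t), p.2)
  have hφ : Continuous φ := by
    change Continuous fun p : (ι → Fin m → ℝ) × ℝ =>
      ((fun t => tr p.2 (p.1 t), p.2) : (ι → Fin m → ℝ) × ℝ)
    unfold tr; fun_prop
  have := (isCompact_Icc (a := (0 : (ι → Fin m → ℝ) × ℝ)) (b := 1)).image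
    ((QuotientGroup.continuous_mk (N := Lat ι m)).comp hφ)
  refine ⟨(eq_univ_iff_forall.2 fun y => ?_ : _ = univ) ▸ this⟩
  obtain ⟨g, rfl⟩ := QuotientGroup.mk_surjective y
  set s := Int.fract g.2 with hs
  refine ⟨(fun t j => Int.fract (tr (-s) (g.1 t) j), s),
    ⟨⟨fun t j => Int.fract_nonneg _, Int.fract_nonneg _⟩,
      fun t j => (Int.fract_lt_one _).le, (Int.fract_lt_one _).le⟩, QuotientGroup.eq.2 ⟨?_, ?_⟩⟩
  · intro t j
    have e : tr (-s) (tr s fun j => Int.fract (tr (-s) (g.1 t) j)) =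
        fun j => Int.fract (tr (-s) (g.1 t) j) := ev_inj fun x => by simp [ev_tr]
    refine ⟨⌊tr (-s) (g.1 t) j⌋, ?_⟩
    simp only [mul_1, inv_1, inv_2, φ, e, Pi.add_apply, Pi.neg_apply]
    rw [Int.fract]; ring
  · exact ⟨⌊g.2⌋, by simp only [mul_2, inv_2, φ, hs, Int.fract]; ring⟩

theorem basic (hm : 1 ≤ m) (θ : ι → ℝ) {H : (ι → ℝ) → ℂ} (hH : Continuous H)
    (hp : ∀ v (z : ι → ℤ), H (fun t => v t + z t) = H v) :
    ∃ (g : GG ι m) (x : GG ι m ⧸ Lat ι m) (F : C(GG ι m ⧸ Lat ι m, ℂ)),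
      ∀ n : ℕ, H (fun t => θ t * n ^ m) = F (g ^ n • x) := by
  let f : GG ι m → ℂ := fun g => (max 0 (Real.cos (2 * Real.pi * g.2)) : ℝ) *
    H fun t => ev (g.1 t) (round g.2 - g.2)
  have hf : Continuous f := by
    change Continuous fun g : (ι → Fin m → ℝ) × ℝ => ((max 0 (Real.cos (2 * Real.pi * g.2)) : ℝ) : ℂ) *
      H fun t => ev (g.1 t) (round g.2 - g.2)
    refine continuous_iff_continuousAt.2 fun g => ?_
    rcases (abs_sub_round g.2).lt_or_eq with h | h
    · have h1 : ∀ᶠ u : (ι → Fin m → ℝ) × ℝ in 𝓝 g, |u.2 - round g.2| < 1 / 2 :=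
        (by fun_prop : Continuous fun u : (ι → Fin m → ℝ) × ℝ =>
          |u.2 - round g.2|).continuousAt.eventually (gt_mem_nhds h)
      refine ContinuousAt.congr (f := fun u : (ι → Fin m → ℝ) × ℝ =>
        ((max 0 (Real.cos (2 * Real.pi * u.2)) : ℝ) : ℂ) *
          H fun t => ev (u.1 t) (round g.2 - u.2)) (Continuous.continuousAt ?_) ?_
      · unfold ev; fun_prop
      · filter_upwards [h1] with u hu
        have : round (u.2 - round g.2) = 0 :=
          round_eq_zero_iff.2 ⟨(abs_lt.1 hu).1.le, (abs_lt.1 hu).2⟩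
        rw [round_sub_intCast, sub_eq_zero] at this
        rw [this]
    · have h0 : Real.cos (2 * Real.pi * g.2) < 0 := by
        have e : 2 * Real.pi * g.2 = 2 * Real.pi * (g.2 - round g.2) + round g.2 * (2 * Real.pi) := by
          ring
        rw [e, Real.cos_add_int_mul_two_pi, ← Real.cos_abs, abs_mul, h,
          abs_of_pos Real.two_pi_pos, show 2 * Real.pi * (1 / 2) = Real.pi by ring, Real.cos_pi]
        norm_num
      have h1 : ∀ᶠ u : (ι → Fin m → ℝ) × ℝ in 𝓝 g, Real.cos (2 * Real.pi * u.2) < 0 :=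
        (by fun_prop : Continuous fun u : (ι → Fin m → ℝ) × ℝ =>
          Real.cos (2 * Real.pi * u.2)).continuousAt.eventually (gt_mem_nhds h0)
      refine ContinuousAt.congr (f := fun _ => 0) continuousAt_const ?_
      filter_upwards [h1] with u hu
      simp [max_eq_left hu.le]
  have hinv : ∀ g γ : GG ι m, γ ∈ Lat ι m → f (g * γ) = f g := by
    rintro g γ ⟨h1, z, h2⟩
    choose w hw using h1
    simp only [f, mul_1, mul_2, h2, round_add_intCast, ev_add, ev_tr]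
    congr 1
    · rw [mul_add, mul_comm _ (z : ℝ), Real.cos_add_int_mul_two_pi]
    · rw [← hp (fun t => ev (g.1 t) (round g.2 - g.2)) fun t => ∑ j, w t j * round g.2 ^ (j : ℕ)]
      congr 1
      funext t
      simp [ev, hw]
  let a : GG ι m := (fun t j => θ t * m.choose j, 1)
  have ha : ∀ n : ℕ, (a ^ n).2 = n ∧ ∀ t x, ev ((a ^ n).1 t) x = θ t * ((x + n) ^ m - x ^ m) := by
    intro n
    induction n with
    | zero => exact ⟨by simp; rfl, fun t x => by
        rw [pow_zero, Nat.cast_zero, add_zero, sub_self, mul_zero]; exact ev_zero x⟩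
    | succ n ih =>
      refine ⟨by rw [pow_succ, mul_2, ih.1]; simp [a], fun t x => ?_⟩
      have e : ∀ y, ev (a.1 t) y = θ t * ((y + 1) ^ m - y ^ m) := fun y => by
        rw [add_pow, Finset.sum_range_succ, ev,
          Fin.sum_univ_eq_sum_range (fun j => θ t * m.choose j * y ^ j) m]
        simp [Finset.mul_sum, mul_comm, mul_left_comm]
      rw [pow_succ, mul_1, ev_add, ev_tr, ih.1, ih.2, e]
      push_cast; ring
  refine ⟨a, ((1 : GG ι m) : GG ι m ⧸ Lat ι m), ⟨Quotient.lift f fun g g' h => ?_,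
    hf.quotient_lift _⟩, fun n => ?_⟩
  · rw [← hinv g _ (QuotientGroup.leftRel_apply.1 h), mul_inv_cancel_left]
  · change _ = f (a ^ n * 1)
    have : Real.cos (2 * Real.pi * n) = 1 := by rw [mul_comm, Real.cos_nat_mul_two_pi]
    simp [f, (ha n).1, (ha n).2, this, zero_pow (by omega : m ≠ 0)]

end Pool.Agent.H96.NI
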