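import Mathlib

/-! Digit constructions for polynomial phases on sums of sparse powers. -/

namespace Pool.Agent.H96.NI

open Filter Topology Set

lemma digitW {B Q : ℕ} (hQ : 1 ≤ Q) (hQB : Q ∣ B) (hB : 2 ≤ B) (d : ℕ → ℕ) (hd : ∀ e, d e ≤ 1) :
    ∃ θ : ℝ, ∀ e, ∃ z : ℤ, ∃ ε : ℝ, 0 ≤ ε ∧ ε ≤ 2 / B ∧ θ * B ^ e = z + d e / Q + ε := by
  have hB' : (2 : ℝ) ≤ B := by exact_mod_cast hB
  have hQ' : (1 : ℝ) ≤ Q := by exact_mod_cast hQ
  have hr : (B : ℝ)⁻¹ < 1 := inv_lt_one_of_one_lt₀ (by linarith)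
  have hg := hasSum_geometric_of_lt_one (r := (B : ℝ)⁻¹) (by positivity) hr
  have hle : ∀ e j, (d e : ℝ) / Q * (B : ℝ)⁻¹ ^ j ≤ (B : ℝ)⁻¹ ^ j := fun e j =>
    mul_le_of_le_one_left (by positivity) ((div_le_one (by positivity)).2
      ((by exact_mod_cast hd e : (d e : ℝ) ≤ 1).trans hQ'))
  have hs : ∀ e, Summable fun j => (d (j + e) : ℝ) / Q * (B : ℝ)⁻¹ ^ j := fun e =>
    Summable.of_nonneg_of_le (fun j => by positivity) (fun j => hle _ j) hg.summable
  let T : ℕ → ℝ := fun e => ∑' j, (d (j + e) : ℝ) / Q * (B : ℝ)⁻¹ ^ j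
  have hT : ∀ e, T e = d e / Q + T (e + 1) / B := by
    intro e
    simp only [T]
    rw [(hs e).tsum_eq_zero_add, ← tsum_div_const]
    simp only [zero_add, pow_zero, mul_one]
    congr 2
    funext j
    rw [show j + 1 + e = j + (e + 1) by ring, pow_succ]
    field_simp
  have hT2 : ∀ e, T e ≤ 2 := fun e => by
    refine ((hs e).tsum_le_tsum (fun j => hle _ j) hg.summable).trans ?_
    rw [hg.tsum_eq]
    have : (B : ℝ)⁻¹ ≤ 1 / 2 := by rw [← one_div]; gcongr
    rw [inv_le_comm₀ (by linarith) (by norm_num)]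
    linarith
  have hz : ∀ e, ∃ z : ℤ, T 0 * B ^ e = z + T e := by
    intro e
    induction e with
    | zero => exact ⟨0, by simp⟩
    | succ e ih =>
      obtain ⟨z, hz⟩ := ih
      obtain ⟨c, hc⟩ := hQB
      refine ⟨z * B + d e * c, ?_⟩
      have : (B : ℝ) = Q * c := by exact_mod_cast hc
      rw [pow_succ, ← mul_assoc, hz, hT e]
      push_cast
      field_simp
      rw [this]; ring
  refine ⟨T 0, fun e => ?_⟩
  obtain ⟨z, h⟩ := hz e
  exact ⟨z, T (e + 1) / B, div_nonneg (tsum_nonneg fun j => by positivity) (by positivity),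
    by gcongr; exact hT2 _, by rw [h, hT e, add_assoc]⟩

variable {m : ℕ}

lemma fn_ms {b : ℕ} (hb : m < b) {f f' : Fin m → ℕ} (h : ∑ t, b ^ f t = ∑ t, b ^ f' t) :
    Finset.univ.val.map f = Finset.univ.val.map f' := by
  classical
  obtain ⟨N, hN⟩ : ∃ N, ∀ t, f t < N ∧ f' t < N :=
    ⟨Finset.univ.sup f + Finset.univ.sup f' + 1, fun t => by
      have := Finset.le_sup (f := f) (Finset.mem_univ t)
      have := Finset.le_sup (f := f') (Finset.mem_univ t)
      omega⟩
  let c : (Fin m → ℕ) → Fin N → Fin b := fun g n =>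
    ⟨(Finset.univ.filter fun t => g t = n).card, (Finset.card_le_univ _).trans_lt (by simpa)⟩
  have hc : ∀ g : Fin m → ℕ, (∀ t, g t < N) → (finFunctionFinEquiv (c g) : ℕ) = ∑ t, b ^ g t := by
    intro g hg
    rw [finFunctionFinEquiv_apply, ← Finset.sum_fiberwise_of_maps_to (t := Finset.univ)
      (g := fun t => (⟨g t, hg t⟩ : Fin N)) (fun _ _ => Finset.mem_univ _)]
    refine Finset.sum_congr rfl fun n _ => ?_
    rw [Finset.sum_congr rfl (g := fun _ => b ^ (n : ℕ)) (fun t ht => by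
      rw [← (Finset.mem_filter.1 ht).2])]
    simp [c, Fin.ext_iff]
  have e : c f = c f' := finFunctionFinEquiv.injective (Fin.ext (by
    rw [hc f fun t => (hN t).1, hc f' fun t => (hN t).2, h]))
  ext n
  rw [Multiset.count_map, Multiset.count_map]
  by_cases hn : n < N
  · have := congrArg Fin.val (congrFun e ⟨n, hn⟩)
    simp only [c, eq_comm (b := n)] at this
    exact this
  · rw [Multiset.filter_eq_nil.2 fun t _ (e : n = f t) => hn (e ▸ (hN t).1),
      Multiset.filter_eq_nil.2 fun t _ (e : n = f' t) => hn (e ▸ (hN t).2)]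

open Classical in
/-- number of injective self-maps -/
noncomputable def Nn (m : ℕ) : ℕ :=
  (Finset.univ.filter fun g : Fin m → Fin m => Function.Injective g).card

/-- the base -/
noncomputable def Bs (m : ℕ) : ℕ := 2 * Nn m * (6 * m ^ m)

/-- the sparse sequence -/
noncomputable def Xs (m n : ℕ) : ℕ := Bs m ^ (m + 1) ^ n

lemma Nn_pos : 1 ≤ Nn m := Finset.card_pos.2 ⟨id, by simp [Function.injective_id]⟩

lemma Bs_gt (hm : 1 ≤ m) : m < Bs m := by
  have := Nn_pos (m := m)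
  have := Nat.le_self_pow (by omega : m ≠ 0) m
  unfold Bs
  nlinarith

lemma Xs_mem (hm : 1 ≤ m) {u u' : Fin m → ℕ} (h : ∑ t, Xs m (u t) = ∑ t, Xs m (u' t)) (t : Fin m) :
    ∃ t', u' t' = u t := by
  have := fn_ms (Bs_gt hm) h
  have h2 : (m + 1) ^ u t ∈ Finset.univ.val.map fun t => (m + 1) ^ u' t :=
    this ▸ Multiset.mem_map_of_mem _ (Finset.mem_univ t)
  obtain ⟨t', -, e⟩ := Multiset.mem_map.1 h2
  exact ⟨t', Nat.pow_right_injective (by omega) e⟩

/-- a periodic cut-off -/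
noncomputable def H0 (t : ℝ) : ℝ := max 0 (min 1 (1 / 2 - Real.cos (2 * Real.pi * t)))

lemma H0_int (t : ℝ) (z : ℤ) : H0 (t + z) = H0 t := by
  rw [H0, mul_add, mul_comm _ (z : ℝ), Real.cos_add_int_mul_two_pi, H0]

lemma H0_cont : Continuous H0 := by unfold H0; fun_prop

lemma H0_mem (t : ℝ) : 0 ≤ H0 t ∧ H0 t ≤ 1 :=
  ⟨le_max_left _ _, max_le zero_le_one (min_le_left _ _)⟩

theorem bstar (hm : 1 ≤ m) (c : ℕ → Prop) [DecidablePred c] : ∃ θ : ℝ, ∀ u : Fin m → ℕ,
    Function.Injective u →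
      H0 (θ * ((∑ t, Xs m (u t) : ℕ) : ℝ) ^ m) = if c (∑ t, Xs m (u t)) then 1 else 0 := by
  classical
  have hN := Nn_pos (m := m)
  obtain ⟨θ, hθ⟩ := digitW (B := Bs m) (Q := 2 * Nn m) (by omega) (dvd_mul_right _ _)
    (by have := Bs_gt hm; omega) (fun e => if ∃ u : Fin m → ℕ, Function.Injective u ∧
      ∑ t, (m + 1) ^ u t = e ∧ c (∑ t, Xs m (u t)) then 1 else 0) (fun e => by split_ifs <;> simp)
  choose z ε h0 h1 h2 using hθ
  refine ⟨θ, fun u hu => ?_⟩
  have hsum : ∀ g : Fin m → Fin m, Function.Injective g →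
      ∑ t, Xs m (u (g t)) = ∑ t, Xs m (u t) := fun g hg =>
    (Finite.injective_iff_bijective.1 hg).sum_comp fun t => Xs m (u t)
  have hd : ∀ g : Fin m → Fin m, (∃ u' : Fin m → ℕ, Function.Injective u' ∧
      ∑ t, (m + 1) ^ u' t = ∑ t, (m + 1) ^ u (g t) ∧ c (∑ t, Xs m (u' t))) ↔
      Function.Injective g ∧ c (∑ t, Xs m (u t)) := by
    intro g
    constructor
    · rintro ⟨u', hu', e, hc⟩
      have e' := fn_ms (Nat.lt_succ_self m) e
      have hn : (Finset.univ.val.map fun t => u (g t)).Nodup :=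
        e' ▸ Finset.univ.nodup.map hu'
      have hg : Function.Injective g := fun a b hab =>
        Multiset.inj_on_of_nodup_map hn a (Finset.mem_univ_val _) b (Finset.mem_univ_val _)
          (by rw [hab])
      refine ⟨hg, ?_⟩
      have := congrArg (fun s => (s.map (Xs m)).sum) e'
      simp only [Multiset.map_map] at this
      rw [← hsum g hg]
      exact (show ∑ t, Xs m (u' t) = ∑ t, Xs m (u (g t)) from this) ▸ hc
    · rintro ⟨hg, hc⟩
      exact ⟨fun t => u (g t), hu.comp hg, rfl, by rwa [hsum g hg]⟩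
  have e1 : θ * ((∑ t, Xs m (u t) : ℕ) : ℝ) ^ m =
      ∑ g : Fin m → Fin m, θ * (Bs m : ℝ) ^ ∑ t, (m + 1) ^ u (g t) := by
    rw [← Finset.mul_sum]
    push_cast
    rw [Fintype.sum_pow]
    simp [Xs, Finset.prod_pow_eq_pow_sum]
  simp only [h2, hd, Finset.sum_add_distrib] at e1
  set η := ∑ g : Fin m → Fin m, ε (∑ t, (m + 1) ^ u (g t)) with hη
  have hη0 : 0 ≤ η := Finset.sum_nonneg fun _ _ => h0 _
  have hη1 : η ≤ 1 / 6 := by
    refine (Finset.sum_le_card_nsmul _ _ _ fun g _ => h1 _).trans ?_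
    have hN' : (1 : ℝ) ≤ Nn m := by exact_mod_cast hN
    have hm' : (0 : ℝ) < (m : ℝ) ^ m := by positivity
    simp only [Finset.card_univ, Fintype.card_fun, Fintype.card_fin, nsmul_eq_mul, Bs]
    push_cast
    rw [← mul_div_assoc, div_le_div_iff₀ (by positivity) (by norm_num)]
    nlinarith
  have hcos : 1 / 2 ≤ Real.cos (2 * Real.pi * η) := by
    rw [← Real.cos_pi_div_three]
    have := Real.pi_pos
    exact Real.cos_le_cos_of_nonneg_of_le_pi (by positivity) (by linarith) (by nlinarith)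
  rw [e1, ← Int.cast_sum, add_assoc, add_comm, H0_int]
  split_ifs with hc
  · have : ∑ g : Fin m → Fin m, ((if Function.Injective g ∧ c (∑ t, Xs m (u t)) then 1 else 0 : ℕ) : ℝ)
        / (2 * Nn m : ℕ) = 1 / 2 := by
      rw [← Finset.sum_div, ← Nat.cast_sum]
      simp only [hc, and_true, Finset.sum_boole, Nat.cast_id]
      have hN' : (0 : ℝ) < Nn m := by exact_mod_cast hN
      rw [div_eq_iff (by positivity)]
      push_cast
      rw [show (1 : ℝ) / 2 * (2 * Nn m) = Nn m by ring, Nn]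
    rw [this, H0, mul_add, show 2 * Real.pi * (1 / 2) = Real.pi by ring, add_comm, Real.cos_add_pi,
      min_eq_left (by linarith), max_eq_right zero_le_one]
  · simp only [hc, and_false, if_false, Nat.cast_zero, zero_div, Finset.sum_const_zero, zero_add]
    exact max_eq_left (min_le_of_right_le (by linarith))

theorem realInt (hm : 1 ≤ m) (x : ℕ → ℝ) (hx : ∀ n, x n ∈ Ico (0 : ℝ) 1) : ∃ θ : ℕ → ℝ,
    ∀ u : Fin m → ℕ, Function.Injective u →
      ∑' j, H0 (θ j * ((∑ t, Xs m (u t) : ℕ) : ℝ) ^ m) * ((2 : ℝ) ^ (j + 1))⁻¹ =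
        x (∑ t, Xs m (u t)) := by
  choose θ hθ using fun j => bstar hm fun n => Real.digits (x n) 2 j = 1
  refine ⟨θ, fun u hu => ?_⟩
  rw [← Real.ofDigits_digits (b := 2) (by norm_num) (hx _), Real.ofDigits]
  congr 1
  funext j
  rw [hθ j u hu, Real.ofDigitsTerm]
  generalize Real.digits _ 2 j = i
  fin_cases i <;> simp

lemma tail (y : ℕ → ℝ) (J : ℕ) : |∑' j, H0 (y j) * ((2 : ℝ) ^ (j + 1))⁻¹ -
    ∑ j : Fin J, H0 (y j) * ((2 : ℝ) ^ ((j : ℕ) + 1))⁻¹| ≤ (1 / 2) ^ J := by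
  have hg : HasSum (fun j : ℕ => ((2 : ℝ) ^ (j + J + 1))⁻¹) ((1 / 2) ^ J) := by
    have := hasSum_geometric_two.mul_left ((1 / 2) ^ J / 2)
    rw [div_mul_cancel₀ _ (two_ne_zero)] at this
    refine this.congr_fun fun j => ?_
    simp [pow_add]; ring
  have hs : Summable fun j => H0 (y j) * ((2 : ℝ) ^ (j + 1))⁻¹ :=
    Summable.of_nonneg_of_le (fun j => mul_nonneg (H0_mem _).1 (by positivity))
      (fun j => mul_le_of_le_one_left (by positivity) (H0_mem _).2)
      (by simpa [pow_succ] using summable_geometric_two.mul_left 2⁻¹)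
  rw [Fin.sum_univ_eq_sum_range (fun j => H0 (y j) * ((2 : ℝ) ^ (j + 1))⁻¹),
    ← hs.sum_add_tsum_nat_add J, add_sub_cancel_left,
    abs_of_nonneg (tsum_nonneg fun j => mul_nonneg (H0_mem _).1 (by positivity)), ← hg.tsum_eq]
  exact ((summable_nat_add_iff J).2 hs).tsum_le_tsum
    (fun j => mul_le_of_le_one_left (by positivity) (H0_mem _).2) hg.summable

end Pool.Agent.H96.NI
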