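import Mathlib
import Pool.Agent.H96.NI3

/-! Polynomial sequences in nilpotent groups. -/

namespace Pool.Agent.H96.NJ

open Set Pool.Agent.H96.NS Polynomial
open Pool.Agent.H96.NI hiding Mu Cj
open scoped commutatorElement

set_option linter.unusedSectionVars false

variable {K : Type} [Group K]

/-- difference operator -/
def dd (a : ℤ) (h : ℤ → K) : ℤ → K := fun t => (h t)⁻¹ * h (t + a)

/-- all `D`-fold differences vanish -/
def Dg : ℕ → (ℤ → K) → Prop
  | 0, h => ∀ t, h t = 1
  | D + 1, h => ∀ a, Dg D (dd a h)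

lemma Dg.succ : ∀ {D : ℕ} {h : ℤ → K}, Dg D h → Dg (D + 1) h
  | 0, h, H => fun a t => by simp [dd, H t, H (t + a)]
  | _ + 1, _, H => fun a => (H a).succ

lemma Dg.mono {D E : ℕ} {h : ℤ → K} (H : Dg D h) (hDE : D ≤ E) : Dg E h := by
  induction hDE with
  | refl => exact H
  | step _ ih => exact ih.succ

lemma Dg.map {B : Type} [CommGroup B] {S : Subgroup K} {θ : K → B} (hm : NI.Mu S θ) :
    ∀ {D : ℕ} {h : ℤ → K}, (∀ t, h t ∈ S) → Dg D h → Dg D fun t => θ (h t)
  | 0, h, _, H => fun t => by simp [H t, hm.one]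
  | D + 1, h, hS, H => fun a => by
    have := Dg.map hm (fun t => S.mul_mem (S.inv_mem (hS t)) (hS (t + a))) (H a)
    convert this using 2 with t
    simp only [dd]
    rw [hm _ (S.inv_mem (hS t)) _ (hS _), hm.inv (hS t)]

lemma Dg.aff (c e : ℤ) : ∀ {D : ℕ} {h : ℤ → K}, Dg D h → Dg D fun t => h (c * t + e)
  | 0, _, H => fun _ => H _
  | D + 1, h, H => fun a => by
    have := (H (c * a)).aff c e
    convert this using 2 with t
    simp only [dd]
    congr 2; ring

lemma Dg.pi {ι : Type} : ∀ {D : ℕ} {h : ℤ → ι → K}, (∀ i, Dg D fun t => h t i) → Dg D h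
  | 0, _, H => fun t => funext fun i => H i t
  | _ + 1, _, H => fun a => Dg.pi fun i => H i a

lemma Dg.poly (c : K) : ∀ (D : ℕ) (r : ℤ[X]), r.degree < D → Dg D fun t => c ^ r.eval t
  | 0, r, hr => fun t => by
    have : r = 0 := by simpa using hr
    simp [this]
  | D + 1, r, hr => fun a => by
    have : (taylor a r - r).degree < D := by
      by_cases h0 : r = 0
      · simp [h0]
      refine (degree_sub_lt_left (degree_taylor r a) (by simpa using h0) (leadingCoeff_taylor ..)).trans_le ?_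
      rw [degree_taylor, degree_eq_natDegree h0] 
      rw [degree_eq_natDegree h0] at hr
      exact_mod_cast Nat.lt_succ_iff.1 (by exact_mod_cast hr)
    convert Dg.poly c D _ this using 2 with t
    simp only [dd, eval_sub, taylor_eval]
    rw [← zpow_neg, ← zpow_add]; congr 1; ring

section comm
variable {B : Type} [CommGroup B]

lemma Dg.mul : ∀ {D : ℕ} {h h' : ℤ → B}, Dg D h → Dg D h' → Dg D (h * h')
  | 0, _, _, H, H' => fun t => by simp [H t, H' t]
  | D + 1, h, h', H, H' => fun a => by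
    convert (H a).mul (H' a) using 1
    funext t; simp only [dd, Pi.mul_apply, mul_inv]; exact mul_mul_mul_comm _ _ _ _

/-- the operator `h ↦ h(2t) h(t)^(-2^j)` -/
def EE (j : ℕ) (h : ℤ → K) : ℤ → K := fun t => h (2 * t) * (h t ^ 2 ^ j)⁻¹

lemma Dg.lower : ∀ {D : ℕ} {h : ℤ → B}, Dg (D + 1) h → Dg D (EE D h)
  | 0, h, H => fun t => by
    have := H t t
    simp only [dd] at this
    simp only [EE, pow_zero, pow_one, two_mul]
    rwa [mul_comm]
  | D + 1, h, H => fun a => by
    have h1 := (H a).lower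
    have h2 := (H a a).aff 2 0
    convert (h1.mul h1).mul h2 using 1
    funext t
    simp only [dd, EE, Pi.mul_apply, add_zero, pow_succ, pow_mul, pow_zero, one_mul, mul_pow,
      inv_pow, mul_inv, inv_inv, show 2 * (t + a) = 2 * t + a + a by ring]
    apply Additive.ofMul.injective
    simp only [ofMul_mul, ofMul_inv]
    abel

lemma Dg.lin {h : ℤ → B} (H : Dg 2 h) (h0 : h 0 = 1) (t : ℤ) : h t = h 1 ^ t := by
  have key : ∀ t, h (t + 1) = h t * h 1 := fun t => by
    have := H 1 t 0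
    simp only [dd, zero_add, h0, inv_one, one_mul] at this
    rw [inv_mul_eq_one, eq_comm, inv_mul_eq_iff_eq_mul] at this
    exact this
  induction t using Int.induction_on with
  | zero => simp [h0]
  | succ n ih => rw [key, ih, zpow_add_one]
  | pred n ih =>
    have := key (-n - 1)
    rw [sub_add_cancel, ih] at this
    rw [zpow_sub_one, this, mul_inv_cancel_right]

end comm

lemma antider (P : ℝ[X]) : ∃ Q : ℝ[X], ∀ t : ℤ, Q.eval ((t : ℝ) + 1) - Q.eval (t : ℝ) = P.eval (t : ℝ) := by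
  induction P using Polynomial.induction_on' with
  | add p q hp hq =>
    obtain ⟨a, ha⟩ := hp
    obtain ⟨b, hb⟩ := hq
    exact ⟨a + b, fun t => by simp only [eval_add]; linarith [ha t, hb t]⟩
  | monomial n c =>
    refine ⟨C (c / (n + 1)) * (Polynomial.bernoulli (n + 1)).map (algebraMap ℚ ℝ), fun t => ?_⟩
    have := congrArg (algebraMap ℚ ℝ) (bernoulli_eval_one_add (n + 1) (t : ℚ))
    rw [map_add, ← eval₂_at_apply, ← eval₂_at_apply, ← eval_map, ← eval_map] at this
    simp only [map_add, map_one, map_intCast, add_comm (1 : ℝ), map_mul, map_natCast, map_pow,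
      Nat.add_sub_cancel] at this
    simp only [eval_mul, eval_C, eval_monomial, this]
    push_cast
    field_simp
    ring

lemma Dg.real : ∀ {D : ℕ} {h : ℤ → Multiplicative ℝ}, Dg D h →
    ∃ P : ℝ[X], ∀ t : ℤ, (h t).toAdd = P.eval (t : ℝ)
  | 0, h, H => ⟨0, fun t => by simp [H t]⟩
  | D + 1, h, H => by
    obtain ⟨P, hP⟩ := (H 1).real
    obtain ⟨Q, hQ⟩ := antider P
    have key : ∀ t : ℤ, (h (t + 1)).toAdd - Q.eval ((t : ℝ) + 1) = (h t).toAdd - Q.eval (t : ℝ) := by
      intro t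
      have := hP t
      simp only [dd, toAdd_mul, toAdd_inv] at this
      linarith [hQ t]
    refine ⟨Q + C ((h 0).toAdd - Q.eval 0), fun t => ?_⟩
    simp only [eval_add, eval_C]
    induction t using Int.induction_on with
    | zero => simp
    | succ n ih => have := key n; push_cast at *; linarith
    | pred n ih =>
      have := key (-n - 1)
      push_cast at *
      rw [sub_add_cancel, sub_add_cancel] at this
      linarith

/-- a filtration -/
structure Fil (A : ℕ → Subgroup K) : Prop where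
  anti : ∀ i, A (i + 1) ≤ A i
  comm : ∀ i j, ∀ x ∈ A i, ∀ y ∈ A j, ⁅x, y⁆ ∈ A (i + j)

lemma Fil.filt {A : ℕ → Subgroup K} (h : Fil A) :
    @Filt K _ ⊤ A ⊤ := by
  let : TopologicalSpace K := ⊤
  exact ⟨h.anti, h.comm, fun i => ⟨{1}, isCompact_singleton,
    singleton_subset_iff.2 (Subgroup.one_mem _), fun s _ => ⟨1, rfl, trivial⟩⟩⟩

/-- depth-limited polynomiality with respect to a filtration -/
def Pd (A : ℕ → Subgroup K) : ℕ → ℕ → (ℤ → K) → Prop
  | 0, i, h => ∀ t, h t ∈ A i
  | m + 1, i, h => Pd A m i h ∧ ∀ a, Pd A m (i + 1) (dd a h)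

lemma exC {A : ℕ → Subgroup K} (hA : Fil A) (m : ℕ) :
    ∃ C : ℕ → Subgroup (ℤ → K), Fil C ∧ ∀ i h, h ∈ C i ↔ Pd A m i h := by
  induction m with
  | zero =>
    exact ⟨fun i => Subgroup.pi univ fun _ => A i, ⟨fun i x hx t _ => hA.anti i (hx t trivial),
      fun i j x hx y hy t _ => hA.comm i j _ (hx t trivial) _ (hy t trivial)⟩,
      fun i h => ⟨fun H t => H t trivial, fun H t _ => H t⟩⟩
  | succ m ih =>
    obtain ⟨C, hC, h⟩ := ih
    let : TopologicalSpace (ℤ → K) := ⊤
    have : IsTopologicalGroup (ℤ → K) := by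
      have : IndiscreteTopology (ℤ → K) := ⟨rfl⟩
      infer_instance
    have hD := dbl_filt hC.filt
    let φ : ℤ → (ℤ → K) →* (ℤ → K) × (ℤ → K) := fun a =>
      { toFun := fun x => (x, fun t => x (t + a)), map_one' := rfl, map_mul' := fun _ _ => rfl }
    refine ⟨fun i => ⨅ a, (dbl hC.filt i).comap (φ a), ⟨fun i => iInf_mono fun a =>
      Subgroup.comap_mono (hD.anti i), fun i j x hx y hy => Subgroup.mem_iInf.2 fun a => ?_⟩,
      fun i x => ?_⟩
    · have := hD.comm i j _ (Subgroup.mem_iInf.1 hx a) _ (Subgroup.mem_iInf.1 hy a)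
      rwa [← map_commutatorElement] at this
    · rw [Subgroup.mem_iInf]
      exact ⟨fun H => ⟨(h _ _).1 (H 0).1, fun a => (h _ _).1 (H a).2⟩,
        fun H a => ⟨(h _ _).2 H.1, (h _ _).2 (H.2 a)⟩⟩

lemma Hs_anti {i j : ℕ} (h : i ≤ j) : Hs (⊤ : Subgroup K) j ≤ Hs ⊤ i := by
  induction h with
  | refl => exact le_rfl
  | step _ ih => exact (cm_le _).trans ih

theorem exB [Group.IsNilpotent K] (D : ℕ) : ∃ B : ℕ → Subgroup (ℤ → K), Fil B ∧
    (∀ i h a, h ∈ B i → dd a h ∈ B (i + 1)) ∧ (∀ E i h, i + E ≤ D → Dg E h → h ∈ B i) ∧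
    ∃ M, B M = ⊥ ∧ ∀ h ∈ B 0, Dg M h := by
  let A : ℕ → Subgroup K := fun i => Hs ⊤ (i / (D + 1))
  have hA : Fil A := ⟨fun i => Hs_anti (Nat.div_le_div_right (Nat.le_succ i)),
    fun i j x hx y hy => Hs_anti (Nat.add_div_le_div_add_div_add_one i j (D + 1))
      (Hs_cm _ _ (Subgroup.commutator_mem_commutator hx hy))⟩
  choose C hC h using exC hA
  let B : ℕ → Subgroup (ℤ → K) := fun i => ⨅ m, C m i
  have hB : ∀ i x, x ∈ B i ↔ ∀ m, Pd A m i x := fun i x => by
    simp only [B, Subgroup.mem_iInf, h]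
  have hd : ∀ i h a, h ∈ B i → dd a h ∈ B (i + 1) := fun i x a hx =>
    (hB _ _).2 fun m => ((hB _ _).1 hx (m + 1)).2 a
  obtain ⟨s, hs⟩ := Hs_bot (⊤ : Subgroup K)
  have hM : B (s * (D + 1)) = ⊥ := by
    refine le_bot_iff.1 fun x hx => funext fun t => ?_
    have := (hB _ _).1 hx 0 t
    simp only [A, Nat.mul_div_cancel _ (Nat.succ_pos D), hs] at this
    exact this
  have hF : Fil B := ⟨fun i => iInf_mono fun m => (hC m).anti i, fun i j x hx y hy =>
    Subgroup.mem_iInf.2 fun m => (hC m).comm i j _ (Subgroup.mem_iInf.1 hx m) _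
      (Subgroup.mem_iInf.1 hy m)⟩
  refine ⟨B, hF, hd, fun E => ?_, _, hM, ?_⟩
  · induction E with
    | zero => intro i x _ hx; rw [show x = 1 from funext hx]; exact Subgroup.one_mem _
    | succ E ih =>
      intro i x hi hx
      refine (hB _ _).2 fun m => ?_
      induction m with
      | zero => intro t; simp [A, Nat.div_eq_of_lt (show i < D + 1 by omega), Hs]
      | succ m ihm => exact ⟨ihm, fun a => (hB _ _).1 (ih (i + 1) _ (by omega) (hx a)) m⟩
  · have : ∀ E i, i + E = s * (D + 1) → ∀ h ∈ B i, Dg E h := by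
      intro E
      induction E with
      | zero => intro i hi x hx t; rw [add_zero] at hi; rw [hi, hM] at hx; rw [hx]; rfl
      | succ E ih => intro i hi x hx a; exact ih (i + 1) (by omega) _ (hd i x a hx)
    exact this _ 0 (zero_add _)

/-- polynomial sequences vanishing at zero -/
def PP (K : Type) [Group K] [Group.IsNilpotent K] : Subgroup (ℤ → K) where
  carrier := {h | h 0 = 1 ∧ ∃ D, Dg D h}
  one_mem' := ⟨rfl, 0, fun _ => rfl⟩
  mul_mem' := by
    rintro x y ⟨hx, D, hD⟩ ⟨hy, E, hE⟩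
    obtain ⟨B, -, -, h1, M, -, h2⟩ := exB (K := K) (D + E)
    exact ⟨by simp [hx, hy], M, h2 _ ((B 0).mul_mem (h1 D 0 x (by omega) hD)
      (h1 E 0 y (by omega) hE))⟩
  inv_mem' := by
    rintro x ⟨hx, D, hD⟩
    obtain ⟨B, -, -, h1, M, -, h2⟩ := exB (K := K) D
    exact ⟨by simp [hx], M, h2 _ ((B 0).inv_mem (h1 D 0 x (by omega) hD))⟩

end Pool.Agent.H96.NJ
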