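import Mathlib
import Pool.Agent.H96.NJ1

/-! First order jets of polynomial sequences through dilation operators. -/

namespace Pool.Agent.H96.NJ

open Set Pool.Agent.H96.NS Polynomial
open Pool.Agent.H96.NI hiding Mu Cj
open scoped commutatorElement

set_option linter.unusedSectionVars false

variable {Q Q' : Type} [Group Q] [Group Q']

/-- killed by finitely many operators `x ↦ S x * (x ^ 2 ^ j)⁻¹` with `e ≤ j` -/
inductive Kl (S : Q →* Q) (e : ℕ) : Q → Prop
  | one : Kl S e 1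
  | step (j : ℕ) (x : Q) : e ≤ j → Kl S e (S x * (x ^ 2 ^ j)⁻¹) → Kl S e x

lemma Kl.map {S : Q →* Q} {S' : Q' →* Q'} {e : ℕ} (π : Q →* Q') (h : ∀ x, π (S x) = S' (π x))
    {x : Q} (hx : Kl S e x) : Kl S' e (π x) := by
  induction hx with
  | one => rw [map_one]; exact .one
  | step j x hj _ ih => exact .step j _ hj (by simpa only [map_mul, map_inv, map_pow, h] using ih)

lemma Kl.lift {B : Type} [CommGroup B] {S : Q →* Q} {S' : B →* B} {e : ℕ} {A : Subgroup Q}
    (hA : ∀ x ∈ A, S x ∈ A) {θ : Q → B} (hm : NI.Mu A θ) (h : ∀ x ∈ A, θ (S x) = S' (θ x))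
    (hk : ∀ x ∈ A, θ x = 1 → Kl S e x) {y : B} (hy : Kl S' e y) :
    ∀ x ∈ A, θ x = y → Kl S e x := by
  induction hy with
  | one => exact hk
  | step j y hj _ ih =>
    intro x hx e
    have h1 := A.pow_mem hx (2 ^ j)
    refine .step j x hj (ih _ (A.mul_mem (hA x hx) (A.inv_mem h1)) ?_)
    rw [hm _ (hA x hx) _ (A.inv_mem h1), hm.inv h1, hm.pow hx, h x hx, e]

/-- the killed elements of a commutative group -/
def KlS {B : Type} [CommGroup B] (S : B →* B) (e : ℕ) : Subgroup B where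
  carrier := {x | Kl S e x}
  one_mem' := .one
  inv_mem' := fun hx => Kl.map (S := S) (S' := S) invMonoidHom (fun x => by simp) hx
  mul_mem' := by
    intro x y hx hy
    simp only [mem_ofPred_eq] at *
    induction hx generalizing y with
    | one => rwa [one_mul]
    | step j x hj _ ih =>
      refine .step j _ hj ?_
      have := ih (Kl.map (S * (powMonoidHom (2 ^ j))⁻¹) (fun x => by simp) hy)
      convert this using 1
      simp only [map_mul, mul_pow, mul_inv, MonoidHom.mul_apply, MonoidHom.inv_apply,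
        powMonoidHom_apply]
      exact mul_mul_mul_comm _ _ _ _

lemma exQ2 (S : Q →* Q) (A Δ : Subgroup Q) (h : ∀ x ∈ A, ∀ y ∈ A, ⁅x, y⁆ ∈ Δ)
    (hA : ∀ x ∈ A, S x ∈ A) (hΔ : ∀ x ∈ Δ, S x ∈ Δ) :
    ∃ (B : Type) (_ : CommGroup B) (θ : Q → B) (S' : B →* B), NI.Mu A θ ∧
      (∀ x ∈ A, (θ x = 1 ↔ x ∈ Δ)) ∧ ∀ x ∈ A, θ (S x) = S' (θ x) := by
  obtain ⟨B, _, θ, hm, hk, hs⟩ := exQ A Δ h
  choose c hc hc' using hs
  have key : ∀ x ∈ A, θ (S x) = θ (S (c (θ x))) := by
    intro x hx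
    have h1 := A.mul_mem (A.inv_mem hx) (hc (θ x))
    have h2 : x⁻¹ * c (θ x) ∈ Δ := by
      rw [← hk _ h1, hm _ (A.inv_mem hx) _ (hc _), hm.inv hx, hc', inv_mul_cancel]
    have h3 := (hk _ (hA _ h1)).2 (hΔ _ h2)
    rwa [map_mul, map_inv, hm _ (A.inv_mem (hA x hx)) _ (hA _ (hc _)), hm.inv (hA x hx),
      inv_mul_eq_one] at h3
  refine ⟨B, inferInstance, θ, MonoidHom.mk' (fun b => θ (S (c b))) fun b b' => ?_, hm, hk, key⟩
  have := key _ (A.mul_mem (hc b) (hc b'))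
  rw [hm _ (hc b) _ (hc b'), hc', hc'] at this
  rw [← this, map_mul, hm _ (hA _ (hc b)) _ (hA _ (hc b'))]

lemma Hs_map (S : Q →* Q) (i : ℕ) : ∀ x ∈ Hs (⊤ : Subgroup Q) i, S x ∈ Hs (⊤ : Subgroup Q) i := by
  have : (Hs (⊤ : Subgroup Q) i).map S ≤ Hs ⊤ i := by
    induction i with
    | zero => exact le_top
    | succ i ih => rw [Hs, Subgroup.map_commutator]; exact Subgroup.commutator_mono ih le_top
  exact fun x hx => this ⟨x, hx, rfl⟩

lemma cj_of {B : Type} [CommGroup B] {A : Subgroup Q} [A.Normal] {θ : Q → B} (hm : NI.Mu A θ)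
    (hk : ∀ x ∈ ⁅A, (⊤ : Subgroup Q)⁆, θ x = 1) : NI.Cj A θ := by
  intro g x hx
  have e : g * x * g⁻¹ = ⁅x, g⁆⁻¹ * x := by simp only [commutatorElement_def]; group
  have h1 := Subgroup.inv_mem _ (cm_mem hx g)
  rw [e, hm _ (cm_le _ h1) _ hx, hk _ h1, one_mul]

lemma tens {S : Q →* Q} (h1 : ∀ x, Kl S 1 x) (i : ℕ)
    (ih : ∀ x ∈ Hs (⊤ : Subgroup Q) (i + 2), Kl S 2 x) :
    ∀ x ∈ Hs (⊤ : Subgroup Q) (i + 1), Kl S 2 x := by
  obtain ⟨B, _, θ, S', hm, hk, hS⟩ := exQ2 S (Hs ⊤ (i + 1)) (Hs ⊤ (i + 2))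
    (fun x hx y _ => cm_mem hx y) (Hs_map S _) (Hs_map S _)
  have hj : NI.Cj (Hs ⊤ (i + 1)) θ := cj_of hm fun x hx => (hk x (cm_le _ hx)).2 hx
  intro x hx
  refine Kl.lift (Hs_map S _) hm hS (fun x hx e => ih x ((hk x hx).1 e)) ?_ x hx rfl
  refine in_cm hm (KlS S' 2) (fun b hb g => ?_) x hx
  induction h1 g generalizing b with
  | one => simp [hm.one]
  | step j g hj1 _ ihg =>
    induction h1 b with
    | one => simp [hm.one]
    | step j' b hj2 _ ihb =>
      have hSb := Hs_map S _ b hb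
      have hp := (Hs ⊤ i).pow_mem hb (2 ^ j')
      have a1 := ihg _ hSb
      have a2 := (KlS S' 2).pow_mem (ihb ((Hs ⊤ i).mul_mem hSb ((Hs ⊤ i).inv_mem hp))) (2 ^ j)
      refine Kl.step (j + j') _ (by omega) ?_
      have r := NI.D_right hm hj hSb
      have l := NI.D_left hm hj g
      have e1 := r (S g) trivial (g ^ 2 ^ j)⁻¹ trivial
      have e2 := l _ hSb _ ((Hs ⊤ i).inv_mem hp)
      have e3 := r.inv (x := g ^ 2 ^ j) trivial
      have e4 := r.pow (x := g) trivial (2 ^ j)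
      have e5 := l.inv hp
      have e6 := l.pow hb (2 ^ j')
      simp only at e1 e2 e3 e4 e5 e6
      rw [e1, e3, e4] at a1
      rw [e2, e5, e6] at a2
      have := (KlS S' 2).mul_mem a1 a2
      rw [← hS _ (cm_mem hb g), map_commutatorElement]
      rwa [mul_pow, inv_pow, ← pow_mul, ← pow_add, add_comm j', mul_assoc, inv_mul_cancel_left]
        at this

theorem jet [Group.IsNilpotent Q] {S : Q →* Q} (h1 : ∀ x, Kl S 1 x) :
    ∃ (J : Type) (_ : CommGroup J) (j : Q →* J), ∀ x, j x = 1 → Kl S 2 x := by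
  obtain ⟨s, hs⟩ := Hs_bot (⊤ : Subgroup Q)
  have h2 : ∀ i, (∀ x ∈ Hs (⊤ : Subgroup Q) (i + 1), Kl S 2 x) →
      ∀ x ∈ Hs (⊤ : Subgroup Q) 1, Kl S 2 x := by
    intro i
    induction i with
    | zero => exact id
    | succ i ih => exact fun h => ih (tens h1 i h)
  have h3 := h2 s fun x hx => by
    have := cm_le _ hx
    rw [hs, Subgroup.mem_bot] at this
    rw [this]; exact .one
  refine ⟨Abelianization Q ⧸ KlS (Abelianization.map S) 2, inferInstance,
    (QuotientGroup.mk' _).comp Abelianization.of, fun x hx => ?_⟩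
  refine Kl.lift (A := ⊤) (θ := Abelianization.of) (fun _ _ => trivial)
    (fun x _ y _ => map_mul _ x y) (fun x _ => rfl) (fun x _ e => h3 x ?_)
    ((QuotientGroup.eq_one_iff _).1 hx) x trivial rfl
  exact (QuotientGroup.eq_one_iff _).1 e

variable {K : Type} [Group K]

lemma red {B : Type} [CommGroup B] {W : Subgroup (ℤ → K)} (hW : ∀ h ∈ W, (fun t => h (2 * t)) ∈ W)
    (hD : ∀ h ∈ W, ∃ D, Dg D h) {A : Subgroup K} {θ : K → B} (hm : NI.Mu A θ) (e : ℕ)
    (P : (ℤ → K) → Prop) (hP : ∀ h ∈ W, ∀ j, e ≤ j → P (EE j h) → P h)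
    (h0 : ∀ h ∈ W, (∀ t, h t ∈ A) → (Dg e fun t => θ (h t)) → P h) :
    ∀ h ∈ W, (∀ t, h t ∈ A) → P h := by
  have key : ∀ D, ∀ h ∈ W, (∀ t, h t ∈ A) → (Dg (e + D) fun t => θ (h t)) → P h := by
    intro D
    induction D with
    | zero => exact h0
    | succ D ih =>
      intro h hh hA hd
      have hp : ∀ t, h t ^ 2 ^ (e + D) ∈ A := fun t => A.pow_mem (hA t) _
      refine hP h hh (e + D) (Nat.le_add_right _ _) (ih _ (W.mul_mem (hW h hh)
        (W.inv_mem (W.pow_mem hh _))) (fun t => A.mul_mem (hA _) (A.inv_mem (hp t))) ?_)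
      convert Dg.lower (D := e + D) hd using 1
      funext t
      simp only [EE]
      rw [hm _ (hA _) _ (A.inv_mem (hp t)), hm.inv (hp t), hm.pow (hA t)]
  intro h hh hA
  obtain ⟨D, hd⟩ := hD h hh
  exact key D h hh hA ((hd.map hm hA).mono (Nat.le_add_left _ _))

variable [Group.IsNilpotent K]

instance pi_nil {ι : Type} : Group.IsNilpotent (ι → K) :=
  Group.isNilpotent_pi_of_bounded_class _ fun _ => le_rfl

/-- dilation -/
def dil (K : Type) [Group K] [Group.IsNilpotent K] : PP K →* PP K :=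
  MonoidHom.mk' (fun h => ⟨fun t => h.1 (2 * t), by simpa using h.2.1,
    h.2.2.imp fun D hD => by simpa using hD.aff 2 0⟩) fun _ _ => rfl

lemma fact1 (x : PP K) : Kl (dil K) 1 x := by
  obtain ⟨s, hs⟩ := Hs_bot (⊤ : Subgroup K)
  have key : ∀ n i, i + n = s → ∀ h ∈ PP K, (∀ t, h t ∈ Hs (⊤ : Subgroup K) i) →
      ∀ hh : h ∈ PP K, Kl (dil K) 1 ⟨h, hh⟩ := by
    intro n
    induction n with
    | zero =>
      intro i hi h _ hA hh
      rw [add_zero] at hi
      rw [hi, hs] at hA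
      rw [show (⟨h, hh⟩ : PP K) = 1 from Subtype.ext (funext hA)]; exact .one
    | succ n ih =>
      intro i hi
      obtain ⟨B, _, θ, hm, hk, -⟩ := exQ (Hs (⊤ : Subgroup K) i) (Hs ⊤ (i + 1))
        fun x hx y _ => cm_mem hx y
      refine red (fun h hh => (dil K ⟨h, hh⟩).2) (fun h hh => hh.2) hm 1 _
        (fun h _ j hj H hh => .step j _ hj (H _)) fun h hh hA hd => ?_
      refine ih (i + 1) (by omega) h hh fun t => (hk _ (hA t)).1 ?_
      have := hd t 0
      simpa [dd, hh.1, hm.one] using this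
  exact key s 0 (zero_add _) x x.2 (fun _ => trivial) x.2

lemma lin0 {H : Subgroup K} {η : K → Multiplicative ℝ} (hm : NI.Mu H η) {x : PP K}
    (hx : Kl (dil K) 2 x) : (∀ t, x.1 t ∈ H) → ∀ P : ℝ[X],
    (∀ t : ℤ, (η (x.1 t)).toAdd = P.eval (t : ℝ)) → P.coeff 1 = 0 := by
  induction hx with
  | one =>
    intro _ P hP
    have : P = 0 := by
      refine P.eq_zero_of_infinite_isRoot (Set.infinite_of_forall_exists_gt fun a => ?_)
      obtain ⟨n, hn⟩ := exists_int_gt a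
      refine ⟨n, ?_, hn⟩
      simpa [hm.one] using (hP n).symm
    simp [this]
  | step j x hj _ ih =>
    intro hA P hP
    have hp : ∀ t, x.1 t ^ 2 ^ j ∈ H := fun t => H.pow_mem (hA t) _
    have := ih (fun t => H.mul_mem (hA _) (H.inv_mem (hp t)))
      (P.comp (C 2 * X) - C (2 ^ j) * P) fun t => by
        show (η (x.1 (2 * t) * (x.1 t ^ 2 ^ j)⁻¹)).toAdd = _
        rw [hm _ (hA _) _ (H.inv_mem (hp t)), hm.inv (hp t), hm.pow (hA t)]
        simp [hP, sub_eq_add_neg]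
    rw [coeff_sub, comp_C_mul_X_coeff, coeff_C_mul] at this
    have h2 : (2 : ℝ) ^ 2 ≤ 2 ^ j := pow_le_pow_right₀ (by norm_num) hj
    have : P.coeff 1 * (2 - 2 ^ j) = 0 := by linarith
    exact (mul_eq_zero.1 this).resolve_right (by nlinarith)

end Pool.Agent.H96.NJ
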