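import Mathlib
import Pool.Agent.H96.NJ2

/-! Additivity of characters along polynomial families in nilpotent groups. -/

namespace Pool.Agent.H96.NJ

open Set Pool.Agent.H96.NS Polynomial
open Pool.Agent.H96.NI hiding Mu Cj
open scoped commutatorElement

set_option linter.unusedSectionVars false

variable {Δ : Type} [Group Δ] {ι κ : Type}

lemma mu_zpow {B : Type} [CommGroup B] {S : Subgroup Δ} {θ : Δ → B} (h : NI.Mu S θ) {x : Δ}
    (hx : x ∈ S) (n : ℤ) : θ (x ^ n) = θ x ^ n := by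
  cases n with
  | ofNat n => simpa using h.pow hx n
  | negSucc n => rw [zpow_negSucc, zpow_negSucc, h.inv (S.pow_mem hx _), h.pow hx]

lemma Hs_le (N : Subgroup Δ) [N.Normal] (i : ℕ) : Hs N i ≤ N := by
  induction i with
  | zero => exact le_rfl
  | succ i ih => exact (cm_le _).trans ih

/-- polynomial powers -/
def uu (q : ι → κ → ℤ[X]) (b : Δ) (n : ℤ) : ι → κ → Δ := fun i j => b ^ (q i j).eval n

lemma uu_dg (q : ι → κ → ℤ[X]) {D : ℕ} (hD : ∀ i j, (q i j).degree < D) (b : Δ) :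
    Dg D (uu q b) := Dg.pi fun i => Dg.pi fun j => Dg.poly b D _ (hD i j)

lemma defect {N : Subgroup Δ} [N.Normal] (γ : Δ) {z z' : Δ} (hz : z ∈ N) (hz' : z' ∈ N) (t : ℤ) :
    ((z * z' * γ) ^ t * (γ ^ t)⁻¹) * ((z * γ) ^ t * (γ ^ t)⁻¹ * ((z' * γ) ^ t * (γ ^ t)⁻¹))⁻¹ ∈
      Hs N 1 := by
  let π := QuotientGroup.mk' (Hs N 1)
  have hc : ∀ z ∈ N, ∀ g, Commute (π z) (π g) := fun z hz g => by
    rw [← commutatorElement_eq_one_iff_commute, ← map_commutatorElement]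
    exact (QuotientGroup.eq_one_iff _).2 (cm_mem hz g)
  have key : ∀ z ∈ N, π ((z * γ) ^ t * (γ ^ t)⁻¹) = π z ^ t := fun z hz => by
    rw [map_mul, map_inv, map_zpow, map_zpow, map_mul, (hc z hz γ).mul_zpow, mul_inv_cancel_right]
  rw [← QuotientGroup.eq_one_iff]
  show π _ = 1
  rw [map_mul, map_inv, map_mul π ((z * γ) ^ t * (γ ^ t)⁻¹), key _ (N.mul_mem hz hz'), key _ hz,
    key _ hz', map_mul, (hc z hz z').mul_zpow, mul_inv_cancel]

variable [Group.IsNilpotent Δ]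

lemma core {N : Subgroup Δ} [N.Normal] {γ : Δ} (hgen : ∀ g, ∃ m : ℤ, g * γ ^ m ∈ N)
    (r : ι → κ → ℤ[X]) (hr0 : ∀ i j, (r i j).eval 0 = 0) {D : ℕ} (hD : ∀ i j, (r i j).degree < D)
    {H : Subgroup (ι → κ → Δ)} {η : (ι → κ → Δ) → Multiplicative ℝ} (hm : NI.Mu H η)
    (hu : ∀ b, b * γ⁻¹ ∈ N → ∀ t, uu r b t * (uu r γ t)⁻¹ ∈ H)
    (hc : ∀ h ∈ N, ∀ b, b * γ⁻¹ ∈ N → ∀ t,
      η (uu r (h * b * h⁻¹) t * (uu r γ t)⁻¹) = η (uu r b t * (uu r γ t)⁻¹))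
    {z z' : Δ} (hz : z ∈ N) (hz' : z' ∈ N) (P : ℝ[X])
    (hP : ∀ t : ℤ, (η (uu r (z * z' * γ) t * (uu r γ t)⁻¹)).toAdd -
      ((η (uu r (z * γ) t * (uu r γ t)⁻¹)).toAdd + (η (uu r (z' * γ) t * (uu r γ t)⁻¹)).toAdd) =
      P.eval (t : ℝ)) : P.coeff 1 = 0 := by
  classical
  let W : Subgroup (ℤ → Δ) := Subgroup.closure (range fun c : Δ => fun t : ℤ => c ^ t)
  have hg : ∀ c : Δ, (fun t : ℤ => c ^ t) ∈ W := fun c => Subgroup.subset_closure ⟨c, rfl⟩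
  have hWP : W ≤ PP Δ := by
    refine (Subgroup.closure_le _).2 ?_
    rintro _ ⟨c, rfl⟩
    exact ⟨by simp, 2, by simpa using Dg.poly c 2 X (by rw [degree_X]; decide)⟩
  let S : (ℤ → Δ) →* (ℤ → Δ) := MonoidHom.mk' (fun h t => h (2 * t)) fun _ _ => rfl
  have hSg : ∀ c : Δ, S (fun t : ℤ => c ^ t) = (fun t : ℤ => c ^ t) ^ 2 := fun c => by
    funext t
    show c ^ (2 * t) = (c ^ t) ^ 2
    rw [two_mul, zpow_add, sq]
  have hWS : W ≤ W.comap S := by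
    refine (Subgroup.closure_le _).2 ?_
    rintro _ ⟨c, rfl⟩
    show S _ ∈ W
    rw [hSg]; exact W.pow_mem (hg c) 2
  let tl : (ℤ → Δ) →* (ℤ → ι → κ → Δ) :=
    MonoidHom.mk' (fun V t i j => V ((r i j).eval t)) fun _ _ => rfl
  have htl : W ≤ (PP (ι → κ → Δ)).comap tl := by
    refine (Subgroup.closure_le _).2 ?_
    rintro _ ⟨c, rfl⟩
    exact ⟨by funext i j; simp [tl, hr0], D, uu_dg r hD c⟩
  obtain ⟨J, _, j, hj⟩ := jet (fact1 (K := ι → κ → Δ))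
  let jt : (ℤ → Δ) → J := fun V => if h : V ∈ W then j ⟨tl V, htl h⟩ else 1
  have hjt : ∀ V (h : V ∈ W), jt V = j ⟨tl V, htl h⟩ := fun V h => dif_pos h
  have hjm : NI.Mu W jt := fun x hx y hy => by
    rw [hjt _ hx, hjt _ hy, hjt _ (W.mul_mem hx hy), ← map_mul]; rfl
  have hjS : ∀ V ∈ W, jt (S V) = jt V ^ 2 := by
    intro V hV
    induction hV using Subgroup.closure_induction with
    | mem x hx => obtain ⟨c, rfl⟩ := hx; rw [hSg, hjm.pow (hg c)]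
    | one => rw [map_one, hjm.one, one_pow]
    | mul x y hx hy ihx ihy =>
      rw [map_mul, hjm _ (hWS hx) _ (hWS hy), ihx, ihy, hjm _ hx _ hy, mul_pow]
    | inv x hx ih => rw [map_inv, hjm.inv (hWS hx), ih, hjm.inv hx, inv_pow]
  let V0 : Subgroup (ℤ → Δ) :=
    { carrier := {U | U ∈ W ∧ ∀ t, tl U t ∈ H ∧ η (tl U t) = 1}
      one_mem' := ⟨W.one_mem, fun t => ⟨H.one_mem, hm.one⟩⟩
      mul_mem' := fun {x y} hx hy => ⟨W.mul_mem hx.1 hy.1, fun t =>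
        ⟨H.mul_mem (hx.2 t).1 (hy.2 t).1, (hm _ (hx.2 t).1 _ (hy.2 t).1).trans (by
          rw [(hx.2 t).2, (hy.2 t).2, one_mul])⟩⟩
      inv_mem' := fun {x} hx => ⟨W.inv_mem hx.1, fun t =>
        ⟨H.inv_mem (hx.2 t).1, (hm.inv (hx.2 t).1).trans (by rw [(hx.2 t).2, inv_one])⟩⟩ }
  let T : Subgroup J :=
    { carrier := {y | ∃ M : ℤ, M ≠ 0 ∧ ∃ U ∈ V0, y ^ M = jt U}
      one_mem' := ⟨1, one_ne_zero, 1, V0.one_mem, by simp [hjm.one]⟩
      mul_mem' := by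
        rintro x y ⟨M, hM, U, hU, e⟩ ⟨M', hM', U', hU', e'⟩
        refine ⟨M * M', mul_ne_zero hM hM', U ^ M' * U' ^ M,
          V0.mul_mem (V0.zpow_mem hU _) (V0.zpow_mem hU' _), ?_⟩
        rw [hjm _ (W.zpow_mem hU.1 _) _ (W.zpow_mem hU'.1 _), mu_zpow hjm hU.1, mu_zpow hjm hU'.1,
          ← e, ← e', mul_zpow, ← zpow_mul, ← zpow_mul, mul_comm M' M]
      inv_mem' := by
        rintro x ⟨M, hM, U, hU, e⟩
        exact ⟨M, hM, U⁻¹, V0.inv_mem hU, by rw [hjm.inv hU.1, ← e, inv_zpow]⟩ }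
  obtain ⟨s, hs⟩ := Hs_bot N
  have key : ∀ n i, i + n = s → ∀ V ∈ W, (∀ t, V t ∈ Hs N (i + 1)) → jt V ∈ T := by
    intro n
    induction n with
    | zero =>
      intro i hi V _ hA
      rw [add_zero] at hi
      have : V = 1 := funext fun t => by
        have := cm_le _ (hA t)
        rwa [hi, hs] at this
      rw [this, hjm.one]; exact T.one_mem
    | succ n ih =>
      intro i hi
      obtain ⟨B, _, θ, hθ, hk, -⟩ := exQ (Hs N (i + 1)) (Hs N (i + 2))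
        fun x hx y _ => cm_mem hx y
      have hcj : NI.Cj (Hs N (i + 1)) θ := cj_of hθ fun x hx => (hk x (cm_le _ hx)).2 hx
      let T' : Subgroup B :=
        { carrier := {β | ∃ U ∈ V0, ∀ t, U t ∈ Hs N (i + 1) ∧ θ (U t) = β ^ t}
          one_mem' := ⟨1, V0.one_mem, fun t => ⟨Subgroup.one_mem _, by simpa using hθ.one⟩⟩
          mul_mem' := by
            rintro x y ⟨U, hU, e⟩ ⟨U', hU', e'⟩
            exact ⟨U * U', V0.mul_mem hU hU', fun t => ⟨Subgroup.mul_mem _ (e t).1 (e' t).1,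
              (hθ _ (e t).1 _ (e' t).1).trans (by rw [(e t).2, (e' t).2, mul_zpow])⟩⟩
          inv_mem' := by
            rintro x ⟨U, hU, e⟩
            exact ⟨U⁻¹, V0.inv_mem hU, fun t => ⟨Subgroup.inv_mem _ (e t).1,
              (hθ.inv (e t).1).trans (by rw [(e t).2, inv_zpow])⟩⟩ }
      have hT' : ∀ x ∈ Hs N (i + 1), θ x ∈ T' := by
        refine in_cm hθ T' fun h hh g => ?_
        have hr := NI.D_right hθ hcj hh
        have hb : ∀ b, b * γ⁻¹ ∈ N → θ ⁅h, b⁆ ∈ T' := by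
          intro b hb
          have hN := Hs_le N i hh
          have hb' : h * b * h⁻¹ * γ⁻¹ ∈ N := by
            have := N.mul_mem (N.mul_mem hN hb) ((‹N.Normal›).conj_mem _ (N.inv_mem hN) γ)
            simpa [mul_assoc] using this
          have e1 : ∀ t : ℤ, (h * b * h⁻¹) ^ t * (b ^ t)⁻¹ = ⁅h, b ^ t⁆ := fun t => by
            rw [conj_zpow, commutatorElement_def]
          refine ⟨(fun t : ℤ => (h * b * h⁻¹) ^ t) * (fun t : ℤ => b ^ t)⁻¹,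
            ⟨W.mul_mem (hg _) (W.inv_mem (hg _)), fun t => ?_⟩, fun t => ?_⟩
          · have e2 : tl ((fun t : ℤ => (h * b * h⁻¹) ^ t) * (fun t : ℤ => b ^ t)⁻¹) t =
                (uu r (h * b * h⁻¹) t * (uu r γ t)⁻¹) * (uu r b t * (uu r γ t)⁻¹)⁻¹ := by
              rw [mul_inv_rev, inv_inv, mul_assoc (uu r _ t), inv_mul_cancel_left]; rfl
            rw [e2, hm _ (hu _ hb' t) _ (H.inv_mem (hu _ hb t)), hm.inv (hu _ hb t), hc h hN b hb]
            exact ⟨H.mul_mem (hu _ hb' t) (H.inv_mem (hu _ hb t)), mul_inv_cancel _⟩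
          · simp only [Pi.mul_apply, Pi.inv_apply, e1]
            exact ⟨cm_mem hh _, mu_zpow hr trivial t⟩
        obtain ⟨m, hm⟩ := hgen g
        have e1 := hr (g * γ ^ m * γ) trivial (γ ^ (-m - 1)) trivial
        have e2 := mu_zpow hr (x := γ) trivial (-m - 1)
        simp only at e1 e2
        rw [show g * γ ^ m * γ * γ ^ (-m - 1) = g by group, e2] at e1
        rw [e1]
        exact T'.mul_mem (hb _ (by simpa using hm)) (T'.zpow_mem (hb γ (by simp)) _)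
      refine red (W := W) (fun h hh => hWS hh) (fun h hh => (hWP hh : h ∈ PP Δ).2) hθ 2 (fun V => jt V ∈ T)
        (fun h hh j hj H => ?_) fun V hV hA hd => ?_
      · obtain ⟨M, hM, U, hU, e⟩ := H
        have e1 : EE j h = S h * (h ^ 2 ^ j)⁻¹ := rfl
        rw [e1, hjm _ (hWS hh) _ (W.inv_mem (W.pow_mem hh _)), hjm.inv (W.pow_mem hh _),
          hjm.pow hh, hjS h hh, ← zpow_natCast, ← zpow_natCast, ← zpow_sub, ← zpow_mul] at e
        refine ⟨_, mul_ne_zero ?_ hM, U, hU, e⟩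
        have : 2 ^ 2 ≤ 2 ^ j := Nat.pow_le_pow_right (by norm_num) hj
        omega
      · obtain ⟨U, hU, e⟩ := hT' _ (hA 1)
        have h1 := hd.lin (by simp [(hWP hV).1, hθ.one])
        have h2 := ih (i + 1) (by omega) _ (W.mul_mem hV (W.inv_mem hU.1)) fun t => by
          have a := Subgroup.inv_mem _ (e t).1
          refine (hk _ (Subgroup.mul_mem _ (hA t) a)).1 ?_
          rw [hθ _ (hA t) _ a, hθ.inv (e t).1, (e t).2, h1, mul_inv_cancel]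
        have h3 : jt U ∈ T := ⟨1, one_ne_zero, U, hU, zpow_one _⟩
        have := T.mul_mem h2 h3
        rwa [← hjm _ (W.mul_mem hV (W.inv_mem hU.1)) _ hU.1, inv_mul_cancel_right] at this
  let V : Δ → ℤ → Δ := fun b => (fun t : ℤ => b ^ t) * (fun t : ℤ => γ ^ t)⁻¹
  have hV : ∀ b, V b ∈ W := fun b => W.mul_mem (hg _) (W.inv_mem (hg _))
  have hDW := W.mul_mem (hV (z * z' * γ)) (W.inv_mem (W.mul_mem (hV (z * γ)) (hV (z' * γ))))
  obtain ⟨M, hM, U, hU, e⟩ := key s 0 (zero_add _) _ hDW fun t => defect γ hz hz' t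
  have hx := W.mul_mem (W.zpow_mem hDW M) (W.inv_mem hU.1)
  have h1 := hjm _ (W.zpow_mem hDW M) _ (W.inv_mem hU.1)
  rw [mu_zpow hjm hDW, hjm.inv hU.1, e, mul_inv_cancel, hjt _ hx] at h1
  have a1 := hu (z * z' * γ) (by simpa using N.mul_mem hz hz')
  have a2 := hu (z * γ) (by simpa using hz)
  have a3 := hu (z' * γ) (by simpa using hz')
  have a4 := fun t => H.mul_mem (a1 t) (H.inv_mem (H.mul_mem (a2 t) (a3 t)))
  have := lin0 hm (hj _ h1) (fun t => H.mul_mem (H.zpow_mem (a4 t) M) (H.inv_mem (hU.2 t).1))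
    (C (M : ℝ) * P) fun t => by
      have b1 := hm _ (H.zpow_mem (a4 t) M) _ (H.inv_mem (hU.2 t).1)
      rw [mu_zpow hm (a4 t), hm.inv (hU.2 t).1, (hU.2 t).2, inv_one, mul_one,
        hm _ (a1 t) _ (H.inv_mem (H.mul_mem (a2 t) (a3 t))), hm.inv (H.mul_mem (a2 t) (a3 t)),
        hm _ (a2 t) _ (a3 t)] at b1
      refine (congrArg Multiplicative.toAdd b1).trans ?_
      rw [eval_mul, eval_C, ← hP]
      simp only [toAdd_zpow, toAdd_mul, toAdd_inv, zsmul_eq_mul, sub_eq_add_neg]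
  rw [coeff_C_mul] at this
  exact (mul_eq_zero.1 this).resolve_left (by exact_mod_cast hM)

lemma poly_zero {P : ℝ[X]} (h : ∀ n : ℕ, P.eval (n : ℝ) = 0) : P = 0 := by
  refine P.eq_zero_of_infinite_isRoot (Set.infinite_of_forall_exists_gt fun a => ?_)
  obtain ⟨n, hn⟩ := exists_nat_gt a
  exact ⟨n, h n, hn⟩

lemma uu_real {q : ι → κ → ℤ[X]} (hq0 : ∀ i j, (q i j).eval 0 = 0) {D : ℕ}
    (hD : ∀ i j, (q i j).degree < D) {H : Subgroup (ι → κ → Δ)}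
    {η : (ι → κ → Δ) → Multiplicative ℝ} (hm : NI.Mu H η) {b γ : Δ}
    (hu : ∀ n, uu q b n * (uu q γ n)⁻¹ ∈ H) :
    ∃ P : ℝ[X], P.eval 0 = 0 ∧ ∀ n : ℤ, (η (uu q b n * (uu q γ n)⁻¹)).toAdd = P.eval (n : ℝ) := by
  have h1 : ∀ b : Δ, uu q b ∈ PP (ι → κ → Δ) := fun b =>
    ⟨by funext i j; simp [uu, hq0], D, uu_dg q hD b⟩
  obtain ⟨h0, E, hE⟩ := (PP _).mul_mem (h1 b) ((PP _).inv_mem (h1 γ))
  obtain ⟨P, hP⟩ := (hE.map hm hu).real
  refine ⟨P, ?_, hP⟩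
  have := hP 0
  rw [show uu q b 0 * (uu q γ 0)⁻¹ = 1 from h0, hm.one] at this
  simpa using this.symm

lemma cjinv {B : Type} [CommGroup B] {N : Subgroup Δ} {γ : Δ} {q : ι → κ → ℤ[X]}
    {H : Subgroup (ι → κ → Δ)} {η : (ι → κ → Δ) → B} (hm : NI.Mu H η)
    (hu : ∀ b, b * γ⁻¹ ∈ N → ∀ n, uu q b n * (uu q γ n)⁻¹ ∈ H)
    (hd : ∀ h ∈ N, ∀ n, uu q γ n * (fun _ _ => h) * (uu q γ n)⁻¹ ∈ H ∧
      η (uu q γ n * (fun _ _ => h) * (uu q γ n)⁻¹) = 1) (hq0 : ∀ i j, (q i j).eval 0 = 0)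
    (h : Δ) (hh : h ∈ N) (b : Δ) (hb : b * γ⁻¹ ∈ N) (n : ℤ) :
    η (uu q (h * b * h⁻¹) n * (uu q γ n)⁻¹) = η (uu q b n * (uu q γ n)⁻¹) := by
  obtain ⟨a1, a2⟩ := hd h hh 0
  obtain ⟨a3, a4⟩ := hd _ (N.inv_mem hh) n
  have e : uu q (h * b * h⁻¹) n * (uu q γ n)⁻¹ = (uu q γ 0 * (fun _ _ => h) * (uu q γ 0)⁻¹) *
      (uu q b n * (uu q γ n)⁻¹) * (uu q γ n * (fun _ _ => h⁻¹) * (uu q γ n)⁻¹) := by
    funext i j
    simp only [uu, Pi.mul_apply, Pi.inv_apply, hq0, conj_zpow]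
    group
  rw [e, hm _ (H.mul_mem a1 (hu b hb n)) _ a3, hm _ a1 _ (hu b hb n), a2, a4, one_mul, mul_one]

theorem star {N : Subgroup Δ} [N.Normal] {γ : Δ} (hgen : ∀ g, ∃ m : ℤ, g * γ ^ m ∈ N)
    {q : ι → κ → ℤ[X]} (hq0 : ∀ i j, (q i j).eval 0 = 0) {D : ℕ} (hD : ∀ i j, (q i j).degree < D)
    {H : Subgroup (ι → κ → Δ)} {η : (ι → κ → Δ) → Multiplicative ℝ} (hm : NI.Mu H η)
    (hu : ∀ b, b * γ⁻¹ ∈ N → ∀ n, uu q b n * (uu q γ n)⁻¹ ∈ H)
    (hd : ∀ h ∈ N, ∀ n, uu q γ n * (fun _ _ => h) * (uu q γ n)⁻¹ ∈ H ∧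
      η (uu q γ n * (fun _ _ => h) * (uu q γ n)⁻¹) = 1)
    {z z' : Δ} (hz : z ∈ N) (hz' : z' ∈ N) (n : ℤ) :
    η (uu q (z * z' * γ) n * (uu q γ n)⁻¹) =
      η (uu q (z * γ) n * (uu q γ n)⁻¹) * η (uu q (z' * γ) n * (uu q γ n)⁻¹) := by
  have a1 : z * z' * γ * γ⁻¹ ∈ N := by simpa using N.mul_mem hz hz'
  have a2 : z * γ * γ⁻¹ ∈ N := by simpa using hz
  have a3 : z' * γ * γ⁻¹ ∈ N := by simpa using hz'
  obtain ⟨P1, b1, c1⟩ := uu_real hq0 hD hm (hu _ a1)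
  obtain ⟨P2, b2, c2⟩ := uu_real hq0 hD hm (hu _ a2)
  obtain ⟨P3, b3, c3⟩ := uu_real hq0 hD hm (hu _ a3)
  have key : ∀ n : ℤ, (P1 - (P2 + P3)).derivative.eval (n : ℝ) = 0 := by
    intro n
    let r : ι → κ → ℤ[X] := fun i j => taylor n (q i j) - C ((q i j).eval n)
    let w := uu q γ n
    have e : ∀ b t, w * (uu r b t * (uu r γ t)⁻¹) * w⁻¹ =
        (uu q b n * (uu q γ n)⁻¹)⁻¹ * (uu q b (t + n) * (uu q γ (t + n))⁻¹) := by
      intro b t
      funext i j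
      simp only [uu, w, r, Pi.mul_apply, Pi.inv_apply, eval_sub, eval_C, taylor_eval]
      group
    have e2 : ∀ b, b * γ⁻¹ ∈ N → ∀ t, η (w * (uu r b t * (uu r γ t)⁻¹) * w⁻¹) =
        (η (uu q b n * (uu q γ n)⁻¹))⁻¹ * η (uu q b (t + n) * (uu q γ (t + n))⁻¹) := by
      intro b hb t
      rw [e, hm _ (H.inv_mem (hu b hb n)) _ (hu b hb _), hm.inv (hu b hb n)]
    have := core (D := D + 1) hgen r (fun i j => by simp [r, taylor_eval])
      (fun i j => (degree_sub_le _ _).trans_lt (max_lt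
        (by rw [degree_taylor]; exact (hD i j).trans (by exact_mod_cast D.lt_succ_self))
        (degree_C_le.trans_lt (by exact_mod_cast D.succ_pos))))
      (H := H.comap (MulAut.conj w).toMonoidHom) (η := fun x => η (w * x * w⁻¹))
      (fun x hx y hy => (congrArg η (show w * (x * y) * w⁻¹ = w * x * w⁻¹ * (w * y * w⁻¹) by
        group)).trans (hm _ hx _ hy))
      (fun b hb t => by
        show w * _ * w⁻¹ ∈ H
        rw [e]; exact H.mul_mem (H.inv_mem (hu b hb n)) (hu b hb _))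
      (fun h hh b hb t => by
        have hb' : h * b * h⁻¹ * γ⁻¹ ∈ N := by
          have := N.mul_mem (N.mul_mem hh hb) ((‹N.Normal›).conj_mem _ (N.inv_mem hh) γ)
          simpa [mul_assoc] using this
        simp only [e2 _ hb, e2 _ hb', cjinv hm hu hd hq0 h hh b hb])
      hz hz' (taylor (n : ℝ) (P1 - (P2 + P3)) - C ((P1 - (P2 + P3)).eval (n : ℝ))) fun t => by
        simp only [e2 _ a1, e2 _ a2, e2 _ a3, toAdd_mul, toAdd_inv, c1, c2, c3, eval_sub, eval_add,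
          eval_C, taylor_eval]
        push_cast; ring
    rwa [coeff_sub, taylor_coeff_one, coeff_C_succ, sub_zero] at this
  have h1 := eq_C_of_derivative_eq_zero (poly_zero fun n => by exact_mod_cast key n)
  have h2 := congrArg (eval (n : ℝ)) h1
  rw [eval_C, coeff_zero_eq_eval_zero] at h2
  simp only [eval_sub, eval_add, b1, b2, b3] at h2
  apply Multiplicative.toAdd.injective
  rw [toAdd_mul, c1, c2, c3]; linarith

lemma tors (x : Circle) (h : ∀ φ : Circle →* Multiplicative ℝ, φ x = 1) : IsOfFinOrder x := by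
  by_contra hx
  obtain ⟨φ, hφ⟩ := (Module.Baer.of_divisible ℝ).extension_property_addMonoidHom
    (zmultiplesHom (Additive Circle) (Additive.ofMul x))
    (injective_zpow_iff_not_isOfFinOrder.2 hx) (Int.castAddHom ℝ)
  have h1 := DFunLike.congr_fun hφ 1
  have h2 : φ (Additive.ofMul x) = 0 := h (AddMonoidHom.toMultiplicativeRight φ)
  simp [h2] at h1

lemma tors_path (f : ℝ → Circle) (hf : Continuous f) (h : ∀ t, IsOfFinOrder (f t)) : f 1 = f 0 := by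
  have hc : {x : Circle | IsOfFinOrder x}.Countable := by
    refine (countable_iUnion fun n : ℕ => ((nthRootsFinset (n + 1) (1 : ℂ)).finite_toSet.preimage
      (Circle.coe_injective.injOn)).countable).mono fun x hx => ?_
    obtain ⟨n, hn, e⟩ := isOfFinOrder_iff_pow_eq_one.1 hx
    refine mem_iUnion.2 ⟨n - 1, ?_⟩
    rw [Nat.sub_add_cancel hn]
    exact (mem_nthRootsFinset hn _).2 (by rw [← Circle.coe_pow, e, Circle.coe_one])
  exact hc.isTotallyDisconnected _ (range_subset_iff.2 h) (isPreconnected_range hf)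
    (mem_range_self 1) (mem_range_self 0)

theorem star2 [TopologicalSpace Δ] [IsTopologicalGroup Δ] {N Γ : Subgroup Δ} [N.Normal] {γ a : Δ}
    (hγ : γ ∈ Γ) (ha : a * γ⁻¹ ∈ N) (hgen : ∀ g, ∃ m : ℤ, g * γ ^ m ∈ N) (hN : PC N)
    (hNo : IsOpen (N : Set Δ))
    (hden : ∀ M : ℕ, 0 < M → Dense {x | ∃ n : ℤ, ∃ l ∈ Γ, x = (a ^ M) ^ n * l})
    {q : ι → κ → ℤ[X]} (hq0 : ∀ i j, (q i j).eval 0 = 0) {D : ℕ} (hD : ∀ i j, (q i j).degree < D)
    {H : Subgroup (ι → κ → Δ)} {η : (ι → κ → Δ) → Circle} (hm : NI.Mu H η)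
    (hc : ContinuousOn η H) (hu : ∀ b, b * γ⁻¹ ∈ N → ∀ n, uu q b n * (uu q γ n)⁻¹ ∈ H)
    (hd : ∀ h ∈ N, ∀ n, uu q γ n * (fun _ _ => h) * (uu q γ n)⁻¹ ∈ H ∧
      η (uu q γ n * (fun _ _ => h) * (uu q γ n)⁻¹) = 1)
    (hΓ : ∀ x ∈ H, (∀ i j, x i j ∈ Γ) → η x = 1) {k : ℕ} (hk : 0 < k)
    (hp : ∀ m : ℕ, η (uu q a (k * m) * (uu q γ (k * m))⁻¹) = 1)
    (b : Δ) (hb : b * γ⁻¹ ∈ N) (n : ℤ) : η (uu q b n * (uu q γ n)⁻¹) = 1 := by
  let f : Δ → Circle := fun z => η (uu q (z * γ) n * (uu q γ n)⁻¹)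
  have hu' : ∀ z ∈ N, uu q (z * γ) n * (uu q γ n)⁻¹ ∈ H := fun z hz => hu _ (by simpa using hz) n
  have hf : ContinuousOn f N := hc.comp (f := fun z => uu q (z * γ) n * (uu q γ n)⁻¹)
    (by unfold uu; fun_prop) hu'
  have hφ : ∀ φ : Circle →* Multiplicative ℝ, NI.Mu H fun x => φ (η x) := fun φ x hx y hy => by
    simp only [hm x hx y hy, map_mul]
  have f1 : f 1 = 1 := by simp [f, hm.one]
  have hfm : NI.Mu N f := by
    intro z hz z' hz'
    obtain ⟨α, hα, a0, a1, at'⟩ := hN z hz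
    obtain ⟨β, hβ, b0, b1, bt⟩ := hN z' hz'
    have := tors_path (fun t => f (α t * β t) * (f (α t) * f (β t))⁻¹)
      ((hf.comp_continuous (hα.mul hβ) fun t => N.mul_mem (at' t) (bt t)).mul
        ((hf.comp_continuous hα at').mul (hf.comp_continuous hβ bt)).inv) fun t =>
      tors _ fun φ => by
        rw [map_mul, map_inv, map_mul, mul_inv_eq_one]
        exact star hgen hq0 hD (hφ φ) hu (fun h hh n => ⟨(hd h hh n).1, by
          simp only [(hd h hh n).2, map_one]⟩) (at' t) (bt t) n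
    simpa only [a0, a1, b0, b1, f1, mul_one, inv_one, mul_inv_eq_one] using this
  have hcj : ∀ z ∈ N, f (γ * z * γ⁻¹) = f z := by
    intro z hz
    have h1 := cjinv hm hu hd hq0 z hz γ (by simp) n
    have h2 := N.inv_mem ((‹N.Normal›).conj_mem _ hz γ)
    have h3 := hfm z hz _ h2
    rw [hfm.inv (N.inv_mem_iff.1 h2)] at h3
    rw [show z * γ * z⁻¹ = z * (γ * z * γ⁻¹)⁻¹ * γ by group, mul_inv_cancel, hm.one] at h1
    exact (mul_inv_eq_one.1 (h3.symm.trans h1)).symm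
  obtain ⟨M, hM, e⟩ := isOfFinOrder_iff_pow_eq_one.1 (tors (f (a * γ⁻¹)) fun φ => by
    obtain ⟨P, h0, hP⟩ := uu_real hq0 hD (hφ φ) (hu a ha)
    have h1 : P.comp (C (k : ℝ) * X) = 0 := poly_zero fun m => by
      have := hP (k * m)
      simp only [hp, map_one] at this
      simpa using this.symm
    have h2 : P = 0 := by
      refine (comp_eq_zero_iff.1 h1).resolve_right fun h => ?_
      have := congrArg (coeff · 1) h.2
      simp [hk.ne'] at this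
    have := hP n
    rw [h2, eval_zero] at this
    simpa [f] using this)
  have step : ∀ m : ℤ, ∀ z ∈ N, a ^ m * z * (γ ^ m)⁻¹ ∈ N ∧
      f (a ^ m * z * (γ ^ m)⁻¹) = f (a * γ⁻¹) ^ m * f z := by
    have up : ∀ z ∈ N, a * z * γ⁻¹ ∈ N ∧ f (a * z * γ⁻¹) = f (a * γ⁻¹) * f z := fun z hz => by
      have h1 := (‹N.Normal›).conj_mem _ hz γ
      rw [show a * z * γ⁻¹ = a * γ⁻¹ * (γ * z * γ⁻¹) by group, hfm _ ha _ h1, hcj z hz]
      exact ⟨N.mul_mem ha h1, rfl⟩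
    intro m
    induction m using Int.induction_on with
    | zero => intro z hz; simpa using hz
    | succ m ih =>
      intro z hz
      obtain ⟨h1, h2⟩ := up _ (ih z hz).1
      rw [show a ^ ((m : ℤ) + 1) * z * (γ ^ ((m : ℤ) + 1))⁻¹ =
        a * (a ^ (m : ℤ) * z * (γ ^ (m : ℤ))⁻¹) * γ⁻¹ by group, h2, (ih z hz).2, zpow_add_one]
      exact ⟨h1, by rw [mul_left_comm, mul_assoc]⟩
    | pred m ih =>
      intro z hz
      have h0 : a⁻¹ * (a ^ (-m : ℤ) * z * (γ ^ (-m : ℤ))⁻¹) * γ ∈ N := by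
        have := (‹N.Normal›).conj_mem _ (N.mul_mem (N.inv_mem ha) (ih z hz).1) γ⁻¹
        simpa [mul_assoc] using this
      have h2 := (up _ h0).2
      rw [show a * (a⁻¹ * (a ^ (-m : ℤ) * z * (γ ^ (-m : ℤ))⁻¹) * γ) * γ⁻¹ =
        a ^ (-m : ℤ) * z * (γ ^ (-m : ℤ))⁻¹ by group, (ih z hz).2] at h2
      rw [show a ^ (-(m : ℤ) - 1) * z * (γ ^ (-(m : ℤ) - 1))⁻¹ =
        a⁻¹ * (a ^ (-m : ℤ) * z * (γ ^ (-m : ℤ))⁻¹) * γ by group]
      refine ⟨h0, ?_⟩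
      rw [zpow_sub_one, mul_comm (f _ ^ _), mul_assoc (f _)⁻¹, h2, inv_mul_cancel_left]
  have hcl : N.carrier ⊆ closure (N.carrier ∩ f ⁻¹' {1}) := by
    refine ((hden M hM).open_subset_closure_inter hNo).trans (closure_mono ?_)
    rintro _ ⟨hx, m, l, hl, rfl⟩
    refine ⟨hx, ?_⟩
    obtain ⟨h1, h2⟩ := step (M * m) 1 N.one_mem
    rw [mul_one] at h1 h2
    rw [f1, mul_one, zpow_mul (f _), zpow_natCast, e, one_zpow] at h2
    have h3 : γ ^ ((M : ℤ) * m) * l ∈ N := by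
      have := N.mul_mem (N.inv_mem h1) hx
      simpa [mul_assoc, zpow_mul] using this
    have h4 := hfm _ h1 _ h3
    have h5 : f (γ ^ ((M : ℤ) * m) * l) = 1 := hΓ _ (hu' _ h3) fun i j => Γ.mul_mem
      (Γ.zpow_mem (Γ.mul_mem (Γ.mul_mem (Γ.zpow_mem hγ _) hl) hγ) _) (Γ.inv_mem (Γ.zpow_mem hγ _))
    rw [h2, h5, mul_one, mul_assoc, inv_mul_cancel_left, zpow_mul, zpow_natCast] at h4
    exact h4
  have := (hf.preimage_isClosed_of_isClosed (N.isClosed_of_isOpen hNo)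
    isClosed_singleton).closure_subset (hcl hb)
  simpa [f] using this.2

end Pool.Agent.H96.NJ
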