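import Mathlib
import Pool.Agent.H96.NS1

/-! Minimality along a tower of abelian extensions in the absence of eigenfunctions. -/

namespace Pool.Agent.H96.NJ

open Filter Topology Set Pool.Agent.H96.NS
open scoped commutatorElement Pointwise

set_option linter.unusedSectionVars false

variable {G : Type} [Group G] [TopologicalSpace G] [IsTopologicalGroup G]

lemma eig {Y K : Set G} (hK : IsCompact K) (hKY : K ⊆ Y) (ψ : ℝ → G → Circle)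
    (hc : ContinuousOn (fun p : ℝ × G => ψ p.1 p.2) (univ ×ˢ Y))
    (hY : ∀ y ∈ Y, ∃ κ ∈ K, ∀ t, ψ t y = ψ t κ) (f : G → G) (hf : ∀ y ∈ Y, f y ∈ Y)
    (l : ℝ → Circle) (hl : ∀ t, ∀ y ∈ Y, ψ t (f y) = l t * ψ t y) {y0 : G} (h0 : y0 ∈ Y)
    (l0 : l 0 = 1) : l 1 = 1 := by
  have c1 : ∀ y ∈ Y, Continuous fun t => ψ t y := fun y hy =>
    hc.comp_continuous (f := fun t : ℝ => (t, y)) (by fun_prop) fun t => ⟨trivial, hy⟩
  have it : ∀ n : ℕ, f^[n] y0 ∈ Y ∧ ∀ t, ψ t (f^[n] y0) = l t ^ n * ψ t y0 := by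
    intro n
    induction n with
    | zero => simpa using h0
    | succ n ih =>
      rw [Function.iterate_succ_apply']
      exact ⟨hf _ ih.1, fun t => by rw [hl t _ ih.1, ih.2, pow_succ', mul_assoc]⟩
  have hcl : IsClopen {t | l t = 1} := by
    constructor
    · refine isClosed_eq (((c1 _ (hf _ h0)).mul (c1 _ h0).inv).congr fun t => ?_) continuous_const
      simp [hl t _ h0]
    · rw [isOpen_iff_mem_nhds]
      intro t1 ht1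
      have : CompactSpace K := isCompact_iff_compactSpace.1 hK
      have hc' : Continuous fun p : ℝ × K =>
          ((ψ p.1 p.2 * (ψ t1 p.2)⁻¹ * (ψ p.1 y0 * (ψ t1 y0)⁻¹)⁻¹ : Circle) : ℂ).re := by
        have a1 : Continuous fun p : ℝ × K => ψ p.1 p.2 :=
          hc.comp_continuous (f := fun p : ℝ × K => (p.1, (p.2 : G))) (by fun_prop)
            fun p => ⟨trivial, hKY p.2.2⟩
        have a2 : Continuous fun p : ℝ × K => ψ t1 p.2 :=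
          hc.comp_continuous (f := fun p : ℝ × K => (t1, (p.2 : G))) (by fun_prop)
            fun p => ⟨trivial, hKY p.2.2⟩
        exact Complex.continuous_re.comp (continuous_subtype_val.comp ((a1.mul a2.inv).mul
          (((c1 _ h0).comp continuous_fst).mul continuous_const).inv))
      have hev : ∀ᶠ t in 𝓝 t1, ∀ κ ∈ (univ : Set K), 1 / 2 <
          ((ψ t κ * (ψ t1 κ)⁻¹ * (ψ t y0 * (ψ t1 y0)⁻¹)⁻¹ : Circle) : ℂ).re := by
        refine isCompact_univ.eventually_forall_of_forall_eventually fun κ _ => ?_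
        refine hc'.continuousAt.eventually (lt_mem_nhds ?_)
        simp only [mul_inv_cancel, inv_one, mul_one]; norm_num
      filter_upwards [hev] with t ht
      refine circ_one _ fun n => ?_
      obtain ⟨κ, hκ, e⟩ := hY _ (it n).1
      have := ht ⟨κ, hκ⟩ trivial
      simp only [← e, (it n).2, show l t1 = 1 from ht1, one_pow, one_mul] at this
      rwa [mul_assoc (l t ^ n), mul_inv_cancel_right] at this
  have := hcl.eq_univ ⟨0, l0⟩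
  exact (this ▸ mem_univ 1 : (1 : ℝ) ∈ {t | l t = 1})

lemma exchar2 {Λ Δ : Subgroup G} (hΔ : IsClosed (Δ : Set G)) (hK : Cc Λ Δ)
    (hc : ∀ x ∈ Λ, ∀ y ∈ Λ, ⁅x, y⁆ ∈ Δ) {c : G} (hh : c ∈ Λ) (hn : c ∉ Δ) :
    ∃ χ : G → Circle, ContinuousOn χ Λ ∧ Mu Λ χ ∧ (∀ x ∈ Λ, x ∈ Δ → χ x = 1) ∧ χ c ≠ 1 := by
  classical
  obtain ⟨K, h1, h2, h3⟩ := hK
  obtain ⟨P, -, hP, -, χ, a1, a2, a3, a4⟩ := exchar (G := Λ) (Δ := Δ.subgroupOf Λ) (H := ⊤)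
    (hΔ.preimage continuous_subtype_val) ⟨(↑) ⁻¹' K, Subtype.isCompact_iff.2 (by
      rwa [image_preimage_eq_of_subset (by simpa using h2)]), fun _ _ => trivial, fun s _ => by
      obtain ⟨κ, hκ, e⟩ := h3 s s.2
      exact ⟨⟨κ, h2 hκ⟩, hκ, e⟩⟩ (fun h _ g => hc _ h.2 _ g.2) (h := ⟨c, hh⟩) trivial hn
  refine ⟨fun x => if hx : x ∈ Λ then χ ⟨x, hx⟩ else 1, ?_, fun x hx y hy => ?_,
    fun x hx hd => ?_, by simpa only [hh, dif_pos] using a4⟩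
  · rw [continuousOn_iff_continuous_domRestrict]
    refine (a1.comp_continuous continuous_id fun x => hP trivial).congr fun x => ?_
    have hx : (x : G) ∈ Λ := x.2
    simp [Set.domRestrict, hx]
  · simp only [hx, hy, Λ.mul_mem hx hy, dif_pos]
    exact a2 ⟨x, hx⟩ (hP trivial) ⟨y, hy⟩ (hP trivial)
  · simp only [hx, dif_pos]
    exact a3 _ hd

/-- closed sets invariant on the left and on the right -/
structure Iv (S Λ : Subgroup G) (Z : Set G) : Prop where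
  cl : IsClosed Z
  l : ∀ s ∈ S, ∀ z ∈ Z, s * z ∈ Z
  r : ∀ l ∈ Λ, ∀ z ∈ Z, z * l ∈ Z

/-- minimal invariant sets -/
def Mn (S Λ : Subgroup G) (Y : Set G) : Prop :=
  Iv S Λ Y ∧ ∀ Z, Iv S Λ Z → Z ⊆ Y → Z.Nonempty → Y ⊆ Z

/-- the closure of an orbit -/
def YY (H Λ : Subgroup G) : Set G := closure ((H : Set G) * (Λ : Set G))

variable {S H Λ Λ' U : Subgroup G}

lemma Iv.inter {Y Z : Set G} (h : Iv S Λ Y) (h' : Iv S Λ Z) : Iv S Λ (Y ∩ Z) :=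
  ⟨h.cl.inter h'.cl, fun s hs z hz => ⟨h.l s hs z hz.1, h'.l s hs z hz.2⟩,
    fun s hs z hz => ⟨h.r s hs z hz.1, h'.r s hs z hz.2⟩⟩

lemma YY_mem {h l : G} (hh : h ∈ H) (hl : l ∈ Λ) : h * l ∈ YY H Λ :=
  subset_closure (mul_mem_mul hh hl)

lemma YY_one : (1 : G) ∈ YY H Λ := by simpa using YY_mem H.one_mem Λ.one_mem

lemma YY_iv (hS : ∀ s ∈ S, s ∈ (H : Set G) * (Λ : Set G)) (hn : ∀ s ∈ S, ∀ h ∈ H, s * h * s⁻¹ ∈ H) :
    Iv S Λ (YY H Λ) := by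
  refine ⟨isClosed_closure, fun s hs z hz => ?_, fun l hl z hz => ?_⟩
  · refine map_mem_closure (continuous_const_mul s) hz ?_
    rintro _ ⟨h, hh, l, hl, rfl⟩
    obtain ⟨h', hh', l', hl', e⟩ := hS s hs
    refine ⟨_, H.mul_mem (hn s hs h hh) hh', _, Λ.mul_mem hl' hl, ?_⟩
    simp only at e ⊢
    rw [mul_assoc, ← mul_assoc h', e]; group
  · refine map_mem_closure (f := fun x => x * l) (continuous_mul_const l) hz ?_
    rintro _ ⟨h, hh, l', hl', rfl⟩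
    exact ⟨h, hh, _, Λ.mul_mem hl' hl, (mul_assoc _ _ _).symm⟩

lemma YY_H : Iv H Λ (YY H Λ) :=
  YY_iv (fun s hs => ⟨s, hs, 1, Λ.one_mem, mul_one _⟩)
    fun _ hs _ hh => H.mul_mem (H.mul_mem hs hh) (H.inv_mem hs)

lemma exMn {Y K : Set G} (hY : Iv S Λ Y) (hne : Y.Nonempty) (hK : IsCompact K)
    (h : ∀ y ∈ Y, ∃ κ ∈ K, κ⁻¹ * y ∈ Λ) : ∃ Z ⊆ Y, Z.Nonempty ∧ Mn S Λ Z := by
  obtain ⟨Z, hZ, hm⟩ := zorn_superset_nonempty {Z | Z ⊆ Y ∧ Z.Nonempty ∧ Iv S Λ Z}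
    (fun c hc hch hn => by
      refine ⟨⋂₀ c, ⟨?_, ?_, isClosed_sInter fun Z hZ => (hc hZ).2.2.cl,
        fun s hs z hz Z hZ => (hc hZ).2.2.l s hs z (hz Z hZ),
        fun s hs z hz Z hZ => (hc hZ).2.2.r s hs z (hz Z hZ)⟩, fun s hs => sInter_subset_of_mem hs⟩
      · obtain ⟨Z, hZ⟩ := hn
        exact (sInter_subset_of_mem hZ).trans (hc hZ).1
      · have := hn.to_subtype
        by_contra he
        rw [not_nonempty_iff_eq_empty, sInter_eq_iInter] at he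
        obtain ⟨i, hi⟩ := hK.elim_directed_family_closed (fun i : c => (i : Set G))
          (fun i => (hc i.2).2.2.cl) (by rw [he, inter_empty]) (fun a b => by
            rcases hch.total a.2 b.2 with h | h
            exacts [⟨a, subset_rfl, h⟩, ⟨b, h, subset_rfl⟩])
        obtain ⟨z, hz⟩ := (hc i.2).2.1
        obtain ⟨κ, hκ, e⟩ := h z ((hc i.2).1 hz)
        have := (hc i.2).2.2.r _ (Λ.inv_mem e) z hz
        exact (hi ▸ (⟨hκ, by simpa using this⟩ : κ ∈ K ∩ i) : κ ∈ (∅ : Set G)))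
    Y ⟨subset_rfl, hne, hY⟩
  exact ⟨Z, hZ, hm.1.2.1, hm.1.2.2, fun W hW hWZ hn => hm.2 ⟨hWZ.trans hZ, hn, hW⟩ hWZ⟩

lemma parry {Y K : Set G} (hY : Mn S Λ Y) (hH : Iv H Λ Y) (h1 : (1 : G) ∈ Y) (hK : IsCompact K)
    (hKY : ∀ y ∈ Y, ∃ κ ∈ K, κ⁻¹ * y ∈ Λ) {Φ χ : G → Circle} (hc : ContinuousOn Φ Y)
    (hl : ∀ s ∈ S, ∀ y ∈ Y, Φ (s * y) = Φ y) (hr : ∀ c ∈ Λ, ∀ y ∈ Y, Φ (y * c) = Φ y * χ c)
    {C : ℕ → Subgroup G} (hCH : ∀ i, C i ≤ H) (hCp : ∀ i, PC (C i))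
    (hCs : ∀ i, ∀ s ∈ S, ∀ h ∈ C i, ⁅s, h⁆ ∈ C (i + 1)) {N : ℕ} (hN : C N = ⊥) :
    ∀ h ∈ C 0, ∃ η, ∀ y ∈ Y, Φ (h * y) = η * Φ y := by
  have key : ∀ n i, i + n = N → ∀ h ∈ C i, ∃ η, ∀ y ∈ Y, Φ (h * y) = η * Φ y := by
    intro n
    induction n with
    | zero =>
      intro i hi h hh
      rw [add_zero] at hi
      rw [hi, hN, Subgroup.mem_bot] at hh
      exact ⟨1, fun y _ => by simp [hh]⟩
    | succ n ih =>
      intro i hi h hh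
      obtain ⟨α, hα, a0, a1, ha⟩ := hCp i h hh
      let ψ : ℝ → G → Circle := fun t y => Φ (α t * y) * (Φ y)⁻¹
      have m1 : ∀ t, ∀ y ∈ Y, α t * y ∈ Y := fun t => hH.l _ (hCH i (ha t))
      have cψ : ContinuousOn (fun p : ℝ × G => ψ p.1 p.2) (univ ×ˢ Y) :=
        (hc.comp (f := fun p : ℝ × G => α p.1 * p.2) (by fun_prop) fun p hp => m1 _ _ hp.2).mul
          (hc.comp (f := fun p : ℝ × G => p.2) (by fun_prop) fun p hp => hp.2).inv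
      have rψ : ∀ t, ∀ c ∈ Λ, ∀ y ∈ Y, ψ t (y * c) = ψ t y := fun t c hc y hy => by
        simp only [ψ]
        rw [← mul_assoc, hr c hc _ (m1 t y hy), hr c hc y hy, mul_inv_rev, mul_assoc,
          mul_inv_cancel_left]
      have lψ : ∀ s ∈ S, ∀ y ∈ Y, ψ 1 (s * y) = ψ 1 y := by
        intro s hs
        have m2 := fun t => hCs i _ (S.inv_mem hs) _ (ha t)
        choose l hl' using fun t => ih (i + 1) (by omega) _ (m2 t)
        have e : ∀ t, ∀ y ∈ Y, ψ t (s * y) = l t * ψ t y := fun t y hy => by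
          simp only [ψ]
          rw [show α t * (s * y) = s * (⁅s⁻¹, α t⁆ * (α t * y)) by
            simp only [commutatorElement_def]; group, hl s hs _ (hH.l _ (hCH _ (m2 t)) _ (m1 t y hy)),
            hl' t _ (m1 t y hy), hl s hs y hy, mul_assoc]
        have := eig (hK.inter_right hH.cl) inter_subset_right ψ cψ (fun y hy => by
            obtain ⟨κ, hκ, e⟩ := hKY y hy
            have : κ ∈ Y := by simpa using hH.r _ (Λ.inv_mem e) y hy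
            exact ⟨κ, ⟨hκ, this⟩, fun t => by simpa using rψ t _ e κ this⟩)
          (fun y => s * y) (hY.1.l s hs) l e h1 (by simpa [ψ, a0] using (e 0 1 h1).symm)
        intro y hy
        rw [e 1 y hy, this, one_mul]
      have := hY.2 (Y ∩ ψ 1 ⁻¹' {ψ 1 1}) ⟨(cψ.comp (f := fun y : G => ((1 : ℝ), y)) (by fun_prop)
          fun y hy => ⟨trivial, hy⟩).preimage_isClosed_of_isClosed hH.cl isClosed_singleton,
        fun s hs z hz => ⟨hY.1.l s hs z hz.1, (lψ s hs z hz.1).trans hz.2⟩,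
        fun s hs z hz => ⟨hY.1.r s hs z hz.1, (rψ 1 s hs z hz.1).trans hz.2⟩⟩ inter_subset_left
        ⟨1, h1, rfl⟩
      refine ⟨ψ 1 1, fun y hy => ?_⟩
      rw [← show ψ 1 y = ψ 1 1 from (this hy).2]
      simp [ψ, a1]
  exact key N 0 (zero_add _)

/-- absence of eigenfunctions -/
def NE (S H Λ : Subgroup G) : Prop :=
  ∀ Φ : G → Circle, ContinuousOn Φ (YY H Λ) → (∀ s ∈ S, ∀ y ∈ YY H Λ, Φ (s * y) = Φ y) →
    (∀ l ∈ Λ, ∀ y ∈ YY H Λ, Φ (y * l) = Φ y) → (∀ h ∈ H, ∀ y ∈ YY H Λ, Φ (h * y) = Φ h * Φ y) →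
    ∀ h ∈ H, Φ h = 1

lemma YY_mono (h : Λ' ≤ Λ) : YY H Λ' ⊆ YY H Λ := closure_mono (mul_subset_mul_left h)

lemma NE.mono (h : NE S H Λ') (hΛ : Λ' ≤ Λ) : NE S H Λ := fun Φ a b c d =>
  h Φ (a.mono (YY_mono hΛ)) (fun s hs y hy => b s hs y (YY_mono hΛ hy))
    (fun s hs y hy => c s (hΛ hs) y (YY_mono hΛ hy)) fun s hs y hy => d s hs y (YY_mono hΛ hy)

lemma mstep (hU : IsClosed (U : Set G)) (hΛ : IsClosed (Λ : Set G)) (h1 : Λ' ≤ Λ) (h2 : Λ ≤ U)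
    (hc : ∀ x ∈ Λ, ∀ y ∈ Λ, ⁅x, y⁆ ∈ Λ') (hK : Cc U Λ') (hH : H ≤ U)
    (hS : ∀ s ∈ S, s ∈ (H : Set G) * (Λ' : Set G)) (hn : ∀ s ∈ S, ∀ h ∈ H, s * h * s⁻¹ ∈ H)
    {C : ℕ → Subgroup G} (hC0 : H ≤ C 0) (hCH : ∀ i, C i ≤ H) (hCp : ∀ i, PC (C i))
    (hCs : ∀ i, ∀ s ∈ S, ∀ h ∈ C i, ⁅s, h⁆ ∈ C (i + 1)) {N : ℕ} (hN : C N = ⊥) (ne : NE S H Λ')
    (hY : Mn S Λ (YY H Λ)) : Mn S Λ' (YY H Λ') := by
  obtain ⟨K, hK, -, hKU⟩ := hK
  have hYU : YY H Λ ⊆ U := closure_minimal (by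
    rintro _ ⟨h, hh, l, hl, rfl⟩; exact U.mul_mem (hH hh) (h2 hl)) hU
  have hKΛ : ∀ c ∈ Λ, ∃ κ ∈ K ∩ Λ, κ⁻¹ * c ∈ Λ' := fun c hc => by
    obtain ⟨κ, hκ, e⟩ := hKU c (h2 hc)
    exact ⟨κ, ⟨hκ, by simpa using Λ.mul_mem hc (Λ.inv_mem (h1 e))⟩, e⟩
  have hK' : IsCompact (K ∩ Λ) := hK.inter_right hΛ
  have cj : ∀ c ∈ Λ, ∀ l ∈ Λ', c * l * c⁻¹ ∈ Λ' := fun c hc' l hl => by
    simpa [commutatorElement_def] using Λ'.mul_mem (hc c hc' l (h1 hl)) hl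
  have tr : ∀ Z, Iv S Λ' Z → ∀ c ∈ Λ, Iv S Λ' {y | y * c ∈ Z} := fun Z hZ c hc =>
    ⟨hZ.cl.preimage (continuous_mul_const c), fun s hs z hz => by
      simpa [mul_assoc] using hZ.l s hs _ hz, fun l hl z hz => by
      simpa [mul_assoc] using hZ.r _ (cj _ (Λ.inv_mem hc) l hl) _ hz⟩
  have dec : ∀ Z, Iv S Λ' Z → ∀ z ∈ Z, ∀ c ∈ Λ, ∃ z' ∈ Z, ∃ κ ∈ K ∩ Λ, κ⁻¹ * c ∈ Λ' ∧
      z' * κ = z * c := fun Z hZ z hz c hc => by
    obtain ⟨κ, hκ, e⟩ := hKΛ c hc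
    exact ⟨_, hZ.r _ (cj κ hκ.2 _ e) z hz, κ, hκ, e, by group⟩
  have cover : ∀ Z, Iv S Λ' Z → Z ⊆ YY H Λ → Z.Nonempty → YY H Λ ⊆ Z * (K ∩ Λ) := by
    intro Z hZ hZY ⟨z, hz⟩
    refine hY.2 _ ⟨hZ.cl.mul_right_of_isCompact hK', ?_, ?_⟩ ?_ ?_
    · rintro s hs _ ⟨z, hz, κ, hκ, rfl⟩
      exact ⟨_, hZ.l s hs z hz, κ, hκ, mul_assoc _ _ _⟩
    · rintro l hl _ ⟨z, hz, κ, hκ, rfl⟩
      obtain ⟨z', hz', κ', hκ', -, e⟩ := dec Z hZ z hz _ (Λ.mul_mem hκ.2 hl)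
      exact ⟨z', hz', κ', hκ', e.trans (mul_assoc _ _ _).symm⟩
    · rintro _ ⟨z, hz, κ, hκ, rfl⟩
      exact hY.1.r _ hκ.2 z (hZY hz)
    · obtain ⟨z', hz', κ', hκ', -⟩ := dec Z hZ z hz _ Λ.one_mem
      exact ⟨_, z', hz', κ', hκ', rfl⟩
  obtain ⟨Z, hZY, hZ1, hZ⟩ : ∃ Z ⊆ YY H Λ, (1 : G) ∈ Z ∧ Mn S Λ' Z := by
    obtain ⟨Z, hZY, hne, hZ⟩ := exMn (Λ := Λ') ⟨hY.1.cl, hY.1.l, fun l hl => hY.1.r l (h1 hl)⟩
      ⟨1, YY_one⟩ hK fun y hy => hKU y (hYU hy)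
    obtain ⟨z, hz, κ, hκ, e⟩ := cover Z hZ.1 hZY hne YY_one
    refine ⟨{y | y * κ⁻¹ ∈ Z}, fun y hy => ?_, ?_, tr Z hZ.1 _ (Λ.inv_mem hκ.2),
      fun W hW hWZ ⟨w, hw⟩ y hy => ?_⟩
    · simpa using hY.1.r _ hκ.2 _ (hZY hy)
    · simpa [← eq_inv_of_mul_eq_one_left e] using hz
    · simpa using hZ.2 _ (tr W hW _ hκ.2) (fun x hx => by simpa using hWZ hx)
        ⟨w * κ⁻¹, by simpa using hw⟩ hy
  let Δ : Subgroup G :=
    { carrier := {g | ∀ z ∈ Z, z * g ∈ Z ∧ z * g⁻¹ ∈ Z}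
      one_mem' := fun z hz => by simpa using hz
      mul_mem' := fun {x y} hx hy z hz => ⟨by simpa [mul_assoc] using (hy _ (hx z hz).1).1,
        by simpa [mul_assoc] using (hx _ (hy z hz).2).2⟩
      inv_mem' := fun {x} hx z hz => by simpa using (hx z hz).symm }
  have hΔc : IsClosed (Δ : Set G) := by
    have : (Δ : Set G) = ⋂ z ∈ Z, ((fun g => z * g) ⁻¹' Z ∩ (fun g => z * g⁻¹) ⁻¹' Z) := by
      ext; simp [Δ]
    rw [this]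
    exact isClosed_biInter fun z _ => (hZ.1.cl.preimage (by fun_prop)).inter
      (hZ.1.cl.preimage (by fun_prop))
  have hΔ' : Λ' ≤ Δ := fun l hl z hz => ⟨hZ.1.r l hl z hz, hZ.1.r _ (Λ'.inv_mem hl) z hz⟩
  have hΔ : ∀ c ∈ Λ, ∀ z ∈ Z, z * c ∈ Z → c ∈ Δ := by
    have : ∀ c ∈ Λ, ∀ z ∈ Z, z * c ∈ Z → ∀ z ∈ Z, z * c ∈ Z := fun c hc z hz h z' hz' =>
      (hZ.2 _ (hZ.1.inter (tr Z hZ.1 c hc)) inter_subset_left ⟨z, hz, h⟩ hz').2
    exact fun c hc z hz h z' hz' => ⟨this c hc z hz h z' hz',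
      this _ (Λ.inv_mem hc) _ h (by simpa using hz) z' hz'⟩
  have cov := cover Z hZ.1 hZY ⟨1, hZ1⟩
  have hHZ : ∀ h ∈ H, h ∈ Z := by
    intro h hh
    have hhY : h ∈ YY H Λ := by simpa using YY_mem hh Λ.one_mem
    obtain ⟨z', hz', c, hc', e⟩ := cov hhY
    by_cases hcΔ : c ∈ Δ
    · exact e ▸ (hcΔ z' hz').1
    exfalso
    obtain ⟨χ, χc, χm, χ1, χn⟩ := exchar2 hΔc ⟨K ∩ Λ, hK', inter_subset_right, fun s hs =>
      (hKΛ s hs).imp fun κ h => ⟨h.1, hΔ' h.2⟩⟩ (fun x hx y hy => hΔ' (hc x hx y hy)) hc'.2 hcΔ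
    choose! zz hzz κ hκ ek using fun y hy => mem_mul.1 (cov (a := y) hy)
    let Φ : G → Circle := fun y => χ (κ y)
    have key : ∀ z ∈ Z, ∀ c ∈ Λ, Φ (z * c) = χ c := by
      intro z hz c hc
      have hy := hY.1.r c hc z (hZY hz)
      have m := Λ.mul_mem hc (Λ.inv_mem (hκ _ hy).2)
      have := χ1 _ m (hΔ _ m z hz (by
        rw [← mul_assoc, mul_inv_eq_of_eq_mul (ek _ hy).symm]; exact hzz _ hy))
      rw [χm _ hc _ (Λ.inv_mem (hκ _ hy).2), χm.inv (hκ _ hy).2, mul_inv_eq_one] at this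
      exact this.symm
    have Φc : ContinuousOn Φ (YY H Λ) := by
      rw [continuousOn_iff_isClosed]
      intro t ht
      refine ⟨Z * (K ∩ (Λ ∩ χ ⁻¹' t)), hZ.1.cl.mul_right_of_isCompact
        (hK.inter_right (χc.preimage_isClosed_of_isClosed hΛ ht)), ?_⟩
      ext y
      refine and_congr_left fun hy => ⟨fun h => ⟨_, hzz y hy, _, ⟨(hκ y hy).1, (hκ y hy).2, h⟩,
        ek y hy⟩, ?_⟩
      rintro ⟨z, hz, c, hc, rfl⟩
      rw [mem_preimage, key z hz c hc.2.1]; exact hc.2.2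
    have Φl : ∀ s ∈ S, ∀ y ∈ YY H Λ, Φ (s * y) = Φ y := fun s hs y hy => by
      have := key _ (hZ.1.l s hs _ (hzz y hy)) _ (hκ y hy).2
      rwa [mul_assoc, ek y hy] at this
    have Φr : ∀ c ∈ Λ, ∀ y ∈ YY H Λ, Φ (y * c) = Φ y * χ c := fun c hc y hy => by
      have := key _ (hzz y hy) _ (Λ.mul_mem (hκ y hy).2 hc)
      rwa [← mul_assoc, ek y hy, χm _ (hκ y hy).2 _ hc] at this
    have Φ1 : Φ 1 = 1 := by simpa [χm.one] using key 1 hZ1 1 Λ.one_mem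
    have hp := parry hY YY_H YY_one hK (fun y hy => (hKU y (hYU hy)).imp fun κ h => ⟨h.1, h1 h.2⟩)
      Φc Φl Φr hCH hCp hCs hN
    have := ne Φ (Φc.mono (YY_mono h1)) (fun s hs y hy => Φl s hs y (YY_mono h1 hy))
      (fun l hl y hy => by rw [Φr l (h1 hl) y (YY_mono h1 hy), χ1 l (h1 hl) (hΔ' hl), mul_one])
      (fun g hg y hy => by
        obtain ⟨η, hη⟩ := hp g (hC0 hg)
        have := hη 1 YY_one
        rw [mul_one, Φ1, mul_one] at this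
        rw [this, hη y (YY_mono h1 hy)]) h hh
    exact χn ((key z' hz' c hc'.2).symm.trans ((congrArg Φ e).trans this))
  have a1 : YY H Λ' ⊆ Z := closure_minimal (by
    rintro _ ⟨h, hh, l, hl, rfl⟩; exact hZ.1.r l hl h (hHZ h hh)) hZ.1.cl
  rwa [a1.antisymm (hZ.2 _ (YY_iv hS hn) a1 ⟨1, YY_one⟩)]

theorem thmA {L : ℕ → Subgroup G} (hLc : ∀ j, IsClosed (L j : Set G)) (hLa : Antitone L)
    (hLm : ∀ j, ∀ x ∈ L j, ∀ y ∈ L j, ⁅x, y⁆ ∈ L (j + 1)) {M : ℕ} (hK : Cc (L 0) (L M))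
    (hH : H ≤ L 0) (hS : ∀ s ∈ S, s ∈ (H : Set G) * (L M : Set G))
    (hn : ∀ s ∈ S, ∀ h ∈ H, s * h * s⁻¹ ∈ H)
    {C : ℕ → Subgroup G} (hC0 : H ≤ C 0) (hCH : ∀ i, C i ≤ H) (hCp : ∀ i, PC (C i))
    (hCs : ∀ i, ∀ s ∈ S, ∀ h ∈ C i, ⁅s, h⁆ ∈ C (i + 1)) {N : ℕ} (hN : C N = ⊥)
    (ne : NE S H (L M)) : Mn S (L M) (YY H (L M)) := by
  have key : ∀ j ≤ M, Mn S (L j) (YY H (L j)) := by
    intro j
    induction j with
    | zero =>
      intro h0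
      have hY : YY H (L 0) ⊆ L 0 := closure_minimal (by
        rintro _ ⟨h, hh, l, hl, rfl⟩; exact (L 0).mul_mem (hH hh) hl) (hLc 0)
      refine ⟨YY_iv (fun s hs => mul_subset_mul_left (hLa h0) (hS s hs)) hn,
        fun Z hZ hZY ⟨z, hz⟩ y hy => ?_⟩
      simpa using hZ.r _ ((L 0).mul_mem ((L 0).inv_mem (hY (hZY hz))) (hY hy)) z hz
    | succ j ih =>
      intro hj
      exact mstep (hLc 0) (hLc j) (hLa j.le_succ) (hLa j.zero_le) (hLm j) (hK.mono (hLa hj)) hH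
        (fun s hs => mul_subset_mul_left (hLa hj) (hS s hs)) hn hC0 hCH hCp hCs hN
        (ne.mono (hLa hj)) (ih (j.le_succ.trans hj))
  exact key M le_rfl

end Pool.Agent.H96.NJ
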