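import Mathlib
import Pool.Agent.H96.NJ3
import Pool.Agent.H96.NJ4

/-! Towers from central series, and cocompactness for groups of polynomial sequences. -/

namespace Pool.Agent.H96.NJ

open Filter Topology Set Pool.Agent.H96.NS Polynomial
open Pool.Agent.H96.NI hiding Mu Cj
open scoped commutatorElement Pointwise

set_option linter.unusedSectionVars false

section top
variable {G : Type} [Group G] [TopologicalSpace G] [IsTopologicalGroup G]

/-- elements joined to the identity inside a subgroup -/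
def pc (A : Subgroup G) : Subgroup G where
  carrier := {x | ∃ γ : ℝ → G, Continuous γ ∧ γ 0 = 1 ∧ γ 1 = x ∧ ∀ t, γ t ∈ A}
  one_mem' := ⟨fun _ => 1, continuous_const, rfl, rfl, fun _ => A.one_mem⟩
  mul_mem' := by
    rintro x y ⟨γ, hγ, h0, h1, ht⟩ ⟨γ', hγ', h0', h1', ht'⟩
    exact ⟨fun t => γ t * γ' t, by fun_prop, by simp [h0, h0'], by simp [h1, h1'],
      fun t => A.mul_mem (ht t) (ht' t)⟩
  inv_mem' := by
    rintro x ⟨γ, hγ, h0, h1, ht⟩
    exact ⟨fun t => (γ t)⁻¹, by fun_prop, by simp [h0], by simp [h1], fun t => A.inv_mem (ht t)⟩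

lemma pc_le (A : Subgroup G) : pc A ≤ A := by
  rintro x ⟨γ, -, -, h1, ht⟩
  exact h1 ▸ ht 1

lemma pc_PC (A : Subgroup G) : PC (pc A) := by
  rintro x ⟨γ, hγ, h0, h1, ht⟩
  exact ⟨γ, hγ, h0, h1, fun t => ⟨fun s => γ (s * t), by fun_prop, by simp [h0], by simp,
    fun s => ht _⟩⟩

theorem thmB {U Λ S H : Subgroup G} {B : ℕ → Subgroup G} (hΛ : Λ ≤ U) (hSU : S ≤ U)
    (hBa : ∀ j, B (j + 1) ≤ B j) (hBU : B 0 ≤ U) (hBc : ∀ j, ∀ x ∈ B j, ∀ u ∈ U, ⁅x, u⁆ ∈ B (j + 1))
    (hU : ∀ u ∈ U, u ∈ (B 0 : Set G) * (Λ : Set G)) {M : ℕ} (hM : B M = ⊥) (hK : Cc U Λ)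
    (hH : H ≤ B 0) (hS : ∀ s ∈ S, s ∈ (H : Set G) * (Λ : Set G))
    (hn : ∀ s ∈ S, ∀ h ∈ H, s * h * s⁻¹ ∈ H) (hp : PC H) (hc : IsClosed (Λ : Set G))
    (ne : NE S H Λ) : Mn S Λ (YY H Λ) := by
  have ha : Antitone B := antitone_nat_of_succ_le hBa
  have hB : ∀ j, B j ≤ U := fun j => (ha j.zero_le).trans hBU
  have cj : ∀ j, ∀ x ∈ B j, ∀ u ∈ U, u * x * u⁻¹ ∈ B j := fun j x hx u hu => by
    have := (B j).mul_mem ((B j).inv_mem (hBa j (hBc j x hx u hu))) hx
    simpa [commutatorElement_def, mul_assoc] using this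
  let D : ℕ → Subgroup G := fun j =>
    { carrier := (B j : Set G) * (Λ : Set G)
      one_mem' := ⟨1, (B j).one_mem, 1, Λ.one_mem, mul_one _⟩
      mul_mem' := by
        rintro _ _ ⟨b, hb, l, hl, rfl⟩ ⟨b', hb', l', hl', rfl⟩
        exact ⟨_, (B j).mul_mem hb (cj j b' hb' l (hΛ hl)), _, Λ.mul_mem hl hl', by
          simp only; group⟩
      inv_mem' := by
        rintro _ ⟨b, hb, l, hl, rfl⟩
        exact ⟨_, cj j _ ((B j).inv_mem hb) _ (hΛ (Λ.inv_mem hl)), _, Λ.inv_mem hl, by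
          simp only; group⟩ }
  have d1 : ∀ j, B j ≤ D j := fun j b hb => ⟨b, hb, 1, Λ.one_mem, mul_one _⟩
  have d2 : ∀ j, Λ ≤ D j := fun j b hb => ⟨1, (B j).one_mem, b, hb, one_mul _⟩
  have d3 : ∀ j, D j ≤ U := by
    rintro j _ ⟨b, hb, l, hl, rfl⟩; exact U.mul_mem (hB j hb) (hΛ hl)
  have d4 : ∀ j, ∀ b ∈ B j, ∀ d ∈ D (j + 1), b * d * b⁻¹ ∈ D (j + 1) := fun j b hb d hd => by
    simpa [commutatorElement_def] using (D _).mul_mem (d1 _ (hBc j b hb d (d3 _ hd))) hd
  have d5 : ∀ j, ⁅D j, D j⁆ ≤ D (j + 1) := by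
    intro j
    rw [Subgroup.commutator_le]
    rintro _ ⟨b, hb, l, hl, rfl⟩ _ ⟨b', hb', l', hl', rfl⟩
    have a1 := (D _).inv_mem (d1 _ (hBc j b' hb' l (hΛ hl)))
    have a2 := d4 j b' hb' _ (d2 _ (Λ.mul_mem (Λ.mul_mem (Λ.mul_mem hl hl') (Λ.inv_mem hl))
      (Λ.inv_mem hl')))
    have a3 := d1 _ (hBc j b hb _ (U.mul_mem (hB j hb') (hΛ hl')))
    have := (D _).mul_mem (d4 j b hb _ ((D _).mul_mem a1 a2)) a3
    convert this using 1
    simp only [commutatorElement_def]; group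
  have dM : (D M).topologicalClosure = Λ := by
    refine le_antisymm (Subgroup.topologicalClosure_minimal _ ?_ hc)
      ((d2 M).trans (Subgroup.le_topologicalClosure _))
    rintro _ ⟨b, hb, l, hl, rfl⟩
    rw [hM] at hb
    simpa [show b = 1 from hb] using hl
  have := thmA (S := S) (H := H) (L := fun j => (D j).topologicalClosure)
    (fun j => Subgroup.isClosed_topologicalClosure _)
    (fun i j h => Subgroup.topologicalClosure_mono (mul_subset_mul_right (ha h)))
    (fun j x hx y hy => cl_cm (d5 j) hx hy) (M := M) (by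
      obtain ⟨K, h1, h2, h3⟩ := hK
      refine ⟨K, h1, fun x hx => Subgroup.le_topologicalClosure _ (hU x (h2 hx)), fun s hs => ?_⟩
      obtain ⟨κ, hκ, l, hl, rfl⟩ := closure_minimal (fun x hx => by
        obtain ⟨κ, hκ, e⟩ := h3 x (d3 0 hx)
        exact ⟨κ, hκ, _, e, by simp⟩) (hc.mul_left_of_isCompact h1) hs
      exact ⟨κ, hκ, by simpa [dM] using hl⟩)
    (hH.trans ((d1 0).trans (Subgroup.le_topologicalClosure _))) (by simpa only [dM] using hS) hn
    (C := fun i => pc (H ⊓ B i)) (fun x hx => (hp x hx).imp fun γ h =>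
      ⟨h.1, h.2.1, h.2.2.1, fun t => ⟨h.2.2.2 t, hH (h.2.2.2 t)⟩⟩)
    (fun i => (pc_le _).trans inf_le_left) (fun i => pc_PC _) (by
      rintro i s hs h ⟨γ, hγ, h0, h1, ht⟩
      refine ⟨fun t => ⁅s, γ t⁆, by simp only [commutatorElement_def]; fun_prop, by simp [h0],
        by simp [h1], fun t => ⟨H.mul_mem (hn s hs _ (ht t).1) (H.inv_mem (ht t).1), ?_⟩⟩
      simpa using (B _).inv_mem (hBc i _ (ht t).2 s (hSU hs)))
    (N := M) (le_bot_iff.1 ((pc_le _).trans (hM ▸ inf_le_right))) (by simpa only [dM] using ne)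
  simpa only [dM] using this

lemma PC_cl {E : Set G} (h : ∀ x ∈ E, ∃ γ : ℝ → G, Continuous γ ∧ γ 0 = 1 ∧ γ 1 = x ∧ ∀ t, γ t ∈ E) :
    PC (Subgroup.closure E) := fun _ hx =>
  (Subgroup.closure_le (pc (Subgroup.closure E))).2 (fun x hx => (h x hx).imp fun _ h =>
    ⟨h.1, h.2.1, h.2.2.1, fun t => Subgroup.subset_closure (h.2.2.2 t)⟩) hx

lemma exFil [LocallyCompactSpace G] [T2Space G] [Group.IsNilpotent G] {C : Set G}
    (hC : IsCompact C) (hg : Subgroup.closure C = ⊤) {Γ : Subgroup G} (hK : Cc ⊤ Γ) (D : ℕ) :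
    ∃ F : ℕ → Subgroup G, Fil F ∧ (∀ i, Cc (F i) Γ) ∧ (∀ i ≤ D + 1, ∀ g, g ∈ F i) ∧
      (∀ i, IsClosed (F i : Set G)) ∧ ∃ M, F M = ⊥ := by
  obtain ⟨k, hk⟩ := Hs_bot (⊤ : Subgroup G)
  let A : ℕ → Subgroup G := fun i => (Hs ⊤ ((i - 1) / (D + 1))).topologicalClosure
  have hn : ∀ i, (A i).Normal := fun i => Subgroup.is_normal_topologicalClosure _
  refine ⟨A, ⟨fun i => Subgroup.topologicalClosure_mono (Hs_anti (Nat.div_le_div_right (by omega))),
    fun i j x hx y hy => ?_⟩, fun i => rat hC hg hK hk _, fun i hi g =>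
    Subgroup.le_topologicalClosure _ ?_, fun i => Subgroup.isClosed_topologicalClosure _,
    k * (D + 1) + 1, le_bot_iff.1 fun s hs => ?_⟩
  · rcases i with _ | i
    · rw [zero_add, commutatorElement_def]
      exact (A j).mul_mem ((hn j).conj_mem _ hy x) ((A j).inv_mem hy)
    rcases j with _ | j
    · rw [add_zero, commutatorElement_def, mul_assoc, mul_assoc, ← mul_assoc y]
      exact (A _).mul_mem hx ((hn _).conj_mem _ ((A _).inv_mem hx) y)
    refine Subgroup.topologicalClosure_mono (Hs_anti ?_) (cl_cm (Hs_cm _ _) hx hy)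
    rw [Nat.add_sub_cancel, Nat.add_sub_cancel, show i + 1 + (j + 1) - 1 = i + j + 1 by omega]
    have h1 := Nat.lt_div_mul_add (a := i) D.succ_pos
    have h2 := Nat.lt_div_mul_add (a := j) D.succ_pos
    refine Nat.lt_succ_iff.1 ((Nat.div_lt_iff_lt_mul D.succ_pos).2 ?_)
    simp only [Nat.succ_eq_add_one] at *
    nlinarith
  · rw [Nat.div_eq_of_lt (by omega)]; trivial
  · simp only [A, Nat.add_sub_cancel, Nat.mul_div_cancel _ D.succ_pos, hk] at hs
    have : s ∈ closure ({1} : Set G) := hs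
    rwa [closure_singleton] at this

lemma Cc_pi {ι : Type} {A Γ : Subgroup G} (h : Cc A Γ) :
    Cc (Subgroup.pi univ fun _ : ι => A) (Subgroup.pi univ fun _ => Γ) := by
  obtain ⟨K, h1, h2, h3⟩ := h
  refine ⟨Set.pi univ fun _ => K, isCompact_univ_pi fun _ => h1, fun x hx i _ => h2 (hx i trivial),
    fun s hs => ?_⟩
  choose κ a b using fun i => h3 (s i) (hs i trivial)
  exact ⟨κ, fun i _ => a i, fun i _ => b i⟩

end top

variable {K : Type} [Group K]

lemma Fil.pi {ι : Type} {F : ℕ → Subgroup K} (h : Fil F) :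
    Fil fun i => Subgroup.pi univ fun _ : ι => F i :=
  ⟨fun i x hx t _ => h.anti i (hx t trivial),
    fun i j x hx y hy t _ => h.comm i j _ (hx t trivial) _ (hy t trivial)⟩

lemma exB2 {F : ℕ → Subgroup K} (hF : Fil F) : ∃ B : ℕ → Subgroup (ℤ → K), Fil B ∧
    ∀ i h, h ∈ B i ↔ (∀ t, h t ∈ F i) ∧ ∀ a, dd a h ∈ B (i + 1) := by
  choose C hC h using exC hF
  have hB : ∀ i x, x ∈ ⨅ m, C m i ↔ ∀ m, Pd F m i x := fun i x => by
    simp only [Subgroup.mem_iInf, h]
  refine ⟨fun i => ⨅ m, C m i, ⟨fun i => iInf_mono fun m => (hC m).anti i, fun i j x hx y hy =>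
    Subgroup.mem_iInf.2 fun m => (hC m).comm i j _ (Subgroup.mem_iInf.1 hx m) _
      (Subgroup.mem_iInf.1 hy m)⟩, fun i x => ⟨fun hx => ⟨(hB _ _).1 hx 0, fun a =>
        (hB _ _).2 fun m => ((hB _ _).1 hx (m + 1)).2 a⟩, fun hx => (hB _ _).2 fun m => ?_⟩⟩
  induction m with
  | zero => exact hx.1
  | succ m ih => exact ⟨ih, fun a => (hB _ _).1 (hx.2 a) m⟩

lemma Dg.npoly (c : K) {N : ℤ} (hN : N ≠ 0) : ∀ (D : ℕ) (P : ℤ[X]) (r : ℤ → ℤ), P.degree < D →
    (∀ t, N * r t = P.eval t) → Dg D fun t => c ^ r t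
  | 0, P, r, hr, h => fun t => by
    have : P = 0 := by simpa using hr
    have := h t
    simp_all
  | D + 1, P, r, hr, h => fun a => by
    have : (taylor a P - P).degree < D := by
      by_cases h0 : P = 0
      · simp [h0]
      refine (degree_sub_lt_left (degree_taylor P a) (by simpa using h0)
        (leadingCoeff_taylor ..)).trans_le ?_
      rw [degree_taylor, degree_eq_natDegree h0]
      rw [degree_eq_natDegree h0] at hr
      exact_mod_cast Nat.lt_succ_iff.1 (by exact_mod_cast hr)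
    convert Dg.npoly c hN D _ (fun t => r (t + a) - r t) this
      (fun t => by simp only [mul_sub, h, eval_sub, taylor_eval]) using 2 with t
    simp only [dd]
    rw [← zpow_neg, ← zpow_add]; congr 1; ring

lemma dg_choose (c : K) (j : ℕ) : Dg (j + 1) fun t : ℤ => c ^ Ring.choose t j :=
  Dg.npoly c (N := j.factorial) (by positivity) _ (descPochhammer ℤ j) _
    (degree_le_natDegree.trans_lt (by rw [descPochhammer_natDegree]; exact_mod_cast j.lt_succ_self))
    fun t => by rw [eval_eq_smeval, Ring.descPochhammer_eq_factorial_smul_choose, nsmul_eq_mul]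

section B
variable {F : ℕ → Subgroup K} {B : ℕ → Subgroup (ℤ → K)} (hF : Fil F)
  (hB : ∀ i h, h ∈ B i ↔ (∀ t, h t ∈ F i) ∧ ∀ a, dd a h ∈ B (i + 1))
include hB

lemma B_t1 : ∀ (j i : ℕ), ∀ h ∈ B i, (∀ t : ℕ, t < j → h t = 1) → h j ∈ F (i + j) := by
  intro j
  induction j with
  | zero => exact fun i h hh _ => ((hB i h).1 hh).1 _
  | succ j ih =>
    intro i h hh h0
    have := ih (i + 1) _ (((hB i h).1 hh).2 1) fun t ht => by
      have := h0 (t + 1) (by omega)
      push_cast at this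
      simp [dd, this, h0 t (by omega)]
    rw [show i + 1 + j = i + (j + 1) by ring] at this
    simpa [dd, h0 j j.lt_succ_self] using this

lemma B_dg {D : ℕ} (hD : ∀ i ≤ D + 1, ∀ g, g ∈ F i) :
    ∀ E i h, i + E ≤ D + 2 → Dg E h → h ∈ B i := by
  intro E
  induction E with
  | zero => intro i x _ hx; rw [show x = 1 from funext hx]; exact Subgroup.one_mem _
  | succ E ih =>
    exact fun i x hi hx => (hB _ _).2 ⟨fun t => hD i (by omega) _,
      fun a => ih _ _ (by omega) (hx a)⟩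

include hF

lemma B_t2 (g : K) : ∀ (E i : ℕ) (r : ℤ → ℤ), (Dg E fun t => g ^ r t) → g ∈ F (i + E - 1) →
    (fun t => g ^ r t) ∈ B i := by
  intro E
  induction E with
  | zero => intro i r hx _; rw [show (fun t => g ^ r t) = 1 from funext hx]; exact Subgroup.one_mem _
  | succ E ih =>
    intro i r hx hg
    refine (hB _ _).2 ⟨fun t => (F i).zpow_mem
      (antitone_nat_of_succ_le hF.anti (by omega : i ≤ i + (E + 1) - 1) hg) _, fun a => ?_⟩
    have e : dd a (fun t => g ^ r t) = fun t => g ^ (r (t + a) - r t) := by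
      funext t; simp only [dd]; group
    rw [e]
    exact ih _ _ (e ▸ hx a) (by rwa [show i + 1 + E - 1 = i + (E + 1) - 1 by omega])

lemma B_t3 {M : ℕ} (hM : F M = ⊥) : ∀ (E i : ℕ), M ≤ i + E → ∀ h ∈ B i,
    (∀ t : ℕ, t < E → h t = 1) → h = 1 := by
  intro E
  induction E with
  | zero =>
    intro i hi h hh _
    funext t
    have := antitone_nat_of_succ_le hF.anti (show M ≤ i from hi) (((hB i h).1 hh).1 t)
    rwa [hM] at this
  | succ E ih =>
    intro i hi h hh h0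
    have := ih (i + 1) (by omega) _ (((hB i h).1 hh).2 1) fun t ht => by
      have := h0 (t + 1) (by omega)
      push_cast at this
      simp [dd, this, h0 t (by omega)]
    have key : ∀ t, h (t + 1) = h t := fun t => (inv_mul_eq_one.1 (congrFun this t)).symm
    funext t
    induction t using Int.induction_on with
    | zero => exact h0 0 E.succ_pos
    | succ n ih => rw [key]; exact ih
    | pred n ih => rw [← key, sub_add_cancel]; exact ih

lemma B_cl [TopologicalSpace K] [IsTopologicalGroup K] [T1Space K] {M : ℕ} (hM : F M = ⊥)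
    (hc : ∀ i, IsClosed (F i : Set K)) : ∀ E i, M ≤ i + E → IsClosed (B i : Set (ℤ → K)) := by
  intro E
  induction E with
  | zero =>
    intro i hi
    have : (B i : Set (ℤ → K)) = {1} := eq_singleton_iff_unique_mem.2 ⟨(B i).one_mem, fun h hh =>
      B_t3 hF hB hM 0 i hi h hh fun t ht => absurd ht (Nat.not_lt_zero _)⟩
    rw [this]; exact isClosed_singleton
  | succ E ih =>
    intro i hi
    have : (B i : Set (ℤ → K)) = (⋂ t, (fun h => h t) ⁻¹' F i) ∩ ⋂ a, dd a ⁻¹' B (i + 1) := by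
      ext h; simpa using hB i h
    rw [this]
    exact (isClosed_iInter fun t => (hc i).preimage (continuous_apply t)).inter
      (isClosed_iInter fun a => (ih _ (by omega)).preimage (by unfold dd; fun_prop))

lemma B_cc [TopologicalSpace K] [IsTopologicalGroup K] {M : ℕ} (hM : F M = ⊥) {Γ : Subgroup K}
    (hc : ∀ i, Cc (F i) Γ) (i : ℕ) : Cc (B i) (Subgroup.pi univ fun _ => Γ) := by
  have key : ∀ n j, j + n = M → ∃ C : Set (ℤ → K), IsCompact C ∧ C ⊆ B i ∧ ∀ h ∈ B i,
      (∀ t : ℕ, t < j → h t = 1) → ∃ κ ∈ C, κ⁻¹ * h ∈ Subgroup.pi univ fun _ : ℤ => Γ := by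
    intro n
    induction n with
    | zero =>
      intro j hj
      refine ⟨{1}, isCompact_singleton, singleton_subset_iff.2 (B i).one_mem, fun h hh h0 =>
        ⟨1, rfl, ?_⟩⟩
      rw [B_t3 hF hB hM j i (by omega) h hh h0]; simp
    | succ n ih =>
      intro j hj
      obtain ⟨C, h1, h2, h3⟩ := ih (j + 1) (by omega)
      obtain ⟨C', h1', h2', h3'⟩ := hc (i + j)
      let s : K → ℤ → K := fun g t => g ^ Ring.choose t j
      have hs : ∀ g ∈ F (i + j), s g ∈ B i := fun g hg => B_t2 hF hB g _ _ _ (dg_choose g j) hg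
      refine ⟨s '' C' * C, (h1'.image (by fun_prop)).mul h1, ?_, fun h hh h0 => ?_⟩
      · rintro _ ⟨_, ⟨g, hg, rfl⟩, y, hy, rfl⟩
        exact (B i).mul_mem (hs g (h2' hg)) (h2 hy)
      · have a1 := B_t1 hB j i h hh h0
        obtain ⟨κ, hκ, e⟩ := h3' _ a1
        have a2 := (F _).mul_mem ((F _).inv_mem (h2' hκ)) a1
        obtain ⟨κ', hκ', e'⟩ := h3 _ ((B i).mul_mem ((B i).mul_mem ((B i).inv_mem (hs _ (h2' hκ)))
          hh) ((B i).inv_mem (hs _ a2))) fun t ht => by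
            rcases (Nat.lt_succ_iff.1 ht).lt_or_eq with ht | rfl
            · simp [s, Ring.choose_natCast, Nat.choose_eq_zero_of_lt ht, h0 t ht]
            · simp [s, Ring.choose_natCast]
        refine ⟨_, ⟨_, ⟨κ, hκ, rfl⟩, κ', hκ', rfl⟩, ?_⟩
        have := Subgroup.mul_mem _ e' (show s (κ⁻¹ * h j) ∈ Subgroup.pi univ fun _ : ℤ => Γ from
          fun t _ => Γ.zpow_mem e _)
        simpa [mul_assoc] using this
  obtain ⟨C, h1, h2, h3⟩ := key M 0 (zero_add _)
  exact ⟨C, h1, h2, fun h hh => h3 h hh fun t ht => absurd ht (Nat.not_lt_zero _)⟩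

end B

end Pool.Agent.H96.NJ
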