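import Mathlib
import Pool.Agent.H96.NJ5

/-! Polynomial recurrence along progressions in totally minimal nilsystems. -/

namespace Pool.Agent.H96.NJ

open Filter Topology Set Pool.Agent.H96.NS Polynomial
open Pool.Agent.H96.NI hiding Mu Cj
open scoped commutatorElement Pointwise

set_option linter.unusedSectionVars false

/-- sequences together with a shift -/
structure SD (K : Type) where
  l : ℤ → K
  n : ℤ

lemma SD.ext {K : Type} {x y : SD K} (h : x.l = y.l) (h' : x.n = y.n) : x = y := by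
  cases x; cases y; simp_all

variable {K : Type} [Group K]

instance : Mul (SD K) := ⟨fun x y => ⟨fun t => x.l t * y.l (t + x.n), x.n + y.n⟩⟩
instance : One (SD K) := ⟨⟨1, 0⟩⟩
instance : Inv (SD K) := ⟨fun x => ⟨fun t => (x.l (t - x.n))⁻¹, -x.n⟩⟩

lemma mul_l (x y : SD K) (t : ℤ) : (x * y).l t = x.l t * y.l (t + x.n) := rfl
lemma mul_n (x y : SD K) : (x * y).n = x.n + y.n := rfl
lemma inv_l (x : SD K) (t : ℤ) : x⁻¹.l t = (x.l (t - x.n))⁻¹ := rfl
lemma inv_n (x : SD K) : x⁻¹.n = -x.n := rfl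
lemma one_l (t : ℤ) : (1 : SD K).l t = 1 := rfl
lemma one_n : (1 : SD K).n = 0 := rfl

instance : Group (SD K) := Group.ofLeftAxioms
  (fun x y z => SD.ext (funext fun t => by simp only [mul_l, mul_n, mul_assoc, add_assoc])
    (add_assoc _ _ _))
  (fun x => SD.ext (funext fun t => by simp [mul_l, one_l, one_n]) (zero_add _))
  (fun x => SD.ext (funext fun t => by simp [mul_l, one_l, inv_l, inv_n, sub_eq_add_neg])
    (neg_add_cancel _))

/-- the inclusion of sequences -/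
def inl : (ℤ → K) →* SD K :=
  MonoidHom.mk' (fun h => ⟨h, 0⟩) fun _ _ => SD.ext (funext fun t => by simp [mul_l]) rfl

section top
variable [TopologicalSpace K] [IsTopologicalGroup K]

instance : TopologicalSpace (SD K) := .induced (fun x => (x.l, x.n)) inferInstance

lemma emb : IsEmbedding fun x : SD K => (x.l, x.n) :=
  ⟨⟨rfl⟩, fun _ _ h => SD.ext (congrArg Prod.fst h) (congrArg Prod.snd h)⟩

lemma cont_l : Continuous fun x : SD K => x.l := continuous_fst.comp emb.continuous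
lemma cont_n : Continuous fun x : SD K => x.n := continuous_snd.comp emb.continuous

lemma cont_ev : Continuous fun p : (ℤ → K) × ℤ => p.1 p.2 :=
  continuous_prod_of_discrete_right.2 fun b => continuous_apply b

instance : IsTopologicalGroup (SD K) where
  continuous_mul := emb.continuous_iff.2 ((continuous_pi fun t =>
    (((continuous_apply t).comp cont_l).comp continuous_fst).mul (cont_ev.comp
      ((cont_l.comp continuous_snd).prodMk (continuous_const.add (cont_n.comp continuous_fst))))).prodMk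
    ((cont_n.comp continuous_fst).add (cont_n.comp continuous_snd)))
  continuous_inv := emb.continuous_iff.2 ((continuous_pi fun t =>
    (cont_ev.comp (cont_l.prodMk (continuous_const.sub cont_n))).inv).prodMk cont_n.neg)

lemma cont_inl : Continuous (inl : (ℤ → K) → SD K) :=
  emb.continuous_iff.2 (continuous_id.prodMk continuous_const)

end top

/-- elements whose sequence lies in a shift invariant subgroup -/
def ovr (P : Subgroup (ℤ → K)) (hP : ∀ h ∈ P, ∀ a, (fun t => h (t + a)) ∈ P) : Subgroup (SD K) where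
  carrier := {x | x.l ∈ P}
  one_mem' := P.one_mem
  mul_mem' := fun hx hy => P.mul_mem hx (hP _ hy _)
  inv_mem' := fun {x} hx => P.inv_mem (hP _ hx (-x.n))

variable {G : Type} [Group G] {ι : Type}

/-- shifted polynomials -/
noncomputable def qq (p : ι → ℤ[X]) (m : ℤ) (i : ι) : ℤ[X] := taylor m (p i) - C ((p i).eval m)

lemma uu_qq (p : ι → ℤ[X]) (b : G) (n m : ℤ) (i : ι) :
    uu (qq p) b n m i = b ^ ((p i).eval (n + m) - (p i).eval m) := by
  simp [uu, qq, taylor_eval]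

/-- the acting elements -/
noncomputable def gg (p : ι → ℤ[X]) (b : G) (n l : ℤ) : SD (ι → G) :=
  ⟨uu (qq p) b n * fun _ _ => b ^ l, n⟩

lemma gg_mul (p : ι → ℤ[X]) (b : G) (n l n' l' : ℤ) :
    gg p b n l * gg p b n' l' = gg p b (n + n') (l + l') := by
  refine SD.ext (funext fun t => funext fun i => ?_) rfl
  simp only [mul_l, gg, Pi.mul_apply, uu_qq, ← zpow_add]
  rw [add_comm t n, show n' + (n + t) = n + n' + t by ring]
  congr 1; ring

lemma gg_zero (p : ι → ℤ[X]) (b : G) : gg p b 0 0 = 1 :=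
  SD.ext (funext fun t => funext fun i => by simp [gg, uu_qq, one_l]) rfl

/-- generators -/
noncomputable def ee (p : ι → ℤ[X]) (a : G) (n : ℤ) (b h : G) : ℤ → ι → G :=
  uu (qq p) b n * (fun _ _ => h) * (uu (qq p) a n)⁻¹

theorem core2 [TopologicalSpace G] [IsTopologicalGroup G] [T2Space G] [LocallyCompactSpace G]
    [Group.IsNilpotent G] {C : Set G} (hC : IsCompact C) (hg : Subgroup.closure C = ⊤)
    {N Γ : Subgroup G} [N.Normal] (hK : Cc ⊤ Γ) (hΓ : IsClosed (Γ : Set G)) {γ a : G}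
    (hγ : γ ∈ Γ) (ha : a * γ⁻¹ ∈ N) (hgen : ∀ g, ∃ m : ℤ, g * γ ^ m ∈ N) (hN : PC N)
    (hNo : IsOpen (N : Set G))
    (hden : ∀ M : ℕ, 0 < M → Dense {x | ∃ n : ℤ, ∃ l ∈ Γ, x = (a ^ M) ^ n * l})
    (p : ι → ℤ[X]) (hp : ∀ i, (p i).eval 0 = 0) {D : ℕ} (hD : ∀ i, (p i).degree < D)
    [Finite ι] {k : ℕ} (hk : 0 < k) (j : ℤ) {O : Set G} (hO : IsOpen O) (hOΓ : ∀ x, ∀ l ∈ Γ, x * l ∈ O ↔ x ∈ O)
    (hne : O.Nonempty) : ∃ n l : ℤ, ∀ i, a ^ ((p i).eval (k * n + j) + l) ∈ O := by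
  obtain ⟨F0, hF0, hc0, h10, hcl0, M, hM0⟩ := exFil hC hg hK (D + 1)
  have hF := hF0.pi (ι := ι)
  obtain ⟨B, hBf, hB⟩ := exB2 hF
  have hM : (Subgroup.pi univ fun _ : ι => F0 M) = ⊥ := by rw [hM0, Subgroup.pi_bot]
  have hBs : ∀ i, ∀ h ∈ B i, ∀ a, (fun t => h (t + a)) ∈ B i := fun i h hh a => by
    have := (B i).mul_mem hh (hBf.anti i (((hB i h).1 hh).2 a))
    convert this using 1
    funext t; simp [dd]
  have hB1 : ∀ h, Dg (D + 2) h → h ∈ B 1 := fun h =>
    B_dg hB (D := D + 1) (fun i hi g t _ => h10 i hi _) _ _ h (by omega)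
  have hq0 : ∀ m i, (qq p m i).eval 0 = 0 := fun m i => by simp [qq, taylor_eval]
  have hqD : ∀ m i, (qq p m i).degree < (D + 1 : ℕ) := fun m i => (degree_sub_le _ _).trans_lt
    (max_lt (by rw [degree_taylor]; exact (hD i).trans (by exact_mod_cast D.lt_succ_self))
      (degree_C_le.trans_lt (by exact_mod_cast D.succ_pos)))
  have hu1 : ∀ (b : G) n, uu (qq p) b n ∈ B 1 := fun b n => hB1 _ (Dg.pi fun i => by
    have := Dg.poly b (D + 2) (taylor n (p i) - p i) ((degree_sub_le _ _).trans_lt (by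
      rw [degree_taylor, max_self]; exact (hD i).trans (by exact_mod_cast by omega)))
    simpa only [uu_qq, eval_sub, taylor_eval, add_comm n] using this)
  have hd1 : ∀ h : G, (fun _ _ => h : ℤ → ι → G) ∈ B 1 := fun h =>
    hB1 _ (Dg.mono (D := 1) (fun a t => by simp [dd]) (by omega))
  let Γ' : Subgroup (ℤ → ι → G) := Subgroup.pi univ fun _ => Subgroup.pi univ fun _ => Γ
  let U : Subgroup (SD (ι → G)) := ovr (B 1) (hBs 1)
  let Λ : Subgroup (SD (ι → G)) := ovr (B 1 ⊓ Γ') fun h hh a => ⟨hBs 1 h hh.1 a, fun t _ => hh.2 _ trivial⟩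
  let S : Subgroup (SD (ι → G)) :=
    { carrier := {x | ∃ n l, x = gg p a (k * n) l}
      one_mem' := ⟨0, 0, by rw [mul_zero, gg_zero]⟩
      mul_mem' := by
        rintro _ _ ⟨n, l, rfl⟩ ⟨n', l', rfl⟩
        exact ⟨n + n', l + l', by rw [gg_mul, mul_add]⟩
      inv_mem' := by
        rintro _ ⟨n, l, rfl⟩
        exact ⟨-n, -l, inv_eq_of_mul_eq_one_right (by simp [gg_mul, gg_zero])⟩ }
  let E : Set (ℤ → ι → G) := {x | ∃ n b h, b * γ⁻¹ ∈ N ∧ h ∈ N ∧ x = ee p a n b h}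
  let H' := Subgroup.closure E
  have hE : ∀ n b h, b * γ⁻¹ ∈ N → h ∈ N → ee p a n b h ∈ H' := fun n b h hb hh =>
    Subgroup.subset_closure ⟨n, b, h, hb, hh, rfl⟩
  have hH1 : H' ≤ B 1 := (Subgroup.closure_le _).2 (by
    rintro _ ⟨n, b, h, -, -, rfl⟩
    exact (B 1).mul_mem ((B 1).mul_mem (hu1 _ _) (hd1 _)) ((B 1).inv_mem (hu1 _ _)))
  have hNn : N.Normal := inferInstance
  have pw : ∀ l : ℤ, a ^ l * (γ ^ l)⁻¹ ∈ N := fun l => by
    have : (QuotientGroup.mk' N) a = (QuotientGroup.mk' N) γ := by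
      rw [← mul_inv_eq_one, ← map_inv, ← map_mul]; exact (QuotientGroup.eq_one_iff _).2 ha
    rw [← QuotientGroup.eq_one_iff]
    show (QuotientGroup.mk' N) _ = 1
    rw [map_mul, map_inv, map_zpow, map_zpow, this, mul_inv_cancel]
  have hgΛ : ∀ n l, gg p γ n l ∈ Λ := fun n l => ⟨(B 1).mul_mem (hu1 _ _) (hd1 _),
    fun t _ i _ => Γ.mul_mem (Γ.zpow_mem hγ _) (Γ.zpow_mem hγ _)⟩
  have hdec : ∀ n l, gg p a n l =
      inl (ee p a n a (a ^ l * (γ ^ l)⁻¹) * (ee p a n γ 1)⁻¹) * gg p γ n l := fun n l => by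
    refine SD.ext (funext fun t => funext fun i => ?_) (zero_add _).symm
    simp only [mul_l, gg, inl, ee, MonoidHom.mk'_apply, Pi.mul_apply, Pi.inv_apply, uu, add_zero]
    group
  have hdm : ∀ n l : ℤ, ee p a n a (a ^ l * (γ ^ l)⁻¹) * (ee p a n γ 1)⁻¹ ∈ H' := fun n l =>
    H'.mul_mem (hE _ _ _ ha (pw l)) (H'.inv_mem (hE _ _ _ (by simp) N.one_mem))
  let H := H'.map inl
  have hgY : ∀ n l, gg p a n l ∈ YY H Λ := fun n l =>
    hdec n l ▸ YY_mem ⟨_, hdm n l, rfl⟩ (hgΛ n l)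
  have hHY : ∀ x ∈ H', inl x ∈ YY H Λ := fun x hx => by
    simpa using YY_mem (H := H) ⟨x, hx, rfl⟩ Λ.one_mem
  have hΛi : ∀ x ∈ B 1, (∀ m i, x m i ∈ Γ) → inl x ∈ Λ := fun x hx h => ⟨hx, fun m _ i _ => h m i⟩
  have hmin : Mn S Λ (YY H Λ) := by
    refine thmB (U := U) (B := fun j => (B (j + 1)).map inl) (fun x hx => hx.1) ?_
      (fun j => Subgroup.map_mono (hBf.anti _)) ?_ ?_ (fun u hu => ⟨_, ⟨u.l, hu, rfl⟩, ⟨1, u.n⟩,
        Subgroup.one_mem (B 1 ⊓ Γ'), SD.ext (funext fun t => by simp [mul_l, inl]) (zero_add _)⟩)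
      (M := M) ?_ ?_ (Subgroup.map_mono hH1) ?_ ?_ ?_ ?_ ?_
    · rintro _ ⟨n, l, rfl⟩
      exact (B 1).mul_mem (hu1 _ _) (hd1 _)
    · rintro _ ⟨h, hh, rfl⟩
      exact hh
    · rintro j _ ⟨h, hh, rfl⟩ u hu
      have a1 := ((hB _ _).1 ((B _).inv_mem hh)).2 u.n
      have a2 := hBf.comm _ _ _ hu _ a1
      rw [add_comm] at a2
      refine ⟨_, (B _).mul_mem ((B _).mul_mem (hBf.comm _ _ _ hh _ hu) (hBf.anti _ a2)) a1,
        SD.ext (funext fun t => ?_) (by simp [commutatorElement_def, mul_n, inv_n, inl])⟩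
      simp only [commutatorElement_def, mul_l, inv_l, mul_n, inv_n, inl, MonoidHom.mk'_apply, dd,
        Pi.mul_apply, Pi.inv_apply, add_zero, zero_add, neg_zero, sub_zero, add_sub_cancel_right]
      group
    · rw [eq_bot_iff]
      rintro _ ⟨h, hh, rfl⟩
      rw [B_t3 hF hB hM 0 _ M.le_succ h hh fun t ht => absurd ht (Nat.not_lt_zero _), map_one]
      exact Subgroup.one_mem _
    · obtain ⟨C, h1, h2, h3⟩ := B_cc hF hB hM (fun i => Cc_pi (hc0 i)) 1
      refine ⟨inl '' C, h1.image cont_inl, ?_, fun s hs => ?_⟩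
      · rintro _ ⟨h, hh, rfl⟩
        exact h2 hh
      · obtain ⟨κ, hκ, e⟩ := h3 _ hs
        refine ⟨_, ⟨κ, hκ, rfl⟩, ?_⟩
        have e2 : ((inl κ)⁻¹ * s).l = κ⁻¹ * s.l := funext fun t => by simp [mul_l, inv_l, inv_n, inl]
        show _ ∈ B 1 ⊓ Γ'
        rw [e2]
        exact ⟨(B 1).mul_mem ((B 1).inv_mem (h2 hκ)) hs, e⟩
    · rintro _ ⟨n, l, rfl⟩
      exact ⟨_, ⟨_, hdm _ l, rfl⟩, _, hgΛ _ l, (hdec _ l).symm⟩
    · rintro _ ⟨n, l, rfl⟩
      suffices h : H ≤ H.comap (MulAut.conj (gg p a (k * n) l)).toMonoidHom from fun x hx => h hx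
      refine Subgroup.map_le_iff_le_comap.2 ((Subgroup.closure_le _).2 ?_)
      rintro _ ⟨n', b, h, hb, hh, rfl⟩
      have hb' : a ^ l * b * (a ^ l)⁻¹ * γ⁻¹ ∈ N := by
        have := N.mul_mem (hNn.conj_mem _ (N.mul_mem hb (N.inv_mem ha)) (a ^ l)) ha
        convert this using 1; group
      refine ⟨_, H'.mul_mem (H'.inv_mem (hE (k * n) _ _ hb' N.one_mem))
        (hE (n' + k * n) _ _ hb' (hNn.conj_mem _ hh (a ^ l))), ?_⟩
      refine eq_mul_inv_iff_mul_eq.2 ?_
      refine SD.ext (funext fun t => funext fun i => ?_) (by simp [mul_n, inl])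
      simp only [mul_l, gg, inl, ee, MonoidHom.mk'_apply, Pi.mul_apply, Pi.inv_apply, uu_qq,
        add_zero, conj_zpow, add_comm t, ← add_assoc]
      group
    · rintro _ ⟨x, hx, rfl⟩
      obtain ⟨α, hα, a0, a1, at'⟩ := PC_cl (E := E) (by
        rintro _ ⟨n, b, h, hb, hh, rfl⟩
        obtain ⟨α, hα, a0, a1, at'⟩ := hN _ (N.mul_mem hb (N.inv_mem ha))
        obtain ⟨β, hβ, b0, b1, bt⟩ := hN _ hh
        refine ⟨fun t => ee p a n (α t * a) (β t), by unfold ee uu; fun_prop, ?_, by simp [a1, b1],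
          fun t => ⟨n, _, _, by simpa [mul_assoc] using N.mul_mem (at' t) ha, bt t, rfl⟩⟩
        funext m i
        simp [a0, b0, ee]) x hx
      exact ⟨fun t => inl (α t), cont_inl.comp hα, by simp [a0], by simp [a1],
        fun t => ⟨_, at' t, rfl⟩⟩
    · refine ((B_cl hF hB hM (fun i => isClosed_set_pi fun _ _ => hcl0 i) M 1 (by omega)).inter
        (isClosed_set_pi fun _ _ => isClosed_set_pi fun _ _ => hΓ)).preimage cont_l
    · intro Φ Φc Φl Φr Φm
      have hm : NI.Mu H' fun x => Φ (inl x) := fun x hx y hy => by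
        simp only [map_mul]
        exact Φm _ ⟨x, hx, rfl⟩ _ (hHY y hy)
      have hc : ContinuousOn (fun x => Φ (inl x)) H' := Φc.comp cont_inl.continuousOn hHY
      have Φ1 : Φ 1 = 1 := hm.one
      have hu : ∀ b, b * γ⁻¹ ∈ N → ∀ n, uu (qq p) b n * (uu (qq p) γ n)⁻¹ ∈ H' := fun b hb n => by
        simpa [ee, mul_assoc] using H'.mul_mem (hE n b 1 hb N.one_mem)
          (H'.inv_mem (hE n γ 1 (by simp) N.one_mem))
      have hda : ∀ n, ∀ h ∈ N, Φ (inl (ee p a n a h)) = 1 := by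
        intro n h hh
        have c1 : ContinuousOn (fun h => Φ (inl (ee p a n a h))) N :=
          hc.comp (f := fun h => ee p a n a h) (by unfold ee; fun_prop) fun h hh => hE _ _ _ ha hh
        have hcl : N.carrier ⊆ closure (N.carrier ∩ (fun h => Φ (inl (ee p a n a h))) ⁻¹' {1}) := by
          refine ((hden 1 one_pos).open_subset_closure_inter hNo).trans (closure_mono ?_)
          rintro _ ⟨hx, m, l, hl, rfl⟩
          refine ⟨hx, ?_⟩
          have e : inl (ee p a n a ((a ^ 1) ^ m * l)) * gg p a n 0 =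
              gg p a (k * 0) m * gg p a n 0 * inl fun _ _ => l := by
            rw [gg_mul]
            refine SD.ext (funext fun t => funext fun i => ?_) (by simp [mul_n, inl, gg])
            simp only [mul_l, gg, inl, ee, MonoidHom.mk'_apply, Pi.mul_apply, Pi.inv_apply, uu,
              add_zero, mul_zero, zero_add]
            group
          have := Φm _ ⟨_, hE n _ _ ha hx, rfl⟩ _ (hgY n 0)
          rw [e, Φr _ (hΛi _ (hd1 l) fun _ _ => hl) _ (by rw [gg_mul]; exact hgY _ _),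
            Φl _ ⟨0, m, rfl⟩ _ (hgY n 0)] at this
          exact mul_eq_right.1 this.symm
        exact ((c1.preimage_isClosed_of_isClosed (N.isClosed_of_isOpen hNo)
          isClosed_singleton).closure_subset (hcl hh)).2
      have key := star2 hγ ha hgen hN hNo hden hq0 hqD hm hc hu (fun h hh n => by
          have e : uu (qq p) γ n * (fun _ _ => h) * (uu (qq p) γ n)⁻¹ =
              (uu (qq p) a n * (uu (qq p) γ n)⁻¹)⁻¹ * ee p a n a h *
                (uu (qq p) a n * (uu (qq p) γ n)⁻¹) := by simp [ee, mul_assoc]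
          have a1 := hu a ha n
          have a2 := H'.mul_mem (H'.inv_mem a1) (hE n a h ha hh)
          have a3 := hm _ a2 _ a1
          have a4 := hm _ (H'.inv_mem a1) _ (hE n a h ha hh)
          have a5 := hm.inv a1
          simp only at a3 a4 a5 ⊢
          rw [e, a3, a4, a5, hda n h hh, mul_one, inv_mul_cancel]
          exact ⟨H'.mul_mem a2 a1, rfl⟩)
        (fun x hx h => by simpa [Φ1] using Φr _ (hΛi x (hH1 hx) h) 1 YY_one) hk fun m => by
          have := Φr _ (hgΛ (k * m) 0) _ (hHY _ (hu a ha (k * m)))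
          rw [← this, ← Φ1, ← Φl _ ⟨m, 0, rfl⟩ 1 YY_one, mul_one]
          congr 1
          exact SD.ext (funext fun t => funext fun i => by simp [mul_l, gg, inl]) (zero_add _)
      rintro _ ⟨x, hx, rfl⟩
      refine Subgroup.mem_bot.1 (hm.gen ⊥ ?_ x hx)
      rintro _ ⟨n, b, h, hb, hh, rfl⟩
      have e : ee p a n b h = uu (qq p) b n * (uu (qq p) γ n)⁻¹ *
          (uu (qq p) a n * (uu (qq p) γ n)⁻¹)⁻¹ * ee p a n a h := by simp [ee, mul_assoc]
      have a1 := hu a ha n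
      have a2 := hu b hb n
      have a3 := hm _ (H'.mul_mem a2 (H'.inv_mem a1)) _ (hE n a h ha hh)
      have a4 := hm _ a2 _ (H'.inv_mem a1)
      have a5 := hm.inv a1
      simp only at a3 a4 a5 ⊢
      rw [e, a3, a4, a5, hda n h hh, key a ha n, key b hb n]
      simp
  by_contra hcon
  have : Finite ι := inferInstance
  let Z : Set (SD (ι → G)) := YY H Λ ∩ ⋂ s ∈ S, {y | ∀ i, (s * y).l 0 i ∈ O}ᶜ
  have hZ : Iv S Λ Z := by
    refine hmin.1.inter ⟨isClosed_biInter fun s _ => IsOpen.isClosed_compl ?_,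
      fun s hs z hz => mem_iInter₂.2 fun s' hs' => ?_, fun l hl z hz => mem_iInter₂.2 fun s hs => ?_⟩
    · rw [ofPred_forall]
      exact isOpen_iInter_of_finite fun i => hO.preimage ((continuous_apply i).comp
        ((continuous_apply 0).comp (cont_l.comp (continuous_const_mul s))))
    · simpa only [mul_assoc, mem_compl_iff, mem_ofPred_eq] using
        mem_iInter₂.1 hz _ (S.mul_mem hs' hs)
    · intro h
      refine mem_iInter₂.1 hz s hs fun i => ?_
      have := h i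
      rwa [← mul_assoc, mul_l, Pi.mul_apply, hOΓ _ _ (hl.2 _ trivial i trivial)] at this
  obtain ⟨_, hx, m, l, hl, rfl⟩ := (hden 1 one_pos).inter_open_nonempty O hO hne
  have := hmin.2 Z hZ inter_subset_left ⟨gg p a j 0, hgY _ _, mem_iInter₂.2 (by
    rintro _ ⟨n, l, rfl⟩ h
    refine hcon ⟨n, l, fun i => ?_⟩
    have := h i
    rw [gg_mul] at this
    simpa [gg, uu_qq, hp, zpow_add] using this)⟩ (hgY 0 m)
  refine mem_iInter₂.1 this.2 1 S.one_mem fun i => ?_
  simpa [gg, uu_qq] using (hOΓ _ l hl).1 hx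

theorem main [TopologicalSpace G] [IsTopologicalGroup G] [T2Space G] [LocallyCompactSpace G]
    [LocallyPathConnectedSpace G] [Group.IsNilpotent G] (Γ : Subgroup G)
    (hΓ : IsClosed (Γ : Set G)) [CompactSpace (G ⧸ Γ)] (a : G)
    (hmin : ∀ m : ℕ, 0 < m → Dense (range fun n : ℤ => (a ^ m) ^ n • ((1 : G) : G ⧸ Γ)))
    (p : ι → ℤ[X]) (hp : ∀ i, (p i).eval 0 = 0) [Finite ι] {k : ℕ} (hk : 0 < k) (j : ℤ)
    {U : Set (G ⧸ Γ)} (hU : IsOpen U) (hne : U.Nonempty) :
    ∃ n l : ℤ, ∀ i, ((a ^ ((p i).eval (k * n + j) + l) : G) : G ⧸ Γ) ∈ U := by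
  have hden : ∀ M : ℕ, 0 < M → Dense {x | ∃ n : ℤ, ∃ l ∈ Γ, x = (a ^ M) ^ n * l} := by
    intro M hM
    refine ((hmin M hM).preimage QuotientGroup.isOpenMap_coe).mono ?_
    rintro x ⟨n, e⟩
    have e' : (((a ^ M) ^ n * 1 : G) : G ⧸ Γ) = x := e
    exact ⟨n, _, QuotientGroup.eq.1 e', by simp⟩
  have hK : Cc ⊤ Γ := by
    choose Kx hKx hKn using fun x : G => exists_compact_mem_nhds x
    obtain ⟨t, ht⟩ := (isCompact_univ (X := G ⧸ Γ)).elim_finite_subcover
      (fun x : G => (QuotientGroup.mk : G → G ⧸ Γ) '' interior (Kx x))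
      (fun x => QuotientGroup.isOpenMap_coe _ isOpen_interior) (fun z _ => by
        obtain ⟨x, rfl⟩ := QuotientGroup.mk_surjective z
        exact mem_iUnion.2 ⟨x, x, mem_interior_iff_mem_nhds.2 (hKn x), rfl⟩)
    refine ⟨⋃ x ∈ t, Kx x, t.isCompact_biUnion fun x _ => hKx x, fun _ _ => trivial, fun s _ => ?_⟩
    obtain ⟨x, hx, y, hy, e⟩ := mem_iUnion₂.1 (ht (mem_univ (s : G ⧸ Γ)))
    exact ⟨y, mem_iUnion₂.2 ⟨x, hx, interior_subset hy⟩, QuotientGroup.eq.1 e⟩
  let N : Subgroup G := pc ⊤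
  have hNn : N.Normal := ⟨by
    rintro x ⟨γ, hγ, h0, h1, -⟩ g
    exact ⟨fun t => g * γ t * g⁻¹, by fun_prop, by simp [h0], by simp [h1], fun _ => trivial⟩⟩
  have hNo : IsOpen (N : Set G) := by
    refine N.isOpen_of_mem_nhds (g := 1) (mem_of_superset
      ((IsOpen.pathComponent (1 : G)).mem_nhds (mem_pathComponent_self _)) ?_)
    rintro x ⟨γ⟩
    exact ⟨γ.extend, γ.continuous_extend, γ.extend_zero, γ.extend_one, fun _ => trivial⟩
  obtain ⟨γ, hγ, ha⟩ : ∃ γ ∈ Γ, a * γ⁻¹ ∈ N := by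
    have hPo : IsOpen ((N ⊔ Γ : Subgroup G) : Set G) := Subgroup.isOpen_mono le_sup_left hNo
    have := QuotientGroup.discreteTopology hPo
    have : CompactSpace (G ⧸ (N ⊔ Γ)) := by
      obtain ⟨K, h1, -, h3⟩ := hK
      refine ⟨?_⟩
      convert h1.image (QuotientGroup.continuous_mk (N := N ⊔ Γ)) using 1
      refine (eq_univ_of_forall fun z => ?_).symm
      obtain ⟨x, rfl⟩ := QuotientGroup.mk_surjective z
      obtain ⟨κ, hκ, e⟩ := h3 x trivial
      exact ⟨κ, hκ, QuotientGroup.eq.2 (Subgroup.mem_sup_right e)⟩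
    have : Finite (G ⧸ (N ⊔ Γ)) := finite_of_compact_of_discrete
    obtain ⟨M, hM, -, e⟩ := (N ⊔ Γ).exists_pow_mem_of_index_ne_zero
      Subgroup.index_ne_zero_of_finite a
    have : a ∈ N ⊔ Γ := closure_minimal (by
      rintro _ ⟨n, l, hl, rfl⟩
      exact (N ⊔ Γ).mul_mem ((N ⊔ Γ).zpow_mem e n) (Subgroup.mem_sup_right hl))
      ((N ⊔ Γ).isClosed_of_isOpen hPo) (hden M hM a)
    obtain ⟨z, hz, γ, hγ, rfl⟩ := Subgroup.mem_sup_of_normal_left.1 this
    exact ⟨γ, hγ, by simpa using hz⟩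
  obtain ⟨V, hV1, hVN, hV⟩ := local_compact_nhds (hNo.mem_nhds N.one_mem)
  let G' : Subgroup G := Subgroup.closure (insert γ V)
  have hγ' : γ ∈ G' := Subgroup.subset_closure (mem_insert _ _)
  have hGo : IsOpen (G' : Set G) := G'.isOpen_of_mem_nhds (mem_of_superset hV1 fun z hz =>
    Subgroup.subset_closure (mem_insert_of_mem _ hz))
  have hGc := (G'.isClosed_of_isOpen hGo).isClosedEmbedding_subtypeVal
  have hNG : N ≤ G' := by
    rintro _ ⟨α, hα, h0, rfl, -⟩
    have := (IsClopen.preimage ⟨G'.isClosed_of_isOpen hGo, hGo⟩ hα).eq_univ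
      ⟨0, show α 0 ∈ G' from h0 ▸ G'.one_mem⟩
    exact (this ▸ mem_univ 1 : (1 : ℝ) ∈ α ⁻¹' G')
  have haG : a ∈ G' := by simpa using G'.mul_mem (hNG ha) hγ'
  have : LocallyCompactSpace G' := hGo.locallyCompactSpace
  have hK' : Cc (⊤ : Subgroup G') (Γ.subgroupOf G') := by
    obtain ⟨K, hKc, hKS, h3⟩ := hK.op G' hGo
    refine ⟨(↑) ⁻¹' K, hGc.isCompact_preimage hKc, fun _ _ => trivial, fun s _ => ?_⟩
    obtain ⟨κ, hκ, hκs⟩ := h3 s s.2
    exact ⟨⟨κ, hKS hκ⟩, hκ, Subgroup.mem_subgroupOf.2 hκs⟩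
  have hcg : Subgroup.closure ((↑) ⁻¹' (insert γ V) : Set G') = ⊤ :=
    Subgroup.closure_preimage_eq_top (insert γ V)
  have hcp : IsCompact ((↑) ⁻¹' (insert γ V) : Set G') := hGc.isCompact_preimage (hV.insert γ)
  have hgen : ∀ g : G', ∃ m : ℤ, g * (⟨γ, hγ'⟩ : G') ^ m ∈ N.subgroupOf G' := by
    intro g
    have : G' ≤ N ⊔ Subgroup.zpowers γ := (Subgroup.closure_le _).2 (insert_subset
      (Subgroup.mem_sup_right (Subgroup.mem_zpowers γ)) fun x hx => Subgroup.mem_sup_left (hVN hx))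
    obtain ⟨z, hz, _, ⟨m, rfl⟩, e⟩ := Subgroup.mem_sup_of_normal_left.1 (this g.2)
    exact ⟨-m, Subgroup.mem_subgroupOf.2 (by simpa [← e] using hz)⟩
  have hPC : PC (N.subgroupOf G') := fun x hx => by
    obtain ⟨α, hα, h0, h1, ht⟩ := pc_PC ⊤ _ hx
    exact ⟨fun t => ⟨α t, hNG (ht t)⟩, hα.subtype_mk _, Subtype.ext h0, Subtype.ext h1,
      fun t => ht t⟩
  have hden' : ∀ M : ℕ, 0 < M → Dense {x : G' | ∃ n : ℤ, ∃ l ∈ Γ.subgroupOf G',
      x = ((⟨a, haG⟩ : G') ^ M) ^ n * l} := fun M hM => by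
    refine ((hden M hM).preimage hGo.isOpenMap_subtype_val).mono ?_
    rintro x ⟨n, l, hl, e⟩
    have : l ∈ G' := by
      have := G'.mul_mem (G'.inv_mem (G'.zpow_mem (G'.pow_mem haG M) n)) x.2
      rwa [e, inv_mul_cancel_left] at this
    exact ⟨n, ⟨l, this⟩, hl, Subtype.ext (by simpa using e)⟩
  obtain ⟨D, hD⟩ := (finite_range fun i => (p i).natDegree).bddAbove
  have hO : IsOpen ((QuotientGroup.mk : G → G ⧸ Γ) ⁻¹' U) := hU.preimage QuotientGroup.continuous_mk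
  obtain ⟨n, l, h⟩ := core2 (γ := ⟨γ, hγ'⟩) (a := ⟨a, haG⟩) hcp hcg hK'
    (hΓ.preimage continuous_subtype_val) hγ ha hgen hPC (hNo.preimage continuous_subtype_val) hden'
    p hp (D := D + 1) (fun i => degree_le_natDegree.trans_lt
      (by exact_mod_cast Nat.lt_succ_of_le (hD ⟨i, rfl⟩))) hk j (hO.preimage continuous_subtype_val)
    (fun x l hl => by
      simp only [mem_preimage, Subgroup.coe_mul]
      rw [QuotientGroup.mk_mul_of_mem _ (Subgroup.mem_subgroupOf.1 hl)]) (by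
      obtain ⟨x, hx⟩ := hne
      obtain ⟨x, rfl⟩ := QuotientGroup.mk_surjective x
      obtain ⟨_, hx, n, l, hl, rfl⟩ := (hden 1 one_pos).inter_open_nonempty _ hO ⟨x, hx⟩
      rw [mem_preimage, QuotientGroup.mk_mul_of_mem _ hl] at hx
      exact ⟨⟨_, G'.zpow_mem (G'.pow_mem haG 1) n⟩, hx⟩)
  exact ⟨n, l, fun i => by simpa using h i⟩

end Pool.Agent.H96.NJ
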