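import Mathlib
import Pool.Agent.H96.NJ5

/-! Minimal translations on quotients of the Heisenberg group. -/

namespace Pool.Agent.H96.NK

open Filter Topology Set Pool.Agent.H96.NS Pool.Agent.H96.NJ
open scoped commutatorElement Pointwise Manifold ContDiff

theorem minim {G : Type} [Group G] [TopologicalSpace G] [IsTopologicalGroup G]
    [Group.IsNilpotent G] {Γ : Subgroup G} (hΓ : IsClosed (Γ : Set G)) (hK : Cc ⊤ Γ)
    (hp : PC (⊤ : Subgroup G)) (τ : G) (h : ∀ Φ : G →* Circle, Continuous Φ → Φ τ = 1 →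
      (∀ l ∈ Γ, Φ l = 1) → ∀ g, Φ g = 1) (x : G ⧸ Γ) : Dense (range fun n : ℤ => τ ^ n • x) := by
  obtain ⟨M, hM⟩ := Hs_bot (⊤ : Subgroup G)
  have hY : ∀ y, y ∈ YY ⊤ Γ := fun y => by simpa using YY_mem (H := ⊤) (h := y) trivial Γ.one_mem
  have := thmB (U := ⊤) (Λ := Γ) (S := Subgroup.zpowers τ) (H := ⊤) (B := Hs ⊤) le_top le_top
    (fun j => cm_le _) le_top (fun j x hx u _ => cm_mem hx u)
    (fun u _ => ⟨u, trivial, 1, Γ.one_mem, mul_one _⟩) hM hK le_rfl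
    (fun u _ => ⟨u, trivial, 1, Γ.one_mem, mul_one _⟩) (fun _ _ _ _ => trivial) hp hΓ
    fun Φ a b c d g _ => by
      let Ψ : G →* Circle := MonoidHom.mk' Φ fun x y => d x trivial y (hY y)
      have h1 : Φ 1 = 1 := Ψ.map_one
      exact h Ψ (a.comp_continuous continuous_id hY)
        (by simpa [h1, Ψ] using b τ (Subgroup.mem_zpowers τ) 1 (hY 1))
        (fun l hl => by simpa [h1, Ψ] using c l hl 1 (hY 1)) g
  intro y
  obtain ⟨y, rfl⟩ := QuotientGroup.mk_surjective y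
  obtain ⟨x, rfl⟩ := QuotientGroup.mk_surjective x
  refine this.2 (QuotientGroup.mk ⁻¹' closure (range fun n : ℤ => τ ^ n • (x : G ⧸ Γ)))
    ⟨isClosed_closure.preimage QuotientGroup.continuous_mk, ?_, fun l hl z hz => by
      rwa [mem_preimage, QuotientGroup.mk_mul_of_mem _ hl]⟩ (fun y _ => hY y)
    ⟨x, subset_closure ⟨0, by simp⟩⟩ (hY y)
  rintro _ ⟨m, rfl⟩ z hz
  refine map_mem_closure (f := fun w : G ⧸ Γ => τ ^ m • w) (continuous_const_smul _) hz ?_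
  rintro _ ⟨n, rfl⟩
  exact ⟨m + n, by simp only [zpow_add, mul_smul]⟩

lemma char_real (φ : ℝ → Circle) (hc : Continuous φ) (hm : ∀ x y, φ (x + y) = φ x * φ y) :
    ∃ c : ℝ, ∀ x, φ x = Circle.exp (c * x) := by
  have h0 : φ 0 = 1 := by simpa using hm 0 0
  obtain ⟨F, ⟨F0, hF⟩, -⟩ := Circle.isCoveringMap_exp.existsUnique_continuousMap_lifts
    ⟨φ, hc⟩ 0 0 (by simp [h0])
  have hF' : ∀ x, Circle.exp (F x) = φ x := congrFun hF
  have ha : ∀ x y, F (x + y) = F x + F y := fun x y => by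
    obtain ⟨F', -, hu⟩ := Circle.isCoveringMap_exp.existsUnique_continuousMap_lifts
      (⟨fun y => φ (x + y), by fun_prop⟩ : C(ℝ, Circle)) 0 (F x) (by simp [hF'])
    have a := hu ⟨fun y => F (x + y), by fun_prop⟩ ⟨by simp, funext fun y => hF' _⟩
    have b := hu ⟨fun y => F x + F y, by fun_prop⟩ ⟨by simp [F0], funext fun y => by
      simp [hF', hm]⟩
    exact DFunLike.congr_fun (a.trans b.symm) y
  refine ⟨F 1, fun x => ?_⟩
  have := map_real_smul (AddMonoidHom.mk' F ha) F.continuous x 1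
  simp only [AddMonoidHom.mk'_apply, smul_eq_mul, mul_one] at this
  rw [← hF', this, mul_comm]

/-- the Heisenberg group -/
def HH : Type := ℝ × ℝ × ℝ

instance : TopologicalSpace HH := inferInstanceAs (TopologicalSpace (ℝ × ℝ × ℝ))
instance : PolishSpace HH := inferInstanceAs (PolishSpace (ℝ × ℝ × ℝ))
instance : T2Space HH := inferInstanceAs (T2Space (ℝ × ℝ × ℝ))
instance : ConnectedSpace HH := inferInstanceAs (ConnectedSpace (ℝ × ℝ × ℝ))
instance : ChartedSpace (ℝ × ℝ × ℝ) HH := chartedSpaceSelf _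

/-- coordinates -/
def mk (x y z : ℝ) : HH := (x, y, z)

instance : Group HH where
  mul g h := (g.1 + h.1, g.2.1 + h.2.1, g.2.2 + h.2.2 + g.1 * h.2.1)
  one := (0, 0, 0)
  inv g := (-g.1, -g.2.1, -g.2.2 + g.1 * g.2.1)
  mul_assoc a b c := Prod.ext (add_assoc _ _ _) (Prod.ext (add_assoc _ _ _) (by
    change a.2.2 + b.2.2 + a.1 * b.2.1 + c.2.2 + (a.1 + b.1) * c.2.1 =
      a.2.2 + (b.2.2 + c.2.2 + b.1 * c.2.1) + a.1 * (b.2.1 + c.2.1)
    ring))
  one_mul a := Prod.ext (zero_add _) (Prod.ext (zero_add _) (by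
    change 0 + a.2.2 + 0 * a.2.1 = a.2.2
    ring))
  mul_one a := Prod.ext (add_zero _) (Prod.ext (add_zero _) (by
    change a.2.2 + 0 + a.1 * 0 = a.2.2
    ring))
  inv_mul_cancel a := Prod.ext (neg_add_cancel _) (Prod.ext (neg_add_cancel _) (by
    change -a.2.2 + a.1 * a.2.1 + a.2.2 + -a.1 * a.2.1 = 0
    ring))

lemma mul_mk (x y z x' y' z' : ℝ) :
    mk x y z * mk x' y' z' = mk (x + x') (y + y') (z + z' + x * y') := rfl
lemma inv_mk (x y z : ℝ) : (mk x y z)⁻¹ = mk (-x) (-y) (-z + x * y) := rfl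
lemma one_mk : (1 : HH) = mk 0 0 0 := rfl
lemma mk_inj {x y z x' y' z' : ℝ} : mk x y z = mk x' y' z' ↔ x = x' ∧ y = y' ∧ z = z' := by
  simp [mk, HH, Prod.ext_iff]
lemma ex_mk (g : HH) : ∃ x y z, g = mk x y z := ⟨g.1, g.2.1, g.2.2, rfl⟩

lemma cont_mk {T : Type} [TopologicalSpace T] {x y z : T → ℝ} (hx : Continuous x)
    (hy : Continuous y) (hz : Continuous z) : Continuous fun t => mk (x t) (y t) (z t) :=
  hx.prodMk (hy.prodMk hz)

instance : LieGroup 𝓘(ℝ, ℝ × ℝ × ℝ) ∞ HH where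
  toIsManifold := inferInstanceAs (IsManifold 𝓘(ℝ, ℝ × ℝ × ℝ) ∞ (ℝ × ℝ × ℝ))
  contMDiff_mul := by
    change ContMDiff (𝓘(ℝ, ℝ × ℝ × ℝ).prod 𝓘(ℝ, ℝ × ℝ × ℝ)) 𝓘(ℝ, ℝ × ℝ × ℝ) ∞
      fun p : (ℝ × ℝ × ℝ) × (ℝ × ℝ × ℝ) => ((p.1.1 + p.2.1, p.1.2.1 + p.2.2.1,
        p.1.2.2 + p.2.2.2 + p.1.1 * p.2.2.1) : ℝ × ℝ × ℝ)
    rw [← modelWithCornersSelf_prod, chartedSpaceSelf_prod]
    refine ContDiff.contMDiff ?_
    fun_prop
  contMDiff_inv := by
    change ContMDiff 𝓘(ℝ, ℝ × ℝ × ℝ) 𝓘(ℝ, ℝ × ℝ × ℝ) ∞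
      fun p : ℝ × ℝ × ℝ => ((-p.1, -p.2.1, -p.2.2 + p.1 * p.2.1) : ℝ × ℝ × ℝ)
    refine ContDiff.contMDiff ?_
    fun_prop

instance : IsTopologicalGroup HH := topologicalGroup_of_lieGroup 𝓘(ℝ, ℝ × ℝ × ℝ) ∞

instance : Group.IsNilpotent HH := by
  refine Subgroup.nilpotent_iff_lowerCentralSeries.2 ⟨2, le_bot_iff.1 ?_⟩
  have : Subgroup.lowerCentralSeries (⊤ : Subgroup HH) 1 ≤ Subgroup.center HH := by
    refine Subgroup.commutator_le.2 fun g _ h _ => Subgroup.mem_center_iff.2 fun k => ?_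
    obtain ⟨x, y, z, rfl⟩ := ex_mk g
    obtain ⟨x', y', z', rfl⟩ := ex_mk h
    obtain ⟨a, b, c, rfl⟩ := ex_mk k
    simp only [commutatorElement_def, mul_mk, inv_mk, mk_inj]
    refine ⟨by ring, by ring, by ring⟩
  refine Subgroup.commutator_le.2 fun g hg h _ => ?_
  rw [Subgroup.mem_bot, commutatorElement_eq_one_iff_mul_comm]
  exact (Subgroup.mem_center_iff.1 (this hg) h).symm

/-- lattices -/
def La (r : ℤ) : Subgroup HH where
  carrier := {g | ∃ a b c : ℤ, g = mk (r * a) b c}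
  one_mem' := ⟨0, 0, 0, by simp [one_mk]⟩
  mul_mem' := by
    rintro _ _ ⟨a, b, c, rfl⟩ ⟨a', b', c', rfl⟩
    exact ⟨a + a', b + b', c + c' + r * a * b', by simp [mul_mk, mul_add]⟩
  inv_mem' := by
    rintro _ ⟨a, b, c, rfl⟩
    exact ⟨-a, -b, -c + r * a * b, by simp [inv_mk]⟩

lemma La_le (r : ℤ) : La r ≤ La 1 := by
  rintro _ ⟨a, b, c, rfl⟩
  exact ⟨r * a, b, c, by simp⟩

instance (r : ℤ) : DiscreteTopology (La r) := by
  refine discreteTopology_of_isOpen_singleton_one ?_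
  let c : La r → ℝ × ℝ × ℝ := fun y => y.1
  have hc : Continuous c := continuous_subtype_val
  convert (Metric.isOpen_ball (x := (0 : ℝ × ℝ × ℝ)) (ε := 1)).preimage hc using 1
  ext ⟨_, a, b, d, rfl⟩
  have h0 : ∀ z : ℤ, |(z : ℝ)| < 1 ↔ (z : ℝ) = 0 := fun z => by
    rw [← Int.cast_abs, ← Int.cast_one, Int.cast_lt, Int.abs_lt_one_iff, Int.cast_eq_zero]
  have h1 := h0 (r * a)
  push_cast at h1
  simp only [mem_singleton_iff, Subtype.ext_iff, OneMemClass.coe_one, one_mk, mk_inj, mem_preimage,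
    mem_ball_zero_iff, c, mk, Prod.norm_mk, max_lt_iff, Real.norm_eq_abs, h0, h1]
  exact mk_inj

lemma La_cc {r : ℤ} (hr : 0 < r) : Cc ⊤ (La r) := by
  have hr' : (0 : ℝ) < r := by exact_mod_cast hr
  refine ⟨(Icc (0, 0, 0) (r, 1, 1) : Set (ℝ × ℝ × ℝ)), isCompact_Icc (α := ℝ × ℝ × ℝ), fun _ _ => trivial, fun s _ => ?_⟩
  obtain ⟨x, y, z, rfl⟩ := ex_mk s
  have f := fun t : ℝ => And.intro (Int.fract_nonneg t) (Int.fract_lt_one t).le
  refine ⟨mk (r * Int.fract (x / r)) (Int.fract y) (Int.fract (z - r * Int.fract (x / r) * ⌊y⌋)),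
    ⟨⟨mul_nonneg hr'.le (f _).1, (f _).1, (f _).1⟩, mul_le_of_le_one_right hr'.le (f _).2,
      (f _).2, (f _).2⟩, ⌊x / r⌋, ⌊y⌋, ⌊z - r * Int.fract (x / r) * ⌊y⌋⌋, ?_⟩
  simp only [inv_mk, mul_mk, mk_inj, Int.fract]
  refine ⟨by field_simp; ring, by ring, by ring⟩

lemma La_cpt {r : ℤ} (hr : 0 < r) : CompactSpace (HH ⧸ La r) := by
  obtain ⟨K, h1, -, h3⟩ := La_cc hr
  refine ⟨?_⟩
  convert h1.image (QuotientGroup.continuous_mk (N := La r)) using 1
  refine (eq_univ_of_forall fun z => ?_).symm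
  obtain ⟨x, rfl⟩ := QuotientGroup.mk_surjective z
  obtain ⟨κ, hκ, e⟩ := h3 x trivial
  exact ⟨κ, hκ, QuotientGroup.eq.2 e⟩

lemma exTau : ∃ τ : HH, ∀ r : ℤ, 0 < r → ∀ x : HH ⧸ La r, Dense (range fun n : ℤ => τ ^ n • x) := by
  obtain ⟨β, hβ⟩ := ((countable_range fun q : ℚ × ℚ => (q.1 : ℝ) + q.2 * √2).dense_compl
    ℝ).nonempty
  refine ⟨mk (√2) β 0, fun r hr => minim Subgroup.isClosed_of_discrete (La_cc hr) (fun g _ => ?_) _
    fun Φ hc h1 h2 g => ?_⟩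
  · obtain ⟨x, y, z, rfl⟩ := ex_mk g
    exact ⟨fun t => mk (t * x) (t * y) (t * z), cont_mk (by fun_prop) (by fun_prop) (by fun_prop),
      by simp [one_mk], by simp, fun _ => trivial⟩
  have h3 : ∀ z, Φ (mk 0 0 z) = 1 := fun z => by
    have : mk 0 0 z = ⁅mk z 0 0, mk 0 1 0⁆ := by simp [commutatorElement_def, mul_mk, inv_mk]
    rw [this, map_commutatorElement, commutatorElement_eq_one_iff_mul_comm, mul_comm]
  have dec : ∀ x y z, Φ (mk x y z) = Φ (mk x 0 0) * Φ (mk 0 y 0) := fun x y z => by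
    rw [← map_mul, ← mul_one (Φ (_ * _)), ← h3 (z - x * y), ← map_mul]
    simp [mul_mk]
  obtain ⟨c, hc1⟩ := char_real (fun x => Φ (mk x 0 0))
    (hc.comp (cont_mk continuous_id continuous_const continuous_const))
    fun x y => by simp [← map_mul, mul_mk]
  obtain ⟨d, hd1⟩ := char_real (fun x => Φ (mk 0 x 0))
    (hc.comp (cont_mk continuous_const continuous_id continuous_const))
    fun x y => by simp [← map_mul, mul_mk]
  have a1 := h2 (mk r 0 0) ⟨1, 0, 0, by simp⟩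
  have a2 := h2 (mk 0 1 0) ⟨0, 1, 0, by simp⟩
  rw [dec, hc1, hd1, ← Circle.exp_add] at h1
  rw [hc1] at a1
  rw [hd1] at a2
  obtain ⟨k, hk⟩ := Circle.exp_eq_one.1 h1
  obtain ⟨m, hm⟩ := Circle.exp_eq_one.1 a1
  obtain ⟨n, hn⟩ := Circle.exp_eq_one.1 a2
  have hr' : (r : ℝ) ≠ 0 := by exact_mod_cast hr.ne'
  have hp := Real.pi_pos
  have e : (m : ℝ) / r * √2 + n * β = k := by
    rw [mul_one] at hn
    rw [hn, eq_div_of_mul_eq hr' hm] at hk
    field_simp at hk ⊢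
    linarith
  have n0 : n = 0 := by
    by_contra h
    have h' : (n : ℝ) ≠ 0 := by exact_mod_cast h
    refine hβ ⟨(k / n, -(m / r) / n), ?_⟩
    push_cast
    rw [← e]; field_simp; ring
  have m0 : m = 0 := by
    by_contra h
    have h' : (m : ℝ) ≠ 0 := by exact_mod_cast h
    refine irrational_sqrt_two ⟨k * r / m, ?_⟩
    push_cast
    rw [← e, n0]; field_simp; simp
  obtain ⟨x, y, z, rfl⟩ := ex_mk g
  have c0 : c = 0 := by simpa [m0, hr'] using hm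
  have d0 : d = 0 := by simpa [n0] using hn
  simp [dec x y z, hc1, hd1, c0, d0]

lemma int_of {x : ℝ} (h : ∀ t ∈ Icc (0 : ℝ) (1 / 4), ∃ a : ℤ, x + t - a ∈ Icc (0 : ℝ) (1 / 4)) :
    ∃ a : ℤ, x = a := by
  obtain ⟨a, h1, h2⟩ := h 0 (by norm_num)
  obtain ⟨b, h3, h4⟩ := h (1 / 4) (by norm_num)
  have : a = b := by
    have h5 : (a : ℝ) - b < 1 := by linarith
    have h6 : -1 < (a : ℝ) - b := by linarith
    have h7 : a - b < 1 := by exact_mod_cast h5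
    have h8 : -1 < a - b := by exact_mod_cast h6
    omega
  exact ⟨a, by subst this; linarith⟩

lemma zero_of {x : ℝ} (h : ∀ t ∈ Icc (0 : ℝ) (1 / 4), ∃ a : ℤ, x * t = a) : x = 0 := by
  have hp : 0 < 4 * (|x| + 1) := by positivity
  obtain ⟨a, e⟩ := h (1 / (4 * (|x| + 1))) ⟨by positivity,
    one_div_le_one_div_of_le (by norm_num) (by linarith [abs_nonneg x])⟩
  have h1 : |(a : ℝ)| < 1 := by
    rw [← e, abs_mul, abs_of_pos (one_div_pos.2 hp), mul_one_div, div_lt_one hp]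
    linarith [abs_nonneg x]
  rw [← Int.cast_abs, ← Int.cast_one, Int.cast_lt, Int.abs_lt_one_iff] at h1
  rw [h1, Int.cast_zero] at e
  exact (mul_eq_zero.1 e).resolve_right (one_div_pos.2 hp).ne'

/-- boxes -/
def Bx (s : Set ℝ) : Set HH := s ×ˢ s ×ˢ s

/-- the open box saturated by the integer lattice -/
def OO : Set HH := Bx (Ioo (0 : ℝ) (1 / 4)) * (La 1 : Set HH)

lemma OO_open : IsOpen OO :=
  IsOpen.mul_right (s := Bx _) (isOpen_Ioo.prod (isOpen_Ioo.prod isOpen_Ioo))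

lemma OO_pre (r : ℤ) : QuotientGroup.mk ⁻¹' ((QuotientGroup.mk : HH → HH ⧸ La r) '' OO) = OO := by
  refine Subset.antisymm ?_ (subset_preimage_image _ _)
  rintro x ⟨_, ⟨b, hb, l, hl, rfl⟩, e⟩
  exact ⟨b, hb, _, (La 1).mul_mem hl (La_le r (QuotientGroup.eq.1 e)), by simp only; group⟩

lemma asym (r : ℤ) (g : HH) (h : g • closure ((QuotientGroup.mk : HH → HH ⧸ La r) '' OO) =
    closure (QuotientGroup.mk '' OO)) (x : HH ⧸ La r) : g • x = x := by
  let I := Icc (0 : ℝ) (1 / 4)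
  have key : ∀ a ∈ I, ∀ b ∈ I, ∀ c ∈ I, g * mk a b c ∈ Bx I * (La 1 : Set HH) := by
    intro a ha b hb c hc
    have h1 : mk a b c ∈ closure OO := by
      refine closure_mono (subset_mul_left _ (La 1).one_mem) ?_
      have : (a, b, c) ∈ closure (Ioo (0 : ℝ) (1 / 4) ×ˢ Ioo (0 : ℝ) (1 / 4) ×ˢ
          Ioo (0 : ℝ) (1 / 4)) := by
        simp only [closure_prod_eq, closure_Ioo (show (0 : ℝ) ≠ 1 / 4 by norm_num)]
        exact ⟨ha, hb, hc⟩
      exact this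
    have e := (QuotientGroup.isOpenMap_coe (N := La r)).preimage_closure_eq_closure_preimage
      QuotientGroup.continuous_mk (QuotientGroup.mk '' OO)
    rw [OO_pre] at e
    rw [← e] at h1
    have h2 : g * mk a b c ∈ closure OO := by
      rw [← e, mem_preimage, ← h]
      exact ⟨_, h1, rfl⟩
    exact closure_minimal (mul_subset_mul_right (s₁ := Bx _) (s₂ := Bx I) (Set.prod_mono Ioo_subset_Icc_self
      (Set.prod_mono Ioo_subset_Icc_self Ioo_subset_Icc_self)))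
      (Subgroup.isClosed_of_discrete.mul_left_of_isCompact (s := Bx I)
        (isCompact_Icc.prod (isCompact_Icc.prod isCompact_Icc))) h2
  obtain ⟨u, v, w, rfl⟩ := ex_mk g
  have k2 : ∀ a ∈ I, ∀ b ∈ I, ∀ c ∈ I, ∃ i j k : ℤ, u + a - i ∈ I ∧ v + b - j ∈ I ∧
      w + c + u * b - (u + a - i) * j - k ∈ I := by
    intro a ha b hb c hc
    obtain ⟨p, hp, _, ⟨i, j, k, rfl⟩, e⟩ := key a ha b hb c hc
    obtain ⟨p1, p2, p3, rfl⟩ := ex_mk p
    simp only [mul_mk, mk_inj, Int.cast_one, one_mul] at e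
    refine ⟨i, j, k, ?_, ?_, ?_⟩
    · convert hp.1 using 1; show _ = p1; linarith [e.1]
    · convert hp.2.1 using 1; show _ = p2; linarith [e.2.1]
    · convert hp.2.2 using 1; show _ = p3; rw [← e.1]; linarith [e.2.2]
  have z0 : (0 : ℝ) ∈ I := ⟨le_rfl, by norm_num⟩
  obtain ⟨i0, rfl⟩ := int_of fun t ht => (k2 t ht 0 z0 0 z0).imp fun i ⟨_, _, h, _⟩ => h
  obtain ⟨j0, rfl⟩ := int_of fun t ht => by
    obtain ⟨_, j, _, _, h, _⟩ := k2 0 z0 t ht 0 z0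
    exact ⟨j, h⟩
  have uq : ∀ (i i0 : ℤ), ∀ a ∈ I, (i0 : ℝ) + a - i ∈ I → i = i0 := fun i i0 a ha h => by
    have h5 : (i : ℝ) - i0 < 1 := by linarith [ha.2, h.1]
    have h6 : -1 < (i : ℝ) - i0 := by linarith [ha.1, h.2]
    have h7 : i - i0 < 1 := by exact_mod_cast h5
    have h8 : -1 < i - i0 := by exact_mod_cast h6
    omega
  have k3 : ∀ a ∈ I, ∀ b ∈ I, ∃ k : ℤ, w + i0 * b - a * j0 = k := fun a ha b hb =>
    int_of fun t ht => by
      obtain ⟨i, j, k, h1, h2, h3⟩ := k2 a ha b hb t ht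
      rw [uq i i0 a ha h1, uq j j0 b hb h2] at h3
      exact ⟨k, by convert h3 using 1; ring⟩
  obtain ⟨k0, hk0⟩ := k3 0 z0 0 z0
  simp only [mul_zero, zero_mul, add_zero, sub_zero] at hk0
  have i00 : (i0 : ℝ) = 0 := zero_of fun t ht => by
    obtain ⟨k, e⟩ := k3 0 z0 t ht
    exact ⟨k - k0, by push_cast; linarith⟩
  have j00 : (j0 : ℝ) = 0 := zero_of fun t ht => by
    obtain ⟨k, e⟩ := k3 t ht 0 z0
    exact ⟨k0 - k, by push_cast; linarith⟩
  obtain ⟨x, rfl⟩ := QuotientGroup.mk_surjective x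
  obtain ⟨a, b, c, rfl⟩ := ex_mk x
  refine ((QuotientGroup.eq (s := La r) (b := mk i0 j0 w * mk a b c)).2 ⟨0, 0, k0, ?_⟩).symm
  simp only [i00, j00, hk0, mul_mk, inv_mk, mk_inj]
  refine ⟨by simp, by simp, by ring⟩

end Pool.Agent.H96.NK
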