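import Pool.Agent.H96.OD2

namespace Pool.Agent.H96.NP
open Set Metric Filter Topology MeasureTheory
open Pool.Agent.H96.OD (E3)

noncomputable section

def kk (ε : ℝ) (v : E3) : ℝ := (Real.sqrt (‖v‖ ^ 2 + ε))⁻¹
def dk (ε : ℝ) (v : E3) : E3 →L[ℝ] ℝ := (-(kk ε v) ^ 3) • innerSL ℝ v
def ddk (ε : ℝ) (y v : E3) : E3 →L[ℝ] ℝ :=
  (3 * kk ε v ^ 5 * inner ℝ v y) • innerSL ℝ v - kk ε v ^ 3 • innerSL ℝ y

lemma kk_nonneg (ε : ℝ) (v : E3) : 0 ≤ kk ε v := by unfold kk; positivity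

lemma kk_zero (v : E3) : kk 0 v = ‖v‖⁻¹ := by simp [kk]

lemma kk_sq {ε : ℝ} {v : E3} (h : 0 < ‖v‖ ^ 2 + ε) : kk ε v ^ 2 * (‖v‖ ^ 2 + ε) = 1 := by
  unfold kk; rw [inv_pow, Real.sq_sqrt h.le]; field_simp

lemma kk_le {ε : ℝ} (hε : 0 ≤ ε) {v : E3} (hv : v ≠ 0) : kk ε v ≤ ‖v‖⁻¹ := by
  unfold kk
  apply inv_anti₀ (norm_pos_iff.2 hv)
  exact Real.le_sqrt_of_sq_le (by linarith)

lemma kk_le' {ε : ℝ} (hε : 0 < ε) (v : E3) : kk ε v ≤ (Real.sqrt ε)⁻¹ := by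
  unfold kk
  apply inv_anti₀ (Real.sqrt_pos.2 hε)
  exact Real.sqrt_le_sqrt (by linarith [sq_nonneg ‖v‖])

lemma mul_kk {ε : ℝ} (hε : 0 ≤ ε) (v : E3) : kk ε v * ‖v‖ ≤ 1 := by
  by_cases hv : v = 0
  · simp [hv]
  · have := norm_pos_iff.2 hv
    calc kk ε v * ‖v‖ ≤ ‖v‖⁻¹ * ‖v‖ := by gcongr; exact kk_le hε hv
      _ = 1 := by field_simp

lemma kk_der {ε : ℝ} {v : E3} (h : 0 < ‖v‖ ^ 2 + ε) : HasFDerivAt (kk ε) (dk ε v) v := by
  have h1 : HasFDerivAt (fun v : E3 => ‖v‖ ^ 2 + ε) (2 • innerSL ℝ v) v :=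
    (hasStrictFDerivAt_norm_sq v).hasFDerivAt.add_const ε
  have hs : 0 < Real.sqrt (‖v‖ ^ 2 + ε) := Real.sqrt_pos.2 h
  have h2 := (hasDerivAt_inv hs.ne').comp_hasFDerivAt v (h1.sqrt h.ne')
  refine h2.congr_fderiv ?_
  ext y
  simp [dk, kk]
  field_simp

lemma dk_der {ε : ℝ} (y : E3) {v : E3} (h : 0 < ‖v‖ ^ 2 + ε) :
    HasFDerivAt (fun v => dk ε v y) (ddk ε y v) v := by
  have h1 := (((kk_der h).pow 3).neg).mul (innerSL ℝ y).hasFDerivAt
  refine (h1.congr_fderiv ?_).congr_of_eventuallyEq (Eventually.of_forall fun w => ?_)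
  · ext z
    simp [dk, ddk, real_inner_comm]
    ring
  · simp [dk, real_inner_comm]

lemma dk_norm {ε : ℝ} (hε : 0 ≤ ε) (v : E3) : ‖dk ε v‖ ≤ kk ε v ^ 2 := by
  have h0 := kk_nonneg ε v
  have h1 := mul_kk hε v
  rw [dk, norm_smul, innerSL_apply_norm, norm_neg, Real.norm_eq_abs, abs_of_nonneg (by positivity)]
  nlinarith [sq_nonneg (kk ε v)]

lemma ddk_norm {ε : ℝ} (hε : 0 ≤ ε) (y v : E3) : ‖ddk ε y v‖ ≤ 4 * ‖y‖ * kk ε v ^ 3 := by
  have h0 := kk_nonneg ε v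
  have h1 := mul_kk hε v
  have h2 := abs_real_inner_le_norm v y
  have h3 : 0 ≤ kk ε v * ‖v‖ := by positivity
  refine (norm_sub_le _ _).trans ?_
  rw [norm_smul, norm_smul, innerSL_apply_norm, innerSL_apply_norm, Real.norm_eq_abs,
    Real.norm_eq_abs, abs_mul, abs_of_nonneg (by positivity : 0 ≤ 3 * kk ε v ^ 5),
    abs_of_nonneg (by positivity : 0 ≤ kk ε v ^ 3)]
  have h4 : (kk ε v * ‖v‖) ^ 2 ≤ 1 := by nlinarith
  have h5 : 3 * kk ε v ^ 5 * |inner ℝ v y| * ‖v‖ ≤ 3 * kk ε v ^ 5 * (‖v‖ * ‖y‖) * ‖v‖ := by gcongr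
  have h6 : 0 ≤ ‖y‖ * kk ε v ^ 3 := by positivity
  nlinarith

def ee (i : Fin 3) : E3 := EuclideanSpace.single i 1

lemma trace {ε : ℝ} {v : E3} (h : 0 < ‖v‖ ^ 2 + ε) :
    ∑ i, ddk ε (ee i) v (ee i) = -(3 * ε * kk ε v ^ 5) := by
  have h1 := kk_sq h
  have h2 : ‖v‖ ^ 2 = v 0 ^ 2 + v 1 ^ 2 + v 2 ^ 2 := by
    rw [EuclideanSpace.norm_eq, Real.sq_sqrt (by positivity), Fin.sum_univ_three]; simp
  simp [ddk, ee, Fin.sum_univ_three, EuclideanSpace.inner_single_right]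
  rw [h2] at h1
  linear_combination 3 * kk ε v ^ 3 * h1

lemma kk_meas (ε : ℝ) : Measurable (kk ε) := by unfold kk; fun_prop

lemma dk_meas (ε : ℝ) : StronglyMeasurable (dk ε) :=
  ((kk_meas ε).pow_const 3).neg.stronglyMeasurable.smul (innerSL ℝ).continuous.stronglyMeasurable

lemma dky_meas (ε : ℝ) (y : E3) : StronglyMeasurable (fun v => dk ε v y) :=
  (ContinuousLinearMap.apply ℝ ℝ y).continuous.comp_stronglyMeasurable (dk_meas ε)

lemma ddk_meas (ε : ℝ) (y : E3) : StronglyMeasurable (ddk ε y) := by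
  have := kk_meas ε
  have h1 : Measurable fun v : E3 => 3 * kk ε v ^ 5 * inner ℝ v y := by fun_prop
  have h2 : Measurable fun v : E3 => kk ε v ^ 3 := by fun_prop
  exact (h1.stronglyMeasurable.smul (innerSL ℝ).continuous.stronglyMeasurable).sub
    (h2.stronglyMeasurable.smul_const (innerSL ℝ y))

lemma ddk_cont {ε : ℝ} (y : E3) {v : E3} (h : 0 < ‖v‖ ^ 2 + ε) : ContinuousAt (ddk ε y) v := by
  have := (kk_der h).continuousAt
  have h2 : Continuous fun v : E3 => innerSL ℝ v := (innerSL ℝ).continuous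
  unfold ddk
  fun_prop

lemma sm_sub {F : Type*} [NormedAddCommGroup F] [NormedSpace ℝ F] {K : E3 → F}
    (hK : StronglyMeasurable K) {γ : E3 → ℝ} (hγ : Continuous γ) (p : E3) :
    AEStronglyMeasurable (fun q => γ q • K (p - q)) volume :=
  (hγ.stronglyMeasurable.smul (hK.comp_measurable (by fun_prop))).aestronglyMeasurable

lemma G {K : E3 → ℝ} {K' : E3 → E3 →L[ℝ] ℝ} {γ b : E3 → ℝ} {U : Set E3} {p : E3}
    (hU : U ∈ 𝓝 p) (hK : StronglyMeasurable K) (hK' : StronglyMeasurable K') (hγ : Continuous γ)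
    (hb : Integrable b) (hb0 : ∀ q, 0 ≤ b q) (h0 : Integrable fun q => γ q • K (p - q))
    (h : ∀ q, γ q ≠ 0 → ∀ x ∈ U, HasFDerivAt K (K' (x - q)) (x - q) ∧
      |γ q| * ‖K' (x - q)‖ ≤ b q) :
    HasFDerivAt (fun x => ∫ q, γ q • K (x - q)) (∫ q, γ q • K' (p - q)) p := by
  refine hasFDerivAt_integral_of_dominated_of_fderiv_le (F' := fun x q => γ q • K' (x - q)) hU
    (Eventually.of_forall fun x => sm_sub hK hγ x) h0 (sm_sub hK' hγ p)
    (Eventually.of_forall fun q x hx => ?_) hb (Eventually.of_forall fun q x hx => ?_)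
  · by_cases hq : γ q = 0
    · simp [hq, hb0]
    · rw [norm_smul]; exact (h q hq x hx).2
  · by_cases hq : γ q = 0
    · simp [hq, hasFDerivAt_const]
    · have := ((h q hq x hx).1.comp x ((hasFDerivAt_id x).sub_const q)).const_smul (γ q)
      exact this.congr_fderiv (by simp)

lemma G0 {F : Type*} [NormedAddCommGroup F] [NormedSpace ℝ F] {K : E3 → F} {γ b : E3 → ℝ}
    {U : Set E3} {p : E3} (hU : U ∈ 𝓝 p) (hK : StronglyMeasurable K) (hγ : Continuous γ)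
    (hb : Integrable b) (hb0 : ∀ q, 0 ≤ b q)
    (h : ∀ q, γ q ≠ 0 → ∀ x ∈ U, ContinuousAt K (x - q) ∧ |γ q| * ‖K (x - q)‖ ≤ b q) :
    ContinuousAt (fun x => ∫ q, γ q • K (x - q)) p := by
  refine continuousAt_of_dominated (Eventually.of_forall fun x => sm_sub hK hγ x) ?_ hb
    (Eventually.of_forall fun q => ?_)
  · filter_upwards [hU] with x hx
    refine Eventually.of_forall fun q => ?_
    by_cases hq : γ q = 0
    · simp [hq, hb0]
    · rw [norm_smul]; exact (h q hq x hx).2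
  · by_cases hq : γ q = 0
    · simp [hq, continuousAt_const]
    · exact ((h q hq p (mem_of_mem_nhds hU)).1.comp (f := fun x => x - q) (by fun_prop)).const_smul _

lemma cn_of {U : Set E3} (hU : IsOpen U) {n : ℕ} {F : E3 → ℝ} {F1 : E3 → E3 →L[ℝ] ℝ}
    (h1 : ∀ p ∈ U, HasFDerivAt F (F1 p) p) (h2 : ∀ y, ContDiffOn ℝ n (fun p => F1 p y) U) :
    ContDiffOn ℝ (n + 1) F U := by
  rw [contDiffOn_succ_iff_fderiv_of_isOpen hU]
  refine ⟨fun p hp => (h1 p hp).differentiableAt.differentiableWithinAt, by simp, ?_⟩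
  refine (contDiffOn_clm_apply.2 h2).congr fun p hp => (h1 p hp).fderiv

lemma lap_eq {F : E3 → ℝ} {p : E3} (h : ContDiffAt ℝ 2 F p) :
    Laplacian.laplacian F p = ∑ i, fderiv ℝ (fun x => fderiv ℝ F x (ee i)) p (ee i) := by
  rw [InnerProductSpace.laplacian_eq_iteratedFDeriv_orthonormalBasis _
    (EuclideanSpace.basisFun (Fin 3) ℝ)]
  refine Finset.sum_congr rfl fun i _ => ?_
  have hd : DifferentiableAt ℝ (fderiv ℝ F) p :=
    (h.fderiv_right (m := 1) le_rfl).differentiableAt (by simp)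
  rw [iteratedFDeriv_two_apply, fderiv_clm_apply hd (differentiableAt_const _)]
  simp [ee]

lemma locInt {F : Type*} [NormedAddCommGroup F] {K : E3 → F} (hK : StronglyMeasurable K)
    (C : ℝ) (n : ℕ) (hn : n < 3) (h : ∀ v, v ≠ 0 → ‖K v‖ ≤ C * ‖v‖⁻¹ ^ n) :
    LocallyIntegrable K := by
  refine locallyIntegrable_of_norm_le_rpow (C := C) (α := n) (by simp) (by simp; exact_mod_cast hn)
    ?_ hK.aestronglyMeasurable
  filter_upwards [compl_mem_ae_iff.2 (measure_singleton (0 : E3))] with v hv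
  rw [Real.rpow_neg (norm_nonneg _), Real.rpow_natCast, ← inv_pow]
  exact h v hv

end
end Pool.Agent.H96.NP
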