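import Pool.Agent.H96.NP1

namespace Pool.Agent.H96.NP
open Set Metric Filter Topology MeasureTheory
open Pool.Agent.H96.OD (E3)
open scoped Convolution

noncomputable section

def cv {F : Type*} [NormedAddCommGroup F] [NormedSpace ℝ F] (γ : E3 → ℝ) (K : E3 → F) (p : E3) :
    F := ∫ q, γ q • K (p - q)

section
variable {F : Type*} [NormedAddCommGroup F] [NormedSpace ℝ F] {γ : E3 → ℝ} {K : E3 → F}

lemma cv_int (hc : HasCompactSupport γ) (hγ : Continuous γ) (hK : LocallyIntegrable K) (p : E3) :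
    Integrable fun q => γ q • K (p - q) :=
  hc.convolutionExists_left (ContinuousLinearMap.lsmul ℝ ℝ) hγ hK p

lemma cv_cont (hc : HasCompactSupport γ) (hγ : Continuous γ) (hK : LocallyIntegrable K) :
    Continuous (cv γ K) :=
  hc.continuous_convolution_left (ContinuousLinearMap.lsmul ℝ ℝ) hγ hK

lemma unif (hc : HasCompactSupport γ) (hγ : Continuous γ) (Kn : ℕ → E3 → F)
    (hKn : ∀ n, StronglyMeasurable (Kn n)) (hK : StronglyMeasurable K) (m : ℕ) (hm : m < 3)
    (b1 : ∀ n v, v ≠ 0 → ‖Kn n v‖ ≤ ‖v‖⁻¹ ^ m) (b2 : ∀ v, v ≠ 0 → ‖K v‖ ≤ ‖v‖⁻¹ ^ m)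
    (lim : ∀ v, v ≠ 0 → Tendsto (fun n => Kn n v) atTop (𝓝 (K v))) (p₀ : E3) :
    TendstoUniformlyOn (fun n => cv γ (Kn n)) (cv γ K) atTop (ball p₀ 1) := by
  obtain ⟨C, hC⟩ := hγ.bounded_above_of_compact_support hc
  obtain ⟨R, hR⟩ := hc.isCompact.isBounded.exists_norm_le
  have hC0 : 0 ≤ C := (norm_nonneg _).trans (hC 0)
  set B := closedBall (0 : E3) (‖p₀‖ + 1 + R)
  have l1 : ∀ n, LocallyIntegrable (Kn n) := fun n =>
    locInt (hKn n) 1 m hm fun v hv => by simpa using b1 n v hv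
  have l2 : LocallyIntegrable K := locInt hK 1 m hm fun v hv => by simpa using b2 v hv
  have l3 : LocallyIntegrable fun v : E3 => 2 * ‖v‖⁻¹ ^ m :=
    locInt (Measurable.stronglyMeasurable (by fun_prop)) 2 m hm fun v _ => by
      rw [Real.norm_eq_abs, abs_of_nonneg (by positivity)]
  have hne : ∀ᵐ v ∂(volume.restrict B), v ≠ (0 : E3) :=
    ae_restrict_of_ae (compl_mem_ae_iff.2 (measure_singleton (0 : E3)))
  have ht : Tendsto (fun n => ∫ v in B, ‖Kn n v - K v‖) atTop (𝓝 (∫ _ in B, (0 : ℝ))) := by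
    refine tendsto_integral_of_dominated_convergence (fun v => 2 * ‖v‖⁻¹ ^ m)
      (fun n => ((hKn n).sub hK).norm.aestronglyMeasurable)
      (l3.integrableOn_isCompact (isCompact_closedBall _ _)) (fun n => ?_) ?_
    · filter_upwards [hne] with v hv
      rw [norm_norm]
      linarith [norm_sub_le (Kn n v) (K v), b1 n v hv, b2 v hv]
    · filter_upwards [hne] with v hv
      exact tendsto_iff_norm_sub_tendsto_zero.1 (lim v hv)
  rw [integral_zero] at ht
  rw [Metric.tendstoUniformlyOn_iff]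
  intro ε hε
  have ht2 := ht.const_mul C
  rw [mul_zero] at ht2
  filter_upwards [ht2.eventually (gt_mem_nhds hε)] with n hn p hp
  refine lt_of_le_of_lt ?_ hn
  have hI : IntegrableOn (fun v => ‖Kn n v - K v‖) B :=
    (((l1 n).sub l2).integrableOn_isCompact (isCompact_closedBall _ _)).norm
  rw [dist_comm, dist_eq_norm, cv, cv, ← integral_sub (cv_int hc hγ (l1 n) p) (cv_int hc hγ l2 p),
    ← integral_const_mul, ← integral_indicator measurableSet_closedBall,
    ← integral_sub_left_eq_self _ volume p]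
  refine norm_integral_le_of_norm_le
    ((integrable_indicator_iff measurableSet_closedBall).2 (hI.const_mul C))
    (Eventually.of_forall fun v => ?_)
  simp only [sub_sub_cancel]
  rw [← smul_sub, norm_smul]
  by_cases hv : v ∈ B
  · rw [indicator_of_mem hv]; gcongr; exact hC _
  · rw [indicator_of_notMem hv]
    have : γ (p - v) = 0 := by
      by_contra h
      apply hv
      have h1 := hR _ (subset_tsupport γ h)
      have h2 : ‖p - p₀‖ < 1 := mem_ball_iff_norm.1 hp
      have h3 : v = p₀ + (p - p₀) - (p - v) := by abel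
      rw [mem_closedBall_zero_iff, h3]
      linarith [norm_sub_le (p₀ + (p - p₀)) (p - v), norm_add_le p₀ (p - p₀)]
    simp [this]
end

lemma cv_left {γ K : E3 → ℝ} (hc : HasCompactSupport γ) (hγ : ContDiff ℝ 1 γ)
    (hK : LocallyIntegrable K) (p y : E3) :
    fderiv ℝ (cv γ K) p y = cv (fun q => fderiv ℝ γ q y) K p := by
  have h := hc.hasFDerivAt_convolution_left (ContinuousLinearMap.lsmul ℝ ℝ) hγ hK p
  have e : cv γ K = γ ⋆[ContinuousLinearMap.lsmul ℝ ℝ, volume] K := rfl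
  have hi := (hc.fderiv ℝ).convolutionExists_left
    ((ContinuousLinearMap.lsmul ℝ ℝ (E := ℝ)).precompL E3) (hγ.continuous_fderiv one_ne_zero) hK p
  rw [e, h.fderiv, convolution_def, ContinuousLinearMap.integral_apply hi.integrable]
  rfl

lemma kk_loc {ε : ℝ} (hε : 0 ≤ ε) : LocallyIntegrable (kk ε) :=
  locInt (kk_meas ε).stronglyMeasurable 1 1 (by norm_num) fun v hv => by
    rw [Real.norm_eq_abs, abs_of_nonneg (kk_nonneg _ _)]; simpa using kk_le hε hv

lemma dk_le {ε : ℝ} (hε : 0 ≤ ε) {v : E3} (hv : v ≠ 0) : ‖dk ε v‖ ≤ ‖v‖⁻¹ ^ 2 :=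
  (dk_norm hε v).trans (pow_le_pow_left₀ (kk_nonneg _ _) (kk_le hε hv) 2)

lemma dk_loc {ε : ℝ} (hε : 0 ≤ ε) : LocallyIntegrable (dk ε) :=
  locInt (dk_meas ε) 1 2 (by norm_num) fun v hv => by simpa using dk_le hε hv

lemma pos_of {ε : ℝ} (hε : 0 < ε) (v : E3) : 0 < ‖v‖ ^ 2 + ε := by positivity

lemma der_eps {γ : E3 → ℝ} (hc : HasCompactSupport γ) (hγ : Continuous γ) {ε : ℝ} (hε : 0 < ε)
    (p : E3) : HasFDerivAt (cv γ (kk ε)) (cv γ (dk ε) p) p := by
  refine G (U := univ) (b := fun q => |γ q| * (Real.sqrt ε)⁻¹ ^ 2) univ_mem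
    (kk_meas ε).stronglyMeasurable (dk_meas ε) hγ
    ((hγ.integrable_of_hasCompactSupport hc).abs.mul_const _) (fun q => by positivity)
    (cv_int hc hγ (kk_loc hε.le) p) fun q _ x _ => ⟨kk_der (pos_of hε _), ?_⟩
  gcongr
  exact (dk_norm hε.le _).trans (pow_le_pow_left₀ (kk_nonneg _ _) (kk_le' hε _) 2)

lemma dky_loc {ε : ℝ} (hε : 0 ≤ ε) (y : E3) : LocallyIntegrable (fun v => dk ε v y) :=
  locInt (dky_meas ε y) ‖y‖ 2 (by norm_num) fun v hv => by
    refine ((dk ε v).le_opNorm y).trans ?_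
    rw [mul_comm]; gcongr; exact dk_le hε hv

lemma der_eps2 {γ : E3 → ℝ} (hc : HasCompactSupport γ) (hγ : Continuous γ) {ε : ℝ} (hε : 0 < ε)
    (y p : E3) : HasFDerivAt (cv γ (fun v => dk ε v y)) (cv γ (ddk ε y) p) p := by
  refine G (U := univ) (b := fun q => |γ q| * (4 * ‖y‖ * (Real.sqrt ε)⁻¹ ^ 3)) univ_mem
    (dky_meas ε y) (ddk_meas ε y) hγ
    ((hγ.integrable_of_hasCompactSupport hc).abs.mul_const _) (fun q => by positivity)
    (cv_int hc hγ (dky_loc hε.le y) p) fun q _ x _ => ⟨dk_der y (pos_of hε _), ?_⟩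
  gcongr
  refine (ddk_norm hε.le _ _).trans ?_
  gcongr
  · exact kk_nonneg _ _
  · exact kk_le' hε _

def ep (n : ℕ) : ℝ := (1 / ((n : ℝ) + 1)) ^ 2

lemma ep_pos (n : ℕ) : 0 < ep n := by unfold ep; positivity

lemma ep_lim : Tendsto ep atTop (𝓝 0) := by
  have := (tendsto_one_div_add_atTop_nhds_zero_nat (𝕜 := ℝ)).pow 2
  rw [zero_pow two_ne_zero] at this
  exact this

lemma kk_lim {v : E3} (hv : v ≠ 0) : Tendsto (fun n => kk (ep n) v) atTop (𝓝 (kk 0 v)) := by
  have : ContinuousAt (fun ε => kk ε v) 0 := by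
    unfold kk
    refine ContinuousAt.inv₀ (by fun_prop) ?_
    simpa using hv
  exact this.tendsto.comp ep_lim

lemma unif0 {γ : E3 → ℝ} (hc : HasCompactSupport γ) (hγ : Continuous γ) (p₀ : E3) :
    TendstoUniformlyOn (fun n => cv γ (kk (ep n))) (cv γ (kk 0)) atTop (ball p₀ 1) :=
  unif hc hγ _ (fun _ => (kk_meas _).stronglyMeasurable) (kk_meas _).stronglyMeasurable 1
    (by norm_num)
    (fun n v hv => by
      rw [Real.norm_eq_abs, abs_of_nonneg (kk_nonneg _ _)]; simpa using kk_le (ep_pos n).le hv)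
    (fun v hv => by
      rw [Real.norm_eq_abs, abs_of_nonneg (kk_nonneg _ _)]; simpa using kk_le le_rfl hv)
    (fun v hv => kk_lim hv) p₀

lemma unif1 {γ : E3 → ℝ} (hc : HasCompactSupport γ) (hγ : Continuous γ) (p₀ : E3) :
    TendstoUniformlyOn (fun n => cv γ (dk (ep n))) (cv γ (dk 0)) atTop (ball p₀ 1) :=
  unif hc hγ _ (fun _ => dk_meas _) (dk_meas _) 2 (by norm_num)
    (fun n _ hv => dk_le (ep_pos n).le hv) (fun _ hv => dk_le le_rfl hv)
    (fun _ hv => ((kk_lim hv).pow 3).neg.smul_const _) p₀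

lemma der0 {γ : E3 → ℝ} (hc : HasCompactSupport γ) (hγ : Continuous γ) (p : E3) :
    HasFDerivAt (cv γ (kk 0)) (cv γ (dk 0) p) p :=
  hasFDerivAt_of_tendstoUniformlyOn isOpen_ball (unif1 hc hγ p)
    (fun n x _ => der_eps hc hγ (ep_pos n) x)
    (fun _ hx => (unif0 hc hγ p).tendsto_at hx) (mem_ball_self one_pos)

lemma near1 {γ : E3 → ℝ} (hc : HasCompactSupport γ) (hγ : Continuous γ) :
    ContDiff ℝ 1 (cv γ (kk 0)) := by
  rw [contDiff_one_iff_hasFDerivAt]
  exact ⟨_, cv_cont hc hγ (dk_loc le_rfl), der0 hc hγ⟩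

lemma dγ {γ : E3 → ℝ} (hc : HasCompactSupport γ) (hγ : ContDiff ℝ 1 γ) (y : E3) :
    HasCompactSupport (fun q => fderiv ℝ γ q y) ∧ Continuous (fun q => fderiv ℝ γ q y) :=
  ⟨hc.fderiv_apply ℝ y, (hγ.continuous_fderiv one_ne_zero).clm_apply continuous_const⟩

lemma near2 {γ : E3 → ℝ} (hc : HasCompactSupport γ) (hγ : ContDiff ℝ 1 γ) :
    ContDiff ℝ 2 (cv γ (kk 0)) := by
  rw [show (2 : WithTop ℕ∞) = 1 + 1 from rfl, contDiff_succ_iff_fderiv_apply]
  refine ⟨(near1 hc hγ.continuous).differentiable one_ne_zero, by simp, fun y => ?_⟩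
  have : (fun x => fderiv ℝ (cv γ (kk 0)) x y) = cv (fun q => fderiv ℝ γ q y) (kk 0) :=
    funext fun x => cv_left hc hγ (kk_loc le_rfl) x y
  rw [this]
  exact near1 (dγ hc hγ y).1 (dγ hc hγ y).2

def rho (v : E3) : ℝ := 3 * kk 1 v ^ 5

lemma rho_int : Integrable rho := by
  have h := (integrable_rpow_neg_one_add_norm_sq (E := E3) (μ := volume) (r := 5)
    (by simp; norm_num)).const_mul 3
  refine h.congr (Eventually.of_forall fun v => ?_)
  simp only [rho, kk]
  rw [add_comm (‖v‖ ^ 2), Real.sqrt_eq_rpow, ← Real.rpow_neg (by positivity), ← Real.rpow_natCast _ 5,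
    ← Real.rpow_mul (by positivity)]
  norm_num

lemma rho_pos (v : E3) : 0 < rho v := by unfold rho kk; positivity

def c0 : ℝ := ∫ v, rho v

lemma c0_pos : 0 < c0 := by
  unfold c0
  rw [integral_pos_iff_support_of_nonneg (fun v => (rho_pos v).le) rho_int]
  have : Function.support rho = univ := eq_univ_of_forall fun v => (rho_pos v).ne'
  rw [this]; simp

lemma approx {γ : E3 → ℝ} (hc : HasCompactSupport γ) (hγ : Continuous γ) (p : E3) :
    Tendsto (fun n => cv γ (fun v => 3 * ep n * kk (ep n) v ^ 5) p) atTop (𝓝 (c0 * γ p)) := by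
  obtain ⟨C, hC⟩ := hγ.bounded_above_of_compact_support hc
  have e : ∀ n, cv γ (fun v => 3 * ep n * kk (ep n) v ^ 5) p =
      ∫ v, γ (p - (1 / ((n : ℝ) + 1)) • v) * rho v := by
    intro n
    set t : ℝ := 1 / ((n : ℝ) + 1) with ht
    have t0 : 0 < t := by positivity
    have h := Measure.integral_comp_smul volume
      (fun v : E3 => γ (p - v) * (3 * ep n * kk (ep n) v ^ 5)) t
    have h2 : ∀ v : E3, kk (ep n) (t • v) = t⁻¹ * kk 1 v := by
      intro v
      unfold kk ep
      rw [← ht, norm_smul, Real.norm_eq_abs, abs_of_pos t0, mul_pow, ← mul_add_one,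
        Real.sqrt_mul (sq_nonneg _), Real.sqrt_sq t0.le, mul_inv]
    have h3 : ∀ v : E3, γ (p - t • v) * (3 * ep n * kk (ep n) (t • v) ^ 5) =
        (t ^ 3)⁻¹ * (γ (p - t • v) * rho v) := by
      intro v
      rw [h2]; unfold ep rho; rw [← ht]; field_simp
    simp only [h3, integral_const_mul, finrank_euclideanSpace, Fintype.card_fin, smul_eq_mul] at h
    rw [abs_of_pos (by positivity)] at h
    rw [mul_left_cancel₀ (by positivity) h, cv, ← integral_sub_left_eq_self _ volume p]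
    simp
  simp only [e]
  rw [c0, ← integral_mul_const]
  refine tendsto_integral_of_dominated_convergence (fun v => C * rho v)
    (fun n => ((hγ.comp (by fun_prop)).aestronglyMeasurable).mul rho_int.aestronglyMeasurable)
    (rho_int.const_mul C) (fun n => Eventually.of_forall fun v => ?_)
    (Eventually.of_forall fun v => ?_)
  · rw [norm_mul, Real.norm_eq_abs (rho v), abs_of_pos (rho_pos v)]
    gcongr
    · exact (rho_pos v).le
    · exact hC _
  · rw [mul_comm]
    refine Tendsto.mul_const _ (hγ.continuousAt.tendsto.comp ?_)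
    have := ((tendsto_one_div_add_atTop_nhds_zero_nat (𝕜 := ℝ)).smul_const v).const_sub p
    simpa using this

lemma near_lap {γ : E3 → ℝ} (hc : HasCompactSupport γ) (hγ : ContDiff ℝ 1 γ) (p : E3) :
    Laplacian.laplacian (cv γ (kk 0)) p = -(c0 * γ p) := by
  rw [lap_eq (near2 hc hγ).contDiffAt]
  have e0 : ∀ y, fderiv ℝ (fun x => fderiv ℝ (cv γ (kk 0)) x y) p y =
      cv (fun q => fderiv ℝ γ q y) (dk 0) p y := by
    intro y
    have : (fun x => fderiv ℝ (cv γ (kk 0)) x y) = cv (fun q => fderiv ℝ γ q y) (kk 0) :=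
      funext fun x => cv_left hc hγ (kk_loc le_rfl) x y
    rw [this, (der0 (dγ hc hγ y).1 (dγ hc hγ y).2 p).fderiv]
  have lo : ∀ n y, LocallyIntegrable (ddk (ep n) y) := fun n y =>
    (continuous_iff_continuousAt.2 fun v => ddk_cont y (pos_of (ep_pos n) v)).locallyIntegrable
  have e1 : ∀ n y, cv (fun q => fderiv ℝ γ q y) (dk (ep n)) p y =
      ∫ q, γ q • ddk (ep n) y (p - q) y := by
    intro n y
    have h1 : cv (fun q => fderiv ℝ γ q y) (kk (ep n)) = cv γ (fun v => dk (ep n) v y) := by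
      funext x
      rw [← cv_left hc hγ (kk_loc (ep_pos n).le), (der_eps hc hγ.continuous (ep_pos n) x).fderiv,
        cv, ContinuousLinearMap.integral_apply (cv_int hc hγ.continuous (dk_loc (ep_pos n).le) x)]
      rfl
    rw [← (der_eps (dγ hc hγ y).1 (dγ hc hγ y).2 (ep_pos n) p).fderiv, h1,
      (der_eps2 hc hγ.continuous (ep_pos n) y p).fderiv, cv,
      ContinuousLinearMap.integral_apply (cv_int hc hγ.continuous (lo n y) p)]
    rfl
  have e2 : ∀ n, ∑ i, cv (fun q => fderiv ℝ γ q (ee i)) (dk (ep n)) p (ee i) =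
      -cv γ (fun v => 3 * ep n * kk (ep n) v ^ 5) p := by
    intro n
    simp only [e1]
    rw [← integral_finsetSum, cv, ← integral_neg]
    · congr 1; funext q
      rw [← Finset.smul_sum, trace (pos_of (ep_pos n) _)]; simp
    · intro i _
      exact (ContinuousLinearMap.apply ℝ ℝ (ee i)).integrable_comp
        (cv_int hc hγ.continuous (lo n _) p)
  have t1 : Tendsto (fun n => ∑ i, cv (fun q => fderiv ℝ γ q (ee i)) (dk (ep n)) p (ee i)) atTop
      (𝓝 (∑ i, cv (fun q => fderiv ℝ γ q (ee i)) (dk 0) p (ee i))) := by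
    refine tendsto_finsetSum _ fun i _ => ?_
    exact ((ContinuousLinearMap.apply ℝ ℝ (ee i)).continuous.tendsto _).comp
      ((unif1 (dγ hc hγ _).1 (dγ hc hγ _).2 p).tendsto_at (mem_ball_self one_pos))
  simp only [e2] at t1
  simp only [e0]
  exact tendsto_nhds_unique t1 (approx hc hγ.continuous p).neg

end
end Pool.Agent.H96.NP
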