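import Pool.Agent.H96.NP2

namespace Pool.Agent.H96.NP
open Set Metric Filter Topology MeasureTheory
open Pool.Agent.H96.OD (E3)

noncomputable section

def Adm (γ : E3 → ℝ) : Prop :=
  Continuous γ ∧ ∀ p : E3, Integrable fun q => |γ q| * (1 + ‖p - q‖)⁻¹

section far
variable {γ : E3 → ℝ} {p₀ : E3}

lemma far_bd {q x : E3} (hq : 3 ≤ ‖p₀ - q‖) (hx : x ∈ ball p₀ 2) :
    0 < ‖x - q‖ ^ 2 + 0 ∧ ∀ n : ℕ, kk 0 (x - q) ^ (n + 1) ≤ 4 * (1 + ‖p₀ - q‖)⁻¹ := by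
  have h1 : ‖x - p₀‖ < 2 := mem_ball_iff_norm.1 hx
  have h2 : ‖p₀ - q‖ ≤ ‖x - q‖ + ‖x - p₀‖ := by
    have : p₀ - q = (x - q) - (x - p₀) := by abel
    rw [this]; exact norm_sub_le _ _
  have h3 : 1 ≤ ‖x - q‖ := by linarith
  refine ⟨by positivity, fun n => ?_⟩
  have h4 : kk 0 (x - q) ≤ 1 := by rw [kk_zero]; exact inv_le_one_of_one_le₀ h3
  have h5 : kk 0 (x - q) ≤ 4 * (1 + ‖p₀ - q‖)⁻¹ := by
    rw [kk_zero, ← div_eq_mul_inv, inv_eq_one_div, div_le_div_iff₀ (by linarith) (by linarith)]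
    linarith
  refine le_trans ?_ h5
  rw [pow_succ]
  exact mul_le_of_le_one_left (kk_nonneg _ _) (pow_le_one₀ (kk_nonneg _ _) h4)

lemma far_int (h : Adm γ) (hs : ∀ q, γ q ≠ 0 → 3 ≤ ‖p₀ - q‖) {F : Type*} [NormedAddCommGroup F]
    [NormedSpace ℝ F] {K : E3 → F} (hK : StronglyMeasurable K) (C : ℝ) (hC : 0 ≤ C) (n : ℕ)
    (hb : ∀ v, ‖K v‖ ≤ C * kk 0 v ^ (n + 1)) :
    (∀ q, γ q ≠ 0 → ∀ x ∈ ball p₀ 2,
      |γ q| * ‖K (x - q)‖ ≤ (C * 4) * (|γ q| * (1 + ‖p₀ - q‖)⁻¹)) ∧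
    ∀ x ∈ ball p₀ 2, Integrable fun q => γ q • K (x - q) := by
  have h1 : ∀ q, γ q ≠ 0 → ∀ x ∈ ball p₀ 2,
      |γ q| * ‖K (x - q)‖ ≤ (C * 4) * (|γ q| * (1 + ‖p₀ - q‖)⁻¹) := by
    intro q hq x hx
    have := (hb (x - q)).trans (mul_le_mul_of_nonneg_left ((far_bd (hs q hq) hx).2 n) hC)
    calc _ ≤ |γ q| * (C * (4 * (1 + ‖p₀ - q‖)⁻¹)) := by gcongr
      _ = _ := by ring
  refine ⟨h1, fun x hx => ((h.2 p₀).const_mul (C * 4)).mono' (sm_sub hK h.1 x)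
    (Eventually.of_forall fun q => ?_)⟩
  by_cases hq : γ q = 0
  · simp [hq]
  · rw [norm_smul]; exact h1 q hq x hx

lemma b0 (v : E3) : ‖kk 0 v‖ ≤ 1 * kk 0 v ^ (0 + 1) := by
  rw [Real.norm_eq_abs, abs_of_nonneg (kk_nonneg _ _)]; simp
lemma b1 (v : E3) : ‖dk 0 v‖ ≤ 1 * kk 0 v ^ (1 + 1) := by simpa using dk_norm le_rfl v
lemma b1y (y v : E3) : ‖dk 0 v y‖ ≤ ‖y‖ * kk 0 v ^ (1 + 1) := by
  refine ((dk 0 v).le_opNorm y).trans ?_
  rw [mul_comm]; gcongr; exact dk_norm le_rfl v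
lemma b2 (y v : E3) : ‖ddk 0 y v‖ ≤ (4 * ‖y‖) * kk 0 v ^ (2 + 1) := ddk_norm le_rfl y v

lemma far1 (h : Adm γ) (hs : ∀ q, γ q ≠ 0 → 3 ≤ ‖p₀ - q‖) (x : E3) (hx : x ∈ ball p₀ 2) :
    HasFDerivAt (cv γ (kk 0)) (cv γ (dk 0) x) x :=
  G (isOpen_ball.mem_nhds hx) (kk_meas 0).stronglyMeasurable (dk_meas 0) h.1
    ((h.2 p₀).const_mul (1 * 4)) (fun q => by positivity)
    ((far_int h hs (kk_meas 0).stronglyMeasurable 1 zero_le_one 0 b0).2 x hx)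
    fun q hq x hx => ⟨kk_der (far_bd (hs q hq) hx).1,
      (far_int h hs (dk_meas 0) 1 zero_le_one 1 b1).1 q hq x hx⟩

lemma far2 (h : Adm γ) (hs : ∀ q, γ q ≠ 0 → 3 ≤ ‖p₀ - q‖) (y x : E3) (hx : x ∈ ball p₀ 2) :
    HasFDerivAt (fun x => cv γ (dk 0) x y) (cv γ (ddk 0 y) x) x := by
  have := G (isOpen_ball.mem_nhds hx) (dky_meas 0 y) (ddk_meas 0 y) h.1
    ((h.2 p₀).const_mul (4 * ‖y‖ * 4)) (fun q => by positivity)
    ((far_int h hs (dky_meas 0 y) _ (norm_nonneg _) 1 (b1y y)).2 x hx)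
    fun q hq x hx => ⟨dk_der y (far_bd (hs q hq) hx).1,
      (far_int h hs (ddk_meas 0 y) _ (by positivity) 2 (b2 y)).1 q hq x hx⟩
  refine this.congr_of_eventuallyEq ?_
  filter_upwards [isOpen_ball.mem_nhds hx] with z hz
  rw [cv, ContinuousLinearMap.integral_apply
    ((far_int h hs (dk_meas 0) 1 zero_le_one 1 b1).2 z hz)]
  rfl

lemma far3 (h : Adm γ) (hs : ∀ q, γ q ≠ 0 → 3 ≤ ‖p₀ - q‖) :
    ContDiffOn ℝ 2 (cv γ (kk 0)) (ball p₀ 2) := by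
  refine cn_of (n := 1) isOpen_ball (far1 h hs) fun y => ?_
  refine cn_of (n := 0) isOpen_ball (far2 h hs y) fun z => ?_
  rw [Nat.cast_zero, contDiffOn_zero]
  refine ContinuousOn.clm_apply (fun x hx => ContinuousAt.continuousWithinAt ?_) continuousOn_const
  exact G0 (isOpen_ball.mem_nhds hx) (ddk_meas 0 y) h.1
    ((h.2 p₀).const_mul (4 * ‖y‖ * 4)) (fun q => by positivity)
    fun q hq x hx => ⟨ddk_cont y (far_bd (hs q hq) hx).1,
      (far_int h hs (ddk_meas 0 y) _ (by positivity) 2 (b2 y)).1 q hq x hx⟩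

lemma far4 (h : Adm γ) (hs : ∀ q, γ q ≠ 0 → 3 ≤ ‖p₀ - q‖) :
    Laplacian.laplacian (cv γ (kk 0)) p₀ = 0 := by
  have hp : p₀ ∈ ball p₀ 2 := mem_ball_self two_pos
  rw [lap_eq ((far3 h hs).contDiffAt (isOpen_ball.mem_nhds hp))]
  have hi := fun y => (far_int h hs (ddk_meas 0 y) _ (by positivity) 2 (b2 y)).2 p₀ hp
  have e : ∀ y, fderiv ℝ (fun x => fderiv ℝ (cv γ (kk 0)) x y) p₀ y =
      ∫ q, γ q • ddk 0 y (p₀ - q) y := by
    intro y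
    have : (fun x => fderiv ℝ (cv γ (kk 0)) x y) =ᶠ[𝓝 p₀] fun x => cv γ (dk 0) x y := by
      filter_upwards [isOpen_ball.mem_nhds hp] with z hz
      rw [(far1 h hs z hz).fderiv]
    rw [this.fderiv_eq, (far2 h hs y p₀ hp).fderiv, cv, ContinuousLinearMap.integral_apply (hi y)]
    rfl
  simp only [e]
  have hj : ∀ i : Fin 3, Integrable fun q => γ q • ddk 0 (ee i) (p₀ - q) (ee i) := fun i =>
    (ContinuousLinearMap.apply ℝ ℝ (ee i)).integrable_comp (hi (ee i))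
  rw [← integral_finsetSum _ fun i _ => hj i]
  refine integral_eq_zero_of_ae (Eventually.of_forall fun q => ?_)
  by_cases hq : γ q = 0
  · simp [hq]
  · have := trace (far_bd (hs q hq) hp).1
    simp only []
    rw [← Finset.smul_sum, this]; simp

end far

lemma split {γ : E3 → ℝ} (h : Adm γ) (p₀ : E3) : ∃ ψ : E3 → ℝ, ContDiff ℝ 1 ψ ∧ ψ p₀ = 1 ∧
    HasCompactSupport (fun q => ψ q * γ q) ∧ Adm (fun q => (1 - ψ q) * γ q) ∧
    ∀ q, (1 - ψ q) * γ q ≠ 0 → 3 ≤ ‖p₀ - q‖ := by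
  let ψ : ContDiffBump p₀ := ⟨3, 4, by norm_num, by norm_num⟩
  refine ⟨ψ, ψ.contDiff, ψ.one_of_mem_closedBall (mem_closedBall_self (by norm_num [ψ])),
    ψ.hasCompactSupport.mul_right, ⟨(continuous_const.sub ψ.continuous).mul h.1, fun p => ?_⟩,
    fun q hq => ?_⟩
  · refine (h.2 p).mono' ?_ (Eventually.of_forall fun q => ?_)
    · refine (Continuous.mul ((continuous_const.sub ψ.continuous).mul h.1).abs
        (Continuous.inv₀ (by fun_prop) fun q => by positivity)).aestronglyMeasurable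
    · rw [Real.norm_eq_abs, abs_of_nonneg (by positivity), abs_mul]
      gcongr
      refine mul_le_of_le_one_left (abs_nonneg _) ?_
      rw [abs_le]; constructor <;> linarith [ψ.nonneg (x := q), ψ.le_one (x := q)]
  · by_contra hc
    push Not at hc
    apply hq
    rw [ψ.one_of_mem_closedBall (by rw [mem_closedBall_iff_norm']; exact hc.le)]; simp

lemma cv_split {F : Type*} [NormedAddCommGroup F] [NormedSpace ℝ F] {γ ψ : E3 → ℝ} {K : E3 → F}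
    {x : E3} (h1 : Integrable fun q => (ψ q * γ q) • K (x - q))
    (h2 : Integrable fun q => ((1 - ψ q) * γ q) • K (x - q)) :
    (Integrable fun q => γ q • K (x - q)) ∧
    cv γ K x = cv (fun q => ψ q * γ q) K x + cv (fun q => (1 - ψ q) * γ q) K x := by
  have e : ∀ q, γ q • K (x - q) = (ψ q * γ q) • K (x - q) + ((1 - ψ q) * γ q) • K (x - q) :=
    fun q => by rw [← add_smul]; congr 1; ring
  refine ⟨(h1.add h2).congr (Eventually.of_forall fun q => (e q).symm), ?_⟩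
  rw [cv, cv, cv, ← integral_add h1 h2]
  simp only [e]

lemma M1 {γ : E3 → ℝ} (h : Adm γ) (p : E3) :
    (Integrable fun q => γ q • kk 0 (p - q)) ∧
    HasFDerivAt (cv γ (kk 0)) (cv γ (dk 0) p) p ∧ ContDiffAt ℝ 1 (cv γ (kk 0)) p ∧
    (ContDiff ℝ 1 γ → ContDiffAt ℝ 2 (cv γ (kk 0)) p ∧
      Laplacian.laplacian (cv γ (kk 0)) p = -(c0 * γ p)) := by
  obtain ⟨ψ, ψ1, ψ2, ψ3, ψ4, ψ5⟩ := split h p
  have hp : p ∈ ball p 2 := mem_ball_self two_pos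
  have hn := isOpen_ball.mem_nhds hp
  have c1 : Continuous fun q => ψ q * γ q := ψ1.continuous.mul h.1
  have s0 := fun x hx => cv_split (cv_int ψ3 c1 (kk_loc le_rfl) x)
    ((far_int ψ4 ψ5 (kk_meas 0).stronglyMeasurable 1 zero_le_one 0 b0).2 x hx)
  have s1 := cv_split (cv_int ψ3 c1 (dk_loc le_rfl) p)
    ((far_int ψ4 ψ5 (dk_meas 0) 1 zero_le_one 1 b1).2 p hp)
  have e : cv γ (kk 0) =ᶠ[𝓝 p]
      cv (fun q => ψ q * γ q) (kk 0) + cv (fun q => (1 - ψ q) * γ q) (kk 0) := by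
    filter_upwards [hn] with x hx
    exact (s0 x hx).2
  have f3 := (far3 ψ4 ψ5).contDiffAt hn
  refine ⟨(s0 p hp).1, ?_, ?_, fun hγ => ⟨?_, ?_⟩⟩
  · rw [s1.2]
    exact ((der0 ψ3 c1 p).add (far1 ψ4 ψ5 p hp)).congr_of_eventuallyEq e
  · exact ((near1 ψ3 c1).contDiffAt.add (f3.of_le (by norm_num))).congr_of_eventuallyEq e
  · exact ((near2 ψ3 (ψ1.mul hγ)).contDiffAt.add f3).congr_of_eventuallyEq e
  · rw [(InnerProductSpace.laplacian_congr_nhds e).eq_of_nhds,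
      (near2 ψ3 (ψ1.mul hγ)).contDiffAt.laplacian_add f3, near_lap ψ3 (ψ1.mul hγ), far4 ψ4 ψ5, ψ2]
    simp

end
end Pool.Agent.H96.NP
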