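import Pool.Agent.H96.NP3

namespace Pool.Agent.H96.NP
open Set Metric Filter Topology MeasureTheory Real
open Pool.Agent.H96.OD (E3)

noncomputable section

def h9 (y z : ℝ) : ℝ :=
  y ^ 9 - 36 * y ^ 7 * z ^ 2 + 126 * y ^ 5 * z ^ 4 - 84 * y ^ 3 * z ^ 6 + 9 * y * z ^ 8

lemma h9_polar (r θ : ℝ) : h9 (r * cos θ) (r * sin θ) = r ^ 9 * cos (9 * θ) := by
  have h := congrArg Complex.re (Complex.cos_add_sin_mul_I_pow 9 θ)
  have e : ((9 : ℕ) : ℂ) * θ = ((9 * θ : ℝ) : ℂ) := by push_cast; ring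
  rw [e, ← Complex.ofReal_cos, ← Complex.ofReal_sin, ← Complex.ofReal_cos,
    ← Complex.ofReal_sin] at h
  generalize cos θ = a at *
  generalize sin θ = b at *
  generalize cos (9 * θ) = c at *
  generalize sin (9 * θ) = d at *
  simp [pow_succ] at h
  rw [← h]; unfold h9; ring

lemma cos_gap {a b : ℝ} (ha : 0 ≤ a) (hab : a ≤ b) (hb : b ≤ π) :
    2 * ((b - a) / π) ^ 2 ≤ cos a - cos b := by
  have hp := pi_pos
  have h1 : (b - a) / π ≤ sin ((b - a) / 2) := by
    have := mul_le_sin (x := (b - a) / 2) (by linarith) (by linarith)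
    calc (b - a) / π = 2 / π * ((b - a) / 2) := by field_simp
      _ ≤ _ := this
  have h2 : (b - a) / π ≤ sin ((a + b) / 2) := by
    rcases le_total ((a + b) / 2) (π / 2) with h | h
    · have := mul_le_sin (x := (a + b) / 2) (by linarith) h
      calc (b - a) / π ≤ (a + b) / π := by gcongr; linarith
        _ = 2 / π * ((a + b) / 2) := by field_simp
        _ ≤ _ := this
    · have := mul_le_sin (x := π - (a + b) / 2) (by linarith) (by linarith)
      rw [sin_pi_sub] at this
      calc (b - a) / π ≤ (2 * π - (a + b)) / π := div_le_div_of_nonneg_right (by linarith) hp.le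
        _ = 2 / π * (π - (a + b) / 2) := by field_simp
        _ ≤ _ := this
  have h0 : 0 ≤ (b - a) / π := by apply div_nonneg <;> linarith
  rw [cos_sub_cos, show (a - b) / 2 = -((b - a) / 2) by ring, sin_neg]
  nlinarith [mul_le_mul h2 h1 h0 (h0.trans h2)]

def II (b c φ : ℝ) : ℝ := (1 + |b * cos φ - c|)⁻¹

lemma II_cont (b c : ℝ) : Continuous (II b c) :=
  Continuous.inv₀ (by fun_prop) fun φ => by positivity

lemma II_le (b c φ : ℝ) : II b c φ ≤ 1 := inv_le_one_of_one_le₀ (by linarith [abs_nonneg (b * cos φ - c)])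

lemma ang0 {r : ℝ} (hr : 0 < r) (c : ℝ) : ∫ φ in (0 : ℝ)..π, II (r ^ 9) c φ ≤ 3 * π / r ^ 3 := by
  have hp := pi_pos
  obtain ⟨φ₀, hφ⟩ : ∃ φ₀ : ℝ, ∀ φ ∈ Icc 0 π, |r ^ 9 * cos φ - c| ≤ r ^ 3 →
      φ ∈ Icc (φ₀ - π / r ^ 3) (φ₀ + π / r ^ 3) := by
    by_cases h : ∃ φ ∈ Icc 0 π, |r ^ 9 * cos φ - c| ≤ r ^ 3
    · obtain ⟨φ₀, h0, h1⟩ := h
      have key : ∀ a ∈ Icc 0 π, ∀ b ∈ Icc 0 π, |r ^ 9 * cos a - c| ≤ r ^ 3 →
          |r ^ 9 * cos b - c| ≤ r ^ 3 → b - a ≤ π / r ^ 3 := by
        intro a ha b hb h2 h3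
        rcases le_total b a with hab | hab
        · have : 0 < π / r ^ 3 := by positivity
          linarith
        · have h4 := cos_gap ha.1 hab hb.2
          have h5 : r ^ 9 * (cos a - cos b) ≤ 2 * r ^ 3 := by
            have := abs_le.1 h2; have := abs_le.1 h3; linarith
          have h6 : r ^ 3 * (((b - a) / π * r ^ 3) ^ 2) ≤ r ^ 3 * 1 := by
            have : 0 < r ^ 9 := by positivity
            nlinarith
          have h7 := le_of_mul_le_mul_left h6 (by positivity)
          have h8 : (b - a) / π * r ^ 3 ≤ 1 := by nlinarith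
          rw [le_div_iff₀ (by positivity)]
          rw [div_mul_eq_mul_div, div_le_one hp] at h8
          exact h8
      exact ⟨φ₀, fun φ hφ h2 => ⟨by linarith [key φ hφ φ₀ h0 h2 h1],
        by linarith [key φ₀ h0 φ hφ h1 h2]⟩⟩
    · exact ⟨0, fun φ hφ h2 => absurd ⟨φ, hφ, h2⟩ h⟩
  set J := Icc (φ₀ - π / r ^ 3) (φ₀ + π / r ^ 3)
  have hi : Integrable (J.indicator fun _ => (1 : ℝ)) :=
    (integrable_indicator_iff measurableSet_Icc).2 (integrableOn_const (by simp [J]))
  have h1 : ∫ φ in (0 : ℝ)..π, II (r ^ 9) c φ ≤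
      ∫ φ in (0 : ℝ)..π, (J.indicator (fun _ => (1 : ℝ)) φ + (r ^ 3)⁻¹) := by
    refine intervalIntegral.integral_mono_on hp.le ((II_cont _ _).intervalIntegrable _ _)
      (hi.intervalIntegrable.add intervalIntegrable_const) fun φ hφ' => ?_
    by_cases h : |r ^ 9 * cos φ - c| ≤ r ^ 3
    · rw [indicator_of_mem (hφ φ hφ' h)]
      have : 0 < (r ^ 3)⁻¹ := by positivity
      linarith [II_le (r ^ 9) c φ]
    · have : II (r ^ 9) c φ ≤ (r ^ 3)⁻¹ := inv_anti₀ (by positivity) (by linarith)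
      linarith [indicator_nonneg (s := J) (f := fun _ => (1 : ℝ)) (fun _ _ => zero_le_one) φ]
  rw [intervalIntegral.integral_add hi.intervalIntegrable intervalIntegrable_const] at h1
  have h2 : ∫ φ in (0 : ℝ)..π, J.indicator (fun _ => (1 : ℝ)) φ ≤ 2 * (π / r ^ 3) := by
    rw [intervalIntegral.integral_of_le hp.le]
    refine (setIntegral_le_integral hi (Eventually.of_forall fun φ =>
      indicator_nonneg (fun _ _ => zero_le_one) φ)).trans ?_
    rw [integral_indicator measurableSet_Icc]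
    have : 0 < π / r ^ 3 := by positivity
    simp [J, Real.volume_real_Icc_of_le (show φ₀ - π / r ^ 3 ≤ φ₀ + π / r ^ 3 by linarith)]
    linarith
  simp only [intervalIntegral.integral_const, sub_zero, smul_eq_mul] at h1
  calc _ ≤ 2 * (π / r ^ 3) + π * (r ^ 3)⁻¹ := by linarith
    _ = _ := by field_simp; ring

lemma ang1 {r : ℝ} (hr : 0 < r) (c : ℝ) :
    r * ∫ θ in (-π)..π, II (r ^ 9) c (9 * θ) ≤ 12 * π * (1 + r ^ 2)⁻¹ := by
  have hp := pi_pos
  rcases le_total r 1 with h | h
  · have h1 : ∫ θ in (-π)..π, II (r ^ 9) c (9 * θ) ≤ ∫ _ in (-π)..π, (1 : ℝ) :=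
      intervalIntegral.integral_mono_on (by linarith)
        (((II_cont _ _).comp (by fun_prop)).intervalIntegrable _ _) intervalIntegrable_const
        fun θ _ => II_le _ _ _
    simp only [intervalIntegral.integral_const, smul_eq_mul] at h1
    rw [← div_eq_mul_inv, le_div_iff₀ (by positivity)]
    have h2 : r * ∫ θ in (-π)..π, II (r ^ 9) c (9 * θ) ≤ 2 * π := by nlinarith
    have h3 : 1 + r ^ 2 ≤ 2 := by nlinarith
    nlinarith [mul_le_mul h2 h3 (by positivity) (by positivity)]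
  · have hper : Function.Periodic (II (r ^ 9) c) (2 * π) := fun φ => by simp [II]
    have hint := fun a b => (II_cont (r ^ 9) c).intervalIntegrable (μ := volume) a b
    have h1 := hper.intervalIntegral_add_zsmul_eq 9 (9 * -π) hint
    have h2 := hper.intervalIntegral_add_eq (9 * -π) (-π)
    have h3 : ∫ φ in (-π)..0, II (r ^ 9) c φ = ∫ φ in (0 : ℝ)..π, II (r ^ 9) c φ := by
      have := intervalIntegral.integral_comp_neg (a := 0) (b := π) (II (r ^ 9) c)
      rw [neg_zero] at this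
      rw [← this]; simp [II]
    have h4 := intervalIntegral.integral_add_adjacent_intervals (hint (-π) 0) (hint 0 π)
    have h5 := ang0 hr c
    rw [intervalIntegral.integral_comp_mul_left _ (by norm_num : (9 : ℝ) ≠ 0)]
    rw [show 9 * -π + (9 : ℤ) • (2 * π) = 9 * π by simp; ring, h2,
      show -π + 2 * π = π by ring, ← h4, h3] at h1
    rw [h1]
    have h6 : r * (6 * π / r ^ 3) ≤ 12 * π * (1 + r ^ 2)⁻¹ := by
      rw [← div_eq_mul_inv, show r * (6 * π / r ^ 3) = 6 * π / r ^ 2 by field_simp,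
        div_le_div_iff₀ (by positivity) (by positivity)]
      nlinarith [mul_le_mul_of_nonneg_left (show 1 ≤ r ^ 2 by nlinarith) hp.le]
    refine le_trans (mul_le_mul_of_nonneg_left ?_ hr.le) h6
    simp only [smul_eq_mul, zsmul_eq_mul]
    have : 6 * π / r ^ 3 = 2 * (3 * π / r ^ 3) := by ring
    push_cast; linarith

def M2 : ENNReal := ∫⁻ r : ℝ, ENNReal.ofReal (12 * π * (1 + r ^ 2)⁻¹)

lemma M2_fin : M2 ≠ ⊤ :=
  ((integrable_inv_one_add_sq.const_mul (12 * π)).lintegral_lt_top).ne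

lemma plane (c : ℝ) : ∫⁻ η : ℝ × ℝ, ENNReal.ofReal (1 + |h9 η.1 η.2 - c|)⁻¹ ≤ M2 := by
  have hp := pi_pos
  rw [← lintegral_comp_polarCoord_symm, polarCoord_target, Measure.volume_eq_prod,
    ← Measure.prod_restrict, lintegral_prod _ (by
      simp only [polarCoord_symm_apply, h9]; exact Measurable.aemeasurable (by fun_prop))]
  refine le_trans (setLIntegral_mono' measurableSet_Ioi fun r hr => ?_)
    (setLIntegral_le_lintegral _ _)
  simp only [polarCoord_symm_apply, h9_polar, smul_eq_mul]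
  rw [lintegral_const_mul' _ _ ENNReal.ofReal_ne_top]
  have hc : Continuous fun θ => II (r ^ 9) c (9 * θ) := (II_cont _ _).comp (by fun_prop)
  have := ofReal_integral_eq_lintegral_ofReal (μ := volume.restrict (Ioo (-π) π))
    (f := fun θ => II (r ^ 9) c (9 * θ))
    ((hc.integrableOn_Icc (a := -π) (b := π)).mono_set Ioo_subset_Icc_self)
    (Eventually.of_forall fun θ => by unfold II; positivity)
  unfold II at this
  rw [← this, ← ENNReal.ofReal_mul (le_of_lt hr), ← integral_Ioc_eq_integral_Ioo,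
    ← intervalIntegral.integral_of_le (by linarith)]
  exact ENNReal.ofReal_le_ofReal (ang1 hr c)

def PP9 (q : E3) : ℝ := q 0 + h9 (q 1) (q 2)

lemma PP9_smooth (n : WithTop ℕ∞) : ContDiff ℝ n PP9 := by unfold PP9 h9; fun_prop

def SS : Set E3 := {q | |PP9 q| ≤ 2}

lemma SS_meas : MeasurableSet SS :=
  (isClosed_le (PP9_smooth 0).continuous.abs continuous_const).measurableSet

lemma mp3 : MeasurePreserving (fun q : E3 => (q 0, (q 1, q 2))) := by
  have h := (((MeasurePreserving.id (volume : Measure ℝ)).prod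
    (volume_preserving_finTwoArrow ℝ)).comp
    (volume_preserving_piFinSuccAbove (fun _ : Fin 3 => ℝ) 0)).comp
    (PiLp.volume_preserving_ofLp (Fin 3))
  exact h

lemma space (p : E3) :
    ∫⁻ q, ENNReal.ofReal (SS.indicator (fun q => (1 + ‖p - q‖)⁻¹) q) ≤ 12 * M2 := by
  let Φ : ℝ × (ℝ × ℝ) → ENNReal := fun w =>
    {w : ℝ × (ℝ × ℝ) | |w.1 + h9 w.2.1 w.2.2| ≤ 2}.indicator
      (fun w => 3 * ENNReal.ofReal (1 + |h9 w.2.1 w.2.2 - -p 0|)⁻¹) w
  have hΦ : Measurable Φ := by
    refine Measurable.indicator (by unfold h9; fun_prop) (IsClosed.measurableSet ?_)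
    exact isClosed_le (by unfold h9; fun_prop) continuous_const
  calc _ ≤ ∫⁻ q : E3, Φ (q 0, (q 1, q 2)) := by
        refine lintegral_mono fun q => ?_
        by_cases hq : q ∈ SS
        · have hq' : |q 0 + h9 (q 1) (q 2)| ≤ 2 := hq
          rw [indicator_of_mem hq]
          simp only [Φ]
          rw [indicator_of_mem (by exact hq'), ← ENNReal.ofReal_ofNat 3,
            ← ENNReal.ofReal_mul (by norm_num)]
          refine ENNReal.ofReal_le_ofReal ?_
          have h1 : |p 0 - q 0| ≤ ‖p - q‖ := by simpa using PiLp.norm_apply_le (p - q) 0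
          have h2 : |h9 (q 1) (q 2) - -p 0| ≤ 2 + ‖p - q‖ := by
            have := abs_add_le (q 0 + h9 (q 1) (q 2)) (p 0 - q 0)
            rw [show q 0 + h9 (q 1) (q 2) + (p 0 - q 0) = h9 (q 1) (q 2) - -p 0 by ring] at this
            linarith
          rw [← div_eq_mul_inv, inv_eq_one_div, div_le_div_iff₀ (by positivity) (by positivity)]
          linarith [norm_nonneg (p - q)]
        · simp [indicator_of_notMem hq]
    _ = ∫⁻ w, Φ w := mp3.lintegral_comp hΦ
    _ = ∫⁻ η : ℝ × ℝ, 12 * ENNReal.ofReal (1 + |h9 η.1 η.2 - -p 0|)⁻¹ := by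
        rw [Measure.volume_eq_prod, lintegral_prod_symm' _ hΦ]
        refine lintegral_congr fun η => ?_
        have : (fun x => Φ (x, η)) = (Icc (-h9 η.1 η.2 - 2) (-h9 η.1 η.2 + 2)).indicator
            fun _ => 3 * ENNReal.ofReal (1 + |h9 η.1 η.2 - -p 0|)⁻¹ := by
          funext x
          simp only [Φ, indicator, mem_ofPred_eq, mem_Icc, abs_le]
          congr 1
          exact propext ⟨fun h => ⟨by linarith [h.1], by linarith [h.2]⟩,
            fun h => ⟨by linarith [h.1], by linarith [h.2]⟩⟩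
        rw [this, lintegral_indicator_const measurableSet_Icc, Real.volume_Icc,
          show -h9 η.1 η.2 + 2 - (-h9 η.1 η.2 - 2) = 4 by ring, ENNReal.ofReal_ofNat]
        ring
    _ ≤ 12 * M2 := by
        rw [lintegral_const_mul' _ _ (by norm_num)]
        gcongr
        exact plane _

lemma bound : ∃ M : ℝ, 0 ≤ M ∧ ∀ p : E3,
    Integrable (SS.indicator fun q => (1 + ‖p - q‖)⁻¹) ∧
    ∫ q, SS.indicator (fun q => (1 + ‖p - q‖)⁻¹) q ≤ M := by
  have hf : 12 * M2 ≠ ⊤ := ENNReal.mul_ne_top (by norm_num) M2_fin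
  refine ⟨(12 * M2).toReal, ENNReal.toReal_nonneg, fun p => ?_⟩
  have h0 : ∀ q, 0 ≤ SS.indicator (fun q => (1 + ‖p - q‖)⁻¹) q := fun q =>
    indicator_nonneg (fun _ _ => by positivity) q
  have hm : AEStronglyMeasurable (SS.indicator fun q => (1 + ‖p - q‖)⁻¹) volume :=
    (Measurable.indicator (by fun_prop) SS_meas).aestronglyMeasurable
  refine ⟨⟨hm, (hasFiniteIntegral_iff_ofReal (Eventually.of_forall h0)).2
    ((space p).trans_lt hf.lt_top)⟩, ?_⟩
  rw [integral_eq_lintegral_of_nonneg_ae (Eventually.of_forall h0) hm]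
  exact ENNReal.toReal_mono hf (space p)

end
end Pool.Agent.H96.NP
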