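import Pool.Agent.H96.NP4

namespace Pool.Agent.H96.NP
open Set Metric Filter Topology MeasureTheory
open Pool.Agent.H96.OD (E3)
open scoped BoundedContinuousFunction

noncomputable section

lemma p9 (c0 c1 c2 c3 c4 c5 c6 c7 c8 c9 x : ℝ) :
    HasDerivAt (fun τ : ℝ => c0 + c1 * τ + c2 * τ ^ 2 + c3 * τ ^ 3 + c4 * τ ^ 4 + c5 * τ ^ 5 + c6 * τ ^ 6 + c7 * τ ^ 7 + c8 * τ ^ 8 + c9 * τ ^ 9)
      (c1 + 2 * c2 * x + 3 * c3 * x ^ 2 + 4 * c4 * x ^ 3 + 5 * c5 * x ^ 4 + 6 * c6 * x ^ 5 + 7 * c7 * x ^ 6 + 8 * c8 * x ^ 7 + 9 * c9 * x ^ 8) x := by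
  have h := (((((((((hasDerivAt_const x c0).add ((hasDerivAt_id x).const_mul c1)).add ((hasDerivAt_pow 2 x).const_mul c2)).add ((hasDerivAt_pow 3 x).const_mul c3)).add ((hasDerivAt_pow 4 x).const_mul c4)).add ((hasDerivAt_pow 5 x).const_mul c5)).add ((hasDerivAt_pow 6 x).const_mul c6)).add ((hasDerivAt_pow 7 x).const_mul c7)).add ((hasDerivAt_pow 8 x).const_mul c8)).add ((hasDerivAt_pow 9 x).const_mul c9)
  refine (h.congr_deriv ?_).congr_of_eventuallyEq (Filter.Eventually.of_forall fun τ => ?_)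
  · simp; ring
  · simp

lemma d9 (g : ℝ → ℝ) (c0 c1 c2 c3 c4 c5 c6 c7 c8 c9 : ℝ)
    (h : ∀ τ, g τ = c0 + c1 * τ + c2 * τ ^ 2 + c3 * τ ^ 3 + c4 * τ ^ 4 + c5 * τ ^ 5 + c6 * τ ^ 6 + c7 * τ ^ 7 + c8 * τ ^ 8 + c9 * τ ^ 9) :
    iteratedDeriv 2 g 0 = 2 * c2 := by
  have hg : g = fun τ => c0 + c1 * τ + c2 * τ ^ 2 + c3 * τ ^ 3 + c4 * τ ^ 4 + c5 * τ ^ 5 + c6 * τ ^ 6 + c7 * τ ^ 7 + c8 * τ ^ 8 + c9 * τ ^ 9 := funext h
  have h1 : deriv g = fun x => c1 + (2 * c2) * x + (3 * c3) * x ^ 2 + (4 * c4) * x ^ 3 + (5 * c5) * x ^ 4 + (6 * c6) * x ^ 5 + (7 * c7) * x ^ 6 + (8 * c8) * x ^ 7 + (9 * c9) * x ^ 8 + 0 * x ^ 9 := by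
    funext x; rw [hg, (p9 c0 c1 c2 c3 c4 c5 c6 c7 c8 c9 x).deriv]; ring
  rw [iteratedDeriv_succ, iteratedDeriv_one, h1, (p9 _ _ _ _ _ _ _ _ _ _ 0).deriv]; ring

lemma harm9 (x y z : ℝ) : iteratedDeriv 2 (fun τ => x + τ + h9 y z) 0 +
    iteratedDeriv 2 (fun τ => x + h9 (y + τ) z) 0 +
    iteratedDeriv 2 (fun τ => x + h9 y (z + τ)) 0 = 0 := by
  rw [d9 _ (x + h9 y z) 1 0 0 0 0 0 0 0 0 (fun τ => by ring),
    d9 _ (x + h9 y z) ((9)*y^8*z^0 + (-252)*y^6*z^2 + (630)*y^4*z^4 + (-252)*y^2*z^6 + (9)*y^0*z^8) ((36)*y^7*z^0 + (-756)*y^5*z^2 + (1260)*y^3*z^4 + (-252)*y^1*z^6) ((84)*y^6*z^0 + (-1260)*y^4*z^2 + (1260)*y^2*z^4 + (-84)*y^0*z^6) ((126)*y^5*z^0 + (-1260)*y^3*z^2 + (630)*y^1*z^4) ((126)*y^4*z^0 + (-756)*y^2*z^2 + (126)*y^0*z^4) ((84)*y^3*z^0 + (-252)*y^1*z^2) ((36)*y^2*z^0 + (-36)*y^0*z^2) ((9)*y^1*z^0) ((1)*y^0*z^0) (fun τ => by unfold h9; ring),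
    d9 _ (x + h9 y z) ((-72)*y^7*z^1 + (504)*y^5*z^3 + (-504)*y^3*z^5 + (72)*y^1*z^7) ((-36)*y^7*z^0 + (756)*y^5*z^2 + (-1260)*y^3*z^4 + (252)*y^1*z^6) ((504)*y^5*z^1 + (-1680)*y^3*z^3 + (504)*y^1*z^5) ((126)*y^5*z^0 + (-1260)*y^3*z^2 + (630)*y^1*z^4) ((-504)*y^3*z^1 + (504)*y^1*z^3) ((-84)*y^3*z^0 + (252)*y^1*z^2) ((72)*y^1*z^1) ((9)*y^1*z^0) (0) (fun τ => by unfold h9; ring)]
  ring

lemma PP9_lap (p : E3) : Laplacian.laplacian PP9 p = 0 := by
  rw [InnerProductSpace.laplacian_eq_iteratedFDeriv_orthonormalBasis _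
    (EuclideanSpace.basisFun (Fin 3) ℝ)]
  simp only [Fin.sum_univ_three, OD.line2 _ (PP9_smooth 2)]
  have := harm9 (p 0) (p 1) (p 2)
  convert this using 4 <;> simp [PP9]

lemma est : ∃ M : ℝ, 0 < M ∧ ∀ (γ : E3 → ℝ) (δ : ℝ), Continuous γ → (∀ q, |γ q| ≤ δ) →
    (∀ q, q ∉ SS → γ q = 0) →
    Adm γ ∧ ∀ p, |cv γ (kk 0) p| ≤ δ * M ∧ ‖cv γ (dk 0) p‖ ≤ δ * M := by
  obtain ⟨M, hM, hb⟩ := bound
  have l3 : LocallyIntegrable fun v : E3 => ‖v‖⁻¹ ^ 2 :=
    locInt (Measurable.stronglyMeasurable (by fun_prop)) 1 2 (by norm_num) fun v _ => by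
      rw [Real.norm_eq_abs, abs_of_nonneg (by positivity), one_mul]
  let N : E3 → ℝ := (closedBall (0 : E3) 1).indicator fun v => ‖v‖⁻¹ ^ 2
  have hN : Integrable N := (integrable_indicator_iff measurableSet_closedBall).2
    (l3.integrableOn_isCompact (isCompact_closedBall _ _))
  have hN0 : ∀ v, 0 ≤ N v := fun v => indicator_nonneg (fun _ _ => by positivity) v
  have hA : 0 ≤ ∫ v, N v := integral_nonneg hN0
  refine ⟨(∫ v, N v) + 2 * M + 1, by positivity, fun γ δ hγ h1 h2 => ?_⟩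
  have hδ : 0 ≤ δ := (abs_nonneg _).trans (h1 0)
  have key : ∀ (p q : E3) (n : ℕ), n ≤ 1 → |γ q| * kk 0 (p - q) ^ (n + 1) ≤
      δ * (N (p - q) + 2 * SS.indicator (fun q => (1 + ‖p - q‖)⁻¹) q) := by
    intro p q n hn
    have := hN0 (p - q)
    by_cases hq : q ∈ SS
    · rw [indicator_of_mem hq, kk_zero]
      gcongr
      · exact h1 q
      · by_cases hv : ‖p - q‖ ≤ 1
        · have e : N (p - q) = ‖p - q‖⁻¹ ^ 2 := indicator_of_mem (mem_closedBall_zero_iff.2 hv) _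
          rw [e]
          refine le_add_of_le_of_nonneg ?_ (by positivity)
          rcases (norm_nonneg (p - q)).eq_or_lt with h | h
          · rw [← h]; simp
          · exact pow_le_pow_right₀ ((one_le_inv₀ h).2 hv) (by omega)
        · push Not at hv
          refine le_add_of_nonneg_of_le this ?_
          have h4 : ‖p - q‖⁻¹ ≤ 1 := inv_le_one_of_one_le₀ hv.le
          have h5 : ‖p - q‖⁻¹ ≤ 2 * (1 + ‖p - q‖)⁻¹ := by
            rw [← div_eq_mul_inv, inv_eq_one_div, div_le_div_iff₀ (by linarith) (by linarith)]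
            linarith
          refine le_trans ?_ h5
          rw [pow_succ]
          exact mul_le_of_le_one_left (by positivity) (pow_le_one₀ (by positivity) h4)
    · rw [h2 q hq, indicator_of_notMem hq]; simp; positivity
  have hI : ∀ p : E3, Integrable fun q =>
      δ * (N (p - q) + 2 * SS.indicator (fun q => (1 + ‖p - q‖)⁻¹) q) := fun p =>
    ((hN.comp_sub_left p).add ((hb p).1.const_mul 2)).const_mul δ
  have hJ : ∀ p : E3, ∫ q, δ * (N (p - q) + 2 * SS.indicator (fun q => (1 + ‖p - q‖)⁻¹) q) ≤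
      δ * ((∫ v, N v) + 2 * M + 1) := by
    intro p
    rw [integral_const_mul, integral_add (hN.comp_sub_left p) ((hb p).1.const_mul 2),
      integral_sub_left_eq_self N volume p, integral_const_mul]
    exact mul_le_mul_of_nonneg_left (by linarith [(hb p).2]) hδ
  refine ⟨⟨hγ, fun p => ((hb p).1.const_mul δ).mono' ?_ (Eventually.of_forall fun q => ?_)⟩,
    fun p => ⟨?_, ?_⟩⟩
  · exact (hγ.abs.mul (Continuous.inv₀ (by fun_prop) fun q => by positivity)).aestronglyMeasurable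
  · rw [Real.norm_eq_abs, abs_of_nonneg (by positivity)]
    by_cases hq : q ∈ SS
    · rw [indicator_of_mem hq]; gcongr; exact h1 q
    · rw [h2 q hq, indicator_of_notMem hq]; simp
  · rw [← Real.norm_eq_abs]
    refine le_trans (norm_integral_le_of_norm_le (hI p) (Eventually.of_forall fun q => ?_)) (hJ p)
    rw [norm_smul]
    refine le_trans ?_ (key p q 0 (by norm_num))
    rw [Real.norm_eq_abs]; gcongr; simpa using b0 (p - q)
  · refine le_trans (norm_integral_le_of_norm_le (hI p) (Eventually.of_forall fun q => ?_)) (hJ p)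
    rw [norm_smul]
    refine le_trans ?_ (key p q 1 le_rfl)
    rw [Real.norm_eq_abs]; gcongr; simpa using b1 (p - q)

def cl (t : ℝ) : ℝ := max (-1) (min 1 t)

lemma cl_lip (s t : ℝ) : |cl s - cl t| ≤ |s - t| := by
  unfold cl
  refine (abs_max_sub_max_le_max _ _ _ _).trans (max_le (by simp) ?_)
  refine (abs_min_sub_min_le_max _ _ _ _).trans (max_le (by simp) le_rfl)

lemma exists_sol : ∃ f : ℝ → ℝ, ContDiff ℝ (⊤ : ℕ∞) f ∧ HasCompactSupport f ∧ (∀ s, 0 ≤ f s) ∧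
    (0 < ∫ s, f s) ∧ ∃ w : E3 → ℝ, ContDiff ℝ 2 w ∧
    (∀ p, Laplacian.laplacian w p = f (PP9 p + w p)) ∧ (∀ p, |w p| ≤ 1) ∧
    ∀ p, ‖fderiv ℝ w p‖ ≤ 1 / 2 := by
  obtain ⟨M, hM, hE⟩ := est
  let φ : ContDiffBump (0 : ℝ) := ⟨1 / 2, 1, by norm_num, by norm_num⟩
  obtain ⟨L, hL⟩ := ContDiff.lipschitzWith_of_hasCompactSupport φ.hasCompactSupport
    (φ.contDiff (n := 1)) (by simp)
  have hc := c0_pos
  set δ : ℝ := c0 / (2 * M * (L + 1)) with hδ
  have δ0 : 0 < δ := by positivity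
  let f : ℝ → ℝ := fun s => δ * φ s
  have fs : ∀ n : ℕ∞, ContDiff ℝ n f := fun n => contDiff_const.mul φ.contDiff
  let src : (E3 →ᵇ ℝ) → E3 → ℝ := fun w q => f (PP9 q + cl (w q))
  have s1 : ∀ w, Continuous (src w) := fun w => by
    have := (PP9_smooth 0).continuous
    exact (fs 0).continuous.comp (by unfold cl; fun_prop)
  have s2 : ∀ w q, |src w q| ≤ δ := fun w q => by
    simp only [src, f]
    rw [abs_of_nonneg (mul_nonneg δ0.le φ.nonneg)]
    exact mul_le_of_le_one_right δ0.le φ.le_one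
  have s3 : ∀ w q, q ∉ SS → src w q = 0 := fun w q hq => by
    have h1 : 2 < |PP9 q| := not_le.1 hq
    have h2 : |cl (w q)| ≤ 1 := abs_le.2 ⟨le_max_left _ _, max_le (by norm_num) (min_le_left _ _)⟩
    have h3 := abs_sub (PP9 q + cl (w q)) (cl (w q))
    rw [add_sub_cancel_right] at h3
    simp only [src, f]
    rw [φ.zero_of_le_dist (by rw [Real.dist_eq, sub_zero]; show (1 : ℝ) ≤ _; linarith), mul_zero]
  have A := fun w => hE (src w) δ (s1 w) (s2 w) (s3 w)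
  have hsm : c0⁻¹ * (δ * M) ≤ 1 / 2 := by
    rw [hδ]; field_simp
    linarith [L.2]
  let T : (E3 →ᵇ ℝ) → E3 →ᵇ ℝ := fun w => BoundedContinuousFunction.ofNormedAddCommGroup
    (fun p => -c0⁻¹ * cv (src w) (kk 0) p)
    (continuous_const.mul (continuous_iff_continuousAt.2 fun p =>
      (M1 (A w).1 p).2.1.continuousAt)) (1 / 2) fun p => by
      rw [norm_mul, norm_neg, Real.norm_eq_abs, Real.norm_eq_abs, abs_of_pos (inv_pos.2 hc)]
      exact le_trans (mul_le_mul_of_nonneg_left ((A w).2 p).1 (inv_pos.2 hc).le) hsm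
  have hT : ∀ w p, T w p = -c0⁻¹ * cv (src w) (kk 0) p := fun _ _ => rfl
  have hcon : ContractingWith (1 / 2) T := by
    refine ⟨by norm_num, LipschitzWith.of_dist_le_mul fun w v => ?_⟩
    refine (BoundedContinuousFunction.dist_le (by positivity)).2 fun p => ?_
    have B := hE (fun q => src w q - src v q) (δ * L * dist w v) ((s1 w).sub (s1 v))
      (fun q => by
        simp only [src, f]
        rw [← mul_sub, abs_mul, abs_of_pos δ0, mul_assoc]
        gcongr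
        have := hL.dist_le_mul (PP9 q + cl (w q)) (PP9 q + cl (v q))
        rw [Real.dist_eq, Real.dist_eq, add_sub_add_left_eq_sub] at this
        refine this.trans (mul_le_mul_of_nonneg_left ((cl_lip _ _).trans ?_) L.2)
        exact BoundedContinuousFunction.dist_coe_le_dist (f := w) (g := v) q)
      (fun q hq => by rw [s3 w q hq, s3 v q hq, sub_zero])
    have e : cv (src w) (kk 0) p - cv (src v) (kk 0) p =
        cv (fun q => src w q - src v q) (kk 0) p := by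
      rw [cv, cv, cv, ← integral_sub (M1 (A w).1 p).1 (M1 (A v).1 p).1]
      simp only [sub_smul]
    rw [hT, hT, Real.dist_eq, ← mul_sub, e, abs_mul, abs_neg, abs_of_pos (inv_pos.2 hc)]
    refine le_trans (mul_le_mul_of_nonneg_left (B.2 p).1 (inv_pos.2 hc).le) ?_
    have h1 : c0⁻¹ * (δ * L * M) ≤ 1 / 2 := by
      rw [hδ]; field_simp
      linarith
    have := dist_nonneg (x := w) (y := v)
    push_cast
    nlinarith
  set w := hcon.fixedPoint T
  have hw : T w = w := hcon.fixedPoint_isFixedPt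
  have hw1 : (w : E3 → ℝ) = fun p => -c0⁻¹ * cv (src w) (kk 0) p := by
    funext p; rw [← hT, hw]
  have hb : ∀ p, |w p| ≤ 1 := fun p => by
    rw [← hw, hT, abs_mul, abs_neg, abs_of_pos (inv_pos.2 hc)]
    linarith [mul_le_mul_of_nonneg_left ((A w).2 p).1 (inv_pos.2 hc).le]
  have hsrc : src w = fun q => f (PP9 q + w q) := by
    funext q
    have := abs_le.1 (hb q)
    simp only [src, cl]
    rw [min_eq_right this.2, max_eq_right this.1]
  have c1 : ContDiff ℝ 1 (w : E3 → ℝ) := by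
    rw [hw1]
    exact contDiff_const.mul (contDiff_iff_contDiffAt.2 fun p => (M1 (A w).1 p).2.2.1)
  have c1' : ContDiff ℝ 1 (src w) := by
    rw [hsrc]; exact (fs 1).comp ((PP9_smooth 1).add c1)
  have B := fun p => (M1 (A w).1 p).2.2.2 c1'
  refine ⟨f, fs ⊤, φ.hasCompactSupport.mul_left, fun s => mul_nonneg δ0.le φ.nonneg, ?_, w, ?_,
    fun p => ?_, hb, fun p => ?_⟩
  · simp only [f]; rw [integral_const_mul]; exact mul_pos δ0 φ.integral_pos
  · rw [hw1]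
    exact contDiff_const.mul (contDiff_iff_contDiffAt.2 fun p => (B p).1)
  · have e : (w : E3 → ℝ) = (-c0⁻¹) • cv (src w) (kk 0) := hw1
    have e2 : f (PP9 p + w p) = src w p := by rw [hsrc]
    rw [e2]
    conv_lhs => rw [e]
    rw [InnerProductSpace.laplacian_smul _ (B p).1, (B p).2]
    simp only [smul_eq_mul]; field_simp
  · have := ((M1 (A w).1 p).2.1).const_mul (-c0⁻¹)
    rw [← hw1] at this
    rw [this.fderiv, norm_smul, norm_neg, Real.norm_eq_abs, abs_of_pos (inv_pos.2 hc)]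
    exact le_trans (mul_le_mul_of_nonneg_left ((A w).2 p).2 (inv_pos.2 hc).le) hsm

end
end Pool.Agent.H96.NP
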