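import Pool.Agent.H96.NP5

namespace Pool.Agent.H96.NP
open Set Metric Filter Topology MeasureTheory
open Pool.Agent.H96.OD (E3)

noncomputable section

lemma shear (v : E3 → ℝ) (hv : Continuous v) (c : ℝ) (hc : 0 < c)
    (h : ∀ (p : E3) (t : ℝ), 0 ≤ t → v p + c * t ≤ v (p + t • ee 0)) :
    ∃ Φ : E3 ≃ₜ E3, ∀ p, Φ p 0 = v p := by
  let F : E3 → E3 := fun p => !₂[v p, p 1, p 2]
  have hF : Continuous F := by
    refine (PiLp.continuous_toLp 2 _).comp (continuous_pi fun i => ?_)
    fin_cases i <;> simp <;> fun_prop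
  have key : ∀ p q : E3, p 1 = q 1 → p 2 = q 2 → c * |p 0 - q 0| ≤ |v p - v q| := by
    have k : ∀ p q : E3, p 1 = q 1 → p 2 = q 2 → q 0 ≤ p 0 → c * |p 0 - q 0| ≤ |v p - v q| := by
      intro p q h1 h2 h0
      have e : p = q + (p 0 - q 0) • ee 0 := by
        ext i; fin_cases i <;> simp [ee, h1, h2]
      have := h q (p 0 - q 0) (by linarith)
      rw [← e] at this
      rw [abs_of_nonneg (by linarith)]
      linarith [le_abs_self (v p - v q)]
    intro p q h1 h2
    rcases le_total (q 0) (p 0) with h0 | h0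
    · exact k p q h1 h2 h0
    · rw [abs_sub_comm, abs_sub_comm (v p)]; exact k q p h1.symm h2.symm h0
  have hinj : Function.Injective F := by
    intro p q hpq
    have a0 : v p = v q := by simpa [F] using congrArg (fun w : E3 => w 0) hpq
    have a1 : p 1 = q 1 := by simpa [F] using congrArg (fun w : E3 => w 1) hpq
    have a2 : p 2 = q 2 := by simpa [F] using congrArg (fun w : E3 => w 2) hpq
    have := key p q a1 a2
    rw [a0, sub_self, abs_zero] at this
    have h3 : |p 0 - q 0| ≤ 0 := by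
      by_contra hn; push Not at hn; nlinarith
    ext i; fin_cases i
    · simpa [sub_eq_zero] using h3
    · exact a1
    · exact a2
  have hsurj : Function.Surjective F := by
    intro w
    have h1 := h w (|w 0 - v w| / c) (by positivity)
    have h2 := h (w + (-(|w 0 - v w| / c)) • ee 0) (|w 0 - v w| / c) (by positivity)
    rw [add_assoc, ← add_smul, neg_add_cancel, zero_smul, add_zero] at h2
    rw [mul_div_cancel₀ _ hc.ne'] at h1 h2
    have := le_abs_self (w 0 - v w); have := neg_abs_le (w 0 - v w)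
    obtain ⟨t, ht⟩ : w 0 ∈ range fun t : ℝ => v (w + t • ee 0) :=
      mem_range_of_exists_le_of_exists_ge (by fun_prop) ⟨-(|w 0 - v w| / c), by linarith⟩
        ⟨|w 0 - v w| / c, by linarith⟩
    refine ⟨w + t • ee 0, ?_⟩
    ext i; fin_cases i
    · simpa [F] using ht
    · simp [F, ee]
    · simp [F, ee]
  let e := Equiv.ofBijective F ⟨hinj, hsurj⟩
  have e0 : ∀ w, v (e.symm w) = w 0 := fun w => by
    simpa [F] using congrArg (fun w : E3 => w 0) (show F (e.symm w) = w from e.apply_symm_apply w)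
  have e1 : ∀ w, e.symm w 1 = w 1 := fun w => by
    simpa [F] using congrArg (fun w : E3 => w 1) (show F (e.symm w) = w from e.apply_symm_apply w)
  have e2 : ∀ w, e.symm w 2 = w 2 := fun w => by
    simpa [F] using congrArg (fun w : E3 => w 2) (show F (e.symm w) = w from e.apply_symm_apply w)
  have c0 : Continuous fun w => e.symm w 0 := by
    rw [continuous_iff_continuousAt]
    intro w₀
    let g : E3 → E3 := fun w => !₂[e.symm w₀ 0, w 1, w 2]
    have hg : Continuous g := by
      refine (PiLp.continuous_toLp 2 _).comp (continuous_pi fun i => ?_)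
      fin_cases i <;> simp <;> fun_prop
    have hg0 : g w₀ = e.symm w₀ := by
      ext i; fin_cases i <;> simp [g, e1, e2]
    rw [ContinuousAt, tendsto_iff_dist_tendsto_zero]
    have t : Tendsto (fun w : E3 => |w 0 - v (g w)| / c) (𝓝 w₀) (𝓝 (|w₀ 0 - v (g w₀)| / c)) :=
      Continuous.tendsto (by fun_prop) w₀
    rw [hg0, e0, sub_self, abs_zero, zero_div] at t
    refine squeeze_zero (fun _ => dist_nonneg) (fun w => ?_) t
    have := key (e.symm w) (g w) (by simp [g, e1]) (by simp [g, e2])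
    rw [e0] at this
    rw [Real.dist_eq, le_div_iff₀ hc, mul_comm]
    simpa [g] using this
  have ce : Continuous e.symm := by
    have : (e.symm : E3 → E3) = fun w => !₂[e.symm w 0, w 1, w 2] := by
      funext w; ext i; fin_cases i <;> simp [e1, e2]
    rw [this]
    refine (PiLp.continuous_toLp 2 _).comp (continuous_pi fun i => ?_)
    fin_cases i
    · exact c0
    · simp; fun_prop
    · simp; fun_prop
  exact ⟨⟨e, hF, ce⟩, fun p => by show F p 0 = _; simp [F]⟩

lemma incr (w : E3 → ℝ) (hw : ContDiff ℝ 2 w) (hd : ∀ p, ‖fderiv ℝ w p‖ ≤ 1 / 2) (p : E3) (t : ℝ)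
    (ht : 0 ≤ t) : PP9 p + w p + 1 / 2 * t ≤ PP9 (p + t • ee 0) + w (p + t • ee 0) := by
  have h := convex_univ.norm_image_sub_le_of_norm_fderiv_le (𝕜 := ℝ) (f := w)
    (fun x _ => hw.differentiable (by norm_num) x) (fun x _ => hd x) (mem_univ p)
    (mem_univ (p + t • ee 0))
  rw [add_sub_cancel_left, norm_smul, Real.norm_eq_abs, Real.norm_eq_abs, abs_of_nonneg ht] at h
  have e : PP9 (p + t • ee 0) = PP9 p + t := by simp [PP9, ee]; ring
  have n : ‖ee 0‖ = 1 := by simp [ee]
  rw [n] at h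
  rw [e]; linarith [(abs_le.1 h).1]

lemma not1d (u : E3 → ℝ) (h1 : ∀ p, |u p - PP9 p| ≤ 1)
    (h2 : ∀ (p : E3) (t : ℝ), 0 ≤ t → u p + 1 / 2 * t ≤ u (p + t • ee 0))
    (ρ : E3 ≃ᵃⁱ[ℝ] E3) (V : ℝ → ℝ) (h : ∀ x, u (ρ x) = V (x 0)) : False := by
  set b := ρ 0
  set a1 := ρ.linearIsometryEquiv (ee 1)
  set a2 := ρ.linearIsometryEquiv (ee 2)
  have hp : ∀ s t : ℝ, ρ.linearIsometryEquiv (s • ee 1 + t • ee 2) = s • a1 + t • a2 := by
    intro s t; simp [a1, a2]
  have hu : ∀ s t : ℝ, u (b + (s • a1 + t • a2)) = V 0 := by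
    intro s t
    have := h (s • ee 1 + t • ee 2)
    have e := ρ.map_vadd 0 (s • ee 1 + t • ee 2)
    rw [vadd_eq_add, add_zero, hp, vadd_eq_add] at e
    rw [e, add_comm] at this
    simpa [ee] using this
  have hb : u b = V 0 := by simpa using hu 0 0
  by_cases hD : a1 1 * a2 2 - a1 2 * a2 1 = 0
  · obtain ⟨s, t, hst, k1, k2⟩ : ∃ s t : ℝ, (s ≠ 0 ∨ t ≠ 0) ∧ s * a1 1 + t * a2 1 = 0 ∧
        s * a1 2 + t * a2 2 = 0 := by
      by_cases h3 : a1 1 = 0 ∧ a2 1 = 0
      · by_cases h4 : a1 2 = 0 ∧ a2 2 = 0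
        · exact ⟨1, 0, Or.inl one_ne_zero, by simp [h3.1], by simp [h4.1]⟩
        · refine ⟨a2 2, -a1 2, ?_, by simp [h3.1, h3.2], by ring⟩
          by_contra hn; push Not at hn; exact h4 ⟨by linarith [hn.2], hn.1⟩
      · refine ⟨a2 1, -a1 1, ?_, by ring, by linarith⟩
        by_contra hn; push Not at hn; exact h3 ⟨by linarith [hn.2], hn.1⟩
    set τ := s * a1 0 + t * a2 0 with hτ
    have e : s • a1 + t • a2 = τ • ee 0 := by
      ext i; fin_cases i <;> simp [ee, k1, k2, hτ]
    have hτ0 : τ ≠ 0 := by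
      intro h0
      rw [h0, zero_smul, ← hp, map_eq_zero_iff _ ρ.linearIsometryEquiv.injective] at e
      have e1 : s = 0 := by simpa [ee] using congrArg (fun w : E3 => w 1) e
      have e2 : t = 0 := by simpa [ee] using congrArg (fun w : E3 => w 2) e
      rcases hst with h | h <;> contradiction
    rcases lt_or_gt_of_ne hτ0 with h0 | h0
    · have := hu (-s) (-t)
      rw [neg_smul, neg_smul, ← neg_add, e, ← neg_smul] at this
      linarith [h2 b (-τ) (by linarith)]
    · have := hu s t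
      rw [e] at this
      linarith [h2 b τ h0.le]
  · have key : ∃ x κ : ℝ, ∀ Y : ℝ, |V 0 - (x + κ * Y + Y ^ 9)| ≤ 1 := by
      set D := a1 1 * a2 2 - a1 2 * a2 1
      refine ⟨b 0 + ((-b 1 * a2 2 + b 2 * a2 1) / D * a1 0 + (-b 2 * a1 1 + b 1 * a1 2) / D * a2 0),
        (a2 2 * a1 0 - a1 2 * a2 0) / D, fun Y => ?_⟩
      have := h1 (b + ((((Y - b 1) * a2 2 + b 2 * a2 1) / D) • a1 +
        ((-b 2 * a1 1 - (Y - b 1) * a1 2) / D) • a2))
      rw [hu] at this
      convert this using 3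
      have e1 : b 1 + (((Y - b 1) * a2 2 + b 2 * a2 1) / D * a1 1 +
          (-b 2 * a1 1 - (Y - b 1) * a1 2) / D * a2 1) = Y := by
        field_simp; simp only [D]; ring
      have e2 : b 2 + (((Y - b 1) * a2 2 + b 2 * a2 1) / D * a1 2 +
          (-b 2 * a1 1 - (Y - b 1) * a1 2) / D * a2 2) = 0 := by
        field_simp; simp only [D]; ring
      simp only [PP9, PiLp.add_apply, PiLp.smul_apply, smul_eq_mul, e1, e2, h9]
      field_simp; ring
    obtain ⟨x, κ, k⟩ := key
    have k0 := abs_le.1 (k 0); have k1 := abs_le.1 (k 1); have k2 := abs_le.1 (k 2)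
    norm_num at k0 k1 k2
    linarith [k0.1, k0.2, k1.1, k1.2, k2.1, k2.2]

end
end Pool.Agent.H96.NP
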