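import Mathlib
import Pool.Agent.H96.NS1

/-! A topological Mautner phenomenon for translations on nilpotent homogeneous spaces. -/

namespace Pool.Agent.H96.NS

open Filter Topology Set
open scoped commutatorElement

set_option linter.unusedSectionVars false

variable {G : Type} [Group G] [TopologicalSpace G] [IsTopologicalGroup G]

lemma ulim {ι : Type} (p : Ultrafilter ℕ) (F : Filter ι) [F.NeBot] (f : ι → ℕ)
    (hf : Tendsto f F p) (K : Set G) (hK : IsCompact K) (c : ι → G) (hc : ∀ᶠ i in F, c i ∈ K) :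
    ∃ k ∈ K, ∃ U : Filter ι, U.NeBot ∧ U ≤ F ∧ Tendsto c U (𝓝 k) ∧ ∀ S ∈ U, f '' S ∈ p := by
  let U := Ultrafilter.of F
  have hU : (U : Filter ι) ≤ F := Ultrafilter.of_le F
  obtain ⟨k, hk, hle⟩ := hK.ultrafilter_le_nhds (U.map c)
    (le_principal_iff.2 (Ultrafilter.mem_map.2 (hU hc)))
  refine ⟨k, hk, U, inferInstance, hU, hle, fun S hS => ?_⟩
  have e : Filter.map f U = p := Ultrafilter.unique p (hf.mono_left hU)
  have : f '' S ∈ Filter.map f U := image_mem_map hS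
  rwa [e] at this

/-- limit of the graphs of the translations, modulo a subgroup -/
def R (p : Ultrafilter ℕ) (a : G) (Γ : Subgroup G) (u q : G) : Prop :=
  ∀ U ∈ 𝓝 u, ∀ V ∈ 𝓝 q, {n : ℕ | ∃ u' ∈ U, ∃ v ∈ V, v⁻¹ * (a ^ n * u') ∈ Γ} ∈ p

variable (p : Ultrafilter ℕ) (a : G) (Γ : Subgroup G)

lemma R_closed (u : G) : IsClosed {q | R p a Γ u q} := by
  rw [← closure_subset_iff_isClosed]
  intro q hq U hU V hV
  obtain ⟨V', hV', hVo, hqV⟩ := mem_nhds_iff.1 hV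
  obtain ⟨q', hq1, hq2⟩ := mem_closure_iff.1 hq V' hVo hqV
  exact hq2 U hU V (mem_of_superset (hVo.mem_nhds hq1) hV')

/-- the stabiliser of the limit relation -/
def Del : Subgroup G where
  carrier := {δ | ∀ u q, R p a Γ u q → R p a Γ u (q * δ) ∧ R p a Γ u (q * δ⁻¹)}
  one_mem' := fun u q h => by simpa using h
  mul_mem' := fun {x y} hx hy u q h => by
    refine ⟨?_, ?_⟩
    · rw [← mul_assoc]; exact (hy _ _ (hx u q h).1).1
    · rw [mul_inv_rev, ← mul_assoc]; exact (hx _ _ (hy u q h).2).2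
  inv_mem' := fun {x} hx u q h => by
    rw [inv_inv]; exact (hx u q h).symm

lemma Del_closed : IsClosed (Del p a Γ : Set G) := by
  have : (Del p a Γ : Set G) = ⋂ u, ⋂ q, ⋂ (_ : R p a Γ u q),
      ((fun δ => q * δ) ⁻¹' {q | R p a Γ u q} ∩ (fun δ => q * δ⁻¹) ⁻¹' {q | R p a Γ u q}) := by
    ext δ; simp [Del]
  rw [this]
  exact isClosed_iInter fun u => isClosed_iInter fun q => isClosed_iInter fun _ =>
    ((R_closed p a Γ u).preimage (by fun_prop)).inter ((R_closed p a Γ u).preimage (by fun_prop))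

lemma le_Del : Γ ≤ Del p a Γ := by
  have key : ∀ γ ∈ Γ, ∀ u q, R p a Γ u q → R p a Γ u (q * γ) := by
    intro γ hγ u q h U hU V hV
    have hV' : (fun x => x * γ) ⁻¹' V ∈ 𝓝 q := (continuous_mul_const γ).continuousAt hV
    refine mem_of_superset (h U hU _ hV') ?_
    rintro n ⟨u', hu', v, hv, hm⟩
    refine ⟨u', hu', v * γ, hv, ?_⟩
    have := Γ.mul_mem (Γ.inv_mem hγ) hm
    simpa [mul_assoc] using this
  exact fun γ hγ u q h => ⟨key γ hγ u q h, key _ (Γ.inv_mem hγ) u q h⟩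

variable {p a Γ}

lemma sat (hK : Cc ⊤ Γ) {u q : G} (h : R p a (Del p a Γ) u q) : R p a Γ u q := by
  obtain ⟨K, hKc, -, h3⟩ := hK
  choose κ hκ hκ' using fun g => h3 g trivial
  let F : Filter (ℕ × G × G) := ((p : Filter ℕ) ×ˢ (𝓝 u ×ˢ 𝓝 q)) ⊓
    𝓟 {i | i.2.2⁻¹ * (a ^ i.1 * i.2.1) ∈ Del p a Γ}
  have : F.NeBot := by
    refine inf_principal_neBot_iff.2 fun S hS => ?_
    obtain ⟨A, hA, B, hB, hAB⟩ := mem_prod_iff.1 hS
    obtain ⟨U, hU, V, hV, hUV⟩ := mem_prod_iff.1 hB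
    obtain ⟨n, hn, u', hu', v, hv, hm⟩ := p.nonempty_of_mem (inter_mem hA (h U hU V hV))
    exact ⟨(n, u', v), hAB ⟨hn, hUV ⟨hu', hv⟩⟩, hm⟩
  obtain ⟨k, -, U, hU0, hUF, hc, hS⟩ := ulim p F Prod.fst (tendsto_fst.mono_left inf_le_left) K hKc
    (fun i => κ (a ^ i.1 * i.2.1)) (Eventually.of_forall fun i => hκ _)
  have tu : Tendsto (fun i : ℕ × G × G => i.2.1) U (𝓝 u) :=
    (tendsto_fst.comp tendsto_snd).mono_left (hUF.trans inf_le_left)
  have tv : Tendsto (fun i : ℕ × G × G => i.2.2) U (𝓝 q) :=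
    (tendsto_snd.comp tendsto_snd).mono_left (hUF.trans inf_le_left)
  have hk : R p a Γ u k := by
    intro A hA B hB
    refine mem_of_superset (hS _ (inter_mem (tu hA) (hc hB))) ?_
    rintro _ ⟨i, ⟨h1, h2⟩, rfl⟩
    exact ⟨_, h1, _, h2, hκ' _⟩
  have hd : q⁻¹ * k ∈ Del p a Γ := by
    refine (Del_closed p a Γ).mem_of_tendsto (tv.inv.mul hc) ?_
    have hev : ∀ᶠ i in U, i.2.2⁻¹ * (a ^ i.1 * i.2.1) ∈ Del p a Γ :=
      (hUF.trans inf_le_right) (mem_principal_self _)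
    filter_upwards [hev] with i hi
    have := (Del p a Γ).mul_mem hi ((Del p a Γ).inv_mem (le_Del p a Γ (hκ' (a ^ i.1 * i.2.1))))
    simpa [mul_assoc] using this
  simpa using (hd u k hk).2

/-- Mautner limits -/
def ML (p : Ultrafilter ℕ) (a : G) (Δ : Subgroup G) (k : G) : Prop :=
  ∀ W ∈ 𝓝 (1 : G), ∀ O ∈ 𝓝 k, {n : ℕ | ∃ g ∈ W, ∃ κ ∈ O,
    ∀ h, (g * h * κ)⁻¹ * (a ^ n * g * (a ^ n)⁻¹ * h) ∈ Δ} ∈ p

lemma ML.inv {Δ : Subgroup G} {k : G} (h : ML p a Δ k) : ML p a Δ k⁻¹ := by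
  intro W hW O hO
  have hW' : (fun x : G => x⁻¹) ⁻¹' W ∈ 𝓝 (1 : G) :=
    continuous_inv.continuousAt.preimage_mem_nhds (by simpa using hW)
  have hO' : (fun x : G => x⁻¹) ⁻¹' O ∈ 𝓝 k := continuous_inv.continuousAt.preimage_mem_nhds hO
  refine mem_of_superset (h _ hW' _ hO') ?_
  rintro n ⟨g, hg, κ, hκ, H⟩
  refine ⟨g⁻¹, hg, κ⁻¹, hκ, fun h' => ?_⟩
  have := Δ.inv_mem (H (g⁻¹ * h' * κ⁻¹))
  simpa [mul_assoc] using this

lemma ML.mem (hK : Cc ⊤ Γ) {k : G} (h : ML p a (Del p a Γ) k) : k ∈ Del p a Γ := by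
  have key : ∀ k, ML p a (Del p a Γ) k → ∀ u q, R p a Γ u q → R p a Γ u (q * k) := by
    intro k h u q hq
    refine sat hK fun U hU V hV => ?_
    have c1 : Tendsto (fun x : G × G => x.1 * x.2) (𝓝 1 ×ˢ 𝓝 u) (𝓝 u) := by
      rw [← nhds_prod_eq]
      simpa using (continuous_mul (M := G)).tendsto (1, u)
    have c2 : Tendsto (fun x : G × G × G => x.1 * x.2.1 * x.2.2) (𝓝 1 ×ˢ (𝓝 q ×ˢ 𝓝 k))
        (𝓝 (q * k)) := by
      rw [← nhds_prod_eq, ← nhds_prod_eq]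
      have : Continuous fun x : G × G × G => x.1 * x.2.1 * x.2.2 := by fun_prop
      simpa using this.tendsto (1, q, k)
    obtain ⟨W1, hW1, U', hU', h1⟩ := mem_prod_iff.1 (c1 hU)
    obtain ⟨W2, hW2, B, hB, h2⟩ := mem_prod_iff.1 (c2 hV)
    obtain ⟨V', hV', O, hO, h3⟩ := mem_prod_iff.1 hB
    refine mem_of_superset (inter_mem (h _ (inter_mem hW1 hW2) O hO) (hq U' hU' V' hV')) ?_
    rintro n ⟨⟨g, hg, κ, hκ, H⟩, u', hu', v, hv, hm⟩
    refine ⟨g * u', h1 (show (g, u') ∈ W1 ×ˢ U' from ⟨hg.1, hu'⟩), g * v * κ,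
      h2 (show (g, v, κ) ∈ W2 ×ˢ B from ⟨hg.2, h3 (show (v, κ) ∈ V' ×ˢ O from ⟨hv, hκ⟩)⟩), ?_⟩
    have := (Del p a Γ).mul_mem (H v) (le_Del p a Γ hm)
    simpa [mul_assoc] using this
  exact fun u q hq => ⟨key k h u q hq, key _ h.inv u q hq⟩

lemma step1 [T2Space G] (hp : (p : Filter ℕ) ≤ atTop) (hK : Cc ⊤ Γ) {B P : Subgroup G} [B.Normal]
    (hB : PC B) (hc : ∀ z ∈ ⁅B, (⊤ : Subgroup G)⁆, ∀ g, ⁅z, g⁆ ∈ Del p a Γ)
    (hP : IsClosed (P : Set G)) (hBP : ⁅B, (⊤ : Subgroup G)⁆ ≤ P) (hΔP : Del p a Γ ≤ P)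
    {χ : G → Circle} (hχc : ContinuousOn χ P) (hχ : Mu P χ) (hχ1 : ∀ x ∈ Del p a Γ, χ x = 1)
    (hj : Cj ⁅B, ⊤⁆ χ) : ∀ b ∈ B, χ ⁅b, a⁆ = 1 := by
  intro b hb
  by_contra hne
  have hm := hχ.mono hBP
  have hψc : ContinuousOn (fun b : G => χ ⁅b, a⁆) (B : Set G) := by
    refine hχc.comp (f := fun b => ⁅b, a⁆) ?_ fun b hb => hBP (cm_mem hb a)
    simp only [commutatorElement_def]; fun_prop
  have hs := small_big hB hψc (D_left hm hj a) hb hne
  obtain ⟨K, hKc, -, h3⟩ := id hK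
  choose κ hκ hκ' using fun g => h3 g trivial
  let F : Filter (ℕ × G) := ((p : Filter ℕ) ×ˢ 𝓝 1) ⊓
    𝓟 {i | i.2 ∈ B ∧ ((χ ⁅i.2, a⁆ ^ i.1 : Circle) : ℂ).re ≤ 1 / 2}
  have : F.NeBot := by
    refine inf_principal_neBot_iff.2 fun S hS => ?_
    obtain ⟨A, hA, W, hW, hAW⟩ := mem_prod_iff.1 hS
    obtain ⟨n, hn, g, hg, hm⟩ := p.nonempty_of_mem (inter_mem hA (hp (hs W hW)))
    exact ⟨(n, g), hAW ⟨hn, hg⟩, hm⟩
  let K' : Set G := K ∩ ((P : Set G) ∩ χ ⁻¹' {z | (z : ℂ).re ≤ 1 / 2})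
  have hK' : IsCompact K' := by
    refine hKc.inter_right (hχc.preimage_isClosed_of_isClosed hP ?_)
    exact isClosed_le (Complex.continuous_re.comp continuous_subtype_val) continuous_const
  have hev : ∀ᶠ i in F, i.2 ∈ B ∧ ((χ ⁅i.2, a⁆ ^ i.1 : Circle) : ℂ).re ≤ 1 / 2 :=
    (inf_le_right : F ≤ _) (mem_principal_self _)
  have hz : ∀ (n : ℕ) (g : G), g ∈ B → ⁅g, a ^ n⁆⁻¹ ∈ ⁅B, (⊤ : Subgroup G)⁆ := fun n g hg =>
    Subgroup.inv_mem _ (cm_mem hg _)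
  obtain ⟨k, hk, U, hU0, hUF, hcU, hS⟩ := ulim p F Prod.fst (tendsto_fst.mono_left inf_le_left)
    K' hK' (fun i => κ ⁅i.2, a ^ i.1⁆⁻¹) (by
      filter_upwards [hev] with i hi
      have h1 := hΔP (le_Del p a Γ (hκ' ⁅i.2, a ^ i.1⁆⁻¹))
      have h2 := hBP (hz i.1 i.2 hi.1)
      have h4 : κ ⁅i.2, a ^ i.1⁆⁻¹ ∈ P := by
        have := P.mul_mem h2 (P.inv_mem h1)
        rwa [mul_inv_rev, inv_inv, inv_mul_cancel_left, inv_inv] at this
      refine ⟨hκ _, h4, ?_⟩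
      have h5 := hχ _ h4 _ h1
      rw [mul_inv_cancel_left, hχ1 _ (le_Del p a Γ (hκ' _)), mul_one,
        hm.inv (cm_mem hi.1 _)] at h5
      have h6 : χ ⁅i.2, a ^ i.1⁆ = χ ⁅i.2, a⁆ ^ i.1 := (D_right hm hj hi.1).pow (x := a) trivial i.1
      show ((χ _ : Circle) : ℂ).re ≤ _
      rw [← h5, h6, Circle.coe_inv_eq_conj, Complex.conj_re]
      exact hi.2)
  have tg : Tendsto (fun i : ℕ × G => i.2) U (𝓝 1) := tendsto_snd.mono_left (hUF.trans inf_le_left)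
  have hML : ML p a (Del p a Γ) k := by
    intro W hW O hO
    refine mem_of_superset (hS _ (inter_mem (inter_mem (tg hW) (hcU hO)) (hUF hev))) ?_
    rintro _ ⟨⟨n, g⟩, ⟨⟨h1, h2⟩, h4, -⟩, rfl⟩
    refine ⟨g, h1, _, h2, fun h => ?_⟩
    have e1 := le_Del p a Γ (hκ' ⁅g, a ^ n⁆⁻¹)
    have e2 := hc _ (Subgroup.inv_mem _ (hz n g h4)) (g * h)⁻¹
    have := (Del p a Γ).mul_mem e1 e2
    convert this using 1
    simp only [commutatorElement_def]; group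
  have := hk.2.2
  rw [mem_preimage, hχ1 k (hML.mem hK)] at this
  norm_num at this

theorem comm_mem [T2Space G] [Group.IsNilpotent G] (hp : (p : Filter ℕ) ≤ atTop) (hK : Cc ⊤ Γ)
    {N : Subgroup G} [N.Normal] (hNo : IsOpen (N : Set G)) (hNp : PC N)
    (hgen : ∀ S : Subgroup G, N ≤ S → a ∈ S → S = ⊤)
    (hden : ∀ S : Subgroup G, IsClosed (S : Set G) → Γ ≤ S → a ∈ S → S = ⊤) :
    ∀ g ∈ N, ⁅g, a⁆ ∈ (Del p a Γ).normalCore := by
  set Δ := Del p a Γ with hΔ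
  set C := Δ.normalCore with hC
  have hCΔ : C ≤ Δ := Δ.normalCore_le
  have hKΔ : Cc ⊤ Δ := hK.mono (le_Del p a Γ)
  have key : ∀ i, Hs N (i + 2) ≤ C → Hs N (i + 1) ≤ C := by
    intro i hi h hh
    have hc : ∀ z ∈ Hs N (i + 1), ∀ g, ⁅z, g⁆ ∈ Δ := fun z hz g => hCΔ (hi (cm_mem hz g))
    by_contra hn
    have hn' : h ∉ Δ := fun hd => hn fun b => by
      have := Δ.mul_mem (Δ.inv_mem (hc h hh b)) hd
      simpa [commutatorElement_def, mul_assoc] using this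
    obtain ⟨P, hP, hHP, hΔP, χ, hχc, hχ, hχ1, hχh⟩ := exchar (Del_closed p a Γ) hKΔ hc hh hn'
    have hm : Mu ⁅Hs N i, ⊤⁆ χ := hχ.mono hHP
    have hj : Cj ⁅Hs N i, ⊤⁆ χ := by
      intro g x hx
      have e : g * x * g⁻¹ = ⁅x, g⁆⁻¹ * x := by simp only [commutatorElement_def]; group
      rw [e, hχ _ (hΔP (Δ.inv_mem (hc x hx g))) _ (hHP hx), hχ1 _ (Δ.inv_mem (hc x hx g)), one_mul]
    have h1 := step1 hp hK (PC_Hs hNp i) hc hP hHP hΔP hχc hχ hχ1 hj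
    let S : ∀ b ∈ Hs N i, Subgroup G := fun b hb =>
      { carrier := {g | χ ⁅b, g⁆ = 1}
        one_mem' := (D_right hm hj hb).one
        mul_mem' := fun {x y} hx hy => by
          have := D_right hm hj hb x trivial y trivial
          simp only [mem_ofPred_eq] at *
          rw [this, hx, hy, one_mul]
        inv_mem' := fun {x} hx => by
          have := (D_right hm hj hb).inv (x := x) trivial
          simp only [mem_ofPred_eq] at *
          rw [this, hx, inv_one] }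
    have cc : ContinuousOn (fun q : G × G => χ ⁅q.2, q.1⁆) (univ ×ˢ (Hs N i : Set G)) := by
      refine hχc.comp (f := fun q : G × G => ⁅q.2, q.1⁆) ?_ fun q hq => hHP (cm_mem hq.2 _)
      simp only [commutatorElement_def]; fun_prop
    have h2 : ∀ b ∈ Hs N i, b ∈ Δ → ∀ g, χ ⁅b, g⁆ = 1 := by
      intro b hb hbd g
      have : S b hb = ⊤ := by
        refine hden _ (isClosed_singleton.preimage (f := fun g => χ ⁅b, g⁆) ?_) (fun γ hγ => ?_)
          (h1 b hb)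
        · exact cc.comp_continuous (f := fun g : G => (g, b)) (by fun_prop) fun g => ⟨trivial, hb⟩
        · have hγ' := le_Del p a Γ hγ
          refine hχ1 _ ?_
          rw [commutatorElement_def]
          exact Δ.mul_mem (Δ.mul_mem (Δ.mul_mem hbd hγ') (Δ.inv_mem hbd)) (Δ.inv_mem hγ')
      exact (this ▸ Subgroup.mem_top g : g ∈ S b hb)
    have h3 : ∀ g ∈ N, ∀ b ∈ Hs N i, χ ⁅b, g⁆ = 1 := by
      intro g hg
      obtain ⟨γ, hγ, h0, hγ1, ht⟩ := hNp g hg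
      have := rigid_Hs hKΔ (hKΔ.op N hNo) (0 : ℝ) i (fun t b => χ ⁅b, γ t⁆)
        (cc.comp (f := fun q : ℝ × G => (γ q.1, q.2)) (by fun_prop) fun q hq => ⟨trivial, hq.2⟩)
        (fun t => D_left hm hj _) (fun t => D_cj hm hj _) (fun t x hx hxd => h2 x hx hxd _)
        (fun x _ => by simpa [h0] using hm.one) 1
      simpa [hγ1] using this
    refine hχh (triv_cm hm (fun b hb g => ?_) h hh)
    have : S b hb = ⊤ := hgen _ (fun g hg => h3 g hg b hb) (h1 b hb)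
    exact (this ▸ Subgroup.mem_top g : g ∈ S b hb)
  obtain ⟨s, hs⟩ := Hs_bot N
  have h1 : ∀ i, Hs N (i + 1) ≤ C → Hs N 1 ≤ C := by
    intro i
    induction i with
    | zero => exact id
    | succ i ih => exact fun h => ih (key i h)
  intro g hg
  refine h1 s ((cm_le _).trans (hs ▸ bot_le)) (cm_mem hg a)

end Pool.Agent.H96.NS
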