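import Mathlib
import Pool.Agent.H96.NS2

/-! Dense orbits along sequences in minimal nilsystems. -/

namespace Pool.Agent.H96.NS

open Filter Topology Set
open scoped commutatorElement

set_option linter.unusedSectionVars false

/-- every minimal equicontinuous system has a point with dense orbit along `A` -/
def Re (A : Set ℕ) : Prop :=
  ∀ (X : Type) [MetricSpace X] [CompactSpace X] [Nonempty X] (T : X → X), Continuous T →
    Function.Surjective T → (∀ x, Dense (range fun n : ℕ => T^[n + 1] x)) →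
    Equicontinuous (fun n : ℕ => T^[n]) → ∃ x, Dense ((fun n : ℕ => T^[n] x) '' A)

lemma re_mod {A : Set ℕ} (hA : Re A) (N : ℕ) (hN : 0 < N) (r : ℕ) : ∃ n ∈ A, n ≡ r [MOD N] := by
  have : NeZero N := ⟨hN.ne'⟩
  let m : MetricSpace (ZMod N) := TopologicalSpace.metrizableSpaceMetric (ZMod N)
  have it : ∀ (n : ℕ) (x : ZMod N), (fun y => y + 1)^[n] x = x + n := by
    intro n x
    induction n with
    | zero => simp
    | succ n ih => rw [Function.iterate_succ_apply', ih]; push_cast; ring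
  obtain ⟨x, hx⟩ := hA (ZMod N) (fun y => y + 1) continuous_of_discreteTopology
    (fun y => ⟨y - 1, by simp⟩)
    (fun x => by
      rw [dense_discrete, eq_univ_iff_forall]
      intro y
      refine ⟨(y - x - 1).val, ?_⟩
      simp only [it]; push_cast; simp)
    (fun x U hU => by
      rw [nhds_discrete]
      exact fun i => refl_mem_uniformity hU)
  rw [dense_discrete, eq_univ_iff_forall] at hx
  obtain ⟨n, hn, e⟩ := hx (x + r)
  simp only [it] at e
  exact ⟨n, hn, (ZMod.natCast_eq_natCast_iff _ _ _).1 (add_left_cancel e)⟩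

lemma often {A : Set ℕ} (hA : Re A) {X : Type} [TopologicalSpace X] [T1Space X] (T : X → X)
    (hmin : ∀ x, Dense (range fun n : ℕ => T^[n + 1] x)) {z1 : X}
    (hz : Dense ((fun n : ℕ => T^[n] z1) '' A)) (z2 : X) (V : Set X) (hV : V ∈ 𝓝 z2) (M : ℕ) :
    ∃ n ∈ A, M ≤ n ∧ T^[n] z1 ∈ V := by
  by_cases iso : IsOpen ({z2} : Set X)
  · obtain ⟨_, h1, r, rfl⟩ := (hmin z1).inter_open_nonempty _ iso (singleton_nonempty _)
    obtain ⟨_, h2, q, rfl⟩ := (hmin z2).inter_open_nonempty _ iso (singleton_nonempty _)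
    simp only [mem_singleton_iff] at h1 h2
    obtain ⟨n, hn, e⟩ := re_mod hA ((q + 1) * (M + r + 2)) (by positivity) (r + 1 + (q + 1) * M)
    have hlt : r + 1 + (q + 1) * M < (q + 1) * (M + r + 2) := by nlinarith
    have e2 := Nat.div_add_mod n ((q + 1) * (M + r + 2))
    rw [show n % _ = _ from e, Nat.mod_eq_of_lt hlt] at e2
    set j := n / ((q + 1) * (M + r + 2))
    refine ⟨n, hn, by nlinarith [Nat.zero_le ((q + 1) * (M + r + 2) * j), Nat.zero_le (q * M)], ?_⟩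
    have e3 : n = (q + 1) * ((M + r + 2) * j + M) + (r + 1) := by rw [← e2]; ring
    rw [e3, Function.iterate_add_apply, h1, Function.iterate_mul, Function.iterate_fixed h2]
    exact mem_of_mem_nhds hV
  · let F : Set X := ((fun n : ℕ => T^[n] z1) '' Iio M) \ {z2}
    have hF : F.Finite := ((finite_Iio M).image _).sdiff
    have hO : IsOpen ((interior V \ F) \ {z2}) :=
      (isOpen_interior.sdiff hF.isClosed).sdiff isClosed_singleton
    have hne : ((interior V \ F) \ {z2}).Nonempty := by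
      by_contra he
      rw [not_nonempty_iff_eq_empty, sdiff_eq_empty] at he
      refine iso ?_
      have : interior V \ F = {z2} := he.antisymm (singleton_subset_iff.2
        ⟨mem_interior_iff_mem_nhds.2 hV, fun h => h.2 rfl⟩)
      exact this ▸ isOpen_interior.sdiff hF.isClosed
    obtain ⟨_, h1, n, hn, rfl⟩ := hz.inter_open_nonempty _ hO hne
    refine ⟨n, hn, ?_, interior_subset h1.1.1⟩
    by_contra hlt
    exact h1.1.2 ⟨⟨n, not_le.1 hlt, rfl⟩, h1.2⟩

variable {G : Type} [Group G] [TopologicalSpace G] [IsTopologicalGroup G] [T2Space G]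
  [SecondCountableTopology G] [Group.IsNilpotent G]

theorem trans_core {A : Set ℕ} (hA : Re A) {a : G} {Γ N : Subgroup G} [N.Normal] (hK : Cc ⊤ Γ)
    (hNo : IsOpen (N : Set G)) (hNp : PC N) (hgen : ∀ S : Subgroup G, N ≤ S → a ∈ S → S = ⊤)
    (hmin : ∀ (u : G) (O : Set G), IsOpen O → O.Nonempty →
      ∃ n : ℕ, ∃ γ ∈ Γ, a ^ (n + 1) * u * γ ∈ O)
    (u q : G) (U V : Set G) (hU : U ∈ 𝓝 u) (hV : V ∈ 𝓝 q) :
    ∃ n ∈ A, ∃ u' ∈ U, ∃ γ ∈ Γ, a ^ n * u' * γ ∈ V := by
  have hden : ∀ S : Subgroup G, IsClosed (S : Set G) → Γ ≤ S → a ∈ S → S = ⊤ := by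
    intro S hS hΓ ha
    by_contra hne
    have : ((S : Set G)ᶜ).Nonempty := by
      by_contra he
      rw [not_nonempty_iff_eq_empty, compl_empty_iff] at he
      exact hne (Subgroup.coe_eq_univ.1 he)
    obtain ⟨n, γ, hγ, h⟩ := hmin 1 _ hS.isOpen_compl this
    exact h (S.mul_mem (S.mul_mem (S.pow_mem ha _) S.one_mem) (hΓ hγ))
  let L : Subgroup G := Subgroup.normalClosure {x | ∃ g ∈ N, x = ⁅g, a⁆}
  let Γs : Subgroup G := (L ⊔ Γ).topologicalClosure
  have hL : L ≤ Γs := le_sup_left.trans (Subgroup.le_topologicalClosure _)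
  have hΓ : Γ ≤ Γs := le_sup_right.trans (Subgroup.le_topologicalClosure _)
  have hcl : IsClosed (Γs : Set G) := Subgroup.isClosed_topologicalClosure _
  obtain ⟨K, hKc, -, h3⟩ := id hK
  choose κ hκ hκ' using fun g => h3 g trivial
  have hκq : ∀ g : G, ((κ g : G) : G ⧸ Γs) = g := fun g => QuotientGroup.eq.2 (hΓ (hκ' g))
  have : CompactSpace (G ⧸ Γs) := by
    refine ⟨?_⟩
    convert hKc.image (QuotientGroup.continuous_mk (N := Γs)) using 1
    symm
    rw [eq_univ_iff_forall]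
    intro z
    obtain ⟨x, rfl⟩ := QuotientGroup.mk_surjective z
    exact ⟨κ x, hκ x, hκq x⟩
  let m : MetricSpace (G ⧸ Γs) := TopologicalSpace.metrizableSpaceMetric (G ⧸ Γs)
  have hsm : ∀ g h : G, g • (h : G ⧸ Γs) = ((g * h : G) : G ⧸ Γs) := fun _ _ => rfl
  have hcomm : ∀ g ∈ N, ∀ (n : ℕ) (z : G ⧸ Γs), a ^ n • g • z = g • a ^ n • z := by
    intro g hg
    have h1 : ∀ z : G ⧸ Γs, a • g • z = g • a • z := by
      intro z
      obtain ⟨x, rfl⟩ := QuotientGroup.mk_surjective z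
      simp only [hsm]
      refine QuotientGroup.eq.2 (hL ?_)
      have h2 : ⁅g, a⁆ ∈ L := Subgroup.subset_normalClosure ⟨g, hg, rfl⟩
      have := (Subgroup.normalClosure_normal (s := {x | ∃ g ∈ N, x = ⁅g, a⁆})).conj_mem _ h2
        (a * g * x)⁻¹
      convert this using 1
      simp only [commutatorElement_def]; group
    intro n
    induction n with
    | zero => simp
    | succ n ih => intro z; rw [pow_succ', mul_smul, ih, h1, mul_smul]
  have hit : ∀ (n : ℕ) (z : G ⧸ Γs), (fun z => a • z)^[n] z = a ^ n • z := fun n z => by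
    rw [smul_iterate]
  have hminZ : ∀ z : G ⧸ Γs, Dense (range fun n : ℕ => (fun z => a • z)^[n + 1] z) := by
    intro z
    obtain ⟨x, rfl⟩ := QuotientGroup.mk_surjective z
    rw [dense_iff_inter_open]
    rintro O hO ⟨y, hy⟩
    obtain ⟨y, rfl⟩ := QuotientGroup.mk_surjective y
    obtain ⟨n, γ, hγ, h⟩ := hmin x _ (hO.preimage QuotientGroup.continuous_mk) ⟨y, hy⟩
    refine ⟨_, ?_, n, rfl⟩
    simp only [hit, hsm]
    rwa [mem_preimage, QuotientGroup.mk_mul_of_mem _ (hΓ hγ)] at h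
  obtain ⟨z, hz⟩ := hA (G ⧸ Γs) (fun z => a • z) (continuous_const_smul a)
    (MulAction.surjective a) hminZ (by
      intro z0
      obtain ⟨h, rfl⟩ := QuotientGroup.mk_surjective z0
      rw [Metric.equicontinuousAt_iff_right]
      intro ε hε
      have hev : ∀ᶠ g in 𝓝 (1 : G), ∀ z ∈ (univ : Set (G ⧸ Γs)), dist z (g • z) < ε := by
        refine isCompact_univ.eventually_forall_of_forall_eventually fun z _ => ?_
        have hc : Continuous fun x : G × (G ⧸ Γs) => dist x.2 (x.1 • x.2) := by fun_prop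
        exact hc.continuousAt.eventually (gt_mem_nhds (by simpa using hε))
      rw [QuotientGroup.nhds_eq, eventually_map]
      have ht : Tendsto (fun x => x * h⁻¹) (𝓝 h) (𝓝 1) := by
        simpa using (continuous_mul_const h⁻¹).tendsto h
      filter_upwards [ht.eventually hev, ht (hNo.mem_nhds N.one_mem)] with x hx hxN n
      have e : (x : G ⧸ Γs) = (x * h⁻¹) • (h : G ⧸ Γs) := by simp [hsm]
      rw [hit, hit, e, hcomm _ hxN]
      exact hx _ trivial)
  have hzu : Dense ((fun n : ℕ => (fun z => a • z)^[n] (u : G ⧸ Γs)) '' A) := by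
    obtain ⟨w, rfl⟩ := QuotientGroup.mk_surjective z
    obtain ⟨n, γ, hγ, h⟩ := hmin w {x | x * u⁻¹ ∈ N} (hNo.preimage (continuous_mul_const _))
      ⟨u, by simp⟩
    set g := a ^ (n + 1) * w * γ * u⁻¹ with hg
    have hgN : g⁻¹ ∈ N := N.inv_mem h
    have e : (u : G ⧸ Γs) = g⁻¹ • a ^ (n + 1) • (w : G ⧸ Γs) := by
      rw [hsm, ← QuotientGroup.mk_mul_of_mem (a ^ (n + 1) * w) (hΓ hγ), hsm, hg]
      congr 1; group
    have hd := (MulAction.surjective (β := G ⧸ Γs) (g⁻¹ * a ^ (n + 1))).denseRange.dense_image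
      (continuous_const_smul _) hz
    rw [image_image] at hd
    convert hd using 2 with k
    simp only [hit]
    rw [e, hcomm _ hgN, mul_smul, smul_smul (a ^ k), smul_smul (a ^ (n + 1)), ← pow_add, ← pow_add,
      add_comm]
  let F : Filter ℕ := (atTop ⊓ comap (fun n : ℕ => a ^ n • (u : G ⧸ Γs)) (𝓝 (q : G ⧸ Γs))) ⊓ 𝓟 A
  have : F.NeBot := by
    refine inf_principal_neBot_iff.2 fun S hS => ?_
    obtain ⟨S1, h1, S2, h2, rfl⟩ := mem_inf_iff.1 hS
    obtain ⟨M, hM⟩ := mem_atTop_sets.1 h1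
    obtain ⟨W, hW, hW2⟩ := mem_comap.1 h2
    obtain ⟨n, hn, hn1, hn2⟩ := often hA _ hminZ hzu _ W hW M
    exact ⟨n, ⟨hM n hn1, hW2 (by rw [hit] at hn2; exact hn2)⟩, hn⟩
  let p := Ultrafilter.of F
  have hpF : (p : Filter ℕ) ≤ F := Ultrafilter.of_le F
  have hp : (p : Filter ℕ) ≤ atTop := hpF.trans (inf_le_left.trans inf_le_left)
  have hΔ : Γs ≤ Del p a Γ := by
    refine Subgroup.topologicalClosure_minimal _ (sup_le ?_ (le_Del p a Γ)) (Del_closed p a Γ)
    refine le_trans (Subgroup.normalClosure_le_normal ?_) (Del p a Γ).normalCore_le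
    rintro _ ⟨g, hg, rfl⟩
    exact comm_mem hp hK hNo hNp hgen hden g hg
  obtain ⟨k, -, hk⟩ := hKc.ultrafilter_le_nhds (p.map fun n => κ (a ^ n * u))
    (le_principal_iff.2 (Ultrafilter.mem_map.2 (univ_mem' fun n => hκ _)))
  have hk' : Tendsto (fun n => κ (a ^ n * u)) p (𝓝 k) := hk
  have hR : R p a Γ u k := fun U hU V hV =>
    mem_of_superset (hk' hV) fun n hn => ⟨u, mem_of_mem_nhds hU, _, hn, hκ' _⟩
  have hkq : (k : G ⧸ Γs) = q := by
    have t1 := (QuotientGroup.continuous_mk (N := Γs)).continuousAt.tendsto.comp hk'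
    have t2 : Tendsto (fun n : ℕ => a ^ n • (u : G ⧸ Γs)) p (𝓝 (q : G ⧸ Γs)) :=
      tendsto_iff_comap.2 (hpF.trans (inf_le_left.trans inf_le_right))
    refine tendsto_nhds_unique (t1.congr fun n => ?_) t2
    simp only [Function.comp, hκq, hsm]
  have hRq : R p a Γ u q := by
    simpa using (hΔ (QuotientGroup.eq.1 hkq) u k hR).1
  have hAp : A ∈ p := (hpF.trans inf_le_right) (mem_principal_self _)
  obtain ⟨n, hn, u', hu', v, hv, hm⟩ := p.nonempty_of_mem (inter_mem hAp (hRq U hU V hV))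
  exact ⟨n, hn, u', hu', _, Γ.inv_mem hm, by simpa [mul_assoc] using hv⟩

theorem core [LocallyCompactSpace G] {A : Set ℕ} (hA : Re A) {a : G} {Γ N : Subgroup G} [N.Normal]
    (hK : Cc ⊤ Γ) (hNo : IsOpen (N : Set G)) (hNp : PC N)
    (hgen : ∀ S : Subgroup G, N ≤ S → a ∈ S → S = ⊤)
    (hmin : ∀ (u : G) (O : Set G), IsOpen O → O.Nonempty →
      ∃ n : ℕ, ∃ γ ∈ Γ, a ^ (n + 1) * u * γ ∈ O) :
    ∃ y : G, ∀ O : Set G, IsOpen O → O.Nonempty → ∃ n ∈ A, ∃ γ ∈ Γ, a ^ n * y * γ ∈ O := by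
  obtain ⟨b, hbc, hbne, hb⟩ := TopologicalSpace.exists_countable_basis G
  have hd : Dense (⋂ V ∈ b, {y : G | ∃ n ∈ A, ∃ γ ∈ Γ, a ^ n * y * γ ∈ V}) := by
    refine dense_biInter_of_isOpen (fun V hV => ?_) hbc fun V hV => ?_
    · have : {y : G | ∃ n ∈ A, ∃ γ ∈ Γ, a ^ n * y * γ ∈ V} =
          ⋃ n ∈ A, ⋃ γ ∈ Γ, (fun y => a ^ n * y * γ) ⁻¹' V := by ext; simp
      rw [this]
      exact isOpen_biUnion fun n _ => isOpen_biUnion fun γ _ =>
        (hb.isOpen hV).preimage (by fun_prop)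
    · rw [dense_iff_inter_open]
      rintro U hU ⟨u, hu⟩
      obtain ⟨q, hq⟩ : V.Nonempty := nonempty_iff_ne_empty.2 fun e => hbne (e ▸ hV)
      obtain ⟨n, hn, u', hu', h⟩ := trans_core hA hK hNo hNp hgen hmin u q U V (hU.mem_nhds hu)
        ((hb.isOpen hV).mem_nhds hq)
      exact ⟨u', hu', n, hn, h⟩
  obtain ⟨y, hy⟩ := hd.nonempty
  refine ⟨y, fun O hO ⟨x, hx⟩ => ?_⟩
  obtain ⟨V, hV, -, hVO⟩ := hb.exists_subset_of_mem_open hx hO
  obtain ⟨n, hn, γ, hγ, h⟩ := mem_iInter₂.1 hy V hV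
  exact ⟨n, hn, γ, hγ, hVO h⟩

theorem main [LocallyCompactSpace G] [LocallyPathConnectedSpace G] {A : Set ℕ} (hA : Re A)
    (Γ : Subgroup G) [CompactSpace (G ⧸ Γ)] (a : G)
    (hmin : ∀ x : G ⧸ Γ, Dense (range fun n : ℕ => (fun z => a • z)^[n + 1] x)) :
    ∃ y : G ⧸ Γ, Dense ((fun n : ℕ => (fun z => a • z)^[n] y) '' A) := by
  have hsm : ∀ g h : G, g • (h : G ⧸ Γ) = ((g * h : G) : G ⧸ Γ) := fun _ _ => rfl
  have hit : ∀ (n : ℕ) (z : G ⧸ Γ), (fun z => a • z)^[n] z = a ^ n • z := fun n z => by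
    rw [smul_iterate]
  have hK : Cc ⊤ Γ := by
    choose Kx hKx hKn using fun x : G => exists_compact_mem_nhds x
    obtain ⟨t, ht⟩ := (isCompact_univ (X := G ⧸ Γ)).elim_finite_subcover
      (fun x : G => (QuotientGroup.mk : G → G ⧸ Γ) '' interior (Kx x))
      (fun x => QuotientGroup.isOpenMap_coe _ isOpen_interior) (fun z _ => by
        obtain ⟨x, rfl⟩ := QuotientGroup.mk_surjective z
        exact mem_iUnion.2 ⟨x, x, mem_interior_iff_mem_nhds.2 (hKn x), rfl⟩)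
    refine ⟨⋃ x ∈ t, Kx x, t.isCompact_biUnion fun x _ => hKx x, fun _ _ => trivial, fun s _ => ?_⟩
    obtain ⟨x, hx, y, hy, e⟩ := mem_iUnion₂.1 (ht (mem_univ (s : G ⧸ Γ)))
    exact ⟨y, mem_iUnion₂.2 ⟨x, hx, interior_subset hy⟩, QuotientGroup.eq.1 e⟩
  have hm : ∀ (u : G) (O : Set G), IsOpen O → O.Nonempty →
      ∃ n : ℕ, ∃ γ ∈ Γ, a ^ (n + 1) * u * γ ∈ O := by
    intro u O hO hne
    obtain ⟨_, ⟨y, hy, rfl⟩, n, e⟩ := (hmin u).inter_open_nonempty _
      (QuotientGroup.isOpenMap_coe _ hO) (hne.image _)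
    simp only [hit, hsm] at e
    exact ⟨n, _, QuotientGroup.eq.1 e, by simpa [mul_assoc] using hy⟩
  let N : Subgroup G :=
    { carrier := {x | ∃ γ : ℝ → G, Continuous γ ∧ γ 0 = 1 ∧ γ 1 = x}
      one_mem' := ⟨fun _ => 1, continuous_const, rfl, rfl⟩
      mul_mem' := by
        rintro x y ⟨γ, hγ, h0, h1⟩ ⟨γ', hγ', h0', h1'⟩
        exact ⟨fun t => γ t * γ' t, by fun_prop, by simp [h0, h0'], by simp [h1, h1']⟩
      inv_mem' := by
        rintro x ⟨γ, hγ, h0, h1⟩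
        exact ⟨fun t => (γ t)⁻¹, by fun_prop, by simp [h0], by simp [h1]⟩ }
  have hNn : N.Normal := ⟨by
    rintro x ⟨γ, hγ, h0, h1⟩ g
    exact ⟨fun t => g * γ t * g⁻¹, by fun_prop, by simp [h0], by simp [h1]⟩⟩
  have hNo : IsOpen (N : Set G) := by
    refine N.isOpen_of_mem_nhds (g := 1) (mem_of_superset
      ((IsOpen.pathComponent (1 : G)).mem_nhds (mem_pathComponent_self _)) ?_)
    rintro x ⟨γ⟩
    exact ⟨γ.extend, γ.continuous_extend, γ.extend_zero, γ.extend_one⟩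
  let G' : Subgroup G := N ⊔ Subgroup.zpowers a
  have hNG : N ≤ G' := le_sup_left
  have ha : a ∈ G' := (le_sup_right : Subgroup.zpowers a ≤ G') (Subgroup.mem_zpowers a)
  have hGo : IsOpen (G' : Set G) := Subgroup.isOpen_mono hNG hNo
  have : LocallyCompactSpace G' := hGo.locallyCompactSpace
  have : SecondCountableTopology G' := TopologicalSpace.Subtype.secondCountableTopology (G' : Set G)
  have hK' : Cc (⊤ : Subgroup G') (Γ.subgroupOf G') := by
    obtain ⟨K, hKc, hKS, h3⟩ := hK.op G' hGo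
    refine ⟨(↑) ⁻¹' K, (G'.isClosed_of_isOpen hGo).isClosedEmbedding_subtypeVal.isCompact_preimage
      hKc, fun _ _ => trivial, fun s _ => ?_⟩
    obtain ⟨κ, hκ, hκs⟩ := h3 s s.2
    exact ⟨⟨κ, hKS hκ⟩, hκ, Subgroup.mem_subgroupOf.2 hκs⟩
  obtain ⟨y, hy⟩ := core (G := G') hA (a := ⟨a, ha⟩) (N := N.subgroupOf G') hK'
    (hNo.preimage continuous_subtype_val)
    (by
      rintro x ⟨γ, hγ, h0, h1⟩
      have ht : ∀ t, γ t ∈ N := fun t => ⟨fun s => γ (s * t), by fun_prop, by simp [h0], by simp⟩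
      exact ⟨fun t => ⟨γ t, hNG (ht t)⟩, hγ.subtype_mk _, Subtype.ext h0, Subtype.ext h1,
        fun t => ht t⟩)
    (by
      intro S hS haS
      have : G' ≤ S.map G'.subtype := by
        refine sup_le (fun x hx => ⟨⟨x, hNG hx⟩, hS (Subgroup.mem_subgroupOf.2 hx), rfl⟩) ?_
        exact (Subgroup.zpowers_le).2 ⟨_, haS, rfl⟩
      rw [eq_top_iff]
      intro x _
      obtain ⟨y, hy, e⟩ := this x.2
      rwa [← (Subtype.ext e : y = x)])
    (by
      intro u O hO hne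
      obtain ⟨n, γ, hγ, y, hy, e⟩ := hm u _ (hGo.isOpenMap_subtype_val _ hO) (hne.image _)
      have hγ' : γ ∈ G' := by
        have := G'.mul_mem (G'.inv_mem (G'.mul_mem (G'.pow_mem ha (n + 1)) u.2)) y.2
        rwa [e, inv_mul_cancel_left] at this
      refine ⟨n, ⟨γ, hγ'⟩, Subgroup.mem_subgroupOf.2 hγ, ?_⟩
      have e' : (⟨a, ha⟩ : G') ^ (n + 1) * u * ⟨γ, hγ'⟩ = y := Subtype.ext (by simpa using e.symm)
      rwa [e'])
  refine ⟨((y : G) : G ⧸ Γ), ?_⟩
  rw [dense_iff_inter_open]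
  rintro O hO ⟨x, hx⟩
  obtain ⟨x, rfl⟩ := QuotientGroup.mk_surjective x
  have hO' : IsOpen ((QuotientGroup.mk : G → G ⧸ Γ) ⁻¹' O) := hO.preimage QuotientGroup.continuous_mk
  obtain ⟨n0, γ0, hγ0, h0⟩ := hm 1 _ hO' ⟨x, hx⟩
  rw [mem_preimage, QuotientGroup.mk_mul_of_mem _ hγ0] at h0
  obtain ⟨n, hn, γ, hγ, h⟩ := hy _ (hO'.preimage continuous_subtype_val)
    ⟨⟨_, G'.mul_mem (G'.pow_mem ha (n0 + 1)) G'.one_mem⟩, h0⟩
  refine ⟨_, ?_, n, hn, rfl⟩
  simp only [hit, hsm]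
  rw [← QuotientGroup.mk_mul_of_mem _ (Subgroup.mem_subgroupOf.1 hγ)]
  simpa using h

end Pool.Agent.H96.NS
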