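import Mathlib

set_option autoImplicit false
open Filter Topology Set

namespace Pool.Agent.H96.NoDiff

theorem hit {ρ : ℝ} (hρ : 0 < ρ) (a b θ : ℝ) (h : 7 * ρ ≤ |b - a|) :
    ∃ u ∈ uIcc a b, Real.cos (u / ρ) = Real.cos θ := by
  have key : ∀ lo hi : ℝ, 7 * ρ ≤ hi - lo → ∃ u ∈ Icc lo hi, Real.cos (u / ρ) = Real.cos θ := by
    intro lo hi h
    have hp := Real.pi_pos
    have hp2 := Real.pi_lt_d2
    refine ⟨(θ + (⌈(lo / ρ - θ) / (2 * Real.pi)⌉ : ℤ) * (2 * Real.pi)) * ρ, ⟨?_, ?_⟩, ?_⟩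
    · have := Int.le_ceil ((lo / ρ - θ) / (2 * Real.pi))
      rw [div_le_iff₀ (by positivity), sub_le_iff_le_add, div_le_iff₀ hρ] at this
      linarith
    · have := Int.ceil_lt_add_one ((lo / ρ - θ) / (2 * Real.pi))
      rw [← sub_lt_iff_lt_add, lt_div_iff₀ (by positivity), lt_sub_iff_add_lt, lt_div_iff₀ hρ] at this
      nlinarith
    · rw [mul_div_cancel_right₀ _ hρ.ne', Real.cos_add_int_mul_two_pi]
  rcases le_total a b with hab | hab
  · rw [uIcc_of_le hab]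
    exact key a b (by rwa [abs_of_nonneg (by linarith)] at h)
  · rw [uIcc_of_ge hab]
    exact key b a (by rw [abs_of_nonpos (by linarith)] at h; linarith)

variable {d : ℕ}

def G (X : Set (EuclideanSpace ℝ (Fin d))) (i : Fin d) (n : ℕ) : Set C(X, ℝ) :=
  {f | ∃ ρ m : ℝ, 0 < ρ ∧ ρ * (n + 1) < 1 ∧ n * ρ < m ∧ ∀ x y : X, dist x y ≤ n * ρ →
    Real.cos (x.1 i / ρ) = 1 → Real.cos (y.1 i / ρ) = -1 → m ≤ f x - f y}

theorem G_open (X : Set (EuclideanSpace ℝ (Fin d))) [CompactSpace X] (i : Fin d) (n : ℕ) :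
    IsOpen (G X i n) := by
  rw [Metric.isOpen_iff]
  rintro f ⟨ρ, m, h0, h1, h2, h3⟩
  refine ⟨(m - n * ρ) / 3, by linarith, fun g hg => ⟨ρ, m - 2 * ((m - n * ρ) / 3), h0, h1, by linarith,
    fun x y hxy hx hy => ?_⟩⟩
  have a := h3 x y hxy hx hy
  have b := (ContinuousMap.dist_apply_le_dist (f := g) (g := f) x).trans (le_of_lt hg)
  have c := (ContinuousMap.dist_apply_le_dist (f := g) (g := f) y).trans (le_of_lt hg)
  rw [Real.dist_eq, abs_le] at b c
  linarith [b.1, c.2]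

theorem G_dense (X : Set (EuclideanSpace ℝ (Fin d))) [CompactSpace X] (i : Fin d) (n : ℕ) :
    Dense (G X i n) := by
  rw [Metric.dense_iff]
  intro f ε hε
  obtain ⟨δ, hδ, hf⟩ := Metric.uniformContinuous_iff.mp
    (CompactSpace.uniformContinuous_of_continuous f.continuous) (ε / 2) (by linarith)
  set ρ : ℝ := min (min δ 1) (ε / 2) / (n + 2) with hρ
  have hn : (0 : ℝ) ≤ n := n.cast_nonneg
  have hm : 0 < min (min δ 1) (ε / 2) := by positivity
  have h0 : 0 < ρ := by positivity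
  have h1 : ρ * (n + 2) = min (min δ 1) (ε / 2) := by rw [hρ]; field_simp
  have a1 : min (min δ 1) (ε / 2) ≤ δ := (min_le_left _ _).trans (min_le_left _ _)
  have a2 : min (min δ 1) (ε / 2) ≤ 1 := (min_le_left _ _).trans (min_le_right _ _)
  have a3 : min (min δ 1) (ε / 2) ≤ ε / 2 := min_le_right _ _
  let p : C(X, ℝ) := ⟨fun x => ε / 2 * Real.cos (x.1 i / ρ), by fun_prop⟩
  refine ⟨f + p, ?_, ρ, ε / 2, h0, by nlinarith, by nlinarith, fun x y hxy hx hy => ?_⟩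
  · rw [Metric.mem_ball, dist_eq_norm, add_sub_cancel_left]
    refine lt_of_le_of_lt ((ContinuousMap.norm_le _ (by linarith : 0 ≤ ε / 2)).mpr fun x => ?_)
      (by linarith)
    show |ε / 2 * Real.cos (x.1 i / ρ)| ≤ ε / 2
    rw [abs_mul, abs_of_pos (by linarith)]
    exact mul_le_of_le_one_right (by linarith) (Real.abs_cos_le_one _)
  · have := hf (a := x) (b := y) (by nlinarith)
    rw [Real.dist_eq, abs_lt] at this
    show ε / 2 ≤ f x + ε / 2 * Real.cos (x.1 i / ρ) - (f y + ε / 2 * Real.cos (y.1 i / ρ))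
    rw [hx, hy]
    linarith [this.1]

theorem not_diff (X : Set (EuclideanSpace ℝ (Fin d))) (f : C(X, ℝ)) (hf : ∀ i n, f ∈ G X i n)
    (F : EuclideanSpace ℝ (Fin d) → ℝ) (hF : ∀ x : X, F x = f x) (I : Set ℝ) (hI : I.OrdConnected)
    (hI2 : I.Nontrivial) (c : ℝ → EuclideanSpace ℝ (Fin d)) (hc : ContinuousOn c I)
    (hX : MapsTo c I X) (t0 : ℝ) (ht0 : t0 ∈ I) (v : EuclideanSpace ℝ (Fin d))
    (hv : HasDerivWithinAt c v I t0) (hv0 : v ≠ 0) : ¬ DifferentiableWithinAt ℝ (F ∘ c) I t0 := by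
  intro hd
  obtain ⟨i, hi⟩ : ∃ i, v i ≠ 0 := by
    by_contra h
    push Not at h
    exact hv0 (by ext i; simpa using h i)
  obtain ⟨t1, ht1, hne⟩ := hI2.exists_ne t0
  set D := derivWithin (F ∘ c) I t0
  set a := |v i| / 2 with ha
  have ha0 : 0 < a := by have := abs_pos.mpr hi; positivity
  have e1 := (hasDerivWithinAt_iff_isLittleO.mp hv).bound ha0
  have e2 := (hasDerivWithinAt_iff_isLittleO.mp hd.hasDerivWithinAt).bound one_pos
  obtain ⟨η, hη, hb⟩ := Metric.mem_nhdsWithin_iff.mp (e1.and e2)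
  set L := |t1 - t0| with hL
  have hL0 : 0 < L := abs_pos.mpr (sub_ne_zero.mpr hne)
  obtain ⟨n, hn⟩ := exists_nat_ge (14 * (‖v‖ + a) / a + 14 * (|D| + 1) / a + 7 / (a * η) + 7 / (a * L))
  have p1 : 0 ≤ 14 * (‖v‖ + a) / a := by positivity
  have p2 : 0 ≤ 14 * (|D| + 1) / a := by positivity
  have p3 : 0 ≤ 7 / (a * η) := by positivity
  have p4 : 0 ≤ 7 / (a * L) := by positivity
  obtain ⟨ρ, m, h0, h1, h2, h3⟩ := hf i n
  set h := 7 * ρ / a with hh
  have hh0 : 0 < h := by positivity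
  have hlt : ∀ w : ℝ, 0 < w → 7 / (a * w) ≤ n → h < w := by
    intro w hw hw2
    rw [div_le_iff₀ (by positivity)] at hw2
    rw [hh, div_lt_iff₀ ha0]
    have : 0 < a * w := by positivity
    nlinarith [mul_le_mul_of_nonneg_left hw2 h0.le]
  have hη2 := hlt η hη (by linarith)
  have hL2 := hlt L hL0 (by linarith)
  obtain ⟨t2, ht2, ht3⟩ : ∃ t2 ∈ uIcc t0 t1, |t2 - t0| = h := by
    rcases le_total t0 t1 with q | q
    · rw [hL, abs_of_nonneg (by linarith)] at hL2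
      exact ⟨t0 + h, by rw [uIcc_of_le q]; constructor <;> linarith, by simp [abs_of_pos hh0]⟩
    · rw [hL, abs_of_nonpos (by linarith)] at hL2
      exact ⟨t0 - h, by rw [uIcc_of_ge q]; constructor <;> linarith, by simp [abs_of_pos hh0]⟩
  have ht2I : t2 ∈ I := hI.uIcc_subset ht0 ht1 ht2
  have hsub : uIcc t0 t2 ⊆ I := hI.uIcc_subset ht0 ht2I
  have hnear : ∀ s ∈ uIcc t0 t2, |s - t0| ≤ h := fun s hs => ht3 ▸ abs_sub_left_of_mem_uIcc hs
  have hb2 : ∀ s ∈ uIcc t0 t2, ‖c s - c t0 - (s - t0) • v‖ ≤ a * |s - t0| ∧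
      |F (c s) - F (c t0) - (s - t0) * D| ≤ |s - t0| := by
    intro s hs
    have := hb ⟨show s ∈ Metric.ball t0 η from lt_of_le_of_lt (hnear s hs) hη2, hsub hs⟩
    simpa using this
  have hmove : 7 * ρ ≤ |c t2 i - c t0 i| := by
    have q1 := (hb2 t2 right_mem_uIcc).1
    have q2 := PiLp.norm_apply_le (c t2 - c t0 - (t2 - t0) • v) i
    simp only [PiLp.sub_apply, PiLp.smul_apply, smul_eq_mul, Real.norm_eq_abs] at q2
    have q3 := abs_sub_abs_le_abs_sub ((t2 - t0) * v i) (c t2 i - c t0 i)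
    rw [abs_sub_comm ((t2 - t0) * v i), abs_mul] at q3
    rw [ht3] at q1 q3
    have : h * a = 7 * ρ := by rw [hh]; field_simp
    have : |v i| = 2 * a := by rw [ha]; ring
    nlinarith
  have hci : ContinuousOn (fun s => c s i) (uIcc t0 t2) := by
    have := hc.mono hsub
    fun_prop
  obtain ⟨u1, hu1, hu2⟩ := hit h0 _ _ 0 hmove
  obtain ⟨w1, hw1, hw2⟩ := hit h0 _ _ Real.pi hmove
  obtain ⟨s1, hs1, rfl⟩ := intermediate_value_uIcc hci hu1
  obtain ⟨s2, hs2, rfl⟩ := intermediate_value_uIcc hci hw1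
  have hcs : ∀ s ∈ uIcc t0 t2, ‖c s - c t0‖ ≤ (‖v‖ + a) * h := by
    intro s hs
    have q1 := (hb2 s hs).1
    have q2 := norm_add_le (c s - c t0 - (s - t0) • v) ((s - t0) • v)
    rw [sub_add_cancel, norm_smul, Real.norm_eq_abs] at q2
    have := hnear s hs
    nlinarith [norm_nonneg v]
  have hFs : ∀ s ∈ uIcc t0 t2, |F (c s) - F (c t0)| ≤ (|D| + 1) * h := by
    intro s hs
    have q1 := (hb2 s hs).2
    have q2 := abs_add_le (F (c s) - F (c t0) - (s - t0) * D) ((s - t0) * D)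
    rw [sub_add_cancel, abs_mul] at q2
    have := hnear s hs
    nlinarith [abs_nonneg D]
  have key := h3 ⟨c s1, hX (hsub hs1)⟩ ⟨c s2, hX (hsub hs2)⟩ ?_ (by simpa using hu2) (by simpa using hw2)
  · rw [← hF, ← hF] at key
    have q1 := abs_le.mp (hFs s1 hs1)
    have q2 := abs_le.mp (hFs s2 hs2)
    have : 2 * ((|D| + 1) * h) = 14 * (|D| + 1) / a * ρ := by rw [hh]; field_simp; ring
    simp only at key
    nlinarith [q1.2, q2.1]
  · rw [Subtype.dist_eq, dist_eq_norm]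
    have q := norm_sub_le (c s1 - c t0) (c s2 - c t0)
    rw [sub_sub_sub_cancel_right] at q
    have : 2 * ((‖v‖ + a) * h) = 14 * (‖v‖ + a) / a * ρ := by rw [hh]; field_simp; ring
    simp only
    nlinarith [hcs s1 hs1, hcs s2 hs2]

theorem gdelta (X : Set (EuclideanSpace ℝ (Fin d))) [CompactSpace X] :
    IsGδ (⋂ p : Fin d × ℕ, G X p.1 p.2) ∧ Dense (⋂ p : Fin d × ℕ, G X p.1 p.2) :=
  ⟨IsGδ.iInter fun p => (G_open X p.1 p.2).isGδ,
    dense_iInter_of_isOpen (fun p => G_open X p.1 p.2) fun p => G_dense X p.1 p.2⟩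

end Pool.Agent.H96.NoDiff
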