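import Mathlib

namespace Pool.Agent.H96.OD
open Set

noncomputable section

def EE (s t : ℝ) : ℝ := -8 * (4 * t - s) + 4 * (8 * t ^ 2 - 12 * t * s + s ^ 2)
def OO (s t : ℝ) : ℝ := 8 - 12 * (4 * t - 3 * s) + (8 * t ^ 2 - 20 * t * s + 5 * s ^ 2)
def GG (s t : ℝ) : ℝ := s * (EE s t ^ 2 + t * OO s t ^ 2)
def PP (x y z : ℝ) : ℝ := x * EE (x ^ 2 + y ^ 2) (z ^ 2) - y * z * OO (x ^ 2 + y ^ 2) (z ^ 2)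
def QQ (x y z : ℝ) : ℝ := y * EE (x ^ 2 + y ^ 2) (z ^ 2) + x * z * OO (x ^ 2 + y ^ 2) (z ^ 2)

def DD (s t : ℝ) : ℝ := (64)*s^0*t^1 + (256)*s^0*t^2 + (384)*s^0*t^3 + (256)*s^0*t^4 + (64)*s^0*t^5 + (128)*s^1*t^1 + (-384)*s^1*t^2 + (-1152)*s^1*t^3 + (-640)*s^1*t^4 + (192)*s^2*t^0 + (1056)*s^2*t^1 + (1920)*s^2*t^2 + (1440)*s^2*t^3 + (256)*s^3*t^0 + (-96)*s^3*t^1 + (-800)*s^3*t^2 + (80)*s^4*t^0 + (125)*s^4*t^1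

lemma cert1 (s a t b : ℝ) (hs : 0 ≤ s) (ha : 0 ≤ a) (ht : 0 ≤ t) (hb : 0 ≤ b) :
    0 ≤ (64)*s^0*a^4*t^1*b^4 + (512)*s^0*a^4*t^2*b^3 + (1536)*s^0*a^4*t^3*b^2 + (2048)*s^0*a^4*t^4*b^1 + (1024)*s^0*a^4*t^5*b^0 + (384)*s^1*a^3*t^1*b^4 + (2176)*s^1*a^3*t^2*b^3 + (4608)*s^1*a^3*t^3*b^2 + (4608)*s^1*a^3*t^4*b^1 + (2048)*s^1*a^3*t^5*b^0 + (191)*s^2*a^2*t^0*b^5 + (2779)*s^2*a^2*t^1*b^4 + (11510)*s^2*a^2*t^2*b^3 + (20054)*s^2*a^2*t^3*b^2 + (15355)*s^2*a^2*t^4*b^1 + (4607)*s^2*a^2*t^5*b^0 + (638)*s^3*a^1*t^0*b^5 + (5846)*s^3*a^1*t^1*b^4 + (19916)*s^3*a^1*t^2*b^3 + (32012)*s^3*a^1*t^3*b^2 + (23574)*s^3*a^1*t^4*b^1 + (6526)*s^3*a^1*t^5*b^0 + (527)*s^4*a^0*t^0*b^5 + (3912)*s^4*a^0*t^1*b^4 + (11370)*s^4*a^0*t^2*b^3 + (16580)*s^4*a^0*t^3*b^2 + (11679)*s^4*a^0*t^4*b^1 + (3148)*s^4*a^0*t^5*b^0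 := by positivity

lemma DD_ge (s t : ℝ) (hs : 0 ≤ s) (hs1 : s ≤ 1) (ht : 0 ≤ t) (ht1 : t ≤ 1) : s ^ 2 ≤ DD s t := by
  have h := cert1 s (1 - s) t (1 - t) hs (by linarith) ht (by linarith)
  have : DD s t - s ^ 2 = (64)*s^0*(1-s)^4*t^1*(1-t)^4 + (512)*s^0*(1-s)^4*t^2*(1-t)^3 + (1536)*s^0*(1-s)^4*t^3*(1-t)^2 + (2048)*s^0*(1-s)^4*t^4*(1-t)^1 + (1024)*s^0*(1-s)^4*t^5*(1-t)^0 + (384)*s^1*(1-s)^3*t^1*(1-t)^4 + (2176)*s^1*(1-s)^3*t^2*(1-t)^3 + (4608)*s^1*(1-s)^3*t^3*(1-t)^2 + (4608)*s^1*(1-s)^3*t^4*(1-t)^1 + (2048)*s^1*(1-s)^3*t^5*(1-t)^0 + (191)*s^2*(1-s)^2*t^0*(1-t)^5 + (2779)*s^2*(1-s)^2*t^1*(1-t)^4 + (11510)*s^2*(1-s)^2*t^2*(1-t)^3 + (20054)*s^2*(1-s)^2*t^3*(1-t)^2 + (15355)*s^2*(1-s)^2*t^4*(1-t)^1 + (4607)*s^2*(1-s)^2*t^5*(1-t)^0 + (638)*s^3*(1-s)^1*t^0*(1-t)^5 + (5846)*s^3*(1-s)^1*t^1*(1-t)^4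 + (19916)*s^3*(1-s)^1*t^2*(1-t)^3 + (32012)*s^3*(1-s)^1*t^3*(1-t)^2 + (23574)*s^3*(1-s)^1*t^4*(1-t)^1 + (6526)*s^3*(1-s)^1*t^5*(1-t)^0 + (527)*s^4*(1-s)^0*t^0*(1-t)^5 + (3912)*s^4*(1-s)^0*t^1*(1-t)^4 + (11370)*s^4*(1-s)^0*t^2*(1-t)^3 + (16580)*s^4*(1-s)^0*t^3*(1-t)^2 + (11679)*s^4*(1-s)^0*t^4*(1-t)^1 + (3148)*s^4*(1-s)^0*t^5*(1-t)^0 := by
    unfold DD; ring
  linarith

lemma p5 (c0 c1 c2 c3 c4 c5 x : ℝ) :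
    HasDerivAt (fun τ : ℝ => c0 + c1 * τ + c2 * τ ^ 2 + c3 * τ ^ 3 + c4 * τ ^ 4 + c5 * τ ^ 5)
      (c1 + 2 * c2 * x + 3 * c3 * x ^ 2 + 4 * c4 * x ^ 3 + 5 * c5 * x ^ 4) x := by
  have h := (((((hasDerivAt_const x c0).add ((hasDerivAt_id x).const_mul c1)).add
    ((hasDerivAt_pow 2 x).const_mul c2)).add ((hasDerivAt_pow 3 x).const_mul c3)).add
    ((hasDerivAt_pow 4 x).const_mul c4)).add ((hasDerivAt_pow 5 x).const_mul c5)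
  refine (h.congr_deriv ?_).congr_of_eventuallyEq (Filter.Eventually.of_forall fun τ => ?_)
  · simp; ring
  · simp

lemma d2 (g : ℝ → ℝ) (c0 c1 c2 c3 c4 c5 : ℝ)
    (h : ∀ τ, g τ = c0 + c1 * τ + c2 * τ ^ 2 + c3 * τ ^ 3 + c4 * τ ^ 4 + c5 * τ ^ 5) :
    iteratedDeriv 2 g 0 = 2 * c2 := by
  have hg : g = fun τ => c0 + c1 * τ + c2 * τ ^ 2 + c3 * τ ^ 3 + c4 * τ ^ 4 + c5 * τ ^ 5 := funext h
  have h1 : deriv g = fun x => c1 + (2 * c2) * x + (3 * c3) * x ^ 2 + (4 * c4) * x ^ 3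
      + (5 * c5) * x ^ 4 + 0 * x ^ 5 := by
    funext x; rw [hg, (p5 c0 c1 c2 c3 c4 c5 x).deriv]; ring
  rw [iteratedDeriv_succ, iteratedDeriv_one, h1, (p5 _ _ _ _ _ _ 0).deriv]; ring

lemma dir0 (K c x y z : ℝ) : iteratedDeriv 2 (fun τ => K + c * PP (x + τ) y z) 0 =
    2 * (c * ((-36)*x^0*y^1*z^1 + (20)*x^0*y^1*z^3 + (-10)*x^0*y^3*z^1 + (24)*x^1*y^0*z^0 + (-144)*x^1*y^0*z^2 + (24)*x^1*y^2*z^0 + (-30)*x^2*y^1*z^1 + (40)*x^3*y^0*z^0)) := by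
  apply d2 _ (K + c * PP x y z) (c * ((-32)*x^0*y^0*z^2 + (32)*x^0*y^0*z^4 + (8)*x^0*y^2*z^0 + (-48)*x^0*y^2*z^2 + (4)*x^0*y^4*z^0 + (-72)*x^1*y^1*z^1 + (40)*x^1*y^1*z^3 + (-20)*x^1*y^3*z^1 + (24)*x^2*y^0*z^0 + (-144)*x^2*y^0*z^2 + (24)*x^2*y^2*z^0 + (-20)*x^3*y^1*z^1 + (20)*x^4*y^0*z^0)) _ (c * ((8)*x^0*y^0*z^0 + (-48)*x^0*y^0*z^2 + (8)*x^0*y^2*z^0 + (-20)*x^1*y^1*z^1 + (40)*x^2*y^0*z^0)) (c * ((-5)*x^0*y^1*z^1 + (20)*x^1*y^0*z^0)) (c * ((4)*x^0*y^0*z^0))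
  intro τ; unfold PP EE OO; ring

lemma dir1 (K c x y z : ℝ) : iteratedDeriv 2 (fun τ => K + c * PP x (y + τ) z) 0 =
    2 * (c * ((-108)*x^0*y^1*z^1 + (60)*x^0*y^1*z^3 + (-50)*x^0*y^3*z^1 + (8)*x^1*y^0*z^0 + (-48)*x^1*y^0*z^2 + (24)*x^1*y^2*z^0 + (-30)*x^2*y^1*z^1 + (8)*x^3*y^0*z^0)) := by
  apply d2 _ (K + c * PP x y z) (c * ((-8)*x^0*y^0*z^1 + (48)*x^0*y^0*z^3 + (-8)*x^0*y^0*z^5 + (-108)*x^0*y^2*z^1 + (60)*x^0*y^2*z^3 + (-25)*x^0*y^4*z^1 + (16)*x^1*y^1*z^0 + (-96)*x^1*y^1*z^2 + (16)*x^1*y^3*z^0 + (-36)*x^2*y^0*z^1 + (20)*x^2*y^0*z^3 + (-30)*x^2*y^2*z^1 + (16)*x^3*y^1*z^0 + (-5)*x^4*y^0*z^1)) _ (c * ((-36)*x^0*y^0*z^1 + (20)*x^0*y^0*z^3 + (-50)*x^0*y^2*z^1 + (16)*x^1*y^1*z^0 + (-10)*x^2*y^0*z^1)) (c * ((-25)*x^0*y^1*z^1 + (4)*x^1*y^0*z^0)) (c * ((-5)*x^0*y^0*z^1))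
  intro τ; unfold PP EE OO; ring

lemma dir2 (K c x y z : ℝ) : iteratedDeriv 2 (fun τ => K + c * PP x y (z + τ)) 0 =
    2 * (c * ((144)*x^0*y^1*z^1 + (-80)*x^0*y^1*z^3 + (60)*x^0*y^3*z^1 + (-32)*x^1*y^0*z^0 + (192)*x^1*y^0*z^2 + (-48)*x^1*y^2*z^0 + (60)*x^2*y^1*z^1 + (-48)*x^3*y^0*z^0)) := by
  apply d2 _ (K + c * PP x y z) (c * ((-8)*x^0*y^1*z^0 + (144)*x^0*y^1*z^2 + (-40)*x^0*y^1*z^4 + (-36)*x^0*y^3*z^0 + (60)*x^0*y^3*z^2 + (-5)*x^0*y^5*z^0 + (-64)*x^1*y^0*z^1 + (128)*x^1*y^0*z^3 + (-96)*x^1*y^2*z^1 + (-36)*x^2*y^1*z^0 + (60)*x^2*y^1*z^2 + (-10)*x^2*y^3*z^0 + (-96)*x^3*y^0*z^1 + (-5)*x^4*y^1*z^0)) _ (c * ((48)*x^0*y^1*z^0 + (-80)*x^0*y^1*z^2 + (20)*x^0*y^3*z^0 + (128)*x^1*y^0*z^1 + (20)*x^2*y^1*z^0)) (c * ((-40)*x^0*y^1*z^1 + (32)*x^1*y^0*z^0)) (c * ((-8)*x^0*y^1*z^0))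
  intro τ; unfold PP EE OO; ring

lemma harm (K c x y z : ℝ) : iteratedDeriv 2 (fun τ => K + c * PP (x + τ) y z) 0 +
    iteratedDeriv 2 (fun τ => K + c * PP x (y + τ) z) 0 +
    iteratedDeriv 2 (fun τ => K + c * PP x y (z + τ)) 0 = 0 := by
  rw [dir0, dir1, dir2]; ring

lemma GG_deriv (s t : ℝ) : HasDerivAt (fun s => GG s t) (DD s t) s := by
  have h := p5 0 (64 * t + 256 * t ^ 2 + 384 * t ^ 3 + 256 * t ^ 4 + 64 * t ^ 5)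
    (64 * t - 192 * t ^ 2 - 576 * t ^ 3 - 320 * t ^ 4) (64 + 352 * t + 640 * t ^ 2 + 480 * t ^ 3)
    (64 - 24 * t - 200 * t ^ 2) (16 + 25 * t) s
  convert h using 1
  · funext s; unfold GG EE OO; ring
  · unfold DD; ring

lemma GG_mono (t : ℝ) (ht : 0 ≤ t) (ht1 : t ≤ 1) : StrictMonoOn (fun s => GG s t) (Icc 0 1) := by
  apply strictMonoOn_of_deriv_pos (convex_Icc 0 1)
  · exact fun s _ => (GG_deriv s t).continuousAt.continuousWithinAt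
  · intro s hs
    rw [interior_Icc] at hs
    rw [(GG_deriv s t).deriv]
    have := DD_ge s t hs.1.le hs.2.le ht ht1
    have : 0 < s ^ 2 := pow_pos hs.1 2
    linarith

def qq (t : ℝ) : ℝ := 47 + 37 * t - 42 * t ^ 2 + 570 * t ^ 3 - 1557 * t ^ 4 + 1089 * t ^ 5

lemma GG_bd (t : ℝ) : GG (1 - t) t = 144 - t * qq t := by unfold GG EE OO qq; ring

lemma cert2 (a b c0 c1 c2 c3 c4 c5 : ℝ) (ha : 0 ≤ a) (hb : 0 ≤ b) (h0 : 0 ≤ c0) (h1 : 0 ≤ c1)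
    (h2 : 0 ≤ c2) (h3 : 0 ≤ c3) (h4 : 0 ≤ c4) (h5 : 0 ≤ c5) :
    0 ≤ c0 * b ^ 5 + c1 * a * b ^ 4 + c2 * a ^ 2 * b ^ 3 + c3 * a ^ 3 * b ^ 2 + c4 * a ^ 4 * b
      + c5 * a ^ 5 := by positivity

lemma dr_pos (t : ℝ) (ht : 0 ≤ t) (ht1 : t ≤ 1) :
    1 ≤ 47 + 74 * t - 126 * t ^ 2 + 2280 * t ^ 3 - 7785 * t ^ 4 + 6534 * t ^ 5 := by
  rcases le_total t (1 / 2) with h | h
  · have := cert2 (2 * t) (1 - 2 * t) 46 267 (1153 / 2) (1745 / 2) (5871 / 16) (433 / 8)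
      (by linarith) (by linarith) (by norm_num) (by norm_num) (by norm_num) (by norm_num)
      (by norm_num) (by norm_num)
    nlinarith
  · have := cert2 (2 * t - 1) (2 - 2 * t) (433 / 8) (2789 / 16) 102 182 1019 1023
      (by linarith) (by linarith) (by norm_num) (by norm_num) (by norm_num) (by norm_num)
      (by norm_num) (by norm_num)
    nlinarith

lemma tq_deriv (t : ℝ) : HasDerivAt (fun t => t * qq t)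
    (47 + 74 * t - 126 * t ^ 2 + 2280 * t ^ 3 - 7785 * t ^ 4 + 6534 * t ^ 5) t := by
  have h := (hasDerivAt_id t).mul (p5 47 37 (-42) 570 (-1557) 1089 t)
  refine (h.congr_deriv ?_).congr_of_eventuallyEq (Filter.Eventually.of_forall fun τ => ?_)
  · simp; ring
  · simp only [qq, Pi.mul_apply, id]; ring

lemma tq_mono : StrictMonoOn (fun t => t * qq t) (Icc 0 1) := by
  apply strictMonoOn_of_deriv_pos (convex_Icc 0 1)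
  · exact fun s _ => (tq_deriv s).continuousAt.continuousWithinAt
  · intro s hs
    rw [interior_Icc] at hs
    rw [(tq_deriv s).deriv]
    have := dr_pos s hs.1.le hs.2.le
    linarith

lemma qq_pos (t : ℝ) (ht : 0 ≤ t) (ht1 : t ≤ 1) : 0 < qq t := by
  rcases ht.eq_or_lt with h | h
  · subst h; unfold qq; norm_num
  · have := tq_mono (a := 0) ⟨le_rfl, zero_le_one⟩ ⟨ht, ht1⟩ h
    simp only [zero_mul] at this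
    exact (mul_pos_iff_of_pos_left h).1 this

end
end Pool.Agent.H96.OD
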