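import Pool.Agent.H96.OD1

namespace Pool.Agent.H96.OD
open Set Metric

noncomputable section

abbrev E3 := EuclideanSpace ℝ (Fin 3)

def hh (z : ℝ) : ℝ := z * Real.sqrt (qq (z ^ 2) / 144)

lemma hh_cont : Continuous hh := by unfold hh qq; fun_prop

lemma hh_sq (z : ℝ) (hz : z ^ 2 ≤ 1) : hh z ^ 2 = z ^ 2 * qq (z ^ 2) / 144 := by
  have := qq_pos (z ^ 2) (sq_nonneg z) hz
  unfold hh; rw [mul_pow, Real.sq_sqrt (by positivity)]; ring

lemma hh_inj (z w : ℝ) (hz : z ^ 2 ≤ 1) (hw : w ^ 2 ≤ 1) (h : hh z = hh w) : z = w := by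
  have h1 : z ^ 2 * qq (z ^ 2) = w ^ 2 * qq (w ^ 2) := by
    have := hh_sq z hz; have := hh_sq w hw; rw [h] at *; linarith
  have h2 : z ^ 2 = w ^ 2 := tq_mono.injOn ⟨sq_nonneg z, hz⟩ ⟨sq_nonneg w, hw⟩ h1
  unfold hh at h
  rw [h2] at h
  have := qq_pos (w ^ 2) (sq_nonneg w) hw
  exact mul_right_cancel₀ (Real.sqrt_pos.2 (by positivity)).ne' h

lemma PQ (x y z : ℝ) : PP x y z ^ 2 + QQ x y z ^ 2 = GG (x ^ 2 + y ^ 2) (z ^ 2) := by
  unfold PP QQ GG; ring

def Phi (p : E3) : E3 :=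
  !₂[PP (p 0) (p 1) (p 2) / 12, QQ (p 0) (p 1) (p 2) / 12, hh (p 2)]

lemma Phi_cont : Continuous Phi := by
  have := hh_cont
  unfold Phi
  refine (PiLp.continuous_toLp 2 _).comp (continuous_pi fun i => ?_)
  fin_cases i
  · simp only [PP, EE, OO]; simp; fun_prop
  · simp only [QQ, EE, OO]; simp; fun_prop
  · simp; fun_prop

lemma mem_iff (p : E3) : p ∈ closedBall (0 : E3) 1 ↔ p 0 ^ 2 + p 1 ^ 2 + p 2 ^ 2 ≤ 1 := by
  rw [mem_closedBall_zero_iff, EuclideanSpace.norm_eq, Real.sqrt_le_one, Fin.sum_univ_three]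
  simp

lemma Phi_maps (p : E3) (hp : p ∈ closedBall (0 : E3) 1) : Phi p ∈ closedBall (0 : E3) 1 := by
  rw [mem_iff] at *
  have h0 := sq_nonneg (p 0); have h1 := sq_nonneg (p 1); have h2 := sq_nonneg (p 2)
  have e1 := PQ (p 0) (p 1) (p 2)
  have e2 := hh_sq (p 2) (by linarith)
  have e3 := GG_bd (p 2 ^ 2)
  have e4 := (GG_mono (p 2 ^ 2) h2 (by linarith)).monotoneOn (a := p 0 ^ 2 + p 1 ^ 2)
    (b := 1 - p 2 ^ 2) ⟨by linarith, by linarith⟩ ⟨by linarith, by linarith⟩ (by linarith)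
  simp only [Phi] at *
  simp
  nlinarith

lemma GG_zero (t : ℝ) : GG 0 t = 0 := by simp [GG]

lemma Phi_inj (p r : E3) (hp : p ∈ closedBall (0 : E3) 1) (hr : r ∈ closedBall (0 : E3) 1)
    (h : Phi p = Phi r) : p = r := by
  rw [mem_iff] at *
  have h0 := sq_nonneg (p 0); have h1 := sq_nonneg (p 1); have h2 := sq_nonneg (p 2)
  have k0 := sq_nonneg (r 0); have k1 := sq_nonneg (r 1); have k2 := sq_nonneg (r 2)
  have a0 : PP (p 0) (p 1) (p 2) = PP (r 0) (r 1) (r 2) := by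
    have := congrArg (fun v : E3 => v 0) h; simp [Phi] at this; exact this
  have a1 : QQ (p 0) (p 1) (p 2) = QQ (r 0) (r 1) (r 2) := by
    have := congrArg (fun v : E3 => v 1) h; simp [Phi] at this; exact this
  have a2 : p 2 = r 2 := by
    have := congrArg (fun v : E3 => v 2) h; simp [Phi] at this
    exact hh_inj _ _ (by linarith) (by linarith) this
  have e1 := PQ (p 0) (p 1) (p 2)
  have e2 := PQ (r 0) (r 1) (r 2)
  rw [a0, a1, e2, a2] at e1
  rw [a2] at a0 a1 hp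
  have hm := GG_mono (r 2 ^ 2) k2 (by linarith)
  have hs : r 0 ^ 2 + r 1 ^ 2 = p 0 ^ 2 + p 1 ^ 2 :=
    hm.injOn ⟨by linarith, by linarith⟩ ⟨by linarith, by linarith⟩ e1
  have key : p 0 = r 0 ∧ p 1 = r 1 := by
    rcases (add_nonneg h0 h1).eq_or_lt with hz | hz
    · have : p 0 = 0 := by nlinarith
      have : p 1 = 0 := by nlinarith
      have : r 0 = 0 := by nlinarith
      have : r 1 = 0 := by nlinarith
      constructor <;> linarith
    · have hpos := hm (a := 0) ⟨le_rfl, zero_le_one⟩ ⟨hz.le, by linarith⟩ hz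
      simp only [GG_zero] at hpos
      unfold PP at a0; unfold QQ at a1
      rw [hs] at a0 a1
      unfold GG at hpos
      set e := EE (p 0 ^ 2 + p 1 ^ 2) (r 2 ^ 2)
      set o := OO (p 0 ^ 2 + p 1 ^ 2) (r 2 ^ 2)
      have hN : 0 < e ^ 2 + r 2 ^ 2 * o ^ 2 := (mul_pos_iff_of_pos_left hz).1 hpos
      constructor
      · have : (p 0 - r 0) * (e ^ 2 + r 2 ^ 2 * o ^ 2) = 0 := by
          linear_combination e * a0 + r 2 * o * a1
        rcases mul_eq_zero.1 this with h | h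
        · linarith
        · exact absurd h hN.ne'
      · have : (p 1 - r 1) * (e ^ 2 + r 2 ^ 2 * o ^ 2) = 0 := by
          linear_combination e * a1 - r 2 * o * a0
        rcases mul_eq_zero.1 this with h | h
        · linarith
        · exact absurd h hN.ne'
  ext i; fin_cases i
  · exact key.1
  · exact key.2
  · exact a2

lemma Phi_surj (w : E3) (hw : w ∈ closedBall (0 : E3) 1) :
    ∃ p ∈ closedBall (0 : E3) 1, Phi p = w := by
  rw [mem_iff] at hw
  have h0 := sq_nonneg (w 0); have h1 := sq_nonneg (w 1); have h2 := sq_nonneg (w 2)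
  have q1 : qq 1 / 144 = 1 := by unfold qq; norm_num
  have hm1 : hh (-1) = -1 := by unfold hh; simp [q1]
  have hp1 : hh 1 = 1 := by unfold hh; simp [q1]
  obtain ⟨z, hz, hzw⟩ : w 2 ∈ hh '' Icc (-1) 1 := by
    apply intermediate_value_Icc (by norm_num) hh_cont.continuousOn
    rw [hm1, hp1]; constructor <;> nlinarith
  have hz1 : z ^ 2 ≤ 1 := by nlinarith [hz.1, hz.2]
  have hz0 := sq_nonneg z
  have e2 := hh_sq z hz1
  have e3 := GG_bd (z ^ 2)
  rw [hzw] at e2
  obtain ⟨s, hs, hsw⟩ : 144 * (w 0 ^ 2 + w 1 ^ 2) ∈ (fun s => GG s (z ^ 2)) '' Icc 0 (1 - z ^ 2) := by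
    apply intermediate_value_Icc (by linarith)
      (fun s _ => (GG_deriv s _).continuousAt.continuousWithinAt)
    simp only [GG_zero]; constructor <;> nlinarith
  simp only at hsw
  rcases hs.1.eq_or_lt with hs0 | hs0
  · subst hs0
    rw [GG_zero] at hsw
    have w0 : w 0 = 0 := by nlinarith
    have w1 : w 1 = 0 := by nlinarith
    refine ⟨!₂[0, 0, z], by rw [mem_iff]; simpa using hz1, ?_⟩
    ext i; fin_cases i <;> simp [Phi, PP, QQ, w0, w1, hzw]
  · have hpos := GG_mono (z ^ 2) hz0 hz1 (a := 0) ⟨le_rfl, zero_le_one⟩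
      ⟨hs0.le, by linarith [hs.2]⟩ hs0
    simp only [GG_zero] at hpos
    unfold GG at hpos hsw
    set e := EE s (z ^ 2) with he
    set o := OO s (z ^ 2) with ho
    have hN : 0 < e ^ 2 + z ^ 2 * o ^ 2 := (mul_pos_iff_of_pos_left hs0).1 hpos
    set N := e ^ 2 + z ^ 2 * o ^ 2 with hNd
    set x := 12 * (w 0 * e + w 1 * z * o) / N with hx
    set y := 12 * (w 1 * e - w 0 * z * o) / N with hy
    have hxy : x ^ 2 + y ^ 2 = s := by
      rw [hx, hy]; field_simp
      linear_combination (-N) * hsw + (144 * (w 0 ^ 2 + w 1 ^ 2)) * (-hNd)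
    refine ⟨!₂[x, y, z], by rw [mem_iff]; simp; linarith [hs.2], ?_⟩
    ext i; fin_cases i
    · simp [Phi, PP, hxy, ← he, ← ho]
      rw [hx, hy]; field_simp; rw [hNd]; ring
    · simp [Phi, QQ, hxy, ← he, ← ho]
      rw [hx, hy]; field_simp; rw [hNd]; ring
    · simp [Phi, hzw]

lemma homeo : ∃ Φ : closedBall (0 : E3) 1 ≃ₜ closedBall (0 : E3) 1,
    ∀ p, (Φ p : E3) 0 = PP (p.1 0) (p.1 1) (p.1 2) / 12 := by
  let F : closedBall (0 : E3) 1 → closedBall (0 : E3) 1 := fun p => ⟨Phi p, Phi_maps p p.2⟩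
  have hF : Function.Bijective F := by
    constructor
    · intro p r h
      exact Subtype.ext (Phi_inj p r p.2 r.2 (congrArg Subtype.val h))
    · intro w
      obtain ⟨p, hp, h⟩ := Phi_surj w w.2
      exact ⟨⟨p, hp⟩, Subtype.ext h⟩
  have hc : Continuous (Equiv.ofBijective F hF) :=
    (Phi_cont.comp continuous_subtype_val).subtype_mk _
  exact ⟨hc.homeoOfEquivCompactToT2, fun p => by
    show (Phi p.1) 0 = _
    simp [Phi]⟩

lemma line2 (u : E3 → ℝ) (hu : ContDiff ℝ 2 u) (p v : E3) :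
    iteratedFDeriv ℝ 2 u p ![v, v] = iteratedDeriv 2 (fun τ : ℝ => u (p + τ • v)) 0 := by
  let L : ℝ →L[ℝ] E3 := ContinuousLinearMap.toSpanSingleton ℝ v
  have hg : ContDiff ℝ 2 (fun w => u (p + w)) := hu.comp (contDiff_const.add contDiff_id)
  have h := L.iteratedFDeriv_comp_right hg 0 (i := 2) le_rfl
  have e : (fun τ : ℝ => u (p + τ • v)) = (fun w => u (p + w)) ∘ L := by
    funext τ; simp [L]
  rw [iteratedDeriv, e, h, iteratedFDeriv_comp_add_left]
  simp only [map_zero, add_zero, ContinuousMultilinearMap.compContinuousLinearMap_apply]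
  congr 1
  funext i; fin_cases i <;> simp [L]

def uu (K : ℝ) (p : E3) : ℝ := K + 1 / 12 * PP (p 0) (p 1) (p 2)

lemma uu_smooth (K : ℝ) (n : WithTop ℕ∞) : ContDiff ℝ n (uu K) := by
  unfold uu PP EE OO; fun_prop

lemma uu_lap (K : ℝ) (p : E3) : Laplacian.laplacian (uu K) p = 0 := by
  rw [InnerProductSpace.laplacian_eq_iteratedFDeriv_orthonormalBasis _
    (EuclideanSpace.basisFun (Fin 3) ℝ)]
  simp only [Fin.sum_univ_three, line2 _ (uu_smooth K 2)]
  have := harm K (1 / 12) (p 0) (p 1) (p 2)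
  convert this using 4 <;> simp [uu]

lemma four (v : Fin 4 → E3) (h1 : ∀ i, 98 / 100 ≤ inner ℝ (v i) (v i))
    (h2 : ∀ i j, i ≠ j → |inner ℝ (v i) (v j)| ≤ 5 / 100) : False := by
  have hn : ¬ LinearIndependent ℝ v := by
    intro h
    have := h.fintype_card_le_finrank
    simp at this
  obtain ⟨c, hc, i0, hi0⟩ := Fintype.not_linearIndependent_iff.1 hn
  have h0 : inner ℝ (∑ i, c i • v i) (∑ i, c i • v i) = (0 : ℝ) := by rw [hc]; simp
  have hb : ∀ i j, i ≠ j → -(5 / 200) * (c i ^ 2 + c j ^ 2) ≤ c i * (c j * inner ℝ (v i) (v j)) := by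
    intro i j hij
    have := abs_le.1 (h2 i j hij)
    nlinarith [mul_nonneg (sq_nonneg (c i + c j)) (sub_nonneg.2 this.1),
      mul_nonneg (sq_nonneg (c i - c j)) (sub_nonneg.2 this.2)]
  have hd : ∀ i, 98 / 100 * c i ^ 2 ≤ c i * (c i * inner ℝ (v i) (v i)) := by
    intro i; nlinarith [mul_nonneg (sq_nonneg (c i)) (sub_nonneg.2 (h1 i))]
  simp only [Fin.sum_univ_four, inner_add_left, inner_add_right, inner_smul_left,
    inner_smul_right, RCLike.conj_to_real] at h0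
  have hs : 0 < ∑ i, c i ^ 2 :=
    Finset.sum_pos' (fun i _ => sq_nonneg _) ⟨i0, Finset.mem_univ _, by positivity⟩
  rw [Fin.sum_univ_four] at hs
  have := hb 0 1 (by decide); have := hb 0 2 (by decide); have := hb 0 3 (by decide)
  have := hb 1 0 (by decide); have := hb 1 2 (by decide); have := hb 1 3 (by decide)
  have := hb 2 0 (by decide); have := hb 2 1 (by decide); have := hb 2 3 (by decide)
  have := hb 3 0 (by decide); have := hb 3 1 (by decide); have := hb 3 2 (by decide)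
  have := hd 0; have := hd 1; have := hd 2; have := hd 3
  nlinarith

end
end Pool.Agent.H96.OD
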