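import Pool.Agent.H96.OD2

namespace Pool.Agent.H96.OD
open Set Metric Filter Topology

noncomputable section

lemma exV (f : ℝ → ℝ) (hf : Continuous f) (hf0 : ∀ s, 0 ≤ f s) (M K : ℝ) (hM : 0 ≤ M)
    (hfM : ∀ s, M ≤ |s| → f s = 0) (hK : K ≤ -M) :
    ∃ V : ℝ → ℝ, Differentiable ℝ V ∧ Differentiable ℝ (deriv V) ∧
      (∀ s, deriv (deriv V) s = f (V s)) ∧ ∀ s, K + s ≤ -M → V s = K + s := by
  let F : ℝ → ℝ := fun v => ∫ x in K..v, f x
  have hF : ∀ v, HasDerivAt F (f v) v := fun v => (hf.integral_hasStrictDerivAt K v).hasDerivAt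
  have hFm : Monotone F := monotone_of_deriv_nonneg (fun v => (hF v).differentiableAt)
    (fun v => by rw [(hF v).deriv]; exact hf0 v)
  have hF0 : ∀ v, v ≤ -M → F v = 0 := by
    intro v hv
    have : ∫ x in K..v, f x = ∫ _ in K..v, (0 : ℝ) := by
      apply intervalIntegral.integral_congr
      intro x hx
      have : x ≤ -M := le_trans hx.2 (max_le hK hv)
      exact hfM x (by rw [abs_of_nonpos (by linarith)]; linarith)
    simpa using this
  have hFn : ∀ v, 0 ≤ F v := by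
    intro v
    rcases le_total v (-M) with h | h
    · exact (hF0 v h).ge
    · exact (hF0 _ le_rfl).ge.trans (hFm h)
  have hFb : ∀ v, F v ≤ F M := by
    intro v
    rcases le_total v M with h | h
    · exact hFm h
    · have h1 : ∫ x in M..v, f x = ∫ _ in M..v, (0 : ℝ) := by
        apply intervalIntegral.integral_congr
        intro x hx
        have : M ≤ x := le_trans (le_min le_rfl h) hx.1
        exact hfM x (by rw [abs_of_nonneg (by linarith)]; linarith)
      have h2 := intervalIntegral.integral_add_adjacent_intervals (hf.intervalIntegrable (μ := MeasureTheory.volume) K M)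
        (hf.intervalIntegrable M v)
      simp only [F]
      rw [← h2, h1]; simp
  have hFc : Continuous F := continuous_iff_continuousAt.2 fun v => (hF v).continuousAt
  let g : ℝ → ℝ := fun v => (Real.sqrt (1 + 2 * F v))⁻¹
  have hsp : ∀ v, 0 < Real.sqrt (1 + 2 * F v) := fun v =>
    Real.sqrt_pos.2 (by linarith [hFn v])
  have hg : Continuous g := Continuous.inv₀ (by fun_prop) fun v => (hsp v).ne'
  let Γ : ℝ → ℝ := fun v => ∫ x in K..v, g x
  have hΓ : ∀ v, HasDerivAt Γ (g v) v := fun v => (hg.integral_hasStrictDerivAt K v).hasDerivAt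
  have hgc : ∀ v, g M ≤ g v := fun v =>
    inv_anti₀ (hsp v) (Real.sqrt_le_sqrt (by linarith [hFb v]))
  have hgM : 0 < g M := inv_pos.2 (hsp M)
  have hΓd : Differentiable ℝ Γ := fun v => (hΓ v).differentiableAt
  have hΓm : StrictMono Γ := strictMono_of_deriv_pos fun v => by
    rw [(hΓ v).deriv]; exact inv_pos.2 (hsp v)
  have hlin : ∀ x y, x ≤ y → g M * (y - x) ≤ Γ y - Γ x := fun x y hxy =>
    mul_sub_le_image_sub_of_le_deriv hΓd (fun v => by rw [(hΓ v).deriv]; exact hgc v) hxy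
  have hsurj : Function.Surjective Γ := by
    intro s
    have h1 := hlin 0 (|s - Γ 0| / g M) (by positivity)
    have h2 := hlin (-(|s - Γ 0| / g M)) 0 (by simp; positivity)
    rw [sub_zero, mul_div_cancel₀ _ hgM.ne'] at h1
    rw [zero_sub, neg_neg, mul_div_cancel₀ _ hgM.ne'] at h2
    have := le_abs_self (s - Γ 0); have := neg_abs_le (s - Γ 0)
    exact mem_range_of_exists_le_of_exists_ge hΓd.continuous 
      ⟨-(|s - Γ 0| / g M), by linarith⟩ ⟨|s - Γ 0| / g M, by linarith⟩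
  let e := hΓm.orderIsoOfSurjective Γ hsurj
  let V : ℝ → ℝ := e.symm
  have hVc : Continuous V := e.symm.continuous
  have hΓV : ∀ s, Γ (V s) = s := fun s => e.apply_symm_apply s
  have hV : ∀ s, HasDerivAt V (Real.sqrt (1 + 2 * F (V s))) s := by
    intro s
    have := HasDerivAt.of_local_left_inverse hVc.continuousAt (hΓ (V s))
      (inv_pos.2 (hsp _)).ne' (Eventually.of_forall hΓV)
    simpa [g] using this
  have hdV : deriv V = fun s => Real.sqrt (1 + 2 * F (V s)) := funext fun s => (hV s).deriv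
  have hV2 : ∀ s, HasDerivAt (deriv V) (f (V s)) s := by
    intro s
    rw [hdV]
    have h1 := ((((hF (V s)).comp s (hV s)).const_mul 2).const_add 1).sqrt
      (by simp only [Function.comp]; linarith [hFn (V s)])
    refine h1.congr_deriv ?_
    have := hsp (V s)
    simp only [Function.comp]; field_simp
  refine ⟨V, fun s => (hV s).differentiableAt, fun s => (hV2 s).differentiableAt,
    fun s => (hV2 s).deriv, fun s hs => ?_⟩
  apply hΓm.injective
  rw [hΓV]
  have : ∫ x in K..(K + s), g x = ∫ _ in K..(K + s), (1 : ℝ) := by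
    apply intervalIntegral.integral_congr
    intro x hx
    have : x ≤ -M := le_trans hx.2 (max_le hK hs)
    simp [g, hF0 x this]
  simp only [Γ]; rw [this]; simp

lemma loc_aff (V : ℝ → ℝ) (h1 : Differentiable ℝ V) (h2 : Differentiable ℝ (deriv V))
    (s0 η : ℝ) (hη : 0 < η) (h : ∀ s ∈ Ioo (s0 - η) (s0 + η), deriv (deriv V) s = 0) :
    ∀ s ∈ Ioo (s0 - η) (s0 + η), V s = V s0 + deriv V s0 * (s - s0) := by
  have hm : s0 ∈ Ioo (s0 - η) (s0 + η) := ⟨by linarith, by linarith⟩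
  have hc : ∀ s ∈ Ioo (s0 - η) (s0 + η), deriv V s = deriv V s0 := fun s hs =>
    isOpen_Ioo.is_const_of_deriv_eq_zero isPreconnected_Ioo h2.differentiableOn h hs hm
  intro s hs
  have hd : ∀ x, HasDerivAt (fun x => V x - deriv V s0 * x) (deriv V x - deriv V s0 * 1) x :=
    fun x => (h1 x).hasDerivAt.sub ((hasDerivAt_id x).const_mul _)
  have := isOpen_Ioo.is_const_of_deriv_eq_zero (f := fun x => V x - deriv V s0 * x)
    isPreconnected_Ioo (fun x _ => (hd x).differentiableAt.differentiableWithinAt)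
    (fun x hx => by rw [(hd x).deriv, hc x hx]; simp) hs hm
  linarith

lemma neg (K δ : ℝ) (hδ : 0 < δ) (V : ℝ → ℝ) (h1 : Differentiable ℝ V)
    (h2 : Differentiable ℝ (deriv V)) (h3 : ∀ s, V s < K + 1 → deriv (deriv V) s = 0)
    (a : E3) (ha : ‖a‖ = 1) (Φ : E3 → E3)
    (hΦ : ∀ x ∈ ball (0 : E3) δ, ∀ y ∈ ball (0 : E3) δ,
      99 / 100 * ‖x - y‖ ≤ ‖Φ x - Φ y‖ ∧ ‖Φ x - Φ y‖ ≤ 101 / 100 * ‖x - y‖)
    (hu : ∀ x ∈ ball (0 : E3) δ, uu K x = V (inner ℝ (Φ x) a)) : False := by
  set s0 : ℝ := inner ℝ (Φ 0) a with hs0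
  have h0 : (0 : E3) ∈ ball (0 : E3) δ := mem_ball_self hδ
  have hV0 : V s0 = K := by rw [← hu 0 h0]; simp [uu, PP]
  obtain ⟨η, hη, hη'⟩ : ∃ η > 0, ∀ s, dist s s0 < η → V s < K + 1 := by
    have : ∀ᶠ s in 𝓝 s0, V s < K + 1 :=
      h1.continuous.continuousAt.eventually_lt continuousAt_const (by linarith)
    exact Metric.eventually_nhds_iff.1 this
  have haff := loc_aff V h1 h2 s0 η hη fun s hs => h3 s (hη' s (by
    rw [Real.dist_eq, abs_lt]; constructor <;> linarith [hs.1, hs.2]))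
  set α := deriv V s0
  have key : ∀ x : E3, ‖x‖ < δ → ‖x‖ < η / 2 →
      1 / 12 * PP (x 0) (x 1) (x 2) = α * inner ℝ (Φ x - Φ 0) a := by
    intro x hx hx'
    have hxb : x ∈ ball (0 : E3) δ := mem_ball_zero_iff.2 hx
    have e1 := (hΦ x hxb 0 h0).2
    have e2 : |inner ℝ (Φ x - Φ 0) a| ≤ ‖Φ x - Φ 0‖ * ‖a‖ := abs_real_inner_le_norm _ _
    rw [ha, mul_one] at e2
    rw [sub_zero] at e1
    rw [inner_sub_left] at e2 ⊢
    have e3 := abs_le.1 e2
    have := norm_nonneg x
    have e4 := haff (inner ℝ (Φ x) a) ⟨by linarith [e3.1], by linarith [e3.2]⟩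
    have e5 := hu x hxb
    rw [e4, hV0] at e5
    unfold uu at e5
    linarith
  let b : Fin 3 → ℝ → E3 := fun i r => EuclideanSpace.single i r
  have hb : ∀ i r, 0 < r → ‖b i r‖ = r := fun i r hr => by simp [b, abs_of_pos hr]
  have hP0 : ∀ r, PP (b 0 r 0) (b 0 r 1) (b 0 r 2) = r ^ 3 * (8 + 4 * r ^ 2) := fun r => by
    simp [b, PP, EE]; ring
  have hP1 : ∀ r, PP (b 1 r 0) (b 1 r 1) (b 1 r 2) = 0 := fun r => by simp [b, PP]
  have hP2 : ∀ r, PP (b 2 r 0) (b 2 r 1) (b 2 r 2) = 0 := fun r => by simp [b, PP]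
  have hα : α ≠ 0 := by
    intro h
    have hr : 0 < min δ (η / 2) / 2 := by positivity
    have := key (b 0 _) (by rw [hb _ _ hr]; linarith [min_le_left δ (η / 2)])
      (by rw [hb _ _ hr]; linarith [min_le_right δ (η / 2)])
    rw [h, hP0] at this
    have : 0 < (min δ (η / 2) / 2) ^ 3 * (8 + 4 * (min δ (η / 2) / 2) ^ 2) := by positivity
    linarith
  have hαp : 0 < |α| := abs_pos.2 hα
  obtain ⟨r, hr, r1, r2, r3, r4⟩ : ∃ r : ℝ, 0 < r ∧ r < δ ∧ r < η / 2 ∧ r ≤ 1 ∧ r ≤ |α| / 100 := by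
    have hm : 0 < min (min δ (η / 2)) (min 1 (|α| / 100)) := by positivity
    refine ⟨min (min δ (η / 2)) (min 1 (|α| / 100)) / 2, by positivity, ?_, ?_, ?_, ?_⟩
    · linarith [min_le_left (min δ (η / 2)) (min 1 (|α| / 100)), min_le_left δ (η / 2)]
    · linarith [min_le_left (min δ (η / 2)) (min 1 (|α| / 100)), min_le_right δ (η / 2)]
    · linarith [min_le_right (min δ (η / 2)) (min 1 (|α| / 100)), min_le_left 1 (|α| / 100)]
    · linarith [min_le_right (min δ (η / 2)) (min 1 (|α| / 100)), min_le_right 1 (|α| / 100)]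
  have hk := fun i => key (b i r) (by rw [hb _ _ hr]; exact r1) (by rw [hb _ _ hr]; exact r2)
  let p : Fin 3 → E3 := fun i => Φ (b i r) - Φ 0
  have hbb : ∀ i, b i r ∈ ball (0 : E3) δ := fun i => mem_ball_zero_iff.2 (by
    rw [hb _ _ hr]; exact r1)
  have hpa : ∀ i, |inner ℝ (p i) a| ≤ r / 100 := by
    intro i
    have hi := hk i
    have : |α| * |inner ℝ (p i) a| ≤ r ^ 3 := by
      rw [← abs_mul, ← hi]
      have : r ^ 2 ≤ 1 := by nlinarith
      have : 0 < r ^ 3 := by positivity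
      fin_cases i
      · simp only [Fin.zero_eta, hP0]; rw [abs_of_nonneg (by positivity)]; nlinarith
      · simp only [Fin.mk_one, hP1]; simp; positivity
      · simp only [Fin.reduceFinMk, hP2]; simp; positivity
    by_contra hc
    push Not at hc
    have : r ^ 3 ≤ r * r := by nlinarith [mul_pos hr hr]
    nlinarith
  have hpn : ∀ i, 9801 / 10000 * r ^ 2 ≤ ‖p i‖ ^ 2 ∧ ‖p i‖ ^ 2 ≤ 10201 / 10000 * r ^ 2 := by
    intro i
    have := hΦ _ (hbb i) 0 h0
    rw [sub_zero, hb _ _ hr] at this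
    have := norm_nonneg (p i)
    constructor <;> nlinarith
  have hpp : ∀ i j, i ≠ j → |inner ℝ (p i) (p j)| ≤ 4 / 100 * r ^ 2 := by
    intro i j hij
    have h := hΦ _ (hbb i) _ (hbb j)
    have e : Φ (b i r) - Φ (b j r) = p i - p j := by simp [p]
    rw [e] at h
    have e2 : ‖b i r - b j r‖ ^ 2 = 2 * r ^ 2 := by
      rw [norm_sub_sq_real, hb _ _ hr, hb _ _ hr]
      simp [b, EuclideanSpace.inner_single_left, hij]; ring
    have e3 := norm_sub_sq_real (p i) (p j)
    have := hpn i; have := hpn j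
    have n1 := norm_nonneg (b i r - b j r); have n2 := norm_nonneg (p i - p j)
    have l1 : (99 / 100 * ‖b i r - b j r‖) ^ 2 ≤ ‖p i - p j‖ ^ 2 :=
      pow_le_pow_left₀ (by positivity) h.1 2
    have l2 : ‖p i - p j‖ ^ 2 ≤ (101 / 100 * ‖b i r - b j r‖) ^ 2 := pow_le_pow_left₀ n2 h.2 2
    rw [mul_pow, e2] at l1 l2
    rw [abs_le]; constructor <;> linarith
  have hr2 : 0 < r ^ 2 := by positivity
  have hA : ∀ i j, inner ℝ (r⁻¹ • p i) (r⁻¹ • p j) = inner ℝ (p i) (p j) / r ^ 2 := by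
    intro i j; simp only [inner_smul_left, inner_smul_right, RCLike.conj_to_real]; field_simp
  have hB : ∀ i, |inner ℝ (r⁻¹ • p i) a| ≤ 5 / 100 := by
    intro i
    simp only [inner_smul_left, RCLike.conj_to_real]
    rw [abs_mul, abs_of_pos (inv_pos.2 hr), inv_mul_le_iff₀ hr]
    linarith [hpa i]
  have hC : ∀ i j, i ≠ j → |inner ℝ (r⁻¹ • p i) (r⁻¹ • p j)| ≤ 5 / 100 := by
    intro i j hij
    rw [hA, abs_div, abs_of_pos hr2, div_le_iff₀ hr2]; linarith [hpp i j hij]
  have hD : ∀ i, 98 / 100 ≤ inner ℝ (r⁻¹ • p i) (r⁻¹ • p i) := by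
    intro i
    rw [hA, le_div_iff₀ hr2, real_inner_self_eq_norm_sq]; linarith [(hpn i).1]
  apply four (Fin.cons a fun i => r⁻¹ • p i)
  · intro i
    refine Fin.cases ?_ (fun i => ?_) i
    · simp [ha]; norm_num
    · exact hD i
  · intro i j
    refine Fin.cases ?_ (fun i => ?_) i <;> refine Fin.cases ?_ (fun j => ?_) j
    · simp
    · intro _
      simp only [Fin.cons_zero, Fin.cons_succ]; rw [real_inner_comm]; exact hB j
    · intro _; exact hB i
    · intro h; exact hC i j fun e => h (by rw [e])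

end
end Pool.Agent.H96.OD
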