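import Mathlib

set_option autoImplicit false
open MeasureTheory Filter Topology ProbabilityTheory

namespace H96.PP

abbrev Cfg : Type := ℤ → Prop

def sh (t : ℤ) (η : Cfg) : Cfg := fun i => η (i + t)
def LL (t : ℤ) (η : Cfg) : Cfg := fun i => η i ∧ i ≤ t
def RR (t : ℤ) (η : Cfg) : Cfg := fun i => η i ∧ t ≤ i

lemma sh_meas (t : ℤ) : Measurable (sh t) :=
  measurable_pi_lambda _ fun i => measurable_pi_apply (i + t)
lemma LL_meas (t : ℤ) : Measurable (LL t) :=
  measurable_pi_lambda _ fun i => (measurable_pi_apply i).and measurable_const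
lemma RR_meas (t : ℤ) : Measurable (RR t) :=
  measurable_pi_lambda _ fun i => (measurable_pi_apply i).and measurable_const

def Sep (a : ℤ) (η : Cfg) : Prop := ∀ x y, η x → η y → x < y → x + a ≤ y
def Cov (b : ℤ) (η : Cfg) : Prop := ∀ t, ∃ x, η x ∧ t ≤ x ∧ x < t + b

lemma Sep_meas (a : ℤ) : Measurable (Sep a) :=
  .forall fun x => .forall fun y => (measurable_pi_apply x).imp
    ((measurable_pi_apply y).imp measurable_const)
lemma Cov_meas (a : ℤ) : Measurable (Cov a) :=
  .forall fun _ => .exists fun x => (measurable_pi_apply x).and measurable_const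

def Stat (ν : Measure Cfg) : Prop := ∀ t, MeasurePreserving (sh t) ν ν
def Dep (c : ℤ) (ν : Measure Cfg) : Prop := ∀ t s, t + c ≤ s → IndepFun (LL t) (RR s) ν

lemma indep_map {α β γ δ : Type} [MeasurableSpace α] [MeasurableSpace β] [MeasurableSpace γ]
    [MeasurableSpace δ] {μ : Measure α} {T : α → β} {f : β → γ} {g : β → δ} (hT : Measurable T)
    (hf : Measurable f) (hg : Measurable g) :
    IndepFun f g (μ.map T) ↔ IndepFun (f ∘ T) (g ∘ T) μ := by
  simp only [indepFun_iff_measure_inter_preimage_eq_mul]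
  refine forall₄_congr fun s t hs ht => ?_
  rw [Measure.map_apply hT ((hf hs).inter (hg ht)), Measure.map_apply hT (hf hs),
    Measure.map_apply hT (hg ht)]
  rfl

lemma dep_of {ν : Measure Cfg} (hs : Stat ν) {t0 c : ℤ} (h : IndepFun (LL t0) (RR (t0 + c)) ν) :
    Dep c ν := by
  intro t s hts
  rw [← (hs (t - t0)).map_eq, indep_map (sh_meas _) (LL_meas _) (RR_meas _)] at h
  have h2 := h.comp (sh_meas (t0 - t)) ((RR_meas s).comp (sh_meas (t0 - t)))
  convert h2 using 1
  · ext η i
    simp only [LL, sh, Function.comp]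
    rw [show i + (t0 - t) + (t - t0) = i by ring]
    exact and_congr_right fun _ => by omega
  · ext η i
    simp only [RR, sh, Function.comp]
    rw [show i + (t0 - t) + (t - t0) = i by ring]
    constructor
    · rintro ⟨a, b⟩; exact ⟨⟨a, by omega⟩, b⟩
    · rintro ⟨⟨a, -⟩, b⟩; exact ⟨a, b⟩

open Classical in
noncomputable def ee (η : Cfg) (j : ℤ) : ℤ := if η j then 1 else 0

noncomputable def idx (η : Cfg) (z : ℤ) : ℤ :=
  ∑ j ∈ Finset.Ioc 0 z, ee η j - ∑ j ∈ Finset.Ioc z 0, ee η j

lemma idx_zero (η : Cfg) : idx η 0 = 0 := by simp [idx]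

lemma idx_succ (η : Cfg) (n : ℤ) : idx η (n + 1) = idx η n + ee η (n + 1) := by
  unfold idx
  by_cases h : 0 ≤ n
  · have h1 : Finset.Ioc 0 (n + 1) = insert (n + 1) (Finset.Ioc 0 n) := by
      ext j; simp only [Finset.mem_Ioc, Finset.mem_insert]; omega
    rw [h1, Finset.sum_insert (by simp), Finset.Ioc_eq_empty (by omega : ¬ n + 1 < 0),
      Finset.Ioc_eq_empty (by omega : ¬ n < 0)]
    abel
  · have h1 : Finset.Ioc n 0 = insert (n + 1) (Finset.Ioc (n + 1) 0) := by
      ext j; simp only [Finset.mem_Ioc, Finset.mem_insert]; omega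
    rw [h1, Finset.sum_insert (by simp), Finset.Ioc_eq_empty (by omega : ¬ 0 < n + 1),
      Finset.Ioc_eq_empty (by omega : ¬ 0 < n)]
    abel

lemma idx_meas (z : ℤ) : Measurable fun η => idx η z := by
  have h : ∀ j, Measurable fun η => ee η j := fun j =>
    Measurable.ite (measurableSet_setOfPred.2 (measurable_pi_apply j)) measurable_const
      measurable_const
  exact (Finset.measurable_sum _ fun j _ => h j).sub (Finset.measurable_sum _ fun j _ => h j)

lemma ee_congr {η η' : Cfg} {j : ℤ} (h : η j ↔ η' j) : ee η j = ee η' j := by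
  unfold ee; rw [propext h]

lemma idx_LL (η : Cfg) {z : ℤ} (hz : z ≤ 0) : idx (LL 0 η) z = idx η z := by
  unfold idx
  rw [Finset.Ioc_eq_empty (by omega : ¬ 0 < z), Finset.sum_empty, Finset.sum_empty]
  congr 1
  refine Finset.sum_congr rfl fun j hj => ?_
  exact ee_congr (and_iff_left (Finset.mem_Ioc.1 hj).2)

lemma ee_nonneg (η : Cfg) (j : ℤ) : 0 ≤ ee η j := by unfold ee; split_ifs <;> simp

attribute [irreducible] idx

lemma idx_sh (η : Cfg) (t z : ℤ) : idx (sh t η) z = idx η (z + t) - idx η t := by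
  have he : ∀ j, ee (sh t η) j = ee η (j + t) := fun j => rfl
  induction z using Int.induction_on with
  | zero => simp [idx_zero]
  | succ k ih => rw [idx_succ, ih, add_right_comm, idx_succ, he, add_right_comm (k : ℤ) 1 t]; ring
  | pred k ih =>
    have h1 := idx_succ (sh t η) (-(k : ℤ) - 1)
    have h2 := idx_succ η (-(k : ℤ) - 1 + t)
    rw [show -(k : ℤ) - 1 + t + 1 = -k + t by ring] at h2
    rw [show -(k : ℤ) - 1 + 1 = -k by ring, he, ih] at h1
    linarith

lemma idx_mono (η : Cfg) {x y : ℤ} (h : x ≤ y) : idx η x ≤ idx η y := by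
  induction y, h using Int.leInduction with
  | base => exact le_rfl
  | succ k _ ih => rw [idx_succ]; linarith [ee_nonneg η (k + 1)]

lemma idx_const (η : Cfg) {x y : ℤ} (h : x ≤ y) (h0 : ∀ w, x < w → w ≤ y → ¬ η w) :
    idx η y = idx η x := by
  induction y, h using Int.leInduction with
  | base => rfl
  | succ k hk ih =>
    rw [idx_succ, ih fun w a b => h0 w a (by omega)]
    simp [ee, h0 (k + 1) (by omega) le_rfl]

lemma idx_pt {η : Cfg} {y : ℤ} (h : η y) : idx η y = idx η (y - 1) + 1 := by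
  have := idx_succ η (y - 1)
  rw [sub_add_cancel] at this
  simp [this, ee, h]

lemma idx_RR (η : Cfg) {s z : ℤ} (hs : 1 ≤ s) (hz : s - 1 ≤ z) :
    idx (RR s η) z = idx η z - idx η (s - 1) := by
  induction z, hz using Int.leInduction with
  | base =>
    rw [idx_const (RR s η) (by omega : 0 ≤ s - 1) fun w _ b c => by have := c.2; omega]
    simp [idx_zero]
  | succ k hk ih =>
    rw [idx_succ, idx_succ, ih]
    have : ee (RR s η) (k + 1) = ee η (k + 1) := ee_congr (and_iff_left (by omega))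
    rw [this]; ring

lemma nth_pt {η : Cfg} {b : ℤ} (h : Cov b η) (j : ℕ) : ∀ t,
    ∃ z, η z ∧ t ≤ z ∧ z < t + (j + 1) * b ∧ idx η z = idx η (t - 1) + j + 1 := by
  have h0 : ∀ t, ∃ z, η z ∧ t ≤ z ∧ z < t + b ∧ idx η z = idx η (t - 1) + 1 := by
    intro t
    obtain ⟨x, h1, h2, h3⟩ := h t
    obtain ⟨z, ⟨z1, z2⟩, z3⟩ := Int.exists_least_of_bdd (P := fun z => η z ∧ t ≤ z)
      ⟨t, fun z hz => hz.2⟩ ⟨x, h1, h2⟩
    refine ⟨z, z1, z2, lt_of_le_of_lt (z3 x ⟨h1, h2⟩) h3, ?_⟩
    rw [idx_pt z1, idx_const η (by omega : t - 1 ≤ z - 1) fun w a b c => by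
      have := z3 w ⟨c, by omega⟩
      omega]
  induction j with
  | zero => intro t; simpa using h0 t
  | succ j ih =>
    intro t
    obtain ⟨z, z1, z2, z3, z4⟩ := ih t
    obtain ⟨w, w1, w2, w3, w4⟩ := h0 (z + 1)
    refine ⟨w, w1, by omega, ?_, ?_⟩
    · push_cast; linarith
    · rw [w4, add_sub_cancel_right, z4]; push_cast; ring

def thin (η m : Cfg) : Cfg := fun z => η z ∧ m (idx η z)

lemma thin_meas : Measurable fun q : Cfg × Cfg => thin q.1 q.2 := by
  refine measurable_pi_lambda _ fun z => ((measurable_pi_apply z).comp measurable_fst).and ?_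
  have h1 : Measurable fun q : (Cfg × Cfg) × ℤ => q.1.2 q.2 :=
    measurable_from_prod_countable_left fun n => (measurable_pi_apply n).comp measurable_snd
  exact h1.comp (measurable_id.prodMk ((idx_meas z).comp measurable_fst))

lemma thin_sep {η m : Cfg} {a : ℤ} (h1 : Sep a η) (h2 : Sep 2 m) : Sep (2 * a) (thin η m) := by
  intro x y hx hy hxy
  have h3 : idx η x ≤ idx η (y - 1) := idx_mono η (by omega)
  have h4 := idx_pt hy.1
  have h5 := h2 _ _ hx.2 hy.2 (by omega)
  by_contra hc
  have := idx_const η (by omega : x ≤ y - 1) fun w a b c => by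
    have := h1 x w hx.1 c a
    have := h1 w y c hy.1 (by omega)
    omega
  omega

lemma thin_cov {η m : Cfg} {b : ℤ} {K : ℕ} (hb : 0 ≤ b) (h1 : Cov b η) (h2 : Cov K m) :
    Cov (K * b) (thin η m) := by
  intro t
  obtain ⟨i, i1, i2, i3⟩ := h2 (idx η (t - 1) + 1)
  obtain ⟨j, hj⟩ : ∃ j : ℕ, i = idx η (t - 1) + j + 1 := ⟨(i - idx η (t - 1) - 1).toNat, by omega⟩
  obtain ⟨z, z1, z2, z3, z4⟩ := nth_pt h1 j t
  refine ⟨z, ⟨z1, by rw [z4, ← hj]; exact i1⟩, z2, lt_of_lt_of_le z3 ?_⟩
  have : (j + 1 : ℤ) ≤ K := by omega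
  nlinarith

lemma thin_stat {ν ν0 : Measure Cfg} [IsProbabilityMeasure ν] [IsProbabilityMeasure ν0]
    (h1 : Stat ν) (h2 : Stat ν0) : Stat ((ν.prod ν0).map fun q => thin q.1 q.2) := by
  intro t
  refine ⟨sh_meas t, ?_⟩
  have h3 : Measurable fun q : (Cfg × Cfg) × ℤ => sh q.2 q.1.2 :=
    measurable_from_prod_countable_left fun n => (sh_meas n).comp measurable_snd
  have h4 : MeasurePreserving (fun q : Cfg × Cfg => ((sh t q.1, sh (idx q.1 t) q.2) : Cfg × Cfg))
      (ν.prod ν0) (ν.prod ν0) :=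
    (h1 t).skew_product (g := fun η m => sh (idx η t) m)
      (h3.comp (measurable_id.prodMk ((idx_meas t).comp measurable_fst)))
      (Eventually.of_forall fun η => (h2 _).map_eq)
  conv_rhs => rw [← h4.map_eq]
  rw [Measure.map_map (sh_meas t) thin_meas, Measure.map_map thin_meas h4.measurable]
  congr 1
  ext q z
  simp [thin, sh, idx_sh]

lemma thin_dep {ν ν0 : Measure Cfg} [IsProbabilityMeasure ν] [IsProbabilityMeasure ν0]
    {b s : ℤ} (hb : 0 ≤ b) (hc : ∀ᵐ η ∂ν, Cov b η) (h1 : IndepFun (LL 0) (RR s) ν)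
    (h2 : Stat ν0) (h3 : Dep 4 ν0) (hs : 3 * b + 1 ≤ s) :
    IndepFun (LL 0) (RR s) ((ν.prod ν0).map fun q => thin q.1 q.2) := by
  rw [indep_map thin_meas (LL_meas _) (RR_meas _), indepFun_iff_measure_inter_preimage_eq_mul]
  let f : Set Cfg → Cfg → ENNReal := fun A ξ => ν0 {m | thin ξ (LL 0 m) ∈ A}
  let g : Set Cfg → Cfg → ENNReal := fun A ξ => ν0 {m | thin ξ (RR 1 m) ∈ A}
  have fm : ∀ A, MeasurableSet A → Measurable (f A) := fun A hA =>
    measurable_measure_prodMk_left (ν := ν0)
      ((thin_meas.comp (measurable_fst.prodMk ((LL_meas 0).comp measurable_snd))) hA)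
  have gm : ∀ A, MeasurableSet A → Measurable (g A) := fun A hA =>
    measurable_measure_prodMk_left (ν := ν0)
      ((thin_meas.comp (measurable_fst.prodMk ((RR_meas 1).comp measurable_snd))) hA)
  have key : ∀ A B, MeasurableSet A → MeasurableSet B →
      (ν.prod ν0) ((LL 0 ∘ fun q : Cfg × Cfg => thin q.1 q.2) ⁻¹' A ∩
        (RR s ∘ fun q : Cfg × Cfg => thin q.1 q.2) ⁻¹' B)
      = (∫⁻ η, f A (LL 0 η) ∂ν) * ∫⁻ η, g B (RR s η) ∂ν := by
    intro A B hA hB
    rw [Measure.prod_apply ((((LL_meas 0).comp thin_meas) hA).inter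
      (((RR_meas s).comp thin_meas) hB))]
    refine Eq.trans (lintegral_congr_ae ?_)
      (lintegral_mul_eq_lintegral_mul_lintegral_of_indepFun ((fm A hA).comp (LL_meas 0))
      ((gm B hB).comp (RR_meas s)) (h1.comp (fm A hA) (gm B hB)))
    filter_upwards [hc] with η hη
    obtain ⟨z, -, z2, z3, z4⟩ := nth_pt hη 2 1
    have hk : 3 ≤ idx η (s - 1) := by
      have := idx_mono η (show z ≤ s - 1 by push_cast at z3; omega)
      rw [sub_self, idx_zero] at z4
      push_cast at z4
      omega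
    have e1 : ∀ m, LL 0 (thin η m) = thin (LL 0 η) (LL 0 m) := by
      intro m
      ext z
      by_cases hz : z ≤ 0
      · have := idx_mono η hz
        rw [idx_zero] at this
        simp [thin, LL, idx_LL η hz, hz, this]
      · simp [thin, LL, hz]
    have e2 : ∀ m, RR s (thin η m) = thin (RR s η) (RR 1 (sh (idx η (s - 1)) m)) := by
      intro m
      ext z
      by_cases hz : s ≤ z
      · simp only [thin, RR, sh, hz, and_true]
        rw [idx_RR η (by omega) (by omega), sub_add_cancel]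
        refine and_congr_right fun h => (and_iff_left ?_).symm
        have := idx_mono η (show s - 1 ≤ z - 1 by omega)
        rw [idx_pt h]; omega
      · simp [thin, RR, hz]
    have e3 : ∀ m, RR 1 (sh (idx η (s - 1)) m) = sh (idx η (s - 1)) (RR (idx η (s - 1) + 1) m) := by
      intro m
      ext z
      simp only [RR, sh]
      exact and_congr_right fun _ => by omega
    have t1 : Measurable fun m => thin (LL 0 η) m :=
      thin_meas.comp (measurable_const.prodMk measurable_id)
    have t2 : Measurable fun m => thin (RR s η) m :=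
      thin_meas.comp (measurable_const.prodMk measurable_id)
    have h4 := ((h3 0 (idx η (s - 1) + 1) (by omega)).comp t1
      (t2.comp (sh_meas (idx η (s - 1))))).measure_inter_preimage_eq_mul A B hA hB
    have h5 := (h2 (idx η (s - 1))).measure_preimage
      ((t2.comp (RR_meas 1)) hB).nullMeasurableSet
    simp only [Pi.mul_apply, Function.comp, f, g]
    rw [show {m | thin (RR s η) (RR 1 m) ∈ B} = ((fun m => thin (RR s η) m) ∘ RR 1) ⁻¹' B from rfl,
      ← h5]
    refine Eq.trans ?_ (h4.trans ?_)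
    · congr 1
      ext m
      simp [e1, e2, e3]
    · congr 2
      ext m
      simp [e3]
  intro A B hA hB
  have k1 := key A Set.univ hA .univ
  have k2 := key Set.univ B .univ hB
  simp only [Set.preimage_univ, Set.inter_univ, Set.univ_inter, f, g, Set.mem_univ,
    Set.ofPred_true, measure_univ, lintegral_const, mul_one, one_mul] at k1 k2
  rw [key A B hA hB, k1, k2]

end H96.PP
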