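import Pool.Agent.H96.PP1
import Pool.Agent.H96.FD8

set_option autoImplicit false
open MeasureTheory Filter Topology ProbabilityTheory

namespace H96.PP

def sub (a : ℤ) (B : ℕ) (ζ : Cfg) : Cfg := fun z =>
  ∃ j : ℕ, j ≤ B ∧ ζ (z - j) ∧ a ∣ j ∧ ∀ i, z - j < i → i < z + a → ¬ ζ i

lemma sub_meas (a : ℤ) (B : ℕ) : Measurable (sub a B) :=
  measurable_pi_lambda _ fun z => .exists fun j => measurable_const.and
    ((measurable_pi_apply (z - j)).and (measurable_const.and (.forall fun i =>
      measurable_const.imp (measurable_const.imp (measurable_pi_apply i).not))))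

lemma sub_sep {a : ℤ} (ha : 0 < a) (B : ℕ) (ζ : Cfg) : Sep a (sub a B ζ) := by
  rintro z z' ⟨j, -, j2, j3, j4⟩ ⟨k, -, k2, k3, k4⟩ h
  rcases lt_trichotomy (z - j) (z' - k) with h1 | h1 | h1
  · by_contra hc
    exact j4 _ h1 (by omega) k2
  · have h2 : a ∣ z' - z := by
      rw [show z' - z = k - j by omega]
      exact k3.sub j3
    have := Int.le_of_dvd (by omega) h2
    omega
  · exact absurd j2 (k4 _ h1 (by omega))

lemma sub_cov {a : ℤ} (ha : 0 < a) {B : ℕ} {ζ : Cfg} (h1 : Sep a ζ) (h2 : Cov B ζ) :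
    Cov (2 * a) (sub a B ζ) := by
  intro t
  by_cases hc : ∃ y, ζ y ∧ t + a ≤ y ∧ y < t + 2 * a
  · obtain ⟨y, y1, y2, y3⟩ := hc
    refine ⟨y, ⟨0, Nat.zero_le _, by simpa using y1, by simp, fun i a1 a2 a3 => ?_⟩, by omega, y3⟩
    have := h1 y i y1 a3 (by simpa using a1)
    omega
  push Not at hc
  obtain ⟨w, w1, w2, w3⟩ := h2 (t + a - B)
  obtain ⟨x, ⟨x1, x2⟩, x3⟩ := Int.exists_greatest_of_bdd (P := fun z => ζ z ∧ z ≤ t + a - 1)
    ⟨t + a - 1, fun z hz => hz.2⟩ ⟨w, w1, by omega⟩
  have x4 := x3 w ⟨w1, by omega⟩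
  have e1 := Int.mul_ediv_add_emod (t + a - 1 - x) a
  have e2 := Int.emod_nonneg (t + a - 1 - x) ha.ne'
  have e3 := Int.emod_lt_of_pos (t + a - 1 - x) ha
  have e4 : 0 ≤ a * ((t + a - 1 - x) / a) := mul_nonneg ha.le (Int.ediv_nonneg (by omega) ha.le)
  obtain ⟨j, hj⟩ := Int.eq_ofNat_of_zero_le e4
  refine ⟨x + j, ⟨j, by omega, by simpa using x1, ⟨_, hj.symm⟩, fun i a1 a2 a3 => ?_⟩,
    by omega, by omega⟩
  by_cases hi : i ≤ t + a - 1
  · have := x3 i ⟨a3, hi⟩
    omega
  · have := hc i a3 (by omega)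
    omega

lemma sub_stat {ν : Measure Cfg} (h : Stat ν) (a : ℤ) (B : ℕ) : Stat (ν.map (sub a B)) := by
  intro t
  refine ⟨sh_meas t, ?_⟩
  conv_rhs => rw [← (h t).map_eq]
  rw [Measure.map_map (sh_meas t) (sub_meas a B), Measure.map_map (sub_meas a B) (sh_meas t)]
  congr 1
  ext ζ z
  simp only [Function.comp, sh, sub]
  refine exists_congr fun j => and_congr_right fun _ => and_congr (by rw [add_sub_right_comm])
    (and_congr_right fun _ => ⟨fun h i a1 a2 => h _ (by omega) (by omega), fun h i a1 a2 => ?_⟩)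
  have := h (i - t) (by omega) (by omega)
  rwa [sub_add_cancel] at this

lemma sub_dep {ν : Measure Cfg} {c a : ℤ} (ha : 0 < a) (h : Dep c ν) (B : ℕ) :
    IndepFun (LL 0) (RR (0 + (a + c + B))) (ν.map (sub a B)) := by
  rw [indep_map (sub_meas a B) (LL_meas _) (RR_meas _)]
  have h2 := (h a (a + c) le_rfl).comp ((LL_meas 0).comp (sub_meas a B))
    ((RR_meas (0 + (a + c + B))).comp (sub_meas a B))
  convert h2 using 1
  · ext ζ z
    simp only [Function.comp, LL, sub]
    refine and_congr_left fun hz => exists_congr fun j => and_congr_right fun _ =>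
      and_congr (and_iff_left (by omega)).symm (and_congr_right fun _ =>
        forall₃_congr fun i _ a2 => not_congr (and_iff_left (by omega)).symm)
  · ext ζ z
    simp only [Function.comp, RR, sub]
    refine and_congr_left fun hz => exists_congr fun j => and_congr_right fun hj =>
      and_congr (and_iff_left (by omega)).symm (and_congr_right fun _ =>
        forall₃_congr fun i a1 _ => not_congr (and_iff_left (by omega)).symm)

def lm (c : ℤ → Fin 49) : Cfg := fun i => c (i - 1) < c i ∧ c (i + 1) < c i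

lemma lm_cov {c : ℤ → Fin 49} (hc : ∀ i, c i ≠ c (i - 1)) : Cov (99 : ℕ) (lm c) := by
  have h : ∀ k : ℕ, ∀ x : ℤ, 49 ≤ (c x).val + k → ∃ y, lm c y ∧ x - k ≤ y ∧ y ≤ x + k := by
    intro k
    induction k with
    | zero => intro x hx; have := (c x).2; omega
    | succ k ih =>
      intro x hx
      by_cases h0 : lm c x
      · exact ⟨x, h0, by omega, by omega⟩
      have h1 := hc x
      have h2 := hc (x + 1)
      rw [add_sub_cancel_right] at h2
      simp only [lm, not_and_or, not_lt, Fin.le_def, ne_eq, Fin.ext_iff] at h0 h1 h2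
      rcases h0 with h0 | h0
      · obtain ⟨y, y1, y2, y3⟩ := ih (x - 1) (by omega)
        exact ⟨y, y1, by omega, by omega⟩
      · obtain ⟨y, y1, y2, y3⟩ := ih (x + 1) (by omega)
        exact ⟨y, y1, by omega, by omega⟩
  intro t
  obtain ⟨y, y1, y2, y3⟩ := h 49 (t + 49) (by omega)
  exact ⟨y, y1, by omega, by omega⟩

lemma lm_meas : Measurable lm := by
  refine measurable_pi_lambda _ fun i => ?_
  have h : Measurable fun q : Fin 49 × Fin 49 => q.1 < q.2 := measurable_of_countable _
  have h1 : ∀ j k : ℤ, Measurable fun c : ℤ → Fin 49 => c j < c k := fun j k => by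
    have h2 : Measurable fun c : ℤ → Fin 49 => (c j, c k) :=
      (measurable_pi_apply j).prodMk (measurable_pi_apply k)
    have h3 := h.comp h2
    exact h3
  exact (h1 _ _).and (h1 _ _)

open H96.FD in
lemma base : ∃ ν : Measure Cfg, IsProbabilityMeasure ν ∧ Stat ν ∧ Dep 4 ν ∧
    ∀ᵐ m ∂ν, Sep 2 m ∧ Cov (99 : ℕ) m := by
  classical
  let p : ℤ ≃ ℤ := Equiv.subRight 1
  let enc : G ≃ Fin 49 := Fintype.equivFinOfCardEq card_G
  have em : Measurable enc := measurable_of_countable _
  let Φ : (ℤ → Y) → Cfg := fun y => lm fun i => enc (XX p y i).2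
  have Φm : Measurable Φ :=
    lm_meas.comp (measurable_pi_lambda _ fun i => em.comp (XX_meas p i).snd)
  have hst : Stat ((muL ℤ).map Φ) := by
    intro t
    refine ⟨sh_meas t, ?_⟩
    have h := reidx (Λ := ℤ) (q := fun i => i + t) (add_left_injective t)
    conv_rhs => rw [← h.map_eq]
    rw [Measure.map_map (sh_meas t) Φm, Measure.map_map Φm h.measurable]
    congr 1
    ext y z
    have h2 := XX_equiv p (fun i => i + t) (fun i => by simp [p]; ring) y
    simp only [Function.comp, sh, Φ, lm, h2, add_sub_right_comm, add_right_comm]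
  refine ⟨(muL ℤ).map Φ, Measure.isProbabilityMeasure_map Φm.aemeasurable, hst,
    dep_of hst (t0 := 0) ?_, ?_⟩
  · rw [indep_map Φm (LL_meas _) (RR_meas _)]
    have h1 := indepL p id (fun i => rfl) (Set.Iic 1) (Set.Ici 3) (by
      intro a ha b hb
      simp only [Set.mem_Iic, Set.mem_Ici, p, Equiv.subRight_apply] at ha hb ⊢
      omega)
    have cm : ∀ C : Set ℤ, Measurable fun (x : C → S) =>
        lm fun i => if h : i ∈ C then enc (x ⟨i, h⟩).2 else 0 := fun C =>
      lm_meas.comp (measurable_pi_lambda _ fun i => by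
        split_ifs with h
        · exact em.comp (measurable_pi_apply _).snd
        · exact measurable_const)
    have h2 := h1.comp ((LL_meas 0).comp (cm _)) ((RR_meas (0 + 4)).comp (cm _))
    convert h2 using 1
    · ext y z
      simp only [Function.comp, LL, Φ, lm, Set.mem_Iic]
      refine and_congr_left fun hz => ?_
      rw [dif_pos (by omega), dif_pos (by omega), dif_pos (by omega)]
    · ext y z
      simp only [Function.comp, RR, Φ, lm, Set.mem_Ici]
      refine and_congr_left fun hz => ?_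
      rw [dif_pos (by omega), dif_pos (by omega), dif_pos (by omega)]
  · rw [ae_map_iff Φm.aemeasurable (measurableSet_setOfPred.2 ((Sep_meas _).and (Cov_meas _)))]
    filter_upwards [ae_all_iff.2 fun i => proper p id (fun i => rfl) i] with y hy
    refine ⟨fun x z hx hz hxz => ?_, lm_cov fun i h => hy i (enc.injective h)⟩
    by_contra hc
    have : z = x + 1 := by omega
    subst this
    have := hz.1
    rw [add_sub_cancel_right] at this
    exact lt_asymm this hx.2

lemma scale (n : ℕ) : ∃ ν : Measure Cfg, IsProbabilityMeasure ν ∧ Stat ν ∧ Dep (200 * 2 ^ n) ν ∧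
    ∀ᵐ m ∂ν, Sep (2 ^ n) m ∧ Cov (2 * 2 ^ n) m := by
  induction n with
  | zero =>
    refine ⟨Measure.dirac fun _ => True, inferInstance, fun t => ⟨sh_meas t, ?_⟩, fun t s _ => ?_, ?_⟩
    · rw [Measure.map_dirac' (sh_meas t)]; rfl
    · rw [indepFun_iff_measure_inter_preimage_eq_mul]
      intro A B hA hB
      rw [Measure.dirac_apply' _ ((LL_meas t hA).inter (RR_meas s hB)),
        Measure.dirac_apply' _ (LL_meas t hA), Measure.dirac_apply' _ (RR_meas s hB),
        Set.inter_indicator_one]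
      rfl
    · rw [ae_dirac_iff (measurableSet_setOfPred.2 ((Sep_meas _).and (Cov_meas _)))]
      exact ⟨fun x y _ _ h => by omega, fun t => ⟨t, trivial, le_rfl, by omega⟩⟩
  | succ n ih =>
    obtain ⟨ν, hp, hs, hd, hg⟩ := ih
    obtain ⟨ν0, hp0, hs0, hd0, hg0⟩ := base
    have ha : (0 : ℤ) < 2 ^ n := by positivity
    have hp1 : IsProbabilityMeasure ((ν.prod ν0).map fun q => thin q.1 q.2) :=
      Measure.isProbabilityMeasure_map thin_meas.aemeasurable
    have hs1 := thin_stat hs hs0
    have hd1 : Dep (200 * 2 ^ n) ((ν.prod ν0).map fun q => thin q.1 q.2) :=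
      dep_of hs1 (t0 := 0) (thin_dep (b := 2 * 2 ^ n) (by positivity) (hg.mono fun _ h => h.2)
        (hd _ _ le_rfl) hs0 hd0 (by omega))
    have hg1 : ∀ᵐ ζ ∂((ν.prod ν0).map fun q => thin q.1 q.2),
        Sep (2 * 2 ^ n) ζ ∧ Cov ((99 * (2 * 2 ^ n) : ℕ) : ℤ) ζ := by
      rw [ae_map_iff thin_meas.aemeasurable
        (measurableSet_setOfPred.2 ((Sep_meas _).and (Cov_meas _)))]
      filter_upwards [(measurePreserving_fst (μ := ν) (ν := ν0)).quasiMeasurePreserving.ae hg,
        (measurePreserving_snd (μ := ν) (ν := ν0)).quasiMeasurePreserving.ae hg0] with q h1 h2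
      refine ⟨thin_sep h1.1 h2.1, ?_⟩
      have := thin_cov (by positivity) h1.2 h2.2
      push_cast at this ⊢
      exact this
    have hs2 := sub_stat hs1 (2 * 2 ^ n) (99 * (2 * 2 ^ n))
    refine ⟨_, Measure.isProbabilityMeasure_map (sub_meas _ _).aemeasurable, hs2, ?_, ?_⟩
    · have := dep_of hs2 (sub_dep (by positivity) hd1 _)
      intro t s hts
      refine this t s (le_trans (le_of_eq ?_) hts)
      push_cast; ring
    · rw [ae_map_iff (sub_meas _ _).aemeasurable
        (measurableSet_setOfPred.2 ((Sep_meas _).and (Cov_meas _)))]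
      filter_upwards [hg1] with ζ h
      rw [pow_succ']
      exact ⟨sub_sep (by positivity) _ _, sub_cov (by positivity) h.1 h.2⟩

end H96.PP
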