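import Pool.Agent.H96.PP2
import Pool.Agent.H44.Loeb1

set_option autoImplicit false
open MeasureTheory Filter Topology ProbabilityTheory Pool.Agent.H44.Loeb

namespace H96.PP

lemma cnt_gen {Ω : Type} {m : MeasurableSpace Ω} (X : Ω → Set ℝ)
    (hs : ∀ ω, ∀ x ∈ X ω, ∀ y ∈ X ω, x ≠ y → 1 ≤ |x - y|) (n : ℕ) : ∀ u v : ℝ, v ≤ u + (n + 1) / 2 →
    (∀ ω, (X ω ∩ Set.Icc u v).Finite) ∧
    ((∀ p q, u ≤ p → q ≤ v → MeasurableSet {ω | (X ω ∩ Set.Icc p q).Nonempty}) →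
      Measurable fun ω => (X ω ∩ Set.Icc u v).ncard) := by
  classical
  have h0 : ∀ u v : ℝ, v ≤ u + 1 / 2 → (∀ ω, (X ω ∩ Set.Icc u v).Finite) ∧
      ((∀ p q, u ≤ p → q ≤ v → MeasurableSet {ω | (X ω ∩ Set.Icc p q).Nonempty}) →
      Measurable fun ω => (X ω ∩ Set.Icc u v).ncard) := by
    intro u v huv
    have h1 : ∀ ω, (X ω ∩ Set.Icc u v).Subsingleton := by
      intro ω x hx y hy
      by_contra hc
      have := hs ω x hx.1 y hy.1 hc
      rw [le_abs] at this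
      rcases this with h | h <;> linarith [hx.2.1, hx.2.2, hy.2.1, hy.2.2]
    refine ⟨fun ω => (h1 ω).finite, fun h => ?_⟩
    have : (fun ω => (X ω ∩ Set.Icc u v).ncard)
        = fun ω => if (X ω ∩ Set.Icc u v).Nonempty then 1 else 0 := by
      ext ω
      rcases (h1 ω).eq_empty_or_singleton with h2 | ⟨x, h2⟩ <;> simp [h2]
    rw [this]
    exact Measurable.ite (h u v le_rfl le_rfl) measurable_const measurable_const
  induction n with
  | zero => intro u v h; exact h0 u v (by simpa using h)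
  | succ n ih =>
    intro u v huv
    by_cases h1 : v ≤ u + 1 / 2
    · exact h0 u v h1
    obtain ⟨a1, a2⟩ := h0 u (u + 1 / 2) le_rfl
    obtain ⟨b1, b2⟩ := ih (u + 1 / 2) v (by push_cast at huv; linarith)
    obtain ⟨-, c2⟩ := h0 (u + 1 / 2) (u + 1 / 2) (by linarith)
    have e1 : ∀ ω, X ω ∩ Set.Icc u v
        = (X ω ∩ Set.Icc u (u + 1 / 2)) ∪ (X ω ∩ Set.Icc (u + 1 / 2) v) := fun ω => by
      rw [← Set.inter_union_distrib_left, Set.Icc_union_Icc_eq_Icc (by linarith) (by linarith)]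
    have e2 : ∀ ω, X ω ∩ Set.Icc (u + 1 / 2) (u + 1 / 2)
        = (X ω ∩ Set.Icc u (u + 1 / 2)) ∩ (X ω ∩ Set.Icc (u + 1 / 2) v) := fun ω => by
      rw [← Set.inter_inter_distrib_left, Set.Icc_inter_Icc, max_eq_right (by linarith),
        min_eq_left (by linarith)]
    refine ⟨fun ω => by rw [e1]; exact (a1 ω).union (b1 ω), fun h => ?_⟩
    have : (fun ω => (X ω ∩ Set.Icc u v).ncard) = fun ω => (X ω ∩ Set.Icc u (u + 1 / 2)).ncard +
        (X ω ∩ Set.Icc (u + 1 / 2) v).ncard - (X ω ∩ Set.Icc (u + 1 / 2) (u + 1 / 2)).ncard := by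
      ext ω
      rw [e1, e2, ← Set.ncard_union_add_ncard_inter _ _ (a1 ω) (b1 ω), Nat.add_sub_cancel]
    rw [this]
    exact ((a2 fun p q a b => h p q a (by linarith)).add
      (b2 fun p q a b => h p q (by linarith) b)).sub
      (c2 fun p q a b => h p q (by linarith) (by linarith))

abbrev UO : Type := UP fun _ => Cfg

def cl (n : ℕ) (η : Cfg) (z : ℤ) : Prop :=
  η z ∧ ∀ y, z - 2 ^ n < y → y < z + 2 ^ n → η y → y = z

lemma cl_meas (n : ℕ) (z : ℤ) : Measurable fun η => cl n η z :=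
  (measurable_pi_apply z).and (.forall fun y => measurable_const.imp (measurable_const.imp
    ((measurable_pi_apply y).imp measurable_const)))

def XL (ω : UO) : Set ℝ :=
  {t | ∀ ε > 0, ∀ᶠ n in (UU : Filter ℕ), ∃ z : ℤ, cl n (ω n) z ∧ |(z : ℝ) / 2 ^ n - t| < ε}

lemma XL_sep (ω : UO) : ∀ x ∈ XL ω, ∀ y ∈ XL ω, x ≠ y → 1 ≤ |x - y| := by
  intro x hx y hy hxy
  by_contra hc
  have h0 : 0 < |x - y| := abs_pos.2 (sub_ne_zero.2 hxy)
  have h1 : 0 < min (|x - y| / 2) ((1 - |x - y|) / 2) := lt_min (by linarith) (by linarith)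
  obtain ⟨n, ⟨z, z1, z2⟩, ⟨w, w1, w2⟩⟩ := ((hx _ h1).and (hy _ h1)).exists
  have m1 := min_le_left (|x - y| / 2) ((1 - |x - y|) / 2)
  have m2 := min_le_right (|x - y| / 2) ((1 - |x - y|) / 2)
  have hp : (0 : ℝ) < 2 ^ n := by positivity
  rw [abs_lt] at z2 w2
  by_cases h : w = z
  · subst h
    have : |x - y| < |x - y| := abs_lt.2 ⟨by linarith, by linarith⟩
    exact lt_irrefl _ this
  · have l1 := le_abs_self (x - y)
    have l2 := neg_abs_le (x - y)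
    refine h (z1.2 w ?_ ?_ w1.1)
    · have : (z : ℝ) / 2 ^ n - 1 < w / 2 ^ n := by linarith
      rw [sub_lt_iff_lt_add, div_add_one hp.ne', div_lt_div_iff_of_pos_right hp] at this
      have h2 : z < w + 2 ^ n := by exact_mod_cast this
      omega
    · have : (w : ℝ) / 2 ^ n < z / 2 ^ n + 1 := by linarith
      rw [div_add_one hp.ne', div_lt_div_iff_of_pos_right hp] at this
      exact_mod_cast this

lemma ex_n (u v : ℝ) : ∃ n : ℕ, v ≤ u + (n + 1) / 2 := by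
  obtain ⟨n, hn⟩ := exists_nat_ge (2 * (v - u))
  exact ⟨n, by linarith⟩

lemma XL_fin (ω : UO) (u v : ℝ) : (XL ω ∩ Set.Icc u v).Finite := by
  obtain ⟨n, hn⟩ := ex_n u v
  exact (cnt_gen (m := ⊤) XL XL_sep n u v hn).1 ω

lemma ulim {ω : UO} {p q : ℝ}
    (h : ∀ᶠ n in (UU : Filter ℕ), ∃ z : ℤ, cl n (ω n) z ∧ (z : ℝ) / 2 ^ n ∈ Set.Icc p q) :
    (XL ω ∩ Set.Icc p q).Nonempty := by
  obtain ⟨z, hz⟩ := h.choice
  obtain ⟨t, t1, t2⟩ := isCompact_Icc.ultrafilter_le_nhds (UU.map fun n => (z n : ℝ) / 2 ^ n)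
    (le_principal_iff.2 (hz.mono fun n hn => hn.2))
  refine ⟨t, fun ε hε => ?_, t1⟩
  filter_upwards [hz, Metric.tendsto_nhds.1 t2 ε hε] with n h1 h2
  exact ⟨z n, h1.1, h2⟩

def AA (p q : ℝ) (m n : ℕ) : Set Cfg :=
  {η | ∃ z : ℤ, cl n η z ∧ (z : ℝ) / 2 ^ n ∈ Set.Icc (p - 1 / (m + 1)) (q + 1 / (m + 1))}

lemma AA_meas (p q : ℝ) (m n : ℕ) : MeasurableSet (AA p q m n) :=
  measurableSet_setOfPred.2 (.exists fun z => (cl_meas n z).and measurable_const)

lemma hit_eq (p q : ℝ) :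
    {ω : UO | (XL ω ∩ Set.Icc p q).Nonempty} = ⋂ m : ℕ, ul (AA p q m) := by
  ext ω
  simp only [Set.mem_ofPred_eq, Set.mem_iInter]
  constructor
  · rintro ⟨t, t1, t2, t3⟩ m
    filter_upwards [t1 (1 / (m + 1)) Nat.one_div_pos_of_nat] with n ⟨z, z1, z2⟩
    rw [abs_lt] at z2
    exact ⟨z, z1, by linarith, by linarith⟩
  · intro h
    by_contra hc
    have h1 : ∀ᶠ m : ℕ in atTop, ∀ t ∈ XL ω ∩ Set.Icc (p - 1) (q + 1),
        t ∉ Set.Icc (p - 1 / (m + 1)) (q + 1 / (m + 1)) := by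
      refine (eventually_all_finite (XL_fin ω _ _)).2 fun t ht => ?_
      have h2 : t < p ∨ q < t := by
        by_contra h3
        push Not at h3
        exact hc ⟨t, ht.1, h3⟩
      rcases h2 with h2 | h2
      · filter_upwards [tendsto_one_div_add_atTop_nhds_zero_nat.eventually
          (gt_mem_nhds (sub_pos.2 h2))] with m hm h3
        linarith [h3.1]
      · filter_upwards [tendsto_one_div_add_atTop_nhds_zero_nat.eventually
          (gt_mem_nhds (sub_pos.2 h2))] with m hm h3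
        linarith [h3.2]
    obtain ⟨m, hm⟩ := h1.exists
    obtain ⟨t, t1, t2⟩ := ulim (h m)
    have : (1 : ℝ) / (m + 1) ≤ 1 := by
      rw [div_le_one (by positivity)]; linarith [Nat.cast_nonneg (α := ℝ) m]
    exact hm t ⟨t1, by linarith [t2.1], by linarith [t2.2]⟩ t2

def IntF (f : ℕ → Cfg → Cfg) : Set (Set UO) :=
  {B | ∃ A : ℕ → Set Cfg, (∀ n, MeasurableSet (A n)) ∧ ul (fun n => f n ⁻¹' A n) = B}

lemma IntF_pi (f : ℕ → Cfg → Cfg) : IsPiSystem (IntF f) := by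
  rintro _ ⟨A, hA, rfl⟩ _ ⟨B, hB, rfl⟩ -
  exact ⟨fun n => A n ∩ B n, fun n => (hA n).inter (hB n),
    ul_inter (fun n => f n ⁻¹' A n) (fun n => f n ⁻¹' B n)⟩

lemma cnt_meas (f : ℕ → Cfg → Cfg) (u v : ℝ)
    (h : ∀ n η (z : ℤ), u - 1 ≤ z / 2 ^ n → z / 2 ^ n ≤ v + 1 → (cl n (f n η) z ↔ cl n η z)) :
    Measurable[MeasurableSpace.generateFrom (IntF f)] fun ω => (XL ω ∩ Set.Icc u v).ncard := by
  obtain ⟨n, hn⟩ := ex_n u v
  refine (cnt_gen (m := MeasurableSpace.generateFrom (IntF f)) XL XL_sep n u v hn).2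
    fun p q hp hq => ?_
  rw [hit_eq]
  refine MeasurableSet.iInter fun m => MeasurableSpace.measurableSet_generateFrom
    ⟨AA p q m, AA_meas p q m, ?_⟩
  congr 1
  ext n η
  have : (1 : ℝ) / (m + 1) ≤ 1 := by
    rw [div_le_one (by positivity)]; linarith [Nat.cast_nonneg (α := ℝ) m]
  exact exists_congr fun z => and_congr_left fun hz =>
    h n η z (by linarith [hz.1]) (by linarith [hz.2])

lemma IntF_meas {f : ℕ → Cfg → Cfg} (hf : ∀ n, Measurable (f n)) :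
    ∀ s ∈ IntF f, MeasurableSet s := by
  rintro _ ⟨A, hA, rfl⟩
  exact measurableSet_ul fun n => hf n (hA n)

variable (μ : ℕ → Measure Cfg) [∀ n, IsProbabilityMeasure (μ n)]

lemma IntF_indep {f g : ℕ → Cfg → Cfg} (hf : ∀ n, Measurable (f n)) (hg : ∀ n, Measurable (g n))
    (h : ∀ n, IndepFun (f n) (g n) (μ n)) :
    Indep (MeasurableSpace.generateFrom (IntF f)) (MeasurableSpace.generateFrom (IntF g))
      (loeb (Ω := fun _ => Cfg) μ) := by
  refine IndepSets.indep' (IntF_meas hf) (IntF_meas hg) (IntF_pi f) (IntF_pi g) ?_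
  rw [IndepSets_iff]
  rintro _ _ ⟨A, hA, rfl⟩ ⟨B, hB, rfl⟩
  have h1 := tendsto_loeb (Ω := fun _ => Cfg) μ fun n => hf n (hA n)
  have h2 := tendsto_loeb (Ω := fun _ => Cfg) μ fun n => hg n (hB n)
  have h3 := tendsto_loeb (Ω := fun _ => Cfg) μ fun n => (hf n (hA n)).inter (hg n (hB n))
  rw [ul_inter] at h3
  refine tendsto_nhds_unique h3 ((ENNReal.Tendsto.mul h1 (Or.inr (measure_ne_top _ _)) h2
    (Or.inr (measure_ne_top _ _))).congr fun n => ?_)
  exact ((h n).measure_inter_preimage_eq_mul _ _ (hA n) (hB n)).symm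

def SS (s : ℕ → ℤ) (ω : UO) : UO := fun n => sh (s n) (ω n)

lemma SS_mp (hs : ∀ n, Stat (μ n)) (s : ℕ → ℤ) :
    MeasurePreserving (SS s) (loeb (Ω := fun _ => Cfg) μ) (loeb (Ω := fun _ => Cfg) μ) := by
  have hm : Measurable (SS s) := by
    refine measurable_generateFrom ?_
    rintro _ ⟨A, hA, rfl⟩
    exact measurableSet_ul (A := fun n => sh (s n) ⁻¹' A n) fun n => sh_meas _ (hA n)
  have := Measure.isProbabilityMeasure_map (μ := loeb (Ω := fun _ => Cfg) μ) hm.aemeasurable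
  refine ⟨hm, ext_of_generate_finite (Intl _) rfl intl_pi ?_ (by simp)⟩
  rintro _ ⟨A, hA, rfl⟩
  rw [Measure.map_apply hm (measurableSet_ul hA)]
  have h1 := tendsto_loeb (Ω := fun _ => Cfg) μ hA
  have h2 := tendsto_loeb (Ω := fun _ => Cfg) μ (A := fun n => sh (s n) ⁻¹' A n)
    fun n => sh_meas _ (hA n)
  exact tendsto_nhds_unique h2 (h1.congr fun n =>
    ((hs n (s n)).measure_preimage (hA n).nullMeasurableSet).symm)

lemma XL_SS1 {s : ℕ → ℤ} {t : ℝ} (h : Tendsto (fun n => (s n : ℝ) / 2 ^ n) atTop (𝓝 t)) (ω : UO)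
    {x : ℝ} (hx : x ∈ XL (SS s ω)) : x + t ∈ XL ω := by
  intro ε hε
  filter_upwards [hx (ε / 2) (by positivity),
    UU_le (Metric.tendsto_nhds.1 h (ε / 2) (by positivity))] with n ⟨z, z1, z2⟩ h2
  refine ⟨z + s n, ⟨z1.1, fun y a b c => ?_⟩, ?_⟩
  · have := z1.2 (y - s n) (by omega) (by omega) (by simpa [SS, sh] using c)
    omega
  · simp only [Set.mem_ofPred_eq, Real.dist_eq] at h2
    rw [abs_lt] at z2 h2 ⊢
    push_cast
    rw [add_div]
    constructor <;> linarith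

lemma XL_SS (t : ℝ) : ∃ s : ℕ → ℤ, ∀ ω x, x ∈ XL (SS s ω) ↔ x + t ∈ XL ω := by
  have h : Tendsto (fun n : ℕ => (⌊t * 2 ^ n⌋ : ℝ) / 2 ^ n) atTop (𝓝 t) := by
    have h1 : Tendsto (fun n : ℕ => t - (1 / 2 : ℝ) ^ n) atTop (𝓝 (t - 0)) :=
      (tendsto_pow_atTop_nhds_zero_of_lt_one (by norm_num) (by norm_num)).const_sub t
    rw [sub_zero] at h1
    refine tendsto_of_tendsto_of_tendsto_of_le_of_le h1 tendsto_const_nhds (fun n => ?_) fun n => ?_
    · have hp : (0 : ℝ) < 2 ^ n := by positivity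
      rw [le_div_iff₀ hp, sub_mul, ← mul_pow]
      simpa using (Int.sub_one_lt_floor (t * 2 ^ n)).le
    · have hp : (0 : ℝ) < 2 ^ n := by positivity
      rw [div_le_iff₀ hp]
      exact Int.floor_le _
  refine ⟨fun n => ⌊t * 2 ^ n⌋, fun ω x => ⟨XL_SS1 h ω, fun hx => ?_⟩⟩
  have h2 := XL_SS1 (s := fun n => -⌊t * 2 ^ n⌋) (t := -t) (by simpa [neg_div] using h.neg)
    (SS (fun n => ⌊t * 2 ^ n⌋) ω) (x := x + t) (by
      convert hx
      funext n z
      simp [SS, sh])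
  simpa using h2

lemma XL_cov {ω : UO} (h : ∀ᶠ n in (UU : Filter ℕ), Sep (2 ^ n) (ω n) ∧ Cov (2 * 2 ^ n) (ω n))
    (t : ℝ) : (XL ω ∩ Set.Icc t (t + 3)).Nonempty := by
  refine ulim (h.mono fun n hn => ?_)
  obtain ⟨z, z1, z2, z3⟩ := hn.2 ⌈t * 2 ^ n⌉
  have hp : (0 : ℝ) < 2 ^ n := by positivity
  refine ⟨z, ⟨z1, fun y a b c => ?_⟩, ?_, ?_⟩
  · rcases lt_trichotomy y z with h1 | h1 | h1
    · have := hn.1 y z c z1 h1; omega
    · exact h1
    · have := hn.1 z y z1 c h1; omega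
  · rw [le_div_iff₀ hp]
    exact Int.ceil_le.1 z2
  · rw [div_le_iff₀ hp]
    have h1 : (z : ℝ) < ⌈t * 2 ^ n⌉ + 2 * 2 ^ n := by exact_mod_cast z3
    have h2 := Int.ceil_lt_add_one (t * 2 ^ n)
    have h3 : (1 : ℝ) ≤ 2 ^ n := one_le_pow₀ (by norm_num)
    linarith

end H96.PP
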