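import Pool.Agent.H96.BF

set_option autoImplicit false
open scoped Classical
open Set Filter Topology

namespace Pool.Agent.H96.PR

variable (M : ℕ → ℕ)

/-- length of blocks -/
def L : ℕ → ℕ
  | 0 => 1
  | k + 1 => (M (L k) + 2) * L k

lemma L_pos : ∀ k, 0 < L M k
  | 0 => one_pos
  | k + 1 => Nat.mul_pos (Nat.succ_pos _) (L_pos k)

instance (k : ℕ) : NeZero (L M k) := ⟨(L_pos M k).ne'⟩

lemma lt_L : ∀ k, k < L M k
  | 0 => one_pos
  | k + 1 => by have := lt_L k; simp only [L]; nlinarith [Nat.zero_le (M (L M k) * L M k)]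

lemma L_dvd (k : ℕ) : L M k ∣ L M (k + 1) := Dvd.intro_left _ rfl

lemma L_mono {k K : ℕ} (h : k ≤ K) : L M k ≤ L M K := by
  induction h with
  | refl => rfl
  | step _ ih => exact ih.trans (Nat.le_of_dvd (L_pos M _) (L_dvd M _))

/-- admissible k-blocks -/
def B : ℕ → (ℤ → ZMod 3) → ℤ → Prop
  | 0, _, _ => True
  | k + 1, x, s => (∀ i < M (L M k) + 2, B k x (s + i * L M k)) ∧
      ∀ y, B k y 0 → ∃ i < M (L M k) + 2, ∀ q < L M k, x (s + i * L M k + q) = y q

lemma slot_lt {k i q : ℕ} (hi : i < M (L M k) + 2) (hq : q < L M k) :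
    i * L M k + q < L M (k + 1) := by
  have : (i + 1) * L M k ≤ (M (L M k) + 2) * L M k := Nat.mul_le_mul_right _ hi
  simp only [L]; nlinarith

lemma B_loc : ∀ k (x x' : ℤ → ZMod 3) (s s' : ℤ), (∀ q < L M k, x (s + q) = x' (s' + q)) →
    B M k x s → B M k x' s'
  | 0, _, _, _, _, _, _ => trivial
  | k + 1, x, x', s, s', h, hB => by
    have h' : ∀ i < M (L M k) + 2, ∀ q < L M k,
        x (s + i * L M k + q) = x' (s' + i * L M k + q) := fun i hi q hq => by
      have := h _ (slot_lt M hi hq)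
      push_cast at this
      rwa [← add_assoc, ← add_assoc] at this
    refine ⟨fun i hi => B_loc k x x' _ _ (h' i hi) (hB.1 i hi), fun y hy => ?_⟩
    obtain ⟨i, hi, h2⟩ := hB.2 y hy
    exact ⟨i, hi, fun q hq => (h' i hi q hq).symm.trans (h2 q hq)⟩

lemma B_sh {k : ℕ} {x : ℤ → ZMod 3} {s : ℤ} (h : B M k x s) (t : ℤ) :
    B M k (fun n => x (n - t + s)) t :=
  B_loc M k _ _ _ _ (fun q _ => congrArg x (by ring)) h

lemma step (k : ℕ) (s : ℤ) (xs : ℕ → ℤ → ZMod 3)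
    (hxs : ∀ i < M (L M k) + 2, B M k (xs i) (s + i * L M k)) (i0 : ℕ)
    (hi0 : i0 + 3 ^ L M k ≤ M (L M k) + 2) : ∃ x, B M (k + 1) x s ∧
      ∀ i : ℕ, (i < i0 ∨ i0 + 3 ^ L M k ≤ i) → ∀ q < L M k,
        x (s + i * L M k + q) = xs i (s + i * L M k + q) := by
  let e : (Fin (L M k) → ZMod 3) ≃ Fin (3 ^ L M k) := Fintype.equivFinOfCardEq (by simp)
  let idx : (ℤ → ZMod 3) → ℕ := fun y => i0 + e fun q => y q
  let h : ℕ → ℤ → ZMod 3 := fun i =>
    if hh : ∃ y, B M k y 0 ∧ idx y = i then fun n => hh.choose (n - (s + i * L M k) + 0) else xs i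
  have hB : ∀ i < M (L M k) + 2, B M k (h i) (s + i * L M k) := fun i hi => by
    simp only [h]
    split_ifs with hh
    · exact B_sh M hh.choose_spec.1 _
    · exact hxs i hi
  let x : ℤ → ZMod 3 := fun n => h ((n - s).toNat / L M k) n
  have hx : ∀ i : ℕ, ∀ q < L M k, x (s + i * L M k + q) = h i (s + i * L M k + q) := by
    intro i q hq
    have h1 : (s + i * L M k + q - s).toNat = q + i * L M k := by
      rw [show s + i * L M k + q - s = ((q + i * L M k : ℕ) : ℤ) by push_cast; ring, Int.toNat_natCast]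
    simp only [x, h1, Nat.add_mul_div_right _ _ (L_pos M k), Nat.div_eq_of_lt hq, zero_add]
  refine ⟨x, ⟨fun i hi => B_loc M k _ _ _ _ (fun q hq => (hx i q hq).symm) (hB i hi), fun y hy => ?_⟩,
    fun i hi q hq => ?_⟩
  · have hh : ∃ y', B M k y' 0 ∧ idx y' = idx y := ⟨y, hy, rfl⟩
    refine ⟨idx y, by have := (e fun q => y q).2; simp only [idx]; omega, fun q hq => ?_⟩
    rw [hx _ q hq]
    simp only [h, dif_pos hh, add_sub_cancel_left, add_zero]
    have := e.injective (Fin.ext (Nat.add_left_cancel hh.choose_spec.2))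
    exact congrFun this ⟨q, hq⟩
  · rw [hx i q hq]
    simp only [h]
    rw [dif_neg]
    rintro ⟨y, -, hy⟩
    have := (e fun q => y q).2
    simp only [idx] at hy
    omega

/-- M is adapted to the sparse set P -/
def Ad (P : Set ℤ) : Prop := ∀ l : ℕ, 0 < l → ∀ t : ℤ, ∃ i0 : ℕ, i0 + (2 * 3 ^ l + 3) ≤ M l ∧
  ∀ n ∈ P, ¬ (t + i0 * l ≤ n ∧ n < t + (i0 + (2 * 3 ^ l + 3) : ℕ) * l)

lemma step2 {P : Set ℤ} (hP : Ad M P) (k : ℕ) (F : Set ℤ) (c : ℤ)
    (hF : ∀ n ∈ F, c ≤ n ∧ n < c + 2 * L M k) (g : ℤ → ZMod 3) (s : ℤ)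
    (h : ∀ i < M (L M k) + 2, ∃ x, B M k x (s + i * L M k) ∧
      ∀ q < L M k, s + i * L M k + q ∈ P ∪ F → x (s + i * L M k + q) = g (s + i * L M k + q)) :
    ∃ x, B M (k + 1) x s ∧ ∀ q < L M (k + 1), s + q ∈ P ∪ F → x (s + q) = g (s + q) := by
  choose! xs h1 h2 using h
  obtain ⟨i0, hi0, hfree⟩ := hP _ (L_pos M k) s
  have hL : (0 : ℤ) < L M k := by exact_mod_cast L_pos M k
  obtain ⟨i1, a1, a2, a3⟩ : ∃ i1 : ℕ, i0 ≤ i1 ∧ i1 + 3 ^ L M k ≤ i0 + (2 * 3 ^ L M k + 3) ∧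
      ∀ n ∈ F, ¬ (s + i1 * L M k ≤ n ∧ n < s + (i1 + 3 ^ L M k : ℕ) * L M k) := by
    rcases le_or_gt (s + (i0 + 3 ^ L M k : ℕ) * L M k) c with hc | hc
    · exact ⟨i0, le_rfl, by omega, fun n hn h => by linarith [(hF n hn).1, h.2]⟩
    · refine ⟨i0 + 3 ^ L M k + 3, by omega, by omega, fun n hn h => ?_⟩
      have := (hF n hn).2
      have := h.1
      push_cast at *
      linarith
  obtain ⟨x, hx, hx'⟩ := step M k s xs h1 i1 (by omega)
  refine ⟨x, hx, fun q hq hm => ?_⟩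
  have e := Nat.div_add_mod q (L M k)
  have hi : q / L M k < M (L M k) + 2 := (Nat.div_lt_iff_lt_mul (L_pos M k)).2 hq
  have hr := Nat.mod_lt q (L_pos M k)
  generalize q / L M k = i at *
  generalize q % L M k = r at *
  have e' : s + q = s + i * L M k + r := by rw [← e]; push_cast; ring
  rw [e'] at hm ⊢
  rw [hx' i _ r hr, h2 i hi r hr hm]
  by_contra hc
  push Not at hc
  have b1 : (i1 : ℤ) * L M k ≤ i * L M k := mul_le_mul_of_nonneg_right (by exact_mod_cast hc.1) hL.le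
  have b2 : ((i : ℤ) + 1) * L M k ≤ (i1 + 3 ^ L M k : ℕ) * L M k :=
    mul_le_mul_of_nonneg_right (by exact_mod_cast hc.2) hL.le
  have b3 : (i0 : ℤ) * L M k ≤ i1 * L M k := mul_le_mul_of_nonneg_right (by exact_mod_cast a1) hL.le
  have b4 : ((i1 + 3 ^ L M k : ℕ) : ℤ) * L M k ≤ (i0 + (2 * 3 ^ L M k + 3) : ℕ) * L M k :=
    mul_le_mul_of_nonneg_right (by exact_mod_cast a2) hL.le
  have b5 : (r : ℤ) < L M k := by exact_mod_cast hr
  have b6 : (0 : ℤ) ≤ r := Int.natCast_nonneg r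
  rcases hm with hm | hm
  · exact hfree _ hm ⟨by linarith, by linarith⟩
  · exact a3 _ hm ⟨by linarith, by linarith⟩

lemma pure_int {P : Set ℤ} (hP : Ad M P) (g : ℤ → ZMod 3) : ∀ k s, ∃ x, B M k x s ∧
    ∀ q < L M k, s + q ∈ P ∪ ∅ → x (s + q) = g (s + q)
  | 0, _ => ⟨g, trivial, fun _ _ _ => rfl⟩
  | k + 1, s => step2 M hP k ∅ 0 (fun _ h => h.elim) g s fun _ _ => pure_int hP g k _

/-- ambient space -/
abbrev Amb : Type := (ℤ → ZMod 3) × (∀ k, ZMod (L M k))

/-- consistency of the positions -/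
def Cons (z : ∀ k, ZMod (L M k)) : Prop :=
  ∀ k, ZMod.castHom (L_dvd M k) (ZMod (L M k)) (z (k + 1)) = z k

/-- all k-blocks are admissible -/
def Val (k : ℕ) (x : Amb M) : Prop := ∀ s : ℤ, (s : ZMod (L M k)) + x.2 k = 0 → B M k x.1 s

variable {M}

lemma start_down {z : ∀ k, ZMod (L M k)} (h : Cons M z) {k : ℕ} {s : ℤ}
    (hs : (s : ZMod (L M (k + 1))) + z (k + 1) = 0) : (s : ZMod (L M k)) + z k = 0 := by
  have := congrArg (ZMod.castHom (L_dvd M k) (ZMod (L M k))) hs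
  rwa [map_add, map_intCast, h k, map_zero] at this

lemma exists_start (z : ∀ k, ZMod (L M k)) (k : ℕ) (n : ℤ) :
    ∃ r : ℕ, r < L M k ∧ ((n - r : ℤ) : ZMod (L M k)) + z k = 0 :=
  ⟨((n : ZMod (L M k)) + z k).val, ZMod.val_lt _, by push_cast; simp⟩

lemma start_dvd {z : ∀ k, ZMod (L M k)} {k : ℕ} {s s' : ℤ} (h : (s : ZMod (L M k)) + z k = 0)
    (h' : (s' : ZMod (L M k)) + z k = 0) : (L M k : ℤ) ∣ s - s' := by
  rw [← ZMod.intCast_zmod_eq_zero_iff_dvd]
  push_cast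
  linear_combination h - h'

lemma val_down {x : Amb M} (h : Cons M x.2) {k : ℕ} (hv : Val M (k + 1) x) : Val M k x := by
  intro s hs
  obtain ⟨r, hr, h1⟩ := exists_start x.2 (k + 1) s
  have h3 := start_dvd hs (start_down h h1)
  rw [sub_sub_cancel, Int.natCast_dvd_natCast] at h3
  obtain ⟨i, rfl⟩ := h3
  have hi : i < M (L M k) + 2 := by
    have := (Nat.div_lt_iff_lt_mul (L_pos M k)).2 hr
    rwa [Nat.mul_div_cancel_left _ (L_pos M k)] at this
  have := (hv _ h1).1 i hi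
  rwa [show s - ((L M k * i : ℕ) : ℤ) + i * L M k = s by push_cast; ring] at this

lemma closed_val (k : ℕ) : IsClosed {x : Amb M | Val M k x} := by
  simp only [Val, ofPred_forall]
  refine isClosed_iInter fun s => ?_
  have h1 : Continuous fun x : Amb M => (x.2 k, fun q : Fin (L M k) => x.1 (s + q)) := by fun_prop
  have := (isClosed_discrete {d : ZMod (L M k) × (Fin (L M k) → ZMod 3) |
    (s : ZMod (L M k)) + d.1 = 0 → ∃ y, B M k y s ∧ ∀ q : Fin (L M k), y (s + q) = d.2 q}).preimage h1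
  convert this using 1
  ext x
  simp only [mem_iInter, mem_ofPred_eq, mem_preimage]
  exact imp_congr_right fun _ => ⟨fun h => ⟨_, h, fun _ => rfl⟩,
    fun ⟨y, h, h'⟩ => B_loc M k _ _ _ _ (fun q hq => h' ⟨q, hq⟩) h⟩

lemma closed_cons : IsClosed {x : Amb M | Cons M x.2} := by
  simp only [Cons, ofPred_forall]
  exact isClosed_iInter fun k => isClosed_eq
    (continuous_of_discreteTopology.comp (by fun_prop : Continuous fun x : Amb M => x.2 (k + 1)))
    (by fun_prop)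

lemma glob {z : ∀ k, ZMod (L M k)} (hz : Cons M z) (Q : Set ℤ) (g : ℤ → ZMod 3) (K : ℕ)
    (h : ∀ k, K ≤ k → ∀ s : ℤ, (s : ZMod (L M k)) + z k = 0 → ∃ x, B M k x s ∧
      ∀ q < L M k, s + q ∈ Q → x (s + q) = g (s + q)) :
    ∃ x : Amb M, x.2 = z ∧ (∀ k, Val M k x) ∧ ∀ n ∈ Q, x.1 n = g n := by
  let C : ℕ → Set (Amb M) := fun k =>
    {x | x.2 = z} ∩ ({x | Val M (K + k) x} ∩ ⋂ n ∈ Q, {x | x.1 n = g n})
  have hcl : ∀ k, IsClosed (C k) := fun k =>
    (isClosed_eq continuous_snd continuous_const).inter ((closed_val _).inter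
      (isClosed_biInter fun n _ => isClosed_eq (by fun_prop) continuous_const))
  obtain ⟨x, hx⟩ := IsCompact.nonempty_iInter_of_sequence_nonempty_isCompact_isClosed C
    (fun k x hx => ⟨hx.1, val_down (hx.1 ▸ hz) hx.2.1, hx.2.2⟩)
    (fun k => by
      choose! X h1 h2 using h (K + k) (Nat.le_add_right _ _)
      choose r hr hs using exists_start z (K + k)
      refine ⟨(fun n => X (n - r n) n, z), rfl, fun s hs' => ?_, mem_iInter₂.2 fun n hn => ?_⟩
      · refine B_loc M _ _ _ _ _ (fun q hq => ?_) (h1 s hs')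
        have h3 := start_dvd (hs (s + q)) hs'
        have h4 := hr (s + q)
        have : s + q - r (s + q) - s = 0 := Int.eq_zero_of_abs_lt_dvd h3 (by rw [abs_lt]; omega)
        change _ = X (s + q - r (s + q)) _
        rw [sub_eq_zero.1 this]
      · have := h2 _ (hs n) _ (hr n) (by simpa using hn)
        simpa using this)
    (hcl 0).isCompact hcl
  rw [mem_iInter] at hx
  refine ⟨x, (hx 0).1, fun k => ?_, fun n hn => mem_iInter₂.1 (hx 0).2.2 n hn⟩
  have key : ∀ j, Val M (k + j) x → Val M k x := fun j => by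
    induction j with
    | zero => exact id
    | succ j ih => exact fun h => ih (val_down ((hx 0).1 ▸ hz) h)
  exact key K (add_comm K k ▸ (hx k).2.1)

lemma exists_pt {P : Set ℤ} (hP : Ad M P) : ∃ x : Amb M, Cons M x.2 ∧ ∀ k, Val M k x := by
  have h0 : Cons M 0 := fun k => map_zero _
  obtain ⟨x, h1, h2, -⟩ := glob h0 (P ∪ ∅) 0 0 fun k _ s _ => pure_int M hP 0 k s
  exact ⟨x, h1 ▸ h0, h2⟩

lemma interp {P : Set ℤ} (hP : Ad M P) (x0 : Amb M) (hz : Cons M x0.2) (hv : ∀ k, Val M k x0)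
    (R : ℕ) : ∃ F : Set ℤ, F.Finite ∧ (∀ n : ℤ, n.natAbs ≤ R → n ∈ F) ∧ ∀ f : ℤ → ZMod 3,
      ∃ x : Amb M, x.2 = x0.2 ∧ (∀ k, Val M k x) ∧ (∀ n ∈ F, x.1 n = x0.1 n) ∧
        ∀ n ∈ P, n ∉ F → x.1 n = f n := by
  let K := 2 * R
  have hK := lt_L M K
  obtain ⟨r, hr, hc⟩ := exists_start x0.2 K (-R)
  set c : ℤ := -R - r with hcd
  refine ⟨Ico c (c + 2 * L M K), finite_Ico _ _, fun n hn => ⟨by omega, by omega⟩, fun f => ?_⟩
  let g : ℤ → ZMod 3 := fun n => if n ∈ Ico c (c + 2 * L M K) then x0.1 n else f n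
  obtain ⟨x, h1, h2, h3⟩ := glob hz (P ∪ Ico c (c + 2 * L M K)) g K (by
    intro k hk
    induction hk with
    | refl =>
      intro s hs
      obtain ⟨m, hm⟩ := start_dvd hs hc
      have hL : (0 : ℤ) < L M K := by exact_mod_cast L_pos M K
      by_cases h : m = 0 ∨ m = 1
      · refine ⟨x0.1, hv _ s hs, fun q hq _ => (if_pos ?_).symm⟩
        have : (q : ℤ) < L M K := by exact_mod_cast hq
        rcases h with rfl | rfl <;> constructor <;> linarith [Int.natCast_nonneg q]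
      · obtain ⟨x, h1, h2⟩ := pure_int M hP g K s
        refine ⟨x, h1, fun q hq hm' => h2 q hq (hm'.imp id fun h' => ?_)⟩
        have : (q : ℤ) < L M K := by exact_mod_cast hq
        have a1 : -1 < m := by nlinarith [h'.1]
        have a2 : m < 2 := by nlinarith [h'.2, Int.natCast_nonneg q]
        omega
    | @step k hk ih =>
      intro s hs
      refine step2 M hP k _ c (fun n hn => ⟨hn.1, ?_⟩) g s fun i _ => ih _ ?_
      · have := L_mono M hk
        have := hn.2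
        omega
      · rw [← start_down hz hs]; push_cast; simp)
  exact ⟨x, h1, h2, fun n hn => (h3 n (Or.inr hn)).trans (if_pos hn),
    fun n hn hn' => (h3 n (Or.inl hn)).trans (if_neg hn')⟩

end Pool.Agent.H96.PR
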