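import Pool.Agent.H96.PR1

set_option autoImplicit false
open scoped Classical
open Set Filter Topology

namespace Pool.Agent.H96.PR

variable (M : ℕ → ℕ)

/-- the phase space -/
abbrev XX : Type := {x : Amb M // Cons M x.2 ∧ ∀ k, Val M k x}

instance : TopologicalSpace.MetrizableSpace (XX M) := by
  have : TopologicalSpace.MetrizableSpace (Amb M) := inferInstance
  exact TopologicalSpace.MetrizableSpace.subtype (X := Amb M) {x | Cons M x.2 ∧ ∀ k, Val M k x}

instance : CompactSpace (XX M) := by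
  refine isCompact_iff_compactSpace.1
    (IsClosed.isCompact (s := {x : Amb M | Cons M x.2 ∧ ∀ k, Val M k x}) ?_)
  rw [ofPred_and, ofPred_forall]
  exact closed_cons.inter (isClosed_iInter closed_val)

instance : TotallyDisconnectedSpace (XX M) :=
  Subtype.totallyDisconnectedSpace

variable {M}

/-- shift by m -/
def sh (m : ℤ) (x : XX M) : XX M :=
  ⟨(fun n => x.1.1 (n + m), fun k => x.1.2 k + m), fun k => by
    simp only [map_add, map_intCast, x.2.1 k], fun k s hs =>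
    B_loc M k _ _ _ _ (fun q _ => congrArg x.1.1 (by ring))
      (x.2.2 k (s + m) (by rw [← hs]; push_cast; ring))⟩

lemma sh_add (m m' : ℤ) (x : XX M) : sh m (sh m' x) = sh (m + m') x :=
  Subtype.ext (Prod.ext (funext fun n => congrArg x.1.1 (add_assoc _ _ _))
    (funext fun k => by simp only [sh]; push_cast; ring))

lemma sh_zero (x : XX M) : sh 0 x = x :=
  Subtype.ext (Prod.ext (funext fun n => congrArg x.1.1 (add_zero _))
    (funext fun k => by simp [sh]))

lemma cont_sh (m : ℤ) : Continuous (sh (M := M) m) := by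
  refine Continuous.subtype_mk ?_ _
  have : Continuous fun x : XX M => x.1 := continuous_subtype_val
  fun_prop

/-- the shift -/
def TT (m : ℤ) : XX M ≃ₜ XX M where
  toFun := sh m
  invFun := sh (-m)
  left_inv x := by rw [sh_add, neg_add_cancel]; exact sh_zero x
  right_inv x := by rw [sh_add, add_neg_cancel]; exact sh_zero x
  continuous_toFun := cont_sh m
  continuous_invFun := cont_sh (-m)

lemma TT_zpow (n : ℤ) : (TT (M := M) 1) ^ n = TT n := by
  have h : ∀ a b : ℤ, TT (M := M) (a + b) = TT a * TT b := fun a b =>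
    Homeomorph.ext fun x => (sh_add a b x).symm
  induction n using Int.induction_on with
  | zero => exact Homeomorph.ext fun x => (sh_zero x).symm
  | succ n ih => rw [zpow_add_one, ih, h]
  | pred n ih => rw [zpow_sub_one, ih, sub_eq_add_neg, h]; rfl

lemma z_down {z z' : ∀ k, ZMod (L M k)} (h : Cons M z) (h' : Cons M z') {k K : ℕ} (hk : k ≤ K)
    (he : z K = z' K) : z k = z' k := by
  induction hk with
  | refl => exact he
  | step _ ih => exact ih (by rw [← h, ← h', he])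

lemma approx {P : Set ℤ} (hP : Ad M P) (x x' : XX M) (R : ℕ) : ∃ m : ℤ,
    (∀ i : ℤ, i.natAbs ≤ R → (sh m x).1.1 i = x'.1.1 i) ∧ ∀ k ≤ R, (sh m x).1.2 k = x'.1.2 k := by
  let k := 2 * R
  have hk := lt_L M k
  obtain ⟨r, hr, hs⟩ := exists_start x'.1.2 k (-R)
  set s : ℤ := -R - r with hsd
  obtain ⟨i0, hi0, -⟩ := hP _ (L_pos M k) 0
  obtain ⟨D, hD, hD'⟩ := step M k s
    (fun i => if i < 2 then x'.1.1 else fun n => x'.1.1 (n - (s + i * L M k) + s))
    (fun i _ => by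
      split_ifs
      · exact x'.2.2 k _ (by rw [← hs]; push_cast; simp)
      · exact B_sh M (x'.2.2 k _ hs) _) 2 (by omega)
  obtain ⟨r', -, ht⟩ := exists_start x.1.2 (k + 2) 0
  obtain ⟨j, -, hj⟩ := (x.2.2 _ _ ht).2 _ (B_sh M hD 0)
  refine ⟨0 - r' + j * L M (k + 1) - s, fun i hi => ?_, fun k' hk' => ?_⟩
  · have t2 : 2 * L M k ≤ L M (k + 1) := Nat.mul_le_mul_right _ (by omega)
    have h1 := hj (i - s).toNat (by omega)
    have h2 : D i = x'.1.1 i := by
      rcases lt_or_ge (i - s).toNat (L M k) with h | h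
      · have := hD' 0 (Or.inl (by omega)) _ h
        simp only [Nat.ofNat_pos, if_true] at this
        rwa [show s + (0 : ℕ) * L M k + (i - s).toNat = i by omega] at this
      · have := hD' 1 (Or.inl (by omega)) ((i - s).toNat - L M k) (by omega)
        simp only [Nat.one_lt_ofNat, if_true] at this
        rwa [show s + (1 : ℕ) * L M k + ((i - s).toNat - L M k : ℕ) = i by omega] at this
    rw [← h2]
    refine Eq.trans (congrArg x.1.1 ?_) (h1.trans (congrArg D (by omega)))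
    generalize (j : ℤ) * L M (k + 1) = A
    omega
  · refine z_down (sh _ x).2.1 x'.2.1 (hk'.trans (show R ≤ k by omega)) ?_
    have h1 := start_down x.2.1 (start_down x.2.1 ht)
    have h2 : ((L M (k + 1) : ℕ) : ZMod (L M k)) = 0 := (ZMod.natCast_eq_zero_iff _ _).2 (L_dvd M k)
    change x.1.2 k + _ = _
    push_cast at h1 ⊢
    rw [h2]
    linear_combination h1 - hs

lemma conv {x' : XX M} {f : ℕ → XX M} (h : ∀ R, (∀ i : ℤ, i.natAbs ≤ R → (f R).1.1 i = x'.1.1 i) ∧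
    ∀ k ≤ R, (f R).1.2 k = x'.1.2 k) : Tendsto f atTop (𝓝 x') := by
  refine tendsto_subtype_rng.2 (Prod.tendsto_iff _ _ |>.2 ⟨tendsto_pi_nhds.2 fun i => ?_,
    tendsto_pi_nhds.2 fun k => ?_⟩)
  · exact tendsto_const_nhds.congr' ((eventually_ge_atTop i.natAbs).mono fun M hh =>
      ((h M).1 i hh).symm)
  · exact tendsto_const_nhds.congr' ((eventually_ge_atTop k).mono fun M hh =>
      ((h M).2 k hh).symm)

theorem TT_min {P : Set ℤ} (hP : Ad M P) (x : XX M) :
    Dense (range fun n : ℤ => ((TT 1) ^ n) x) := by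
  intro x'
  choose m hm using approx hP x x'
  exact mem_closure_of_tendsto (conv hm) (Eventually.of_forall fun R => ⟨m R, by simp only [TT_zpow]; rfl⟩)

lemma cont_letter (n : ℤ) : Continuous fun x : XX M => x.1.1 n :=
  (continuous_apply n).comp continuous_subtype_val.fst

theorem rich {P : Set ℤ} (hP : Ad M P) (u : ℕ → ℤ) (hu : ∀ j, u j ∈ P)
    (hu' : ∀ F : Set ℤ, F.Finite → ∃ N, ∀ j, N < j → u j ∉ F) :
    BF.Rich fun j => {x : XX M | x.1.1 (u j) = x.1.1 0} := by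
  have key : ∀ (x0 : XX M) (U : Set (XX M)), IsOpen U → x0 ∈ U → ∀ f : ℤ → ZMod 3,
      ∃ F : Set ℤ, F.Finite ∧ 0 ∈ F ∧ ∃ x ∈ U, (∀ n ∈ F, x.1.1 n = x0.1.1 n) ∧
        ∀ n ∈ P, n ∉ F → x.1.1 n = f n := by
    intro x0 U hU h0 f
    choose F h1 h2 x h3 h4 h5 h6 using interp hP x0.1 x0.2.1 x0.2.2
    have := conv (x' := x0) (f := fun R => ⟨x R f, h3 R f ▸ x0.2.1, h4 R f⟩) fun R =>
      ⟨fun i hi => h5 R f i (h2 R i hi), fun k _ => congrFun (h3 R f) k⟩
    obtain ⟨R, hR⟩ := (this.eventually (hU.mem_nhds h0)).exists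
    exact ⟨F R, h1 R, h2 R 0 (by simp), _, hR, h5 R f, h6 R f⟩
  refine ⟨fun j => (isClopen_discrete {d : ZMod 3 × ZMod 3 | d.1 = d.2}).preimage
    ((cont_letter (u j)).prodMk (cont_letter 0)), ?_, ?_⟩
  · rintro U hU ⟨x0, h0⟩
    obtain ⟨F, h1, h2, x, h3, h4, h5⟩ := key x0 U hU h0 fun _ => x0.1.1 0 - 1
    obtain ⟨N, hN⟩ := hu' F h1
    refine ⟨N, x, h3, fun j hj h => MR.ne_sub (x0.1.1 0) ?_⟩
    rw [← h5 _ (hu j) (hN j hj), ← h4 0 h2]; exact h.symm
  · rintro N U hU x0 ⟨h0, h0'⟩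
    have : ∀ a b : ZMod 3, ∃ c, c ≠ a ∧ c ≠ b := by decide
    choose c hc using this
    obtain ⟨F, h1, h2, x, h3, h4, h5⟩ := key x0 U hU h0 fun n => c (x0.1.1 0) (x0.1.1 n)
    obtain ⟨N', hN⟩ := hu' F h1
    refine ⟨x, ⟨h3, fun j hj h => ?_⟩, fun h => ?_⟩
    · have h : x.1.1 (u j) = x.1.1 0 := h
      rw [h4 0 h2] at h
      by_cases hF : u j ∈ F
      · exact h0' j hj ((h4 _ hF).symm.trans h)
      · exact (hc _ _).1 ((h5 _ (hu j) hF).symm.trans h)
    · have := h5 _ (hu (N' + 1)) (hN _ (Nat.lt_succ_self _))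
      rw [h] at this
      exact (hc _ _).2 this.symm

/-- every interval of length m contains an interval of length l free of P -/
def Free (P : Set ℤ) (l m : ℕ) : Prop :=
  ∀ t : ℤ, ∃ s : ℤ, t ≤ s ∧ s + l ≤ t + m ∧ ∀ n ∈ P, ¬ (s ≤ n ∧ n < s + l)

lemma Free.union {P Q : Set ℤ} {l m m' : ℕ} (hQ : Free Q l m) (hP : Free P m m') :
    Free (P ∪ Q) l m' := fun t => by
  obtain ⟨s, a, b, c⟩ := hP t
  obtain ⟨s', a', b', c'⟩ := hQ s
  refine ⟨s', by omega, by omega, fun n hn h => ?_⟩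
  rcases hn with hn | hn
  · exact c n hn ⟨by omega, by omega⟩
  · exact c' n hn h

lemma free_sep {P : Set ℤ} {l : ℕ} (h : ∀ a ∈ P, ∀ b ∈ P, a < b → a + 2 * l ≤ b) :
    Free P l (2 * l) := fun t => by
  by_cases h1 : ∀ n ∈ P, ¬ (t ≤ n ∧ n < t + l)
  · exact ⟨t, le_rfl, by omega, h1⟩
  · push Not at h1
    obtain ⟨a, ha, h2, h3⟩ := h1
    refine ⟨t + l, by omega, by omega, fun b hb h4 => ?_⟩
    have := h a ha b hb (by omega)
    omega

lemma free_fin {P : Set ℤ} (h : P.Finite) : ∀ l, ∃ m, Free P l m := by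
  induction P, h using Set.Finite.induction_on with
  | empty => exact fun l => ⟨l, fun t => ⟨t, le_rfl, le_rfl, fun _ h => h.elim⟩⟩
  | @insert a s _ _ ih =>
    intro l
    obtain ⟨m, hm⟩ := ih l
    exact ⟨2 * m, hm.union (P := {a}) (free_sep fun _ h _ h' hl => by
      rw [h, h'] at hl; exact absurd hl (lt_irrefl _))⟩

lemma exists_ad {P : Set ℤ} (h : ∀ l, ∃ m, Free P l m) : ∃ M, Ad M P := by
  choose m hm using h
  refine ⟨fun l => m ((2 * 3 ^ l + 4) * l), fun l hl t => ?_⟩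
  obtain ⟨s, a, b, c⟩ := hm ((2 * 3 ^ l + 4) * l) t
  obtain ⟨d, rfl⟩ : ∃ d : ℕ, s = t + d := ⟨(s - t).toNat, by omega⟩
  have e := Nat.div_add_mod d l
  have e' := Nat.mod_lt d hl
  have b' : d + (2 * 3 ^ l + 4) * l ≤ m ((2 * 3 ^ l + 4) * l) := by omega
  refine ⟨d / l + 1, ?_, fun n hn h => c n hn ⟨?_, ?_⟩⟩
  · dsimp only
    generalize m ((2 * 3 ^ l + 4) * l) = A at *
    generalize 3 ^ l = E at *
    nlinarith [Nat.zero_le (d / l), Nat.zero_le (d % l)]
  · have h1 : d ≤ (d / l + 1) * l := by nlinarith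
    have h2 := h.1
    have : ((d : ℕ) : ℤ) ≤ ((d / l + 1 : ℕ) : ℤ) * l := by exact_mod_cast h1
    linarith
  · have h1 : (d / l + 1 + (2 * 3 ^ l + 3)) * l ≤ d + (2 * 3 ^ l + 4) * l := by
      nlinarith [Nat.zero_le (d % l)]
    have h2 := h.2
    have : ((d / l + 1 + (2 * 3 ^ l + 3) : ℕ) : ℤ) * l ≤ d + ((2 * 3 ^ l + 4) * l : ℕ) := by
      exact_mod_cast h1
    linarith

open Polynomial in
lemma free_poly (p : ℤ[X]) (hp : 2 ≤ p.natDegree) (l : ℕ) :
    ∃ m, Free (range fun n : ℕ => p.eval (n : ℤ)) l m := by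
  let r : ℝ[X] := p.map (Int.castRingHom ℝ)
  have hr : r.natDegree = p.natDegree := natDegree_map_eq_of_injective Int.cast_injective p
  have hd : 0 < (derivative r).degree := by
    rw [← natDegree_pos_iff_degree_pos, natDegree_derivative]; omega
  obtain ⟨x0, hx0⟩ := eventually_atTop.1 ((abs_tendsto_atTop _ hd).eventually_ge_atTop (2 * l))
  obtain ⟨n0, hn0⟩ := exists_nat_ge x0
  have ev : ∀ n : ℕ, r.eval (n : ℝ) = ((p.eval (n : ℤ) : ℤ) : ℝ) := fun n =>
    eval_natCast_map _ p n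
  have sep : ∀ a b : ℕ, n0 ≤ a → a < b → (2 * l : ℤ) ≤ |p.eval (b : ℤ) - p.eval (a : ℤ)| := by
    intro a b ha hab
    have hab' : (a : ℝ) + 1 ≤ b := by exact_mod_cast hab
    obtain ⟨c, hc, h⟩ := exists_hasDerivAt_eq_slope (fun x => r.eval x) (fun x => (derivative r).eval x)
      (show (a : ℝ) < b by linarith) r.continuous.continuousOn fun x _ => r.hasDerivAt x
    have h1 := hx0 c (by have : (n0 : ℝ) ≤ a := by exact_mod_cast ha
                         linarith [hc.1])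
    rw [h, abs_div, le_div_iff₀ (abs_pos.2 (by linarith)), ev, ev,
      abs_of_pos (a := (b : ℝ) - a) (by linarith)] at h1
    have h2 : (2 * l : ℝ) ≤ |((p.eval (b : ℤ) : ℤ) : ℝ) - ((p.eval (a : ℤ) : ℤ) : ℝ)| := by
      nlinarith [Nat.cast_nonneg (α := ℝ) l]
    exact_mod_cast h2
  obtain ⟨m, hm⟩ := free_fin ((finite_Iio n0).image fun n : ℕ => p.eval (n : ℤ)) (2 * l)
  refine ⟨m, ?_⟩
  rw [← image_univ, ← Iio_union_Ici (a := n0), image_union]
  refine Free.union (free_sep ?_) hm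
  rintro _ ⟨a, ha, rfl⟩ _ ⟨b, hb, rfl⟩ h
  dsimp only at h ⊢
  rcases lt_trichotomy a b with h' | rfl | h'
  · have := sep a b ha h'
    rw [abs_of_pos (by linarith)] at this; linarith
  · exact absurd h (lt_irrefl _)
  · have := sep b a hb h'
    rw [abs_of_neg (by linarith)] at this; linarith

open Polynomial in
lemma free_poly' (p : ℤ[X]) (hp : 2 ≤ p.natDegree) (l : ℕ) :
    ∃ m, Free (range fun n : ℤ => p.eval n) l m := by
  obtain ⟨m, hm⟩ := free_poly p hp l
  obtain ⟨m', hm'⟩ := free_poly (p.comp (-X)) (by rw [natDegree_comp]; simpa using hp) m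
  refine ⟨m', fun t => ?_⟩
  obtain ⟨s, a, b, c⟩ := hm.union hm' t
  refine ⟨s, a, b, ?_⟩
  rintro _ ⟨n, rfl⟩
  apply c
  rcases Int.eq_nat_or_neg n with ⟨k, rfl | rfl⟩
  · exact Or.inr ⟨k, rfl⟩
  · exact Or.inl ⟨k, by simp⟩

open Polynomial in
lemma fin_poly (p : ℤ[X]) (hp : 2 ≤ p.natDegree) (e : ℕ ≃ ℤ) (F : Set ℤ) (hF : F.Finite) :
    ∃ N, ∀ j, N < j → p.eval (e j) ∉ F := by
  have h1 : ∀ c, {n : ℤ | p.eval n = c}.Finite := fun c => by
    have : p - C c ≠ 0 := fun h => by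
      rw [sub_eq_zero.1 h, natDegree_C] at hp; omega
    exact (finite_setOfPred_isRoot this).subset fun n hn => by simpa [sub_eq_zero] using hn
  obtain ⟨N, hN⟩ := ((hF.biUnion fun c _ => h1 c).preimage e.injective.injOn).bddAbove
  exact ⟨N, fun j hj h => absurd (hN (mem_biUnion h rfl)) (not_le.2 hj)⟩

end Pool.Agent.H96.PR
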