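import Pool.Agent.H96.Lacunary
import Pool.Agent.H96.Flat

set_option autoImplicit false
open Filter Topology

namespace Pool.Agent.H96.PSAlg
open Pool.Agent.H96.Lacunary Pool.Agent.H96.Flat

variable {K : Type*} [RCLike K]

/-- radius of convergence of the Taylor series of a function of a real variable -/
noncomputable def radK (g : ℝ → K) (x : ℝ) : ENNReal :=
  (FormalMultilinearSeries.ofScalars K (fun n => iteratedDeriv n g x / n.factorial)).radius

theorem radK_of_clm (g : ℝ → K) (x : ℝ) (hg : ∀ n : ℕ, ContDiffAt ℝ n g x) (L : K →L[ℝ] ℝ)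
    (hL : ∀ z, ‖L z‖ ≤ ‖z‖) (h : rad (fun t => L (g t)) x = 0) : radK g x = 0 := by
  apply le_antisymm _ zero_le
  rw [← h]
  apply FormalMultilinearSeries.radius_le_of_le
  intro n
  rw [FormalMultilinearSeries.ofScalars_norm, FormalMultilinearSeries.ofScalars_norm, norm_div,
    norm_div, RCLike.norm_natCast, RCLike.norm_natCast]
  gcongr
  have : iteratedDeriv n (fun t => L (g t)) x = L (iteratedDeriv n g x) := by
    rw [iteratedDeriv_eq_iteratedFDeriv, iteratedDeriv_eq_iteratedFDeriv]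
    have := L.iteratedFDeriv_comp_left (hg n) (i := n) le_rfl
    rw [show (fun t => L (g t)) = L ∘ g from rfl, this]
    rfl
  rw [this]
  exact hL _

theorem nn_le (n N : ℕ) (h : n ≤ N) (hN : 1 ≤ N) :
    (n : ℝ) ^ n * n.factorial ≤ (N : ℝ) ^ N * N.factorial := by
  have h1 : (n : ℝ) ^ n ≤ (N : ℝ) ^ N :=
    le_trans (pow_le_pow_left₀ (by positivity) (by exact_mod_cast h) n)
      (pow_le_pow_right₀ (by exact_mod_cast hN) h)
  have h2 : (n.factorial : ℝ) ≤ N.factorial := by exact_mod_cast Nat.factorial_le h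
  gcongr

theorem smooth_at {F : Type*} [NormedAddCommGroup F] [NormedSpace ℝ F] {g : ℝ → F}
    (hg : ContDiff ℝ (⊤ : ℕ∞) g) (x : ℝ) (n : ℕ) : ContDiffAt ℝ n g x :=
  (hg.of_le (by exact_mod_cast le_top)).contDiffAt

/-- a smooth increasing function that is Pringsheim singular everywhere -/
theorem exists_base : ∃ f : ℝ → ℝ, ContDiff ℝ (⊤ : ℕ∞) f ∧ (∀ x, deriv f x ≠ 0) ∧
    ∀ x, rad f x = 0 := by
  let M : ℕ → ℝ := fun k => ((3 * k + 5 : ℕ) : ℝ) ^ (3 * k + 5) * (3 * k + 5).factorial
  have hA : ∀ k : ℕ, ‖(fun _ : ℕ => (1 : ℝ)) k‖ ≤ 1 := by simp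
  have hs := lac_smooth M (fun _ => (1 : ℝ)) 1 hA
  refine ⟨fun x => x + lac M (fun _ => (1 : ℝ)) x, contDiff_id.add hs, ?_, ?_⟩
  · intro x
    have h1 := lac_small M (fun _ => (1 : ℝ)) 1 hA 1 le_rfl x
    rw [iteratedDeriv_one, Real.norm_eq_abs, abs_le] at h1
    rw [deriv_fun_add differentiableAt_fun_id (hs.differentiable (by simp) x)]
    simp only [deriv_id'']
    linarith [h1.1]
  · intro x
    apply rad_zero
    intro k
    obtain ⟨n, hn1, hn2, S, hS, hb⟩ := lac_big M (fun _ => (1 : ℝ)) 1 hA (k + 2) x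
    refine ⟨n, by omega, ?_⟩
    rw [iteratedDeriv_fun_add contDiffAt_fun_id (smooth_at hs x n), iteratedDeriv_fun_id,
      if_neg (by omega), if_neg (by omega), zero_add, norm_div, RCLike.norm_natCast,
      le_div_iff₀ (by positivity)]
    have h1 := nn_le n (3 * (k + 2 + 1) + 5) (by omega) (by omega)
    have h2 : M (k + 2 + 1) ≤ S := le_trans (le_abs_self _) hS
    have h3 : 0 ≤ S := le_trans (abs_nonneg _) hS
    have h4 : (0 : ℝ) ≤ k := by positivity
    simp only [norm_one, one_mul] at hb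
    push_cast at hb
    simp only [M] at h2
    nlinarith

/-- exponentials -/
noncomputable def ex {ι : Type*} (β : ι → ℝ) (i : ι) : ℝ → K := fun y => ((Real.exp (β i * y) : ℝ) : K)

/-- exponentials as characters -/
noncomputable def chr (b : ℝ) : Multiplicative ℝ →* K where
  toFun y := ((Real.exp (b * y.toAdd) : ℝ) : K)
  map_one' := by simp
  map_mul' y z := by simp [mul_add, Real.exp_add]

theorem chr_inj : Function.Injective (chr : ℝ → (Multiplicative ℝ →* K)) := by
  intro a b h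
  have := DFunLike.congr_fun h (Multiplicative.ofAdd 1)
  simpa [chr] using this

theorem exp_linIndep : LinearIndependent K (fun b : ℝ => fun y : ℝ => ((Real.exp (b * y) : ℝ) : K)) :=
  (linearIndependent_monoidHom (Multiplicative ℝ) K).comp chr chr_inj

theorem ex_indep {ι : Type*} (β : ι → ℝ) (hβ : LinearIndependent ℚ β) (P : MvPolynomial ι K)
    (hP : MvPolynomial.aeval (ex β : ι → ℝ → K) P = 0) : P = 0 := by
  let γ : (ι →₀ ℕ) → ℝ := fun d => d.sum fun i e => e * β i
  have hγ : Function.Injective γ := by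
    intro d d' h
    have h1 : Finsupp.linearCombination ℚ β (d.mapRange Nat.cast (by simp)) =
        Finsupp.linearCombination ℚ β (d'.mapRange Nat.cast (by simp)) := by
      rw [Finsupp.linearCombination_apply, Finsupp.linearCombination_apply,
        Finsupp.sum_mapRange_index (by simp), Finsupp.sum_mapRange_index (by simp)]
      simpa [γ, Rat.smul_def] using h
    exact Finsupp.mapRange_injective _ _ Nat.cast_injective (hβ h1)
  have hli := (exp_linIndep (K := K)).comp γ hγ
  rw [linearIndependent_iff'] at hli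
  ext d
  by_cases hd : d ∈ P.support
  · refine hli P.support (fun d => P.coeff d) ?_ d hd
    rw [← hP, MvPolynomial.aeval_def, MvPolynomial.eval₂_eq]
    apply Finset.sum_congr rfl
    intro d _
    funext y
    simp [ex, γ, Finsupp.sum, Finset.sum_mul, Real.exp_sum, Real.exp_nat_mul, mul_assoc]
  · simpa using hd

theorem ex_analytic {ι : Type*} (β : ι → ℝ) (P : MvPolynomial ι K) (y : ℝ) :
    AnalyticAt ℝ (MvPolynomial.aeval (ex β : ι → ℝ → K) P) y := by
  induction P using MvPolynomial.induction_on with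
  | C a => rw [MvPolynomial.aeval_C]; exact analyticAt_const
  | add p q hp hq => rw [map_add]; exact hp.add hq
  | mul_X p i hp =>
    rw [map_mul, MvPolynomial.aeval_X]
    apply hp.mul
    exact ((RCLike.ofRealCLM (K := K)).analyticAt _).comp
      (f := fun y => Real.exp (β i * y)) (by fun_prop)

theorem ex_nonconst {ι : Type*} (β : ι → ℝ) (hβ : LinearIndependent ℚ β) (P : MvPolynomial ι K)
    (hP : P ≠ 0) (h0 : MvPolynomial.constantCoeff P = 0) (y0 : ℝ) :
    ¬ ∀ᶠ y in 𝓝 y0, MvPolynomial.aeval (ex β : ι → ℝ → K) P y =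
      MvPolynomial.aeval (ex β : ι → ℝ → K) P y0 := by
  intro h
  set c := MvPolynomial.aeval (ex β : ι → ℝ → K) P y0
  have h1 : MvPolynomial.aeval (ex β : ι → ℝ → K) P = fun _ => c :=
    AnalyticOnNhd.eq_of_eventuallyEq (fun y _ => ex_analytic β P y) analyticOnNhd_const h
  have h2 := ex_indep β hβ (P - MvPolynomial.C c) (by
    rw [map_sub, h1, MvPolynomial.aeval_C]; funext y; simp)
  rw [sub_eq_zero] at h2
  rw [h2, MvPolynomial.constantCoeff_C] at h0
  apply hP
  rw [h2, h0, map_zero]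

theorem radK_comp (f : ℝ → ℝ) (φ : ℝ → K) (x0 : ℝ) (hf : ∀ n : ℕ, ContDiffAt ℝ n f x0)
    (hd : deriv f x0 ≠ 0) (hφ : AnalyticAt ℝ φ (f x0))
    (hnc : ¬ ∀ᶠ y in 𝓝 (f x0), φ y = φ (f x0)) (h0 : rad f x0 = 0) :
    radK (fun x => φ (f x)) x0 = 0 := by
  have hg : ∀ n : ℕ, ContDiffAt ℝ n (fun x => φ (f x)) x0 := fun n => hφ.contDiffAt.comp x0 (hf n)
  by_cases h1 : ∀ᶠ y in 𝓝 (f x0), RCLike.re (φ y) - RCLike.re (φ (f x0)) = 0
  · by_cases h2 : ∀ᶠ y in 𝓝 (f x0), RCLike.im (φ y) - RCLike.im (φ (f x0)) = 0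
    · exfalso
      apply hnc
      filter_upwards [h1, h2] with y h3 h4
      exact RCLike.ext (by linarith) (by linarith)
    · exact radK_of_clm _ x0 hg RCLike.imCLM (fun z => RCLike.abs_im_le_norm z)
        (rad_comp f (fun y => RCLike.im (φ y)) x0 hf hd
          (((RCLike.imCLM (K := K)).analyticAt _).comp hφ) h2 h0)
  · exact radK_of_clm _ x0 hg RCLike.reCLM (fun z => RCLike.abs_re_le_norm z)
      (rad_comp f (fun y => RCLike.re (φ y)) x0 hf hd
        (((RCLike.reCLM (K := K)).analyticAt _).comp hφ) h1 h0)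

end Pool.Agent.H96.PSAlg
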