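import Pool.Agent.H96.PSAlg

set_option autoImplicit false
open Filter Topology

namespace Pool.Agent.H96.PSSpace
open Pool.Agent.H96.Lacunary Pool.Agent.H96.Flat Pool.Agent.H96.PSAlg

/-- bump functions with disjoint supports accumulating at zero -/
noncomputable def bump (j : ℕ) : ContDiffBump ((3 / 4 : ℝ) * (1 / 2) ^ j) :=
  ⟨(1 / 2) ^ j / 16, (1 / 2) ^ j / 8, by positivity, by
    have : (0 : ℝ) < (1 / 2) ^ j := by positivity
    linarith⟩

theorem bump_supp (j : ℕ) (x : ℝ) (h : bump j x ≠ 0) :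
    5 / 8 * (1 / 2) ^ j < x ∧ x < 7 / 8 * (1 / 2) ^ j := by
  have h1 : x ∈ Function.support (bump j) := h
  rw [ContDiffBump.support_eq, Metric.mem_ball, Real.dist_eq, abs_lt] at h1
  simp only [bump] at h1
  constructor <;> linarith [h1.1, h1.2]

theorem half_anti {i j : ℕ} (h : i < j) : (1 / 2 : ℝ) ^ j ≤ (1 / 2) ^ i / 2 := by
  calc (1 / 2 : ℝ) ^ j ≤ (1 / 2) ^ (i + 1) := pow_le_pow_of_le_one (by norm_num) (by norm_num) h
    _ = _ := by ring

theorem bump_unique (i j : ℕ) (x : ℝ) (hi : bump i x ≠ 0) (hj : bump j x ≠ 0) : i = j := by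
  have h1 := bump_supp i x hi
  have h2 := bump_supp j x hj
  have h3 : (0 : ℝ) < (1 / 2) ^ i := by positivity
  have h4 : (0 : ℝ) < (1 / 2) ^ j := by positivity
  rcases lt_trichotomy i j with h | h | h
  · have := half_anti h; linarith
  · exact h
  · have := half_anti h; linarith

theorem bump_bound (n j : ℕ) : ∃ B : ℝ, 0 ≤ B ∧ ∀ x, ‖iteratedDeriv n (bump j) x‖ ≤ B := by
  have h1 : HasCompactSupport (iteratedFDeriv ℝ n (bump j)) :=
    (bump j).hasCompactSupport.iteratedFDeriv n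
  have h2 : Continuous (iteratedFDeriv ℝ n (bump j)) :=
    ((bump j).contDiff (n := n)).continuous_iteratedFDeriv le_rfl
  obtain ⟨B, hB⟩ := h1.exists_bound_of_continuous h2
  refine ⟨B, le_trans (norm_nonneg _) (hB 0), fun x => ?_⟩
  rw [← norm_iteratedFDeriv_eq_norm_iteratedDeriv]
  exact hB x

variable {K : Type*} [RCLike K]

/-- the sum of the bumps with coefficients c -/
noncomputable def UU (c : ℕ → K) (x : ℝ) : K := ∑' j, bump j x • c j

theorem UU_cases (x : ℝ) : ∃ j, ∀ c : ℕ → K, HasSum (fun i => bump i x • c i) (bump j x • c j) := by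
  by_cases h : ∃ j, bump j x ≠ 0
  · obtain ⟨j, hj⟩ := h
    refine ⟨j, fun c => hasSum_single j fun i hi => ?_⟩
    by_cases h0 : bump i x = 0
    · rw [h0, zero_smul]
    · exact absurd (bump_unique i j x h0 hj) hi
  · push Not at h
    exact ⟨0, fun c => by simpa [h] using hasSum_zero⟩

theorem UU_add (c d : ℕ → K) (x : ℝ) : UU (c + d) x = UU c x + UU d x := by
  obtain ⟨j, hj⟩ := UU_cases (K := K) x
  simp only [UU, (hj _).tsum_eq, Pi.add_apply, smul_add]
  have := (hj (c + d)).tsum_eq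
  simpa [smul_add] using this

theorem UU_smul (a : K) (c : ℕ → K) (x : ℝ) : UU (a • c) x = a * UU c x := by
  unfold UU
  rw [← tsum_mul_left]
  simp

theorem UU_le (c : ℕ → K) (A : ℝ) (hA : ∀ k, ‖c k‖ ≤ A) (x : ℝ) : ‖UU c x‖ ≤ A := by
  obtain ⟨j, hj⟩ := UU_cases (K := K) x
  rw [UU, (hj c).tsum_eq, norm_smul, Real.norm_of_nonneg (bump j).nonneg]
  calc _ ≤ 1 * A := mul_le_mul (bump j).le_one (hA j) (norm_nonneg _) zero_le_one
    _ = A := one_mul A

theorem UU_center (c : ℕ → K) (j : ℕ) : UU c ((3 / 4 : ℝ) * (1 / 2) ^ j) = c j := by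
  have h1 : bump j ((3 / 4 : ℝ) * (1 / 2) ^ j) = 1 :=
    (bump j).one_of_mem_closedBall (Metric.mem_closedBall_self (bump j).rIn_pos.le)
  rw [UU, tsum_eq_single j, h1, one_smul]
  intro i hi
  by_cases h0 : bump i ((3 / 4 : ℝ) * (1 / 2) ^ j) = 0
  · rw [h0, zero_smul]
  · exact absurd (bump_unique i j _ h0 (by rw [h1]; norm_num)) hi

theorem UU_local (c : ℕ → K) (N : ℕ) (x : ℝ) (hx : (1 / 2) ^ N < x) :
    UU c =ᶠ[𝓝 x] fun y => ∑ j ∈ Finset.range N, bump j y • c j := by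
  filter_upwards [lt_mem_nhds hx] with y hy
  rw [UU, tsum_eq_sum]
  intro j hj
  by_cases h0 : bump j y = 0
  · rw [h0, zero_smul]
  · exfalso
    have h1 := (bump_supp j y h0).2
    have h2 : (1 / 2 : ℝ) ^ j ≤ (1 / 2) ^ N :=
      pow_le_pow_of_le_one (by norm_num) (by norm_num) (by simpa using hj)
    have h3 : (0 : ℝ) < (1 / 2) ^ j := by positivity
    linarith

theorem UU_gap (c : ℕ → K) (N : ℕ) : UU c =ᶠ[𝓝 ((1 / 2 : ℝ) ^ N)] fun _ => 0 := by
  have h0 : (0 : ℝ) < (1 / 2) ^ N := by positivity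
  have h1 : Set.Ioo (7 / 8 * (1 / 2 : ℝ) ^ N) (5 / 4 * (1 / 2) ^ N) ∈ 𝓝 ((1 / 2 : ℝ) ^ N) :=
    Ioo_mem_nhds (by linarith) (by linarith)
  filter_upwards [h1] with y hy
  have : ∀ j, bump j y = 0 := by
    intro j
    by_contra h
    have h2 := bump_supp j y h
    rcases lt_or_ge j N with h3 | h3
    · have := half_anti h3
      linarith [hy.2]
    · have : (1 / 2 : ℝ) ^ j ≤ (1 / 2) ^ N := pow_le_pow_of_le_one (by norm_num) (by norm_num) h3
      linarith [hy.1]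
  simp [UU, this]

theorem exists_B : ∃ B : ℕ → ℕ → ℝ, (∀ n j, 0 ≤ B n j) ∧
    ∀ n j x, ‖iteratedDeriv n (bump j) x‖ ≤ B n j := by
  choose B h1 h2 using bump_bound
  exact ⟨B, h1, h2⟩

theorem UU_smoothAt (c : ℕ → K) (x : ℝ) (hx : 0 < x) (n : ℕ) : ContDiffAt ℝ n (UU c) x := by
  obtain ⟨N, hN⟩ := exists_pow_lt_of_lt_one hx (show (1 / 2 : ℝ) < 1 by norm_num)
  refine ContDiffAt.congr_of_eventuallyEq ?_ (UU_local c N x hN)
  exact ContDiffAt.sum fun j _ => ((bump j).contDiff.smul contDiff_const).contDiffAt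

theorem UU_deriv_le (B : ℕ → ℕ → ℝ) (hB0 : ∀ n j, 0 ≤ B n j)
    (hB : ∀ n j x, ‖iteratedDeriv n (bump j) x‖ ≤ B n j)
    (c : ℕ → K) (A : ℝ) (hA : ∀ k, ‖c k‖ ≤ A) (N : ℕ) (x : ℝ) (hx : (1 / 2) ^ N < x) (n : ℕ) :
    ‖iteratedDeriv n (UU c) x‖ ≤ (∑ j ∈ Finset.range N, B n j) * A := by
  rw [(UU_local c N x hx).iteratedDeriv_eq, iteratedDeriv_fun_sum (f := fun j y => bump j y • c j)
    (fun j _ => ((bump j).contDiff.smul contDiff_const).contDiffAt), Finset.sum_mul]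
  refine le_trans (norm_sum_le _ _) (Finset.sum_le_sum fun j _ => ?_)
  rw [iteratedDeriv_smul_const (bump j).contDiff.contDiffAt, norm_smul]
  exact mul_le_mul (hB n j x) (hA j) (norm_nonneg _) (hB0 n j)

/-- if the sum of bumps is smooth up to zero, all its one-sided derivatives vanish there -/
theorem UU_flat (c : ℕ → K) (h : ContDiffOn ℝ (⊤ : ℕ∞) (UU c) (Set.Icc 0 1)) (n : ℕ) :
    iteratedDerivWithin n (UU c) (Set.Icc 0 1) 0 = 0 := by
  have hu : UniqueDiffOn ℝ (Set.Icc (0 : ℝ) 1) := uniqueDiffOn_Icc zero_lt_one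
  have hc : ContinuousOn (iteratedDerivWithin n (UU c) (Set.Icc 0 1)) (Set.Icc 0 1) :=
    h.continuousOn_iteratedDerivWithin (by exact_mod_cast le_top) hu
  have hmem : ∀ N : ℕ, (1 / 2 : ℝ) ^ N ∈ Set.Icc (0 : ℝ) 1 := fun N =>
    ⟨by positivity, pow_le_one₀ (by norm_num) (by norm_num)⟩
  have ht : Tendsto (fun N : ℕ => (1 / 2 : ℝ) ^ N) atTop (𝓝[Set.Icc 0 1] 0) :=
    tendsto_nhdsWithin_iff.mpr ⟨tendsto_pow_atTop_nhds_zero_of_lt_one (by norm_num) (by norm_num),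
      Eventually.of_forall hmem⟩
  have h1 := (hc 0 (by simp)).tendsto.comp ht
  have h2 : (iteratedDerivWithin n (UU c) (Set.Icc 0 1)) ∘ (fun N : ℕ => (1 / 2 : ℝ) ^ N) =
      fun _ => 0 := by
    funext N
    simp only [Function.comp]
    rw [iteratedDerivWithin_eq_iteratedDeriv hu (UU_smoothAt c _ (by positivity) n) (hmem N),
      (UU_gap c N).iteratedDeriv_eq]
    simp [iteratedDeriv_const]
  rw [h2] at h1
  exact (tendsto_nhds_unique h1 tendsto_const_nhds)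

/-- the basic functions -/
noncomputable def WW (M : ℕ → ℝ) (c : ℕ → K) (x : ℝ) : K :=
  UU c x + lac M (fun k => c (Nat.unpair k).1) x

theorem WW_le (M : ℕ → ℝ) (c : ℕ → K) (A : ℝ) (hA : ∀ k, ‖c k‖ ≤ A) (x : ℝ) :
    ‖WW M c x‖ ≤ 2 * A := by
  have h1 := UU_le c A hA x
  have h2 := lac_small M (fun k => c (Nat.unpair k).1) A (fun k => hA _) 0 zero_le_one x
  rw [iteratedDeriv_zero] at h2
  have h3 : 0 ≤ A := le_trans (norm_nonneg _) (hA 0)
  exact le_trans (norm_add_le _ _) (by linarith)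

theorem WW_ge (M : ℕ → ℝ) (c : BoundedContinuousFunction ℕ K) (e : ℝ)
    (he : ∀ x ∈ Set.Icc (0 : ℝ) 1, ‖WW M c x‖ ≤ e) : ‖c‖ ≤ 2 * e := by
  have h1 : ‖c‖ ≤ e + ‖c‖ / 2 := by
    have he0 : 0 ≤ e := le_trans (norm_nonneg _) (he 0 (by simp))
    rw [BoundedContinuousFunction.norm_le (by positivity)]
    intro j
    have hj : (3 / 4 : ℝ) * (1 / 2) ^ j ∈ Set.Icc (0 : ℝ) 1 := by
      have : (1 / 2 : ℝ) ^ j ≤ 1 := pow_le_one₀ (by norm_num) (by norm_num)
      exact ⟨by positivity, by linarith⟩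
    have h2 := he _ hj
    have h3 := lac_small M (fun k => c (Nat.unpair k).1) ‖c‖ (fun k => c.norm_coe_le_norm _) 0
      zero_le_one ((3 / 4 : ℝ) * (1 / 2) ^ j)
    rw [iteratedDeriv_zero] at h3
    rw [WW, UU_center] at h2
    have h4 := norm_sub_le (c j + lac M (fun k => c (Nat.unpair k).1) ((3 / 4 : ℝ) * (1 / 2) ^ j))
      (lac M (fun k => c (Nat.unpair k).1) ((3 / 4 : ℝ) * (1 / 2) ^ j))
    rw [add_sub_cancel_right] at h4
    linarith
  linarith

/-- the linear map from bounded sequences to functions on the interval -/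
noncomputable def Phi (M : ℕ → ℝ) :
    BoundedContinuousFunction ℕ K →ₗ[K] (Set.Icc (0 : ℝ) 1 → K) where
  toFun c x := WW M c x
  map_add' c d := by
    funext x
    have := lac_add M (fun k => c (Nat.unpair k).1) (fun k => d (Nat.unpair k).1) ‖c‖ ‖d‖
      (fun k => c.norm_coe_le_norm _) (fun k => d.norm_coe_le_norm _) x
    simp only [WW, BoundedContinuousFunction.coe_add, UU_add, Pi.add_apply]
    rw [show (fun k => c (Nat.unpair k).1 + d (Nat.unpair k).1) =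
      (fun k => c (Nat.unpair k).1) + (fun k => d (Nat.unpair k).1) from rfl, this]
    ring
  map_smul' a c := by
    funext x
    have := lac_smul M (fun k => c (Nat.unpair k).1) a x
    have h2 := UU_smul a c x
    simp only [WW, RingHom.id_apply, Pi.smul_apply, smul_eq_mul]
    rw [mul_add, ← this, ← h2]
    rfl

theorem exists_M : ∃ M : ℕ → ℝ, ∀ (c : ℕ → K) (A : ℝ), (∀ k, ‖c k‖ ≤ A) → c ≠ 0 →
    ContDiffOn ℝ (⊤ : ℕ∞) (WW M c) (Set.Icc 0 1) → ∀ x ∈ Set.Icc (0 : ℝ) 1,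
      (FormalMultilinearSeries.ofScalars K (fun n : ℕ =>
        iteratedDerivWithin n (WW M c) (Set.Icc 0 1) x / (n.factorial : K))).radius = 0 := by
  obtain ⟨B, hB0, hB⟩ := exists_B
  let M : ℕ → ℝ := fun k => ((3 * k + 5 : ℕ) : ℝ) ^ (3 * k + 5) * (3 * k + 5).factorial +
    ∑ n ∈ Finset.range (3 * k + 6), ∑ j ∈ Finset.range k, B n j
  refine ⟨M, fun c A hA hc hW x hx => ?_⟩
  have hu : UniqueDiffOn ℝ (Set.Icc (0 : ℝ) 1) := uniqueDiffOn_Icc zero_lt_one
  have hA0 : 0 ≤ A := le_trans (norm_nonneg _) (hA 0)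
  have hs := lac_smooth M (fun k => c (Nat.unpair k).1) A (fun k => hA _)
  have hU : ContDiffOn ℝ (⊤ : ℕ∞) (UU c) (Set.Icc 0 1) := by
    refine (hW.sub hs.contDiffOn).congr fun y _ => ?_
    simp [WW]
  obtain ⟨N, hN⟩ : ∃ N : ℕ, ∀ k, N ≤ k → ∀ n, ‖iteratedDerivWithin n (UU c) (Set.Icc 0 1) x‖ ≤
      (∑ j ∈ Finset.range k, B n j) * A := by
    rcases hx.1.eq_or_lt with h0 | h0
    · refine ⟨0, fun k _ n => ?_⟩
      rw [← h0, UU_flat c hU, norm_zero]
      exact mul_nonneg (Finset.sum_nonneg fun j _ => hB0 n j) hA0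
    · obtain ⟨N, hN⟩ := exists_pow_lt_of_lt_one h0 (show (1 / 2 : ℝ) < 1 by norm_num)
      refine ⟨N, fun k hk n => ?_⟩
      rw [iteratedDerivWithin_eq_iteratedDeriv hu (UU_smoothAt c x h0 n) hx]
      exact UU_deriv_le B hB0 hB c A hA k x
        (lt_of_le_of_lt (pow_le_pow_of_le_one (by norm_num) (by norm_num) hk) hN) n
  obtain ⟨j0, hj0⟩ := Function.ne_iff.mp hc
  have hα : 0 < ‖c j0‖ := norm_pos_iff.mpr hj0
  apply rad_zero
  intro k0
  obtain ⟨m0, hm0⟩ := exists_nat_ge ((2 * A + 1) / ‖c j0‖)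
  obtain ⟨k, hk⟩ : ∃ k, k + 1 = Nat.pair j0 (k0 + N + m0 + 1) :=
    ⟨Nat.pair j0 (k0 + N + m0 + 1) - 1, by have := Nat.right_le_pair j0 (k0 + N + m0 + 1); omega⟩
  have hk2 : k0 + N + m0 ≤ k := by have := Nat.right_le_pair j0 (k0 + N + m0 + 1); omega
  obtain ⟨n, hn1, hn2, S, hS, hb⟩ := lac_big M (fun k => c (Nat.unpair k).1) A (fun k => hA _) k x
  refine ⟨n, by omega, ?_⟩
  rw [hk, Nat.unpair_pair] at hb
  simp only at hb
  have hsum : iteratedDerivWithin n (WW M c) (Set.Icc 0 1) x =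
      iteratedDerivWithin n (UU c) (Set.Icc 0 1) x +
        iteratedDeriv n (lac M (fun k => c (Nat.unpair k).1)) x := by
    rw [← iteratedDerivWithin_eq_iteratedDeriv hu (smooth_at hs x n) hx,
      ← iteratedDerivWithin_fun_add hx hu ((hU x hx).of_le (by exact_mod_cast le_top))
        (smooth_at hs x n).contDiffWithinAt]
    rfl
  rw [norm_div, RCLike.norm_natCast, le_div_iff₀ (by positivity), hsum]
  have h1 := nn_le n (3 * (k + 1) + 5) (by omega) (by omega)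
  have h2 : M (k + 1) ≤ S := le_trans (le_abs_self _) hS
  have h3 : 0 ≤ S := le_trans (abs_nonneg _) hS
  have h4 := hN (k + 1) (by omega) n
  have h5 : ∑ j ∈ Finset.range (k + 1), B n j ≤
      ∑ n ∈ Finset.range (3 * (k + 1) + 6), ∑ j ∈ Finset.range (k + 1), B n j :=
    Finset.single_le_sum (f := fun n => ∑ j ∈ Finset.range (k + 1), B n j)
      (fun n _ => Finset.sum_nonneg fun j _ => hB0 n j) (Finset.mem_range.mpr (by omega))
  have h6 : 0 ≤ ∑ j ∈ Finset.range (k + 1), B n j := Finset.sum_nonneg fun j _ => hB0 n j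
  have h7 : (0 : ℝ) ≤ ((3 * (k + 1) + 5 : ℕ) : ℝ) ^ (3 * (k + 1) + 5) * (3 * (k + 1) + 5).factorial := by
    positivity
  simp only [M] at h2
  have h8 : (∑ j ∈ Finset.range (k + 1), B n j) * A ≤ S * A :=
    mul_le_mul_of_nonneg_right (by linarith) hA0
  have h9 : 2 * A + 1 ≤ ‖c j0‖ * (k + 2) := by
    rw [div_le_iff₀ hα] at hm0
    have : (m0 : ℝ) ≤ k + 2 := by exact_mod_cast (by omega : m0 ≤ k + 2)
    nlinarith
  have h10 := norm_sub_le (iteratedDerivWithin n (UU c) (Set.Icc 0 1) x +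
    iteratedDeriv n (lac M (fun k => c (Nat.unpair k).1)) x)
    (iteratedDerivWithin n (UU c) (Set.Icc 0 1) x)
  rw [add_sub_cancel_left] at h10
  nlinarith

end Pool.Agent.H96.PSSpace
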