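import Mathlib
import Pool.Agent.H96.Harm

set_option autoImplicit false
open Filter Topology InnerProductSpace Laplacian Complex Metric

namespace Pool.Agent.H96.Punct

open Pool.Agent.H96.Harm

theorem lap_normsq (x : ℂ) : Δ (fun y : ℂ => ‖y‖ ^ 2) x = 4 := by
  have key : ∀ a b : ℝ, deriv (deriv fun t : ℝ => a + b * t + t ^ 2) 0 = 2 := by
    intro a b
    have h1 : (deriv fun t : ℝ => a + b * t + t ^ 2) = fun t => b + 2 * t := by
      funext t
      have := (((hasDerivAt_id t).const_mul b).const_add a).fun_add (hasDerivAt_pow 2 t)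
      simpa using this.deriv
    rw [h1]
    simp
  have h2 : ∀ v : ℂ, ‖v‖ = 1 → deriv (deriv fun t : ℝ => ‖x + t • v‖ ^ 2) 0 = 2 := by
    intro v hv
    rw [← key (‖x‖ ^ 2) (2 * inner ℝ x v)]
    congr 2
    funext t
    rw [norm_add_sq_real, norm_smul, inner_smul_right, hv, mul_one, Real.norm_eq_abs, sq_abs]
    ring
  rw [laplacian_eq_iteratedFDeriv_complexPlane]
  simp only [second_line _ _ _ (contDiff_norm_sq ℝ (E := ℂ)).contDiffAt, h2 1 norm_one, h2 I norm_I]
  norm_num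

theorem min_principle (K : Set ℂ) (hK : IsCompact K) (W : ℂ → ℝ) (hW : ∀ x ∈ K, HarmonicAt W x)
    (c : ℝ) (hb : ∀ q ∈ K, K ∉ 𝓝 q → c ≤ W q) (x : ℂ) (hx : x ∈ K) : c ≤ W x := by
  obtain ⟨R, hR⟩ := hK.isBounded.exists_norm_le
  refine le_of_forall_pos_le_add fun e he => ?_
  set d := e / (R ^ 2 + 1) with hd
  have hd0 : 0 < d := by positivity
  have hs : ContDiff ℝ 2 ((-d) • fun y : ℂ => ‖y‖ ^ 2) :=
    ContDiff.const_smul (f := fun y : ℂ => ‖y‖ ^ 2) (-d) (contDiff_norm_sq ℝ)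
  obtain ⟨q, hq, hmin⟩ := hK.exists_isMinOn (f := W + (-d) • fun y : ℂ => ‖y‖ ^ 2) ⟨x, hx⟩ fun y hy =>
    ((hW y hy).1.continuousAt.add hs.continuous.continuousAt).continuousWithinAt
  have h1 : K ∉ 𝓝 q := by
    intro h
    have d6 : 0 ≤ Δ (W + (-d) • fun y : ℂ => ‖y‖ ^ 2) q :=
      second_nonneg _ q ((hW q hq).1.add hs.contDiffAt) (hmin.isLocalMin h)
    rw [ContDiffAt.laplacian_add (hW q hq).1 hs.contDiffAt, (hW q hq).2.eq_of_nhds,
      laplacian_smul _ (contDiff_norm_sq ℝ).contDiffAt, lap_normsq] at d6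
    simp only [Pi.zero_apply, smul_eq_mul] at d6
    linarith
  have h2 := hb q hq h1
  have h3 : (W + (-d) • fun y : ℂ => ‖y‖ ^ 2) q ≤ (W + (-d) • fun y : ℂ => ‖y‖ ^ 2) x := hmin hx
  simp only [Pi.add_apply, Pi.smul_apply, smul_eq_mul] at h3
  have h4 : d * ‖q‖ ^ 2 ≤ e := by
    rw [hd, div_mul_eq_mul_div, div_le_iff₀ (by positivity)]
    have := pow_le_pow_left₀ (norm_nonneg q) (hR q hq) 2
    nlinarith
  nlinarith [mul_nonneg hd0.le (sq_nonneg ‖x‖)]

theorem cara (F : ℂ → ℂ) (c : ℂ) (R : ℝ) (hR : 0 < R) (hF : DifferentiableOn ℂ F (ball c R))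
    (h0 : ∀ z ∈ ball c R, 0 ≤ (F z).re) : ‖deriv F c‖ * R ≤ 2 * (F c).re := by
  refine le_of_forall_pos_le_add fun e he => ?_
  have hc := mem_ball_self (x := c) hR
  set b : ℂ := (starRingEnd ℂ) (F c) + e with hb
  have hne : ∀ z ∈ ball c R, F z + b ≠ 0 := by
    intro z hz h
    have := congrArg re h
    simp only [hb, add_re, conj_re, ofReal_re, zero_re] at this
    linarith [h0 z hz, h0 c hc]
  have h1 : DifferentiableOn ℂ (fun z => (F z - F c) / (F z + b)) (ball c R) :=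
    (hF.sub_const _).div (hF.add_const _) hne
  have h2 := norm_deriv_le_div_of_mapsTo_ball (R₂ := 1) h1 (fun z hz => by
    simp only [sub_self, zero_div, mem_closedBall, dist_zero_right, norm_div]
    rw [div_le_one (norm_pos_iff.mpr (hne z hz)), ← sq_le_sq₀ (norm_nonneg _) (norm_nonneg _),
      Complex.sq_norm, Complex.sq_norm, normSq_apply, normSq_apply]
    simp only [hb, sub_re, sub_im, add_re, add_im, conj_re, conj_im, ofReal_re, ofReal_im]
    nlinarith [h0 z hz, h0 c hc, mul_nonneg (h0 z hz) (h0 c hc)]) hR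
  have h3 := (hF.differentiableAt (ball_mem_nhds c hR)).hasDerivAt
  have h4 := ((h3.sub_const (F c)).fun_div (h3.add_const b) (hne c hc)).deriv
  have h5 : F c + b = ((2 * (F c).re + e : ℝ) : ℂ) := by
    apply Complex.ext <;> simp [hb]; ring
  have h6 : 0 < 2 * (F c).re + e := by linarith [h0 c hc]
  rw [h4, sub_self, zero_mul, sub_zero, sq, mul_div_mul_right _ _ (hne c hc), h5, norm_div, norm_real,
    Real.norm_of_nonneg h6.le, div_le_div_iff₀ h6 hR] at h2
  linarith

theorem pick (F : ℂ → ℂ) (hF : DifferentiableOn ℂ F (ball 0 1)) (h0 : ∀ z ∈ ball 0 1, 0 ≤ (F z).re)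
    (a : ℂ) (ha : a ∈ ball (0 : ℂ) 1) : ‖deriv F a‖ * (1 - ‖a‖ ^ 2) ≤ 2 * (F a).re := by
  rw [mem_ball_zero_iff] at ha
  have hne : ∀ z ∈ ball (0 : ℂ) 1, 1 + (starRingEnd ℂ) a * z ≠ 0 := by
    intro z hz h
    rw [mem_ball_zero_iff] at hz
    have h1 : ‖(starRingEnd ℂ) a * z‖ = 1 := by rw [eq_neg_of_add_eq_zero_right h]; simp
    rw [norm_mul, norm_conj] at h1
    nlinarith [norm_nonneg a, norm_nonneg z]
  have hm : Set.MapsTo (fun z => (z + a) / (1 + (starRingEnd ℂ) a * z)) (ball 0 1) (ball 0 1) := by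
    intro z hz
    rw [mem_ball_zero_iff, norm_div, div_lt_one (norm_pos_iff.mpr (hne z hz)),
      ← sq_lt_sq₀ (norm_nonneg _) (norm_nonneg _), Complex.sq_norm, Complex.sq_norm]
    rw [mem_ball_zero_iff] at hz
    have h1 : normSq z < 1 := by rw [← Complex.sq_norm]; nlinarith [norm_nonneg z]
    have h2 : normSq a < 1 := by rw [← Complex.sq_norm]; nlinarith [norm_nonneg a]
    have h3 := mul_pos (sub_pos.mpr h1) (sub_pos.mpr h2)
    simp only [normSq_apply, add_re, add_im, mul_re, mul_im, conj_re, conj_im, one_re, one_im] at h3 ⊢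
    nlinarith
  have hd : DifferentiableOn ℂ (fun z => (z + a) / (1 + (starRingEnd ℂ) a * z)) (ball 0 1) :=
    DifferentiableOn.div (by fun_prop) (by fun_prop) hne
  have h1 := cara _ 0 1 one_pos (hF.comp hd hm) fun z hz => h0 _ (hm hz)
  have h2 : HasDerivAt (fun z => (z + a) / (1 + (starRingEnd ℂ) a * z)) ((1 - ‖a‖ ^ 2 : ℝ) : ℂ) 0 := by
    have := ((hasDerivAt_id (0 : ℂ)).add_const a).fun_div
      (((hasDerivAt_id (0 : ℂ)).const_mul ((starRingEnd ℂ) a)).const_add 1) (by simp)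
    refine this.congr_deriv ?_
    simp [mul_conj, normSq_eq_norm_sq]
  have h3 : HasDerivAt F (deriv F a) ((0 + a) / (1 + (starRingEnd ℂ) a * 0)) := by
    simpa using (hF.differentiableAt (isOpen_ball.mem_nhds (mem_ball_zero_iff.mpr ha))).hasDerivAt
  have h4 := (h3.comp (0 : ℂ) h2).deriv
  have h5 : 0 ≤ 1 - ‖a‖ ^ 2 := by nlinarith [norm_nonneg a]
  rw [h4, norm_mul, norm_real, Real.norm_of_nonneg h5] at h1
  simpa using h1

theorem poisson_re (z : ℂ) : ((1 + z) / (1 - z)).re * ‖1 - z‖ ^ 2 = 1 - ‖z‖ ^ 2 ∨ z = 1 := by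
  by_cases h : z = 1
  · exact Or.inr h
  · left
    have h1 : normSq (1 - z) ≠ 0 := by
      rw [Ne, normSq_eq_zero, sub_eq_zero]; exact fun h2 => h h2.symm
    rw [Complex.sq_norm, Complex.sq_norm, div_re]
    field_simp
    simp [normSq_apply]; ring

theorem minimal_disc (F : ℂ → ℂ) (hF : DifferentiableOn ℂ F (ball 0 1))
    (h0 : ∀ z ∈ ball 0 1, 0 ≤ (F z).re ∧ (F z).re ≤ ((1 + z) / (1 - z)).re) :
    ∃ c : ℝ, ∀ z ∈ ball 0 1, (F z).re = c * ((1 + z) / (1 - z)).re := by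
  have hne : ∀ z ∈ ball (0 : ℂ) 1, 1 - z ≠ 0 := by
    intro z hz h
    rw [← sub_eq_zero.mp h] at hz
    simp at hz
  have hW : ∀ z ∈ ball (0 : ℂ) 1, HasDerivAt (fun z : ℂ => (1 + z) / (1 - z)) (2 / (1 - z) ^ 2) z := by
    intro z hz
    refine (((hasDerivAt_id z).const_add 1).fun_div ((hasDerivAt_id z).const_sub 1) (hne z hz)).congr_deriv ?_
    simp only [id]; ring
  have key : ∀ z ∈ ball (0 : ℂ) 1, (deriv F z * (1 - z) ^ 2 / 2).im = 0 ∧
      (F z).re = (deriv F z * (1 - z) ^ 2 / 2).re * ((1 + z) / (1 - z)).re := by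
    intro z hz
    have h1 := pick F hF (fun z hz => (h0 z hz).1) z hz
    have h2 := pick (fun z => (1 + z) / (1 - z) - F z)
      (DifferentiableOn.sub (fun z hz => (hW z hz).differentiableAt.differentiableWithinAt) hF)
      (fun z hz => by rw [sub_re]; linarith [(h0 z hz).2]) z hz
    rw [((hW z hz).fun_sub (hF.differentiableAt (isOpen_ball.mem_nhds hz)).hasDerivAt).deriv,
      sub_re] at h2
    set q := deriv F z * (1 - z) ^ 2 / 2 with hq
    have h3 : deriv F z = q * (2 / (1 - z) ^ 2) := by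
      rw [hq]; field_simp [hne z hz]
    have h4 : ‖2 / (1 - z) ^ 2‖ * (1 - ‖z‖ ^ 2) = 2 * ((1 + z) / (1 - z)).re := by
      rcases poisson_re z with h | h
      · rw [← h, norm_div, norm_pow]
        have := norm_ne_zero_iff.mpr (hne z hz)
        field_simp
        simp [mul_comm]
      · exact absurd (by rw [h, sub_self]) (hne z hz)
    have h5 : 0 < ((1 + z) / (1 - z)).re := by
      have h6 : 0 < ‖2 / (1 - z) ^ 2‖ := norm_pos_iff.mpr (div_ne_zero two_ne_zero (pow_ne_zero _ (hne z hz)))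
      have h7 := mem_ball_zero_iff.mp hz
      have : 0 < 1 - ‖z‖ ^ 2 := by nlinarith [norm_nonneg z]
      nlinarith [mul_pos h6 this]
    rw [h3, norm_mul, mul_assoc, h4] at h1
    rw [h3, ← one_sub_mul, norm_mul, mul_assoc, h4] at h2
    set w := ((1 + z) / (1 - z)).re
    have h6 := re_le_norm q
    have h7 := re_le_norm (1 - q)
    rw [sub_re, one_re] at h7
    have h8 : ‖q‖ + ‖1 - q‖ ≤ 1 := by
      by_contra h
      nlinarith [mul_pos h5 (sub_pos.mpr (not_le.mp h))]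
    have h9 : ‖q‖ = q.re := by linarith
    refine ⟨?_, by nlinarith⟩
    have h10 := Complex.sq_norm q
    rw [h9, normSq_apply] at h10
    nlinarith
  have han : AnalyticOnNhd ℂ (fun z => deriv F z * (1 - z) ^ 2 / 2) (ball 0 1) :=
    (((hF.deriv isOpen_ball).mul (by fun_prop)).div_const 2).analyticOnNhd isOpen_ball
  obtain ⟨c, hc⟩ := han.eq_const_of_im_eq_const (fun z hz => (key z hz).1) isOpen_ball
    (isConnected_ball one_pos)
  exact ⟨c.re, fun z hz => by rw [(key z hz).2, hc z hz]⟩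

theorem punct_connected : IsConnected (ball (0 : ℂ) 1 \ {1 / 2}) := by
  have h : ball (0 : ℂ) 1 \ {1 / 2} = ((ball 0 1 ∩ {z | 1 / 2 < z.re} ∪ ball 0 1 ∩ {z | 0 < z.im}) ∪
      ball 0 1 ∩ {z | z.re < 1 / 2}) ∪ ball 0 1 ∩ {z | z.im < 0} := by
    ext z
    simp only [Set.mem_diff, Set.mem_singleton_iff, Set.mem_union, Set.mem_inter_iff, Set.mem_setOf_eq,
      Complex.ext_iff]
    norm_num
    grind
  have hb : ∀ x y : ℝ, x ^ 2 + y ^ 2 < 1 → (⟨x, y⟩ : ℂ) ∈ ball (0 : ℂ) 1 := by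
    intro x y hxy
    rw [mem_ball_zero_iff, ← sq_lt_sq₀ (norm_nonneg _) zero_le_one, Complex.sq_norm, normSq_mk]
    nlinarith
  refine ⟨⟨0, by simp⟩, ?_⟩
  rw [h]
  refine IsPreconnected.union (⟨0, -1 / 2⟩ : ℂ) (Or.inr ⟨hb _ _ (by norm_num), by norm_num⟩)
    ⟨hb _ _ (by norm_num), by norm_num⟩ (IsPreconnected.union (⟨0, 1 / 2⟩ : ℂ)
    (Or.inr ⟨hb _ _ (by norm_num), by norm_num⟩) ⟨hb _ _ (by norm_num), by norm_num⟩
    (IsPreconnected.union (⟨3 / 4, 1 / 2⟩ : ℂ) ⟨hb _ _ (by norm_num), by norm_num⟩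
    ⟨hb _ _ (by norm_num), by norm_num⟩ ?_ ?_) ?_) ?_
  · exact ((convex_ball _ _).inter (convex_halfSpace_re_gt _)).isPreconnected
  · exact ((convex_ball _ _).inter (convex_halfSpace_im_gt _)).isPreconnected
  · exact ((convex_ball _ _).inter (convex_halfSpace_re_lt _)).isPreconnected
  · exact ((convex_ball _ _).inter (convex_halfSpace_im_lt _)).isPreconnected

theorem punct_open : IsOpen (ball (0 : ℂ) 1 \ {1 / 2}) := isOpen_ball.sdiff isClosed_singleton

theorem near_mem (w : ℂ) (h0 : w ≠ 0) (h1 : ‖w‖ < 1 / 2) : 1 / 2 + w ∈ ball (0 : ℂ) 1 \ {1 / 2} := by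
  refine ⟨mem_ball_zero_iff.mpr ((norm_add_le _ _).trans_lt ?_), by simpa using h0⟩
  norm_num at h1 ⊢
  linarith

theorem punct_not_simply : ¬ SimplyConnectedSpace (ball (0 : ℂ) 1 \ {1 / 2} : Set ℂ) := by
  intro h
  obtain ⟨f, hf, hf2⟩ := exists_continuousOn_eqOn_exp_comp (U := ball (0 : ℂ) 1 \ {1 / 2}) h punct_open
    (g := fun z => 4 * (z - 1 / 2)) (by fun_prop) (by
      rintro ⟨z, hz, hz2⟩
      exact hz.2 (sub_eq_zero.mp ((mul_eq_zero.mp hz2).resolve_left (by norm_num))))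
  have hm : ∀ t : ℝ, 1 / 2 + exp (t * I) / 4 ∈ ball (0 : ℂ) 1 \ {1 / 2} := fun t =>
    near_mem _ (div_ne_zero (exp_ne_zero _) (by norm_num)) (by
      rw [norm_div, norm_exp_ofReal_mul_I]; norm_num)
  have hc : Continuous fun t : ℝ => f (1 / 2 + exp (t * I) / 4) - t * I :=
    (hf.comp_continuous (by fun_prop) hm).sub (by fun_prop)
  have h1 : ∀ t : ℝ, exp (f (1 / 2 + exp (t * I) / 4) - t * I) = 1 := by
    intro t
    have := hf2 (hm t)
    simp only [Function.comp] at this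
    rw [exp_sub, this]
    field_simp [exp_ne_zero]
    ring
  have h2 := isCoveringMap_exp.const_of_comp hc
    (fun a b => Subtype.ext ((h1 a).trans (h1 b).symm)) 0 (2 * Real.pi)
  push_cast at h2
  rw [exp_two_pi_mul_I, zero_mul, exp_zero, sub_zero] at h2
  exact two_pi_I_ne_zero (by linear_combination h2)

theorem fderiv_re (u : ℂ → ℝ) (z h : ℂ) :
    fderiv ℝ u z h = ((fderiv ℝ u z 1 - I * fderiv ℝ u z I) * h).re := by
  conv_lhs => rw [show h = h.re • (1 : ℂ) + h.im • I by simp]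
  rw [map_add, map_smul, map_smul]
  simp; ring

theorem hasFDerivAt_re (F : ℂ → ℂ) (z d : ℂ) (hF : HasDerivAt F d z) :
    DifferentiableAt ℝ (fun y => (F y).re) z ∧ ∀ h, fderiv ℝ (fun y => (F y).re) z h = (d * h).re := by
  have := reCLM.hasFDerivAt.comp z (hF.hasFDerivAt.restrictScalars ℝ)
  refine ⟨this.differentiableAt, fun h => ?_⟩
  erw [this.fderiv]
  simp [mul_comm]

theorem removable (u : ℂ → ℝ) (hu : HarmonicOnNhd u (ball (0 : ℂ) 1 \ {1 / 2})) (C : ℝ)
    (hb : ∀ w : ℂ, w ≠ 0 → ‖w‖ < 1 / 4 → 0 ≤ u (1 / 2 + w) ∧ u (1 / 2 + w) ≤ C) :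
    ∃ F : ℂ → ℂ, DifferentiableOn ℂ F (ball 0 1) ∧
      ∀ z ∈ ball (0 : ℂ) 1 \ {1 / 2}, (F z).re = u z := by
  set f : ℂ → ℂ := fun z => fderiv ℝ u z 1 - I * fderiv ℝ u z I with hf
  have hfd : ∀ z ∈ ball (0 : ℂ) 1 \ {1 / 2}, DifferentiableAt ℂ f z := fun z hz =>
    HarmonicAt.differentiableAt_complex_partial (hu z hz)
  have hbd : ∀ w : ℂ, w ≠ 0 → ‖w‖ < 1 / 8 → ‖w * f (1 / 2 + w)‖ ≤ 2 * C := by
    intro w h0 h1
    have hsub : ∀ z ∈ ball (1 / 2 + w) ‖w‖, z - 1 / 2 ≠ 0 ∧ ‖z - 1 / 2‖ < 1 / 4 := by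
      intro z hz
      rw [mem_ball_iff_norm] at hz
      constructor
      · intro h
        rw [sub_eq_zero.mp h] at hz
        simp at hz
      · have := norm_add_le (z - (1 / 2 + w)) w
        rw [show z - (1 / 2 + w) + w = z - 1 / 2 by ring] at this
        linarith
    obtain ⟨F, hF, hF2⟩ := HarmonicOnNhd.exists_analyticOnNhd_ball_re_eq (f := u) (z := 1 / 2 + w)
      (R := ‖w‖) fun z hz => hu z (by
        simpa using near_mem _ (hsub z hz).1 (by linarith [(hsub z hz).2]))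
    have hw := norm_pos_iff.mpr h0
    have h2 := cara F _ _ hw hF.differentiableOn fun z hz => by
      have := (hb _ (hsub z hz).1 (hsub z hz).2).1
      rw [add_sub_cancel, ← hF2 hz] at this
      exact this
    have h3 := hasFDerivAt_re F _ _ (hF _ (mem_ball_self hw)).differentiableAt.hasDerivAt
    have h4 : (fun y => (F y).re) =ᶠ[𝓝 (1 / 2 + w)] u := hF2.eventuallyEq_of_mem (ball_mem_nhds _ hw)
    have h5 : f (1 / 2 + w) = deriv F (1 / 2 + w) := by
      simp only [hf, ← h4.fderiv_eq, h3.2]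
      apply Complex.ext <;> simp
    have h6 : (F (1 / 2 + w)).re = u (1 / 2 + w) := h4.eq_of_nhds
    rw [norm_mul, h5, mul_comm]
    linarith [(hb w h0 (by linarith)).2]
  have hp : (1 / 2 : ℂ) ∈ ball (0 : ℂ) 1 := by simp; norm_num
  obtain ⟨φ, hφ, hφ2⟩ : ∃ φ : ℂ → ℂ, DifferentiableOn ℂ φ (ball 0 1) ∧
      ∀ z, z ≠ 1 / 2 → φ z = (z - 1 / 2) * f z := by
    refine ⟨_, differentiableOn_update_limUnder_of_isLittleO (f := fun z => (z - 1 / 2) * f z)
      (isOpen_ball.mem_nhds hp) (fun z hz => (DifferentiableAt.mul (by fun_prop)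
        (hfd z hz)).differentiableWithinAt) (IsBoundedUnder.isLittleO_sub_self_inv ⟨2 * C, ?_⟩),
      fun z hz => Function.update_of_ne hz _ _⟩
    rw [eventually_map]
    filter_upwards [self_mem_nhdsWithin,
      mem_nhdsWithin_of_mem_nhds (ball_mem_nhds (1 / 2 : ℂ) (show (0 : ℝ) < 1 / 8 by norm_num))]
      with z h1 h2
    simpa using hbd (z - 1 / 2) (sub_ne_zero.mpr h1) (mem_ball_iff_norm.mp h2)
  obtain ⟨G, hG⟩ := ((differentiableOn_dslope (isOpen_ball.mem_nhds hp)).mpr hφ).isExactOn_ball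
  set a := φ (1 / 2) with ha
  have hv : ∀ z ∈ ball (0 : ℂ) 1 \ {1 / 2}, DifferentiableAt ℝ (fun y => u y - (G y).re) z ∧
      ∀ h, fderiv ℝ (fun y => u y - (G y).re) z h = (a / (z - 1 / 2) * h).re := by
    intro z hz
    have h1 := hasFDerivAt_re G z _ (hG z hz.1)
    have h2 := (hu z hz).1.differentiableAt (by simp)
    refine ⟨h2.fun_sub h1.1, fun h => ?_⟩
    have hz2 : z ≠ 1 / 2 := hz.2
    rw [fderiv_fun_sub h2 h1.1, sub_apply, h1.2, fderiv_re, ← sub_re, ← sub_mul, dslope_of_ne _ hz2,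
      slope_def_field, hφ2 z hz2]
    congr 2
    have := sub_ne_zero.mpr hz2
    change f z - _ = _
    rw [sub_div, mul_div_cancel_left₀ _ this]
    ring
  obtain ⟨B, hB⟩ := (isCompact_closedBall (1 / 2 : ℂ) (1 / 8)).exists_bound_of_continuousOn
    (f := G) fun z hz => (hG z (by
      have := norm_add_le (z - 1 / 2) (1 / 2)
      rw [mem_closedBall_iff_norm] at hz
      rw [mem_ball_zero_iff]
      norm_num at this hz ⊢
      linarith)).continuousAt.continuousWithinAt
  have hres : ∀ b : ℂ, b.re = -1 → (a * b).re = 0 := by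
    intro b hb1
    have hn : ∀ t : ℝ, 0 ≤ t → ‖exp (t * b) / 8‖ ≤ 1 / 8 := by
      intro t ht
      rw [norm_div, norm_exp, re_ofReal_mul, hb1]
      have := Real.exp_le_one_iff.mpr (show t * -1 ≤ 0 by linarith)
      rw [show ‖(8 : ℂ)‖ = 8 by simp]
      linarith
    have h0 : ∀ t : ℝ, exp (t * b) / 8 ≠ 0 := fun t => div_ne_zero (exp_ne_zero _) (by norm_num)
    have hd : ∀ t : ℝ, 0 ≤ t → HasDerivAt (fun t : ℝ => u (1 / 2 + exp (t * b) / 8) -
        (G (1 / 2 + exp (t * b) / 8)).re - (a * b).re * t) 0 t := by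
      intro t ht
      have h1 := hv _ (near_mem _ (h0 t) (by linarith [hn t ht]))
      have h2 : HasDerivAt (fun t : ℝ => 1 / 2 + exp (t * b) / 8) (exp (t * b) * b / 8) t := by
        simpa using ((((hasDerivAt_id (t : ℂ)).mul_const b).cexp.div_const 8).const_add
          (1 / 2)).comp_ofReal
      have h3 := (h1.1.hasFDerivAt.comp_hasDerivAt t h2).fun_sub ((hasDerivAt_id t).const_mul (a * b).re)
      refine h3.congr_deriv ?_
      rw [h1.2, add_sub_cancel_left, mul_one, sub_eq_zero]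
      congr 1
      field_simp [exp_ne_zero]
    have hc : ∀ T : ℝ, 0 ≤ T → |(a * b).re| * T ≤ 2 * (|C| + B) := by
      intro T hT
      have h1 := constant_of_has_deriv_right_zero (a := 0) (b := T)
        (fun t ht => (hd t ht.1).continuousAt.continuousWithinAt)
        (fun t ht => (hd t ht.1).hasDerivWithinAt) T ⟨hT, le_rfl⟩
      have h2 : ∀ t : ℝ, 0 ≤ t → |u (1 / 2 + exp (t * b) / 8) - (G (1 / 2 + exp (t * b) / 8)).re| ≤
          |C| + B := by
        intro t ht
        have h3 := hb _ (h0 t) (by linarith [hn t ht])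
        have h4 := (abs_re_le_norm _).trans (hB (1 / 2 + exp (t * b) / 8) (by
          rw [mem_closedBall_iff_norm, add_sub_cancel_left]; exact hn t ht))
        rw [abs_le] at h4 ⊢
        constructor <;> linarith [le_abs_self C, abs_nonneg C, h3.1, h3.2, h4.1, h4.2]
      have h3 := abs_le.mp (h2 T hT)
      have h4 := abs_le.mp (h2 0 le_rfl)
      rw [← abs_of_nonneg hT, ← abs_mul, abs_le]
      constructor <;> linarith [h3.1, h3.2, h4.1, h4.2]
    by_contra h
    have h1 := abs_pos.mpr h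
    have h2 := hc ((2 * |(|C| + B)| + 1) / |(a * b).re|) (by positivity)
    rw [mul_div_cancel₀ _ h1.ne'] at h2
    linarith [le_abs_self (|C| + B)]
  have ha0 : a = 0 := by
    have h1 := hres (-1) (by simp)
    have h2 := hres (-1 + I) (by simp)
    apply Complex.ext <;> simp at h1 h2 ⊢ <;> linarith
  obtain ⟨c, hc⟩ := punct_open.exists_is_const_of_fderiv_eq_zero (𝕜 := ℝ) punct_connected.isPreconnected
    (fun z hz => (hv z hz).1.differentiableWithinAt) fun z hz => by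
      ext1 h
      rw [(hv z hz).2, ha0]; simp
  refine ⟨fun z => G z + c, fun z hz => (hG z hz).differentiableAt.differentiableWithinAt.add_const _,
    fun z hz => ?_⟩
  rw [add_re, ofReal_re, ← hc z hz]; ring

theorem green_min (h : ℂ → ℝ) (hh : HarmonicOnNhd h (ball (0 : ℂ) 1 \ {1 / 2}))
    (hl : ∀ z ∈ ball (0 : ℂ) 1 \ {1 / 2}, z ≠ 0 → Real.log ‖z‖ ≤ h z) (x : ℂ)
    (hx : x ∈ ball (0 : ℂ) 1 \ {1 / 2}) : 0 ≤ h x := by
  have hx1 := mem_ball_zero_iff.mp hx.1
  have hx2 : 0 < ‖x - 1 / 2‖ := norm_pos_iff.mpr (sub_ne_zero.mpr hx.2)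
  have key : ∀ e : ℝ, 0 < e → -e ≤ h x - e * Real.log ‖(x - 1 / 2) / 2‖ := by
    intro e he
    set r := max ‖x‖ (Real.exp (-e)) with hr
    set d := min ‖x - 1 / 2‖ (min (1 / 4) (Real.exp (-(2 / e)))) with hd
    have hr1 : r < 1 := max_lt hx1 (Real.exp_lt_one_iff.mpr (by linarith))
    have hd0 : 0 < d := lt_min hx2 (lt_min (by norm_num) (Real.exp_pos _))
    have hK : ∀ z ∈ closedBall (0 : ℂ) r ∩ {z | d ≤ ‖z - 1 / 2‖}, z ∈ ball (0 : ℂ) 1 \ {1 / 2} :=
      fun z hz => ⟨closedBall_subset_ball hr1 hz.1, fun h => by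
        have h1 : d ≤ ‖z - 1 / 2‖ := hz.2
        rw [show z = 1 / 2 from h] at h1
        simp at h1
        linarith⟩
    refine min_principle (closedBall 0 r ∩ {z | d ≤ ‖z - 1 / 2‖})
      ((isCompact_closedBall _ _).inter_right (isClosed_le (by fun_prop) (by fun_prop)))
      (fun z => h z - e * Real.log ‖(z - 1 / 2) / 2‖) (fun z hz => ?_) (-e) (fun q hq hq2 => ?_) x
      ⟨mem_closedBall_zero_iff.mpr (le_max_left _ _), show d ≤ ‖x - 1 / 2‖ from min_le_left _ _⟩
    · exact (hh z (hK z hz)).sub ((AnalyticAt.harmonicAt_log_norm (f := fun z => (z - 1 / 2) / 2)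
        (by fun_prop) (div_ne_zero (sub_ne_zero.mpr (hK z hz).2) two_ne_zero)).const_smul (c := e))
    · have h1 := mem_closedBall_zero_iff.mp hq.1
      have h2 : d ≤ ‖q - 1 / 2‖ := hq.2
      have h3 : ‖(q - 1 / 2) / 2‖ = ‖q - 1 / 2‖ / 2 := by simp
      rcases h1.lt_or_eq with h4 | h4
      · rcases h2.lt_or_eq with h5 | h5
        · exfalso
          apply hq2
          have e1 : ContinuousAt (fun z : ℂ => ‖z - 1 / 2‖) q := by fun_prop
          filter_upwards [continuous_norm.continuousAt.eventually (gt_mem_nhds h4),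
            e1.eventually (lt_mem_nhds h5)] with z a b
          exact ⟨mem_closedBall_zero_iff.mpr a.le, b.le⟩
        · have h6 : 1 / 4 ≤ ‖q‖ := by
            have h7 := norm_sub_le q (q - 1 / 2)
            have h8 : d ≤ 1 / 4 := (min_le_right _ _).trans (min_le_left _ _)
            norm_num at h7 h5 ⊢
            linarith
          have h7 := hl q (hK q hq) (norm_pos_iff.mp (by linarith))
          have h8 := Real.log_le_log (by norm_num) h6
          have h9 : Real.log ‖(q - 1 / 2) / 2‖ ≤ -(2 / e) := by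
            rw [h3, Real.log_le_iff_le_exp (by linarith)]
            have : d ≤ Real.exp (-(2 / e)) := (min_le_right _ _).trans (min_le_right _ _)
            linarith
          have h10 := mul_le_mul_of_nonneg_left h9 he.le
          rw [mul_neg, mul_div_cancel₀ _ he.ne'] at h10
          rw [one_div, Real.log_inv, show (4 : ℝ) = 2 ^ 2 by norm_num, Real.log_pow] at h8
          push_cast at h8
          linarith [Real.log_two_lt_d9]
      · have h5 : Real.exp (-e) ≤ ‖q‖ := h4 ▸ le_max_right _ _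
        have h6 := (Real.exp_pos _).trans_le h5
        have h7 := hl q (hK q hq) (norm_pos_iff.mp h6)
        have h8 := (Real.le_log_iff_exp_le h6).mpr h5
        have h9 : Real.log ‖(q - 1 / 2) / 2‖ ≤ 0 := by
          apply Real.log_nonpos (norm_nonneg _)
          have := norm_sub_le q (1 / 2)
          rw [h3]
          norm_num at this ⊢
          linarith
        nlinarith
  refine le_of_forall_pos_le_add fun e he => ?_
  set l := Real.log ‖(x - 1 / 2) / 2‖
  have h1 := key (e / (1 + |l|)) (by positivity)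
  have h2 : e / (1 + |l|) * (1 + |l|) = e := by field_simp
  have h3 := mul_le_mul_of_nonneg_left (neg_abs_le l) (show 0 ≤ e / (1 + |l|) by positivity)
  linarith

end Pool.Agent.H96.Punct
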