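import Mathlib

set_option autoImplicit false
set_option linter.unusedSectionVars false
set_option maxHeartbeats 400000

namespace Pool.Agent.H96.RN

variable {X : Type*} [AddCommGroup X] [Module ℝ X]

lemma sm (N : Seminorm ℝ X) {c : ℝ} (hc : 0 ≤ c) (x : X) : N (c • x) = c * N x := by
  rw [map_smul_eq_mul, Real.norm_of_nonneg hc]

lemma sm1 (N : Seminorm ℝ X) {x : X} (hx : 0 < N x) : N ((N x)⁻¹ • x) = 1 := by
  rw [sm N (inv_pos.2 hx).le, inv_mul_cancel₀ hx.ne']

lemma up (N : Seminorm ℝ X) (x z : X) : N (x + z) ≤ N x + N z ∧ N (x - z) ≤ N x + N z ∧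
    N x - N z ≤ N (x + z) ∧ N x - N z ≤ N (x - z) := by
  have h1 := map_sub_le_add N (x + z) z
  have h2 := map_add_le_add N (x - z) z
  rw [add_sub_cancel_right] at h1
  rw [sub_add_cancel] at h2
  exact ⟨map_add_le_add N x z, map_sub_le_add N x z, by linarith, by linarith⟩

lemma smooth_sq (N : Seminorm ℝ X) {p K : ℝ} (hp : 1 < p) (hp2 : p ≤ 2) (hK : 0 < K)
    (h : ∀ t : ℝ, 0 < t → t ≤ 1 → ∀ x y : X, N x = 1 → N y = 1 →
      (N (x + t • y) + N (x - t • y)) / 2 - 1 ≤ K * t ^ p) (x z : X) (hz : N z ≤ 1) :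
    N (x + z) ^ 2 + N (x - z) ^ 2 ≤ 2 * N x ^ 2 + (4 * K + 6) * N z ^ p * (1 + N x ^ 2) := by
  obtain ⟨u1, u2, u3, u4⟩ := up N x z
  have n0 := apply_nonneg N x
  have t0 := apply_nonneg N z
  have t2 : N z ^ 2 ≤ N z ^ p := by
    have := Real.rpow_le_rpow_of_exponent_ge' t0 hz (by linarith) hp2
    simpa using this
  have tp := Real.rpow_nonneg t0 p
  have key : N x * (N (x + z) + N (x - z) - 2 * N x) ≤ (2 * K + 2) * N z ^ p * (1 + N x ^ 2) := by
    rcases le_or_gt (N x) (N z) with a | a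
    · have : N x * (N (x + z) + N (x - z) - 2 * N x) ≤ 2 * N z ^ 2 := by nlinarith
      have : 0 ≤ K * N z ^ p * (1 + N x ^ 2) := by positivity
      have : 0 ≤ N z ^ p * N x ^ 2 := by positivity
      nlinarith
    rcases eq_or_lt_of_le t0 with b | b
    · have : N x * (N (x + z) + N (x - z) - 2 * N x) ≤ 0 := by nlinarith
      exact this.trans (by positivity)
    have n1 : 0 < N x := b.trans a
    have h1 := h (N z / N x) (by positivity) ((div_le_one n1).2 a.le) _ _ (sm1 N n1) (sm1 N b)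
    have e : (N z / N x) • (N z)⁻¹ • z = (N x)⁻¹ • z := by
      rw [smul_smul]; congr 1; field_simp
    rw [e, ← smul_add, ← smul_sub, sm N (inv_pos.2 n1).le, sm N (inv_pos.2 n1).le,
      Real.div_rpow t0 n0] at h1
    have np := Real.rpow_pos_of_pos n1 p
    have h2 : N x ^ 2 ≤ N x ^ p * (1 + N x ^ 2) := by
      rcases le_total (N x) 1 with c | c
      · have := Real.rpow_le_rpow_of_exponent_ge' n0 c (by linarith) hp2
        rw [Real.rpow_two] at this
        have : 0 ≤ N x ^ p * N x ^ 2 := by positivity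
        linarith
      · have := Real.one_le_rpow c (show 0 ≤ p by linarith)
        nlinarith
    have h3 : N x * (N (x + z) + N (x - z) - 2 * N x) =
        2 * N x ^ 2 * (((N x)⁻¹ * N (x + z) + (N x)⁻¹ * N (x - z)) / 2 - 1) := by field_simp
    have h4 := mul_le_mul_of_nonneg_left h1 (show 0 ≤ 2 * N x ^ 2 by positivity)
    have h5 : 2 * N x ^ 2 * (K * (N z ^ p / N x ^ p)) ≤ 2 * K * N z ^ p * (1 + N x ^ 2) := by
      have : N x ^ 2 / N x ^ p ≤ 1 + N x ^ 2 := by rw [div_le_iff₀ np]; linarith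
      have := mul_le_mul_of_nonneg_left this (show 0 ≤ 2 * K * N z ^ p by positivity)
      refine le_trans (le_of_eq ?_) this
      ring
    have : 0 ≤ N z ^ p * (1 + N x ^ 2) := by positivity
    nlinarith
  have a1 : (N (x + z) - N x) ^ 2 ≤ N z ^ 2 := sq_le_sq' (by linarith) (by linarith)
  have a2 : (N (x - z) - N x) ^ 2 ≤ N z ^ 2 := sq_le_sq' (by linarith) (by linarith)
  have : 0 ≤ N z ^ p * N x ^ 2 := by positivity
  nlinarith

lemma conv_aux (N : Seminorm ℝ X) {q K : ℝ} (hq : 2 ≤ q) (hK : 0 < K)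
    (h : ∀ ε : ℝ, 0 < ε → ε ≤ 2 → ∀ x y : X, N x = 1 → N y = 1 →
      ε ≤ N (x - y) → K * ε ^ q ≤ 1 - N ((1 / 2 : ℝ) • (x + y))) (x y : X) (hy : N y ≤ 1)
    (hw : N (x - y) ≤ N (x + y)) :
    min (1 / 2) (2 * K) * N y ^ q / (1 + N x) ^ q ≤ N (x + y) ^ 2 + N (x - y) ^ 2 - 2 * N x ^ 2 := by
  obtain ⟨u1, u2, u3, u4⟩ := up N x y
  have n0 := apply_nonneg N x
  have s0 := apply_nonneg N y
  have b0 := apply_nonneg N (x - y)
  have m1 : 2 * N x ≤ N (x + y) + N (x - y) := by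
    have := map_add_le_add N (x + y) (x - y)
    rwa [show x + y + (x - y) = (2 : ℝ) • x by module, sm N zero_le_two] at this
  have m2 : 2 * N y ≤ N (x + y) + N (x - y) := by
    have := map_sub_le_add N (x + y) (x - y)
    rwa [show x + y - (x - y) = (2 : ℝ) • y by module, sm N zero_le_two] at this
  have d1 : 1 ≤ (1 + N x) ^ q := Real.one_le_rpow (by linarith) (by linarith)
  have sq0 := Real.rpow_nonneg s0 q
  have c0 : 0 < min (1 / 2) (2 * K) := by positivity
  rcases le_or_gt (N y) (N (x + y) - N (x - y)) with a | a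
  · have t2 : N y ^ q ≤ N y ^ 2 := by
      have := Real.rpow_le_rpow_of_exponent_ge' s0 hy (by norm_num) hq
      simpa using this
    refine (div_le_self (by positivity) d1).trans ?_
    have := mul_le_mul_of_nonneg_right (min_le_left (1 / 2) (2 * K)) sq0
    nlinarith
  have s1 : 0 < N y := by linarith
  have b1 : 0 < N (x - y) := by linarith
  have a1 : 0 < N (x + y) := by linarith
  set α := N (x + y) with hα
  set β := N (x - y) with hβ
  have r0 : 0 ≤ 1 - β / α := by rw [sub_nonneg, div_le_one a1]; exact hw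
  have e2 : N ((1 - β / α) • (x + y)) = α - β := by rw [sm N r0, ← hα]; field_simp
  have k1 : N y ≤ N ((β / α) • (x + y) - (x - y)) := by
    have := map_add_le_add N ((β / α) • (x + y) - (x - y)) ((1 - β / α) • (x + y))
    rw [show (β / α) • (x + y) - (x - y) + (1 - β / α) • (x + y) = (2 : ℝ) • y by module,
      sm N zero_le_two, e2] at this
    linarith
  have h1 := h (N y / β) (by positivity) (by rw [div_le_iff₀ b1]; linarith) _ _ (sm1 N a1) (sm1 N b1)
    (by
      rw [show α⁻¹ • (x + y) - β⁻¹ • (x - y) = β⁻¹ • ((β / α) • (x + y) - (x - y)) by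
        rw [smul_sub β⁻¹ ((β / α) • (x + y)), smul_smul]; congr 2; field_simp, sm N (inv_pos.2 b1).le, div_eq_inv_mul]
      exact mul_le_mul_of_nonneg_left k1 (inv_pos.2 b1).le)
  have k2 : N x ≤ β * N ((1 / 2 : ℝ) • (α⁻¹ • (x + y) + β⁻¹ • (x - y))) + (α - β) / 2 := by
    have := map_add_le_add N (β • (1 / 2 : ℝ) • (α⁻¹ • (x + y) + β⁻¹ • (x - y)))
      ((1 / 2 : ℝ) • (1 - β / α) • (x + y))
    rw [sm N b0, sm N (c := 1 / 2) (by norm_num) ((1 - β / α) • (x + y)), e2] at this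
    have e : β • (1 / 2 : ℝ) • (α⁻¹ • (x + y) + β⁻¹ • (x - y)) +
        (1 / 2 : ℝ) • (1 - β / α) • (x + y) = x := by
      match_scalars <;> field_simp <;> ring
    rw [e] at this
    linarith
  have k3 : β * (K * (N y / β) ^ q) ≤ (α + β) / 2 - N x := by
    have := mul_le_mul_of_nonneg_left h1 b0
    linarith
  have k4 : N y ^ q / (1 + N x) ^ q ≤ β ^ 2 * (N y / β) ^ q := by
    have e : β ^ 2 * (N y / β) ^ q = N y ^ q / β ^ (q - 2) := by
      rw [Real.div_rpow s0 b0, Real.rpow_sub b1]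
      have := Real.rpow_pos_of_pos b1 q
      field_simp
      simp
    rw [e]
    refine div_le_div_of_nonneg_left sq0 (Real.rpow_pos_of_pos b1 _) ?_
    exact (Real.rpow_le_rpow b0 (show β ≤ 1 + N x by linarith) (by linarith)).trans
      (Real.rpow_le_rpow_of_exponent_le (by linarith) (by linarith))
  have k5 : 0 ≤ (N y / β) ^ q := by positivity
  have k6 : 0 ≤ N y ^ q / (1 + N x) ^ q := by positivity
  rw [mul_div_assoc]
  refine (mul_le_mul_of_nonneg_right (min_le_right _ _) k6).trans ?_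
  refine (mul_le_mul_of_nonneg_left k4 (by positivity)).trans ?_
  have k7 := mul_le_mul k3 (show β ≤ (α + β) / 2 + N x by linarith) b0 (by linarith)
  nlinarith [sq_nonneg (α - β)]

lemma conv_sq (N : Seminorm ℝ X) {q K : ℝ} (hq : 2 ≤ q) (hK : 0 < K)
    (h : ∀ ε : ℝ, 0 < ε → ε ≤ 2 → ∀ x y : X, N x = 1 → N y = 1 →
      ε ≤ N (x - y) → K * ε ^ q ≤ 1 - N ((1 / 2 : ℝ) • (x + y))) :
    ∃ c : ℝ, 0 < c ∧ ∃ m : ℕ, ∀ x y : X, N y ≤ 1 →
      c * N y ^ q / (1 + N x ^ 2) ^ m ≤ N (x + y) ^ 2 + N (x - y) ^ 2 - 2 * N x ^ 2 := by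
  refine ⟨min (1 / 2) (2 * K) / 2 ^ ⌈q⌉₊, by positivity, ⌈q⌉₊, fun x y hy => ?_⟩
  have k : min (1 / 2) (2 * K) * N y ^ q / (1 + N x) ^ q ≤
      N (x + y) ^ 2 + N (x - y) ^ 2 - 2 * N x ^ 2 := by
    rcases le_total (N (x - y)) (N (x + y)) with a | a
    · exact conv_aux N hq hK h x y hy a
    · have := conv_aux N hq hK h x (-y) (by rwa [map_neg_eq_map])
        (by rwa [sub_neg_eq_add, ← sub_eq_add_neg])
      rw [sub_neg_eq_add, ← sub_eq_add_neg, map_neg_eq_map] at this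
      linarith
  refine le_trans ?_ k
  have n0 := apply_nonneg N x
  have s0 := apply_nonneg N y
  rw [div_mul_eq_mul_div, div_div, ← mul_pow]
  refine div_le_div_of_nonneg_left (by positivity) (by positivity) ?_
  refine (Real.rpow_le_rpow_of_exponent_le (by linarith) (Nat.le_ceil q)).trans ?_
  rw [Real.rpow_natCast]
  exact pow_le_pow_left₀ (by linarith) (by nlinarith [sq_nonneg (N x - 1)]) _

lemma bern {A B : ℝ} (hA : 0 < A) (hB : 0 < B) (m : ℕ) :
    (1 - m * ((B - A) / A)) / A ^ m ≤ 1 / B ^ m := by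
  have h1 := one_add_mul_le_pow (a := A / B - 1)
    (by have : 0 < A / B := by positivity
        linarith) m
  have h2 : -((B - A) / A) ≤ A / B - 1 := by
    have : A / B - 1 + (B - A) / A = (A - B) ^ 2 / (A * B) := by field_simp; ring
    have : 0 ≤ (A - B) ^ 2 / (A * B) := by positivity
    linarith
  have h3 := mul_le_mul_of_nonneg_left h2 (Nat.cast_nonneg (α := ℝ) m)
  rw [add_sub_cancel, div_pow] at h1
  rw [div_le_iff₀ (by positivity), one_div_mul_eq_div]
  linarith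

theorem perron {f g χ ω : X → ℝ} {S : Set X} {D : ℝ} (hD : 0 ≤ D) (hω : ∀ z, 0 ≤ ω z)
    (hχ0 : ∀ x, 0 ≤ χ x) (hfg : ∀ x, f x ≤ g x) (hf : ∀ x, f (-x) = f x)
    (hg : ∀ x, ∀ z ∈ S, g (x + z) + g (x - z) ≤ 2 * g x + D * ω z * (1 + g x))
    (hχ : ∀ x, ∀ z ∈ S, 2 * χ x - D * ω z * χ x ≤ χ (x + z) + χ (x - z)) :
    ∃ h : X → ℝ, (∀ x, f x ≤ h x) ∧ (∀ x, h x ≤ g x) ∧ (∀ x, h (-x) ≤ h x) ∧
      (∀ x, ∀ z ∈ S, h (x + z) + h (x - z) ≤ 2 * h x + D * ω z * (1 + 2 * h x - f x)) ∧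
      ∀ (s t e : ℝ) (v w : X), 0 ≤ s → 0 ≤ t → s + t = 1 → 0 ≤ e →
        (∀ x, f x + 3 * e * χ x ≤ s * f (x + v) + t * f (x + w)) →
        ∀ x, h x ≤ s * h (x + v) + t * h (x + w) - e * χ x := by
  let U : Set (X → ℝ) := {u | (∀ x, f x ≤ u x) ∧
    ∀ x, ∀ z ∈ S, u (x + z) + u (x - z) ≤ 2 * u x + D * ω z * (1 + 2 * u x - f x)}
  have gU : g ∈ U := ⟨hfg, fun x z hz => (hg x z hz).trans (by
    have := mul_le_mul_of_nonneg_left (show 1 + g x ≤ 1 + 2 * g x - f x by linarith [hfg x])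
      (mul_nonneg hD (hω z))
    linarith)⟩
  have : Nonempty U := ⟨⟨g, gU⟩⟩
  let h : X → ℝ := fun x => ⨅ u : U, u.1 x
  have le : ∀ u ∈ U, ∀ x, h x ≤ u x := fun u hu x =>
    ciInf_le (f := fun u : U => u.1 x) ⟨f x, by rintro _ ⟨u, rfl⟩; exact u.2.1 x⟩ ⟨u, hu⟩
  have h1 : ∀ x, f x ≤ h x := fun x => le_ciInf fun u => u.2.1 x
  have h2 : ∀ x, ∀ z ∈ S, h (x + z) + h (x - z) ≤ 2 * h x + D * ω z * (1 + 2 * h x - f x) := by
    intro x z hz
    have d := mul_nonneg hD (hω z)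
    have : (h (x + z) + h (x - z) - D * ω z * (1 - f x)) / (2 + 2 * (D * ω z)) ≤ h x :=
      le_ciInf fun u => by
        rw [div_le_iff₀ (by positivity)]
        have := u.2.2 x z hz
        have := le u.1 u.2 (x + z)
        have := le u.1 u.2 (x - z)
        linarith
    rw [div_le_iff₀ (by positivity)] at this
    linarith
  refine ⟨h, h1, le g gU, fun x => ?_, h2, fun s t e v w hs ht hst he hv => le _ ⟨fun x => ?_, ?_⟩⟩
  · have := le (fun x => h (-x)) ⟨fun x => hf x ▸ h1 (-x), fun x z hz => by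
      have := h2 (-x) z hz
      rw [hf] at this
      simp only [show -(x + z) = -x - z by abel, show -(x - z) = -x + z by abel]
      linarith⟩ (-x)
    simpa using this
  · have := hv x
    have := mul_le_mul_of_nonneg_left (h1 (x + v)) hs
    have := mul_le_mul_of_nonneg_left (h1 (x + w)) ht
    have := mul_nonneg he (hχ0 x)
    linarith
  · intro x z hz
    have d := mul_nonneg hD (hω z)
    have a1 := mul_le_mul_of_nonneg_left (h2 (x + v) z hz) hs
    have a2 := mul_le_mul_of_nonneg_left (h2 (x + w) z hz) ht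
    have a3 := mul_le_mul_of_nonneg_left (hχ x z hz) he
    have a4 := mul_le_mul_of_nonneg_left (hv x) d
    beta_reduce
    rw [add_right_comm x z v, add_right_comm x z w, sub_add_eq_add_sub x z v,
      sub_add_eq_add_sub x z w]
    obtain rfl : t = 1 - s := by linarith
    linarith

theorem main (P Q : Seminorm ℝ X) {p q l R K1 K2 : ℝ} (hp : 1 < p) (hp2 : p ≤ 2) (hq : 2 ≤ q)
    (l0 : 0 < l) (R1 : 1 ≤ R) (hl : ∀ x, P x ≤ l * Q x) (hR : ∀ x, Q x ≤ R * P x)
    (k1 : 0 < K1) (k2 : 0 < K2)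
    (h1 : ∀ ε : ℝ, 0 < ε → ε ≤ 2 → ∀ x y : X, P x = 1 → P y = 1 →
      ε ≤ P (x - y) → K1 * ε ^ q ≤ 1 - P ((1 / 2 : ℝ) • (x + y)))
    (h2 : ∀ t : ℝ, 0 < t → t ≤ 1 → ∀ x y : X, Q x = 1 → Q y = 1 →
      (Q (x + t • y) + Q (x - t • y)) / 2 - 1 ≤ K2 * t ^ p) :
    ∃ N : Seminorm ℝ X, (∀ x, P x ≤ N x ∧ N x ≤ l * Q x) ∧
      (∃ K : ℝ, 0 < K ∧ ∀ ε : ℝ, 0 < ε → ε ≤ 2 → ∀ x y : X, N x = 1 → N y = 1 →
        ε ≤ N (x - y) → K * ε ^ q ≤ 1 - N ((1 / 2 : ℝ) • (x + y))) ∧
      ∃ K : ℝ, 0 < K ∧ ∀ t : ℝ, 0 < t → t ≤ 1 → ∀ x y : X, N x = 1 → N y = 1 →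
        (N (x + t • y) + N (x - t • y)) / 2 - 1 ≤ K * t ^ p := by
  obtain ⟨c, c0, m, hc⟩ := conv_sq P hq k1 h1
  have P0 := apply_nonneg P
  have Q0 := apply_nonneg Q
  have fg : ∀ x, P x ^ 2 ≤ l ^ 2 * Q x ^ 2 := fun x => by
    rw [← mul_pow]; exact pow_le_pow_left₀ (P0 x) (hl x) 2
  obtain ⟨C, C0, hC⟩ : ∃ C : ℝ, 0 < C ∧ ∀ x z, Q z ≤ 1 → l ^ 2 * Q (x + z) ^ 2 +
      l ^ 2 * Q (x - z) ^ 2 ≤ 2 * (l ^ 2 * Q x ^ 2) + C * Q z ^ p * (1 + l ^ 2 * Q x ^ 2) := by
    refine ⟨(4 * K2 + 6) * (l ^ 2 + 1), by positivity, fun x z hz => ?_⟩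
    have a := mul_le_mul_of_nonneg_left (smooth_sq Q hp hp2 k2 h2 x z hz) (sq_nonneg l)
    have b : l ^ 2 * (1 + Q x ^ 2) ≤ (l ^ 2 + 1) * (1 + l ^ 2 * Q x ^ 2) := by
      have : 0 ≤ l ^ 2 * l ^ 2 * Q x ^ 2 := by positivity
      nlinarith
    have := mul_le_mul_of_nonneg_left b
      (show 0 ≤ (4 * K2 + 6) * Q z ^ p by have := Q0 z; positivity)
    linarith
  have ω0 : ∀ z, 0 ≤ Q z ^ p := fun z => Real.rpow_nonneg (Q0 z) p
  obtain ⟨h, a1, a2, a3, a4, a5⟩ := perron (f := fun x => P x ^ 2) (g := fun x => l ^ 2 * Q x ^ 2)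
    (χ := fun x => 1 / (1 + l ^ 2 * Q x ^ 2) ^ m) (ω := fun z => Q z ^ p) (S := {z | Q z ≤ 1})
    (D := (m + 1) * C) (by positivity) ω0 (fun x => by positivity) fg
    (fun x => by simp only [map_neg_eq_map])
    (fun x z hz => (hC x z hz).trans (by
      have : 0 ≤ m * C * Q z ^ p * (1 + l ^ 2 * Q x ^ 2) := by have := ω0 z; positivity
      linarith))
    (fun x z hz => by
      have A0 : 0 < 1 + l ^ 2 * Q x ^ 2 := by positivity
      have b1 := bern A0 (show 0 < 1 + l ^ 2 * Q (x + z) ^ 2 by positivity) m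
      have b2 := bern A0 (show 0 < 1 + l ^ 2 * Q (x - z) ^ 2 by positivity) m
      have b3 := hC x z hz
      refine le_trans ?_ (add_le_add b1 b2)
      have w := ω0 z
      generalize Q z ^ p = ω at *
      generalize l ^ 2 * Q (x + z) ^ 2 = g1 at *
      generalize l ^ 2 * Q (x - z) ^ 2 = g2 at *
      generalize l ^ 2 * Q x ^ 2 = g at *
      have b4 : (1 + g1 - (1 + g)) / (1 + g) + (1 + g2 - (1 + g)) / (1 + g) ≤ C * ω := by
        rw [← add_div, div_le_iff₀ A0]; linarith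
      have b5 := mul_le_mul_of_nonneg_left b4 (Nat.cast_nonneg (α := ℝ) m)
      rw [← add_div, ← sub_mul, mul_one_div]
      refine div_le_div_of_nonneg_right ?_ (by positivity)
      have : 0 ≤ C * ω := by positivity
      linarith)
  have cvx : ∀ (a b : X) (s t : ℝ), 0 ≤ s → 0 ≤ t → s + t = 1 →
      h (s • a + t • b) ≤ s * h a + t * h b := by
    intro a b s t hs ht hst
    have := a5 s t 0 (t • (a - b)) (s • (b - a)) hs ht hst le_rfl (fun x => by
      have e := map_add_le_add P (s • (x + t • (a - b))) (t • (x + s • (b - a)))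
      rw [sm P hs, sm P ht, show s • (x + t • (a - b)) + t • (x + s • (b - a)) = (s + t) • x by
        module, hst, one_smul] at e
      have e2 := pow_le_pow_left₀ (P0 x) e 2
      obtain rfl : t = 1 - s := by linarith
      have := mul_nonneg (mul_nonneg hs ht)
        (sq_nonneg (P (x + (1 - s) • (a - b)) - P (x + s • (b - a))))
      nlinarith) (s • a + t • b)
    obtain rfl : t = 1 - s := by linarith
    rw [show s • a + (1 - s) • b + (1 - s) • (a - b) = a by module,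
      show s • a + (1 - s) • b + s • (b - a) = b by module] at this
    linarith
  have h00 : h 0 ≤ 0 := by simpa using a2 0
  have cB : Convex ℝ {x | h x ≤ 1} := fun a ha b hb s t hs ht hst =>
    (cvx a b s t hs ht hst).trans (by
      have := mul_le_mul_of_nonneg_left ha hs
      have := mul_le_mul_of_nonneg_left hb ht
      simp only [Set.mem_ofPred_eq] at *
      linarith)
  have gB : ∀ x, l * Q x ≤ 1 → h x ≤ 1 := fun x hx => (a2 x).trans (by
    have := pow_le_pow_left₀ (mul_nonneg l0.le (Q0 x)) hx 2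
    rwa [mul_pow, one_pow] at this)
  have aB : Absorbent ℝ {x | h x ≤ 1} := (Q.absorbent_ball_zero (inv_pos.2 l0)).mono
    fun x hx => gB x (by
      rw [Seminorm.mem_ball_zero, inv_eq_one_div, lt_div_iff₀ l0] at hx; linarith)
  obtain ⟨N, n1, n2⟩ : ∃ N : Seminorm ℝ X, (∀ x r, 0 < r → h (r⁻¹ • x) ≤ 1 → N x ≤ r) ∧
      ∀ x, N x < 1 → h x ≤ 1 :=
    ⟨gaugeSeminorm ((balanced_iff_neg_mem cB).2 fun x hx => (a3 x).trans hx) cB aB,
      fun x r hr hx => gauge_le_of_mem hr.le ((Set.mem_smul_set_iff_inv_smul_mem₀ hr.ne' _ _).2 hx),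
      fun x hx => by
        by_contra hn
        exact absurd (one_le_gauge_of_notMem (cB.starConvex (h00.trans zero_le_one)) (aB x) hn)
          (not_le.2 hx)⟩
  have N0 := apply_nonneg N
  have fB : ∀ x, h x ≤ 1 → P x ≤ 1 := fun x hx => by
    have := (a1 x).trans hx
    nlinarith [P0 x]
  have PN : ∀ x, P x ≤ N x := fun x => le_of_forall_gt_imp_ge_of_dense fun r hr => by
    have r0 : 0 < r := (N0 x).trans_lt hr
    have := fB _ (n2 (r⁻¹ • x) (by rw [sm N (inv_pos.2 r0).le, inv_mul_lt_iff₀ r0]; linarith))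
    rw [sm P (inv_pos.2 r0).le, inv_mul_le_iff₀ r0] at this
    linarith
  have NQ : ∀ x, N x ≤ l * Q x := fun x => le_of_forall_gt_imp_ge_of_dense fun r hr => by
    have r0 : 0 < r := (mul_nonneg l0.le (Q0 x)).trans_lt hr
    refine n1 x r r0 (gB _ ?_)
    rw [sm Q (inv_pos.2 r0).le, mul_left_comm, inv_mul_le_iff₀ r0]; linarith
  have QN : ∀ x, Q x ≤ R * N x := fun x =>
    (hR x).trans (mul_le_mul_of_nonneg_left (PN x) (by linarith))
  obtain ⟨L, L1, hL⟩ : ∃ L : ℝ, 1 ≤ L ∧ ∀ x δ, h x ≤ 1 → 0 ≤ δ → δ ≤ 1 →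
      h ((1 + δ) • x) ≤ h x + δ * L := by
    refine ⟨l ^ 2 * (2 * R) ^ 2 + 1, by linarith [show 0 ≤ l ^ 2 * (2 * R) ^ 2 by positivity],
      fun x δ hx d0 d1 => ?_⟩
    have b1 := cvx x ((2 : ℝ) • x) (1 - δ) δ (by linarith) d0 (by ring)
    rw [show (1 - δ) • x + δ • (2 : ℝ) • x = (1 + δ) • x by module] at b1
    have b2 : Q ((2 : ℝ) • x) ≤ 2 * R := by
      rw [sm Q zero_le_two]
      have := mul_le_mul_of_nonneg_left (fB x hx) (show 0 ≤ R by linarith)
      linarith [hR x]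
    have b3 := (a2 _).trans (mul_le_mul_of_nonneg_left (pow_le_pow_left₀ (Q0 _) b2 2) (sq_nonneg l))
    have b4 := mul_le_mul_of_nonneg_left b3 d0
    have b5 := mul_nonneg d0 ((sq_nonneg _).trans (a1 x))
    linarith
  have L0 : 0 < L := by linarith
  have i1 : ∀ x η, 0 ≤ η → h x ≤ 1 - η → N x ≤ 1 - η / (2 * L) := fun x η e0 hx => by
    have e1 : η ≤ 1 := by linarith [(sq_nonneg _).trans (a1 x)]
    have e2 : η / L ≤ 1 := by rw [div_le_one L0]; linarith
    have e3 : 0 ≤ η / L := by positivity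
    have b := hL x (η / L) (by linarith) e3 e2
    rw [div_mul_cancel₀ _ L0.ne'] at b
    have := n1 x (1 + η / L)⁻¹ (by positivity) (by rw [inv_inv]; linarith)
    refine this.trans ?_
    rw [show η / (2 * L) = η / L / 2 by field_simp, inv_le_iff_one_le_mul₀ (by positivity)]
    nlinarith
  have i2 : ∀ x, N x ≤ 1 → h x ≤ 1 := fun x hx => le_of_forall_pos_le_add fun ε hε => by
    have e0 : 0 < min 1 (ε / L) := by positivity
    have e1 := min_le_left 1 (ε / L)
    have e2 := (le_div_iff₀ L0).1 (min_le_right 1 (ε / L))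
    generalize min 1 (ε / L) = δ at *
    have b := n2 ((1 + δ)⁻¹ • x) (by
      rw [sm N (by positivity), inv_mul_lt_iff₀ (by positivity)]; linarith)
    have := hL _ δ b e0.le e1
    rw [smul_inv_smul₀ (by positivity)] at this
    linarith
  have i3 : ∀ x, N x = 1 → 1 ≤ h x := fun x hx => by
    by_contra hn
    have := i1 x (1 - h x) (by linarith) (by linarith)
    have : 0 < (1 - h x) / (2 * L) := div_pos (by linarith) (by positivity)
    linarith
  have i4 : ∀ x, N x ≤ 1 → h x ≤ N x := fun x hx => le_of_forall_gt_imp_ge_of_dense fun r hr => by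
    rcases le_total 1 r with a | a
    · exact (i2 x hx).trans a
    have r0 : 0 < r := (N0 x).trans_lt hr
    have b := n2 (r⁻¹ • x) (by rw [sm N (inv_pos.2 r0).le, inv_mul_lt_iff₀ r0]; linarith)
    have := cvx (r⁻¹ • x) 0 r (1 - r) r0.le (by linarith) (by ring)
    rw [smul_inv_smul₀ r0.ne', smul_zero, add_zero] at this
    nlinarith
  refine ⟨N, fun x => ⟨PN x, NQ x⟩, ⟨c / 6 * (1 / (2 * l * R)) ^ q / (1 + l ^ 2 * R ^ 2) ^ m /
    (2 * L), by positivity, fun ε e0 e2 u v hu hv huv => ?_⟩,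
    ⟨3 * (m + 1) * C * (2 * R) ^ p * 2 + (2 * R) ^ p, by positivity, fun t t0 t1 u v hu hv => ?_⟩⟩
  · have y1 : N ((1 / 2 : ℝ) • (u - v)) ≤ 1 := by
      rw [sm N (by norm_num)]; linarith [map_sub_le_add N u v]
    have x1 : N ((1 / 2 : ℝ) • (u + v)) ≤ 1 := by
      rw [sm N (by norm_num)]; linarith [map_add_le_add N u v]
    have y2 : 1 / (2 * l * R) * ε ≤ P ((1 / 2 : ℝ) • (u - v)) := by
      rw [sm P (by norm_num), one_div_mul_eq_div, div_le_iff₀ (by positivity)]
      have := mul_le_mul_of_nonneg_left (hR (u - v)) l0.le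
      linarith [NQ (u - v)]
    have y3 := Real.rpow_le_rpow (by positivity) y2 (show 0 ≤ q by linarith)
    rw [Real.mul_rpow (by positivity) e0.le] at y3
    have y4 := hc
    set y := (1 / 2 : ℝ) • (u - v) with hy
    set x := (1 / 2 : ℝ) • (u + v) with hx
    have s0 : 0 ≤ P y ^ q := Real.rpow_nonneg (P0 y) q
    have b := a5 (1 / 2) (1 / 2) (c / 6 * P y ^ q) y (-y) (by norm_num) (by norm_num) (by norm_num)
      (by positivity) (fun x => by
        have b1 := hc x y ((PN y).trans y1)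
        have b2 : c * P y ^ q / (1 + l ^ 2 * Q x ^ 2) ^ m ≤ c * P y ^ q / (1 + P x ^ 2) ^ m :=
          div_le_div_of_nonneg_left (by positivity) (by positivity)
            (pow_le_pow_left₀ (by positivity) (by linarith [fg x]) m)
        rw [← sub_eq_add_neg]
        have : 3 * (c / 6 * P y ^ q) * (1 / (1 + l ^ 2 * Q x ^ 2) ^ m) =
          c * P y ^ q / (1 + l ^ 2 * Q x ^ 2) ^ m / 2 := by ring
        linarith) x
    rw [show x + y = u by rw [hx, hy]; module, show x + -y = v by rw [hx, hy]; module] at b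
    have b1 : Q x ≤ R := (QN x).trans (by nlinarith)
    have b2 : 1 / (1 + l ^ 2 * R ^ 2) ^ m ≤ 1 / (1 + l ^ 2 * Q x ^ 2) ^ m :=
      div_le_div_of_nonneg_left zero_le_one (by positivity) (pow_le_pow_left₀ (by positivity) (by
        have := mul_le_mul_of_nonneg_left (pow_le_pow_left₀ (Q0 x) b1 2) (sq_nonneg l)
        linarith) m)
    have b3 := mul_le_mul (mul_le_mul_of_nonneg_left y3 (show 0 ≤ c / 6 by positivity)) b2
      (by positivity) (by positivity)
    have := i1 x (c / 6 * ((1 / (2 * l * R)) ^ q * ε ^ q) * (1 / (1 + l ^ 2 * R ^ 2) ^ m))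
      (by positivity) (by linarith [i2 u hu.le, i2 v hv.le])
    refine le_trans (le_of_eq ?_) (le_sub_comm.1 this)
    ring
  · obtain ⟨u1, u2, u3, u4⟩ := up N u (t • v)
    rw [sm N t0.le, hu, hv, mul_one] at u1 u2 u3 u4
    have tp : 0 < t ^ p := by positivity
    have D0 : 0 ≤ 3 * (m + 1) * C * (2 * R) ^ p * 2 * t ^ p := by positivity
    rcases le_total 1 (2 * R * t) with a | a
    · have := Real.one_le_rpow a (show 0 ≤ p by linarith)
      rw [Real.mul_rpow (by positivity) t0.le] at this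
      linarith
    have t2 : t ≤ 1 / 2 := by nlinarith
    have α0 : 0 < N (u + t • v) := by linarith
    have β0 : 0 < N (u - t • v) := by linarith
    have A1 := sm1 N α0
    have B1 := sm1 N β0
    have eA := smul_inv_smul₀ α0.ne' (u + t • v)
    have eB := smul_inv_smul₀ β0.ne' (u - t • v)
    generalize N (u + t • v) = α at *
    generalize N (u - t • v) = β at *
    generalize α⁻¹ • (u + t • v) = A at *
    generalize β⁻¹ • (u - t • v) = B at *
    have z1 : N ((1 / 2 : ℝ) • (A - B)) ≤ 2 * t := by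
      have e : A - B = ((1 - α) • A - (1 - β) • B) + (2 * t) • v := by
        rw [sub_smul, sub_smul, eA, eB]; module
      have b1 := map_add_le_add N ((1 - α) • A - (1 - β) • B) ((2 * t) • v)
      have b2 := map_sub_le_add N ((1 - α) • A) ((1 - β) • B)
      rw [← e, sm N (by positivity), hv] at b1
      rw [map_smul_eq_mul, map_smul_eq_mul, A1, B1, Real.norm_eq_abs, Real.norm_eq_abs] at b2
      have : |1 - α| ≤ t := abs_le.2 ⟨by linarith, by linarith⟩
      have : |1 - β| ≤ t := abs_le.2 ⟨by linarith, by linarith⟩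
      rw [sm N (by norm_num)]; linarith
    have z2 : Q ((1 / 2 : ℝ) • (A - B)) ≤ 2 * R * t := (QN _).trans (by nlinarith)
    have z3 := Real.rpow_le_rpow (Q0 _) z2 (show 0 ≤ p by linarith)
    rw [Real.mul_rpow (by positivity) t0.le] at z3
    have x1 : N ((1 / 2 : ℝ) • (A + B)) ≤ 1 := by
      rw [sm N (by norm_num)]; linarith [map_add_le_add N A B]
    have b := a4 ((1 / 2 : ℝ) • (A + B)) _ (z2.trans a)
    rw [show (1 / 2 : ℝ) • (A + B) + (1 / 2 : ℝ) • (A - B) = A by module,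
      show (1 / 2 : ℝ) • (A + B) - (1 / 2 : ℝ) • (A - B) = B by module] at b
    have b1 := mul_le_mul (mul_le_mul_of_nonneg_left z3 (show 0 ≤ (m + 1) * C by positivity))
      (show 1 + 2 * h ((1 / 2 : ℝ) • (A + B)) - P ((1 / 2 : ℝ) • (A + B)) ^ 2 ≤ 3 by
        linarith [i2 _ x1, sq_nonneg (P ((1 / 2 : ℝ) • (A + B)))])
      (by linarith [a1 ((1 / 2 : ℝ) • (A + B)), sq_nonneg (P ((1 / 2 : ℝ) • (A + B)))])
      (by positivity)
    have b2 := i4 _ x1
    have b3 := i3 A A1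
    have b4 := i3 B B1
    have b5 := map_add_le_add N ((2 : ℝ) • u) (β • A + α • B)
    have b6 := map_add_le_add N (β • A) (α • B)
    rw [show (2 : ℝ) • u + (β • A + α • B) = (2 * (α + β)) • (1 / 2 : ℝ) • (A + B) by
      rw [show (2 : ℝ) • u = α • A + β • B by rw [eA, eB]; module]; module,
      sm N zero_le_two, sm N (by positivity), hu] at b5
    rw [sm N β0.le, sm N α0.le, A1, B1] at b6
    have η0 : 0 ≤ (m + 1) * C * ((2 * R) ^ p * t ^ p) * 3 := by positivity
    have b7 : 0 ≤ (2 * R) ^ p * t ^ p := by positivity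
    have e : (3 * (m + 1) * C * (2 * R) ^ p * 2 + (2 * R) ^ p) * t ^ p =
      2 * ((m + 1) * C * ((2 * R) ^ p * t ^ p) * 3) + (2 * R) ^ p * t ^ p := by ring
    rw [e]
    generalize (m + 1) * C * ((2 * R) ^ p * t ^ p) * 3 = η at *
    have b8 : 2 - η ≤ 2 * N ((1 / 2 : ℝ) • (A + B)) := by linarith
    have b9 := mul_le_mul_of_nonneg_left b8 (show 0 ≤ α + β by linarith)
    nlinarith

end Pool.Agent.H96.RN
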