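import Mathlib

/-! A rough angular pattern and the sets that detect it. -/

namespace Pool.Agent.H96.RO

open Set MeasureTheory

/-- scales -/
def RR (k : ℕ) : ℝ := 100 * 4 ^ k

theorem RR_ge (k : ℕ) : 100 * ((k : ℝ) + 1) ^ 2 ≤ RR k := by
  have h : (k : ℝ) + 1 ≤ 2 ^ k := by exact_mod_cast Nat.lt_two_pow_self
  have h2 := pow_le_pow_left₀ (by positivity) h 2
  rw [← pow_mul, mul_comm k 2, pow_mul] at h2
  unfold RR
  norm_num at h2 ⊢
  exact h2

theorem RR_100 (k : ℕ) : 100 ≤ RR k := by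
  have := RR_ge k
  nlinarith [Nat.cast_nonneg (α := ℝ) k]

/-- the pattern as a function of the slope -/
noncomputable def ind (s : ℝ) : ℝ := if Int.fract (RR ⌊1 / s⌋₊ * s) < 1 / 2 then 1 else 0

theorem ind_mem (s : ℝ) : 0 ≤ ind s ∧ ind s ≤ 1 := by
  unfold ind
  split_ifs <;> norm_num

theorem ind_meas : Measurable ind := by
  refine Measurable.ite (measurableSet_lt (Measurable.fract (Measurable.mul ?_ measurable_id))
    measurable_const) measurable_const measurable_const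
  exact (measurable_from_nat (f := RR)).comp
    (Nat.measurable_floor.comp (measurable_const.div measurable_id))

theorem ind_val {k : ℕ} (hk : 1 ≤ k) {z0 z1 x0 x1 : ℝ} (h0 : z0 ∈ Icc (RR k) (11 / 10 * RR k))
    (h1 : z1 - 1 / (k + 1) * z0 ∈ Icc 2 (RR k / (k * (k + 1)) / 2))
    (hf : Int.fract (RR k * (z1 / z0)) ∈ Icc (7 / 10 : ℝ) (8 / 10)) (hx0 : |x0| ≤ 1 / 100) :
    (|x1| ≤ 1 / 100 → ind ((x1 - z1) / (x0 - z0)) = 0) ∧
      (|x1 - 1 / 2| ≤ 1 / 100 → ind ((x1 - z1) / (x0 - z0)) = 1) := by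
  have hR := RR_ge k
  have hR1 := RR_100 k
  set R := RR k with hRd
  have hk1 : (1:ℝ) ≤ k := by exact_mod_cast hk
  obtain ⟨a0, b0⟩ := abs_le.1 hx0
  set v := 1 / (k + 1 : ℝ) * z0 with hv
  have ev : (k + 1) * v = z0 := by rw [hv]; field_simp
  set u := z1 - v with hu
  have hu2 : (k + 1) * (k * u) ≤ R / 2 := by
    have := h1.2
    rw [le_div_iff₀ (by norm_num), le_div_iff₀ (by positivity)] at this
    linarith
  have hD : 0 < z0 - x0 := by linarith [h0.1]
  have hz0 : 0 < z0 := by linarith [h0.1]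
  have hv0 : 0 < v := by positivity
  have key : |x1| ≤ 1 → ind ((x1 - z1) / (x0 - z0)) =
      if Int.fract (R * (z1 / z0) - R / (z0 - x0) * (x1 - z1 / z0 * x0)) < 1 / 2 then 1 else 0 := by
    intro hx1
    obtain ⟨a1, b1⟩ := abs_le.1 hx1
    have hN : 0 < z1 - x1 := by linarith [h1.1]
    have e1 : (x1 - z1) / (x0 - z0) = (z1 - x1) / (z0 - x0) := by
      rw [← neg_sub z1, ← neg_sub z0, neg_div_neg_eq]
    have e2 : ⌊1 / ((z1 - x1) / (z0 - x0))⌋₊ = k := by
      rw [one_div_div, Nat.floor_eq_iff (by positivity), le_div_iff₀ hN, div_lt_iff₀ hN]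
      constructor
      · have : (k + 1) * (k * (z1 - x1)) ≤ (k + 1) * (z0 - x0) := by
          have e : z1 = u + v := by rw [hu]; ring
          rw [e]
          nlinarith [h0.1]
        exact le_of_mul_le_mul_left this (by positivity)
      · have e : z1 = u + v := by rw [hu]; ring
        rw [e]
        nlinarith [h1.1]
    have e3 : R * ((z1 - x1) / (z0 - x0)) =
        R * (z1 / z0) - R / (z0 - x0) * (x1 - z1 / z0 * x0) := by
      field_simp
      ring
    rw [e1, ind, e2, e3]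
  have hs0 : 0 ≤ z1 / z0 := div_nonneg (by linarith [h1.1]) hz0.le
  have hs1 : z1 / z0 ≤ 1 := by
    rw [div_le_one hz0]
    have e : z1 = u + v := by rw [hu]; ring
    have c1 : 2 * v ≤ (k + 1) * v := by nlinarith
    have c2 : 2 * u ≤ (k + 1) * (k * u) := by
      rw [← mul_assoc]
      exact mul_le_mul_of_nonneg_right (by nlinarith) (by linarith [h1.1])
    linarith [h0.1]
  have hq1 : 9 / 10 ≤ R / (z0 - x0) := by rw [le_div_iff₀ hD]; linarith [h0.2]
  have hq2 : R / (z0 - x0) ≤ 101 / 100 := by rw [div_le_iff₀ hD]; linarith [h0.1]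
  have hsx : |z1 / z0 * x0| ≤ 1 / 100 := by
    rw [abs_mul, abs_of_nonneg hs0]
    nlinarith [abs_nonneg x0]
  obtain ⟨a2, b2⟩ := abs_le.1 hsx
  have hfr : ∀ δ : ℝ, 0 ≤ Int.fract (R * (z1 / z0)) - δ → Int.fract (R * (z1 / z0)) - δ < 1 →
      Int.fract (R * (z1 / z0) - δ) = Int.fract (R * (z1 / z0)) - δ := by
    intro δ c1 c2
    exact Int.fract_eq_iff.2 ⟨c1, c2, ⌊R * (z1 / z0)⌋, by rw [Int.fract]; ring⟩
  constructor
  · intro hx
    obtain ⟨a1, b1⟩ := abs_le.1 hx
    have c1 : R / (z0 - x0) * (x1 - z1 / z0 * x0) ≤ 3 / 100 := by nlinarith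
    have c2 : -(3 / 100) ≤ R / (z0 - x0) * (x1 - z1 / z0 * x0) := by nlinarith
    rw [key (hx.trans (by norm_num)), hfr _ (by linarith [hf.1]) (by linarith [hf.2]),
      if_neg (by linarith [hf.1])]
  · intro hx
    obtain ⟨a1, b1⟩ := abs_le.1 hx
    have c1 : R / (z0 - x0) * (x1 - z1 / z0 * x0) ≤ 53 / 100 := by nlinarith
    have c2 : 43 / 100 ≤ R / (z0 - x0) * (x1 - z1 / z0 * x0) := by nlinarith
    rw [key (abs_le.2 ⟨by linarith, by linarith⟩), hfr _ (by linarith [hf.1]) (by linarith [hf.2]),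
      if_pos (by linarith [hf.2])]

variable {n : ℕ}

/-- slanted slab -/
def P (n : ℕ) (R a b s : ℝ) : Set (EuclideanSpace ℝ (Fin (n + 2))) :=
  {w | w 0 ∈ Icc R (11 / 10 * R) ∧ w 1 - s * w 0 ∈ Icc a b ∧ ∀ j : Fin n, |w j.succ.succ| ≤ R}

theorem P_eq (R a b s : ℝ) : P n R a b s =
    (Matrix.toLin' (Matrix.TransvectionStruct.toMatrix ⟨(1 : Fin (n + 2)), 0, by simp, -s⟩) ∘
      WithLp.ofLp) ⁻¹' Icc (Fin.cons R (Fin.cons a fun _ => -R))
        (Fin.cons (11 / 10 * R) (Fin.cons b fun _ => R)) := by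
  ext w
  simp [P, Matrix.transvection, Matrix.add_mulVec, Matrix.single_mulVec, Pi.le_def,
    Fin.forall_fin_succ, abs_le, Function.update_apply, forall_and, Fin.succ_succ_ne_one,
    sub_eq_add_neg]
  tauto

theorem P_meas (R a b s : ℝ) : MeasurableSet (P n R a b s) := by
  rw [P_eq]
  exact ((Real.volume_preserving_transvectionStruct _).comp
    (PiLp.volume_preserving_ofLp _)).measurable measurableSet_Icc

theorem P_vol {R a b : ℝ} (s : ℝ) (hR : 0 ≤ R) (hab : a ≤ b) :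
    volume (P n R a b s) = ENNReal.ofReal (R / 10 * (b - a) * (2 * R) ^ n) := by
  rw [P_eq, ((Real.volume_preserving_transvectionStruct _).comp
    (PiLp.volume_preserving_ofLp _)).measure_preimage measurableSet_Icc.nullMeasurableSet,
    Real.volume_Icc_pi, ← ENNReal.ofReal_prod_of_nonneg]
  · simp [Fin.prod_univ_succ]
    congr 1
    ring
  · intro i _
    refine Fin.cases ?_ (fun i => Fin.cases ?_ (fun i => ?_) i) i <;> simp <;> linarith

/-- the detecting sets -/
def Z (n k : ℕ) : Set (EuclideanSpace ℝ (Fin (n + 2))) :=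
  P n (RR k) 2 (RR k / (k * (k + 1)) / 2) (1 / (k + 1)) ∩
    {w | Int.fract (RR k * (w 1 / w 0)) ∈ Icc (7 / 10 : ℝ) (8 / 10)}

theorem Z_meas (k : ℕ) : MeasurableSet (Z n k) :=
  (P_meas _ _ _ _).inter ((Measurable.fract (by fun_prop)) measurableSet_Icc)

theorem L_ge {k : ℕ} (hk : 1 ≤ k) : 100 ≤ RR k / (k * (k + 1)) := by
  have hk1 : (1:ℝ) ≤ k := by exact_mod_cast hk
  rw [le_div_iff₀ (by positivity)]
  nlinarith [RR_ge k]

theorem Z_le {k : ℕ} (hk : 1 ≤ k) :
    volume (Z n k) ≤ ENNReal.ofReal ((2 * RR k) ^ (n + 2) / k ^ 2) := by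
  have hk1 : (1:ℝ) ≤ k := by exact_mod_cast hk
  have h1 := L_ge hk
  have h2 := RR_100 k
  refine (measure_mono inter_subset_left).trans ?_
  rw [P_vol _ (by linarith) (by linarith)]
  refine ENNReal.ofReal_le_ofReal ?_
  have h3 : RR k / (k * (k + 1)) ≤ RR k / k ^ 2 :=
    div_le_div_of_nonneg_left (by linarith) (by positivity) (by nlinarith)
  have e : (2 * RR k) ^ (n + 2) / k ^ 2 = 4 * RR k * (RR k / k ^ 2) * (2 * RR k) ^ n := by ring
  rw [e]
  refine mul_le_mul_of_nonneg_right ?_ (by positivity)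
  nlinarith

theorem Z_ge {k : ℕ} (hk : 1 ≤ k) :
    RR k ^ (n + 2) / (1000 * (k * (k + 1))) ≤ volume.real (Z n k) := by
  have hk1 : (1:ℝ) ≤ k := by exact_mod_cast hk
  have h1 := L_ge hk
  have h2 := RR_100 k
  have hc : P n (RR k) 2 (RR k / (k * (k + 1)) / 4) (1 / (k + 1)) ⊆ ⋃ j ∈ Finset.range 20,
      (fun w => w + EuclideanSpace.single (1 : Fin (n + 2)) ((j : ℝ) / 10)) ⁻¹' Z n k := by
    rintro w ⟨a0, a1, a2⟩
    have hw : 0 < w 0 := by linarith [a0.1]
    set A := RR k * (w 1 / w 0) with hA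
    set τ := RR k / w 0 / 10 with hτ
    have t1 : τ ≤ 1 / 10 := by
      rw [hτ]
      have := (div_le_one hw).2 a0.1
      linarith
    have t2 : 9 / 100 ≤ τ := by
      rw [hτ, le_div_iff₀ (by norm_num), le_div_iff₀ hw]
      linarith [a0.2]
    have t0 : 0 < τ := by linarith
    set T : ℝ := ⌊A⌋ + 1 + 7 / 10 - A with hT
    have T1 : 0 ≤ T := by linarith [Int.lt_floor_add_one A]
    have T2 : T ≤ 17 / 10 := by linarith [Int.floor_le A]
    have j1 := (div_le_iff₀ t0).1 (Nat.le_ceil (T / τ))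
    have j2 := Nat.ceil_lt_add_one (div_nonneg T1 t0.le)
    have j3 : T / τ ≤ 19 := by rw [div_le_iff₀ t0]; linarith
    have j4 : (⌈T / τ⌉₊ : ℝ) * τ < T + τ := by
      have := mul_lt_mul_of_pos_right j2 t0
      rwa [add_mul, div_mul_cancel₀ _ t0.ne', one_mul] at this
    have j5 : (⌈T / τ⌉₊ : ℝ) < 20 := by linarith
    set j := ⌈T / τ⌉₊ with hj
    have j0 : (0:ℝ) ≤ j := Nat.cast_nonneg _
    refine mem_iUnion₂.2 ⟨j, Finset.mem_range.2 (by exact_mod_cast j5), ⟨by simpa using a0, ?_,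
      fun i => by simpa [Fin.succ_succ_ne_one] using a2 i⟩, ?_⟩
    · have e : (w + EuclideanSpace.single (1 : Fin (n + 2)) ((j : ℝ) / 10)) 1 - 1 / (k + 1) *
          (w + EuclideanSpace.single (1 : Fin (n + 2)) ((j : ℝ) / 10)) 0 =
          w 1 - 1 / (k + 1) * w 0 + j / 10 := by
        simp
        ring
      rw [e]
      exact ⟨by linarith [a1.1], by linarith [a1.2]⟩
    · have e : RR k * ((w + EuclideanSpace.single (1 : Fin (n + 2)) ((j : ℝ) / 10)) 1 /
          (w + EuclideanSpace.single (1 : Fin (n + 2)) ((j : ℝ) / 10)) 0) = A + j * τ := by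
        simp [hA, hτ]
        ring
      have e2 : Int.fract (A + j * τ) = A + j * τ - (⌊A⌋ + 1) :=
        Int.fract_eq_iff.2 ⟨by linarith, by linarith, ⌊A⌋ + 1, by push_cast; ring⟩
      rw [mem_ofPred_eq, e, e2]
      exact ⟨by linarith, by linarith⟩
  have h3 := (measure_mono (μ := volume) hc).trans (measure_biUnion_finset_le _ _)
  simp only [measure_preimage_add_right, Finset.sum_const, Finset.card_range, nsmul_eq_mul] at h3
  rw [P_vol _ (by linarith) (by linarith)] at h3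
  have hfin : volume (Z n k) ≠ ⊤ := ((Z_le hk).trans_lt ENNReal.ofReal_lt_top).ne
  have h4 := (ENNReal.ofReal_le_iff_le_toReal (ENNReal.mul_ne_top (by simp) hfin)).1 h3
  rw [ENNReal.toReal_mul, ENNReal.toReal_natCast] at h4
  have h5 : RR k ^ n ≤ (2 * RR k) ^ n := pow_le_pow_left₀ (by linarith) (by linarith) n
  have e : RR k ^ (n + 2) / (1000 * (k * (k + 1))) =
      RR k / 10 * (RR k / (k * (k + 1)) / 5) * RR k ^ n / 20 := by
    field_simp
    ring
  rw [e, measureReal_def, div_le_iff₀ (by norm_num)]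
  refine le_trans ?_ (h4.trans (le_of_eq (by push_cast; ring)))
  exact mul_le_mul (mul_le_mul_of_nonneg_left (by linarith) (by linarith)) h5 (by positivity)
    (mul_nonneg (by linarith) (by linarith))

theorem Z_norm {k : ℕ} (hk : 1 ≤ k) {z : EuclideanSpace ℝ (Fin (n + 2))} (hz : z ∈ Z n k) :
    RR k ≤ ‖z‖ ∧ ‖z‖ ≤ 2 * (n + 2) * RR k := by
  obtain ⟨⟨a0, a1, a2⟩, -⟩ := hz
  have h2 := RR_100 k
  have hk1 : (1:ℝ) ≤ k := by exact_mod_cast hk
  refine ⟨a0.1.trans ((le_abs_self _).trans (PiLp.norm_apply_le z 0)), ?_⟩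
  have h3 : ∀ j, |z j| ≤ 2 * RR k := by
    intro j
    refine Fin.cases ?_ (fun j => Fin.cases ?_ (fun j => ?_) j) j
    · exact abs_le.2 ⟨by linarith [a0.1], by linarith [a0.2]⟩
    · have b1 : RR k / (k * (k + 1)) ≤ RR k := div_le_self (by linarith) (by nlinarith)
      have b2 : 1 / (k + 1 : ℝ) ≤ 1 := by rw [div_le_one (by positivity)]; linarith
      have b3 : 0 ≤ 1 / (k + 1 : ℝ) * z 0 := mul_nonneg (by positivity) (by linarith [a0.1])
      have b4 : 1 / (k + 1 : ℝ) * z 0 ≤ z 0 := mul_le_of_le_one_left (by linarith [a0.1]) b2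
      exact abs_le.2 ⟨by simp only [Fin.succ_zero_eq_one]; linarith [a1.1],
        by simp only [Fin.succ_zero_eq_one]; linarith [a1.2, a0.2]⟩
    · linarith [a2 j]
  rw [EuclideanSpace.norm_eq, Real.sqrt_le_left (by positivity)]
  calc ∑ i, ‖z i‖ ^ 2 ≤ ∑ _i : Fin (n + 2), (2 * RR k) ^ 2 :=
        Finset.sum_le_sum fun i _ => pow_le_pow_left₀ (norm_nonneg _) (h3 i) 2
    _ ≤ _ := by
        simp only [Finset.sum_const, Finset.card_univ, Fintype.card_fin, nsmul_eq_mul]
        push_cast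
        have : (0:ℝ) ≤ n := Nat.cast_nonneg n
        nlinarith [mul_nonneg (mul_nonneg (by linarith : (0:ℝ) ≤ n + 2) (by linarith : (0:ℝ) ≤ n + 1))
          (sq_nonneg (2 * RR k))]

theorem Z_uniq {k l : ℕ} {z : EuclideanSpace ℝ (Fin (n + 2))} (h1 : z ∈ Z n k) (h2 : z ∈ Z n l) :
    k = l := by
  have key : ∀ k l : ℕ, k < l → z ∈ Z n k → z ∈ Z n l → False := by
    intro k l h a b
    have c : (4:ℝ) ^ (k + 1) ≤ 4 ^ l := pow_le_pow_right₀ (by norm_num) h
    have := a.1.1.2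
    have := b.1.1.1
    have : (0:ℝ) < 4 ^ k := by positivity
    unfold RR at *
    rw [pow_succ] at c
    linarith
  rcases lt_trichotomy k l with h | h | h
  exacts [(key k l h h1 h2).elim, h, (key l k h h2 h1).elim]

theorem geo_sum (d : ℕ) (hd : d ≠ 0) (T : ℝ) (hT : 0 ≤ T) (N : ℕ) :
    ∑ i ∈ Finset.range N, (if RR (i + 1) ≤ T then (2 * RR (i + 1)) ^ d else 0) ≤
      2 * (2 * T) ^ d := by
  have h1 : ∀ N, ∑ i ∈ Finset.range N, (2 * RR (i + 1)) ^ d ≤ (2 * RR (N + 1)) ^ d := by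
    intro N
    have h0 : ∀ N, 0 ≤ (2 * RR N) ^ d := fun N => by have := RR_100 N; positivity
    induction N with
    | zero => simpa using h0 1
    | succ N ih =>
      have e : 2 * RR (N + 1 + 1) = 4 * (2 * RR (N + 1)) := by unfold RR; ring
      have h4 : (4:ℝ) ≤ 4 ^ d := le_self_pow₀ (by norm_num) hd
      rw [Finset.sum_range_succ, e, mul_pow 4]
      nlinarith [h0 (N + 1)]
  induction N with
  | zero => simp; positivity
  | succ N ih =>
    rw [Finset.sum_range_succ]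
    split_ifs with h
    · have h2 : (2 * RR (N + 1)) ^ d ≤ (2 * T) ^ d :=
        pow_le_pow_left₀ (by linarith [RR_100 (N + 1)]) (by linarith) d
      have h3 : ∑ i ∈ Finset.range N, (if RR (i + 1) ≤ T then (2 * RR (i + 1)) ^ d else 0) ≤
          ∑ i ∈ Finset.range N, (2 * RR (i + 1)) ^ d := Finset.sum_le_sum fun i _ => by
        have := RR_100 (i + 1)
        split_ifs
        exacts [le_rfl, by positivity]
      linarith [h1 N]
    · rwa [add_zero]

end Pool.Agent.H96.RO
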