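import Mathlib

set_option autoImplicit false
set_option linter.unusedSectionVars false
set_option maxHeartbeats 800000

namespace Pool.Agent.H96.Rg

open Filter Topology Complex Finset BoundedContinuousFunction

section
variable {X : Type} [TopologicalSpace X] {Λ : (X →ᵇ ℂ) →L[ℂ] ℂ}

lemma pos (h1 : ‖Λ‖ ≤ 1) (h2 : Λ 1 = 1) (f : X →ᵇ ℂ) (hf : ∀ x, 0 ≤ (f x).re) : 0 ≤ (Λ f).re := by
  apply le_of_forall_pos_le_add
  intro δ hδ
  set ε := δ / (‖f‖ ^ 2 + 1) with hε
  have e0 : 0 < ε := by positivity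
  have a1 : ‖1 - (ε : ℂ) • f‖ ≤ 1 + ε ^ 2 * ‖f‖ ^ 2 := by
    rw [BoundedContinuousFunction.norm_le (by positivity)]
    intro x
    apply abs_le_of_sq_le_sq' _ (by positivity) |>.2
    have b1 := f.norm_coe_le_norm x
    have b2 : ‖f x‖ ^ 2 ≤ ‖f‖ ^ 2 := by gcongr
    rw [Complex.sq_norm, Complex.normSq_apply] at b2 ⊢
    simp only [BoundedContinuousFunction.coe_sub, BoundedContinuousFunction.coe_one,
      BoundedContinuousFunction.coe_smul, Pi.sub_apply, Pi.one_apply, smul_eq_mul, sub_re, one_re,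
      mul_re, ofReal_re, ofReal_im, sub_im, one_im, mul_im]
    nlinarith [mul_nonneg e0.le (hf x), mul_le_mul_of_nonneg_left b2 (sq_nonneg ε),
      sq_nonneg (ε ^ 2 * ‖f‖ ^ 2), mul_nonneg (sq_nonneg ε) (sq_nonneg ‖f‖)]
  have a2 := (Complex.re_le_norm _).trans ((Λ.le_of_opNorm_le h1 (1 - (ε : ℂ) • f)).trans
    ((one_mul _).le.trans a1))
  rw [map_sub, map_smul, h2] at a2
  simp only [smul_eq_mul, sub_re, one_re, mul_re, ofReal_re, ofReal_im, zero_mul, sub_zero] at a2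
  have a3 : ε * (‖f‖ ^ 2 + 1) = δ := by rw [hε]; field_simp
  have a4 : ε * 0 ≤ ε * ((Λ f).re + δ) := by nlinarith [mul_pos e0 e0]
  exact le_of_mul_le_mul_left a4 e0

lemma mono (h1 : ‖Λ‖ ≤ 1) (h2 : Λ 1 = 1) (f g : X →ᵇ ℂ) (hf : ∀ x, (f x).re ≤ (g x).re) :
    (Λ f).re ≤ (Λ g).re := by
  have := pos h1 h2 (g - f) (fun x => by simpa using hf x)
  rw [map_sub, sub_re] at this; linarith

end

/-- abstract form of the moment induction -/
lemma core {a : ℕ → ℕ → ℝ} {b : ℕ → ℕ → ℝ → ℝ} {q : ℕ → ℝ → ℝ → ℝ} {h : ℕ → ℝ} {c : ℕ → ℝ}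
    (h0 : ∀ j, 0 < h j) (ht : Tendsto h atTop (𝓝 0)) (c0 : ∀ k, 0 < c k)
    (am : ∀ k, Monotone (a k))
    (bm : ∀ k t i j, j ≤ i → b k j t ≤ b k i t ∧ b k i t - b k j t ≤ 2 * (a k i - a k j))
    (ab : ∀ k j t, c k * h j ^ 2 ≤ t → t ≤ 1 → a k j = b k j t + q k (h j) t)
    (bs : ∀ k j t, b (k + 1) j t ≤ 4 * b k j t / h j ^ 2)
    (qc : ∀ k, Continuous fun p : ℝ × ℝ => q k p.1 p.2)
    (qd : ∀ k, DifferentiableAt ℝ (q k 0) 0) (a0 : ∀ j, a 0 j = 1)
    (bt : ∀ k j, Tendsto (b k j) (𝓝[>] 0) (𝓝 0)) (k : ℕ) : ∀ j, a k j ≤ q k 0 0 := by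
  have step : ∀ k, BddAbove (Set.range (a k)) → (∀ j, a k j ≤ q k 0 0) ∧
      ∃ C, ∀ᶠ t in 𝓝[>] (0 : ℝ), ∀ j, b k j t ≤ C * t := by
    intro k hb
    have ta := tendsto_atTop_ciSup (am k) hb
    set A := ⨆ j, a k j with hA
    have tb : ∀ t, 0 < t → t ≤ 1 → Tendsto (fun j => b k j t) atTop (𝓝 (A - q k 0 t)) := by
      intro t t0 t1
      have tq : Tendsto (fun j => q k (h j) t) atTop (𝓝 (q k 0 t)) :=
        ((qc k).tendsto (0, t)).comp (ht.prodMk_nhds tendsto_const_nhds)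
      refine (ta.sub tq).congr' ?_
      have : Tendsto (fun j => c k * h j ^ 2) atTop (𝓝 (c k * 0 ^ 2)) := (ht.pow 2).const_mul _
      filter_upwards [this.eventually (gt_mem_nhds (show c k * 0 ^ 2 < t by simpa using t0))]
        with j hj
      rw [ab k j t hj.le t1]; ring
    have tq0 : Tendsto (q k 0) (𝓝[>] 0) (𝓝 (q k 0 0)) :=
      (qd k).continuousAt.tendsto.mono_left nhdsWithin_le_nhds
    have e1 : A - q k 0 0 ≤ 0 := by
      have : ∀ j, A - q k 0 0 ≤ 0 + 2 * (A - a k j) := by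
        intro j
        refine le_of_tendsto_of_tendsto (tendsto_const_nhds.sub tq0)
          ((bt k j).add_const (2 * (A - a k j))) ?_
        filter_upwards [Ioc_mem_nhdsGT (zero_lt_one' ℝ)] with t htt
        refine le_of_tendsto (tb t htt.1 htt.2) ?_
        filter_upwards [eventually_ge_atTop j] with i hi
        have := (bm k t i j hi).2
        have := le_ciSup hb i
        linarith
      have t2 : Tendsto (fun j => 0 + 2 * (A - a k j)) atTop (𝓝 (0 + 2 * (A - A))) :=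
        ((tendsto_const_nhds.sub ta).const_mul 2).const_add 0
      simpa using ge_of_tendsto' t2 this
    refine ⟨fun j => by have := le_ciSup hb j; linarith, ?_⟩
    obtain ⟨C, hC⟩ := (qd k).isBigO_sub.bound
    refine ⟨C, ?_⟩
    filter_upwards [Ioc_mem_nhdsGT (zero_lt_one' ℝ), nhdsWithin_le_nhds hC] with t htt hq j
    have b1 : b k j t ≤ A - q k 0 t := by
      refine ge_of_tendsto (tb t htt.1 htt.2) ?_
      filter_upwards [eventually_ge_atTop j] with i hi
      exact (bm k t i j hi).1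
    rw [sub_zero, Real.norm_eq_abs, Real.norm_eq_abs, abs_of_pos htt.1] at hq
    have := (abs_le.1 hq).1
    linarith
  suffices H : BddAbove (Set.range (a k)) from (step k H).1
  induction k with
  | zero => exact ⟨1, by rintro _ ⟨j, rfl⟩; exact (a0 j).le⟩
  | succ k ih =>
    obtain ⟨C, hC⟩ := (step k ih).2
    have t1 : Tendsto (fun j => c (k + 1) * h j ^ 2) atTop (𝓝 0) := by
      simpa using (ht.pow 2).const_mul (c (k + 1))
    have t2 : Tendsto (fun j => c (k + 1) * h j ^ 2) atTop (𝓝[>] 0) :=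
      tendsto_nhdsWithin_iff.2 ⟨t1, Eventually.of_forall fun j => by
        have := h0 j; have := c0 (k + 1); simp only [Set.mem_Ioi]; positivity⟩
    have t3 : Tendsto (fun j => q (k + 1) (h j) (c (k + 1) * h j ^ 2)) atTop (𝓝 (q (k + 1) 0 0)) :=
      ((qc (k + 1)).tendsto (0, 0)).comp (ht.prodMk_nhds t1)
    obtain ⟨J, hJ⟩ := eventually_atTop.1 ((t2.eventually hC).and
      ((t1.eventually (ge_mem_nhds zero_lt_one)).and (t3.eventually (ge_mem_nhds (lt_add_one _)))))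
    refine ⟨4 * C * c (k + 1) + (q (k + 1) 0 0 + 1), ?_⟩
    rintro _ ⟨j, rfl⟩
    obtain ⟨u1, u2, u3⟩ := hJ (max j J) (le_max_right _ _)
    refine (am (k + 1) (le_max_left j J)).trans ?_
    rw [ab (k + 1) _ _ le_rfl u2]
    refine add_le_add ((bs k _ _).trans ?_) u3
    have := h0 (max j J)
    rw [div_le_iff₀ (by positivity)]
    have := u1 (max j J)
    linarith

end Pool.Agent.H96.Rg
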