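import Mathlib
import Pool.Agent.H96.Rg1

set_option autoImplicit false
set_option linter.unusedSectionVars false
set_option maxHeartbeats 800000

namespace Pool.Agent.H96.Rg

open Filter Topology Complex Finset
open scoped BoundedContinuousFunction RealInnerProductSpace

variable {V : Type} [NormedAddCommGroup V] [InnerProductSpace ℝ V]

/-- a plane wave -/
noncomputable def ex (η : V) : V →ᵇ ℂ :=
  BoundedContinuousFunction.ofNormedAddCommGroup (fun x => cexp ((⟪x, η⟫ : ℝ) * I)) (by fun_prop) 1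
    (fun x => (Complex.norm_exp_ofReal_mul_I _).le)

lemma ex_apply (η x : V) : ex η x = cexp ((⟪x, η⟫ : ℝ) * I) := rfl

lemma ex_zero : ex (0 : V) = 1 := by ext x; simp [ex_apply]

/-- normalised second difference -/
noncomputable def ww (e : V) (j : ℕ) : V →ᵇ ℂ :=
  (4 ^ j : ℂ) • (2 - ex (((1 / 2 ^ j : ℝ)) • e) - ex ((-(1 / 2 ^ j : ℝ)) • e))

/-- its real value -/
noncomputable def WW (y : ℝ) (j : ℕ) : ℝ := 4 ^ j * (2 - 2 * Real.cos (1 / 2 ^ j * y))

lemma ww_apply (e x : V) (j : ℕ) : ww e j x = (WW ⟪x, e⟫ j : ℝ) := by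
  have : ww e j x = 4 ^ j * (2 - ex (((1 / 2 ^ j : ℝ)) • e) x - ex ((-(1 / 2 ^ j : ℝ)) • e) x) := rfl
  rw [this, ex_apply, ex_apply, inner_smul_right, inner_smul_right, WW]
  push_cast
  rw [Complex.two_cos]; ring_nf

lemma WW_nonneg (y : ℝ) (j : ℕ) : 0 ≤ WW y j :=
  mul_nonneg (by positivity) (by linarith [Real.cos_le_one (1 / 2 ^ j * y)])

lemma WW_le (y : ℝ) (j : ℕ) : WW y j ≤ 4 * 4 ^ j := by
  unfold WW
  have : (0 : ℝ) < 4 ^ j := by positivity
  nlinarith [Real.neg_one_le_cos (1 / 2 ^ j * y)]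

lemma WW_mono (y : ℝ) : Monotone (WW y) := by
  refine monotone_nat_of_le_succ fun j => ?_
  unfold WW
  have e : 1 / 2 ^ j * y = 2 * (1 / 2 ^ (j + 1) * y) := by rw [pow_succ]; field_simp
  rw [e, Real.cos_two_mul, pow_succ (4 : ℝ) j]
  have : (0 : ℝ) < 4 ^ j := by positivity
  nlinarith [mul_nonneg this.le (sq_nonneg (Real.cos (1 / 2 ^ (j + 1) * y) - 1))]

/-- difference coefficients -/
noncomputable def cc (k j : ℕ) : ℂ :=
  ∑ i ∈ range (2 * k + 1), ((-1) ^ k * (-1) ^ (i + 2 * k) * (2 * k).choose i) * ((i : ℂ) - k) ^ j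

lemma cc_zero {k j : ℕ} (h : j < 2 * k) : cc k j = 0 := by
  have h1 := congrFun (fwdDiff_iter_pow_eq_zero_of_lt (R := ℂ) h) (-k)
  rw [fwdDiff_iter_eq_sum_shift] at h1
  unfold cc
  simp only [mul_assoc]
  rw [← mul_sum]
  apply mul_eq_zero_of_right
  refine Eq.trans (sum_congr rfl fun i hi => ?_) h1
  have hi' : i ≤ 2 * k := Nat.lt_succ_iff.1 (mem_range.1 hi)
  have : (-1 : ℂ) ^ (i + 2 * k) = (-1) ^ (2 * k - i) := by
    rw [show i + 2 * k = (2 * k - i) + 2 * i by omega, pow_add, pow_mul]; simp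
  rw [this]; simp [zsmul_eq_mul]; ring

lemma expand (n e : V) (t : ℝ) (k j : ℕ) : ex (-t • n) * ww e j ^ k
    = ∑ i ∈ range (2 * k + 1), ((4 ^ j) ^ k * ((-1) ^ k * (-1) ^ (i + 2 * k) * (2 * k).choose i) : ℂ)
      • ex (-t • n + (((i : ℝ) - k) * (1 / 2 ^ j)) • e) := by
  ext x
  set z := cexp (((1 / 2 ^ j * ⟪x, e⟫ : ℝ) : ℂ) * I) with hz
  have z0 : z ≠ 0 := Complex.exp_ne_zero _
  have w1 : ww e j x = 4 ^ j * (-z⁻¹ * (z - 1) ^ 2) := by
    have : ww e j x
      = 4 ^ j * (2 - ex (((1 / 2 ^ j : ℝ)) • e) x - ex ((-(1 / 2 ^ j : ℝ)) • e) x) := rfl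
    rw [this, ex_apply, ex_apply, inner_smul_right, inner_smul_right, ← hz, neg_mul,
      Complex.ofReal_neg, neg_mul, Complex.exp_neg, ← hz]
    field_simp; ring
  have w2 : ∀ i : ℕ, ex (-t • n + (((i : ℝ) - k) * (1 / 2 ^ j)) • e) x
      = ex (-t • n) x * (z ^ i * z⁻¹ ^ k) := by
    intro i
    rw [ex_apply, ex_apply, inner_add_right, inner_smul_right x e, hz, ← Complex.exp_neg,
      ← Complex.exp_nat_mul, ← Complex.exp_nat_mul, ← Complex.exp_add, ← Complex.exp_add]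
    congr 1; push_cast; ring
  simp only [BoundedContinuousFunction.coe_mul, BoundedContinuousFunction.coe_pow, Pi.mul_apply,
    Pi.pow_apply, BoundedContinuousFunction.coe_sum, Finset.sum_apply,
    BoundedContinuousFunction.coe_smul, smul_eq_mul, w1, w2]
  rw [mul_pow, mul_pow, ← pow_mul (z - 1), sub_pow, neg_pow z⁻¹, mul_sum, mul_sum, mul_sum]
  refine sum_congr rfl fun i _ => ?_
  ring

lemma vanish {Λ : (V →ᵇ ℂ) →L[ℂ] ℂ} (h1 : ‖Λ‖ ≤ 1) (h2 : Λ 1 = 1) (n e : V) {κ : ℝ} (hκ : 0 ≤ κ)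
    {d : ℕ} {p : ℕ → ℝ → ℂ} (hp : ∀ j, Differentiable ℝ (p j))
    (H : ∀ t s : ℝ, 0 ≤ t → t ≤ 1 → κ * s ^ 2 ≤ t →
      Λ (ex (-t • n + s • e)) = ∑ j ∈ range d, p j t * (s : ℂ) ^ j) (j : ℕ) :
    (Λ (ww e j)).re ≤ 0 := by
  have re1 : ∀ (t : ℝ) (k j : ℕ) (x : V), (((1 - ex (-t • n)) * ww e j ^ k) x).re
      = (1 - Real.cos ⟪x, -t • n⟫) * WW ⟪x, e⟫ j ^ k := by
    intro t k j x
    have : ((1 - ex (-t • n)) * ww e j ^ k) x = (1 - ex (-t • n) x) * ww e j x ^ k := rfl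
    rw [this, ww_apply, ← Complex.ofReal_pow, mul_comm, re_ofReal_mul, ex_apply, sub_re,
      Complex.exp_ofReal_mul_I_re, one_re, mul_comm]
  have re2 : ∀ (k j : ℕ) (x : V), ((ww e j ^ k) x).re = WW ⟪x, e⟫ j ^ k := by
    intro k j x
    have : (ww e j ^ k) x = ww e j x ^ k := rfl
    rw [this, ww_apply, ← Complex.ofReal_pow, ofReal_re]
  have sm : ∀ (c : ℝ) (f : V →ᵇ ℂ), (Λ ((c : ℂ) • f)).re = c * (Λ f).re := fun c f => by
    rw [map_smul, smul_eq_mul, re_ofReal_mul]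
  have sm' : ∀ (c : ℝ) (f : V →ᵇ ℂ) (x : V), (((c : ℂ) • f) x).re = c * (f x).re := fun c f x => by
    have : ((c : ℂ) • f) x = c * f x := rfl
    rw [this, re_ofReal_mul]
  have co : ∀ y : ℝ, 0 ≤ 1 - Real.cos y ∧ 1 - Real.cos y ≤ 2 := fun y =>
    ⟨by linarith [Real.cos_le_one y], by linarith [Real.neg_one_le_cos y]⟩
  have pw : ∀ (y : ℝ) (k i j : ℕ), j ≤ i → WW y j ^ k ≤ WW y i ^ k := fun y k i j h =>
    pow_le_pow_left₀ (WW_nonneg _ _) (WW_mono y h) k
  have hh : ∀ j : ℕ, (1 / 2 ^ j : ℝ) ^ 2 * 4 ^ j = 1 := fun j => by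
    have : (4 : ℝ) ^ j = (2 ^ j) ^ 2 := by
      rw [← pow_mul, mul_comm, pow_mul]; norm_num
    rw [this]; field_simp
  have key := core (a := fun k j => (Λ (ww e j ^ k)).re)
    (b := fun k j t => (Λ ((1 - ex (-t • n)) * ww e j ^ k)).re)
    (q := fun k h t => (∑ j ∈ range d, cc k j * p j t * (h : ℂ) ^ (j - 2 * k)).re)
    (h := fun j => 1 / 2 ^ j) (c := fun k => κ * k ^ 2 + 1) (fun j => by positivity)
    (by simpa using tendsto_pow_atTop_nhds_zero_of_lt_one (r := (2 : ℝ)⁻¹) (by norm_num) (by norm_num))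
    (fun k => by positivity)
    (fun k j i hji => mono h1 h2 _ _ fun x => by rw [re2, re2]; exact pw _ _ _ _ hji)
    (fun k t i j hji => ⟨mono h1 h2 _ _ fun x => by
        rw [re1, re1]; exact mul_le_mul_of_nonneg_left (pw _ _ _ _ hji) (co _).1, by
      have := mono h1 h2 ((1 - ex (-t • n)) * ww e i ^ k - (1 - ex (-t • n)) * ww e j ^ k)
        (((2 : ℝ) : ℂ) • (ww e i ^ k - ww e j ^ k)) fun x => by
          rw [sm', BoundedContinuousFunction.sub_apply, BoundedContinuousFunction.sub_apply,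
            sub_re, sub_re, re1, re1, re2, re2, ← mul_sub]
          exact mul_le_mul_of_nonneg_right (co _).2 (sub_nonneg.2 (pw _ _ _ _ hji))
      rwa [sm, map_sub, map_sub, sub_re, sub_re] at this⟩)
    (fun k j t u1 u2 => by
      have t0 : 0 ≤ t := le_trans (by positivity) u1
      have e1 : Λ (ex (-t • n) * ww e j ^ k)
          = ∑ l ∈ range d, cc k l * p l t * ((1 / 2 ^ j : ℝ) : ℂ) ^ (l - 2 * k) := by
        rw [expand, map_sum]
        rw [sum_congr rfl fun i hi => by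
          rw [map_smul, H t _ t0 u2 (by
            have hi' : (i : ℝ) ≤ 2 * k := by exact_mod_cast Nat.lt_succ_iff.1 (mem_range.1 hi)
            have i0 : (0 : ℝ) ≤ i := Nat.cast_nonneg i
            have : ((i : ℝ) - k) ^ 2 ≤ k ^ 2 := by nlinarith
            have h3 : κ * ((i : ℝ) - k) ^ 2 ≤ κ * k ^ 2 + 1 := by
              nlinarith [mul_le_mul_of_nonneg_left this hκ]
            rw [mul_pow, ← mul_assoc]
            exact le_trans (mul_le_mul_of_nonneg_right h3 (sq_nonneg _)) u1), smul_eq_mul, mul_sum]]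
        rw [sum_comm]
        refine sum_congr rfl fun l _ => ?_
        have e2 : ∀ i : ℕ, ((4 ^ j) ^ k * ((-1) ^ k * (-1) ^ (i + 2 * k) * (2 * k).choose i) : ℂ)
            * (p l t * (((((i : ℝ) - k) * (1 / 2 ^ j) : ℝ)) : ℂ) ^ l)
            = (((-1) ^ k * (-1) ^ (i + 2 * k) * (2 * k).choose i) * ((i : ℂ) - k) ^ l)
              * (p l t * ((4 ^ j) ^ k * ((1 / 2 ^ j : ℝ) : ℂ) ^ l)) := by
          intro i; rw [Complex.ofReal_mul, mul_pow]; push_cast; ring
        simp only [e2]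
        rw [← sum_mul]
        show cc k l * _ = _
        rcases lt_or_ge l (2 * k) with hl | hl
        · rw [cc_zero hl]; simp
        · have h4 : (((1 / 2 ^ j : ℝ) : ℂ) ^ 2 * 4 ^ j) ^ k = 1 := by
            have := congrArg (fun r : ℝ => (r : ℂ)) (hh j)
            simp only [Complex.ofReal_mul, Complex.ofReal_pow, Complex.ofReal_one,
              Complex.ofReal_ofNat] at this
            rw [this, one_pow]
          rw [mul_pow, ← pow_mul] at h4
          have h5 : ((1 / 2 ^ j : ℝ) : ℂ) ^ l = ((1 / 2 ^ j : ℝ) : ℂ) ^ (l - 2 * k)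
            * ((1 / 2 ^ j : ℝ) : ℂ) ^ (2 * k) := by rw [← pow_add, Nat.sub_add_cancel hl]
          rw [h5]
          linear_combination (cc k l * p l t * ((1 / 2 ^ j : ℝ) : ℂ) ^ (l - 2 * k)) * h4
      rw [← e1, sub_mul, one_mul, map_sub, sub_re]; ring)
    (fun k j t => by
      have := mono h1 h2 ((1 - ex (-t • n)) * ww e j ^ (k + 1))
        (((4 * 4 ^ j : ℝ) : ℂ) • ((1 - ex (-t • n)) * ww e j ^ k)) fun x => by
          rw [sm', re1, re1, pow_succ]
          have := mul_le_mul_of_nonneg_left (WW_le ⟪x, e⟫ j)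
            (mul_nonneg (co ⟪x, -t • n⟫).1 (pow_nonneg (WW_nonneg ⟪x, e⟫ j) k))
          linarith
      rw [sm] at this
      rw [le_div_iff₀ (by positivity)]
      have h3 := mul_le_mul_of_nonneg_right this (sq_nonneg (1 / 2 ^ j : ℝ))
      refine h3.trans (le_of_eq ?_)
      linear_combination (4 * (Λ ((1 - ex (-t • n)) * ww e j ^ k)).re) * hh j)
    (fun k => by
      have := fun j => (hp j).continuous
      fun_prop)
    (fun k => by
      apply Complex.reCLM.differentiableAt.comp (0 : ℝ)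
        (f := fun t : ℝ => ∑ j ∈ range d, cc k j * p j t * ((0 : ℝ) : ℂ) ^ (j - 2 * k))
      fun_prop)
    (fun j => by simp [h2])
    (fun k j => by
      have c1 : Continuous fun t : ℝ => (4 * 4 ^ j : ℝ) ^ k
          * (1 - (∑ l ∈ range d, p l t * ((0 : ℝ) : ℂ) ^ l).re) := by
        have := fun j => (hp j).continuous
        fun_prop
      have c2 := (c1.tendsto 0).mono_left (nhdsWithin_le_nhds (s := Set.Ioi 0))
      have c3 := H 0 0 le_rfl zero_le_one (by simp)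
      rw [neg_zero, zero_smul, zero_smul, add_zero, ex_zero, h2] at c3
      rw [← c3, one_re, sub_self, mul_zero] at c2
      refine tendsto_of_tendsto_of_tendsto_of_le_of_le' tendsto_const_nhds c2
        (Eventually.of_forall fun t => pos h1 h2 _ fun x => by
          rw [re1]; exact mul_nonneg (co _).1 (pow_nonneg (WW_nonneg _ _) k)) ?_
      filter_upwards [Ioc_mem_nhdsGT (zero_lt_one' ℝ)] with t ht
      have := mono h1 h2 ((1 - ex (-t • n)) * ww e j ^ k)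
        ((((4 * 4 ^ j) ^ k : ℝ) : ℂ) • ((1 - ex (-t • n)) * ww e j ^ 0)) fun x => by
          rw [sm', re1, re1, pow_zero, mul_one, mul_comm]
          exact mul_le_mul_of_nonneg_right (pow_le_pow_left₀ (WW_nonneg _ _) (WW_le _ _) k) (co _).1
      rw [sm, pow_zero, mul_one, map_sub, h2, sub_re, one_re] at this
      have c4 := H t 0 ht.1.le ht.2 (by simpa using ht.1.le)
      rw [zero_smul, add_zero] at c4
      rwa [c4] at this) (d + 1) j
  have z : (∑ l ∈ range d, cc (d + 1) l * p l 0 * ((0 : ℝ) : ℂ) ^ (l - 2 * (d + 1))).re = 0 := by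
    rw [sum_eq_zero fun l hl => by rw [cc_zero (by have := mem_range.1 hl; omega)]; simp]; simp
  simp only [z] at key
  apply le_of_forall_pos_le_add
  intro ε hε
  have := mono h1 h2 (ww e j) (((ε : ℝ) : ℂ) • 1 + ((1 / ε ^ d : ℝ) : ℂ) • ww e j ^ (d + 1)) fun x => by
    rw [BoundedContinuousFunction.add_apply, add_re, sm', sm', re2, ww_apply, ofReal_re]
    have w0 := WW_nonneg ⟪x, e⟫ j
    simp only [BoundedContinuousFunction.coe_one, Pi.one_apply, one_re, mul_one]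
    rcases le_total (WW ⟪x, e⟫ j) ε with h | h
    · have : 0 ≤ 1 / ε ^ d * WW ⟪x, e⟫ j ^ (d + 1) := by positivity
      linarith
    · have : WW ⟪x, e⟫ j ≤ 1 / ε ^ d * WW ⟪x, e⟫ j ^ (d + 1) := by
        rw [one_div_mul_eq_div, le_div_iff₀ (by positivity), pow_succ']
        gcongr
      linarith
  rw [map_add, add_re, sm, sm, h2, one_re] at this
  have h3 : 1 / ε ^ d * (Λ (ww e j ^ (d + 1))).re ≤ 0 :=
    mul_nonpos_of_nonneg_of_nonpos (by positivity) key
  linarith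

lemma shift_inv {Λ : (V →ᵇ ℂ) →L[ℂ] ℂ} (h1 : ‖Λ‖ ≤ 1) (h2 : Λ 1 = 1) (e : V) (j : ℕ)
    (hw : (Λ (ww e j)).re ≤ 0) (η : V) : Λ (ex (η + (1 / 2 ^ j : ℝ) • e)) = Λ (ex η) := by
  set D := Λ (ex (η + (1 / 2 ^ j : ℝ) • e)) - Λ (ex η) with hD
  have key : ∀ ε : ℝ, 0 < ε → ‖D‖ ^ 2 ≤ 0 + ε := by
    intro ε hε
    have := mono h1 h2 ((starRingEnd ℂ D) • (ex (η + (1 / 2 ^ j : ℝ) • e) - ex η))
      ((ε : ℂ) • 1 + ((‖D‖ ^ 2 / (ε * 4 ^ j) : ℝ) : ℂ) • ww e j) fun x => by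
        have e1 : ((ε : ℂ) • (1 : V →ᵇ ℂ) + ((‖D‖ ^ 2 / (ε * 4 ^ j) : ℝ) : ℂ) • ww e j) x
          = ε * 1 + ((‖D‖ ^ 2 / (ε * 4 ^ j) : ℝ) : ℂ) * ww e j x := rfl
        have e2 : ((starRingEnd ℂ D) • (ex (η + (1 / 2 ^ j : ℝ) • e) - ex η)) x
          = starRingEnd ℂ D * (ex (η + (1 / 2 ^ j : ℝ) • e) x - ex η x) := rfl
        rw [e1, e2, ww_apply, mul_one, ← Complex.ofReal_mul, ← Complex.ofReal_add, ofReal_re]
        refine (Complex.re_le_norm _).trans ?_
        have e3 : ‖ex (η + (1 / 2 ^ j : ℝ) • e) x - ex η x‖ ^ 2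
            = 2 - 2 * Real.cos (1 / 2 ^ j * ⟪x, e⟫) := by
          rw [ex_apply, ex_apply, inner_add_right, inner_smul_right, Complex.ofReal_add, add_mul,
            Complex.exp_add, ← mul_sub_one, norm_mul, Complex.norm_exp_ofReal_mul_I, one_mul,
            Complex.sq_norm, Complex.normSq_apply, sub_re, sub_im, Complex.exp_ofReal_mul_I_re,
            Complex.exp_ofReal_mul_I_im]
          simp only [one_re, one_im]
          nlinarith [Real.sin_sq_add_cos_sq (1 / 2 ^ j * ⟪x, e⟫)]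
        rw [norm_mul, Complex.norm_conj, WW, ← e3]
        set u := ‖ex (η + (1 / 2 ^ j : ℝ) • e) x - ex η x‖
        have e4 : ‖D‖ ^ 2 / (ε * 4 ^ j) * (4 ^ j * u ^ 2) = (‖D‖ * u) ^ 2 / ε := by field_simp
        rw [e4]
        have : ‖D‖ * u - ε ≤ (‖D‖ * u) ^ 2 / ε := by
          rw [le_div_iff₀ hε]; nlinarith [sq_nonneg (‖D‖ * u - ε), sq_nonneg (‖D‖ * u)]
        linarith
    rw [map_smul, map_sub Λ, ← hD, map_add, map_smul, map_smul, h2, smul_eq_mul, smul_eq_mul,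
      smul_eq_mul, Complex.conj_mul', add_re, re_ofReal_mul, re_ofReal_mul, ← Complex.ofReal_pow,
      ofReal_re, one_re] at this
    have h3 : ‖D‖ ^ 2 / (ε * 4 ^ j) * (Λ (ww e j)).re ≤ 0 :=
      mul_nonpos_of_nonneg_of_nonpos (by positivity) hw
    linarith
  have := le_of_forall_pos_le_add key
  have h0 : ‖D‖ = 0 := by nlinarith [norm_nonneg D]
  exact sub_eq_zero.1 (norm_eq_zero.1 h0)

end Pool.Agent.H96.Rg
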