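import Mathlib
import Pool.Agent.H96.Rg2

set_option autoImplicit false
set_option linter.unusedSectionVars false
set_option maxHeartbeats 800000

namespace Pool.Agent.H96.Rg

open Filter Topology Complex Finset MeasureTheory
open scoped BoundedContinuousFunction RealInnerProductSpace Real FourierTransform

lemma hb {W B : Type} [AddCommGroup W] [Module ℂ W] [NormedAddCommGroup B] [NormedSpace ℂ B]
    (T : W →ₗ[ℂ] B) (l : W →ₗ[ℂ] ℂ) {M : ℝ} (hM : 0 ≤ M) (h : ∀ a, ‖l a‖ ≤ M * ‖T a‖) :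
    ∃ Λ : B →L[ℂ] ℂ, ‖Λ‖ ≤ M ∧ ∀ a, Λ (T a) = l a := by
  obtain ⟨σ, hσ⟩ := T.rangeRestrict.exists_rightInverse_of_surjective (LinearMap.range_rangeRestrict T)
  have hT : ∀ w : LinearMap.range T, T (σ w) = w := fun w =>
    congrArg Subtype.val (LinearMap.congr_fun hσ w)
  have hb : ∀ w : LinearMap.range T, ‖(l.comp σ) w‖ ≤ M * ‖w‖ := fun w => by
    have := h (σ w); rwa [hT] at this
  obtain ⟨g, g1, g2⟩ := exists_extension_norm_eq (LinearMap.range T) ((l.comp σ).mkContinuous M hb)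
  refine ⟨g, g2.le.trans (LinearMap.mkContinuous_norm_le _ hM hb), fun a => ?_⟩
  have h1 := g1 ⟨T a, a, rfl⟩
  have h2 := h (σ ⟨T a, a, rfl⟩ - a)
  rw [map_sub T, hT, sub_self, norm_zero, mul_zero, norm_le_zero_iff, map_sub, sub_eq_zero] at h2
  exact h1.trans h2

variable {n : ℕ}

/-- value of a polynomial at a real point -/
noncomputable def ev (τ : MvPolynomial (Fin n) ℂ) (ξ : EuclideanSpace ℝ (Fin n)) : ℂ :=
  MvPolynomial.eval (fun k => (ξ k : ℂ)) τ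

lemma ev_cont (τ : MvPolynomial (Fin n) ℂ) : Continuous (ev τ) :=
  (MvPolynomial.continuous_eval τ).comp (by fun_prop)

lemma line1 (τ : MvPolynomial (Fin n) ℂ) (u e : EuclideanSpace ℝ (Fin n)) :
    ∃ ρ : Polynomial ℂ, ∀ s : ℝ, ev τ (u + s • e) = ρ.eval (s : ℂ) := by
  induction τ using MvPolynomial.induction_on with
  | C a => exact ⟨Polynomial.C a, fun s => by simp [ev]⟩
  | add p q hp hq =>
    obtain ⟨a, ha⟩ := hp; obtain ⟨b, hb⟩ := hq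
    exact ⟨a + b, fun s => by rw [Polynomial.eval_add, ← ha, ← hb]; simp [ev]⟩
  | mul_X p k hp =>
    obtain ⟨a, ha⟩ := hp
    exact ⟨a * (Polynomial.C (u k : ℂ) + Polynomial.X * Polynomial.C (e k : ℂ)), fun s => by
      rw [Polynomial.eval_mul, ← ha]; simp [ev]; left; ring⟩

lemma line2 (τ : MvPolynomial (Fin n) ℂ) (u v e : EuclideanSpace ℝ (Fin n)) :
    ∃ (d : ℕ) (p : ℕ → ℝ → ℂ), (∀ j, Differentiable ℝ (p j)) ∧
      ∀ t s : ℝ, ev τ (u + (-t • v + s • e)) = ∑ j ∈ range d, p j t * (s : ℂ) ^ j := by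
  have : ∃ Q : Polynomial (Polynomial ℂ), ∀ t s : ℝ, ev τ (u + (-t • v + s • e))
      = (Q.map (Polynomial.evalRingHom (t : ℂ))).eval (s : ℂ) := by
    induction τ using MvPolynomial.induction_on with
    | C a => exact ⟨Polynomial.C (Polynomial.C a), fun t s => by simp [ev]⟩
    | add p q hp hq =>
      obtain ⟨a, ha⟩ := hp; obtain ⟨b, hb⟩ := hq
      exact ⟨a + b, fun t s => by
        rw [Polynomial.map_add, Polynomial.eval_add, ← ha, ← hb]; simp [ev]⟩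
    | mul_X p k hp =>
      obtain ⟨a, ha⟩ := hp
      exact ⟨a * (Polynomial.C (Polynomial.C (u k : ℂ) - Polynomial.X * Polynomial.C (v k : ℂ))
        + Polynomial.X * Polynomial.C (Polynomial.C (e k : ℂ))), fun t s => by
        rw [Polynomial.map_mul, Polynomial.eval_mul, ← ha]; simp [ev]; left; ring⟩
  obtain ⟨Q, hQ⟩ := this
  refine ⟨Q.natDegree + 1, fun j t => (Q.coeff j).eval (t : ℂ), fun j => ?_, fun t s => ?_⟩
  · exact ((Q.coeff j).differentiable.restrictScalars ℝ).comp Complex.ofRealCLM.differentiable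
  · rw [hQ, Polynomial.eval_eq_sum_range' (Nat.lt_succ_of_le Polynomial.natDegree_map_le)]
    simp

lemma poly_ext (ρ σ : Polynomial ℂ)
    (h : ∀ᶠ j : ℕ in atTop, ρ.eval ((1 / 2 ^ j : ℝ) : ℂ) = σ.eval ((1 / 2 ^ j : ℝ) : ℂ)) : ρ = σ := by
  obtain ⟨J, hJ⟩ := eventually_atTop.1 h
  apply Polynomial.eq_of_infinite_eval_eq
  refine Set.infinite_of_injective_forall_mem (f := fun j : ℕ => ((1 / 2 ^ (j + J) : ℝ) : ℂ))
    (fun a b hab => ?_) (fun j => hJ _ (by omega))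
  have h1 := Complex.ofReal_injective hab
  rw [one_div, one_div, inv_inj] at h1
  have := pow_right_injective₀ (by norm_num : (0 : ℝ) < 2) (by norm_num) h1
  omega

lemma small (e : EuclideanSpace ℝ (Fin n)) {r : ℝ} (hr : 0 < r) :
    ∀ᶠ j : ℕ in atTop, ‖(1 / 2 ^ j : ℝ) • e‖ ≤ r := by
  have t : Tendsto (fun j : ℕ => (1 / 2 ^ j : ℝ)) atTop (𝓝 0) := by
    simpa using tendsto_pow_atTop_nhds_zero_of_lt_one (r := (2 : ℝ)⁻¹) (by norm_num) (by norm_num)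
  have := (t.smul_const e).norm
  rw [zero_smul, norm_zero] at this
  exact this.eventually (ge_mem_nhds hr)

lemma ex_add (η ζ : EuclideanSpace ℝ (Fin n)) : ex η * ex ζ = ex (η + ζ) := by
  ext x
  have : (ex η * ex ζ) x = ex η x * ex ζ x := rfl
  rw [this, ex_apply, ex_apply, ex_apply, inner_add_right, ← Complex.exp_add]
  congr 1; push_cast; ring

lemma ridge (τ : MvPolynomial (Fin n) ℂ) {r : ℝ} (hr : 0 < r) {ξ0 : EuclideanSpace ℝ (Fin n)}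
    (h0 : ‖ξ0‖ ≤ r) (hmax : ∀ ξ, ‖ξ‖ ≤ r → ‖ev τ ξ‖ ≤ ‖ev τ ξ0‖)
    (H : ∀ a : Metric.closedBall (0 : EuclideanSpace ℝ (Fin n)) r →₀ ℂ,
      ‖∑ ξ ∈ a.support, a ξ * ev τ ξ‖ ≤ ‖ev τ ξ0‖ * ‖∑ ξ ∈ a.support, a ξ • ex ξ.1‖) :
    ∃ (a : EuclideanSpace ℝ (Fin n)) (ρ : Polynomial ℂ), ∀ ξ, ev τ ξ = ρ.eval ((⟪a, ξ⟫ : ℝ) : ℂ) := by
  by_cases hz : ev τ ξ0 = 0
  · refine ⟨0, 0, fun ξ => ?_⟩
    obtain ⟨ρ, hρ⟩ := line1 τ 0 ξ
    have : ρ = 0 := poly_ext _ _ (by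
      filter_upwards [small ξ hr] with j hj
      have := hmax _ hj
      rw [hz, norm_zero, norm_le_zero_iff] at this
      rw [← hρ, zero_add, this]; simp)
    have h1 := hρ 1
    rw [this] at h1
    simpa using h1
  obtain ⟨Λ0, n0, v0⟩ := hb (Finsupp.linearCombination ℂ
      fun ξ : Metric.closedBall (0 : EuclideanSpace ℝ (Fin n)) r => ex ξ.1)
    (Finsupp.linearCombination ℂ
      fun ξ : Metric.closedBall (0 : EuclideanSpace ℝ (Fin n)) r => ev τ ξ.1) (norm_nonneg _) H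
  have v1 : ∀ ξ, ‖ξ‖ ≤ r → Λ0 (ex ξ) = ev τ ξ := fun ξ hξ => by
    simpa using v0 (Finsupp.single ⟨ξ, by simpa using hξ⟩ 1)
  set Λ : (EuclideanSpace ℝ (Fin n) →ᵇ ℂ) →L[ℂ] ℂ :=
    (ev τ ξ0)⁻¹ • Λ0.comp (ContinuousLinearMap.mul ℂ _ (ex ξ0)) with hΛ
  have Λa : ∀ f, Λ f = (ev τ ξ0)⁻¹ * Λ0 (ex ξ0 * f) := fun f => rfl
  have h1 : ‖Λ‖ ≤ 1 := by
    refine ContinuousLinearMap.opNorm_le_bound _ zero_le_one fun f => ?_
    have e1 : ‖ex ξ0‖ ≤ 1 := (BoundedContinuousFunction.norm_le zero_le_one).2 fun x =>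
      (Complex.norm_exp_ofReal_mul_I _).le
    have e2 := (Λ0.le_of_opNorm_le n0 (ex ξ0 * f)).trans (mul_le_mul_of_nonneg_left
      ((norm_mul_le _ _).trans (mul_le_mul_of_nonneg_right e1 (norm_nonneg f))) (norm_nonneg _))
    rw [Λa, norm_mul, norm_inv, inv_mul_le_iff₀ (norm_pos_iff.2 hz)]
    exact e2
  have v2 : ∀ η, ‖ξ0 + η‖ ≤ r → Λ (ex η) = (ev τ ξ0)⁻¹ * ev τ (ξ0 + η) := fun η hη => by
    rw [Λa, ex_add, v1 _ hη]
  have h2 : Λ 1 = 1 := by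
    rw [← ex_zero, v2 0 (by simpa using h0), add_zero, inv_mul_cancel₀ hz]
  have inv : ∀ e, ⟪ξ0, e⟫ = 0 → ∀ ξ, ev τ (e + ξ) = ev τ ξ := by
    intro e he
    obtain ⟨d, p, hp, hd⟩ := line2 τ ξ0 ξ0 e
    obtain ⟨κ, κ0, hκ⟩ : ∃ κ : ℝ, 0 ≤ κ ∧ ∀ t s : ℝ, 0 ≤ t → t ≤ 1 → κ * s ^ 2 ≤ t →
        ‖ξ0 + (-t • ξ0 + s • e)‖ ≤ r := by
      have nn : ∀ t s : ℝ, ‖ξ0 + (-t • ξ0 + s • e)‖ ^ 2 = (1 - t) ^ 2 * ‖ξ0‖ ^ 2 + s ^ 2 * ‖e‖ ^ 2 := by
        intro t s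
        rw [show ξ0 + (-t • ξ0 + s • e) = (1 - t) • ξ0 + s • e by module, norm_add_sq_real,
          inner_smul_left, inner_smul_right, he, norm_smul, norm_smul, mul_pow, mul_pow,
          Real.norm_eq_abs, Real.norm_eq_abs, sq_abs, sq_abs]
        simp
      by_cases hx : ‖ξ0‖ = 0
      · refine ⟨‖e‖ ^ 2 / r ^ 2, by positivity, fun t s t0 t1 h => ?_⟩
        apply abs_le_of_sq_le_sq' _ hr.le |>.2
        rw [div_mul_eq_mul_div, div_le_iff₀ (by positivity)] at h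
        rw [nn, hx]; nlinarith [sq_nonneg r]
      · have hx' : 0 < ‖ξ0‖ := lt_of_le_of_ne (norm_nonneg _) (Ne.symm hx)
        refine ⟨‖e‖ ^ 2 / ‖ξ0‖ ^ 2, by positivity, fun t s t0 t1 h => le_trans ?_ h0⟩
        apply abs_le_of_sq_le_sq' _ hx'.le |>.2
        rw [div_mul_eq_mul_div, div_le_iff₀ (by positivity)] at h
        rw [nn]; nlinarith [mul_nonneg (mul_nonneg t0 (sub_nonneg.2 t1)) (sq_nonneg ‖ξ0‖)]
    have hv := vanish h1 h2 ξ0 e κ0 (d := d) (p := fun j t => (ev τ ξ0)⁻¹ * p j t)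
      (fun j => (hp j).const_mul _) (fun t s t0 t1 h => by
        rw [v2 _ (hκ t s t0 t1 h), hd, mul_sum]; simp only [mul_assoc])
    have loc : ∀ ξ, ‖ξ‖ ≤ r / 2 → ev τ (e + ξ) = ev τ ξ := by
      intro ξ hξ
      obtain ⟨ρ, hρ⟩ := line1 τ ξ e
      have : ρ = Polynomial.C (ev τ ξ) := poly_ext _ _ (by
        filter_upwards [small e (half_pos hr)] with j hj
        have s1 := shift_inv h1 h2 e j (hv j) (ξ - ξ0)
        have e1 : ξ0 + (ξ - ξ0 + (1 / 2 ^ j : ℝ) • e) = ξ + (1 / 2 ^ j : ℝ) • e := by abel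
        have e2 : ξ0 + (ξ - ξ0) = ξ := by abel
        rw [v2 _ (by rw [e1]; exact (norm_add_le _ _).trans (by linarith)),
          v2 _ (by rw [e2]; linarith), e1, e2] at s1
        rw [← hρ, Polynomial.eval_C]
        exact mul_left_cancel₀ (inv_ne_zero hz) s1)
      have h3 := hρ 1
      rw [this, one_smul, Polynomial.eval_C, add_comm] at h3
      exact h3
    intro ξ
    obtain ⟨ρ, hρ⟩ := line1 τ e ξ
    obtain ⟨σ, hσ⟩ := line1 τ 0 ξ
    have : ρ = σ := poly_ext _ _ (by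
      filter_upwards [small ξ (half_pos hr)] with j hj
      rw [← hρ, ← hσ, zero_add, loc _ hj])
    have h3 := hρ 1
    rw [this, ← hσ, one_smul, zero_add] at h3
    exact h3
  obtain ⟨ρ, hρ⟩ := line1 τ 0 ((‖ξ0‖ ^ 2)⁻¹ • ξ0)
  refine ⟨ξ0, ρ, fun ξ => ?_⟩
  rw [← hρ, zero_add, ← inv (ξ - ⟪ξ0, ξ⟫ • (‖ξ0‖ ^ 2)⁻¹ • ξ0) ?_ (⟪ξ0, ξ⟫ • (‖ξ0‖ ^ 2)⁻¹ • ξ0),
    sub_add_cancel]
  rw [inner_sub_right, inner_smul_right, inner_smul_right, real_inner_self_eq_norm_sq]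
  by_cases hx : ξ0 = 0
  · simp [hx]
  · have : ‖ξ0‖ ≠ 0 := norm_ne_zero_iff.2 hx
    field_simp; ring

lemma four (φ : SchwartzMap (EuclideanSpace ℝ (Fin n)) ℂ) (η : EuclideanSpace ℝ (Fin n)) :
    Integrable (fun x => ex η x * ∫ ξ, φ ξ * cexp (-(I * (⟪x, ξ⟫ : ℝ)))) ∧
    (φ η = 0 → ∫ x, ex η x * ∫ ξ, φ ξ * cexp (-(I * (⟪x, ξ⟫ : ℝ))) = 0) := by
  have hπ : (2 * π : ℝ) ≠ 0 := by positivity
  have e : ∀ w : EuclideanSpace ℝ (Fin n), ∫ ξ, φ ξ * cexp (-(I * (⟪(2 * π) • w, ξ⟫ : ℝ)))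
      = 𝓕 (φ : EuclideanSpace ℝ (Fin n) → ℂ) w := by
    intro w
    rw [Real.fourier_eq']
    congr 1; funext ξ
    rw [smul_eq_mul, mul_comm, real_inner_smul_left, real_inner_comm]
    congr 2; push_cast; ring
  have hi : Integrable (𝓕 (φ : EuclideanSpace ℝ (Fin n) → ℂ)) := (𝓕 φ).integrable
  constructor
  · rw [← integrable_comp_smul_iff volume _ hπ]
    simp only [e]
    exact hi.bdd_mul (c := 1) (by fun_prop : Continuous _).aestronglyMeasurable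
      (ae_of_all _ fun x => (Complex.norm_exp_ofReal_mul_I _).le)
  · intro h
    have h1 := Measure.integral_comp_smul volume
      (fun x => ex η x * ∫ ξ, φ ξ * cexp (-(I * (⟪x, ξ⟫ : ℝ)))) (2 * π)
    simp only [e] at h1
    have h2 := φ.integrable.fourierInv_fourier_eq hi (v := η) φ.continuous.continuousAt
    rw [Real.fourierInv_eq', h] at h2
    have h3 : ∫ x, ex η ((2 * π) • x) * 𝓕 (φ : EuclideanSpace ℝ (Fin n) → ℂ) x = 0 := by
      rw [← h2]; congr 1; funext x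
      rw [ex_apply, real_inner_smul_left, smul_eq_mul]
    rw [h3] at h1
    exact (smul_eq_zero.1 h1.symm).resolve_left (by positivity)

end Pool.Agent.H96.Rg
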