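import Mathlib

/-! A snowflake curve in Euclidean space. -/

namespace Pool.Agent.H96.SF

open Set Complex

/-- one term of a lacunary series -/
noncomputable def tm (r m : ℕ) (t : ℝ) : ℂ :=
  if m % 8 = r then ((1 / 4 : ℝ) ^ m : ℝ) * exp (I * ((16 : ℝ) ^ m * t : ℝ)) else 0

lemma tm_le (r m : ℕ) (t : ℝ) : ‖tm r m t‖ ≤ (1 / 4 : ℝ) ^ m := by
  unfold tm
  split_ifs
  · rw [norm_mul, norm_exp_I_mul_ofReal]; simp
  · simp

lemma sg : Summable fun m : ℕ => (1 / 4 : ℝ) ^ m :=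
  summable_geometric_of_lt_one (by norm_num) (by norm_num)

/-- the lacunary series -/
noncomputable def GG (r : ℕ) (t : ℝ) : ℂ := ∑' m, tm r m t

lemma GG_cont (r : ℕ) : Continuous (GG r) :=
  continuous_tsum (fun m => by unfold tm; split_ifs <;> fun_prop) sg (tm_le r)

lemma nd (m : ℕ) (s t : ℝ) : ‖tm (m % 8) m s - tm (m % 8) m t‖ =
    (1 / 4 : ℝ) ^ m * ‖exp (I * ((16 : ℝ) ^ m * (s - t) : ℝ)) - 1‖ := by
  have : tm (m % 8) m s - tm (m % 8) m t = ((1 / 4 : ℝ) ^ m : ℝ) *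
      (exp (I * ((16 : ℝ) ^ m * t : ℝ)) * (exp (I * ((16 : ℝ) ^ m * (s - t) : ℝ)) - 1)) := by
    simp only [tm, if_true]
    rw [mul_sub (exp _), ← exp_add]
    push_cast; ring_nf
  rw [this, norm_mul, norm_mul, norm_exp_I_mul_ofReal]; simp

lemma low {s t : ℝ} (h0 : s ≠ t) (h1 : |s - t| ≤ 1) :
    ∃ r < 8, |s - t| / 256 ≤ ‖GG r s - GG r t‖ ^ 2 := by
  set δ := |s - t| with hδ
  have hp : 0 < δ := abs_pos.2 (sub_ne_zero.2 h0)
  obtain ⟨k, k1, k2⟩ := exists_nat_pow_near_of_lt_one hp h1 (show (0 : ℝ) < 1 / 16 by norm_num)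
    (by norm_num)
  refine ⟨k % 8, Nat.mod_lt _ (by norm_num), ?_⟩
  let D : ℕ → ℂ := fun m => tm (k % 8) m s - tm (k % 8) m t
  have hs : ∀ t, Summable fun m => tm (k % 8) m t := fun t => .of_norm_bounded sg (tm_le _ · t)
  have hD : Summable D := (hs s).sub (hs t)
  have e : GG (k % 8) s - GG (k % 8) t = ∑ m ∈ Finset.range k, D m + D k + ∑' m, D (m + (k + 1)) := by
    rw [← Finset.sum_range_succ, hD.sum_add_tsum_nat_add, GG, GG, ← (hs s).tsum_sub (hs t)]
  have h4 : (0 : ℝ) < 4 ^ k := by positivity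
  have h16 : (16 : ℝ) ^ k = 4 ^ k * 4 ^ k := by rw [← mul_pow]; norm_num
  have q : (1 / 4 : ℝ) ^ k * 4 ^ k = 1 := by rw [← mul_pow]; norm_num
  have k2' : 16 ^ k * δ ≤ 1 := by
    rwa [one_div, inv_pow, ← one_div, le_div_iff₀' (by positivity)] at k2
  have k1' : 1 < 16 ^ k * δ * 16 := by
    rw [one_div, inv_pow, inv_lt_iff_one_lt_mul₀ (by positivity), pow_succ] at k1
    linarith
  have a1 : 4 ^ k * δ / 2 ≤ ‖D k‖ := by
    simp only [D]
    rw [nd, norm_exp_I_mul_ofReal_sub_one, Real.norm_eq_abs, abs_mul, abs_two]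
    have b : |16 ^ k * (s - t) / 2| = 16 ^ k * δ / 2 := by
      rw [abs_div, abs_mul, abs_two, abs_of_pos (by positivity)]
    have := Real.mul_abs_le_abs_sin (x := 16 ^ k * (s - t) / 2)
      (by rw [b]; linarith [Real.pi_gt_three])
    rw [b] at this
    have c : 1 / 2 ≤ 2 / Real.pi := by
      rw [div_le_div_iff₀ (by norm_num) Real.pi_pos]; linarith [Real.pi_le_four]
    have c2 : 1 / 2 * (16 ^ k * δ / 2) ≤ 2 / Real.pi * (16 ^ k * δ / 2) := by gcongr
    calc 4 ^ k * δ / 2 = (1 / 4 : ℝ) ^ k * (2 * (1 / 2 * (16 ^ k * δ / 2))) := by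
          rw [h16]; linear_combination (-(4 ^ k * δ / 2)) * q
      _ ≤ _ := by gcongr; exact c2.trans this
  have a2 : ‖∑ m ∈ Finset.range k, D m‖ ≤ 4 ^ k * δ / 8 := by
    refine (norm_sum_le_of_le (n := fun m => 2 ^ m * (2 ^ k * δ / 8)) _ fun m hm => ?_).trans ?_
    · by_cases h : m % 8 = k % 8
      · simp only [D]
        rw [← h, nd]
        have := Real.norm_exp_I_mul_ofReal_sub_one_le (x := 16 ^ m * (s - t))
        rw [Real.norm_eq_abs, abs_mul, abs_of_pos (by positivity), ← hδ] at this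
        have b : (2 : ℝ) ^ (m + 3) ≤ 2 ^ k :=
          pow_le_pow_right₀ (by norm_num) (by have := Finset.mem_range.1 hm; omega)
        calc _ ≤ (1 / 4 : ℝ) ^ m * (16 ^ m * δ) := by gcongr
          _ = 2 ^ m * (2 ^ (m + 3) * δ / 8) := by
            rw [← mul_assoc, ← mul_pow, pow_add, show (1 / 4 * 16 : ℝ) = 2 * 2 by norm_num, mul_pow]
            ring
          _ ≤ _ := by gcongr
      · simp only [D, tm, h, if_false, sub_zero, norm_zero]; positivity
    · rw [← Finset.sum_mul, geom_sum_eq (by norm_num), show (4 : ℝ) ^ k = 2 ^ k * 2 ^ k by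
        rw [← mul_pow]; norm_num]
      have : 0 ≤ 2 ^ k * δ / 8 := by positivity
      nlinarith
  have a3 : ‖∑' m, D (m + (k + 1))‖ ≤ 4 ^ k * δ / 8 := by
    refine (tsum_of_norm_bounded (g := fun m => (1 / 4) ^ k / 256 * (1 / 2 : ℝ) ^ m)
      (hasSum_geometric_two.mul_left _) fun m => ?_).trans ?_
    · by_cases h : (m + (k + 1)) % 8 = k % 8
      · obtain ⟨j, rfl⟩ : ∃ j, m = j + 7 := ⟨m - 7, by omega⟩
        have b1 := tm_le (k % 8) (j + 7 + (k + 1)) s
        have b2 := tm_le (k % 8) (j + 7 + (k + 1)) t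
        have b3 : (1 / 4 : ℝ) ^ j ≤ (1 / 2) ^ j := by gcongr; norm_num
        refine (norm_sub_le _ _).trans ((add_le_add b1 b2).trans ?_)
        have b4 : (0 : ℝ) < (1 / 4) ^ k := by positivity
        simp only [pow_add]
        nlinarith [mul_le_mul_of_nonneg_left b3 b4.le]
      · simp only [D, tm, h, if_false, sub_zero, norm_zero]; positivity
    · rw [h16] at k1'
      have : (1 / 4 : ℝ) ^ k * 1 ≤ (1 / 4) ^ k * (4 ^ k * 4 ^ k * δ * 16) := by gcongr
      have e2 : (1 / 4 : ℝ) ^ k * (4 ^ k * 4 ^ k * δ * 16) = 4 ^ k * δ * 16 := by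
        linear_combination (4 ^ k * δ * 16) * q
      linarith
  have a4 : 4 ^ k * δ / 4 ≤ ‖GG (k % 8) s - GG (k % 8) t‖ := by
    have b := norm_sub_le (GG (k % 8) s - GG (k % 8) t) (∑' m, D (m + (k + 1)))
    have c := norm_sub_le (∑ m ∈ Finset.range k, D m + D k) (∑ m ∈ Finset.range k, D m)
    rw [add_sub_cancel_left] at c
    rw [e, add_sub_cancel_right, ← e] at b
    linarith
  refine le_trans ?_ (pow_le_pow_left₀ (by positivity) a4 2)
  rw [h16] at k1'
  nlinarith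

/-- the snowflake curve -/
noncomputable def cv (t : ℝ) : EuclideanSpace ℝ (Fin 16) :=
  WithLp.toLp 2 fun i => if (i : ℕ) < 8 then (GG i t).re else (GG (i - 8) t).im

lemma cv_cont : Continuous cv := by
  refine (PiLp.continuous_toLp 2 _).comp (continuous_pi fun i => ?_)
  split_ifs
  · exact continuous_re.comp (GG_cont _)
  · exact continuous_im.comp (GG_cont _)

lemma cv_low {s t : ℝ} (h1 : |s - t| ≤ 1) : |s - t| / 256 ≤ ‖cv s - cv t‖ ^ 2 := by
  by_cases h0 : s = t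
  · simp [h0]
  obtain ⟨r, hr, h⟩ := low h0 h1
  refine h.trans ?_
  rw [EuclideanSpace.real_norm_sq_eq, Complex.sq_norm, normSq_apply]
  have := Finset.add_le_sum (s := Finset.univ) (f := fun i => (cv s - cv t) i ^ 2)
    (fun i _ => sq_nonneg _) (Finset.mem_univ (⟨r, by omega⟩ : Fin 16))
    (Finset.mem_univ (⟨r + 8, by omega⟩ : Fin 16)) (by simp)
  refine le_trans (le_of_eq ?_) this
  simp [cv, hr, sq]

end Pool.Agent.H96.SF
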