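import Mathlib

open Set Metric Complex Polynomial Filter Topology

namespace Pool.Agent.H96.SG

/-- `f / g` has a continuous logarithm on `S`. -/
def HL (S : Set ℂ) (f g : ℂ → ℂ) : Prop :=
  ∃ L : ℂ → ℂ, ContinuousOn L S ∧ ∀ x ∈ S, f x = exp (L x) * g x

lemma HL.refl (S : Set ℂ) (f : ℂ → ℂ) : HL S f f :=
  ⟨fun _ => 0, continuousOn_const, fun x _ => by simp⟩

lemma HL.symm {S : Set ℂ} {f g : ℂ → ℂ} (h : HL S f g) : HL S g f := by
  obtain ⟨L, hL, h⟩ := h
  refine ⟨fun x => -L x, hL.neg, fun x hx => ?_⟩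
  rw [h x hx, ← mul_assoc, ← exp_add]; simp

lemma HL.trans {S : Set ℂ} {f g k : ℂ → ℂ} (h : HL S f g) (h' : HL S g k) : HL S f k := by
  obtain ⟨L, hL, h⟩ := h
  obtain ⟨L', hL', h'⟩ := h'
  refine ⟨fun x => L x + L' x, hL.add hL', fun x hx => ?_⟩
  rw [h x hx, h' x hx, exp_add]; ring

lemma HL.mul {S : Set ℂ} {f g f' g' : ℂ → ℂ} (h : HL S f g) (h' : HL S f' g') :
    HL S (fun x => f x * f' x) (fun x => g x * g' x) := by
  obtain ⟨L, hL, h⟩ := h
  obtain ⟨L', hL', h'⟩ := h'
  refine ⟨fun x => L x + L' x, hL.add hL', fun x hx => ?_⟩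
  simp only []
  rw [h x hx, h' x hx, exp_add]; ring

lemma HL.congr {S : Set ℂ} {f g f' g' : ℂ → ℂ} (h : HL S f g) (hf : ∀ x ∈ S, f' x = f x)
    (hg : ∀ x ∈ S, g' x = g x) : HL S f' g' := by
  obtain ⟨L, hL, h⟩ := h
  exact ⟨L, hL, fun x hx => by rw [hf x hx, hg x hx, h x hx]⟩

lemma HL.near {S : Set ℂ} {f g : ℂ → ℂ} (hf : ContinuousOn f S) (hg : ContinuousOn g S)
    (h : ∀ x ∈ S, ‖f x - g x‖ < ‖g x‖) : HL S f g := by
  have hg0 : ∀ x ∈ S, g x ≠ 0 := fun x hx h0 => by
    have := h x hx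
    rw [h0, norm_zero] at this
    exact absurd this (not_lt.2 (norm_nonneg _))
  have hs : ∀ x ∈ S, f x / g x ∈ slitPlane := fun x hx => by
    have h1 : ‖f x / g x - 1‖ < 1 := by
      rw [div_sub_one (hg0 x hx), norm_div, div_lt_one (norm_pos_iff.2 (hg0 x hx))]
      exact h x hx
    have := mem_slitPlane_of_norm_lt_one h1
    simpa using this
  refine ⟨fun x => log (f x / g x), (hf.div hg hg0).clog hs, fun x hx => ?_⟩
  rw [exp_log (slitPlane_ne_zero (hs x hx)), div_mul_cancel₀ _ (hg0 x hx)]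

lemma HL.const (S : Set ℂ) {a : ℂ} (ha : a ≠ 0) : HL S (fun _ => a) (fun _ => 1) :=
  ⟨fun _ => log a, continuousOn_const, fun x _ => by simp [exp_log ha]⟩

lemma HL.cancel {S : Set ℂ} {f : ℂ → ℂ} (h : HL S (fun x => f x * f x) f)
    (h0 : ∀ x ∈ S, f x ≠ 0) : HL S f (fun _ => 1) := by
  obtain ⟨L, hL, h⟩ := h
  refine ⟨L, hL, fun x hx => ?_⟩
  have := h x hx
  simp only [] at this
  rw [mul_one]
  exact mul_right_cancel₀ (h0 x hx) this

lemma not_HL_pow {c : ℂ} {r : ℝ} (hr : 0 < r) {k : ℕ} (hk : 1 ≤ k) :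
    ¬ HL (sphere c r) (fun z => (z - c) ^ k) (fun _ => 1) := by
  rintro ⟨L, hL, h⟩
  have hm : ∀ t : ℝ, circleMap c r t ∈ sphere c r := fun t => circleMap_mem_sphere c hr.le t
  set φ : ℝ → ℂ := fun t => L (circleMap c r t) - k * (Real.log r + t * I) with hφ
  have hφc : Continuous φ := by
    have : Continuous fun t : ℝ => L (circleMap c r t) :=
      hL.comp_continuous (continuous_circleMap c r) hm
    exact this.sub (by fun_prop)
  have he : ∀ t, exp (φ t) = 1 := fun t => by
    have h1 := h _ (hm t)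
    simp only [mul_one] at h1
    rw [hφ]
    simp only []
    rw [exp_sub, ← h1, exp_nat_mul, exp_add, ← ofReal_exp, Real.exp_log hr]
    have : circleMap c r t - c = r * exp (t * I) := by simp [circleMap]
    rw [this]
    apply div_self
    exact pow_ne_zero _ (mul_ne_zero (by exact_mod_cast hr.ne') (exp_ne_zero _))
  have key : φ 0 = φ (2 * Real.pi) := by
    refine PreconnectedSpace.induction₂' (fun s t => φ s = φ t) (fun s => ?_)
      ⟨fun _ _ _ h1 h2 => h1.trans h2⟩ _ _
    have : ∀ᶠ t in 𝓝 s, dist (φ t) (φ s) < 1 :=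
      (hφc.tendsto s) (ball_mem_nhds _ one_pos)
    filter_upwards [this] with t ht
    have h1 : exp (φ t - φ s) = 1 := by rw [exp_sub, he, he]; simp
    obtain ⟨n, hn⟩ := exp_eq_one_iff.1 h1
    rw [dist_eq_norm, hn] at ht
    have hn0 : n = 0 := by
      by_contra hn0
      have h2 : (1 : ℝ) ≤ |(n : ℝ)| := by exact_mod_cast Int.one_le_abs hn0
      have h3 : ‖(n : ℂ) * (2 * Real.pi * I)‖ = |(n : ℝ)| * (2 * Real.pi) := by
        simp [abs_of_pos Real.pi_pos]
      rw [h3] at ht
      nlinarith [Real.pi_gt_three]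
    rw [hn0] at hn
    have : φ t = φ s := by simpa [sub_eq_zero] using hn
    exact ⟨this.symm, this⟩
  have hp : circleMap c r (2 * Real.pi) = circleMap c r 0 := by
    simpa using periodic_circleMap c r 0
  simp only [hφ, hp] at key
  have : (k : ℂ) * (2 * Real.pi * I) = 0 := by
    push_cast at key
    linear_combination key
  have hk0 : (k : ℂ) ≠ 0 := by exact_mod_cast (by omega : k ≠ 0)
  have hpi : (Real.pi : ℂ) ≠ 0 := by exact_mod_cast Real.pi_ne_zero
  exact (mul_ne_zero hk0 (mul_ne_zero (mul_ne_zero two_ne_zero hpi) I_ne_zero)) this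

lemma HL_multiset {c : ℂ} {r : ℝ} (s : Multiset ℂ) (hs : ∀ a ∈ s, ‖a - c‖ ≠ r) :
    ∃ k : ℕ, HL (sphere c r) (fun z => (s.map (fun a => z - a)).prod) (fun z => (z - c) ^ k) ∧
      ((∃ a ∈ s, ‖a - c‖ < r) → 1 ≤ k) := by
  induction s using Multiset.induction_on with
  | empty => exact ⟨0, by simpa using HL.refl _ _, by simp⟩
  | cons a s ih =>
    obtain ⟨k, hk, hk'⟩ := ih (fun b hb => hs b (Multiset.mem_cons_of_mem hb))
    rcases lt_or_gt_of_ne (hs a (Multiset.mem_cons_self _ _)) with h | h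
    · refine ⟨k + 1, ?_, fun _ => by omega⟩
      have h1 : HL (sphere c r) (fun z => z - a) (fun z => z - c) := by
        refine HL.near (by fun_prop) (by fun_prop) fun x hx => ?_
        rw [mem_sphere_iff_norm] at hx
        rw [hx, show x - a - (x - c) = -(a - c) by ring, norm_neg]; exact h
      refine (h1.mul hk).congr (fun x _ => by simp) (fun x _ => by ring)
    · refine ⟨k, ?_, fun ⟨b, hb, hb'⟩ => ?_⟩
      · have h1 : HL (sphere c r) (fun z => z - a) (fun _ => c - a) := by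
          refine HL.near (by fun_prop) (by fun_prop) fun x hx => ?_
          rw [mem_sphere_iff_norm] at hx
          rw [show x - a - (c - a) = x - c by ring, hx, norm_sub_rev]; exact h
        rcases (sphere c r).eq_empty_or_nonempty with he | ⟨x, hx⟩
        · rw [he]; exact ⟨fun _ => 0, continuousOn_const, fun x hx => hx.elim⟩
        have hr : 0 ≤ r := by rw [mem_sphere_iff_norm] at hx; rw [← hx]; exact norm_nonneg _
        have hca : c - a ≠ 0 := fun h0 => by
          rw [norm_sub_rev, h0, norm_zero] at h; linarith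
        refine ((h1.trans (HL.const _ hca)).mul hk).congr (fun x _ => by simp) (fun x _ => by ring)
      · rcases Multiset.mem_cons.1 hb with rfl | hb
        · linarith
        · exact hk' ⟨b, hb, hb'⟩

lemma eval_eq_prod (P : ℂ[X]) (z : ℂ) :
    P.eval z = P.leadingCoeff * (P.roots.map (fun a => z - a)).prod := by
  conv_lhs => rw [← C_leadingCoeff_mul_prod_multiset_X_sub_C (IsAlgClosed.card_roots_eq_natDegree (p := P))]
  simp [eval_multiset_prod]

lemma W_poly {c : ℂ} {r : ℝ} (hr : 0 < r) (P : ℂ[X]) (h0 : ∀ z ∈ sphere c r, P.eval z ≠ 0)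
    (h : HL (sphere c r) (fun z => P.eval z) (fun _ => 1)) :
    ∀ a ∈ closedBall c r, P.eval a ≠ 0 := by
  intro a ha h1
  have hP : P ≠ 0 := by
    rintro rfl
    exact h0 (c + r) (by simp [hr.le]) (by simp)
  have hs : ∀ b ∈ P.roots, ‖b - c‖ ≠ r := fun b hb hb' =>
    h0 b (mem_sphere_iff_norm.2 hb') ((mem_roots hP).1 hb)
  obtain ⟨k, hk, hk'⟩ := HL_multiset P.roots hs
  have har : a ∈ P.roots := (mem_roots hP).2 h1
  have hk1 := hk' ⟨a, har, lt_of_le_of_ne (mem_closedBall_iff_norm.1 ha) (hs a har)⟩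
  apply not_HL_pow (c := c) hr hk1
  have h2 := ((HL.const (sphere c r) (leadingCoeff_ne_zero.2 hP)).mul hk).congr
    (f' := fun z => P.eval z) (g' := fun z => (z - c) ^ k) (fun x _ => eval_eq_prod P x)
    (fun x _ => by simp)
  exact h2.symm.trans h

lemma taylor {c : ℂ} {R : ℝ} (hR : 0 < R) (n : ℕ) : ∀ (f : ℂ → ℂ) (C : ℝ), Differentiable ℂ f →
    (∀ z ∈ closedBall c R, ‖f z‖ ≤ C) → ∃ P : ℂ[X], P.natDegree ≤ n ∧
      ∀ z ∈ closedBall c R, ‖f z - P.eval z‖ ≤ C * (2 * ‖z - c‖ / R) ^ n := by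
  induction n with
  | zero => exact fun f C _ h => ⟨0, by simp, fun z hz => by simpa using h z hz⟩
  | succ n ih =>
    intro f C hf h
    have hg : Differentiable ℂ (dslope f c) := by
      rw [← differentiableOn_univ, differentiableOn_dslope univ_mem]
      exact hf.differentiableOn
    have hb : ∀ z ∈ closedBall c R, ‖dslope f c z‖ ≤ 2 * C / R := by
      intro z hz
      refine norm_le_of_forall_mem_frontier_norm_le (U := ball c R) isBounded_ball
        hg.diffContOnCl (fun w hw => ?_) (by rwa [closure_ball c hR.ne'])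
      rw [frontier_ball c hR.ne'] at hw
      have hw' := mem_sphere_iff_norm.1 hw
      have hwc : w ≠ c := fun h0 => by rw [h0, sub_self, norm_zero] at hw'; linarith
      rw [dslope_of_ne _ hwc, slope_def_field, norm_div, hw']
      gcongr
      have h1 := h w (sphere_subset_closedBall hw)
      have h2 := h c (mem_closedBall_self hR.le)
      linarith [norm_sub_le (f w) (f c)]
    obtain ⟨Q, hQ, hQ'⟩ := ih _ _ hg hb
    refine ⟨Polynomial.C (f c) + (X - Polynomial.C c) * Q, ?_, fun z hz => ?_⟩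
    · refine (natDegree_add_le _ _).trans (max_le (by simp) ?_)
      refine natDegree_mul_le.trans ?_
      rw [natDegree_X_sub_C]; omega
    · have h1 : f z - eval z (Polynomial.C (f c) + (X - Polynomial.C c) * Q)
          = (z - c) * (dslope f c z - eval z Q) := by
        have := sub_smul_dslope f c z
        simp only [smul_eq_mul] at this
        simp only [eval_add, eval_C, eval_mul, eval_sub, eval_X]
        linear_combination -this
      rw [h1, norm_mul]
      calc ‖z - c‖ * ‖dslope f c z - eval z Q‖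
          ≤ ‖z - c‖ * (2 * C / R * (2 * ‖z - c‖ / R) ^ n) := by gcongr; exact hQ' z hz
        _ = C * (2 * ‖z - c‖ / R) ^ (n + 1) := by rw [pow_succ]; field_simp

/-- An entire function with a continuous logarithm on a circle obeys the minimum principle. -/
lemma W_main {c : ℂ} {r δ : ℝ} (hr : 0 < r) (hδ : 0 < δ) {f : ℂ → ℂ} (hf : Differentiable ℂ f)
    (h0 : ∀ z ∈ sphere c r, δ ≤ ‖f z‖) (h : HL (sphere c r) f (fun _ => 1)) :
    ∀ a ∈ closedBall c r, δ ≤ ‖f a‖ := by
  intro a ha
  obtain ⟨C, hC⟩ := (isCompact_closedBall c (4 * r)).exists_bound_of_continuousOn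
    hf.continuous.continuousOn
  refine le_of_forall_pos_le_add fun ε hε => ?_
  have hη : 0 < min (ε / 2) (δ / 4) := by positivity
  set η := min (ε / 2) (δ / 4) with hηd
  have hη1 : η ≤ ε / 2 := min_le_left _ _
  have hη2 : η ≤ δ / 4 := min_le_right _ _
  obtain ⟨n, hn⟩ : ∃ n : ℕ, C * (1 / 2 : ℝ) ^ n ≤ η := by
    have : Tendsto (fun n : ℕ => C * (1 / 2 : ℝ) ^ n) atTop (𝓝 (C * 0)) :=
      (tendsto_pow_atTop_nhds_zero_of_lt_one (by norm_num) (by norm_num)).const_mul C
    rw [mul_zero] at this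
    exact (this.eventually (ge_mem_nhds hη)).exists
  have hC0 : 0 ≤ C := (norm_nonneg _).trans (hC c (mem_closedBall_self (by positivity)))
  obtain ⟨P, -, hP⟩ := taylor (c := c) (R := 4 * r) (by positivity) n f C hf hC
  have hP' : ∀ z ∈ closedBall c r, ‖f z - P.eval z‖ ≤ η := fun z hz => by
    refine (hP z (closedBall_subset_closedBall (by linarith) hz)).trans (le_trans ?_ hn)
    have hz' := mem_closedBall_iff_norm.1 hz
    refine mul_le_mul_of_nonneg_left (pow_le_pow_left₀ (by positivity) ?_ n) hC0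
    rw [div_le_iff₀ (by positivity)]; linarith
  have hlow : ∀ z ∈ sphere c r, δ - η ≤ ‖P.eval z‖ := fun z hz => by
    have h1 := hP' z (sphere_subset_closedBall hz)
    have h2 := h0 z hz
    have h3 := norm_sub_norm_le (f z) (P.eval z)
    linarith
  have hne : ∀ z ∈ sphere c r, P.eval z ≠ 0 := fun z hz h1 => by
    have := hlow z hz
    rw [h1, norm_zero] at this; linarith
  have hHL : HL (sphere c r) (fun z => P.eval z) (fun _ => 1) := by
    refine HL.trans (HL.near (g := f) P.continuous.continuousOn hf.continuous.continuousOn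
      fun x hx => ?_) h
    have h1 := hP' x (sphere_subset_closedBall hx)
    have h2 := h0 x hx
    rw [norm_sub_rev]; linarith
  have hnz := W_poly hr P hne hHL
  have hd : DiffContOnCl ℂ (fun z => (P.eval z)⁻¹) (ball c r) := by
    refine DifferentiableOn.diffContOnCl ?_
    rw [closure_ball c hr.ne']
    exact P.differentiable.differentiableOn.inv hnz
  have hm : ‖(P.eval a)⁻¹‖ ≤ (δ - η)⁻¹ := by
    refine norm_le_of_forall_mem_frontier_norm_le (U := ball c r) isBounded_ball hd
      (fun w hw => ?_) (by rwa [closure_ball c hr.ne'])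
    rw [frontier_ball c hr.ne'] at hw
    rw [norm_inv]
    exact inv_anti₀ (by linarith) (hlow w hw)
  rw [norm_inv, inv_le_inv₀ (norm_pos_iff.2 (hnz a ha)) (by linarith)] at hm
  have h1 := hP' a ha
  have h3 := norm_sub_norm_le (P.eval a) (f a)
  rw [norm_sub_rev] at h3
  linarith

/-- A continuous approximately multiplicative family has trivial winding. -/
lemma family {S : Set ℂ} {f : ℝ → ℂ → ℂ} {a δ : ℝ} (ha : 0 < a) (hδ : 0 < δ)
    (hc : ∀ s ∈ Icc a (2 * a), ContinuousOn (f s) S)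
    (hl : ∀ s ∈ Icc a (2 * a), ∀ x ∈ S, δ ≤ ‖f s x‖)
    (hu : ∀ s ∈ Icc a (2 * a), ∀ᶠ u in 𝓝 s, ∀ x ∈ S, ‖f u x - f s x‖ < δ)
    (hm : ∀ x ∈ S, ‖f a x * f a x - f (2 * a) x‖ < δ) :
    ∀ s ∈ Icc a (2 * a), HL S (f s) (fun _ => 1) := by
  have key : ∀ s ∈ Icc a (2 * a), ∀ u ∈ Icc a (2 * a), HL S (f s) (f u) := by
    intro s hs u hu'
    refine isPreconnected_Icc.induction₂' (fun s u => HL S (f s) (f u)) (fun x hx => ?_)
      (fun _ _ _ _ _ _ h1 h2 => h1.trans h2) hs hu'
    filter_upwards [nhdsWithin_le_nhds (hu x hx), self_mem_nhdsWithin] with y hy hy'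
    have : HL S (f y) (f x) :=
      HL.near (hc y hy') (hc x hx) fun z hz => (hy z hz).trans_le (hl x hx z hz)
    exact ⟨this.symm, this⟩
  have h1 : a ∈ Icc a (2 * a) := ⟨le_rfl, by linarith⟩
  have h2 : 2 * a ∈ Icc a (2 * a) := ⟨by linarith, le_rfl⟩
  have h3 : HL S (fun x => f a x * f a x) (f (2 * a)) :=
    HL.near ((hc a h1).mul (hc a h1)) (hc _ h2) fun z hz => (hm z hz).trans_le (hl _ h2 z hz)
  have h4 : HL S (f a) (fun _ => 1) :=
    HL.cancel (h3.trans (key _ h2 _ h1)) fun x hx h0 => by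
      have := hl a h1 x hx
      rw [h0, norm_zero] at this; linarith
  exact fun s hs => (key s hs a h1).trans h4

end Pool.Agent.H96.SG
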