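import Pool.Agent.H96.SG1

open Set Metric Complex Polynomial Filter Topology

namespace Pool.Agent.H96.SG

lemma cheb (s : Multiset ℂ) (c : ℂ) {ρ : ℝ} (hρ : 0 < ρ) :
    ∃ r ∈ Icc (2 * ρ) (4 * ρ), ∀ z ∈ sphere c r,
      ‖(s.map (fun a => c - a)).prod‖ * (1 / 16) ^ s.card ≤ ‖(s.map (fun a => z - a)).prod‖ := by
  classical
  set φ : ℂ → ℂ → ℂ := fun a w =>
    if ‖c - a‖ < 8 * ρ then (w ^ 2 + 1) / 2 - ((‖c - a‖ / ρ - 3 : ℝ) : ℂ) * w else 1 / 2 with hφ
  have hd : ∀ t : Multiset ℂ, Differentiable ℂ fun w => (t.map (fun a => φ a w)).prod := by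
    intro t
    induction t using Multiset.induction_on with
    | empty => simp
    | cons a t ih =>
      simp only [Multiset.map_cons, Multiset.prod_cons]
      refine Differentiable.mul ?_ ih
      simp only [hφ]
      split_ifs <;> fun_prop
  have h0 : ‖(s.map (fun a => φ a 0)).prod‖ = (1 / 2) ^ s.card := by
    have : ∀ a, φ a 0 = 1 / 2 := fun a => by simp only [hφ]; split_ifs <;> simp
    simp [this]
  obtain ⟨w, hw, hmax⟩ := exists_mem_frontier_isMaxOn_norm (U := ball (0 : ℂ) 1) isBounded_ball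
    ⟨0, mem_ball_self one_pos⟩ (hd s).diffContOnCl
  rw [frontier_ball _ one_ne_zero, mem_sphere_zero_iff_norm] at hw
  have h1 : (1 / 2 : ℝ) ^ s.card ≤ ‖(s.map (fun a => φ a w)).prod‖ := by
    rw [← h0]
    exact hmax (subset_closure (mem_ball_self one_pos))
  have hre : |w.re| ≤ 1 := hw ▸ abs_re_le_norm w
  obtain ⟨hre1, hre2⟩ := abs_le.1 hre
  refine ⟨ρ * (3 + w.re), ⟨by nlinarith, by nlinarith⟩, fun z hz => ?_⟩
  rw [mem_sphere_iff_norm] at hz
  have key : ∀ a, ‖c - a‖ * (1 / 8) * ‖φ a w‖ ≤ ‖z - a‖ := by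
    intro a
    have h2 : |‖z - c‖ - ‖c - a‖| ≤ ‖z - a‖ := by
      have := abs_norm_sub_norm_le (z - c) (a - c)
      rwa [norm_sub_rev a c, show z - c - (a - c) = z - a by ring] at this
    rw [hz] at h2
    simp only [hφ]
    split_ifs with h
    · have h3 : (w ^ 2 + 1) / 2 - ((‖c - a‖ / ρ - 3 : ℝ) : ℂ) * w
          = w * ((w.re - (‖c - a‖ / ρ - 3) : ℝ) : ℂ) := by
        have h4 : w * (starRingEnd ℂ) w = 1 := by
          rw [mul_conj, normSq_eq_norm_sq, hw]; simp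
        have h5 := re_eq_add_conj w
        push_cast
        rw [h5]
        linear_combination (-1 / 2 : ℂ) * h4
      rw [h3, norm_mul, hw, one_mul, norm_real, Real.norm_eq_abs]
      have h6 : ρ * (3 + w.re) - ‖c - a‖ = ρ * (w.re - (‖c - a‖ / ρ - 3)) := by field_simp; ring
      rw [h6, abs_mul, abs_of_pos hρ] at h2
      refine le_trans ?_ h2
      gcongr
      linarith
    · push Not at h
      have h7 : ‖(1 / 2 : ℂ)‖ = 1 / 2 := by simp
      rw [h7]
      have := neg_abs_le (ρ * (3 + w.re) - ‖c - a‖)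
      nlinarith
  have key2 : ∀ t : Multiset ℂ, ‖(t.map (fun a => c - a)).prod‖ * (1 / 8) ^ t.card *
      ‖(t.map (fun a => φ a w)).prod‖ ≤ ‖(t.map (fun a => z - a)).prod‖ := by
    intro t
    induction t using Multiset.induction_on with
    | empty => simp
    | cons a t ih =>
      simp only [Multiset.map_cons, Multiset.prod_cons, Multiset.card_cons, norm_mul]
      calc _ = (‖c - a‖ * (1 / 8) * ‖φ a w‖) * (‖(t.map (fun a => c - a)).prod‖ * (1 / 8) ^ t.card *
              ‖(t.map (fun a => φ a w)).prod‖) := by ring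
        _ ≤ _ := mul_le_mul (key a) ih (by positivity) (norm_nonneg _)
  refine le_trans ?_ (key2 s)
  rw [show (1 / 16 : ℝ) = (1 / 8) * (1 / 2) by norm_num, mul_pow, ← mul_assoc]
  gcongr

lemma poly_circle (P : ℂ[X]) {n : ℕ} (hn : P.natDegree ≤ n) (c : ℂ) {ρ : ℝ} (hρ : 0 < ρ) :
    ∃ r ∈ Icc (2 * ρ) (4 * ρ), ∀ z ∈ sphere c r, ‖P.eval c‖ * (1 / 16) ^ n ≤ ‖P.eval z‖ := by
  obtain ⟨r, hr, h⟩ := cheb P.roots c hρ
  refine ⟨r, hr, fun z hz => ?_⟩
  rw [eval_eq_prod P c, eval_eq_prod P z, norm_mul, norm_mul, mul_assoc]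
  refine mul_le_mul_of_nonneg_left (le_trans ?_ (h z hz)) (norm_nonneg _)
  refine mul_le_mul_of_nonneg_left ?_ (norm_nonneg _)
  exact pow_le_pow_of_le_one (by norm_num) (by norm_num) ((card_roots' P).trans hn)

/-- Minimum modulus on a circle. -/
lemma min_circle {f : ℂ → ℂ} (hf : Differentiable ℂ f) {c : ℂ} {ρ C : ℝ} (hρ : 0 < ρ) {n : ℕ}
    (hn : 1 ≤ n) (hC : ∀ z ∈ closedBall c (256 * ρ), ‖f z‖ ≤ C)
    (hc : 2 * C * (1 / 2) ^ n ≤ ‖f c‖) :
    ∃ r ∈ Icc (2 * ρ) (4 * ρ), ∀ z ∈ sphere c r, C * (1 / 32) ^ n ≤ ‖f z‖ := by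
  obtain ⟨P, hP, hP'⟩ := taylor (c := c) (R := 256 * ρ) (by positivity) n f C hf hC
  obtain ⟨r, hr, h⟩ := poly_circle P hP c hρ
  have hC0 : 0 ≤ C := (norm_nonneg _).trans (hC c (mem_closedBall_self (by positivity)))
  refine ⟨r, hr, fun z hz => ?_⟩
  have h1 := hP' c (mem_closedBall_self (by positivity))
  rw [sub_self, norm_zero, mul_zero, zero_div, zero_pow (by omega), mul_zero, norm_le_zero_iff,
    sub_eq_zero] at h1
  have hz' := mem_sphere_iff_norm.1 hz
  have h2 := hP' z (mem_closedBall_iff_norm.2 (by rw [hz']; linarith [hr.2]))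
  have h3 : C * (2 * ‖z - c‖ / (256 * ρ)) ^ n ≤ C * (1 / 32) ^ n := by
    refine mul_le_mul_of_nonneg_left (pow_le_pow_left₀ (by positivity) ?_ n) hC0
    rw [div_le_iff₀ (by positivity), hz']; linarith [hr.2]
  have h4 := h z hz
  rw [← h1] at h4
  have h5 : 2 * C * (1 / 2) ^ n * (1 / 16) ^ n ≤ ‖f c‖ * (1 / 16) ^ n := by gcongr
  rw [mul_assoc, ← mul_pow, show (1 / 2 * (1 / 16) : ℝ) = 1 / 32 by norm_num] at h5
  have h6 := norm_sub_norm_le (P.eval z) (f z)
  rw [norm_sub_rev] at h6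
  linarith

/-- Three circles. -/
lemma three_circ {f : ℂ → ℂ} (hf : Differentiable ℂ f) {c p : ℂ} {ρ R C A B : ℝ} (hρ : 0 < ρ)
    (hρR : ρ < R) (hA : 0 ≤ A) (hB : 0 ≤ B) (hC0 : 0 < C)
    (hC : ∀ z ∈ closedBall c R, ‖f z‖ ≤ C)
    (h1 : ∀ z ∈ sphere c ρ, ‖f z‖ ≤ C * Real.exp (-A)) (hp : ρ ≤ ‖p - c‖)
    (hp' : ‖p - c‖ ≤ R * Real.exp (-B)) :
    ‖f p‖ ≤ C * Real.exp (-(A * B / Real.log (R / ρ))) := by
  have hR : 0 < R := hρ.trans hρR
  have hpc : 0 < ‖p - c‖ := hρ.trans_le hp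
  have hlt : Real.log ρ < Real.log R := Real.log_lt_log hρ hρR
  have hre : (log (p - c)).re = Real.log ‖p - c‖ := log_re _
  have hup : Real.log ‖p - c‖ ≤ Real.log R - B := by
    have := Real.log_le_log hpc hp'
    rwa [Real.log_mul hR.ne' (Real.exp_pos _).ne', Real.log_exp] at this
  have hn : ∀ w : ℂ, ‖c + exp w - c‖ = Real.exp w.re := fun w => by simp [norm_exp]
  have := HadamardThreeLines.norm_le_interp_of_mem_verticalClosedStrip'
    (f := fun w => f (c + exp w)) (z := log (p - c)) (a := C * Real.exp (-A)) (b := C) hlt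
    (by
      change (log (p - c)).re ∈ Icc _ _
      rw [hre]
      exact ⟨Real.log_le_log hρ hp, by linarith⟩)
    (Differentiable.diffContOnCl (by fun_prop))
    ⟨C, by
      rintro _ ⟨w, hw, rfl⟩
      refine hC _ (mem_closedBall_iff_norm.2 ?_)
      rw [hn, ← Real.exp_log hR]
      exact Real.exp_le_exp.2 hw.2⟩
    (fun w hw => h1 _ (mem_sphere_iff_norm.2 (by
      rw [hn, show w.re = Real.log ρ from hw, Real.exp_log hρ])))
    (fun w hw => hC _ (mem_closedBall_iff_norm.2 (by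
      rw [hn, show w.re = Real.log R from hw, Real.exp_log hR])))
  simp only [exp_log (norm_pos_iff.1 hpc), add_sub_cancel, hre] at this
  refine this.trans ?_
  set θ := (Real.log ‖p - c‖ - Real.log ρ) / (Real.log R - Real.log ρ) with hθ
  rw [Real.mul_rpow hC0.le (Real.exp_pos _).le, mul_right_comm, ← Real.rpow_add hC0,
    sub_add_cancel, Real.rpow_one, ← Real.exp_mul, Real.log_div hR.ne' hρ.ne']
  refine mul_le_mul_of_nonneg_left (Real.exp_le_exp.2 ?_) hC0.le
  have hd : 0 < Real.log R - Real.log ρ := by linarith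
  have h2 : B / (Real.log R - Real.log ρ) ≤ 1 - θ := by
    rw [hθ, one_sub_div hd.ne']
    gcongr
    linarith
  rw [mul_div_assoc]
  nlinarith

/-- A trigonometric polynomial is somewhere on a bounded window as large as a given coefficient. -/
lemma freq {G : Type*} (μ : G → ℝ) (s : Finset G) (hs : ∀ g ∈ s, μ g ≠ 0) :
    ∃ l : ℝ, 0 ≤ l ∧ ∀ (c0 : ℂ) (c : G → ℂ), ∃ y ∈ Icc 0 l,
      ‖c0‖ ≤ ‖c0 + ∑ g ∈ s, c g * exp (-(μ g * y * I))‖ := by
  classical
  induction s using Finset.induction_on with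
  | empty => exact ⟨0, le_rfl, fun c0 c => ⟨0, by simp, by simp⟩⟩
  | insert g s hg ih =>
    obtain ⟨l, hl, h⟩ := ih fun k hk => hs k (Finset.mem_insert_of_mem hk)
    have hμ := hs g (Finset.mem_insert_self _ _)
    have hpos : 0 < Real.pi / |μ g| := div_pos Real.pi_pos (abs_pos.2 hμ)
    set d := Real.pi / |μ g| with hd
    have he : exp (-(μ g * d * I)) = -1 := by
      rcases lt_or_gt_of_ne hμ with h1 | h1
      · have : μ g * d = -Real.pi := by rw [hd, abs_of_neg h1]; field_simp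
        rw [← ofReal_mul, this]; simp
      · have : μ g * d = Real.pi := by rw [hd, abs_of_pos h1]; field_simp
        rw [← ofReal_mul, this, exp_neg]; simp
    refine ⟨l + d, by positivity, fun c0 c => ?_⟩
    obtain ⟨y, hy, h1⟩ := h c0 (fun k => c k * (1 + exp (-(μ k * d * I))) / 2)
    set S : ℝ → ℂ := fun y => c0 + ∑ k ∈ insert g s, c k * exp (-(μ k * y * I)) with hS
    have hsplit : ∀ k, exp (-(μ k * ((y + d : ℝ) : ℂ) * I))
        = exp (-(μ k * y * I)) * exp (-(μ k * d * I)) := fun k => by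
      rw [← exp_add]; congr 1; push_cast; ring
    have h2 : c0 + ∑ k ∈ s, c k * (1 + exp (-(μ k * d * I))) / 2 * exp (-(μ k * y * I))
        = (S y + S (y + d)) / 2 := by
      simp only [hS, Finset.sum_insert hg, hsplit, he]
      have : ∑ k ∈ s, c k * (1 + exp (-(μ k * d * I))) / 2 * exp (-(μ k * y * I))
          = (∑ k ∈ s, c k * exp (-(μ k * y * I)) +
            ∑ k ∈ s, c k * (exp (-(μ k * y * I)) * exp (-(μ k * d * I)))) / 2 := by
        rw [← Finset.sum_add_distrib, Finset.sum_div]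
        exact Finset.sum_congr rfl fun k _ => by ring
      rw [this]; ring
    rw [h2, norm_div] at h1
    have h3 := norm_add_le (S y) (S (y + d))
    have h4 : ‖(2 : ℂ)‖ = 2 := by simp
    rw [h4] at h1
    rcases le_total ‖S y‖ ‖S (y + d)‖ with h5 | h5
    · exact ⟨y + d, ⟨by linarith [hy.1], by linarith [hy.2]⟩, by change _ ≤ ‖S (y + d)‖; linarith⟩
    · exact ⟨y, ⟨hy.1, by linarith [hy.2]⟩, by change _ ≤ ‖S y‖; linarith⟩

/-- Finitely many positive reals stay positive under some additive map to the rationals. -/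
lemma rat_approx (s : Finset ℝ) (hs : ∀ x ∈ s, 0 < x) :
    ∃ θ : ℝ →+ ℚ, ∀ x ∈ s, 0 < θ x := by
  classical
  let b := Module.Basis.ofVectorSpace ℚ ℝ
  have hopen : IsOpen {q : Module.Basis.ofVectorSpaceIndex ℚ ℝ → ℝ |
      ∀ x ∈ s, 0 < ∑ i ∈ (b.repr x).support, (b.repr x i : ℝ) * q i} := by
    simp only [ofPred_forall]
    refine isOpen_biInter_finset fun x _ => isOpen_lt continuous_const (by fun_prop)
  have hdense : DenseRange (Pi.map (fun _ : Module.Basis.ofVectorSpaceIndex ℚ ℝ =>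
      ((↑) : ℚ → ℝ))) := DenseRange.piMap fun _ => Rat.denseRange_cast
  obtain ⟨q, hq⟩ := hdense.exists_mem_open hopen ⟨fun i => b i, fun x hx => by
    have := b.linearCombination_repr x
    rw [Finsupp.linearCombination_apply, Finsupp.sum] at this
    simp only [Rat.smul_def] at this
    rw [this]; exact hs x hx⟩
  refine ⟨(b.constr ℚ q).toAddMonoidHom, fun x hx => ?_⟩
  have := hq x hx
  simp only [Pi.map_apply] at this
  rw [LinearMap.toAddMonoidHom_coe, Module.Basis.constr_apply, Finsupp.sum]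
  simp only [smul_eq_mul]
  exact_mod_cast this

lemma nat_approx {G : Type*} [AddCommGroup G] (ι : G →+ ℝ) (s : Finset G)
    (hs : ∀ g ∈ s, 0 < ι g) :
    ∃ (θ : G →+ ℝ) (m : G → ℕ), ∀ g ∈ s, θ g = m g ∧ 1 ≤ m g := by
  classical
  obtain ⟨θ, hθ⟩ := rat_approx (s.image ι) (by simpa using hs)
  set D : ℕ := ∏ g ∈ s, (θ (ι g)).den with hD
  have hD0 : 0 < D := Finset.prod_pos fun g _ => (θ (ι g)).den_pos
  have : ∀ g ∈ s, ∃ m : ℕ, (D : ℚ) * θ (ι g) = m ∧ 1 ≤ m := by
    intro g hg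
    obtain ⟨k, hk⟩ : (θ (ι g)).den ∣ D := Finset.dvd_prod_of_mem _ hg
    have hp := hθ (ι g) (Finset.mem_image_of_mem _ hg)
    have hnum : 0 < (θ (ι g)).num := Rat.num_pos.2 hp
    have hk0 : 0 < k := Nat.pos_of_mul_pos_left (hk ▸ hD0)
    refine ⟨k * (θ (ι g)).num.toNat, ?_, Nat.mul_pos hk0 (by omega)⟩
    have h1 : (((θ (ι g)).num.toNat : ℤ) : ℚ) = (θ (ι g)).num := by
      rw [Int.toNat_of_nonneg hnum.le]
    rw [hk]
    push_cast at h1 ⊢
    rw [h1, mul_comm ((θ (ι g)).den : ℚ), mul_assoc, Rat.den_mul_eq_num]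
  choose! m hm using this
  refine ⟨(AddMonoidHom.mulLeft (D : ℝ)).comp (((Rat.castHom ℝ).toAddMonoidHom).comp (θ.comp ι)),
    m, fun g hg => ⟨?_, (hm g hg).2⟩⟩
  have := (hm g hg).1
  simp only [AddMonoidHom.comp_apply, AddMonoidHom.coe_mulLeft, RingHom.toAddMonoidHom_eq_coe,
    AddMonoidHom.coe_coe, Rat.coe_castHom]
  exact_mod_cast this

end Pool.Agent.H96.SG
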