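import Pool.Agent.H96.SG2

open Set Metric Complex Filter Topology

namespace Pool.Agent.H96.SG

variable {G : Type*} [AddCommGroup G]

/-- Absolutely summable. -/
def Sm (a : G → ℂ) : Prop := Summable fun g => ‖a g‖

noncomputable def N (a : G → ℂ) : ℝ := ∑' g, ‖a g‖

noncomputable def conv (a b : G → ℂ) (v : G) : ℂ := ∑' g, a g * b (v - g)

def IsChar (χ : G → ℂ) : Prop := (∀ g, ‖χ g‖ = 1) ∧ ∀ g h, χ (g + h) = χ g * χ h

omit [AddCommGroup G] in
lemma N_nonneg (a : G → ℂ) : 0 ≤ N a := tsum_nonneg fun _ => norm_nonneg _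

omit [AddCommGroup G] in
lemma Sm.sub {a b : G → ℂ} (ha : Sm a) (hb : Sm b) : Sm (fun g => a g - b g) :=
  Summable.of_nonneg_of_le (fun _ => norm_nonneg _) (fun _ => norm_sub_le _ _) (ha.add hb)

omit [AddCommGroup G] in
lemma N_mono {a b : G → ℂ} (hb : Sm b) (h : ∀ g, ‖a g‖ ≤ ‖b g‖) : Sm a ∧ N a ≤ N b := by
  have ha : Sm a := Summable.of_nonneg_of_le (fun _ => norm_nonneg _) h hb
  exact ⟨ha, ha.tsum_le_tsum h hb⟩

omit [AddCommGroup G] in
lemma N_tri {a b c : G → ℂ} (hb : Sm b) (hc : Sm c) (h : ∀ g, ‖a g‖ ≤ ‖b g‖ + ‖c g‖) :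
    N a ≤ N b + N c := by
  have ha : Sm a := Summable.of_nonneg_of_le (fun _ => norm_nonneg _) h (hb.add hc)
  unfold N
  rw [← Summable.tsum_add hb hc]
  exact ha.tsum_le_tsum h (hb.add hc)

def shear (G : Type*) [AddCommGroup G] : G × G ≃ G × G where
  toFun p := (p.2, p.1 - p.2)
  invFun p := (p.1 + p.2, p.1)
  left_inv p := by simp
  right_inv p := by simp

lemma tsum_conv {R : Type*} [NormedRing R] [CompleteSpace R] {a b : G → R}
    (ha : Summable fun g => ‖a g‖) (hb : Summable fun g => ‖b g‖) :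
    (Summable fun v => ∑' g, a g * b (v - g)) ∧
    ∑' v, ∑' g, a g * b (v - g) = (∑' g, a g) * ∑' g, b g := by
  have h1 := summable_mul_of_summable_norm ha hb
  have h2 : Summable fun p : G × G => a p.2 * b (p.1 - p.2) := (shear G).summable_iff.2 h1
  refine ⟨h2.prod, ?_⟩
  rw [tsum_mul_tsum_of_summable_norm ha hb, ← (shear G).tsum_eq]
  exact h2.tsum_prod.symm

lemma conv_summ {a b : G → ℂ} (ha : Sm a) (hb : Sm b) (v : G) :
    Summable fun g => ‖a g‖ * ‖b (v - g)‖ := by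
  refine Summable.of_nonneg_of_le (fun _ => by positivity) (fun g => ?_) (ha.mul_right (N b))
  exact mul_le_mul_of_nonneg_left (hb.le_tsum _ fun _ _ => norm_nonneg _) (norm_nonneg _)

lemma conv_N {a b : G → ℂ} (ha : Sm a) (hb : Sm b) :
    Sm (conv a b) ∧ N (conv a b) ≤ N a * N b := by
  obtain ⟨h1, h2⟩ := tsum_conv (a := fun g => ‖a g‖) (b := fun g => ‖b g‖)
    (by simpa [Sm] using ha) (by simpa [Sm] using hb)
  have h3 : ∀ v, ‖conv a b v‖ ≤ ∑' g, ‖a g‖ * ‖b (v - g)‖ := fun v =>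
    tsum_of_norm_bounded (conv_summ ha hb v).hasSum fun g => norm_mul_le _ _
  have h4 : Sm (conv a b) := Summable.of_nonneg_of_le (fun _ => norm_nonneg _) h3 h1
  exact ⟨h4, (h4.tsum_le_tsum h3 h1).trans_eq h2⟩

variable (ι : G →+ ℝ)

noncomputable def E (χ : G → ℂ) (z : ℂ) (g : G) : ℂ := χ g * exp (-(ι g * z))

noncomputable def F (a χ : G → ℂ) (z : ℂ) : ℂ := ∑' g, a g * E ι χ z g

variable {ι}

lemma norm_E {χ : G → ℂ} (hχ : IsChar χ) (z : ℂ) (g : G) :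
    ‖E ι χ z g‖ = Real.exp (-(ι g * z.re)) := by
  simp [E, hχ.1, norm_exp]

lemma E_add {χ : G → ℂ} (hχ : IsChar χ) (z : ℂ) (g h : G) :
    E ι χ z (g + h) = E ι χ z g * E ι χ z h := by
  simp only [E, hχ.2, map_add]
  push_cast
  rw [add_mul, neg_add, exp_add]; ring

lemma term_le {a χ : G → ℂ} (hχ : IsChar χ) {T : ℝ} (hT : ∀ g, a g ≠ 0 → T ≤ ι g) {z : ℂ}
    (hz : 0 ≤ z.re) (g : G) : ‖a g * E ι χ z g‖ ≤ ‖a g‖ * Real.exp (-(T * z.re)) := by
  by_cases h : a g = 0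
  · simp [h]
  rw [norm_mul, norm_E hχ]
  gcongr
  exact hT g h

lemma F_summ {a χ : G → ℂ} (ha : Sm a) (hχ : IsChar χ) {T : ℝ} (hT : ∀ g, a g ≠ 0 → T ≤ ι g)
    {z : ℂ} (hz : 0 ≤ z.re) : Sm fun g => a g * E ι χ z g :=
  Summable.of_nonneg_of_le (fun _ => norm_nonneg _) (term_le hχ hT hz) (ha.mul_right _)

lemma F_le {a χ : G → ℂ} (ha : Sm a) (hχ : IsChar χ) {T : ℝ} (hT : ∀ g, a g ≠ 0 → T ≤ ι g)
    {z : ℂ} (hz : 0 ≤ z.re) : ‖F ι a χ z‖ ≤ N a * Real.exp (-(T * z.re)) :=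
  tsum_of_norm_bounded (ha.hasSum.mul_right _) (term_le hχ hT hz)

/-- Support in the nonnegative part. -/
def Ps (ι : G →+ ℝ) (a : G → ℂ) : Prop := ∀ g, a g ≠ 0 → 0 ≤ ι g

lemma Ps.sub {a b : G → ℂ} (ha : Ps ι a) (hb : Ps ι b) : Ps ι (fun g => a g - b g) := by
  intro g hg
  by_cases h : a g = 0
  · exact hb g (by simpa [h] using hg)
  · exact ha g h

lemma F_le' {a χ : G → ℂ} (ha : Sm a) (hχ : IsChar χ) (hT : Ps ι a)
    {z : ℂ} (hz : 0 ≤ z.re) : ‖F ι a χ z‖ ≤ N a := by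
  simpa using F_le ha hχ hT hz

lemma F_sub {a b χ : G → ℂ} (ha : Sm a) (hb : Sm b) (hχ : IsChar χ) (ha' : Ps ι a) (hb' : Ps ι b)
    {z : ℂ} (hz : 0 ≤ z.re) : F ι a χ z - F ι b χ z = F ι (fun g => a g - b g) χ z := by
  unfold F
  rw [← Summable.tsum_sub (F_summ ha hχ ha' hz).of_norm (F_summ hb hχ hb' hz).of_norm]
  exact tsum_congr fun g => by ring

lemma F_dist {a b χ : G → ℂ} (ha : Sm a) (hb : Sm b) (hχ : IsChar χ) (ha' : Ps ι a) (hb' : Ps ι b)
    {z : ℂ} (hz : 0 ≤ z.re) : ‖F ι a χ z - F ι b χ z‖ ≤ N (fun g => a g - b g) := by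
  rw [F_sub ha hb hχ ha' hb' hz]
  exact F_le' (ha.sub hb) hχ (ha'.sub hb') hz

lemma F_mul {a b χ : G → ℂ} (ha : Sm a) (hb : Sm b) (hχ : IsChar χ) (ha' : Ps ι a) (hb' : Ps ι b)
    {z : ℂ} (hz : 0 ≤ z.re) : F ι a χ z * F ι b χ z = F ι (conv a b) χ z := by
  unfold F
  rw [← (tsum_conv (F_summ ha hχ ha' hz) (F_summ hb hχ hb' hz)).2]
  refine tsum_congr fun v => ?_
  rw [conv, ← tsum_mul_right]
  refine tsum_congr fun g => ?_
  have := E_add (ι := ι) hχ z g (v - g)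
  rw [add_sub_cancel] at this
  rw [this]; ring

lemma Ps.conv {a b : G → ℂ} (ha : Ps ι a) (hb : Ps ι b) : Ps ι (conv a b) := by
  intro v hv
  by_contra h
  apply hv
  have : ∀ g, a g * b (v - g) = 0 := fun g => by
    by_contra h1
    have h2 := ha g (left_ne_zero_of_mul h1)
    have h3 := hb _ (right_ne_zero_of_mul h1)
    rw [map_sub] at h3
    linarith
  simp [SG.conv, this]

lemma F_approx_mul {a b c χ : G → ℂ} (ha : Sm a) (hb : Sm b) (hc : Sm c) (hχ : IsChar χ)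
    (ha' : Ps ι a) (hb' : Ps ι b) (hc' : Ps ι c) {T : ℝ} (h1 : ∀ v, ι v < T → c v = conv a b v)
    (h2 : ∀ v, c v ≠ 0 → ι v < T) {z : ℂ} (hz : 0 ≤ z.re) :
    ‖F ι a χ z * F ι b χ z - F ι c χ z‖ ≤ N a * N b * Real.exp (-(T * z.re)) := by
  obtain ⟨h3, h4⟩ := conv_N ha hb
  rw [F_mul ha hb hχ ha' hb' hz, F_sub h3 hc hχ (ha'.conv hb') hc' hz]
  refine (F_le (h3.sub hc) hχ (T := T) (fun g hg => ?_) hz).trans ?_
  · by_contra h
    exact hg (by rw [h1 g (not_le.1 h), sub_self])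
  · refine mul_le_mul_of_nonneg_right (le_trans (N_mono h3 fun g => ?_).2 h4) (Real.exp_pos _).le
    rcases lt_or_ge (ι g) T with h | h
    · simp [h1 g h]
    · have : c g = 0 := by
        by_contra h5
        linarith [h2 g h5]
      simp [this]

lemma F_diff {a χ : G → ℂ} (ha : Sm a) (hχ : IsChar χ) {T : ℝ}
    (hT : ∀ g, a g ≠ 0 → 0 < ι g ∧ ι g < T) : Differentiable ℂ (F ι a χ) := by
  intro z
  have h := differentiableOn_tsum_of_summable_norm (F := fun g w => a g * E ι χ w g)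
    (U := ball (0 : ℂ) (‖z‖ + 1)) (ha.mul_right (Real.exp (T * (‖z‖ + 1))))
    (fun g => by unfold E; fun_prop) isOpen_ball (fun g w hw => by
      by_cases h : a g = 0
      · simp [h]
      rw [norm_mul, norm_E hχ]
      obtain ⟨h1, h2⟩ := hT g h
      have h3 := (abs_le.1 ((abs_re_le_norm w).trans (mem_ball_zero_iff.1 hw).le)).1
      gcongr
      nlinarith [norm_nonneg z])
  exact h.differentiableAt (isOpen_ball.mem_nhds (by simp))

open Classical in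
/-- Restriction to a finite set. -/
noncomputable def res (s : Finset G) (a : G → ℂ) (g : G) : ℂ := if g ∈ s then a g else 0

omit [AddCommGroup G] in
lemma res_le (s : Finset G) (a : G → ℂ) (g : G) : ‖res s a g‖ ≤ ‖a g‖ := by
  unfold res; split_ifs <;> simp

lemma Ps.res {a : G → ℂ} (ha : Ps ι a) (s : Finset G) : Ps ι (res s a) := by
  intro g hg
  refine ha g fun h => hg ?_
  unfold SG.res; simp [h]

lemma F_res (s : Finset G) (a χ : G → ℂ) (z : ℂ) :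
    F ι (res s a) χ z = ∑ g ∈ s, a g * E ι χ z g := by
  unfold F
  rw [tsum_eq_sum (s := s) fun g hg => by simp [res, hg]]
  exact Finset.sum_congr rfl fun g hg => by simp [res, hg]

noncomputable def tail (s : Finset G) (a : G → ℂ) : ℝ := N fun g => a g - res s a g

omit [AddCommGroup G] in
lemma tail_ev {a : G → ℂ} (ha : Sm a) {η : ℝ} (hη : 0 < η) :
    ∀ᶠ s in atTop, tail s a < η := by
  have h1 : ∀ s : Finset G, tail s a = N a - ∑ g ∈ s, ‖a g‖ := fun s => by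
    have h2 : ∀ g, ‖a g - res s a g‖ = ‖a g‖ - ‖res s a g‖ := fun g => by
      unfold res; split_ifs <;> simp
    unfold tail N
    simp only [h2]
    rw [Summable.tsum_sub ha (N_mono ha (res_le s a)).1,
      tsum_eq_sum (f := fun g => ‖res s a g‖) (s := s) fun g hg => by simp [res, hg]]
    congr 1
    exact Finset.sum_congr rfl fun g hg => by simp [res, hg]
  have h3 : Tendsto (fun s : Finset G => N a - ∑ g ∈ s, ‖a g‖) atTop (𝓝 (N a - N a)) :=
    tendsto_const_nhds.sub ha.hasSum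
  rw [sub_self] at h3
  simp only [h1]
  exact h3.eventually (gt_mem_nhds hη)

omit [AddCommGroup G] in
lemma tail_le (s : Finset G) {a b : G → ℂ} (ha : Sm a) (hb : Sm b) :
    tail s a ≤ tail s b + N (fun g => a g - b g) := by
  refine N_tri (hb.sub (N_mono hb (res_le s b)).1) (ha.sub hb) fun g => ?_
  unfold res
  split_ifs
  · simp
  · simp only [sub_zero]
    linarith [norm_sub_norm_le (a g) (b g)]

lemma F_tail {a χ : G → ℂ} (ha : Sm a) (hχ : IsChar χ) (ha' : Ps ι a) (s : Finset G)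
    {z : ℂ} (hz : 0 ≤ z.re) : ‖F ι a χ z - ∑ g ∈ s, a g * E ι χ z g‖ ≤ tail s a := by
  rw [← F_res]
  exact F_dist ha (N_mono ha (res_le s a)).1 hχ ha' (ha'.res s) hz

lemma rel_dense (hι : Function.Injective ι) {a : G → ℂ} (ha : Sm a) (ha' : Ps ι a) (g0 : G)
    (h0 : a g0 ≠ 0) {τ : ℝ} (hτ : 0 ≤ τ) : ∃ l : ℝ, 0 ≤ l ∧ ∀ χ, IsChar χ → ∃ y ∈ Icc 0 l,
      ‖a g0‖ * Real.exp (-(ι g0 * τ)) / 2 ≤ ‖F ι a χ (τ + y * I)‖ := by
  classical
  have hε : 0 < ‖a g0‖ * Real.exp (-(ι g0 * τ)) / 2 := by positivity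
  obtain ⟨s, hs, hs'⟩ := ((tail_ev ha hε).and (eventually_ge_atTop {g0})).exists
  have hg0 : g0 ∈ s := by simpa using hs'
  obtain ⟨l, hl, h⟩ := freq (fun g => ι g - ι g0) (s.erase g0) fun g hg h1 =>
    (Finset.mem_erase.1 hg).1 (hι (sub_eq_zero.1 h1))
  refine ⟨l, hl, fun χ hχ => ?_⟩
  obtain ⟨y, hy, h1⟩ := h (a g0 * E ι χ τ g0) (fun g => a g * E ι χ τ g)
  refine ⟨y, hy, ?_⟩
  have h2 := F_tail ha hχ ha' s (z := τ + y * I) (by simpa using hτ)
  have h3 : ∑ g ∈ s, a g * E ι χ (τ + y * I) g = exp (-(ι g0 * y * I)) * (a g0 * E ι χ τ g0 +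
      ∑ g ∈ s.erase g0, a g * E ι χ τ g * exp (-(((ι g - ι g0 : ℝ) : ℂ) * y * I))) := by
    have h4 : ∀ g, a g * E ι χ (τ + y * I) g = exp (-(ι g0 * y * I)) *
        (a g * E ι χ τ g * exp (-(((ι g - ι g0 : ℝ) : ℂ) * y * I))) := fun g => by
      unfold E
      have : exp (-(ι g * (τ + y * I))) = exp (-(ι g0 * y * I)) * (exp (-(ι g * τ)) *
          exp (-(((ι g - ι g0 : ℝ) : ℂ) * y * I))) := by
        rw [← exp_add, ← exp_add]; congr 1; push_cast; ring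
      rw [this]; ring
    rw [← Finset.add_sum_erase s _ hg0, mul_add, Finset.mul_sum]
    simp only [h4]
    simp
  have h5 : ‖exp (-(ι g0 * y * I))‖ = 1 := by simp [norm_exp]
  rw [norm_mul, norm_E hχ, ofReal_re] at h1
  have h6 := norm_sub_norm_le (∑ g ∈ s, a g * E ι χ (τ + y * I) g) (F ι a χ (τ + y * I))
  rw [norm_sub_rev, h3, norm_mul, h5, one_mul, ← h3] at h6
  linarith

end Pool.Agent.H96.SG
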