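import Pool.Agent.H96.SG3

open Set Metric Complex Filter Topology

namespace Pool.Agent.H96.SG

variable {G : Type*} [AddCommGroup G]

/-- A continuous semigroup for the convolution truncated at `T`. -/
structure TS (ι : G →+ ℝ) (T : ℝ) (b : ℝ → G → ℂ) : Prop where
  sm : ∀ s, 0 < s → Sm (b s)
  supp : ∀ s, 0 < s → ∀ g, b s g ≠ 0 → 0 < ι g ∧ ι g < T
  mul : ∀ s u, 0 < s → 0 < u → ∀ v, ι v < T → b (s + u) v = conv (b s) (b u) v
  cont : ∀ s, 0 < s → Tendsto (fun u => N (fun g => b u g - b s g)) (𝓝 s) (𝓝 0)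

variable {ι : G →+ ℝ} {T : ℝ} {b : ℝ → G → ℂ}

lemma TS.ps (h : TS ι T b) {s : ℝ} (hs : 0 < s) : Ps ι (b s) := fun g hg => (h.supp s hs g hg).1.le

lemma TS.small (h : TS ι T b) {t : ℝ} (ht : 0 < t) {g1 : G} (h1 : b t g1 ≠ 0) {n : ℕ}
    (hn : 1 ≤ n) : ∃ g0, b (t / n) g0 ≠ 0 ∧ ι g0 < T / n := by
  by_contra hc
  push Not at hc
  have hn0 : (0 : ℝ) < n := by exact_mod_cast hn
  have hs : 0 < t / n := by positivity
  have key : ∀ k : ℕ, ∀ g, b ((k + 1) * (t / n)) g ≠ 0 → (k + 1) * (T / n) ≤ ι g := by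
    intro k
    induction k with
    | zero => simpa using hc
    | succ k ih =>
      intro v hv
      have hk : (0 : ℝ) < (k + 1) * (t / n) := by positivity
      have he : (((k + 1 : ℕ) : ℝ) + 1) * (t / n) = (k + 1) * (t / n) + t / n := by push_cast; ring
      rw [he] at hv
      rw [h.mul _ _ hk hs v (h.supp _ (by positivity) v hv).2] at hv
      by_contra h2
      apply hv
      have : ∀ g, b ((k + 1) * (t / n)) g * b (t / n) (v - g) = 0 := fun g => by
        by_contra h3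
        have h4 := ih g (left_ne_zero_of_mul h3)
        have h5 := hc _ (right_ne_zero_of_mul h3)
        rw [map_sub] at h5
        push_cast at h2
        linarith
      simp [conv, this]
  obtain ⟨k, rfl⟩ : ∃ k, n = k + 1 := ⟨n - 1, by omega⟩
  have h2 := key k g1 (by push_cast; rwa [mul_div_cancel₀ _ (by positivity)])
  push_cast at h2
  rw [mul_div_cancel₀ _ (by positivity)] at h2
  linarith [(h.supp t ht g1 h1).2]

lemma TS.bound (h : TS ι T b) {p q : ℝ} (hp : 0 < p) : ∃ C, 1 ≤ C ∧ ∀ s ∈ Icc p q, N (b s) ≤ C := by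
  have hc : ContinuousOn (fun s => N (b s)) (Icc p q) := by
    intro s hs
    have hs0 : 0 < s := hp.trans_le hs.1
    refine ContinuousAt.continuousWithinAt ?_
    rw [ContinuousAt, tendsto_iff_norm_sub_tendsto_zero]
    refine squeeze_zero' (Eventually.of_forall fun _ => norm_nonneg _) ?_ (h.cont s hs0)
    filter_upwards [lt_mem_nhds hs0] with u hu
    have h1 : N (b u) ≤ N (b s) + N (fun g => b u g - b s g) :=
      N_tri (h.sm s hs0) ((h.sm u hu).sub (h.sm s hs0)) fun g => by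
        linarith [norm_sub_norm_le (b u g) (b s g)]
    have h2 : N (b s) ≤ N (b u) + N (fun g => b u g - b s g) :=
      N_tri (h.sm u hu) ((h.sm u hu).sub (h.sm s hs0)) fun g => by
        linarith [norm_sub_norm_le (b s g) (b u g), norm_sub_rev (b s g) (b u g)]
    rw [Real.norm_eq_abs, abs_le]
    constructor <;> linarith
  obtain ⟨C, hC⟩ := isCompact_Icc.exists_bound_of_continuousOn hc
  exact ⟨max C 1, le_max_right _ _, fun s hs =>
    ((le_abs_self _).trans (hC s hs)).trans (le_max_left _ _)⟩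

lemma TS.amul (h : TS ι T b) {χ : G → ℂ} (hχ : IsChar χ) {s u C x : ℝ} (hs : 0 < s) (hu : 0 < u)
    (hT : 0 ≤ T) (hx : 0 ≤ x) (h1 : N (b s) ≤ C) (h2 : N (b u) ≤ C) {z : ℂ} (hz : x ≤ z.re) :
    ‖F ι (b s) χ z * F ι (b u) χ z - F ι (b (s + u)) χ z‖ ≤ C * C * Real.exp (-(T * x)) := by
  have hsu : 0 < s + u := by positivity
  refine (F_approx_mul (h.sm s hs) (h.sm u hu) (h.sm _ hsu) hχ (h.ps hs) (h.ps hu) (h.ps hsu)
    (h.mul s u hs hu) (fun v hv => (h.supp _ hsu v hv).2) (hx.trans hz)).trans ?_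
  have := N_nonneg (b s)
  have := N_nonneg (b u)
  have : 0 ≤ C := by linarith
  gcongr

lemma TS.near (h : TS ι T b) {s δ : ℝ} (hs : 0 < s) (hδ : 0 < δ) :
    ∀ᶠ u in 𝓝 s, 0 < u ∧ N (fun g => b u g - b s g) < δ :=
  (lt_mem_nhds hs).and ((h.cont s hs).eventually (gt_mem_nhds hδ))

lemma TS.line (h : TS ι T b) (hι : Function.Injective ι) {a : ℝ} (ha : 0 < a) {g0 : G}
    (h0 : b (3 * a) g0 ≠ 0) (hg0 : ι g0 < T / 1000) {C : ℝ} (hC1 : 1 ≤ C)
    (hC : ∀ s ∈ Icc a (3 * a), N (b s) ≤ C) :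
    ∃ σ δ : ℝ, 0 < σ ∧ 0 < δ ∧ C * C * Real.exp (-(T * σ)) ≤ δ / 4 ∧
      ∀ χ, IsChar χ → ∀ s ∈ Icc a (2 * a), δ ≤ ‖F ι (b s) χ σ‖ := by
  have ha3 : 0 < 3 * a := by positivity
  have hl0 : 0 < ι g0 := (h.supp _ ha3 g0 h0).1
  set l0 := ι g0 with hl0d
  have hT : 0 < T := by linarith
  have hβ : 0 < ‖b (3 * a) g0‖ := norm_pos_iff.2 h0
  set β := ‖b (3 * a) g0‖ with hβd
  obtain ⟨τ, hτ, hτ'⟩ : ∃ τ : ℝ, 0 < τ ∧ Real.exp (-(l0 * τ)) ≤ β / (2 * C) := by
    have h1 : Tendsto (fun τ : ℝ => Real.exp (-(l0 * τ))) atTop (𝓝 0) :=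
      Real.tendsto_exp_neg_atTop_nhds_zero.comp (tendsto_id.const_mul_atTop hl0)
    exact ((eventually_gt_atTop 0).and (h1.eventually (ge_mem_nhds (by positivity)))).exists
  obtain ⟨l, hl, hrel⟩ := rel_dense hι (h.sm _ ha3) (h.ps ha3) g0 h0 hτ.le
  obtain ⟨n, hn2, hn3, hn4, hn5⟩ : ∃ n : ℕ, 2 ≤ n ∧ (τ ^ 2 + l ^ 2) / τ ≤ n / (100 * l0) ∧
      2 * τ ≤ n / (100 * l0) ∧ Real.exp (-(n : ℝ)) ≤ 1 / (8 * (C * C)) := by
    have h1 : Tendsto (fun n : ℕ => (n : ℝ) / (100 * l0)) atTop atTop :=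
      tendsto_natCast_atTop_atTop.atTop_div_const (by positivity)
    have h2 : Tendsto (fun n : ℕ => Real.exp (-(n : ℝ))) atTop (𝓝 0) :=
      Real.tendsto_exp_neg_atTop_nhds_zero.comp tendsto_natCast_atTop_atTop
    exact ((eventually_ge_atTop 2).and ((h1.eventually_ge_atTop _).and
      ((h1.eventually_ge_atTop _).and (h2.eventually (ge_mem_nhds (by positivity)))))).exists
  set σ : ℝ := n / (100 * l0) with hσd
  have hn0 : (2 : ℝ) ≤ n := by exact_mod_cast hn2
  have hσ : 0 < σ := by positivity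
  have herr : C * C * Real.exp (-(T * (σ / 2))) ≤ (1 / 32) ^ n / 2 / 4 := by
    have h1 : 5 * (n : ℝ) ≤ T * (σ / 2) := by
      have : T * (σ / 2) = n * (T / (200 * l0)) := by rw [hσd]; field_simp; ring
      rw [this, mul_comm]
      gcongr
      rw [le_div_iff₀ (by positivity)]; linarith
    have h2 : Real.exp (-4) ≤ 1 / 32 := by
      rw [Real.exp_neg, one_div]
      refine inv_anti₀ (by norm_num) ?_
      have h3 : Real.exp 4 = Real.exp 1 ^ 4 := by rw [← Real.exp_nat_mul]; norm_num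
      have h4 := Real.exp_one_gt_d9
      rw [h3]
      calc (32 : ℝ) ≤ 2.7 ^ 4 := by norm_num
        _ ≤ _ := by gcongr; linarith
    have h3 : Real.exp (-(T * (σ / 2))) ≤ Real.exp (-(n : ℝ)) * (1 / 32) ^ n := by
      calc Real.exp (-(T * (σ / 2))) ≤ Real.exp (-(n : ℝ) + n * (-4)) :=
            Real.exp_le_exp.2 (by linarith)
        _ = Real.exp (-(n : ℝ)) * Real.exp (-4) ^ n := by rw [Real.exp_add, Real.exp_nat_mul]
        _ ≤ _ := by gcongr
    calc C * C * Real.exp (-(T * (σ / 2))) ≤ C * C * (1 / (8 * (C * C)) * (1 / 32) ^ n) := by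
          refine mul_le_mul_of_nonneg_left (h3.trans ?_) (by positivity)
          gcongr
      _ = _ := by field_simp; ring
  refine ⟨σ, (1 / 32) ^ n / 2, hσ, by positivity, le_trans ?_ herr, fun χ hχ => ?_⟩
  · gcongr; linarith
  have hbd : ∀ s ∈ Icc a (3 * a), ∀ z : ℂ, 0 ≤ z.re → ‖F ι (b s) χ z‖ ≤ C := fun s hs z hz =>
    (F_le' (h.sm s (ha.trans_le hs.1)) hχ (h.ps (ha.trans_le hs.1)) hz).trans (hC s hs)
  have hdiff : ∀ s, 0 < s → Differentiable ℂ (F ι (b s) χ) := fun s hs =>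
    F_diff (h.sm s hs) hχ (h.supp s hs)
  have h3a : 3 * a ∈ Icc a (3 * a) := ⟨by linarith, le_rfl⟩
  have hre : ∀ (c z : ℂ) (R : ℝ), ‖z - c‖ ≤ R → c.re - R ≤ z.re := fun c z R hz => by
    have := (abs_le.1 ((abs_re_le_norm _).trans hz)).1
    rw [sub_re] at this; linarith
  obtain ⟨y, hy, hy'⟩ := hrel χ hχ
  obtain ⟨c, hc, hc'⟩ : ∃ c ∈ sphere (σ : ℂ) (σ / 512),
      2 * C * (1 / 2) ^ n ≤ ‖F ι (b (3 * a)) χ c‖ := by
    by_contra hcon
    push Not at hcon
    have hlog : 0 < Real.log 2 := Real.log_pos (by norm_num)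
    have := three_circ (hdiff _ ha3) (c := σ) (p := τ + y * I) (ρ := σ / 512) (R := σ) (C := C)
      (A := (n - 1) * Real.log 2) (B := τ / (2 * σ)) (by positivity) (by linarith)
      (mul_nonneg (by linarith) hlog.le) (by positivity) (by linarith)
      (fun z hz => hbd _ h3a z (by simpa using hre _ _ _ (mem_closedBall_iff_norm.1 hz)))
      (fun z hz => (hcon z hz).le.trans_eq (by
        have : Real.exp (-((n - 1) * Real.log 2)) = 2 * (1 / 2) ^ n := by
          rw [show -(((n : ℝ) - 1) * Real.log 2) = Real.log 2 + n * (-Real.log 2) by ring,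
            Real.exp_add, Real.exp_nat_mul, Real.exp_neg, Real.exp_log two_pos, one_div]
        rw [this]; ring))
      (by
        have := (abs_le.1 (abs_re_le_norm ((τ : ℂ) + y * I - σ))).1
        simp at this
        linarith)
      (by
        have h1 : ‖(τ : ℂ) + y * I - σ‖ ^ 2 = (τ - σ) ^ 2 + y ^ 2 := by
          rw [← normSq_eq_norm_sq, normSq_apply]; simp; ring
        have h2 : (σ * Real.exp (-(τ / (2 * σ)))) ^ 2 = σ ^ 2 * Real.exp (-(τ / σ)) := by
          rw [mul_pow, ← Real.exp_nat_mul]; congr 2; push_cast; field_simp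
        refine (sq_le_sq₀ (norm_nonneg _) (by positivity)).1 ?_
        rw [h1, h2]
        have h3 := Real.add_one_le_exp (-(τ / σ))
        have h4 : σ ^ 2 * (-(τ / σ) + 1) = σ ^ 2 - σ * τ := by field_simp; ring
        have h5 : y ^ 2 ≤ l ^ 2 := by nlinarith [hy.1, hy.2]
        rw [div_le_iff₀ hτ] at hn3
        nlinarith [mul_le_mul_of_nonneg_left h3 (sq_nonneg σ)])
    have h6 : Real.log (σ / (σ / 512)) = 9 * Real.log 2 := by
      rw [show σ / (σ / 512) = 2 ^ 9 by field_simp; norm_num, Real.log_pow]; norm_num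
    have h7 : 2 * (l0 * τ) < (n - 1) * Real.log 2 * (τ / (2 * σ)) / Real.log (σ / (σ / 512)) := by
      rw [h6, show ((n : ℝ) - 1) * Real.log 2 * (τ / (2 * σ)) / (9 * Real.log 2)
        = ((n - 1) / n * (100 / 18)) * (l0 * τ) by rw [hσd]; field_simp; ring]
      refine mul_lt_mul_of_pos_right ?_ (by positivity)
      have : 1 / 2 ≤ ((n : ℝ) - 1) / n := by rw [le_div_iff₀ (by positivity)]; linarith
      linarith
    have h8 := Real.exp_lt_exp.2 (neg_lt_neg h7)
    have h9 : C * Real.exp (-(2 * (l0 * τ))) ≤ β * Real.exp (-(l0 * τ)) / 2 := by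
      rw [show -(2 * (l0 * τ)) = -(l0 * τ) + -(l0 * τ) by ring, Real.exp_add]
      calc C * (Real.exp (-(l0 * τ)) * Real.exp (-(l0 * τ)))
          ≤ C * (β / (2 * C) * Real.exp (-(l0 * τ))) := by gcongr
        _ = _ := by field_simp
    have h10 := mul_lt_mul_of_pos_left h8 (by linarith : (0 : ℝ) < C)
    linarith
  have hcre : σ - σ / 512 ≤ c.re := by simpa using hre _ _ _ (mem_sphere_iff_norm.1 hc).le
  obtain ⟨r, hr, hr'⟩ := min_circle (hdiff _ ha3) (c := c) (ρ := σ / 512) (C := C) (n := n)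
    (by positivity) (by omega)
    (fun z hz => hbd _ h3a z (by linarith [hre _ _ _ (mem_closedBall_iff_norm.1 hz)])) hc'
  have hS : ∀ z ∈ sphere c r, σ / 2 ≤ z.re := fun z hz => by
    linarith [hre _ _ _ (mem_sphere_iff_norm.1 hz).le, hr.2]
  have hpos : (0 : ℝ) < (1 / 32) ^ n := by positivity
  have hlow : ∀ s ∈ Icc a (2 * a), ∀ z ∈ sphere c r, (1 / 32) ^ n / 2 ≤ ‖F ι (b s) χ z‖ := by
    intro s hs z hz
    have h1 : s ∈ Icc a (3 * a) := ⟨hs.1, by linarith [hs.2]⟩
    have h2 : 3 * a - s ∈ Icc a (3 * a) := ⟨by linarith [hs.2], by linarith [hs.1]⟩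
    have h3 := h.amul hχ (ha.trans_le h1.1) (ha.trans_le h2.1) hT.le (x := σ / 2) (by positivity)
      (hC _ h1) (hC _ h2) (hS z hz)
    rw [add_sub_cancel] at h3
    have h4 := hr' z hz
    have h5 := hbd _ h2 z (by linarith [hS z hz])
    have h6 := norm_sub_norm_le (F ι (b (3 * a)) χ z) (F ι (b s) χ z * F ι (b (3 * a - s)) χ z)
    rw [norm_sub_rev, norm_mul] at h6
    have h7 : ‖F ι (b s) χ z‖ * ‖F ι (b (3 * a - s)) χ z‖ ≤ ‖F ι (b s) χ z‖ * C := by gcongr
    by_contra h8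
    push Not at h8
    nlinarith
  have hfam := family (S := sphere c r) (f := fun s => F ι (b s) χ) ha (δ := (1 / 32) ^ n / 2)
    (by positivity) (fun s hs => (hdiff s (ha.trans_le hs.1)).continuous.continuousOn) hlow
    (fun s hs => by
      have hs0 := ha.trans_le hs.1
      filter_upwards [h.near hs0 (δ := (1 / 32) ^ n / 2) (by positivity)] with u hu z hz
      exact (F_dist (h.sm u hu.1) (h.sm s hs0) hχ (h.ps hu.1) (h.ps hs0)
        (by linarith [hS z hz])).trans_lt hu.2)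
    (fun z hz => by
      have h1 : a ∈ Icc a (3 * a) := ⟨le_rfl, by linarith⟩
      have h3 := h.amul hχ ha ha hT.le (x := σ / 2) (by positivity) (hC _ h1) (hC _ h1) (hS z hz)
      rw [← two_mul] at h3
      linarith)
  intro s hs
  refine W_main (c := c) (r := r) (by linarith [hr.1]) (by positivity)
    (hdiff s (ha.trans_le hs.1)) (hlow s hs) (hfam s hs) _ ?_
  rw [mem_closedBall_iff_norm, norm_sub_rev, mem_sphere_iff_norm.1 hc]
  linarith [hr.1]

lemma TS.tail_unif (h : TS ι T b) {p q η : ℝ} (hp : 0 < p) (hη : 0 < η) :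
    ∀ᶠ s in atTop, ∀ u ∈ Icc p q, tail s (b u) < η := by
  refine isCompact_Icc.induction_on (p := fun K => ∀ᶠ s in atTop, ∀ u ∈ K, tail s (b u) < η)
    (by simp) (fun K L hKL hL => hL.mono fun s hs u hu => hs u (hKL hu))
    (fun K L hK hL => (hK.and hL).mono fun s hs u hu => hu.elim (hs.1 u) (hs.2 u)) fun x hx => ?_
  have hx0 := hp.trans_le hx.1
  refine ⟨_, nhdsWithin_le_nhds (h.near hx0 (half_pos hη)), ?_⟩
  filter_upwards [tail_ev (h.sm x hx0) (half_pos hη)] with s hs u hu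
  have := tail_le s (h.sm u hu.1) (h.sm x hx0)
  linarith [hu.2]

/-- A continuous semigroup for a truncated convolution vanishes. -/
theorem TS.zero (h : TS ι T b) (hι : Function.Injective ι) {t : ℝ} (ht : 0 < t) (g1 : G) :
    b t g1 = 0 := by
  classical
  by_contra h1
  obtain ⟨g0, h0, hg0⟩ := h.small ht h1 (n := 1000) (by norm_num)
  set a := t / 3000 with had
  have ha : 0 < a := by positivity
  have h3a : t / (1000 : ℕ) = 3 * a := by rw [had]; push_cast; ring
  rw [h3a] at h0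
  obtain ⟨C, hC1, hC⟩ := h.bound (q := 3 * a) ha
  obtain ⟨σ, δ, hσ, hδ, herr, hlow⟩ := h.line hι ha h0 (by simpa using hg0) hC1 hC
  have hT : 0 < T := by linarith [(h.supp t ht g1 h1).1, (h.supp t ht g1 h1).2]
  set η := min 1 (δ / (16 * C)) with hηd
  have hη : 0 < η := by positivity
  have hη1 : η ≤ 1 := min_le_left _ _
  have hη2 : η * C ≤ δ / 16 := by
    have : η ≤ δ / (16 * C) := min_le_right _ _
    rw [le_div_iff₀ (by positivity)] at this
    linarith
  have hη3 : η ≤ δ / 16 := by nlinarith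
  obtain ⟨s0, hs0⟩ := (h.tail_unif (q := 2 * a) ha hη).exists
  set s := s0.filter (fun g => 0 < ι g) with hsd
  obtain ⟨θ, m, hm⟩ := nat_approx ι s (fun g hg => (Finset.mem_filter.1 hg).2)
  set p : ℝ → ℂ → ℂ := fun u w => ∑ g ∈ s, b u g * exp (-(ι g * σ)) * w ^ m g with hpd
  have hpdiff : ∀ u, Differentiable ℂ (p u) := fun u => by simp only [hpd]; fun_prop
  have hap : ∀ w ∈ sphere (0 : ℂ) 1, ∃ χ, IsChar χ ∧ ∀ u ∈ Icc a (2 * a),
      ‖F ι (b u) χ σ - p u w‖ < η := by
    intro w hw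
    rw [mem_sphere_zero_iff_norm] at hw
    have hχ : IsChar fun g => exp ((θ g * arg w : ℝ) * I) :=
      ⟨fun g => norm_exp_ofReal_mul_I _, fun g k => by
        beta_reduce
        rw [← exp_add, map_add]; congr 1; push_cast; ring⟩
    refine ⟨_, hχ, fun u hu => ?_⟩
    have hu0 := ha.trans_le hu.1
    refine lt_of_eq_of_lt ?_ ((F_tail (h.sm u hu0) hχ (h.ps hu0) s0 (z := σ)
      (by simpa using hσ.le)).trans_lt (hs0 u hu))
    congr 2
    simp only [hpd]
    rw [← Finset.sum_filter_of_ne (p := fun g => 0 < ι g) (s := s0)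
      (fun g _ hg => (h.supp u hu0 g (left_ne_zero_of_mul hg)).1)]
    refine Finset.sum_congr rfl fun g hg => ?_
    have h2 := norm_mul_exp_arg_mul_I w
    rw [hw, ofReal_one, one_mul] at h2
    have h3 : exp ((θ g * arg w : ℝ) * I) = w ^ m g := by
      conv_rhs => rw [← h2, ← exp_nat_mul]
      rw [(hm g hg).1]; congr 1; push_cast; ring
    unfold E
    beta_reduce
    rw [h3]; ring
  have hI : ∀ u ∈ Icc a (2 * a), u ∈ Icc a (3 * a) := fun u hu => ⟨hu.1, by linarith [hu.2]⟩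
  have hl : ∀ u ∈ Icc a (2 * a), ∀ w ∈ sphere (0 : ℂ) 1, 3 * δ / 4 ≤ ‖p u w‖ := by
    intro u hu w hw
    obtain ⟨χ, hχ, h2⟩ := hap w hw
    linarith [hlow χ hχ u hu, h2 u hu, norm_sub_norm_le (F ι (b u) χ σ) (p u w)]
  have h1a : a ∈ Icc a (2 * a) := ⟨le_rfl, by linarith⟩
  have h2a : 2 * a ∈ Icc a (2 * a) := ⟨by linarith, le_rfl⟩
  have hfam := family (S := sphere 0 1) (f := p) ha (δ := 3 * δ / 4) (by positivity)
    (fun u _ => (hpdiff u).continuous.continuousOn) hl
    (fun u hu => by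
      have hcont : ContinuousAt (fun v => ∑ g ∈ s, ‖b v g - b u g‖) u := by
        have hu0 := ha.trans_le hu.1
        refine tendsto_finsetSum _ fun g _ => ?_
        simp only [sub_self, norm_zero]
        refine squeeze_zero' (Eventually.of_forall fun _ => norm_nonneg _) ?_ (h.cont u hu0)
        filter_upwards [lt_mem_nhds hu0] with v hv
        exact ((h.sm v hv).sub (h.sm u hu0)).le_tsum g fun _ _ => norm_nonneg _
      have := hcont.eventually (gt_mem_nhds (a := 3 * δ / 4) (by simp; positivity))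
      filter_upwards [this] with v hv w hw
      refine lt_of_le_of_lt ?_ hv
      simp only [hpd]
      rw [← Finset.sum_sub_distrib]
      refine (norm_sum_le _ _).trans (Finset.sum_le_sum fun g hg => ?_)
      rw [← sub_mul, ← sub_mul, norm_mul, norm_mul, norm_pow, mem_sphere_zero_iff_norm.1 hw,
        one_pow, mul_one, norm_exp]
      refine mul_le_of_le_one_right (norm_nonneg _) (Real.exp_le_one_iff.2 ?_)
      have := (Finset.mem_filter.1 hg).2
      simp
      positivity)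
    (fun w hw => by
      obtain ⟨χ, hχ, h2⟩ := hap w hw
      have h3 := h.amul hχ ha ha hT.le hσ.le (hC _ (hI _ h1a)) (hC _ (hI _ h1a)) (z := σ) (by simp)
      rw [← two_mul] at h3
      have h4 := h2 _ h1a
      have h5 := h2 _ h2a
      have h6 : ‖F ι (b a) χ σ‖ ≤ C :=
        (F_le' (h.sm a ha) hχ (h.ps ha) (by simpa using hσ.le)).trans (hC _ (hI _ h1a))
      set x := F ι (b a) χ σ
      set y := F ι (b (2 * a)) χ σ
      have h7 : p a w * p a w - p (2 * a) w = (x * x - y) + (y - p (2 * a) w)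
          + (x - p a w) * ((x - p a w) - 2 * x) := by ring
      have h8 : ‖(x - p a w) - 2 * x‖ ≤ 3 * C := by
        have := norm_sub_le (x - p a w) (2 * x)
        rw [norm_mul] at this
        simp only [Complex.norm_ofNat] at this
        linarith
      have h9 : ‖(x - p a w) * ((x - p a w) - 2 * x)‖ ≤ η * (3 * C) := by
        rw [norm_mul]; gcongr
      rw [h7]
      linarith [norm_add₃_le (a := x * x - y) (b := y - p (2 * a) w)
        (c := (x - p a w) * ((x - p a w) - 2 * x))])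
  have := W_main one_pos (by positivity) (hpdiff a) (hl a h1a) (hfam a h1a) 0 (by simp)
  have h5 : p a 0 = 0 := Finset.sum_eq_zero fun g hg => by
    rw [zero_pow (by linarith [(hm g hg).2]), mul_zero]
  rw [h5, norm_zero] at this
  linarith

end Pool.Agent.H96.SG
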