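import Pool.Agent.H96.SG4

open Set Metric Complex Filter Topology

namespace Pool.Agent.H96.SG

section weighted
variable {G : Type*} [AddCommGroup G] {ι : G →+ ℝ}

/-- No nonzero continuous semigroup in the weighted convolution algebra, coefficient form. -/
theorem weighted_zero (hι : Function.Injective ι) (a : ℝ → G → ℂ)
    (h0 : ∀ t, 0 < t → ∀ g, ι g ≤ 0 → a t g = 0)
    (h1 : ∀ t, 0 < t → Summable fun g => ‖a t g‖ * Real.exp (-(ι g) ^ 2))
    (h2 : ∀ s t, 0 < s → 0 < t → ∀ v, a (s + t) v = ∑' g, a s g * a t (v - g))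
    (h3 : ∀ t, 0 < t → Tendsto (fun s => ∑' g, ‖a s g - a t g‖ * Real.exp (-(ι g) ^ 2))
      (𝓝 t) (𝓝 0)) {t : ℝ} (ht : 0 < t) (g1 : G) : a t g1 = 0 := by
  classical
  set T := ι g1 + 1 with hT
  set b : ℝ → G → ℂ := fun s g => if ι g < T then a s g else 0 with hb
  have hw : ∀ (c : G → ℂ), (∀ g, ι g ≤ 0 → c g = 0) → ∀ g, ‖(if ι g < T then c g else 0)‖ ≤
      Real.exp (T ^ 2) * (‖c g‖ * Real.exp (-(ι g) ^ 2)) := by
    intro c hc g
    split_ifs with h
    · rcases le_or_gt (ι g) 0 with h4 | h4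
      · simp [hc g h4]
      · rw [mul_left_comm, ← Real.exp_add]
        exact le_mul_of_one_le_right (norm_nonneg _) (Real.one_le_exp (by nlinarith))
    · simp; positivity
  have hsm : ∀ s, 0 < s → Sm (b s) := fun s hs =>
    Summable.of_nonneg_of_le (fun _ => norm_nonneg _) (hw (a s) (h0 s hs)) ((h1 s hs).mul_left _)
  have hTS : TS ι T b := by
    refine ⟨hsm, fun s hs g hg => ?_, fun s u hs hu v hv => ?_, fun s hs => ?_⟩
    · simp only [hb] at hg
      split_ifs at hg with h
      · exact ⟨lt_of_not_ge fun h4 => hg (h0 s hs g h4), h⟩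
      · exact absurd rfl hg
    · simp only [hb, conv, if_pos hv]
      rw [h2 s u hs hu]
      refine tsum_congr fun g => ?_
      rcases le_or_gt (ι g) 0 with h4 | h4
      · simp [h0 s hs g h4]
      rcases le_or_gt (ι (v - g)) 0 with h5 | h5
      · simp [h0 u hu _ h5]
      rw [if_pos (by rw [map_sub] at h5; linarith), if_pos (by rw [map_sub]; linarith)]
    · have h4 := (h3 s hs).const_mul (Real.exp (T ^ 2))
      rw [mul_zero] at h4
      refine squeeze_zero' (Eventually.of_forall fun _ => N_nonneg _) ?_ h4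
      filter_upwards [lt_mem_nhds hs] with u hu
      rw [← tsum_mul_left]
      have h5 : Summable fun g => ‖a u g - a s g‖ * Real.exp (-(ι g) ^ 2) :=
        Summable.of_nonneg_of_le (fun _ => by positivity) (fun g => by
          rw [← add_mul]; gcongr; exact norm_sub_le _ _) ((h1 u hu).add (h1 s hs))
      refine ((hsm u hu).sub (hsm s hs)).tsum_le_tsum (fun g => ?_) (h5.mul_left _)
      have := hw (fun g => a u g - a s g) (fun g hg => by simp [h0 u hu g hg, h0 s hs g hg]) g
      refine le_trans (le_of_eq ?_) this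
      simp only [hb]
      split_ifs <;> simp
  have := hTS.zero hι ht g1
  simpa [hb, hT] using this

end weighted

section lift
variable {J : Type*}

noncomputable abbrev L1 (J : Type*) := lp (fun _ : J => ℂ) 1

lemma l1_summ (x : L1 J) : Summable fun i => ‖x i‖ := by simpa using x.2.summable

lemma l1_norm (x : L1 J) : ‖x‖ = ∑' i, ‖x i‖ := by simp [lp.norm_eq_tsum_rpow]

variable {V : Type*} [NormedAddCommGroup V] [NormedSpace ℂ V] [CompleteSpace V]

omit [CompleteSpace V] in
lemma lift_le (v : J → V) (hv : ∀ i, ‖v i‖ ≤ 1) (x : L1 J) (i : J) : ‖x i • v i‖ ≤ ‖x i‖ := by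
  rw [norm_smul]; exact mul_le_of_le_one_right (norm_nonneg _) (hv i)

lemma lift_summ (v : J → V) (hv : ∀ i, ‖v i‖ ≤ 1) (x : L1 J) : Summable fun i => x i • v i :=
  .of_norm_bounded (l1_summ x) (lift_le v hv x)

noncomputable def lift (v : J → V) (hv : ∀ i, ‖v i‖ ≤ 1) : L1 J →L[ℂ] V :=
  LinearMap.mkContinuous
    { toFun := fun x => ∑' i, x i • v i
      map_add' := fun x y => by
        rw [← Summable.tsum_add (lift_summ v hv x) (lift_summ v hv y)]
        exact tsum_congr fun i => by simp [add_smul]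
      map_smul' := fun c x => by
        rw [RingHom.id_apply, ← Summable.tsum_const_smul c (lift_summ v hv x)]
        exact tsum_congr fun i => by simp [mul_smul] } 1
    (fun x => by
      rw [one_mul, l1_norm]
      exact tsum_of_norm_bounded (l1_summ x).hasSum (lift_le v hv x))

lemma lift_hasSum (v : J → V) (hv : ∀ i, ‖v i‖ ≤ 1) (x : L1 J) :
    HasSum (fun i => x i • v i) (lift v hv x) := (lift_summ v hv x).hasSum

lemma lift_norm (v : J → V) (hv : ∀ i, ‖v i‖ ≤ 1) : ‖lift v hv‖ ≤ 1 :=
  LinearMap.mkContinuous_norm_le _ zero_le_one _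

open Classical in
noncomputable def dl (i : J) : L1 J := lp.single 1 i 1

lemma dl_norm (i : J) : ‖dl i‖ = 1 := by
  classical
  unfold dl; rw [lp.norm_single (by norm_num)]; simp

lemma dl_self (i : J) : dl i i = 1 := by
  classical
  unfold dl; convert lp.single_apply_self (E := fun _ : J => ℂ) 1 i 1

lemma dl_ne {i j : J} (h : j ≠ i) : dl i j = 0 := by
  classical
  unfold dl; convert lp.single_apply_ne (E := fun _ : J => ℂ) 1 i 1 h

lemma lift_dl (v : J → V) (hv : ∀ i, ‖v i‖ ≤ 1) (i : J) : lift v hv (dl i) = v i := by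
  rw [← (lift_hasSum v hv _).tsum_eq, tsum_eq_single i fun j hj => by simp [dl_ne hj]]
  simp [dl_self]

lemma hasSum_dl (x : L1 J) : HasSum (fun i => x i • dl i) x := by
  classical
  convert lp.hasSum_single (by norm_num) x with i
  unfold dl
  rw [← lp.single_smul]; simp

omit [CompleteSpace V] in
lemma ext_dl {f g : L1 J →L[ℂ] V} (h : ∀ i, f (dl i) = g (dl i)) : f = g := by
  ext1 x
  have h1 := f.hasSum (hasSum_dl x)
  have h2 := g.hasSum (hasSum_dl x)
  simp only [map_smul, h] at h1 h2
  exact h1.unique h2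

end lift

variable {G : Type} [AddCommGroup G] (ι : G →+ ℝ)

abbrev Pos := {g : G // 0 < ι g}

variable {ι}

def padd (p q : Pos ι) : Pos ι := ⟨p.1 + q.1, by rw [map_add]; exact add_pos p.2 q.2⟩

noncomputable def cf (p q : Pos ι) : ℂ := (Real.exp (-(2 * ι p.1 * ι q.1)) : ℝ)

lemma cf_norm (p q : Pos ι) : ‖cf p q‖ ≤ 1 := by
  rw [cf, norm_real, Real.norm_eq_abs, abs_of_pos (Real.exp_pos _), Real.exp_le_one_iff]
  have := p.2; have := q.2
  have : 0 ≤ 2 * ι p.1 * ι q.1 := by positivity
  linarith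

noncomputable def sh (p : Pos ι) : L1 (Pos ι) →L[ℂ] L1 (Pos ι) :=
  lift (fun q => cf p q • dl (padd p q)) fun q => by
    rw [norm_smul, dl_norm, mul_one]; exact cf_norm p q

noncomputable def mulL : L1 (Pos ι) →L[ℂ] L1 (Pos ι) →L[ℂ] L1 (Pos ι) :=
  lift sh fun _ => lift_norm _ _

lemma mulL_dl (p q : Pos ι) : mulL (dl p) (dl q) = cf p q • dl (padd p q) := by
  unfold mulL sh; rw [lift_dl, lift_dl]

lemma mulL_comm (x y : L1 (Pos ι)) : mulL x y = mulL y x := by
  have : (mulL (ι := ι)) = mulL.flip := by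
    refine ext_dl fun p => ext_dl fun q => ?_
    rw [ContinuousLinearMap.flip_apply, mulL_dl, mulL_dl]
    congr 1
    · unfold cf; congr 3; ring
    · congr 1; exact Subtype.ext (add_comm _ _)
  conv_lhs => rw [this]
  rfl

lemma mulL_assoc (x y z : L1 (Pos ι)) : mulL (mulL x y) z = mulL x (mulL y z) := by
  have h1 : ∀ p q r : Pos ι, mulL (mulL (dl p) (dl q)) (dl r) = mulL (dl p) (mulL (dl q) (dl r)) := by
    intro p q r
    simp only [mulL_dl, map_smul, smul_apply, smul_smul]
    congr 1
    · unfold cf padd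
      rw [← ofReal_mul, ← ofReal_mul, ← Real.exp_add, ← Real.exp_add]
      congr 2
      simp only [map_add]; ring
    · congr 1; exact Subtype.ext (add_assoc _ _ _)
  have h2 : ∀ (p q : Pos ι) z, mulL (mulL (dl p) (dl q)) z = mulL (dl p) (mulL (dl q) z) := by
    intro p q z
    exact DFunLike.congr_fun (ext_dl (f := mulL (mulL (dl p) (dl q)))
      (g := (mulL (dl p)).comp (mulL (dl q))) (h1 p q)) z
  have h3 : ∀ (p : Pos ι) y z, mulL (mulL (dl p) y) z = mulL (dl p) (mulL y z) := by
    intro p y z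
    exact DFunLike.congr_fun (ext_dl (f := (mulL.flip z).comp (mulL (dl p)))
      (g := (mulL (dl p)).comp (mulL.flip z)) (fun q => h2 p q z)) y
  exact DFunLike.congr_fun (ext_dl (f := (mulL.flip z).comp (mulL.flip y))
      (g := mulL.flip (mulL y z)) (fun p => h3 p y z)) x

lemma mulL_norm (x y : L1 (Pos ι)) : ‖mulL x y‖ ≤ ‖x‖ * ‖y‖ := by
  refine (mulL.le_opNorm₂ x y).trans ?_
  have : ‖mulL (ι := ι)‖ ≤ 1 := lift_norm _ _
  rw [mul_assoc]
  exact mul_le_of_le_one_left (by positivity) this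

open Classical in
/-- The coefficients of an element as a formal series. -/
noncomputable def coef (x : L1 (Pos ι)) (g : G) : ℂ :=
  if h : 0 < ι g then x ⟨g, h⟩ * (Real.exp ((ι g) ^ 2) : ℝ) else 0

lemma coef_mul (x y : L1 (Pos ι)) (v : G) :
    coef (mulL x y) v = ∑' g, coef x g * coef y (v - g) := by
  classical
  by_cases hv : 0 < ι v
  swap
  · have : ∀ g, coef x g * coef y (v - g) = 0 := fun g => by
      unfold coef
      split_ifs with h1 h2
      · rw [map_sub] at h2; exact absurd (by linarith) hv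
      · simp
      · simp
      · simp
    simp only [this, tsum_zero]
    simp [coef, hv]
  set ev := lp.evalCLM ℂ (fun _ : Pos ι => ℂ) 1 ⟨v, hv⟩ with hev
  have hev' : ∀ z : L1 (Pos ι), ev z = z ⟨v, hv⟩ := fun _ => rfl
  have h1 : HasSum (fun p => x p * (sh p y) ⟨v, hv⟩) ((mulL x y) ⟨v, hv⟩) := by
    have := (ev.comp (ContinuousLinearMap.apply ℂ (L1 (Pos ι)) y)).hasSum
      (lift_hasSum (sh (ι := ι)) (fun _ => lift_norm _ _) x)
    simp only [ContinuousLinearMap.comp_apply, ContinuousLinearMap.apply_apply, smul_apply,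
      map_smul, smul_eq_mul] at this
    exact this
  have h2 : ∀ p : Pos ι, x p * (sh p y) ⟨v, hv⟩ * (Real.exp ((ι v) ^ 2) : ℝ)
      = coef x p.1 * coef y (v - p.1) := by
    intro p
    have h3 := ev.hasSum (lift_hasSum (fun q => cf p q • dl (padd p q)) (fun q => by
      rw [norm_smul, dl_norm, mul_one]; exact cf_norm p q) y)
    simp only [map_smul, smul_eq_mul] at h3
    simp only [hev'] at h3
    change HasSum _ ((sh p y) ⟨v, hv⟩) at h3
    rw [← h3.tsum_eq]
    unfold coef
    rw [dif_pos p.2]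
    split_ifs with h4
    · rw [tsum_eq_single ⟨v - p.1, h4⟩ fun q hq => by
        rw [dl_ne fun h5 => hq (Subtype.ext (by
          have := congrArg Subtype.val h5
          simp only [padd] at this
          simp [this]))]
        simp]
      have h5 : padd p ⟨v - p.1, h4⟩ = ⟨v, hv⟩ := Subtype.ext (by simp [padd])
      rw [h5, dl_self]
      have h6 : cf p ⟨v - p.1, h4⟩ * (Real.exp ((ι v) ^ 2) : ℝ) =
          (Real.exp ((ι p.1) ^ 2) : ℝ) * (Real.exp ((ι (v - p.1)) ^ 2) : ℝ) := by
        unfold cf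
        rw [← ofReal_mul, ← ofReal_mul, ← Real.exp_add, ← Real.exp_add]
        congr 2
        simp only [map_sub]; ring
      linear_combination (x p * y ⟨v - p.1, h4⟩) * h6
    · have : ∀ q : Pos ι, dl (padd p q) ⟨v, hv⟩ = 0 := fun q => dl_ne fun h5 => h4 (by
        have := congrArg Subtype.val h5
        simp only [padd] at this
        rw [this, add_sub_cancel_left]; exact q.2)
      simp [this]
  have h7 := h1.mul_right ((Real.exp ((ι v) ^ 2) : ℝ) : ℂ)
  simp only [h2] at h7
  rw [← Subtype.val_injective.tsum_eq (f := fun g => coef x g * coef y (v - g))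
    (g := (Subtype.val : Pos ι → G)) (fun g hg => by
      by_contra h8
      have : ¬ 0 < ι g := fun h9 => h8 ⟨⟨g, h9⟩, rfl⟩
      simp [coef, this] at hg), h7.tsum_eq]
  simp [coef, hv]

lemma coef_hasSum (x : L1 (Pos ι)) :
    HasSum (fun g => ‖coef x g‖ * Real.exp (-(ι g) ^ 2)) ‖x‖ := by
  rw [← Subtype.val_injective.hasSum_iff (g := (Subtype.val : Pos ι → G)) (fun g hg => by
      have : ¬ 0 < ι g := fun h9 => hg ⟨⟨g, h9⟩, rfl⟩
      simp [coef, this]), l1_norm]
  convert (l1_summ x).hasSum with p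
  simp only [Function.comp, coef, dif_pos p.2, norm_mul, norm_real, Real.norm_eq_abs,
    abs_of_pos (Real.exp_pos _)]
  rw [mul_assoc, ← Real.exp_add]; simp

lemma coef_sub (x y : L1 (Pos ι)) (g : G) : coef (x - y) g = coef x g - coef y g := by
  unfold coef; split_ifs <;> simp [sub_mul]

theorem L1_zero (hι : Function.Injective ι) (b : ℝ → L1 (Pos ι))
    (h1 : ∀ s t : ℝ, 0 < s → 0 < t → b (s + t) = mulL (b s) (b t))
    (h2 : ContinuousOn b (Ioi 0)) {t : ℝ} (ht : 0 < t) : b t = 0 := by
  have := weighted_zero hι (fun s => coef (b s)) (fun s _ g hg => by simp [coef, not_lt.2 hg])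
    (fun s _ => (coef_hasSum (b s)).summable)
    (fun s u hs hu v => by simp only [h1 s u hs hu, coef_mul])
    (fun s hs => by
      simp only [← coef_sub, (coef_hasSum _).tsum_eq]
      exact tendsto_iff_norm_sub_tendsto_zero.1 (h2.continuousAt (Ioi_mem_nhds hs))) ht
  ext p
  have h3 := this p.1
  simp only [coef, dif_pos p.2, mul_eq_zero, ofReal_eq_zero, Real.exp_ne_zero, or_false] at h3
  simpa using h3

end Pool.Agent.H96.SG
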