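import Pool.Agent.H96.SG5

open Set Metric Complex Filter Topology

namespace Pool.Agent.H96.SG

lemma radical_of_chars {R : Type*} [NonUnitalNormedCommRing R] [NormedSpace ℂ R]
    [IsScalarTower ℂ R R] [SMulCommClass ℂ R R] [CompleteSpace R]
    (h : ∀ φ : R →L[ℂ] ℂ, (∀ x y, φ (x * y) = φ x * φ y) → φ = 0) (x : R) :
    spectrum ℂ (Unitization.inr x : Unitization ℂ R) ⊆ {0} := by
  let : NormedCommRing (WithLp 1 (Unitization ℂ R)) :=
    { WithLp.instUnitizationNormedRing with
      mul_comm := fun a b => (WithLp.unitizationAlgEquiv (𝕜 := ℂ) (A := R) ℂ).injective (by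
        rw [map_mul, map_mul, mul_comm]) }
  intro z hz
  let e := (WithLp.unitizationAlgEquiv (𝕜 := ℂ) (A := R) ℂ).symm
  rw [← AlgEquiv.spectrum_eq e] at hz
  obtain ⟨f, hf⟩ := WeakDual.CharacterSpace.mem_spectrum_iff_exists.1 hz
  let φ : R →L[ℂ] ℂ :=
    { toFun := fun y => f (e (Unitization.inr y))
      map_add' := fun a b => by simp
      map_smul' := fun c a => by rw [Unitization.inr_smul, map_smul, map_smul]; rfl
      cont := (map_continuous f).comp WithLp.unitization_isometry_inr.continuous }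
  have h1 := h φ fun a b => by
    change f (e (Unitization.inr (a * b))) = f (e (Unitization.inr a)) * f (e (Unitization.inr b))
    rw [Unitization.inr_mul, map_mul, map_mul]
  have h2 : φ x = 0 := by rw [h1]; rfl
  exact hf.symm.trans h2

variable {G : Type} [AddCommGroup G] (ι : G →+ ℝ)

/-- The weighted convolution algebra on the positive cone, in normalised coordinates. -/
def Alg : Type := L1 (Pos ι)

noncomputable instance : NormedAddCommGroup (Alg ι) :=
  inferInstanceAs (NormedAddCommGroup (L1 (Pos ι)))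

noncomputable instance : NormedSpace ℂ (Alg ι) := inferInstanceAs (NormedSpace ℂ (L1 (Pos ι)))

instance : CompleteSpace (Alg ι) := inferInstanceAs (CompleteSpace (L1 (Pos ι)))

noncomputable def mulA : Alg ι →L[ℂ] Alg ι →L[ℂ] Alg ι := mulL

noncomputable instance : NonUnitalNormedCommRing (Alg ι) :=
  { (inferInstance : NormedAddCommGroup (Alg ι)) with
    mul := fun x y => mulA ι x y
    left_distrib := fun x y z => map_add (mulA ι x) y z
    right_distrib := fun x y z => by
      change mulA ι (x + y) z = mulA ι x z + mulA ι y z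
      rw [map_add]; rfl
    zero_mul := fun x => by
      change mulA ι 0 x = 0
      rw [map_zero]; rfl
    mul_zero := fun x => map_zero (mulA ι x)
    mul_assoc := mulL_assoc
    mul_comm := mulL_comm
    norm_mul_le := mulL_norm }

instance : IsScalarTower ℂ (Alg ι) (Alg ι) := ⟨fun c x y => by
  change mulA ι (c • x) y = c • mulA ι x y
  rw [map_smul]; rfl⟩

instance : SMulCommClass ℂ (Alg ι) (Alg ι) := ⟨fun c x y => by
  change c • mulA ι x y = mulA ι x (c • y)
  rw [map_smul]⟩

variable {ι}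

noncomputable def da (p : Pos ι) : Alg ι := dl p

lemma da_mul (p q : Pos ι) : da p * da q = cf p q • da (padd p q) := mulL_dl p q

lemma da_norm (p : Pos ι) : ‖da p‖ = 1 := dl_norm p

lemma cf_ne (p q : Pos ι) : cf p q ≠ 0 := by
  unfold cf; exact_mod_cast Real.exp_ne_zero _

theorem Alg.radical (x : Alg ι) :
    spectrum ℂ (Unitization.inr x : Unitization ℂ (Alg ι)) ⊆ {0} := by
  refine radical_of_chars (fun φ hφ => ?_) x
  have key : ∀ p, φ (da p) = 0 := by
    intro p
    by_contra hne
    have hp := p.2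
    have h1 : ∀ n : ℕ, ∃ (q : Pos ι) (c : ℝ), ι q.1 = (n + 1) * ι p.1 ∧
        c = Real.exp (-((n + 1) * n * ι p.1 ^ 2)) ∧ φ (da p) ^ (n + 1) = c * φ (da q) := by
      intro n
      induction n with
      | zero => exact ⟨p, 1, by simp, by simp, by simp⟩
      | succ n ih =>
        obtain ⟨q, c, hq, hc, h⟩ := ih
        refine ⟨padd q p, _, by simp only [padd, map_add, hq]; push_cast; ring, rfl, ?_⟩
        rw [pow_succ, h, mul_assoc, ← hφ, da_mul, map_smul, smul_eq_mul, ← mul_assoc, hc, cf,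
          ← ofReal_mul, ← Real.exp_add, hq]
        congr 3
        push_cast; ring
    have hb : ∀ q : Pos ι, ‖φ (da q)‖ ≤ 1 := by
      intro q
      by_contra h2
      push Not at h2
      have h3 : ∀ n : ℕ, ∃ y : Alg ι, ‖y‖ ≤ 1 ∧ φ (da q) ^ (n + 1) = φ y := by
        intro n
        induction n with
        | zero => exact ⟨da q, (da_norm q).le, by simp⟩
        | succ n ih =>
          obtain ⟨y, hy, h⟩ := ih
          refine ⟨y * da q, (norm_mul_le _ _).trans (by rw [da_norm]; simpa using hy), ?_⟩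
          rw [pow_succ, h, hφ]
      obtain ⟨n, hn⟩ := pow_unbounded_of_one_lt ‖φ‖ h2
      obtain ⟨y, hy, h⟩ := h3 n
      have h4 := φ.le_opNorm y
      rw [← h, norm_pow, pow_succ] at h4
      nlinarith [norm_nonneg φ]
    have h5 : Tendsto (fun n : ℕ => Real.exp (-(n * ι p.1 ^ 2))) atTop (𝓝 0) :=
      Real.tendsto_exp_neg_atTop_nhds_zero.comp
        (tendsto_natCast_atTop_atTop.atTop_mul_const (by positivity))
    obtain ⟨n, hn⟩ := (h5.eventually (gt_mem_nhds (norm_pos_iff.2 hne))).exists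
    obtain ⟨q, c, -, hc, h⟩ := h1 n
    have h6 := congrArg norm h
    rw [norm_pow, norm_mul, norm_real, Real.norm_eq_abs, hc, abs_of_pos (Real.exp_pos _)] at h6
    have h7 : Real.exp (-((n + 1) * n * ι p.1 ^ 2)) = Real.exp (-(n * ι p.1 ^ 2)) ^ (n + 1) := by
      rw [← Real.exp_nat_mul]; congr 1; push_cast; ring
    have h8 := pow_lt_pow_left₀ hn (Real.exp_pos _).le (n := n + 1) (by omega)
    rw [h6, ← h7] at h8
    nlinarith [hb q, Real.exp_pos (-((n + 1) * n * ι p.1 ^ 2))]
  exact ext_dl (J := Pos ι) (f := φ) (g := 0) key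

theorem Alg.no_semigroup (hι : Function.Injective ι) (b : ℝ → Alg ι)
    (h1 : ∀ s t : ℝ, 0 < s → 0 < t → b (s + t) = b s * b t)
    (h2 : ContinuousOn b (Ioi 0)) {t : ℝ} (ht : 0 < t) : b t = 0 :=
  L1_zero hι b h1 h2 ht

lemma da_div {p q : Pos ι} (h : ι q.1 < ι p.1) : ∃ y : Alg ι, da q * y = da p ∧
    ‖y‖ ≤ Real.exp (ι p.1 ^ 2) := by
  let r : Pos ι := ⟨p.1 - q.1, by rw [map_sub]; linarith⟩
  have h1 : padd q r = p := Subtype.ext (by simp [padd, r])
  refine ⟨(cf q r)⁻¹ • da r, ?_, ?_⟩
  · rw [mul_smul_comm, da_mul, smul_smul, inv_mul_cancel₀ (cf_ne _ _), one_smul, h1]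
  · rw [norm_smul, da_norm, mul_one, norm_inv, cf, norm_real, Real.norm_eq_abs,
      abs_of_pos (Real.exp_pos _), ← Real.exp_neg, Real.exp_le_exp]
    simp only [r, map_sub]
    nlinarith [sq_nonneg (ι p.1 - ι q.1), sq_nonneg (ι q.1)]

lemma hasSum_da (x : Alg ι) : ∃ c : Pos ι → ℂ, HasSum (fun p => c p • da p) x :=
  ⟨_, hasSum_dl (J := Pos ι) x⟩

theorem Alg.dense_mul (hs : ∀ ε : ℝ, 0 < ε → ∃ q : Pos ι, ι q.1 < ε) :
    ∃ b : Alg ι, DenseRange fun y => b * y := by
  classical
  let D : ℕ → Set (Alg ι) := fun n => ⋃ (p : Pos ι) (_ : ι p.1 < 1 / ((n : ℝ) + 1)) (y : Alg ι),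
    {b | ‖b * y - da p‖ < 1 / ((n : ℝ) + 1)}
  have hopen : ∀ n, IsOpen (D n) := fun n =>
    isOpen_iUnion fun p => isOpen_iUnion fun _ => isOpen_iUnion fun y =>
      isOpen_lt (by fun_prop) continuous_const
  have hdense : ∀ n, Dense (D n) := by
    intro n
    have hn : (0 : ℝ) < 1 / ((n : ℝ) + 1) := by positivity
    have h1 : ∀ (q : Pos ι), 2 * ι q.1 < 1 / ((n : ℝ) + 1) → ∀ (x : Alg ι) (l : ℂ), l ≠ 0 →
        da q * x + l • da q ∈ D n := by
      intro q hq x l hl
      have hu : l ∉ spectrum ℂ (Unitization.inr (-x) : Unitization ℂ (Alg ι)) := fun h =>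
        hl (Alg.radical _ h)
      rw [spectrum.notMem_iff] at hu
      obtain ⟨w, hw⟩ := hu.exists_right_inv
      have h2 : (da q * x + l • da q) * (w * Unitization.inr (da q)).snd = da q * da q := by
        apply Unitization.inr_injective (R := ℂ)
        have h3 : (Unitization.inr (w * Unitization.inr (da q)).snd : Unitization ℂ (Alg ι))
            = w * Unitization.inr (da q) := by
          ext <;> simp
        rw [Unitization.inr_mul, h3, Unitization.inr_add, Unitization.inr_mul, Unitization.inr_mul,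
          Unitization.inr_smul,
          show l • (Unitization.inr (da q) : Unitization ℂ (Alg ι))
            = algebraMap ℂ _ l * Unitization.inr (da q) by
              rw [Unitization.algebraMap_eq_inl, Unitization.inl_mul_inr, Unitization.inr_smul]]
        rw [Unitization.inr_neg] at hw
        linear_combination (Unitization.inr (da q) * Unitization.inr (da q) :
          Unitization ℂ (Alg ι)) * hw
      simp only [D, mem_iUnion, mem_ofPred_eq]
      refine ⟨padd q q, by simp only [padd, map_add]; linarith,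
        (cf q q)⁻¹ • (w * Unitization.inr (da q)).snd, ?_⟩
      rw [mul_smul_comm, h2, da_mul, smul_smul, inv_mul_cancel₀ (cf_ne _ _), one_smul]
      simpa using hn
    have h2 : ∀ (q : Pos ι), 2 * ι q.1 < 1 / ((n : ℝ) + 1) → ∀ (x : Alg ι),
        da q * x ∈ closure (D n) := by
      intro q hq x
      have h3 : Tendsto (fun l : ℂ => da q * x + l • da q) (𝓝[≠] 0)
          (𝓝 (da q * x + (0 : ℂ) • da q)) :=
        (Continuous.tendsto (by fun_prop) 0).mono_left nhdsWithin_le_nhds
      rw [zero_smul, add_zero] at h3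
      exact mem_closure_of_tendsto h3 (by
        filter_upwards [self_mem_nhdsWithin] with l hl using h1 q hq x l hl)
    intro x
    obtain ⟨c, hc⟩ := hasSum_da x
    refine isClosed_closure.mem_of_tendsto hc (Eventually.of_forall fun s => ?_)
    obtain ⟨q, hq, hq'⟩ : ∃ q : Pos ι, 2 * ι q.1 < 1 / ((n : ℝ) + 1) ∧ ∀ p ∈ s, ι q.1 < ι p.1 := by
      have h4 : ∀ᶠ ε in 𝓝[>] (0 : ℝ), 2 * ε < 1 / ((n : ℝ) + 1) ∧ ∀ p ∈ s, ε < ι p.1 := by
        refine nhdsWithin_le_nhds (Eventually.and ?_ ?_)
        · exact (Continuous.tendsto (f := fun ε : ℝ => 2 * ε) (by fun_prop) 0).eventually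
            (gt_mem_nhds (by simpa using hn))
        · exact (eventually_all_finset s).2 fun p _ => gt_mem_nhds p.2
      obtain ⟨ε, ⟨h5, h6⟩, h7⟩ := (h4.and self_mem_nhdsWithin).exists
      obtain ⟨q, hq⟩ := hs ε h7
      exact ⟨q, by linarith, fun p hp => hq.trans (h6 p hp)⟩
    choose! y hy using fun p (hp : p ∈ s) => da_div (hq' p hp)
    have h8 : ∑ p ∈ s, c p • da p = da q * ∑ p ∈ s, c p • y p := by
      rw [Finset.mul_sum]
      exact Finset.sum_congr rfl fun p hp => by rw [mul_smul_comm, (hy p hp).1]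
    rw [h8]
    exact h2 q hq _
  obtain ⟨b, hb⟩ := (dense_iInter_of_isOpen hopen hdense).nonempty
  refine ⟨b, fun x => ?_⟩
  let K : Submodule ℂ (Alg ι) := (LinearMap.range (mulA ι b).toLinearMap).topologicalClosure
  have hK : ∀ p, da p ∈ K := by
    intro p
    change da p ∈ closure _
    rw [Metric.mem_closure_iff]
    intro ε hε
    have h1 : Tendsto (fun n : ℕ => 1 / ((n : ℝ) + 1)) atTop (𝓝 0) :=
      tendsto_one_div_add_atTop_nhds_zero_nat
    obtain ⟨n, hn1, hn2⟩ := ((h1.eventually (gt_mem_nhds p.2)).and (h1.eventually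
      (gt_mem_nhds (a := ε / Real.exp (ι p.1 ^ 2)) (by positivity)))).exists
    have h2 := mem_iInter.1 hb n
    simp only [D, mem_iUnion, mem_ofPred_eq] at h2
    obtain ⟨q, hq, y, hy⟩ := h2
    obtain ⟨z, hz, hz'⟩ := da_div (hq.trans hn1)
    refine ⟨b * (y * z), ⟨y * z, rfl⟩, ?_⟩
    rw [dist_comm, dist_eq_norm, ← hz, ← mul_assoc, ← sub_mul]
    rw [lt_div_iff₀ (Real.exp_pos _)] at hn2
    calc _ ≤ ‖b * y - da q‖ * ‖z‖ := norm_mul_le _ _
      _ ≤ 1 / ((n : ℝ) + 1) * Real.exp (ι p.1 ^ 2) := by gcongr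
      _ < ε := hn2
  obtain ⟨c, hc⟩ := hasSum_da x
  have : x ∈ K := (Submodule.isClosed_topologicalClosure _).mem_of_tendsto hc
    (Eventually.of_forall fun s => K.sum_mem fun p _ => K.smul_mem _ (hK p))
  exact this

theorem Alg.descent (hs : ∀ ε : ℝ, 0 < ε → ∃ q : Pos ι, ι q.1 < ε) :
    ∃ b : Alg ι, ¬ IsNilpotent (Unitization.inr b : Unitization ℂ (Alg ι)) ∧
      b ∈ closure (range fun y => b * b * y) := by
  obtain ⟨b, hb⟩ := Alg.dense_mul hs
  have hc : Continuous fun y : Alg ι => b * y := by fun_prop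
  refine ⟨b, ?_, ?_⟩
  · rintro ⟨n, hn⟩
    have h1 : ∀ k : ℕ, DenseRange (fun y : Alg ι => b * y)^[k] := by
      intro k
      induction k with
      | zero => exact denseRange_id
      | succ k ih => rw [Function.iterate_succ']; exact hb.comp ih hc
    have h2 : ∀ (k : ℕ) (x : Alg ι), (Unitization.inr ((fun y : Alg ι => b * y)^[k] x) :
        Unitization ℂ (Alg ι)) = Unitization.inr b ^ k * Unitization.inr x := by
      intro k
      induction k with
      | zero => simp
      | succ k ih =>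
        intro x
        rw [Function.iterate_succ_apply', Unitization.inr_mul, ih, pow_succ']; ring
    obtain ⟨q, -⟩ := hs 1 one_pos
    have h3 : range (fun y : Alg ι => b * y)^[n] ⊆ {0} := by
      rintro _ ⟨x, rfl⟩
      apply Unitization.inr_injective (R := ℂ)
      rw [h2, hn]; simp
    have h4 := closure_mono h3 (h1 n (da q))
    rw [closure_singleton, mem_singleton_iff] at h4
    have := da_norm q
    rw [h4, norm_zero] at this
    exact zero_ne_one this
  · have := (hb.comp hb hc) b
    simpa only [Function.comp_def, mul_assoc] using this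

end Pool.Agent.H96.SG
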