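import Mathlib

open Complex Finset Real

namespace Pool.Agent.H96.SP

noncomputable def ex (y : ℝ) : ℂ := Complex.exp (-(2 * π * y : ℝ) * I)

lemma ex_add (a b : ℝ) : ex (a + b) = ex a * ex b := by
  unfold ex
  rw [← Complex.exp_add]
  congr 1
  push_cast
  ring

lemma ex_zero : ex 0 = 1 := by simp [ex]

lemma norm_ex (a : ℝ) : ‖ex a‖ = 1 := by
  unfold ex
  rw [← Complex.ofReal_neg, Complex.norm_exp_ofReal_mul_I]

lemma conj_ex (a : ℝ) : (starRingEnd ℂ) (ex a) = ex (-a) := by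
  unfold ex
  rw [← Complex.exp_conj]
  congr 1
  simp only [map_mul, map_neg, Complex.conj_ofReal, Complex.conj_I]
  push_cast
  ring

lemma ex_int (n : ℤ) : ex n = 1 := by
  unfold ex
  rw [Complex.exp_eq_one_iff]
  exact ⟨-n, by push_cast; ring⟩

lemma ex_eq_one {a : ℝ} (h : ex a = 1) : ∃ n : ℤ, a = n := by
  unfold ex at h
  rw [Complex.exp_eq_one_iff] at h
  obtain ⟨n, hn⟩ := h
  refine ⟨-n, ?_⟩
  have h2 : (-(2 * π * a : ℝ) : ℂ) = ((n * (2 * π) : ℝ) : ℂ) := by
    have : (-(2 * π * a : ℝ) : ℂ) * I = ((n * (2 * π) : ℝ) : ℂ) * I := by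
      rw [hn]; push_cast; ring
    exact mul_right_cancel₀ I_ne_zero this
  rw [← Complex.ofReal_neg, Complex.ofReal_inj] at h2
  have hp : (2 * π) ≠ 0 := by positivity
  push_cast
  have : (2 * π) * a = (2 * π) * (-n) := by linarith
  exact mul_left_cancel₀ hp this

lemma ex_nat_mul (a : ℝ) (d : ℕ) : ex (d * a) = ex a ^ d := by
  induction d with
  | zero => simp [ex_zero]
  | succ d ih => push_cast; rw [add_mul, ex_add, ih, one_mul, pow_succ]

lemma norm_ex_sub_one (a : ℝ) : ‖ex a - 1‖ ≤ 2 * π * |a| := by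
  unfold ex
  have := Real.norm_exp_I_mul_ofReal_sub_one_le (x := -(2 * π * a))
  rw [mul_comm] at this
  simp only [Complex.ofReal_neg] at this
  refine this.trans (le_of_eq ?_)
  rw [Real.norm_eq_abs, abs_neg, abs_mul, abs_of_pos (by positivity)]

lemma continuous_ex : Continuous ex := by unfold ex; fun_prop

noncomputable def D (p : ℕ) (x : ℝ) : ℂ := (∑ d ∈ range p, ex (d * (x / p))) / p

lemma sum_ex_eq (p : ℕ) (hp : 0 < p) (j : ℤ) :
    ∑ d ∈ range p, ex (d * ((j : ℝ) / p)) = if (p : ℤ) ∣ j then (p : ℂ) else 0 := by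
  have hp' : (p : ℝ) ≠ 0 := by positivity
  split_ifs with h
  · obtain ⟨m, rfl⟩ := h
    have : ∀ d ∈ range p, ex (d * ((((p : ℤ) * m : ℤ) : ℝ) / p)) = 1 := by
      intro d _
      have : (d : ℝ) * ((((p : ℤ) * m : ℤ) : ℝ) / p) = ((d * m : ℤ) : ℝ) := by
        push_cast; field_simp
      rw [this, ex_int]
    rw [Finset.sum_congr rfl this]; simp
  · simp_rw [ex_nat_mul]
    have hw : ex ((j : ℝ) / p) ≠ 1 := by
      intro h1
      obtain ⟨n, hn⟩ := ex_eq_one h1
      apply h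
      refine ⟨n, ?_⟩
      have : (j : ℝ) = p * n := by field_simp at hn; linarith
      exact_mod_cast this
    rw [geom_sum_eq hw, ← ex_nat_mul]
    have : (p : ℝ) * ((j : ℝ) / p) = j := by field_simp
    rw [this, ex_int]; simp

lemma D_int (p : ℕ) (hp : 0 < p) (j : ℤ) (h : ¬ (p : ℤ) ∣ j) : D p j = 0 := by
  unfold D
  rw [sum_ex_eq p hp j, if_neg h, zero_div]

lemma D_add (p : ℕ) (hp : 0 < p) (x : ℝ) (j : ℤ) : D p (x + p * j) = D p x := by
  unfold D
  congr 1
  refine Finset.sum_congr rfl fun d _ => ?_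
  have hp' : (p : ℝ) ≠ 0 := by positivity
  have : (d : ℝ) * ((x + p * j) / p) = d * (x / p) + ((d * j : ℤ) : ℝ) := by
    push_cast; field_simp
  rw [this, ex_add, ex_int, mul_one]

lemma D_eq_zero (p : ℕ) (hp : 0 < p) (x : ℝ) (h : D p x = 0) :
    ∃ j : ℤ, x = j ∧ ¬ (p : ℤ) ∣ j := by
  have hp' : (p : ℝ) ≠ 0 := by positivity
  have hpc : (p : ℂ) ≠ 0 := by exact_mod_cast hp.ne'
  unfold D at h
  rw [div_eq_zero_iff, or_iff_left hpc] at h
  have h' := h
  simp_rw [ex_nat_mul] at h'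
  have hw : ex (x / p) ≠ 1 := by
    intro h1
    rw [h1] at h'
    simp at h'
    omega
  rw [geom_sum_eq hw, div_eq_zero_iff, or_iff_left (sub_ne_zero.2 hw), ← ex_nat_mul,
    sub_eq_zero] at h'
  have : (p : ℝ) * (x / p) = x := by field_simp
  rw [this] at h'
  obtain ⟨n, hn⟩ := ex_eq_one h'
  refine ⟨n, hn, fun hd => ?_⟩
  rw [hn, sum_ex_eq p hp n, if_pos hd] at h
  exact hpc h

lemma norm_D_sub_one (p : ℕ) (hp : 0 < p) (x : ℝ) : ‖D p x - 1‖ ≤ 2 * π * |x| := by
  have hp' : (0 : ℝ) < p := by positivity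
  have hpc : (p : ℂ) ≠ 0 := by exact_mod_cast hp.ne'
  have : D p x - 1 = (∑ d ∈ range p, (ex (d * (x / p)) - 1)) / p := by
    unfold D
    rw [Finset.sum_sub_distrib]
    simp only [Finset.sum_const, Finset.card_range, nsmul_eq_mul, mul_one]
    rw [sub_div, div_self hpc]
  rw [this, norm_div, Complex.norm_natCast, div_le_iff₀ hp']
  calc _ ≤ ∑ d ∈ range p, ‖ex (d * (x / p)) - 1‖ := norm_sum_le _ _
    _ ≤ ∑ d ∈ range p, 2 * π * |x| := by
      refine Finset.sum_le_sum fun d hd => (norm_ex_sub_one _).trans ?_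
      have hd' : (d : ℝ) ≤ p := by exact_mod_cast (Finset.mem_range.1 hd).le
      have : |(d : ℝ) * (x / p)| ≤ |x| := by
        rw [abs_mul, abs_div, Nat.abs_cast, Nat.abs_cast, mul_div_assoc', div_le_iff₀ hp']
        nlinarith [abs_nonneg x]
      gcongr
    _ = _ := by simp [mul_comm]

lemma sum_D_sq (p : ℕ) (hp : 0 < p) (x : ℝ) : ∑ c ∈ range p, ‖D p (x + c)‖ ^ 2 = 1 := by
  have hp' : (p : ℝ) ≠ 0 := by positivity
  have hpc : (p : ℂ) ≠ 0 := by exact_mod_cast hp.ne'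
  have key : ∀ c : ℕ, ((‖D p (x + c)‖ ^ 2 : ℝ) : ℂ) =
      (∑ d ∈ range p, ∑ d' ∈ range p,
        ex ((d - d') * (x / p)) * ex (c * ((((d : ℤ) - d' : ℤ) : ℝ) / p))) / p ^ 2 := by
    intro c
    rw [← Complex.normSq_eq_norm_sq, Complex.normSq_eq_conj_mul_self, mul_comm]
    unfold D
    rw [map_div₀, map_sum, Complex.conj_natCast, div_mul_div_comm, Finset.sum_mul_sum, sq]
    congr 1
    refine Finset.sum_congr rfl fun d _ => Finset.sum_congr rfl fun d' _ => ?_
    rw [conj_ex, ← ex_add, ← ex_add]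
    congr 1
    push_cast
    field_simp
    ring
  have : ((∑ c ∈ range p, ‖D p (x + c)‖ ^ 2 : ℝ) : ℂ) = 1 := by
    rw [Complex.ofReal_sum, Finset.sum_congr rfl fun c _ => key c, ← Finset.sum_div,
      Finset.sum_comm]
    have : ∀ d ∈ range p, ∑ c ∈ range p, ∑ d' ∈ range p,
        ex ((d - d') * (x / p)) * ex (c * ((((d : ℤ) - d' : ℤ) : ℝ) / p)) = p := by
      intro d hd
      rw [Finset.sum_comm]
      simp_rw [← Finset.mul_sum, sum_ex_eq p hp]
      rw [Finset.sum_eq_single d]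
      · simp [ex_zero]
      · intro d' hd' hne
        rw [if_neg, mul_zero]
        intro hdv
        have h1 := Finset.mem_range.1 hd
        have h2 := Finset.mem_range.1 hd'
        have := Int.eq_zero_of_dvd_of_natAbs_lt_natAbs hdv (by omega)
        omega
      · intro h; exact absurd hd h
    rw [Finset.sum_congr rfl this]
    simp only [Finset.sum_const, Finset.card_range, nsmul_eq_mul]
    field_simp
  exact_mod_cast this

end Pool.Agent.H96.SP
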