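import Mathlib
import Pool.Agent.H96.SP1

open Complex Finset Real

namespace Pool.Agent.H96.SP

def B : ℕ → ℕ
  | 0 => 1
  | n + 1 => B n * (n + 2) ^ 2

lemma B_pos (n : ℕ) : 0 < B n := by
  induction n with
  | zero => simp [B]
  | succ n ih => simp only [B]; positivity

lemma B_dvd {j k : ℕ} (h : j ≤ k) : B j ∣ B k := by
  induction k, h using Nat.le_induction with
  | base => exact dvd_rfl
  | succ k _ ih => exact ih.trans (Dvd.intro _ rfl)

lemma B_dvd' {j k : ℕ} (h : j < k) : B j * (j + 2) ^ 2 ∣ B k := B_dvd (j := j + 1) h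

noncomputable def m (k : ℕ) (x : ℝ) : ℂ := D (k + 2) (x / B k)

lemma m_add {k n : ℕ} (h : k < n) (x : ℝ) (j : ℤ) : m k (x + B n * j) = m k x := by
  obtain ⟨r, hr⟩ := B_dvd' h
  have hB : (B k : ℝ) ≠ 0 := by exact_mod_cast (B_pos k).ne'
  unfold m
  rw [← D_add (k + 2) (by omega) (x / B k) ((k + 2) * r * j)]
  congr 1
  rw [hr]
  push_cast
  field_simp

def L : ℕ → Finset ℕ
  | 0 => {0}
  | n + 1 => (L n ×ˢ range (n + 2)).image fun q => q.1 + B n * q.2

lemma L_lt' (n : ℕ) (ih : ∀ a ∈ L n, a < B n) : ∀ a ∈ L (n + 1), a < B n * (n + 2) := by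
  intro a ha
  simp only [L, Finset.mem_image, Finset.mem_product, Finset.mem_range] at ha
  obtain ⟨⟨b, c⟩, ⟨hb, hc⟩, rfl⟩ := ha
  have h1 := ih b hb
  have h2 : B n * (c + 1) ≤ B n * (n + 2) := Nat.mul_le_mul_left _ hc
  simp only
  nlinarith

lemma L_lt (n : ℕ) : ∀ a ∈ L n, a < B n := by
  induction n with
  | zero => simp [L, B]
  | succ n ih =>
    intro a ha
    refine (L_lt' n ih a ha).trans_le ?_
    simp only [B]
    exact Nat.mul_le_mul_left _ (by nlinarith)

lemma L_mem {n a c : ℕ} (ha : a ∈ L n) (hc : c < n + 2) : a + B n * c ∈ L (n + 1) := by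
  simp only [L, Finset.mem_image, Finset.mem_product, Finset.mem_range]
  exact ⟨(a, c), ⟨ha, hc⟩, rfl⟩

lemma L_mono {n k : ℕ} (h : n ≤ k) : L n ⊆ L k := by
  induction k, h using Nat.le_induction with
  | base => exact subset_rfl
  | succ k _ ih =>
    intro a ha
    simpa using L_mem (ih ha) (c := 0) (by omega)

lemma zero_mem (n : ℕ) : 0 ∈ L n := L_mono (Nat.zero_le n) (by simp [L])

lemma B_mem (n : ℕ) : B n ∈ L (n + 1) := by
  simpa using L_mem (zero_mem n) (c := 1) (by omega)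

lemma L_inj (n : ℕ) : Set.InjOn (fun q : ℕ × ℕ => q.1 + B n * q.2) ↑(L n ×ˢ range (n + 2)) := by
  rintro ⟨a, c⟩ h1 ⟨a', c'⟩ h2 h
  simp only [Finset.coe_product, Set.mem_prod, Finset.mem_coe] at h1 h2
  have ha := L_lt n a h1.1
  have ha' := L_lt n a' h2.1
  simp only at h
  have e1 : (a + B n * c) % B n = a := by rw [Nat.add_mul_mod_self_left, Nat.mod_eq_of_lt ha]
  have e2 : (a' + B n * c') % B n = a' := by rw [Nat.add_mul_mod_self_left, Nat.mod_eq_of_lt ha']
  have haa : a = a' := by rw [← e1, ← e2, h]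
  subst haa
  have : c = c' := Nat.eq_of_mul_eq_mul_left (B_pos n) (by omega)
  rw [this]

lemma L_orth (n : ℕ) : ∀ a ∈ L n, ∀ b ∈ L n, a ≠ b → ∃ k, k < n ∧ m k ((a : ℝ) - b) = 0 := by
  induction n with
  | zero => simp [L]
  | succ n ih =>
    intro x hx y hy hxy
    simp only [L, Finset.mem_image, Finset.mem_product, Finset.mem_range] at hx hy
    obtain ⟨⟨a, c⟩, ⟨ha, hc⟩, rfl⟩ := hx
    obtain ⟨⟨b, d⟩, ⟨hb, hd⟩, rfl⟩ := hy
    simp only at ha hb hc hd hxy ⊢
    by_cases hab : a = b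
    · subst hab
      refine ⟨n, by omega, ?_⟩
      have hcd : c ≠ d := by rintro rfl; exact hxy rfl
      have hB : (B n : ℝ) ≠ 0 := by exact_mod_cast (B_pos n).ne'
      unfold m
      have : (((a + B n * c : ℕ) : ℝ) - (a + B n * d : ℕ)) / B n = (((c : ℤ) - d : ℤ) : ℝ) := by
        push_cast; field_simp; ring
      rw [this]
      refine D_int _ (by omega) _ fun hdv => ?_
      have := Int.eq_zero_of_dvd_of_natAbs_lt_natAbs hdv (by omega)
      omega
    · obtain ⟨k, hk, h0⟩ := ih a ha b hb hab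
      refine ⟨k, by omega, ?_⟩
      rw [← m_add hk _ ((c : ℤ) - d)] at h0
      rw [← h0]
      congr 1
      push_cast
      ring

noncomputable def P (n : ℕ) (x : ℝ) : ℂ := ∏ k ∈ range n, m k x

lemma L_parseval (n : ℕ) (x : ℝ) : ∑ a ∈ L n, ‖P n (x + a)‖ ^ 2 = 1 := by
  induction n with
  | zero => simp [L, P]
  | succ n ih =>
    simp only [L]
    rw [Finset.sum_image (L_inj n), Finset.sum_product, ← ih]
    refine Finset.sum_congr rfl fun a ha => ?_
    have hB : (B n : ℝ) ≠ 0 := by exact_mod_cast (B_pos n).ne'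
    have : ∀ c ∈ range (n + 2), ‖P (n + 1) (x + ((a + B n * c : ℕ) : ℝ))‖ ^ 2 =
        ‖P n (x + a)‖ ^ 2 * ‖D (n + 2) ((x + a) / B n + c)‖ ^ 2 := by
      intro c _
      unfold P
      rw [Finset.prod_range_succ, norm_mul, mul_pow]
      congr 3
      · refine Finset.prod_congr rfl fun k hk => ?_
        rw [← m_add (Finset.mem_range.1 hk) (x + a) (c : ℤ)]
        congr 1
        push_cast
        ring
      · unfold m
        congr 1
        push_cast
        field_simp
        ring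
    rw [Finset.sum_congr rfl this, ← Finset.mul_sum, sum_D_sq _ (by omega), mul_one]

lemma P_lower (n N : ℕ) (h : n ≤ N) (x : ℝ) :
    ‖P n x‖ * (1 - 2 * π * |x| * (2 / B n - 2 / B N)) ≤ ‖P N x‖ := by
  induction N, h using Nat.le_induction with
  | base => simp
  | succ N _ ih =>
    have hB : (0 : ℝ) < B N := by exact_mod_cast B_pos N
    have h1 : 1 - 2 * π * |x| / B N ≤ ‖m N x‖ := by
      have := norm_D_sub_one (N + 2) (by omega) (x / B N)
      have h2 := norm_sub_norm_le (1 : ℂ) (m N x)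
      rw [norm_sub_rev, norm_one] at h2
      unfold m at h2 ⊢
      rw [abs_div, abs_of_pos hB, ← mul_div_assoc] at this
      linarith
    have h3 : (2 : ℝ) / B (N + 1) ≤ 1 / B N := by
      simp only [B]
      push_cast
      rw [div_le_div_iff₀ (by positivity) hB]
      have : (0 : ℝ) ≤ N := by positivity
      nlinarith [mul_nonneg hB.le this, mul_nonneg hB.le (mul_nonneg this this)]
    have hP : ‖P (N + 1) x‖ = ‖P N x‖ * ‖m N x‖ := by
      unfold P; rw [Finset.prod_range_succ, norm_mul]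
    rw [hP]
    set c := 2 * π * |x| with hc
    have hc0 : 0 ≤ c := by positivity
    set S := 1 - c * (2 / B n - 2 / B N) with hS
    have hS1 : S ≤ 1 := by
      have : (2 : ℝ) / B N ≤ 2 / B n := by
        have : (B n : ℝ) ≤ B N := by exact_mod_cast Nat.le_of_dvd (B_pos N) (B_dvd ‹_›)
        have h0 : (0 : ℝ) < B n := by exact_mod_cast B_pos n
        gcongr
      have : 0 ≤ c * (2 / B n - 2 / B N) := mul_nonneg hc0 (by linarith)
      linarith
    have h4 : 1 - c * (2 / B n - 2 / B (N + 1)) ≤ S - c / B N := by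
      have e : (2 : ℝ) / B N = 2 * (1 / B N) := by ring
      have e2 : c / B N = c * (1 / B N) := by ring
      rw [hS, e, e2]
      nlinarith [mul_le_mul_of_nonneg_left h3 hc0]
    have ha : 0 ≤ c / B N := by positivity
    have hp0 := norm_nonneg (P n x)
    have hm0 := norm_nonneg (m N x)
    by_cases hs : S - c / B N ≤ 0
    · exact (mul_nonpos_of_nonneg_of_nonpos hp0 (h4.trans hs)).trans (by positivity)
    · push Not at hs
      calc _ ≤ ‖P n x‖ * (S - c / B N) := by gcongr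
        _ ≤ ‖P n x‖ * (S * (1 - c / B N)) := by
          gcongr
          nlinarith
        _ ≤ ‖P n x‖ * (S * ‖m N x‖) := by
          gcongr
          linarith
        _ = ‖P n x‖ * S * ‖m N x‖ := by ring
        _ ≤ _ := by gcongr

lemma m_zero_scale {t : ℝ} (ht : ∀ k, ∃ j, m j (t * B k) = 0) : t = 1 ∨ t = -1 := by
  obtain ⟨j, hj⟩ := ht 0
  obtain ⟨i, hi, hnd⟩ := D_eq_zero _ (by omega) _ hj
  have hBj : (B j : ℝ) ≠ 0 := by exact_mod_cast (B_pos j).ne'
  obtain ⟨s, hs⟩ : ∃ s : ℤ, t = s := by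
    refine ⟨i * B j, ?_⟩
    simp only [B, Nat.cast_one, mul_one] at hi
    field_simp at hi
    rw [hi]; push_cast; ring
  have hs0 : s ≠ 0 := by
    rintro rfl
    apply hnd
    rw [hs] at hi
    have : (i : ℝ) = 0 := by rw [← hi]; simp
    have : i = 0 := by exact_mod_cast this
    rw [this]; exact dvd_zero _
  by_contra hne
  push Not at hne
  have h1 : s ≠ 1 := by rintro rfl; exact hne.1 (by rw [hs]; simp)
  have h2 : s ≠ -1 := by rintro rfl; exact hne.2 (by rw [hs]; simp)
  obtain ⟨k, hk⟩ : ∃ k : ℕ, s.natAbs = k + 2 := ⟨s.natAbs - 2, by omega⟩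
  clear hj hi hnd hBj
  obtain ⟨j, hj⟩ := ht k
  obtain ⟨i, hi, hnd⟩ := D_eq_zero _ (by omega) _ hj
  have hBj : (B j : ℝ) ≠ 0 := by exact_mod_cast (B_pos j).ne'
  have hz : s * B k = i * B j := by
    rw [hs] at hi
    field_simp at hi
    have : (s : ℝ) * B k = i * B j := by rw [hi]; ring
    exact_mod_cast this
  have hBj' : (0 : ℤ) < B j := by exact_mod_cast B_pos j
  have hBk' : (0 : ℤ) < B k := by exact_mod_cast B_pos k
  apply hnd
  rcases lt_trichotomy j k with h | h | h
  · obtain ⟨r, hr⟩ := B_dvd' h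
    rw [hr] at hz
    push_cast at hz ⊢
    refine ⟨s * (j + 2) * r, ?_⟩
    apply mul_right_cancel₀ hBj'.ne'
    rw [← hz]; ring
  · subst h
    have : s = i := mul_right_cancel₀ hBj'.ne' hz
    rw [← this, ← hk]
    exact Int.natAbs_dvd.2 dvd_rfl
  · obtain ⟨r, hr⟩ := B_dvd' h
    rw [hr] at hz
    push_cast at hz
    have h3 : s = i * (k + 2) ^ 2 * r := by
      apply mul_right_cancel₀ hBk'.ne'
      rw [hz]; ring
    exfalso
    have h4 : ((k : ℤ) + 2) ^ 2 ∣ s := ⟨i * r, by rw [h3]; ring⟩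
    have h5 := Int.natAbs_dvd_natAbs.2 h4
    rw [hk] at h5
    have h6 := Nat.le_of_dvd (by omega) h5
    have h7 : (((k : ℤ) + 2) ^ 2).natAbs = (k + 2) ^ 2 := by
      rw [Int.natAbs_pow]; congr 1
    rw [h7] at h6
    nlinarith

end Pool.Agent.H96.SP
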