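import Mathlib
import Pool.Agent.H96.SP2

open Complex Finset Real MeasureTheory Filter Topology

namespace Pool.Agent.H96.SP

abbrev Om := (k : ℕ) → Fin (k + 2)

noncomputable def nu (k : ℕ) : Measure (Fin (k + 2)) := (PMF.uniformOfFintype (Fin (k + 2))).toMeasure

instance (k : ℕ) : IsProbabilityMeasure (nu k) := by unfold nu; infer_instance

noncomputable def PP : Measure Om := Measure.infinitePi nu

instance : IsProbabilityMeasure PP := by unfold PP; infer_instance

noncomputable def u (k : ℕ) (d : Fin (k + 2)) : ℝ := (d : ℝ) / ((k + 2) * B k)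

lemma u_nonneg (k : ℕ) (d : Fin (k + 2)) : 0 ≤ u k d := by unfold u; positivity

lemma u_le (k : ℕ) (d : Fin (k + 2)) : u k d ≤ 1 / B k := by
  have hB : (0 : ℝ) < B k := by exact_mod_cast B_pos k
  unfold u
  rw [div_le_div_iff₀ (by positivity) hB]
  have : (d : ℝ) ≤ k + 2 := by exact_mod_cast d.2.le
  nlinarith

lemma B_step (N : ℕ) : (2 : ℝ) / B (N + 1) ≤ 1 / B N := by
  have hB : (0 : ℝ) < B N := by exact_mod_cast B_pos N
  simp only [B]
  push_cast
  rw [div_le_div_iff₀ (by positivity) hB]
  have : (0 : ℝ) ≤ N := by positivity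
  nlinarith [mul_nonneg hB.le this, mul_nonneg hB.le (mul_nonneg this this)]

lemma B_inv_le (k : ℕ) : (1 : ℝ) / B k ≤ (1 / 2) ^ k := by
  induction k with
  | zero => simp [B]
  | succ k ih =>
    have := B_step k
    have e : (2 : ℝ) / B (k + 1) = 2 * (1 / B (k + 1)) := by ring
    rw [pow_succ]
    linarith

lemma B_inv_tendsto : Tendsto (fun k => (2 : ℝ) / B k) atTop (𝓝 0) := by
  have h := (tendsto_pow_atTop_nhds_zero_of_lt_one (r := (1 / 2 : ℝ)) (by norm_num)
    (by norm_num)).const_mul 2
  rw [mul_zero] at h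
  refine squeeze_zero (fun k => by positivity) (fun k => ?_) h
  have := B_inv_le k
  have e : (2 : ℝ) / B k = 2 * (1 / B k) := by ring
  linarith

lemma u_norm (k : ℕ) (d : Fin (k + 2)) : ‖u k d‖ ≤ (1 / 2) ^ k := by
  rw [Real.norm_eq_abs, abs_of_nonneg (u_nonneg k d)]
  exact (u_le k d).trans (B_inv_le k)

lemma u_summable (w : Om) : Summable fun k => u k (w k) :=
  Summable.of_norm_bounded summable_geometric_two fun k => u_norm k (w k)

noncomputable def X (w : Om) : ℝ := ∑' k, u k (w k)

noncomputable def XN (n : ℕ) (w : Om) : ℝ := ∑ k ∈ range n, u k (w k)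

lemma continuous_u (k : ℕ) : Continuous fun w : Om => u k (w k) :=
  (continuous_of_discreteTopology (f := u k)).comp (continuous_apply k)

lemma continuous_X : Continuous X :=
  continuous_tsum continuous_u summable_geometric_two fun k w => u_norm k (w k)

lemma continuous_XN (n : ℕ) : Continuous (XN n) :=
  continuous_finsetSum _ fun k _ => continuous_u k

lemma XN_tendsto (w : Om) : Tendsto (fun n => XN n w) atTop (𝓝 (X w)) :=
  (u_summable w).hasSum.tendsto_sum_nat

lemma XN_bd (w : Om) (n N : ℕ) (h : n ≤ N) :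
    XN n w ≤ XN N w ∧ XN N w ≤ XN n w + (2 / B n - 2 / B N) := by
  induction N, h using Nat.le_induction with
  | base => simp
  | succ N _ ih =>
    have h1 : XN (N + 1) w = XN N w + u N (w N) := by unfold XN; rw [Finset.sum_range_succ]
    have := u_nonneg N (w N)
    have := u_le N (w N)
    have := B_step N
    have e : (2 : ℝ) / B N = 2 * (1 / B N) := by ring
    constructor <;> linarith [ih.1, ih.2]

lemma X_mem (w : Om) (n : ℕ) : X w ∈ Set.Icc (XN n w) (XN n w + 2 / B n) := by
  refine isClosed_Icc.mem_of_tendsto (XN_tendsto w) ?_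
  filter_upwards [eventually_ge_atTop n] with N hN
  have := XN_bd w n N hN
  have : (0 : ℝ) ≤ 2 / B N := by positivity
  constructor <;> linarith [(XN_bd w n N hN).1, (XN_bd w n N hN).2]

noncomputable def mu : Measure ℝ := PP.map X

instance : IsProbabilityMeasure mu := by
  unfold mu
  exact Measure.isProbabilityMeasure_map continuous_X.measurable.aemeasurable

noncomputable def F (x : ℝ) : ℂ := ∫ y, ex (x * y) ∂mu

lemma int_nu (k : ℕ) (x : ℝ) : ∫ d, ex (x * u k d) ∂(nu k) = m k x := by
  unfold nu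
  rw [PMF.integral_eq_sum]
  simp only [PMF.uniformOfFintype_apply, Fintype.card_fin]
  unfold m D
  rw [← Fin.sum_univ_eq_sum_range (fun d => ex (d * (x / B k / (k + 2 : ℕ)))), Finset.sum_div]
  refine Finset.sum_congr rfl fun d _ => ?_
  have hB : (B k : ℝ) ≠ 0 := by exact_mod_cast (B_pos k).ne'
  rw [ENNReal.toReal_inv, ENNReal.toReal_natCast, Complex.real_smul]
  have : x * u k d = d * (x / B k / (k + 2 : ℕ)) := by
    unfold u; push_cast; field_simp
  rw [this]
  push_cast
  ring

lemma ex_sum (s : Finset ℕ) (f : ℕ → ℝ) : ex (∑ k ∈ s, f k) = ∏ k ∈ s, ex (f k) := by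
  induction s using Finset.induction_on with
  | empty => simp [ex_zero]
  | insert a s ha ih => rw [Finset.sum_insert ha, Finset.prod_insert ha, ex_add, ih]

lemma int_XN (n : ℕ) (x : ℝ) : ∫ w, ex (x * XN n w) ∂PP = P n x := by
  have h1 : ∀ w : Om, ex (x * XN n w) =
      (fun y : (i : (range n : Finset ℕ)) → Fin (i + 2) => ∏ i : (range n : Finset ℕ), ex (x * u i (y i)))
        ((range n).restrict w) := by
    intro w
    unfold XN
    rw [Finset.mul_sum, ex_sum]
    simp only [Finset.restrict]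
    rw [Finset.prod_coe_sort (range n) (fun k => ex (x * u k (w k)))]
  simp_rw [h1]
  unfold PP
  rw [integral_restrict_infinitePi (μ := nu)
    (f := fun y : (i : (range n : Finset ℕ)) → Fin (i + 2) => ∏ i : (range n : Finset ℕ), ex (x * u i (y i)))
    (measurable_of_countable _).aestronglyMeasurable,
    integral_fintype_prod_eq_prod (fun (i : (range n : Finset ℕ)) (d : Fin (i + 2)) => ex (x * u i d))]
  simp_rw [int_nu]
  unfold P
  rw [Finset.prod_coe_sort (range n) (fun k => m k x)]

lemma P_tendsto (x : ℝ) : Tendsto (fun n => P n x) atTop (𝓝 (F x)) := by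
  unfold F mu
  rw [integral_map (f := fun y => ex (x * y)) continuous_X.measurable.aemeasurable
    (continuous_ex.comp (continuous_const.mul continuous_id)).aestronglyMeasurable]
  simp_rw [← int_XN]
  refine tendsto_integral_of_dominated_convergence (fun _ => 1) (fun n => ?_) (integrable_const _)
    (fun n => ae_of_all _ fun w => (norm_ex _).le) (ae_of_all _ fun w => ?_)
  · exact (continuous_ex.comp (continuous_const.mul (continuous_XN n))).aestronglyMeasurable
  · exact (continuous_ex.tendsto _).comp ((XN_tendsto w).const_mul x)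

lemma F_zero {k : ℕ} {x : ℝ} (h : m k x = 0) : F x = 0 := by
  refine tendsto_nhds_unique (P_tendsto x) (tendsto_const_nhds.congr' ?_)
  filter_upwards [eventually_gt_atTop k] with n hn
  exact (Finset.prod_eq_zero (Finset.mem_range.2 hn) h).symm

lemma F_lower (n : ℕ) (x : ℝ) : ‖P n x‖ * (1 - 2 * π * |x| * (2 / B n)) ≤ ‖F x‖ := by
  have h1 : Tendsto (fun N => ‖P n x‖ * (1 - 2 * π * |x| * (2 / B n - 2 / B N))) atTop
      (𝓝 (‖P n x‖ * (1 - 2 * π * |x| * (2 / B n - 0)))) :=
    ((((B_inv_tendsto.const_sub _).const_mul _).const_sub _).const_mul _)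
  rw [sub_zero] at h1
  refine le_of_tendsto_of_tendsto h1 (P_tendsto x).norm ?_
  filter_upwards [eventually_ge_atTop n] with N hN using P_lower n N hN x

lemma F_eq_zero {x : ℝ} (h : F x = 0) : ∃ k, m k x = 0 := by
  have h1 : Tendsto (fun n => 1 - 2 * π * |x| * (2 / B n)) atTop (𝓝 (1 - 2 * π * |x| * 0)) :=
    (B_inv_tendsto.const_mul _).const_sub _
  obtain ⟨n, hn⟩ := (h1.eventually (lt_mem_nhds (show (0 : ℝ) < 1 - 2 * π * |x| * 0 by simp))).exists
  have h2 := F_lower n x
  rw [h, norm_zero] at h2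
  have h3 : ‖P n x‖ ≤ 0 := by
    by_contra h4
    push Not at h4
    nlinarith [mul_pos h4 hn]
  have h4 : P n x = 0 := norm_le_zero_iff.1 h3
  obtain ⟨k, _, hk⟩ := Finset.prod_eq_zero_iff.1 h4
  exact ⟨k, hk⟩

lemma F_parseval (x : ℝ) {c : ℝ} (hc : c < 1) : ∃ n, c ≤ ∑ a ∈ L n, ‖F (x + a)‖ ^ 2 := by
  set r : ℕ → ℝ := fun n => 1 - 2 * π * (|x| * (2 / B (n + 1)) + 2 / ((n : ℝ) + 2)) with hr
  have h0 : Tendsto (fun n : ℕ => 2 / ((n : ℝ) + 2)) atTop (𝓝 0) :=
    tendsto_const_nhds.div_atTop (tendsto_natCast_atTop_atTop.atTop_add tendsto_const_nhds)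
  have h1 : Tendsto r atTop (𝓝 (1 - 2 * π * (|x| * 0 + 0))) :=
    (((((B_inv_tendsto.comp (tendsto_add_atTop_nat 1)).const_mul _).add h0).const_mul _).const_sub _)
  simp only [mul_zero, add_zero, sub_zero] at h1
  have h2 := h1.pow 2
  rw [one_pow] at h2
  obtain ⟨n, hn1, hn2⟩ := ((h1.eventually (lt_mem_nhds (show (0 : ℝ) < 1 by simp))).and
    (h2.eventually (lt_mem_nhds hc))).exists
  refine ⟨n + 1, hn2.le.trans ?_⟩
  calc r n ^ 2 = ∑ a ∈ L (n + 1), (‖P (n + 1) (x + a)‖ * r n) ^ 2 := by
        simp_rw [mul_pow]; rw [← Finset.sum_mul, L_parseval, one_mul]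
    _ ≤ _ := by
      refine Finset.sum_le_sum fun a ha => ?_
      have hB : (0 : ℝ) < B n := by exact_mod_cast B_pos n
      have hB1 : (0 : ℝ) < B (n + 1) := by exact_mod_cast B_pos (n + 1)
      have ha1 : (a : ℝ) ≤ B n * (n + 2) := by exact_mod_cast (L_lt' n (L_lt n) a ha).le
      have ha2 : (a : ℝ) * (2 / B (n + 1)) ≤ 2 / ((n : ℝ) + 2) := by
        calc (a : ℝ) * (2 / B (n + 1)) ≤ B n * (n + 2) * (2 / B (n + 1)) := by gcongr
          _ = _ := by simp only [B]; push_cast; field_simp
      have h3 : |x + a| * (2 / B (n + 1)) ≤ |x| * (2 / B (n + 1)) + 2 / ((n : ℝ) + 2) := by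
        calc |x + a| * (2 / B (n + 1)) ≤ (|x| + a) * (2 / B (n + 1)) := by
              gcongr
              exact (abs_add_le _ _).trans (by rw [Nat.abs_cast])
          _ ≤ _ := by rw [add_mul]; linarith
      have h4 : r n ≤ 1 - 2 * π * |x + a| * (2 / B (n + 1)) := by
        simp only [hr]
        have := mul_le_mul_of_nonneg_left h3 (show 0 ≤ 2 * π by positivity)
        linarith
      gcongr
      exact (mul_le_mul_of_nonneg_left h4 (norm_nonneg _)).trans (F_lower _ _)

noncomputable def S : ℕ → Finset ℝ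
  | 0 => {0}
  | n + 1 => (S n ×ˢ (univ : Finset (Fin (n + 2)))).image fun q => q.1 + u n q.2

lemma XN_mem (n : ℕ) (w : Om) : XN n w ∈ S n := by
  induction n with
  | zero => simp [XN, S]
  | succ n ih =>
    simp only [S, Finset.mem_image, Finset.mem_product, Finset.mem_univ, and_true]
    exact ⟨(XN n w, w n), ih, by unfold XN; rw [Finset.sum_range_succ]⟩

lemma S_card (n : ℕ) : ((S n).card : ℝ) * (2 / B n) ≤ 2 * (1 / 2) ^ n := by
  induction n with
  | zero => simp [S, B]
  | succ n ih =>
    have h1 : (S (n + 1)).card ≤ (S n).card * (n + 2) := by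
      simp only [S]
      refine Finset.card_image_le.trans ?_
      simp
    have h2 : ((S (n + 1)).card : ℝ) ≤ (S n).card * (n + 2) := by exact_mod_cast h1
    have hB : (0 : ℝ) < B n := by exact_mod_cast B_pos n
    have hn : (0 : ℝ) ≤ n := by positivity
    calc _ ≤ ((S n).card * (n + 2) : ℝ) * (2 / B (n + 1)) := by gcongr
      _ = ((S n).card : ℝ) * (2 / B n) * (1 / (n + 2)) := by
        simp only [B]; push_cast; field_simp
      _ ≤ 2 * (1 / 2) ^ n * (1 / 2) := by
        gcongr
        linarith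
      _ = _ := by ring

lemma vol_range : volume (Set.range X) = 0 := by
  have h1 : ∀ n, volume (Set.range X) ≤ ENNReal.ofReal (2 * (1 / 2) ^ n) := by
    intro n
    have : Set.range X ⊆ ⋃ s ∈ S n, Set.Icc s (s + 2 / B n) := by
      rintro _ ⟨w, rfl⟩
      simp only [Set.mem_iUnion]
      exact ⟨_, XN_mem n w, X_mem w n⟩
    refine (measure_mono this).trans ((measure_biUnion_finset_le _ _).trans ?_)
    simp only [Real.volume_Icc, add_sub_cancel_left, Finset.sum_const, nsmul_eq_mul]
    rw [← ENNReal.ofReal_natCast, ← ENNReal.ofReal_mul (by positivity)]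
    exact ENNReal.ofReal_le_ofReal (S_card n)
  have h := ENNReal.tendsto_ofReal ((tendsto_pow_atTop_nhds_zero_of_lt_one (r := (1 / 2 : ℝ))
    (by norm_num) (by norm_num)).const_mul 2)
  simp only [mul_zero, ENNReal.ofReal_zero] at h
  exact le_antisymm (ge_of_tendsto' h h1) (by simp)

lemma compact_range : IsCompact (Set.range X) := isCompact_range continuous_X

lemma mu_compl : mu (Set.range X)ᶜ = 0 := by
  unfold mu
  rw [Measure.map_apply continuous_X.measurable compact_range.measurableSet.compl]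
  simp

end Pool.Agent.H96.SP
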