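import Mathlib

/-! A pair of interleaved Liouville type numbers. -/

namespace Pool.Agent.H96.SX

open Filter Topology

/-- weights -/
noncomputable def w (j : ℕ) : ℝ := (1 / 2) ^ (j + 1).factorial

theorem w_pos (j : ℕ) : 0 < w j := by unfold w; positivity

theorem fac_le (j k : ℕ) : (k + 1).factorial + j ≤ (j + k + 1).factorial := by
  induction j with
  | zero => simp
  | succ j ih =>
    have h : (j + k + 1).factorial < (j + k + 1 + 1).factorial :=
      (Nat.factorial_lt (by omega)).2 (by omega)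
    rw [show j + 1 + k + 1 = j + k + 1 + 1 by ring]
    omega

theorem w_le (j k : ℕ) : w (j + k) ≤ w k * (1 / 2) ^ j := by
  unfold w
  rw [← pow_add]
  exact pow_le_pow_of_le_one (by norm_num) (by norm_num) (fac_le j k)

/-- tails -/
noncomputable def tl (χ : ℕ → ℤ) (k : ℕ) : ℝ := ∑' j, (χ (j + k) : ℝ) * w (j + k)

theorem tl_bd (χ : ℕ → ℤ) (B : ℝ) (hB : ∀ j, |(χ j : ℝ)| ≤ B) (k j : ℕ) :
    ‖(χ (j + k) : ℝ) * w (j + k)‖ ≤ B * w k * (1 / 2) ^ j := by
  rw [Real.norm_eq_abs, abs_mul, abs_of_pos (w_pos _), mul_assoc]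
  exact mul_le_mul (hB _) (w_le j k) (w_pos _).le ((abs_nonneg _).trans (hB 0))

theorem tl_sum (χ : ℕ → ℤ) (B : ℝ) (hB : ∀ j, |(χ j : ℝ)| ≤ B) (k : ℕ) :
    Summable fun j => (χ (j + k) : ℝ) * w (j + k) :=
  Summable.of_norm_bounded (summable_geometric_two.mul_left (B * w k)) (tl_bd χ B hB k)

theorem tl_le (χ : ℕ → ℤ) (B : ℝ) (hB : ∀ j, |(χ j : ℝ)| ≤ B) (k : ℕ) :
    |tl χ k| ≤ B * w k * 2 :=
  tsum_of_norm_bounded (hasSum_geometric_two.mul_left (B * w k)) (tl_bd χ B hB k)

theorem tl_succ (χ : ℕ → ℤ) (B : ℝ) (hB : ∀ j, |(χ j : ℝ)| ≤ B) (k : ℕ) :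
    tl χ k = χ k * w k + tl χ (k + 1) := by
  unfold tl
  rw [(tl_sum χ B hB k).tsum_eq_zero_add]
  simp only [zero_add, add_assoc, add_comm 1 k]

theorem tl_split (χ : ℕ → ℤ) (B : ℝ) (hB : ∀ j, |(χ j : ℝ)| ≤ B) (k : ℕ) :
    ∃ z : ℤ, ((∀ j, 0 ≤ χ j) → 0 ≤ z) ∧
      2 ^ (k + 1).factorial * tl χ 0 = z + 2 ^ (k + 1).factorial * tl χ (k + 1) := by
  have hw : ∀ k, (2:ℝ) ^ (k + 1).factorial * w k = 1 := by
    intro k
    unfold w
    rw [← mul_pow]
    norm_num
  induction k with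
  | zero =>
    refine ⟨χ 0, fun h => h 0, ?_⟩
    rw [tl_succ χ B hB 0, mul_add, mul_left_comm, hw, mul_one]
  | succ k ih =>
    obtain ⟨z, hz, h⟩ := ih
    obtain ⟨d, hd⟩ := Nat.exists_eq_add_of_le
      (Nat.factorial_le (by omega) : (k + 1).factorial ≤ (k + 1 + 1).factorial)
    refine ⟨2 ^ d * z + χ (k + 1), fun h0 => add_nonneg (mul_nonneg (by positivity) (hz h0))
      (h0 _), ?_⟩
    have h1 := hw (k + 1)
    rw [tl_succ χ B hB (k + 1)] at h
    rw [hd, pow_add] at h1 ⊢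
    push_cast
    linear_combination 2 ^ d * h + χ (k + 1) * h1

/-- parity indicator -/
def par (e j : ℕ) : ℤ := if j % 2 = e then 1 else 0

theorem par_bd (e j : ℕ) : |(par e j : ℝ)| ≤ 1 := by
  unfold par
  split_ifs <;> simp

theorem par_nn (e j : ℕ) : 0 ≤ par e j := by
  unfold par
  split_ifs <;> simp

/-- the two numbers -/
noncomputable def sx (e : ℕ) : ℝ := tl (par e) 0

theorem tl_nn (e k : ℕ) : 0 ≤ tl (par e) k :=
  tsum_nonneg fun _ => mul_nonneg (by exact_mod_cast par_nn e _) (w_pos _).le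

theorem sx_mem (e : ℕ) : 0 ≤ sx e ∧ sx e ≤ 1 := by
  refine ⟨tl_nn e 0, ?_⟩
  have := (le_abs_self _).trans (tl_le _ 1 (par_bd e) 0)
  simpa [w, sx] using this

theorem indep (p q r : ℤ) (h : (p : ℝ) + q * sx 0 + r * sx 1 = 0) : p = 0 ∧ q = 0 ∧ r = 0 := by
  set χ : ℕ → ℤ := fun j => q * par 0 j + r * par 1 j with hχ
  set B : ℝ := |(q : ℝ)| + |(r : ℝ)| with hB'
  have hB : ∀ j, |(χ j : ℝ)| ≤ B := by
    intro j
    simp only [hχ]
    push_cast
    refine (abs_add_le _ _).trans (add_le_add ?_ ?_) <;> rw [abs_mul] <;>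
      exact mul_le_of_le_one_right (abs_nonneg _) (par_bd _ _)
  have h1 : tl χ 0 = q * sx 0 + r * sx 1 := by
    unfold sx tl
    rw [← tsum_mul_left, ← tsum_mul_left, ← ((tl_sum _ 1 (par_bd 0) 0).mul_left _).tsum_add
      ((tl_sum _ 1 (par_bd 1) 0).mul_left _)]
    refine tsum_congr fun j => ?_
    simp only [hχ]
    push_cast
    ring
  obtain ⟨k0, hk0⟩ := exists_pow_lt_of_lt_one (show 0 < 1 / (2 * B + 1) by positivity)
    (show (1 / 2 : ℝ) < 1 by norm_num)
  have hB0 : 0 ≤ B := by positivity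
  have h2 : ∀ k, k0 ≤ k → tl χ (k + 1) = 0 := by
    intro k hk
    obtain ⟨z, -, hz⟩ := tl_split χ B hB k
    have h3 : (2:ℝ) ^ (k + 1).factorial * w (k + 1) ≤ (1 / 2) ^ k0 := by
      have e : (k + 1).factorial + k0 ≤ (k + 1 + 1).factorial := by
        rw [Nat.factorial_succ (k + 1)]
        have := Nat.factorial_pos (k + 1)
        nlinarith
      calc _ ≤ (2:ℝ) ^ (k + 1).factorial * (1 / 2) ^ ((k + 1).factorial + k0) :=
            mul_le_mul_of_nonneg_left
              (pow_le_pow_of_le_one (by norm_num) (by norm_num) e) (by positivity)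
        _ = _ := by
            rw [pow_add, ← mul_assoc, ← mul_pow]
            norm_num
    have h4 : ((-(2 ^ (k + 1).factorial * p) - z : ℤ) : ℝ) =
        2 ^ (k + 1).factorial * tl χ (k + 1) := by
      push_cast
      rw [h1] at hz
      linear_combination hz - 2 ^ (k + 1).factorial * h
    have h5 : |((-(2 ^ (k + 1).factorial * p) - z : ℤ) : ℝ)| < 1 := by
      rw [h4, abs_mul, abs_of_pos (by positivity)]
      have h6 := mul_le_mul_of_nonneg_left (tl_le χ B hB (k + 1))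
        (by positivity : (0:ℝ) ≤ 2 ^ (k + 1).factorial)
      rw [lt_div_iff₀ (by positivity)] at hk0
      have h7 := mul_le_mul_of_nonneg_left h3 hB0
      have h8 : (0:ℝ) < (1 / 2) ^ k0 := by positivity
      nlinarith
    have h6 : (-(2 ^ (k + 1).factorial * p) - z : ℤ) = 0 :=
      Int.abs_lt_one_iff.1 (by exact_mod_cast h5)
    rw [h6] at h4
    simpa using h4.symm
  have h3 : ∀ k, k0 ≤ k → χ (k + 1) = 0 := by
    intro k hk
    have := tl_succ χ B hB (k + 1)
    rw [h2 k hk, h2 (k + 1) (by omega), add_zero] at this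
    simpa [(w_pos _).ne'] using this.symm
  have hq : q = 0 := by
    have := h3 (2 * k0 + 1) (by omega)
    simpa [hχ, par, show (2 * k0 + 1 + 1) % 2 = 0 by omega] using this
  have hr : r = 0 := by
    have := h3 (2 * k0) (by omega)
    simpa [hχ, par, show (2 * k0 + 1) % 2 = 1 by omega] using this
  rw [hq, hr] at h
  exact ⟨by simpa using h, hq, hr⟩

theorem approx (c : ℝ) (hc : 0 < c) : ∀ᶠ n : ℕ in atTop, ∃ P Q R : ℕ, P < 2 ^ n ∧ Q < 2 ^ n ∧
    R < 2 ^ n ∧ (Q ≠ 0 ∨ R ≠ 0) ∧ |(Q * sx 0 + R * sx 1 - P : ℝ)| < c ^ n := by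
  obtain ⟨C, hC⟩ := exists_pow_lt_of_lt_one hc (show (1 / 2 : ℝ) < 1 by norm_num)
  refine eventually_atTop.2 ⟨(C + 1).factorial + 1, fun n hn => ?_⟩
  have hex : ∃ k, n ≤ (k + 1 + 1).factorial := ⟨n, by
    have := Nat.self_le_factorial (n + 1 + 1)
    omega⟩
  classical
  set k := Nat.find hex with hk
  have h1 : n ≤ (k + 1 + 1).factorial := Nat.find_spec hex
  have hkC : C ≤ k := by
    by_contra h
    have : (k + 1 + 1).factorial ≤ (C + 1).factorial := Nat.factorial_le (by omega)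
    omega
  have h2 : (k + 1).factorial < n := by
    rcases Nat.eq_zero_or_pos k with h | h
    · have := Nat.factorial_pos (C + 1)
      rw [h]
      simp
      omega
    · have := Nat.find_min hex (show k - 1 < k by omega)
      rw [show k - 1 + 1 + 1 = k + 1 by omega] at this
      omega
  have h3 : 2 ^ (k + 1).factorial < 2 ^ n := Nat.pow_lt_pow_right (by norm_num) h2
  have key : ∃ P : ℕ, P < 2 ^ n ∧
      |((2 ^ (k + 1).factorial : ℕ) : ℝ) * sx (k % 2) - P| < c ^ n := by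
    obtain ⟨z, hz0, hz⟩ := tl_split _ 1 (par_bd (k % 2)) k
    obtain ⟨P, rfl⟩ := Int.eq_ofNat_of_zero_le (hz0 (par_nn _))
    have a1 := tl_succ _ 1 (par_bd (k % 2)) (k + 1)
    rw [show par (k % 2) (k + 1) = 0 from if_neg (by omega)] at a1
    have a2 := tl_le _ 1 (par_bd (k % 2)) (k + 1 + 1)
    have a3 := tl_nn (k % 2) (k + 1)
    have a4 := sx_mem (k % 2)
    have a0 : (0:ℝ) < 2 ^ (k + 1).factorial := by positivity
    refine ⟨P, lt_of_le_of_lt ?_ h3, ?_⟩
    · have : (P : ℝ) ≤ 2 ^ (k + 1).factorial := by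
        have := mul_le_mul_of_nonneg_left a4.2 a0.le
        have := mul_nonneg a0.le a3
        unfold sx at *
        push_cast at hz
        linarith
      exact_mod_cast this
    · have e : ((2 ^ (k + 1).factorial : ℕ) : ℝ) * sx (k % 2) - P =
          2 ^ (k + 1).factorial * tl (par (k % 2)) (k + 1 + 1) := by
        unfold sx
        push_cast at hz a1 ⊢
        rw [hz, a1]
        ring
      rw [e, abs_mul, abs_of_pos a0]
      have b1 : (k + 1).factorial + 1 + C * n ≤ (k + 1 + 1 + 1).factorial := by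
        rw [Nat.factorial_succ (k + 1 + 1)]
        have := Nat.mul_le_mul hkC h1
        nlinarith
      calc _ ≤ 2 ^ (k + 1).factorial * (1 * w (k + 1 + 1) * 2) :=
            mul_le_mul_of_nonneg_left a2 a0.le
        _ ≤ 2 ^ (k + 1).factorial * (1 * (1 / 2) ^ ((k + 1).factorial + 1 + C * n) * 2) := by
            gcongr
            exact pow_le_pow_of_le_one (by norm_num) (by norm_num) b1
        _ = ((1 / 2) ^ C) ^ n := by
            rw [pow_add, pow_add, ← pow_mul, one_div, inv_pow]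
            field_simp
        _ < c ^ n := pow_lt_pow_left₀ hC (by positivity) (by omega)
  obtain ⟨P, hP, hb⟩ := key
  rcases Nat.mod_two_eq_zero_or_one k with h | h <;> rw [h] at hb
  · exact ⟨P, _, 0, hP, h3, by positivity, Or.inl (by positivity), by simpa using hb⟩
  · exact ⟨P, 0, _, hP, by positivity, h3, Or.inr (by positivity), by simpa using hb⟩

end Pool.Agent.H96.SX
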