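import Pool.Agent.H96.SX1

/-! A free semigroup of polynomial matrices. -/

namespace Pool.Agent.H96.SX

open Polynomial

/-- digits -/
noncomputable def tt (i : Fin 9) : ℝ :=
  1 + (((i : ℕ) % 2 : ℕ) + ((i : ℕ) / 2 % 2 : ℕ) * sx 0 + ((i : ℕ) / 4 % 2 : ℕ) * sx 1) / 3

/-- marks the last letter -/
def ee (i : Fin 9) : ℝ := if i = 8 then 1 else 0

theorem tt_mem (i : Fin 9) : 1 ≤ tt i ∧ tt i ≤ 2 := by
  have h : ∀ k : ℕ, (0:ℝ) ≤ (k % 2 : ℕ) ∧ ((k % 2 : ℕ) : ℝ) ≤ 1 := fun k =>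
    ⟨Nat.cast_nonneg _, by exact_mod_cast (by omega : k % 2 ≤ 1)⟩
  have h0 := sx_mem 0
  have h1 := sx_mem 1
  have a := h i
  have b := h (i / 2)
  have c := h (i / 4)
  unfold tt
  constructor <;> nlinarith [mul_nonneg b.1 h0.1, mul_nonneg c.1 h1.1,
    mul_le_mul b.2 h0.2 h0.1 zero_le_one, mul_le_mul c.2 h1.2 h1.1 zero_le_one]

theorem ee_mem (i : Fin 9) : 0 ≤ ee i ∧ ee i ≤ 1 := by
  unfold ee
  split_ifs <;> norm_num

/-- letters -/
noncomputable def L (i : Fin 9) : Matrix (Fin 2) (Fin 2) ℝ[X] :=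
  !![1 + C (ee i) * X * C (tt i), C (ee i) * X * 2; C (tt i), 2]

/-- words -/
noncomputable def W (u : List (Fin 9)) : Matrix (Fin 2) (Fin 2) ℝ[X] := (u.map L).prod

theorem W_append (u v : List (Fin 9)) : W (u ++ v) = W u * W v := by simp [W]

theorem W1 (i : Fin 9) (u : List (Fin 9)) (j : Fin 2) :
    W (i :: u) 1 j = C (tt i) * W u 0 j + 2 * W u 1 j := by
  simp [W, L, Matrix.mul_apply, Fin.sum_univ_two]

theorem W0 (i : Fin 9) (u : List (Fin 9)) (j : Fin 2) :
    W (i :: u) 0 j = W u 0 j + C (ee i) * X * W (i :: u) 1 j := by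
  rw [W1]
  simp [W, L, Matrix.mul_apply, Fin.sum_univ_two]
  ring

theorem W_det (u : List (Fin 9)) : W u 0 0 * W u 1 1 - W u 0 1 * W u 1 0 = 2 ^ u.length := by
  induction u with
  | nil => simp [W]
  | cons i u ih =>
    rw [W0, W0, W1, W1, List.length_cons, pow_succ, ← ih]
    ring

/-- evaluated entries -/
noncomputable def ev (x : ℝ) (u : List (Fin 9)) (i j : Fin 2) : ℝ := (W u i j).eval x

theorem ev1 (x : ℝ) (i : Fin 9) (u : List (Fin 9)) (j : Fin 2) :
    ev x (i :: u) 1 j = tt i * ev x u 0 j + 2 * ev x u 1 j := by simp [ev, W1]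

theorem ev0 (x : ℝ) (i : Fin 9) (u : List (Fin 9)) (j : Fin 2) :
    ev x (i :: u) 0 j = ev x u 0 j + ee i * x * ev x (i :: u) 1 j := by
  unfold ev
  rw [W0]
  simp

theorem ev_det (x : ℝ) (u : List (Fin 9)) :
    ev x u 0 0 * ev x u 1 1 - ev x u 0 1 * ev x u 1 0 = 2 ^ u.length := by
  have := congrArg (eval x) (W_det u)
  simpa [ev] using this

theorem ev_pos {x : ℝ} (hx : 0 ≤ x) (u : List (Fin 9)) :
    1 ≤ ev x u 0 0 ∧ 0 ≤ ev x u 0 1 ∧ 0 ≤ ev x u 1 0 ∧ 1 ≤ ev x u 1 1 := by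
  induction u with
  | nil => simp [ev, W]
  | cons i u ih =>
    obtain ⟨a, b, c, d⟩ := ih
    have t := (tt_mem i).1
    have e := mul_nonneg (ee_mem i).1 hx
    have h1 : 0 ≤ ev x (i :: u) 1 0 := by rw [ev1]; nlinarith
    have h2 : 1 ≤ ev x (i :: u) 1 1 := by rw [ev1]; nlinarith
    refine ⟨?_, ?_, h1, h2⟩ <;> rw [ev0] <;> nlinarith

theorem ev_c {x : ℝ} (hx : 0 ≤ x) (i : Fin 9) (u : List (Fin 9)) : 1 ≤ ev x (i :: u) 1 0 := by
  obtain ⟨a, b, c, d⟩ := ev_pos hx u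
  rw [ev1]
  nlinarith [(tt_mem i).1]

theorem ev_mem {x : ℝ} (hx : 0 ≤ x) (u : List (Fin 9)) (h : 8 ∈ u) :
    x ≤ ev x u 0 0 ∧ x ≤ ev x u 0 1 := by
  induction u with
  | nil => simp at h
  | cons i u ih =>
    obtain ⟨a, b, c, d⟩ := ev_pos hx u
    obtain ⟨-, -, c', d'⟩ := ev_pos hx (i :: u)
    have c'' := ev_c hx i u
    have e := mul_nonneg (ee_mem i).1 hx
    rw [ev0, ev0]
    rcases List.mem_cons.1 h with h | h
    · subst h
      simp only [ee, if_true, one_mul] at *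
      constructor <;> nlinarith
    · constructor <;> nlinarith [(ih h).1, (ih h).2]

theorem W_pure (u : List (Fin 9)) (h : 8 ∉ u) :
    W u 0 0 = 1 ∧ W u 0 1 = 0 ∧ W u 1 1 = 2 ^ u.length ∧ ∃ k, W u 1 0 = C k := by
  induction u with
  | nil => exact ⟨by simp [W], by simp [W], by simp [W], 0, by simp [W]⟩
  | cons i u ih =>
    obtain ⟨a, b, c, k, d⟩ := ih fun h' => h (List.mem_cons_of_mem _ h')
    have e : ee i = 0 := if_neg fun h' : i = 8 => h (h' ▸ List.mem_cons_self)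
    refine ⟨by simp [W0, e, a], by simp [W0, e, b], by simp [W1, b, c, pow_succ, mul_comm],
      tt i + 2 * k, by simp [W1, a, d, map_ofNat]⟩

/-- integer coordinates -/
def dg (φ : ℕ → ℕ) : List (Fin 9) → ℕ
  | [] => 0
  | i :: u => if i = 8 then 0 else φ i + 2 * dg φ u

/-- leading ratio -/
noncomputable def av (u : List (Fin 9)) : ℝ :=
  (dg (fun i => 3 + i % 2) u + dg (fun i => i / 2 % 2) u * sx 0 +
    dg (fun i => i / 4 % 2) u * sx 1) / 3

theorem av_cons (i : Fin 9) (u : List (Fin 9)) (h : i ≠ 8) : av (i :: u) = tt i + 2 * av u := by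
  simp only [av, dg, if_neg h, tt]
  push_cast
  ring

theorem av_nn (u : List (Fin 9)) : 0 ≤ av u := by
  have := (sx_mem 0).1
  have := (sx_mem 1).1
  unfold av
  positivity

theorem W_deg (u : List (Fin 9)) :
    W u 0 0 ≠ 0 ∧ degree (W u 1 0 - C (av u) * W u 0 0) < degree (W u 0 0) := by
  induction u with
  | nil => simp [W, av, dg]
  | cons i u ih =>
    obtain ⟨h0, h1⟩ := ih
    by_cases hi : i = 8
    · have e1 : W (i :: u) 1 0 = C (tt i + 2 * av u) * W u 0 0 +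
          C 2 * (W u 1 0 - C (av u) * W u 0 0) := by
        rw [W1]
        simp only [map_add, map_mul, map_ofNat]
        ring
      have n1 : tt i + 2 * av u ≠ 0 := by linarith [(tt_mem i).1, av_nn u] |> ne_of_gt
      have e2 : degree (W (i :: u) 1 0) = degree (W u 0 0) := by
        rw [e1, degree_add_eq_left_of_degree_lt, degree_C_mul n1]
        rwa [degree_C_mul n1, degree_C_mul two_ne_zero]
      have e3 : W (i :: u) 0 0 = W (i :: u) 1 0 * X + W u 0 0 := by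
        rw [W0]
        simp [hi, ee]
        ring
      have n2 : W (i :: u) 1 0 ≠ 0 := by
        rw [← degree_ne_bot, e2, degree_ne_bot]
        exact h0
      have e4 := degree_lt_degree_mul_X n2
      have e5 : degree (W (i :: u) 0 0) = degree (W (i :: u) 1 0 * X) := by
        rw [e3, degree_add_eq_left_of_degree_lt (e2 ▸ e4)]
      refine ⟨?_, ?_⟩
      · rw [← degree_ne_bot, e5]
        exact (lt_of_le_of_lt bot_le e4).ne'
      · have : av (i :: u) = 0 := by simp [av, dg, hi]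
        rw [e5, this, map_zero, zero_mul, sub_zero]
        exact e4
    · have e : ee i = 0 := if_neg hi
      have e1 : W (i :: u) 0 0 = W u 0 0 := by simp [W0, e]
      have e2 : W (i :: u) 1 0 - C (av (i :: u)) * W u 0 0 =
          C 2 * (W u 1 0 - C (av u) * W u 0 0) := by
        rw [W1, av_cons i u hi]
        simp only [map_add, map_mul, map_ofNat]
        ring
      rw [e1, e2, degree_C_mul two_ne_zero]
      exact ⟨h0, h1⟩

theorem free (u : List (Fin 9)) : ∀ v, W u 0 0 = W v 0 0 → W u 1 0 = W v 1 0 → u = v := by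
  have hnil : ∀ j v, W [] 1 0 ≠ W (j :: v) 1 0 := by
    intro j v h
    have := ev_c le_rfl j v
    rw [ev, ← h] at this
    norm_num [W] at this
  induction u with
  | nil =>
    intro v _ h
    cases v with
    | nil => rfl
    | cons j v => exact absurd h (hnil j v)
  | cons i u ih =>
    intro v h0 h1
    cases v with
    | nil => exact absurd h1.symm (hnil i u)
    | cons j v =>
      have a1 : av (i :: u) = av (j :: v) := by
        by_contra hne
        have b1 := (W_deg (i :: u)).2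
        have b2 := (W_deg (j :: v)).2
        rw [← h0, ← h1] at b2
        have b3 := (degree_sub_le _ _).trans_lt (max_lt b2 b1)
        rw [sub_sub_sub_cancel_left, ← sub_mul, ← map_sub,
          degree_C_mul (sub_ne_zero.2 hne)] at b3
        exact lt_irrefl _ b3
      have a2 := indep ((dg (fun i => 3 + i % 2) (i :: u) : ℤ) - dg (fun i => 3 + i % 2) (j :: v))
        ((dg (fun i => i / 2 % 2) (i :: u) : ℤ) - dg (fun i => i / 2 % 2) (j :: v))
        ((dg (fun i => i / 4 % 2) (i :: u) : ℤ) - dg (fun i => i / 4 % 2) (j :: v)) (by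
          unfold av at a1
          push_cast
          linarith)
      have a3 : i = j := by
        have hi := i.2
        have hj := j.2
        simp only [dg, Fin.ext_iff, show ((8 : Fin 9) : ℕ) = 8 from rfl] at a2 ⊢
        split_ifs at a2 <;> omega
      subst a3
      rw [W0, W0, h1, add_left_inj] at h0
      rw [W1, W1, h0, add_right_inj] at h1
      rw [ih v h0 (mul_left_cancel₀ two_ne_zero h1)]

theorem nosq (T α S : ℝ[X]) (n : ℕ) (hα : α ≠ 0) (h : (T ^ 2 - 4 * 2 ^ n) * α ^ 2 = S ^ 2) :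
    ∃ k, T = C k := by
  obtain ⟨R, rfl⟩ := (IsIntegrallyClosed.pow_dvd_pow_iff two_ne_zero).1
    (⟨T ^ 2 - 4 * 2 ^ n, by rw [← h]; ring⟩ : α ^ 2 ∣ S ^ 2)
  have h1 : T ^ 2 - 4 * 2 ^ n = R ^ 2 :=
    mul_right_cancel₀ (pow_ne_zero 2 hα) (by rw [h]; ring)
  have h2 : (T - R) * (T + R) = C (4 * 2 ^ n) := by
    simp only [map_mul, map_pow, map_ofNat]
    linear_combination h1
  have h3 : IsUnit ((T - R) * (T + R)) := by
    rw [h2]
    exact isUnit_C.2 (IsUnit.mk0 _ (by positivity))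
  obtain ⟨a, -, ha⟩ := isUnit_iff.1 (isUnit_of_mul_isUnit_left h3)
  obtain ⟨b, -, hb⟩ := isUnit_iff.1 (isUnit_of_mul_isUnit_right h3)
  refine ⟨(a + b) / 2, mul_left_cancel₀ (two_ne_zero (α := ℝ[X])) ?_⟩
  have : (2 : ℝ[X]) * C ((a + b) / 2) = C a + C b := by
    rw [← map_ofNat C 2, ← map_mul, ← map_add]
    congr 1
    ring
  rw [this, ha, hb]
  ring

/-- determinant of the commutator, up to sign -/
noncomputable def cm (u v : List (Fin 9)) : ℝ[X] :=
  (W u 0 1 * W v 1 0 - W v 0 1 * W u 1 0) ^ 2 +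
    (W u 0 0 * W v 0 1 + W u 0 1 * W v 1 1 - W v 0 0 * W u 0 1 - W v 0 1 * W u 1 1) *
    (W u 1 0 * W v 0 0 + W u 1 1 * W v 1 0 - W v 1 0 * W u 0 0 - W v 1 1 * W u 1 0)

theorem comm_of (u v : List (Fin 9)) (hv : 8 ∈ v) (h : cm u v = 0) : u ++ v = v ++ u := by
  unfold cm at h
  set α := W u 0 1 * W v 1 0 - W v 0 1 * W u 1 0 with hα
  set β := W u 0 0 * W v 0 1 + W u 0 1 * W v 1 1 - W v 0 0 * W u 0 1 - W v 0 1 * W u 1 1 with hβ
  set γ := W u 1 0 * W v 0 0 + W u 1 1 * W v 1 0 - W v 1 0 * W u 0 0 - W v 1 1 * W u 1 0 with hγ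
  have htr : (W v 0 0 - W v 1 1) * α + W v 0 1 * γ + W v 1 0 * β = 0 := by
    rw [hα, hβ, hγ]
    ring
  have hα0 : α = 0 := by
    by_contra hne
    obtain ⟨k, hk⟩ := nosq (W v 0 0 + W v 1 1) α (W v 0 1 * γ - W v 1 0 * β) v.length hne (by
      rw [← W_det]
      linear_combination ((W v 0 0 - W v 1 1) * α - W v 0 1 * γ - W v 1 0 * β) * htr +
        4 * W v 0 1 * W v 1 0 * h)
    have h1 := congrArg (eval |k|) hk
    have h2 := (ev_mem (abs_nonneg k) v hv).1
    have h3 := (ev_pos (abs_nonneg k) v).2.2.2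
    simp only [eval_add, eval_C] at h1
    unfold ev at h2 h3
    linarith [le_abs_self k]
  have hb : W v 0 1 ≠ 0 := by
    intro hb
    have := (ev_mem zero_le_one v hv).2
    rw [ev, hb] at this
    norm_num at this
  have hγ0 : γ = 0 := by
    rw [hα0] at h htr
    have : W v 0 1 * γ ^ 2 = 0 := by linear_combination γ * htr - W v 1 0 * h
    exact pow_eq_zero_iff two_ne_zero |>.1 ((mul_eq_zero.1 this).resolve_left hb)
  apply free <;> simp only [W_append, Matrix.mul_apply, Fin.sum_univ_two]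
  · linear_combination hα0 - hα
  · linear_combination hγ0 - hγ

theorem ex_tau (η : ℝ) (hη : 0 < η) : ∃ τ : ℝ, 0 < τ ∧ τ < η ∧ ∀ u v, (cm u v).eval τ = 0 → cm u v = 0 := by
  have h1 : (⋃ p : List (Fin 9) × List (Fin 9),
      {x : ℝ | cm p.1 p.2 ≠ 0 ∧ (cm p.1 p.2).eval x = 0}).Countable := by
    refine Set.countable_iUnion fun p => Set.Finite.countable ?_
    by_cases h : cm p.1 p.2 = 0
    · simp [h]
    · exact (finite_setOfPred_isRoot h).subset fun x hx => hx.2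
  obtain ⟨τ, h2, h3⟩ := (h1.dense_compl ℝ).exists_between hη
  refine ⟨τ, h3.1, h3.2, fun u v h => ?_⟩
  by_contra hne
  exact h2 (Set.mem_iUnion.2 ⟨(u, v), hne, h⟩)

theorem main {τ : ℝ} (hτ : ∀ u v, (cm u v).eval τ = 0 → cm u v = 0) (u v : List (Fin 9))
    (hl : u.length = v.length) (q : ℝ) (hq : q ≠ 0)
    (hu : ev τ u 0 0 * q + ev τ u 0 1 = q * (ev τ u 1 0 * q + ev τ u 1 1))
    (hv : ev τ v 0 0 * q + ev τ v 0 1 = q * (ev τ v 1 0 * q + ev τ v 1 1)) : u = v := by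
  have key : ∀ u v : List (Fin 9), u.length = v.length → 8 ∈ v →
      ev τ u 0 0 * q + ev τ u 0 1 = q * (ev τ u 1 0 * q + ev τ u 1 1) →
      ev τ v 0 0 * q + ev τ v 0 1 = q * (ev τ v 1 0 * q + ev τ v 1 1) → u = v := by
    intro u v hl h8 hu hv
    refine (List.append_inj (comm_of u v h8 (hτ u v ?_)) hl).1
    simp only [cm, eval_add, eval_sub, eval_mul, eval_pow]
    unfold ev at hu hv
    rw [eq_sub_of_add_eq' hu, eq_sub_of_add_eq' hv]
    ring
  by_cases h1 : 8 ∈ v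
  · exact key u v hl h1 hu hv
  by_cases h2 : 8 ∈ u
  · exact (key v u hl.symm h2 hv hu).symm
  obtain ⟨a1, a2, a3, k, a4⟩ := W_pure u h2
  obtain ⟨b1, b2, b3, k', b4⟩ := W_pure v h1
  simp only [ev, a1, a2, a3, a4, b1, b2, b3, b4, eval_C, hl] at hu hv
  have : k = k' := by
    have h3 : q * (q * (k - k')) = 0 := by linear_combination hv - hu
    simpa [hq, sub_eq_zero] using h3
  exact free u v (by rw [a1, b1]) (by rw [a4, b4, this])

theorem W_av (u : List (Fin 9)) (h : 8 ∉ u) : W u 1 0 = C (av u) := by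
  have h1 := (W_deg u).2
  rw [(W_pure u h).1, degree_one, Nat.WithBot.lt_zero_iff, degree_eq_bot, mul_one] at h1
  exact sub_eq_zero.1 h1

theorem exw (n : ℕ) : ∀ P Q R : ℕ, P < 2 ^ n → Q < 2 ^ n → R < 2 ^ n → ∃ u : List (Fin 9),
    u.length = n ∧ 8 ∉ u ∧ dg (fun i => 3 + i % 2) u + 3 = 3 * 2 ^ n + P ∧
    dg (fun i => i / 2 % 2) u = Q ∧ dg (fun i => i / 4 % 2) u = R := by
  induction n with
  | zero => exact fun P Q R a b c => ⟨[], rfl, by simp, by simp [dg]; omega, by simp [dg]; omega,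
      by simp [dg]; omega⟩
  | succ n ih =>
    intro P Q R a b c
    rw [pow_succ] at a b c ⊢
    obtain ⟨u, h1, h2, h3, h4, h5⟩ := ih (P / 2) (Q / 2) (R / 2) (by omega) (by omega) (by omega)
    have hi : (⟨P % 2 + 2 * (Q % 2) + 4 * (R % 2), by omega⟩ : Fin 9) ≠ 8 := by
      rw [Ne, Fin.ext_iff, show ((8 : Fin 9) : ℕ) = 8 from rfl]
      dsimp only
      omega
    refine ⟨⟨P % 2 + 2 * (Q % 2) + 4 * (R % 2), by omega⟩ :: u, by simp [h1],
      fun h => (List.mem_cons.1 h).elim (fun h => hi h.symm) h2, ?_, ?_, ?_⟩ <;>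
      simp only [dg, if_neg hi] <;> omega

theorem ev_lt {x : ℝ} (hx : 0 < x) (u : List (Fin 9)) :
    (ev x u 0 0 ≤ ev x u 1 1 ∨ 0 < ev x u 0 1) ∧
      (u ≠ [] → ev x u 0 0 < ev x u 1 1 ∨ 0 < ev x u 0 1) := by
  by_cases h : 8 ∈ u
  · have := hx.trans_le (ev_mem hx.le u h).2
    exact ⟨Or.inr this, fun _ => Or.inr this⟩
  · obtain ⟨a, -, c, -⟩ := W_pure u h
    simp only [ev, a, c, eval_one, eval_pow, eval_ofNat]
    exact ⟨Or.inl (one_le_pow₀ one_le_two), fun hu => Or.inl (one_lt_pow₀ one_lt_two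
      (by simpa using hu))⟩

end Pool.Agent.H96.SX
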