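import Pool.Agent.H96.SX2

/-! Analytic linearizers of Moebius contractions. -/

namespace Pool.Agent.H96.SX

open Filter Topology Set Polynomial

theorem geo {ν R β : ℝ} (hβ : β ≠ 0) (h : Tendsto (fun k : ℕ => ν ^ k * R) atTop (𝓝 β)) :
    R = β := by
  have h1 : Tendsto (fun k : ℕ => ν * (ν ^ k * R)) atTop (𝓝 β) := by
    refine (h.comp (tendsto_add_atTop_nat 1)).congr fun k => ?_
    simp only [Function.comp, pow_succ]
    ring
  have h2 : ν = 1 := mul_right_cancel₀ hβ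
    ((tendsto_nhds_unique (h.const_mul ν) h1).trans (one_mul β).symm)
  rw [h2] at h
  simp only [one_pow, one_mul] at h
  exact tendsto_nhds_unique tendsto_const_nhds h

theorem roots (a b c d : ℝ) (hc : 0 < c) (hb : 0 ≤ b) (h1 : a + b ≤ c + d) (h2 : a < d ∨ 0 < b) :
    ∃ p q : ℝ, q < 0 ∧ 0 ≤ p ∧ p ≤ 1 ∧ a * p + b = p * (c * p + d) ∧
      a * q + b = q * (c * q + d) ∧ c * p + c * q = a - d := by
  have hbc := mul_nonneg hb hc.le
  set r := Real.sqrt ((d - a) ^ 2 + 4 * (b * c)) with hr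
  have hr0 : 0 ≤ r := Real.sqrt_nonneg _
  have hr2 : r ^ 2 = (d - a) ^ 2 + 4 * (b * c) := Real.sq_sqrt (by positivity)
  refine ⟨(a - d + r) / (2 * c), (a - d - r) / (2 * c), ?_, ?_, ?_, ?_, ?_, ?_⟩
  · refine div_neg_of_neg_of_pos ?_ (by positivity)
    rcases h2 with h | h
    · linarith
    · by_contra hn
      nlinarith [mul_pos h hc]
  · refine div_nonneg ?_ (by positivity)
    by_contra hn
    nlinarith
  · rw [div_le_one (by positivity)]
    by_contra hn
    nlinarith [mul_nonneg hc.le (sub_nonneg.2 h1)]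
  · field_simp
    linear_combination (-1) * hr2
  · field_simp
    linear_combination (-1) * hr2
  · field_simp
    ring

theorem lin (a b c d : ℝ) (hc : 0 < c) (hd : 0 < d) (hb : 0 ≤ b) (hD : 0 < a * d - b * c)
    (h2 : a < d ∨ 0 < b) (f : ℝ → ℝ) (hf : ∀ x ∈ Icc (0:ℝ) 1, f x = (a * x + b) / (c * x + d))
    (hI : MapsTo f (Icc 0 1) (Icc 0 1)) (g : ℝ → ℝ) (hg : AnalyticOn ℝ g (Icc 0 1))
    (hi : InjOn g (Icc 0 1)) (lam t : ℝ) (h : ∀ x ∈ Icc (0:ℝ) 1, g (f x) = lam * g x + t) :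
    ∃ (p q α β : ℝ) (m : ℕ), q < 0 ∧ q ≠ p ∧ β ≠ 0 ∧ m ≠ 0 ∧ a * q + b = q * (c * q + d) ∧
      ∀ x ∈ Icc (0:ℝ) 1, x ≠ p → (g x - α) * (x - q) ^ m = β * (x - p) ^ m := by
  have h1 : a + b ≤ c + d := by
    have := (hI (right_mem_Icc.2 zero_le_one)).2
    rw [hf 1 (right_mem_Icc.2 zero_le_one), div_le_one (by positivity)] at this
    linarith
  obtain ⟨p, q, hq, hp0, hp1, ep, eq, es⟩ := roots a b c d hc hb h1 h2
  have hpI : p ∈ Icc (0:ℝ) 1 := ⟨hp0, hp1⟩
  have hden : ∀ x ∈ Icc (0:ℝ) 1, 0 < c * x + d := fun x hx => by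
    have := mul_nonneg hc.le hx.1
    linarith
  have hB : 0 < a - c * q := by linarith [hden p hpI]
  have hA : 0 < a - c * p := by
    have : (a - c * p) * (c * p + d) = a * d - b * c := by linear_combination c * ep
    by_contra hn
    nlinarith [hden p hpI]
  have hAB : a - c * p < a - c * q := by nlinarith
  set μ := (a - c * p) / (a - c * q) with hμ
  have hμ0 : 0 < μ := div_pos hA hB
  have hμ1 : μ < 1 := (div_lt_one hB).2 hAB
  have hxq : ∀ x ∈ Icc (0:ℝ) 1, 0 < x - q := fun x hx => by linarith [hx.1]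
  have hφ : ∀ x ∈ Icc (0:ℝ) 1, (f x - p) / (f x - q) = μ * ((x - p) / (x - q)) := by
    intro x hx
    have e1 : f x - p = (a - c * p) * (x - p) / (c * x + d) := by
      rw [hf x hx, eq_div_iff (hden x hx).ne', sub_mul, div_mul_cancel₀ _ (hden x hx).ne']
      linear_combination ep
    have e2 : f x - q = (a - c * q) * (x - q) / (c * x + d) := by
      rw [hf x hx, eq_div_iff (hden x hx).ne', sub_mul, div_mul_cancel₀ _ (hden x hx).ne']
      linear_combination eq
    rw [e1, e2, div_div_div_cancel_right₀ (hden x hx).ne', hμ, mul_div_mul_comm]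
  have hfp : f p = p := by rw [hf p hpI, ep, mul_div_cancel_right₀ _ (hden p hpI).ne']
  have hit : ∀ x ∈ Icc (0:ℝ) 1, ∀ k : ℕ, f^[k] x ∈ Icc (0:ℝ) 1 ∧
      (f^[k] x - p) / (f^[k] x - q) = μ ^ k * ((x - p) / (x - q)) ∧
      g (f^[k] x) - g p = lam ^ k * (g x - g p) := by
    intro x hx k
    induction k with
    | zero => simpa using hx
    | succ k ih =>
      rw [Function.iterate_succ_apply']
      refine ⟨hI ih.1, by rw [hφ _ ih.1, ih.2.1]; ring, ?_⟩
      have := h p hpI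
      rw [hfp] at this
      rw [h _ ih.1]
      linear_combination lam * ih.2.2 - this
  have hne : ∀ x ∈ Icc (0:ℝ) 1, x ≠ p → ∀ k : ℕ, f^[k] x ≠ p := by
    intro x hx hxp k hk
    have := (hit x hx k).2.1
    rw [hk, sub_self, zero_div] at this
    exact mul_ne_zero (pow_pos hμ0 k).ne' (div_ne_zero (sub_ne_zero.2 hxp) (hxq x hx).ne') this.symm
  have hlim : ∀ x ∈ Icc (0:ℝ) 1, Tendsto (fun k => f^[k] x) atTop (𝓝 p) := by
    intro x hx
    rw [tendsto_iff_norm_sub_tendsto_zero]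
    have h3 := ((tendsto_pow_atTop_nhds_zero_of_lt_one hμ0.le hμ1).mul_const
      (|(x - p) / (x - q)| * (1 - q)))
    rw [zero_mul] at h3
    refine squeeze_zero (fun _ => norm_nonneg _) (fun k => ?_) h3
    obtain ⟨a1, a2, -⟩ := hit x hx k
    rw [div_eq_iff (hxq _ a1).ne'] at a2
    rw [a2, Real.norm_eq_abs, abs_mul, abs_mul, abs_of_pos (pow_pos hμ0 k), abs_of_pos (hxq _ a1),
      mul_assoc]
    gcongr
    exact a1.2
  obtain ⟨g1, hg1, hg2⟩ := analyticWithinAt_iff_exists_analyticAt.1 (hg p hpI)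
  have hgp : g p = g1 p := hg1.self_of_nhdsWithin (mem_insert _ _)
  have hev : ∀ x ∈ Icc (0:ℝ) 1, ∀ᶠ k in atTop, g (f^[k] x) = g1 (f^[k] x) := fun x hx =>
    (tendsto_nhdsWithin_iff.2 ⟨hlim x hx,
      Eventually.of_forall fun k => mem_insert_of_mem _ (hit x hx k).1⟩).eventually hg1
  obtain ⟨m, G, hG1, hG2, hG3⟩ := (hg2.sub analyticAt_const
    (g := fun _ => g1 p)).exists_eventuallyEq_pow_smul_nonzero_iff.2 (by
      intro h0
      obtain ⟨x, hx, hxp⟩ : ∃ x ∈ Icc (0:ℝ) 1, x ≠ p := by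
        by_cases h : p = 0
        · exact ⟨1, right_mem_Icc.2 zero_le_one, by rw [h]; norm_num⟩
        · exact ⟨0, left_mem_Icc.2 zero_le_one, Ne.symm h⟩
      obtain ⟨k, k1, k2⟩ := ((hev x hx).and ((hlim x hx).eventually h0)).exists
      refine hne x hx hxp k (hi (hit x hx k).1 hpI ?_)
      rw [k1, hgp]
      exact sub_eq_zero.1 k2)
  refine ⟨p, q, g p, (p - q) ^ m * G p, m, hq, by linarith |> ne_of_lt,
    mul_ne_zero (pow_pos (hxq p hpI) m).ne' hG2, ?_, eq, fun x hx hxp => ?_⟩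
  · rintro rfl
    have := hG3.self_of_nhds
    simp only [Pi.sub_apply, sub_self, pow_zero, one_smul] at this
    exact hG2 this.symm
  · have hφ0 : (x - p) / (x - q) ≠ 0 := div_ne_zero (sub_ne_zero.2 hxp) (hxq x hx).ne'
    have h3 : Tendsto (fun k => (f^[k] x - q) ^ m * G (f^[k] x)) atTop (𝓝 ((p - q) ^ m * G p)) :=
      (((hlim x hx).sub_const q).pow m).mul (hG1.continuousAt.tendsto.comp (hlim x hx))
    have h4 := geo (ν := lam / μ ^ m) (R := (g x - g p) / ((x - p) / (x - q)) ^ m)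
      (mul_ne_zero (pow_pos (hxq p hpI) m).ne' hG2) (h3.congr' (by
        filter_upwards [hev x hx, (hlim x hx).eventually hG3] with k k1 k2
        obtain ⟨a1, a2, a3⟩ := hit x hx k
        rw [div_eq_iff (hxq _ a1).ne'] at a2
        simp only [Pi.sub_apply, smul_eq_mul] at k2
        rw [← k1, ← hgp, a3, a2, mul_pow, mul_pow] at k2
        rw [div_pow lam, div_mul_div_comm, k2, ← pow_mul, ← pow_mul, mul_comm m k]
        field_simp))
    rw [← h4, div_pow]
    have := (hxq x hx).ne'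
    have := sub_ne_zero.2 hxp
    field_simp

theorem same_pole {g : ℝ → ℝ} {p q α β p' q' α' β' : ℝ} {m m' : ℕ} (h1 : q ≠ p) (h2 : β ≠ 0)
    (h3 : m ≠ 0) (h : ∀ x ∈ Icc (0:ℝ) 1, x ≠ p → (g x - α) * (x - q) ^ m = β * (x - p) ^ m)
    (h' : ∀ x ∈ Icc (0:ℝ) 1, x ≠ p' → (g x - α') * (x - q') ^ m' = β' * (x - p') ^ m') :
    q = q' := by
  have h4 := eq_zero_of_infinite_isRoot (C (α - α') * (X - C q) ^ m * (X - C q') ^ m' +
    C β * (X - C p) ^ m * (X - C q') ^ m' - C β' * (X - C p') ^ m' * (X - C q) ^ m) (by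
      refine ((Icc_infinite (zero_lt_one' ℝ)).sdiff (toFinite {p, p'})).mono fun x hx => ?_
      have a1 := h x hx.1 fun e => hx.2 (by simp [e])
      have a2 := h' x hx.1 fun e => hx.2 (by simp [e])
      simp only [mem_ofPred_eq, IsRoot.def, eval_sub, eval_add, eval_mul, eval_pow, eval_C, eval_X]
      linear_combination (x - q) ^ m * a2 - (x - q') ^ m' * a1)
  have h5 := congrArg (eval q) h4
  simp only [eval_sub, eval_add, eval_mul, eval_pow, eval_C, eval_X, sub_self, zero_pow h3,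
    mul_zero, zero_mul, zero_add, sub_zero, eval_zero] at h5
  exact sub_eq_zero.1 (eq_zero_of_pow_eq_zero ((mul_eq_zero.1 h5).resolve_left
    (mul_ne_zero h2 (pow_ne_zero _ (sub_ne_zero.2 h1)))))

end Pool.Agent.H96.SX
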