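import Mathlib

open Filter Topology

namespace Pool.Agent.H96.TL

variable {V : Type*} [AddCommGroup V] [Module ℝ V]

structure Semi (p : V → ℝ) : Prop where
  add : ∀ y z, p (y + z) ≤ p y + p z
  smul : ∀ (a : ℝ) y, p (a • y) = |a| * p y

structure Nice (p : V → ℝ) : Prop extends Semi p where
  rot : ∀ y z, p (y + z) = p y + p z → p (p z • y - p y • z) = 0
  diff : ∀ z, p z ≠ 0 → ∀ v, DifferentiableAt ℝ (fun s : ℝ => p (z + s • v)) 0

namespace Semi
variable {p : V → ℝ} (h : Semi p)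
include h

lemma zero : p 0 = 0 := by simpa using h.smul 0 0

lemma neg (y : V) : p (-y) = p y := by simpa using h.smul (-1) y

lemma nonneg (y : V) : 0 ≤ p y := by
  have := h.add y (-y)
  rw [add_neg_cancel, h.zero, h.neg] at this
  linarith

lemma congr {k : V} (hk : p k = 0) (y : V) : p (y + k) = p y := by
  have h1 := h.add y k
  have h2 := h.add (y + k) (-k)
  rw [add_neg_cancel_right, h.neg] at h2
  linarith

lemma sub_le (y z : V) : p (y - z) ≤ p y + p z := by
  rw [sub_eq_add_neg]; exact (h.add _ _).trans (by rw [h.neg])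

lemma smul' {a : ℝ} (ha : 0 ≤ a) (y : V) : p (a • y) = a * p y := by
  rw [h.smul, abs_of_nonneg ha]

lemma convex : ConvexOn ℝ Set.univ p := by
  refine ⟨convex_univ, fun x _ y _ a b ha hb _ => (h.add _ _).trans ?_⟩
  rw [h.smul' ha, h.smul' hb]; simp

end Semi

lemma Nice.lin {p : V → ℝ} (h : Nice p) {z : V} (hz : p z ≠ 0) :
    ∃ D : V →ₗ[ℝ] ℝ, ∀ v, HasDerivAt (fun s : ℝ => p (z + s • v)) (D v) 0 := by
  let d : V → ℝ := fun v => deriv (fun s : ℝ => p (z + s • v)) 0
  have hd : ∀ v, HasDerivAt (fun s : ℝ => p (z + s • v)) (d v) 0 :=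
    fun v => (h.diff z hz v).hasDerivAt
  have hs : ∀ (a : ℝ) v, d (a • v) = a * d v := by
    intro a v
    have h1 : HasDerivAt (fun s : ℝ => s * a) a 0 := by simpa using (hasDerivAt_id (0 : ℝ)).mul_const a
    have h2 := HasDerivAt.comp_of_eq (0 : ℝ) (hd v) h1 (by simp)
    have h3 : ((fun s : ℝ => p (z + s • v)) ∘ fun s => s * a) = fun s : ℝ => p (z + s • a • v) := by
      funext s; simp [smul_smul]
    rw [h3] at h2
    rw [(hd (a • v)).unique h2, mul_comm]
  refine ⟨⟨⟨d, fun v w => ?_⟩, fun a v => by simpa using hs a v⟩, hd⟩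
  have h1 := (((hd ((2 : ℝ) • v)).add (hd ((2 : ℝ) • w))).div_const 2).sub (hd (v + w))
  have h2 : IsLocalMin (fun s : ℝ => (p (z + s • (2 : ℝ) • v) + p (z + s • (2 : ℝ) • w)) / 2 -
      p (z + s • (v + w))) 0 := by
    refine Eventually.of_forall fun s => ?_
    have := h.add (z + s • (2 : ℝ) • v) (z + s • (2 : ℝ) • w)
    have e : z + s • (2 : ℝ) • v + (z + s • (2 : ℝ) • w) = (2 : ℝ) • (z + s • (v + w)) := by module
    rw [e, h.smul' (by norm_num)] at this
    simp only [zero_smul, add_zero]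
    linarith
  have h3 := h2.hasDerivAt_eq_zero h1
  rw [hs, hs] at h3
  linarith

lemma deriv_le {f : ℝ → ℝ} {d c : ℝ} (hf : HasDerivAt f d 0) (h : ∀ s, 0 < s → s < 1 → f s ≤ f 0 + s * c) :
    d ≤ c := by
  have h1 := hf.tendsto_slope_zero_right
  refine le_of_tendsto h1 ?_
  filter_upwards [Ioo_mem_nhdsGT one_pos] with s hs
  rw [smul_eq_mul, inv_mul_le_iff₀ hs.1, zero_add]
  linarith [h s hs.1 hs.2]

lemma Nice.norming {p : V → ℝ} (h : Nice p) (z : V) :
    ∃ f : V →ₗ[ℝ] ℝ, (∀ v, |f v| ≤ p v) ∧ f z = p z := by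
  by_cases hz : p z = 0
  · exact ⟨0, fun v => by simpa using h.nonneg v, by simp [hz]⟩
  obtain ⟨D, hD⟩ := h.lin hz
  have h1 : ∀ v, D v ≤ p v := fun v => deriv_le (hD v) fun s hs _ => by
    simp only [zero_smul, add_zero]
    exact (h.add _ _).trans (by rw [h.smul' hs.le])
  refine ⟨D, fun v => abs_le.2 ⟨?_, h1 v⟩, le_antisymm (h1 z) ?_⟩
  · have := h1 (-v); rw [map_neg, h.neg] at this; linarith
  · have := deriv_le (c := -p z) (hD (-z)) fun s hs hs1 => by
      have e : z + s • -z = (1 - s) • z := by module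
      simp only [zero_smul, add_zero]
      rw [e, h.smul' (by linarith)]
      linarith
    rw [map_neg] at this
    linarith

noncomputable def n0 (p : V → ℝ) (τ : V →ₗ[ℝ] ℝ) (v : V) : ℝ := √(p v ^ 2 + τ v ^ 2)

lemma mink (a b c d : ℝ) : √((a + c) ^ 2 + (b + d) ^ 2) ≤ √(a ^ 2 + b ^ 2) + √(c ^ 2 + d ^ 2) := by
  have := norm_add_le (⟨a, b⟩ : ℂ) ⟨c, d⟩
  simpa [Complex.norm_eq_sqrt_sq_add_sq] using this

lemma mink_eq {a b c d : ℝ}
    (h : √((a + c) ^ 2 + (b + d) ^ 2) = √(a ^ 2 + b ^ 2) + √(c ^ 2 + d ^ 2)) :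
    √(c ^ 2 + d ^ 2) * a = √(a ^ 2 + b ^ 2) * c ∧ √(c ^ 2 + d ^ 2) * b = √(a ^ 2 + b ^ 2) * d := by
  have h1 : SameRay ℝ (⟨a, b⟩ : ℂ) ⟨c, d⟩ := by
    rw [sameRay_iff_norm_add]
    simpa [Complex.norm_eq_sqrt_sq_add_sq] using h
  have h2 := sameRay_iff_norm_smul_eq.1 h1
  have h3 := congrArg Complex.re h2
  have h4 := congrArg Complex.im h2
  simp [Complex.norm_eq_sqrt_sq_add_sq] at h3 h4
  exact ⟨h3.symm, h4.symm⟩

section
variable {p : V → ℝ} (τ : V →ₗ[ℝ] ℝ)

lemma n0_semi (h : Semi p) : Semi (n0 p τ) := by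
  refine ⟨fun y z => le_trans ?_ (mink _ _ _ _), fun a y => ?_⟩
  · unfold n0
    rw [map_add]
    have := h.add y z
    have := h.nonneg (y + z)
    gcongr
  · unfold n0
    rw [h.smul, map_smul, smul_eq_mul, mul_pow, mul_pow, sq_abs, ← mul_add,
      Real.sqrt_mul (sq_nonneg a), Real.sqrt_sq_eq_abs]

lemma le_n0 (h : Semi p) (v : V) : p v ≤ n0 p τ v :=
  Real.le_sqrt_of_sq_le (by nlinarith [sq_nonneg (τ v)])

lemma le_n0' (v : V) : |τ v| ≤ n0 p τ v :=
  Real.abs_le_sqrt (by nlinarith [sq_nonneg (p v)])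

lemma n0_le (h : Semi p) (v : V) : n0 p τ v ≤ p v + |τ v| := by
  have := h.nonneg v
  have := abs_nonneg (τ v)
  refine Real.sqrt_le_iff.2 ⟨by positivity, ?_⟩
  nlinarith [sq_abs (τ v), mul_nonneg ‹0 ≤ p v› ‹0 ≤ |τ v|›]

lemma n0_nice (h : Nice p) : Nice (n0 p τ) := by
  have hs := n0_semi τ h.toSemi
  refine ⟨hs, fun y z hyz => ?_, fun z hz v => ?_⟩
  · have h1 : n0 p τ (y + z) ≤ √((p y + p z) ^ 2 + (τ y + τ z) ^ 2) := by
      unfold n0
      rw [map_add]
      have := h.add y z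
      have := h.nonneg (y + z)
      gcongr
    have h2 : √((p y + p z) ^ 2 + (τ y + τ z) ^ 2) ≤ n0 p τ y + n0 p τ z := mink _ _ _ _
    have h3 : √((p y + p z) ^ 2 + (τ y + τ z) ^ 2) = n0 p τ y + n0 p τ z := by linarith
    obtain ⟨e1, e2⟩ : n0 p τ z * p y = n0 p τ y * p z ∧ n0 p τ z * τ y = n0 p τ y * τ z :=
      mink_eq h3
    have h4 : p (y + z) = p y + p z := by
      have h5 : n0 p τ (y + z) = √((p y + p z) ^ 2 + (τ y + τ z) ^ 2) := by linarith
      unfold n0 at h5
      rw [Real.sqrt_inj (by positivity) (by positivity), map_add, add_left_inj] at h5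
      have := h.nonneg y
      have := h.nonneg z
      exact (pow_left_inj₀ (h.nonneg _) (by positivity) two_ne_zero).1 h5
    have h5 := h.rot y z h4
    have h6 : p (n0 p τ z • y - n0 p τ y • z) = 0 := by
      by_cases hy : p y = 0
      · refine le_antisymm ((h.sub_le _ _).trans ?_) (h.nonneg _)
        rw [h.smul' (hs.nonneg _), h.smul' (hs.nonneg _), ← e1, hy]
        simp
      · have e : p y • (n0 p τ z • y - n0 p τ y • z) = n0 p τ y • (p z • y - p y • z) := by
          rw [smul_sub, smul_sub, smul_smul, smul_smul, smul_smul, smul_smul, mul_comm (p y), e1,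
            mul_comm (p y)]
        have := congrArg p e
        rw [h.smul, h.smul, h5, mul_zero, mul_eq_zero, abs_eq_zero] at this
        exact this.resolve_left hy
    unfold n0 at h6 e2 ⊢
    rw [h6, map_sub, map_smul, map_smul, smul_eq_mul, smul_eq_mul, e2]
    simp
  · have h1 : DifferentiableAt ℝ (fun s : ℝ => p (z + s • v) ^ 2) 0 := by
      by_cases hp : p z = 0
      · have : (fun s : ℝ => p (z + s • v) ^ 2) = fun s => s ^ 2 * p v ^ 2 := by
          funext s
          rw [add_comm, h.congr hp, h.smul, mul_pow, sq_abs]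
        rw [this]; fun_prop
      · exact (h.diff z hp v).pow 2
    have h2 : DifferentiableAt ℝ (fun s : ℝ => τ (z + s • v) ^ 2) 0 := by
      simp only [map_add, map_smul, smul_eq_mul]; fun_prop
    refine (h1.add h2).sqrt ?_
    simp only [Pi.add_apply, zero_smul, add_zero]
    intro h0
    apply hz
    unfold n0
    rw [h0, Real.sqrt_zero]

end

noncomputable def ψ (r : ℝ) : ℝ := (max (r - 1) 0) ^ 2 + (max (-r - 1) 0) ^ 2

lemma ψ_nonneg (r : ℝ) : 0 ≤ ψ r := by unfold ψ; positivity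

lemma ψ_neg (r : ℝ) : ψ (-r) = ψ r := by unfold ψ; rw [neg_neg, add_comm]

lemma ψ_zero {r : ℝ} (h : |r| ≤ 1) : ψ r = 0 := by
  unfold ψ
  rw [abs_le] at h
  rw [max_eq_right (by linarith), max_eq_right (by linarith)]
  simp

lemma ψ_ge {r : ℝ} (h : 1 ≤ r) : (r - 1) ^ 2 ≤ ψ r := by
  unfold ψ
  rw [max_eq_left (by linarith)]
  nlinarith [sq_nonneg (max (-r - 1) 0)]

lemma pos_sq_diff : Differentiable ℝ fun r : ℝ => (max r 0) ^ 2 := by
  intro r
  rcases lt_trichotomy r 0 with h | h | h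
  · refine (differentiableAt_const (0 : ℝ)).congr_of_eventuallyEq ?_
    filter_upwards [gt_mem_nhds h] with s hs
    rw [max_eq_right hs.le]; simp
  · subst h
    refine HasDerivAt.differentiableAt (f' := 0) ?_
    rw [hasDerivAt_iff_isLittleO]
    simp only [max_self, sub_zero, smul_zero, ne_eq, OfNat.ofNat_ne_zero, not_false_eq_true,
      zero_pow]
    refine Asymptotics.IsBigO.trans_isLittleO (g := fun s : ℝ => s ^ 2) ?_
      (by simpa using Asymptotics.isLittleO_pow_id (𝕜 := ℝ) (n := 2) (by norm_num))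
    refine Asymptotics.IsBigO.of_bound 1 (Eventually.of_forall fun s => ?_)
    rw [one_mul, Real.norm_eq_abs, Real.norm_eq_abs, abs_of_nonneg (sq_nonneg _),
      abs_of_nonneg (sq_nonneg _)]
    rcases le_total s 0 with h | h
    · rw [max_eq_right h]; simpa using sq_nonneg s
    · rw [max_eq_left h]
  · refine (differentiableAt_pow 2).congr_of_eventuallyEq ?_
    filter_upwards [lt_mem_nhds h] with s hs
    rw [max_eq_left hs.le]

lemma ψ_diff : Differentiable ℝ ψ :=
  (pos_sq_diff.comp (f := fun r : ℝ => r - 1) (by fun_prop)).add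
    (pos_sq_diff.comp (f := fun r : ℝ => -r - 1) (by fun_prop))

lemma ψ_convex : ConvexOn ℝ Set.univ ψ := by
  have h0 : ConvexOn ℝ Set.univ fun _ : ℝ => (0 : ℝ) := convexOn_const _ convex_univ
  have h1 : ConvexOn ℝ Set.univ fun r : ℝ => r - 1 :=
    (convexOn_id convex_univ).sub (concaveOn_const _ convex_univ)
  have h2 : ConvexOn ℝ Set.univ fun r : ℝ => -r - 1 :=
    (concaveOn_id convex_univ).neg.sub (concaveOn_const _ convex_univ)
  exact ((h1.sup h0).pow (fun x _ => le_max_right _ _) 2).add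
    ((h2.sup h0).pow (fun x _ => le_max_right _ _) 2)

end Pool.Agent.H96.TL
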