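import Mathlib
import Pool.Agent.H96.TL1

open Filter Topology

namespace Pool.Agent.H96.TL

variable {V : Type*} [AddCommGroup V] [Module ℝ V] {Γ : Type*}

noncomputable def Φ (n : V → ℝ) (l : Γ → V →ₗ[ℝ] ℝ) (A : Γ → ℝ) (F : Finset Γ) (v : V) : ℝ :=
  n v + ∑ γ ∈ F, A γ * ψ (l γ v)

def Bl (n : V → ℝ) (l : Γ → V →ₗ[ℝ] ℝ) (A : Γ → ℝ) : Set V := {v | ∀ F, Φ n l A F v ≤ 1}

structure Hyp (n m : V → ℝ) (l : Γ → V →ₗ[ℝ] ℝ) (A : Γ → ℝ) : Prop where
  nice : Nice n
  semi : Semi m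
  le : ∀ v, n v ≤ m v
  ker : ∀ v, n v = 0 → m v = 0
  pos : ∀ γ, 0 ≤ A γ
  bd : ∀ γ v, |l γ v| ≤ m v
  fin : ∀ z v, ∃ F : Finset Γ, ∀ (s t : ℝ), ∀ γ ∉ F, |l γ (s • z + t • v)| ≤ n (s • z + t • v)

namespace Hyp
variable {n m : V → ℝ} {l : Γ → V →ₗ[ℝ] ℝ} {A : Γ → ℝ} (H : Hyp n m l A)
include H

lemma n_le_Φ (F : Finset Γ) (v : V) : n v ≤ Φ n l A F v :=
  le_add_of_nonneg_right (Finset.sum_nonneg fun γ _ => mul_nonneg (H.pos γ) (ψ_nonneg _))

lemma sum_convex (F : Finset Γ) : ConvexOn ℝ Set.univ fun v => ∑ γ ∈ F, A γ * ψ (l γ v) := by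
  refine ⟨convex_univ, fun x _ y _ a b ha hb hab => ?_⟩
  simp only [smul_eq_mul, Finset.mul_sum, ← Finset.sum_add_distrib]
  refine Finset.sum_le_sum fun γ _ => ?_
  have := ψ_convex.2 (Set.mem_univ (l γ x)) (Set.mem_univ (l γ y)) ha hb hab
  simp only [smul_eq_mul] at this
  rw [map_add, map_smul, map_smul, smul_eq_mul, smul_eq_mul]
  nlinarith [mul_le_mul_of_nonneg_left this (H.pos γ)]

lemma Φ_convex (F : Finset Γ) : ConvexOn ℝ Set.univ (Φ n l A F) :=
  H.nice.convex.add (H.sum_convex F)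

lemma Φ_zero (F : Finset Γ) : Φ n l A F 0 = 0 := by
  simp [Φ, H.nice.zero, ψ_zero]

lemma Φ_smul (F : Finset Γ) (v : V) {r : ℝ} (h0 : 0 ≤ r) (h1 : r ≤ 1) :
    Φ n l A F (r • v) ≤ r * Φ n l A F v := by
  have := (H.Φ_convex F).2 (Set.mem_univ v) (Set.mem_univ 0) h0 (sub_nonneg.2 h1) (by ring)
  simpa [H.Φ_zero] using this

lemma Φ_cont (F : Finset Γ) (v : V) : Continuous fun r : ℝ => Φ n l A F (r • v) := by
  unfold Φ
  simp only [H.nice.smul, map_smul, smul_eq_mul]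
  have := ψ_diff.continuous
  fun_prop

lemma convex : Convex ℝ (Bl n l A) := by
  intro x hx y hy a b ha hb hab F
  have := (H.Φ_convex F).2 (Set.mem_univ x) (Set.mem_univ y) ha hb hab
  simp only [smul_eq_mul] at this
  nlinarith [hx F, hy F]

lemma mem_of_m {v : V} (h : m v ≤ 1) : v ∈ Bl n l A := by
  intro F
  unfold Φ
  rw [Finset.sum_eq_zero fun γ _ => by rw [ψ_zero ((H.bd γ v).trans h), mul_zero], add_zero]
  exact (H.le v).trans h

lemma zero_mem : (0 : V) ∈ Bl n l A := H.mem_of_m (by rw [H.semi.zero]; norm_num)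

lemma absorbent : Absorbent ℝ (Bl n l A) := by
  refine absorbent_iff_eventually_nhdsNE_zero.2 fun x => mem_nhdsWithin_of_mem_nhds ?_
  have : Tendsto (fun c : ℝ => |c| * m x) (𝓝 0) (𝓝 (|0| * m x)) :=
    (continuous_abs.mul continuous_const).tendsto 0
  filter_upwards [this.eventually (ge_mem_nhds (show |0| * m x < 1 by simp))] with c hc
  exact H.mem_of_m (by rw [H.semi.smul]; exact hc)

lemma symm : ∀ x ∈ Bl n l A, -x ∈ Bl n l A := by
  intro x hx F
  have := hx F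
  unfold Φ at this ⊢
  simpa only [H.nice.neg, map_neg, ψ_neg] using this

lemma q_semi : Semi (gauge (Bl n l A)) := by
  refine ⟨gauge_add_le H.convex H.absorbent, fun a y => ?_⟩
  rcases le_total 0 a with h | h
  · rw [gauge_smul_of_nonneg h, abs_of_nonneg h, smul_eq_mul]
  · rw [← gauge_neg H.symm, ← neg_smul, gauge_smul_of_nonneg (neg_nonneg.2 h), abs_of_nonpos h,
      smul_eq_mul]

lemma K1 {v : V} {F : Finset Γ} (hF : ∀ γ ∉ F, |l γ v| ≤ n v) (h : Φ n l A F v ≤ 1) :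
    gauge (Bl n l A) v ≤ 1 := by
  classical
  refine gauge_le_one_of_mem fun G => le_trans ?_ h
  have hn := (H.n_le_Φ F v).trans h
  unfold Φ
  refine add_le_add le_rfl ?_
  rw [← Finset.sum_filter_add_sum_filter_not G (· ∈ F), Finset.sum_eq_zero (s := G.filter (· ∉ F))
    fun γ hγ => by rw [ψ_zero ((hF γ (Finset.mem_filter.1 hγ).2).trans hn), mul_zero], add_zero]
  exact Finset.sum_le_sum_of_subset_of_nonneg (fun γ hγ => (Finset.mem_filter.1 hγ).2)
    fun γ _ _ => mul_nonneg (H.pos γ) (ψ_nonneg _)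

lemma K2 {v : V} (h : gauge (Bl n l A) v ≤ 1) (F : Finset Γ) : Φ n l A F v ≤ 1 := by
  have h1 : Tendsto (fun r : ℝ => Φ n l A F (r • v)) (𝓝[<] 1) (𝓝 (Φ n l A F ((1 : ℝ) • v))) :=
    ((H.Φ_cont F v).tendsto 1).mono_left nhdsWithin_le_nhds
  rw [one_smul] at h1
  refine le_of_tendsto h1 ?_
  filter_upwards [Ioo_mem_nhdsLT one_pos] with r hr
  refine setOfPred_gauge_lt_one_subset_self H.convex H.zero_mem H.absorbent ?_ F
  simp only [Set.mem_ofPred_eq]
  rw [H.q_semi.smul' hr.1.le]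
  nlinarith [hr.1, hr.2, H.q_semi.nonneg v]

lemma K3 {v : V} {F : Finset Γ} (hF : ∀ r : ℝ, ∀ γ ∉ F, |l γ (r • v)| ≤ n (r • v))
    (h : gauge (Bl n l A) v = 1) : 1 ≤ Φ n l A F v := by
  by_contra hc
  push Not at hc
  have h1 : Tendsto (fun r : ℝ => Φ n l A F (r • v)) (𝓝[>] 1) (𝓝 (Φ n l A F ((1 : ℝ) • v))) :=
    ((H.Φ_cont F v).tendsto 1).mono_left nhdsWithin_le_nhds
  rw [one_smul] at h1
  obtain ⟨r, h2, h3⟩ := ((h1.eventually (gt_mem_nhds hc)).and self_mem_nhdsWithin).exists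
  have h4 := H.K1 (hF r) h2.le
  have h5 : (1 : ℝ) < r := h3
  rw [H.q_semi.smul' (by linarith), h] at h4
  linarith

lemma K4 {v : V} {F : Finset Γ} (hF : ∀ r : ℝ, ∀ γ ∉ F, |l γ (r • v)| ≤ n (r • v)) :
    gauge (Bl n l A) v ≤ max 1 (Φ n l A F v) := by
  rcases le_total (Φ n l A F v) 1 with h | h
  · exact (H.K1 (by simpa using hF 1) h).trans (le_max_left _ _)
  · have h0 : 0 < Φ n l A F v := by linarith
    have h1 := H.Φ_smul F v (r := (Φ n l A F v)⁻¹) (by positivity) (inv_le_one_of_one_le₀ h)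
    rw [inv_mul_cancel₀ h0.ne'] at h1
    have h2 := H.K1 (hF _) h1
    rw [H.q_semi.smul' (by positivity), inv_mul_le_iff₀ h0, mul_one] at h2
    exact h2.trans (le_max_right _ _)

lemma scale {a b : V → ℝ} (ha : Semi a) (hb : Semi b) (h : ∀ v, b v ≤ 1 → a v ≤ 1) (v : V) :
    a v ≤ b v := by
  refine le_of_forall_pos_le_add fun ε hε => ?_
  have h0 : 0 < b v + ε := by linarith [hb.nonneg v]
  have := h ((b v + ε)⁻¹ • v) (by
    rw [hb.smul' (by positivity), inv_mul_le_iff₀ h0]; linarith)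
  rwa [ha.smul' (by positivity), inv_mul_le_iff₀ h0, mul_one] at this

lemma n_le_q (v : V) : n v ≤ gauge (Bl n l A) v :=
  H.scale H.nice.toSemi H.q_semi (fun w hw => (H.n_le_Φ ∅ w).trans (H.K2 hw ∅)) v

lemma q_le_m (v : V) : gauge (Bl n l A) v ≤ m v :=
  H.scale H.q_semi H.semi (fun w hw => gauge_le_one_of_mem (H.mem_of_m hw)) v

lemma q_ker {v : V} (h : n v = 0) : gauge (Bl n l A) v = 0 :=
  le_antisymm ((H.q_le_m v).trans (H.ker v h).le) (H.q_semi.nonneg v)

lemma sep {w : V} {γ : Γ} (h1 : 2 < l γ w) (h2 : 1 ≤ A γ * (l γ w / 2 - 1) ^ 2) (h3 : 0 < n w) :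
    2 ≤ gauge (Bl n l A) w := by
  by_contra hc
  push Not at hc
  have h4 := H.K2 (v := (1 / 2 : ℝ) • w) (by rw [H.q_semi.smul' (by norm_num)]; linarith) {γ}
  unfold Φ at h4
  rw [Finset.sum_singleton, H.nice.smul' (by norm_num), map_smul, smul_eq_mul] at h4
  have h5 := ψ_ge (r := 1 / 2 * l γ w) (by linarith)
  have h6 := mul_le_mul_of_nonneg_left h5 (H.pos γ)
  have e : 1 / 2 * l γ w - 1 = l γ w / 2 - 1 := by ring
  rw [e] at h6
  linarith

lemma q_rot (y z : V) (h : gauge (Bl n l A) (y + z) = gauge (Bl n l A) y + gauge (Bl n l A) z) :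
    gauge (Bl n l A) (gauge (Bl n l A) z • y - gauge (Bl n l A) y • z) = 0 := by
  set q := gauge (Bl n l A) with hq
  have hs : Semi q := H.q_semi
  refine le_antisymm ?_ (hs.nonneg _)
  by_cases hy : q y = 0
  · refine (hs.sub_le _ _).trans ?_
    rw [hs.smul, hs.smul, hy]; simp
  by_cases hz : q z = 0
  · refine (hs.sub_le _ _).trans ?_
    rw [hs.smul, hs.smul, hz]; simp
  have ha : 0 < q y := lt_of_le_of_ne (hs.nonneg _) (Ne.symm hy)
  have hb : 0 < q z := lt_of_le_of_ne (hs.nonneg _) (Ne.symm hz)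
  obtain ⟨F, hF⟩ := H.fin y z
  have e : (q y + q z)⁻¹ • (y + z) =
      (q y / (q y + q z)) • (q y)⁻¹ • y + (q z / (q y + q z)) • (q z)⁻¹ • z := by
    rw [smul_smul, smul_smul, smul_add]
    congr 2 <;> field_simp
  have h1 : 1 ≤ Φ n l A F ((q y + q z)⁻¹ • (y + z)) := by
    refine H.K3 (fun r γ hγ => ?_) ?_
    · have := hF (r * (q y + q z)⁻¹) (r * (q y + q z)⁻¹) γ hγ
      rwa [← smul_add, mul_smul] at this
    · rw [← hq, hs.smul' (by positivity), h, inv_mul_cancel₀ (by positivity)]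
  have h2 : Φ n l A F ((q y)⁻¹ • y) ≤ 1 :=
    H.K2 (by rw [← hq, hs.smul' (by positivity), inv_mul_cancel₀ hy]) F
  have h3 : Φ n l A F ((q z)⁻¹ • z) ≤ 1 :=
    H.K2 (by rw [← hq, hs.smul' (by positivity), inv_mul_cancel₀ hz]) F
  have hab : q y / (q y + q z) + q z / (q y + q z) = 1 := by field_simp
  have h4 := (H.sum_convex F).2 (Set.mem_univ ((q y)⁻¹ • y)) (Set.mem_univ ((q z)⁻¹ • z))
    (show 0 ≤ q y / (q y + q z) by positivity) (show 0 ≤ q z / (q y + q z) by positivity) hab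
  rw [← e] at h4
  simp only [smul_eq_mul] at h4
  unfold Φ at h1 h2 h3
  have h5 := mul_le_mul_of_nonneg_left h2 (show 0 ≤ q y / (q y + q z) by positivity)
  have h6 := mul_le_mul_of_nonneg_left h3 (show 0 ≤ q z / (q y + q z) by positivity)
  have h7 : q y / (q y + q z) * n ((q y)⁻¹ • y) + q z / (q y + q z) * n ((q z)⁻¹ • z) ≤
      n ((q y + q z)⁻¹ • (y + z)) := by nlinarith
  rw [H.nice.smul' (by positivity), H.nice.smul' (by positivity), H.nice.smul' (by positivity)]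
    at h7
  have h8 : n (y + z) = n y + n z := by
    refine le_antisymm (H.nice.add _ _) ?_
    have e1 : q y / (q y + q z) * ((q y)⁻¹ * n y) + q z / (q y + q z) * ((q z)⁻¹ * n z) =
        (q y + q z)⁻¹ * (n y + n z) := by field_simp
    rw [e1] at h7
    exact le_of_mul_le_mul_left h7 (by positivity)
  have h9 : q (n z • y - n y • z) = 0 := H.q_ker (H.nice.rot y z h8)
  have h10 : n z * q y = n y * q z := by
    have := hs.congr h9 (n y • z)
    rw [add_sub_cancel, hs.smul' (H.nice.nonneg _), hs.smul' (H.nice.nonneg _)] at this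
    exact this
  have hn : 0 < n y := lt_of_le_of_ne (H.nice.nonneg _) fun h0 => hy (H.q_ker h0.symm)
  have e2 : n y • (q z • y - q y • z) = q y • (n z • y - n y • z) := by
    rw [smul_sub, smul_sub, smul_smul, smul_smul, smul_smul, smul_smul, ← h10, mul_comm (q y),
      mul_comm (q y)]
  have := congrArg q e2
  rw [hs.smul' hn.le, hs.smul, h9, mul_zero, mul_eq_zero] at this
  exact (this.resolve_left hn.ne').le

lemma Φ_lin (F : Finset Γ) {z : V} (hz : n z ≠ 0) :
    ∃ E : V →ₗ[ℝ] ℝ, ∀ v, HasDerivAt (fun s : ℝ => Φ n l A F (z + s • v)) (E v) 0 := by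
  obtain ⟨D, hD⟩ := H.nice.lin hz
  refine ⟨D + ∑ γ ∈ F, (A γ * deriv ψ (l γ z)) • l γ, fun v => ?_⟩
  unfold Φ
  simp only [LinearMap.add_apply, LinearMap.coe_sum, Finset.sum_apply, LinearMap.smul_apply,
    smul_eq_mul]
  refine (hD v).add (HasDerivAt.fun_sum fun γ _ => ?_)
  have h1 : HasDerivAt (fun s : ℝ => l γ (z + s • v)) (l γ v) 0 := by
    simp only [map_add, map_smul, smul_eq_mul]
    simpa using ((hasDerivAt_id (0 : ℝ)).mul_const (l γ v)).const_add (l γ z)
  have h2 := HasDerivAt.comp_of_eq (0 : ℝ) (ψ_diff (l γ z)).hasDerivAt h1 (by simp)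
  rw [mul_assoc]
  exact h2.const_mul _

lemma q_diff1 {z : V} (hz : gauge (Bl n l A) z = 1) (v : V) :
    DifferentiableAt ℝ (fun s : ℝ => gauge (Bl n l A) (z + s • v)) 0 := by
  set q := gauge (Bl n l A) with hq
  have hs : Semi q := H.q_semi
  obtain ⟨F, hF⟩ := H.fin z v
  have hn : n z ≠ 0 := fun h0 => by
    have := H.q_ker h0
    rw [← hq, hz] at this
    exact one_ne_zero this
  obtain ⟨E, hE⟩ := H.Φ_lin F hn
  have h1 : Φ n l A F z = 1 := le_antisymm (H.K2 hz.le F)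
    (H.K3 (fun r γ hγ => by simpa using hF r 0 γ hγ) hz)
  have hEz : 1 ≤ E z := by
    have := deriv_le (c := -1) (hE (-z)) fun s hs0 hs1 => by
      have e : z + s • -z = (1 - s) • z := by module
      simp only [zero_smul, add_zero]
      rw [e, h1]
      refine (H.Φ_smul F z (by linarith) (by linarith)).trans ?_
      rw [h1]; linarith
    rw [map_neg] at this
    linarith
  set a := E v / E z with ha
  set w := v - a • z with hw
  have hEw : E w = 0 := by
    rw [hw, map_sub, map_smul, smul_eq_mul, ha]; field_simp; ring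
  have h2 := hE w
  rw [hEw] at h2
  have h3 := hE (-w)
  rw [map_neg, hEw, neg_zero] at h3
  have hup : ∀ s : ℝ, q (z + s • w) ≤ 1 + |Φ n l A F (z + s • w) - 1| := by
    intro s
    refine (H.K4 (F := F) fun r γ hγ => ?_).trans (max_le ?_ ?_)
    · have := hF (r * (1 - s * a)) (r * s) γ hγ
      have e : r • (z + s • w) = (r * (1 - s * a)) • z + (r * s) • v := by rw [hw]; module
      rwa [e]
    · linarith [abs_nonneg (Φ n l A F (z + s • w) - 1)]
    · linarith [le_abs_self (Φ n l A F (z + s • w) - 1)]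
  have h4 : HasDerivAt (fun s : ℝ => q (z + s • w)) 0 0 := by
    rw [hasDerivAt_iff_isLittleO] at h2 h3 ⊢
    simp only [zero_smul, add_zero, sub_zero, smul_zero, h1, hz] at h2 h3 ⊢
    refine Asymptotics.IsBigO.trans_isLittleO ?_ (h2.abs_left.add h3.abs_left)
    refine Asymptotics.IsBigO.of_bound 1 (Eventually.of_forall fun s => ?_)
    rw [one_mul, Real.norm_eq_abs, Real.norm_eq_abs, abs_of_nonneg (a := _ + _) (by positivity)]
    have u1 := hup s
    have u2 := hup (-s)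
    have u3 := hs.add (z + s • w) (z + -s • w)
    have e : z + s • w + (z + -s • w) = (2 : ℝ) • z := by module
    rw [e, hs.smul' (by norm_num), hz] at u3
    have e2 : z + s • -w = z + -s • w := by module
    rw [e2, abs_le]
    constructor <;> linarith [abs_nonneg (Φ n l A F (z + s • w) - 1),
      abs_nonneg (Φ n l A F (z + -s • w) - 1)]
  have h5 : DifferentiableAt ℝ (fun s : ℝ => s / (1 + s * a)) 0 := by
    refine DifferentiableAt.div (by fun_prop) (by fun_prop) (by simp)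
  have h6 : DifferentiableAt ℝ (fun s : ℝ => (1 + s * a) * q (z + (s / (1 + s * a)) • w)) 0 := by
    refine DifferentiableAt.mul (by fun_prop) ?_
    exact DifferentiableAt.comp (g := fun s : ℝ => q (z + s • w)) 0
      (by simpa using h4.differentiableAt) h5
  refine h6.congr_of_eventuallyEq ?_
  have h7 : Tendsto (fun s : ℝ => 1 + s * a) (𝓝 0) (𝓝 (1 + 0 * a)) :=
    (by fun_prop : Continuous fun s : ℝ => 1 + s * a).tendsto 0
  filter_upwards [h7.eventually (lt_mem_nhds (show (0 : ℝ) < 1 + 0 * a by simp))] with s hs0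
  rw [← hs.smul' hs0.le]
  congr 1
  rw [smul_add, smul_smul, mul_div_cancel₀ _ hs0.ne', hw]
  module

lemma q_nice : Nice (gauge (Bl n l A)) := by
  refine ⟨H.q_semi, H.q_rot, fun z hz v => ?_⟩
  have hs := H.q_semi
  have h0 : 0 < gauge (Bl n l A) z := lt_of_le_of_ne (hs.nonneg _) (Ne.symm hz)
  have h1 := (H.q_diff1 (z := (gauge (Bl n l A) z)⁻¹ • z)
    (by rw [hs.smul' (by positivity), inv_mul_cancel₀ hz])
    ((gauge (Bl n l A) z)⁻¹ • v)).const_mul (gauge (Bl n l A) z)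
  refine h1.congr_of_eventuallyEq (Eventually.of_forall fun s => ?_)
  simp only
  rw [← hs.smul' h0.le]
  congr 1
  rw [smul_add, smul_smul, smul_smul, smul_smul, mul_inv_cancel₀ hz, one_smul]
  congr 2
  field_simp

end Hyp

end Pool.Agent.H96.TL
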