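import Mathlib
import Pool.Agent.H96.TL2

open Filter Topology

namespace Pool.Agent.H96.TL

variable {ι : Type} [LinearOrder ι]

open Classical in
noncomputable def nf (p : (ι →₀ ℝ) → ℝ) (v : ι →₀ ℝ) : (ι →₀ ℝ) →ₗ[ℝ] ℝ :=
  if h : ∃ f : (ι →₀ ℝ) →ₗ[ℝ] ℝ, (∀ w, |f w| ≤ p w) ∧ f v = p v then h.choose else 0

lemma nf_spec {p : (ι →₀ ℝ) → ℝ} (h : Nice p) (v : ι →₀ ℝ) :
    (∀ w, |nf p v w| ≤ p w) ∧ nf p v v = p v := by
  unfold nf
  rw [dif_pos (h.norming v)]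
  exact (h.norming v).choose_spec

variable (x : ι → ι →₀ ℝ)

noncomputable def cc (γ : ι) : ι →₀ ℝ := x γ + Finsupp.single γ 1

noncomputable def gg (p : (ι →₀ ℝ) → ℝ) (α γ : ι) : ℝ := p (x α - cc x γ) - 1

noncomputable def th (p : (ι →₀ ℝ) → ℝ) (α γ : ι) : ℝ := if x α γ = 0 then gg x p α γ else 1

noncomputable def sg (p : (ι →₀ ℝ) → ℝ) (α γ : ι) : ℝ :=
  if x α γ = 0 then √(1 - gg x p α γ ^ 2) else 1

noncomputable def ll (p : (ι →₀ ℝ) → ℝ) (α γ : ι) : (ι →₀ ℝ) →ₗ[ℝ] ℝ :=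
  if γ < α ∧ 0 < gg x p α γ ∧ gg x p α γ < 1 then
    th x p α γ • nf p (x α - cc x γ) - (1 - th x p α γ) • Finsupp.lapply γ +
      sg x p α γ • Finsupp.lapply α
  else 0

noncomputable def AA (p : (ι →₀ ℝ) → ℝ) (α γ : ι) : ℝ :=
  1 / (ll x p α γ (cc x α - cc x γ) / 2 - 1) ^ 2

noncomputable def step (p : (ι →₀ ℝ) → ℝ) (α : ι) : (ι →₀ ℝ) → ℝ :=
  gauge (Bl (n0 p (Finsupp.lapply α)) (ll x p α) (AA x p α))

lemma hyp {p : (ι →₀ ℝ) → ℝ} (h : Nice p) {α : ι} (hc : ∀ γ < α, ∀ v : ι →₀ ℝ, |v γ| ≤ p v) :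
    Hyp (n0 p (Finsupp.lapply α)) (fun v => p v + |v α|) (ll x p α) (AA x p α) := by
  classical
  refine ⟨n0_nice _ h, ⟨fun y z => ?_, fun a y => ?_⟩, fun v => n0_le _ h.toSemi v, fun v hv => ?_,
    fun γ => by unfold AA; positivity, fun γ v => ?_, fun z v => ?_⟩
  · have := h.add y z
    have := abs_add_le (y α) (z α)
    simp only [Finsupp.add_apply]
    linarith
  · simp only [h.smul, Finsupp.smul_apply, smul_eq_mul, abs_mul]; ring
  · have h1 := le_n0 (Finsupp.lapply α) h.toSemi v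
    have h2 := le_n0' (p := p) (Finsupp.lapply α) v
    rw [hv] at h1 h2
    have h3 : |v α| ≤ 0 := h2
    linarith [h.nonneg v, abs_nonneg (v α)]
  · unfold ll
    split_ifs with ha
    · obtain ⟨h1, h2, h3⟩ := ha
      have t0 : 0 ≤ th x p α γ ∧ th x p α γ ≤ 1 := by
        unfold th; split_ifs
        exacts [⟨h2.le, h3.le⟩, ⟨zero_le_one, le_rfl⟩]
      have s0 : 0 ≤ sg x p α γ ∧ sg x p α γ ≤ 1 := by
        unfold sg; split_ifs
        exacts [⟨Real.sqrt_nonneg _, Real.sqrt_le_one.2 (by nlinarith)⟩, ⟨zero_le_one, le_rfl⟩]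
      simp only [LinearMap.add_apply, LinearMap.sub_apply, LinearMap.smul_apply, smul_eq_mul,
        Finsupp.lapply_apply]
      have b1 := abs_le.1 ((nf_spec h (x α - cc x γ)).1 v)
      have b2 := abs_le.1 (hc γ h1 v)
      have b3 := abs_le.1 (le_refl |v α|)
      rw [abs_le]
      constructor <;> nlinarith [abs_nonneg (v α)]
    · simp only [LinearMap.zero_apply, abs_zero]
      have := h.nonneg v
      positivity
  · refine ⟨(x α).support ∪ z.support ∪ v.support, fun s t γ hγ => ?_⟩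
    simp only [Finset.mem_union, Finsupp.mem_support_iff, not_or, not_not] at hγ
    set u := s • z + t • v with hu
    have hu0 : u γ = 0 := by simp [hu, hγ.1.2, hγ.2]
    unfold ll
    split_ifs with ha
    · obtain ⟨h1, h2, h3⟩ := ha
      simp only [LinearMap.add_apply, LinearMap.sub_apply, LinearMap.smul_apply, smul_eq_mul,
        Finsupp.lapply_apply, th, sg, if_pos hγ.1.1, hu0, mul_zero, sub_zero]
      refine Real.abs_le_sqrt ?_
      have b1 := (nf_spec h (x α - cc x γ)).1 u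
      have b2 : nf p (x α - cc x γ) u ^ 2 ≤ p u ^ 2 := sq_le_sq' (abs_le.1 b1).1 (abs_le.1 b1).2
      have b3 : √(1 - gg x p α γ ^ 2) ^ 2 = 1 - gg x p α γ ^ 2 := Real.sq_sqrt (by nlinarith)
      simp only [Finsupp.lapply_apply]
      nlinarith [sq_nonneg (√(1 - gg x p α γ ^ 2) * nf p (x α - cc x γ) u - gg x p α γ * u α)]
    · simpa using (n0_semi _ h.toSemi).nonneg u

lemma step_sep (hx : ∀ α γ, α ≤ γ → x α γ = 0) {p : (ι →₀ ℝ) → ℝ} (h : Nice p) {α : ι}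
    (hc : ∀ γ < α, ∀ v : ι →₀ ℝ, |v γ| ≤ p v) (h0 : p (Finsupp.single α 1) = 0) {γ : ι}
    (hγ : γ < α) (h1 : 1 < p (x α - cc x γ)) : 2 ≤ step x p α (cc x α - cc x γ) := by
  have H := hyp x h hc
  have e : cc x α - cc x γ = x α - cc x γ + Finsupp.single α 1 := by unfold cc; abel
  by_cases h2 : 2 ≤ p (x α - cc x γ)
  · refine le_trans ?_ ((le_n0 _ h.toSemi _).trans (H.n_le_q _))
    rwa [e, h.congr h0]
  have e1 : (cc x α - cc x γ) α = 1 := by
    simp [cc, hx α α le_rfl, hx γ α hγ.le, Finsupp.single_apply, hγ.ne]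
  have e2 : (cc x α - cc x γ) γ = x α γ - 1 := by
    simp [cc, hx γ γ le_rfl, Finsupp.single_apply, hγ.ne']
  have g0 : 0 < gg x p α γ := by unfold gg; linarith
  have g1 : gg x p α γ < 1 := by unfold gg; linarith
  have e3 : nf p (x α - cc x γ) (cc x α - cc x γ) = 1 + gg x p α γ := by
    have := (nf_spec h (x α - cc x γ)).1 (Finsupp.single α 1)
    rw [h0, abs_nonpos_iff] at this
    rw [e, map_add, this, (nf_spec h _).2]
    unfold gg; ring
  have h3 : 2 < ll x p α γ (cc x α - cc x γ) := by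
    unfold ll
    rw [if_pos ⟨hγ, g0, g1⟩]
    simp only [LinearMap.add_apply, LinearMap.sub_apply, LinearMap.smul_apply, smul_eq_mul,
      Finsupp.lapply_apply, e1, e2, e3, th, sg]
    split_ifs with h4
    · have : 1 - gg x p α γ ^ 2 < √(1 - gg x p α γ ^ 2) := by
        refine Real.lt_sqrt_of_sq_lt ?_
        have : 0 < 1 - gg x p α γ ^ 2 := by nlinarith
        have : 0 < gg x p α γ ^ 2 := by positivity
        nlinarith
      rw [h4]
      nlinarith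
    · linarith
  refine H.sep h3 (le_of_eq ?_) ?_
  · unfold AA
    have : ll x p α γ (cc x α - cc x γ) / 2 - 1 ≠ 0 := by linarith
    rw [one_div, inv_mul_cancel₀ (pow_ne_zero 2 this)]
  · refine lt_of_lt_of_le ?_ (le_n0' _ _)
    rw [Finsupp.lapply_apply, e1]; simp

variable [WellFoundedLT ι]

noncomputable def qq : ι → (ι →₀ ℝ) → ℝ :=
  WellFoundedLT.fix fun α rec => step x (fun v => ⨆ γ : Set.Iio α, rec γ γ.2 v) α

noncomputable def PP (S : Set ι) (v : ι →₀ ℝ) : ℝ := ⨆ γ : S, qq x γ v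

lemma qq_eq (α : ι) : qq x α = step x (PP x (Set.Iio α)) α := by
  unfold qq
  rw [WellFoundedLT.fix_eq]
  rfl

structure Good (γ : ι) : Prop where
  nice : Nice (qq x γ)
  coord : ∀ δ ≤ γ, ∀ v : ι →₀ ℝ, |v δ| ≤ qq x γ v
  ker : ∀ v : ι →₀ ℝ, (∀ δ ≤ γ, v δ = 0) → qq x γ v = 0
  mono : ∀ δ < γ, ∀ v, qq x δ v ≤ qq x γ v
  coh : ∀ δ < γ, ∀ v : ι →₀ ℝ, (∀ ε, δ < ε → ε ≤ γ → v ε = 0) → qq x γ v = qq x δ v

section
variable {x} {S : Set ι} (hS : IsLowerSet S) (hG : ∀ γ ∈ S, Good x γ)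
include hS hG

lemma le_top {δ : ι} (hδ : δ ∈ S) {v : ι →₀ ℝ} (hv : ∀ ε ∈ S, δ < ε → v ε = 0) {γ : ι}
    (hγ : γ ∈ S) : qq x γ v ≤ qq x δ v := by
  rcases lt_trichotomy γ δ with h | h | h
  · exact (hG δ hδ).mono γ h v
  · rw [h]
  · exact ((hG γ hγ).coh δ h v fun ε h1 h2 => hv ε (hS h2 hγ) h1).le

lemma PP_eq {δ : ι} (hδ : δ ∈ S) {v : ι →₀ ℝ} (hv : ∀ ε ∈ S, δ < ε → v ε = 0) :
    PP x S v = qq x δ v := by
  have : Nonempty S := ⟨⟨δ, hδ⟩⟩
  refine le_antisymm (ciSup_le fun γ => le_top hS hG hδ hv γ.2) ?_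
  exact le_ciSup (f := fun γ : S => qq x γ v)
    ⟨_, by rintro _ ⟨γ, rfl⟩; exact le_top hS hG hδ hv γ.2⟩ ⟨δ, hδ⟩

omit hS hG in
lemma ex_top {s : ι} (hs : s ∈ S) (T : Finset ι) : ∃ δ ∈ S, s ≤ δ ∧ ∀ ε ∈ S, δ < ε → ε ∉ T := by
  classical
  obtain ⟨δ, h1, h2⟩ := Finset.exists_max_image (insert s (T.filter (· ∈ S))) id
    ⟨s, Finset.mem_insert_self _ _⟩
  refine ⟨δ, ?_, h2 s (Finset.mem_insert_self _ _), fun ε h3 h4 h5 => ?_⟩
  · rcases Finset.mem_insert.1 h1 with h | h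
    · rwa [h]
    · exact (Finset.mem_filter.1 h).2
  · exact absurd (h2 ε (Finset.mem_insert_of_mem (Finset.mem_filter.2 ⟨h5, h3⟩))) (not_le.2 h4)

lemma ex_top2 {s : ι} (hs : s ∈ S) (y z : ι →₀ ℝ) : ∃ δ ∈ S, s ≤ δ ∧
    ∀ a b : ℝ, PP x S (a • y + b • z) = qq x δ (a • y + b • z) := by
  classical
  obtain ⟨δ, h1, h2, h3⟩ := ex_top hs (y.support ∪ z.support)
  refine ⟨δ, h1, h2, fun a b => PP_eq hS hG h1 fun ε h4 h5 => ?_⟩
  have := h3 ε h4 h5
  simp only [Finset.mem_union, Finsupp.mem_support_iff, not_or, not_not] at this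
  simp [this.1, this.2]

lemma le_PP {γ : ι} (hγ : γ ∈ S) (v : ι →₀ ℝ) : qq x γ v ≤ PP x S v := by
  obtain ⟨δ, h1, h2, h3⟩ := ex_top2 hS hG hγ v v
  have := h3 1 0
  simp only [one_smul, zero_smul, add_zero] at this
  rw [this]
  rcases h2.eq_or_lt with h | h
  · rw [h]
  · exact (hG δ h1).mono γ h v

lemma PP_ker {v : ι →₀ ℝ} (hv : ∀ δ ∈ S, v δ = 0) : PP x S v = 0 := by
  rcases S.eq_empty_or_nonempty with h | ⟨s, hs⟩
  · subst h; simp [PP]
  · rw [PP_eq hS hG hs fun ε h _ => hv ε h]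
    exact (hG s hs).ker v fun δ h => hv δ (hS h hs)

lemma PP_nice : Nice (PP x S) := by
  rcases S.eq_empty_or_nonempty with h | ⟨s, hs⟩
  · have : PP x S = fun _ => 0 := by subst h; funext v; simp [PP]
    rw [this]
    exact ⟨⟨by simp, by simp⟩, by simp, by simp⟩
  refine ⟨⟨fun y z => ?_, fun a y => ?_⟩, fun y z => ?_, fun z hz v => ?_⟩
  · obtain ⟨δ, h1, -, h3⟩ := ex_top2 hS hG hs y z
    have e1 := h3 1 1
    have e2 := h3 1 0
    have e3 := h3 0 1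
    simp only [one_smul, zero_smul, add_zero, zero_add] at e1 e2 e3
    rw [e1, e2, e3]
    exact (hG δ h1).nice.add y z
  · obtain ⟨δ, h1, -, h3⟩ := ex_top2 hS hG hs y y
    have e1 := h3 a 0
    have e2 := h3 1 0
    simp only [one_smul, zero_smul, add_zero] at e1 e2
    rw [e1, e2]
    exact (hG δ h1).nice.smul a y
  · obtain ⟨δ, h1, -, h3⟩ := ex_top2 hS hG hs y z
    have e1 := h3 1 1
    have e2 := h3 1 0
    have e3 := h3 0 1
    have e4 := h3 (qq x δ z) (-qq x δ y)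
    simp only [one_smul, zero_smul, add_zero, zero_add, neg_smul, ← sub_eq_add_neg] at e1 e2 e3 e4
    rw [e1, e2, e3, e4]
    exact (hG δ h1).nice.rot y z
  · obtain ⟨δ, h1, -, h3⟩ := ex_top2 hS hG hs z v
    have e1 := fun s => h3 1 s
    have e2 := h3 1 0
    simp only [one_smul, zero_smul, add_zero] at e1 e2
    simp only [e1]
    exact (hG δ h1).nice.diff z (e2 ▸ hz) v

lemma PP_coord {γ : ι} (hγ : γ ∈ S) (v : ι →₀ ℝ) : |v γ| ≤ PP x S v :=
  ((hG γ hγ).coord γ le_rfl v).trans (le_PP hS hG hγ v)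

end

lemma good (α : ι) : Good x α := by
  induction α using WellFoundedLT.induction with
  | ind α ih =>
    have hS := isLowerSet_Iio α
    have hn := PP_nice hS ih
    have H := hyp x hn (α := α) fun γ h v => PP_coord hS ih h v
    have h1 : ∀ v, PP x (Set.Iio α) v ≤ qq x α v := fun v => by
      rw [qq_eq]; exact (le_n0 _ hn.toSemi v).trans (H.n_le_q v)
    have h2 : ∀ v, qq x α v ≤ PP x (Set.Iio α) v + |v α| := fun v => by
      rw [qq_eq]; exact H.q_le_m v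
    have h3 : Nice (qq x α) := by rw [qq_eq]; exact H.q_nice
    refine ⟨h3, fun δ hδ v => ?_, fun v hv => ?_, fun δ hδ v => (le_PP hS ih hδ v).trans (h1 v),
      fun δ hδ v hv => ?_⟩
    · rcases hδ.eq_or_lt with h | h
      · rw [h, qq_eq]; exact (le_n0' (Finsupp.lapply α) v).trans (H.n_le_q v)
      · exact (PP_coord hS ih h v).trans (h1 v)
    · refine le_antisymm ((h2 v).trans ?_) (h3.nonneg v)
      rw [PP_ker hS ih fun δ h => hv δ (le_of_lt h), hv α le_rfl]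
      simp
    · rw [← PP_eq hS ih hδ fun ε h h' => hv ε h' (le_of_lt h)]
      refine le_antisymm ((h2 v).trans ?_) (h1 v)
      rw [hv α hδ le_rfl]; simp

noncomputable def NN : (ι →₀ ℝ) → ℝ := PP x Set.univ

lemma NN_nice : Nice (NN x) := PP_nice isLowerSet_univ fun γ _ => good x γ

lemma NN_eq {α : ι} {v : ι →₀ ℝ} (hv : ∀ ε, α < ε → v ε = 0) : NN x v = qq x α v :=
  PP_eq isLowerSet_univ (fun γ _ => good x γ) (Set.mem_univ α) fun ε _ h => hv ε h

lemma NN_zero {v : ι →₀ ℝ} (h : NN x v = 0) : v = 0 := by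
  ext γ
  have := PP_coord isLowerSet_univ (fun γ _ => good x γ) (Set.mem_univ γ) v
  rw [show PP x Set.univ v = 0 from h, abs_nonpos_iff] at this
  exact this

lemma qq_le (α : ι) (v : ι →₀ ℝ) : qq x α v ≤ PP x (Set.Iio α) v + |v α| := by
  have hS := isLowerSet_Iio α
  have ih := fun γ (_ : γ ∈ Set.Iio α) => good x γ
  rw [qq_eq]
  exact (hyp x (PP_nice hS ih) (α := α) fun γ h v => PP_coord hS ih h v).q_le_m v

lemma PP_single (α : ι) : PP x (Set.Iio α) (Finsupp.single α 1) = 0 :=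
  PP_ker (isLowerSet_Iio α) (fun γ _ => good x γ) fun δ h =>
    Finsupp.single_eq_of_ne (ne_of_lt h)

lemma NN_single (α : ι) : NN x (Finsupp.single α 1) ≤ 1 := by
  rw [NN_eq x (α := α) fun ε h => Finsupp.single_eq_of_ne h.ne']
  refine (qq_le x α _).trans ?_
  rw [PP_single]; simp

lemma NN_sep (hx : ∀ α γ, α ≤ γ → x α γ = 0) {α γ : ι} (hγ : γ < α)
    (h : 1 < NN x (x α - cc x γ)) : 2 ≤ NN x (cc x α - cc x γ) := by
  have hS := isLowerSet_Iio α
  have ih := fun γ (_ : γ ∈ Set.Iio α) => good x γ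
  have e1 : ∀ ε, α ≤ ε → (x α - cc x γ) ε = 0 := fun ε hε => by
    simp [cc, hx α ε hε, hx γ ε (hγ.le.trans hε), Finsupp.single_apply, (hγ.trans_le hε).ne]
  rw [NN_eq x (α := α) fun ε hε => e1 ε hε.le] at h
  have h2 := qq_le x α (x α - cc x γ)
  rw [e1 α le_rfl, abs_zero, add_zero] at h2
  rw [NN_eq x (α := α) fun ε hε => by
    simp [cc, hx α ε hε.le, hx γ ε (hγ.trans hε).le, Finsupp.single_apply, (hγ.trans hε).ne, hε.ne],
    qq_eq]
  exact step_sep x hx (PP_nice hS ih) (fun γ h v => PP_coord hS ih h v) (PP_single x α) hγ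
    (h.trans_le h2)

lemma centres (hx : ∀ α γ, α ≤ γ → x α γ = 0) : ∃ C : Set ι,
    (∀ α, ∃ γ ∈ C, NN x (x α - cc x γ) ≤ 1) ∧
    ∀ α ∈ C, ∀ γ ∈ C, γ < α → 2 ≤ NN x (cc x α - cc x γ) := by
  let C : ι → Prop := WellFoundedLT.fix fun α rec =>
    ∀ γ (h : γ < α), rec γ h → 1 < NN x (x α - cc x γ)
  have hC : ∀ α, C α ↔ ∀ γ, γ < α → C γ → 1 < NN x (x α - cc x γ) := fun α => by
    simp only [C]
    rw [WellFoundedLT.fix_eq]
  refine ⟨{α | C α}, fun α => ?_, fun α hα γ hγ h => NN_sep x hx h ((hC α).1 hα γ h hγ)⟩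
  by_cases h : C α
  · refine ⟨α, h, ?_⟩
    have : x α - cc x α = -Finsupp.single α 1 := by unfold cc; abel
    rw [this, (NN_nice x).neg]
    exact NN_single x α
  · rw [hC] at h
    push Not at h
    obtain ⟨γ, -, h1, h2⟩ := h
    exact ⟨γ, h1, h2⟩

end Pool.Agent.H96.TL
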