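import Mathlib

set_option autoImplicit false
set_option linter.unusedSectionVars false
set_option maxHeartbeats 400000

open Filter Topology Finset

namespace Pool.Agent.H96.UB

lemma mid_of_deriv {G G1 G2 : ℝ → ℝ} (h1 : ∀ t, HasDerivAt G (G1 t) t)
    (h2 : ∀ t, HasDerivAt G1 (G2 t) t) (h3 : ∀ t, G2 t ≤ 0) : G 1 + G (-1) ≤ 2 * G 0 := by
  have e1 : deriv G = G1 := funext fun t => (h1 t).deriv
  have a : Antitone G1 := antitone_of_deriv_nonpos (fun t => (h2 t).differentiableAt)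
    fun t => by rw [(h2 t).deriv]; exact h3 t
  have c : ConcaveOn ℝ Set.univ G :=
    Antitone.concaveOn_univ_of_deriv (fun t => (h1 t).differentiableAt) (e1 ▸ a)
  have := c.2 (Set.mem_univ 1) (Set.mem_univ (-1)) (show (0 : ℝ) ≤ 1 / 2 by norm_num)
    (show (0 : ℝ) ≤ 1 / 2 by norm_num) (by norm_num)
  norm_num at this
  linarith

lemma quad {α β γ q : ℝ} (hP : ∀ t : ℝ, 0 < α + 2 * β * t + γ * t ^ 2) (t : ℝ) :
    HasDerivAt (fun t : ℝ => (α + 2 * β * t + γ * t ^ 2) ^ q)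
      (q * (α + 2 * β * t + γ * t ^ 2) ^ (q - 1) * (2 * (β + γ * t))) t ∧
    HasDerivAt (fun t : ℝ => q * (α + 2 * β * t + γ * t ^ 2) ^ (q - 1) * (2 * (β + γ * t)))
      (2 * q * ((α + 2 * β * t + γ * t ^ 2) ^ (q - 1) *
        (γ + 2 * (q - 1) * ((β + γ * t) ^ 2 / (α + 2 * β * t + γ * t ^ 2))))) t := by
  have d0 : HasDerivAt (fun t : ℝ => α + 2 * β * t + γ * t ^ 2) (2 * (β + γ * t)) t := by
    have := (((hasDerivAt_id t).const_mul (2 * β)).const_add α).add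
      ((hasDerivAt_pow 2 t).const_mul γ)
    exact this.congr_deriv (by simp; ring)
  have d1 : HasDerivAt (fun t : ℝ => 2 * (β + γ * t)) (2 * γ) t := by
    have := ((((hasDerivAt_id t).const_mul γ).const_add β)).const_mul 2
    simpa using this
  refine ⟨?_, ?_⟩
  · exact (d0.rpow_const (p := q) (Or.inl (hP t).ne')).congr_deriv (by ring)
  · refine (((d0.rpow_const (p := q - 1) (Or.inl (hP t).ne')).const_mul q).mul d1).congr_deriv ?_
    have := hP t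
    rw [Real.rpow_sub_one this.ne' (q - 1)]
    field_simp
    ring

lemma cs4 {m w a1 a2 a3 a4 b1 b2 b3 b4 : ℝ} (hm : 0 ≤ m) (hw : 0 ≤ w) :
    (m * (a1 * b1 + a2 * b2) + w * (a3 * b3 + a4 * b4)) ^ 2 ≤
      (m * (b1 ^ 2 + b2 ^ 2) + w * (b3 ^ 2 + b4 ^ 2)) *
        (m * (a1 ^ 2 + a2 ^ 2) + w * (a3 ^ 2 + a4 ^ 2)) := by
  have : (m * (b1 ^ 2 + b2 ^ 2) + w * (b3 ^ 2 + b4 ^ 2)) *
        (m * (a1 ^ 2 + a2 ^ 2) + w * (a3 ^ 2 + a4 ^ 2)) -
      (m * (a1 * b1 + a2 * b2) + w * (a3 * b3 + a4 * b4)) ^ 2 =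
      m * m * (a1 * b2 - a2 * b1) ^ 2 + w * w * (a3 * b4 - a4 * b3) ^ 2 +
      m * w * ((a1 * b3 - a3 * b1) ^ 2 + (a1 * b4 - a4 * b1) ^ 2 + (a2 * b3 - a3 * b2) ^ 2 +
        (a2 * b4 - a4 * b2) ^ 2) := by ring
  have h2 : 0 ≤ m * m * (a1 * b2 - a2 * b1) ^ 2 + w * w * (a3 * b4 - a4 * b3) ^ 2 +
      m * w * ((a1 * b3 - a3 * b1) ^ 2 + (a1 * b4 - a4 * b1) ^ 2 + (a2 * b3 - a3 * b2) ^ 2 +
        (a2 * b4 - a4 * b2) ^ 2) := by positivity
  linarith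

lemma nsq (x : ℂ) : ‖x‖ ^ 2 = x.re ^ 2 + x.im ^ 2 := by
  rw [Complex.sq_norm, Complex.normSq_apply]; ring

/-- the quadratic along a line -/
lemma line {ε m w : ℝ} (hε : 0 < ε) (hm : 0 ≤ m) (hw : 0 ≤ w) (x y h k : ℂ) :
    ∃ α β : ℝ, ∀ t : ℝ, ε + m * ‖x + t * h‖ ^ 2 + w * ‖y + t * k‖ ^ 2 =
      α + 2 * β * t + (m * ‖h‖ ^ 2 + w * ‖k‖ ^ 2) * t ^ 2 ∧
      (β + (m * ‖h‖ ^ 2 + w * ‖k‖ ^ 2) * t) ^ 2 ≤ (m * ‖h‖ ^ 2 + w * ‖k‖ ^ 2) *
        (ε + m * ‖x + t * h‖ ^ 2 + w * ‖y + t * k‖ ^ 2) := by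
  refine ⟨ε + m * ‖x‖ ^ 2 + w * ‖y‖ ^ 2,
    m * (x.re * h.re + x.im * h.im) + w * (y.re * k.re + y.im * k.im), fun t => ⟨?_, ?_⟩⟩
  · simp only [nsq]; simp; ring
  · have := cs4 (a1 := (x + t * h).re) (a2 := (x + t * h).im) (a3 := (y + t * k).re)
      (a4 := (y + t * k).im) (b1 := h.re) (b2 := h.im) (b3 := k.re) (b4 := k.im) hm hw
    have h2 : 0 ≤ (m * ‖h‖ ^ 2 + w * ‖k‖ ^ 2) * ε := by positivity
    simp only [nsq] at h2 ⊢
    simp at this ⊢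
    nlinarith

lemma step {q m1 w1 m2 w2 K : ℝ} (hq : 1 / 2 < q) (a1 : 0 ≤ m1) (a2 : 0 ≤ w1) (a3 : 0 ≤ m2)
    (a4 : 0 ≤ w2) (hK : 0 ≤ K)
    (hc : ∀ ε X Y : ℝ, 0 < ε → 0 ≤ X → 0 ≤ Y →
      (ε + m1 * X + w1 * Y) ^ (q - 1) ≤ (ε + m2 * X + w2 * Y) ^ (q - 1)) (x y h k : ℂ)
    (hγ : max 1 (2 * q - 1) * (m1 * ‖h‖ ^ 2 + w1 * ‖k‖ ^ 2) ≤
      K * (min 1 (2 * q - 1) * (m2 * ‖h‖ ^ 2 + w2 * ‖k‖ ^ 2))) :
    ((m1 * ‖x + h‖ ^ 2 + w1 * ‖y + k‖ ^ 2) ^ q - K * (m2 * ‖x + h‖ ^ 2 + w2 * ‖y + k‖ ^ 2) ^ q) +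
    ((m1 * ‖x - h‖ ^ 2 + w1 * ‖y - k‖ ^ 2) ^ q - K * (m2 * ‖x - h‖ ^ 2 + w2 * ‖y - k‖ ^ 2) ^ q) ≤
    2 * ((m1 * ‖x‖ ^ 2 + w1 * ‖y‖ ^ 2) ^ q - K * (m2 * ‖x‖ ^ 2 + w2 * ‖y‖ ^ 2) ^ q) := by
  let V : ℝ → ℂ → ℂ → ℝ := fun ε x y =>
    (ε + m1 * ‖x‖ ^ 2 + w1 * ‖y‖ ^ 2) ^ q - K * (ε + m2 * ‖x‖ ^ 2 + w2 * ‖y‖ ^ 2) ^ q
  have key : ∀ ε : ℝ, 0 < ε → V ε (x + h) (y + k) + V ε (x - h) (y - k) ≤ 2 * V ε x y := by
    intro ε hε
    obtain ⟨α1, β1, e1⟩ := line hε a1 a2 x y h k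
    obtain ⟨α2, β2, e2⟩ := line hε a3 a4 x y h k
    set γ1 := m1 * ‖h‖ ^ 2 + w1 * ‖k‖ ^ 2
    set γ2 := m2 * ‖h‖ ^ 2 + w2 * ‖k‖ ^ 2
    have g1 : 0 ≤ γ1 := by positivity
    have g2 : 0 ≤ γ2 := by positivity
    have p1 : ∀ t : ℝ, 0 < α1 + 2 * β1 * t + γ1 * t ^ 2 := fun t => by
      rw [← (e1 t).1]; positivity
    have p2 : ∀ t : ℝ, 0 < α2 + 2 * β2 * t + γ2 * t ^ 2 := fun t => by
      rw [← (e2 t).1]; positivity
    have := mid_of_deriv (fun t => (quad (q := q) p1 t).1.sub ((quad (q := q) p2 t).1.const_mul K))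
      (fun t => (quad (q := q) p1 t).2.sub ((quad (q := q) p2 t).2.const_mul K)) fun t => by
        have c := hc ε _ _ hε (sq_nonneg ‖x + t * h‖) (sq_nonneg ‖y + t * k‖)
        have b1 := (e1 t).2
        have b2 := (e2 t).2
        rw [(e1 t).1] at c b1
        rw [(e2 t).1] at c b2
        have r1 := (div_le_iff₀ (p1 t)).2 b1
        have r2 := (div_le_iff₀ (p2 t)).2 b2
        have s1 : 0 ≤ (β1 + γ1 * t) ^ 2 / (α1 + 2 * β1 * t + γ1 * t ^ 2) := by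
          have := p1 t; positivity
        have s2 : 0 ≤ (β2 + γ2 * t) ^ 2 / (α2 + 2 * β2 * t + γ2 * t ^ 2) := by
          have := p2 t; positivity
        have u1 := Real.rpow_pos_of_pos (p1 t) (q - 1)
        generalize (β1 + γ1 * t) ^ 2 / (α1 + 2 * β1 * t + γ1 * t ^ 2) = ρ1 at *
        generalize (β2 + γ2 * t) ^ 2 / (α2 + 2 * β2 * t + γ2 * t ^ 2) = ρ2 at *
        generalize (α1 + 2 * β1 * t + γ1 * t ^ 2) ^ (q - 1) = A at *
        generalize (α2 + 2 * β2 * t + γ2 * t ^ 2) ^ (q - 1) = B at *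
        have v1 : γ1 + 2 * (q - 1) * ρ1 ≤ max 1 (2 * q - 1) * γ1 := by
          rcases le_total q 1 with a | a
          · rw [max_eq_left (by linarith)]; nlinarith
          · rw [max_eq_right (by linarith)]; nlinarith
        have v2 : min 1 (2 * q - 1) * γ2 ≤ γ2 + 2 * (q - 1) * ρ2 := by
          rcases le_total q 1 with a | a
          · rw [min_eq_right (by linarith)]; nlinarith
          · rw [min_eq_left (by linarith)]; nlinarith
        have v3 : 0 ≤ max 1 (2 * q - 1) * γ1 := by positivity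
        have v4 : A * (γ1 + 2 * (q - 1) * ρ1) ≤ B * (K * (γ2 + 2 * (q - 1) * ρ2)) :=
          (mul_le_mul_of_nonneg_left v1 u1.le).trans (mul_le_mul c
            (hγ.trans (mul_le_mul_of_nonneg_left v2 hK)) v3 (u1.le.trans c))
        nlinarith
    simp only [Pi.sub_apply] at this
    rw [← (e1 1).1, ← (e1 (-1)).1, ← (e1 0).1, ← (e2 1).1, ← (e2 (-1)).1, ← (e2 0).1] at this
    simpa [V, sub_eq_add_neg] using this
  have hc : ∀ x y, Continuous fun ε => V ε x y := fun x y => by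
    have : ∀ a b : ℝ, Continuous fun ε : ℝ => (ε + a + b) ^ q := fun a b =>
      Continuous.rpow_const (by fun_prop) fun _ => Or.inr (by linarith)
    exact (this _ _).sub ((this _ _).const_mul K)
  have := le_of_tendsto_of_tendsto (b := 𝓝[>] (0 : ℝ))
    ((((hc (x + h) (y + k)).add (hc (x - h) (y - k))).tendsto 0).mono_left nhdsWithin_le_nhds)
    ((((hc x y).const_mul 2).tendsto 0).mono_left nhdsWithin_le_nhds)
    (by filter_upwards [self_mem_nhdsWithin] with ε hε using key ε hε)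
  simpa [V] using this

theorem bell {p : ℝ} (hp : 1 < p) : ∃ C : ℝ, 0 ≤ C ∧ ∃ U : ℂ → ℂ → ℝ,
    (∀ x y h k, ‖k‖ ≤ ‖h‖ → U (x + h) (y + k) + U (x - h) (y - k) ≤ 2 * U x y) ∧
    (∀ x y, U (-x) (-y) = U x y) ∧ U 0 0 = 0 ∧
    ∀ x y, ‖y‖ ^ p / 2 - C * ‖x‖ ^ p ≤ U x y := by
  obtain ⟨q, rfl⟩ : ∃ q, p = 2 * q := ⟨p / 2, by ring⟩
  have hq : 1 / 2 < q := by linarith
  have pw : ∀ x : ℂ, ‖x‖ ^ (2 * q) = (‖x‖ ^ 2) ^ q := fun x => by
    rw [Real.rpow_mul (norm_nonneg _)]; simp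
  simp only [pw]
  rcases le_total q 1 with a | a
  · have h0 : 0 < 2 * q - 1 := by linarith
    have hK : 2 ≤ 2 / (2 * q - 1) := by rw [le_div_iff₀ h0]; linarith
    have hK' : 2 / (2 * q - 1) * (2 * q - 1) = 2 := by field_simp
    generalize 2 / (2 * q - 1) = K at hK hK'
    have e0 : 0 < (1 / (2 * K)) ^ (1 / q) := by positivity
    have e1 : (1 / (2 * K)) ^ (1 / q) ≤ 1 :=
      Real.rpow_le_one (by positivity) (by rw [div_le_one (by positivity)]; linarith) (by positivity)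
    have e2 : ((1 / (2 * K)) ^ (1 / q)) ^ q = 1 / (2 * K) := by
      rw [← Real.rpow_mul (by positivity), one_div_mul_cancel (by linarith), Real.rpow_one]
    generalize (1 / (2 * K)) ^ (1 / q) = η at e0 e1 e2
    refine ⟨K, by linarith, fun x y => (1 * ‖x‖ ^ 2 + 1 * ‖y‖ ^ 2) ^ q -
      K * (1 * ‖x‖ ^ 2 + η * ‖y‖ ^ 2) ^ q, fun x y h k hk => ?_, by simp, ?_, fun x y => ?_⟩
    · refine step hq zero_le_one zero_le_one zero_le_one e0.le (by linarith) (fun ε X Y b c d =>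
        Real.rpow_le_rpow_of_nonpos (by positivity) (by nlinarith) (by linarith)) x y h k ?_
      rw [max_eq_left (by linarith), min_eq_right (by linarith), ← mul_assoc, hK']
      have := pow_le_pow_left₀ (norm_nonneg _) hk 2
      have : 0 ≤ η * ‖k‖ ^ 2 := by positivity
      linarith
    · simp [Real.zero_rpow (show q ≠ 0 by linarith)]
    · have b1 : (‖y‖ ^ 2) ^ q ≤ (1 * ‖x‖ ^ 2 + 1 * ‖y‖ ^ 2) ^ q :=
        Real.rpow_le_rpow (by positivity) (by nlinarith [sq_nonneg ‖x‖]) (by linarith)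
      have b2 := Real.rpow_add_le_add_rpow (show 0 ≤ 1 * ‖x‖ ^ 2 by positivity)
        (show 0 ≤ η * ‖y‖ ^ 2 by positivity) (show 0 ≤ q by linarith) a
      rw [Real.mul_rpow e0.le (by positivity), e2, one_mul (‖x‖ ^ 2)] at b2
      have b3 := mul_le_mul_of_nonneg_left b2 (show 0 ≤ K by linarith)
      have b4 : K * (1 / (2 * K) * (‖y‖ ^ 2) ^ q) = (‖y‖ ^ 2) ^ q / 2 := by field_simp
      simp only [one_mul] at b1 b3 ⊢
      rw [mul_add, one_div] at b3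
      rw [one_div] at b4
      linarith
  · have h0 : 0 < 2 * q - 1 := by linarith
    have t0 : (0 : ℝ) < 2 ^ q := by positivity
    refine ⟨(2 * (2 * q - 1) * 2 ^ q) ^ q / 2, by positivity, fun x y =>
      (0 * ‖x‖ ^ 2 + 1 * ‖y‖ ^ 2) ^ q - 1 / (2 * 2 ^ q) *
      ((2 * (2 * q - 1) * 2 ^ q) * ‖x‖ ^ 2 + 1 * ‖y‖ ^ 2) ^ q, fun x y h k hk => ?_, by simp, ?_,
      fun x y => ?_⟩
    · refine step hq le_rfl zero_le_one (by positivity) zero_le_one (by positivity)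
        (fun ε X Y b c d => Real.rpow_le_rpow (by positivity) ?_ (by linarith)) x y h k ?_
      · have : 0 ≤ 2 * (2 * q - 1) * 2 ^ q * X := by positivity
        linarith
      rw [max_eq_right (by linarith), min_eq_left (by linarith)]
      have := mul_le_mul_of_nonneg_left (pow_le_pow_left₀ (norm_nonneg _) hk 2) h0.le
      have e : 1 / (2 * 2 ^ q) * (1 * (2 * (2 * q - 1) * 2 ^ q * ‖h‖ ^ 2 + 1 * ‖k‖ ^ 2)) =
        (2 * q - 1) * ‖h‖ ^ 2 + 1 / (2 * 2 ^ q) * ‖k‖ ^ 2 := by field_simp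
      have : 0 ≤ 1 / (2 * 2 ^ q) * ‖k‖ ^ 2 := by positivity
      rw [e]; linarith
    · simp [Real.zero_rpow (show q ≠ 0 by linarith)]
    · have g : ∀ u v : ℝ, 0 ≤ u → 0 ≤ v → (u + v) ^ q ≤ 2 ^ q * (u ^ q + v ^ q) := by
        intro u v hu hv
        have i1 := Real.rpow_nonneg hu q
        have i2 := Real.rpow_nonneg hv q
        rcases le_total u v with b | b
        · have := Real.rpow_le_rpow (by positivity) (show u + v ≤ 2 * v by linarith)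
            (show 0 ≤ q by linarith)
          rw [Real.mul_rpow (by norm_num) hv] at this
          nlinarith
        · have := Real.rpow_le_rpow (by positivity) (show u + v ≤ 2 * u by linarith)
            (show 0 ≤ q by linarith)
          rw [Real.mul_rpow (by norm_num) hu] at this
          nlinarith
      have b := g ((2 * (2 * q - 1) * 2 ^ q) * ‖x‖ ^ 2) (‖y‖ ^ 2) (by positivity) (by positivity)
      rw [Real.mul_rpow (x := 2 * (2 * q - 1) * 2 ^ q) (by positivity) (by positivity)] at b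
      have b3 := mul_le_mul_of_nonneg_left b (show 0 ≤ 1 / (2 * 2 ^ q) by positivity)
      have e : ∀ z : ℝ, 1 / (2 * 2 ^ q) * (2 ^ q * z) = z / 2 := fun z => by field_simp
      rw [e] at b3
      simp only [one_mul, zero_mul, zero_add] at b3 ⊢
      linarith

end Pool.Agent.H96.UB
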