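import Pool.Agent.H96.UB1

set_option autoImplicit false
set_option linter.unusedSectionVars false
set_option maxHeartbeats 400000

open Filter Topology Finset

namespace Pool.Agent.H96.UB

def L (n : ℕ) : Finset ℕ := Ico (2 ^ n) (2 ^ (n + 1))

lemma card_L (n : ℕ) : #(L n) = 2 ^ n := by rw [L, Nat.card_Ico, pow_succ]; omega

lemma sum_Ico_two {M : Type*} [AddCommMonoid M] (F : ℕ → M) (a b : ℕ) (h : a ≤ b) :
    ∑ m ∈ Ico (2 * a) (2 * b), F m = ∑ m ∈ Ico a b, (F (2 * m) + F (2 * m + 1)) := by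
  induction b, h using Nat.le_induction with
  | base => simp
  | succ b h ih =>
    rw [sum_Ico_succ_top h, ← ih, show 2 * (b + 1) = 2 * b + 1 + 1 by ring,
      sum_Ico_succ_top (by omega), sum_Ico_succ_top (by omega), add_assoc]

lemma sum_L {M : Type*} [AddCommMonoid M] (F : ℕ → M) (n : ℕ) :
    ∑ m ∈ L (n + 1), F m = ∑ m ∈ L n, (F (2 * m) + F (2 * m + 1)) := by
  rw [L, L, ← sum_Ico_two F _ _ (Nat.pow_le_pow_right (by norm_num) (by omega))]
  congr 2 <;> ring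

def sg (m : ℕ) : ℂ := if m % 2 = 0 then 1 else -1

lemma norm_sg (m : ℕ) : ‖sg m‖ = 1 := by unfold sg; split_ifs <;> simp

def ps (a : ℕ → ℂ) : ℕ → ℕ → ℂ
  | 0, _ => a 0
  | n + 1, m => ps a n (m / 2) + sg m * a (m / 2)

lemma ps_even (a : ℕ → ℂ) (n m : ℕ) : ps a (n + 1) (2 * m) = ps a n m + a m := by
  simp [ps, sg]

lemma ps_odd (a : ℕ → ℂ) (n m : ℕ) : ps a (n + 1) (2 * m + 1) = ps a n m - a m := by
  have h1 : (2 * m + 1) / 2 = m := by omega
  have h2 : (2 * m + 1) % 2 = 1 := by omega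
  simp [ps, sg, h1, h2, sub_eq_add_neg]

lemma ps_add (a b : ℕ → ℂ) (n : ℕ) : ps (a + b) n = ps a n + ps b n := by
  induction n with
  | zero => ext; simp [ps]
  | succ n ih => ext m; simp [ps, ih]; ring

lemma ps_smul (c : ℂ) (a : ℕ → ℂ) (n : ℕ) : ps (c • a) n = c • ps a n := by
  induction n with
  | zero => ext; simp [ps]
  | succ n ih => ext m; simp [ps, ih]; ring

lemma ps_low {a : ℕ → ℂ} {n : ℕ} (h : ∀ k < 2 ^ n, a k = 0) : ∀ m < 2 ^ (n + 1), ps a n m = 0 := by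
  induction n with
  | zero => intro m _; exact h 0 (by norm_num)
  | succ n ih =>
    intro m hm
    have h1 : m / 2 < 2 ^ (n + 1) := by rw [pow_succ] at hm; omega
    rw [ps, ih (fun k hk => h k (by rw [pow_succ]; omega)) _ h1, h _ h1]; simp

theorem tree {p : ℝ} (hp : 1 < p) : ∃ C : ℝ, 0 < C ∧ ∀ (a b : ℕ → ℂ), (∀ k, ‖b k‖ ≤ ‖a k‖) →
    ∀ n, ∑ m ∈ L n, ‖ps b n m‖ ^ p ≤ C * ∑ m ∈ L n, ‖ps a n m‖ ^ p := by
  obtain ⟨C, hC, U, h1, h2, h3, h4⟩ := bell hp
  refine ⟨2 * C + 1, by positivity, fun a b hab n => ?_⟩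
  have key : ∀ n, ∑ m ∈ L n, U (ps a n m) (ps b n m) ≤ 0 := by
    intro n
    induction n with
    | zero =>
      have := h1 0 0 (a 0) (b 0) (hab 0)
      rw [zero_add, zero_add, zero_sub, zero_sub, h2, h3] at this
      simp [L, ps]; linarith
    | succ n ih =>
      rw [sum_L]
      simp only [ps_even, ps_odd]
      refine (sum_le_sum fun m _ => h1 _ _ _ _ (hab m)).trans ?_
      rw [← mul_sum]; linarith
  have := (sum_le_sum fun m _ => h4 (ps a n m) (ps b n m)).trans (key n)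
  rw [sum_sub_distrib, ← sum_div, ← mul_sum] at this
  have : 0 ≤ ∑ m ∈ L n, ‖ps a n m‖ ^ p := by positivity
  nlinarith

lemma ps_surj (n : ℕ) : ∀ F : ℕ → ℂ, ∃ a : ℕ → ℂ, (∀ k, 2 ^ n ≤ k → a k = 0) ∧
    ∀ m ∈ L n, ps a n m = F m := by
  induction n with
  | zero =>
    intro F
    refine ⟨fun k => if k = 0 then F 1 else 0, fun k hk => if_neg (by omega), fun m hm => ?_⟩
    have : m = 1 := by simp [L] at hm; omega
    simp [ps, this]
  | succ n ih =>
    intro F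
    obtain ⟨a, h1, h2⟩ := ih fun m => (F (2 * m) + F (2 * m + 1)) / 2
    let b : ℕ → ℂ := fun m => if m ∈ L n then (F (2 * m) - F (2 * m + 1)) / 2 else 0
    refine ⟨a + b, fun k hk => ?_, fun m hm => ?_⟩
    · have : k ∉ L n := by simp [L]; omega
      simp [b, this, h1 k (by rw [pow_succ] at hk; omega)]
    · have hm' : m / 2 ∈ L n := by
        simp only [L, mem_Ico, pow_succ] at hm ⊢; omega
      have h3 : ps b n (m / 2) = 0 := ps_low (fun k hk => if_neg (by simp [L]; omega)) _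
        (mem_Ico.1 hm').2
      rw [ps, ps_add, Pi.add_apply, Pi.add_apply, h3, h2 _ hm', h1 _ (mem_Ico.1 hm').1]
      simp only [b, if_pos hm', sg]
      split_ifs with h
      · rw [show 2 * (m / 2) = m by omega]; ring
      · rw [show 2 * (m / 2) + 1 = m by omega]; ring

section Kh

variable {α : Type} [DecidableEq α]

def Zs (s : Finset α) (φ : α → ℝ) (B : Finset α) : ℝ := ∑ y ∈ s, if y ∈ B then φ y else -φ y

lemma sum_Zs (F : ℝ → ℝ) {s : Finset α} {a : α} (ha : a ∉ s) (φ : α → ℝ) :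
    ∑ B ∈ (insert a s).powerset, F (Zs (insert a s) φ B) =
      ∑ B ∈ s.powerset, F (-φ a + Zs s φ B) + ∑ B ∈ s.powerset, F (φ a + Zs s φ B) := by
  rw [sum_powerset_insert ha]
  congr 1
  · refine sum_congr rfl fun B hB => ?_
    rw [Zs, sum_insert ha, if_neg (fun h => ha (mem_powerset.1 hB h))]; rfl
  · refine sum_congr rfl fun B hB => ?_
    rw [Zs, sum_insert ha, if_pos (mem_insert_self _ _), Zs]
    congr 2
    refine sum_congr rfl fun y hy => ?_
    simp [show y ≠ a from fun h => ha (h ▸ hy)]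

lemma moments (φ : α → ℝ) (s : Finset α) : ∀ c : ℝ,
    ∑ B ∈ s.powerset, (c + Zs s φ B) ^ 2 = 2 ^ #s * (c ^ 2 + ∑ y ∈ s, φ y ^ 2) ∧
    ∑ B ∈ s.powerset, (c + Zs s φ B) ^ 4 ≤
      2 ^ #s * (c ^ 4 + 6 * c ^ 2 * ∑ y ∈ s, φ y ^ 2 + 3 * (∑ y ∈ s, φ y ^ 2) ^ 2) := by
  induction s using Finset.induction_on with
  | empty => intro c; simp [Zs]
  | insert a s ha ih =>
    intro c
    rw [sum_Zs (fun z => (c + z) ^ 2) ha, sum_Zs (fun z => (c + z) ^ 4) ha, sum_insert ha,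
      card_insert_of_notMem ha, pow_succ]
    simp only [← add_assoc]
    refine ⟨by rw [(ih _).1, (ih _).1]; ring, (add_le_add (ih _).2 (ih _).2).trans ?_⟩
    have : (0 : ℝ) ≤ 2 ^ #s * φ a ^ 4 := by positivity
    nlinarith

lemma khintchine (φ : α → ℝ) (s : Finset α) :
    2 ^ #s * Real.sqrt (∑ y ∈ s, φ y ^ 2) / 2 ≤ ∑ B ∈ s.powerset, |Zs s φ B| := by
  obtain ⟨h1, h2⟩ := moments φ s 0
  have h3 := Real.sq_sqrt (show 0 ≤ ∑ y ∈ s, φ y ^ 2 by positivity)
  have h4 := Real.sqrt_nonneg (∑ y ∈ s, φ y ^ 2)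
  rw [← h3] at h1 h2
  generalize Real.sqrt (∑ y ∈ s, φ y ^ 2) = σ at *
  rcases eq_or_lt_of_le h4 with h | h
  · rw [← h]; simp only [mul_zero, zero_div]; positivity
  have key : ∀ z : ℝ, 3 / 4 * σ ^ 2 * z ^ 2 - 1 / 16 * z ^ 4 ≤ σ ^ 3 * |z| := by
    intro z
    have e : z ^ 4 = |z| ^ 4 := (Even.pow_abs (by decide) z).symm
    rw [← sq_abs z, e]
    have := abs_nonneg z
    generalize |z| = t at *
    have : 0 ≤ t * ((t - 2 * σ) ^ 2 * (t + 4 * σ)) := by positivity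
    nlinarith
  have h5 := sum_le_sum (s := s.powerset) fun B _ => key (Zs s φ B)
  simp only [zero_add] at h1 h2
  rw [sum_sub_distrib, ← mul_sum, ← mul_sum, ← mul_sum, h1] at h5
  apply le_of_mul_le_mul_left _ (pow_pos h 3)
  have : (0 : ℝ) ≤ 2 ^ #s * σ ^ 4 := by positivity
  nlinarith

lemma khC (y : α → ℂ) (s : Finset α) :
    2 ^ #s * Real.sqrt (∑ m ∈ s, ‖y m‖ ^ 2) ≤
      4 * ∑ B ∈ s.powerset, ‖∑ m ∈ s, if m ∈ B then y m else -y m‖ := by
  have h1 := khintchine (fun m => (y m).re) s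
  have h2 := khintchine (fun m => (y m).im) s
  have e1 : ∑ B ∈ s.powerset, |Zs s (fun m => (y m).re) B| ≤
      ∑ B ∈ s.powerset, ‖∑ m ∈ s, if m ∈ B then y m else -y m‖ := sum_le_sum fun B _ => by
    refine le_trans (le_of_eq ?_) (Complex.abs_re_le_norm _)
    simp [Zs, apply_ite Complex.re]
  have e2 : ∑ B ∈ s.powerset, |Zs s (fun m => (y m).im) B| ≤
      ∑ B ∈ s.powerset, ‖∑ m ∈ s, if m ∈ B then y m else -y m‖ := sum_le_sum fun B _ => by
    refine le_trans (le_of_eq ?_) (Complex.abs_im_le_norm _)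
    simp [Zs, apply_ite Complex.im]
  have e3 : Real.sqrt (∑ m ∈ s, ‖y m‖ ^ 2) ≤ Real.sqrt (∑ m ∈ s, (y m).re ^ 2) +
      Real.sqrt (∑ m ∈ s, (y m).im ^ 2) := by
    simp only [nsq, sum_add_distrib]
    apply Real.sqrt_le_iff.2 ⟨by positivity, ?_⟩
    rw [add_sq, Real.sq_sqrt (by positivity), Real.sq_sqrt (by positivity)]
    have : 0 ≤ 2 * Real.sqrt (∑ m ∈ s, (y m).re ^ 2) * Real.sqrt (∑ m ∈ s, (y m).im ^ 2) := by
      positivity
    linarith
  have := mul_le_mul_of_nonneg_left e3 (show (0 : ℝ) ≤ 2 ^ #s by positivity)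
  linarith

end Kh

lemma lp_l2 {p : ℝ} (hp : 1 < p) : ∃ ρ : ℝ, 0 < ρ ∧ ρ < 1 ∧ ∀ (n : ℕ) (y : ℕ → ℂ),
    (((2 : ℝ) ^ n)⁻¹ * ∑ m ∈ L n, ‖y m‖ ^ p) ^ p⁻¹ ≤
      2 * ρ ^ n * Real.sqrt (∑ m ∈ L n, ‖y m‖ ^ 2) := by
  have e0 : (0 : ℝ) < (1 / 2) ^ (1 / (p + 2)) := by positivity
  have e1 : ((1 : ℝ) / 2) ^ (1 / (p + 2)) < 1 :=
    Real.rpow_lt_one (by norm_num) (by norm_num) (by positivity)
  have e2 : (((1 : ℝ) / 2) ^ (1 / (p + 2))) ^ p * (((1 : ℝ) / 2) ^ (1 / (p + 2))) ^ 2 = 1 / 2 := by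
    rw [← Real.rpow_natCast, ← Real.rpow_add e0, ← Real.rpow_mul (by norm_num)]
    push_cast
    rw [one_div_mul_cancel (by linarith), Real.rpow_one]
  generalize ((1 : ℝ) / 2) ^ (1 / (p + 2)) = ρ at e0 e1 e2
  refine ⟨ρ, e0, e1, fun n y => ?_⟩
  have h3 := Real.sq_sqrt (show 0 ≤ ∑ m ∈ L n, ‖y m‖ ^ 2 by positivity)
  have h4 := Real.sqrt_nonneg (∑ m ∈ L n, ‖y m‖ ^ 2)
  have h5 : ∀ m ∈ L n, ‖y m‖ ≤ Real.sqrt (∑ m ∈ L n, ‖y m‖ ^ 2) := fun m hm =>
    Real.le_sqrt_of_sq_le (single_le_sum (f := fun m => ‖y m‖ ^ 2) (fun _ _ => sq_nonneg _) hm)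
  generalize Real.sqrt (∑ m ∈ L n, ‖y m‖ ^ 2) = σ at *
  have e3 : (ρ ^ n) ^ p * (ρ ^ n) ^ 2 = ((2 : ℝ) ^ n)⁻¹ := by
    rw [← Real.rpow_pow_comm e0.le, ← pow_mul, mul_comm n 2, pow_mul, ← mul_pow, e2]; simp
  have r0 : 0 < ρ ^ n := by positivity
  generalize ρ ^ n = r at *
  have p0 : 0 < p := by linarith
  rw [Real.rpow_inv_le_iff_of_pos (by positivity) (by positivity) p0]
  rcases eq_or_lt_of_le h4 with h | h
  · subst h
    rw [sum_eq_zero fun m hm => by
      rw [le_antisymm (h5 m hm) (norm_nonneg _), Real.zero_rpow p0.ne']]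
    simp only [mul_zero]; positivity
  have k : ∀ m ∈ L n, ‖y m‖ ^ p ≤ (r * σ) ^ p + σ ^ p / (r * σ) ^ 2 * ‖y m‖ ^ 2 := by
    intro m hm
    rcases le_total ‖y m‖ (r * σ) with a | a
    · exact (Real.rpow_le_rpow (norm_nonneg _) a p0.le).trans (le_add_of_nonneg_right (by positivity))
    · refine (Real.rpow_le_rpow (norm_nonneg _) (h5 m hm) p0.le).trans
        (le_trans ?_ (le_add_of_nonneg_left (by positivity)))
      rw [div_mul_eq_mul_div, le_div_iff₀ (by positivity)]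
      exact mul_le_mul_of_nonneg_left (pow_le_pow_left₀ (by positivity) a 2) (by positivity)
  have k2 := sum_le_sum k
  rw [sum_add_distrib, sum_const, card_L, ← mul_sum, ← h3, nsmul_eq_mul] at k2
  push_cast at k2
  have k3 := mul_le_mul_of_nonneg_left k2 (show 0 ≤ ((2 : ℝ) ^ n)⁻¹ by positivity)
  refine k3.trans ?_
  rw [mul_add, inv_mul_cancel_left₀ (by positivity), ← e3, mul_assoc 2,
    Real.mul_rpow (x := 2) (by norm_num) (by positivity), Real.mul_rpow r0.le h.le]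
  have k4 : r ^ p * r ^ 2 * (σ ^ p / (r * σ) ^ 2 * σ ^ 2) = r ^ p * σ ^ p := by field_simp
  have k5 : (2 : ℝ) ^ (1 : ℝ) ≤ 2 ^ p := Real.rpow_le_rpow_of_exponent_le (by norm_num) hp.le
  rw [Real.rpow_one] at k5
  have : 0 ≤ r ^ p * σ ^ p := by positivity
  rw [k4]; nlinarith

section Abs

variable {X : Type*} [NormedAddCommGroup X] [NormedSpace ℂ X] [CompleteSpace X]

theorem abs_basis (e : ℕ → X) (C : ℝ) (he : ∀ k, e k ≠ 0)
    (hd : DenseRange (Finsupp.linearCombination ℂ e))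
    (hu : ∀ a b : ℕ →₀ ℂ, (∀ k, ‖b k‖ ≤ ‖a k‖) →
      ‖Finsupp.linearCombination ℂ e b‖ ≤ C * ‖Finsupp.linearCombination ℂ e a‖) :
    (∀ c : ℕ → ℂ, (∀ k, ‖c k‖ ≤ 1) → ∃ D : X →L[ℂ] X, ∀ k, D (e k) = c k • e k) ∧
    ∃ φ : ℕ → X →L[ℂ] ℂ, (∀ (S : Finset ℕ) x, ‖∑ k ∈ S, φ k x • e k‖ ≤ C * ‖x‖) ∧
      (∀ x, HasSum (fun k => φ k x • e k) x) ∧
      ∀ x (a : ℕ → ℂ), HasSum (fun k => a k • e k) x → a = fun k => φ k x := by
  set T := Finsupp.linearCombination ℂ e with hT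
  have mu : ∀ c : ℕ → ℂ, (∀ k, ‖c k‖ ≤ 1) → ∃ D : X →L[ℂ] X, (∀ x, ‖D x‖ ≤ C * ‖x‖) ∧
      ∀ k, D (e k) = c k • e k := by
    intro c hc
    let f : (ℕ →₀ ℂ) →ₗ[ℂ] X := Finsupp.linearCombination ℂ fun k => c k • e k
    have hf : ∀ a, ‖f a‖ ≤ C * ‖T a‖ := fun a => by
      have := hu a (a.sum fun k z => Finsupp.single k (z * c k)) fun k => by
        rw [Finsupp.sum_apply, Finsupp.sum, sum_eq_single k (fun j _ hj => by simp [hj])
          (fun h => by simp [Finsupp.notMem_support_iff.1 h])]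
        simpa using mul_le_of_le_one_right (norm_nonneg _) (hc k)
      convert this using 2
      rw [map_finsuppSum]
      simp only [f, hT, Finsupp.linearCombination_single, mul_smul]
      rw [Finsupp.linearCombination_apply]
    refine ⟨f.extendOfNorm T, LinearMap.norm_extendOfNorm_apply_le hd C hf, fun k => ?_⟩
    have := LinearMap.extendOfNorm_eq hd ⟨C, hf⟩ (Finsupp.single k 1)
    simpa [f, hT] using this
  have co : ∀ k, ∃ φ : X →L[ℂ] ℂ, ∀ a, φ (T a) = a k := fun k =>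
    ⟨(Finsupp.lapply k).extendOfNorm T, LinearMap.extendOfNorm_eq hd ⟨C / ‖e k‖, fun a => by
      have := hu a (Finsupp.single k (a k)) fun j => by
        rw [Finsupp.single_apply]; split_ifs with h <;> simp [h]
      rw [div_mul_eq_mul_div, le_div_iff₀ (norm_pos_iff.2 (he k))]
      simpa [hT, norm_smul] using this⟩⟩
  choose φ hφ using co
  have φe : ∀ k j, φ k (e j) = if j = k then 1 else 0 := fun k j => by
    have := hφ k (Finsupp.single j 1)
    rw [Finsupp.single_apply] at this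
    simpa [hT] using this
  have b : ∀ (S : Finset ℕ) x, ‖∑ k ∈ S, φ k x • e k‖ ≤ C * ‖x‖ := fun S x => by
    obtain ⟨D, h1, h2⟩ := mu (fun k => if k ∈ S then 1 else 0) fun k => by split_ifs <;> simp
    have : (fun x => ∑ k ∈ S, φ k x • e k) = D := by
      refine hd.equalizer (by fun_prop) D.continuous (funext fun a => ?_)
      simp only [Function.comp, hφ]
      rw [hT, Finsupp.linearCombination_apply, map_finsuppSum, Finsupp.sum]
      simp only [map_smul, h2, ite_smul, one_smul, zero_smul, smul_ite, smul_zero]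
      rw [sum_ite_mem]
      refine (sum_subset inter_subset_right fun k h1 h2 => ?_).symm
      rw [Finsupp.notMem_support_iff.1 fun h => h2 (mem_inter.2 ⟨h, h1⟩), zero_smul]
    exact (congrFun this x).symm ▸ h1 x
  refine ⟨fun c hc => (mu c hc).imp fun _ h => h.2, φ, b, fun x => ?_, fun x a ha => ?_⟩
  · refine Metric.tendsto_nhds.2 fun ε hε => ?_
    obtain ⟨a, ha⟩ := hd.exists_dist_lt x (show 0 < ε / (|C| + 1) by positivity)
    simp only [SummationFilter.unconditional_filter]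
    filter_upwards [eventually_ge_atTop a.support] with S hS
    have h1 : ∑ k ∈ S, φ k (T a) • e k = T a := by
      simp only [hφ]
      rw [hT, Finsupp.linearCombination_apply, Finsupp.sum_of_support_subset _ hS _ (by simp)]
    have h2 := b S (x - T a)
    simp only [map_sub, sub_smul, sum_sub_distrib, h1] at h2
    rw [dist_eq_norm] at ha ⊢
    rw [lt_div_iff₀ (by positivity)] at ha
    have h3 := norm_sub_le (∑ k ∈ S, φ k x • e k - T a) (x - T a)
    rw [sub_sub_sub_cancel_right] at h3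
    have := mul_le_mul_of_nonneg_right (le_abs_self C) (norm_nonneg (x - T a))
    linarith
  · funext k
    have h1 := (φ k).hasSum ha
    simp only [map_smul, φe, smul_eq_mul, mul_ite, mul_one, mul_zero] at h1
    exact (hasSum_ite_eq k (a k)).unique (by
      convert h1 using 2 with j; split_ifs with h <;> simp [h])

end Abs

end Pool.Agent.H96.UB
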