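import Pool.Agent.H96.UB2

set_option autoImplicit false
set_option linter.unusedSectionVars false
set_option maxHeartbeats 400000

open Filter Topology Finset MeasureTheory
open scoped ENNReal

namespace Pool.Agent.H96.UB

variable [Fact ((0 : ℝ) < 1)]

abbrev Ω := AddCircle (1 : ℝ)

instance prob : IsProbabilityMeasure (volume : Measure Ω) := ⟨by simp⟩

noncomputable def u (ω : Ω) : ℝ := AddCircle.equivIco 1 1 ω

lemma u_meas : Measurable u :=
  measurable_subtype_coe.comp (AddCircle.measurableEquivIco 1 1).measurable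

lemma u_mem (ω : Ω) : 1 ≤ u ω ∧ u ω < 2 := by
  have := (AddCircle.equivIco 1 1 ω).2
  exact ⟨this.1, this.2.trans_eq (by norm_num)⟩

lemma coe_u (ω : Ω) : (u ω : Ω) = ω := AddCircle.coe_equivIco

noncomputable def nd (n : ℕ) (ω : Ω) : ℕ := ⌊(2 : ℝ) ^ n * u ω⌋₊

lemma nd_meas (n : ℕ) : Measurable (nd n) := by
  have := u_meas
  unfold nd; fun_prop

lemma nd_mem (n : ℕ) (ω : Ω) : nd n ω ∈ L n := by
  have h := u_mem ω
  have h2 : (0 : ℝ) < 2 ^ n := by positivity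
  rw [L, mem_Ico, nd, Nat.le_floor_iff (by nlinarith), Nat.floor_lt (by nlinarith)]
  push_cast
  rw [pow_succ]
  constructor <;> nlinarith

lemma nd_half (n : ℕ) (ω : Ω) : nd (n + 1) ω / 2 = nd n ω := by
  rw [nd, nd, ← Nat.floor_div_natCast]
  congr 1; push_cast; rw [pow_succ]; ring

lemma nd_close (n : ℕ) (ω : Ω) : |u ω - nd n ω / 2 ^ n| ≤ (2 ^ n)⁻¹ := by
  have h := u_mem ω
  have h2 : (0 : ℝ) < 2 ^ n := by positivity
  have h3 := Nat.floor_le (show 0 ≤ (2 : ℝ) ^ n * u ω by nlinarith)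
  have h4 := Nat.lt_floor_add_one ((2 : ℝ) ^ n * u ω)
  have : u ω - nd n ω / 2 ^ n = (2 ^ n * u ω - nd n ω) * (2 ^ n)⁻¹ := by field_simp
  rw [this, abs_mul, abs_of_pos (inv_pos.2 h2)]
  refine mul_le_of_le_one_left (by positivity) (abs_le.2 ⟨?_, ?_⟩) <;> unfold nd <;> linarith

lemma vol_cell {n m : ℕ} (hm : m ∈ L n) : volume.real {ω | nd n ω = m} = (2 ^ n)⁻¹ := by
  have h2 : (0 : ℝ) < 2 ^ n := by positivity
  have ms : MeasurableSet {ω | nd n ω = m} := nd_meas n (measurableSet_singleton m)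
  rw [L, mem_Ico] at hm
  have m1 : (2 : ℝ) ^ n ≤ m := by exact_mod_cast hm.1
  have m2 : (m : ℝ) + 1 ≤ 2 ^ n * 2 := by rw [← pow_succ]; exact_mod_cast hm.2
  rw [Measure.real, ← (AddCircle.measurePreserving_mk 1 1).measure_preimage ms.nullMeasurableSet,
    ← Measure.restrict_congr_set Ico_ae_eq_Ioc, Measure.restrict_apply' measurableSet_Ico]
  have : ((↑) : ℝ → Ω) ⁻¹' {ω | nd n ω = m} ∩ Set.Ico 1 (1 + 1) =
      Set.Ico ((m : ℝ) / 2 ^ n) ((m + 1) / 2 ^ n) := by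
    ext x
    simp only [Set.mem_inter_iff, Set.mem_preimage, Set.mem_ofPred_eq, Set.mem_Ico,
      div_le_iff₀ h2, lt_div_iff₀ h2]
    constructor
    · rintro ⟨h1, h3⟩
      rw [nd, u, AddCircle.equivIco_coe_of_mem h3, Nat.floor_eq_iff (by nlinarith)] at h1
      constructor <;> linarith
    · rintro ⟨h1, h3⟩
      have h4 : 1 ≤ x ∧ x < 1 + 1 := by constructor <;> nlinarith
      refine ⟨?_, h4⟩
      rw [nd, u, AddCircle.equivIco_coe_of_mem h4, Nat.floor_eq_iff (by nlinarith)]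
      constructor <;> linarith
  rw [this, Real.volume_Ico, ENNReal.toReal_ofReal (by rw [← sub_div]; simp)]
  field_simp; ring

lemma int_nd (n : ℕ) (G : ℕ → ℝ) : ∫ ω, G (nd n ω) = (2 ^ n)⁻¹ * ∑ m ∈ L n, G m := by
  have ms : ∀ m, MeasurableSet {ω | nd n ω = m} := fun m => nd_meas n (measurableSet_singleton m)
  have : (fun ω => G (nd n ω)) = fun ω => ∑ m ∈ L n, {ω | nd n ω = m}.indicator (fun _ => G m) ω := by
    ext ω
    rw [sum_eq_single_of_mem _ (nd_mem n ω) fun m _ h => Set.indicator_of_notMem (by simpa using h.symm) _]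
    simp
  rw [this, integral_finsetSum _ fun m _ => (integrable_const _).indicator (ms m), mul_sum]
  refine sum_congr rfl fun m hm => ?_
  rw [integral_indicator_const _ (ms m), vol_cell hm, smul_eq_mul]

variable (p : ℝ≥0∞) [Fact (1 ≤ p)]

noncomputable abbrev X := Lp ℂ p (volume : Measure Ω)

lemma mem_nd (n : ℕ) (F : ℕ → ℂ) : MemLp (fun ω => F (nd n ω)) p volume :=
  MemLp.of_bound ((measurable_of_countable F).comp (nd_meas n)).aestronglyMeasurable
    (∑ m ∈ L n, ‖F m‖) (ae_of_all _ fun ω =>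
      single_le_sum (f := fun m => ‖F m‖) (fun _ _ => norm_nonneg _) (nd_mem n ω))

noncomputable def St (n : ℕ) : (ℕ → ℂ) →ₗ[ℂ] X p where
  toFun F := (mem_nd p n F).toLp _
  map_add' _ _ := rfl
  map_smul' _ _ := rfl

lemma St_ae (n : ℕ) (F : ℕ → ℂ) : St p n F =ᵐ[volume] fun ω => F (nd n ω) :=
  (mem_nd p n F).coeFn_toLp

noncomputable def E (n : ℕ) : (ℕ → ℂ) →ₗ[ℂ] X p where
  toFun a := St p n (ps a n)
  map_add' a b := by rw [ps_add, map_add]
  map_smul' c a := by rw [ps_smul, map_smul]; rfl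

lemma E_ae (n : ℕ) (a : ℕ → ℂ) : E p n a =ᵐ[volume] fun ω => ps a n (nd n ω) := St_ae p n _

lemma E_stab {a : ℕ → ℂ} {n : ℕ} (h : ∀ k, 2 ^ n ≤ k → a k = 0) {n' : ℕ} (hn : n ≤ n') :
    E p n' a = E p n a := by
  induction n', hn using Nat.le_induction with
  | base => rfl
  | succ j hj ih =>
    rw [← ih]
    apply Lp.ext
    filter_upwards [E_ae p (j + 1) a, E_ae p j a] with ω h1 h2
    rw [h1, h2, ps, nd_half, h _ ((Nat.pow_le_pow_right (by norm_num) hj).trans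
      (mem_Ico.1 (nd_mem j ω)).1)]
    simp

noncomputable def e (k : ℕ) : X p := E p k (Pi.single k 1)

lemma E_single {k n : ℕ} (h : k < 2 ^ n) : E p n (Pi.single k 1) = e p k := by
  have h1 : ∀ {j : ℕ}, k < 2 ^ j → ∀ i, 2 ^ j ≤ i → (Pi.single k (1 : ℂ) : ℕ → ℂ) i = 0 :=
    fun hj i hi => Pi.single_eq_of_ne (by omega) _
  rw [e, ← E_stab p (h1 h) (le_max_left n k),
    ← E_stab p (h1 Nat.lt_two_pow_self) (le_max_right n k)]

lemma sum_e (S : Finset ℕ) (a : ℕ → ℂ) {n : ℕ} (h : ∀ k ∈ S, k < 2 ^ n) :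
    ∑ k ∈ S, a k • e p k = E p n fun k => if k ∈ S then a k else 0 := by
  have : (fun k => if k ∈ S then a k else 0) = ∑ k ∈ S, a k • (Pi.single k 1 : ℕ → ℂ) := by
    ext j; simp [Pi.single_apply]
  rw [this, map_sum]
  exact sum_congr rfl fun k hk => by rw [map_smul, E_single p (h k hk)]

lemma T_eq (a : ℕ →₀ ℂ) {n : ℕ} (h : ∀ k ∈ a.support, k < 2 ^ n) :
    Finsupp.linearCombination ℂ (e p) a = E p n a := by
  rw [Finsupp.linearCombination_apply, Finsupp.sum, sum_e p _ _ h]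
  congr 1; ext k; split_ifs with h1
  · rfl
  · exact (Finsupp.notMem_support_iff.1 h1).symm

lemma sum_L_ae (n : ℕ) (a : ℕ → ℂ) : (∑ k ∈ L n, a k • e p k : X p) =ᵐ[volume]
    fun ω => sg (nd (n + 1) ω) * a (nd n ω) := by
  rw [sum_e p (L n) a (n := n + 1) fun k hk => (mem_Ico.1 hk).2]
  filter_upwards [E_ae p (n + 1) fun k => if k ∈ L n then a k else 0] with ω h
  rw [h, ps, nd_half, if_pos (nd_mem n ω), ps_low (fun k hk => if_neg (by simp [L]; omega)) _
    (mem_Ico.1 (nd_mem n ω)).2, zero_add]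

variable {p}

lemma norm_St (hp : p ≠ ∞) (n : ℕ) (F : ℕ → ℂ) :
    ‖St p n F‖ = (((2 : ℝ) ^ n)⁻¹ * ∑ m ∈ L n, ‖F m‖ ^ p.toReal) ^ p.toReal⁻¹ := by
  have h0 : p ≠ 0 := (zero_lt_one.trans_le (Fact.out : 1 ≤ p)).ne'
  show ‖(mem_nd p n F).toLp _‖ = _
  rw [Lp.norm_toLp, (mem_nd p n F).eLpNorm_eq_integral_rpow_norm h0 hp,
    ENNReal.toReal_ofReal (by positivity), int_nd n fun m => ‖F m‖ ^ p.toReal]

lemma norm_sum_L (n : ℕ) (a : ℕ → ℂ) : ‖(∑ k ∈ L n, a k • e p k : X p)‖ = ‖St p n a‖ := by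
  apply le_antisymm <;> apply Lp.norm_le_norm_of_ae_le <;>
    filter_upwards [sum_L_ae p n a, St_ae p n a] with ω h1 h2 <;>
    rw [h1, h2, norm_mul, norm_sg, one_mul]

lemma exL {k : ℕ} (h : k ≠ 0) : k ∈ L (Nat.log 2 k) :=
  mem_Ico.2 ⟨Nat.pow_log_le_self 2 h, Nat.lt_pow_succ_log_self (by norm_num) k⟩

lemma e_ne (hp : p ≠ ∞) (k : ℕ) : e p k ≠ 0 := by
  have h0 : p ≠ 0 := (zero_lt_one.trans_le (Fact.out : 1 ≤ p)).ne'
  have h1 : 0 < p.toReal := ENNReal.toReal_pos h0 hp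
  rw [← norm_pos_iff]
  by_cases h : k = 0
  · subst h
    show 0 < ‖St p 0 _‖
    rw [norm_St hp]; simp [L, ps]
  · have := norm_sum_L (p := p) (Nat.log 2 k) (Pi.single k 1)
    rw [sum_eq_single_of_mem k (exL h) fun j _ hj => by simp [hj], norm_St hp,
      sum_eq_single_of_mem k (exL h) fun j _ hj => by simp [hj, h1.ne']] at this
    simp only [Pi.single_eq_same, one_smul, norm_one, Real.one_rpow] at this
    rw [this]; positivity

lemma uncond (h1 : 1 < p) (hp : p ≠ ∞) : ∃ C : ℝ, 0 < C ∧ ∀ a b : ℕ →₀ ℂ, (∀ k, ‖b k‖ ≤ ‖a k‖) →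
    ‖Finsupp.linearCombination ℂ (e p) b‖ ≤ C * ‖Finsupp.linearCombination ℂ (e p) a‖ := by
  have h2 : 1 < p.toReal := by
    rw [← ENNReal.toReal_one]; exact ENNReal.toReal_strict_mono hp h1
  obtain ⟨C, hC, h⟩ := tree h2
  refine ⟨C ^ p.toReal⁻¹, by positivity, fun a b hab => ?_⟩
  have ha : ∀ k ∈ a.support, k < 2 ^ a.support.sup id := fun k hk =>
    (le_sup (f := id) hk).trans_lt Nat.lt_two_pow_self
  have hb : ∀ k ∈ b.support, k < 2 ^ a.support.sup id := fun k hk => ha k (by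
    rw [Finsupp.mem_support_iff, ← norm_pos_iff] at hk ⊢; exact hk.trans_le (hab k))
  rw [T_eq p a ha, T_eq p b hb]
  show ‖St p _ _‖ ≤ _ * ‖St p _ _‖
  rw [norm_St hp, norm_St hp, ← Real.mul_rpow hC.le (by positivity)]
  refine Real.rpow_le_rpow (by positivity) ?_ (by positivity)
  rw [mul_left_comm]
  exact mul_le_mul_of_nonneg_left (h a b hab _) (by positivity)

lemma dense (hp : p ≠ ∞) : DenseRange (Finsupp.linearCombination ℂ (e p)) := by
  intro x
  refine (ContinuousMap.toLp_denseRange ℂ (volume : Measure Ω) ℂ hp).induction_on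
    (p := fun x => x ∈ closure (Set.range (Finsupp.linearCombination ℂ (e p)))) x isClosed_closure ?_
  intro g
  refine Metric.mem_closure_iff.2 fun ε hε => ?_
  obtain ⟨δ, hδ, hg⟩ := Metric.uniformContinuous_iff.1
    (CompactSpace.uniformContinuous_of_continuous g.continuous) (ε / 2) (by positivity)
  obtain ⟨n, hn⟩ := exists_pow_lt_of_lt_one hδ (show (2 : ℝ)⁻¹ < 1 by norm_num)
  obtain ⟨a, a1, a2⟩ := ps_surj n fun m => g (((m : ℝ) / 2 ^ n : ℝ) : Ω)
  let a' : ℕ →₀ ℂ := Finsupp.onFinset (range (2 ^ n)) a fun k hk => by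
    by_contra h; exact hk (a1 k (by simpa using h))
  refine ⟨_, ⟨a', rfl⟩, ?_⟩
  rw [T_eq p a' (n := n) fun k hk => mem_range.1 (Finsupp.support_onFinset_subset hk), dist_eq_norm]
  refine lt_of_le_of_lt (Lp.norm_le_of_ae_bound (C := ε / 2) (by positivity) ?_)
    (by simp [measureUnivNNReal]; linarith)
  filter_upwards [Lp.coeFn_sub (ContinuousMap.toLp p volume ℂ g) (E p n a'), E_ae p n a',
    ContinuousMap.coeFn_toLp (p := p) (𝕜 := ℂ) (volume : Measure Ω) g] with ω h1 h2 h3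
  rw [h1, Pi.sub_apply, h2, h3]
  show ‖g ω - ps a n _‖ ≤ _
  rw [a2 _ (nd_mem n ω), ← dist_eq_norm]
  refine (hg ?_).le
  conv_lhs => rw [← coe_u ω]
  rw [coe_u, dist_eq_norm]
  have h4 : ω - (((nd n ω : ℝ) / 2 ^ n : ℝ) : Ω) = ((u ω - nd n ω / 2 ^ n : ℝ) : Ω) := by
    rw [AddCircle.coe_sub, coe_u]
  rw [h4]
  refine (QuotientAddGroup.norm_mk_le_norm.trans (nd_close n ω)).trans_lt ?_
  rwa [← inv_pow]

end Pool.Agent.H96.UB
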