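import Pool.Agent.H96.UB3

set_option autoImplicit false
set_option linter.unusedSectionVars false
set_option maxHeartbeats 400000

open Filter Topology Finset MeasureTheory
open scoped ENNReal

namespace Pool.Agent.H96.UB

variable [Fact ((0 : ℝ) < 1)] {p : ℝ≥0∞} [Fact (1 ≤ p)]

lemma memF : MemLp (fun ω : Ω => fourier (1 : ℤ) ω) ∞ volume :=
  memLp_top_of_bound (fourier (1 : ℤ)).continuous.aestronglyMeasurable 1
    (ae_of_all _ fun ω => (Circle.norm_coe _).le)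

noncomputable def Mz : X p →L[ℂ] X p :=
  (ContinuousLinearMap.mul ℂ ℂ).holderL volume ∞ p p (memF.toLp _)

lemma Mz_ae (f : X p) : Mz f =ᵐ[volume] fun ω => fourier (1 : ℤ) ω * f ω := by
  filter_upwards [(ContinuousLinearMap.mul ℂ ℂ).coeFn_holder (r := p) (memF.toLp _) f,
    memF.coeFn_toLp] with z h1 h2
  rw [← h2]; exact h1

noncomputable def cc (m : ℕ) : ℂ := fourier (1 : ℤ) (((m : ℝ) / 2 ^ Nat.log 2 m : ℝ) : Ω)

lemma cc_le (m : ℕ) : ‖cc m‖ ≤ 1 := (Circle.norm_coe _).le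

lemma cc_close (n : ℕ) (ω : Ω) : ‖fourier (1 : ℤ) ω - cc (nd n ω)‖ ≤ 8 * (2 ^ n)⁻¹ := by
  have h := mem_Ico.1 (nd_mem n ω)
  have h1 := nd_close n ω
  rw [cc, Nat.log_eq_of_pow_le_of_lt_pow h.1 h.2]
  generalize (nd n ω : ℝ) / 2 ^ n = v at *
  rw [← coe_u ω, fourier_coe_apply, fourier_coe_apply]
  have e : Complex.exp (2 * Real.pi * Complex.I * (1 : ℤ) * u ω / (1 : ℝ)) -
      Complex.exp (2 * Real.pi * Complex.I * (1 : ℤ) * v / (1 : ℝ)) =
      Complex.exp (Complex.I * (2 * Real.pi * v : ℝ)) *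
      (Complex.exp (Complex.I * (2 * Real.pi * (u ω - v) : ℝ)) - 1) := by
    rw [mul_sub, ← Complex.exp_add, mul_one]
    congr 2 <;> push_cast <;> ring
  rw [e, norm_mul, Complex.norm_exp_I_mul_ofReal, one_mul]
  refine Real.norm_exp_I_mul_ofReal_sub_one_le.trans ?_
  rw [Real.norm_eq_abs, abs_mul, abs_of_pos Real.two_pi_pos]
  exact mul_le_mul (by linarith [Real.pi_le_four]) h1 (abs_nonneg _) (by norm_num)

lemma level {D : X p →L[ℂ] X p} (hD : ∀ k, D (e p k) = cc k • e p k) (n : ℕ) (a : ℕ → ℂ) :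
    ‖(Mz (p := p) - D) (∑ k ∈ L n, a k • e p k)‖ ≤ 8 * (2 ^ n)⁻¹ * ‖St p n a‖ := by
  have h : D (∑ k ∈ L n, a k • e p k) = ∑ k ∈ L n, (a k * cc k) • e p k := by
    simp only [map_sum, map_smul, hD, mul_smul]
  apply Lp.norm_le_mul_norm_of_ae_le_mul
  rw [sub_apply, h]
  filter_upwards [Lp.coeFn_sub (Mz (∑ k ∈ L n, a k • e p k)) (∑ k ∈ L n, (a k * cc k) • e p k),
    Mz_ae (∑ k ∈ L n, a k • e p k), sum_L_ae p n a, sum_L_ae p n fun k => a k * cc k,
    St_ae p n a] with ω h1 h2 h3 h4 h5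
  rw [h1, Pi.sub_apply, h2, h3, h4, h5]
  have : fourier (1 : ℤ) ω * (sg (nd (n + 1) ω) * a (nd n ω)) -
      sg (nd (n + 1) ω) * (a (nd n ω) * cc (nd n ω)) =
      sg (nd (n + 1) ω) * ((fourier (1 : ℤ) ω - cc (nd n ω)) * a (nd n ω)) := by ring
  rw [this, norm_mul, norm_sg, one_mul, norm_mul]
  exact mul_le_mul_of_nonneg_right (cc_close n ω) (norm_nonneg _)

theorem main (h1 : 1 < p) (hp : p ≠ ∞) : ∃ D K : X p →L[ℂ] X p,
    (∃ e : ℕ → X p, (∀ f : X p, ∃! a : ℕ → ℂ, HasSum (fun n => a n • e n) f) ∧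
      ∃ c : ℕ → ℂ, ∀ n, D (e n) = c n • e n) ∧
    (∃ C : ℝ, ∀ (n : ℕ) (x : Fin n → X p) (B : ℝ),
      (∀ φ : X p →L[ℂ] ℂ, ‖φ‖ ≤ 1 → ∑ i, ‖φ (x i)‖ ≤ B) → ∑ i, ‖K (x i)‖ ≤ C * B) ∧
    ∀ f : X p, ∀ᵐ t ∂(volume : Measure Ω), fourier (1 : ℤ) t * f t = D f t + K f t := by
  have h2 : 1 < p.toReal := by
    rw [← ENNReal.toReal_one]; exact ENNReal.toReal_strict_mono hp h1
  obtain ⟨C, hC, hu⟩ := uncond h1 hp
  obtain ⟨hm, φ, b1, b2, b3⟩ := abs_basis (e p) C (e_ne hp) (dense hp) hu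
  obtain ⟨D, hD⟩ := hm cc cc_le
  obtain ⟨ρ, r0, r1, hρ⟩ := lp_l2 h2
  refine ⟨D, Mz - D, ⟨e p, fun f => ⟨_, b2 f, fun a ha => b3 f a ha⟩, cc, hD⟩,
    ⟨‖(Mz (p := p) - D) (e p 0)‖ * (‖φ 0‖ + 1) + 64 * C * (1 - ρ)⁻¹, fun N x B hB => ?_⟩, fun f => ?_⟩
  swap
  · filter_upwards [Mz_ae f, Lp.coeFn_sub (Mz f) (D f)] with t a1 a2
    rw [sub_apply, a2, Pi.sub_apply, a1]; ring
  have B0 : 0 ≤ B := by simpa using hB 0 (by simp)
  have hB' : ∀ (ψ : X p →L[ℂ] ℂ) (l : ℝ), 0 < l → (∀ x, ‖ψ x‖ ≤ l * ‖x‖) →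
      ∑ i, ‖ψ (x i)‖ ≤ l * B := fun ψ l hl h => by
    have := hB (((l⁻¹ : ℝ) : ℂ) • ψ) (ContinuousLinearMap.opNorm_le_bound _ zero_le_one fun y => by
      rw [smul_apply, norm_smul, Complex.norm_real, Real.norm_of_nonneg
        (by positivity), inv_mul_le_iff₀ hl, one_mul]
      exact h y)
    simp only [smul_apply, norm_smul, Complex.norm_real,
      Real.norm_of_nonneg (inv_pos.2 hl).le] at this
    rwa [← mul_sum, inv_mul_le_iff₀ hl] at this
  have k2 : ∀ n, ∑ i, ‖St p n fun k => φ k (x i)‖ ≤ 8 * ρ ^ n * (2 ^ n * C * B) := by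
    intro n
    have s1 : ∀ S ∈ (L n).powerset,
        ∑ i, ‖∑ m ∈ L n, if m ∈ S then φ m (x i) else -φ m (x i)‖ ≤ 2 ^ n * C * B := by
      intro S _
      have := hB' (∑ m ∈ L n, if m ∈ S then φ m else -φ m) (2 ^ n * C) (by positivity) fun y => by
        have t1 := b1 (L n) y
        rw [norm_sum_L, norm_St hp] at t1
        have t2 := Real.arith_mean_le_rpow_mean (L n) (fun _ => ((2 : ℝ) ^ n)⁻¹)
          (fun m => ‖φ m y‖) (fun _ _ => by positivity) (by simp [card_L])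
          (fun _ _ => norm_nonneg _) h2.le
        rw [← mul_sum, ← mul_sum, one_div] at t2
        have t3 := t2.trans t1
        rw [inv_mul_le_iff₀ (by positivity), ← mul_assoc] at t3
        rw [_root_.sum_apply]
        refine (norm_sum_le _ _).trans (le_trans (le_of_eq (sum_congr rfl fun m _ => ?_)) t3)
        split_ifs <;> simp
      refine le_trans (le_of_eq (sum_congr rfl fun i _ => ?_)) this
      rw [_root_.sum_apply]
      congr 1
      refine sum_congr rfl fun m _ => ?_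
      split_ifs <;> rfl
    have s2 := sum_le_sum s1
    rw [sum_comm, sum_const, card_powerset, nsmul_eq_mul] at s2
    have s3 := sum_le_sum (s := univ) fun i _ => khC (fun k => φ k (x i)) (L n)
    rw [← mul_sum, ← mul_sum] at s3
    push_cast at s2
    have s4 : ∑ i, Real.sqrt (∑ m ∈ L n, ‖φ m (x i)‖ ^ 2) ≤ 4 * (2 ^ n * C * B) := by
      apply le_of_mul_le_mul_left _ (show (0 : ℝ) < 2 ^ #(L n) by positivity)
      linarith
    simp only [norm_St hp]
    refine (sum_le_sum fun i _ => hρ n fun k => φ k (x i)).trans ?_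
    rw [← mul_sum]
    have := mul_le_mul_of_nonneg_left s4 (show 0 ≤ 2 * ρ ^ n by positivity)
    linarith
  have k3 : ∀ n, ∑ i, ‖(Mz (p := p) - D) (∑ k ∈ range (2 ^ n), φ k (x i) • e p k)‖ ≤
      (‖(Mz (p := p) - D) (e p 0)‖ * (‖φ 0‖ + 1) + 64 * C * ∑ j ∈ range n, ρ ^ j) * B := by
    intro n
    induction n with
    | zero =>
      have := hB' (φ 0) (‖φ 0‖ + 1) (by positivity) fun y =>
        ((φ 0).le_opNorm y).trans (by nlinarith [norm_nonneg y])
      simp only [pow_zero, range_one, sum_singleton, map_smul, norm_smul, range_zero, sum_empty,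
        mul_zero, add_zero]
      rw [← sum_mul, mul_comm, mul_assoc]
      exact mul_le_mul_of_nonneg_left this (norm_nonneg _)
    | succ n ih =>
      have e1 : ∀ i, ‖(Mz (p := p) - D) (∑ k ∈ range (2 ^ (n + 1)), φ k (x i) • e p k)‖ ≤
          ‖(Mz (p := p) - D) (∑ k ∈ range (2 ^ n), φ k (x i) • e p k)‖ +
          8 * (2 ^ n)⁻¹ * ‖St p n fun k => φ k (x i)‖ := fun i => by
        rw [← sum_range_add_sum_Ico _ (Nat.pow_le_pow_right (by norm_num) n.le_succ), map_add]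
        exact (norm_add_le _ _).trans (add_le_add le_rfl (level hD n _))
      refine (sum_le_sum fun i _ => e1 i).trans ?_
      rw [sum_add_distrib, ← mul_sum, sum_range_succ]
      have := mul_le_mul_of_nonneg_left (k2 n) (show (0 : ℝ) ≤ 8 * (2 ^ n)⁻¹ by positivity)
      have e2 : 8 * ((2 : ℝ) ^ n)⁻¹ * (8 * ρ ^ n * (2 ^ n * C * B)) = 64 * C * ρ ^ n * B := by
        field_simp; ring
      rw [e2] at this
      linarith
  have lim : Tendsto (fun n => ∑ i, ‖(Mz (p := p) - D) (∑ k ∈ range (2 ^ n), φ k (x i) • e p k)‖) atTop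
      (𝓝 (∑ i, ‖(Mz (p := p) - D) (x i)‖)) := tendsto_finsetSum _ fun i _ =>
    (((Mz (p := p) - D).continuous.tendsto _).comp ((b2 (x i)).tendsto_sum_nat.comp
      (tendsto_pow_atTop_atTop_of_one_lt one_lt_two))).norm
  refine le_of_tendsto' lim fun n => (k3 n).trans (mul_le_mul_of_nonneg_right ?_ B0)
  have := sum_le_hasSum (range n) (fun j _ => by positivity) (hasSum_geometric_of_lt_one r0.le r1)
  have := mul_le_mul_of_nonneg_left this (show 0 ≤ 64 * C by positivity)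
  linarith

end Pool.Agent.H96.UB
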