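import Mathlib

/-! Degree bound for relations `∑ Q i (x + P i y) = 0`. -/

namespace Pool.Agent.H96.WA

open Polynomial Finset
open scoped Nat

noncomputable def ex {A : Type} [CommRing A] [Algebra ℚ A] (a : A) : PowerSeries A :=
  PowerSeries.rescale a (PowerSeries.exp A)

lemma ex_co {A : Type} [CommRing A] [Algebra ℚ A] (a : A) (n : ℕ) :
    PowerSeries.coeff n (ex a) = a ^ n * algebraMap ℚ A (1 / n !) := by
  simp [ex, PowerSeries.coeff_rescale]

lemma ex_der (a : ℝ) : PowerSeries.derivative ℝ (ex a) = a • ex a := by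
  ext n
  simp only [PowerSeries.coeff_derivative, ex_co, map_smul, smul_eq_mul, Nat.factorial_succ]
  simp only [eq_ratCast]
  push_cast
  field_simp
  ring

theorem EL : ∀ (M : ℕ) (S : Finset ℝ) (τ : ℝ → PowerSeries ℝ) (n : ℝ → ℕ), ∑ a ∈ S, n a = M →
    (∀ a ∈ S, ∀ j, n a ≤ j → PowerSeries.coeff j (τ a) = 0) →
    (∀ j < M, PowerSeries.coeff j (∑ a ∈ S, τ a * ex a) = 0) → ∀ a ∈ S, τ a = 0 := by
  intro M
  induction M with
  | zero =>
    intro S τ n h1 h2 _ a ha
    ext j
    exact h2 a ha j (by rw [sum_eq_zero_iff.1 h1 a ha]; omega)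
  | succ M ih =>
    intro S τ n h1 h2 h3
    obtain ⟨a0, ha0, hn⟩ := exists_ne_zero_of_sum_ne_zero (h1.trans_ne (Nat.succ_ne_zero M))
    have H := ih S (fun b => PowerSeries.derivative ℝ (τ b) + (b - a0) • τ b)
      (Function.update n a0 (n a0 - 1)) (by
        rw [sum_update_of_mem ha0, sdiff_singleton_eq_erase]
        have := add_sum_erase S n ha0
        omega) (by
        intro b hb j hj
        simp only [map_add, map_smul, PowerSeries.coeff_derivative, smul_eq_mul]
        by_cases e : b = a0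
        · subst e
          rw [Function.update_self] at hj
          rw [h2 b hb _ (by omega)]; simp
        · rw [Function.update_of_ne e] at hj
          rw [h2 b hb _ hj, h2 b hb _ (by omega)]; simp) (by
        intro j hj
        have : ∑ b ∈ S, (PowerSeries.derivative ℝ (τ b) + (b - a0) • τ b) * ex b =
            PowerSeries.derivative ℝ (∑ a ∈ S, τ a * ex a) - a0 • ∑ a ∈ S, τ a * ex a := by
          rw [map_sum, smul_sum, ← sum_sub_distrib]
          refine sum_congr rfl fun b _ => ?_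
          rw [Derivation.leibniz, ex_der]
          simp only [smul_eq_mul, add_mul, sub_smul, smul_mul_assoc, mul_smul_comm, sub_mul]
          ring
        rw [this, map_sub, map_smul, PowerSeries.coeff_derivative, h3 _ (by omega),
          h3 _ (by omega)]
        simp)
    have hb : ∀ b ∈ S, b ≠ a0 → τ b = 0 := by
      intro b hb e
      have : ∀ k j, n b ≤ j + k → PowerSeries.coeff j (τ b) = 0 := by
        intro k
        induction k with
        | zero => exact h2 b hb
        | succ k ik =>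
          intro j hj
          have := congrArg (PowerSeries.coeff j) (H b hb)
          simp only [map_add, map_smul, PowerSeries.coeff_derivative, smul_eq_mul, map_zero,
            ik (j + 1) (by omega), zero_mul, zero_add] at this
          exact (mul_eq_zero.1 this).resolve_left (sub_ne_zero.2 e)
      ext j
      exact this (n b) j (by omega)
    intro a ha
    by_cases e : a = a0
    · subst e
      have h4 := h3 0 (by omega)
      rw [sum_eq_single_of_mem a ha (fun b hb' e => by rw [hb b hb' e, zero_mul])] at h4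
      have h5 := H a ha
      simp only [sub_self, zero_smul, add_zero] at h5
      refine PowerSeries.derivative.ext (by rw [h5, map_zero]) ?_
      have h6 := ex_co a 0
      simp only [PowerSeries.coeff_zero_eq_constantCoeff, map_mul] at h4 h6
      simpa [h6] using h4
    · exact hb a ha e

def Le (p : ℝ[X]) (a : ℤ) : Prop := ∀ n : ℕ, a < n → p.coeff n = 0

noncomputable def cf (p : ℝ[X]) (a : ℤ) : ℝ := if 0 ≤ a then p.coeff a.toNat else 0

lemma cf_nat (p : ℝ[X]) (a : ℕ) : cf p a = p.coeff a := by simp [cf]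

lemma cf_ne {p : ℝ[X]} {a : ℤ} (h : cf p a ≠ 0) : ∃ n : ℕ, a = n ∧ p.coeff n ≠ 0 := by
  unfold cf at h
  split_ifs at h with h0
  · exact ⟨a.toNat, by omega, h⟩
  · exact absurd rfl h

lemma cf_le {p : ℝ[X]} {a b : ℤ} (h : cf p a ≠ 0) (hb : Le p b) : a ≤ b := by
  obtain ⟨n, rfl, hn⟩ := cf_ne h
  exact not_lt.1 fun h' => hn (hb n h')

lemma cf_mul {p q : ℝ[X]} {a : ℤ} {b : ℕ} (hp : Le p a) (hq : q.natDegree ≤ b) :
    Le (p * q) (a + b) ∧ cf (p * q) (a + b) = cf p a * q.coeff b := by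
  rcases lt_or_ge a 0 with h | h
  · have : p = 0 := by ext n; exact hp n (by omega)
    subst this
    exact ⟨fun n _ => by simp, by simp [cf]⟩
  · obtain ⟨a, rfl⟩ := Int.eq_ofNat_of_zero_le h
    have h1 : p.natDegree ≤ a := natDegree_le_iff_coeff_eq_zero.2 fun n hn => hp n (by omega)
    refine ⟨fun n hn => coeff_eq_zero_of_natDegree_lt
      ((natDegree_mul_le.trans (add_le_add h1 hq)).trans_lt (by omega)), ?_⟩
    rw [← Nat.cast_add, cf_nat, cf_nat, coeff_mul_add_eq_of_natDegree_le h1 hq]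

lemma Le_sum {ι : Type} (s : Finset ι) {f : ι → ℝ[X]} {a : ℤ} (h : ∀ i ∈ s, Le (f i) a) :
    Le (∑ i ∈ s, f i) a := fun n hn => by
  rw [finsetSum_coeff]; exact sum_eq_zero fun i hi => h i hi n hn

lemma cf_sum {ι : Type} (s : Finset ι) (f : ι → ℝ[X]) (a : ℤ) :
    cf (∑ i ∈ s, f i) a = ∑ i ∈ s, cf (f i) a := by
  unfold cf; split_ifs <;> simp

def Bd (θ : ℕ) (w : ℤ) (G : PowerSeries ℝ[X]) : Prop :=
  ∀ j : ℕ, Le (PowerSeries.coeff j G) (w + θ * j)

noncomputable def tp (θ : ℕ) (w : ℤ) (G : PowerSeries ℝ[X]) : PowerSeries ℝ :=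
  PowerSeries.mk fun j => cf (PowerSeries.coeff j G) (w + θ * j)

lemma tp_mul {θ : ℕ} {w : ℤ} {G : PowerSeries ℝ[X]} {P : ℝ[X]} (hG : Bd θ w G)
    (hP : P.natDegree ≤ θ) :
    Bd θ w (G * ex P) ∧ tp θ w (G * ex P) = tp θ w G * ex (P.coeff θ) := by
  have h1 : ∀ j : ℕ, ∀ x ∈ antidiagonal j,
      Le (PowerSeries.coeff x.1 G * PowerSeries.coeff x.2 (ex P)) (w + θ * j) ∧
      cf (PowerSeries.coeff x.1 G * PowerSeries.coeff x.2 (ex P)) (w + θ * j) =
        PowerSeries.coeff x.1 (tp θ w G) * PowerSeries.coeff x.2 (ex (P.coeff θ)) := by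
    intro j x hx
    have := cf_mul (q := PowerSeries.coeff x.2 (ex P)) (b := x.2 * θ) (hG x.1) (by
      rw [ex_co, Polynomial.algebraMap_apply]
      exact (natDegree_mul_C_le _ _).trans (natDegree_pow_le.trans (Nat.mul_le_mul_left _ hP)))
    rw [show w + θ * x.1 + ((x.2 * θ : ℕ) : ℤ) = w + θ * j by
      rw [← mem_antidiagonal.1 hx]; push_cast; ring] at this
    refine ⟨this.1, this.2.trans ?_⟩
    rw [ex_co, ex_co, Polynomial.algebraMap_apply, coeff_mul_C, coeff_pow_of_natDegree_le hP, tp,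
      PowerSeries.coeff_mk]
  refine ⟨fun j => ?_, ?_⟩
  · rw [PowerSeries.coeff_mul]; exact Le_sum _ fun x hx => (h1 j x hx).1
  · ext j
    rw [tp, PowerSeries.coeff_mk, PowerSeries.coeff_mul, PowerSeries.coeff_mul, cf_sum]
    exact sum_congr rfl fun x hx => (h1 j x hx).2

lemma conv {θ μ N : ℕ} {w : ℤ} {G : PowerSeries ℝ[X]} (hG : Bd θ w G) (hμ : μ < N)
    (h : PowerSeries.coeff μ (tp θ w G) ≠ 0) : ∃ w', Bd (θ + 1) w' G ∧ tp (θ + 1) w' G ≠ 0 ∧
      ∀ j, N ≤ j → PowerSeries.coeff j (tp (θ + 1) w' G) = 0 := by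
  classical
  rw [tp, PowerSeries.coeff_mk] at h
  obtain ⟨n, hn, hn'⟩ := cf_ne h
  have hm : μ ∈ (range (μ + 1)).filter fun j => PowerSeries.coeff j G ≠ 0 :=
    mem_filter.2 ⟨by simp, fun e => hn' (by rw [e, coeff_zero])⟩
  obtain ⟨j0, hj0, hmax⟩ := exists_max_image _
    (fun j : ℕ => ((PowerSeries.coeff j G).natDegree : ℤ) - ((θ + 1 : ℕ) : ℤ) * j) ⟨μ, hm⟩
  set w' := ((PowerSeries.coeff j0 G).natDegree : ℤ) - ((θ + 1 : ℕ) : ℤ) * j0 with hw'
  have h1 := hmax μ hm
  have h2 : (n : ℤ) ≤ (PowerSeries.coeff μ G).natDegree := by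
    exact_mod_cast le_natDegree_of_ne_zero hn'
  have key : ∀ j : ℕ, μ < j → w + θ * j < w' + ((θ + 1 : ℕ) : ℤ) * j := by
    intro j hj
    have : (μ : ℤ) < j := by exact_mod_cast hj
    push_cast at h1 ⊢
    nlinarith
  refine ⟨w', fun j m hm' => ?_, fun e => ?_, fun j hj => ?_⟩
  · rcases lt_or_ge μ j with hj | hj
    · exact hG j m ((key j hj).trans hm')
    · by_cases e : PowerSeries.coeff j G = 0
      · rw [e, coeff_zero]
      · have := hmax j (mem_filter.2 ⟨by simp; omega, e⟩)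
        exact coeff_eq_zero_of_natDegree_lt (by omega)
  · have := congrArg (PowerSeries.coeff j0) e
    rw [tp, PowerSeries.coeff_mk, hw', sub_add_cancel, cf_nat, map_zero] at this
    exact (mem_filter.1 hj0).2 (leadingCoeff_eq_zero.1 this)
  · rw [tp, PowerSeries.coeff_mk]
    by_contra e
    exact absurd (cf_le e (hG j)) (not_le.2 (key j (by omega)))

section
variable {ι : Type} (P : ι → ℝ[X]) (B : ι → PowerSeries ℝ) (o : ι → ℕ)

noncomputable def GG (s : Finset ι) (Q : ℝ[X]) : PowerSeries ℝ[X] :=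
  ∑ i ∈ s, PowerSeries.map C (B i) * ex (P i - Q)

lemma up {s : Finset ι} {Q : ℝ[X]} {θ β : ℕ} (h1 : ∀ i ∈ s, (P i - Q).natDegree ≤ θ)
    (h2 : ∀ i ∈ s, ∀ j < β, PowerSeries.coeff j (B i) = 0) : Bd θ (-(θ * β)) (GG P B s Q) := by
  intro j
  rw [GG, map_sum]
  refine Le_sum _ fun i hi => (tp_mul (fun k n hn => ?_) (h1 i hi)).1 j
  rw [PowerSeries.coeff_map]
  rcases lt_or_ge k β with h | h
  · rw [h2 i hi k h, map_zero, coeff_zero]
  · have : (θ : ℤ) * β ≤ θ * k := by exact_mod_cast Nat.mul_le_mul_left θ h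
    exact coeff_C_of_ne_zero (by omega)

theorem JJ : ∀ (θ : ℕ) (s : Finset ι) (Q : ℝ[X]),
    (∀ i ∈ s, ∀ j ∈ s, i ≠ j → 0 < (P i - P j).natDegree) →
    (∀ i ∈ s, PowerSeries.coeff (o i) (B i) ≠ 0 ∧ ∀ j < o i, PowerSeries.coeff j (B i) = 0) →
    (∀ i ∈ s, (P i - Q).natDegree ≤ θ) → ∀ i0 ∈ s, ∃ (w : ℤ) (μ : ℕ), μ < o i0 + s.card ∧
      Bd θ w (GG P B s Q) ∧ PowerSeries.coeff μ (tp θ w (GG P B s Q)) ≠ 0 := by
  intro θ
  induction θ with
  | zero =>
    intro s Q hP ho hQ i0 hi0
    have hs : s = {i0} := by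
      refine eq_singleton_iff_unique_mem.2 ⟨hi0, fun i hi => by_contra fun e => ?_⟩
      have := hP i hi i0 hi0 e
      rw [show P i - P i0 = (P i - Q) - (P i0 - Q) by ring] at this
      have h2 := natDegree_sub_le (P i - Q) (P i0 - Q)
      have := hQ i hi
      have := hQ i0 hi0
      omega
    subst hs
    have hb : Bd 0 0 (PowerSeries.map C (B i0)) := fun k n hn => by
      rw [PowerSeries.coeff_map]; exact coeff_C_of_ne_zero (by omega)
    have := tp_mul hb (hQ i0 hi0)
    refine ⟨0, o i0, by simp, by simpa [GG] using this.1, ?_⟩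
    have ht : tp 0 0 (PowerSeries.map C (B i0)) = B i0 := by ext j; simp [tp, cf]
    rw [GG, sum_singleton, this.2, ht, PowerSeries.coeff_mul,
      sum_eq_single_of_mem (o i0, 0) (by simp)]
    · simpa [ex_co] using (ho i0 hi0).1
    · intro x hx e
      have h1 := mem_antidiagonal.1 hx
      have : x.2 ≠ 0 := fun h => e (Prod.ext (by simp; omega) h)
      rw [(ho i0 hi0).2 x.1 (by omega), zero_mul]
  | succ θ ih =>
    classical
    intro s Q hP ho hQ i0 hi0
    let l : ι → ℝ := fun i => (P i - Q).coeff (θ + 1)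
    let c : ℝ → Finset ι := fun a => s.filter fun i => l i = a
    let q : ℝ → ℝ[X] := fun a => Q + monomial (θ + 1) a
    have hq : ∀ a, ∀ i ∈ c a, (P i - q a).natDegree ≤ θ := by
      intro a i hi
      obtain ⟨h1, h2⟩ := mem_filter.1 hi
      refine natDegree_le_iff_coeff_eq_zero.2 fun n hn => ?_
      rw [← sub_sub, coeff_sub, coeff_monomial]
      split_ifs with e
      · rw [← e, ← h2, sub_self]
      · rw [coeff_eq_zero_of_natDegree_lt ((hQ i h1).trans_lt (by omega)), sub_zero]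
    have H : ∀ a ∈ s.image l, ∃ (β : ℕ) (w : ℤ), (∀ i ∈ c a, β ≤ o i) ∧
        w ≤ -(((θ + 1 : ℕ) : ℤ) * β) ∧ Bd (θ + 1) w (GG P B (c a) (q a)) ∧
        tp (θ + 1) w (GG P B (c a) (q a)) ≠ 0 ∧
        ∀ j, β + (c a).card ≤ j → PowerSeries.coeff j (tp (θ + 1) w (GG P B (c a) (q a))) = 0 := by
      intro a ha
      obtain ⟨i, hi, rfl⟩ := mem_image.1 ha
      obtain ⟨i1, h1, h2⟩ := exists_min_image (c (l i)) o ⟨i, mem_filter.2 ⟨hi, rfl⟩⟩
      have hc : c (l i) ⊆ s := filter_subset _ _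
      obtain ⟨w, μ, h3, h4, h5⟩ := ih (c (l i)) (q (l i))
        (fun a ha b hb => hP a (hc ha) b (hc hb)) (fun a ha => ho a (hc ha)) (hq _) i1 h1
      obtain ⟨w', h6, h7, h8⟩ := conv h4 h3 h5
      refine ⟨o i1, w', h2, ?_, h6, h7, h8⟩
      obtain ⟨j, hj⟩ := not_forall.1 fun h => h7 (PowerSeries.ext h)
      rw [tp, PowerSeries.coeff_mk, map_zero] at hj
      have := cf_le hj (up P B (β := o i1) (θ := θ + 1) (fun a ha => (hq _ a ha).trans (Nat.le_succ θ))
        (fun a ha j hj => (ho a (hc ha)).2 j (hj.trans_le (h2 a ha))) j)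
      omega
    choose! β w h1 h2 h3 h4 h5 using H
    have ha0 : l i0 ∈ s.image l := mem_image_of_mem l hi0
    obtain ⟨a1, ha1, hmax⟩ := exists_max_image (s.image l) w ⟨_, ha0⟩
    have hG : GG P B s Q = ∑ a ∈ s.image l, GG P B (c a) (q a) * ex (monomial (θ + 1) a) := by
      rw [GG, ← sum_fiberwise_of_maps_to (g := l) (fun i hi => mem_image_of_mem l hi)]
      refine sum_congr rfl fun a _ => ?_
      rw [GG, sum_mul]
      refine sum_congr rfl fun i _ => ?_
      rw [mul_assoc, ex, ex, ex, PowerSeries.exp_mul_exp_eq_exp_add]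
      simp only [q]; congr 3; ring
    have hb : ∀ a ∈ s.image l, Bd (θ + 1) (w a1) (GG P B (c a) (q a)) := fun a ha j n hn =>
      h3 a ha j n (by have := hmax a ha; omega)
    have hm := fun a ha => tp_mul (P := monomial (θ + 1) a) (hb a ha) (natDegree_monomial_le a)
    have hpos : ∀ a ∈ s.image l, ∃ j : ℕ, j < β a + (c a).card ∧
        0 ≤ w a1 + ((θ + 1 : ℕ) : ℤ) * j := by
      intro a ha
      obtain ⟨j, hj⟩ := not_forall.1 fun h => h4 a ha (PowerSeries.ext h)
      refine ⟨j, not_le.1 fun h => hj (h5 a ha j h), ?_⟩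
      rw [tp, PowerSeries.coeff_mk, map_zero] at hj
      obtain ⟨n, hn, -⟩ := cf_ne hj
      have := hmax a ha
      omega
    obtain ⟨j0, hj0, hj0'⟩ := hpos _ ha0
    have hex : ∃ j : ℕ, 0 ≤ w a1 + ((θ + 1 : ℕ) : ℤ) * j := ⟨j0, hj0'⟩
    have e1 := Nat.find_spec hex
    have e2 := Nat.find_min' hex hj0'
    have hd : ∀ a, PowerSeries.X ^ Nat.find hex ∣ tp (θ + 1) (w a1) (GG P B (c a) (q a)) :=
      fun a => PowerSeries.X_pow_dvd_iff.2 fun m hm => by
        rw [tp, PowerSeries.coeff_mk, cf, if_neg (Nat.find_min hex hm)]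
    choose σ hσ using hd
    by_contra! hcon
    have ht : tp (θ + 1) (w a1) (GG P B s Q) =
        PowerSeries.X ^ Nat.find hex * ∑ a ∈ s.image l, σ a * ex a := by
      rw [mul_sum]
      ext j
      rw [hG, tp, PowerSeries.coeff_mk, map_sum, cf_sum, map_sum]
      refine sum_congr rfl fun a ha => ?_
      have := congrArg (PowerSeries.coeff j) (hm a ha).2
      rwa [tp, PowerSeries.coeff_mk, coeff_monomial_same, hσ, mul_assoc] at this
    have hbd : Bd (θ + 1) (w a1) (GG P B s Q) := fun j => by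
      rw [hG, map_sum]; exact Le_sum _ fun a ha => (hm a ha).1 j
    let n : ℝ → ℕ := Function.update (fun a => (c a).card) (l i0)
      (β (l i0) + (c (l i0)).card - Nat.find hex)
    have := EL _ (s.image l) σ n rfl (fun a ha j hj => by
      rw [← PowerSeries.coeff_X_pow_mul _ (Nat.find hex), ← hσ]
      rcases (hmax a ha).lt_or_eq with e | e
      · rw [tp, PowerSeries.coeff_mk]
        by_contra e'
        have := cf_le e' (h3 a ha _)
        omega
      · refine (congrArg (fun z => PowerSeries.coeff _ (tp (θ + 1) z _)) e).symm.trans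
          (h5 a ha _ ?_)
        by_cases e' : a = l i0
        · subst e'
          simp only [n, Function.update_self] at hj
          omega
        · simp only [n, Function.update_of_ne e'] at hj
          have := h2 a ha
          have : ((θ + 1 : ℕ) : ℤ) * β a ≤ ((θ + 1 : ℕ) : ℤ) * Nat.find hex := by omega
          have : (β a : ℤ) ≤ Nat.find hex := le_of_mul_le_mul_left this (by omega)
          omega) (fun j hj => by
      rw [← PowerSeries.coeff_X_pow_mul _ (Nat.find hex), ← ht]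
      refine hcon _ _ ?_ hbd
      simp only [n] at hj
      rw [sum_update_of_mem ha0, sdiff_singleton_eq_erase] at hj
      have := add_sum_erase _ (fun a => (c a).card) ha0
      have e3 : s.card = ∑ a ∈ s.image l, (c a).card := card_eq_sum_card_image l s
      have := h1 _ ha0 i0 (mem_filter.2 ⟨hi0, rfl⟩)
      omega) a1 ha1
    exact h4 a1 ha1 (by rw [hσ, this, mul_zero])

end

/-- a relation `∑ q i (x + P i y) = 0` forces `deg (q i) + 1 < #ι` -/
theorem alg {ι : Type} [Fintype ι] (P q : ι → ℝ[X]) (hP : ∀ i j, i ≠ j → 0 < (P i - P j).natDegree)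
    (H : ∀ m n : ℤ, ∑ i, (q i).eval ((m : ℝ) + (P i).eval (n : ℝ)) = 0) (i : ι) (hi : q i ≠ 0) :
    (q i).natDegree + 1 < Fintype.card ι := by
  classical
  have inf : (Set.range (Int.cast : ℤ → ℝ)).Infinite := Set.infinite_range_of_injective Int.cast_injective
  have H1 : ∀ r : ℕ, ∑ i, (hasseDeriv r (q i)).comp (P i) = 0 := by
    intro r
    refine eq_zero_of_infinite_isRoot _ (inf.mono ?_)
    rintro _ ⟨n, rfl⟩
    have : ∑ i, taylor ((P i).eval (n : ℝ)) (q i) = 0 := by
      refine eq_zero_of_infinite_isRoot _ (inf.mono ?_)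
      rintro _ ⟨m, rfl⟩
      simpa [eval_finsetSum, taylor_eval] using H m n
    have := congrArg (fun p => p.coeff r) this
    simpa [eval_finsetSum, eval_comp, taylor_coeff] using this
  let s := univ.filter fun i => q i ≠ 0
  obtain ⟨i0, h0, hmax⟩ := exists_max_image s (fun i => (q i).natDegree) ⟨i, by simpa [s] using hi⟩
  set d := (q i0).natDegree with hd
  let B : ι → PowerSeries ℝ := fun i =>
    PowerSeries.mk fun k => if k ≤ d then ((d - k) ! : ℝ) * (q i).coeff (d - k) else 0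
  have hB : ∀ i ∈ s, ∃ k, k ≤ d - (q i).natDegree ∧ PowerSeries.coeff k (B i) ≠ 0 := by
    intro i hi
    refine ⟨_, le_rfl, ?_⟩
    simp only [B, PowerSeries.coeff_mk]
    rw [if_pos (Nat.sub_le _ _), Nat.sub_sub_self (hmax i hi)]
    exact mul_ne_zero (by positivity) (leadingCoeff_ne_zero.2 (mem_filter.1 hi).2)
  have hB' : ∀ i ∈ s, ∃ k, k ≤ d - (q i).natDegree ∧ PowerSeries.coeff k (B i) ≠ 0 ∧
      ∀ j < k, PowerSeries.coeff j (B i) = 0 := fun i hi =>
    ⟨Nat.find (hB i hi), (Nat.find_spec (hB i hi)).1, (Nat.find_spec (hB i hi)).2, fun j hj =>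
      by_contra fun e => Nat.find_min (hB i hi) hj
        ⟨hj.le.trans (Nat.find_spec (hB i hi)).1, e⟩⟩
  choose! o o1 o2 using hB'
  obtain ⟨w, μ, h1, -, h2⟩ := JJ P B o (univ.sup fun i => (P i).natDegree) s 0
    (fun i _ j _ => hP i j) o2
    (fun i _ => by rw [sub_zero]; exact le_sup (f := fun i => (P i).natDegree) (mem_univ i)) i0 h0
  have := o1 i0 h0
  have := card_le_univ s
  have := hmax i (by simpa [s] using hi)
  by_contra hc
  have hμ : μ ≤ d := by omega
  apply h2
  have : PowerSeries.coeff μ (GG P B s 0) = C ((d - μ) ! : ℝ) *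
      ∑ i, (hasseDeriv (d - μ) (q i)).comp (P i) := by
    rw [GG, map_sum, mul_sum, ← sum_subset (subset_univ s) (fun i _ hi => by
      have : q i = 0 := by simpa [s] using hi
      simp [this])]
    refine sum_congr rfl fun i hi => ?_
    have hn : (hasseDeriv (d - μ) (q i)).natDegree < μ + 1 := by
      have := natDegree_hasseDeriv_le (q i) (d - μ)
      have := hmax i hi
      omega
    rw [PowerSeries.coeff_mul, comp, eval₂_eq_sum_range' _ hn, mul_sum,
      ← Finset.Nat.sum_antidiagonal_swap, Finset.Nat.sum_antidiagonal_eq_sum_range_succ_mk]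
    refine sum_congr rfl fun k hk => ?_
    have hk' : k ≤ μ := by simpa [Nat.lt_succ_iff] using hk
    simp only [Prod.fst_swap, Prod.snd_swap, PowerSeries.coeff_map, B, PowerSeries.coeff_mk, ex_co,
      Polynomial.algebraMap_apply, hasseDeriv_coeff, sub_zero]
    rw [if_pos (by omega), show d - (μ - k) = k + (d - μ) by omega, mul_comm (P i ^ k), ← mul_assoc,
      ← mul_assoc, ← C_mul, ← C_mul, ← Nat.add_choose_mul_factorial_mul_factorial]
    congr 2
    simp only [eq_ratCast]
    push_cast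
    field_simp
  rw [tp, PowerSeries.coeff_mk, this, H1, mul_zero]
  simp [cf]

end Pool.Agent.H96.WA
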