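import Mathlib

/-! Van der Corput lemma and Weyl's theorem on polynomial exponential sums. -/

namespace Pool.Agent.H96.WA

open Polynomial Finset Filter Topology Complex
open scoped ComplexConjugate

def Av (u : ℕ → ℂ) : Prop := Tendsto (fun N : ℕ => (N : ℂ)⁻¹ * ∑ n ∈ range N, u n) atTop (𝓝 0)

lemma shift_le {u : ℕ → ℂ} (hu : ∀ n, ‖u n‖ ≤ 1) (N h : ℕ) :
    ‖∑ n ∈ range N, u (n + h) - ∑ n ∈ range N, u n‖ ≤ 2 * h := by
  have e1 := sum_range_add u h N
  have e2 := sum_range_add u N h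
  have b : ∀ k, ‖∑ n ∈ range h, u (k + n)‖ ≤ h := fun k =>
    (norm_sum_le _ _).trans ((sum_le_card_nsmul _ _ _ fun n _ => hu _).trans (by simp))
  have : ∑ n ∈ range N, u (n + h) - ∑ n ∈ range N, u n =
      ∑ n ∈ range h, u (N + n) - ∑ n ∈ range h, u (0 + n) := by
    simp only [add_comm h, zero_add] at *
    linear_combination e2 - e1
  rw [this]
  exact (norm_sub_le _ _).trans (by linarith [b N, b 0])

lemma av_of_bdd {v : ℕ → ℂ} {c : ℝ} (h : ∀ N, ‖v N‖ ≤ c) :
    Tendsto (fun N : ℕ => (N : ℂ)⁻¹ * v N) atTop (𝓝 0) := by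
  refine squeeze_zero_norm (fun N => ?_) (tendsto_const_div_atTop_nhds_zero_nat c)
  rw [norm_mul, norm_inv, norm_natCast, div_eq_inv_mul]
  exact mul_le_mul_of_nonneg_left (h N) (by positivity)

lemma Av.shift {u : ℕ → ℂ} (hu : ∀ n, ‖u n‖ ≤ 1) (H : Av u) (h : ℕ) : Av fun n => u (n + h) := by
  have := (av_of_bdd fun N => shift_le hu N h).add H
  rw [add_zero] at this
  exact this.congr fun N => by ring

theorem vdc {u : ℕ → ℂ} (hu : ∀ n, ‖u n‖ ≤ 1) (q : ℕ)
    (H : ∀ h, 1 ≤ h → Av fun n => u (n + q * h) * conj (u n)) : Av u := by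
  have b : ∀ m n, ‖u m * conj (u n)‖ ≤ 1 := fun m n => by
    rw [norm_mul, norm_conj]; exact mul_le_one₀ (hu _) (norm_nonneg _) (hu _)
  have H1 : ∀ h k, h < k → Av fun n => u (n + q * k) * conj (u (n + q * h)) := by
    intro h k hk
    obtain ⟨r, rfl⟩ := Nat.exists_eq_add_of_le hk.le
    have := (H r (by omega)).shift (fun n => b _ _) (q * h)
    simpa only [mul_add, add_assoc] using this
  have H2 : ∀ h k, h ≠ k → Av fun n => u (n + q * k) * conj (u (n + q * h)) := by
    intro h k hk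
    rcases hk.lt_or_gt with e | e
    · exact H1 h k e
    · have := (continuous_conj.tendsto _).comp (H1 k h e)
      rw [map_zero] at this
      exact this.congr fun N => by simp [mul_comm]
  rw [Av, NormedAddGroup.tendsto_nhds_zero]
  intro ε hε
  obtain ⟨K, hK⟩ := exists_nat_gt (8 / ε ^ 2)
  have K0 : (0 : ℝ) < K := lt_trans (by positivity) hK
  have t1 : Tendsto (fun N : ℕ => ∑ p ∈ (range K).offDiag, ‖(N : ℂ)⁻¹ * ∑ n ∈ range N,
      u (n + q * p.2) * conj (u (n + q * p.1))‖) atTop (𝓝 0) := by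
    have := tendsto_finsetSum (range K).offDiag fun p hp => (H2 p.1 p.2 (mem_offDiag.1 hp).2.2).norm
    simpa using this
  have t2 := tendsto_const_div_atTop_nhds_zero_nat (2 * (q * K : ℝ))
  filter_upwards [t1.eventually_lt_const K0, t2.eventually_lt_const (half_pos hε),
    eventually_gt_atTop 0] with N h1 h2 h3
  have N0 : (0 : ℝ) < N := by exact_mod_cast h3
  set z : ℕ → ℂ := fun n => ∑ h ∈ range K, u (n + q * h) with hz
  have s1 : ‖∑ n ∈ range N, z n - K * ∑ n ∈ range N, u n‖ ≤ K * (2 * (q * K)) := by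
    rw [sum_comm, ← nsmul_eq_mul, ← card_range K, ← sum_const, card_range, ← sum_sub_distrib]
    refine (norm_sum_le _ _).trans ((sum_le_card_nsmul _ _ _ fun h hh =>
      (shift_le hu N _).trans (?_ : _ ≤ 2 * (q * K : ℝ))).trans (by simp))
    have : (h : ℝ) ≤ K := by exact_mod_cast (mem_range.1 hh).le
    push_cast; gcongr
  have s2 : ‖∑ n ∈ range N, z n‖ ^ 2 ≤ N * ∑ n ∈ range N, ‖z n‖ ^ 2 := by
    have := sq_sum_le_card_mul_sum_sq (s := range N) (f := fun n => ‖z n‖)
    rw [card_range] at this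
    exact (pow_le_pow_left₀ (norm_nonneg _) (norm_sum_le _ _) 2).trans this
  have s3 : ∑ n ∈ range N, ‖z n‖ ^ 2 ≤ N * (2 * K) := by
    have e : ((∑ n ∈ range N, ‖z n‖ ^ 2 : ℝ) : ℂ) = ∑ p ∈ range K ×ˢ range K,
        ∑ n ∈ range N, u (n + q * p.2) * conj (u (n + q * p.1)) := by
      rw [sum_comm]; push_cast
      refine sum_congr rfl fun n _ => ?_
      rw [← mul_conj', hz, map_sum, mul_comm, sum_mul_sum, ← sum_product']
      simp only [mul_comm]
    have e2 := (re_le_norm _).trans ((congrArg norm e).le.trans (norm_sum_le _ _))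
    rw [ofReal_re, ← diag_union_offDiag, sum_union (disjoint_diag_offDiag _)] at e2
    have e3 : ∑ p ∈ (range K).diag, ‖∑ n ∈ range N, u (n + q * p.2) * conj (u (n + q * p.1))‖ ≤
        K * N := (sum_le_card_nsmul _ _ (N : ℝ) fun p _ => (norm_sum_le _ _).trans
          ((sum_le_card_nsmul _ _ _ fun n _ => b _ _).trans (by simp))).trans (by simp)
    simp only [norm_mul ((N : ℂ)⁻¹), ← mul_sum, norm_inv, norm_natCast] at h1
    rw [inv_mul_lt_iff₀ N0] at h1
    nlinarith
  have s4 : ‖∑ n ∈ range N, z n‖ < K * N * (ε / 2) := by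
    refine lt_of_pow_lt_pow_left₀ 2 (by positivity) (s2.trans_lt ?_)
    rw [div_lt_iff₀ (by positivity)] at hK
    have : (N : ℝ) * (N * (2 * K)) < (K * N * (ε / 2)) ^ 2 := by
      have : (0 : ℝ) < K * N ^ 2 := by positivity
      nlinarith
    exact (mul_le_mul_of_nonneg_left s3 N0.le).trans_lt this
  rw [div_lt_iff₀ N0] at h2
  have s5 := norm_sub_norm_le (K * ∑ n ∈ range N, u n) (∑ n ∈ range N, z n)
  rw [norm_sub_rev, norm_mul, norm_natCast] at s5
  rw [norm_mul, norm_inv, norm_natCast, inv_mul_lt_iff₀ N0]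
  refine lt_of_mul_lt_mul_left ?_ K0.le
  nlinarith

noncomputable def ee (t : ℝ) : ℂ := AddCircle.toCircle (t : UnitAddCircle)

lemma ee_add (s t : ℝ) : ee (s + t) = ee s * ee t := by simp [ee, AddCircle.toCircle_add]

lemma ee_norm (s : ℝ) : ‖ee s‖ = 1 := by simp [ee]

lemma ee_int (k : ℤ) : ee k = 1 := by
  have : ((k : ℝ) : UnitAddCircle) = 0 := (AddCircle.coe_eq_zero_iff _).2 ⟨k, by simp⟩
  simp [ee, this]

lemma ee_ne {s : ℝ} (h : Irrational s) : ee s ≠ 1 := by
  intro e
  have : (s : UnitAddCircle) = 0 := AddCircle.injective_toCircle one_ne_zero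
    (by rw [AddCircle.toCircle_zero]; exact Circle.ext e)
  obtain ⟨k, hk⟩ := (AddCircle.coe_eq_zero_iff _).1 this
  exact h.ne_int k (by simpa using hk.symm)

lemma mul_conj1 {z : ℂ} (h : ‖z‖ = 1) : z * conj z = 1 := by rw [mul_conj', h]; simp

lemma weyl0 : ∀ (d : ℕ) (R : ℝ[X]), R.natDegree ≤ d + 1 → Irrational (R.coeff (d + 1)) →
    ∀ q : ℕ, 1 ≤ q → ∀ v : ℕ → ℂ, (∀ n, ‖v n‖ = 1) → (∀ n, v (n + q) = v n) →
      Av fun n => ee (R.eval (n : ℝ)) * v n := by
  intro d
  induction d with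
  | zero =>
    intro R h1 h2 q hq v h3 h4
    have hz := sub_ne_zero.2 (ee_ne (h2.mul_natCast (m := q) (by omega)))
    have := (av_of_bdd fun N => shift_le (u := fun n => ee (R.eval (n : ℝ)) * v n)
      (fun n => by simp [ee_norm, h3]) N q).const_mul (ee (R.coeff (0 + 1) * q) - 1)⁻¹
    rw [mul_zero] at this
    refine this.congr fun N => ?_
    have e : ∀ n : ℕ, ee (R.eval ((n + q : ℕ) : ℝ)) * v (n + q) =
        ee (R.coeff (0 + 1) * q) * (ee (R.eval (n : ℝ)) * v n) := by
      intro n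
      rw [h4, ← mul_assoc, ← ee_add]
      congr 2
      rw [eq_X_add_C_of_natDegree_le_one h1]
      simp; ring
    simp only [e, ← mul_sum]
    field_simp
  | succ d ih =>
    intro R h1 h2 q hq v h3 h4
    refine vdc (fun n => by simp [ee_norm, h3]) q fun h hh => ?_
    have hv : ∀ k n, v (n + q * k) = v n := fun k n => by
      induction k with
      | zero => rfl
      | succ k ik => rw [mul_add, mul_one, ← add_assoc, h4, ik]
    set a : ℝ := ((q * h : ℕ) : ℝ) with ha
    have := ih (taylor a R - R) (natDegree_le_iff_coeff_eq_zero.2 fun j hj => by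
        have := natDegree_hasseDeriv_le R j
        rw [coeff_sub, taylor_coeff, eq_C_of_natDegree_le_zero (p := hasseDeriv j R) (by omega),
          hasseDeriv_coeff]
        simp) (by
        have := natDegree_hasseDeriv_le R (d + 1)
        rw [coeff_sub, taylor_coeff,
          eq_X_add_C_of_natDegree_le_one (p := hasseDeriv (d + 1) R) (by omega),
          hasseDeriv_coeff, hasseDeriv_coeff]
        simp only [eval_add, eval_mul, eval_C, eval_X, zero_add, Nat.choose_self, Nat.cast_one,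
          one_mul, add_sub_cancel_right, add_comm 1 (d + 1)]
        exact (h2.natCast_mul (Nat.choose_pos (by omega)).ne').mul_natCast
          (Nat.mul_pos hq hh).ne') 1 le_rfl (fun _ => 1) (by simp) (fun _ => rfl)
    refine this.congr fun N => ?_
    congr 1
    refine sum_congr rfl fun n _ => ?_
    beta_reduce
    rw [hv, map_mul, mul_mul_mul_comm, mul_conj1 (h3 n), eval_sub, taylor_eval, Nat.cast_add,
      ← sub_add_cancel (R.eval (n + a)) (R.eval (n : ℝ)), ee_add, mul_one, mul_one, mul_assoc,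
      mul_conj1 (ee_norm _), add_sub_cancel_right, mul_one]

theorem weyl (R : ℝ[X]) {m n : ℤ} (h : Irrational (R.eval (m : ℝ) - R.eval (n : ℝ))) :
    Av fun n => ee (R.eval (n : ℝ)) := by
  classical
  have h0 : ∃ k ∈ R.support, 1 ≤ k ∧ Irrational (R.coeff k) := by
    by_contra! hc
    apply h
    change _ ∈ (algebraMap ℚ ℝ).range
    rw [eval_eq_sum, eval_eq_sum, Polynomial.sum, Polynomial.sum, ← sum_sub_distrib]
    refine Subring.sum_mem _ fun k hk => ?_
    rcases Nat.eq_zero_or_pos k with rfl | e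
    · simp
    · have : R.coeff k ∈ (algebraMap ℚ ℝ).range := not_not.1 (hc k hk e)
      exact sub_mem (mul_mem this (pow_mem (intCast_mem _ _) _))
        (mul_mem this (pow_mem (intCast_mem _ _) _))
  obtain ⟨k0, hk0⟩ := h0
  obtain ⟨k, hk, hmax⟩ := exists_max_image (R.support.filter fun k => 1 ≤ k ∧ Irrational (R.coeff k))
    id ⟨k0, mem_filter.2 hk0⟩
  obtain ⟨-, k1, k2⟩ := mem_filter.1 hk
  obtain ⟨d, rfl⟩ : ∃ d, k = d + 1 := ⟨k - 1, by omega⟩
  set R1 := ∑ i ∈ range (d + 2), monomial i (R.coeff i) with hR1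
  have c1 : ∀ j, R1.coeff j = if j < d + 2 then R.coeff j else 0 := fun j => by
    simp [hR1, finsetSum_coeff, coeff_monomial]
  obtain ⟨S, hS⟩ : R - R1 ∈ lifts (algebraMap ℚ ℝ) := by
    rw [lifts_iff_coeff_lifts]
    intro j
    rw [coeff_sub, c1]
    split_ifs with e
    · exact ⟨0, by simp⟩
    · rw [sub_zero]
      by_contra e2
      have := hmax j (mem_filter.2 ⟨mem_support_iff.2 fun e3 => e2 ⟨0, by simp [e3]⟩, by omega, e2⟩)
      simp only [id] at this
      omega
  obtain ⟨q, hq, hq'⟩ := IsLocalization.integerNormalization_spec (nonZeroDivisors ℤ) S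
  set S' := IsLocalization.integerNormalization (nonZeroDivisors ℤ) S
  have q0 : q ≠ 0 := nonZeroDivisors.ne_zero hq
  have ev : ∀ t : ℤ, (q : ℝ) * (R - R1).eval (t : ℝ) = (S'.eval t : ℤ) := by
    intro t
    have := congrArg (fun p => algebraMap ℚ ℝ (p.eval (t : ℚ))) hq'
    simp only [eval_smul, zsmul_eq_mul, map_mul, map_intCast, eq_intCast, eval_intCast_map,
      Int.cast_id] at this
    rw [← hS, this, coe_mapRingHom, eval_map, ← map_intCast (algebraMap ℚ ℝ) t, eval₂_at_apply]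
    simp
  have := weyl0 d R1 (natDegree_le_iff_coeff_eq_zero.2 fun j hj => by rw [c1, if_neg (by omega)])
    (by rw [c1, if_pos (by omega)]; exact k2) q.natAbs (Int.natAbs_pos.2 q0)
    (fun n => ee ((R - R1).eval (n : ℝ))) (fun _ => ee_norm _) (fun n => by
      obtain ⟨c, hc⟩ := (Int.natAbs_dvd.1 (by simp : (q.natAbs : ℤ) ∣ _)).trans
        (sub_dvd_eval_sub ((n + q.natAbs : ℕ) : ℤ) (n : ℤ) S')
      have h1 := ev ((n + q.natAbs : ℕ) : ℤ)
      have h2 := ev n
      have h3 : (R - R1).eval ((n + q.natAbs : ℕ) : ℝ) = (R - R1).eval (n : ℝ) + c := by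
        refine mul_left_cancel₀ (Int.cast_ne_zero.2 q0 : (q : ℝ) ≠ 0) ?_
        rw [Int.cast_natCast] at h1 h2
        rw [mul_add, h1, h2, sub_eq_iff_eq_add'.1 hc]; push_cast; rfl
      rw [h3, ee_add, ee_int, mul_one])
  simpa only [← ee_add, ← eval_add, add_sub_cancel] using this

end Pool.Agent.H96.WA
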