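import Mathlib

/-! Host–Kra seminorms and polynomial multiple averages. -/

namespace Pool.Agent.H96.WA

open MeasureTheory Filter Topology Finset
open scoped ENNReal ComplexConjugate

variable {X : Type} {m : MeasurableSpace X}

/-- `hk μ T k f` is `|||f|||_{k+1} ^ 2 ^ (k+1)` -/
noncomputable def hk (μ : Measure X) (T : X → X) : ℕ → (X → ℂ) → ℝ≥0∞
  | 0, f => eLpNorm (μ[f | MeasurableSpace.invariants T]) 2 μ ^ 2
  | k + 1, f => liminf (fun H : ℕ =>
      (∑ h ∈ Icc 1 H, hk μ T k fun x => conj (f x) * f (T^[h] x)) / H) atTop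

/-- the average `(1/N) ∑_{n=1}^N ∏_i f_i ∘ T ^ (p_i n)` -/
noncomputable def avg {l : ℕ} (T : Equiv.Perm X) (p : Fin l → Polynomial ℤ) (f : Fin l → X → ℂ)
    (N : ℕ) (x : X) : ℂ :=
  (N : ℂ)⁻¹ * ∑ n ∈ Icc 1 N, ∏ i, f i ((T ^ (p i).eval (n : ℤ)) x)

/-- the sub-σ-algebra `Z` is characteristic for mean convergence of the averages -/
def Char {l : ℕ} (μ : Measure X) (T : Equiv.Perm X) (p : Fin l → Polynomial ℤ)
    (Z : MeasurableSpace X) : Prop :=
  ∀ f : Fin l → X → ℂ, (∀ i, MemLp (f i) ⊤ μ) →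
    Tendsto (fun N => eLpNorm (avg T p f N - avg T p (fun i => μ[f i | Z]) N) 2 μ) atTop (𝓝 0)

/-- Haar probability measure on the torus -/
noncomputable def haar (D : ℕ) : Measure (Fin D → UnitAddCircle) :=
  Measure.pi fun _ => AddCircle.haarAddCircle

end Pool.Agent.H96.WA
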