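import Mathlib
import Pool.Agent.H96.WADefs

/-! Lower bounds for Host–Kra seminorms by correlation with polynomial phases. -/

namespace Pool.Agent.H96.WA

open MeasureTheory Filter Topology Finset Complex
open scoped ENNReal ComplexConjugate

variable {X : Type} {m : MeasurableSpace X} {μ : Measure X} [IsProbabilityMeasure μ] {T : X → X}

def Un (ψ : X → ℂ) : Prop := Measurable ψ ∧ ∀ x, ‖ψ x‖ = 1

def Ph (T : X → X) : ℕ → (X → ℂ) → Prop
  | 0, ψ => Un (m := m) ψ ∧ ∀ x, ψ (T x) = ψ x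
  | k + 1, ψ => Un (m := m) ψ ∧ ∀ h, Ph T k fun x => conj (ψ x) * ψ (T^[h] x)

def LB (μ : Measure X) (T : X → X) (k : ℕ) (c : ℝ) (ψ : X → ℂ) : Prop :=
  ∀ F : X → ℂ, MemLp F ⊤ μ → ENNReal.ofReal (‖∫ x, F x * ψ x ∂μ‖ ^ 2 ^ (k + 1) / c) ≤ hk μ T k F

omit [IsProbabilityMeasure μ] in
lemma Un.mem {ψ : X → ℂ} (h : Un (m := m) ψ) : MemLp ψ ⊤ μ :=
  memLp_top_of_bound h.1.aestronglyMeasurable 1 (Eventually.of_forall fun x => (h.2 x).le)

omit [IsProbabilityMeasure μ] in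
lemma int_comp (hT : MeasurePreserving T μ μ) {g : X → ℂ} (hg : AEStronglyMeasurable g μ) :
    ∫ x, g (T x) ∂μ = ∫ x, g x ∂μ :=
  (integral_map hT.measurable.aemeasurable (by rwa [hT.map_eq])).symm.trans (by rw [hT.map_eq])

omit [IsProbabilityMeasure μ] in
lemma cor_mem (hT : MeasurePreserving T μ μ) {g : X → ℂ} (hg : MemLp g ⊤ μ) (a b : ℕ) :
    MemLp (fun x => conj (g (T^[a] x)) * g (T^[b] x)) ⊤ μ :=
  (hg.comp_measurePreserving (hT.iterate b)).mul' (hg.comp_measurePreserving (hT.iterate a)).star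

lemma pair (γ : ℕ → ℝ) (h0 : ∀ r, 0 ≤ γ r) (K h : ℕ) (hh : h < K) :
    ∑ k ∈ range K, γ (Nat.dist h k) ≤ 2 * ∑ r ∈ range K, γ r := by
  rw [← sum_filter_add_sum_filter_not (range K) (· ≤ h), two_mul]
  refine add_le_add ?_ ?_ <;> rw [← sum_image (f := γ)]
  any_goals refine sum_le_sum_of_subset_of_nonneg (fun r hr => ?_) fun _ _ _ => h0 _
  any_goals (obtain ⟨k, hk, rfl⟩ := mem_image.1 hr; simp [Nat.dist] at *; omega)
  all_goals (intro a ha b hb e; simp [Nat.dist] at *; omega)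

lemma fejer (hT : MeasurePreserving T μ μ) {g : X → ℂ} (hg : MemLp g ⊤ μ) (q K : ℕ) :
    (K * ‖∫ x, g x ∂μ‖) ^ 2 ≤
      K * (2 * ∑ r ∈ range K, ‖∫ x, conj (g x) * g (T^[q * r] x) ∂μ‖) := by
  set z : X → ℂ := fun x => ∑ h ∈ range K, g (T^[q * h] x) with hz
  have hm := fun a => hg.comp_measurePreserving (hT.iterate a)
  have hzm : MemLp z ⊤ μ := memLp_finsetSum _ fun h _ => hm _
  have e1 : ∫ x, z x ∂μ = K * ∫ x, g x ∂μ := by
    refine (integral_finsetSum _ fun h _ => (hm (q * h)).integrable le_top).trans ?_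
    simp [int_comp (hT.iterate _) hg.1]
  have e2 : ‖∫ x, z x ∂μ‖ ^ 2 ≤ ∫ x, ‖z x‖ ^ 2 ∂μ := by
    have h1 := ProbabilityTheory.variance_nonneg (fun x => ‖z x‖) μ
    rw [ProbabilityTheory.variance_eq_sub (hzm.mono_exponent le_top).norm, sub_nonneg] at h1
    exact (pow_le_pow_left₀ (norm_nonneg _) (norm_integral_le_integral_norm _) 2).trans h1
  have e3 : ((∫ x, ‖z x‖ ^ 2 ∂μ : ℝ) : ℂ) = ∑ h ∈ range K, ∑ k ∈ range K,
      ∫ x, conj (g (T^[q * h] x)) * g (T^[q * k] x) ∂μ := by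
    rw [← integral_complex_ofReal, ← sum_product', ← integral_finsetSum _ fun p _ =>
      (cor_mem hT hg _ _).integrable le_top]
    congr 1; funext x
    push_cast
    rw [← conj_mul', hz, map_sum, sum_mul_sum, ← sum_product']
  have e4 : ∀ h r, ∫ x, conj (g (T^[q * h] x)) * g (T^[q * (r + h)] x) ∂μ =
      ∫ x, conj (g x) * g (T^[q * r] x) ∂μ := by
    intro h r
    refine Eq.trans ?_ (int_comp (hT.iterate (q * h)) (cor_mem hT hg 0 (q * r)).1)
    simp only [mul_add, Function.iterate_add_apply, Function.iterate_zero_apply]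
  have e5 : ∀ h k, ‖∫ x, conj (g (T^[q * h] x)) * g (T^[q * k] x) ∂μ‖ =
      ‖∫ x, conj (g x) * g (T^[q * Nat.dist h k] x) ∂μ‖ := by
    intro h k
    rcases le_total h k with e | e
    · rw [Nat.dist_eq_sub_of_le e, ← e4 h, Nat.sub_add_cancel e]
    · rw [Nat.dist_eq_sub_of_le_right e, ← e4 k, Nat.sub_add_cancel e, ← norm_conj,
        ← integral_conj]
      simp [mul_comm]
  have e6 := (re_le_norm _).trans ((congrArg norm e3).le.trans (norm_sum_le _ _))
  rw [ofReal_re] at e6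
  rw [e1, norm_mul, Complex.norm_natCast] at e2
  refine e2.trans (e6.trans ((sum_le_card_nsmul _ _ _ fun h hh => (norm_sum_le _ _).trans
    ((sum_congr rfl fun k _ => e5 h k).le.trans (pair (fun r => ‖∫ x, conj (g x) *
      g (T^[q * r] x) ∂μ‖) (fun _ => norm_nonneg _) K h (mem_range.1 hh)))).trans (by simp)))

lemma step (hT : MeasurePreserving T μ μ) {k q : ℕ} {c : ℝ} (hc : 0 < c) (hq : 1 ≤ q) {ψ : X → ℂ}
    (h1 : Un (m := m) ψ) (h2 : ∀ h, LB μ T k c fun x => conj (ψ x) * ψ (T^[q * h] x)) :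
    LB μ T (k + 1) (q * 4 ^ 2 ^ (k + 1) * c) ψ := by
  intro F hF
  set g : X → ℂ := fun x => F x * ψ x with hg
  have hgm : MemLp g ⊤ μ := h1.mem.mul' hF
  set w := ‖∫ x, g x ∂μ‖ with hw
  have w1 : 0 ≤ w := norm_nonneg _
  rcases w1.eq_or_lt with w0 | w0
  · simp [← w0]
  set γ : ℕ → ℝ := fun r => ‖∫ x, conj (g x) * g (T^[q * r] x) ∂μ‖ with hγ
  obtain ⟨M, hM⟩ : ∃ M, 2 ^ (k + 1) = M + 1 := ⟨_, (Nat.sub_add_cancel Nat.one_le_two_pow).symm⟩
  have t := (tendsto_natCast_atTop_atTop (R := ℝ)).comp (Nat.tendsto_div_const_atTop (n := q) (by omega))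
  refine le_liminf_of_le (by isBoundedDefault) ?_
  filter_upwards [t.eventually_ge_atTop (4 * γ 0 / w ^ 2), eventually_gt_atTop 0] with H hH H0
  set L := H / q with hL
  have l1 : (H : ℝ) ≤ q * (L + 1) := by exact_mod_cast (Nat.lt_mul_div_succ H hq).le
  have f1 := fejer hT hgm q (L + 1)
  rw [Function.comp, div_le_iff₀ (by positivity)] at hH
  have f2 : (L + 1) * w ^ 2 / 4 ≤ ∑ r ∈ Ico 1 (L + 1), γ r := by
    rw [range_eq_Ico, sum_eq_sum_Ico_succ_bot (Nat.succ_pos L)] at f1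
    push_cast at f1
    rw [mul_pow, sq ((L : ℝ) + 1), mul_assoc, mul_le_mul_iff_right₀ (by positivity)] at f1
    change _ ≤ 2 * (γ 0 + ∑ r ∈ Ico 1 (L + 1), γ r) at f1
    nlinarith [sq_nonneg w]
  have f3 := (pow_le_pow_left₀ (by positivity) f2 (M + 1)).trans
    (pow_sum_le_card_mul_sum_pow (fun r _ => norm_nonneg _) M)
  have f4 : (L + 1) * (w ^ 2 / 4) ^ (M + 1) ≤ ∑ r ∈ Ico 1 (L + 1), γ r ^ (M + 1) := by
    rw [mul_div_assoc, mul_pow, pow_succ, mul_assoc] at f3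
    refine le_of_mul_le_mul_left (f3.trans (mul_le_mul_of_nonneg_right ?_
      (sum_nonneg fun r _ => by positivity))) (by positivity)
    gcongr; simp
  rw [ENNReal.le_div_iff_mul_le (.inl (by exact_mod_cast H0.ne')) (.inl (by simp)),
    ← ENNReal.ofReal_natCast, ← ENNReal.ofReal_mul (by positivity)]
  calc _ ≤ ENNReal.ofReal (∑ r ∈ Ico 1 (L + 1), γ r ^ (M + 1) / c) := by
        refine ENNReal.ofReal_le_ofReal ?_
        rw [← sum_div, pow_succ' 2 (k + 1), pow_mul, hM]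
        refine le_trans ?_ (div_le_div_of_nonneg_right f4 hc.le)
        refine (mul_le_mul_of_nonneg_left l1 (by positivity)).trans (le_of_eq ?_)
        have : (q : ℝ) ≠ 0 := by positivity
        rw [div_pow]; field_simp
    _ = ∑ r ∈ Ico 1 (L + 1), ENNReal.ofReal (γ r ^ (M + 1) / c) :=
        ENNReal.ofReal_sum_of_nonneg fun r _ => by positivity
    _ ≤ ∑ r ∈ Ico 1 (L + 1), hk μ T k fun x => conj (F x) * F (T^[q * r] x) := by
        refine sum_le_sum fun r _ => le_trans (le_of_eq ?_) (h2 r _ (cor_mem hT hF 0 (q * r)))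
        simp only [hγ, hg, hM, map_mul, Function.iterate_zero_apply, mul_mul_mul_comm]
    _ ≤ _ := by
        rw [← sum_image (f := fun h => hk μ T k fun x => conj (F x) * F (T^[h] x))
          (g := fun r => q * r) fun a _ b _ e => Nat.eq_of_mul_eq_mul_left hq e]
        refine sum_le_sum_of_subset fun h hh => ?_
        obtain ⟨r, hr, rfl⟩ := mem_image.1 hh
        obtain ⟨r1, r2⟩ := mem_Ico.1 hr
        exact mem_Icc.2 ⟨Nat.mul_pos hq r1,
          (Nat.mul_le_mul_left q (Nat.lt_succ_iff.1 r2)).trans (Nat.mul_div_le H q)⟩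

lemma base {ψ : X → ℂ} (h : Ph (m := m) T 0 ψ) : LB μ T 0 1 ψ := by
  intro F hF
  have hle := MeasurableSpace.invariants_le T
  have hm : StronglyMeasurable[MeasurableSpace.invariants T] ψ :=
    (MeasurableSpace.measurable_invariants_dom.2 ⟨h.1.1, fun s _ => by
      ext x; simp [h.2 x]⟩).stronglyMeasurable
  have hi : Integrable (fun x => ContinuousLinearMap.mul ℝ ℂ (F x) (ψ x)) μ :=
    (h.1.mem.mul' hF : MemLp _ ⊤ μ).integrable le_top
  have e := condExp_bilin_of_stronglyMeasurable_right (ContinuousLinearMap.mul ℝ ℂ) hm hi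
    (hF.integrable le_top)
  have e2 := (integral_condExp (μ := μ) (f := fun x => ContinuousLinearMap.mul ℝ ℂ (F x) (ψ x))
    hle).symm.trans (integral_congr_ae e)
  simp only [ContinuousLinearMap.mul_apply'] at e2
  rw [e2, div_one, hk, ENNReal.ofReal_pow (norm_nonneg _)]
  refine pow_le_pow_left' ?_ 2
  refine (ENNReal.ofReal_le_ofReal (norm_integral_le_integral_norm _)).trans ?_
  simp only [norm_mul, h.1.2, mul_one]
  rw [ofReal_integral_norm_eq_lintegral_enorm integrable_condExp, ← eLpNorm_one_eq_lintegral_enorm]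
  exact eLpNorm_le_eLpNorm_of_exponent_le one_le_two integrable_condExp.1

lemma lbPh (hT : MeasurePreserving T μ μ) : ∀ k, ∃ c, 0 < c ∧ ∀ ψ, Ph (m := m) T k ψ → LB μ T k c ψ
  | 0 => ⟨1, one_pos, fun _ => base⟩
  | k + 1 => by
    obtain ⟨c, hc, H⟩ := lbPh hT k
    exact ⟨_, by positivity, fun ψ h => step hT hc le_rfl h.1 fun r => H _ (h.2 _)⟩

theorem orth (hT : MeasurePreserving T μ μ) {k q : ℕ} (hq : 1 ≤ q) {ψ F : X → ℂ}
    (h1 : Un (m := m) ψ) (h2 : ∀ h, Ph (m := m) T k fun x => conj (ψ x) * ψ (T^[q * h] x))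
    (hF : MemLp F ⊤ μ) (h0 : hk μ T (k + 1) F = 0) : ∫ x, F x * ψ x ∂μ = 0 := by
  obtain ⟨c, hc, H⟩ := lbPh hT k
  have := step hT hc hq h1 (fun h => H _ (h2 h)) F hF
  rw [h0, nonpos_iff_eq_zero, ENNReal.ofReal_eq_zero, div_le_iff₀ (by positivity), zero_mul] at this
  exact norm_eq_zero.1 (pow_eq_zero_iff (by positivity) |>.1 (this.antisymm (by positivity)))

end Pool.Agent.H96.WA
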