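import Mathlib
import Pool.Agent.H96.WA1
import Pool.Agent.H96.WA2
import Pool.Agent.H96.WA3
import Pool.Agent.H96.NJ1

/-! Characters on Weyl systems. -/

namespace Pool.Agent.H96.WA

open MeasureTheory Filter Topology Finset Complex Polynomial
open scoped ENNReal ComplexConjugate

section alg
variable {H : Type} [AddCommGroup H] (u : (Module.End ℤ H)ˣ)

lemma u_succ (m : ℤ) (φ : H) : u ^ (m + 1) • φ = u ^ m • φ + u ^ m • (u.val - 1) φ := by
  rw [← smul_add, zpow_add_one, mul_smul]; simp [Units.smul_def]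

lemma polyK (l : H →+ ℝ) : ∀ (k : ℕ) (φ : H), ((u.val - 1) ^ k) φ = 0 →
    ∃ q : ℝ[X], ∀ m : ℤ, l (u ^ m • φ) = q.eval (m : ℝ)
  | 0, φ, h => ⟨0, fun m => by simp at h; simp [h]⟩
  | k + 1, φ, h => by
    obtain ⟨P, hP⟩ := polyK l k ((u.val - 1) φ) (by rwa [pow_succ] at h)
    obtain ⟨Q, hQ⟩ := NJ.antider P
    have key : ∀ t : ℤ, l (u ^ (t + 1) • φ) - Q.eval ((t : ℝ) + 1) =
        l (u ^ t • φ) - Q.eval (t : ℝ) := fun t => by
      rw [u_succ, map_add, hP]; linarith [hQ t]
    refine ⟨Q + C (l φ - Q.eval 0), fun t => ?_⟩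
    simp only [eval_add, eval_C]
    induction t using Int.induction_on with
    | zero => simp
    | succ n ih => have := key n; push_cast at *; linarith
    | pred n ih =>
      have := key (-n - 1)
      rw [sub_add_cancel] at this
      push_cast at *
      rw [sub_add_cancel] at this
      linarith

lemma fwd (l : H →+ ℝ) {φ : H} {q : ℝ[X]} (h : ∀ m : ℤ, l (u ^ m • φ) = q.eval (m : ℝ)) (k : ℕ) :
    ∀ m : ℤ, l (u ^ m • ((u.val - 1) ^ k) φ) = (fwdDiff (1 : ℝ))^[k] q.eval m := by
  induction k with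
  | zero => exact h
  | succ k ih =>
    intro m
    have := ih (m + 1)
    rw [u_succ, map_add, ih] at this
    rw [Function.iterate_succ_apply', fwdDiff, pow_succ', Module.End.mul_apply]
    push_cast at this
    linarith

lemma fix {v : H} (h : u.val v = v) (m : ℤ) : u ^ m • v = v :=
  (MulAction.stabilizer _ v).zpow_mem (x := u) h m

lemma Npow {v φ : H} {k : ℕ} (h : u.val v = v) (hk : ((u.val - 1) ^ (k + 1)) φ = v) (n : ℕ) :
    ((u.val - 1) ^ k) (u ^ (n : ℤ) • φ - φ) = n • v := by
  induction n with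
  | zero => simp
  | succ n ih =>
    have c : Commute ((u.val - 1) ^ k) (u ^ (n : ℤ)).val := by
      rw [zpow_natCast, Units.val_pow_eq_pow_val]
      exact ((Commute.refl _).sub_left (Commute.one_left _)).pow_pow _ _
    have := fix u h n
    rw [← hk, pow_succ, Units.smul_def, Module.End.smul_def, ← Module.End.mul_apply, ← mul_assoc,
      ← c.eq, ← pow_succ, hk] at this
    push_cast
    rw [u_succ, add_sub_right_comm, map_add, ih, add_smul, one_smul]
    exact congrArg _ this

end alg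

variable {D : ℕ}

abbrev Tor (D : ℕ) : Type := Fin D → UnitAddCircle

abbrev HH (D : ℕ) : Type := (Fin D → ℤ) × ℝ

instance : (haar D).IsAddHaarMeasure := by unfold haar; infer_instance

instance : IsProbabilityMeasure (haar D) := by unfold haar; infer_instance

noncomputable def evT (x : Tor D) : HH D →+ UnitAddCircle where
  toFun φ := ∑ i, φ.1 i • x i + φ.2
  map_zero' := by simp
  map_add' a b := by simp [add_smul, sum_add_distrib]; abel

noncomputable def evR (x : Fin D → ℝ) : HH D →+ ℝ where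
  toFun φ := ∑ i, φ.1 i • x i + φ.2
  map_zero' := by simp
  map_add' a b := by simp [add_mul, sum_add_distrib]; abel

lemma evRT (x : Fin D → ℝ) (φ : HH D) : (evR x φ : UnitAddCircle) = evT (fun i => x i) φ := by
  change QuotientAddGroup.mk' _ (∑ i, φ.1 i • x i + φ.2) = _
  rw [map_add, map_sum]
  simp only [map_zsmul]
  rfl

noncomputable def chi (φ : HH D) (x : Tor D) : ℂ := AddCircle.toCircle (evT x φ)

lemma evT_cont (φ : HH D) : Continuous fun x : Tor D => evT x φ := by
  change Continuous fun x : Tor D => ∑ i, φ.1 i • x i + (φ.2 : UnitAddCircle)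
  fun_prop

lemma chi_un (φ : HH D) : Un (m := MeasurableSpace.pi) (chi φ) :=
  ⟨(continuous_subtype_val.comp (AddCircle.continuous_toCircle.comp (evT_cont φ))).measurable,
    fun x => by simp [chi]⟩

lemma chi_add (φ ψ : HH D) (x : Tor D) : chi (φ + ψ) x = chi φ x * chi ψ x := by
  simp [chi, AddCircle.toCircle_add]

lemma chi_sum {ι : Type} (s : Finset ι) (φ : ι → HH D) (x : Tor D) :
    chi (∑ i ∈ s, φ i) x = ∏ i ∈ s, chi (φ i) x := by
  classical
  induction s using Finset.induction_on with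
  | empty => simp [chi]
  | insert a s ha ih => rw [sum_insert ha, prod_insert ha, chi_add, ih]

lemma chi_four (ξ : Fin D → ℤ) (x : Tor D) : UnitAddTorus.mFourier ξ x = chi (ξ, 0) x := by
  have : ((ξ, 0) : HH D) = ∑ i, (Pi.single i (ξ i), 0) := by
    ext <;> simp [Prod.fst_sum, Prod.snd_sum]
  rw [this, chi_sum]
  change ∏ i, fourier (ξ i) (x i) = _
  refine prod_congr rfl fun i _ => ?_
  simp [chi, evT, fourier_apply, Pi.single_apply, ite_smul]

lemma null {δ : HH D} (h : ∀ c : ℚ, δ ≠ (0, (c : ℝ))) :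
    ∀ᵐ x ∂haar D, ∀ y : Fin D → ℝ, (fun i => (y i : UnitAddCircle)) = x → Irrational (evR y δ) := by
  by_cases h0 : δ.1 = 0
  · refine Eventually.of_forall fun x y _ ⟨c, hc⟩ => h c (Prod.ext h0 ?_)
    simpa [evR, h0] using hc.symm
  obtain ⟨i, hi⟩ := Function.ne_iff.1 h0
  let f : Tor D →+ UnitAddCircle :=
    { toFun := fun x => evT x (δ.1, 0), map_zero' := by simp [evT]
      map_add' := fun a b => by simp [evT, sum_add_distrib] }
  have hf : MeasurePreserving f (haar D) AddCircle.haarAddCircle :=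
    f.measurePreserving (evT_cont _) (fun t => by
      obtain ⟨s, rfl⟩ := QuotientAddGroup.mk_surjective t
      have hi' : (δ.1 i : ℝ) ≠ 0 := by exact_mod_cast hi
      refine ⟨Pi.single i ((s / δ.1 i : ℝ) : UnitAddCircle), ?_⟩
      simp only [f, evT, AddMonoidHom.coe_mk, ZeroHom.coe_mk, Pi.single_apply, smul_ite, smul_zero,
        sum_ite_eq', mem_univ, if_true, AddCircle.coe_zero, add_zero]
      rw [← AddCircle.coe_zsmul, zsmul_eq_mul, mul_div_cancel₀ _ hi']) (by simp)
  have : Nontrivial UnitAddCircle := ⟨⟨((1 / 2 : ℝ) : UnitAddCircle), 0, fun e => by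
    obtain ⟨k, hk⟩ := (AddCircle.coe_eq_zero_iff _).1 e
    have : ((2 * k : ℤ) : ℝ) = (1 : ℤ) := by simp at hk ⊢; rw [hk]; norm_num
    have := Int.cast_injective this
    omega⟩⟩
  have : (𝓝[≠] (0 : UnitAddCircle)).NeBot := inferInstance
  have hc : AddCircle.haarAddCircle
      (Set.range fun c : ℚ => (((c : ℝ) - δ.2 : ℝ) : UnitAddCircle)) = 0 :=
    (Set.countable_range _).measure_zero _
  filter_upwards [measure_eq_zero_iff_ae_notMem.1 (hf.quasiMeasurePreserving.preimage_null hc)]
  rintro x hx y rfl ⟨c, hc⟩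
  refine hx ⟨c, ?_⟩
  simp only [hc, AddCircle.coe_sub, evRT]
  simp [f, evT]

structure Wy (T : Equiv.Perm (Tor D)) (u : (Module.End ℤ (HH D))ˣ) : Prop where
  ev : ∀ x φ, evT (T x) φ = evT x (u • φ)
  fx : ∀ c, u.val (0, c) = (0, c)
  nil : ∃ K : ℕ, ∀ φ, ((u.val - 1) ^ K) φ = 0
  mp : MeasurePreserving T (haar D) (haar D)
  mp' : MeasurePreserving (T⁻¹ : Equiv.Perm (Tor D)) (haar D) (haar D)

lemma exWy {A : Matrix (Fin D) (Fin D) ℤ} {b : Tor D} {T : Equiv.Perm (Tor D)}
    (hA : IsNilpotent (A - 1)) (hT : ∀ x i, T x i = ∑ j, A i j • x j + b i) : ∃ u, Wy T u := by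
  choose c hc using fun i => QuotientAddGroup.mk_surjective (b i)
  let U : Module.End ℤ (HH D) := AddMonoidHom.toIntLinearMap
    { toFun := fun φ => (Matrix.vecMul φ.1 A, evR c φ)
      map_zero' := by simp
      map_add' := fun a b => by simp [Matrix.add_vecMul] }
  have hU : ∀ φ, U φ = (Matrix.vecMul φ.1 A, evR c φ) := fun _ => rfl
  have fx : ∀ c, U (0, c) = (0, c) := fun c => by simp [hU, evR]
  obtain ⟨K, hK⟩ := hA
  have h1 : ∀ k φ, (((U - 1) ^ k) φ).1 = Matrix.vecMul φ.1 ((A - 1) ^ k) := by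
    intro k φ
    induction k with
    | zero => simp
    | succ k ih =>
      rw [pow_succ', Module.End.mul_apply, LinearMap.sub_apply, hU, pow_succ,
        ← Matrix.vecMul_vecMul, ← ih, Matrix.vecMul_sub]
      simp
  have h2 : ∀ φ, ((U - 1) ^ (K + 1)) φ = 0 := fun φ => by
    have := h1 K φ
    rw [hK, Matrix.vecMul_zero] at this
    rw [pow_succ', Module.End.mul_apply, show ((U - 1) ^ K) φ = (0, _) from Prod.ext this rfl,
      LinearMap.sub_apply, fx]
    simp
  have h3 : IsUnit U := by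
    simpa using IsNilpotent.isUnit_add_one ⟨K + 1, LinearMap.ext h2⟩
  let f : Tor D →+ Tor D :=
    { toFun := fun x i => ∑ j, A i j • x j, map_zero' := by ext; simp
      map_add' := fun a b => by ext; simp [sum_add_distrib] }
  have e : ⇑T = (· + b) ∘ f := funext fun x => funext fun i => hT x i
  have hf : Continuous f := continuous_pi fun i => by
    change Continuous fun x : Tor D => ∑ j, A i j • x j
    fun_prop
  have mp : MeasurePreserving T (haar D) (haar D) := by
    rw [e]
    refine (measurePreserving_add_right _ b).comp (f.measurePreserving hf (fun y => ?_) rfl)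
    obtain ⟨x, hx⟩ := T.surjective (y + b)
    exact ⟨x, add_right_cancel (e ▸ hx :)⟩
  have hc' : Continuous T := e ▸ (continuous_add_const b).comp hf
  refine ⟨h3.unit, fun x φ => ?_, fx, ⟨_, h2⟩, mp,
    mp.symm (Continuous.homeoOfEquivCompactToT2 hc').toMeasurableEquiv⟩
  change _ = ∑ i, Matrix.vecMul φ.1 A i • x i + (evR c φ : UnitAddCircle)
  rw [evRT]
  simp only [evT, AddMonoidHom.coe_mk, ZeroHom.coe_mk, hT, smul_add, sum_add_distrib, hc,
    Matrix.vecMul, dotProduct, sum_smul, smul_sum, smul_smul, add_assoc]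
  rw [sum_comm]

variable {T : Equiv.Perm (Tor D)} {u : (Module.End ℤ (HH D))ˣ}

lemma Wy.evz (W : Wy T u) (m : ℤ) : ∀ x φ, evT ((T ^ m) x) φ = evT x (u ^ m • φ) := by
  induction m using Int.induction_on with
  | zero => simp
  | succ n ih => intro x φ; rw [zpow_add_one, Equiv.Perm.mul_apply, ih, W.ev, add_comm,
      zpow_one_add, mul_smul]
  | pred n ih =>
    intro x φ
    rw [zpow_sub_one, Equiv.Perm.mul_apply, ih, ← smul_inv_smul u (u ^ _ • φ), ← W.ev,
      ← mul_smul, sub_eq_neg_add, zpow_add, zpow_neg_one]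
    simp

lemma Wy.mpz (W : Wy T u) (m : ℤ) : MeasurePreserving (T ^ m) (haar D) (haar D) := by
  induction m using Int.induction_on with
  | zero => exact MeasurePreserving.id _
  | succ n ih => rw [zpow_add_one]; exact ih.comp W.mp
  | pred n ih => rw [zpow_sub_one]; exact ih.comp W.mp'

lemma Wy.dif (W : Wy T u) (φ : HH D) (h : ℕ) :
    (fun x => conj (chi φ x) * chi φ (T^[h] x)) = chi (u ^ (h : ℤ) • φ - φ) := by
  funext x
  have : chi φ (T^[h] x) = chi (u ^ (h : ℤ) • φ) x := by
    rw [chi, chi, ← W.evz, zpow_natCast, Equiv.Perm.coe_pow]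
  rw [this, ← add_sub_cancel φ (u ^ (h : ℤ) • φ), chi_add, ← mul_assoc, mul_comm (conj _),
    mul_conj1 ((chi_un φ).2 x), one_mul, add_sub_cancel_left]

lemma Wy.ph (W : Wy T u) : ∀ (k : ℕ) (φ : HH D) (z : ℤ),
    ((u.val - 1) ^ (k + 1)) φ = (0, (z : ℝ)) → Ph (m := MeasurableSpace.pi) T k (chi φ)
  | 0, φ, z, h => ⟨chi_un φ, fun x => by
      have : u • φ = φ + (0, (z : ℝ)) := by rw [← h]; simp [Units.smul_def]
      have h2 : chi ((0, (z : ℝ)) : HH D) x = 1 := by simpa [chi, evT, ee] using ee_int z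
      rw [chi, W.ev, this, ← chi, chi_add, h2, mul_one]⟩
  | k + 1, φ, z, h => ⟨chi_un φ, fun n => by
      rw [W.dif]
      exact W.ph k _ (n * z) (by rw [Npow u (W.fx _) h]; simp)⟩

lemma Wy.low (W : Wy T u) {k : ℕ} {φ : HH D} {c : ℚ} (h : ((u.val - 1) ^ (k + 2)) φ = (0, (c : ℝ)))
    {F : Tor D → ℂ} (hF : MemLp F ⊤ (haar D)) (h0 : hk (haar D) T (k + 1) F = 0) :
    ∫ x, F x * chi φ x ∂haar D = 0 := by
  refine orth W.mp c.pos (chi_un φ) (fun n => ?_) hF h0
  rw [W.dif]
  refine W.ph k _ (n * c.num) ?_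
  rw [Npow u (W.fx _) h]
  have : (c.den : ℝ) ≠ 0 := by exact_mod_cast c.den_ne_zero
  simp [Rat.cast_def]
  field_simp

theorem Wy.chars (W : Wy T u) {l : ℕ} {p : Fin l → ℤ[X]} (h1 : ∀ i, 0 < (p i).natDegree)
    (h2 : ∀ i j, i ≠ j → 0 < (p i - p j).natDegree) (φ : Fin l → HH D) (j : Fin l)
    (hj : ∀ c : ℚ, ((u.val - 1) ^ l) (φ j) ≠ (0, (c : ℝ))) :
    Tendsto (fun N => eLpNorm (avg T p (fun i => chi (φ i)) N) 2 (haar D)) atTop (𝓝 0) := by
  obtain ⟨K, hK⟩ := W.nil
  obtain ⟨g, g1, g2⟩ : ∃ g : HH D →+ ℝ, (∀ c : ℚ, g (0, (c : ℝ)) = 0) ∧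
      g (((u.val - 1) ^ l) (φ j)) ≠ 0 := by
    set v := ((u.val - 1) ^ l) (φ j)
    by_cases h0 : v.1 = 0
    · obtain ⟨f, f1, f2⟩ := Submodule.exists_le_ker_of_notMem (p := Submodule.span ℚ {(1 : ℝ)})
        (v := v.2) fun h => by
          obtain ⟨c, hc⟩ := Submodule.mem_span_singleton.1 h
          exact hj c (Prod.ext h0 (by simpa [Rat.smul_one_eq_cast] using hc.symm))
      refine ⟨((Rat.castHom ℝ).toAddMonoidHom.comp f.toAddMonoidHom).comp (AddMonoidHom.snd _ _),
        fun c => ?_, by simpa using f1⟩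
      simpa using f2 (Submodule.mem_span_singleton.2 ⟨c, Rat.smul_one_eq_cast ℝ c⟩)
    · obtain ⟨i, hi⟩ := Function.ne_iff.1 h0
      exact ⟨((Int.castAddHom ℝ).comp (Pi.evalAddMonoidHom _ i)).comp (AddMonoidHom.fst _ _),
        fun c => by simp, by simpa using hi⟩
  let w : ℤ → HH D := fun n => ∑ i, u ^ (p i).eval n • φ i
  have ev : ∀ i (n : ℤ), ((p i).map (Int.castRingHom ℝ)).eval (n : ℝ) = ((p i).eval n : ℤ) :=
    fun i n => by simp [eval_intCast_map]
  obtain ⟨n0, hn⟩ : ∃ n, ∀ c : ℚ, w n - w 0 ≠ (0, (c : ℝ)) := by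
    by_contra! hc
    choose q hq using fun i => polyK u g K (φ i) (hK _)
    have hw : ∀ m n : ℤ, g (u ^ m • w n) = ∑ i, (q i).eval ((m : ℝ) + ((p i).eval n : ℤ)) := by
      intro m n
      simp only [w, smul_sum, map_sum, ← mul_smul, ← zpow_add, hq, Int.cast_add]
    have inj := (Int.castRingHom ℝ).injective_int
    have := alg (ι := Option (Fin l)) (fun o => o.elim 0 fun i => (p i).map (Int.castRingHom ℝ))
      (fun o => o.elim (-∑ i, taylor (((p i).eval 0 : ℤ) : ℝ) (q i)) q) (by
        rintro (_ | a) (_ | b) e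
        · exact absurd rfl e
        · simpa [natDegree_map_eq_of_injective inj] using h1 b
        · simpa [natDegree_map_eq_of_injective inj] using h1 a
        · simpa only [Option.elim, ← Polynomial.map_sub, natDegree_map_eq_of_injective inj] using
            h2 a b fun h => e (congrArg _ h)) (fun m n => by
        obtain ⟨c, hc⟩ := hc n
        have := congrArg (fun v => g (u ^ m • v)) hc
        simp only [fix u (W.fx _), g1, smul_sub, map_sub, hw] at this
        simp only [Fintype.sum_option, Option.elim, ev, eval_neg, eval_finsetSum, taylor_eval,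
          eval_zero, add_zero]
        linarith) (some j)
    have h3 : (q j).natDegree < l := by
      by_cases e : q j = 0
      · rw [e]; exact j.pos
      · simpa using this e
    have h4 := fwd u g (hq j) l 0
    rw [fwdDiff_iter_eq_zero_of_degree_lt h3] at h4
    exact g2 (by simpa using h4)
  have hm : ∀ N, AEStronglyMeasurable (avg T p (fun i => chi (φ i)) N) (haar D) := fun N =>
    (Measurable.const_mul (measurable_fun_sum _ fun n _ => measurable_fun_prod _ fun i _ =>
      (chi_un _).1.comp (W.mpz _).measurable) _).aestronglyMeasurable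
  have hav : ∀ N x, avg T p (fun i => chi (φ i)) N x =
      (N : ℂ)⁻¹ * ∑ n ∈ range N, chi (w ((n + 1 : ℕ) : ℤ)) x := by
    intro N x
    rw [avg, ← Ico_add_one_right_eq_Icc, sum_Ico_eq_sum_range, Nat.add_sub_cancel]
    simp only [w, chi_sum, add_comm 1]
    simp only [chi, W.evz]
  have := tendsto_Lp_finite_of_tendsto_ae (μ := haar D) (g := 0) one_le_two ENNReal.ofNat_ne_top hm
    MemLp.zero (unifIntegrable_of one_le_two ENNReal.ofNat_ne_top hm fun ε _ => ⟨2, fun N => by
      rw [show {x | 2 ≤ ‖avg T p (fun i => chi (φ i)) N x‖₊} = ∅ from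
        Set.eq_empty_of_forall_notMem fun x hx => ?_]
      · simp
      · have h3 : (2 : ℝ) ≤ ‖avg T p (fun i => chi (φ i)) N x‖ := hx
        rw [hav, norm_mul, norm_inv, Complex.norm_natCast] at h3
        have h4 : ‖∑ n ∈ range N, chi (w ((n + 1 : ℕ) : ℤ)) x‖ ≤ N := (norm_sum_le _ _).trans
          (by simp [(chi_un _).2])
        have := (mul_le_mul_of_nonneg_left h4 (by positivity)).trans
          (inv_mul_le_one_of_le₀ le_rfl (by positivity) : (N : ℝ)⁻¹ * N ≤ 1)
        linarith⟩) (by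
    filter_upwards [null hn] with x hx
    choose y hy using fun i => QuotientAddGroup.mk_surjective (x i)
    choose q hq using fun i => polyK u (evR y) K (φ i) (hK _)
    have hR : ∀ n : ℤ, (∑ i, (q i).comp ((p i).map (Int.castRingHom ℝ))).eval (n : ℝ) =
        evR y (w n) := fun n => by simp only [eval_finsetSum, eval_comp, ev, w, map_sum, hq]
    have := (weyl _ (m := n0) (n := 0) (by
      rw [hR, hR, ← map_sub]; exact hx y (funext hy))).shift (fun n => (ee_norm _).le) 1
    refine this.congr fun N => ?_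
    rw [hav]
    congr 1
    refine sum_congr rfl fun n _ => ?_
    beta_reduce
    rw [← Int.cast_natCast, hR, ee, evRT, funext hy, chi])
  simpa using this

end Pool.Agent.H96.WA
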