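import Mathlib
import Pool.Agent.H96.WA4

/-! Approximation and telescoping. -/

namespace Pool.Agent.H96.WA

open MeasureTheory Filter Topology Finset Complex Polynomial Function
open scoped ENNReal ComplexConjugate

variable {D l : ℕ} {T : Equiv.Perm (Tor D)} {u : (Module.End ℤ (HH D))ˣ} {p : Fin l → ℤ[X]}

def Good (T : Equiv.Perm (Tor D)) (p : Fin l → ℤ[X]) (F : Fin l → Tor D → ℂ) : Prop :=
  Tendsto (fun N => eLpNorm (avg T p F N) 2 (haar D)) atTop (𝓝 0)

lemma avg_upd (F : Fin l → Tor D → ℂ) (j : Fin l) (g : Tor D → ℂ) (N : ℕ) (x : Tor D) :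
    avg T p (update F j g) N x = (N : ℂ)⁻¹ * ∑ n ∈ Icc 1 N, g ((T ^ (p j).eval (n : ℤ)) x) *
      ∏ i ∈ univ.erase j, F i ((T ^ (p i).eval (n : ℤ)) x) := by
  rw [avg]
  congr 1
  refine sum_congr rfl fun n _ => ?_
  rw [← mul_prod_erase univ _ (mem_univ j), update_self]
  congr 1
  exact prod_congr rfl fun i hi => by rw [update_of_ne (ne_of_mem_erase hi)]

lemma Wy.meas (W : Wy T u) {F : Fin l → Tor D → ℂ} (hF : ∀ i, AEStronglyMeasurable (F i) (haar D))
    (N : ℕ) : AEStronglyMeasurable (avg T p F N) (haar D) :=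
  (aestronglyMeasurable_fun_sum _ fun _ _ => aestronglyMeasurable_fun_prod _ fun i _ =>
    (hF i).comp_measurePreserving (W.mpz _)).const_mul _

lemma upd_mem {P : (Tor D → ℂ) → Prop} {F : Fin l → Tor D → ℂ} (hF : ∀ i, P (F i)) (j : Fin l)
    {g : Tor D → ℂ} (hg : P g) (i : Fin l) : P (update F j g i) := by
  by_cases e : i = j
  · subst e; rwa [update_self]
  · rw [update_of_ne e]; exact hF i

lemma Wy.bound (W : Wy T u) {F : Fin l → Tor D → ℂ} (hF : ∀ i, MemLp (F i) ⊤ (haar D)) (j : Fin l) :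
    ∃ c : ℝ, ∀ g, AEStronglyMeasurable g (haar D) → ∀ N,
      eLpNorm (avg T p (update F j g) N) 2 (haar D) ≤ ENNReal.ofReal c * eLpNorm g 2 (haar D) := by
  have hb : ∀ i, ∃ c : ℝ, ∀ᵐ x ∂haar D, ‖F i x‖ ≤ c := fun i => by
    obtain ⟨c, hc⟩ := eLpNormEssSup_lt_top_iff_isBoundedUnder.1 (by simpa using (hF i).2)
    exact ⟨c, hc⟩
  choose c hc using hb
  refine ⟨∏ i ∈ univ.erase j, c i, fun g hg N => ?_⟩
  have e : avg T p (update F j g) N = (N : ℂ)⁻¹ • ∑ n ∈ Icc 1 N, fun x =>
      g ((T ^ (p j).eval (n : ℤ)) x) * ∏ i ∈ univ.erase j, F i ((T ^ (p i).eval (n : ℤ)) x) := by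
    funext x; simp [avg_upd]
  rw [e, eLpNorm_const_smul]
  refine (mul_le_mul_right ((eLpNorm_sum_le (fun n _ => (hg.comp_measurePreserving (W.mpz _)).mul
    (aestronglyMeasurable_fun_prod _ fun i _ => (hF i).1.comp_measurePreserving (W.mpz _)))
    one_le_two).trans (sum_le_card_nsmul _ _
      (ENNReal.ofReal (∏ i ∈ univ.erase j, c i) * eLpNorm g 2 (haar D)) fun n _ => ?_)) _).trans ?_
  · rw [← eLpNorm_comp_measurePreserving hg (W.mpz ((p j).eval (n : ℤ)))]
    refine eLpNorm_le_mul_eLpNorm_of_ae_le_mul ?_ 2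
    filter_upwards [ae_all_iff.2 fun i =>
      (W.mpz ((p i).eval (n : ℤ))).quasiMeasurePreserving.ae (hc i)] with x hx
    rw [Pi.mul_apply, norm_mul, mul_comm, norm_prod]
    exact mul_le_mul_of_nonneg_right (prod_le_prod (fun _ _ => norm_nonneg _) fun i _ => hx i)
      (norm_nonneg _)
  · rw [nsmul_eq_mul, ← mul_assoc]
    refine mul_le_of_le_one_left' ?_
    rcases Nat.eq_zero_or_pos N with rfl | h
    · simp
    · rw [enorm_inv (by exact_mod_cast h.ne'), ← ofReal_norm]
      simp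

lemma Wy.dens (W : Wy T u) {F : Fin l → Tor D → ℂ} (hF : ∀ i, MemLp (F i) ⊤ (haar D)) (j : Fin l)
    (H : ∀ ξ, ∫ x, F j x * chi (-(ξ, 0)) x ∂haar D ≠ 0 → Good T p (update F j (chi (ξ, 0)))) :
    Good T p F := by
  obtain ⟨c, hc⟩ := W.bound (p := p) hF j
  have h2 : MemLp (F j) 2 (haar D) := (hF j).mono_exponent le_top
  let a : (Fin D → ℤ) → ℂ := fun ξ => ∫ x, F j x * chi (-(ξ, 0)) x ∂haar D
  have hs := (Lp.tendsto_Lp_iff_tendsto_eLpNorm' _ _).1
    (UnitAddTorus.hasSum_mFourier_series_L2 (d := Fin D) h2.toLp)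
  have hs' : Tendsto (fun s : Finset (Fin D → ℤ) => ENNReal.ofReal c *
      eLpNorm (F j - ∑ ξ ∈ s, a ξ • chi (ξ, 0)) 2 (haar D)) atTop (𝓝 0) := by
    have := ENNReal.Tendsto.const_mul (a := ENNReal.ofReal c) hs (.inr ENNReal.ofReal_ne_top)
    rw [mul_zero] at this
    refine this.congr fun s => ?_
    congr 1
    rw [← eLpNorm_neg, neg_sub]
    refine eLpNorm_congr_ae (h2.coeFn_toLp.sub ((Lp.coeFn_finsetSum _ _).trans ?_))
    filter_upwards [ae_all_iff.2 fun ξ => Lp.coeFn_smul (UnitAddTorus.mFourierCoeff h2.toLp ξ)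
      (UnitAddTorus.mFourierLp 2 ξ), ae_all_iff.2 fun ξ : Fin D → ℤ =>
        UnitAddTorus.coeFn_mFourierLp 2 ξ] with x h3 h4
    rw [Finset.sum_apply, Finset.sum_apply]
    refine sum_congr rfl fun ξ _ => (h3 ξ).trans ?_
    rw [Pi.smul_apply, Pi.smul_apply, h4, chi_four]
    refine congrArg (fun z : ℂ => z • chi (ξ, 0) x) (integral_congr_ae (μ := haar D) ?_)
    filter_upwards [h2.coeFn_toLp] with y hy
    rw [hy, chi_four, smul_eq_mul, mul_comm]
    simp
  have hm : ∀ ξ, AEStronglyMeasurable (chi ((ξ, 0) : HH D)) (haar D) := fun ξ =>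
    (chi_un _).1.aestronglyMeasurable
  have hm' := fun ξ N => W.meas (p := p) (upd_mem (P := fun g => AEStronglyMeasurable g (haar D))
    (fun i => (hF i).1) j (hm ξ)) N
  rw [Good, ENNReal.tendsto_nhds_zero]
  intro ε hε
  obtain ⟨s, h3⟩ := (ENNReal.tendsto_nhds_zero.1 hs' (ε / 2) (ENNReal.half_pos hε.ne')).exists
  have h4 : Tendsto (fun N => ∑ ξ ∈ s, eLpNorm (a ξ • avg T p (update F j (chi (ξ, 0))) N) 2
      (haar D)) atTop (𝓝 0) := by
    have := tendsto_finsetSum s fun ξ _ => (show Tendsto (fun N => eLpNorm (a ξ •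
        avg T p (update F j (chi (ξ, 0))) N) 2 (haar D)) atTop (𝓝 0) by
      by_cases e : a ξ = 0
      · simp [e]
      · simp only [eLpNorm_const_smul]
        simpa using ENNReal.Tendsto.const_mul (a := ‖a ξ‖ₑ) (H ξ e) (.inr enorm_ne_top))
    simpa using this
  filter_upwards [ENNReal.tendsto_nhds_zero.1 h4 (ε / 2) (ENNReal.half_pos hε.ne')] with N h5
  have hg : AEStronglyMeasurable (F j - ∑ ξ ∈ s, a ξ • chi (ξ, 0)) (haar D) :=
    (hF j).1.sub (aestronglyMeasurable_sum _ fun ξ _ => (hm ξ).const_smul _)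
  have e : avg T p F N = avg T p (update F j (F j - ∑ ξ ∈ s, a ξ • chi (ξ, 0))) N +
      ∑ ξ ∈ s, a ξ • avg T p (update F j (chi (ξ, 0))) N := by
    funext x
    conv_lhs => rw [← update_eq_self j F]
    simp only [avg_upd, Pi.add_apply, Finset.sum_apply, Pi.smul_apply, Pi.sub_apply, smul_eq_mul,
      sub_mul, sum_sub_distrib, mul_sub, sum_mul, mul_sum]
    rw [sum_comm (s := s)]
    simp only [mul_assoc, mul_left_comm, sub_add_cancel]
  rw [e, ← ENNReal.add_halves ε]
  exact (eLpNorm_add_le (W.meas (upd_mem (P := fun g => AEStronglyMeasurable g (haar D))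
    (fun i => (hF i).1) j hg) N) (aestronglyMeasurable_sum _ fun ξ _ => (hm' ξ N).const_smul _)
    one_le_two).trans (add_le_add ((hc _ hg N).trans h3)
      ((eLpNorm_sum_le (fun ξ _ => (hm' ξ N).const_smul _) one_le_two).trans h5))

theorem Wy.main (W : Wy T u) {k : ℕ} {p : Fin (k + 2) → ℤ[X]} (h1 : ∀ i, 0 < (p i).natDegree)
    (h2 : ∀ i j, i ≠ j → 0 < (p i - p j).natDegree) {F : Fin (k + 2) → Tor D → ℂ}
    (hF : ∀ i, MemLp (F i) ⊤ (haar D)) (j : Fin (k + 2)) (h0 : hk (haar D) T (k + 1) (F j) = 0) :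
    Good T p F := by
  have key : ∀ (s : Finset (Fin (k + 2))) (F : Fin (k + 2) → Tor D → ℂ),
      (∀ i, MemLp (F i) ⊤ (haar D)) →
      (∃ φ, F j = chi φ ∧ ∀ c : ℚ, ((u.val - 1) ^ (k + 2)) φ ≠ (0, (c : ℝ))) →
      (∀ i ∉ s, ∃ φ, F i = chi φ) → Good T p F := by
    intro s
    induction s using Finset.induction_on with
    | empty =>
      rintro F - ⟨φ, e, hφ⟩ h
      choose ψ hψ using fun i => h i (notMem_empty i)
      have := W.chars h1 h2 (update ψ j φ) j (by rwa [update_self])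
      refine (congrArg (Good T p) (funext fun i => ?_)).mpr this
      by_cases e' : i = j
      · subst e'; rw [update_self, e]
      · rw [update_of_ne e', hψ]
    | insert a s _ ih =>
      rintro F hF ⟨φ, e, hφ⟩ h
      by_cases e' : j = a
      · refine ih F hF ⟨φ, e, hφ⟩ fun i hi => ?_
        by_cases e2 : i = a
        · exact ⟨φ, by rw [e2, ← e', e]⟩
        · exact h i (by simp [e2, hi])
      · refine W.dens hF a fun ξ _ => ih _ (upd_mem (P := fun g => MemLp g ⊤ (haar D)) hF a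
          (chi_un _).mem) ⟨φ, by rwa [update_of_ne e'], hφ⟩ fun i hi => ?_
        by_cases e2 : i = a
        · subst e2; exact ⟨_, update_self ..⟩
        · rw [update_of_ne e2]; exact h i (by simp [e2, hi])
  refine W.dens hF j fun ξ hξ => key univ _ (upd_mem (P := fun g => MemLp g ⊤ (haar D)) hF j
    (chi_un _).mem) ⟨_, update_self .., fun c hc => hξ ?_⟩ (by simp)
  exact W.low (c := -c) (by rw [map_neg, hc]; simp) (hF j) h0

theorem Wy.tele (W : Wy T u) {F G : Fin l → Tor D → ℂ} (hF : ∀ i, MemLp (F i) ⊤ (haar D))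
    (hG : ∀ i, MemLp (G i) ⊤ (haar D))
    (H : ∀ K : Fin l → Tor D → ℂ, (∀ i, MemLp (K i) ⊤ (haar D)) → ∀ j, K j = F j - G j →
      Good T p K) :
    Tendsto (fun N => eLpNorm (avg T p F N - avg T p G N) 2 (haar D)) atTop (𝓝 0) := by
  have hp : ∀ (s : Finset (Fin l)) i, MemLp (s.piecewise G F i) ⊤ (haar D) := fun s i => by
    by_cases e : i ∈ s <;> simp [e, hF i, hG i]
  have key : ∀ s : Finset (Fin l), Tendsto (fun N =>
      eLpNorm (avg T p F N - avg T p (s.piecewise G F) N) 2 (haar D)) atTop (𝓝 0) := by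
    intro s
    induction s using Finset.induction_on with
    | empty => simp
    | insert a s ha ih =>
      have h3 := upd_mem (P := fun g => MemLp g ⊤ (haar D)) (hp s) a ((hF a).sub (hG a))
      have := ih.add (H _ h3 a (update_self ..))
      rw [add_zero] at this
      refine tendsto_of_tendsto_of_tendsto_of_le_of_le tendsto_const_nhds this
        (fun _ => zero_le) fun N => le_trans (le_of_eq ?_) (eLpNorm_add_le
          ((W.meas (fun i => (hF i).1) N).sub (W.meas (fun i => (hp s i).1) N))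
          (W.meas (fun i => (h3 i).1) N) one_le_two)
      congr 1
      funext x
      have e : s.piecewise G F = update (s.piecewise G F) a (F a) := by
        rw [← piecewise_eq_of_notMem s G F ha, update_eq_self]
      have := avg_upd (T := T) (p := p) (s.piecewise G F) a (F a) N x
      rw [← e] at this
      simp only [piecewise_insert, Pi.add_apply, Pi.sub_apply, this, avg_upd, sub_mul,
        sum_sub_distrib]
      ring
  simpa using key univ

end Pool.Agent.H96.WA
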