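import Mathlib

namespace Pool.Agent.H96.WG
open Finset Filter Topology

noncomputable section

def PP (t : ℕ → ℝ) : Prop :=
  ∃ a : ℕ → ℝ, (∀ n, 0 ≤ a n) ∧ Summable (fun n => a n ^ 2) ∧
    ∀ n, t n ≤ a n * ∑ j ∈ range (n + 1), a j

theorem suff {H : Type*} [NormedAddCommGroup H] [InnerProductSpace ℝ H] (D : Set H)
    (hD1 : ∀ g ∈ D, ‖g‖ = 1) (hD : Dense (Submodule.span ℝ D : Set H)) (t : ℕ → ℝ)
    (ht1 : ∀ n, t n ≤ 1) (hP : ¬ PP t) (f φ : ℕ → H) (h1 : ∀ n, φ n ∈ D)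
    (h2 : ∀ n, ∀ g ∈ D, t n * |inner ℝ (f n) g| ≤ |inner ℝ (f n) (φ n)|)
    (h3 : ∀ n, f (n + 1) = f n - inner ℝ (f n) (φ n) • φ n) :
    Tendsto (fun n => ‖f n‖) atTop (𝓝 0) := by
  set c : ℕ → ℝ := fun n => |inner ℝ (f n) (φ n)| with hc
  have c0 : ∀ n, 0 ≤ c n := fun n => abs_nonneg _
  have e1 : ∀ n, ‖f (n + 1)‖ ^ 2 = ‖f n‖ ^ 2 - c n ^ 2 := by
    intro n
    rw [h3, norm_sub_sq_real, inner_smul_right, norm_smul, hD1 _ (h1 n), hc]
    simp only [Real.norm_eq_abs, mul_one, sq_abs]; ring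
  have e2 : ∀ n, ∑ j ∈ range n, c j ^ 2 = ‖f 0‖ ^ 2 - ‖f n‖ ^ 2 := by
    intro n; induction n with
    | zero => simp
    | succ n ih => rw [sum_range_succ, ih, e1]; ring
  have hs : Summable fun n => c n ^ 2 :=
    summable_of_sum_range_le (fun n => sq_nonneg _) (c := ‖f 0‖ ^ 2) fun n => by
      rw [e2]; linarith [sq_nonneg ‖f n‖]
  have anti : Antitone fun n => ‖f n‖ := antitone_nat_of_succ_le fun n => by
    have := e1 n
    exact abs_le_of_sq_le_sq' (by linarith [sq_nonneg (c n)]) (norm_nonneg _) |>.2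
  have good : ∀ δ > 0, ∀ n₀, ∃ n ≥ n₀, c n * ∑ j ∈ range (n + 1), c j < δ ^ 2 * t n := by
    intro δ hδ n₀
    by_contra hn
    push Not at hn
    apply hP
    let a : ℕ → ℝ := fun n => c n / δ + if n < n₀ then 1 else 0
    have a0 : ∀ n, c n / δ ≤ a n := fun n => by simp only [a]; split_ifs <;> simp
    have a1 : ∀ n, 0 ≤ a n := fun n => (div_nonneg (c0 n) hδ.le).trans (a0 n)
    refine ⟨a, a1, ?_, fun n => ?_⟩
    · rw [← summable_nat_add_iff n₀]
      refine (((summable_nat_add_iff n₀).2 hs).div_const (δ ^ 2)).congr fun n => ?_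
      simp [a, div_pow]
    · by_cases h : n < n₀
      · have h1 : 1 ≤ a n := by
          simp only [a, if_pos h]; linarith [div_nonneg (c0 n) hδ.le]
        have h2 : a n ≤ ∑ j ∈ range (n + 1), a j :=
          single_le_sum (fun j _ => a1 j) (self_mem_range_succ n)
        nlinarith [ht1 n]
      · have h1 := hn n (not_lt.1 h)
        have h2 : (∑ j ∈ range (n + 1), c j) / δ ≤ ∑ j ∈ range (n + 1), a j := by
          rw [sum_div]; exact sum_le_sum fun j _ => a0 j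
        have h3 : 0 ≤ ∑ j ∈ range (n + 1), c j := sum_nonneg fun j _ => c0 j
        calc t n ≤ c n / δ * ((∑ j ∈ range (n + 1), c j) / δ) := by
              rw [div_mul_div_comm, le_div_iff₀ (by positivity)]; nlinarith
          _ ≤ _ := mul_le_mul (a0 n) h2 (by positivity) (a1 n)
  have e3 : ∀ n, f 0 - f n = ∑ j ∈ range n, inner ℝ (f j) (φ j) • φ j := by
    intro n; induction n with
    | zero => simp
    | succ n ih => rw [sum_range_succ, ← ih, h3]; abel
  have hspan : ∀ h ∈ Submodule.span ℝ D, ∃ C, 0 ≤ C ∧ ∀ (x : H) (M : ℝ),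
      (∀ g ∈ D, |inner ℝ x g| ≤ M) → 0 ≤ M → |inner ℝ x h| ≤ C * M := by
    intro h hh
    induction hh using Submodule.span_induction with
    | mem g hg => exact ⟨1, zero_le_one, fun x M h _ => by simpa using h g hg⟩
    | zero => exact ⟨0, le_rfl, fun x M _ _ => by simp⟩
    | add g h' _ _ ih1 ih2 =>
      obtain ⟨C1, p1, q1⟩ := ih1
      obtain ⟨C2, p2, q2⟩ := ih2
      refine ⟨C1 + C2, by positivity, fun x M h hM => ?_⟩
      rw [inner_add_right]
      linarith [abs_add_le (inner ℝ x g) (inner ℝ x h'), q1 x M h hM, q2 x M h hM]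
    | smul r g _ ih =>
      obtain ⟨C, p, q⟩ := ih
      refine ⟨|r| * C, by positivity, fun x M h hM => ?_⟩
      rw [inner_smul_right, abs_mul, mul_assoc]
      exact mul_le_mul_of_nonneg_left (q x M h hM) (abs_nonneg r)
  have small : ∀ η > 0, ∃ n, (∀ g ∈ D, |inner ℝ (f n) g| ≤ η) ∧
      |inner ℝ (f n) (f 0 - f n)| ≤ η := by
    intro η hη
    have key : ∀ δ > 0, ∀ n, c n * ∑ j ∈ range (n + 1), c j < δ ^ 2 * t n →
        0 < t n ∧ (∀ g ∈ D, |inner ℝ (f n) g| * ∑ j ∈ range (n + 1), c j ≤ δ ^ 2) ∧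
        |inner ℝ (f n) (f 0 - f n)| ≤ δ ^ 2 := by
      intro δ hδ n hn
      have s0 : 0 ≤ ∑ j ∈ range (n + 1), c j := sum_nonneg fun j _ => c0 j
      have t0 : 0 < t n := by
        by_contra h; push Not at h
        nlinarith [mul_nonneg (c0 n) s0, sq_pos_of_pos hδ]
      have k : ∀ g ∈ D, |inner ℝ (f n) g| * ∑ j ∈ range (n + 1), c j ≤ δ ^ 2 := by
        intro g hg
        have := mul_le_mul_of_nonneg_right (h2 n g hg) s0
        refine le_of_mul_le_mul_left ?_ t0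
        simp only [hc] at hn this ⊢
        nlinarith
      refine ⟨t0, k, ?_⟩
      obtain ⟨j₀, hj₀, hmax⟩ := exists_max_image (range (n + 1))
        (fun j => |inner ℝ (f n) (φ j)|) nonempty_range_add_one
      rw [e3, inner_sum]
      refine (abs_sum_le_sum_abs _ _).trans (le_trans ?_ (k _ (h1 j₀)))
      rw [mul_sum, sum_range_succ]
      refine le_add_of_le_of_nonneg (sum_le_sum fun j hj => ?_) (mul_nonneg (abs_nonneg _) (c0 n))
      rw [inner_smul_right, abs_mul, mul_comm]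
      exact mul_le_mul_of_nonneg_right (hmax j (mem_range.2 (by linarith [mem_range.1 hj])))
        (abs_nonneg _)
    by_cases hz : ∃ m, 0 < c m
    · obtain ⟨m, hm⟩ := hz
      have hδ : 0 < Real.sqrt (η * min 1 (c m)) := Real.sqrt_pos.2 (by positivity)
      obtain ⟨n, hn, hn'⟩ := good _ hδ m
      obtain ⟨-, k1, k2⟩ := key _ hδ n hn'
      rw [Real.sq_sqrt (by positivity)] at k1 k2
      have : c m ≤ ∑ j ∈ range (n + 1), c j :=
        single_le_sum (fun j _ => c0 j) (mem_range.2 (by omega))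
      refine ⟨n, fun g hg => ?_, k2.trans ?_⟩
      · have h4 := k1 g hg
        have h5 := mul_le_mul_of_nonneg_left this (abs_nonneg (inner ℝ (f n) g))
        have h6 := mul_le_mul_of_nonneg_left (min_le_right 1 (c m)) hη.le
        exact le_of_mul_le_mul_right (by linarith) hm
      · exact mul_le_of_le_one_right hη.le (min_le_left _ _)
    · push Not at hz
      have hδ : 0 < Real.sqrt η := Real.sqrt_pos.2 hη
      obtain ⟨n, -, hn'⟩ := good _ hδ 0
      obtain ⟨k0, -, k2⟩ := key _ hδ n hn'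
      rw [Real.sq_sqrt hη.le] at k2
      refine ⟨n, fun g hg => ?_, k2⟩
      have := (h2 n g hg).trans (hz n)
      by_contra h; push Not at h
      nlinarith
  rw [Metric.tendsto_atTop]
  intro ε hε
  have hF : 0 < ‖f 0‖ + 1 := by positivity
  obtain ⟨h, hh, hh'⟩ := hD.exists_dist_lt (f 0) (show 0 < ε ^ 2 / 2 / (‖f 0‖ + 1) by positivity)
  obtain ⟨C, C0, hC⟩ := hspan h hh
  obtain ⟨n, k1, k2⟩ := small (ε ^ 2 / 2 / (C + 2)) (by positivity)
  refine ⟨n, fun m hm => ?_⟩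
  rw [Real.dist_eq, sub_zero, abs_of_nonneg (norm_nonneg _)]
  refine lt_of_le_of_lt (anti hm) (abs_lt_of_sq_lt_sq' ?_ hε.le).2
  have a1 := hC _ _ k1 (by positivity)
  have a2 : |inner ℝ (f n) (f 0 - h)| ≤ ‖f n‖ * ‖f 0 - h‖ := abs_real_inner_le_norm _ _
  have a3 : ‖f n‖ ≤ ‖f 0‖ := anti (Nat.zero_le n)
  rw [dist_eq_norm, lt_div_iff₀ hF] at hh'
  have a4 : ‖f n‖ ^ 2 = inner ℝ (f n) h + inner ℝ (f n) (f 0 - h) - inner ℝ (f n) (f 0 - f n) := by
    rw [inner_sub_right, inner_sub_right, real_inner_self_eq_norm_sq]; ring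
  have a5 : (C + 2) * (ε ^ 2 / 2 / (C + 2)) = ε ^ 2 / 2 := by field_simp
  have a6 : 0 < ε ^ 2 / 2 / (C + 2) := by positivity
  have a7 : ‖f n‖ * ‖f 0 - h‖ ≤ (‖f 0‖ + 1) * ‖f 0 - h‖ := by gcongr; linarith
  have := le_abs_self (inner ℝ (f n) h)
  have := le_abs_self (inner ℝ (f n) (f 0 - h))
  have := neg_abs_le (inner ℝ (f n) (f 0 - f n))
  nlinarith

def VV (x : ℕ → ℝ) : Prop :=
  ∃ q : ℕ → ℕ, q 0 = 0 ∧ StrictMono q ∧
    Summable (fun s => (2 : ℝ) ^ (s + 1) / ((q (s + 1) : ℝ) - q s)) ∧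
    Summable (fun s => ((2 : ℝ) ^ (s + 1))⁻¹ * ∑ k ∈ range (q (s + 1)), x k ^ 2)

end
end Pool.Agent.H96.WG
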