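import Pool.Agent.H96.WG1

namespace Pool.Agent.H96.WG
open Finset Filter Topology

noncomputable section

lemma blocks (q : ℕ → ℕ) (h0 : q 0 = 0) (hq : StrictMono q) (g : ℕ → ℝ) (n : ℕ) :
    ∑ k ∈ range (q n), g k = ∑ s ∈ range n, ∑ k ∈ Ico (q s) (q (s + 1)), g k := by
  induction n with
  | zero => simp [h0]
  | succ n ih => rw [sum_range_succ, ← ih, sum_range_add_sum_Ico _ (hq.monotone (Nat.le_succ n))]

lemma V_of_P (t : ℕ → ℝ) (ht : ∀ n, 0 ≤ t n) (h : PP t) : VV t := by
  obtain ⟨a', a0', hs', ha'⟩ := h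
  let a : ℕ → ℝ := fun n => a' n + 1 / ((n : ℝ) + 1)
  have a0 : ∀ n, 0 ≤ a n := fun n => by have := a0' n; simp only [a]; positivity
  have aa : ∀ n, a' n ≤ a n := fun n => le_add_of_nonneg_right (by positivity)
  have hs : Summable fun n => a n ^ 2 := by
    have h1 : Summable fun n : ℕ => (1 / ((n : ℝ) + 1)) ^ 2 := by
      have := (summable_nat_add_iff 1).2 (Real.summable_one_div_nat_pow.2 one_lt_two)
      simpa using this
    refine Summable.of_nonneg_of_le (fun n => sq_nonneg _) (fun n => ?_)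
      ((hs'.add h1).mul_left 2)
    simp only [a]; nlinarith [sq_nonneg (a' n - 1 / ((n : ℝ) + 1))]
  have ha : ∀ n, t n ≤ a n * ∑ j ∈ range (n + 1), a j := fun n =>
    (ha' n).trans (mul_le_mul (aa n) (sum_le_sum fun j _ => aa j)
      (sum_nonneg fun j _ => a0' j) (a0 n))
  set S : ℕ → ℝ := fun n => ∑ j ∈ range n, a j with hS
  have Sm : Monotone S := monotone_nat_of_le_succ fun n => by
    simp only [S, sum_range_succ]; linarith [a0 n]
  have St : Tendsto S atTop atTop :=
    tendsto_atTop_mono (fun n => sum_le_sum fun j _ => le_add_of_nonneg_left (a0' j))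
      Real.tendsto_sum_range_one_div_nat_succ_atTop
  obtain ⟨B, B0, hB⟩ : ∃ B, 0 ≤ B ∧ ∀ n, a n ≤ B := by
    refine ⟨1 + ∑' n, a n ^ 2, add_nonneg zero_le_one (tsum_nonneg fun n => sq_nonneg (a n)),
      fun n => ?_⟩
    have := hs.le_tsum n fun j _ => sq_nonneg _
    nlinarith [sq_nonneg (a n - 1)]
  set r := Real.sqrt 2
  have r2 : r ^ 2 = 2 := Real.sq_sqrt (by norm_num)
  have r1 : 4 / 3 ≤ r := Real.le_sqrt_of_sq_le (by norm_num)
  have rs : ∀ s : ℕ, 1 ≤ r ^ s := fun s => one_le_pow₀ (by linarith)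
  have rs2 : ∀ s : ℕ, (r ^ s) ^ 2 = 2 ^ s := fun s => by rw [← pow_mul, mul_comm, pow_mul, r2]
  have ex : ∀ m s, ∃ n, S m + r ^ s ≤ S n := fun m s => (St.eventually_ge_atTop _).exists
  let q : ℕ → ℕ := fun s => Nat.rec 0 (fun s m => Nat.find (ex m s)) s
  have q1 : ∀ s, S (q s) + r ^ s ≤ S (q (s + 1)) := fun s => Nat.find_spec (ex (q s) s)
  have q2 : ∀ s m, m < q (s + 1) → S m < S (q s) + r ^ s := fun s m hm =>
    not_le.1 (Nat.find_min (ex (q s) s) hm)
  have hq : StrictMono q := strictMono_nat_of_lt_succ fun s => by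
    by_contra h; push Not at h
    linarith [Sm h, q1 s, rs s]
  have q3 : ∀ s, S (q s) ≤ 3 * (1 + B) * r ^ s := by
    intro s; induction s with
    | zero => simp [q, S]; linarith
    | succ s ih =>
      obtain ⟨m, hm⟩ : ∃ m, q (s + 1) = m + 1 :=
        Nat.exists_eq_succ_of_ne_zero (hq (Nat.lt_succ_self s)).ne_bot
      have h1 := q2 s m (by omega)
      have h2 : S (m + 1) = S m + a m := sum_range_succ _ _
      rw [hm, h2, pow_succ]
      have := rs s
      nlinarith [hB m, mul_le_mul_of_nonneg_left r1 (show 0 ≤ 3 * (1 + B) * r ^ s by positivity),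
        mul_le_mul_of_nonneg_left this B0]
  let b : ℕ → ℝ := fun s => ∑ k ∈ Ico (q s) (q (s + 1)), a k ^ 2
  have b0 : ∀ s, 0 ≤ b s := fun s => sum_nonneg fun _ _ => sq_nonneg _
  have hb : ∀ n, ∑ s ∈ range n, b s ≤ ∑' n, a n ^ 2 := fun n => by
    rw [← blocks q rfl hq]; exact hs.sum_le_tsum _ fun _ _ => sq_nonneg _
  have hb' : Summable b := summable_of_sum_range_le b0 hb
  have hΔ : ∀ s : ℕ, (0 : ℝ) < (Nat.cast (q (s + 1)) : ℝ) - (Nat.cast (q s) : ℝ) := fun s => by
    have := (Nat.cast_lt (α := ℝ)).2 (hq (Nat.lt_succ_self s))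
    linarith
  refine ⟨q, rfl, hq, ?_, ?_⟩
  · refine Summable.of_nonneg_of_le (fun s => by have := hΔ s; positivity) (fun s => ?_)
      (hb'.mul_left 2)
    have h1 : r ^ s ≤ ∑ k ∈ Ico (q s) (q (s + 1)), a k := by
      have := sum_range_add_sum_Ico a (hq.monotone (Nat.le_succ s))
      have := q1 s
      simp only [S] at this; linarith
    have h2 := sq_sum_le_card_mul_sum_sq (s := Ico (q s) (q (s + 1))) (f := a)
    rw [Nat.card_Ico, Nat.cast_sub (hq.monotone (Nat.le_succ s))] at h2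
    have h3 := pow_le_pow_left₀ (by linarith [rs s]) h1 2
    rw [rs2] at h3
    rw [div_le_iff₀ (hΔ s), pow_succ]
    simp only [b]; nlinarith
  · let Y : ℕ → ℝ := fun s => ((2 : ℝ) ^ s)⁻¹ * ∑ k ∈ range (q s), t k ^ 2
    have Y0 : ∀ s, 0 ≤ Y s := fun s =>
      mul_nonneg (by positivity) (sum_nonneg fun _ _ => sq_nonneg _)
    have Y1 : ∀ s, Y (s + 1) ≤ Y s / 2 + (3 * (1 + B)) ^ 2 * b s := by
      intro s
      have h1 : ∑ k ∈ Ico (q s) (q (s + 1)), t k ^ 2 ≤ (3 * (1 + B)) ^ 2 * 2 ^ (s + 1) * b s := by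
        simp only [b]; rw [mul_sum]
        refine sum_le_sum fun k hk => ?_
        have h2 : S (k + 1) ≤ 3 * (1 + B) * r ^ (s + 1) :=
          (Sm (Nat.succ_le_of_lt (mem_Ico.1 hk).2)).trans (q3 (s + 1))
        have h3 := pow_le_pow_left₀ (ht k)
          ((ha k).trans (mul_le_mul_of_nonneg_left h2 (a0 k))) 2
        rw [mul_pow, mul_pow, rs2] at h3
        linarith
      simp only [Y]
      rw [← sum_range_add_sum_Ico _ (hq.monotone (Nat.le_succ s)), mul_add]
      refine add_le_add (le_of_eq (by rw [pow_succ]; field_simp)) ?_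
      rw [inv_mul_le_iff₀ (by positivity)]; linarith
    refine summable_of_sum_range_le (f := fun s => Y (s + 1)) (fun s => Y0 _)
      (c := 2 * ((3 * (1 + B)) ^ 2 * ∑' n, a n ^ 2)) fun n => ?_
    have h1 : ∑ s ∈ range n, Y (s + 1) ≤ ∑ s ∈ range n, (Y s / 2 + (3 * (1 + B)) ^ 2 * b s) :=
      sum_le_sum fun s _ => Y1 s
    rw [sum_add_distrib, ← sum_div, ← mul_sum] at h1
    have h2 := sum_range_succ' Y n
    rw [sum_range_succ] at h2
    have h3 : Y 0 = 0 := by simp [Y, q]
    have h4 := mul_le_mul_of_nonneg_left (hb n) (sq_nonneg (3 * (1 + B)))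
    linarith [Y0 n]

lemma P_of_V (t : ℕ → ℝ) (ht : ∀ n, 0 ≤ t n) (ht1 : ∀ n, t n ≤ 1) (h : VV t) : PP t := by
  obtain ⟨q, h0, hq, s1, s2⟩ := h
  have ex : ∀ k, ∃ s, k < q (s + 1) := fun k => ⟨k, lt_of_lt_of_le (Nat.lt_succ_self k) (hq.id_le _)⟩
  let σ : ℕ → ℕ := fun k => Nat.find (ex k)
  have hσ : ∀ s, ∀ k ∈ Ico (q s) (q (s + 1)), σ k = s := by
    intro s k hk
    rw [mem_Ico] at hk
    exact (Nat.find_eq_iff _).2 ⟨hk.2, fun m hm => not_lt.2 ((hq.monotone hm).trans hk.1)⟩
  set r := Real.sqrt 2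
  have r2 : r ^ 2 = 2 := Real.sq_sqrt (by norm_num)
  have r0 : 0 < r := Real.sqrt_pos.2 two_pos
  have r1 : r ≤ 2 := by nlinarith
  have rs2 : ∀ s : ℕ, (r ^ s) ^ 2 = 2 ^ s := fun s => by rw [← pow_mul, mul_comm, pow_mul, r2]
  have hΔ : ∀ s, (0 : ℝ) < (q (s + 1) : ℝ) - q s := fun s =>
    sub_pos.2 (by exact_mod_cast hq (Nat.lt_succ_self s))
  let x : ℕ → ℝ := fun k => r ^ σ k / ((q (σ k + 1) : ℝ) - q (σ k))
  let y : ℕ → ℝ := fun k => 2 * t k / r ^ σ k
  let z : ℕ → ℝ := fun k => if k < q 1 then 1 else 0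
  have x0 : ∀ k, 0 ≤ x k := fun k => by have := hΔ (σ k); simp only [x]; positivity
  have y0 : ∀ k, 0 ≤ y k := fun k => by have := ht k; simp only [y]; positivity
  have z0 : ∀ k, 0 ≤ z k := fun k => by simp only [z]; split_ifs <;> norm_num
  have card : ∀ s, ((Ico (q s) (q (s + 1))).card : ℝ) = (q (s + 1) : ℝ) - q s := fun s => by
    rw [Nat.card_Ico, Nat.cast_sub (hq.monotone (Nat.le_succ s))]
  have red : ∀ (g c : ℕ → ℝ), Summable c → (∀ s, ∑ k ∈ Ico (q s) (q (s + 1)), g k ^ 2 ≤ c s) →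
      Summable fun k => g k ^ 2 := by
    intro g c hc h
    refine summable_of_sum_range_le (fun _ => sq_nonneg _) (c := ∑' s, c s) fun n => ?_
    refine (sum_le_sum_of_subset_of_nonneg (range_subset_range.2 (hq.id_le n))
      fun _ _ _ => sq_nonneg _).trans ?_
    rw [blocks q h0 hq]
    exact (sum_le_sum fun s _ => h s).trans (hc.sum_le_tsum _ fun s _ =>
      (sum_nonneg fun _ _ => sq_nonneg _).trans (h s))
  have sx : Summable fun k => x k ^ 2 := red x _ s1 fun s => by
    rw [sum_congr rfl fun k hk => show x k ^ 2 = (r ^ s / ((q (s + 1) : ℝ) - q s)) ^ 2 by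
      simp only [x, hσ s k hk], sum_const, nsmul_eq_mul, card, div_pow, rs2]
    have := hΔ s
    rw [pow_succ (2 : ℝ) s]; field_simp; norm_num
  have sy : Summable fun k => y k ^ 2 := red y _ (s2.mul_left 8) fun s => by
    rw [← mul_assoc, mul_sum]
    refine le_trans (le_of_eq (sum_congr rfl fun k hk => ?_))
      (sum_le_sum_of_subset_of_nonneg (fun k hk => mem_range.2 (mem_Ico.1 hk).2)
        fun _ _ _ => by positivity)
    simp only [y, hσ s k hk]
    rw [div_pow, rs2, pow_succ (2 : ℝ) s]; field_simp; ring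
  have sz : Summable fun k => z k ^ 2 := by
    rw [← summable_nat_add_iff (q 1)]; simp [z, summable_zero]
  refine ⟨fun k => x k + y k + z k, fun k => by have := x0 k; have := y0 k; have := z0 k; positivity,
    ?_, fun k => ?_⟩
  · refine Summable.of_nonneg_of_le (fun n => sq_nonneg _) (fun n => ?_)
      (((sx.add sy).add sz).mul_left 3)
    nlinarith [sq_nonneg (x n - y n), sq_nonneg (x n - z n), sq_nonneg (y n - z n)]
  · have p0 : ∀ j, 0 ≤ x j + y j + z j := fun j => by linarith [x0 j, y0 j, z0 j]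
    by_cases hk : k < q 1
    · have h1 : 1 ≤ x k + y k + z k := by simp only [z, if_pos hk]; linarith [x0 k, y0 k]
      have h2 := single_le_sum (f := fun j => x j + y j + z j) (fun j _ => p0 j)
        (self_mem_range_succ k)
      nlinarith [ht1 k]
    · obtain ⟨s, hs⟩ : ∃ s, σ k = s + 1 := Nat.exists_eq_succ_of_ne_zero fun h => hk (by
        have := Nat.find_spec (ex k); rwa [show Nat.find (ex k) = 0 from h] at this)
      have h1 : q (s + 1) ≤ k := not_lt.1 (Nat.find_min (ex k) (show s < σ k by omega))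
      have h2 : r ^ s ≤ ∑ j ∈ range (k + 1), (x j + y j + z j) := by
        refine le_trans ?_ (sum_le_sum_of_subset_of_nonneg (s := Ico (q s) (q (s + 1)))
          (fun j hj => mem_range.2 (by have := (mem_Ico.1 hj).2; omega)) fun j _ _ => p0 j)
        refine le_trans (le_of_eq ?_) (sum_le_sum (f := x) fun j _ => by linarith [y0 j, z0 j])
        rw [sum_congr rfl fun k hk => show x k = r ^ s / ((q (s + 1) : ℝ) - q s) by
          simp only [x, hσ s k hk], sum_const, nsmul_eq_mul, card]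
        have := hΔ s
        field_simp
      calc t k ≤ y k * r ^ s := by
            simp only [y, hs]; rw [pow_succ]; field_simp; nlinarith [ht k]
        _ ≤ _ := mul_le_mul (by linarith [x0 k, z0 k]) h2 (by positivity) (p0 k)

end
end Pool.Agent.H96.WG
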