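import Pool.Agent.H96.WG2

namespace Pool.Agent.H96.WG
open Finset Filter Topology Function

noncomputable section

variable {K H : Type*} [NormedAddCommGroup K] [InnerProductSpace ℝ K] [NormedAddCommGroup H]
  [InnerProductSpace ℝ H]

def Tens (T : K → K → H) : Prop :=
  ∀ u v u' v', inner ℝ (T u v) (T u' v') = inner ℝ u u' * inner ℝ v v'

variable {T : K → K → H}

lemma Tens.lin (hT : Tens T) (a b c d : ℝ) (u w v z : K) :
    T (a • u + b • w) (c • v + d • z) =
      (a * c) • T u v + (a * d) • T u z + (b * c) • T w v + (b * d) • T w z := by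
  have key : ∀ x y : H, (∀ p q, inner ℝ x (T p q) = inner ℝ y (T p q)) →
      inner ℝ (x - y) (T (a • u + b • w) (c • v + d • z) -
        ((a * c) • T u v + (a * d) • T u z + (b * c) • T w v + (b * d) • T w z)) = 0 := by
    intro x y h
    simp only [inner_sub_left, inner_sub_right, inner_add_right, inner_smul_right, h]; ring
  rw [← sub_eq_zero, ← inner_self_eq_zero (𝕜 := ℝ)]
  refine key _ _ fun p q => ?_
  simp only [inner_add_left, inner_smul_left, hT _ _ p q, RCLike.conj_to_real]; ring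

def rot (e : ℕ → K) (i j : ℕ) (C S : ℝ) : ℕ → K := fun k =>
  if k = i then C • e i + S • e j else if k = j then (-S) • e i + C • e j else e k

lemma rot_on {e : ℕ → K} (he : Orthonormal ℝ e) {i j : ℕ} (hij : i ≠ j) {C S : ℝ}
    (h : C ^ 2 + S ^ 2 = 1) : Orthonormal ℝ (rot e i j C S) := by
  rw [orthonormal_iff_ite] at he ⊢
  intro k l
  unfold rot
  split_ifs <;>
    simp only [inner_add_left, inner_add_right, inner_smul_left, inner_smul_right, he,
      RCLike.conj_to_real] <;> grind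

def val (T : K → K → H) (N : ℕ) (s : ℕ → ℝ) (e e' : ℕ → K) : H :=
  ∑ k ∈ range N, s k • T (e k) (e' k)

lemma val_inner (hT : Tens T) (N : ℕ) (s : ℕ → ℝ) (e e' : ℕ → K) (u v : K) :
    inner ℝ (val T N s e e') (T u v) = ∑ k ∈ range N, s k * (inner ℝ (e k) u * inner ℝ (e' k) v) := by
  simp [val, sum_inner, inner_smul_left, hT _ _ u v]

lemma val_op (hT : Tens T) {N : ℕ} {s : ℕ → ℝ} {e e' : ℕ → K} (he : Orthonormal ℝ e)
    (he' : Orthonormal ℝ e') {B : ℝ} (hB : 0 ≤ B) (h : ∀ k < N, |s k| ≤ B) {u v : K}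
    (hu : ‖u‖ = 1) (hv : ‖v‖ = 1) : |inner ℝ (val T N s e e') (T u v)| ≤ B := by
  rw [val_inner hT]
  have h1 := he.sum_inner_products_le (s := range N) u
  have h2 := he'.sum_inner_products_le (s := range N) v
  simp only [hu, hv, Real.norm_eq_abs, sq_abs] at h1 h2
  calc _ ≤ ∑ k ∈ range N, B / 2 * (inner ℝ (e k) u ^ 2 + inner ℝ (e' k) v ^ 2) := by
        refine (abs_sum_le_sum_abs _ _).trans (sum_le_sum fun k hk => ?_)
        rw [abs_mul, abs_mul]
        have := mul_le_mul_of_nonneg_right (h k (mem_range.1 hk))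
          (mul_nonneg (abs_nonneg (inner ℝ (e k) u)) (abs_nonneg (inner ℝ (e' k) v)))
        have := mul_nonneg hB (sq_nonneg (|inner ℝ (e k) u| - |inner ℝ (e' k) v|))
        rw [← sq_abs (inner ℝ (e k) u), ← sq_abs (inner ℝ (e' k) v)]
        nlinarith
    _ ≤ B := by rw [← mul_sum, sum_add_distrib]; nlinarith

lemma val_coef (hT : Tens T) {N : ℕ} {s : ℕ → ℝ} {e e' : ℕ → K} (he : Orthonormal ℝ e)
    (he' : Orthonormal ℝ e') (i j : ℕ) (hi : i < N) :
    inner ℝ (val T N s e e') (T (e i) (e' j)) = if i = j then s i else 0 := by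
  rw [val_inner hT, orthonormal_iff_ite] at *
  rw [sum_eq_single i]
  · rw [he, he']; simp
  · intro k _ hk; simp [he, hk]
  · intro h; exact absurd (mem_range.2 hi) h

lemma val_norm (hT : Tens T) {N : ℕ} {s : ℕ → ℝ} {e e' : ℕ → K} (he : Orthonormal ℝ e)
    (he' : Orthonormal ℝ e') : ‖val T N s e e'‖ ^ 2 = ∑ k ∈ range N, s k ^ 2 := by
  rw [← real_inner_self_eq_norm_sq]
  have e : ∀ x, inner ℝ (val T N s e e') x = ∑ k ∈ range N, inner ℝ (s k • T (e k) (e' k)) x :=
    fun x => by rw [val, sum_inner]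
  rw [e]
  refine sum_congr rfl fun k hk => ?_
  rw [inner_smul_left, real_inner_comm, val_coef hT he he' k k (mem_range.1 hk)]
  simp [sq]

lemma sum_two {M : Type*} [AddCommGroup M] {N i j : ℕ} (hi : i < N) (hj : j < N) (hij : i ≠ j)
    (F G : ℕ → M) (h : ∀ k, k ≠ i → k ≠ j → G k = F k) :
    ∑ k ∈ range N, G k = ∑ k ∈ range N, F k + (G i + G j - F i - F j) := by
  have : ∑ k ∈ range N, (G k - F k) = (G i - F i) + (G j - F j) :=
    sum_eq_add i j hij (fun k _ hk => by rw [h k hk.1 hk.2, sub_self])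
      (fun h => absurd (mem_range.2 hi) h) (fun h => absurd (mem_range.2 hj) h)
  rw [sum_sub_distrib] at this
  rw [← sub_eq_iff_eq_add', this]; abel

lemma work (hT : Tens T) {N : ℕ} {s : ℕ → ℝ} {e e' : ℕ → K} (he : Orthonormal ℝ e)
    (he' : Orthonormal ℝ e') {i j : ℕ} (hi : i < N) (hj : j < N) (hij : i ≠ j) {c : ℝ}
    (hb : 0 ≤ s j) (ha : 0 < s i) (hc : 0 ≤ c) (hc' : c ≤ s i) :
    ∃ (u v : K) (e1 e1' : ℕ → K) (a' b' : ℝ), ‖u‖ = 1 ∧ ‖v‖ = 1 ∧ Orthonormal ℝ e1 ∧
      Orthonormal ℝ e1' ∧ inner ℝ (val T N s e e') (T u v) = c ∧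
      val T N (fun k => if k = i then a' else if k = j then b' else s k) e1 e1' =
        val T N s e e' - c • T u v ∧
      a' ^ 2 + b' ^ 2 = s i ^ 2 + s j ^ 2 - c ^ 2 ∧ a' - b' = s i - s j - c ∧ 0 ≤ b' ∧ 0 ≤ a' := by
  set a := s i
  set b := s j
  have hab : 0 < a + b := by linarith
  obtain ⟨x, hx⟩ : ∃ x : ℝ, x ^ 2 = (b + c) / (a + b) := ⟨_, Real.sq_sqrt (by positivity)⟩
  obtain ⟨y, hy⟩ : ∃ y : ℝ, y ^ 2 = (a - c) / (a + b) :=
    ⟨_, Real.sq_sqrt (div_nonneg (by linarith) hab.le)⟩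
  have hxy : x ^ 2 + y ^ 2 = 1 := by rw [hx, hy]; field_simp; ring
  have hc2 : a * x ^ 2 - b * y ^ 2 = c := by rw [hx, hy]; field_simp; ring
  set p := a - c * x ^ 2 with hp
  set r := b + c * y ^ 2 with hr
  have p0 : 0 ≤ p := by nlinarith [sq_nonneg x, sq_nonneg y]
  have r0 : 0 ≤ r := by positivity
  let w : ℂ := ⟨(p + r) / 2, -(c * x * y)⟩
  have w1 := Complex.norm_mul_cos_arg w
  have w2 := Complex.norm_mul_sin_arg w
  have w3 : (p + r) / 2 ≤ ‖w‖ := Complex.re_le_norm w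
  have w4 : ‖w‖ ^ 2 = ((p + r) / 2) ^ 2 + (c * x * y) ^ 2 := by
    rw [Complex.sq_norm, Complex.normSq_mk]; ring
  rw [show w.arg = 2 * (w.arg / 2) by ring] at w1 w2
  rw [Real.cos_two_mul'] at w1
  rw [Real.sin_two_mul] at w2
  have hCS := Real.cos_sq_add_sin_sq (w.arg / 2)
  set C := Real.cos (w.arg / 2)
  set S := Real.sin (w.arg / 2)
  set ρ := ‖w‖
  simp only [w] at w1 w2
  have u1 := (rot_on he hij hxy).1 i
  have v1 := (rot_on he' hij (show x ^ 2 + (-y) ^ 2 = 1 by linarith)).1 i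
  simp only [rot, if_true] at u1 v1
  refine ⟨_, _, rot e i j C S, rot e' i j C (-S), ρ + (p - r) / 2, ρ - (p - r) / 2, u1, v1,
    rot_on he hij hCS, rot_on he' hij (by linarith), ?_, ?_, ?_, ?_, by linarith, by linarith⟩
  · rw [hT.lin]
    simp only [inner_add_right, inner_smul_right, val_coef hT he he' _ _ hi,
      val_coef hT he he' _ _ hj, if_true, if_neg hij, if_neg hij.symm]
    linarith
  · unfold val
    rw [sum_two hi hj hij (fun k => s k • T (e k) (e' k)) _
      (fun k h1 h2 => by simp [rot, h1, h2])]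
    simp only [rot, if_true, if_neg hij.symm, hT.lin]
    rw [sub_eq_add_neg (∑ k ∈ range N, _)]
    congr 1
    match_scalars
    · linear_combination w1 + (p - r) / 2 * hCS + hp
    · linear_combination -w2
    · linear_combination w2
    · linear_combination w1 - (p - r) / 2 * hCS + hr
  · have : (ρ + (p - r) / 2) ^ 2 + (ρ - (p - r) / 2) ^ 2 = p ^ 2 + r ^ 2 + 2 * (c * x * y) ^ 2 := by
      linear_combination 2 * w4
    rw [this, hp, hr]
    linear_combination (-2 * c) * hc2 + c ^ 2 * (x ^ 2 + y ^ 2 + 1) * hxy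
  · rw [hp, hr]; linear_combination (-c) * hxy

end
end Pool.Agent.H96.WG
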