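import Pool.Agent.H96.WG3

namespace Pool.Agent.H96.WG
open Finset Filter Topology Function

noncomputable section

structure St (K : Type*) where
  N : ℕ
  s : ℕ → ℝ
  e : ℕ → K
  e' : ℕ → K
  A : ℝ

variable {K H : Type*} [NormedAddCommGroup K] [InnerProductSpace ℝ K] [NormedAddCommGroup H]
  [InnerProductSpace ℝ H] {T : K → K → H}

def St.v (σ : St K) (T : K → K → H) : H := val T (σ.N + σ.N) σ.s σ.e σ.e'
def St.psi (σ : St K) : ℝ :=
  ∑ i ∈ range σ.N, if 9 / 10 * σ.A < σ.s i then σ.s i - σ.s (σ.N + i) else 0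
def St.en (σ : St K) : ℝ := ∑ k ∈ range (σ.N + σ.N), σ.s k ^ 2

structure Good (σ : St K) (S R L A0 : ℝ) : Prop where
  he : Orthonormal ℝ σ.e
  he' : Orthonormal ℝ σ.e'
  A_pos : 0 < σ.A
  A_le : σ.A ≤ A0
  nn : ∀ k, 0 ≤ σ.s k
  z : ∀ k, σ.N + σ.N ≤ k → σ.s k = 0
  pair : ∀ i < σ.N, σ.s i ^ 2 + σ.s (σ.N + i) ^ 2 ≤ σ.A ^ 2
  sec : ∀ i < σ.N, σ.s (σ.N + i) ≤ 9 / 10 * σ.A
  inv : σ.A * S + σ.A * σ.psi / 10 + 25 * R ≤ 10
  up : σ.en ≤ 1
  lo : L ≤ σ.en

variable {σ : St K} {S R L A0 : ℝ}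

lemma Good.gap (h : Good σ S R L A0) {i : ℕ} (hi : i < σ.N) (ha : 9 / 10 * σ.A < σ.s i) :
    2 / 5 * σ.A ≤ σ.s i - σ.s (σ.N + i) := by
  have h1 := h.pair i hi
  have h2 := h.nn (σ.N + i)
  have h3 := h.A_pos
  by_contra hn
  nlinarith

lemma Good.psi_nn (h : Good σ S R L A0) : 0 ≤ σ.psi := sum_nonneg fun i hi => by
  split_ifs with ha
  · linarith [h.gap (mem_range.1 hi) ha, h.A_pos]
  · rfl

lemma Good.mono (h : Good σ S R L A0) {S' R' L' : ℝ}
    (h1 : σ.A * S' + 25 * R' ≤ σ.A * S + 25 * R) (h2 : L' ≤ L) : Good σ S' R' L' A0 :=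
  { h with inv := by linarith [h.inv], lo := h2.trans h.lo }

lemma Good.reset (h : Good σ S R L A0) (hS : 0 ≤ S) (hR0 : 0 ≤ R) (hR : R ≤ 1 / 2500) (hL : 0 < L) :
    ∃ σ' : St K, Good σ' S R L A0 ∧ σ'.v T = σ.v T ∧ ∃ i < σ'.N, 9 / 10 * σ'.A < σ'.s i ∧
      ∀ k < σ'.N + σ'.N, σ'.s k ≤ σ'.s i := by
  have fin : ∀ σ' : St K, Good σ' S R L A0 → (∃ i < σ'.N, 9 / 10 * σ'.A < σ'.s i) →
      ∃ i < σ'.N, 9 / 10 * σ'.A < σ'.s i ∧ ∀ k < σ'.N + σ'.N, σ'.s k ≤ σ'.s i := by
    rintro σ' g ⟨i, hi, ha⟩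
    obtain ⟨m, hm, hmax⟩ := exists_max_image (range σ'.N) σ'.s ⟨i, mem_range.2 hi⟩
    have := hmax i (mem_range.2 hi)
    refine ⟨m, mem_range.1 hm, by linarith, fun k hk => ?_⟩
    by_cases hk' : k < σ'.N
    · exact hmax k (mem_range.2 hk')
    · have := g.sec (k - σ'.N) (by omega)
      rw [show σ'.N + (k - σ'.N) = k by omega] at this
      linarith
  by_cases hact : ∃ i < σ.N, 9 / 10 * σ.A < σ.s i
  · exact ⟨σ, h, rfl, fin σ h hact⟩
  push Not at hact
  have hne : (range (σ.N + σ.N)).Nonempty := by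
    by_contra hn
    have := h.lo
    rw [St.en, not_nonempty_iff_eq_empty.1 hn, sum_empty] at this
    linarith
  obtain ⟨m, hm, hmax⟩ := exists_max_image (range (σ.N + σ.N)) σ.s hne
  have m0 : 0 < σ.s m := by
    by_contra hn
    have h1 : σ.en = 0 := sum_eq_zero fun k hk => by
      have : σ.s k = 0 := le_antisymm (by linarith [hmax k hk]) (h.nn k)
      simp [this]
    linarith [h.lo]
  have m1 : σ.s m ≤ 9 / 10 * σ.A := by
    have hk := mem_range.1 hm
    by_cases hk' : m < σ.N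
    · exact hact m hk'
    · have := h.sec (m - σ.N) (by omega)
      rwa [show σ.N + (m - σ.N) = m by omega] at this
  let σ' : St K := ⟨σ.N + σ.N, σ.s, σ.e, σ.e', σ.s m⟩
  have hz : ∀ i, σ.s (σ.N + σ.N + i) = 0 := fun i => h.z _ (by omega)
  have hen : σ'.en = σ.en := by simp [St.en, σ', sum_range_add, hz]
  have hA := h.A_pos
  have g : Good σ' S R L A0 :=
    { he := h.he, he' := h.he', A_pos := m0, A_le := by linarith [h.A_le], nn := h.nn
      z := fun k hk => h.z k (by simp only [σ'] at hk; omega)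
      pair := fun i hi => by
        simp only [σ', hz]
        have := pow_le_pow_left₀ (h.nn i) (hmax i (mem_range.2 hi)) 2
        simpa using this
      sec := fun i _ => by simp only [σ', hz]; positivity
      inv := by
        have h1 : 9 / 10 * σ.s m * σ'.psi ≤ σ.en := by
          simp only [St.psi, St.en, σ', hz, mul_sum]
          refine sum_le_sum fun k _ => ?_
          split_ifs with hk
          · nlinarith [h.nn k]
          · nlinarith [sq_nonneg (σ.s k)]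
        have h2 := h.inv
        have h3 := mul_nonneg hA.le h.psi_nn
        have h4 := mul_le_mul_of_nonneg_right m1 hS
        have h5 := h.up
        show σ.s m * S + σ.s m * σ'.psi / 10 + 25 * R ≤ 10
        nlinarith
      up := hen ▸ h.up, lo := hen ▸ h.lo }
  refine ⟨σ', g, by simp [St.v, val, σ', sum_range_add, hz], fin σ' g ⟨m, mem_range.1 hm, ?_⟩⟩
  show 9 / 10 * σ.s m < σ.s m
  linarith

lemma sum_one {M : Type*} [AddCommGroup M] {N i : ℕ} (hi : i < N)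
    (F G : ℕ → M) (h : ∀ k < N, k ≠ i → G k = F k) :
    ∑ k ∈ range N, G k = ∑ k ∈ range N, F k + (G i - F i) := by
  have : ∑ k ∈ range N, (G k - F k) = G i - F i :=
    sum_eq_single i (fun k hk hk' => by rw [h k (mem_range.1 hk) hk', sub_self])
      (fun h => absurd (mem_range.2 hi) h)
  rw [sum_sub_distrib] at this
  rw [← this]; abel

lemma Good.upd (h : Good σ S R L A0) {i : ℕ} (hi : i < σ.N) (ha : 9 / 10 * σ.A < σ.s i)
    {e1 e1' : ℕ → K} (h1 : Orthonormal ℝ e1) (h1' : Orthonormal ℝ e1') {a' b' c d : ℝ}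
    (a0 : 0 ≤ a') (b0 : 0 ≤ b') (hE : a' ^ 2 + b' ^ 2 = σ.s i ^ 2 + σ.s (σ.N + i) ^ 2 - c ^ 2)
    (hb : b' ≤ 9 / 10 * σ.A) (hd : d ≤ σ.s i - σ.s (σ.N + i))
    (hd' : 9 / 10 * σ.A < a' → a' - b' ≤ σ.s i - σ.s (σ.N + i) - d) :
    Good ⟨σ.N, fun k => if k = i then a' else if k = σ.N + i then b' else σ.s k, e1, e1', σ.A⟩
      (S + d / 10) R (L - c ^ 2) A0 := by
  have hne : i ≠ σ.N + i := by omega
  have hen : St.en ⟨σ.N, fun k => if k = i then a' else if k = σ.N + i then b' else σ.s k,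
      e1, e1', σ.A⟩ = σ.en - c ^ 2 := by
    simp only [St.en]
    rw [sum_two (i := i) (j := σ.N + i) (by omega) (by omega) hne (fun k => σ.s k ^ 2) _
      fun k k1 k2 => by simp [k1, k2]]
    simp only [if_true, if_neg hne.symm]; linarith
  refine ⟨h1, h1', h.A_pos, h.A_le, fun k => ?_, fun k hk => ?_, fun k hk => ?_, fun k hk => ?_,
    ?_, by rw [hen]; linarith [h.up, sq_nonneg c], by rw [hen]; linarith [h.lo]⟩
  · simp only; split_ifs; exacts [a0, b0, h.nn k]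
  · simp only at hk ⊢
    rw [if_neg (by omega), if_neg (by omega)]; exact h.z k hk
  · simp only at hk ⊢
    by_cases hk' : k = i
    · subst hk'
      simp only [if_true, if_neg hne.symm]; linarith [h.pair k hi, sq_nonneg c]
    · rw [if_neg hk', if_neg (by omega), if_neg (by omega), if_neg (by omega)]; exact h.pair k hk
  · simp only at hk ⊢
    by_cases hk' : k = i
    · subst hk'
      simp only [if_true, if_neg hne.symm]; exact hb
    · rw [if_neg (by omega), if_neg (by omega)]; exact h.sec k hk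
  · have : St.psi ⟨σ.N, fun k => if k = i then a' else if k = σ.N + i then b' else σ.s k,
        e1, e1', σ.A⟩ ≤ σ.psi - d := by
      simp only [St.psi]
      rw [sum_one hi (fun k => if 9 / 10 * σ.A < σ.s k then σ.s k - σ.s (σ.N + k) else 0) _
        fun k k1 k2 => by
          rw [if_neg k2, if_neg (show k ≠ σ.N + i by omega), if_neg (show σ.N + k ≠ i by omega),
            if_neg (show σ.N + k ≠ σ.N + i by omega)]]
      simp only [if_true, if_neg hne.symm, if_pos ha]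
      split_ifs with h2
      · linarith [hd' h2]
      · linarith
    have := mul_le_mul_of_nonneg_left this h.A_pos.le
    have := h.inv
    simp only
    nlinarith

def Step (T : K → K → H) (t : ℝ) (f φ g : H) : Prop :=
  (∃ u v, ‖u‖ = 1 ∧ ‖v‖ = 1 ∧ φ = T u v) ∧
  (∀ u v, ‖u‖ = 1 → ‖v‖ = 1 → t * |inner ℝ f (T u v)| ≤ |inner ℝ f φ|) ∧
  g = f - inner ℝ f φ • φ

lemma Good.op (hT : Tens T) (h : Good σ S R L A0) {i : ℕ}
    (hm : ∀ k < σ.N + σ.N, σ.s k ≤ σ.s i) {u v : K} (hu : ‖u‖ = 1) (hv : ‖v‖ = 1) :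
    |inner ℝ (σ.v T) (T u v)| ≤ σ.s i :=
  val_op hT h.he h.he' (h.nn i) (fun k hk => by rw [abs_of_nonneg (h.nn k)]; exact hm k hk) hu hv

lemma Good.le_A (h : Good σ S R L A0) {i : ℕ} (hi : i < σ.N) : σ.s i ≤ σ.A :=
  (abs_le_of_sq_le_sq' (by linarith [h.pair i hi, sq_nonneg (σ.s (σ.N + i))]) h.A_pos.le).2

lemma Good.greedy (hT : Tens T) (h : Good σ S R L A0) {i : ℕ} (hi : i < σ.N)
    (ha : 9 / 10 * σ.A < σ.s i) (hm : ∀ k < σ.N + σ.N, σ.s k ≤ σ.s i) {t : ℝ} (t1 : t ≤ 1) :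
    ∃ (σ' : St K) (φ : H), σ'.A = σ.A ∧ Good σ' S R (L - σ.A ^ 2) A0 ∧
      Step T t (σ.v T) φ (σ'.v T) := by
  have hA := h.A_pos
  have g := h.upd hi ha h.he h.he' (a' := 0) (c := σ.s i) (d := 0) le_rfl (h.nn (σ.N + i))
    (by ring) (h.sec i hi) (by linarith [h.gap hi ha]) (fun h => by linarith)
  have hc : inner ℝ (σ.v T) (T (σ.e i) (σ.e' i)) = σ.s i := by
    rw [St.v, val_coef hT h.he h.he' i i (by omega), if_pos rfl]
  have g' : Good _ S R (L - σ.A ^ 2) A0 :=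
    g.mono (by simp) (by linarith [pow_le_pow_left₀ (h.nn i) (h.le_A hi) 2])
  refine ⟨_, T (σ.e i) (σ.e' i), ?_, g', ⟨_, _, h.he.1 i, h.he'.1 i, rfl⟩, fun u v hu hv => ?_, ?_⟩
  · rfl
  · rw [hc, abs_of_nonneg (h.nn i)]
    exact (mul_le_of_le_one_left (abs_nonneg _) t1).trans (h.op hT hm hu hv)
  · rw [hc]
    simp only [St.v, val]
    rw [sum_one (i := i) (by omega) (fun k => σ.s k • T (σ.e k) (σ.e' k)) _ fun k _ k2 => by
      rw [if_neg k2]; split_ifs with h3 <;> simp [*]]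
    simp [sub_eq_add_neg]

lemma Good.small (hT : Tens T) (h : Good σ S R L A0) (hR : 0 ≤ R) {i : ℕ} (hi : i < σ.N)
    (ha : 9 / 10 * σ.A < σ.s i) (hm : ∀ k < σ.N + σ.N, σ.s k ≤ σ.s i) {t a : ℝ} (t0 : 0 ≤ t)
    (a0 : 0 ≤ a) (ht : t ≤ a * (S + a)) (hs : 10 * a ≤ 2 / 5 * σ.A) :
    ∃ (σ' : St K) (φ : H), Good σ' (S + a) R (L - (10 * a) ^ 2) A0 ∧
      Step T t (σ.v T) φ (σ'.v T) := by
  have hA := h.A_pos
  have gap := h.gap hi ha
  obtain ⟨u, v, e1, e1', a', b', hu, hv, o1, o2, k1, k2, k3, k4, k5, k6⟩ :=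
    work hT (N := σ.N + σ.N) (s := σ.s) h.he h.he' (i := i) (j := σ.N + i) (by omega) (by omega)
      (by omega) (c := 10 * a) (h.nn _) (by linarith) (by linarith) (by linarith [h.nn (σ.N + i)])
  have g := h.upd hi ha o1 o2 (d := 10 * a) k6 k5 k3
    (by nlinarith [h.pair i hi, sq_nonneg (10 * a)]) (by linarith) (fun _ => k4.le)
  rw [show 10 * a / 10 = a by ring] at g
  refine ⟨_, T u v, g, ⟨u, v, hu, hv, rfl⟩, fun u' v' hu' hv' => ?_, ?_⟩
  · have h1 := (h.op hT hm hu' hv').trans (h.le_A hi)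
    have h2 := g.inv
    have h3 := mul_nonneg hA.le g.psi_nn
    rw [St.v] at h1 ⊢
    generalize St.psi _ = P at h2 h3
    rw [k1, abs_of_nonneg (show 0 ≤ 10 * a by linarith)]
    simp only at h2 h3
    have h4 : σ.A * (S + a) ≤ 10 := by linarith
    calc _ ≤ a * (S + a) * σ.A := mul_le_mul ht h1 (abs_nonneg _) (t0.trans ht)
      _ ≤ _ := by nlinarith
  · rw [St.v, St.v, k1, k2]

theorem counter (hT : Tens T) (e : ℕ → K) (he : Orthonormal ℝ e) (t : ℕ → ℝ) (t0 : ∀ n, 0 ≤ t n)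
    (t1 : ∀ n, t n ≤ 1) (hP : PP t) :
    ∃ f φ : ℕ → H, (∀ n, Step T (t n) (f n) (φ n) (f (n + 1))) ∧ ∀ n, 1 / 2 ≤ ‖f n‖ ^ 2 := by
  obtain ⟨a, a0, hs, ha⟩ := hP
  obtain ⟨n₀, hn₀⟩ : ∃ n₀, ∀ n, ∑ j ∈ range n, (if j < n₀ then 0 else a j) ^ 2 ≤ 1 / 2500 := by
    obtain ⟨n₀, h⟩ := ((tendsto_sum_nat_add fun n => a n ^ 2).eventually
      (gt_mem_nhds (show (0 : ℝ) < 1 / 2500 by norm_num))).exists
    refine ⟨n₀, fun n => ?_⟩
    refine (sum_le_sum_of_subset_of_nonneg (range_subset_range.2 (Nat.le_add_left n n₀))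
      fun _ _ _ => sq_nonneg _).trans ?_
    rw [sum_range_add, sum_eq_zero fun j hj => by simp [mem_range.1 hj], zero_add]
    refine le_trans ?_ h.le
    refine le_trans (le_of_eq (sum_congr rfl fun j _ => by simp [add_comm]))
      (((summable_nat_add_iff n₀).2 hs).sum_le_tsum (range n) fun _ _ => sq_nonneg _)
  set b : ℕ → ℝ := fun j => if j < n₀ then 0 else a j with hb
  have b0 : ∀ j, 0 ≤ b j := fun j => by simp only [b]; split_ifs; exacts [le_rfl, a0 j]
  set S0 := ∑ j ∈ range n₀, a j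
  have S00 : 0 ≤ S0 := sum_nonneg fun j _ => a0 j
  obtain ⟨m, hm⟩ := exists_nat_ge (S0 + 4 * n₀ + 1)
  have n0 : (0 : ℝ) ≤ n₀ := Nat.cast_nonneg _
  have m1 : (1 : ℝ) ≤ m := by linarith
  let S : ℕ → ℝ := fun n => S0 + ∑ j ∈ range n, b j
  let R : ℕ → ℝ := fun n => 1 / 2500 - ∑ j ∈ range n, b j ^ 2
  let L : ℕ → ℝ := fun n => 1 - (min n n₀ : ℕ) * (1 / m : ℝ) ^ 2 - 625 * ∑ j ∈ range n, b j ^ 2
  have S1 : ∀ n, 0 ≤ S n := fun n => add_nonneg S00 (sum_nonneg fun j _ => b0 j)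
  have R0 : ∀ n, 0 ≤ R n := fun n => sub_nonneg.2 (hn₀ n)
  have R1 : ∀ n, R n ≤ 1 / 2500 := fun n => sub_le_self _ (sum_nonneg fun _ _ => sq_nonneg _)
  have L0 : ∀ n, 1 / 2 ≤ L n := fun n => by
    have h1 : ((min n n₀ : ℕ) : ℝ) ≤ n₀ := by exact_mod_cast min_le_right n n₀
    have h2 : (n₀ : ℝ) * (1 / m : ℝ) ^ 2 ≤ 1 / 4 := by
      rw [div_pow, mul_div, div_le_iff₀ (by positivity)]; nlinarith
    have h3 := mul_le_mul_of_nonneg_right h1 (sq_nonneg (1 / m : ℝ))
    have := hn₀ n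
    simp only [L]; linarith
  have SS : ∀ n, n₀ ≤ n → ∑ j ∈ range n, a j = S n := by
    intro n hn
    induction n, hn using Nat.le_induction with
    | base => simp only [S]; rw [sum_eq_zero (f := b) fun j hj => by simp [b, mem_range.1 hj]]; simp [S0]
    | succ n hn ih =>
      simp only [S, sum_range_succ] at ih ⊢
      rw [ih, show b n = a n from if_neg (by omega)]; ring
  have step : ∀ n (σ : St K), Good σ (S n) (R n) (L n) (1 / m) → ∃ (σ' : St K) (φ : H),
      Good σ' (S (n + 1)) (R (n + 1)) (L (n + 1)) (1 / m) ∧ Step T (t n) (σ.v T) φ (σ'.v T) := by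
    intro n σ₀ g₀
    obtain ⟨σ, g, hv, i, hi, hact, hmax⟩ := g₀.reset (T := T) (S1 n) (R0 n) (R1 n)
      (by linarith [L0 n])
    rw [← hv]
    have hA := g.A_pos
    have e1 : S (n + 1) = S n + b n := by simp only [S, sum_range_succ]; ring
    have e2 : R (n + 1) = R n - b n ^ 2 := by simp only [R, sum_range_succ]; ring
    by_cases hn : n < n₀
    · obtain ⟨σ', φ, k1, k2, k3⟩ := g.greedy hT hi hact hmax (t1 n)
      have bn : b n = 0 := if_pos hn
      refine ⟨σ', φ, k2.mono (by rw [e1, e2, bn]; simp) ?_, k3⟩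
      simp only [L, sum_range_succ, bn]
      rw [min_eq_left (by omega), min_eq_left (by omega)]
      push_cast
      nlinarith [pow_le_pow_left₀ hA.le g.A_le 2]
    · have bn : b n = a n := if_neg hn
      have e3 : L (n + 1) = L n - 625 * a n ^ 2 := by
        simp only [L, sum_range_succ, bn]
        rw [min_eq_right (by omega), min_eq_right (by omega)]; ring
      rw [e1, e2, e3, bn]
      by_cases hsm : 10 * a n ≤ 2 / 5 * σ.A
      · obtain ⟨σ', φ, k2, k3⟩ := g.small hT (R0 n) hi hact hmax (t0 n) (a0 n)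
          (by have := ha n; rwa [SS (n + 1) (by omega), e1, bn] at this) hsm
        exact ⟨σ', φ, k2.mono (by nlinarith [sq_nonneg (a n)]) (by nlinarith [sq_nonneg (a n)]), k3⟩
      · obtain ⟨σ', φ, k1, k2, k3⟩ := g.greedy hT hi hact hmax (t1 n)
        exact ⟨σ', φ, k2.mono (by rw [k1]; nlinarith [a0 n]) (by nlinarith), k3⟩
  choose! nx φ h1 h2 using step
  let σ₀ : St K := ⟨m * m, fun k => if k < m * m then 1 / m else 0, e, e, 1 / m⟩
  have en0 : σ₀.en = 1 := by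
    simp only [St.en, σ₀, sum_range_add]
    rw [sum_congr rfl fun k hk => by rw [if_pos (mem_range.1 hk)]]
    simp; field_simp
  have g₀ : Good σ₀ (S 0) (R 0) (L 0) (1 / m) :=
    { he := he, he' := he, A_pos := by simp only [σ₀]; positivity, A_le := le_rfl
      nn := fun k => by simp only [σ₀]; split_ifs <;> positivity
      z := fun k hk => by simp only [σ₀] at hk ⊢; rw [if_neg (by omega)]
      pair := fun i hi => by simp only [σ₀] at hi ⊢; simp [hi]
      sec := fun i _ => by simp [σ₀]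
      inv := by
        have h1 : σ₀.psi ≤ ∑ _ ∈ range (m * m), (1 / m : ℝ) := sum_le_sum fun i hi => by
          simp only [σ₀, if_pos (mem_range.1 hi)]
          split_ifs <;> first | omega | simp
        have h2 : (1 / m : ℝ) * ∑ _ ∈ range (m * m), (1 / m : ℝ) = 1 := by simp; field_simp
        have h3 := mul_le_mul_of_nonneg_left h1 (show (0 : ℝ) ≤ 1 / m by positivity)
        have h4 : (1 / m : ℝ) * S0 ≤ 1 := by
          rw [one_div, inv_mul_le_iff₀ (by linarith)]; linarith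
        simp only [S, R, sum_range_zero, add_zero, sub_zero]
        show (1 / m : ℝ) * S0 + (1 / m : ℝ) * σ₀.psi / 10 + _ ≤ _
        linarith
      up := en0.le, lo := by rw [en0]; simp [L] }
  let σ : ℕ → St K := fun n => Nat.rec σ₀ nx n
  have g : ∀ n, Good (σ n) (S n) (R n) (L n) (1 / m) := fun n => by
    induction n with
    | zero => exact g₀
    | succ n ih => exact h1 n _ ih
  refine ⟨fun n => (σ n).v T, fun n => φ n (σ n), fun n => h2 n _ (g n), fun n => ?_⟩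
  simp only [St.v]
  rw [val_norm hT (g n).he (g n).he']
  exact (L0 n).trans (g n).lo

end
end Pool.Agent.H96.WG
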