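import Pool.Agent.H96.WG4

namespace Pool.Agent.H96.WG
open Finset Filter Topology MeasureTheory unitInterval

noncomputable section

abbrev K1 := Lp ℝ 2 (volume : Measure I)
abbrev H2 := Lp ℝ 2 (volume : Measure (I × I))

lemma mem_tens (u v : K1) : MemLp (fun x : I × I => u x.1 * v x.2) 2 volume := by
  have hm : AEStronglyMeasurable (fun x : I × I => u x.1 * v x.2) volume :=
    (((Lp.stronglyMeasurable u).comp_measurable measurable_fst).mul
      ((Lp.stronglyMeasurable v).comp_measurable measurable_snd)).aestronglyMeasurable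
  rw [memLp_two_iff_integrable_sq hm]
  have := ((Lp.memLp u).integrable_sq).mul_prod ((Lp.memLp v).integrable_sq)
  simp only [mul_pow]
  exact this

def tens (u v : K1) : H2 := (mem_tens u v).toLp _

lemma tens_ae (u v : K1) : ∀ᵐ x, tens u v x = u x.1 * v x.2 := (mem_tens u v).coeFn_toLp

lemma tens_T : Tens tens := by
  intro u v u' v'
  rw [L2.inner_def, L2.inner_def, L2.inner_def, ← integral_prod_mul]
  refine integral_congr_ae ?_
  filter_upwards [tens_ae u v, tens_ae u' v'] with x h1 h2
  simp only [h1, h2, RCLike.inner_apply, conj_trivial]; ring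

lemma exists_on : ∃ e : ℕ → K1, Orthonormal ℝ e := by
  let A : ℕ → Set I := fun n => Subtype.val ⁻¹' Set.Ioo (1 / ((n : ℝ) + 2)) (1 / ((n : ℝ) + 1))
  have hA : ∀ n, MeasurableSet (A n) := fun n => measurable_subtype_coe measurableSet_Ioo
  have hp : ∀ n, 0 < volume.real (A n) := fun n => by
    have h1 : (1 : ℝ) / ((n : ℝ) + 2) < 1 / ((n : ℝ) + 1) :=
      one_div_lt_one_div_of_lt (by positivity) (by linarith)
    have h2 : (0 : ℝ) < 1 / ((n : ℝ) + 2) := by positivity
    have h3 : (1 : ℝ) / ((n : ℝ) + 1) ≤ 1 := by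
      rw [div_le_one (by positivity)]; linarith [Nat.cast_nonneg (α := ℝ) n]
    refine ENNReal.toReal_pos ?_ (measure_ne_top _ _)
    rw [unitInterval.volume_apply, Subtype.image_preimage_coe, Set.inter_eq_right.2
      (fun x hx => Set.mem_Icc.2 ⟨by linarith [hx.1], by linarith [hx.2]⟩)]
    rw [Real.volume_Ioo]
    exact (ENNReal.ofReal_pos.2 (by linarith)).ne'
  have hd : ∀ m n, m < n → A m ∩ A n = ∅ := fun m n h => by
    refine Set.eq_empty_of_forall_notMem fun x hx => ?_
    have h1 : (1 : ℝ) / ((n : ℝ) + 1) ≤ 1 / ((m : ℝ) + 2) :=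
      one_div_le_one_div_of_le (by positivity) (by exact_mod_cast (by omega : m + 2 ≤ n + 1))
    linarith [hx.1.1, hx.2.2]
  refine ⟨fun n => (Real.sqrt (volume.real (A n)))⁻¹ •
    indicatorConstLp 2 (hA n) (measure_ne_top _ _) (1 : ℝ), orthonormal_iff_ite.2 fun m n => ?_⟩
  rw [inner_smul_left, inner_smul_right, L2.real_inner_indicatorConstLp_one_indicatorConstLp_one]
  split_ifs with h
  · subst h
    have := hp m
    rw [Set.inter_self, conj_trivial]
    field_simp
    rw [Real.sq_sqrt this.le]
  · rcases lt_or_gt_of_ne h with h | h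
    · simp [hd m n h]
    · rw [Set.inter_comm]; simp [hd n m h]

def DD : Set H2 := {g | ∃ u v : K1, ‖u‖ = 1 ∧ ‖v‖ = 1 ∧ g = tens u v}

lemma DD_norm (g : H2) (hg : g ∈ DD) : ‖g‖ = 1 := by
  obtain ⟨u, v, hu, hv, rfl⟩ := hg
  have := tens_T u v u v
  rw [real_inner_self_eq_norm_sq, real_inner_self_eq_norm_sq, real_inner_self_eq_norm_sq, hu,
    hv] at this
  nlinarith [norm_nonneg (tens u v)]

lemma DD_dense : Dense (Submodule.span ℝ DD : Set H2) := by
  rw [Submodule.dense_iff_topologicalClosure_eq_top, Submodule.topologicalClosure_eq_top_iff,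
    eq_bot_iff]
  intro f hf
  have h1 : ∀ u v : K1, inner ℝ (tens u v) f = 0 := by
    intro u v
    by_cases hu : u = 0
    · have : tens u v = 0 := by
        rw [← inner_self_eq_zero (𝕜 := ℝ), tens_T u v u v, hu]; simp
      simp [this]
    by_cases hv : v = 0
    · have : tens u v = 0 := by
        rw [← inner_self_eq_zero (𝕜 := ℝ), tens_T u v u v, hv]; simp
      simp [this]
    have h := hf _ (Submodule.subset_span ⟨‖u‖⁻¹ • u, ‖v‖⁻¹ • v, norm_smul_inv_norm hu,
      norm_smul_inv_norm hv, rfl⟩)
    have e := tens_T.lin ‖u‖⁻¹ 0 ‖v‖⁻¹ 0 u u v v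
    simp only [zero_smul, add_zero, mul_zero, zero_mul] at e
    rw [e, inner_smul_left] at h
    simpa [hu, hv] using h
  have hi : Integrable f volume := (Lp.memLp f).integrable one_le_two
  have h2 : ∀ s : Set (I × I), MeasurableSet s → ∫ x in s, f x = 0 := by
    intro s hs
    induction s, hs using MeasurableSpace.induction_on_inter generateFrom_prod.symm
      isPiSystem_prod with
    | empty => simp
    | basic t ht =>
      obtain ⟨A, hA, B, hB, rfl⟩ := ht
      replace hA : MeasurableSet A := hA
      replace hB : MeasurableSet B := hB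
      have h := h1 (indicatorConstLp 2 hA (measure_ne_top _ _) (1 : ℝ))
        (indicatorConstLp 2 hB (measure_ne_top _ _) (1 : ℝ))
      rw [L2.inner_def] at h
      rw [← h, ← integral_indicator (MeasurableSet.prod hA hB)]
      refine integral_congr_ae ?_
      filter_upwards [tens_ae (indicatorConstLp 2 hA (measure_ne_top _ _) (1 : ℝ))
        (indicatorConstLp 2 hB (measure_ne_top _ _) (1 : ℝ)),
        (Measure.quasiMeasurePreserving_fst (μ := (volume : Measure I))
          (ν := (volume : Measure I))).ae (indicatorConstLp_coeFn (p := 2) (hs := hA)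
          (hμs := measure_ne_top _ _) (c := (1 : ℝ))),
        (Measure.quasiMeasurePreserving_snd (μ := (volume : Measure I))
          (ν := (volume : Measure I))).ae (indicatorConstLp_coeFn (p := 2) (hs := hB)
          (hμs := measure_ne_top _ _) (c := (1 : ℝ)))] with x k1 k2 k3
      rw [k1, k2, k3]
      by_cases a : x.1 ∈ A <;> by_cases b : x.2 ∈ B <;> simp [Set.indicator, a, b]
    | compl t ht ih =>
      have h := h1 (indicatorConstLp 2 MeasurableSet.univ (measure_ne_top _ _) (1 : ℝ))
        (indicatorConstLp 2 MeasurableSet.univ (measure_ne_top _ _) (1 : ℝ))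
      rw [L2.inner_def] at h
      rw [setIntegral_compl ht hi, ih, sub_zero, ← h]
      refine integral_congr_ae ?_
      filter_upwards [tens_ae (indicatorConstLp 2 MeasurableSet.univ (measure_ne_top _ _) (1 : ℝ))
        (indicatorConstLp 2 MeasurableSet.univ (measure_ne_top _ _) (1 : ℝ)),
        (Measure.quasiMeasurePreserving_fst (μ := (volume : Measure I))
          (ν := (volume : Measure I))).ae (indicatorConstLp_coeFn (p := 2) (hs := MeasurableSet.univ)
          (hμs := measure_ne_top _ _) (c := (1 : ℝ))),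
        (Measure.quasiMeasurePreserving_snd (μ := (volume : Measure I))
          (ν := (volume : Measure I))).ae (indicatorConstLp_coeFn (p := 2) (hs := MeasurableSet.univ)
          (hμs := measure_ne_top _ _) (c := (1 : ℝ)))] with x k1 k2 k3
      rw [k1, k2, k3]; simp
    | iUnion g hd hm ih =>
      rw [integral_iUnion hm hd hi.integrableOn]; simp [ih]
  exact Lp.eq_zero_iff_ae_eq_zero.2 (hi.ae_eq_zero_of_forall_setIntegral_eq_zero fun s hs _ => h2 s hs)

end
end Pool.Agent.H96.WG
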