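import Mathlib

set_option autoImplicit false
set_option linter.unusedSectionVars false

open Complex MeasureTheory Filter Topology
open scoped InnerProductSpace BoundedContinuousFunction

namespace Pool.Agent.H96.WO

variable {H : Type*} [NormedAddCommGroup H] [InnerProductSpace ℂ H] [CompleteSpace H]
variable {s : Set ℂ} [CompactSpace s]

/-- the pairing of two points of the plane -/
def pr (ξ z : ℂ) : ℝ := ξ.re * z.re + ξ.im * z.im

noncomputable def ch (ξ z : ℂ) : ℂ := cexp (I * (pr ξ z : ℂ))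

lemma norm_ch (ξ z : ℂ) : ‖ch ξ z‖ = 1 := by
  rw [ch, mul_comm]; exact Complex.norm_exp_ofReal_mul_I _

lemma ch_add (ξ η z : ℂ) : ch (ξ + η) z = ch ξ z * ch η z := by
  rw [ch, ch, ch, ← Complex.exp_add]; congr 1; simp [pr]; ring

lemma ch_comm (ξ z : ℂ) : ch ξ z = ch z ξ := by
  rw [ch, ch]; congr 2; simp [pr]; ring

lemma ch_neg (ξ z : ℂ) : ch (-ξ) z = (starRingEnd ℂ) (ch ξ z) := by
  rw [ch, ch, ← Complex.exp_conj]; congr 1; simp [pr]; ring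

lemma ch_zero (z : ℂ) : ch 0 z = 1 := by simp [ch, pr]

lemma continuous_ch : Continuous fun q : ℂ × ℂ => ch q.1 q.2 := by
  unfold ch pr; fun_prop

lemma continuous_ch' (ξ : ℂ) : Continuous (ch ξ) := by
  unfold ch pr; fun_prop

noncomputable def chB (ξ : ℂ) : ℂ →ᵇ ℂ :=
  BoundedContinuousFunction.ofNormedAddCommGroup (ch ξ) (continuous_ch' ξ) 1
    (fun z => (norm_ch ξ z).le)

noncomputable def res (s : Set ℂ) (m : ℂ →ᵇ ℂ) : C(s, ℂ) := ⟨fun z => m z, by fun_prop⟩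

noncomputable def reC (s : Set ℂ) : C(s, ℂ) := ⟨fun z => ((z : ℂ).re : ℂ), by fun_prop⟩
noncomputable def imC (s : Set ℂ) : C(s, ℂ) := ⟨fun z => ((z : ℂ).im : ℂ), by fun_prop⟩
noncomputable def lc (s : Set ℂ) (ξ : ℂ) : C(s, ℂ) := (ξ.re : ℂ) • reC s + (ξ.im : ℂ) • imC s
noncomputable def eC (s : Set ℂ) (ξ : ℂ) : C(s, ℂ) := res s (chB ξ)

lemma eC_apply (ξ : ℂ) (z : s) : eC s ξ z = ch ξ z := rfl

lemma eC_exp (ξ : ℂ) : eC s ξ = NormedSpace.exp (I • lc s ξ) := by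
  ext z
  rw [NormedSpace.exp_continuousMap_eq, eC_apply, ch, Complex.exp_eq_exp_ℂ]
  simp [lc, reC, imC, pr, mul_add]

lemma eC_add (ξ η : ℂ) : eC s (ξ + η) = eC s ξ * eC s η := by
  ext z; simp [eC_apply, ch_add]

lemma eC_zero : eC s 0 = 1 := by ext z; simp [eC_apply, ch_zero]

lemma eC_star (ξ : ℂ) : star (eC s ξ) = eC s (-ξ) := by
  ext z; simp [eC_apply, ch_neg]

lemma eC_deriv (ξ d : ℂ) (τ : ℝ) :
    HasDerivAt (fun t : ℝ => eC s (ξ + t * d)) (eC s (ξ + τ * d) * (I • lc s d)) τ := by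
  have h1 : ∀ t : ℝ, eC s (ξ + t * d) = eC s ξ * NormedSpace.exp (t • (I • lc s d)) := by
    intro t
    rw [eC_add, eC_exp (t * d)]
    congr 2
    ext z
    simp [lc, reC, imC]; ring
  simp only [h1]
  have h2 := (hasDerivAt_exp_smul_const (𝕂 := ℝ) (I • lc s d) τ).const_mul (eC s ξ)
  simpa only [mul_assoc] using h2

lemma eC_cont : Continuous (eC s) := by
  have : eC s = fun ξ => NormedSpace.exp (I • lc s ξ) := funext eC_exp
  rw [this]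
  let : NormedAlgebra ℚ C(s, ℂ) := .restrictScalars ℚ ℂ _
  refine NormedSpace.exp_continuous.comp ?_
  unfold lc; fun_prop

abbrev Hom (s : Set ℂ) (H : Type*) [NormedAddCommGroup H] [InnerProductSpace ℂ H]
  [CompleteSpace H] := C(s, ℂ) →⋆ₐ[ℂ] (H →L[ℂ] H)

noncomputable def U (Φ : Hom s H) (ξ : ℂ) : H →L[ℂ] H := Φ (eC s ξ)

lemma norm_Φ (Φ : Hom s H) (f : C(s, ℂ)) : ‖Φ f‖ ≤ ‖f‖ := NonUnitalStarAlgHom.norm_apply_le Φ f

noncomputable def ΦL (Φ : Hom s H) : C(s, ℂ) →L[ℂ] (H →L[ℂ] H) :=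
  LinearMap.mkContinuous (Φ : C(s, ℂ) →ₐ[ℂ] (H →L[ℂ] H)).toLinearMap 1
    (fun f => by simpa using norm_Φ Φ f)

lemma ΦL_apply (Φ : Hom s H) (f : C(s, ℂ)) : ΦL Φ f = Φ f := rfl

lemma Φ_cont (Φ : Hom s H) : Continuous Φ := (ΦL Φ).continuous

lemma U_add (Φ : Hom s H) (ξ η : ℂ) (h : H) : U Φ (ξ + η) h = U Φ ξ (U Φ η h) := by
  rw [U, eC_add, map_mul]; rfl

lemma U_zero (Φ : Hom s H) (h : H) : U Φ 0 h = h := by
  rw [U, eC_zero, map_one]; rfl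

lemma Φ_inner (Φ : Hom s H) (f : C(s, ℂ)) (x y : H) : ⟪Φ f x, y⟫_ℂ = ⟪x, Φ (star f) y⟫_ℂ := by
  rw [map_star, ContinuousLinearMap.star_eq_adjoint, ContinuousLinearMap.adjoint_inner_right]

lemma U_inner (Φ : Hom s H) (ξ : ℂ) (x y : H) : ⟪U Φ ξ x, y⟫_ℂ = ⟪x, U Φ (-ξ) y⟫_ℂ := by
  rw [U, Φ_inner, eC_star]; rfl

lemma U_cancel (Φ : Hom s H) (ξ : ℂ) (x : H) : U Φ (-ξ) (U Φ ξ x) = x := by
  rw [← U_add, neg_add_cancel, U_zero]

lemma U_cancel' (Φ : Hom s H) (ξ : ℂ) (x : H) : U Φ ξ (U Φ (-ξ) x) = x := by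
  rw [← U_add, add_neg_cancel, U_zero]

lemma norm_U (Φ : Hom s H) (ξ : ℂ) (x : H) : ‖U Φ ξ x‖ = ‖x‖ := by
  have h : ⟪U Φ ξ x, U Φ ξ x⟫_ℂ = ⟪x, x⟫_ℂ := by rw [U_inner, U_cancel]
  rw [inner_self_eq_norm_sq_to_K, inner_self_eq_norm_sq_to_K] at h
  have h2 : ‖U Φ ξ x‖ ^ 2 = ‖x‖ ^ 2 := by exact_mod_cast h
  exact (pow_left_inj₀ (norm_nonneg _) (norm_nonneg _) two_ne_zero).1 h2

lemma U_cont (Φ : Hom s H) : Continuous (U Φ) := (Φ_cont Φ).comp eC_cont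

lemma U_comm (Φ : Hom s H) (ξ : ℂ) (f : C(s, ℂ)) (x : H) : U Φ ξ (Φ f x) = Φ f (U Φ ξ x) := by
  have : Φ (eC s ξ * f) x = Φ (f * eC s ξ) x := by rw [mul_comm]
  rw [map_mul, map_mul] at this
  exact this

lemma U_deriv (Φ : Hom s H) (ξ d : ℂ) (τ : ℝ) :
    HasDerivAt (fun t : ℝ => U Φ (ξ + t * d)) (U Φ (ξ + τ * d) * (I • Φ (lc s d))) τ := by
  have h := ((ΦL Φ).restrictScalars ℝ).hasFDerivAt.comp_hasDerivAt τ (eC_deriv (s := s) ξ d τ)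
  simp only [ContinuousLinearMap.coe_restrictScalars', ΦL_apply, map_mul, map_smul] at h
  exact h

/-- the vector whose limit at infinity is the wave operator applied to `x` -/
noncomputable def ψ (Φ Ψ : Hom s H) (x : H) (ξ : ℂ) : H := U Ψ (-ξ) (U Φ ξ x)

noncomputable def K1 (Φ Ψ : Hom s H) : H →L[ℂ] H := Φ (reC s) - Ψ (reC s)
noncomputable def K2 (Φ Ψ : Hom s H) : H →L[ℂ] H := Φ (imC s) - Ψ (imC s)

lemma ψ_cont (Φ Ψ : Hom s H) (x : H) : Continuous (ψ Φ Ψ x) :=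
  ((U_cont Ψ).comp continuous_neg).clm_apply ((U_cont Φ).clm_apply continuous_const)

lemma norm_ψ (Φ Ψ : Hom s H) (x : H) (ξ : ℂ) : ‖ψ Φ Ψ x ξ‖ = ‖x‖ := by
  rw [ψ, norm_U, norm_U]

lemma ψ_deriv (Φ Ψ : Hom s H) (x : H) (ξ d : ℂ) (τ : ℝ) :
    HasDerivAt (fun t : ℝ => ψ Φ Ψ x (ξ + t * d))
      (I • U Ψ (-(ξ + τ * d)) ((d.re : ℂ) • K1 Φ Ψ (U Φ (ξ + τ * d) x) +
        (d.im : ℂ) • K2 Φ Ψ (U Φ (ξ + τ * d) x))) τ := by
  have h1 := U_deriv Ψ (-ξ) (-d) τ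
  have h2 := U_deriv Φ ξ d τ
  have h3 := (h1.mul h2)
  have h4 := ((ContinuousLinearMap.apply ℂ H x).restrictScalars ℝ).hasFDerivAt.comp_hasDerivAt τ h3
  have e : ∀ t : ℝ, -ξ + t * -d = -(ξ + t * d) := fun t => by ring
  simp only [e] at h4
  have c1 := U_comm Φ (ξ + τ * d) (reC s) x
  have c2 := U_comm Φ (ξ + τ * d) (imC s) x
  convert h4 using 1
  · rfl
  · generalize -(ξ + τ * d) = w
    simp only [lc, K1, K2, map_add, map_smul, map_sub, map_neg, neg_re, neg_im, ofReal_neg,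
      ContinuousLinearMap.coe_restrictScalars', ContinuousLinearMap.apply_apply,
      ContinuousLinearMap.add_apply, ContinuousLinearMap.mul_apply, ContinuousLinearMap.sub_apply,
      ContinuousLinearMap.smul_apply, c1, c2]
    module

end Pool.Agent.H96.WO
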