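import Pool.Agent.H96.WO1

set_option autoImplicit false
set_option linter.unusedSectionVars false

open Complex MeasureTheory Filter Topology
open scoped InnerProductSpace BoundedContinuousFunction CompactlySupported ENNReal

namespace Pool.Agent.H96.WO

variable {H : Type*} [NormedAddCommGroup H] [InnerProductSpace ℂ H] [CompleteSpace H]
variable {s : Set ℂ} [CompactSpace s]

noncomputable def ofR (u : C(s, ℝ)) : C(s, ℂ) := ⟨fun z => (u z : ℂ), by fun_prop⟩

lemma inner_ofR_im (Φ : Hom s H) (y : H) (u : C(s, ℝ)) : (⟪y, Φ (ofR u) y⟫_ℂ).im = 0 := by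
  have h : star (ofR u) = ofR u := by ext z; simp [ofR]
  have h1 := Φ_inner Φ (ofR u) y y
  rw [h, ← inner_conj_symm] at h1
  have := congrArg Complex.im h1
  simp only [conj_im] at this
  linarith

theorem exists_meas (Φ : Hom s H) (y : H) :
    ∃ ν : Measure s, IsFiniteMeasure ν ∧ ∀ g : C(s, ℂ), ∫ z, g z ∂ν = ⟪y, Φ g y⟫_ℂ := by
  let Λ0 : C_c(s, ℝ) →ₗ[ℝ] ℝ :=
    { toFun := fun u => (⟪y, Φ (ofR u.toContinuousMap) y⟫_ℂ).re
      map_add' := fun u v => by
        have : ofR (u + v).toContinuousMap = ofR u.toContinuousMap + ofR v.toContinuousMap := by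
          ext z; simp [ofR]
        simp [this, inner_add_right]
      map_smul' := fun c u => by
        have : ofR (c • u).toContinuousMap = (c : ℂ) • ofR u.toContinuousMap := by
          ext z; simp [ofR]
        rw [this, map_smul]
        simp only [smul_apply, inner_smul_right]
        simp }
  let Λ : C_c(s, ℝ) →ₚ[ℝ] ℝ := PositiveLinearMap.mk₀ Λ0 (by
    intro u hu
    let v : C(s, ℝ) := ⟨fun z => Real.sqrt (u z), by fun_prop⟩
    have h1 : ofR u.toContinuousMap = star (ofR v) * ofR v := by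
      ext z
      have : 0 ≤ u z := by simpa using hu z
      simp only [ofR, v, ContinuousMap.coe_mk, ContinuousMap.mul_apply, ContinuousMap.star_apply,
        RCLike.star_def, conj_ofReal]
      rw [← ofReal_mul, Real.mul_self_sqrt this]; rfl
    show 0 ≤ (⟪y, Φ (ofR u.toContinuousMap) y⟫_ℂ).re
    rw [h1, map_mul]
    show 0 ≤ (⟪y, Φ (star (ofR v)) (Φ (ofR v) y)⟫_ℂ).re
    rw [← Φ_inner]
    exact inner_self_nonneg (𝕜 := ℂ))
  have hint : ∀ u : C(s, ℝ), ∫ z, u z ∂(RealRMK.rieszMeasure Λ) = (⟪y, Φ (ofR u) y⟫_ℂ).re :=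
    fun u => RealRMK.integral_rieszMeasure Λ (CompactlySupportedContinuousMap.continuousMapEquiv u)
  have hint' : ∀ u : C(s, ℝ), ∫ z, (u z : ℂ) ∂(RealRMK.rieszMeasure Λ) = ⟪y, Φ (ofR u) y⟫_ℂ := by
    intro u
    rw [integral_complex_ofReal, hint]
    apply Complex.ext
    · simp
    · simp [inner_ofR_im]
  refine ⟨RealRMK.rieszMeasure Λ, inferInstance, fun g => ?_⟩
  let a : C(s, ℝ) := ⟨fun z => (g z).re, by fun_prop⟩
  let b : C(s, ℝ) := ⟨fun z => (g z).im, by fun_prop⟩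
  have hg : g = ofR a + I • ofR b := by
    ext z; simp [ofR, a, b, mul_comm I]
  have ia : ∀ u : C(s, ℝ), Integrable (fun z => (u z : ℂ)) (RealRMK.rieszMeasure Λ) := fun u =>
    (ofR u).continuous.integrable_of_hasCompactSupport (HasCompactSupport.of_compactSpace _)
  have : ∫ z, g z ∂(RealRMK.rieszMeasure Λ) =
      ∫ z, ((a z : ℂ) + I * (b z : ℂ)) ∂(RealRMK.rieszMeasure Λ) := by
    congr 1; ext z; simp [a, b, mul_comm I]
  rw [this, integral_add (ia a) ((ia b).const_mul I), integral_const_mul, hint', hint']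
  conv_rhs => rw [hg]
  simp [inner_add_right, inner_smul_right]

noncomputable abbrev L2 (μ : Measure ℂ) := Lp ℂ 2 μ

/-- multiplication by a bounded function -/
noncomputable def ml {μ : Measure ℂ} {m : ℂ → ℂ} (hm : MemLp m ∞ μ) : L2 μ →L[ℂ] L2 μ :=
  (ContinuousLinearMap.mul ℂ ℂ).holderL μ ∞ 2 2 (hm.toLp m)

lemma ml_ae {μ : Measure ℂ} {m : ℂ → ℂ} (hm : MemLp m ∞ μ) (u : L2 μ) :
    ml hm u =ᵐ[μ] fun z => m z * u z := by
  filter_upwards [(ContinuousLinearMap.mul ℂ ℂ).coeFn_holder (r := 2) (hm.toLp m) u,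
    hm.coeFn_toLp] with z h1 h2
  rw [← h2]; exact h1

lemma L2_inner {μ : Measure ℂ} (u v : L2 μ) :
    ⟪u, v⟫_ℂ = ∫ z, (starRingEnd ℂ) (u z) * v z ∂μ := by
  rw [L2.inner_def]; simp [mul_comm]

lemma memB {μ : Measure ℂ} (m : ℂ →ᵇ ℂ) : MemLp m ∞ μ := m.memLp_top

structure Rep (Φ : Hom s H) (y : H) (μ : Measure ℂ) (J : L2 μ →L[ℂ] H) : Prop where
  fin : IsFiniteMeasure μ
  supp : μ sᶜ = 0
  inn : ∀ u v, ⟪J u, J v⟫_ℂ = ⟪u, v⟫_ℂ
  one : ∀ u : L2 μ, (u =ᵐ[μ] fun _ => 1) → J u = y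
  mul : ∀ (m : ℂ →ᵇ ℂ) (u v : L2 μ), (v =ᵐ[μ] fun z => m z * u z) → Φ (res s m) (J u) = J v

theorem exists_rep (Φ : Hom s H) (y : H) :
    ∃ (μ : Measure ℂ) (J : L2 μ →L[ℂ] H), Rep Φ y μ J := by
  obtain ⟨ν, hν, hint⟩ := exists_meas Φ y
  have hs : MeasurableSet s := (isCompact_iff_compactSpace.2 inferInstance).measurableSet
  let μ : Measure ℂ := ν.map Subtype.val
  have hμ : IsFiniteMeasure μ := inferInstance
  have hi : ∀ g : ℂ →ᵇ ℂ, ∫ z, g z ∂μ = ⟪y, Φ (res s g) y⟫_ℂ := fun g => by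
    rw [← hint, integral_map measurable_subtype_coe.aemeasurable
      g.continuous.aestronglyMeasurable]; rfl
  let L : (ℂ →ᵇ ℂ) →ₗ[ℂ] H :=
    { toFun := fun g => Φ (res s g) y
      map_add' := fun g g' => by
        have : res s (g + g') = res s g + res s g' := by ext z; simp [res]
        simp [this]
      map_smul' := fun c g => by
        have : res s (c • g) = c • res s g := by ext z; simp [res]
        simp [this] }
  let e : (ℂ →ᵇ ℂ) →L[ℂ] L2 μ := BoundedContinuousFunction.toLp 2 μ ℂ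
  have he : ∀ g, e g =ᵐ[μ] g := fun g => BoundedContinuousFunction.coeFn_toLp 2 μ ℂ g
  have hd : DenseRange e := BoundedContinuousFunction.toLp_denseRange ℂ μ ℂ (by simp)
  have hL : ∀ g g', ⟪L g, L g'⟫_ℂ = ⟪e g, e g'⟫_ℂ := fun g g' => by
    have h1 : res s (star g * g') = star (res s g) * res s g' := by ext z; simp [res]
    have h2 := hi (star g * g')
    rw [h1, map_mul] at h2
    show ⟪Φ (res s g) y, Φ (res s g') y⟫_ℂ = _
    rw [Φ_inner, L2_inner]
    refine Eq.trans h2.symm (integral_congr_ae ?_)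
    filter_upwards [he g, he g'] with z h3 h4
    rw [h3, h4]; simp
  have hn : ∀ g, ‖L g‖ ≤ 1 * ‖(e : (ℂ →ᵇ ℂ) →ₗ[ℂ] L2 μ) g‖ := fun g => by
    have h := hL g g
    rw [inner_self_eq_norm_sq_to_K, inner_self_eq_norm_sq_to_K] at h
    have h2 : ‖L g‖ ^ 2 = ‖e g‖ ^ 2 := by exact_mod_cast h
    rw [one_mul]
    exact ((pow_left_inj₀ (norm_nonneg _) (norm_nonneg _) two_ne_zero).1 h2).le
  let J : L2 μ →L[ℂ] H := L.extendOfNorm (e : (ℂ →ᵇ ℂ) →ₗ[ℂ] L2 μ)
  have hJ : ∀ g, J (e g) = L g := fun g => LinearMap.extendOfNorm_eq hd ⟨1, hn⟩ g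
  refine ⟨μ, J, hμ, ?_, fun u v => ?_, fun u hu => ?_, fun m u v hv => ?_⟩
  · rw [Measure.map_apply measurable_subtype_coe hs.compl]
    have : (Subtype.val ⁻¹' sᶜ : Set s) = ∅ := by ext z; simp
    rw [this, measure_empty]
  · refine hd.induction_on₂ (p := fun u v => ⟪J u, J v⟫_ℂ = ⟪u, v⟫_ℂ) ?_ ?_ u v
    · exact isClosed_eq (by fun_prop) (by fun_prop)
    · intro g g'; rw [hJ, hJ, hL]
  · have : u = e 1 := Lp.ext (hu.trans (he 1).symm)
    rw [this, hJ]
    show Φ (res s 1) y = y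
    have : res s 1 = 1 := by ext z; simp [res]
    rw [this, map_one]; rfl
  · have hv' : v = ml (memB m) u := Lp.ext (hv.trans (ml_ae _ u).symm)
    rw [hv']
    refine hd.induction_on (p := fun u => Φ (res s m) (J u) = J (ml (memB m) u)) u ?_ ?_
    · exact isClosed_eq (by fun_prop) (by fun_prop)
    · intro g
      have : ml (memB m) (e g) = e (m * g) := by
        apply Lp.ext
        filter_upwards [ml_ae (memB m) (e g), he g, he (m * g)] with z h1 h2 h3
        rw [h1, h2, h3]; simp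
      rw [this, hJ, hJ]
      show Φ (res s m) (Φ (res s g) y) = Φ (res s (m * g)) y
      have : res s (m * g) = res s m * res s g := by ext z; simp [res]
      rw [this, map_mul]; rfl

namespace Rep
variable {Φ : Hom s H} {y : H} {μ : Measure ℂ} {J : L2 μ →L[ℂ] H}

lemma norm_J (R : Rep Φ y μ J) (u : L2 μ) : ‖J u‖ = ‖u‖ := by
  have h := R.inn u u
  rw [inner_self_eq_norm_sq_to_K, inner_self_eq_norm_sq_to_K] at h
  have h2 : ‖J u‖ ^ 2 = ‖u‖ ^ 2 := by exact_mod_cast h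
  exact (pow_left_inj₀ (norm_nonneg _) (norm_nonneg _) two_ne_zero).1 h2

lemma adj_J (R : Rep Φ y μ J) (u : L2 μ) : J.adjoint (J u) = u := by
  apply ext_inner_left ℂ
  intro v
  rw [ContinuousLinearMap.adjoint_inner_right, R.inn]

lemma norm_adj (R : Rep Φ y μ J) (h : H) : ‖J.adjoint h‖ ≤ ‖h‖ := by
  have h1 : ‖J‖ ≤ 1 := J.opNorm_le_bound zero_le_one fun u => by rw [R.norm_J, one_mul]
  have h2 : ‖J.adjoint‖ = ‖J‖ := ContinuousLinearMap.adjoint.norm_map J
  calc _ ≤ ‖J.adjoint‖ * ‖h‖ := J.adjoint.le_opNorm h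
    _ ≤ 1 * ‖h‖ := by gcongr; rwa [h2]
    _ = _ := one_mul _

lemma adj_mul (R : Rep Φ y μ J) (m : ℂ →ᵇ ℂ) (h : H) :
    J.adjoint (Φ (res s m) h) =ᵐ[μ] fun z => m z * J.adjoint h z := by
  have : J.adjoint (Φ (res s m) h) = ml (memB m) (J.adjoint h) := by
    apply ext_inner_left ℂ
    intro w
    have h1 : res s m = star (res s (star m)) := by ext z; simp [res]
    rw [ContinuousLinearMap.adjoint_inner_right, h1, ← Φ_inner,
      R.mul (star m) w _ (ml_ae (memB _) w), ← ContinuousLinearMap.adjoint_inner_right,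
      L2_inner, L2_inner]
    apply integral_congr_ae
    filter_upwards [ml_ae (memB (star m)) w, ml_ae (memB m) (J.adjoint h)] with z h2 h3
    rw [h2, h3]; simp; ring
  rw [this]; exact ml_ae _ _

/-- the matrix coefficient of the unitary group on a vector of the cyclic subspace -/
lemma coef (R : Rep Φ y μ J) (h : H) (u : L2 μ) (ξ : ℂ) :
    ⟪h, U Φ ξ (J u)⟫_ℂ = ∫ z, (starRingEnd ℂ) (J.adjoint h z) * u z * ch ξ z ∂μ := by
  rw [U, eC, R.mul (chB ξ) u _ (ml_ae (memB _) u), ← ContinuousLinearMap.adjoint_inner_left,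
    L2_inner]
  apply integral_congr_ae
  filter_upwards [ml_ae (memB (chB ξ)) u] with z h2
  rw [h2]
  show _ * (ch ξ z * _) = _
  ring

end Rep

lemma memI {μ : Measure ℂ} {E : Set ℂ} (hE : MeasurableSet E) :
    MemLp (E.indicator fun _ => (1 : ℂ)) ∞ μ := (memLp_top_const 1).indicator hE

/-- the spectral projection of a Borel set in a cyclic subspace -/
noncomputable def PE {μ : Measure ℂ} (J : L2 μ →L[ℂ] H) {E : Set ℂ} (hE : MeasurableSet E) :
    H →L[ℂ] H := J ∘L ml (memI hE) ∘L J.adjoint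

namespace Rep
variable {Φ : Hom s H} {y : H} {μ : Measure ℂ} {J : L2 μ →L[ℂ] H} {E : Set ℂ}

lemma PE_comm (R : Rep Φ y μ J) (hE : MeasurableSet E) (m : ℂ →ᵇ ℂ) (h : H) :
    Φ (res s m) (PE J hE h) = PE J hE (Φ (res s m) h) := by
  apply R.mul
  filter_upwards [ml_ae (memI hE) (J.adjoint (Φ (res s m) h)), ml_ae (memI hE) (J.adjoint h),
    R.adj_mul m h] with z h1 h2 h3
  show (ml (memI hE) (J.adjoint (Φ (res s m) h))) z = m z * (ml (memI hE) (J.adjoint h)) z
  rw [h1, h2, h3]; ring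

lemma PE_U (R : Rep Φ y μ J) (hE : MeasurableSet E) (ξ : ℂ) (h : H) :
    U Φ ξ (PE J hE h) = PE J hE (U Φ ξ h) := R.PE_comm hE (chB ξ) h

lemma PE_abs (R : Rep Φ y μ J) (hE : MeasurableSet E) (m : ℂ →ᵇ ℂ) (hm : ∀ z ∈ E, m z = 1) (h : H) :
    PE J hE (Φ (res s m) h) = PE J hE h := by
  show J (ml (memI hE) (J.adjoint (Φ (res s m) h))) = J (ml (memI hE) (J.adjoint h))
  congr 1
  apply Lp.ext
  filter_upwards [ml_ae (memI hE) (J.adjoint (Φ (res s m) h)), ml_ae (memI hE) (J.adjoint h),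
    R.adj_mul m h] with z h1 h2 h3
  rw [h1, h2, h3]
  by_cases hz : z ∈ E
  · simp [hm z hz]
  · simp [hz]

lemma PE_normsq (R : Rep Φ y μ J) (hE : MeasurableSet E) (h : H) :
    ‖PE J hE h‖ ^ 2 = ∫ z in E, ‖J.adjoint h z‖ ^ 2 ∂μ := by
  show ‖J (ml (memI hE) (J.adjoint h))‖ ^ 2 = _
  rw [R.norm_J, ← real_inner_self_eq_norm_sq, L2.inner_def, ← integral_indicator hE]
  apply integral_congr_ae
  filter_upwards [ml_ae (memI hE) (J.adjoint h)] with z h1
  rw [real_inner_self_eq_norm_sq, h1]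
  by_cases hz : z ∈ E
  · simp [hz]
  · simp [hz]

lemma PE_inner (R : Rep Φ y μ J) (hE : MeasurableSet E) (h : H) :
    ⟪PE J hE h, h⟫_ℂ = ((‖PE J hE h‖ ^ 2 : ℝ) : ℂ) := by
  rw [R.PE_normsq, ← integral_complex_ofReal, ← integral_indicator hE]
  show ⟪J (ml (memI hE) (J.adjoint h)), h⟫_ℂ = _
  rw [← ContinuousLinearMap.adjoint_inner_right, L2_inner]
  apply integral_congr_ae
  filter_upwards [ml_ae (memI hE) (J.adjoint h)] with z h1
  rw [h1]
  by_cases hz : z ∈ E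
  · simp [hz, Complex.conj_mul']
  · simp [hz]

lemma PE_contr (R : Rep Φ y μ J) (hE : MeasurableSet E) (h : H) :
    ‖PE J hE h‖ ≤ ‖h‖ ∧ ‖h - PE J hE h‖ ≤ ‖h‖ := by
  have h1 := norm_sub_sq (𝕜 := ℂ) (PE J hE h) h
  rw [R.PE_inner, norm_sub_rev] at h1
  simp only [RCLike.re_to_complex, ofReal_re] at h1
  constructor
  · apply le_of_sq_le_sq _ (norm_nonneg _); nlinarith [sq_nonneg ‖h - PE J hE h‖]
  · apply le_of_sq_le_sq _ (norm_nonneg _); nlinarith [sq_nonneg ‖PE J hE h‖]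

lemma PE_union (R : Rep Φ y μ J) {F : Set ℂ} (hE : MeasurableSet E) (hF : MeasurableSet F)
    (hd : Disjoint E F) (h : H) : PE J (hE.union hF) h = PE J hE h + PE J hF h := by
  show J (ml (memI (hE.union hF)) (J.adjoint h)) =
    J (ml (memI hE) (J.adjoint h)) + J (ml (memI hF) (J.adjoint h))
  rw [← map_add]
  congr 1
  apply Lp.ext
  filter_upwards [ml_ae (memI (hE.union hF)) (J.adjoint h), ml_ae (memI hE) (J.adjoint h),
    ml_ae (memI hF) (J.adjoint h), Lp.coeFn_add (ml (memI hE) (J.adjoint h))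
      (ml (memI hF) (J.adjoint h))] with z h1 h2 h3 h4
  rw [h4, Pi.add_apply, h1, h2, h3, Set.indicator_union_of_disjoint hd]; ring

lemma PE_y (R : Rep Φ y μ J) (hE : MeasurableSet E) : ‖y - PE J hE y‖ ^ 2 = μ.real Eᶜ := by
  have := R.fin
  have h0 : MemLp (fun _ : ℂ => (1 : ℂ)) 2 μ := memLp_const 1
  have h1 : J (h0.toLp _) = y := R.one _ h0.coeFn_toLp
  have h2 : J.adjoint y = h0.toLp _ := by rw [← h1, R.adj_J]
  have h3 : PE J (hE.union hE.compl) y = y := by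
    show J (ml (memI (hE.union hE.compl)) (J.adjoint y)) = y
    apply R.one
    filter_upwards [ml_ae (memI (hE.union hE.compl)) (J.adjoint y), h0.coeFn_toLp] with z h4 h5
    rw [h4, h2, h5]; simp
  rw [R.PE_union hE hE.compl disjoint_compl_right] at h3
  have h4 : y - PE J hE y = PE J hE.compl y := by
    rw [sub_eq_iff_eq_add, add_comm]; exact h3.symm
  rw [h4, R.PE_normsq, h2]
  have : ∫ z in Eᶜ, ‖(h0.toLp _ : L2 μ) z‖ ^ 2 ∂μ = ∫ z in Eᶜ, (1 : ℝ) ∂μ := by
    apply integral_congr_ae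
    filter_upwards [ae_restrict_of_ae h0.coeFn_toLp] with z hz
    rw [hz]; simp
  rw [this]; simp

end Rep

end Pool.Agent.H96.WO
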