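import Pool.Agent.H96.WO1

set_option autoImplicit false
set_option linter.unusedSectionVars false

open Complex MeasureTheory Filter Topology Set Metric
open scoped InnerProductSpace ENNReal

namespace Pool.Agent.H96.WO

noncomputable def lam (G : ℂ → ℝ≥0∞) (ξ : ℂ) (d : ℝ) : ℝ≥0∞ :=
  ∫⁻ τ in Ioc (0 : ℝ) 1, ∫⁻ ω in ball (0 : ℂ) d, G (ξ + τ * ω)

def Lam (G : ℂ → ℝ≥0∞) (ξ : ℂ) (c : ℝ≥0∞) : Prop :=
  ∀ d : ℝ, 0 < d → lam G ξ d ≤ c * ENNReal.ofReal d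

lemma Lam.mono {G G' : ℂ → ℝ≥0∞} {ξ : ℂ} {c c' : ℝ≥0∞} (h : Lam G ξ c) (hG : ∀ z, G' z ≤ G z)
    (hc : c ≤ c') : Lam G' ξ c' := fun d hd =>
  (lintegral_mono fun _ => lintegral_mono fun _ => hG _).trans
    ((h d hd).trans (by gcongr))

lemma meas2 {G : ℂ → ℝ≥0∞} (hG : Measurable G) (ξ : ℂ) :
    Measurable fun q : ℝ × ℂ => G (ξ + q.1 * q.2) := hG.comp (by fun_prop)

lemma meas1 {G : ℂ → ℝ≥0∞} (hG : Measurable G) (ξ : ℂ) (d : ℝ) :
    Measurable fun τ : ℝ => ∫⁻ ω in ball (0 : ℂ) d, G (ξ + τ * ω) :=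
  (meas2 hG ξ).lintegral_prod_right'

lemma Lam.tsum {G : ℕ → ℂ → ℝ≥0∞} (hG : ∀ n, Measurable (G n)) {ξ : ℂ} {c : ℕ → ℝ≥0∞}
    (h : ∀ n, Lam (G n) ξ (c n)) : Lam (fun z => ∑' n, G n z) ξ (∑' n, c n) := by
  intro d hd
  have h1 : ∀ τ : ℝ, ∫⁻ ω in ball (0 : ℂ) d, ∑' n, G n (ξ + τ * ω) =
      ∑' n, ∫⁻ ω in ball (0 : ℂ) d, G n (ξ + τ * ω) := fun τ =>
    lintegral_tsum fun n => ((hG n).comp (by fun_prop)).aemeasurable
  rw [lam]
  simp only [h1]
  rw [lintegral_tsum fun n => (meas1 (hG n) ξ d).aemeasurable, ← ENNReal.tsum_mul_right]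
  exact ENNReal.tsum_le_tsum fun n => h n d hd

lemma Lam.add {G G' : ℂ → ℝ≥0∞} (hG : Measurable G) {ξ : ℂ} {c c' : ℝ≥0∞}
    (h : Lam G ξ c) (h' : Lam G' ξ c') : Lam (fun z => G z + G' z) ξ (c + c') := by
  intro d hd
  have h1 : ∀ τ : ℝ, ∫⁻ ω in ball (0 : ℂ) d, (G (ξ + τ * ω) + G' (ξ + τ * ω)) =
      (∫⁻ ω in ball (0 : ℂ) d, G (ξ + τ * ω)) + ∫⁻ ω in ball (0 : ℂ) d, G' (ξ + τ * ω) := fun τ =>
    lintegral_add_left (hG.comp (by fun_prop)) _
  rw [lam]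
  simp only [h1]
  rw [lintegral_add_left (meas1 hG ξ d), add_mul]
  exact add_le_add (h d hd) (h' d hd)

lemma vol_ball_le {d : ℝ} (hd : 0 < d) : volume (ball (0 : ℂ) d) ≤ ENNReal.ofReal (4 * d ^ 2) := by
  rw [Complex.volume_ball, ← ENNReal.ofReal_pow hd.le, ← ENNReal.ofReal_coe_nnreal,
    ← ENNReal.ofReal_mul (by positivity)]
  apply ENNReal.ofReal_le_ofReal
  have : (NNReal.pi : ℝ) ≤ 4 := Real.pi_le_four
  nlinarith [sq_nonneg d]

lemma le_vol_ball {d : ℝ} (hd : 0 < d) : ENNReal.ofReal (d ^ 2) ≤ volume (ball (0 : ℂ) d) := by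
  rw [Complex.volume_ball, ← ENNReal.ofReal_pow hd.le, ← ENNReal.ofReal_coe_nnreal,
    ← ENNReal.ofReal_mul (by positivity)]
  apply ENNReal.ofReal_le_ofReal
  have : 3 < (NNReal.pi : ℝ) := Real.pi_gt_three
  nlinarith [sq_nonneg d]

lemma scale {G : ℂ → ℝ≥0∞} (hG : Measurable G) (ξ : ℂ) {τ : ℝ} (hτ : 0 < τ) :
    ∫⁻ ω, G (ξ + τ * ω) = ENNReal.ofReal (τ ^ (-2 : ℝ)) * ∫⁻ z, G z := by
  have h1 := Measure.map_addHaar_smul (volume : Measure ℂ) hτ.ne'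
  have h2 : ∫⁻ ω, G (ξ + τ * ω) = ∫⁻ z, G (ξ + z) ∂(Measure.map (fun ω : ℂ => τ • ω) volume) := by
    rw [lintegral_map (f := fun z => G (ξ + z)) (hG.comp (measurable_const_add ξ))
      (measurable_const_smul τ)]; rfl
  rw [h2, h1, lintegral_smul_measure, lintegral_add_left_eq_self, Complex.finrank_real_complex,
    smul_eq_mul, abs_of_pos (by positivity), Real.rpow_neg hτ.le]
  norm_num

lemma Lam.block {G : ℂ → ℝ≥0∞} (hG : Measurable G) {ξ : ℂ} {a b ρ : ℝ} (ha : 0 ≤ a) (hb : 0 ≤ b)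
    (hρ : 0 < ρ) (h1 : ∀ z, ‖z - ξ‖ < ρ → G z ≤ ENNReal.ofReal a)
    (h2 : ∫⁻ z, G z ≤ ENNReal.ofReal b) : Lam G ξ (ENNReal.ofReal (4 * a * ρ + b / ρ)) := by
  intro d hd
  have ht : 0 < ρ / d := by positivity
  have key : ∀ τ ∈ Ioc (0 : ℝ) 1, ∫⁻ ω in ball (0 : ℂ) d, G (ξ + τ * ω) ≤
      (Ioc 0 (ρ / d)).indicator (fun _ => ENNReal.ofReal (a * (4 * d ^ 2))) τ +
      (Ioi (ρ / d)).indicator (fun τ => ENNReal.ofReal (τ ^ (-2 : ℝ)) * ENNReal.ofReal b) τ := by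
    intro τ hτ
    rcases le_or_gt τ (ρ / d) with h | h
    · refine le_trans ?_ le_self_add
      rw [indicator_of_mem (show τ ∈ Ioc 0 (ρ / d) from ⟨hτ.1, h⟩), ENNReal.ofReal_mul ha]
      calc _ ≤ ∫⁻ ω in ball (0 : ℂ) d, ENNReal.ofReal a := by
            apply setLIntegral_mono' measurableSet_ball
            intro ω hω
            apply h1
            rw [mem_ball_zero_iff] at hω
            rw [add_sub_cancel_left, norm_mul, Complex.norm_real, Real.norm_of_nonneg hτ.1.le]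
            calc τ * ‖ω‖ < τ * d := by gcongr; exact hτ.1
              _ ≤ ρ := by rwa [le_div_iff₀ hd] at h
        _ ≤ _ := by
            rw [setLIntegral_const]; gcongr; exact vol_ball_le hd
    · refine le_trans ?_ le_add_self
      rw [indicator_of_mem (show τ ∈ Ioi (ρ / d) from h)]
      calc _ ≤ ∫⁻ ω, G (ξ + τ * ω) := setLIntegral_le_lintegral _ _
        _ ≤ _ := by rw [scale hG ξ hτ.1]; gcongr
  have i2 : ∫⁻ τ in Ioi (ρ / d), ENNReal.ofReal (τ ^ (-2 : ℝ)) = ENNReal.ofReal (d / ρ) := by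
    rw [← ofReal_integral_eq_lintegral_ofReal (integrableOn_Ioi_rpow_of_lt (by norm_num) ht),
      integral_Ioi_rpow_of_lt (by norm_num) ht]
    · congr 1
      norm_num [Real.rpow_neg_one]
    · filter_upwards [ae_restrict_mem measurableSet_Ioi] with τ hτ
      exact Real.rpow_nonneg (ht.trans hτ).le _
  calc lam G ξ d ≤ ∫⁻ τ in Ioc (0 : ℝ) 1,
        ((Ioc 0 (ρ / d)).indicator (fun _ => ENNReal.ofReal (a * (4 * d ^ 2))) τ +
        (Ioi (ρ / d)).indicator (fun τ => ENNReal.ofReal (τ ^ (-2 : ℝ)) * ENNReal.ofReal b) τ) :=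
        setLIntegral_mono' measurableSet_Ioc key
    _ ≤ ∫⁻ τ, ((Ioc 0 (ρ / d)).indicator (fun _ => ENNReal.ofReal (a * (4 * d ^ 2))) τ +
        (Ioi (ρ / d)).indicator (fun τ => ENNReal.ofReal (τ ^ (-2 : ℝ)) * ENNReal.ofReal b) τ) :=
        setLIntegral_le_lintegral _ _
    _ = ENNReal.ofReal (a * (4 * d ^ 2)) * ENNReal.ofReal (ρ / d) +
        ENNReal.ofReal (d / ρ) * ENNReal.ofReal b := by
        rw [lintegral_add_left (measurable_const.indicator measurableSet_Ioc),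
          lintegral_indicator measurableSet_Ioc, lintegral_indicator measurableSet_Ioi,
          setLIntegral_const, lintegral_mul_const _ (by fun_prop), i2, Real.volume_Ioc, sub_zero]
    _ = _ := by
        rw [← ENNReal.ofReal_mul (by positivity), ← ENNReal.ofReal_mul (by positivity),
          ← ENNReal.ofReal_mul (by positivity), ← ENNReal.ofReal_add (by positivity) (by positivity)]
        congr 1
        field_simp

/-- `g` is an upper gradient of `φ` -/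
def Grad (φ : ℂ → ℂ) (g : ℂ → ℝ) : Prop :=
  ∀ (ξ d : ℂ) (τ : ℝ), ∃ v, HasDerivAt (fun t : ℝ => φ (ξ + t * d)) v τ ∧ ‖v‖ ≤ ‖d‖ * g (ξ + τ * d)

lemma Grad.seg {φ : ℂ → ℂ} {g : ℂ → ℝ} (h : Grad φ g) (hg : Continuous g) (h0 : ∀ z, 0 ≤ g z)
    (ξ ω : ℂ) {d : ℝ} (hd : ‖ω‖ ≤ d) : ‖φ (ξ + ω) - φ ξ‖ₑ ≤
      ENNReal.ofReal d * ∫⁻ τ in Ioc (0 : ℝ) 1, ENNReal.ofReal (g (ξ + τ * ω)) := by
  choose v hv hv' using h ξ ω
  have hc : Continuous fun τ : ℝ => g (ξ + τ * ω) := by fun_prop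
  have h1 := norm_sub_le_integral_of_norm_deriv_le_of_le (f := fun t : ℝ => φ (ξ + t * ω))
    (B := fun τ => d * g (ξ + τ * ω)) zero_le_one
    (fun t _ => (hv t).continuousAt.continuousWithinAt)
    (fun t _ => (hv t).differentiableAt.differentiableWithinAt)
    (ae_of_all _ fun t _ => by
      rw [(hv t).deriv]; exact (hv' t).trans (mul_le_mul_of_nonneg_right hd (h0 _)))
    ((hc.const_mul d).intervalIntegrable _ _)
  simp only [ofReal_one, one_mul, ofReal_zero, zero_mul, add_zero] at h1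
  rw [intervalIntegral.integral_const_mul, intervalIntegral.integral_of_le zero_le_one] at h1
  rw [← ofReal_integral_eq_lintegral_ofReal (hc.integrableOn_Ioc) (ae_of_all _ fun t => h0 _),
    ← ENNReal.ofReal_mul ((norm_nonneg _).trans hd), ← ofReal_norm]
  exact ENNReal.ofReal_le_ofReal h1

lemma Grad.avg {φ : ℂ → ℂ} {g : ℂ → ℝ} (h : Grad φ g) (hg : Continuous g) (h0 : ∀ z, 0 ≤ g z)
    {ξ : ℂ} {c : ℝ} (hc : 0 ≤ c) (hL : Lam (fun z => ENNReal.ofReal (g z)) ξ (ENNReal.ofReal c))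
    {d : ℝ} (hd : 0 < d) :
    ∫⁻ ω in ball (0 : ℂ) d, ‖φ (ξ + ω) - φ ξ‖ₑ ≤ ENNReal.ofReal (c * d ^ 2) := by
  have hG : Measurable fun z => ENNReal.ofReal (g z) := hg.measurable.ennreal_ofReal
  calc _ ≤ ∫⁻ ω in ball (0 : ℂ) d,
        ENNReal.ofReal d * ∫⁻ τ in Ioc (0 : ℝ) 1, ENNReal.ofReal (g (ξ + τ * ω)) :=
        setLIntegral_mono' measurableSet_ball fun ω hω =>
          h.seg hg h0 ξ ω (mem_ball_zero_iff.1 hω).le
    _ = ENNReal.ofReal d * lam (fun z => ENNReal.ofReal (g z)) ξ d := by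
        rw [lintegral_const_mul' _ _ ENNReal.ofReal_ne_top, lam]
        congr 1
        exact (lintegral_lintegral_swap (meas2 hG ξ).aemeasurable).symm
    _ ≤ ENNReal.ofReal d * (ENNReal.ofReal c * ENNReal.ofReal d) := by gcongr; exact hL d hd
    _ = _ := by
        rw [← ENNReal.ofReal_mul hc, ← ENNReal.ofReal_mul hd.le]; congr 1; ring

theorem Grad.osc {φ : ℂ → ℂ} {g : ℂ → ℝ} (h : Grad φ g) (hφ : Continuous φ) (hg : Continuous g)
    (h0 : ∀ z, 0 ≤ g z) {ξ η : ℂ} {c : ℝ} (hc : 0 ≤ c)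
    (hL : Lam (fun z => ENNReal.ofReal (g z)) ξ (ENNReal.ofReal c))
    (hL' : Lam (fun z => ENNReal.ofReal (g z)) η (ENNReal.ofReal c)) : ‖φ ξ - φ η‖ ≤ 5 * c := by
  set d := ‖ξ - η‖ + 1 with hdd
  have hd : 0 < d := by positivity
  have h1 := h.avg hg h0 hc hL hd
  have h2 := h.avg hg h0 hc hL' (d := 2 * d) (by positivity)
  have h3 : ∫⁻ ω in ball (0 : ℂ) d, ‖φ (ξ + ω) - φ η‖ₑ ≤
      ∫⁻ ω in ball (0 : ℂ) (2 * d), ‖φ (η + ω) - φ η‖ₑ := by
    rw [← lintegral_indicator measurableSet_ball, ← lintegral_indicator measurableSet_ball,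
      ← lintegral_add_right_eq_self (fun ω => (ball (0 : ℂ) (2 * d)).indicator
        (fun ω => ‖φ (η + ω) - φ η‖ₑ) ω) (ξ - η)]
    refine lintegral_mono fun ω => ?_
    by_cases hω : ω ∈ ball (0 : ℂ) d
    · have : ω + (ξ - η) ∈ ball (0 : ℂ) (2 * d) := by
        rw [mem_ball_zero_iff] at hω ⊢
        have := norm_add_le ω (ξ - η)
        linarith
      simp only [indicator_of_mem hω, indicator_of_mem this]
      rw [show η + (ω + (ξ - η)) = ξ + ω by ring]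
    · simp only [indicator_of_notMem hω]; exact zero_le
  have h4 : ‖φ ξ - φ η‖ₑ * ENNReal.ofReal (d ^ 2) ≤ ENNReal.ofReal (5 * c * d ^ 2) := by
    calc _ ≤ ‖φ ξ - φ η‖ₑ * volume (ball (0 : ℂ) d) := by gcongr; exact le_vol_ball hd
      _ = ∫⁻ _ in ball (0 : ℂ) d, ‖φ ξ - φ η‖ₑ := (setLIntegral_const _ _).symm
      _ ≤ ∫⁻ ω in ball (0 : ℂ) d, (‖φ (ξ + ω) - φ ξ‖ₑ + ‖φ (ξ + ω) - φ η‖ₑ) := by
          refine lintegral_mono fun ω => ?_
          have : φ ξ - φ η = -(φ (ξ + ω) - φ ξ) + (φ (ξ + ω) - φ η) := by ring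
          rw [this]
          exact (enorm_add_le _ _).trans (by rw [enorm_neg])
      _ = _ := lintegral_add_left
          (show Continuous fun ω => φ (ξ + ω) - φ ξ by fun_prop).measurable.enorm _
      _ ≤ ENNReal.ofReal (c * d ^ 2) + ENNReal.ofReal (c * (2 * d) ^ 2) :=
          add_le_add h1 (h3.trans h2)
      _ = _ := by rw [← ENNReal.ofReal_add (by positivity) (by positivity)]; congr 1; ring
  rw [← ofReal_norm, ← ENNReal.ofReal_mul (norm_nonneg _),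
    ENNReal.ofReal_le_ofReal_iff (by positivity)] at h4
  exact le_of_mul_le_mul_right h4 (by positivity)

end Pool.Agent.H96.WO
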