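import Pool.Agent.H96.WO3

set_option autoImplicit false
set_option linter.unusedSectionVars false

open Complex MeasureTheory Filter Topology Set Metric
open scoped InnerProductSpace ENNReal

namespace Pool.Agent.H96.WO

variable {H : Type*} [NormedAddCommGroup H] [InnerProductSpace ℂ H] [CompleteSpace H]

/-- a bounded continuous Bessel family -/
structure Bes (a : ℂ → H) (M : ℝ) : Prop where
  cont : Continuous a
  bd : ∀ ξ, ‖a ξ‖ ≤ M
  bes : ∀ h, ∫⁻ ξ, ENNReal.ofReal (‖⟪h, a ξ⟫_ℂ‖ ^ 2) ≤ ENNReal.ofReal (M ^ 2 * ‖h‖ ^ 2)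

lemma Bes.nonneg {a : ℂ → H} {M : ℝ} (h : Bes a M) : 0 ≤ M := (norm_nonneg _).trans (h.bd 0)

lemma Bes.mono {a : ℂ → H} {M M' : ℝ} (h : Bes a M) (hM : M ≤ M') : Bes a M' :=
  ⟨h.cont, fun ξ => (h.bd ξ).trans hM, fun v => (h.bes v).trans (ENNReal.ofReal_le_ofReal (by
    have := h.nonneg; gcongr))⟩

noncomputable def rk {n : ℕ} (e f : Fin n → H) (h : H) : H := ∑ i, ⟪e i, h⟫_ℂ • f i

lemma exists_rk (D : H →L[ℂ] H) {r : ℕ}
    (hr : Module.rank ℂ (LinearMap.range (D : H →ₗ[ℂ] H)) ≤ (r : Cardinal)) :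
    ∃ n ≤ r, ∃ e f : Fin n → H, (∀ h, D h = rk e f h) ∧ ∀ i, ‖e i‖ ≤ ‖D‖ ∧ ‖f i‖ ≤ 1 := by
  set V := LinearMap.range (D : H →ₗ[ℂ] H)
  have : FiniteDimensional ℂ V :=
    Module.rank_lt_aleph0_iff.1 (hr.trans_lt Cardinal.natCast_lt_aleph0)
  let b := stdOrthonormalBasis ℂ V
  refine ⟨Module.finrank ℂ V, Module.finrank_le_of_rank_le hr, fun i => D.adjoint (b i),
    fun i => b i, fun h => ?_, fun i => ⟨?_, ?_⟩⟩
  · have h1 := congrArg Subtype.val (b.sum_repr' ⟨D h, h, rfl⟩)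
    simp only [AddSubmonoidClass.coe_finsetSum, SetLike.val_smul] at h1
    rw [← h1, rk]
    refine Finset.sum_congr rfl fun i _ => ?_
    rw [ContinuousLinearMap.adjoint_inner_left]; rfl
  · have h2 : ‖D.adjoint‖ = ‖D‖ := ContinuousLinearMap.adjoint.norm_map D
    have h3 : ‖(b i : H)‖ = 1 := b.orthonormal.1 i
    calc _ ≤ ‖D.adjoint‖ * ‖(b i : H)‖ := D.adjoint.le_opNorm _
      _ = _ := by rw [h2, h3, mul_one]
  · exact (b.orthonormal.1 i).le

noncomputable def sq2 {n : ℕ} (e : Fin n → H) (a : ℂ → H) (z : ℂ) : ℝ≥0∞ :=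
  ∑ i, ENNReal.ofReal (‖⟪e i, a z⟫_ℂ‖ ^ 2)

lemma sq2_meas {n : ℕ} (e : Fin n → H) {a : ℂ → H} (ha : Continuous a) : Measurable (sq2 e a) :=
  Finset.measurable_sum _ fun i _ =>
    (show Continuous fun z => ‖⟪e i, a z⟫_ℂ‖ ^ 2 by fun_prop).measurable.ennreal_ofReal

lemma sq2_int {n : ℕ} (e : Fin n → H) {a : ℂ → H} {M : ℝ} (ha : Bes a M) :
    ∫⁻ z, sq2 e a z ≤ ENNReal.ofReal (M ^ 2 * ∑ i, ‖e i‖ ^ 2) := by
  have hc := ha.cont
  unfold sq2
  rw [lintegral_finsetSum _ fun i _ =>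
    (show Continuous fun z => ‖⟪e i, a z⟫_ℂ‖ ^ 2 by fun_prop).measurable.ennreal_ofReal,
    Finset.mul_sum, ENNReal.ofReal_sum_of_nonneg fun i _ => by positivity]
  exact Finset.sum_le_sum fun i _ => ha.bes _

lemma rk_le {n : ℕ} (e f : Fin n → H) (x y : H) :
    ‖⟪y, rk e f x⟫_ℂ‖ ≤ ∑ i, ‖⟪e i, x⟫_ℂ‖ * ‖⟪f i, y⟫_ℂ‖ := by
  rw [rk, inner_sum]
  refine (norm_sum_le _ _).trans (Finset.sum_le_sum fun i _ => ?_)
  rw [inner_smul_right, norm_mul, norm_inner_symm y]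

lemma rk_amgm {n : ℕ} (e f : Fin n → H) (a b : ℂ → H) (z : ℂ) {t : ℝ} (ht : 0 < t) :
    ENNReal.ofReal ‖⟪b z, rk e f (a z)⟫_ℂ‖ ≤
      ENNReal.ofReal t * sq2 e a z + ENNReal.ofReal t⁻¹ * sq2 f b z := by
  unfold sq2
  rw [← ENNReal.ofReal_sum_of_nonneg fun i _ => by positivity,
    ← ENNReal.ofReal_sum_of_nonneg fun i _ => by positivity, ← ENNReal.ofReal_mul ht.le,
    ← ENNReal.ofReal_mul (by positivity), ← ENNReal.ofReal_add (by positivity) (by positivity),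
    Finset.mul_sum, Finset.mul_sum, ← Finset.sum_add_distrib]
  refine ENNReal.ofReal_le_ofReal ((rk_le e f _ _).trans (Finset.sum_le_sum fun i _ => ?_))
  generalize ‖⟪e i, a z⟫_ℂ‖ = u
  generalize ‖⟪f i, b z⟫_ℂ‖ = v
  have : t * u ^ 2 + t⁻¹ * v ^ 2 - u * v = t⁻¹ * ((t * u - v / 2) ^ 2 + 3 / 4 * v ^ 2) := by
    field_simp; ring
  have h2 : 0 ≤ t⁻¹ * ((t * u - v / 2) ^ 2 + 3 / 4 * v ^ 2) := by positivity
  linarith

lemma rk_cont {n : ℕ} (e f : Fin n → H) : Continuous (rk e f) := by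
  unfold rk; fun_prop

lemma rk_int {n : ℕ} (e f : Fin n → H) {a b : ℂ → H} {M : ℝ} (ha : Bes a M) (hb : Bes b M)
    {t : ℝ} (ht : 0 < t) (S : Set ℂ) :
    ∫⁻ z in S, ENNReal.ofReal ‖⟪b z, rk e f (a z)⟫_ℂ‖ ≤
      ENNReal.ofReal t * (∫⁻ z in S, sq2 e a z) + ENNReal.ofReal (t⁻¹ * (M ^ 2 * ∑ i, ‖f i‖ ^ 2)) := by
  refine (lintegral_mono fun z => rk_amgm e f a b z ht).trans ?_
  rw [lintegral_add_left ((sq2_meas e ha.cont).const_mul _),
    lintegral_const_mul _ (sq2_meas e ha.cont), lintegral_const_mul _ (sq2_meas f hb.cont),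
    ENNReal.ofReal_mul (by positivity)]
  gcongr
  exact (setLIntegral_le_lintegral _ _).trans (sq2_int f hb)

lemma rk_int' {n : ℕ} (e f : Fin n → H) {a b : ℂ → H} {M : ℝ} (ha : Bes a M) (hb : Bes b M)
    {t : ℝ} (ht : 0 < t) :
    ∫⁻ z, ENNReal.ofReal ‖⟪b z, rk e f (a z)⟫_ℂ‖ ≤
      ENNReal.ofReal (t * (M ^ 2 * ∑ i, ‖e i‖ ^ 2) + t⁻¹ * (M ^ 2 * ∑ i, ‖f i‖ ^ 2)) := by
  have h := rk_int e f ha hb ht univ
  rw [Measure.restrict_univ] at h
  refine h.trans ?_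
  rw [ENNReal.ofReal_add (by positivity) (by positivity), ENNReal.ofReal_mul ht.le]
  gcongr
  exact sq2_int e ha

lemma gmeas (K : H → H) (hK : Continuous K) {a b : ℂ → H} (ha : Continuous a) (hb : Continuous b) :
    Measurable fun z => ENNReal.ofReal ‖⟪b z, K (a z)⟫_ℂ‖ :=
  (show Continuous fun z => ‖⟪b z, K (a z)⟫_ℂ‖ by fun_prop).measurable.ennreal_ofReal

lemma lam_fr (D : H →L[ℂ] H) {r : ℕ} (hr0 : 0 < r)
    (hr : Module.rank ℂ (LinearMap.range (D : H →ₗ[ℂ] H)) ≤ (r : Cardinal)) {σ : ℝ} (hσ : 0 < σ)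
    (hD : ‖D‖ ≤ σ) {a b : ℂ → H} {M : ℝ} (ha : Bes a M) (hb : Bes b M) (ξ : ℂ) :
    Lam (fun z => ENNReal.ofReal ‖⟪b z, D (a z)⟫_ℂ‖) ξ
      (ENNReal.ofReal (6 * (√r * σ) * M ^ 2)) := by
  obtain ⟨n, hn, e, f, h1, h2⟩ := exists_rk D hr
  have hM := ha.nonneg
  have hρ : 0 < √(r : ℝ) := Real.sqrt_pos.2 (by exact_mod_cast hr0)
  have key := Lam.block (gmeas D D.continuous ha.cont hb.cont) (ξ := ξ) (a := σ * M ^ 2)
    (b := 2 * r * σ * M ^ 2) (by positivity) (by positivity) hρ (fun z _ => ?_) ?_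
  · convert key using 2
    have : (r : ℝ) = √r * √r := (Real.mul_self_sqrt (by positivity)).symm
    generalize √(r : ℝ) = w at *
    rw [this]; field_simp; ring
  · apply ENNReal.ofReal_le_ofReal
    calc _ ≤ ‖b z‖ * ‖D (a z)‖ := norm_inner_le_norm _ _
      _ ≤ M * (σ * M) := by
          gcongr
          · exact hb.bd z
          · exact (D.le_opNorm _).trans (by gcongr; exact ha.bd z)
      _ = _ := by ring
  · simp only [h1]
    refine (rk_int' e f ha hb (inv_pos.2 hσ)).trans (ENNReal.ofReal_le_ofReal ?_)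
    have s1 : ∑ i, ‖e i‖ ^ 2 ≤ r * σ ^ 2 := by
      calc _ ≤ ∑ _i : Fin n, σ ^ 2 := Finset.sum_le_sum fun i _ => by
            gcongr; exact (h2 i).1.trans hD
        _ = n * σ ^ 2 := by simp
        _ ≤ _ := by gcongr
    have s2 : ∑ i, ‖f i‖ ^ 2 ≤ r := by
      calc _ ≤ ∑ _i : Fin n, (1 : ℝ) ^ 2 := Finset.sum_le_sum fun i _ => by
            gcongr; exact (h2 i).2
        _ = n := by simp
        _ ≤ _ := by exact_mod_cast hn
    calc _ ≤ σ⁻¹ * (M ^ 2 * (r * σ ^ 2)) + σ⁻¹⁻¹ * (M ^ 2 * r) := by gcongr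
      _ = _ := by field_simp; ring

/-- approximation numbers -/
noncomputable def apx (K : H →L[ℂ] H) (n : ℕ) : ℝ :=
  sInf {r : ℝ | ∃ F : H →L[ℂ] H,
    Module.rank ℂ (LinearMap.range (F : H →ₗ[ℂ] H)) ≤ (n : Cardinal) ∧ r = ‖K - F‖}

def LZ (K : H →L[ℂ] H) : Prop :=
  ∀ ε : ℝ, 0 < ε → ∃ (n : ℕ) (e f : Fin n → H), (∀ h, ‖K h - rk e f h‖ ≤ ε * ‖h‖) ∧
    ∀ (M : ℝ) (a b : ℂ → H), Bes a M → Bes b M → ∀ ξ,
      Lam (fun z => ENNReal.ofReal ‖⟪b z, K (a z) - rk e f (a z)⟫_ℂ‖) ξ (ENNReal.ofReal (ε * M ^ 2))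

theorem lz_of_summable (K : H →L[ℂ] H)
    (hK : Summable fun n : ℕ => apx K n / Real.sqrt ((n : ℝ) + 1)) : LZ K := by
  have hne : ∀ n : ℕ, {r : ℝ | ∃ F : H →L[ℂ] H,
      Module.rank ℂ (LinearMap.range (F : H →ₗ[ℂ] H)) ≤ (n : Cardinal) ∧ r = ‖K - F‖}.Nonempty :=
    fun n => ⟨_, 0, by simp, rfl⟩
  have hbd : ∀ n : ℕ, BddBelow {r : ℝ | ∃ F : H →L[ℂ] H,
      Module.rank ℂ (LinearMap.range (F : H →ₗ[ℂ] H)) ≤ (n : Cardinal) ∧ r = ‖K - F‖} :=
    fun n => ⟨0, by rintro r ⟨F, -, rfl⟩; exact norm_nonneg _⟩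
  have h0 : ∀ n, 0 ≤ apx K n := fun n =>
    le_csInf (hne n) (by rintro r ⟨F, -, rfl⟩; exact norm_nonneg _)
  have hanti : ∀ m n, m ≤ n → apx K n ≤ apx K m := fun m n hmn =>
    csInf_le_csInf (hbd n) (hne m) (by
      rintro r ⟨F, h1, h2⟩; exact ⟨F, h1.trans (by exact_mod_cast hmn), h2⟩)
  have hF : ∀ l : ℕ, ∃ F : H →L[ℂ] H, Module.rank ℂ (LinearMap.range (F : H →ₗ[ℂ] H)) ≤
      ((2 ^ l : ℕ) : Cardinal) ∧ ‖K - F‖ ≤ apx K (2 ^ l) + (1 / 2) ^ l := fun l => by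
    obtain ⟨r, ⟨F, h1, rfl⟩, h2⟩ := exists_lt_of_csInf_lt (hne (2 ^ l))
      (show apx K (2 ^ l) < apx K (2 ^ l) + (1 / 2) ^ l from lt_add_of_pos_right _ (by positivity))
    exact ⟨F, h1, h2.le⟩
  choose F hF1 hF2 using hF
  set σ : ℕ → ℝ := fun l => apx K (2 ^ l) + (1 / 2) ^ l with hσ
  have hσ0 : ∀ l, 0 < σ l := fun l => add_pos_of_nonneg_of_pos (h0 _) (by positivity)
  have hσa : ∀ l, σ (l + 1) ≤ σ l := fun l => add_le_add
    (hanti _ _ (Nat.pow_le_pow_right two_pos (Nat.le_succ l)))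
    (pow_le_pow_of_le_one (by norm_num) (by norm_num) (Nat.le_succ l))
  set w : ℕ → ℝ := fun l => √(2 ^ l) * σ l with hw
  have hs1 : ∀ l : ℕ, (1 : ℝ) ≤ √(2 ^ l) := fun l =>
    Real.one_le_sqrt.2 (one_le_pow₀ (by norm_num))
  have hws : Summable w := by
    have h1 := (summable_condensed_iff_of_nonneg (f := fun n : ℕ => apx K n / √((n : ℝ) + 1))
      (fun n => div_nonneg (h0 n) (Real.sqrt_nonneg _)) (fun m n _ hmn => by
        have := h0 m
        gcongr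
        exact hanti _ _ hmn)).2 hK
    have h2 : Summable fun l : ℕ => (√2 / 2 : ℝ) ^ l := summable_geometric_of_lt_one
      (by positivity) (by
        rw [div_lt_one two_pos]; exact (Real.sqrt_lt' two_pos).2 (by norm_num))
    refine Summable.of_nonneg_of_le (fun l => mul_nonneg (Real.sqrt_nonneg _) (hσ0 l).le)
      (fun l => ?_) ((h1.mul_left 2).add h2)
    simp only [hw, hσ, mul_add]
    apply add_le_add
    · have e1 : (2 : ℝ) ^ l = √(2 ^ l) * √(2 ^ l) := (Real.mul_self_sqrt (by positivity)).symm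
      have e2 : √(((2 ^ l : ℕ) : ℝ) + 1) ≤ 2 * √(2 ^ l) := by
        rw [Real.sqrt_le_left (by positivity), mul_pow, Real.sq_sqrt (by positivity)]
        have : (1 : ℝ) ≤ 2 ^ l := one_le_pow₀ (by norm_num)
        push_cast; linarith
      have e3 : 0 < √(((2 ^ l : ℕ) : ℝ) + 1) := Real.sqrt_pos.2 (by positivity)
      have e4 := h0 (2 ^ l)
      have e5 := hs1 l
      rw [← mul_div_assoc, ← mul_div_assoc, le_div_iff₀ e3]
      generalize √((2 : ℝ) ^ l) = u at *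
      rw [e1]
      calc u * apx K (2 ^ l) * √(((2 ^ l : ℕ) : ℝ) + 1) ≤ u * apx K (2 ^ l) * (2 * u) := by gcongr
        _ = _ := by ring
    · rw [Real.sqrt_eq_rpow, ← Real.rpow_natCast, ← Real.rpow_mul two_pos.le, mul_comm (l : ℝ),
        Real.rpow_mul two_pos.le, Real.rpow_natCast, ← Real.sqrt_eq_rpow, ← mul_pow]
      apply le_of_eq; congr 1; ring
  have hσw : ∀ l, σ l ≤ w l := fun l => le_mul_of_one_le_left (hσ0 l).le (hs1 l)
  have hw0 : ∀ l, 0 ≤ w l := fun l => (hσ0 l).le.trans (hσw l)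
  have hσt : Tendsto σ atTop (𝓝 0) :=
    squeeze_zero (fun l => (hσ0 l).le) hσw hws.tendsto_atTop_zero
  intro ε hε
  obtain ⟨L, hL⟩ := ((tendsto_sum_nat_add w).eventually (gt_mem_nhds
    (show 0 < ε / 24 by positivity))).exists
  have hsL : Summable fun k => w (k + L) := (summable_nat_add_iff L).2 hws
  obtain ⟨n, -, e, f, h1, -⟩ := exists_rk (F L) (hF1 L)
  refine ⟨n, e, f, fun h => ?_, fun M a b ha hb ξ => ?_⟩
  · rw [← h1]
    have : w (0 + L) ≤ ∑' k, w (k + L) := hsL.le_tsum 0 fun k _ => hw0 _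
    rw [zero_add] at this
    calc _ ≤ ‖K - F L‖ * ‖h‖ := (K - F L).le_opNorm h
      _ ≤ _ := by gcongr; linarith [hF2 L, hσw L]
  · have hM := ha.nonneg
    let D : ℕ → H →L[ℂ] H := fun k => F (k + L + 1) - F (k + L)
    have hD : ∀ k, Lam (fun z => ENNReal.ofReal ‖⟪b z, D k (a z)⟫_ℂ‖) ξ
        (ENNReal.ofReal (24 * M ^ 2 * w (k + L))) := fun k => by
      have := lam_fr (D k) (r := 4 * 2 ^ (k + L)) (by positivity) ?_ (σ := 2 * σ (k + L))
        (by linarith [hσ0 (k + L)]) ?_ ha hb ξ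
      · convert this using 2
        push_cast
        rw [Real.sqrt_mul (by norm_num), show √(4 : ℝ) = 2 by
          rw [show (4 : ℝ) = 2 ^ 2 by norm_num]; exact Real.sqrt_sq two_pos.le]
        simp only [hw]; ring
      · have e1 : ((D k : H →L[ℂ] H) : H →ₗ[ℂ] H) = (F (k + L + 1) : H →ₗ[ℂ] H) +
            -(F (k + L) : H →ₗ[ℂ] H) := by ext x; simp [D, sub_eq_add_neg]
        have e2 := LinearMap.rank_add_le (F (k + L + 1) : H →ₗ[ℂ] H) (-(F (k + L) : H →ₗ[ℂ] H))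
        rw [e1]
        refine e2.trans ?_
        have e3 : LinearMap.rank (-(F (k + L) : H →ₗ[ℂ] H)) ≤ ((2 ^ (k + L) : ℕ) : Cardinal) := by
          rw [LinearMap.rank, LinearMap.range_neg]; exact hF1 _
        refine (add_le_add (hF1 _) e3).trans ?_
        norm_cast
        rw [pow_succ]; omega
      · have : D k = (K - F (k + L)) - (K - F (k + L + 1)) := by simp [D]
        rw [this]
        linarith [norm_sub_le (K - F (k + L)) (K - F (k + L + 1)), hF2 (k + L), hF2 (k + L + 1),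
          hσa (k + L)]
    refine (Lam.tsum (fun k => gmeas (D k) (D k).continuous ha.cont hb.cont) hD).mono
      (fun z => ?_) ?_
    · rw [← h1]
      have t1 : Tendsto (fun N => F (N + L)) atTop (𝓝 K) := by
        rw [tendsto_iff_norm_sub_tendsto_zero]
        refine squeeze_zero (fun _ => norm_nonneg _) (fun N => ?_)
          ((tendsto_add_atTop_iff_nat L).2 hσt)
        rw [norm_sub_rev]; exact hF2 _
      have t2 : Tendsto (fun N => ENNReal.ofReal ‖⟪b z, F (N + L) (a z) - F L (a z)⟫_ℂ‖) atTop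
          (𝓝 (ENNReal.ofReal ‖⟪b z, K (a z) - F L (a z)⟫_ℂ‖)) := by
        have c : Continuous fun T : H →L[ℂ] H => ENNReal.ofReal ‖⟪b z, T (a z) - F L (a z)⟫_ℂ‖ :=
          ENNReal.continuous_ofReal.comp (by fun_prop)
        exact (c.tendsto K).comp t1
      refine le_of_tendsto' t2 fun N => ?_
      have e1 : F (N + L) (a z) - F L (a z) = ∑ k ∈ Finset.range N, D k (a z) := by
        have := Finset.sum_range_sub (fun k => F (k + L) (a z)) N
        rw [zero_add] at this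
        rw [← this]
        refine Finset.sum_congr rfl fun k _ => ?_
        simp only [D, sub_apply]; rw [add_right_comm]
      rw [e1, inner_sum]
      refine le_trans ?_ (ENNReal.sum_le_tsum (Finset.range N))
      rw [← ENNReal.ofReal_sum_of_nonneg fun _ _ => norm_nonneg _]
      exact ENNReal.ofReal_le_ofReal (norm_sum_le _ _)
    · rw [← ENNReal.ofReal_tsum_of_nonneg (fun k => by have := hw0 (k + L); positivity)
        (hsL.mul_left _), tsum_mul_left]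
      apply ENNReal.ofReal_le_ofReal
      nlinarith [sq_nonneg M]

lemma outer {n : ℕ} (e f : Fin n → H) {a : ℂ → H} {M : ℝ} (ha : Bes a M) {ε : ℝ} (hε : 0 < ε) :
    ∃ R : ℝ, 0 < R ∧ ∀ b : ℂ → H, Bes b M → ∀ ξ, Lam ((ball (0 : ℂ) R)ᶜ.indicator
      fun z => ENNReal.ofReal ‖⟪b z, rk e f (a z)⟫_ℂ‖) ξ (ENNReal.ofReal ε) := by
  have hM := ha.nonneg
  set A := ∑ i, (‖e i‖ * M) * (‖f i‖ * M) with hA
  have hA0 : 0 ≤ A := Finset.sum_nonneg fun i _ => by positivity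
  set ρ := ε / (8 * (A + 1)) with hρ
  have hρ0 : 0 < ρ := by positivity
  set B := M ^ 2 * ∑ i, ‖f i‖ ^ 2 with hB
  have hB0 : 0 ≤ B := by positivity
  set β := ε * ρ / 4 with hβ
  have hβ0 : 0 < β := by positivity
  set t := (B + 1) / β with ht
  have ht0 : 0 < t := by positivity
  have hfin : (volume.withDensity (sq2 e a)) (ball (0 : ℂ) ((0 : ℕ) + 1))ᶜ ≠ ∞ := by
    rw [withDensity_apply _ measurableSet_ball.compl]
    exact ((setLIntegral_le_lintegral _ _).trans_lt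
      ((sq2_int e ha).trans_lt ENNReal.ofReal_lt_top)).ne
  have h1 := tendsto_measure_iInter_atTop (μ := volume.withDensity (sq2 e a))
    (s := fun k : ℕ => (ball (0 : ℂ) (k + 1))ᶜ) (fun k => measurableSet_ball.compl.nullMeasurableSet)
    (fun k l hkl => compl_subset_compl.2 (ball_subset_ball (by gcongr))) ⟨0, hfin⟩
  have h2 : ⋂ k : ℕ, (ball (0 : ℂ) (k + 1))ᶜ = ∅ := by
    rw [← compl_iUnion, iUnion_ball_nat_succ, compl_univ]
  rw [h2, measure_empty] at h1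
  obtain ⟨k, hk⟩ := (h1.eventually (gt_mem_nhds
    (ENNReal.ofReal_pos.2 (show 0 < β / t by positivity)))).exists
  refine ⟨k + 1, by positivity, fun b hb ξ => ?_⟩
  have key := Lam.block ((gmeas (rk e f) (rk_cont e f) ha.cont hb.cont).indicator
    (measurableSet_ball (x := (0 : ℂ)) (ε := k + 1)).compl) (ξ := ξ) hA0 (b := 2 * β)
    (by positivity) hρ0 (fun z _ => ?_) ?_
  · refine key.mono (fun _ => le_rfl) (ENNReal.ofReal_le_ofReal ?_)
    have e1 : 2 * β / ρ = ε / 2 := by rw [hβ]; field_simp; ring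
    have e2 : 4 * A * ρ ≤ ε / 2 := by
      rw [hρ, mul_div_assoc', div_le_div_iff₀ (by positivity) two_pos]; nlinarith
    linarith
  · refine (indicator_le_self _ _ z).trans (ENNReal.ofReal_le_ofReal
      ((rk_le e f _ _).trans (Finset.sum_le_sum fun i _ => ?_)))
    gcongr
    · exact (norm_inner_le_norm _ _).trans (by gcongr; exact ha.bd z)
    · exact (norm_inner_le_norm _ _).trans (by gcongr; exact hb.bd z)
  · rw [lintegral_indicator measurableSet_ball.compl]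
    refine (rk_int e f ha hb ht0 _).trans ?_
    rw [Function.comp_apply, withDensity_apply _ measurableSet_ball.compl] at hk
    calc _ ≤ ENNReal.ofReal t * ENNReal.ofReal (β / t) + ENNReal.ofReal β := by
          gcongr
          rw [← hB, ht, inv_div, div_mul_eq_mul_div, div_le_iff₀ (by positivity)]
          nlinarith
      _ = _ := by
          rw [← ENNReal.ofReal_mul ht0.le, ← ENNReal.ofReal_add (by positivity) hβ0.le]
          congr 1; field_simp; ring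

lemma split {K : H →L[ℂ] H} {n : ℕ} (e f : Fin n → H) (a b : ℂ → H) (R : ℝ) (z : ℂ) :
    ENNReal.ofReal ‖⟪b z, K (a z)⟫_ℂ‖ ≤
      (ball (0 : ℂ) R).indicator (fun z => ENNReal.ofReal ‖⟪b z, rk e f (a z)⟫_ℂ‖) z +
      ((ball (0 : ℂ) R)ᶜ.indicator (fun z => ENNReal.ofReal ‖⟪b z, rk e f (a z)⟫_ℂ‖) z +
      ENNReal.ofReal ‖⟪b z, K (a z) - rk e f (a z)⟫_ℂ‖) := by
  rw [← add_assoc, indicator_self_add_compl_apply,
    ← ENNReal.ofReal_add (norm_nonneg _) (norm_nonneg _)]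
  apply ENNReal.ofReal_le_ofReal
  refine le_trans (le_of_eq ?_) (norm_add_le _ _)
  rw [← inner_add_right, add_sub_cancel]

lemma common {K : H →L[ℂ] H} (hK : LZ K) {a : ℂ → H} {M : ℝ} (ha : Bes a M) {ε : ℝ} (hε : 0 < ε) :
    ∃ (n : ℕ) (e f : Fin n → H) (R B : ℝ), 0 < R ∧ 0 ≤ B ∧ ∀ b : ℂ → H, Bes b M → ∀ (ξ : ℂ) (A ρ : ℝ),
      0 ≤ A → 0 < ρ → (∀ z, ‖z‖ < R → ‖z - ξ‖ < ρ → ‖⟪b z, rk e f (a z)⟫_ℂ‖ ≤ A) →
      Lam (fun z => ENNReal.ofReal ‖⟪b z, K (a z)⟫_ℂ‖) ξ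
        (ENNReal.ofReal (4 * A * ρ + B / ρ + ε)) := by
  have hM := ha.nonneg
  obtain ⟨n, e, f, -, h1⟩ := hK (ε / (2 * (M ^ 2 + 1))) (by positivity)
  obtain ⟨R, hR, h2⟩ := outer e f ha (half_pos hε)
  refine ⟨n, e, f, R, 1 * (M ^ 2 * ∑ i, ‖e i‖ ^ 2) + 1⁻¹ * (M ^ 2 * ∑ i, ‖f i‖ ^ 2), hR,
    by positivity, fun b hb ξ A ρ hA hρ h3 => ?_⟩
  have m := gmeas (rk e f) (rk_cont e f) ha.cont hb.cont
  have k1 := Lam.block (m.indicator (measurableSet_ball (x := (0 : ℂ)) (ε := R))) (ξ := ξ) hA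
    (b := 1 * (M ^ 2 * ∑ i, ‖e i‖ ^ 2) + 1⁻¹ * (M ^ 2 * ∑ i, ‖f i‖ ^ 2)) (by positivity) hρ
    (fun z hz => by
      by_cases h : z ∈ ball (0 : ℂ) R
      · rw [indicator_of_mem h]
        exact ENNReal.ofReal_le_ofReal (h3 z (mem_ball_zero_iff.1 h) hz)
      · rw [indicator_of_notMem h]; exact zero_le)
    ((lintegral_mono fun z => indicator_le_self _ _ z).trans (rk_int' e f ha hb one_pos))
  refine (Lam.add (m.indicator measurableSet_ball) k1 (Lam.add (m.indicator measurableSet_ball.compl)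
    (h2 b hb ξ) (h1 M a b ha hb ξ))).mono (split e f a b R) ?_
  rw [← ENNReal.ofReal_add (by positivity) (by positivity),
    ← ENNReal.ofReal_add (by positivity) (by positivity)]
  apply ENNReal.ofReal_le_ofReal
  have : ε / (2 * (M ^ 2 + 1)) * M ^ 2 ≤ ε / 2 := by
    rw [div_mul_eq_mul_div, div_le_div_iff₀ (by positivity) two_pos]; nlinarith [sq_nonneg M]
  linarith

theorem far {K : H →L[ℂ] H} (hK : LZ K) {a : ℂ → H} {M : ℝ} (ha : Bes a M) {ε : ℝ} (hε : 0 < ε) :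
    ∃ R : ℝ, ∀ b : ℂ → H, Bes b M → ∀ ξ : ℂ, R ≤ ‖ξ‖ →
      Lam (fun z => ENNReal.ofReal ‖⟪b z, K (a z)⟫_ℂ‖) ξ (ENNReal.ofReal ε) := by
  obtain ⟨n, e, f, R, B, hR, hB, h⟩ := common hK ha (half_pos hε)
  refine ⟨R + 2 * (B + 1) / ε, fun b hb ξ hξ => (h b hb ξ 0 (2 * (B + 1) / ε) le_rfl
    (by positivity) fun z h1 h2 => ?_).mono (fun _ => le_rfl) (ENNReal.ofReal_le_ofReal ?_)⟩
  · exfalso
    have := norm_sub_norm_le ξ z
    rw [norm_sub_rev] at this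
    linarith
  · have : B / (2 * (B + 1) / ε) ≤ ε / 2 := by
      rw [div_div_eq_mul_div, div_le_div_iff₀ (by positivity) two_pos]; nlinarith
    linarith

theorem near {K : H →L[ℂ] H} (hK : LZ K) {a : ℂ → H} {M : ℝ} (ha : Bes a M) {ε : ℝ} (hε : 0 < ε) :
    ∃ (n : ℕ) (f : Fin n → H) (R δ : ℝ), 0 < δ ∧ ∀ b : ℂ → H, Bes b M →
      (∀ z, ‖z‖ < R → ∀ i, ‖⟪f i, b z⟫_ℂ‖ ≤ δ) → ∀ ξ : ℂ,
      Lam (fun z => ENNReal.ofReal ‖⟪b z, K (a z)⟫_ℂ‖) ξ (ENNReal.ofReal ε) := by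
  have hM := ha.nonneg
  obtain ⟨n, e, f, R, B, hR, hB, h⟩ := common hK ha (half_pos hε)
  set ρ := 4 * (B + 1) / ε with hρ
  have hρ0 : 0 < ρ := by positivity
  set E := ∑ i, ‖e i‖ * M with hE
  have hE0 : 0 ≤ E := Finset.sum_nonneg fun i _ => by positivity
  set δ := ε / (16 * ρ * (E + 1)) with hδ
  have hδ0 : 0 < δ := by positivity
  refine ⟨n, f, R, δ, hδ0, fun b hb hf ξ => (h b hb ξ (E * δ) ρ (by positivity) hρ0
    fun z h1 _ => ?_).mono (fun _ => le_rfl) (ENNReal.ofReal_le_ofReal ?_)⟩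
  · refine (rk_le e f _ _).trans ?_
    rw [hE, Finset.sum_mul]
    refine Finset.sum_le_sum fun i _ => ?_
    gcongr
    · exact (norm_inner_le_norm _ _).trans (by gcongr; exact ha.bd z)
    · exact hf z h1 i
  · have e1 : B / ρ ≤ ε / 4 := by
      rw [hρ, div_div_eq_mul_div, div_le_div_iff₀ (by positivity) four_pos]; nlinarith
    have e2 : 4 * (E * δ) * ρ ≤ ε / 4 := by
      have : 4 * (E * δ) * ρ = ε / 4 * (E / (E + 1)) := by rw [hδ]; field_simp; ring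
      rw [this]
      exact mul_le_of_le_one_right (by positivity) ((div_le_one (by positivity)).2 (by linarith))
    linarith

end Pool.Agent.H96.WO
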