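import Pool.Agent.H96.WO2
import Pool.Agent.H96.WO4
import Pool.Agent.H60.CovaA

set_option autoImplicit false
set_option linter.unusedSectionVars false

open Complex MeasureTheory Filter Topology Set Metric FourierTransform
open scoped InnerProductSpace ENNReal NNReal Real

namespace Pool.Agent.H96.WO

variable {H : Type*} [NormedAddCommGroup H] [InnerProductSpace ℂ H] [CompleteSpace H]
variable {s : Set ℂ} [CompactSpace s]

noncomputable def FT (w : ℂ → ℂ) (ξ : ℂ) : ℂ := ∫ z, w z * ch ξ z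

lemma FT_eq (w : ℂ → ℂ) (ξ : ℂ) : FT w ξ = 𝓕 w ((-(2 * π)⁻¹ : ℝ) • ξ) := by
  rw [FT, Real.fourier_eq']
  congr 1
  ext z
  rw [smul_eq_mul, mul_comm, ch]
  congr 2
  have : (π : ℂ) ≠ 0 := ofReal_ne_zero.2 Real.pi_ne_zero
  rw [inner_smul_right, Complex.inner]
  simp [pr]
  field_simp

lemma FT_planch {w : ℂ → ℂ} (h1 : Integrable w) (h2 : MemLp w 2 volume) :
    ∫⁻ ξ, ENNReal.ofReal (‖FT w ξ‖ ^ 2) = ENNReal.ofReal (4 * π ^ 2 * ∫ z, ‖w z‖ ^ 2) := by
  obtain ⟨p1, p2⟩ := H60.Cova.plancherel h1 h2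
  have hc : (-(2 * π)⁻¹ : ℝ) ≠ 0 := neg_ne_zero.2 (by have := Real.pi_pos; positivity)
  have i1 : Integrable fun ξ => ‖𝓕 w ξ‖ ^ 2 := (memLp_two_iff_integrable_sq_norm p1.1).1 p1
  have i2 := (integrable_comp_smul_iff volume (fun ξ => ‖𝓕 w ξ‖ ^ 2) hc).2 i1
  simp only [FT_eq]
  rw [← ofReal_integral_eq_lintegral_ofReal i2 (ae_of_all _ fun _ => by positivity),
    Measure.integral_comp_smul volume (fun ξ => ‖𝓕 w ξ‖ ^ 2), p2, Complex.finrank_real_complex,
    smul_eq_mul, abs_of_pos (by have := Real.pi_pos; positivity)]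
  congr 2
  field_simp; norm_num

lemma FT_RL (w : ℂ → ℂ) : Tendsto (FT w) (cocompact ℂ) (𝓝 0) := by
  have hc : (-(2 * π)⁻¹ : ℝ) ≠ 0 := neg_ne_zero.2 (by have := Real.pi_pos; positivity)
  have h1 : Tendsto (𝓕 w) (cocompact ℂ) (𝓝 0) := tendsto_integral_exp_inner_smul_cocompact w
  have h2 : Tendsto (fun ξ : ℂ => (-(2 * π)⁻¹ : ℝ) • ξ) (cocompact ℂ) (cocompact ℂ) :=
    (Homeomorph.smulOfNeZero _ hc).isClosedEmbedding.tendsto_cocompact
  have : FT w = fun ξ => 𝓕 w ((-(2 * π)⁻¹ : ℝ) • ξ) := funext (FT_eq w)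
  rw [this]
  exact h1.comp h2

lemma decomp (μ : Measure ℂ) [IsFiniteMeasure μ] : ∃ (E : Set ℂ) (f : ℂ → ℝ≥0), MeasurableSet E ∧
    volume Eᶜ = 0 ∧ Measurable f ∧ μ.restrict E = volume.withDensity fun z => (f z : ℝ≥0∞) := by
  obtain ⟨E, hE, h1, h2⟩ := μ.mutuallySingular_singularPart volume
  refine ⟨E, fun z => (μ.rnDeriv volume z).toNNReal, hE, h2,
    (μ.measurable_rnDeriv volume).ennreal_toNNReal, ?_⟩
  have h3 : volume.withDensity (fun z => (((μ.rnDeriv volume z).toNNReal : ℝ≥0) : ℝ≥0∞)) =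
      volume.withDensity (μ.rnDeriv volume) := by
    apply withDensity_congr_ae
    filter_upwards [μ.rnDeriv_lt_top volume] with z hz
    exact ENNReal.coe_toNNReal hz.ne
  rw [h3]
  conv_lhs => rw [μ.haveLebesgueDecomposition_add volume]
  rw [Measure.restrict_add, Measure.restrict_eq_zero.2 h1, zero_add]
  exact Measure.restrict_eq_self_of_ae_mem ((withDensity_absolutelyContinuous _ _) h2)

namespace Rep
variable {Φ : Hom s H} {y : H} {μ : Measure ℂ} {J : L2 μ →L[ℂ] H}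

lemma parseval (R : Rep Φ y μ J) {E : Set ℂ} {f : ℂ → ℝ≥0} (hE : MeasurableSet E)
    (hf : Measurable f) (hμ : μ.restrict E = volume.withDensity fun z => (f z : ℝ≥0∞))
    {g : ℂ → ℂ} (hg : Measurable g) (hg0 : ∀ z, z ∉ E → g z = 0) {C : ℝ}
    (hC : ∀ z, ‖g z‖ ^ 2 * f z ≤ C) {u : L2 μ} (hu : u =ᵐ[μ] g) (h : H) :
    (∫⁻ ξ, ENNReal.ofReal (‖⟪h, U Φ ξ (J u)⟫_ℂ‖ ^ 2) =
      ENNReal.ofReal (4 * π ^ 2 * ∫ z, ‖J.adjoint h z‖ ^ 2 * (‖g z‖ ^ 2 * f z) ∂μ)) ∧
    Tendsto (fun ξ => ⟪h, U Φ ξ (J u)⟫_ℂ) (cocompact ℂ) (𝓝 0) := by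
  set v := J.adjoint h with hv
  have vm : Measurable (v : ℂ → ℂ) := (Lp.stronglyMeasurable v).measurable
  have v2 : Integrable (fun z => ‖v z‖ ^ 2) μ :=
    (memLp_two_iff_integrable_sq_norm (Lp.aestronglyMeasurable v)).1 (Lp.memLp v)
  set w : ℂ → ℂ := fun z => f z • ((starRingEnd ℂ) (v z) * g z) with hw
  have wm : Measurable w := hf.smul ((Complex.continuous_conj.measurable.comp vm).mul hg)
  have e1 : ∀ ξ, ⟪h, U Φ ξ (J u)⟫_ℂ = FT w ξ := fun ξ => by
    rw [R.coef, FT, ← hv]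
    have : ∫ z, (starRingEnd ℂ) (v z) * u z * ch ξ z ∂μ =
        ∫ z, (starRingEnd ℂ) (v z) * g z * ch ξ z ∂μ := by
      apply integral_congr_ae
      filter_upwards [hu] with z hz
      rw [hz]
    rw [this, ← setIntegral_eq_integral_of_forall_compl_eq_zero (s := E)
      (fun z hz => by simp [hg0 z hz]), hμ, integral_withDensity_eq_integral_smul hf]
    simp only [hw, smul_mul_assoc]
  have i1 : Integrable w := by
    have a1 : Integrable (fun z => (starRingEnd ℂ) (v z) * g z) μ := by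
      refine (L2.integrable_inner (𝕜 := ℂ) v u).congr ?_
      filter_upwards [hu] with z hz
      simp [hz, mul_comm]
    have a2 := a1.restrict (s := E)
    rwa [hμ, integrable_withDensity_iff_integrable_smul hf] at a2
  have e2 : ∀ z, ‖w z‖ ^ 2 = f z • (‖v z‖ ^ 2 * (‖g z‖ ^ 2 * f z)) := fun z => by
    simp only [hw, NNReal.smul_def, norm_smul, norm_mul, RCLike.norm_conj, NNReal.norm_eq,
      smul_eq_mul]
    ring
  have a3 : Integrable (fun z => ‖v z‖ ^ 2 * (‖g z‖ ^ 2 * f z)) μ :=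
    v2.mul_bdd (c := C) (by fun_prop) (ae_of_all _ fun z => by
      rw [Real.norm_of_nonneg (by positivity)]; exact hC z)
  have i2 : MemLp w 2 volume := by
    rw [memLp_two_iff_integrable_sq_norm wm.aestronglyMeasurable]
    simp only [e2]
    have a2 := a3.restrict (s := E)
    rwa [hμ, integrable_withDensity_iff_integrable_smul hf] at a2
  simp only [e1]
  refine ⟨?_, FT_RL w⟩
  rw [FT_planch i1 i2]
  congr 2
  simp only [e2]
  rw [← integral_withDensity_eq_integral_smul hf, ← hμ,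
    setIntegral_eq_integral_of_forall_compl_eq_zero (fun z hz => by simp [hg0 z hz])]

lemma int_adj (R : Rep Φ y μ J) (h : H) : ∫ z, ‖J.adjoint h z‖ ^ 2 ∂μ ≤ ‖h‖ ^ 2 := by
  have h1 := R.PE_normsq MeasurableSet.univ h
  rw [Measure.restrict_univ] at h1
  rw [← h1]
  gcongr
  exact (R.PE_contr MeasurableSet.univ h).1

end Rep

/-- vectors with bounded spectral density -/
def Nice (Φ : Hom s H) (x : H) : Prop :=
  (∃ M, Bes (fun ξ => U Φ ξ x) M) ∧ ∀ h, Tendsto (fun ξ => ⟪h, U Φ ξ x⟫_ℂ) (cocompact ℂ) (𝓝 0)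

theorem Rep.nice_approx {Φ : Hom s H} {x : H} {μ : Measure ℂ} {J : L2 μ →L[ℂ] H} (R : Rep Φ x μ J)
    (hac : μ ≪ volume) {ε : ℝ} (hε : 0 < ε) : ∃ x', Nice Φ x' ∧ ‖x - x'‖ ≤ ε := by
  have := R.fin
  obtain ⟨E, f, hE, h0, hf, hμ⟩ := decomp μ
  let F : ℕ → Set ℂ := fun m => E ∩ {z | f z ≤ m}
  have hF : ∀ m, MeasurableSet (F m) := fun m => hE.inter (measurableSet_le hf measurable_const)
  have h1 := tendsto_measure_iInter_atTop (μ := μ) (s := fun m => (F m)ᶜ)
    (fun m => (hF m).compl.nullMeasurableSet)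
    (fun k l hkl => compl_subset_compl.2 (inter_subset_inter_right _ fun z hz =>
      le_trans (show f z ≤ k from hz) (by exact_mod_cast hkl))) ⟨0, measure_ne_top _ _⟩
  have h2 : μ (⋂ m, (F m)ᶜ) = 0 := by
    refine measure_mono_null (t := Eᶜ) (fun z hz hzE => ?_) (hac h0)
    obtain ⟨m, hm⟩ := exists_nat_ge (f z)
    exact mem_iInter.1 hz m ⟨hzE, hm⟩
  rw [h2] at h1
  obtain ⟨m, hm⟩ := (h1.eventually (gt_mem_nhds
    (ENNReal.ofReal_pos.2 (show 0 < ε ^ 2 by positivity)))).exists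
  have h3 : MemLp (fun _ : ℂ => (1 : ℂ)) 2 μ := memLp_const 1
  have h4 : J.adjoint x = h3.toLp _ := by rw [← R.one _ h3.coeFn_toLp, R.adj_J]
  have hu : ml (memI (hF m)) (J.adjoint x) =ᵐ[μ] (F m).indicator fun _ => (1 : ℂ) := by
    filter_upwards [ml_ae (memI (hF m)) (J.adjoint x), h3.coeFn_toLp] with z h5 h6
    rw [h5, h4, h6, mul_one]
  have hC : ∀ z, ‖(F m).indicator (fun _ => (1 : ℂ)) z‖ ^ 2 * f z ≤ m := fun z => by
    by_cases hz : z ∈ F m
    · rw [indicator_of_mem hz, norm_one, one_pow, one_mul]; exact_mod_cast hz.2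
    · rw [indicator_of_notMem hz]; simp
  have key := R.parseval hE hf hμ (measurable_const.indicator (hF m))
    (fun z hz => indicator_of_notMem (fun h => hz h.1) _) hC hu
  refine ⟨PE J (hF m) x, ⟨⟨‖PE J (hF m) x‖ + (4 * π ^ 2 * m + 1), ?_, fun ξ => ?_, fun h => ?_⟩,
    fun h => (key h).2⟩, ?_⟩
  · exact (U_cont Φ).clm_apply continuous_const
  · rw [norm_U]; exact le_add_of_nonneg_right (by positivity)
  · refine (key h).1.le.trans (ENNReal.ofReal_le_ofReal ?_)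
    have v2 : Integrable (fun z => ‖J.adjoint h z‖ ^ 2) μ :=
      (memLp_two_iff_integrable_sq_norm (Lp.aestronglyMeasurable _)).1 (Lp.memLp _)
    have a1 : ∫ z, ‖J.adjoint h z‖ ^ 2 * (‖(F m).indicator (fun _ => (1 : ℂ)) z‖ ^ 2 * f z) ∂μ ≤
        ∫ z, ‖J.adjoint h z‖ ^ 2 * m ∂μ :=
      integral_mono_of_nonneg (ae_of_all _ fun z => by positivity) (v2.mul_const _)
        (ae_of_all _ fun z => mul_le_mul_of_nonneg_left (hC z) (by positivity))
    rw [integral_mul_const] at a1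
    have a2 := R.int_adj h
    have a3 : 4 * π ^ 2 * m ≤ (‖PE J (hF m) x‖ + (4 * π ^ 2 * m + 1)) ^ 2 := by
      have : 0 ≤ 4 * π ^ 2 * m := by positivity
      nlinarith [norm_nonneg (PE J (hF m) x)]
    calc _ ≤ 4 * π ^ 2 * (‖h‖ ^ 2 * m) := by gcongr; exact a1.trans (by gcongr)
      _ = 4 * π ^ 2 * m * ‖h‖ ^ 2 := by ring
      _ ≤ _ := by gcongr
  · apply le_of_sq_le_sq _ hε.le
    rw [R.PE_y]
    exact ENNReal.toReal_le_of_le_ofReal (by positivity) hm.le

theorem Rep.frame {Φ : Hom s H} {y : H} {μ : Measure ℂ} {J : L2 μ →L[ℂ] H} (R : Rep Φ y μ J) :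
    ∃ (E : Set ℂ) (hE : MeasurableSet E) (Z : Set ℂ), MeasurableSet Z ∧ Disjoint E Z ∧
      volume Z = 0 ∧ μ (E ∪ Z)ᶜ = 0 ∧ ∃ y₁ : H, ∀ h, ∫⁻ ξ, ENNReal.ofReal (‖⟪h, U Φ ξ y₁⟫_ℂ‖ ^ 2) =
        ENNReal.ofReal (4 * π ^ 2 * ‖PE J hE h‖ ^ 2) := by
  have := R.fin
  obtain ⟨E, f, hE, h0, hf, hμ⟩ := decomp μ
  have hsc : IsCompact s := isCompact_iff_compactSpace.2 inferInstance
  let F : Set ℂ := E ∩ {z | f z ≠ 0} ∩ s
  have hn : MeasurableSet {z | f z = 0} := hf (measurableSet_singleton 0)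
  have hF : MeasurableSet F := (hE.inter hn.compl).inter hsc.measurableSet
  let g : ℂ → ℂ := F.indicator fun z => ((√(f z))⁻¹ : ℝ)
  have hg : Measurable g := Measurable.indicator (by fun_prop) hF
  have hg0 : ∀ z, z ∉ E → g z = 0 := fun z hz => indicator_of_notMem (fun h => hz h.1.1) _
  have e1 : ∀ z, ‖g z‖ ^ 2 * f z = F.indicator (fun _ => (1 : ℝ)) z := fun z => by
    by_cases hz : z ∈ F
    · have : (f z : ℝ) ≠ 0 := by exact_mod_cast hz.1.2
      simp only [g, indicator_of_mem hz, Complex.norm_real, Real.norm_eq_abs, sq_abs, inv_pow]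
      rw [Real.sq_sqrt (NNReal.coe_nonneg _)]; exact inv_mul_cancel₀ this
    · simp [g, hz]
  have hg2 : MemLp g 2 μ := by
    rw [memLp_two_iff_integrable_sq_norm hg.aestronglyMeasurable,
      ← integrableOn_iff_integrable_of_support_subset (s := E) (fun z hz => by
        by_contra h; exact hz (by simp [hg0 z h])), IntegrableOn, hμ,
      integrable_withDensity_iff_integrable_smul hf]
    have : (fun z => f z • ‖g z‖ ^ 2) = F.indicator fun _ => (1 : ℝ) := by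
      ext z; rw [← e1, NNReal.smul_def, smul_eq_mul, mul_comm]
    rw [this, integrable_indicator_iff hF]
    exact integrableOn_const ((measure_mono inter_subset_right).trans_lt hsc.measure_lt_top).ne
  refine ⟨F, hF, Eᶜ, hE.compl, disjoint_left.2 fun z hz hz' => hz' hz.1.1, h0, ?_,
    J (hg2.toLp g), fun h => ?_⟩
  · have a1 : μ ({z | f z = 0} ∩ E) = 0 := by
      rw [← Measure.restrict_apply hn, hμ, withDensity_apply _ hn]
      rw [setLIntegral_congr_fun hn (g := fun _ => 0) fun z hz => by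
        simp only [show f z = 0 from hz, ENNReal.coe_zero]]
      simp
    refine measure_mono_null (fun z hz => ?_) (measure_union_null a1 R.supp)
    simp only [mem_compl_iff, mem_union, not_or, not_not] at hz ⊢
    by_contra hc
    push Not at hc
    exact hz.1 ⟨⟨hz.2, fun h => hc.1 ⟨h, hz.2⟩⟩, hc.2⟩
  · rw [(R.parseval hE hf hμ hg hg0 (C := 1) (fun z => by
      rw [e1]; exact indicator_le_self' (fun _ _ => zero_le_one) z) hg2.coeFn_toLp h).1,
      R.PE_normsq, ← integral_indicator hF]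
    congr 3
    ext z
    rw [e1]
    by_cases hz : z ∈ F <;> simp [hz]

end Pool.Agent.H96.WO
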