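import Pool.Agent.H96.WO5

set_option autoImplicit false
set_option linter.unusedSectionVars false
set_option maxHeartbeats 400000

open Complex MeasureTheory Filter Topology Set Metric
open scoped InnerProductSpace ENNReal NNReal Real BoundedContinuousFunction

namespace Pool.Agent.H96.WO

variable {H : Type*} [NormedAddCommGroup H] [InnerProductSpace ℂ H] [CompleteSpace H]
variable {s : Set ℂ} [CompactSpace s] {Φ Ψ : Hom s H} {x : H} {M : ℝ}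

noncomputable def gb (Φ Ψ : Hom s H) (x : H) (b : ℂ → H) (z : ℂ) : ℝ :=
  ‖⟪b z, K1 Φ Ψ (U Φ z x)⟫_ℂ‖ + ‖⟪b z, K2 Φ Ψ (U Φ z x)⟫_ℂ‖

lemma gb_cont {b : ℂ → H} (hb : Continuous b) : Continuous (gb Φ Ψ x b) := by
  have : Continuous fun z => U Φ z x := (U_cont Φ).clm_apply continuous_const
  unfold gb; fun_prop

lemma gb_nonneg (b : ℂ → H) (z : ℂ) : 0 ≤ gb Φ Ψ x b z := add_nonneg (norm_nonneg _) (norm_nonneg _)

lemma gb_lam {b : ℂ → H} (hb : Continuous b) {ξ : ℂ} {c : ℝ} (hc : 0 ≤ c)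
    (h1 : Lam (fun z => ENNReal.ofReal ‖⟪b z, K1 Φ Ψ (U Φ z x)⟫_ℂ‖) ξ (ENNReal.ofReal c))
    (h2 : Lam (fun z => ENNReal.ofReal ‖⟪b z, K2 Φ Ψ (U Φ z x)⟫_ℂ‖) ξ (ENNReal.ofReal c)) :
    Lam (fun z => ENNReal.ofReal (2 * gb Φ Ψ x b z)) ξ (ENNReal.ofReal (4 * c)) := by
  have ha : Continuous fun z => U Φ z x := (U_cont Φ).clm_apply continuous_const
  have m1 := gmeas (K1 Φ Ψ) (K1 Φ Ψ).continuous ha hb
  have m2 := gmeas (K2 Φ Ψ) (K2 Φ Ψ).continuous ha hb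
  have h3 := Lam.add m1 h1 h2
  refine (Lam.add (m1.add m2) h3 h3).mono (fun z => le_of_eq ?_) (le_of_eq ?_)
  · rw [Pi.add_apply, ← ENNReal.ofReal_add (norm_nonneg _) (norm_nonneg _), ← ENNReal.ofReal_add
      (by positivity) (by positivity), two_mul]; rfl
  · rw [← ENNReal.ofReal_add hc hc, ← ENNReal.ofReal_add (by positivity) (by positivity)]
    congr 1; ring

lemma der_le (y : H) (z d : ℂ) {b : ℂ → H} (hb : b z = U Ψ z y) :
    ‖⟪y, I • U Ψ (-z) ((d.re : ℂ) • K1 Φ Ψ (U Φ z x) + (d.im : ℂ) • K2 Φ Ψ (U Φ z x))⟫_ℂ‖ ≤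
      ‖d‖ * gb Φ Ψ x b z := by
  rw [inner_smul_right, norm_mul, norm_I, one_mul, ← U_inner, inner_add_right, inner_smul_right,
    inner_smul_right, gb, hb, mul_add]
  refine (norm_add_le _ _).trans (add_le_add ?_ ?_)
  · rw [norm_mul, Complex.norm_real]; gcongr; exact Complex.abs_re_le_norm d
  · rw [norm_mul, Complex.norm_real]; gcongr; exact Complex.abs_im_le_norm d

theorem weak (h1 : LZ (K1 Φ Ψ)) (h2 : LZ (K2 Φ Ψ)) (ha : Bes (fun ξ => U Φ ξ x) M) {ε : ℝ}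
    (hε : 0 < ε) : ∃ R : ℝ, ∀ y : H, Bes (fun ξ => U Ψ ξ y) M → ∀ ξ η : ℂ, R ≤ ‖ξ‖ → R ≤ ‖η‖ →
      ‖⟪y, ψ Φ Ψ x ξ⟫_ℂ - ⟪y, ψ Φ Ψ x η⟫_ℂ‖ ≤ ε := by
  obtain ⟨R1, k1⟩ := far h1 ha (show 0 < ε / 20 by positivity)
  obtain ⟨R2, k2⟩ := far h2 ha (show 0 < ε / 20 by positivity)
  refine ⟨max R1 R2, fun y hb ξ η hξ hη => ?_⟩
  have hG : Grad (fun ξ => ⟪y, ψ Φ Ψ x ξ⟫_ℂ) fun z => 2 * gb Φ Ψ x (fun ξ => U Ψ ξ y) z := by
    intro ξ d τ
    refine ⟨_, (hasDerivAt_const τ y).inner ℂ (ψ_deriv Φ Ψ x ξ d τ), ?_⟩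
    rw [inner_zero_left, add_zero]
    refine (der_le y _ d (b := fun ξ => U Ψ ξ y) rfl).trans ?_
    have := gb_nonneg (Φ := Φ) (Ψ := Ψ) (x := x) (fun ξ => U Ψ ξ y) (ξ + τ * d)
    gcongr; linarith
  have hψ := ψ_cont Φ Ψ x
  have := hG.osc (by fun_prop) ((gb_cont hb.cont).const_mul 2)
    (fun z => mul_nonneg two_pos.le (gb_nonneg _ z)) (c := 4 * (ε / 20)) (by positivity)
    (gb_lam hb.cont (by positivity) (k1 _ hb ξ (le_of_max_le_left hξ))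
      (k2 _ hb ξ (le_of_max_le_right hξ)))
    (gb_lam hb.cont (by positivity) (k1 _ hb η (le_of_max_le_left hη))
      (k2 _ hb η (le_of_max_le_right hη)))
  linarith

theorem quad {G : Type*} [NormedAddCommGroup G] [InnerProductSpace ℂ G] [CompleteSpace G] (h1 : LZ (K1 Φ Ψ)) (h2 : LZ (K2 Φ Ψ)) (ha : Bes (fun ξ => U Φ ξ x) M) {ε : ℝ}
    (hε : 0 < ε) : ∃ (F : Set H) (R δ : ℝ), F.Finite ∧ 0 < δ ∧
      ∀ (T : H →L[ℂ] G), Bes (fun ξ => U Ψ ξ (T.adjoint (T (ψ Φ Ψ x ξ)))) M →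
      (∀ z : ℂ, ‖z‖ < R → ∀ f ∈ F, ‖⟪f, U Ψ z (T.adjoint (T (ψ Φ Ψ x z)))⟫_ℂ‖ ≤ δ) →
      ∀ ξ, ‖T (ψ Φ Ψ x ξ)‖ ^ 2 ≤ ‖T x‖ ^ 2 + ε := by
  obtain ⟨n1, f1, R1, δ1, d1, k1⟩ := near h1 ha (show 0 < ε / 20 by positivity)
  obtain ⟨n2, f2, R2, δ2, d2, k2⟩ := near h2 ha (show 0 < ε / 20 by positivity)
  refine ⟨range f1 ∪ range f2, max R1 R2, min δ1 δ2, (finite_range _).union (finite_range _),
    lt_min d1 d2, fun T hb hf ξ => ?_⟩
  set b := fun ξ => U Ψ ξ (T.adjoint (T (ψ Φ Ψ x ξ))) with hbd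
  have hG : Grad (fun ξ => ⟪T (ψ Φ Ψ x ξ), T (ψ Φ Ψ x ξ)⟫_ℂ) fun z => 2 * gb Φ Ψ x b z := by
    intro ξ d τ
    have hd := (T.restrictScalars ℝ).hasFDerivAt.comp_hasDerivAt τ (ψ_deriv Φ Ψ x ξ d τ)
    refine ⟨_, hd.inner ℂ hd, ?_⟩
    simp only [Function.comp_apply, ContinuousLinearMap.coe_restrictScalars']
    have := der_le (Φ := Φ) (x := x) (T.adjoint (T (ψ Φ Ψ x (ξ + τ * d)))) (ξ + τ * d) d (b := b) rfl
    rw [ContinuousLinearMap.adjoint_inner_left] at this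
    refine (norm_add_le _ _).trans ?_
    rw [norm_inner_symm (T (I • _))]
    linarith
  have hψ := ψ_cont Φ Ψ x
  have l1 := k1 b hb fun z hz i => (hf z (hz.trans_le (le_max_left _ _)) _
    (Or.inl ⟨i, rfl⟩)).trans (min_le_left _ _)
  have l2 := k2 b hb fun z hz i => (hf z (hz.trans_le (le_max_right _ _)) _
    (Or.inr ⟨i, rfl⟩)).trans (min_le_right _ _)
  have := hG.osc (by fun_prop) ((gb_cont hb.cont).const_mul 2)
    (fun z => mul_nonneg two_pos.le (gb_nonneg _ z)) (c := 4 * (ε / 20)) (by positivity)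
    (gb_lam hb.cont (by positivity) (l1 ξ) (l2 ξ)) (gb_lam hb.cont (by positivity) (l1 0) (l2 0))
  have e0 : ψ Φ Ψ x 0 = x := by rw [ψ, neg_zero, U_zero, U_zero]
  simp only [e0, inner_self_eq_norm_sq_to_K] at this
  have e1 : ((‖T (ψ Φ Ψ x ξ)‖ : ℂ) ^ 2 - (‖T x‖ : ℂ) ^ 2) =
      ((‖T (ψ Φ Ψ x ξ)‖ ^ 2 - ‖T x‖ ^ 2 : ℝ) : ℂ) := by push_cast; rfl
  erw [e1, Complex.norm_real] at this
  linarith [le_abs_self (‖T (ψ Φ Ψ x ξ)‖ ^ 2 - ‖T x‖ ^ 2), Real.norm_eq_abs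
    (‖T (ψ Φ Ψ x ξ)‖ ^ 2 - ‖T x‖ ^ 2)]

section ac
variable {y : H} {c : ℝ}

lemma th_cont (y h : H) : Continuous fun η => ⟪U Ψ η y, h⟫_ℂ := by
  have : Continuous fun z => U Ψ z y := (U_cont Ψ).clm_apply continuous_const
  fun_prop

lemma th_mem (hy : Bes (fun ξ => U Ψ ξ y) c) (h : H) : MemLp (fun η => ⟪U Ψ η y, h⟫_ℂ) 2 volume := by
  have hc := th_cont (Ψ := Ψ) y h
  rw [memLp_two_iff_integrable_sq_norm hc.aestronglyMeasurable]
  refine ⟨(hc.norm.pow 2).aestronglyMeasurable,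
    (hasFiniteIntegral_iff_ofReal (ae_of_all _ fun _ => by positivity)).2 ?_⟩
  simp only [norm_inner_symm _ h]
  exact (hy.bes h).trans_lt ENNReal.ofReal_lt_top

lemma L2_normsq {μ : Measure ℂ} (u : L2 μ) :
    ENNReal.ofReal (‖u‖ ^ 2) = ∫⁻ z, ENNReal.ofReal (‖u z‖ ^ 2) ∂μ := by
  rw [← ofReal_integral_eq_lintegral_ofReal ((memLp_two_iff_integrable_sq_norm
    (Lp.aestronglyMeasurable _)).1 (Lp.memLp u)) (ae_of_all _ fun _ => by positivity),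
    ← real_inner_self_eq_norm_sq, L2.inner_def]
  simp only [real_inner_self_eq_norm_sq]

/-- the analysis operator of a Bessel family -/
noncomputable def Θ (hy : Bes (fun ξ => U Ψ ξ y) c) : H →L[ℂ] L2 volume :=
  LinearMap.mkContinuous
    { toFun := fun h => (th_mem hy h).toLp _
      map_add' := fun h h' => by
        rw [← MemLp.toLp_add]; apply MemLp.toLp_congr
        exact ae_of_all _ fun η => inner_add_right _ _ _
      map_smul' := fun a h => by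
        rw [RingHom.id_apply, ← MemLp.toLp_const_smul]; apply MemLp.toLp_congr
        exact ae_of_all _ fun η => inner_smul_right _ _ _ } c (fun h => by
    have hc := hy.nonneg
    apply le_of_sq_le_sq _ (by positivity)
    rw [← ENNReal.ofReal_le_ofReal_iff (by positivity), L2_normsq, mul_pow]
    refine le_trans (le_of_eq (lintegral_congr_ae ?_)) (hy.bes h)
    filter_upwards [(th_mem hy h).coeFn_toLp] with η hη
    rw [norm_inner_symm h, ← hη]; rfl)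

lemma Θ_ae (hy : Bes (fun ξ => U Ψ ξ y) c) (h : H) : Θ hy h =ᵐ[volume] fun η => ⟪U Ψ η y, h⟫_ℂ :=
  (th_mem hy h).coeFn_toLp

lemma Θ_le (hy : Bes (fun ξ => U Ψ ξ y) c) (h : H) : ‖Θ hy h‖ ≤ c * ‖h‖ :=
  ((Θ hy).le_opNorm h).trans (mul_le_mul_of_nonneg_right
    (LinearMap.mkContinuous_norm_le _ hy.nonneg _) (norm_nonneg _))

noncomputable def mθ (θ : ℂ) : L2 volume →L[ℂ] L2 volume := ml (memB (chB θ))

lemma mθ_ae (θ : ℂ) (u : L2 volume) : mθ θ u =ᵐ[volume] fun z => ch θ z * u z := ml_ae _ u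

lemma norm_mθ (θ : ℂ) (u : L2 volume) : ‖mθ θ u‖ = ‖u‖ := by
  have : ENNReal.ofReal (‖mθ θ u‖ ^ 2) = ENNReal.ofReal (‖u‖ ^ 2) := by
    rw [L2_normsq, L2_normsq]
    apply lintegral_congr_ae
    filter_upwards [mθ_ae θ u] with z hz
    rw [hz, norm_mul, norm_ch, one_mul]
  rw [ENNReal.ofReal_eq_ofReal_iff (by positivity) (by positivity)] at this
  exact (pow_left_inj₀ (norm_nonneg _) (norm_nonneg _) two_ne_zero).1 this

lemma sub_mθ_ae (θ : ℂ) (u : L2 volume) :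
    (u - mθ θ u : L2 volume) =ᵐ[volume] fun z => (1 - ch θ z) * u z := by
  filter_upwards [mθ_ae θ u, Lp.coeFn_sub u (mθ θ u)] with z h1 h2
  rw [h2, Pi.sub_apply, h1]; ring

lemma mθ_tendsto (u : L2 volume) : Tendsto (fun θ => ‖u - mθ θ u‖) (𝓝 0) (𝓝 0) := by
  have e : ∀ θ, ‖u - mθ θ u‖ = √(∫ z, ‖(1 - ch θ z) * u z‖ ^ 2) := fun θ => by
    rw [← Real.sqrt_sq (norm_nonneg (u - mθ θ u)), ← real_inner_self_eq_norm_sq, L2.inner_def]
    congr 1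
    apply integral_congr_ae
    filter_upwards [sub_mθ_ae θ u] with z hz
    rw [real_inner_self_eq_norm_sq, hz]
  simp only [e]
  have i2 : Integrable fun z => ‖u z‖ ^ 2 :=
    (memLp_two_iff_integrable_sq_norm (Lp.aestronglyMeasurable _)).1 (Lp.memLp u)
  have h := tendsto_integral_filter_of_dominated_convergence (μ := (volume : Measure ℂ))
    (l := 𝓝 (0 : ℂ)) (F := fun θ z => ‖(1 - ch θ z) * u z‖ ^ 2) (f := fun _ => (0 : ℝ))
    (fun z => 4 * ‖u z‖ ^ 2) (.of_forall fun θ =>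
      (((continuous_const.sub (continuous_ch' θ)).aestronglyMeasurable.mul
        (Lp.aestronglyMeasurable u)).norm.pow 2))
    (.of_forall fun θ => ae_of_all _ fun z => by
      rw [Real.norm_of_nonneg (by positivity), norm_mul, mul_pow]
      have : ‖1 - ch θ z‖ ≤ 2 := (norm_sub_le _ _).trans (by rw [norm_one, norm_ch]; norm_num)
      gcongr
      nlinarith [norm_nonneg (1 - ch θ z)])
    (i2.const_mul 4) (ae_of_all _ fun z => by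
      have c : Continuous fun θ => ‖(1 - ch θ z) * u z‖ ^ 2 := by
        have := continuous_ch.comp (Continuous.prodMk_left z)
        simp only [Function.comp_def] at this
        fun_prop
      simpa [ch_zero] using c.tendsto 0)
  simpa using h.sqrt

noncomputable def Tθ (hy : Bes (fun ξ => U Ψ ξ y) c) (θ : ℂ) : H →L[ℂ] L2 volume :=
  Θ hy - mθ θ ∘L Θ hy

lemma Tθ_ae (hy : Bes (fun ξ => U Ψ ξ y) c) (θ : ℂ) (h : H) :
    Tθ hy θ h =ᵐ[volume] fun η => (1 - ch θ η) * ⟪U Ψ η y, h⟫_ℂ := by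
  filter_upwards [sub_mθ_ae θ (Θ hy h), Θ_ae hy h] with z h1 h2
  rw [← h2]; exact h1

lemma weyl (hy : Bes (fun ξ => U Ψ ξ y) c) (θ ξ : ℂ) (h a : H) :
    ⟪h, U Ψ ξ ((Tθ hy θ).adjoint (Tθ hy θ (U Ψ (-ξ) a)))⟫_ℂ =
      ⟪(Θ hy h - ch θ ξ • mθ (-θ) (Θ hy h)) + (Θ hy h - ch (-θ) ξ • mθ θ (Θ hy h)), Θ hy a⟫_ℂ := by
  have e : ∀ η g, ⟪U Ψ η y, U Ψ (-ξ) g⟫_ℂ = ⟪U Ψ (η + ξ) y, g⟫_ℂ := fun η g => by
    rw [← U_inner, ← U_add, add_comm]
  have e0 : ⟪h, U Ψ ξ ((Tθ hy θ).adjoint (Tθ hy θ (U Ψ (-ξ) a)))⟫_ℂ =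
      ⟪Tθ hy θ (U Ψ (-ξ) h), Tθ hy θ (U Ψ (-ξ) a)⟫_ℂ := by
    rw [← ContinuousLinearMap.adjoint_inner_right, U_inner, neg_neg]
  let F : ℂ → ℂ := fun ζ => (starRingEnd ℂ) ((1 - ch θ (ζ - ξ)) * ⟪U Ψ ζ y, h⟫_ℂ) *
    ((1 - ch θ (ζ - ξ)) * ⟪U Ψ ζ y, a⟫_ℂ)
  rw [e0, L2_inner, L2_inner]
  calc _ = ∫ η, F (η + ξ) := by
        apply integral_congr_ae
        filter_upwards [Tθ_ae hy θ (U Ψ (-ξ) h), Tθ_ae hy θ (U Ψ (-ξ) a)] with η h1 h2
        rw [h1, h2, e, e]; simp only [F, add_sub_cancel_right]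
    _ = ∫ η, F η := integral_add_right_eq_self F ξ
    _ = _ := by
        apply integral_congr_ae
        filter_upwards [Θ_ae hy h, Θ_ae hy a, mθ_ae θ (Θ hy h), mθ_ae (-θ) (Θ hy h),
          Lp.coeFn_add (Θ hy h - ch θ ξ • mθ (-θ) (Θ hy h)) (Θ hy h - ch (-θ) ξ • mθ θ (Θ hy h)),
          Lp.coeFn_sub (Θ hy h) (ch θ ξ • mθ (-θ) (Θ hy h)),
          Lp.coeFn_sub (Θ hy h) (ch (-θ) ξ • mθ θ (Θ hy h)),
          Lp.coeFn_smul (ch θ ξ) (mθ (-θ) (Θ hy h)),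
          Lp.coeFn_smul (ch (-θ) ξ) (mθ θ (Θ hy h))] with η h1 h2 h3 h4 h5 h6 h7 h8 h9
        rw [h5, Pi.add_apply, h6, h7, Pi.sub_apply, Pi.sub_apply, h8, h9, Pi.smul_apply,
          Pi.smul_apply, h3, h4, h1, h2]
        have a1 : ch θ (η - ξ) = ch θ η * (starRingEnd ℂ) (ch θ ξ) := by
          rw [ch_comm θ, sub_eq_add_neg, ch_add, ch_neg, ch_comm θ, ch_comm θ]
        have a2 : ∀ z, ch θ z * (starRingEnd ℂ) (ch θ z) = 1 := fun z => by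
          rw [← ch_neg, ← ch_add, add_neg_cancel, ch_zero]
        simp only [F, a1, ch_neg, smul_eq_mul, map_mul, map_sub, map_add, map_one, conj_conj]
        have a3 := a2 η
        have a4 := a2 ξ
        generalize (starRingEnd ℂ) (ch θ η) = p at *
        generalize (starRingEnd ℂ) (ch θ ξ) = q at *
        linear_combination ((starRingEnd ℂ) ⟪U Ψ η y, h⟫_ℂ * ⟪U Ψ η y, a⟫_ℂ) *
          (ch θ ξ * q * a3 + a4)

lemma Θ_adj (hy : Bes (fun ξ => U Ψ ξ y) c) (u : L2 volume) : ‖(Θ hy).adjoint u‖ ≤ c * ‖u‖ := by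
  have h2 : ‖(Θ hy).adjoint‖ = ‖Θ hy‖ := ContinuousLinearMap.adjoint.norm_map _
  refine ((Θ hy).adjoint.le_opNorm u).trans (mul_le_mul_of_nonneg_right ?_ (norm_nonneg _))
  rw [h2]; exact LinearMap.mkContinuous_norm_le _ hy.nonneg _

lemma bes_T (hy : Bes (fun ξ => U Ψ ξ y) c) (ha : Bes (fun ξ => U Φ ξ x) M) (θ : ℂ) :
    Bes (fun ξ => U Ψ ξ ((Tθ hy θ).adjoint (Tθ hy θ (ψ Φ Ψ x ξ)))) (5 * c ^ 2 * M) := by
  have hc := hy.nonneg
  have hM := ha.nonneg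
  have hψ := ψ_cont Φ Ψ x
  have n0 : ∀ h, ‖(Θ hy).adjoint (Θ hy h)‖ ≤ c ^ 2 * ‖h‖ := fun h =>
    (Θ_adj hy _).trans (by have := Θ_le hy h; nlinarith)
  have n1 : ∀ h θ, ‖(Θ hy).adjoint (mθ θ (Θ hy h))‖ ≤ c ^ 2 * ‖h‖ := fun h θ =>
    (Θ_adj hy _).trans (by rw [norm_mθ]; have := Θ_le hy h; nlinarith)
  have key : ∀ h ξ, ‖⟪h, U Ψ ξ ((Tθ hy θ).adjoint (Tθ hy θ (ψ Φ Ψ x ξ)))⟫_ℂ‖ ≤
      2 * ‖⟪(Θ hy).adjoint (Θ hy h), U Φ ξ x⟫_ℂ‖ +
      ‖⟪(Θ hy).adjoint (mθ (-θ) (Θ hy h)), U Φ ξ x⟫_ℂ‖ +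
      ‖⟪(Θ hy).adjoint (mθ θ (Θ hy h)), U Φ ξ x⟫_ℂ‖ := fun h ξ => by
    rw [ψ, weyl]
    simp only [ContinuousLinearMap.adjoint_inner_left, inner_add_left, inner_sub_left,
      inner_smul_left]
    refine (norm_add_le _ _).trans ((add_le_add (norm_sub_le _ _) (norm_sub_le _ _)).trans ?_)
    simp only [norm_mul, RCLike.norm_conj, norm_ch, one_mul]
    linarith
  refine ⟨(U_cont Ψ).clm_apply (by fun_prop), fun ξ => ?_, fun h => ?_⟩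
  · set v := U Ψ ξ ((Tθ hy θ).adjoint (Tθ hy θ (ψ Φ Ψ x ξ))) with hv
    have k := key v ξ
    have b : ∀ w : H, ‖w‖ ≤ c ^ 2 * ‖v‖ → ‖⟪w, U Φ ξ x⟫_ℂ‖ ≤ c ^ 2 * ‖v‖ * M := fun w hw =>
      (norm_inner_le_norm _ _).trans (by gcongr; exact ha.bd ξ)
    rw [← hv, inner_self_eq_norm_sq_to_K, norm_pow, RCLike.norm_ofReal, abs_norm] at k
    have k2 : ‖v‖ * ‖v‖ ≤ (4 * c ^ 2 * M) * ‖v‖ := by
      linarith [b _ (n0 v), b _ (n1 v θ), b _ (n1 v (-θ))]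
    rcases (norm_nonneg v).eq_or_lt with h0 | h0
    · rw [← h0]; positivity
    · have := le_of_mul_le_mul_right k2 h0
      nlinarith [mul_nonneg (sq_nonneg c) hM]
  · have hca := ha.cont
    have mm : ∀ w : H, Measurable fun ξ => ENNReal.ofReal (‖⟪w, U Φ ξ x⟫_ℂ‖ ^ 2) := fun w =>
      (show Continuous fun ξ => ‖⟪w, U Φ ξ x⟫_ℂ‖ ^ 2 by fun_prop).measurable.ennreal_ofReal
    have b : ∀ w : H, ‖w‖ ≤ c ^ 2 * ‖h‖ → ∫⁻ ξ, ENNReal.ofReal (‖⟪w, U Φ ξ x⟫_ℂ‖ ^ 2) ≤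
        ENNReal.ofReal (M ^ 2 * (c ^ 2 * ‖h‖) ^ 2) := fun w hw =>
      (ha.bes w).trans (ENNReal.ofReal_le_ofReal (by gcongr))
    calc _ ≤ ∫⁻ ξ, (ENNReal.ofReal 12 *
          ENNReal.ofReal (‖⟪(Θ hy).adjoint (Θ hy h), U Φ ξ x⟫_ℂ‖ ^ 2) + (ENNReal.ofReal 3 *
          ENNReal.ofReal (‖⟪(Θ hy).adjoint (mθ (-θ) (Θ hy h)), U Φ ξ x⟫_ℂ‖ ^ 2) + ENNReal.ofReal 3 *
          ENNReal.ofReal (‖⟪(Θ hy).adjoint (mθ θ (Θ hy h)), U Φ ξ x⟫_ℂ‖ ^ 2))) := by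
          refine lintegral_mono fun ξ => ?_
          rw [← ENNReal.ofReal_mul (by norm_num), ← ENNReal.ofReal_mul (by norm_num),
            ← ENNReal.ofReal_mul (by norm_num), ← ENNReal.ofReal_add (by positivity) (by positivity),
            ← ENNReal.ofReal_add (by positivity) (by positivity)]
          refine ENNReal.ofReal_le_ofReal ((pow_le_pow_left₀ (norm_nonneg _) (key h ξ) 2).trans ?_)
          generalize ‖⟪(Θ hy).adjoint (Θ hy h), U Φ ξ x⟫_ℂ‖ = p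
          generalize ‖⟪(Θ hy).adjoint (mθ (-θ) (Θ hy h)), U Φ ξ x⟫_ℂ‖ = q
          generalize ‖⟪(Θ hy).adjoint (mθ θ (Θ hy h)), U Φ ξ x⟫_ℂ‖ = r
          nlinarith [sq_nonneg (2 * p - q), sq_nonneg (2 * p - r), sq_nonneg (q - r)]
      _ ≤ ENNReal.ofReal 12 * ENNReal.ofReal (M ^ 2 * (c ^ 2 * ‖h‖) ^ 2) +
          (ENNReal.ofReal 3 * ENNReal.ofReal (M ^ 2 * (c ^ 2 * ‖h‖) ^ 2) +
          ENNReal.ofReal 3 * ENNReal.ofReal (M ^ 2 * (c ^ 2 * ‖h‖) ^ 2)) := by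
          rw [lintegral_add_left ((mm _).const_mul _), lintegral_add_left ((mm _).const_mul _),
            lintegral_const_mul _ (mm _), lintegral_const_mul _ (mm _), lintegral_const_mul _ (mm _)]
          gcongr
          · exact b _ (n0 h)
          · exact b _ (n1 h _)
          · exact b _ (n1 h _)
      _ ≤ _ := by
          rw [← ENNReal.ofReal_mul (by norm_num), ← ENNReal.ofReal_mul (by norm_num),
            ← ENNReal.ofReal_add (by positivity) (by positivity),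
            ← ENNReal.ofReal_add (by positivity) (by positivity)]
          apply ENNReal.ofReal_le_ofReal
          have : 0 ≤ M ^ 2 * (c ^ 2 * ‖h‖) ^ 2 := by positivity
          nlinarith

lemma ch_sub_one (θ z : ℂ) : ‖1 - ch θ z‖ ≤ ‖θ‖ * ‖z‖ := by
  rw [norm_sub_rev, ch]
  refine Real.norm_exp_I_mul_ofReal_sub_one_le.trans ?_
  have : pr θ z = ⟪z, θ⟫_ℝ := by rw [Complex.inner]; simp [pr]
  rw [this, mul_comm]
  exact norm_inner_le_norm _ _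

theorem equi (h1 : LZ (K1 Φ Ψ)) (h2 : LZ (K2 Φ Ψ)) (ha : Bes (fun ξ => U Φ ξ x) M)
    (hy : Bes (fun ξ => U Ψ ξ y) c) {ε : ℝ} (hε : 0 < ε) :
    ∀ᶠ θ in 𝓝 (0 : ℂ), ∀ ξ, ‖Tθ hy θ (ψ Φ Ψ x ξ)‖ ^ 2 ≤ ε := by
  have hc := hy.nonneg
  have hM := ha.nonneg
  obtain ⟨F, R, δ, hF, hδ, k⟩ := quad (G := L2 volume) h1 h2 (ha.mono (M' := M + 5 * c ^ 2 * M)
    (le_add_of_nonneg_right (by positivity))) (half_pos hε)
  have e1 : ∀ᶠ θ in 𝓝 (0 : ℂ), ‖Θ hy x - mθ θ (Θ hy x)‖ ^ 2 < ε / 2 := by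
    have := (mθ_tendsto (Θ hy x)).pow 2
    rw [zero_pow two_ne_zero] at this
    exact this.eventually (gt_mem_nhds (half_pos hε))
  have e2 : ∀ᶠ θ in 𝓝 (0 : ℂ), ∀ f ∈ F, (‖Θ hy f - mθ (-θ) (Θ hy f)‖ + ‖Θ hy f - mθ θ (Θ hy f)‖ +
      2 * (‖θ‖ * R * ‖Θ hy f‖)) * (c * M) < δ := by
    rw [eventually_all_finite hF]
    intro f _
    have t1 := (mθ_tendsto (Θ hy f)).comp (show Tendsto (fun θ : ℂ => -θ) (𝓝 0) (𝓝 0) by
      simpa using (continuous_neg (G := ℂ)).tendsto 0)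
    have t2 : Tendsto (fun θ : ℂ => 2 * (‖θ‖ * R * ‖Θ hy f‖)) (𝓝 0) (𝓝 0) := by
      have c : Continuous fun θ : ℂ => 2 * (‖θ‖ * R * ‖Θ hy f‖) := by fun_prop
      simpa using c.tendsto 0
    have t3 := ((t1.add (mθ_tendsto (Θ hy f))).add t2).mul_const (c * M)
    simp only [add_zero, zero_mul] at t3
    exact t3.eventually (gt_mem_nhds hδ)
  filter_upwards [e1, e2] with θ a1 a2 ξ
  have := k (Tθ hy θ) ((bes_T hy ha θ).mono (le_add_of_nonneg_left hM)) (fun z hz f hf => ?_) ξ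
  · have e : Tθ hy θ x = Θ hy x - mθ θ (Θ hy x) := rfl
    rw [e] at this
    linarith
  · rw [ψ, weyl]
    refine (norm_inner_le_norm _ _).trans (le_trans ?_ (a2 f hf).le)
    have b : ∀ θ' θ'' : ℂ, ‖θ'‖ = ‖θ‖ → ‖Θ hy f - ch θ' z • mθ θ'' (Θ hy f)‖ ≤
        ‖Θ hy f - mθ θ'' (Θ hy f)‖ + ‖θ‖ * R * ‖Θ hy f‖ := fun θ' θ'' h => by
      have : Θ hy f - ch θ' z • mθ θ'' (Θ hy f) =
          (Θ hy f - mθ θ'' (Θ hy f)) + (1 - ch θ' z) • mθ θ'' (Θ hy f) := by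
        rw [sub_smul, one_smul]; abel
      rw [this]
      refine (norm_add_le _ _).trans ?_
      rw [norm_smul, norm_mθ]
      gcongr
      exact (ch_sub_one _ _).trans (by rw [h]; gcongr)
    have b1 := (norm_add_le _ _).trans (add_le_add (b θ (-θ) rfl) (b (-θ) θ (norm_neg θ)))
    refine mul_le_mul (b1.trans (le_of_eq (by ring))) ?_ (norm_nonneg _)
      ((norm_nonneg _).trans (b1.trans (le_of_eq (by ring))))
    exact (Θ_le hy _).trans (mul_le_mul_of_nonneg_left (ha.bd z) hc)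

theorem tight (h1 : LZ (K1 Φ Ψ)) (h2 : LZ (K2 Φ Ψ)) (ha : Bes (fun ξ => U Φ ξ x) M)
    (hy : Bes (fun ξ => U Ψ ξ y) c) {ε : ℝ} (hε : 0 < ε) : ∃ R : ℝ, 0 < R ∧ ∀ ξ,
    ∫⁻ η in (ball (0 : ℂ) R)ᶜ, ENNReal.ofReal (‖⟪U Ψ η y, ψ Φ Ψ x ξ⟫_ℂ‖ ^ 2) ≤ ENNReal.ofReal ε := by
  obtain ⟨r, hr, k⟩ := Metric.eventually_nhds_iff_ball.1 (equi h1 h2 ha hy hε)
  set B := ball (0 : ℂ) r
  have hB0 : 0 < volume B := measure_ball_pos _ _ hr
  have hB1 : volume B < ∞ := measure_ball_lt_top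
  have hB2 : 0 < volume.real B := ENNReal.toReal_pos hB0.ne' hB1.ne
  have t1 := (FT_RL (B.indicator fun _ => (1 : ℂ))).norm
  rw [norm_zero] at t1
  obtain ⟨R, hR, k2⟩ : ∃ R : ℝ, 0 < R ∧ ∀ η : ℂ, η ∉ ball (0 : ℂ) R →
      ‖FT (B.indicator fun _ => (1 : ℂ)) η‖ < volume.real B / 2 := by
    obtain ⟨C, hC, hC'⟩ := mem_cocompact.1 (t1.eventually (gt_mem_nhds (half_pos hB2)))
    obtain ⟨R, hR, hR'⟩ := hC.isBounded.subset_ball_lt 0 0
    exact ⟨R, hR, fun η hη => hC' fun h => hη (hR' h)⟩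
  have low : ∀ η : ℂ, η ∉ ball (0 : ℂ) R →
      volume B ≤ ∫⁻ θ in B, ENNReal.ofReal (‖1 - ch θ η‖ ^ 2) := fun η hη => by
    have c1 : Continuous fun θ => ch η θ := continuous_ch' η
    have i1 : IntegrableOn (fun θ => ch η θ) B :=
      (c1.continuousOn.integrableOn_compact (isCompact_closedBall 0 r)).mono_set ball_subset_closedBall
    have e : ∀ θ, ‖1 - ch θ η‖ ^ 2 = 2 - 2 * (ch η θ).re := fun θ => by
      have := norm_ch η θ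
      rw [ch_comm θ, Complex.sq_norm, Complex.normSq_sub, Complex.normSq_eq_norm_sq (ch η θ), this]
      simp; ring
    have e2 : FT (B.indicator fun _ => (1 : ℂ)) η = ∫ θ in B, ch η θ := by
      rw [FT, ← integral_indicator (show MeasurableSet B from measurableSet_ball)]
      congr 1; ext θ
      by_cases h : θ ∈ B <;> simp [h]
    have i2 : IntegrableOn (fun θ => 2 - 2 * (ch η θ).re) B :=
      (integrableOn_const hB1.ne).sub (i1.re.const_mul 2)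
    have i3 : IntegrableOn (fun _ => (2 : ℝ)) B := integrableOn_const hB1.ne
    have i4 : IntegrableOn (fun θ => 2 * (ch η θ).re) B := i1.re.const_mul 2
    simp only [e]
    rw [← ofReal_integral_eq_lintegral_ofReal i2 (ae_of_all _ fun θ =>
      (sq_nonneg _).trans (e θ).le), integral_sub i3 i4, integral_const_mul,
      ← ENNReal.ofReal_toReal hB1.ne]
    apply ENNReal.ofReal_le_ofReal
    have a1 : ∫ θ in B, (ch η θ).re = (∫ θ in B, ch η θ).re := integral_re i1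
    have a2 := (Complex.re_le_norm _).trans (e2 ▸ k2 η hη).le
    rw [a1, setIntegral_const, smul_eq_mul]
    unfold Measure.real at *
    linarith
  refine ⟨R, hR, fun ξ => ?_⟩
  have hc := th_cont (Ψ := Ψ) y (ψ Φ Ψ x ξ)
  have m2 : Measurable fun q : ℂ × ℂ => ENNReal.ofReal (‖1 - ch q.2 q.1‖ ^ 2) *
      ENNReal.ofReal (‖⟪U Ψ q.1 y, ψ Φ Ψ x ξ⟫_ℂ‖ ^ 2) := by
    have c1 := continuous_ch.comp continuous_swap
    have c2 := hc.comp (continuous_fst (X := ℂ) (Y := ℂ))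
    exact ((continuous_const.sub c1).norm.pow 2).measurable.ennreal_ofReal.mul
      (c2.norm.pow 2).measurable.ennreal_ofReal
  rw [← ENNReal.mul_le_mul_iff_right hB0.ne' hB1.ne, ← lintegral_const_mul' _ _ hB1.ne]
  calc _ ≤ ∫⁻ η in (ball (0 : ℂ) R)ᶜ, ∫⁻ θ in B, ENNReal.ofReal (‖1 - ch θ η‖ ^ 2) *
        ENNReal.ofReal (‖⟪U Ψ η y, ψ Φ Ψ x ξ⟫_ℂ‖ ^ 2) :=
        setLIntegral_mono' measurableSet_ball.compl fun η hη => by
          rw [lintegral_mul_const' _ _ ENNReal.ofReal_ne_top]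
          gcongr; exact low η hη
    _ ≤ ∫⁻ η, ∫⁻ θ in B, ENNReal.ofReal (‖1 - ch θ η‖ ^ 2) *
        ENNReal.ofReal (‖⟪U Ψ η y, ψ Φ Ψ x ξ⟫_ℂ‖ ^ 2) := setLIntegral_le_lintegral _ _
    _ = ∫⁻ θ in B, ∫⁻ η, ENNReal.ofReal (‖1 - ch θ η‖ ^ 2) *
        ENNReal.ofReal (‖⟪U Ψ η y, ψ Φ Ψ x ξ⟫_ℂ‖ ^ 2) := lintegral_lintegral_swap m2.aemeasurable
    _ ≤ ∫⁻ _ in B, ENNReal.ofReal ε := setLIntegral_mono' measurableSet_ball fun θ hθ => by
        refine le_trans (le_of_eq ?_) (ENNReal.ofReal_le_ofReal (k θ hθ ξ))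
        rw [L2_normsq]
        apply lintegral_congr_ae
        filter_upwards [Tθ_ae hy θ (ψ Φ Ψ x ξ)] with η hη
        rw [hη, norm_mul, mul_pow, ENNReal.ofReal_mul (by positivity)]
    _ = _ := by rw [setLIntegral_const, mul_comm]

end ac

end Pool.Agent.H96.WO
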