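import Pool.Agent.H96.WO6

set_option autoImplicit false
set_option linter.unusedSectionVars false
set_option maxHeartbeats 400000

open Complex MeasureTheory Filter Topology Set Metric
open scoped InnerProductSpace ENNReal NNReal Real BoundedContinuousFunction

namespace Pool.Agent.H96.WO

variable {H : Type*} [NormedAddCommGroup H] [InnerProductSpace ℂ H] [CompleteSpace H]
variable {s : Set ℂ} [CompactSpace s] {Φ Ψ : Hom s H} {x : H} {M : ℝ}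

def Cau (F : ℂ → H) : Prop :=
  ∀ ε : ℝ, 0 < ε → ∃ R : ℝ, ∀ ξ η : ℂ, R ≤ ‖ξ‖ → R ≤ ‖η‖ → ‖F ξ - F η‖ ≤ ε

lemma Cau.add {F G : ℂ → H} (hF : Cau F) (hG : Cau G) : Cau fun ξ => F ξ + G ξ := by
  intro ε hε
  obtain ⟨R, h⟩ := hF _ (half_pos hε)
  obtain ⟨R', h'⟩ := hG _ (half_pos hε)
  refine ⟨max R R', fun ξ η a b => ?_⟩
  have := norm_add_le (F ξ - F η) (G ξ - G η)
  rw [show F ξ - F η + (G ξ - G η) = F ξ + G ξ - (F η + G η) by abel] at this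
  linarith [h ξ η (le_of_max_le_left a) (le_of_max_le_left b),
    h' ξ η (le_of_max_le_right a) (le_of_max_le_right b)]

lemma Cau.map {F : ℂ → H} (hF : Cau F) (T : H →L[ℂ] H) : Cau fun ξ => T (F ξ) := by
  intro ε hε
  obtain ⟨R, h⟩ := hF (ε / (‖T‖ + 1)) (by positivity)
  refine ⟨R, fun ξ η a b => ?_⟩
  rw [← map_sub]
  calc _ ≤ ‖T‖ * ‖F ξ - F η‖ := T.le_opNorm _
    _ ≤ (‖T‖ + 1) * (ε / (‖T‖ + 1)) := by gcongr; exacts [by linarith, h ξ η a b]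
    _ = ε := by field_simp

lemma Cau.approx {F : ℂ → H} (h : ∀ ε : ℝ, 0 < ε → ∃ G, Cau G ∧ ∀ ξ, ‖F ξ - G ξ‖ ≤ ε) : Cau F := by
  intro ε hε
  obtain ⟨G, hG, h1⟩ := h (ε / 3) (by positivity)
  obtain ⟨R, h2⟩ := hG (ε / 3) (by positivity)
  refine ⟨R, fun ξ η a b => ?_⟩
  have := norm_add₃_le (a := F ξ - G ξ) (b := G ξ - G η) (c := -(F η - G η))
  rw [show F ξ - G ξ + (G ξ - G η) + -(F η - G η) = F ξ - F η by abel, norm_neg] at this
  linarith [h1 ξ, h1 η, h2 ξ η a b]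

lemma ev_cocompact {p : ℂ → Prop} (h : ∀ᶠ ξ in cocompact ℂ, p ξ) : ∃ R : ℝ, ∀ ξ, R ≤ ‖ξ‖ → p ξ := by
  obtain ⟨C, hC, hC'⟩ := mem_cocompact.1 h
  obtain ⟨R, hR⟩ := hC.isBounded.subset_ball 0
  exact ⟨R, fun ξ hξ => hC' fun h => (mem_ball_zero_iff.1 (hR h)).not_ge hξ⟩

lemma Cau.of_zero {F : ℂ → H} (h : Tendsto F (cocompact ℂ) (𝓝 0)) : Cau F := by
  intro ε hε
  obtain ⟨R, hR⟩ := ev_cocompact (NormedAddGroup.tendsto_nhds_zero.1 h _ (half_pos hε))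
  exact ⟨R, fun ξ η a b => by linarith [norm_sub_le (F ξ) (F η), hR ξ a, hR η b]⟩

lemma Cau.lim {F : ℂ → H} (h : Cau F) : ∃ y, Tendsto F (cocompact ℂ) (𝓝 y) := by
  apply cauchy_map_iff_exists_tendsto.1
  refine Metric.cauchy_iff.2 ⟨inferInstance, fun ε hε => ?_⟩
  obtain ⟨R, hR⟩ := h _ (half_pos hε)
  refine ⟨F '' (closedBall 0 R)ᶜ, image_mem_map (isCompact_closedBall 0 R).compl_mem_cocompact, ?_⟩
  rintro _ ⟨ξ, a, rfl⟩ _ ⟨η, b, rfl⟩
  simp only [mem_compl_iff, mem_closedBall_zero_iff, not_le] at a b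
  rw [dist_eq_norm]
  linarith [hR ξ η a.le b.le]

theorem ac_cau (h1 : LZ (K1 Φ Ψ)) (h2 : LZ (K2 Φ Ψ)) (ha : Bes (fun ξ => U Φ ξ x) M)
    (P : H →L[ℂ] H) (hP : ∀ h, ‖P h‖ ≤ ‖h‖) (y : H)
    (hy : ∀ h, ∫⁻ ξ, ENNReal.ofReal (‖⟪h, U Ψ ξ y⟫_ℂ‖ ^ 2) =
      ENNReal.ofReal (4 * π ^ 2 * ‖P h‖ ^ 2)) : Cau fun ξ => P (ψ Φ Ψ x ξ) := by
  have hM := ha.nonneg
  have hπ := Real.pi_gt_three
  have hb : Bes (fun ξ => U Ψ ξ y) (M + (‖y‖ + 2 * π)) := by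
    refine ⟨(U_cont Ψ).clm_apply continuous_const, fun ξ => by rw [norm_U]; linarith,
      fun h => (hy h).le.trans (ENNReal.ofReal_le_ofReal ?_)⟩
    rw [show 4 * π ^ 2 = (2 * π) ^ 2 by ring]
    gcongr
    · linarith [norm_nonneg y]
    · exact hP h
  have ha' := ha.mono (M' := M + (‖y‖ + 2 * π)) (le_add_of_nonneg_right (by positivity))
  intro ε hε
  obtain ⟨R, hR, k1⟩ := tight h1 h2 ha hb (show 0 < ε ^ 2 / 8 by positivity)
  obtain ⟨R', k2⟩ := weak h1 h2 ha' (show 0 < ε / (4 * R) by positivity)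
  refine ⟨R', fun ξ ξ' a a' => ?_⟩
  have hbη : ∀ η, Bes (fun ξ => U Ψ ξ (U Ψ η y)) (M + (‖y‖ + 2 * π)) := fun η => by
    simp only [← U_add]
    refine ⟨hb.cont.comp (continuous_add_const η), fun ξ => hb.bd _, fun h => ?_⟩
    rw [lintegral_add_right_eq_self (fun ξ => ENNReal.ofReal (‖⟪h, U Ψ ξ y⟫_ℂ‖ ^ 2)) η]
    exact hb.bes h
  have mm : ∀ w : H, Measurable fun η => ENNReal.ofReal (‖⟪U Ψ η y, w⟫_ℂ‖ ^ 2) := fun w =>
    ((th_cont y w).norm.pow 2).measurable.ennreal_ofReal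
  have key : ENNReal.ofReal (4 * π ^ 2 * ‖P (ψ Φ Ψ x ξ - ψ Φ Ψ x ξ')‖ ^ 2) ≤
      ENNReal.ofReal (ε ^ 2) := by
    rw [← hy, ← lintegral_add_compl _ (measurableSet_ball (x := (0 : ℂ)) (ε := R))]
    calc _ ≤ (∫⁻ _ in ball (0 : ℂ) R, ENNReal.ofReal ((ε / (4 * R)) ^ 2)) +
          ∫⁻ η in (ball (0 : ℂ) R)ᶜ, (ENNReal.ofReal 2 *
            ENNReal.ofReal (‖⟪U Ψ η y, ψ Φ Ψ x ξ⟫_ℂ‖ ^ 2) + ENNReal.ofReal 2 *
            ENNReal.ofReal (‖⟪U Ψ η y, ψ Φ Ψ x ξ'⟫_ℂ‖ ^ 2)) := by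
          refine add_le_add (lintegral_mono fun η => ENNReal.ofReal_le_ofReal ?_)
            (lintegral_mono fun η => ?_)
          · rw [norm_inner_symm, inner_sub_right]
            exact pow_le_pow_left₀ (norm_nonneg _) (k2 _ (hbη η) ξ ξ' a a') 2
          · rw [← ENNReal.ofReal_mul two_pos.le, ← ENNReal.ofReal_mul two_pos.le,
              ← ENNReal.ofReal_add (by positivity) (by positivity), norm_inner_symm, inner_sub_right]
            refine ENNReal.ofReal_le_ofReal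
              ((pow_le_pow_left₀ (norm_nonneg _) (norm_sub_le _ _) 2).trans ?_)
            nlinarith [sq_nonneg (‖⟪U Ψ η y, ψ Φ Ψ x ξ⟫_ℂ‖ - ‖⟪U Ψ η y, ψ Φ Ψ x ξ'⟫_ℂ‖)]
      _ ≤ ENNReal.ofReal ((ε / (4 * R)) ^ 2) * ENNReal.ofReal (4 * R ^ 2) +
          (ENNReal.ofReal 2 * ENNReal.ofReal (ε ^ 2 / 8) +
            ENNReal.ofReal 2 * ENNReal.ofReal (ε ^ 2 / 8)) := by
          rw [setLIntegral_const, lintegral_add_left ((mm _).const_mul _),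
            lintegral_const_mul _ (mm _), lintegral_const_mul _ (mm _)]
          gcongr
          · exact vol_ball_le hR
          · exact k1 ξ
          · exact k1 ξ'
      _ ≤ _ := by
          rw [← ENNReal.ofReal_mul two_pos.le, ← ENNReal.ofReal_mul (by positivity),
            ← ENNReal.ofReal_add (by positivity) (by positivity),
            ← ENNReal.ofReal_add (by positivity) (by positivity)]
          apply ENNReal.ofReal_le_ofReal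
          have : (ε / (4 * R)) ^ 2 * (4 * R ^ 2) = ε ^ 2 / 4 := by field_simp
          rw [this]; nlinarith [sq_nonneg ε]
  rw [ENNReal.ofReal_le_ofReal_iff (by positivity), map_sub] at key
  apply le_of_sq_le_sq _ hε.le
  have : 1 ≤ 4 * π ^ 2 := by nlinarith
  nlinarith [sq_nonneg ‖P (ψ Φ Ψ x ξ) - P (ψ Φ Ψ x ξ')‖]

/-- absolute continuity of all scalar spectral measures -/
def AC (Φ : Hom s H) : Prop :=
  ∀ (x : H) (μ : Measure ℂ) (J : L2 μ →L[ℂ] H), Rep Φ x μ J → μ ≪ volume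

lemma AC.dense (h : AC Φ) (x : H) {ε : ℝ} (hε : 0 < ε) : ∃ x', Nice Φ x' ∧ ‖x - x'‖ ≤ ε := by
  obtain ⟨μ, J, R⟩ := exists_rep Φ x
  exact R.nice_approx (h x μ J R) hε

lemma zero_approx {E : Type*} [NormedAddCommGroup E] {F : ℂ → E}
    (h : ∀ ε : ℝ, 0 < ε → ∃ G : ℂ → E, Tendsto G (cocompact ℂ) (𝓝 0) ∧ ∀ ξ, ‖F ξ - G ξ‖ ≤ ε) :
    Tendsto F (cocompact ℂ) (𝓝 0) := by
  refine NormedAddGroup.tendsto_nhds_zero.2 fun ε hε => ?_
  obtain ⟨G, hG, h1⟩ := h _ (half_pos hε)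
  filter_upwards [NormedAddGroup.tendsto_nhds_zero.1 hG _ (half_pos hε)] with ξ h2
  linarith [norm_sub_norm_le (F ξ) (G ξ), h1 ξ]

lemma AC.rl (h : AC Φ) (v x : H) : Tendsto (fun ξ => ⟪v, U Φ ξ x⟫_ℂ) (cocompact ℂ) (𝓝 0) := by
  refine zero_approx fun ε hε => ?_
  obtain ⟨x', h1, h2⟩ := h.dense x (show 0 < ε / (‖v‖ + 1) by positivity)
  refine ⟨_, h1.2 v, fun ξ => ?_⟩
  rw [← inner_sub_right, ← map_sub]
  calc _ ≤ ‖v‖ * ‖U Φ ξ (x - x')‖ := norm_inner_le_norm _ _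
    _ ≤ (‖v‖ + 1) * (ε / (‖v‖ + 1)) := by rw [norm_U]; gcongr; linarith
    _ = ε := by field_simp

lemma AC.lz (h : AC Φ) {K : H →L[ℂ] H} (hK : LZ K) (x : H) :
    Tendsto (fun ξ => K (U Φ ξ x)) (cocompact ℂ) (𝓝 0) := by
  refine zero_approx fun ε hε => ?_
  obtain ⟨n, e, f, h1, -⟩ := hK (ε / (‖x‖ + 1)) (by positivity)
  refine ⟨fun ξ => rk e f (U Φ ξ x), ?_, fun ξ => (h1 _).trans ?_⟩
  · have := tendsto_finsetSum (Finset.univ : Finset (Fin n)) fun i _ =>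
      (h.rl (e i) x).smul_const (f i)
    simpa [rk] using this
  · rw [norm_U]
    calc _ ≤ ε / (‖x‖ + 1) * (‖x‖ + 1) := by gcongr; linarith
      _ = ε := by field_simp

theorem kill (h : AC Φ) (h1 : LZ (K1 Φ Ψ)) (h2 : LZ (K2 Φ Ψ)) (f : C(s, ℂ)) :
    ∀ x, Tendsto (fun ξ => Φ f (U Φ ξ x) - Ψ f (U Φ ξ x)) (cocompact ℂ) (𝓝 0) := by
  induction f using ContinuousMap.induction_on_of_compact with
  | const r =>
    intro x
    have : ContinuousMap.const s r = algebraMap ℂ C(s, ℂ) r := rfl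
    simp only [this, AlgHomClass.commutes, sub_self, tendsto_const_nhds]
  | id =>
    intro x
    have : (ContinuousMap.restrict s (ContinuousMap.id ℂ)) = reC s + I • imC s := by
      ext z; simp [reC, imC, mul_comm I]
    have t := (h.lz h1 x).add ((h.lz h2 x).const_smul I)
    rw [smul_zero, add_zero] at t
    refine t.congr fun ξ => ?_
    simp only [this, K1, K2, map_add, map_smul, add_apply, sub_apply, smul_apply]
    module
  | star_id =>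
    intro x
    have : star (ContinuousMap.restrict s (ContinuousMap.id ℂ)) = reC s - I • imC s := by
      ext z; apply Complex.ext <;> simp [reC, imC]
    have t := (h.lz h1 x).sub ((h.lz h2 x).const_smul I)
    rw [smul_zero, sub_zero] at t
    refine t.congr fun ξ => ?_
    simp only [this, K1, K2, map_sub, map_smul, sub_apply, smul_apply]
    module
  | add f g hf hg =>
    intro x
    have t := (hf x).add (hg x)
    rw [add_zero] at t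
    refine t.congr fun ξ => ?_
    simp only [map_add, add_apply]; abel
  | mul f g hf hg =>
    intro x
    have t := (hf (Φ g x)).add (((Ψ f).continuous.tendsto 0).comp (hg x))
    rw [map_zero, add_zero] at t
    refine t.congr fun ξ => ?_
    simp only [map_mul, Function.comp_apply, map_sub, U_comm]
    show _ = Φ f (Φ g _) - Ψ f (Ψ g _)
    abel
  | frequently f hf =>
    intro x
    refine zero_approx fun ε hε => ?_
    obtain ⟨g, hg, hg'⟩ := (hf.and_eventually (ball_mem_nhds f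
      (show 0 < ε / (2 * (‖x‖ + 1)) by positivity))).exists
    refine ⟨_, hg x, fun ξ => ?_⟩
    have b : ∀ Θ : Hom s H, ‖Θ f (U Φ ξ x) - Θ g (U Φ ξ x)‖ ≤ ε / 2 := fun Θ => by
      have : ‖f - g‖ ≤ ε / (2 * (‖x‖ + 1)) := by
        rw [norm_sub_rev, ← dist_eq_norm]; exact (mem_ball.1 hg').le
      calc _ = ‖Θ (f - g) (U Φ ξ x)‖ := by rw [map_sub]; rfl
        _ ≤ ‖Θ (f - g)‖ * ‖U Φ ξ x‖ := ContinuousLinearMap.le_opNorm _ _
        _ ≤ ε / (2 * (‖x‖ + 1)) * (‖x‖ + 1) := by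
            rw [norm_U]; gcongr; exacts [(norm_Φ Θ _).trans this, by linarith]
        _ = _ := by field_simp
    have := norm_sub_le (Φ f (U Φ ξ x) - Φ g (U Φ ξ x)) (Ψ f (U Φ ξ x) - Ψ g (U Φ ξ x))
    rw [show Φ f (U Φ ξ x) - Φ g (U Φ ξ x) - (Ψ f (U Φ ξ x) - Ψ g (U Φ ξ x)) =
      Φ f (U Φ ξ x) - Ψ f (U Φ ξ x) - (Φ g (U Φ ξ x) - Ψ g (U Φ ξ x)) by abel] at this
    linarith [b Φ, b Ψ]

theorem sing (h : AC Φ) (h1 : LZ (K1 Φ Ψ)) (h2 : LZ (K2 Φ Ψ)) {y : H} {μ : Measure ℂ}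
    {J : L2 μ →L[ℂ] H} (R : Rep Ψ y μ J) {C : Set ℂ} (hC : IsCompact C) (h0 : volume C = 0) (x : H) :
    Tendsto (fun ξ => PE J hC.measurableSet (ψ Φ Ψ x ξ)) (cocompact ℂ) (𝓝 0) := by
  obtain ⟨ν, J', R'⟩ := exists_rep Φ x
  have := R'.fin
  refine NormedAddGroup.tendsto_nhds_zero.2 fun ε hε => ?_
  obtain ⟨O, hCO, hO, hν⟩ := C.exists_isOpen_lt_of_lt (μ := ν) (ENNReal.ofReal ((ε / 2) ^ 2)) (by
    rw [h x ν J' R' h0]; exact ENNReal.ofReal_pos.2 (by positivity))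
  obtain ⟨χ, c1, c0, -, c2⟩ := exists_continuous_one_zero_of_isCompact hC hO.isClosed_compl
    (disjoint_compl_right_iff_subset.2 hCO)
  have c3 : ∀ z, ‖(χ z : ℂ)‖ ≤ 1 := fun z => by
    rw [Complex.norm_real, Real.norm_of_nonneg (c2 z).1]; exact (c2 z).2
  let m : ℂ →ᵇ ℂ := BoundedContinuousFunction.ofNormedAddCommGroup (fun z => (χ z : ℂ))
    (by fun_prop) 1 c3
  have hm : ∀ z, m z = χ z := fun _ => rfl
  have a1 : ‖Φ (res s m) x‖ ≤ ε / 2 := by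
    have h3 : MemLp (fun _ : ℂ => (1 : ℂ)) 2 ν := memLp_const 1
    rw [← R'.one _ h3.coeFn_toLp, R'.mul m _ _ (ml_ae (memB m) _), R'.norm_J]
    apply le_of_sq_le_sq _ (by positivity)
    rw [← ENNReal.ofReal_le_ofReal_iff (by positivity), L2_normsq]
    refine le_trans ?_ hν.le
    rw [← lintegral_indicator_one hO.measurableSet]
    apply lintegral_mono_ae
    filter_upwards [ml_ae (memB m) (h3.toLp _), h3.coeFn_toLp] with z h4 h5
    rw [h4, h5, mul_one, hm]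
    by_cases hz : z ∈ O
    · rw [indicator_of_mem hz, Pi.one_apply, ENNReal.ofReal_le_one]
      exact pow_le_one₀ (norm_nonneg _) (c3 z)
    · rw [c0 hz]; simp
  filter_upwards [NormedAddGroup.tendsto_nhds_zero.1 (kill h h1 h2 (res s m) x) _ (half_pos hε)]
    with ξ hξ
  rw [ψ, ← R.PE_U, norm_U, ← R.PE_abs _ m (fun z hz => by rw [hm, c1 hz]; simp)]
  refine (R.PE_contr _ _).1.trans_lt ?_
  have := norm_sub_norm_le (Ψ (res s m) (U Φ ξ x)) (Φ (res s m) (U Φ ξ x))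
  rw [norm_sub_rev, ← U_comm Φ, norm_U, U_comm] at this
  linarith

theorem one_vec (h : AC Φ) (h1 : LZ (K1 Φ Ψ)) (h2 : LZ (K2 Φ Ψ)) (ha : Bes (fun ξ => U Φ ξ x) M)
    (y : H) {ε : ℝ} (hε : 0 < ε) : ∃ T : H →L[ℂ] H, (∀ ξ v, U Ψ ξ (T v) = T (U Ψ ξ v)) ∧
      (∀ v, ‖v - T v‖ ≤ ‖v‖) ∧ ‖y - T y‖ ≤ ε ∧ Cau fun ξ => T (ψ Φ Ψ x ξ) := by
  obtain ⟨μ, J, R⟩ := exists_rep Ψ y
  have := R.fin
  obtain ⟨E, hE, Z, hZ, hd, h0, h3, y₁, h4⟩ := R.frame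
  obtain ⟨C, hCZ, hC, h5⟩ := hZ.exists_isCompact_sdiff_lt (measure_ne_top μ Z)
    (ENNReal.ofReal_pos.2 (show 0 < ε ^ 2 by positivity)).ne'
  refine ⟨PE J (hE.union hC.measurableSet), fun ξ v => R.PE_U _ ξ v, fun v => (R.PE_contr _ v).2,
    ?_, ?_⟩
  · apply le_of_sq_le_sq _ hε.le
    rw [R.PE_y]
    refine ENNReal.toReal_le_of_le_ofReal (by positivity) ?_
    calc μ (E ∪ C)ᶜ ≤ μ ((E ∪ Z)ᶜ ∪ (Z \ C)) := measure_mono fun z hz => by
          simp only [mem_compl_iff, mem_union, Set.mem_sdiff] at hz ⊢; tauto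
      _ ≤ μ (E ∪ Z)ᶜ + μ (Z \ C) := measure_union_le _ _
      _ ≤ _ := by rw [h3, zero_add]; exact h5.le
  · simp only [R.PE_union hE hC.measurableSet (hd.mono_right hCZ)]
    exact (ac_cau h1 h2 ha _ (fun v => (R.PE_contr hE v).1) y₁ h4).add
      (Cau.of_zero (sing h h1 h2 R hC (measure_mono_null hCZ h0) x))

theorem fin_vec (h : AC Φ) (h1 : LZ (K1 Φ Ψ)) (h2 : LZ (K2 Φ Ψ)) (ha : Bes (fun ξ => U Φ ξ x) M)
    {F : Set H} (hF : F.Finite) {δ : ℝ} (hδ : 0 < δ) : ∃ S : H →L[ℂ] H,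
      (∀ ξ v, U Ψ ξ (S v) = S (U Ψ ξ v)) ∧ (∀ v, ‖S v‖ ≤ ‖v‖) ∧ (∀ f ∈ F, ‖S f‖ ≤ δ) ∧
      Cau fun ξ => ψ Φ Ψ x ξ - S (ψ Φ Ψ x ξ) := by
  induction F, hF using Set.Finite.induction_on with
  | empty =>
    refine ⟨1, fun _ _ => rfl, fun _ => le_rfl, by simp, Cau.of_zero ?_⟩
    simp
  | @insert v F _ _ ih =>
    obtain ⟨S, s1, s2, s3, s4⟩ := ih
    obtain ⟨T, t1, t2, t3, t4⟩ := one_vec h h1 h2 ha (S v) hδ
    refine ⟨S - T ∘L S, fun ξ w => ?_, fun w => (t2 _).trans (s2 w), ?_, ?_⟩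
    · show U Ψ ξ (S w - T (S w)) = S _ - T (S _)
      rw [map_sub, t1, s1]
    · rintro f (rfl | hf)
      · exact t3
      · exact (t2 _).trans (s3 f hf)
    · convert (s4.add t4).add (s4.map (-T)) using 2 with ξ
      show _ - (S _ - T (S _)) = _ + _ + -T _
      rw [map_sub]; abel

theorem cau_nice (h : AC Φ) (h1 : LZ (K1 Φ Ψ)) (h2 : LZ (K2 Φ Ψ)) (ha : Bes (fun ξ => U Φ ξ x) M) :
    Cau (ψ Φ Ψ x) := by
  refine Cau.approx fun ε hε => ?_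
  have hM := ha.nonneg
  obtain ⟨F, R, δ, hF, hδ, k⟩ := quad (G := H) h1 h2 ha (show 0 < ε ^ 2 / 2 by positivity)
  obtain ⟨S, s1, s2, s3, s4⟩ := fin_vec h h1 h2 ha (hF.insert x)
    (lt_min (half_pos hε) (show 0 < δ / (M + 1) by positivity))
  refine ⟨_, s4, fun ξ => ?_⟩
  have e : ∀ v z, ⟪v, U Ψ z (S.adjoint (S (ψ Φ Ψ x z)))⟫_ℂ = ⟪S v, S (U Φ z x)⟫_ℂ := fun v z => by
    rw [← neg_neg z, ← U_inner, ContinuousLinearMap.adjoint_inner_right, neg_neg, ψ, ← s1, ← s1,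
      U_inner, neg_neg, U_cancel']
  have hψ := ψ_cont Φ Ψ x
  have n1 : ‖S‖ ≤ 1 := S.opNorm_le_bound zero_le_one fun v => by rw [one_mul]; exact s2 v
  have n2 : ∀ v, ‖S.adjoint v‖ ≤ ‖v‖ := fun v => (S.adjoint.le_opNorm v).trans (by
    rw [ContinuousLinearMap.adjoint.norm_map S]; exact mul_le_of_le_one_left (norm_nonneg _) n1)
  have := k S ⟨(U_cont Ψ).clm_apply (by fun_prop), fun z => ?_, fun v => ?_⟩ (fun z _ f hf => ?_) ξ
  · rw [sub_sub_cancel]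
    apply le_of_sq_le_sq _ hε.le
    have a := (s3 x (mem_insert _ _)).trans (min_le_left _ _)
    nlinarith [norm_nonneg (S x)]
  · rw [norm_U]
    refine (n2 _).trans ((s2 _).trans ?_)
    rw [norm_ψ, ← norm_U Φ z]; exact ha.bd z
  · simp only [e, ← ContinuousLinearMap.adjoint_inner_left S]
    refine (ha.bes _).trans (ENNReal.ofReal_le_ofReal ?_)
    gcongr; exact (n2 _).trans (s2 _)
  · rw [e]
    calc _ ≤ ‖S f‖ * ‖S (U Φ z x)‖ := norm_inner_le_norm _ _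
      _ ≤ δ / (M + 1) * (M + 1) := by
          gcongr
          · exact (s3 f (mem_insert_of_mem _ hf)).trans (min_le_right _ _)
          · linarith [s2 (U Φ z x), ha.bd z]
      _ = δ := by field_simp

theorem main (h : AC Φ) (h1 : LZ (K1 Φ Ψ)) (h2 : LZ (K2 Φ Ψ)) (x : H) :
    ∃ y, Tendsto (ψ Φ Ψ x) (cocompact ℂ) (𝓝 y) := by
  refine (Cau.approx fun ε hε => ?_).lim
  obtain ⟨x', ⟨⟨M, ha⟩, -⟩, h3⟩ := h.dense x hε
  refine ⟨_, cau_nice h h1 h2 ha, fun ξ => ?_⟩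
  rwa [ψ, ψ, ← map_sub, ← map_sub, norm_U, norm_U]

end Pool.Agent.H96.WO
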