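import Pool.Agent.H96.WO7

set_option autoImplicit false
set_option linter.unusedSectionVars false
set_option maxHeartbeats 400000

open Complex MeasureTheory Filter Topology Set Metric
open scoped InnerProductSpace ENNReal NNReal Real BoundedContinuousFunction

namespace Pool.Agent.H96.WO

variable {H : Type*} [NormedAddCommGroup H] [InnerProductSpace ℂ H] [CompleteSpace H]

lemma exists_hom {A B : H →L[ℂ] H} (hA : IsSelfAdjoint A) (hB : IsSelfAdjoint B) (hc : Commute A B)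
    {ρ : ℝ} (hρ : ‖A + I • B‖ ≤ ρ) (h0 : 0 ≤ ρ) :
    ∃ Φ : Hom (closedBall (0 : ℂ) ρ) H, Φ (reC _) = A ∧ Φ (imC _) = B := by
  have hs : star (A + I • B) = A - I • B := by
    rw [star_add, star_smul, hA.star_eq, hB.star_eq]; simp [sub_eq_add_neg]
  have hn : IsStarNormal (A + I • B) := ⟨by
    rw [hs]
    exact ((Commute.refl A).add_right (hc.smul_right I)).sub_left
      (((hc.symm).add_right ((Commute.refl B).smul_right I)).smul_left I)⟩
  have hsp : spectrum ℂ (A + I • B) ⊆ closedBall (0 : ℂ) ρ := by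
    intro z hz
    rw [mem_closedBall_zero_iff]
    rcases subsingleton_or_nontrivial (H →L[ℂ] H) with h | h
    · rw [spectrum.of_subsingleton] at hz; exact hz.elim
    · exact (spectrum.norm_le_norm_of_mem hz).trans hρ
  have e1 : reC (closedBall (0 : ℂ) ρ) = (1 / 2 : ℂ) • (ContinuousMap.restrict _ (.id ℂ) +
      star (ContinuousMap.restrict _ (.id ℂ))) := by
    ext z; apply Complex.ext <;> simp [reC]; ring
  have e2 : imC (closedBall (0 : ℂ) ρ) = (-I / 2 : ℂ) • (ContinuousMap.restrict _ (.id ℂ) -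
      star (ContinuousMap.restrict _ (.id ℂ))) := by
    ext z; apply Complex.ext <;> simp [imC]; ring
  refine ⟨cfcHomSuperset hn hsp, ?_, ?_⟩
  · rw [e1, map_smul, map_add, map_star, cfcHomSuperset_id, hs]; module
  · rw [e2, map_smul, map_sub, map_star, cfcHomSuperset_id, hs]
    have : A + I • B - (A - I • B) = (2 * I) • B := by module
    rw [this, smul_smul]
    have : -I / 2 * (2 * I) = 1 := by linear_combination (-1 : ℂ) * I_mul_I
    rw [this, one_smul]

variable {s : Set ℂ} [CompactSpace s]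

lemma U_eq (Φ : Hom s H) (ξ : ℂ) :
    U Φ ξ = NormedSpace.exp (I • ((ξ.re : ℂ) • Φ (reC s) + (ξ.im : ℂ) • Φ (imC s))) := by
  let : Algebra ℚ C(s, ℂ) := .restrictScalars ℚ ℂ _
  let : NormedAlgebra ℚ C(s, ℂ) := .restrictScalars ℚ ℂ _
  let : NormedAlgebra ℚ (H →L[ℂ] H) := .restrictScalars ℚ ℂ _
  rw [U, eC_exp, NormedSpace.map_exp Φ (Φ_cont Φ), lc, map_smul, map_add, map_smul, map_smul]

lemma Rep.char {Φ : Hom s H} {y : H} {μ : Measure ℂ} {J : L2 μ →L[ℂ] H} (R : Rep Φ y μ J) (ξ : ℂ) :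
    ⟪y, U Φ ξ y⟫_ℂ = ∫ z, ch ξ z ∂μ := by
  have := R.fin
  have h3 : MemLp (fun _ : ℂ => (1 : ℂ)) 2 μ := memLp_const 1
  have h4 := R.coef y (h3.toLp _) ξ
  have h5 : J.adjoint y = h3.toLp _ := by rw [← R.one _ h3.coeFn_toLp, R.adj_J]
  rw [R.one _ h3.coeFn_toLp, h5] at h4
  rw [h4]
  apply integral_congr_ae
  filter_upwards [h3.coeFn_toLp] with z hz
  rw [hz]; simp

lemma charFun_eq (μ : Measure ℂ) (ξ : ℂ) : charFun μ ξ = ∫ z, ch ξ z ∂μ := by
  rw [charFun_apply]
  congr 1; ext z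
  rw [ch, mul_comm, Complex.inner]; simp [pr]

lemma ch_int (μ : Measure ℂ) [IsFiniteMeasure μ] (ξ : ℂ) : Integrable (ch ξ) μ :=
  (chB ξ).integrable μ

lemma ac_of_char (μ : Measure ℂ) [IsFiniteMeasure μ] {F : ℂ → ℂ} (hF : Integrable F)
    (h : ∀ ξ, ∫ z, ch ξ z ∂μ = ∫ z, F z * ch ξ z) : μ ≪ volume := by
  have i0 : ∀ {G : ℂ → ℂ}, Integrable G → ∀ ξ, Integrable fun z => G z * ch ξ z := fun hG ξ =>
    hG.mul_bdd (c := 1) (continuous_ch' ξ).aestronglyMeasurable (ae_of_all _ fun z => (norm_ch ξ z).le)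
  have h2 : ∀ ξ, ∫ z, ch ξ z ∂μ = ∫ z, (starRingEnd ℂ) (F z) * ch ξ z := fun ξ => by
    have := congrArg (starRingEnd ℂ) (h (-ξ))
    rw [← integral_conj, ← integral_conj] at this
    simpa [ch_neg] using this
  have hc : Integrable fun z => (starRingEnd ℂ) (F z) := Complex.conjCLE.toContinuousLinearMap.integrable_comp hF
  have h3 : ∀ ξ, ∫ z, ch ξ z ∂μ = ∫ z, ((F z).re : ℂ) * ch ξ z := fun ξ => by
    have : ∫ z, ((F z).re : ℂ) * ch ξ z =
        ∫ z, (1 / 2 : ℂ) * (F z * ch ξ z + (starRingEnd ℂ) (F z) * ch ξ z) := by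
      congr 1; ext z; rw [← add_mul, Complex.add_conj]; push_cast; ring
    rw [this, integral_const_mul, integral_add (i0 hF ξ) (i0 hc ξ), ← h, ← h2]; ring
  have key : ∀ {u : ℂ → ℝ}, Integrable u → IsFiniteMeasure (volume.withDensity
      fun z => ENNReal.ofReal (u z)) ∧ ∀ ξ, ∫ z, ch ξ z ∂(volume.withDensity
      fun z => ENNReal.ofReal (u z)) = ∫ z, ((max (u z) 0 : ℝ) : ℂ) * ch ξ z := fun {u} hu => by
    refine ⟨isFiniteMeasure_withDensity_ofReal hu.2, fun ξ => ?_⟩
    rw [integral_withDensity_eq_integral_toReal_smul₀ hu.1.aemeasurable.ennreal_ofReal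
      (ae_of_all _ fun _ => ENNReal.ofReal_lt_top)]
    simp only [ENNReal.toReal_ofReal', real_smul]
  have u1 : Integrable fun z => (F z).re := hF.re
  obtain ⟨f1, k1⟩ := key u1
  obtain ⟨f2, k2⟩ := key u1.neg
  have e : μ + (volume.withDensity fun z => ENNReal.ofReal ((-fun z => (F z).re) z)) =
      volume.withDensity fun z => ENNReal.ofReal (F z).re := by
    apply Measure.ext_of_charFun
    ext ξ
    have j1 : Integrable fun z => ((F z).re : ℂ) := u1.ofReal
    have j2 : Integrable fun z => ((max ((-fun z => (F z).re) z) 0 : ℝ) : ℂ) :=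
      u1.neg.pos_part.ofReal
    rw [charFun_eq, charFun_eq, integral_add_measure (ch_int _ ξ) (ch_int _ ξ), k1, k2, h3,
      ← integral_add (i0 j1 ξ) (i0 j2 ξ)]
    congr 1; ext z
    simp only [Pi.neg_apply]
    rw [← add_mul]
    congr 1
    have : (F z).re + max (-(F z).re) 0 = max (F z).re 0 := by
      rcases le_total (F z).re 0 with a | a
      · rw [max_eq_left (neg_nonneg.2 a), max_eq_right a]; ring
      · rw [max_eq_right (neg_nonpos.2 a), max_eq_left a]; ring
    exact_mod_cast this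
  exact (Measure.absolutelyContinuous_of_le (e ▸ Measure.le_add_right le_rfl)).trans
    (withDensity_absolutelyContinuous _ _)

lemma ray {ω : ℂ} (hω : ‖ω‖ = 1) : Tendsto (fun t : ℝ => (t : ℂ) * ω) atTop (cocompact ℂ) := by
  rw [← cobounded_eq_cocompact, ← tendsto_norm_atTop_iff_cobounded]
  simp only [norm_mul, hω, mul_one, Complex.norm_real]
  exact tendsto_abs_atTop_atTop

lemma U_ray (Φ : Hom s H) (t a b : ℝ) :
    U Φ ((t : ℂ) * (a + b * I)) = NormedSpace.exp (((t : ℂ) * I) •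
      ((a : ℂ) • Φ (reC s) + (b : ℂ) • Φ (imC s))) := by
  rw [U_eq]
  congr 1
  have h1 : ((t : ℂ) * (a + b * I)).re = t * a := by simp
  have h2 : ((t : ℂ) * (a + b * I)).im = t * b := by simp
  rw [h1, h2]; push_cast; module

lemma U_ray' (Φ : Hom s H) (t a b : ℝ) :
    U Φ (-((t : ℂ) * (a + b * I))) = NormedSpace.exp ((-((t : ℂ) * I)) •
      ((a : ℂ) • Φ (reC s) + (b : ℂ) • Φ (imC s))) := by
  have := U_ray Φ (-t) a b
  push_cast at this
  rw [← neg_mul, this, neg_mul]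

end Pool.Agent.H96.WO
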